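import Mathlib

set_option autoImplicit false

/-!
# The Pell equation `w² - (N²+1) y² = ±2N`

Classification of all solutions, and the shape of the extensions of the `D(-k²)`-triple
`{1, 2k², 2k²+2k+1}`.
-/

namespace Pool.Agent.PSX

/-- `W_0 = 1`, `W_1 = 2N+1`, `W_{j+2} = 2N W_{j+1} + W_j`. -/
def W (N : ℤ) : ℕ → ℤ
  | 0 => 1
  | 1 => 2 * N + 1
  | (j + 2) => 2 * N * W N (j + 1) + W N j

/-- `V_0 = 1`, `V_1 = 2N-1`, `V_{j+2} = 2N V_{j+1} + V_j`. -/
def V (N : ℤ) : ℕ → ℤ
  | 0 => 1
  | 1 => 2 * N - 1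
  | (j + 2) => 2 * N * V N (j + 1) + V N j

theorem W_pos {N : ℤ} (hN : 1 ≤ N) : ∀ j : ℕ, 0 < W N j
  | 0 => by simp [W]
  | 1 => by simp only [W]; omega
  | (j + 2) => by
    have h1 := W_pos hN (j + 1)
    have h2 := W_pos hN j
    simp only [W]
    positivity

theorem V_pos {N : ℤ} (hN : 1 ≤ N) : ∀ j : ℕ, 0 < V N j
  | 0 => by simp [V]
  | 1 => by simp only [V]; omega
  | (j + 2) => by
    have h1 := V_pos hN (j + 1)
    have h2 := V_pos hN j
    simp only [V]
    positivity

/-- The reflection `V_j(N) = (-1)^j W_j(-N)`. -/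
theorem V_eq (N : ℤ) : ∀ j : ℕ, V N j = (-1) ^ j * W (-N) j
  | 0 => by simp [V, W]
  | 1 => by simp only [V, W]; ring
  | (j + 2) => by
    simp only [V, W, V_eq N (j + 1), V_eq N j]
    ring

/-- Descent step. -/
theorem descent_step {N : ℤ} (hN : 1 ≤ N) (hodd : ¬ 2 ∣ N) {y w s : ℤ} (hs : s = 1 ∨ s = -1)
    (hy : 2 ≤ y) (hw : 0 ≤ w) (h : w ^ 2 = (N ^ 2 + 1) * y ^ 2 + 2 * N * s) :
    0 < w - N * y ∧ w - N * y < y := by
  rcases hs with rfl | rfl
  · have h1 : N * y < w := by nlinarith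
    refine ⟨by linarith, ?_⟩
    have h2 : (w - N * y) * (w + N * y) = y ^ 2 + 2 * N := by linear_combination h
    by_contra hge
    push Not at hge
    have h3 : y * (w + N * y) ≤ (w - N * y) * (w + N * y) :=
      mul_le_mul_of_nonneg_right hge (by nlinarith)
    nlinarith
  · have h1 : N * y < w := by
      by_contra hge
      push Not at hge
      rcases hge.lt_or_eq with hlt | heq
      · have h3 : w ≤ N * y - 1 := by omega
        have h4 : w ^ 2 ≤ (N * y - 1) ^ 2 := pow_le_pow_left₀ hw h3 2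
        nlinarith
      · rw [heq] at h
        have h5 : 2 * N = y ^ 2 := by linear_combination h
        have h6 : (2 : ℤ) ∣ y ^ 2 := ⟨N, h5.symm⟩
        have h7 : (2 : ℤ) ∣ y := Int.prime_two.dvd_of_dvd_pow h6
        obtain ⟨t, rfl⟩ := h7
        exact hodd ⟨t ^ 2, by linarith⟩
    refine ⟨by linarith, ?_⟩
    have h2 : (w - N * y) * (w + N * y) = y ^ 2 - 2 * N := by linear_combination h
    by_contra hge
    push Not at hge
    have h3 : y * (w + N * y) ≤ (w - N * y) * (w + N * y) :=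
      mul_le_mul_of_nonneg_right hge (by nlinarith)
    nlinarith

/-- All solutions of `w² = (N²+1) y² + 2 N s`, `s = ±1`, `N` odd. -/
theorem classify {N : ℤ} (hN : 1 ≤ N) (hodd : ¬ 2 ∣ N) : ∀ n : ℕ, ∀ y w s : ℤ, y = n → 0 < y →
    0 ≤ w → (s = 1 ∨ s = -1) → w ^ 2 = (N ^ 2 + 1) * y ^ 2 + 2 * N * s →
    (∃ j : ℕ, y = W N j ∧ w = W N (j + 1) - N * W N j ∧ s = (-1) ^ j) ∨
    (∃ j : ℕ, y = V N j ∧ w = V N (j + 1) - N * V N j ∧ s = (-1) ^ (j + 1)) := by
  intro n
  induction n using Nat.strong_induction_on with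
  | _ n ih =>
    intro y w s hyn hy hw hs h
    by_cases hy1 : y = 1
    · subst hy1
      rcases hs with rfl | rfl
      · left
        refine ⟨0, rfl, ?_, by norm_num⟩
        have h1 : (w - (N + 1)) * (w + (N + 1)) = 0 := by linear_combination h
        have h2 : w + (N + 1) ≠ 0 := by linarith
        have h3 : w - (N + 1) = 0 := (mul_eq_zero.mp h1).resolve_right h2
        simp only [W]
        linarith
      · right
        refine ⟨0, rfl, ?_, by norm_num⟩
        have h1 : (w - (N - 1)) * (w + (N - 1)) = 0 := by linear_combination h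
        have h3 : w = N - 1 := by
          rcases mul_eq_zero.mp h1 with h2 | h2
          · linarith
          · have : w = 0 := by linarith
            linarith
        simp only [V]
        linarith
    · have hy2 : 2 ≤ y := by omega
      obtain ⟨hpos, hlt⟩ := descent_step hN hodd hs hy2 hw h
      have hs' : -s = 1 ∨ -s = -1 := by
        rcases hs with rfl | rfl
        · right; rfl
        · left; norm_num
      rcases le_or_gt 0 ((N ^ 2 + 1) * y - N * w) with hw' | hw'
      · rcases ih (w - N * y).toNat (by omega) (w - N * y) ((N ^ 2 + 1) * y - N * w) (-s)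
          (by omega) hpos hw' hs' (by linear_combination (-1 : ℤ) * h) with
          ⟨j, hj1, hj2, hj3⟩ | ⟨j, hj1, hj2, hj3⟩
        · left
          refine ⟨j + 1, ?_, ?_, ?_⟩
          · linear_combination N * hj1 + hj2
          · simp only [W]
            linear_combination (N ^ 2 + 1) * hj1 + N * hj2
          · linear_combination (-1 : ℤ) * hj3
        · right
          refine ⟨j + 1, ?_, ?_, ?_⟩
          · linear_combination N * hj1 + hj2
          · simp only [V]
            linear_combination (N ^ 2 + 1) * hj1 + N * hj2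
          · linear_combination (-1 : ℤ) * hj3
      · exfalso
        rcases ih (w - N * y).toNat (by omega) (w - N * y) (-((N ^ 2 + 1) * y - N * w)) (-s)
          (by omega) hpos (by linarith) hs' (by linear_combination (-1 : ℤ) * h) with
          ⟨j, hj1, hj2, hj3⟩ | ⟨j, hj1, hj2, hj3⟩
        · have e : y = 2 * N * W N j - W N (j + 1) := by
            linear_combination N * hj1 - hj2
          cases j with
          | zero => simp only [W] at e; linarith
          | succ j =>
            simp only [W] at e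
            have := W_pos hN j
            linarith
        · have e : y = 2 * N * V N j - V N (j + 1) := by
            linear_combination N * hj1 - hj2
          cases j with
          | zero => simp only [V] at e; linarith
          | succ j =>
            simp only [V] at e
            have := V_pos hN j
            linarith

/-- `d` extends `T_k = {1, 2k², 2k²+2k+1}` to a `D(-k²)`-quadruple. -/
def Extends (k d : ℤ) : Prop :=
  0 < d ∧ d ≠ 1 ∧ d ≠ 2 * k ^ 2 ∧ d ≠ 2 * k ^ 2 + 2 * k + 1 ∧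
    IsSquare (1 * d - k ^ 2) ∧ IsSquare (2 * k ^ 2 * d - k ^ 2) ∧
      IsSquare ((2 * k ^ 2 + 2 * k + 1) * d - k ^ 2)

/-- Shape of the extensions: `y² = 2d-1`, `x² = d-k²` and `y` is a term of one of the two
recurrences. -/
theorem shape {k d : ℤ} (hk : 0 < k) (h : Extends k d) :
    ∃ y x : ℤ, 0 < y ∧ 0 ≤ x ∧ y ^ 2 = 2 * d - 1 ∧ x ^ 2 = d - k ^ 2 ∧
      ((∃ j : ℕ, Even j ∧ y = W (2 * k + 1) j) ∨ (∃ j : ℕ, Odd j ∧ y = V (2 * k + 1) j)) := by
  obtain ⟨hd, -, -, -, ⟨x, hx⟩, ⟨u, hu⟩, ⟨z, hz⟩⟩ := h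
  have hku : k ∣ u := by
    have : k ^ 2 ∣ u ^ 2 := ⟨2 * d - 1, by linear_combination (-1 : ℤ) * hu⟩
    exact (Int.pow_dvd_pow_iff (by norm_num)).mp this
  obtain ⟨y, rfl⟩ := hku
  have hy : y ^ 2 = 2 * d - 1 := by
    have : k ^ 2 * (y ^ 2 - (2 * d - 1)) = 0 := by linear_combination (-1 : ℤ) * hu
    rcases mul_eq_zero.mp this with h | h
    · exact absurd h (by positivity)
    · linarith
  have hy0 : y ≠ 0 := by
    rintro rfl
    omega
  refine ⟨|y|, |x|, abs_pos.mpr hy0, abs_nonneg x, by rw [sq_abs]; exact hy, by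
    rw [sq_abs]; linear_combination (-1 : ℤ) * hx, ?_⟩
  have hc := classify (N := 2 * k + 1) (by omega) (by omega) y.natAbs |y| (|2 * z|) 1
    (Int.abs_eq_natAbs y) (abs_pos.mpr hy0) (abs_nonneg _) (Or.inl rfl) (by
      rw [sq_abs, sq_abs]
      linear_combination (-4 : ℤ) * hz - 2 * (2 * k ^ 2 + 2 * k + 1) * hy)
  rcases hc with ⟨j, hj1, -, hj3⟩ | ⟨j, hj1, -, hj3⟩
  · left
    refine ⟨j, ?_, hj1⟩
    by_contra hno
    rw [Nat.not_even_iff_odd] at hno
    rw [hno.neg_one_pow] at hj3
    norm_num at hj3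
  · right
    refine ⟨j, ?_, hj1⟩
    by_contra hno
    rw [Nat.not_odd_iff_even] at hno
    rw [pow_succ, hno.neg_one_pow] at hj3
    norm_num at hj3

/-- An extension different from `8k²+4k+1` has index at least `2` (first kind) or `3` (second
kind). -/
theorem shape' {k d : ℤ} (hk : 0 < k) (h : Extends k d) (hd : d ≠ 8 * k ^ 2 + 4 * k + 1) :
    ∃ y x : ℤ, 0 < y ∧ 0 ≤ x ∧ y ^ 2 - 2 * x ^ 2 = 2 * k ^ 2 - 1 ∧
      ((∃ j : ℕ, 2 ≤ j ∧ Even j ∧ y = W (2 * k + 1) j) ∨
        (∃ j : ℕ, 3 ≤ j ∧ Odd j ∧ y = V (2 * k + 1) j)) := by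
  obtain ⟨y, x, hy, hx, hyd, hxd, hc⟩ := shape hk h
  refine ⟨y, x, hy, hx, by linear_combination hyd - 2 * hxd, ?_⟩
  rcases hc with ⟨j, hj, hj1⟩ | ⟨j, hj, hj1⟩
  · left
    refine ⟨j, ?_, hj, hj1⟩
    by_contra hlt
    have hj0 : j = 0 := by
      rcases hj with ⟨t, ht⟩
      omega
    subst hj0
    simp only [W] at hj1
    subst hj1
    exact h.2.1 (by linarith)
  · right
    refine ⟨j, ?_, hj, hj1⟩
    by_contra hlt
    have hj0 : j = 1 := by
      rcases hj with ⟨t, ht⟩
      omega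
    subst hj0
    simp only [V] at hj1
    subst hj1
    apply hd
    have e : 2 * (d - (8 * k ^ 2 + 4 * k + 1)) = 0 := by linear_combination (-1 : ℤ) * hyd
    omega

end Pool.Agent.PSX
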