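import Pool.Agent.PSX.StG

/-!
# Module REL (helper12): the relation of a cycle
-/

set_option autoImplicit false

namespace Pool.Agent.PSX

open Finset (range)
open Pool.Agent.P4G (Fam QN FN FZ CC CR)
open Pool.Agent.RDF (β γ δ)

namespace M_REL

open Pool.Agent.P4G Pool.Agent.LibH4 Pool.Agent.LibH4.FA Pool.Agent.Lib_helper5

variable {l q0 n e : ℕ} {ψ : ℤ → ℤ}

/-- the half sum of the product vanishes (copy of a lemma of the period four project) -/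
lemma HH_zero (h : Fam l q0 n e ψ) (d : ℕ) {f : ℤ → ℤ}
    (hf : ∀ x, ((f x : ℤ) : ZMod (l ^ (n + 1))) = FN l n e ψ x) :
    ((RDF.HH (QN l q0 n) d (fun x => f (4 * x)) : ℤ) : ZMod (l ^ (n + 1))) = 0 := by
  have h0 : ∑ r ∈ range ((QN l q0 n + 1) / 2), FN l n e ψ r = 0 := by
    have h1 : ((Hs l q0 ψ (n + 1) e : ℤ) : ZMod (l ^ (n + 1))) = 0 := by
      rw [ZMod.intCast_zmod_eq_zero_iff_dvd]
      push_cast
      exact h.zero
    rw [← h1]
    unfold Hs QN FN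
    push_cast
    rfl
  unfold RDF.HH
  push_cast
  have e1 : ∀ r ∈ range ((QN l q0 n + 1) / 2), ∑ s ∈ range ((QN l q0 n * d + 1) / 2),
      ((f (4 * ((r : ℤ) * s)) : ℤ) : ZMod (l ^ (n + 1))) *
        ((jacobiSym s d : ℤ) : ZMod (l ^ (n + 1)))
      = FN l n e ψ r * ∑ s ∈ range ((QN l q0 n * d + 1) / 2),
        FN l n e ψ 4 * FN l n e ψ s * ((jacobiSym s d : ℤ) : ZMod (l ^ (n + 1))) := by
    intro r _
    rw [Finset.mul_sum]
    apply Finset.sum_congr rfl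
    intro s _
    rw [hf, h.FN_mul, h.FN_mul]
    ring
  rw [Finset.sum_congr rfl e1, ← Finset.sum_mul, h0, zero_mul]

lemma LL_eq {Q : ℕ} [NeZero Q] {f : ℤ → ℤ} (hper : ∀ x, f (x + Q) = f x) (a b c B m r p : ℤ) :
    LLz6 Q (fun x => 4 * f (4 * x) - f x) a b c B m r p
      = L6 (sm (RDF.fz Q f)) a b c B m r p := by
  have hg : ∀ x : ℤ, (fun x => 4 * f (4 * x) - f x) (x + Q) = (fun x => 4 * f (4 * x) - f x) x := by
    intro x
    have h1 : f (4 * (x + Q)) = f (4 * x) := by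
      rw [mul_add]
      exact RDF.per_mulZ hper (4 * x) 4
    simp only
    rw [h1, hper]
  have hsm : ∀ z : ZMod Q, RDF.fz Q (fun x => 4 * f (4 * x) - f x) z = sm (RDF.fz Q f) z :=
    fun z => RDF.fz_smooth hper z
  have hX : ∀ P R S : ℤ, XZ Q (fun x => 4 * f (4 * x) - f x) P R S
      = XA (sm (RDF.fz Q f)) (P : ZMod Q) (R : ZMod Q) (S : ZMod Q) := by
    intro P R S
    rw [RDF.XZ_zmod hg]
    simp only [hsm]
    rfl
  have hY : ∀ P R S : ℤ, YX Q (fun x => 4 * f (4 * x) - f x) P R S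
      = YA (sm (RDF.fz Q f)) (P : ZMod Q) (R : ZMod Q) (S : ZMod Q) := by
    intro P R S
    rw [RDF.YX_zmod hg]
    simp only [hsm]
    rfl
  unfold LLz6 L6
  rw [hX, hX, hX, hX, hX, hX, hY, hY, hY, hY, hY, hY, Int.cast_one]

lemma Z0_cast [NeZero (QN l q0 n)] {f : ℤ → ℤ}
    (hf : ∀ x, ((f x : ℤ) : ZMod (l ^ (n + 1))) = FN l n e ψ x) (S : ZMod (QN l q0 n)) :
    ((Z0 (RDF.fz (QN l q0 n) f) S : ℤ) : ZMod (l ^ (n + 1))) = Z0 (FZ l q0 n e ψ) S := by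
  unfold Z0
  rw [Int.cast_sum]
  exact Finset.sum_congr rfl fun y _ => fz_castR hf _

lemma Es_cast [NeZero (QN l q0 n)] {f : ℤ → ℤ}
    (hf : ∀ x, ((f x : ℤ) : ZMod (l ^ (n + 1))) = FN l n e ψ x) (P R S : ZMod (QN l q0 n)) (c : ℤ) :
    ((Es (RDF.fz (QN l q0 n) f) P R S c : ℤ) : ZMod (l ^ (n + 1))) = Es (FZ l q0 n e ψ) P R S c := by
  unfold Es
  rw [Int.cast_sum]
  refine Finset.sum_congr rfl fun x _ => ?_
  rw [Int.cast_sum]
  refine Finset.sum_congr rfl fun y _ => ?_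
  rw [Int.cast_mul, fz_castR hf]
  rfl

end M_REL

theorem t_REL (hBFS : Stmt_BFS) (hZSQ : Stmt_ZSQ) : Stmt_REL := by
  intro l q0 n e e0 ψ _ hFm a b c B m r p d hCl hid
  have h := hFm.fam
  obtain ⟨f, hper, hodd, hf⟩ := P4G.exists_lift h.Modd (FN l n e ψ) h.FN_per h.FN_neg
  have h1 := hid f hper hodd
  rw [M_REL.LL_eq hper, hBFS _ h.Qodd _ (RDF.fz_neg hper hodd) a b c B m r p hCl] at h1
  have hQ : (3 * (QN l q0 n : ℤ) ^ 2) ≠ 0 := by
    have : (QN l q0 n : ℤ) ≠ 0 := by exact_mod_cast (NeZero.ne (QN l q0 n))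
    positivity
  have h2 := mul_left_cancel₀ hQ (h1.trans (by ring :
    6 * (QN l q0 n : ℤ) ^ 2 * RDF.HH (QN l q0 n) d (fun x => f (4 * x)) =
      3 * (QN l q0 n : ℤ) ^ 2 * (2 * RDF.HH (QN l q0 n) d (fun x => f (4 * x)))))
  have h3 := congrArg (Int.cast : ℤ → ZMod (l ^ (n + 1))) h2
  have hz : ∀ S : ZMod (QN l q0 n),
      ((Z0 (RDF.fz (QN l q0 n) f) S : ℤ) : ZMod (l ^ (n + 1))) = 0 := fun S => by
    rw [M_REL.Z0_cast hf, hZSQ l q0 n e e0 ψ hFm]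
  simp only [Int.cast_mul, Int.cast_sub, Int.cast_add, hz, M_REL.HH_zero h d hf, mul_zero,
    add_zero, sub_zero] at h3
  rw [← h3]
  unfold R6
  simp only [Int.cast_add, M_REL.Es_cast hf]

end Pool.Agent.PSX
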