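import Pool.Agent.PSX.StG

/-!
# Period six, the ghost line: block sums (module BLK)
-/

set_option autoImplicit false

namespace Pool.Agent.PSX

open Finset (range)
open Pool.Agent.P4G (Fam QN FN FZ CC CR)
open Pool.Agent.RDF (β γ δ)

namespace M_BLK

/-- the sum over a full period does not depend on the start -/
theorem full_start {M : Type*} [AddCommGroup M] (Q : ℕ) (G : ℤ → M)
    (hG : ∀ y, G (y + (Q : ℕ)) = G y) (a : ℤ) :
    ∑ j ∈ range Q, G (a + j) = ∑ j ∈ range Q, G (j : ℤ) := by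
  have hstep : ∀ a : ℤ, ∑ j ∈ range Q, G (a + 1 + j) = ∑ j ∈ range Q, G (a + j) := by
    intro a
    have h1 := Finset.sum_range_succ (fun j : ℕ => G (a + j)) Q
    have h2 := Finset.sum_range_succ' (fun j : ℕ => G (a + j)) Q
    have h3 : ∀ j : ℕ, G (a + ((j + 1 : ℕ) : ℤ)) = G (a + 1 + j) := by
      intro j
      congr 1
      push_cast
      ring
    simp only [h3, Nat.cast_zero, add_zero] at h2
    rw [h2, hG] at h1
    exact add_right_cancel h1
  induction a using Int.induction_on with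
  | zero => simp only [zero_add]
  | succ i ih => rw [hstep, ih]
  | pred i ih => rw [← ih, ← hstep (-(i : ℤ) - 1), sub_add_cancel]

theorem sum_id (v : ℕ) : ∑ t ∈ range (2 * v + 1), (t : ℤ) = (2 * v + 1 : ℕ) * v := by
  induction v with
  | zero => simp
  | succ v ih =>
    have e : 2 * (v + 1) + 1 = 2 * v + 1 + 1 + 1 := by ring
    rw [e, Finset.sum_range_succ, Finset.sum_range_succ, ih]
    push_cast
    ring

theorem blk_step {l q0 : ℕ} {ψ : ℤ → ℤ} (hper : ∀ x t : ℤ, ψ (x + t * q0) = ψ x)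
    (hl : l % 2 = 1) (A B : Polynomial ℤ) (k : ℕ) (hk : 1 ≤ k) (u : ℤ) :
    ∃ s : ℤ, ∑ t ∈ range l, ψ (A.eval (u + (q0 * l ^ k : ℕ) * (t : ℕ))) *
        B.eval (u + (q0 * l ^ k : ℕ) * (t : ℕ)) =
      l * (ψ (A.eval u) * B.eval u) + (l : ℤ) ^ (k + 1) * s := by
  obtain ⟨v, hv⟩ : ∃ v, l = 2 * v + 1 := ⟨l / 2, by omega⟩
  have hterm : ∀ t : ℕ, ∃ s : ℤ, ψ (A.eval (u + (q0 * l ^ k : ℕ) * (t : ℕ))) *
        B.eval (u + (q0 * l ^ k : ℕ) * (t : ℕ)) =
      ψ (A.eval u) * (B.eval u + B.derivative.eval u * ((q0 * l ^ k : ℕ) * (t : ℕ)) +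
        s * ((q0 * l ^ k : ℕ) * (t : ℕ)) ^ 2) := by
    intro t
    obtain ⟨s, hs⟩ := B.binomExpansion u ((q0 * l ^ k : ℕ) * (t : ℕ))
    refine ⟨s, ?_⟩
    have h1 : ψ (A.eval (u + (q0 * l ^ k : ℕ) * (t : ℕ))) = ψ (A.eval u) := by
      obtain ⟨w, hw⟩ := Polynomial.sub_dvd_eval_sub (u + (q0 * l ^ k : ℕ) * (t : ℕ)) u A
      have h2 : A.eval (u + (q0 * l ^ k : ℕ) * (t : ℕ)) = A.eval u + ((l : ℤ) ^ k * t * w) * q0 := by
        have h3 : A.eval (u + (q0 * l ^ k : ℕ) * (t : ℕ)) = A.eval u +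
            (u + (q0 * l ^ k : ℕ) * (t : ℕ) - u) * w := by
          rw [← hw]
          ring
        rw [h3]
        push_cast
        ring
      rw [h2, hper]
    rw [h1, hs]
  choose s hs using hterm
  refine ⟨ψ (A.eval u) * (B.derivative.eval u) * q0 * v +
    ∑ t ∈ range l, ψ (A.eval u) * s t * q0 ^ 2 * (l : ℤ) ^ (k - 1) * (t : ℤ) ^ 2, ?_⟩
  have hpow : ((l : ℤ) ^ k) ^ 2 = (l : ℤ) ^ (k + 1) * (l : ℤ) ^ (k - 1) := by
    rw [← pow_mul, ← pow_add]
    congr 1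
    omega
  have h4 : ∀ t ∈ range l, ψ (A.eval (u + (q0 * l ^ k : ℕ) * (t : ℕ))) *
        B.eval (u + (q0 * l ^ k : ℕ) * (t : ℕ)) =
      ψ (A.eval u) * B.eval u + ψ (A.eval u) * B.derivative.eval u * q0 * (l : ℤ) ^ k * (t : ℤ) +
        (l : ℤ) ^ (k + 1) *
          (ψ (A.eval u) * s t * q0 ^ 2 * (l : ℤ) ^ (k - 1) * (t : ℤ) ^ 2) := by
    intro t _
    rw [hs t]
    push_cast
    have e : ((q0 : ℤ) * (l : ℤ) ^ k * t) ^ 2 = q0 ^ 2 * ((l : ℤ) ^ k) ^ 2 * t ^ 2 := by ring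
    rw [e, hpow]
    ring
  rw [Finset.sum_congr rfl h4, Finset.sum_add_distrib, Finset.sum_add_distrib, Finset.sum_const,
    Finset.card_range, ← Finset.mul_sum, ← Finset.mul_sum, nsmul_eq_mul]
  have h5 : ∑ t ∈ range l, (t : ℤ) = l * v := by
    have h6 := sum_id v
    rw [← hv] at h6
    exact h6
  rw [h5]
  ring

end M_BLK

open M_BLK in
theorem t_BLK : Stmt_BLK := by
  intro l q0 n e ψ hF G hG
  obtain ⟨A, B, hAB⟩ := hG
  have hl0 : ((l : ZMod (l ^ (n + 1)))) ^ (n + 1) = 0 := by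
    rw [← Nat.cast_pow, ZMod.natCast_self]
  have hG' : ∀ j : ℤ, G j = ((ψ (A.eval j) * B.eval j : ℤ) : ZMod (l ^ (n + 1))) := by
    intro j
    rw [hAB j, Int.cast_mul]
  -- periodicity
  have hper : ∀ y, G (y + (QN l q0 n : ℕ)) = G y := by
    intro y
    rw [hG', hG', ZMod.intCast_eq_intCast_iff_dvd_sub]
    have h1 : ψ (A.eval (y + (QN l q0 n : ℕ))) = ψ (A.eval y) := by
      obtain ⟨w, hw⟩ := Polynomial.sub_dvd_eval_sub (y + (QN l q0 n : ℕ)) y A
      have h2 : A.eval (y + (QN l q0 n : ℕ)) = A.eval y + ((l : ℤ) ^ (n + 1) * w) * q0 := by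
        have h3 : A.eval (y + (QN l q0 n : ℕ)) = A.eval y + (y + (QN l q0 n : ℕ) - y) * w := by
          rw [← hw]
          ring
        rw [h3]
        unfold QN
        push_cast
        ring
      rw [h2, hF.ψper]
    rw [h1]
    obtain ⟨w, hw⟩ := Polynomial.sub_dvd_eval_sub (y + (QN l q0 n : ℕ)) y B
    refine ⟨-(ψ (A.eval y) * q0 * w), ?_⟩
    have h3 : B.eval (y + (QN l q0 n : ℕ)) = B.eval y + (y + (QN l q0 n : ℕ) - y) * w := by
      rw [← hw]
      ring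
    rw [h3]
    unfold QN
    push_cast
    ring
  -- one step
  have hstep : ∀ (k : ℕ) (a : ℤ), 1 ≤ k → k ≤ n →
      (l : ZMod (l ^ (n + 1))) ^ (n + 1 - k) * ∑ j ∈ range (q0 * l ^ k), G (a + j) =
      (l : ZMod (l ^ (n + 1))) ^ (n + 1 - (k + 1)) * ∑ j ∈ range (q0 * l ^ (k + 1)), G (a + j) := by
    intro k a hk hkn
    have e1 : q0 * l ^ (k + 1) = q0 * l ^ k * l := by ring
    rw [e1, P4G.sum_blocks (q0 * l ^ k) l (fun j : ℕ => G (a + j)), Finset.mul_sum, Finset.mul_sum]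
    refine Finset.sum_congr rfl fun i _ => ?_
    obtain ⟨s, hs⟩ := blk_step (fun x t => hF.ψper x t) hF.lo A B k hk (a + i)
    have h2 : ∑ t ∈ range l, G (a + ((q0 * l ^ k * t + i : ℕ) : ℤ)) =
        (l : ZMod (l ^ (n + 1))) * G (a + i) + (l : ZMod (l ^ (n + 1))) ^ (k + 1) * s := by
      have h3 := congrArg (Int.cast : ℤ → ZMod (l ^ (n + 1))) hs
      rw [Int.cast_sum] at h3
      have h4 : ∀ t ∈ range l, G (a + ((q0 * l ^ k * t + i : ℕ) : ℤ)) =
          ((ψ (A.eval (a + i + (q0 * l ^ k : ℕ) * (t : ℕ))) *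
            B.eval (a + i + (q0 * l ^ k : ℕ) * (t : ℕ)) : ℤ) : ZMod (l ^ (n + 1))) := by
        intro t _
        have e2 : a + ((q0 * l ^ k * t + i : ℕ) : ℤ) = a + i + (q0 * l ^ k : ℕ) * (t : ℕ) := by
          push_cast
          ring
        rw [e2, hG']
      rw [Finset.sum_congr rfl h4, h3, hG']
      push_cast
      ring
    rw [h2, mul_add, ← mul_assoc, ← mul_assoc, ← pow_succ, ← pow_add]
    have e3 : n + 1 - (k + 1) + 1 = n + 1 - k := by omega
    have e4 : n + 1 - (k + 1) + (k + 1) = n + 1 := by omega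
    rw [e3, e4, hl0, zero_mul, add_zero]
  have hmain : ∀ (k : ℕ) (a : ℤ), 1 ≤ k → k ≤ n + 1 →
      (l : ZMod (l ^ (n + 1))) ^ (n + 1 - k) * ∑ j ∈ range (q0 * l ^ k), G (a + j) =
        ∑ j ∈ range (QN l q0 n), G (j : ℤ) := by
    intro k a hk hkn
    obtain ⟨i, hi⟩ : ∃ i, i = n + 1 - k := ⟨_, rfl⟩
    induction i generalizing k with
    | zero =>
      have e5 : k = n + 1 := by omega
      subst e5
      rw [Nat.sub_self, pow_zero, one_mul]
      exact full_start (QN l q0 n) G hper a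
    | succ i ih =>
      rw [hstep k a hk (by omega)]
      exact ih (k + 1) (by omega) (by omega) (by omega)
  refine ⟨hmain, ?_, hper⟩
  rw [← hmain 1 0 le_rfl (by omega), ← mul_assoc, ← pow_succ']
  have e6 : n + 1 - 1 + 1 = n + 1 := by omega
  rw [e6, hl0, zero_mul]

end Pool.Agent.PSX
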