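import Pool.Agent.PSX.StG

/-!
# Module `EFZ`: the edge sum as a sum over integers
-/

set_option autoImplicit false

namespace Pool.Agent.PSX

open Finset (range)
open Pool.Agent.P4G (Fam QN FN FZ CC CR)
open Pool.Agent.RDF (β γ δ)

theorem t_EFZ : Stmt_EFZ := by
  intro l q0 n e ψ _ hF P R S c
  unfold Es EZ
  refine Finset.sum_congr rfl fun x _ => Finset.sum_congr rfl fun y _ => ?_
  congr 1
  have h1 : ev (P : ZMod (QN l q0 n)) (R : ZMod (QN l q0 n)) (S : ZMod (QN l q0 n)) x y =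
      ((evZ P R S (x.val : ℤ) (y.val : ℤ) : ℤ) : ZMod (QN l q0 n)) := by
    unfold ev evZ
    push_cast
    rw [ZMod.natCast_zmod_val, ZMod.natCast_zmod_val]
  rw [h1]
  exact hF.FZ_cast _

end Pool.Agent.PSX
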