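import Pool.Agent.PSX.StG

set_option autoImplicit false

namespace Pool.Agent.PSX

open Finset (range)
open Pool.Agent.P4G (Fam QN FN FZ CC CR)
open Pool.Agent.RDF (β γ δ)

namespace M_LCH

variable {Q : ℕ} [NeZero Q]

lemma beta_step (hQ : 1 < Q) (v : ZMod Q) : β v - β (v - 1)
    = -2 + Q * ((if v = 0 then 1 else 0) + (if v = 1 then 1 else 0)) := by
  have : Fact (1 < Q) := ⟨hQ⟩
  have h01 : (1 : ZMod Q) ≠ 0 := one_ne_zero
  have h1v : (1 : ZMod Q).val = 1 := ZMod.val_one Q
  have hb1 : β (1 : ZMod Q) = (Q : ℤ) - 2 := by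
    unfold β Lib_helper5.bZ
    rw [h1v, if_neg (by norm_num)]
    norm_num
  have hb0 : β (0 : ZMod Q) = 0 := by
    unfold β Lib_helper5.bZ
    simp
  rcases eq_or_ne v 0 with rfl | hv0
  · rw [zero_sub, RDF.β_neg, hb0, hb1, if_pos rfl, if_neg (fun h => h01 h.symm)]
    ring
  · rcases eq_or_ne v 1 with rfl | hv1
    · rw [sub_self, hb0, hb1, if_pos rfl, if_neg h01]
      ring
    · rw [if_neg hv0, if_neg hv1]
      have hvv : v.val ≠ 0 := by rwa [Ne, ZMod.val_eq_zero]
      have hvv1 : v.val ≠ 1 := by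
        intro h
        apply hv1
        rw [← ZMod.natCast_zmod_val v, h, Nat.cast_one]
      have hsub : (v - 1).val = v.val - 1 := by
        have e : v - 1 = ((v.val - 1 : ℕ) : ZMod Q) := by
          rw [Nat.cast_sub (by omega), ZMod.natCast_zmod_val, Nat.cast_one]
        rw [e, ZMod.val_natCast, Nat.mod_eq_of_lt]
        have := ZMod.val_lt v
        omega
      unfold β Lib_helper5.bZ
      rw [hsub, if_neg hvv, if_neg (by omega), Nat.cast_sub (by omega)]
      push_cast
      ring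

lemma beta_tel (hQ : 1 < Q) (u : ZMod Q) (n : ℕ) : β u - β (u - (n : ZMod Q))
    = -2 * n + Q * ∑ i ∈ range n, ((if u = (i : ZMod Q) then (1 : ℤ) else 0)
      + (if u = (i : ZMod Q) + 1 then 1 else 0)) := by
  induction n with
  | zero => simp
  | succ n ih =>
    rw [Finset.sum_range_succ, mul_add]
    have h1 := beta_step hQ (u - (n : ZMod Q))
    have e1 : (u - (n : ZMod Q) = 0) = (u = (n : ZMod Q)) := by rw [sub_eq_zero]
    have e2 : (u - (n : ZMod Q) = 1) = (u = (n : ZMod Q) + 1) := by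
      rw [sub_eq_iff_eq_add, add_comm]
    have e3 : u - (n : ZMod Q) - 1 = u - ((n + 1 : ℕ) : ZMod Q) := by push_cast; ring
    rw [e3] at h1
    simp only [e1, e2] at h1
    push_cast at h1 ⊢
    linear_combination ih + h1

lemma nu_change (hNUS : Stmt_NUS) (c : ℤ) (t : ℕ) {x : ZMod Q} (hx : x ≠ 0) (y : ZMod Q) :
    nu (c + t) x y - nu c x y = -(t : ℤ) + ∑ i ∈ range (t * x.val),
      ((if y = (c : ZMod Q) * x + (i : ZMod Q) then (1 : ℤ) else 0)
      + (if y = (c : ZMod Q) * x + (i : ZMod Q) + 1 then 1 else 0)) := by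
  have hQ : 1 < Q := by
    rcases Nat.lt_or_ge 1 Q with h | h
    · exact h
    · exfalso
      apply hx
      have h1 : x.val < Q := ZMod.val_lt x
      have : x.val = 0 := by omega
      rwa [ZMod.val_eq_zero] at this
  have hQ0 : (Q : ℤ) ≠ 0 := by positivity
  have h1 := (hNUS Q).1 (c + t) x y
  have h2 := (hNUS Q).1 c x y
  have h3 := beta_tel hQ (y - (c : ZMod Q) * x) (t * x.val)
  have e1 : y - ((c + t : ℤ) : ZMod Q) * x = y - (c : ZMod Q) * x - ((t * x.val : ℕ) : ZMod Q) := by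
    push_cast
    rw [ZMod.natCast_zmod_val]
    ring
  rw [e1] at h1
  have hb : β x = (Q : ℤ) - 2 * x.val := by
    unfold β Lib_helper5.bZ
    rw [if_neg]
    rwa [ZMod.val_eq_zero]
  have e2 : ∀ i : ℕ, (y - (c : ZMod Q) * x = (i : ZMod Q)) = (y = (c : ZMod Q) * x + (i : ZMod Q)) := by
    intro i
    rw [sub_eq_iff_eq_add, add_comm]
  have e3 : ∀ i : ℕ, (y - (c : ZMod Q) * x = (i : ZMod Q) + 1)
      = (y = (c : ZMod Q) * x + (i : ZMod Q) + 1) := by
    intro i
    rw [sub_eq_iff_eq_add]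
    congr 1
    ring
  simp only [e2, e3] at h3
  apply mul_left_cancel₀ hQ0
  rw [mul_sub, h1, h2, mul_add]
  rw [hb]
  push_cast at h3 ⊢
  linear_combination h3

end M_LCH

open M_LCH in
theorem t_LCH (hNUS : Stmt_NUS) : Stmt_LCH := by
  intro Q _ hQo M _ G hG c t x
  have hQpos : 0 < Q := Nat.pos_of_ne_zero (NeZero.ne Q)
  -- periodicity
  have hper : ∀ (u s : ℤ), G (u + s * (Q : ℕ)) = G u := by
    intro u s
    induction s using Int.induction_on with
    | zero => simp
    | succ i ih =>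
      rw [show u + ((i : ℤ) + 1) * (Q : ℕ) = (u + i * (Q : ℕ)) + (Q : ℕ) by ring, hG, ih]
    | pred i ih =>
      rw [← hG (u + (-(i : ℤ) - 1) * (Q : ℕ)),
        show u + (-(i : ℤ) - 1) * (Q : ℕ) + (Q : ℕ) = u + -(i : ℤ) * (Q : ℕ) by ring, ih]
  have hcast : ∀ u : ℤ, G (((u : ZMod Q).val : ℕ) : ℤ) = G u := by
    intro u
    have h1 : ((((u : ZMod Q).val : ℕ) : ℤ) : ZMod Q) = (u : ZMod Q) := by
      push_cast; exact ZMod.natCast_zmod_val _
    rw [ZMod.intCast_eq_intCast_iff_dvd_sub] at h1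
    obtain ⟨s, hs⟩ := h1
    have : (((u : ZMod Q).val : ℕ) : ℤ) = u + (-s) * (Q : ℕ) := by linear_combination -hs
    rw [this, hper]
  have hfull : ∑ y : ZMod Q, G (y.val : ℤ) = ∑ j ∈ range Q, G (j : ℤ) := by
    rw [← RDF.sum_range_zmod (fun y : ZMod Q => G (y.val : ℤ))]
    apply Finset.sum_congr rfl
    intro j hj
    rw [ZMod.val_cast_of_lt (Finset.mem_range.1 hj)]
  rcases eq_or_ne x 0 with rfl | hx
  · have hs : sg (0 : ZMod Q) = 0 := by unfold sg; simp
    simp [W, hs]
  · have e1 : ∀ y : ZMod Q, G (y.val : ℤ) * ((W (c + t) x y - W c x y : ℤ) : M)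
        = ((sg x : ℤ) : M) * (-((t : ℤ) : M) * G (y.val : ℤ)
          + ∑ i ∈ range (t * x.val), ((if y = (c : ZMod Q) * x + (i : ZMod Q) then G (y.val : ℤ) else 0)
            + (if y = (c : ZMod Q) * x + (i : ZMod Q) + 1 then G (y.val : ℤ) else 0))) := by
      intro y
      have h1 : W (c + t) x y - W c x y = sg x * (nu (c + t) x y - nu c x y) := by
        unfold W; ring
      rw [h1, nu_change hNUS c t hx y]
      push_cast
      have h2 : ∀ i : ℕ, ((if y = (c : ZMod Q) * x + (i : ZMod Q) then G (y.val : ℤ) else 0)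
            + (if y = (c : ZMod Q) * x + (i : ZMod Q) + 1 then G (y.val : ℤ) else 0))
          = G (y.val : ℤ) * ((if y = (c : ZMod Q) * x + (i : ZMod Q) then (1 : M) else 0)
            + (if y = (c : ZMod Q) * x + (i : ZMod Q) + 1 then (1 : M) else 0)) := by
        intro i
        split_ifs <;> ring
      simp only [h2, ← Finset.mul_sum]
      ring
    rw [Finset.sum_congr rfl (fun y _ => e1 y), ← Finset.mul_sum, Finset.sum_add_distrib,
      ← Finset.mul_sum, hfull, Finset.sum_comm]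
    congr 2
    apply Finset.sum_congr rfl
    intro i _
    rw [Finset.sum_add_distrib, Finset.sum_ite_eq' , Finset.sum_ite_eq']
    rw [if_pos (Finset.mem_univ _), if_pos (Finset.mem_univ _)]
    have e2 : (c : ZMod Q) * x + (i : ZMod Q) = ((c * x.val + i : ℤ) : ZMod Q) := by
      push_cast
      rw [ZMod.natCast_zmod_val]
    have e3 : (c : ZMod Q) * x + (i : ZMod Q) + 1 = ((c * x.val + i + 1 : ℤ) : ZMod Q) := by
      push_cast
      rw [ZMod.natCast_zmod_val]
    rw [e3, e2, hcast, hcast]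

end Pool.Agent.PSX
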