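import Pool.Agent.PSX.StG

set_option autoImplicit false

namespace Pool.Agent.PSX

open Finset (range)
open Pool.Agent.P4G (Fam QN FN FZ CC CR)
open Pool.Agent.RDF (β γ δ)

namespace M_LCQ

variable {Q : ℕ} [NeZero Q] {M : Type*} [CommRing M]

lemma per_mul {G : ℤ → M} (hG : ∀ y, G (y + (Q : ℕ)) = G y) (u s : ℤ) :
    G (u + s * (Q : ℕ)) = G u := by
  induction s using Int.induction_on with
  | zero => simp
  | succ i ih =>
    rw [show u + ((i : ℤ) + 1) * (Q : ℕ) = (u + i * (Q : ℕ)) + (Q : ℕ) by ring, hG, ih]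
  | pred i ih =>
    rw [← hG (u + (-(i : ℤ) - 1) * (Q : ℕ)),
      show u + (-(i : ℤ) - 1) * (Q : ℕ) + (Q : ℕ) = u + -(i : ℤ) * (Q : ℕ) by ring, ih]

lemma per_cast {G : ℤ → M} (hG : ∀ y, G (y + (Q : ℕ)) = G y) (u : ℤ) :
    G (((u : ZMod Q).val : ℕ) : ℤ) = G u := by
  have h1 : ((((u : ZMod Q).val : ℕ) : ℤ) : ZMod Q) = (u : ZMod Q) := by
    push_cast; exact ZMod.natCast_zmod_val _
  rw [ZMod.intCast_eq_intCast_iff_dvd_sub] at h1
  obtain ⟨s, hs⟩ := h1
  have : (((u : ZMod Q).val : ℕ) : ℤ) = u + (-s) * (Q : ℕ) := by linear_combination -hs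
  rw [this, per_mul hG]

lemma full_zmod (G : ℤ → M) : ∑ y : ZMod Q, G (y.val : ℤ) = ∑ j ∈ range Q, G (j : ℤ) := by
  rw [← RDF.sum_range_zmod (fun y : ZMod Q => G (y.val : ℤ))]
  apply Finset.sum_congr rfl
  intro j hj
  rw [ZMod.val_cast_of_lt (Finset.mem_range.1 hj)]

/-- a sum over a full period does not depend on its start -/
lemma full_shift {G : ℤ → M} (hG : ∀ y, G (y + (Q : ℕ)) = G y) (a : ℤ) :
    ∑ j ∈ range Q, G (a + j) = ∑ j ∈ range Q, G (j : ℤ) := by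
  rw [← full_zmod G, ← Equiv.sum_comp (Equiv.addLeft (a : ZMod Q)),
    ← RDF.sum_range_zmod (fun y : ZMod Q => G (((Equiv.addLeft (a : ZMod Q)) y).val : ℤ))]
  apply Finset.sum_congr rfl
  intro j _
  have e : (Equiv.addLeft (a : ZMod Q)) (j : ZMod Q) = ((a + j : ℤ) : ZMod Q) := by
    simp
  rw [e, per_cast hG]

/-- a sum over several periods -/
lemma full_blocks {G : ℤ → M} (hG : ∀ y, G (y + (Q : ℕ)) = G y) (a : ℤ) (K : ℕ) :
    ∑ j ∈ range (Q * K), G (a + j) = (K : M) * ∑ j ∈ range Q, G (j : ℤ) := by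
  induction K with
  | zero => simp
  | succ K ih =>
    rw [Nat.mul_succ, Finset.sum_range_add, ih]
    have e : ∀ j : ℕ, G (a + ((Q * K + j : ℕ) : ℤ)) = G ((a + Q * K) + j) := by
      intro j
      congr 1
      push_cast
      ring
    rw [Finset.sum_congr rfl (fun j _ => e j), full_shift hG]
    push_cast
    ring

lemma sg_val (x : ZMod Q) : sg x * (x.val : ℤ) = (-1) ^ x.val * (x.val : ℤ) := by
  unfold sg
  rcases eq_or_ne x 0 with rfl | h
  · simp
  · rw [if_neg h]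

end M_LCQ

open M_LCQ in
theorem t_LCQ (hLCH : Stmt_LCH) : Stmt_LCQ := by
  intro l q0 n _ hQ H hH
  have hQ0 : ((QN l q0 n : ℕ) : ZMod (l ^ (n + 1))) = 0 := by
    unfold QN
    have h1 := ZMod.natCast_self (l ^ (n + 1))
    rw [Nat.cast_mul, h1, mul_zero]
  have key : ∀ (c : ℤ) (k : ℕ), EZ (QN l q0 n) H (c + (QN l q0 n : ℕ) * (k : ℤ))
      = EZ (QN l q0 n) H c + 2 * (k : ZMod (l ^ (n + 1)))
        * SX (QN l q0 n) (fun x => ∑ j ∈ range (QN l q0 n), H x j) := by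
    intro c k
    have h1 : ∀ x : ZMod (QN l q0 n), ∑ y : ZMod (QN l q0 n), H (x.val : ℤ) (y.val : ℤ)
        * ((W (c + (QN l q0 n : ℕ) * (k : ℤ)) x y - W c x y : ℤ) : ZMod (l ^ (n + 1)))
        = 2 * (k : ZMod (l ^ (n + 1))) * ((((-1) ^ x.val * (x.val : ℤ) : ℤ) : ZMod (l ^ (n + 1)))
          * ∑ j ∈ range (QN l q0 n), H (x.val : ℤ) j) := by
      intro x
      have h2 := hLCH (QN l q0 n) hQ (ZMod (l ^ (n + 1))) (H (x.val : ℤ)) (hH _) c
        (QN l q0 n * k) x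
      have e1 : (c + ((QN l q0 n * k : ℕ) : ℤ)) = c + (QN l q0 n : ℕ) * (k : ℤ) := by push_cast; ring
      rw [e1] at h2
      rw [h2]
      have e2 : QN l q0 n * k * x.val = QN l q0 n * (k * x.val) := by ring
      rw [e2, Finset.sum_add_distrib, full_blocks (hH _)]
      have e3 : ∀ i : ℕ, H (x.val : ℤ) (c * x.val + i + 1) = H (x.val : ℤ) ((c * x.val + 1) + i) := by
        intro i
        congr 1
        ring
      rw [Finset.sum_congr rfl (fun i _ => e3 i), full_blocks (hH _)]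
      have e4 := congrArg (Int.cast : ℤ → ZMod (l ^ (n + 1))) (sg_val x)
      push_cast at e4 ⊢
      rw [hQ0]
      linear_combination (2 * (k : ZMod (l ^ (n + 1)))
        * ∑ j ∈ range (QN l q0 n), H (x.val : ℤ) j) * e4
    have h2 : EZ (QN l q0 n) H (c + (QN l q0 n : ℕ) * (k : ℤ)) - EZ (QN l q0 n) H c
        = ∑ x : ZMod (QN l q0 n), ∑ y : ZMod (QN l q0 n), H (x.val : ℤ) (y.val : ℤ)
        * ((W (c + (QN l q0 n : ℕ) * (k : ℤ)) x y - W c x y : ℤ) : ZMod (l ^ (n + 1))) := by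
      unfold EZ
      rw [← Finset.sum_sub_distrib]
      apply Finset.sum_congr rfl
      intro x _
      rw [← Finset.sum_sub_distrib]
      apply Finset.sum_congr rfl
      intro y _
      push_cast
      ring
    rw [← sub_eq_iff_eq_add', h2, Finset.sum_congr rfl (fun x _ => h1 x), ← Finset.mul_sum]
    congr 1
    unfold SX
    exact full_zmod (Q := QN l q0 n) (M := ZMod (l ^ (n + 1)))
      (fun x : ℤ => ((((-1) ^ x.toNat * x : ℤ) : ZMod (l ^ (n + 1))))
          * ∑ j ∈ range (QN l q0 n), H x j)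
  intro c t0
  rcases Int.eq_nat_or_neg t0 with ⟨k, hk | hk⟩
  · rw [hk, key]
    push_cast
    ring
  · have h1 := key (c + (QN l q0 n : ℕ) * t0) k
    have e : c + (QN l q0 n : ℕ) * t0 + (QN l q0 n : ℕ) * (k : ℤ) = c := by rw [hk]; ring
    rw [e] at h1
    rw [hk] at h1 ⊢
    push_cast
    linear_combination -h1

end Pool.Agent.PSX
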