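import Pool.Agent.PSX.StG

/-!
# PSX, module NUS: the weights
-/

set_option autoImplicit false

namespace Pool.Agent.PSX

open Finset (range)
open Pool.Agent.P4G (Fam QN FN FZ CC CR)
open Pool.Agent.RDF (β γ δ)

namespace M_NUS

theorem cast_β {Q : ℕ} [NeZero Q] (u : ZMod Q) : ((β u : ℤ) : ZMod Q) = -2 * u := by
  unfold β Pool.Agent.Lib_helper5.bZ
  by_cases h : u.val = 0
  · rw [if_pos h]
    have : u = 0 := (ZMod.val_eq_zero u).1 h
    rw [this]
    simp
  · rw [if_neg h]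
    push_cast
    rw [ZMod.natCast_self, ZMod.natCast_zmod_val]
    ring

theorem nu_i {Q : ℕ} [NeZero Q] (c : ℤ) (x y : ZMod Q) :
    (Q : ℤ) * nu c x y = β y - c * β x - β (y - (c : ZMod Q) * x) := by
  unfold nu
  refine Int.mul_ediv_cancel' ?_
  rw [← ZMod.intCast_zmod_eq_zero_iff_dvd]
  push_cast
  rw [cast_β, cast_β, cast_β]
  ring

theorem sg_neg {Q : ℕ} [NeZero Q] (hQ : Q % 2 = 1) (x : ZMod Q) : sg (-x) = - sg x := by
  unfold sg
  by_cases h : x = 0
  · subst h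
    simp
  · rw [if_neg (neg_ne_zero.2 h), if_neg h]
    have hv : (-x).val = Q - x.val := by
      rw [ZMod.neg_val, if_neg h]
    have hlt := ZMod.val_lt x
    rw [hv]
    have hodd : Odd Q := Nat.odd_iff.2 hQ
    have h1 : ((-1 : ℤ)) ^ (Q - x.val) * (-1) ^ x.val = -1 := by
      rw [← pow_add, Nat.sub_add_cancel hlt.le, hodd.neg_one_pow]
    rcases neg_one_pow_eq_or ℤ x.val with h2 | h2 <;> rw [h2] at h1 ⊢ <;> linarith

end M_NUS

open M_NUS in
theorem t_NUS : Stmt_NUS := by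
  intro Q _
  refine ⟨fun c x y => nu_i c x y, fun hQ x => sg_neg hQ x, fun hQ c x y => ?_⟩
  have hQ0 : (Q : ℤ) ≠ 0 := by exact_mod_cast NeZero.ne Q
  have h1 : nu (-c) x (-y) = - nu c x y := by
    have h2 := nu_i (-c) x (-y)
    have h3 := nu_i c x y
    have h4 : (-y - ((-c : ℤ) : ZMod Q) * x) = -(y - (c : ZMod Q) * x) := by
      push_cast
      ring
    rw [h4, Pool.Agent.RDF.β_neg, Pool.Agent.RDF.β_neg] at h2
    have h5 : (Q : ℤ) * nu (-c) x (-y) = (Q : ℤ) * (- nu c x y) := by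
      rw [h2, mul_neg, h3]
      ring
    exact mul_left_cancel₀ hQ0 h5
  unfold W
  rw [h1, sg_neg hQ]
  ring

end Pool.Agent.PSX
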