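import Pool.Agent.PSX.StG

/-!
# Module `RSM`: reduction of a full sum to the prime
-/

set_option autoImplicit false

namespace Pool.Agent.PSX

open Finset (range)
open Pool.Agent.P4G (Fam QN FN FZ CC CR)
open Pool.Agent.RDF (β γ δ)

namespace M_RSM

/-- the sum modulo the prime -/
theorem mod_l {l q0 n e : ℕ} {ψ : ℤ → ℤ} (h : Fam l q0 n e ψ) (A B : Polynomial ℤ) :
    (((∑ j ∈ range (q0 * l), ψ (A.eval (j : ℤ)) * B.eval (j : ℤ) : ℤ)) : ZMod l)
      = (((∑ i ∈ range q0, ψ (A.eval (i : ℤ))) * ∑ j ∈ range l, B.eval (j : ℤ) : ℤ) : ZMod l) := by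
  have hq0 : 0 < q0 := by have := h.hq; omega
  have hl0 : 0 < l := h.hl.pos
  push_cast
  rw [← Pool.Agent.RDF.crt_sum hq0 hl0 h.cop]
  refine Finset.sum_congr rfl fun u _ => ?_
  congr 1
  · congr 1
    have h1 : (q0 : ℤ) ∣ A.eval (u : ℤ) - A.eval ((u % q0 : ℕ) : ℤ) := by
      refine dvd_trans ?_ (A.sub_dvd_eval_sub _ _)
      refine ⟨(u / q0 : ℕ), ?_⟩
      have := Nat.mod_add_div u q0
      zify at this
      push_cast
      linear_combination -this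
    obtain ⟨t, ht⟩ := h1
    have h2 := h.ψper (A.eval ((u % q0 : ℕ) : ℤ)) t
    rw [← h2]
    congr 1
    linear_combination ht
  · have h1 : (l : ℤ) ∣ B.eval (u : ℤ) - B.eval ((u % l : ℕ) : ℤ) := by
      refine dvd_trans ?_ (B.sub_dvd_eval_sub _ _)
      refine ⟨(u / l : ℕ), ?_⟩
      have := Nat.mod_add_div u l
      zify at this
      push_cast
      linear_combination -this
    have h2 := (ZMod.intCast_zmod_eq_zero_iff_dvd _ l).2 h1
    push_cast at h2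
    exact sub_eq_zero.1 h2

end M_RSM

theorem t_RSM (hBLK : Stmt_BLK) : Stmt_RSM := by
  intro l q0 n e ψ h A B
  have h1 := (hBLK l q0 n e ψ h (fun j => ((ψ (A.eval j) : ℤ) : ZMod (l ^ (n + 1)))
        * ((B.eval j : ℤ) : ZMod (l ^ (n + 1)))) ⟨A, B, fun j => rfl⟩).1 1 0 le_rfl (by omega)
  rw [← h1]
  have h2 := M_RSM.mod_l h A B
  have h3 : (l : ℤ) ∣ (∑ j ∈ range (q0 * l), ψ (A.eval (j : ℤ)) * B.eval (j : ℤ))
      - (∑ i ∈ range q0, ψ (A.eval (i : ℤ))) * ∑ j ∈ range l, B.eval (j : ℤ) := by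
    rw [← ZMod.intCast_zmod_eq_zero_iff_dvd]
    rw [Int.cast_sub, h2, sub_self]
  obtain ⟨t, ht⟩ := h3
  have h4 : ((l : ZMod (l ^ (n + 1))) ^ (n + 1)) = 0 := by
    have := ZMod.natCast_self (l ^ (n + 1))
    push_cast at this
    exact this
  have h5 : ∑ j ∈ range (q0 * l ^ 1), ((ψ (A.eval (0 + (j : ℤ))) : ℤ) : ZMod (l ^ (n + 1)))
        * ((B.eval (0 + (j : ℤ)) : ℤ) : ZMod (l ^ (n + 1)))
      = ((∑ j ∈ range (q0 * l), ψ (A.eval (j : ℤ)) * B.eval (j : ℤ) : ℤ) : ZMod (l ^ (n + 1))) := by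
    rw [pow_one]
    push_cast
    simp only [zero_add]
  rw [h5, eq_add_of_sub_eq ht]
  have h6 : n + 1 - 1 = n := by omega
  rw [h6]
  push_cast
  linear_combination (t : ZMod (l ^ (n + 1))) * h4

end Pool.Agent.PSX
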