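import Pool.Agent.PSX.StG

/-!
# Period six, the ghost line: module DBL
-/

set_option autoImplicit false

namespace Pool.Agent.PSX

open Finset (range)
open Pool.Agent.P4G (Fam QN FN FZ CC CR)
open Pool.Agent.RDF (β γ δ)

namespace M_DBL

variable {Q : ℕ} [NeZero Q]

theorem val_two (z : ZMod Q) : (2 * z).val = 2 * z.val % Q := by
  have e : (2 * z) = ((2 * z.val : ℕ) : ZMod Q) := by
    push_cast
    rw [ZMod.natCast_zmod_val]
  rw [e, ZMod.val_natCast]

theorem two_β (hQ : Q % 2 = 1) (z : ZMod Q) : 2 * β z = β (2 * z) + Q * sg (2 * z) := by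
  rcases eq_or_ne z 0 with rfl | hz0
  · simp [sg, RDF.β, Lib_helper5.bZ]
  have hz := ZMod.val_lt z
  have h2 := val_two z
  have hzv : z.val ≠ 0 := by rwa [Ne, ZMod.val_eq_zero]
  have h20 : (2 * z).val ≠ 0 := by
    rw [h2]
    intro h
    have h3 := Nat.dvd_of_mod_eq_zero h
    obtain ⟨t, ht⟩ := h3
    have : t < 2 := by
      by_contra hc
      push Not at hc
      nlinarith
    interval_cases t <;> omega
  have h2z : (2 * z) ≠ 0 := by
    intro h
    apply h20
    rw [h, ZMod.val_zero]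
  unfold RDF.β sg Lib_helper5.bZ
  rw [if_neg hzv, if_neg h20, if_neg h2z, h2]
  set r := z.val
  by_cases h : 2 * r < Q
  · rw [Nat.mod_eq_of_lt h, pow_mul]
    push_cast
    ring
  · have e : 2 * r % Q = 2 * r - Q := by
      rw [Nat.mod_eq_sub_mod (by omega), Nat.mod_eq_of_lt (by omega)]
    have hodd : Odd (2 * r - Q) := by rw [Nat.odd_iff]; omega
    rw [e, hodd.neg_one_pow, Nat.cast_sub (by omega)]
    push_cast
    ring

theorem δ_eq (x : ZMod Q) : δ x = sg x * β x + if x = 0 then (Q : ℤ) else 0 := by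
  rcases eq_or_ne x 0 with rfl | h
  · simp [sg, RDF.δ, RDF.bt]
  · have hx : x.val ≠ 0 := by rwa [Ne, ZMod.val_eq_zero]
    unfold RDF.δ RDF.bt sg RDF.β Lib_helper5.bZ
    rw [if_neg h, if_neg hx, if_neg h, add_zero]

omit [NeZero Q] in
theorem ev_two (P R S x y : ZMod Q) : ev P R S (2 * x) (2 * y) = 4 * ev P R S x y := by
  unfold ev
  ring

/-- smoothing of a weighted sum -/
theorem smooth (hQ : Q % 2 = 1) (f : ZMod Q → ℤ) (P R S : ZMod Q) (g h : ZMod Q → ZMod Q → ℤ)
    (hgh : ∀ x y, 4 * g x y - g (2 * x) (2 * y) = h (2 * x) (2 * y)) :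
    ∑ x : ZMod Q, ∑ y : ZMod Q, sm f (ev P R S x y) * g x y
      = ∑ x : ZMod Q, ∑ y : ZMod Q, f (ev P R S x y) * h x y := by
  have e1 := RDF.sum2_equiv (RDF.eqD hQ) (fun x y : ZMod Q => f (ev P R S x y) * g x y)
  have e2 := RDF.sum2_equiv (RDF.eqD hQ) (fun x y : ZMod Q => f (ev P R S x y) * h x y)
  rw [e2]
  have e3 : ∀ x y : ZMod Q, sm f (ev P R S x y) * g x y
      = 4 * (f (ev P R S (2 * x) (2 * y)) * g x y) - f (ev P R S x y) * g x y := by
    intro x y
    rw [ev_two]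
    unfold sm
    ring
  simp only [e3, Finset.sum_sub_distrib]
  rw [e1]
  simp only [← Finset.sum_sub_distrib, RDF.eqD, Equiv.coe_fn_mk]
  apply Finset.sum_congr rfl
  intro x _
  apply Finset.sum_congr rfl
  intro y _
  rw [← hgh]
  ring

end M_DBL

/-- DBL. -/
theorem t_DBL : Stmt_DBL := by
  intro Q _ hQ f P R S
  constructor
  · unfold XA
    refine M_DBL.smooth hQ f P R S (fun x y => β x * β y) (fun x y =>
      ((Q : ℤ) * (β x * sg y + sg x * β y) + (Q : ℤ) ^ 2 * (sg x * sg y))) fun x y => ?_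
    have h1 := M_DBL.two_β hQ x
    have h2 := M_DBL.two_β hQ y
    have h3 : 4 * (β x * β y) = (2 * β x) * (2 * β y) := by ring
    rw [h3, h1, h2]
    ring
  · unfold YA
    rw [M_DBL.smooth hQ f P R S (fun x _ => γ x) (fun x _ => 3 * (Q : ℤ) * δ x) fun x y =>
      RDF.four_γ hQ x, Finset.mul_sum]
    refine Finset.sum_congr rfl fun x _ => ?_
    rw [Finset.mul_sum]
    refine Finset.sum_congr rfl fun y _ => ?_
    rw [M_DBL.δ_eq]
    ring

end Pool.Agent.PSX
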