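import Pool.Agent.PSX.StG

/-!
# Module `LFT`: the integral lift
-/

set_option autoImplicit false

namespace Pool.Agent.PSX

open Finset (range)
open Pool.Agent.P4G (Fam QN FN FZ CC CR)
open Pool.Agent.RDF (β γ δ)

theorem t_LFT : Stmt_LFT := by
  intro l q0 n e ψ _ h
  obtain ⟨f, hper, hneg, hcast⟩ := Pool.Agent.P4G.exists_lift (Q := QN l q0 n) h.Modd
    (FN l n e ψ) h.FN_per h.FN_neg
  exact ⟨fun z => RDF.fz (QN l q0 n) f z, fun z => RDF.fz_neg hper hneg z, fun z => hcast _⟩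

end Pool.Agent.PSX
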