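import Pool.Agent.PSX.StG

/-!
# Sums over squares
-/

set_option autoImplicit false

namespace Pool.Agent.PSX

open Finset (range)
open Pool.Agent.P4G (Fam QN FN FZ CC CR)
open Pool.Agent.RDF (β γ δ)

namespace M_ZSQ

/-- the multiplier -/
lemma exists_mult (l q0 e : ℕ) (hl : l.Prime) (hc : Nat.Coprime q0 l) (hq : q0 % 2 = 1)
    (hnd : ¬ (l - 1) ∣ 2 * e) :
    ∃ k t : ℕ, 1 ≤ k ∧ Nat.Coprime k q0 ∧ Nat.Coprime k l ∧ k ^ 2 = 1 + t * q0 ∧
      ¬ l ∣ k ^ (2 * e) - 1 := by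
  have : Fact l.Prime := ⟨hl⟩
  obtain ⟨g, hg⟩ := IsCyclic.exists_generator (α := (ZMod l)ˣ)
  have hord : orderOf g = l - 1 := by
    rw [orderOf_eq_card_of_forall_mem_zpowers hg, Nat.card_eq_fintype_card, ZMod.card_units]
  obtain ⟨k, hk1, hk2⟩ := Nat.chineseRemainder hc 1 (g : ZMod l).val
  have hkl : (k : ZMod l) = g := by
    rw [(ZMod.natCast_eq_natCast_iff k (g : ZMod l).val l).2 hk2, ZMod.natCast_zmod_val]
  have hk0 : k ≠ 0 := by
    rintro rfl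
    rw [Nat.cast_zero] at hkl
    exact g.ne_zero hkl.symm
  have hk : 1 ≤ k := Nat.one_le_iff_ne_zero.2 hk0
  have hcq : Nat.Coprime k q0 := by
    have h1 := hk1.gcd_eq
    rw [Nat.gcd_one_left] at h1
    rw [Nat.coprime_iff_gcd_eq_one, Nat.gcd_comm]
    rw [Nat.gcd_comm] at h1
    exact h1
  have hcl : Nat.Coprime k l := by
    rw [← ZMod.isUnit_iff_coprime, hkl]
    exact g.isUnit
  have h2 : 1 ≡ k ^ 2 [MOD q0] := by
    have := (hk1.pow 2).symm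
    rwa [one_pow] at this
  obtain ⟨t, ht⟩ := (Nat.modEq_iff_dvd' (Nat.one_le_pow 2 k hk)).1 h2
  refine ⟨k, t, hk, hcq, hcl, ?_, ?_⟩
  · have h3 := Nat.one_le_pow 2 k hk
    rw [mul_comm] at ht
    omega
  · intro hdvd
    apply hnd
    rw [← hord]
    apply orderOf_dvd_of_pow_eq_one
    ext
    rw [Units.val_pow_eq_pow_val, ← hkl, Units.val_one]
    have h3 : ((k ^ (2 * e) - 1 : ℕ) : ZMod l) = 0 := (ZMod.natCast_eq_zero_iff _ _).2 hdvd
    rw [Nat.cast_sub (Nat.one_le_pow _ _ hk)] at h3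
    push_cast at h3
    exact sub_eq_zero.1 h3

end M_ZSQ

theorem t_ZSQ : Stmt_ZSQ := by
  intro l q0 n e e0 ψ _ h S
  obtain ⟨k, t, hk, hcq, hcl, hkt, hnd⟩ := M_ZSQ.exists_mult l q0 e h.fam.hl h.fam.cop h.fam.hq h.nd
  have hfn : FN l n e ψ ((k : ℤ) ^ 2) = ((k ^ (2 * e) : ℕ) : ZMod (l ^ (n + 1))) := by
    unfold FN
    have h1 : ψ ((k : ℤ) ^ 2) = 1 := by
      have h2 : ((k : ℤ) ^ 2) = 1 + (t : ℤ) * q0 := by exact_mod_cast hkt
      rw [h2, h.fam.ψper, h.one]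
    rw [h1]
    push_cast
    rw [one_mul, pow_mul]
  have hun : IsUnit ((k : ℕ) : ZMod (QN l q0 n)) := by
    rw [ZMod.isUnit_iff_coprime]
    unfold QN
    exact Nat.Coprime.mul_right hcq (Nat.Coprime.pow_right _ hcl)
  obtain ⟨w, hw⟩ := hun
  have key : Z0 (FZ l q0 n e ψ) S =
      ((k ^ (2 * e) : ℕ) : ZMod (l ^ (n + 1))) * Z0 (FZ l q0 n e ψ) S := by
    unfold Z0
    rw [Finset.mul_sum, ← Equiv.sum_comp (Units.mulLeft w)]
    refine Finset.sum_congr rfl fun y _ => ?_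
    have h3 : -(S * ((Units.mulLeft w) y) ^ 2) =
        (((k : ℤ) ^ 2 : ℤ) : ZMod (QN l q0 n)) * (-(S * y ^ 2)) := by
      rw [Units.mulLeft_apply, hw]
      push_cast
      ring
    rw [h3, h.fam.FZ_mul, hfn]
  have hunit : IsUnit (((k ^ (2 * e) - 1 : ℕ)) : ZMod (l ^ (n + 1))) := by
    rw [ZMod.isUnit_iff_coprime]
    exact Nat.Coprime.pow_right _ ((Nat.Prime.coprime_iff_not_dvd h.fam.hl).2 hnd).symm
  have h5 : (((k ^ (2 * e) - 1 : ℕ)) : ZMod (l ^ (n + 1))) * Z0 (FZ l q0 n e ψ) S = 0 := by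
    rw [Nat.cast_sub (Nat.one_le_pow _ _ hk), Nat.cast_one, sub_mul, one_mul, ← key, sub_self]
  exact (hunit.mul_right_eq_zero).1 h5

end Pool.Agent.PSX
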