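import Pool.Agent.PSX.StG

/-!
# PSX, module CQC: the central sum
-/

set_option autoImplicit false

namespace Pool.Agent.PSX

open Finset (range)
open Pool.Agent.P4G (Fam QN FN FZ CC CR)
open Pool.Agent.RDF (β γ δ)

namespace M_CQC

/-- the inner sum -/
theorem inner {l q0 n e : ℕ} {ψ : ℤ → ℤ} [NeZero (QN l q0 n)] (h : Fam l q0 n e ψ) (P R S : ℤ)
    (hS : IsCoprime S ((q0 * l : ℕ) : ℤ)) (x : ℤ) :
    FN l n e ψ (4 * S) * I0 l q0 n e ψ P R S x =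
      ∑ u : ZMod (QN l q0 n), FZ l q0 n e ψ
        (((R ^ 2 + 4 * P * S : ℤ) : ZMod (QN l q0 n)) * (x : ZMod (QN l q0 n)) ^ 2 - u ^ 2) := by
  obtain ⟨c2, hc2⟩ := P4G.two_unit h.Qodd
  have hS' : IsUnit ((S : ℤ) : ZMod (QN l q0 n)) := by
    have h1 : IsCoprime S ((QN l q0 n : ℕ) : ℤ) := by
      unfold QN
      push_cast at hS ⊢
      exact IsCoprime.mul_right hS.of_mul_right_left (hS.of_mul_right_right.pow_right)
    obtain ⟨a, b, hab⟩ := h1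
    refine IsUnit.of_mul_eq_one ((a : ℤ) : ZMod (QN l q0 n)) ?_
    have h2 := congrArg (Int.cast : ℤ → ZMod (QN l q0 n)) hab
    push_cast at h2
    rw [ZMod.natCast_self, mul_zero, add_zero] at h2
    rw [mul_comm]
    exact h2
  obtain ⟨cS, hcS⟩ := hS'
  rw [← Equiv.sum_comp (P4G.eqA (c2 * cS) (-((R : ZMod (QN l q0 n)) * (x : ZMod (QN l q0 n)))))
    (fun u => FZ l q0 n e ψ
        (((R ^ 2 + 4 * P * S : ℤ) : ZMod (QN l q0 n)) * (x : ZMod (QN l q0 n)) ^ 2 - u ^ 2)),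
    ← RDF.sum_range_zmod]
  unfold I0
  rw [Finset.mul_sum]
  apply Finset.sum_congr rfl
  intro j _
  rw [← h.FN_mul, ← h.FZ_cast]
  congr 1
  simp only [P4G.eqA, Equiv.coe_fn_mk]
  rw [Units.val_mul, hc2, hcS]
  unfold evZ
  push_cast
  ring

end M_CQC

open M_CQC in
theorem t_CQC (_hUNI : Stmt_UNI) : Stmt_CQC := by
  intro l q0 n e ψ _ h P R S hS
  have hQ0 : ((QN l q0 n : ℕ) : ZMod (l ^ (n + 1))) = 0 := by
    rw [ZMod.natCast_eq_zero_iff]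
    exact Dvd.intro_left q0 rfl
  unfold SX CC
  rw [← RDF.sum_range_zmod, Finset.mul_sum, ← Finset.sum_neg_distrib]
  apply Finset.sum_congr rfl
  intro x hx
  rw [← Finset.sum_mul]
  have h1 := inner h P R S hS (x : ℤ)
  have h2 : ((δ ((x : ℕ) : ZMod (QN l q0 n)) : ℤ) : ZMod (l ^ (n + 1))) =
      -(2 * (((-1) ^ x * (x : ℤ) : ℤ) : ZMod (l ^ (n + 1)))) := by
    unfold δ RDF.bt
    rw [ZMod.val_cast_of_lt (Finset.mem_range.1 hx)]
    push_cast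
    rw [hQ0]
    ring
  have h3 : (((x : ℕ) : ℤ) : ZMod (QN l q0 n)) = ((x : ℕ) : ZMod (QN l q0 n)) := Int.cast_natCast x
  rw [h3] at h1
  rw [h2, ← h1]
  ring

end Pool.Agent.PSX
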