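import Pool.Agent.PSX.StG

/-!
# Values of the function of a family: units, periodicity, first order
-/

set_option autoImplicit false

namespace Pool.Agent.PSX

open Finset (range)
open Pool.Agent.P4G (Fam QN FN FZ CC CR)
open Pool.Agent.RDF (β γ δ)

namespace M_UNI

theorem pow_first {M : Type*} [CommRing M] (x : M) (hx : x ^ 2 = 0) (e : ℕ) :
    (1 + x) ^ e = 1 + (e : M) * x := by
  induction e with
  | zero => simp
  | succ e ih =>
    rw [pow_succ, ih]
    push_cast
    linear_combination (e : M) * hx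

theorem cast_zero {l q0 n : ℕ} {t : ℤ} (h : ((QN l q0 n : ℕ) : ℤ) ∣ t) :
    ((t : ℤ) : ZMod (l ^ (n + 1))) = 0 := by
  rw [ZMod.intCast_zmod_eq_zero_iff_dvd]
  refine dvd_trans ?_ h
  unfold QN
  push_cast
  exact Dvd.intro_left _ rfl

end M_UNI

open M_UNI in
theorem t_UNI : Stmt_UNI := by
  intro l q0 n e e0 ψ h
  have hper : ∀ u w : ℤ, ((QN l q0 n : ℕ) : ℤ) ∣ w - u → FN l n e ψ w = FN l n e ψ u := by
    intro u w hd
    have hc : ((w : ℤ) : ZMod (l ^ (n + 1))) = (u : ZMod (l ^ (n + 1))) := by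
      have h1 := cast_zero hd
      push_cast at h1
      exact sub_eq_zero.1 h1
    obtain ⟨t, ht⟩ := hd
    have hw : w = u + ((l : ℤ) ^ (n + 1) * t) * (q0 : ℤ) := by
      unfold QN at ht
      push_cast at ht
      linear_combination ht
    have hψ : ψ w = ψ u := by
      rw [hw, h.fam.ψper]
    unfold FN
    rw [hψ, hc]
  have hone : FN l n e ψ 1 = 1 := by
    unfold FN
    rw [h.one]
    simp
  refine ⟨?_, hone, ?_, hper⟩
  · intro u hu
    have h1 : IsCoprime u ((QN l q0 n : ℕ) : ℤ) := by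
      push_cast at hu
      unfold QN
      push_cast
      exact IsCoprime.mul_right (IsCoprime.of_mul_right_left hu)
        (IsCoprime.pow_right (IsCoprime.of_mul_right_right hu))
    obtain ⟨a, b, hab⟩ := h1
    have h2 : FN l n e ψ (u * a) = 1 := by
      rw [← hone]
      refine hper 1 (u * a) ⟨-b, ?_⟩
      linear_combination hab
    rw [h.fam.FN_mul] at h2
    exact IsUnit.of_mul_eq_one _ h2
  · intro t ht ht2
    have h1 : ψ (1 - 2 * t) = 1 := by
      obtain ⟨s, hs⟩ := ht
      have h2 : 1 - 2 * t = 1 + (-(2 * s)) * (q0 : ℤ) := by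
        rw [hs]; ring
      rw [h2, h.fam.ψper, h.one]
    have h3 : ((t : ℤ) : ZMod (l ^ (n + 1))) ^ 2 = 0 := by
      have := cast_zero ht2
      push_cast at this
      exact this
    unfold FN
    rw [h1]
    push_cast
    have h4 : (-2 * (t : ZMod (l ^ (n + 1)))) ^ 2 = 0 := by
      linear_combination 4 * h3
    have h5 := pow_first _ h4 e
    have h6 : (1 - 2 * (t : ZMod (l ^ (n + 1)))) = 1 + (-2 * (t : ZMod (l ^ (n + 1)))) := by ring
    rw [h6, h5]
    ring

end Pool.Agent.PSX
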