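import Pool.Agent.PSX.StG

/-!
# Period six: cancelling the constant
-/

set_option autoImplicit false

namespace Pool.Agent.PSX

open Pool.Agent.P4G (Fam QN FN FZ CC CR CC_eq)

theorem t_VAN (hCQC : Stmt_CQC) : Stmt_VAN := by
  intro l q0 n e ψ _ h P R S Xz hS hC hX
  have h1 := hCQC l q0 n e ψ h P R S hS
  have h2 : (((l : ℤ) ^ n * CR l q0 e ψ (R ^ 2 + 4 * P * S) * Xz : ℤ) : ZMod (l ^ (n + 1))) = 0 := by
    rw [Int.cast_mul, ← CC_eq h (R ^ 2 + 4 * P * S)]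
    linear_combination (-(FN l n e ψ (4 * S))) * hX + ((Xz : ℤ) : ZMod (l ^ (n + 1))) * h1
  rw [ZMod.intCast_zmod_eq_zero_iff_dvd] at h2
  push_cast at h2
  have hl := h.hl
  have hl0 : ((l : ℤ) ^ n) ≠ 0 := pow_ne_zero _ (by exact_mod_cast hl.ne_zero)
  rw [pow_succ, mul_assoc] at h2
  have h3 := (mul_dvd_mul_iff_left hl0).1 h2
  rcases (Nat.prime_iff_prime_int.1 hl).dvd_or_dvd h3 with h4 | h4
  · exact absurd h4 hC
  · exact h4

end Pool.Agent.PSX
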