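import Pool.Agent.PSX.EvKer

/-!
The system of conditions for cycles of length six and odd discriminants, for lists of forms.
-/

namespace Pool.Agent.PSX.Ev

open Finset Pool.Agent.LibH4 Pool.Agent.LibH4.Ker Pool.Agent.LibH4.T6 Pool.Agent.LibH4.KF
open Pool.Agent.Lib_helper5 Pool.Agent.Lib_helper5.LK Pool.Agent.Lib_helper5.TB
open Pool.Agent.Lib_helper5.K5 (In)

/-- the system of conditions -/
structure OSys (Q : ℕ) (D : ℤ) (J : List Fm) : Prop where
  disc : ∀ j ∈ J, j.R ^ 2 - 4 * j.P * j.S = D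
  D8 : D % 8 = 5
  inr : ∀ p : ℕ, p.Prime → p ≠ 2 → p ∣ Q → In p D
  rel : ∀ (n1 n2 n3 N T1 T2 T3 : ℕ) [NeZero n1] [NeZero n2] [NeZero n3] [NeZero (n1 * n2)]
    [NeZero (n1 * n2 * n3)], relOk n1 n2 n3 N T1 T2 T3 = true → tabCk n1 N T1 = true →
    tabCk n2 N T2 = true → tabCk n3 N T3 = true → N % 2 = 1 → (n1 * n2 * n3 * N) ∣ Q ^ 6 →
    LK.Rel N (tri (tabc n1 N T1) (tabc n2 N T2) (tabc n3 N T3)) J

theorem osys_of {m B : ℤ} (hm : 0 < m) (hm2 : m % 2 = 1) (hB2 : B % 2 = 1)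
    {P R S : ℕ → ℤ} {c : ℕ → ℕ} (h : CG.CycM m B 6 P R S c)
    (hcl : CG.rho m B c 6 = CG.rho m B c (6 + 1) * CG.om m B)
    (hP1 : ∀ k < 6, k ≠ 1 → P k ≠ 1)
    [IsDomain (QuadraticAlgebra ℤ m B)] [UniqueFactorizationMonoid (QuadraticAlgebra ℤ m B)]
    {d : ℕ} (hd : (d : ℤ) = B ^ 2 + 4 * m) {Q : ℕ}
    (hin : ∀ p : ℕ, p.Prime → p ≠ 2 → p ∣ Q → jacobiSym d p = -1) :
    OSys Q d (Jc 6 P R S c) := by
  have h8 : d % 8 = 5 := by
    obtain ⟨j, hj⟩ : ∃ j : ℤ, B = 2 * j + 1 := ⟨B / 2, by omega⟩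
    obtain ⟨i, hi⟩ : ∃ i : ℤ, m = 2 * i + 1 := ⟨m / 2, by omega⟩
    have e : (d : ℤ) = 4 * (j * (j + 1)) + 8 * i + 5 := by rw [hd, hj, hi]; ring
    obtain ⟨k, hk⟩ : ∃ k : ℤ, j * (j + 1) = 2 * k := by
      have := Int.even_mul_succ_self j
      obtain ⟨k, hk⟩ := this
      exact ⟨k, by omega⟩
    rw [hk] at e
    omega
  have cop : ∀ p : ℕ, p.Prime → p ∣ Q → ¬ p ∣ d := by
    intro p hp hpQ hdvd
    rcases eq_or_ne p 2 with rfl | hp2
    · omega
    have h1 := hin p hp hp2 hpQ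
    have h2 : jacobiSym (d : ℤ) p ≠ 0 := by rw [h1]; norm_num
    apply h2
    have : Fact p.Prime := ⟨hp⟩
    rw [← jacobiSym.legendreSym.to_jacobiSym, legendreSym.eq_zero_iff]
    have : ((d : ℕ) : ZMod p) = 0 := by rw [ZMod.natCast_eq_zero_iff]; exact hdvd
    exact_mod_cast this
  have hcopP : Nat.Coprime d (Q ^ 6) := by
    apply Nat.Coprime.pow_right
    by_contra hc
    obtain ⟨p, hp, h1, h2⟩ := Nat.Prime.not_coprime_iff_dvd.1 hc
    exact cop p hp h2 h1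
  refine ⟨?_, by omega, ?_, ?_⟩
  · intro j hj
    unfold Jc at hj
    obtain ⟨k, hk, rfl⟩ := List.mem_map.1 hj
    have hk' := List.mem_range.1 hk
    have h1 := cyc_disc h.toCyc k hk'.le
    rw [h.Pm, h.RB, h.S1] at h1
    simp only
    linear_combination h1 - hd
  · intro p hp hp2 hpQ
    have h1 := hin p hp hp2 hpQ
    have : Fact p.Prime := ⟨hp⟩
    have h2 : ((jacobiSym d p : ℤ) : ZMod p) = (d : ZMod p) ^ (p / 2) := by
      rw [← jacobiSym.legendreSym.to_jacobiSym, legendreSym.eq_pow]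
      push_cast
      rfl
    have h3 : ((rs p (d : ℤ) : ℕ) : ZMod p) = (d : ZMod p) := by
      rw [rs_cast]
      push_cast
      rfl
    have h5 : (((rs p (d : ℤ)) ^ (p / 2) : ℕ) : ZMod p) = ((p - 1 : ℕ) : ZMod p) := by
      rw [Nat.cast_pow, h3, ← h2, h1, K5.cast_pred]
      push_cast
      rfl
    have h6 := (ZMod.natCast_eq_natCast_iff' _ _ p).1 h5
    have hp1 := hp.two_le
    rw [Nat.mod_eq_of_lt (show p - 1 < p by omega)] at h6
    have h7 : Nat.mod (Nat.pow (rs p (d : ℤ)) (p / 2)) p = p - 1 := h6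
    unfold K5.In
    rw [h7]
    exact Nat.beq_refl _
  · intro n1 n2 n3 N T1 T2 T3 _ _ _ _ _ h1 h2 h3 h4 hN2 h5
    have hNQ : N ∣ Q ^ 6 := (Dvd.intro_left _ rfl).trans h5
    have hqQ : n1 * n2 * n3 ∣ Q ^ 6 := (Dvd.intro _ rfl).trans h5
    have hN : 0 < N := by omega
    obtain ⟨ho, hs⟩ := K4.relOk_spec hN h1 h2 h3 h4
    have hdq : Nat.Coprime (n1 * n2 * n3) d := (Nat.Coprime.coprime_dvd_right hqQ hcopP).symm
    have hdN : Nat.Coprime d N := Nat.Coprime.coprime_dvd_right hNQ hcopP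
    have hc := tri_char (n1 := n1) (n2 := n2) (n3 := n3) (tabCk_char h2) (tabCk_char h3)
      (tabCk_char h4)
    have key := even_T5N m B hm hm2 hB2 h 3 rfl (by norm_num) hcl hP1 hd h8 (n1 * n2 * n3) N
      (Nat.pos_of_ne_zero (NeZero.ne _)) hdq hN2 hdN _ ho hc.mul (by
        intro z
        linear_combination (3 * z) * hs)
    simp only [KF.range_term] at key
    unfold LK.Rel Jc
    rw [List.map_map]
    simp only [Finset.sum_range_succ, Finset.sum_range_zero (M := ZMod N), zero_add] at key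
    simp only [List.range_succ, List.range_zero, List.map_append, List.map_nil, List.map_cons,
      List.nil_append, List.sum_append, List.sum_cons, List.sum_nil, add_zero, Function.comp]
    push_cast
    linear_combination key

/-! ### use -/

lemma adP_JO {Q : ℕ} {D : ℤ} {J : List Fm} (S : OSys Q D J) {p : ℕ} [NeZero p] (hp : p.Prime)
    (hp2 : p ≠ 2) (hQ : p ∣ Q) : ∀ j ∈ J, adP p (rs p j.P) (rs p j.R) (rs p j.S) = true := by
  intro j hj
  have h1 := S.inr p hp hp2 hQ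
  have hd := S.disc j hj
  unfold K5.In at h1
  have e : (rs p j.R * rs p j.R + 4 * rs p j.P * (p - rs p j.S)) % p = rs p D := by
    apply rs_of
    rw [← hd]
    rw [Nat.cast_add, Nat.cast_mul, Nat.cast_mul, Nat.cast_mul, Nat.cast_sub (rs_lt j.S).le,
      rs_cast, rs_cast, rs_cast, ZMod.natCast_self]
    push_cast
    ring
  have e' : adP p (rs p j.P) (rs p j.R) (rs p j.S) =
    Nat.beq (Nat.mod (Nat.pow ((rs p j.R * rs p j.R + 4 * rs p j.P * (p - rs p j.S)) % p)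
      (p / 2)) p) (p - 1) := rfl
  rw [e', e]
  exact h1

lemma OSys.odd {Q : ℕ} {D : ℤ} {J : List Fm} (S : OSys Q D J) :
    ∀ j ∈ J, j.R % 2 = 1 ∧ j.P % 2 = 1 ∧ j.S % 2 = 1 := by
  intro j hj
  have hd := S.disc j hj
  obtain ⟨h1, h2, h3⟩ := S7.odd_mul (R := j.R) (x := j.P) (y := -j.S) (D := D)
    (by rw [← hd]; ring) S.D8
  exact ⟨h1, h2, by omega⟩

lemma adO_JO {Q : ℕ} {D : ℤ} {J : List Fm} (S : OSys Q D J) {n : ℕ} [NeZero n] (hn : 2 ∣ n) :
    ∀ j ∈ J, adO (rs n j.P) (rs n j.R) (rs n j.S) = true := by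
  intro j hj
  have key : ∀ x : ℤ, x % 2 = 1 → (rs n x) % 2 = 1 := by
    intro x hx
    have h1 : ((rs n x : ℤ)) = x % n := by
      unfold rs
      rw [ZMod.val_intCast]
    obtain ⟨k, hk⟩ := hn
    have h2 : x % (n : ℤ) % 2 = x % 2 :=
      Int.emod_emod_of_dvd x (by rw [hk]; push_cast; exact Dvd.intro _ rfl)
    omega
  obtain ⟨hR, hP, hS⟩ := S.odd j hj
  have h1 := key _ hP
  have h2 := key _ hR
  have h3 := key _ hS
  have h4 : rs n j.P * (rs n j.R * rs n j.S) % 2 = 1 := by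
    rw [Nat.mul_mod, Nat.mul_mod (rs n j.R), h1, h2, h3]
  unfold adO
  have h5 : Nat.mod (Nat.mul (rs n j.P) (Nat.mul (rs n j.R) (rs n j.S))) 2 = 1 := h4
  rw [h5]
  rfl

/-- **use of a table** -/
theorem OSys.use {n1 n2 n3 N h l T1 T2 T3 : ℕ} {F1 F2 F3 : List (ℕ × ℕ)} {rows : List (ℕ × ℕ)}
    {ps1 ps2 ps3 : ℕ → ℕ → ℕ → ℕ} {t1 t2 t3 : ℕ} {A1 A2 A3 : ℕ → ℕ → ℕ → Bool}
    [NeZero n1] [NeZero n2] [NeZero n3] [NeZero (n1 * n2)] [NeZero (n1 * n2 * n3)]
    {Q : ℕ} {D : ℤ} {J : List Fm} (S : OSys Q D J)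
    (H : TabOK n1 n2 n3 N h T1 T2 T3 F1 F2 F3 rows)
    (ht1 : tabCk n1 N T1 = true) (ht2 : tabCk n2 N T2 = true) (ht3 : tabCk n3 N T3 = true)
    (rok : relOk n1 n2 n3 N T1 T2 T3 = true)
    (r1 : redCk n1 T1 t1 l = true) (r2 : redCk n2 T2 t2 l = true) (r3 : redCk n3 T3 t3 l = true)
    (C1 : CompG n1 ps1 F1 A1) (C2 : CompG n2 ps2 F2 A2) (C3 : CompG n3 ps3 F3 A3)
    (hN : N = h * l) (h0 : 0 < h) (hl : 0 < l) (hN2 : N % 2 = 1)
    (a1 : ∀ j ∈ J, A1 (rs n1 j.P) (rs n1 j.R) (rs n1 j.S) = true)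
    (a2 : ∀ j ∈ J, A2 (rs n2 j.P) (rs n2 j.R) (rs n2 j.S) = true)
    (a3 : ∀ j ∈ J, A3 (rs n3 j.P) (rs n3 j.R) (rs n3 j.S) = true)
    (hQ : n1 * n2 * n3 * N ∣ Q ^ 6) :
    (J.map (fvalG n1 n2 n3 l ps1 ps2 ps3 t1 t2 t3 rows F3.length)).sum % l = 0 :=
  relG H hN h0 hl ht1 ht2 ht3 C1 C2 C3 r1 r2 r3 a1 a2 a3
    (S.rel n1 n2 n3 N T1 T2 T3 rok ht1 ht2 ht3 hN2 hQ)

/-! ### the family with two parameters and middle value `p` -/

/-- the forms of the family -/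
def Jp (p a v : ℤ) : List Fm :=
  [⟨p * (1 + p * a * v), p * (a + (p * a * a + 1) * v), -1, 3, -(p * (a + (p * a * a + 1) * v))⟩,
   ⟨1, p * (a + (p * a * a + 1) * v), -(p * (1 + p * a * v)), 3, -a⟩,
   ⟨p * (1 + p * a * v), 2 * a * (p * (1 + p * a * v)) - p * (a + (p * a * a + 1) * v),
     -(1 + p * a * v), 3, -(p * a)⟩,
   ⟨1 + p * a * v, p * (a + (p * a * a + 1) * v), -p, 3, -(a + (p * a * a + 1) * v)⟩,
   ⟨p, p * (a + (p * a * a + 1) * v), -(1 + p * a * v), 3, -(p * a)⟩,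
   ⟨1 + p * a * v, 2 * a * (p * (1 + p * a * v)) - p * (a + (p * a * a + 1) * v),
     -(p * (1 + p * a * v)), 3, -a⟩]

lemma Jp_κ {p a v : ℤ} : ∀ j ∈ Jp p a v, j.κ = 3 := by
  intro j hj
  simp only [Jp, List.mem_cons, List.not_mem_nil, or_false] at hj
  rcases hj with rfl | rfl | rfl | rfl | rfl | rfl <;> rfl

lemma Jp_len {p a v : ℤ} : (Jp p a v).length = 6 := rfl

/-- the data of a class; `t` selects the admissible classes: by the first coefficients `B, m` -/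
def clp (p n : ℕ) (ad : ℕ → ℕ → Bool) (ps : ℕ → ℕ → ℕ → ℕ) (a v : ℕ)
    (k : List (ℕ × ℕ) → Bool) : Bool :=
  strict (Nat.mod p n) fun q =>
  strict (Nat.mod (Nat.add a (Nat.mul (Nat.add (Nat.mul q (Nat.mul a a)) (nat_lit 1)) v)) n)
    fun c =>
  strict (Nat.mod (Nat.mul q c) n) fun B =>
  strict (Nat.mod (Nat.add (nat_lit 1) (Nat.mul q (Nat.mul a v))) n) fun r =>
  strict (Nat.mod (Nat.mul q r) n) fun m =>
  @Bool.rec (fun _ => Bool) true (
    strict (Nat.sub n (nat_lit 1)) fun o =>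
    strict (Nat.mod (Nat.mul q o) n) fun w =>
    strict (Nat.mod (Nat.add (Nat.mul (nat_lit 2) (Nat.mul a m)) (Nat.mul o B)) n) fun R =>
    strict (Nat.mod (Nat.mul o m) n) fun nm =>
    strict (Nat.mod (Nat.mul o r) n) fun nr =>
    strict (ps m B o) fun p0 => strict (ps (nat_lit 1) B nm) fun p1 =>
    strict (ps m R nr) fun p2 => strict (ps r B w) fun p3 =>
    strict (ps q B nr) fun p4 => strict (ps r R nm) fun p5 =>
    k [(m, p0), (nat_lit 1, p1), (m, p2), (r, p3), (q, p4), (r, p5)]) (ad B m)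

/-- admissible classes modulo an odd prime -/
def adc (n B m : ℕ) : Bool :=
  Nat.beq (Nat.mod (Nat.pow (Nat.mod (Nat.add (Nat.mul B B) (Nat.mul (nat_lit 4) m)) n)
    (Nat.div n (nat_lit 2))) n) (Nat.sub n (nat_lit 1))

/-- admissible classes modulo an even number -/
def ade (B m : ℕ) : Bool := Nat.beq (Nat.mod (Nat.mul B m) (nat_lit 2)) (nat_lit 1)

/-- the multiplicities of a class -/
def alp (p l a v : ℕ) (k : List ℕ → Bool) : Bool :=
  strict (Nat.sub l (nat_lit 1)) fun o =>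
  strict (Nat.mod (Nat.mul o a) l) fun na =>
  strict (Nat.mod (Nat.mul p na) l) fun nb =>
  strict (Nat.mod (Nat.mul o
    (Nat.add a (Nat.mul (Nat.add (Nat.mul p (Nat.mul a a)) (nat_lit 1)) v))) l) fun nc =>
  strict (Nat.mod (Nat.mul p nc) l) fun nB =>
  k [nB, na, nb, nc, nb, na]

lemma clp_spec {p : ℕ} {a v : ℤ} {n : ℕ} [NeZero n] (hn : 1 < n) {ad : ℕ → ℕ → Bool}
    (had : ad (rs n (p * (a + (p * a * a + 1) * v))) (rs n (p * (1 + p * a * v))) = true)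
    {ps : ℕ → ℕ → ℕ → ℕ} {k : List (ℕ × ℕ) → Bool}
    (h : clp p n ad ps (rs n a) (rs n v) k = true) :
    k ((Jp p a v).map (cp n ps)) = true := by
  have e0 : Nat.mod p n = rs n (p : ℤ) := by
    change p % n = _
    apply rs_of; push_cast; rfl
  have e1 : Nat.mod (Nat.add (rs n a) (Nat.mul (Nat.add (Nat.mul (rs n (p : ℤ))
      (Nat.mul (rs n a) (rs n a))) (nat_lit 1)) (rs n v))) n =
      rs n (a + (p * a * a + 1) * v) := by
    change (rs n a + (rs n (p : ℤ) * (rs n a * rs n a) + 1) * rs n v) % n = _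
    apply rs_of; push_cast; simp only [rs_cast]; push_cast; ring
  have e2 : ∀ x : ℤ, Nat.mod (Nat.mul (rs n (p : ℤ)) (rs n x)) n = rs n (p * x) := by
    intro x
    change (rs n (p : ℤ) * rs n x) % n = _
    apply rs_of; push_cast; simp only [rs_cast]; push_cast; rfl
  have e3 : Nat.mod (Nat.add (nat_lit 1) (Nat.mul (rs n (p : ℤ)) (Nat.mul (rs n a) (rs n v)))) n =
      rs n (1 + p * a * v) := by
    change (1 + rs n (p : ℤ) * (rs n a * rs n v)) % n = _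
    apply rs_of; push_cast; simp only [rs_cast]; push_cast; ring
  have e4 : Nat.sub n (nat_lit 1) = rs n (-1) := K5.rs_neg_one
  have e5 : Nat.mod (Nat.mul (rs n (p : ℤ)) (rs n (-1))) n = rs n (-(p : ℤ)) := by
    change (rs n (p : ℤ) * rs n (-1)) % n = _
    apply rs_of; push_cast; simp only [rs_cast]; push_cast; ring
  have e6 : ∀ x y : ℤ, Nat.mod (Nat.add (Nat.mul (nat_lit 2) (Nat.mul (rs n a) (rs n x)))
      (Nat.mul (rs n (-1)) (rs n y))) n = rs n (2 * a * x - y) := by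
    intro x y
    change (2 * (rs n a * rs n x) + rs n (-1) * rs n y) % n = _
    apply rs_of; push_cast; simp only [rs_cast]; push_cast; ring
  have e7 : ∀ x : ℤ, Nat.mod (Nat.mul (rs n (-1)) (rs n x)) n = rs n (-x) := by
    intro x
    change (rs n (-1) * rs n x) % n = _
    apply rs_of; push_cast; simp only [rs_cast]; push_cast; ring
  have e8 : (nat_lit 1) = rs n 1 := K5.rs_one hn
  unfold clp at h
  simp only [strict_eq] at h
  rw [e0, e1, e2, e3, e2, had] at h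
  rw [e4, e5, e6, e7, e7] at h
  unfold Jp cp
  simp only [List.map_cons, List.map_nil]
  rw [← e8]
  exact h

lemma clp_odd {Q p : ℕ} {D : ℤ} {a v : ℤ} (S : OSys Q D (Jp p a v)) {n : ℕ} [NeZero n]
    (hn : n.Prime) (hn2 : n ≠ 2) (hQ : n ∣ Q) {ps : ℕ → ℕ → ℕ → ℕ} {k : List (ℕ × ℕ) → Bool}
    (h : clp p n (adc n) ps (rs n a) (rs n v) k = true) :
    k ((Jp p a v).map (cp n ps)) = true := by
  refine clp_spec hn.one_lt ?_ h
  have e10 : Nat.mod (Nat.add (Nat.mul (rs n (p * (a + (p * a * a + 1) * v)))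
      (rs n (p * (a + (p * a * a + 1) * v)))) (Nat.mul (nat_lit 4) (rs n (p * (1 + p * a * v))))) n
      = rs n D := by
    have hd := S.disc _ (show (⟨p * (1 + p * a * v), p * (a + (p * a * a + 1) * v), -1, 3,
      -(p * (a + (p * a * a + 1) * v))⟩ : Fm) ∈ Jp p a v by simp [Jp])
    change (rs n _ * rs n _ + 4 * rs n _) % n = _
    apply rs_of
    rw [← hd]
    push_cast; simp only [rs_cast]; push_cast; ring
  have hin := S.inr n hn hn2 hQ
  unfold K5.In at hin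
  unfold adc
  rw [e10]
  exact hin

lemma clp_even {Q p : ℕ} {D : ℤ} {a v : ℤ} (S : OSys Q D (Jp p a v)) {n : ℕ} [NeZero n]
    (hn : 1 < n) (hn2 : 2 ∣ n) {ps : ℕ → ℕ → ℕ → ℕ} {k : List (ℕ × ℕ) → Bool}
    (h : clp p n ade ps (rs n a) (rs n v) k = true) :
    k ((Jp p a v).map (cp n ps)) = true := by
  refine clp_spec hn ?_ h
  have key : ∀ x : ℤ, x % 2 = 1 → (rs n x) % 2 = 1 := by
    intro x hx
    have h1 : ((rs n x : ℤ)) = x % n := by
      unfold rs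
      rw [ZMod.val_intCast]
    obtain ⟨k, hk⟩ := hn2
    have h2 : x % (n : ℤ) % 2 = x % 2 :=
      Int.emod_emod_of_dvd x (by rw [hk]; push_cast; exact Dvd.intro _ rfl)
    omega
  obtain ⟨hR, hP, -⟩ := S.odd _ (show (⟨p * (1 + p * a * v), p * (a + (p * a * a + 1) * v), -1, 3,
      -(p * (a + (p * a * a + 1) * v))⟩ : Fm) ∈ Jp p a v by simp [Jp])
  have h1 := key _ hR
  have h2 := key _ hP
  have h4 : rs n (p * (a + (p * a * a + 1) * v)) * rs n (p * (1 + p * a * v)) % 2 = 1 := by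
    rw [Nat.mul_mod, h1, h2]
  unfold ade
  have h5 : Nat.mod (Nat.mul (rs n (p * (a + (p * a * a + 1) * v)))
    (rs n (p * (1 + p * a * v)))) 2 = 1 := h4
  rw [h5]
  rfl

lemma alp_spec {p : ℕ} {a v : ℤ} {l : ℕ} [NeZero l] {k : List ℕ → Bool}
    (h : alp p l (rs l a) (rs l v) k = true) : k ((Jp p a v).map fun j => rs l j.α) = true := by
  have e4 : Nat.sub l (nat_lit 1) = rs l (-1) := K5.rs_neg_one
  have e7 : ∀ x : ℤ, Nat.mod (Nat.mul (rs l (-1)) (rs l x)) l = rs l (-x) := by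
    intro x
    change (rs l (-1) * rs l x) % l = _
    apply rs_of; push_cast; simp only [rs_cast]; push_cast; ring
  have e2 : ∀ x : ℤ, Nat.mod (Nat.mul p (rs l (-x))) l = rs l (-(p * x)) := by
    intro x
    change (p * rs l (-x)) % l = _
    apply rs_of; push_cast; simp only [rs_cast]; push_cast; ring
  have e1 : Nat.mod (Nat.mul (rs l (-1)) (Nat.add (rs l a) (Nat.mul (Nat.add (Nat.mul p
      (Nat.mul (rs l a) (rs l a))) (nat_lit 1)) (rs l v)))) l =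
      rs l (-(a + (p * a * a + 1) * v)) := by
    change (rs l (-1) * (rs l a + (p * (rs l a * rs l a) + 1) * rs l v)) % l = _
    apply rs_of; push_cast; simp only [rs_cast]; push_cast; ring
  unfold alp at h
  simp only [strict_eq] at h
  rw [e4, e7, e2, e1, e2] at h
  exact h

end Pool.Agent.PSX.Ev
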