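import Pool.Agent.PSX.KEng
import Pool.Agent.RQM.C55
import Pool.Agent.RQM.C56
import Pool.Agent.RQM.C57
import Pool.Agent.RQM.C58
import Pool.Agent.RQM.C59
import Pool.Agent.RQM.C60
import Pool.Agent.RQM.C61
import Pool.Agent.RQM.C62
import Pool.Agent.RQM.C63

/-! generated: the reduced relations of the tables for the family of period six -/

namespace Pool.Agent.PSX.K

open Pool.Agent.Lib_helper5 Pool.Agent.Lib_helper5.LK Pool.Agent.Lib_helper5.TB
  Pool.Agent.LibH4.Ker Pool.Agent.PSX.EL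
open Pool.Agent.LibH4.S7 (Rl)

/-- divisibility of the modulus -/
lemma pdv {p Q N : ℕ} (hp : p.Prime) (h1 : p ∣ N) (h : N ∣ Q ^ 6) : p ∣ Q :=
  hp.dvd_of_dvd_pow (h1.trans h)

lemma F1_len : F1.length = 1 := by decide
lemma F3_len : F3.length = 3 := by decide
lemma F4_len : F4.length = 4 := by decide
lemma F5_len : F5.length = 10 := by decide
lemma F8_len : F8.length = 16 := by decide

/-- relation -/
def R119N13 : Rl :=
  ⟨(nat_lit 17), (nat_lit 7), (nat_lit 1), (nat_lit 13), (nat_lit 15), (nat_lit 5), (nat_lit 0), PT17, PT7, PT1, t1_119N13, t2_119N13, t3_119N13, rows_119N13, (nat_lit 1)⟩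

theorem u119N13 {Q : ℕ} {a b c B m : ℤ} (S : Sys6 Q a b c B m)
    (hQ : 17 * 7 * 1 * 13 ∣ Q ^ 6) :
    ((J6 a b c B m).map (fval 17 7 1 13 15 5 0 PT17 PT7 PT1 t1_119N13 t2_119N13 t3_119N13 rows_119N13 F1.length)).sum % 13 = 0 :=
  use6 tok_119N13 (h := 1) (l := 13) (by norm_num) (by norm_num) (by norm_num) (by norm_num)
    tab1_119N13 tab2_119N13 tab3_119N13 comp17 comp7 comp1 red1_119N13 red2_119N13 red3_119N13
    rok_119N13 S hQ
    (adP6 S (by norm_num) (by norm_num) (pdv (p := 17) (by norm_num) (by norm_num) hQ))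
    (adP6 S (by norm_num) (by norm_num) (pdv (p := 7) (by norm_num) (by norm_num) hQ))
    (adT6 _)

theorem h119N13 {Q : ℕ} {a b c B m : ℤ} (S : Sys6 Q a b c B m)
    (hQ : 17 * 7 * 1 * 13 ∣ Q ^ 6) : Hd R119N13 a b c B m := by
  have h := u119N13 S hQ
  rw [F1_len] at h
  exact h

/-- relation -/
def R119N5 : Rl :=
  ⟨(nat_lit 17), (nat_lit 7), (nat_lit 1), (nat_lit 5), (nat_lit 15), (nat_lit 5), (nat_lit 0), PT17, PT7, PT1, t1_119N5, t2_119N5, t3_119N5, rows_119N5, (nat_lit 1)⟩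

theorem u119N5 {Q : ℕ} {a b c B m : ℤ} (S : Sys6 Q a b c B m)
    (hQ : 17 * 7 * 1 * 5 ∣ Q ^ 6) :
    ((J6 a b c B m).map (fval 17 7 1 5 15 5 0 PT17 PT7 PT1 t1_119N5 t2_119N5 t3_119N5 rows_119N5 F1.length)).sum % 5 = 0 :=
  use6 tok_119N5 (h := 1) (l := 5) (by norm_num) (by norm_num) (by norm_num) (by norm_num)
    tab1_119N5 tab2_119N5 tab3_119N5 comp17 comp7 comp1 red1_119N5 red2_119N5 red3_119N5
    rok_119N5 S hQ
    (adP6 S (by norm_num) (by norm_num) (pdv (p := 17) (by norm_num) (by norm_num) hQ))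
    (adP6 S (by norm_num) (by norm_num) (pdv (p := 7) (by norm_num) (by norm_num) hQ))
    (adT6 _)

theorem h119N5 {Q : ℕ} {a b c B m : ℤ} (S : Sys6 Q a b c B m)
    (hQ : 17 * 7 * 1 * 5 ∣ Q ^ 6) : Hd R119N5 a b c B m := by
  have h := u119N5 S hQ
  rw [F1_len] at h
  exact h

/-- relation -/
def R133N13 : Rl :=
  ⟨(nat_lit 19), (nat_lit 7), (nat_lit 1), (nat_lit 13), (nat_lit 17), (nat_lit 5), (nat_lit 0), PT19, PT7, PT1, t1_133N13, t2_133N13, t3_133N13, rows_133N13, (nat_lit 1)⟩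

theorem u133N13 {Q : ℕ} {a b c B m : ℤ} (S : Sys6 Q a b c B m)
    (hQ : 19 * 7 * 1 * 13 ∣ Q ^ 6) :
    ((J6 a b c B m).map (fval 19 7 1 13 17 5 0 PT19 PT7 PT1 t1_133N13 t2_133N13 t3_133N13 rows_133N13 F1.length)).sum % 13 = 0 :=
  use6 tok_133N13 (h := 1) (l := 13) (by norm_num) (by norm_num) (by norm_num) (by norm_num)
    tab1_133N13 tab2_133N13 tab3_133N13 comp19 comp7 comp1 red1_133N13 red2_133N13 red3_133N13
    rok_133N13 S hQ
    (adP6 S (by norm_num) (by norm_num) (pdv (p := 19) (by norm_num) (by norm_num) hQ))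
    (adP6 S (by norm_num) (by norm_num) (pdv (p := 7) (by norm_num) (by norm_num) hQ))
    (adT6 _)

theorem h133N13 {Q : ℕ} {a b c B m : ℤ} (S : Sys6 Q a b c B m)
    (hQ : 19 * 7 * 1 * 13 ∣ Q ^ 6) : Hd R133N13 a b c B m := by
  have h := u133N13 S hQ
  rw [F1_len] at h
  exact h

/-- relation -/
def R140N13 : Rl :=
  ⟨(nat_lit 7), (nat_lit 5), (nat_lit 4), (nat_lit 13), (nat_lit 5), (nat_lit 3), (nat_lit 1), PT7, PT5, PT4, t1_140N13, t2_140N13, t3_140N13, rows_140N13, (nat_lit 4)⟩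

theorem u140N13 {Q : ℕ} {a b c B m : ℤ} (S : Sys6 Q a b c B m)
    (hQ : 7 * 5 * 4 * 13 ∣ Q ^ 6) :
    ((J6 a b c B m).map (fval 7 5 4 13 5 3 1 PT7 PT5 PT4 t1_140N13 t2_140N13 t3_140N13 rows_140N13 F4.length)).sum % 13 = 0 :=
  use6 tok_140N13 (h := 1) (l := 13) (by norm_num) (by norm_num) (by norm_num) (by norm_num)
    tab1_140N13 tab2_140N13 tab3_140N13 comp7 comp5 comp4 red1_140N13 red2_140N13 red3_140N13
    rok_140N13 S hQ
    (adP6 S (by norm_num) (by norm_num) (pdv (p := 7) (by norm_num) (by norm_num) hQ))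
    (adP6 S (by norm_num) (by norm_num) (pdv (p := 5) (by norm_num) (by norm_num) hQ))
    (adO6 S (by norm_num))

theorem h140N13 {Q : ℕ} {a b c B m : ℤ} (S : Sys6 Q a b c B m)
    (hQ : 7 * 5 * 4 * 13 ∣ Q ^ 6) : Hd R140N13 a b c B m := by
  have h := u140N13 S hQ
  rw [F4_len] at h
  exact h

/-- relation -/
def R143N5 : Rl :=
  ⟨(nat_lit 11), (nat_lit 13), (nat_lit 1), (nat_lit 5), (nat_lit 9), (nat_lit 11), (nat_lit 0), PT11, PT13, PT1, t1_143N5, t2_143N5, t3_143N5, rows_143N5, (nat_lit 1)⟩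

theorem u143N5 {Q : ℕ} {a b c B m : ℤ} (S : Sys6 Q a b c B m)
    (hQ : 11 * 13 * 1 * 5 ∣ Q ^ 6) :
    ((J6 a b c B m).map (fval 11 13 1 5 9 11 0 PT11 PT13 PT1 t1_143N5 t2_143N5 t3_143N5 rows_143N5 F1.length)).sum % 5 = 0 :=
  use6 tok_143N5 (h := 1) (l := 5) (by norm_num) (by norm_num) (by norm_num) (by norm_num)
    tab1_143N5 tab2_143N5 tab3_143N5 comp11 comp13 comp1 red1_143N5 red2_143N5 red3_143N5
    rok_143N5 S hQ
    (adP6 S (by norm_num) (by norm_num) (pdv (p := 11) (by norm_num) (by norm_num) hQ))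
    (adP6 S (by norm_num) (by norm_num) (pdv (p := 13) (by norm_num) (by norm_num) hQ))
    (adT6 _)

theorem h143N5 {Q : ℕ} {a b c B m : ℤ} (S : Sys6 Q a b c B m)
    (hQ : 11 * 13 * 1 * 5 ∣ Q ^ 6) : Hd R143N5 a b c B m := by
  have h := u143N5 S hQ
  rw [F1_len] at h
  exact h

/-- relation -/
def R143N7 : Rl :=
  ⟨(nat_lit 11), (nat_lit 13), (nat_lit 1), (nat_lit 7), (nat_lit 9), (nat_lit 11), (nat_lit 0), PT11, PT13, PT1, t1_143N7, t2_143N7, t3_143N7, rows_143N7, (nat_lit 1)⟩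

theorem u143N7 {Q : ℕ} {a b c B m : ℤ} (S : Sys6 Q a b c B m)
    (hQ : 11 * 13 * 1 * 7 ∣ Q ^ 6) :
    ((J6 a b c B m).map (fval 11 13 1 7 9 11 0 PT11 PT13 PT1 t1_143N7 t2_143N7 t3_143N7 rows_143N7 F1.length)).sum % 7 = 0 :=
  use6 tok_143N7 (h := 1) (l := 7) (by norm_num) (by norm_num) (by norm_num) (by norm_num)
    tab1_143N7 tab2_143N7 tab3_143N7 comp11 comp13 comp1 red1_143N7 red2_143N7 red3_143N7
    rok_143N7 S hQ
    (adP6 S (by norm_num) (by norm_num) (pdv (p := 11) (by norm_num) (by norm_num) hQ))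
    (adP6 S (by norm_num) (by norm_num) (pdv (p := 13) (by norm_num) (by norm_num) hQ))
    (adT6 _)

theorem h143N7 {Q : ℕ} {a b c B m : ℤ} (S : Sys6 Q a b c B m)
    (hQ : 11 * 13 * 1 * 7 ∣ Q ^ 6) : Hd R143N7 a b c B m := by
  have h := u143N7 S hQ
  rw [F1_len] at h
  exact h

/-- relation -/
def R152F19a : Rl :=
  ⟨(nat_lit 19), (nat_lit 8), (nat_lit 1), (nat_lit 19), (nat_lit 17), (nat_lit 1), (nat_lit 0), PT19, PT8, PT1, t1_152F19a, t2_152F19a, t3_152F19a, rows_152F19a, (nat_lit 1)⟩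

theorem u152F19a {Q : ℕ} {a b c B m : ℤ} (S : Sys6 Q a b c B m)
    (hQ : 19 * 8 * 1 * 6859 ∣ Q ^ 6) :
    ((J6 a b c B m).map (fval 19 8 1 19 17 1 0 PT19 PT8 PT1 t1_152F19a t2_152F19a t3_152F19a rows_152F19a F1.length)).sum % 19 = 0 :=
  use6 tok_152F19a (h := 361) (l := 19) (by norm_num) (by norm_num) (by norm_num) (by norm_num)
    tab1_152F19a tab2_152F19a tab3_152F19a comp19 comp8 comp1 red1_152F19a red2_152F19a red3_152F19a
    rok_152F19a S hQ
    (adP6 S (by norm_num) (by norm_num) (pdv (p := 19) (by norm_num) (by norm_num) hQ))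
    (adO6 S (by norm_num))
    (adT6 _)

theorem h152F19a {Q : ℕ} {a b c B m : ℤ} (S : Sys6 Q a b c B m)
    (hQ : 19 * 8 * 1 * 6859 ∣ Q ^ 6) : Hd R152F19a a b c B m := by
  have h := u152F19a S hQ
  rw [F1_len] at h
  exact h

/-- relation -/
def R152F19b : Rl :=
  ⟨(nat_lit 19), (nat_lit 8), (nat_lit 1), (nat_lit 19), (nat_lit 17), (nat_lit 1), (nat_lit 0), PT19, PT8, PT1, t1_152F19b, t2_152F19b, t3_152F19b, rows_152F19b, (nat_lit 1)⟩

theorem u152F19b {Q : ℕ} {a b c B m : ℤ} (S : Sys6 Q a b c B m)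
    (hQ : 19 * 8 * 1 * 6859 ∣ Q ^ 6) :
    ((J6 a b c B m).map (fval 19 8 1 19 17 1 0 PT19 PT8 PT1 t1_152F19b t2_152F19b t3_152F19b rows_152F19b F1.length)).sum % 19 = 0 :=
  use6 tok_152F19b (h := 361) (l := 19) (by norm_num) (by norm_num) (by norm_num) (by norm_num)
    tab1_152F19b tab2_152F19b tab3_152F19b comp19 comp8 comp1 red1_152F19b red2_152F19b red3_152F19b
    rok_152F19b S hQ
    (adP6 S (by norm_num) (by norm_num) (pdv (p := 19) (by norm_num) (by norm_num) hQ))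
    (adO6 S (by norm_num))
    (adT6 _)

theorem h152F19b {Q : ℕ} {a b c B m : ℤ} (S : Sys6 Q a b c B m)
    (hQ : 19 * 8 * 1 * 6859 ∣ Q ^ 6) : Hd R152F19b a b c B m := by
  have h := u152F19b S hQ
  rw [F1_len] at h
  exact h

/-- relation -/
def R187F17a : Rl :=
  ⟨(nat_lit 17), (nat_lit 11), (nat_lit 1), (nat_lit 17), (nat_lit 15), (nat_lit 9), (nat_lit 0), PT17, PT11, PT1, t1_187F17a, t2_187F17a, t3_187F17a, rows_187F17a, (nat_lit 1)⟩

theorem u187F17a {Q : ℕ} {a b c B m : ℤ} (S : Sys6 Q a b c B m)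
    (hQ : 17 * 11 * 1 * 4913 ∣ Q ^ 6) :
    ((J6 a b c B m).map (fval 17 11 1 17 15 9 0 PT17 PT11 PT1 t1_187F17a t2_187F17a t3_187F17a rows_187F17a F1.length)).sum % 17 = 0 :=
  use6 tok_187F17a (h := 289) (l := 17) (by norm_num) (by norm_num) (by norm_num) (by norm_num)
    tab1_187F17a tab2_187F17a tab3_187F17a comp17 comp11 comp1 red1_187F17a red2_187F17a red3_187F17a
    rok_187F17a S hQ
    (adP6 S (by norm_num) (by norm_num) (pdv (p := 17) (by norm_num) (by norm_num) hQ))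
    (adP6 S (by norm_num) (by norm_num) (pdv (p := 11) (by norm_num) (by norm_num) hQ))
    (adT6 _)

theorem h187F17a {Q : ℕ} {a b c B m : ℤ} (S : Sys6 Q a b c B m)
    (hQ : 17 * 11 * 1 * 4913 ∣ Q ^ 6) : Hd R187F17a a b c B m := by
  have h := u187F17a S hQ
  rw [F1_len] at h
  exact h

/-- relation -/
def R187F17b : Rl :=
  ⟨(nat_lit 17), (nat_lit 11), (nat_lit 1), (nat_lit 17), (nat_lit 15), (nat_lit 9), (nat_lit 0), PT17, PT11, PT1, t1_187F17b, t2_187F17b, t3_187F17b, rows_187F17b, (nat_lit 1)⟩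

theorem u187F17b {Q : ℕ} {a b c B m : ℤ} (S : Sys6 Q a b c B m)
    (hQ : 17 * 11 * 1 * 4913 ∣ Q ^ 6) :
    ((J6 a b c B m).map (fval 17 11 1 17 15 9 0 PT17 PT11 PT1 t1_187F17b t2_187F17b t3_187F17b rows_187F17b F1.length)).sum % 17 = 0 :=
  use6 tok_187F17b (h := 289) (l := 17) (by norm_num) (by norm_num) (by norm_num) (by norm_num)
    tab1_187F17b tab2_187F17b tab3_187F17b comp17 comp11 comp1 red1_187F17b red2_187F17b red3_187F17b
    rok_187F17b S hQ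
    (adP6 S (by norm_num) (by norm_num) (pdv (p := 17) (by norm_num) (by norm_num) hQ))
    (adP6 S (by norm_num) (by norm_num) (pdv (p := 11) (by norm_num) (by norm_num) hQ))
    (adT6 _)

theorem h187F17b {Q : ℕ} {a b c B m : ℤ} (S : Sys6 Q a b c B m)
    (hQ : 17 * 11 * 1 * 4913 ∣ Q ^ 6) : Hd R187F17b a b c B m := by
  have h := u187F17b S hQ
  rw [F1_len] at h
  exact h

/-- relation -/
def R221N5 : Rl :=
  ⟨(nat_lit 17), (nat_lit 13), (nat_lit 1), (nat_lit 5), (nat_lit 15), (nat_lit 11), (nat_lit 0), PT17, PT13, PT1, t1_221N5, t2_221N5, t3_221N5, rows_221N5, (nat_lit 1)⟩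

theorem u221N5 {Q : ℕ} {a b c B m : ℤ} (S : Sys6 Q a b c B m)
    (hQ : 17 * 13 * 1 * 5 ∣ Q ^ 6) :
    ((J6 a b c B m).map (fval 17 13 1 5 15 11 0 PT17 PT13 PT1 t1_221N5 t2_221N5 t3_221N5 rows_221N5 F1.length)).sum % 5 = 0 :=
  use6 tok_221N5 (h := 1) (l := 5) (by norm_num) (by norm_num) (by norm_num) (by norm_num)
    tab1_221N5 tab2_221N5 tab3_221N5 comp17 comp13 comp1 red1_221N5 red2_221N5 red3_221N5
    rok_221N5 S hQ
    (adP6 S (by norm_num) (by norm_num) (pdv (p := 17) (by norm_num) (by norm_num) hQ))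
    (adP6 S (by norm_num) (by norm_num) (pdv (p := 13) (by norm_num) (by norm_num) hQ))
    (adT6 _)

theorem h221N5 {Q : ℕ} {a b c B m : ℤ} (S : Sys6 Q a b c B m)
    (hQ : 17 * 13 * 1 * 5 ∣ Q ^ 6) : Hd R221N5 a b c B m := by
  have h := u221N5 S hQ
  rw [F1_len] at h
  exact h

/-- relation -/
def R247F19a : Rl :=
  ⟨(nat_lit 19), (nat_lit 13), (nat_lit 1), (nat_lit 19), (nat_lit 17), (nat_lit 11), (nat_lit 0), PT19, PT13, PT1, t1_247F19a, t2_247F19a, t3_247F19a, rows_247F19a, (nat_lit 1)⟩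

theorem u247F19a {Q : ℕ} {a b c B m : ℤ} (S : Sys6 Q a b c B m)
    (hQ : 19 * 13 * 1 * 6859 ∣ Q ^ 6) :
    ((J6 a b c B m).map (fval 19 13 1 19 17 11 0 PT19 PT13 PT1 t1_247F19a t2_247F19a t3_247F19a rows_247F19a F1.length)).sum % 19 = 0 :=
  use6 tok_247F19a (h := 361) (l := 19) (by norm_num) (by norm_num) (by norm_num) (by norm_num)
    tab1_247F19a tab2_247F19a tab3_247F19a comp19 comp13 comp1 red1_247F19a red2_247F19a red3_247F19a
    rok_247F19a S hQ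
    (adP6 S (by norm_num) (by norm_num) (pdv (p := 19) (by norm_num) (by norm_num) hQ))
    (adP6 S (by norm_num) (by norm_num) (pdv (p := 13) (by norm_num) (by norm_num) hQ))
    (adT6 _)

theorem h247F19a {Q : ℕ} {a b c B m : ℤ} (S : Sys6 Q a b c B m)
    (hQ : 19 * 13 * 1 * 6859 ∣ Q ^ 6) : Hd R247F19a a b c B m := by
  have h := u247F19a S hQ
  rw [F1_len] at h
  exact h

/-- relation -/
def R260F13 : Rl :=
  ⟨(nat_lit 13), (nat_lit 5), (nat_lit 4), (nat_lit 13), (nat_lit 11), (nat_lit 3), (nat_lit 1), PT13, PT5, PT4, t1_260F13, t2_260F13, t3_260F13, rows_260F13, (nat_lit 4)⟩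

theorem u260F13 {Q : ℕ} {a b c B m : ℤ} (S : Sys6 Q a b c B m)
    (hQ : 13 * 5 * 4 * 2197 ∣ Q ^ 6) :
    ((J6 a b c B m).map (fval 13 5 4 13 11 3 1 PT13 PT5 PT4 t1_260F13 t2_260F13 t3_260F13 rows_260F13 F4.length)).sum % 13 = 0 :=
  use6 tok_260F13 (h := 169) (l := 13) (by norm_num) (by norm_num) (by norm_num) (by norm_num)
    tab1_260F13 tab2_260F13 tab3_260F13 comp13 comp5 comp4 red1_260F13 red2_260F13 red3_260F13
    rok_260F13 S hQ
    (adP6 S (by norm_num) (by norm_num) (pdv (p := 13) (by norm_num) (by norm_num) hQ))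
    (adP6 S (by norm_num) (by norm_num) (pdv (p := 5) (by norm_num) (by norm_num) hQ))
    (adO6 S (by norm_num))

theorem h260F13 {Q : ℕ} {a b c B m : ℤ} (S : Sys6 Q a b c B m)
    (hQ : 13 * 5 * 4 * 2197 ∣ Q ^ 6) : Hd R260F13 a b c B m := by
  have h := u260F13 S hQ
  rw [F4_len] at h
  exact h

/-- relation -/
def R280F7 : Rl :=
  ⟨(nat_lit 7), (nat_lit 5), (nat_lit 8), (nat_lit 7), (nat_lit 5), (nat_lit 3), (nat_lit 1), PT7, PT5, PT8, t1_280F7, t2_280F7, t3_280F7, rows_280F7, (nat_lit 16)⟩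

theorem u280F7 {Q : ℕ} {a b c B m : ℤ} (S : Sys6 Q a b c B m)
    (hQ : 7 * 5 * 8 * 343 ∣ Q ^ 6) :
    ((J6 a b c B m).map (fval 7 5 8 7 5 3 1 PT7 PT5 PT8 t1_280F7 t2_280F7 t3_280F7 rows_280F7 F8.length)).sum % 7 = 0 :=
  use6 tok_280F7 (h := 49) (l := 7) (by norm_num) (by norm_num) (by norm_num) (by norm_num)
    tab1_280F7 tab2_280F7 tab3_280F7 comp7 comp5 comp8 red1_280F7 red2_280F7 red3_280F7
    rok_280F7 S hQ
    (adP6 S (by norm_num) (by norm_num) (pdv (p := 7) (by norm_num) (by norm_num) hQ))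
    (adP6 S (by norm_num) (by norm_num) (pdv (p := 5) (by norm_num) (by norm_num) hQ))
    (adO6 S (by norm_num))

theorem h280F7 {Q : ℕ} {a b c B m : ℤ} (S : Sys6 Q a b c B m)
    (hQ : 7 * 5 * 8 * 343 ∣ Q ^ 6) : Hd R280F7 a b c B m := by
  have h := u280F7 S hQ
  rw [F8_len] at h
  exact h

/-- relation -/
def R308F7 : Rl :=
  ⟨(nat_lit 11), (nat_lit 7), (nat_lit 4), (nat_lit 7), (nat_lit 9), (nat_lit 5), (nat_lit 1), PT11, PT7, PT4, t1_308F7, t2_308F7, t3_308F7, rows_308F7, (nat_lit 4)⟩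

theorem u308F7 {Q : ℕ} {a b c B m : ℤ} (S : Sys6 Q a b c B m)
    (hQ : 11 * 7 * 4 * 343 ∣ Q ^ 6) :
    ((J6 a b c B m).map (fval 11 7 4 7 9 5 1 PT11 PT7 PT4 t1_308F7 t2_308F7 t3_308F7 rows_308F7 F4.length)).sum % 7 = 0 :=
  use6 tok_308F7 (h := 49) (l := 7) (by norm_num) (by norm_num) (by norm_num) (by norm_num)
    tab1_308F7 tab2_308F7 tab3_308F7 comp11 comp7 comp4 red1_308F7 red2_308F7 red3_308F7
    rok_308F7 S hQ
    (adP6 S (by norm_num) (by norm_num) (pdv (p := 11) (by norm_num) (by norm_num) hQ))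
    (adP6 S (by norm_num) (by norm_num) (pdv (p := 7) (by norm_num) (by norm_num) hQ))
    (adO6 S (by norm_num))

theorem h308F7 {Q : ℕ} {a b c B m : ℤ} (S : Sys6 Q a b c B m)
    (hQ : 11 * 7 * 4 * 343 ∣ Q ^ 6) : Hd R308F7 a b c B m := by
  have h := u308F7 S hQ
  rw [F4_len] at h
  exact h

/-- relation -/
def R364F13a : Rl :=
  ⟨(nat_lit 13), (nat_lit 7), (nat_lit 4), (nat_lit 13), (nat_lit 11), (nat_lit 5), (nat_lit 1), PT13, PT7, PT4, t1_364F13a, t2_364F13a, t3_364F13a, rows_364F13a, (nat_lit 4)⟩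

theorem u364F13a {Q : ℕ} {a b c B m : ℤ} (S : Sys6 Q a b c B m)
    (hQ : 13 * 7 * 4 * 2197 ∣ Q ^ 6) :
    ((J6 a b c B m).map (fval 13 7 4 13 11 5 1 PT13 PT7 PT4 t1_364F13a t2_364F13a t3_364F13a rows_364F13a F4.length)).sum % 13 = 0 :=
  use6 tok_364F13a (h := 169) (l := 13) (by norm_num) (by norm_num) (by norm_num) (by norm_num)
    tab1_364F13a tab2_364F13a tab3_364F13a comp13 comp7 comp4 red1_364F13a red2_364F13a red3_364F13a
    rok_364F13a S hQ
    (adP6 S (by norm_num) (by norm_num) (pdv (p := 13) (by norm_num) (by norm_num) hQ))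
    (adP6 S (by norm_num) (by norm_num) (pdv (p := 7) (by norm_num) (by norm_num) hQ))
    (adO6 S (by norm_num))

theorem h364F13a {Q : ℕ} {a b c B m : ℤ} (S : Sys6 Q a b c B m)
    (hQ : 13 * 7 * 4 * 2197 ∣ Q ^ 6) : Hd R364F13a a b c B m := by
  have h := u364F13a S hQ
  rw [F4_len] at h
  exact h

/-- relation -/
def R364F13b : Rl :=
  ⟨(nat_lit 13), (nat_lit 7), (nat_lit 4), (nat_lit 13), (nat_lit 11), (nat_lit 5), (nat_lit 1), PT13, PT7, PT4, t1_364F13b, t2_364F13b, t3_364F13b, rows_364F13b, (nat_lit 4)⟩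

theorem u364F13b {Q : ℕ} {a b c B m : ℤ} (S : Sys6 Q a b c B m)
    (hQ : 13 * 7 * 4 * 2197 ∣ Q ^ 6) :
    ((J6 a b c B m).map (fval 13 7 4 13 11 5 1 PT13 PT7 PT4 t1_364F13b t2_364F13b t3_364F13b rows_364F13b F4.length)).sum % 13 = 0 :=
  use6 tok_364F13b (h := 169) (l := 13) (by norm_num) (by norm_num) (by norm_num) (by norm_num)
    tab1_364F13b tab2_364F13b tab3_364F13b comp13 comp7 comp4 red1_364F13b red2_364F13b red3_364F13b
    rok_364F13b S hQ
    (adP6 S (by norm_num) (by norm_num) (pdv (p := 13) (by norm_num) (by norm_num) hQ))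
    (adP6 S (by norm_num) (by norm_num) (pdv (p := 7) (by norm_num) (by norm_num) hQ))
    (adO6 S (by norm_num))

theorem h364F13b {Q : ℕ} {a b c B m : ℤ} (S : Sys6 Q a b c B m)
    (hQ : 13 * 7 * 4 * 2197 ∣ Q ^ 6) : Hd R364F13b a b c B m := by
  have h := u364F13b S hQ
  rw [F4_len] at h
  exact h

/-- relation -/
def R399F7 : Rl :=
  ⟨(nat_lit 19), (nat_lit 7), (nat_lit 3), (nat_lit 7), (nat_lit 17), (nat_lit 5), (nat_lit 1), PT19, PT7, PT3, t1_399F7, t2_399F7, t3_399F7, rows_399F7, (nat_lit 3)⟩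

theorem u399F7 {Q : ℕ} {a b c B m : ℤ} (S : Sys6 Q a b c B m)
    (hQ : 19 * 7 * 3 * 343 ∣ Q ^ 6) :
    ((J6 a b c B m).map (fval 19 7 3 7 17 5 1 PT19 PT7 PT3 t1_399F7 t2_399F7 t3_399F7 rows_399F7 F3.length)).sum % 7 = 0 :=
  use6 tok_399F7 (h := 49) (l := 7) (by norm_num) (by norm_num) (by norm_num) (by norm_num)
    tab1_399F7 tab2_399F7 tab3_399F7 comp19 comp7 comp3 red1_399F7 red2_399F7 red3_399F7
    rok_399F7 S hQ
    (adP6 S (by norm_num) (by norm_num) (pdv (p := 19) (by norm_num) (by norm_num) hQ))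
    (adP6 S (by norm_num) (by norm_num) (pdv (p := 7) (by norm_num) (by norm_num) hQ))
    (adP6 S (by norm_num) (by norm_num) (pdv (p := 3) (by norm_num) (by norm_num) hQ))

theorem h399F7 {Q : ℕ} {a b c B m : ℤ} (S : Sys6 Q a b c B m)
    (hQ : 19 * 7 * 3 * 343 ∣ Q ^ 6) : Hd R399F7 a b c B m := by
  have h := u399F7 S hQ
  rw [F3_len] at h
  exact h

/-- relation -/
def R455F13a : Rl :=
  ⟨(nat_lit 13), (nat_lit 7), (nat_lit 5), (nat_lit 13), (nat_lit 11), (nat_lit 5), (nat_lit 3), PT13, PT7, PT5, t1_455F13a, t2_455F13a, t3_455F13a, rows_455F13a, (nat_lit 10)⟩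

theorem u455F13a {Q : ℕ} {a b c B m : ℤ} (S : Sys6 Q a b c B m)
    (hQ : 13 * 7 * 5 * 2197 ∣ Q ^ 6) :
    ((J6 a b c B m).map (fval 13 7 5 13 11 5 3 PT13 PT7 PT5 t1_455F13a t2_455F13a t3_455F13a rows_455F13a F5.length)).sum % 13 = 0 :=
  use6 tok_455F13a (h := 169) (l := 13) (by norm_num) (by norm_num) (by norm_num) (by norm_num)
    tab1_455F13a tab2_455F13a tab3_455F13a comp13 comp7 comp5 red1_455F13a red2_455F13a red3_455F13a
    rok_455F13a S hQ
    (adP6 S (by norm_num) (by norm_num) (pdv (p := 13) (by norm_num) (by norm_num) hQ))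
    (adP6 S (by norm_num) (by norm_num) (pdv (p := 7) (by norm_num) (by norm_num) hQ))
    (adP6 S (by norm_num) (by norm_num) (pdv (p := 5) (by norm_num) (by norm_num) hQ))

theorem h455F13a {Q : ℕ} {a b c B m : ℤ} (S : Sys6 Q a b c B m)
    (hQ : 13 * 7 * 5 * 2197 ∣ Q ^ 6) : Hd R455F13a a b c B m := by
  have h := u455F13a S hQ
  rw [F5_len] at h
  exact h

/-- relation -/
def R455F13b : Rl :=
  ⟨(nat_lit 13), (nat_lit 7), (nat_lit 5), (nat_lit 13), (nat_lit 11), (nat_lit 5), (nat_lit 3), PT13, PT7, PT5, t1_455F13b, t2_455F13b, t3_455F13b, rows_455F13b, (nat_lit 10)⟩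

theorem u455F13b {Q : ℕ} {a b c B m : ℤ} (S : Sys6 Q a b c B m)
    (hQ : 13 * 7 * 5 * 2197 ∣ Q ^ 6) :
    ((J6 a b c B m).map (fval 13 7 5 13 11 5 3 PT13 PT7 PT5 t1_455F13b t2_455F13b t3_455F13b rows_455F13b F5.length)).sum % 13 = 0 :=
  use6 tok_455F13b (h := 169) (l := 13) (by norm_num) (by norm_num) (by norm_num) (by norm_num)
    tab1_455F13b tab2_455F13b tab3_455F13b comp13 comp7 comp5 red1_455F13b red2_455F13b red3_455F13b
    rok_455F13b S hQ
    (adP6 S (by norm_num) (by norm_num) (pdv (p := 13) (by norm_num) (by norm_num) hQ))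
    (adP6 S (by norm_num) (by norm_num) (pdv (p := 7) (by norm_num) (by norm_num) hQ))
    (adP6 S (by norm_num) (by norm_num) (pdv (p := 5) (by norm_num) (by norm_num) hQ))

theorem h455F13b {Q : ℕ} {a b c B m : ℤ} (S : Sys6 Q a b c B m)
    (hQ : 13 * 7 * 5 * 2197 ∣ Q ^ 6) : Hd R455F13b a b c B m := by
  have h := u455F13b S hQ
  rw [F5_len] at h
  exact h

/-- relation -/
def R455F13c : Rl :=
  ⟨(nat_lit 13), (nat_lit 7), (nat_lit 5), (nat_lit 13), (nat_lit 11), (nat_lit 5), (nat_lit 3), PT13, PT7, PT5, t1_455F13c, t2_455F13c, t3_455F13c, rows_455F13c, (nat_lit 10)⟩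

theorem u455F13c {Q : ℕ} {a b c B m : ℤ} (S : Sys6 Q a b c B m)
    (hQ : 13 * 7 * 5 * 2197 ∣ Q ^ 6) :
    ((J6 a b c B m).map (fval 13 7 5 13 11 5 3 PT13 PT7 PT5 t1_455F13c t2_455F13c t3_455F13c rows_455F13c F5.length)).sum % 13 = 0 :=
  use6 tok_455F13c (h := 169) (l := 13) (by norm_num) (by norm_num) (by norm_num) (by norm_num)
    tab1_455F13c tab2_455F13c tab3_455F13c comp13 comp7 comp5 red1_455F13c red2_455F13c red3_455F13c
    rok_455F13c S hQ
    (adP6 S (by norm_num) (by norm_num) (pdv (p := 13) (by norm_num) (by norm_num) hQ))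
    (adP6 S (by norm_num) (by norm_num) (pdv (p := 7) (by norm_num) (by norm_num) hQ))
    (adP6 S (by norm_num) (by norm_num) (pdv (p := 5) (by norm_num) (by norm_num) hQ))

theorem h455F13c {Q : ℕ} {a b c B m : ℤ} (S : Sys6 Q a b c B m)
    (hQ : 13 * 7 * 5 * 2197 ∣ Q ^ 6) : Hd R455F13c a b c B m := by
  have h := u455F13c S hQ
  rw [F5_len] at h
  exact h

/-- relation -/
def R455F13d : Rl :=
  ⟨(nat_lit 13), (nat_lit 7), (nat_lit 5), (nat_lit 13), (nat_lit 11), (nat_lit 5), (nat_lit 3), PT13, PT7, PT5, t1_455F13d, t2_455F13d, t3_455F13d, rows_455F13d, (nat_lit 10)⟩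

theorem u455F13d {Q : ℕ} {a b c B m : ℤ} (S : Sys6 Q a b c B m)
    (hQ : 13 * 7 * 5 * 2197 ∣ Q ^ 6) :
    ((J6 a b c B m).map (fval 13 7 5 13 11 5 3 PT13 PT7 PT5 t1_455F13d t2_455F13d t3_455F13d rows_455F13d F5.length)).sum % 13 = 0 :=
  use6 tok_455F13d (h := 169) (l := 13) (by norm_num) (by norm_num) (by norm_num) (by norm_num)
    tab1_455F13d tab2_455F13d tab3_455F13d comp13 comp7 comp5 red1_455F13d red2_455F13d red3_455F13d
    rok_455F13d S hQ
    (adP6 S (by norm_num) (by norm_num) (pdv (p := 13) (by norm_num) (by norm_num) hQ))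
    (adP6 S (by norm_num) (by norm_num) (pdv (p := 7) (by norm_num) (by norm_num) hQ))
    (adP6 S (by norm_num) (by norm_num) (pdv (p := 5) (by norm_num) (by norm_num) hQ))

theorem h455F13d {Q : ℕ} {a b c B m : ℤ} (S : Sys6 Q a b c B m)
    (hQ : 13 * 7 * 5 * 2197 ∣ Q ^ 6) : Hd R455F13d a b c B m := by
  have h := u455F13d S hQ
  rw [F5_len] at h
  exact h

/-- relation -/
def R455F13e : Rl :=
  ⟨(nat_lit 13), (nat_lit 7), (nat_lit 5), (nat_lit 13), (nat_lit 11), (nat_lit 5), (nat_lit 3), PT13, PT7, PT5, t1_455F13e, t2_455F13e, t3_455F13e, rows_455F13e, (nat_lit 10)⟩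

theorem u455F13e {Q : ℕ} {a b c B m : ℤ} (S : Sys6 Q a b c B m)
    (hQ : 13 * 7 * 5 * 2197 ∣ Q ^ 6) :
    ((J6 a b c B m).map (fval 13 7 5 13 11 5 3 PT13 PT7 PT5 t1_455F13e t2_455F13e t3_455F13e rows_455F13e F5.length)).sum % 13 = 0 :=
  use6 tok_455F13e (h := 169) (l := 13) (by norm_num) (by norm_num) (by norm_num) (by norm_num)
    tab1_455F13e tab2_455F13e tab3_455F13e comp13 comp7 comp5 red1_455F13e red2_455F13e red3_455F13e
    rok_455F13e S hQ
    (adP6 S (by norm_num) (by norm_num) (pdv (p := 13) (by norm_num) (by norm_num) hQ))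
    (adP6 S (by norm_num) (by norm_num) (pdv (p := 7) (by norm_num) (by norm_num) hQ))
    (adP6 S (by norm_num) (by norm_num) (pdv (p := 5) (by norm_num) (by norm_num) hQ))

theorem h455F13e {Q : ℕ} {a b c B m : ℤ} (S : Sys6 Q a b c B m)
    (hQ : 13 * 7 * 5 * 2197 ∣ Q ^ 6) : Hd R455F13e a b c B m := by
  have h := u455F13e S hQ
  rw [F5_len] at h
  exact h

/-- relation -/
def R455F5 : Rl :=
  ⟨(nat_lit 13), (nat_lit 7), (nat_lit 5), (nat_lit 5), (nat_lit 11), (nat_lit 5), (nat_lit 3), PT13, PT7, PT5, t1_455F5, t2_455F5, t3_455F5, rows_455F5, (nat_lit 10)⟩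

theorem u455F5 {Q : ℕ} {a b c B m : ℤ} (S : Sys6 Q a b c B m)
    (hQ : 13 * 7 * 5 * 125 ∣ Q ^ 6) :
    ((J6 a b c B m).map (fval 13 7 5 5 11 5 3 PT13 PT7 PT5 t1_455F5 t2_455F5 t3_455F5 rows_455F5 F5.length)).sum % 5 = 0 :=
  use6 tok_455F5 (h := 25) (l := 5) (by norm_num) (by norm_num) (by norm_num) (by norm_num)
    tab1_455F5 tab2_455F5 tab3_455F5 comp13 comp7 comp5 red1_455F5 red2_455F5 red3_455F5
    rok_455F5 S hQ
    (adP6 S (by norm_num) (by norm_num) (pdv (p := 13) (by norm_num) (by norm_num) hQ))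
    (adP6 S (by norm_num) (by norm_num) (pdv (p := 7) (by norm_num) (by norm_num) hQ))
    (adP6 S (by norm_num) (by norm_num) (pdv (p := 5) (by norm_num) (by norm_num) hQ))

theorem h455F5 {Q : ℕ} {a b c B m : ℤ} (S : Sys6 Q a b c B m)
    (hQ : 13 * 7 * 5 * 125 ∣ Q ^ 6) : Hd R455F5 a b c B m := by
  have h := u455F5 S hQ
  rw [F5_len] at h
  exact h

/-- relation -/
def R520F5 : Rl :=
  ⟨(nat_lit 13), (nat_lit 5), (nat_lit 8), (nat_lit 5), (nat_lit 11), (nat_lit 3), (nat_lit 1), PT13, PT5, PT8, t1_520F5, t2_520F5, t3_520F5, rows_520F5, (nat_lit 16)⟩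

theorem u520F5 {Q : ℕ} {a b c B m : ℤ} (S : Sys6 Q a b c B m)
    (hQ : 13 * 5 * 8 * 125 ∣ Q ^ 6) :
    ((J6 a b c B m).map (fval 13 5 8 5 11 3 1 PT13 PT5 PT8 t1_520F5 t2_520F5 t3_520F5 rows_520F5 F8.length)).sum % 5 = 0 :=
  use6 tok_520F5 (h := 25) (l := 5) (by norm_num) (by norm_num) (by norm_num) (by norm_num)
    tab1_520F5 tab2_520F5 tab3_520F5 comp13 comp5 comp8 red1_520F5 red2_520F5 red3_520F5
    rok_520F5 S hQ
    (adP6 S (by norm_num) (by norm_num) (pdv (p := 13) (by norm_num) (by norm_num) hQ))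
    (adP6 S (by norm_num) (by norm_num) (pdv (p := 5) (by norm_num) (by norm_num) hQ))
    (adO6 S (by norm_num))

theorem h520F5 {Q : ℕ} {a b c B m : ℤ} (S : Sys6 Q a b c B m)
    (hQ : 13 * 5 * 8 * 125 ∣ Q ^ 6) : Hd R520F5 a b c B m := by
  have h := u520F5 S hQ
  rw [F8_len] at h
  exact h

/-- relation -/
def R520N17 : Rl :=
  ⟨(nat_lit 13), (nat_lit 5), (nat_lit 8), (nat_lit 17), (nat_lit 11), (nat_lit 3), (nat_lit 1), PT13, PT5, PT8, t1_520N17, t2_520N17, t3_520N17, rows_520N17, (nat_lit 16)⟩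

theorem u520N17 {Q : ℕ} {a b c B m : ℤ} (S : Sys6 Q a b c B m)
    (hQ : 13 * 5 * 8 * 17 ∣ Q ^ 6) :
    ((J6 a b c B m).map (fval 13 5 8 17 11 3 1 PT13 PT5 PT8 t1_520N17 t2_520N17 t3_520N17 rows_520N17 F8.length)).sum % 17 = 0 :=
  use6 tok_520N17 (h := 1) (l := 17) (by norm_num) (by norm_num) (by norm_num) (by norm_num)
    tab1_520N17 tab2_520N17 tab3_520N17 comp13 comp5 comp8 red1_520N17 red2_520N17 red3_520N17
    rok_520N17 S hQ
    (adP6 S (by norm_num) (by norm_num) (pdv (p := 13) (by norm_num) (by norm_num) hQ))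
    (adP6 S (by norm_num) (by norm_num) (pdv (p := 5) (by norm_num) (by norm_num) hQ))
    (adO6 S (by norm_num))

theorem h520N17 {Q : ℕ} {a b c B m : ℤ} (S : Sys6 Q a b c B m)
    (hQ : 13 * 5 * 8 * 17 ∣ Q ^ 6) : Hd R520N17 a b c B m := by
  have h := u520N17 S hQ
  rw [F8_len] at h
  exact h

/-- relation -/
def R520N7 : Rl :=
  ⟨(nat_lit 13), (nat_lit 5), (nat_lit 8), (nat_lit 7), (nat_lit 11), (nat_lit 3), (nat_lit 1), PT13, PT5, PT8, t1_520N7, t2_520N7, t3_520N7, rows_520N7, (nat_lit 16)⟩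

theorem u520N7 {Q : ℕ} {a b c B m : ℤ} (S : Sys6 Q a b c B m)
    (hQ : 13 * 5 * 8 * 7 ∣ Q ^ 6) :
    ((J6 a b c B m).map (fval 13 5 8 7 11 3 1 PT13 PT5 PT8 t1_520N7 t2_520N7 t3_520N7 rows_520N7 F8.length)).sum % 7 = 0 :=
  use6 tok_520N7 (h := 1) (l := 7) (by norm_num) (by norm_num) (by norm_num) (by norm_num)
    tab1_520N7 tab2_520N7 tab3_520N7 comp13 comp5 comp8 red1_520N7 red2_520N7 red3_520N7
    rok_520N7 S hQ
    (adP6 S (by norm_num) (by norm_num) (pdv (p := 13) (by norm_num) (by norm_num) hQ))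
    (adP6 S (by norm_num) (by norm_num) (pdv (p := 5) (by norm_num) (by norm_num) hQ))
    (adO6 S (by norm_num))

theorem h520N7 {Q : ℕ} {a b c B m : ℤ} (S : Sys6 Q a b c B m)
    (hQ : 13 * 5 * 8 * 7 ∣ Q ^ 6) : Hd R520N7 a b c B m := by
  have h := u520N7 S hQ
  rw [F8_len] at h
  exact h

/-- relation -/
def R572N5 : Rl :=
  ⟨(nat_lit 11), (nat_lit 13), (nat_lit 4), (nat_lit 5), (nat_lit 9), (nat_lit 11), (nat_lit 1), PT11, PT13, PT4, t1_572N5, t2_572N5, t3_572N5, rows_572N5, (nat_lit 4)⟩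

theorem u572N5 {Q : ℕ} {a b c B m : ℤ} (S : Sys6 Q a b c B m)
    (hQ : 11 * 13 * 4 * 5 ∣ Q ^ 6) :
    ((J6 a b c B m).map (fval 11 13 4 5 9 11 1 PT11 PT13 PT4 t1_572N5 t2_572N5 t3_572N5 rows_572N5 F4.length)).sum % 5 = 0 :=
  use6 tok_572N5 (h := 1) (l := 5) (by norm_num) (by norm_num) (by norm_num) (by norm_num)
    tab1_572N5 tab2_572N5 tab3_572N5 comp11 comp13 comp4 red1_572N5 red2_572N5 red3_572N5
    rok_572N5 S hQ
    (adP6 S (by norm_num) (by norm_num) (pdv (p := 11) (by norm_num) (by norm_num) hQ))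
    (adP6 S (by norm_num) (by norm_num) (pdv (p := 13) (by norm_num) (by norm_num) hQ))
    (adO6 S (by norm_num))

theorem h572N5 {Q : ℕ} {a b c B m : ℤ} (S : Sys6 Q a b c B m)
    (hQ : 11 * 13 * 4 * 5 ∣ Q ^ 6) : Hd R572N5 a b c B m := by
  have h := u572N5 S hQ
  rw [F4_len] at h
  exact h

/-- relation -/
def R595N13a : Rl :=
  ⟨(nat_lit 17), (nat_lit 7), (nat_lit 5), (nat_lit 13), (nat_lit 15), (nat_lit 5), (nat_lit 3), PT17, PT7, PT5, t1_595N13a, t2_595N13a, t3_595N13a, rows_595N13a, (nat_lit 10)⟩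

theorem u595N13a {Q : ℕ} {a b c B m : ℤ} (S : Sys6 Q a b c B m)
    (hQ : 17 * 7 * 5 * 13 ∣ Q ^ 6) :
    ((J6 a b c B m).map (fval 17 7 5 13 15 5 3 PT17 PT7 PT5 t1_595N13a t2_595N13a t3_595N13a rows_595N13a F5.length)).sum % 13 = 0 :=
  use6 tok_595N13a (h := 1) (l := 13) (by norm_num) (by norm_num) (by norm_num) (by norm_num)
    tab1_595N13a tab2_595N13a tab3_595N13a comp17 comp7 comp5 red1_595N13a red2_595N13a red3_595N13a
    rok_595N13a S hQ
    (adP6 S (by norm_num) (by norm_num) (pdv (p := 17) (by norm_num) (by norm_num) hQ))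
    (adP6 S (by norm_num) (by norm_num) (pdv (p := 7) (by norm_num) (by norm_num) hQ))
    (adP6 S (by norm_num) (by norm_num) (pdv (p := 5) (by norm_num) (by norm_num) hQ))

theorem h595N13a {Q : ℕ} {a b c B m : ℤ} (S : Sys6 Q a b c B m)
    (hQ : 17 * 7 * 5 * 13 ∣ Q ^ 6) : Hd R595N13a a b c B m := by
  have h := u595N13a S hQ
  rw [F5_len] at h
  exact h

/-- relation -/
def R595N13b : Rl :=
  ⟨(nat_lit 17), (nat_lit 7), (nat_lit 5), (nat_lit 13), (nat_lit 15), (nat_lit 5), (nat_lit 3), PT17, PT7, PT5, t1_595N13b, t2_595N13b, t3_595N13b, rows_595N13b, (nat_lit 10)⟩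

theorem u595N13b {Q : ℕ} {a b c B m : ℤ} (S : Sys6 Q a b c B m)
    (hQ : 17 * 7 * 5 * 13 ∣ Q ^ 6) :
    ((J6 a b c B m).map (fval 17 7 5 13 15 5 3 PT17 PT7 PT5 t1_595N13b t2_595N13b t3_595N13b rows_595N13b F5.length)).sum % 13 = 0 :=
  use6 tok_595N13b (h := 1) (l := 13) (by norm_num) (by norm_num) (by norm_num) (by norm_num)
    tab1_595N13b tab2_595N13b tab3_595N13b comp17 comp7 comp5 red1_595N13b red2_595N13b red3_595N13b
    rok_595N13b S hQ
    (adP6 S (by norm_num) (by norm_num) (pdv (p := 17) (by norm_num) (by norm_num) hQ))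
    (adP6 S (by norm_num) (by norm_num) (pdv (p := 7) (by norm_num) (by norm_num) hQ))
    (adP6 S (by norm_num) (by norm_num) (pdv (p := 5) (by norm_num) (by norm_num) hQ))

theorem h595N13b {Q : ℕ} {a b c B m : ℤ} (S : Sys6 Q a b c B m)
    (hQ : 17 * 7 * 5 * 13 ∣ Q ^ 6) : Hd R595N13b a b c B m := by
  have h := u595N13b S hQ
  rw [F5_len] at h
  exact h

/-- relation -/
def R616F11 : Rl :=
  ⟨(nat_lit 11), (nat_lit 7), (nat_lit 8), (nat_lit 11), (nat_lit 9), (nat_lit 5), (nat_lit 1), PT11, PT7, PT8, t1_616F11, t2_616F11, t3_616F11, rows_616F11, (nat_lit 16)⟩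

theorem u616F11 {Q : ℕ} {a b c B m : ℤ} (S : Sys6 Q a b c B m)
    (hQ : 11 * 7 * 8 * 1331 ∣ Q ^ 6) :
    ((J6 a b c B m).map (fval 11 7 8 11 9 5 1 PT11 PT7 PT8 t1_616F11 t2_616F11 t3_616F11 rows_616F11 F8.length)).sum % 11 = 0 :=
  use6 tok_616F11 (h := 121) (l := 11) (by norm_num) (by norm_num) (by norm_num) (by norm_num)
    tab1_616F11 tab2_616F11 tab3_616F11 comp11 comp7 comp8 red1_616F11 red2_616F11 red3_616F11
    rok_616F11 S hQ
    (adP6 S (by norm_num) (by norm_num) (pdv (p := 11) (by norm_num) (by norm_num) hQ))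
    (adP6 S (by norm_num) (by norm_num) (pdv (p := 7) (by norm_num) (by norm_num) hQ))
    (adO6 S (by norm_num))

theorem h616F11 {Q : ℕ} {a b c B m : ℤ} (S : Sys6 Q a b c B m)
    (hQ : 11 * 7 * 8 * 1331 ∣ Q ^ 6) : Hd R616F11 a b c B m := by
  have h := u616F11 S hQ
  rw [F8_len] at h
  exact h

/-- relation -/
def R616N13 : Rl :=
  ⟨(nat_lit 11), (nat_lit 7), (nat_lit 8), (nat_lit 13), (nat_lit 9), (nat_lit 5), (nat_lit 1), PT11, PT7, PT8, t1_616N13, t2_616N13, t3_616N13, rows_616N13, (nat_lit 16)⟩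

theorem u616N13 {Q : ℕ} {a b c B m : ℤ} (S : Sys6 Q a b c B m)
    (hQ : 11 * 7 * 8 * 13 ∣ Q ^ 6) :
    ((J6 a b c B m).map (fval 11 7 8 13 9 5 1 PT11 PT7 PT8 t1_616N13 t2_616N13 t3_616N13 rows_616N13 F8.length)).sum % 13 = 0 :=
  use6 tok_616N13 (h := 1) (l := 13) (by norm_num) (by norm_num) (by norm_num) (by norm_num)
    tab1_616N13 tab2_616N13 tab3_616N13 comp11 comp7 comp8 red1_616N13 red2_616N13 red3_616N13
    rok_616N13 S hQ
    (adP6 S (by norm_num) (by norm_num) (pdv (p := 11) (by norm_num) (by norm_num) hQ))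
    (adP6 S (by norm_num) (by norm_num) (pdv (p := 7) (by norm_num) (by norm_num) hQ))
    (adO6 S (by norm_num))

theorem h616N13 {Q : ℕ} {a b c B m : ℤ} (S : Sys6 Q a b c B m)
    (hQ : 11 * 7 * 8 * 13 ∣ Q ^ 6) : Hd R616N13 a b c B m := by
  have h := u616N13 S hQ
  rw [F8_len] at h
  exact h

/-- relation -/
def R680F17a : Rl :=
  ⟨(nat_lit 17), (nat_lit 5), (nat_lit 8), (nat_lit 17), (nat_lit 15), (nat_lit 3), (nat_lit 1), PT17, PT5, PT8, t1_680F17a, t2_680F17a, t3_680F17a, rows_680F17a, (nat_lit 16)⟩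

theorem u680F17a {Q : ℕ} {a b c B m : ℤ} (S : Sys6 Q a b c B m)
    (hQ : 17 * 5 * 8 * 4913 ∣ Q ^ 6) :
    ((J6 a b c B m).map (fval 17 5 8 17 15 3 1 PT17 PT5 PT8 t1_680F17a t2_680F17a t3_680F17a rows_680F17a F8.length)).sum % 17 = 0 :=
  use6 tok_680F17a (h := 289) (l := 17) (by norm_num) (by norm_num) (by norm_num) (by norm_num)
    tab1_680F17a tab2_680F17a tab3_680F17a comp17 comp5 comp8 red1_680F17a red2_680F17a red3_680F17a
    rok_680F17a S hQ
    (adP6 S (by norm_num) (by norm_num) (pdv (p := 17) (by norm_num) (by norm_num) hQ))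
    (adP6 S (by norm_num) (by norm_num) (pdv (p := 5) (by norm_num) (by norm_num) hQ))
    (adO6 S (by norm_num))

theorem h680F17a {Q : ℕ} {a b c B m : ℤ} (S : Sys6 Q a b c B m)
    (hQ : 17 * 5 * 8 * 4913 ∣ Q ^ 6) : Hd R680F17a a b c B m := by
  have h := u680F17a S hQ
  rw [F8_len] at h
  exact h

/-- relation -/
def R680F17b : Rl :=
  ⟨(nat_lit 17), (nat_lit 5), (nat_lit 8), (nat_lit 17), (nat_lit 15), (nat_lit 3), (nat_lit 1), PT17, PT5, PT8, t1_680F17b, t2_680F17b, t3_680F17b, rows_680F17b, (nat_lit 16)⟩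

theorem u680F17b {Q : ℕ} {a b c B m : ℤ} (S : Sys6 Q a b c B m)
    (hQ : 17 * 5 * 8 * 4913 ∣ Q ^ 6) :
    ((J6 a b c B m).map (fval 17 5 8 17 15 3 1 PT17 PT5 PT8 t1_680F17b t2_680F17b t3_680F17b rows_680F17b F8.length)).sum % 17 = 0 :=
  use6 tok_680F17b (h := 289) (l := 17) (by norm_num) (by norm_num) (by norm_num) (by norm_num)
    tab1_680F17b tab2_680F17b tab3_680F17b comp17 comp5 comp8 red1_680F17b red2_680F17b red3_680F17b
    rok_680F17b S hQ
    (adP6 S (by norm_num) (by norm_num) (pdv (p := 17) (by norm_num) (by norm_num) hQ))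
    (adP6 S (by norm_num) (by norm_num) (pdv (p := 5) (by norm_num) (by norm_num) hQ))
    (adO6 S (by norm_num))

theorem h680F17b {Q : ℕ} {a b c B m : ℤ} (S : Sys6 Q a b c B m)
    (hQ : 17 * 5 * 8 * 4913 ∣ Q ^ 6) : Hd R680F17b a b c B m := by
  have h := u680F17b S hQ
  rw [F8_len] at h
  exact h

/-- relation -/
def R680N13 : Rl :=
  ⟨(nat_lit 17), (nat_lit 5), (nat_lit 8), (nat_lit 13), (nat_lit 15), (nat_lit 3), (nat_lit 1), PT17, PT5, PT8, t1_680N13, t2_680N13, t3_680N13, rows_680N13, (nat_lit 16)⟩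

theorem u680N13 {Q : ℕ} {a b c B m : ℤ} (S : Sys6 Q a b c B m)
    (hQ : 17 * 5 * 8 * 13 ∣ Q ^ 6) :
    ((J6 a b c B m).map (fval 17 5 8 13 15 3 1 PT17 PT5 PT8 t1_680N13 t2_680N13 t3_680N13 rows_680N13 F8.length)).sum % 13 = 0 :=
  use6 tok_680N13 (h := 1) (l := 13) (by norm_num) (by norm_num) (by norm_num) (by norm_num)
    tab1_680N13 tab2_680N13 tab3_680N13 comp17 comp5 comp8 red1_680N13 red2_680N13 red3_680N13
    rok_680N13 S hQ
    (adP6 S (by norm_num) (by norm_num) (pdv (p := 17) (by norm_num) (by norm_num) hQ))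
    (adP6 S (by norm_num) (by norm_num) (pdv (p := 5) (by norm_num) (by norm_num) hQ))
    (adO6 S (by norm_num))

theorem h680N13 {Q : ℕ} {a b c B m : ℤ} (S : Sys6 Q a b c B m)
    (hQ : 17 * 5 * 8 * 13 ∣ Q ^ 6) : Hd R680N13 a b c B m := by
  have h := u680N13 S hQ
  rw [F8_len] at h
  exact h

/-- relation -/
def R715N7 : Rl :=
  ⟨(nat_lit 11), (nat_lit 13), (nat_lit 5), (nat_lit 7), (nat_lit 9), (nat_lit 11), (nat_lit 3), PT11, PT13, PT5, t1_715N7, t2_715N7, t3_715N7, rows_715N7, (nat_lit 10)⟩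

theorem u715N7 {Q : ℕ} {a b c B m : ℤ} (S : Sys6 Q a b c B m)
    (hQ : 11 * 13 * 5 * 7 ∣ Q ^ 6) :
    ((J6 a b c B m).map (fval 11 13 5 7 9 11 3 PT11 PT13 PT5 t1_715N7 t2_715N7 t3_715N7 rows_715N7 F5.length)).sum % 7 = 0 :=
  use6 tok_715N7 (h := 1) (l := 7) (by norm_num) (by norm_num) (by norm_num) (by norm_num)
    tab1_715N7 tab2_715N7 tab3_715N7 comp11 comp13 comp5 red1_715N7 red2_715N7 red3_715N7
    rok_715N7 S hQ
    (adP6 S (by norm_num) (by norm_num) (pdv (p := 11) (by norm_num) (by norm_num) hQ))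
    (adP6 S (by norm_num) (by norm_num) (pdv (p := 13) (by norm_num) (by norm_num) hQ))
    (adP6 S (by norm_num) (by norm_num) (pdv (p := 5) (by norm_num) (by norm_num) hQ))

theorem h715N7 {Q : ℕ} {a b c B m : ℤ} (S : Sys6 Q a b c B m)
    (hQ : 11 * 13 * 5 * 7 ∣ Q ^ 6) : Hd R715N7 a b c B m := by
  have h := u715N7 S hQ
  rw [F5_len] at h
  exact h

/-- relation -/
def R728F13 : Rl :=
  ⟨(nat_lit 13), (nat_lit 7), (nat_lit 8), (nat_lit 13), (nat_lit 11), (nat_lit 5), (nat_lit 1), PT13, PT7, PT8, t1_728F13, t2_728F13, t3_728F13, rows_728F13, (nat_lit 16)⟩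

theorem u728F13 {Q : ℕ} {a b c B m : ℤ} (S : Sys6 Q a b c B m)
    (hQ : 13 * 7 * 8 * 2197 ∣ Q ^ 6) :
    ((J6 a b c B m).map (fval 13 7 8 13 11 5 1 PT13 PT7 PT8 t1_728F13 t2_728F13 t3_728F13 rows_728F13 F8.length)).sum % 13 = 0 :=
  use6 tok_728F13 (h := 169) (l := 13) (by norm_num) (by norm_num) (by norm_num) (by norm_num)
    tab1_728F13 tab2_728F13 tab3_728F13 comp13 comp7 comp8 red1_728F13 red2_728F13 red3_728F13
    rok_728F13 S hQ
    (adP6 S (by norm_num) (by norm_num) (pdv (p := 13) (by norm_num) (by norm_num) hQ))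
    (adP6 S (by norm_num) (by norm_num) (pdv (p := 7) (by norm_num) (by norm_num) hQ))
    (adO6 S (by norm_num))

theorem h728F13 {Q : ℕ} {a b c B m : ℤ} (S : Sys6 Q a b c B m)
    (hQ : 13 * 7 * 8 * 2197 ∣ Q ^ 6) : Hd R728F13 a b c B m := by
  have h := u728F13 S hQ
  rw [F8_len] at h
  exact h

/-- relation -/
def R728F7 : Rl :=
  ⟨(nat_lit 13), (nat_lit 7), (nat_lit 8), (nat_lit 7), (nat_lit 11), (nat_lit 5), (nat_lit 1), PT13, PT7, PT8, t1_728F7, t2_728F7, t3_728F7, rows_728F7, (nat_lit 16)⟩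

theorem u728F7 {Q : ℕ} {a b c B m : ℤ} (S : Sys6 Q a b c B m)
    (hQ : 13 * 7 * 8 * 343 ∣ Q ^ 6) :
    ((J6 a b c B m).map (fval 13 7 8 7 11 5 1 PT13 PT7 PT8 t1_728F7 t2_728F7 t3_728F7 rows_728F7 F8.length)).sum % 7 = 0 :=
  use6 tok_728F7 (h := 49) (l := 7) (by norm_num) (by norm_num) (by norm_num) (by norm_num)
    tab1_728F7 tab2_728F7 tab3_728F7 comp13 comp7 comp8 red1_728F7 red2_728F7 red3_728F7
    rok_728F7 S hQ
    (adP6 S (by norm_num) (by norm_num) (pdv (p := 13) (by norm_num) (by norm_num) hQ))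
    (adP6 S (by norm_num) (by norm_num) (pdv (p := 7) (by norm_num) (by norm_num) hQ))
    (adO6 S (by norm_num))

theorem h728F7 {Q : ℕ} {a b c B m : ℤ} (S : Sys6 Q a b c B m)
    (hQ : 13 * 7 * 8 * 343 ∣ Q ^ 6) : Hd R728F7 a b c B m := by
  have h := u728F7 S hQ
  rw [F8_len] at h
  exact h

/-- relation -/
def R728N19 : Rl :=
  ⟨(nat_lit 13), (nat_lit 7), (nat_lit 8), (nat_lit 19), (nat_lit 11), (nat_lit 5), (nat_lit 1), PT13, PT7, PT8, t1_728N19, t2_728N19, t3_728N19, rows_728N19, (nat_lit 16)⟩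

theorem u728N19 {Q : ℕ} {a b c B m : ℤ} (S : Sys6 Q a b c B m)
    (hQ : 13 * 7 * 8 * 19 ∣ Q ^ 6) :
    ((J6 a b c B m).map (fval 13 7 8 19 11 5 1 PT13 PT7 PT8 t1_728N19 t2_728N19 t3_728N19 rows_728N19 F8.length)).sum % 19 = 0 :=
  use6 tok_728N19 (h := 1) (l := 19) (by norm_num) (by norm_num) (by norm_num) (by norm_num)
    tab1_728N19 tab2_728N19 tab3_728N19 comp13 comp7 comp8 red1_728N19 red2_728N19 red3_728N19
    rok_728N19 S hQ
    (adP6 S (by norm_num) (by norm_num) (pdv (p := 13) (by norm_num) (by norm_num) hQ))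
    (adP6 S (by norm_num) (by norm_num) (pdv (p := 7) (by norm_num) (by norm_num) hQ))
    (adO6 S (by norm_num))

theorem h728N19 {Q : ℕ} {a b c B m : ℤ} (S : Sys6 Q a b c B m)
    (hQ : 13 * 7 * 8 * 19 ∣ Q ^ 6) : Hd R728N19 a b c B m := by
  have h := u728N19 S hQ
  rw [F8_len] at h
  exact h

/-- relation -/
def R728N5 : Rl :=
  ⟨(nat_lit 13), (nat_lit 7), (nat_lit 8), (nat_lit 5), (nat_lit 11), (nat_lit 5), (nat_lit 1), PT13, PT7, PT8, t1_728N5, t2_728N5, t3_728N5, rows_728N5, (nat_lit 16)⟩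

theorem u728N5 {Q : ℕ} {a b c B m : ℤ} (S : Sys6 Q a b c B m)
    (hQ : 13 * 7 * 8 * 5 ∣ Q ^ 6) :
    ((J6 a b c B m).map (fval 13 7 8 5 11 5 1 PT13 PT7 PT8 t1_728N5 t2_728N5 t3_728N5 rows_728N5 F8.length)).sum % 5 = 0 :=
  use6 tok_728N5 (h := 1) (l := 5) (by norm_num) (by norm_num) (by norm_num) (by norm_num)
    tab1_728N5 tab2_728N5 tab3_728N5 comp13 comp7 comp8 red1_728N5 red2_728N5 red3_728N5
    rok_728N5 S hQ
    (adP6 S (by norm_num) (by norm_num) (pdv (p := 13) (by norm_num) (by norm_num) hQ))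
    (adP6 S (by norm_num) (by norm_num) (pdv (p := 7) (by norm_num) (by norm_num) hQ))
    (adO6 S (by norm_num))

theorem h728N5 {Q : ℕ} {a b c B m : ℤ} (S : Sys6 Q a b c B m)
    (hQ : 13 * 7 * 8 * 5 ∣ Q ^ 6) : Hd R728N5 a b c B m := by
  have h := u728N5 S hQ
  rw [F8_len] at h
  exact h

/-- relation -/
def R88F11 : Rl :=
  ⟨(nat_lit 11), (nat_lit 8), (nat_lit 1), (nat_lit 11), (nat_lit 9), (nat_lit 1), (nat_lit 0), PT11, PT8, PT1, t1_88F11, t2_88F11, t3_88F11, rows_88F11, (nat_lit 1)⟩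

theorem u88F11 {Q : ℕ} {a b c B m : ℤ} (S : Sys6 Q a b c B m)
    (hQ : 11 * 8 * 1 * 1331 ∣ Q ^ 6) :
    ((J6 a b c B m).map (fval 11 8 1 11 9 1 0 PT11 PT8 PT1 t1_88F11 t2_88F11 t3_88F11 rows_88F11 F1.length)).sum % 11 = 0 :=
  use6 tok_88F11 (h := 121) (l := 11) (by norm_num) (by norm_num) (by norm_num) (by norm_num)
    tab1_88F11 tab2_88F11 tab3_88F11 comp11 comp8 comp1 red1_88F11 red2_88F11 red3_88F11
    rok_88F11 S hQ
    (adP6 S (by norm_num) (by norm_num) (pdv (p := 11) (by norm_num) (by norm_num) hQ))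
    (adO6 S (by norm_num))
    (adT6 _)

theorem h88F11 {Q : ℕ} {a b c B m : ℤ} (S : Sys6 Q a b c B m)
    (hQ : 11 * 8 * 1 * 1331 ∣ Q ^ 6) : Hd R88F11 a b c B m := by
  have h := u88F11 S hQ
  rw [F1_len] at h
  exact h

/-- relation -/
def R91F13 : Rl :=
  ⟨(nat_lit 13), (nat_lit 7), (nat_lit 1), (nat_lit 13), (nat_lit 11), (nat_lit 5), (nat_lit 0), PT13, PT7, PT1, t1_91F13, t2_91F13, t3_91F13, rows_91F13, (nat_lit 1)⟩

theorem u91F13 {Q : ℕ} {a b c B m : ℤ} (S : Sys6 Q a b c B m)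
    (hQ : 13 * 7 * 1 * 2197 ∣ Q ^ 6) :
    ((J6 a b c B m).map (fval 13 7 1 13 11 5 0 PT13 PT7 PT1 t1_91F13 t2_91F13 t3_91F13 rows_91F13 F1.length)).sum % 13 = 0 :=
  use6 tok_91F13 (h := 169) (l := 13) (by norm_num) (by norm_num) (by norm_num) (by norm_num)
    tab1_91F13 tab2_91F13 tab3_91F13 comp13 comp7 comp1 red1_91F13 red2_91F13 red3_91F13
    rok_91F13 S hQ
    (adP6 S (by norm_num) (by norm_num) (pdv (p := 13) (by norm_num) (by norm_num) hQ))
    (adP6 S (by norm_num) (by norm_num) (pdv (p := 7) (by norm_num) (by norm_num) hQ))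
    (adT6 _)

theorem h91F13 {Q : ℕ} {a b c B m : ℤ} (S : Sys6 Q a b c B m)
    (hQ : 13 * 7 * 1 * 2197 ∣ Q ^ 6) : Hd R91F13 a b c B m := by
  have h := u91F13 S hQ
  rw [F1_len] at h
  exact h

/-- relation -/
def R935N7 : Rl :=
  ⟨(nat_lit 17), (nat_lit 11), (nat_lit 5), (nat_lit 7), (nat_lit 15), (nat_lit 9), (nat_lit 3), PT17, PT11, PT5, t1_935N7, t2_935N7, t3_935N7, rows_935N7, (nat_lit 10)⟩

theorem u935N7 {Q : ℕ} {a b c B m : ℤ} (S : Sys6 Q a b c B m)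
    (hQ : 17 * 11 * 5 * 7 ∣ Q ^ 6) :
    ((J6 a b c B m).map (fval 17 11 5 7 15 9 3 PT17 PT11 PT5 t1_935N7 t2_935N7 t3_935N7 rows_935N7 F5.length)).sum % 7 = 0 :=
  use6 tok_935N7 (h := 1) (l := 7) (by norm_num) (by norm_num) (by norm_num) (by norm_num)
    tab1_935N7 tab2_935N7 tab3_935N7 comp17 comp11 comp5 red1_935N7 red2_935N7 red3_935N7
    rok_935N7 S hQ
    (adP6 S (by norm_num) (by norm_num) (pdv (p := 17) (by norm_num) (by norm_num) hQ))
    (adP6 S (by norm_num) (by norm_num) (pdv (p := 11) (by norm_num) (by norm_num) hQ))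
    (adP6 S (by norm_num) (by norm_num) (pdv (p := 5) (by norm_num) (by norm_num) hQ))

theorem h935N7 {Q : ℕ} {a b c B m : ℤ} (S : Sys6 Q a b c B m)
    (hQ : 17 * 11 * 5 * 7 ∣ Q ^ 6) : Hd R935N7 a b c B m := by
  have h := u935N7 S hQ
  rw [F5_len] at h
  exact h

/-- relation -/
def R95F19 : Rl :=
  ⟨(nat_lit 19), (nat_lit 5), (nat_lit 1), (nat_lit 19), (nat_lit 17), (nat_lit 3), (nat_lit 0), PT19, PT5, PT1, t1_95F19, t2_95F19, t3_95F19, rows_95F19, (nat_lit 1)⟩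

theorem u95F19 {Q : ℕ} {a b c B m : ℤ} (S : Sys6 Q a b c B m)
    (hQ : 19 * 5 * 1 * 6859 ∣ Q ^ 6) :
    ((J6 a b c B m).map (fval 19 5 1 19 17 3 0 PT19 PT5 PT1 t1_95F19 t2_95F19 t3_95F19 rows_95F19 F1.length)).sum % 19 = 0 :=
  use6 tok_95F19 (h := 361) (l := 19) (by norm_num) (by norm_num) (by norm_num) (by norm_num)
    tab1_95F19 tab2_95F19 tab3_95F19 comp19 comp5 comp1 red1_95F19 red2_95F19 red3_95F19
    rok_95F19 S hQ
    (adP6 S (by norm_num) (by norm_num) (pdv (p := 19) (by norm_num) (by norm_num) hQ))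
    (adP6 S (by norm_num) (by norm_num) (pdv (p := 5) (by norm_num) (by norm_num) hQ))
    (adT6 _)

theorem h95F19 {Q : ℕ} {a b c B m : ℤ} (S : Sys6 Q a b c B m)
    (hQ : 19 * 5 * 1 * 6859 ∣ Q ^ 6) : Hd R95F19 a b c B m := by
  have h := u95F19 S hQ
  rw [F1_len] at h
  exact h

/-- relation -/
def R95N13 : Rl :=
  ⟨(nat_lit 19), (nat_lit 5), (nat_lit 1), (nat_lit 13), (nat_lit 17), (nat_lit 3), (nat_lit 0), PT19, PT5, PT1, t1_95N13, t2_95N13, t3_95N13, rows_95N13, (nat_lit 1)⟩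

theorem u95N13 {Q : ℕ} {a b c B m : ℤ} (S : Sys6 Q a b c B m)
    (hQ : 19 * 5 * 1 * 13 ∣ Q ^ 6) :
    ((J6 a b c B m).map (fval 19 5 1 13 17 3 0 PT19 PT5 PT1 t1_95N13 t2_95N13 t3_95N13 rows_95N13 F1.length)).sum % 13 = 0 :=
  use6 tok_95N13 (h := 1) (l := 13) (by norm_num) (by norm_num) (by norm_num) (by norm_num)
    tab1_95N13 tab2_95N13 tab3_95N13 comp19 comp5 comp1 red1_95N13 red2_95N13 red3_95N13
    rok_95N13 S hQ
    (adP6 S (by norm_num) (by norm_num) (pdv (p := 19) (by norm_num) (by norm_num) hQ))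
    (adP6 S (by norm_num) (by norm_num) (pdv (p := 5) (by norm_num) (by norm_num) hQ))
    (adT6 _)

theorem h95N13 {Q : ℕ} {a b c B m : ℤ} (S : Sys6 Q a b c B m)
    (hQ : 19 * 5 * 1 * 13 ∣ Q ^ 6) : Hd R95N13 a b c B m := by
  have h := u95N13 S hQ
  rw [F1_len] at h
  exact h

end Pool.Agent.PSX.K
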