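import Pool.Agent.PSX.Sys6
import Pool.Agent.RQM.C55

/-! generated: table of a relation -/

namespace Pool.Agent.PSX.EL

open Pool.Agent.LibH4 Pool.Agent.LibH4.Ker
open Pool.Agent.Lib_helper5 Pool.Agent.Lib_helper5.LK Pool.Agent.Lib_helper5.TB

/-- character -/
def T1_51N5 : ℕ := nat_lit 115799156679495613683884418907607316441835364244527161564285466415114542448640
/-- character -/
def T2_51N5 : ℕ := nat_lit 17179934720
/-- character -/
def T3_51N5 : ℕ := nat_lit 1
/-- reduced character -/
def t1_51N5 : ℕ := nat_lit 345609683939593226060838802077400695040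
/-- reduced character -/
def t2_51N5 : ℕ := nat_lit 262400
/-- reduced character -/
def t3_51N5 : ℕ := nat_lit 1
/-- weights -/
def W_51N5 : ℕ := nat_lit 117221078807873563917560089262786173531727209737334229164090987115285976919748471378610436176187472486428670885265564210325479758760255162897838116003171539381325103117093607253744240893639461270906062191424652955888112298595984416734904894085457485970911358840075187141793521178793120625860827084876274583107472712919132450542333117838422827262931036548549225681245548561459402695722588084284069462293837097665225667697799969528420370778077324383814169711457904985666251209745033796808482433162955665173200890889533041490556769421600417133605316088223171633376771700182923044063981848608411329979921903459167444551851918816381794819009354430417001704519149275742686492402111711675114408577954918656528046948179240689688263496158076492055094291434054923944425231102262682827757618958063281637880667005149121899604141154275011294278931114460393907470980171846949326005032177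7307050290666070285907264006052718060016736895399265984707203145504448655462140202385705799011820717764958832735647160502309378965832974413823766398867752919942019331201167957357757402149048661449772454554927567995547775899729932207780655978759303723068984163904340160049413930941156755175512139404608848098712166276585610392037865481008834834962743102797154882333242519367260325077886777376802479818034387615314429384553483457611707634323617188796158966924415318887279838601547040013951990626380363899269143858667550137331305386034498123627106185507673357914395230053845202276111699687045522165427844126321390859108585115074240654115909540811060088211897468159946527745549325203148977459744075182862490843286619831454993192970967768481275553664995875036653951499509928907562535996097144532910739330290918296125440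
/-- weights -/
def Y1_51N5 : ℕ := nat_lit 3533694129556768659166597924489111693460804201123321200448480972799737858
/-- weights -/
def Y0_51N5 : ℕ := nat_lit 0
/-- first coordinates -/
def X_51N5 : List ℕ := [nat_lit 0, nat_lit 1, nat_lit 18, nat_lit 34]
/-- table -/
def rows_51N5 : List (ℕ × ℕ) := [(nat_lit 131840, nat_lit 0), (nat_lit 131840, nat_lit 0), (nat_lit 66560, nat_lit 0), (nat_lit 66560, nat_lit 0), (nat_lit 0, nat_lit 0), (nat_lit 0, nat_lit 0), (nat_lit 0, nat_lit 0), (nat_lit 0, nat_lit 0), (nat_lit 197124, nat_lit 0), (nat_lit 1025, nat_lit 0), (nat_lit 0, nat_lit 0), (nat_lit 66560, nat_lit 0), (nat_lit 65540, nat_lit 0), (nat_lit 131075, nat_lit 0), (nat_lit 514, nat_lit 0), (nat_lit 0, nat_lit 0), (nat_lit 1, nat_lit 0), (nat_lit 197120, nat_lit 0), (nat_lit 1028, nat_lit 0), (nat_lit 65792, nat_lit 0), (nat_lit 1025, nat_lit 0), (nat_lit 66560, nat_lit 0), (nat_lit 515, nat_lit 0), (nat_lit 196611, nat_lit 0), (nat_lit 0, nat_lit 0), (nat_lit 131840, nat_lit 0), (nat_lit 66308, nat_lit 0), (nat_lit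 768, nat_lit 0), (nat_lit 0, nat_lit 0), (nat_lit 2, nat_lit 0), (nat_lit 197120, nat_lit 0), (nat_lit 131074, nat_lit 0), (nat_lit 0, nat_lit 0), (nat_lit 65536, nat_lit 0), (nat_lit 4, nat_lit 0), (nat_lit 65540, nat_lit 0), (nat_lit 65794, nat_lit 0), (nat_lit 66308, nat_lit 0), (nat_lit 263168, nat_lit 0), (nat_lit 0, nat_lit 0), (nat_lit 771, nat_lit 0), (nat_lit 515, nat_lit 0), (nat_lit 262148, nat_lit 0), (nat_lit 1028, nat_lit 0), (nat_lit 1025, nat_lit 0), (nat_lit 132100, nat_lit 0), (nat_lit 197380, nat_lit 0), (nat_lit 1024, nat_lit 0), (nat_lit 3, nat_lit 0), (nat_lit 66560, nat_lit 0), (nat_lit 131584, nat_lit 0), (nat_lit 0, nat_lit 0), (nat_lit 770, nat_lit 0), (nat_lit 771, nat_lit 0), (nat_lit 0, nat_lit 0), (nat_lit 131072, nat_lit 0), (nat_lit 66563, nat_lit 0), (nat_lit 260, nat_lit 0), (nat_lit 771, nat_lit 0), (nat_lit 770, nat_lit 0), (nat_lit 197635, nat_lit 0), (nat_lit 131584, nat_lit 0), (nat_lit 262913, nat_lit 0), (nat_lit 1025, nat_lit 0), (nat_lit 1, nat_lit 0), (nat_lit 196611, nat_lit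 0), (nat_lit 65537, nat_lit 0), (nat_lit 65540, nat_lit 0), (nat_lit 257, nat_lit 0), (nat_lit 1028, nat_lit 0), (nat_lit 132098, nat_lit 0), (nat_lit 4, nat_lit 0), (nat_lit 4, nat_lit 0), (nat_lit 514, nat_lit 0), (nat_lit 1028, nat_lit 0), (nat_lit 1025, nat_lit 0), (nat_lit 262148, nat_lit 0), (nat_lit 65537, nat_lit 0), (nat_lit 66307, nat_lit 0), (nat_lit 1, nat_lit 0), (nat_lit 66562, nat_lit 0), (nat_lit 262145, nat_lit 0), (nat_lit 131074, nat_lit 0), (nat_lit 131075, nat_lit 0), (nat_lit 66050, nat_lit 0), (nat_lit 197376, nat_lit 0), (nat_lit 131332, nat_lit 0), (nat_lit 65540, nat_lit 0), (nat_lit 2, nat_lit 0), (nat_lit 66560, nat_lit 0), (nat_lit 197376, nat_lit 0), (nat_lit 0, nat_lit 0), (nat_lit 131075, nat_lit 0), (nat_lit 131074, nat_lit 0), (nat_lit 0, nat_lit 0), (nat_lit 768, nat_lit 0), (nat_lit 131074, nat_lit 0), (nat_lit 196610, nat_lit 0), (nat_lit 257, nat_lit 0), (nat_lit 65537, nat_lit 0), (nat_lit 65540, nat_lit 0), (nat_lit 66305, nat_lit 0), (nat_lit 131585, nat_lit 0), (nat_lit 65536,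 nat_lit 0), (nat_lit 0, nat_lit 0), (nat_lit 1024, nat_lit 0), (nat_lit 1, nat_lit 0), (nat_lit 1025, nat_lit 0), (nat_lit 263171, nat_lit 0), (nat_lit 132097, nat_lit 0), (nat_lit 65792, nat_lit 0), (nat_lit 0, nat_lit 0), (nat_lit 0, nat_lit 0), (nat_lit 131840, nat_lit 0), (nat_lit 132097, nat_lit 0), (nat_lit 131072, nat_lit 0), (nat_lit 0, nat_lit 0), (nat_lit 3, nat_lit 0), (nat_lit 197120, nat_lit 0), (nat_lit 771, nat_lit 0), (nat_lit 4, nat_lit 0), (nat_lit 197120, nat_lit 0), (nat_lit 65537, nat_lit 0), (nat_lit 263168, nat_lit 0), (nat_lit 65540, nat_lit 0), (nat_lit 66560, nat_lit 0), (nat_lit 196610, nat_lit 0), (nat_lit 514, nat_lit 0), (nat_lit 197121, nat_lit 0), (nat_lit 65540, nat_lit 0), (nat_lit 0, nat_lit 0), (nat_lit 66560, nat_lit 0), (nat_lit 1025, nat_lit 0), (nat_lit 770, nat_lit 0), (nat_lit 196611, nat_lit 0), (nat_lit 0, nat_lit 0)]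

lemma wchk_51N5 : wchkG (nat_lit 17) (nat_lit 3) (nat_lit 1) (nat_lit 18) (nat_lit 34) (nat_lit 0) (nat_lit 5) (nat_lit 1) (nat_lit 0) T1_51N5 T2_51N5 T3_51N5 X_51N5 L17 K4.L3 PO (nat_lit 80) (nat_lit 320) W_51N5 Y1_51N5 Y0_51N5 = true := by
  decide +kernel

lemma tab1_51N5 : tabCk (nat_lit 17) (nat_lit 5) T1_51N5 = true := by decide +kernel
lemma tab2_51N5 : tabCk (nat_lit 3) (nat_lit 5) T2_51N5 = true := by decide +kernel
lemma tab3_51N5 : tabCk (nat_lit 1) (nat_lit 5) T3_51N5 = true := by decide +kernel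
lemma rok_51N5 : relOk (nat_lit 17) (nat_lit 3) (nat_lit 1) (nat_lit 5) T1_51N5 T2_51N5 T3_51N5 = true := by decide +kernel
lemma red1_51N5 : redCk (nat_lit 17) T1_51N5 t1_51N5 (nat_lit 5) = true := by decide +kernel
lemma red2_51N5 : redCk (nat_lit 3) T2_51N5 t2_51N5 (nat_lit 5) = true := by decide +kernel
lemma red3_51N5 : redCk (nat_lit 1) T3_51N5 t3_51N5 (nat_lit 5) = true := by decide +kernel

theorem good_51N5 : GoodT 17 3 1 18 34 0 5 T1_51N5 T2_51N5 T3_51N5 K4.L3 PO 80 320 W_51N5 Y1_51N5 Y0_51N5 where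
  hp := by norm_num
  idem := by constructor <;> decide
  p2 := (K4.L3_eq ▸ isP1_PL (by norm_num))
  p3 := isP1_PO
  ne2 := by decide
  ne3 := by decide
  qn := by constructor <;> norm_num
  t1 := tab1_51N5
  t2 := tab2_51N5
  t3 := tab3_51N5
  ws := by
    rw [← L17_eq]
    exact wchkG_spec (by constructor <;> norm_num) (by decide +kernel) (by decide +kernel)
      (by decide +kernel) wchk_51N5
  hw3 := by decide
  hw := by decide
  hB := by
    have h2 : (K4.L3).length = 4 := by decide
    have h3 : (PO).length = 1 := by decide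
    rw [h2, h3]
    unfold BA
    norm_num

lemma tchk_51N5 : tabCkAll (nat_lit 17) (nat_lit 3) (nat_lit 1) (nat_lit 5) (nat_lit 1) T1_51N5 T2_51N5 T3_51N5 K4.ds17 K4.L3 PO F17 F3 F1 (nat_lit 80) (nat_lit 320) (nat_lit 240) (nat_lit 0) W_51N5 Y1_51N5 Y0_51N5 (nat_lit 1) rows_51N5 = true := by
  decide +kernel

theorem tok_51N5 : TabOK 17 3 1 5 1 T1_51N5 T2_51N5 T3_51N5 F17 F3 F1 rows_51N5 :=
  tabCkAll_spec good_51N5 (by norm_num) (by decide) (by decide) (by decide) tchk_51N5

/-- divisibility of the modulus -/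
lemma pdv_51N5 {p Q N : ℕ} (hp : p.Prime) (h1 : p ∣ N) (h : N ∣ Q ^ 6) : p ∣ Q :=
  hp.dvd_of_dvd_pow (h1.trans h)

/-- the reduced relation -/
theorem rel6_51N5 {Q : ℕ} {a b c B m : ℤ} (S : Sys6 Q a b c B m)
    (hQ : 17 * 3 * 1 * 5 ∣ Q ^ 6) :
    ((J6 a b c B m).map (fval 17 3 1 5 15 1 0 PT17 PT3 PT1 t1_51N5 t2_51N5 t3_51N5 rows_51N5 1)).sum % 5 = 0 := by
  have hF : F1.length = 1 := by decide
  have h := use6 tok_51N5 (h := 1) (l := 5) (by norm_num) (by norm_num) (by norm_num) (by norm_num)
    tab1_51N5 tab2_51N5 tab3_51N5 comp17 comp3 comp1 red1_51N5 red2_51N5 red3_51N5 rok_51N5 S hQ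
    (adP6 S (by norm_num) (by norm_num) (pdv_51N5 (p := 17) (by norm_num) (by norm_num) hQ))
    (adP6 S (by norm_num) (by norm_num) (pdv_51N5 (p := 3) (by norm_num) (by norm_num) hQ))
    (adT6 _)
  rw [hF] at h
  exact h

end Pool.Agent.PSX.EL
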