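import Pool.Agent.PSX.KEng
import Pool.Agent.PSX.KRel
import Pool.Agent.PSX.T_105N13
import Pool.Agent.PSX.T_51N5
import Pool.Agent.PSX.T_195F13
import Pool.Agent.PSX.T_273F13
import Pool.Agent.PSX.T_312F13
import Pool.Agent.PSX.T_168F7
import Pool.Agent.PSX.T_663N7
import Pool.Agent.PSX.T_663F13
import Pool.Agent.PSX.T_357N13

/-! generated: the reduced relations of further tables for the family of period six -/

namespace Pool.Agent.PSX.K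

open Pool.Agent.Lib_helper5 Pool.Agent.Lib_helper5.LK Pool.Agent.Lib_helper5.TB
  Pool.Agent.LibH4.Ker Pool.Agent.PSX.EL
open Pool.Agent.LibH4.S7 (Rl)

/-- relation -/
def R105N13 : Rl :=
  ⟨(nat_lit 7), (nat_lit 5), (nat_lit 3), (nat_lit 13), (nat_lit 5), (nat_lit 3), (nat_lit 1), PT7, PT5, PT3, t1_105N13, t2_105N13, t3_105N13, rows_105N13, (nat_lit 3)⟩

theorem h105N13 {Q : ℕ} {a b c B m : ℤ} (S : Sys6 Q a b c B m)
    (hQ : 7 * 5 * 3 * 13 ∣ Q ^ 6) : Hd R105N13 a b c B m :=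
  rel6_105N13 S hQ

/-- relation -/
def R51N5 : Rl :=
  ⟨(nat_lit 17), (nat_lit 3), (nat_lit 1), (nat_lit 5), (nat_lit 15), (nat_lit 1), (nat_lit 0), PT17, PT3, PT1, t1_51N5, t2_51N5, t3_51N5, rows_51N5, (nat_lit 1)⟩

theorem h51N5 {Q : ℕ} {a b c B m : ℤ} (S : Sys6 Q a b c B m)
    (hQ : 17 * 3 * 1 * 5 ∣ Q ^ 6) : Hd R51N5 a b c B m :=
  rel6_51N5 S hQ

/-- relation -/
def R195F13 : Rl :=
  ⟨(nat_lit 13), (nat_lit 5), (nat_lit 3), (nat_lit 13), (nat_lit 11), (nat_lit 3), (nat_lit 1), PT13, PT5, PT3, t1_195F13, t2_195F13, t3_195F13, rows_195F13, (nat_lit 3)⟩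

theorem h195F13 {Q : ℕ} {a b c B m : ℤ} (S : Sys6 Q a b c B m)
    (hQ : 13 * 5 * 3 * 2197 ∣ Q ^ 6) : Hd R195F13 a b c B m :=
  rel6_195F13 S hQ

/-- relation -/
def R273F13 : Rl :=
  ⟨(nat_lit 13), (nat_lit 7), (nat_lit 3), (nat_lit 13), (nat_lit 11), (nat_lit 5), (nat_lit 1), PT13, PT7, PT3, t1_273F13, t2_273F13, t3_273F13, rows_273F13, (nat_lit 3)⟩

theorem h273F13 {Q : ℕ} {a b c B m : ℤ} (S : Sys6 Q a b c B m)
    (hQ : 13 * 7 * 3 * 2197 ∣ Q ^ 6) : Hd R273F13 a b c B m :=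
  rel6_273F13 S hQ

/-- relation -/
def R312F13 : Rl :=
  ⟨(nat_lit 13), (nat_lit 8), (nat_lit 3), (nat_lit 13), (nat_lit 11), (nat_lit 1), (nat_lit 1), PT13, PT8, PT3, t1_312F13, t2_312F13, t3_312F13, rows_312F13, (nat_lit 3)⟩

theorem h312F13 {Q : ℕ} {a b c B m : ℤ} (S : Sys6 Q a b c B m)
    (hQ : 13 * 8 * 3 * 2197 ∣ Q ^ 6) : Hd R312F13 a b c B m :=
  rel6_312F13 S hQ

/-- relation -/
def R168F7 : Rl :=
  ⟨(nat_lit 7), (nat_lit 8), (nat_lit 3), (nat_lit 7), (nat_lit 5), (nat_lit 1), (nat_lit 1), PT7, PT8, PT3, t1_168F7, t2_168F7, t3_168F7, rows_168F7, (nat_lit 3)⟩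

theorem h168F7 {Q : ℕ} {a b c B m : ℤ} (S : Sys6 Q a b c B m)
    (hQ : 7 * 8 * 3 * 343 ∣ Q ^ 6) : Hd R168F7 a b c B m :=
  rel6_168F7 S hQ

/-- relation -/
def R663N7 : Rl :=
  ⟨(nat_lit 17), (nat_lit 13), (nat_lit 3), (nat_lit 7), (nat_lit 15), (nat_lit 11), (nat_lit 1), PT17, PT13, PT3, t1_663N7, t2_663N7, t3_663N7, rows_663N7, (nat_lit 3)⟩

theorem h663N7 {Q : ℕ} {a b c B m : ℤ} (S : Sys6 Q a b c B m)
    (hQ : 17 * 13 * 3 * 7 ∣ Q ^ 6) : Hd R663N7 a b c B m :=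
  rel6_663N7 S hQ

/-- relation -/
def R663F13 : Rl :=
  ⟨(nat_lit 17), (nat_lit 13), (nat_lit 3), (nat_lit 13), (nat_lit 15), (nat_lit 11), (nat_lit 1), PT17, PT13, PT3, t1_663F13, t2_663F13, t3_663F13, rows_663F13, (nat_lit 3)⟩

theorem h663F13 {Q : ℕ} {a b c B m : ℤ} (S : Sys6 Q a b c B m)
    (hQ : 17 * 13 * 3 * 2197 ∣ Q ^ 6) : Hd R663F13 a b c B m :=
  rel6_663F13 S hQ

/-- relation -/
def R357N13 : Rl :=
  ⟨(nat_lit 17), (nat_lit 7), (nat_lit 3), (nat_lit 13), (nat_lit 15), (nat_lit 5), (nat_lit 1), PT17, PT7, PT3, t1_357N13, t2_357N13, t3_357N13, rows_357N13, (nat_lit 3)⟩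

theorem h357N13 {Q : ℕ} {a b c B m : ℤ} (S : Sys6 Q a b c B m)
    (hQ : 17 * 7 * 3 * 13 ∣ Q ^ 6) : Hd R357N13 a b c B m :=
  rel6_357N13 S hQ

end Pool.Agent.PSX.K
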