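import Pool.Agent.RQM.C135

/-!
Period six: the characters and the general construction of the families at the prime thirteen.
-/

namespace Pool.Agent.PSX.F26

open Finset (range)
open Pool.Agent.P4G
open Pool.Agent.RDF (T7 T7_mul T7_neg bt)

/-- the quadratic character modulo three -/
def T3 (x : ZMod 3) : ℤ := (![0, 1, -1] : Fin 3 → ℤ) x

/-- the real part of a character of order four modulo five -/
def A5 (x : ZMod 5) : ℤ := (![0, 1, 0, 0, -1] : Fin 5 → ℤ) x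

/-- the other part of a character of order four modulo five -/
def B5 (x : ZMod 5) : ℤ := (![0, 0, 1, -1, 0] : Fin 5 → ℤ) x

/-- a character of order four modulo five, `i` a fourth root of unity -/
def C5 (i : ℤ) (x : ZMod 5) : ℤ := A5 x + i * B5 x

lemma T3_mul : ∀ x y : ZMod 3, T3 (x * y) = T3 x * T3 y := by decide
lemma T3_neg : ∀ x : ZMod 3, T3 (-x) = - T3 x := by decide
lemma A5_mul : ∀ x y : ZMod 5, A5 (x * y) = A5 x * A5 y - B5 x * B5 y := by decide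
lemma B5_mul : ∀ x y : ZMod 5, B5 (x * y) = A5 x * B5 y + B5 x * A5 y := by decide
lemma A5_neg : ∀ x : ZMod 5, A5 (-x) = - A5 x := by decide
lemma B5_neg : ∀ x : ZMod 5, B5 (-x) = - B5 x := by decide

lemma C5_mul {M : ℕ} {i : ℤ} (hi : ((i : ℤ) : ZMod M) ^ 2 + 1 = 0) (x y : ZMod 5) :
    ((C5 i (x * y) : ℤ) : ZMod M) = (C5 i x : ℤ) * (C5 i y : ℤ) := by
  unfold C5
  rw [A5_mul, B5_mul]
  push_cast
  linear_combination -((B5 x : ℤ) : ZMod M) * ((B5 y : ℤ) : ZMod M) * hi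

lemma C5_neg (i : ℤ) (x : ZMod 5) : C5 i (-x) = - C5 i x := by
  unfold C5
  rw [A5_neg, B5_neg]
  ring

lemma C5_mod {N : ℕ} {i j : ℤ} (h : ((i : ℤ) : ZMod N) = (j : ℤ)) (x : ZMod 5) :
    ((C5 i x : ℤ) : ZMod N) = (C5 j x : ℤ) := by
  unfold C5
  push_cast
  rw [h]

lemma C7_modN {N : ℕ} {i j : ℤ} (h : ((i : ℤ) : ZMod N) = (j : ℤ)) (x : ZMod 7) :
    ((C7 i x : ℤ) : ZMod N) = (C7 j x : ℤ) := by
  unfold C7
  split_ifs
  · rfl
  · rw [Int.cast_pow, Int.cast_pow, h]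

lemma Hs_modN {N : ℕ} {ψ ψ' : ℤ → ℤ} (h : ∀ u, ((ψ u : ℤ) : ZMod N) = (ψ' u : ℤ))
    (q0 v m : ℕ) : ((Hs 13 q0 ψ v m : ℤ) : ZMod N) = (Hs 13 q0 ψ' v m : ℤ) := by
  unfold Hs
  push_cast
  apply Finset.sum_congr rfl
  intro r _
  rw [h]

/-- fourth roots of unity modulo powers of thirteen -/
lemma exists_i {i0 : ℤ} (h0 : i0 = 5 ∨ i0 = 8) (n : ℕ) :
    ∃ i : ℤ, i % 13 = i0 ∧ (13 : ℤ) ^ (n + 1) ∣ i ^ 2 + 1 := by
  induction n with
  | zero =>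
    rcases h0 with rfl | rfl
    · exact ⟨5, rfl, by norm_num⟩
    · exact ⟨8, rfl, by norm_num⟩
  | succ n ih =>
    obtain ⟨i, hi, c, hc⟩ := ih
    obtain ⟨s, hs, hs2⟩ : ∃ s : ℤ, (13 : ℤ) ∣ 1 + 2 * i0 * s ∧ True := by
      rcases h0 with rfl | rfl
      · exact ⟨9, ⟨7, by norm_num⟩, trivial⟩
      · exact ⟨4, ⟨5, by norm_num⟩, trivial⟩
    obtain ⟨t, ht⟩ := hs
    obtain ⟨v, hv⟩ : ∃ v, i = 13 * v + i0 := ⟨i / 13, by omega⟩
    refine ⟨i + 13 ^ (n + 1) * (s * c), ?_, ?_⟩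
    · have e : i + 13 ^ (n + 1) * (s * c) = i + 13 * (13 ^ n * (s * c)) := by ring
      rw [e, Int.add_mul_emod_self_left]
      exact hi
    · obtain ⟨z, hz⟩ : ∃ z : ℤ, z = 13 ^ n := ⟨_, rfl⟩
      refine ⟨t * c + 2 * v * s * c + z * (s * c) ^ 2, ?_⟩
      have e1 : (13 : ℤ) ^ (n + 1) = 13 * z := by rw [hz]; ring
      have e2 : (13 : ℤ) ^ (n + 1 + 1) = 169 * z := by rw [hz]; ring
      rw [e1] at hc ⊢
      rw [e2]
      rw [hv] at hc ⊢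
      linear_combination hc + 13 * z * c * ht

/-- cube roots of unity modulo powers of thirteen, the other residue -/
lemma exists_w9 (n : ℕ) : ∃ w : ℤ, w % 13 = 9 ∧ (13 : ℤ) ^ (n + 1) ∣ w ^ 2 + w + 1 := by
  obtain ⟨w, hw, hd⟩ := exists_w n
  refine ⟨-1 - w, by omega, ?_⟩
  have e : (-1 - w) ^ 2 + (-1 - w) + 1 = w ^ 2 + w + 1 := by ring
  rw [e]
  exact hd

/-- existence of a family at level `n` -/
theorem mkFam {q0 e0 n : ℕ} {ψ ψ0 : ℤ → ℤ} (hq : q0 % 2 = 1) (hcop : Nat.Coprime q0 13)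
    (hper : ∀ x, ψ (x + q0) = ψ x) (h2 : 2 ≤ e0) (h12 : e0 < 12)
    (hodd : ∀ x, ψ (-x) * (-1) ^ e0 = - ψ x)
    (hmul : ∀ x y, ((ψ (x * y) : ℤ) : ZMod (13 ^ (n + 1))) = (ψ x : ℤ) * (ψ y : ℤ))
    (hmod : ∀ u, ((ψ u : ℤ) : ZMod 13) = (ψ0 u : ℤ))
    (hbase : Hs 13 q0 ψ0 1 e0 % 13 = 0) (hder : DD 13 q0 ψ0 2 e0 % 13 ≠ 0) :
    ∃ e, e % 12 = e0 ∧ n + 2 ≤ e ∧ Fam 13 q0 n e ψ := by
  have hb : ((13 : ℕ) : ℤ) ∣ Hs 13 q0 ψ 1 e0 := by
    have h1 := Hs_mod hmod q0 1 e0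
    have h2 : ((Hs 13 q0 ψ0 1 e0 : ℤ) : ZMod 13) = 0 := by
      rw [ZMod.intCast_zmod_eq_zero_iff_dvd]
      push_cast
      omega
    rw [h2] at h1
    exact (ZMod.intCast_zmod_eq_zero_iff_dvd _ 13).1 h1
  have hD : ¬ ((13 : ℕ) : ℤ) ∣ DD 13 q0 ψ 2 e0 := by
    intro h
    have h1 := DD_mod' hmod q0 2 e0
    rw [(ZMod.intCast_zmod_eq_zero_iff_dvd _ 13).2 h] at h1
    have h2 := (ZMod.intCast_zmod_eq_zero_iff_dvd _ 13).1 h1.symm
    push_cast at h2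
    omega
  obtain ⟨e, he, hen, hz⟩ := exists_zero (l := 13) prime13 (by norm_num) (q0 := q0) hq
    hper h2 hodd hb hD n
  have he' : e % 12 = e0 := by
    have : e % (13 - 1) = e0 % (13 - 1) := he
    omega
  refine ⟨e, he', hen, prime13, by norm_num, hq, hcop, hper, ?_, hmul, hz⟩
  intro x
  rw [← hodd x]
  congr 1
  have e1 : e = 2 * (6 * (e / 12)) + e0 := by omega
  rw [e1, pow_add, pow_mul]
  norm_num

/-- the half sum at a high level modulo `169` -/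
lemma Hs_level {q0 e n : ℕ} {ψ : ℤ → ℤ} (hq : q0 % 2 = 1) (hn : 1 ≤ n)
    (hper : ∀ x, ψ (x + q0) = ψ x) (hodd : ∀ x, ψ (-x) * (-1) ^ e = - ψ x)
    (h : (13 : ℤ) ^ (n + 1) ∣ Hs 13 q0 ψ (n + 1) e) : (169 : ℤ) ∣ Hs 13 q0 ψ 2 e := by
  have hperT : ∀ (t : ℕ) (x : ℤ), ψ (x + t * q0) = ψ x := by
    intro t x
    induction t with
    | zero => simp
    | succ i ih => rw [show x + ((i + 1 : ℕ) : ℤ) * q0 = (x + i * q0) + q0 by push_cast; ring,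
        hper, ih]
  let g : ℤ → ZMod 169 := fun r => ((ψ r * r ^ e : ℤ) : ZMod 169)
  have hperg : ∀ x, g (x + (q0 * 13 ^ 2 : ℕ)) = g x := by
    intro x
    simp only [g]
    have e1 : ψ (x + (q0 * 13 ^ 2 : ℕ)) = ψ x := by
      have := hperT (13 ^ 2) x
      rw [← this]
      congr 1
      push_cast
      ring
    rw [e1]
    push_cast
    have h0 : (169 : ZMod 169) = 0 := by decide
    have h1 : ((x : ZMod 169) + (q0 : ZMod 169) * 13 ^ 2) = x := by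
      rw [show ((13 : ZMod 169) ^ 2) = 169 by norm_num, h0, mul_zero, add_zero]
    norm_num at h1 ⊢
    rw [h1, add_zero]
  have hoddg : ∀ x, g (-x) = - g x := by
    intro x
    simp only [g]
    have e : ψ (-x) * (-x) ^ e = -(ψ x * x ^ e) := by
      have : (-x) ^ e = (-1) ^ e * x ^ e := by rw [← mul_pow, neg_one_mul]
      rw [this]
      linear_combination (x ^ e) * hodd x
    rw [e]
    push_cast
    rfl
  have hQ : (q0 * 13 ^ 2) % 2 = 1 := by omega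
  obtain ⟨k, rfl⟩ : ∃ k, n = k + 1 := ⟨n - 1, by omega⟩
  obtain ⟨s, hs⟩ : ∃ s, 13 ^ k = 2 * s + 1 := by
    have : Odd (13 ^ k) := Odd.pow (by decide)
    obtain ⟨s, hs⟩ := this
    exact ⟨s, hs⟩
  have key := half_sum (M := 169) (Q := q0 * 13 ^ 2) (by norm_num) hQ s g hperg hoddg
  have e1 : (2 * s + 1) * (q0 * 13 ^ 2) = q0 * 13 ^ (k + 1 + 1) := by rw [← hs]; ring
  rw [e1] at key
  have e2 : ∀ N : ℕ, ∑ r ∈ range N, g r
      = ((∑ r ∈ range N, ψ r * (r : ℤ) ^ e : ℤ) : ZMod 169) := by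
    intro N
    push_cast
    apply Finset.sum_congr rfl
    intro r _
    simp only [g]
    push_cast
    rfl
  rw [e2, e2] at key
  have h1 : ((Hs 13 q0 ψ (k + 1 + 1) e : ℤ) : ZMod 169) = 0 := by
    rw [ZMod.intCast_zmod_eq_zero_iff_dvd]
    refine Dvd.dvd.trans ?_ h
    refine ⟨13 ^ k, ?_⟩
    push_cast
    ring
  have h2 : ((Hs 13 q0 ψ 2 e : ℤ) : ZMod 169) = 0 := by
    rw [← h1]; exact key.symm
  exact (ZMod.intCast_zmod_eq_zero_iff_dvd _ 169).1 h2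

/-- the exponent modulo thirteen of a family at a positive level -/
theorem fam_expo {q0 e0 e n : ℕ} {ψ ψ0 ψ1 : ℤ → ℤ} (hF : Fam 13 q0 n e ψ) (hn : 1 ≤ n)
    (h2 : 2 ≤ e0) (he : e % 12 = e0)
    (hmod : ∀ u, ((ψ u : ℤ) : ZMod 13) = (ψ0 u : ℤ))
    (hmod2 : ∀ u, ((ψ u : ℤ) : ZMod 169) = (ψ1 u : ℤ)) {h0 d0 k : ℤ}
    (hh : Hs 13 q0 ψ1 2 e0 % 169 = 13 * h0) (hd : DD 13 q0 ψ0 2 e0 % 13 = d0)
    (hk : ∀ j : ℤ, 0 ≤ j → j < 13 → (h0 + j * d0) % 13 = 0 → (e0 + 12 * j) % 13 = k) :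
    (e : ℤ) % 13 = k := by
  have hz := Hs_level hF.hq hn hF.per hF.odd hF.zero
  obtain ⟨j, rfl⟩ : ∃ j, e = e0 + 12 * j := ⟨e / 12, by omega⟩
  have hc := Hs_change (l := 13) prime13 (by norm_num) q0 ψ (v := 0) (m := e0) (j := j) (by omega) 2
  have e1 : e0 + (13 - 1) * 13 ^ 0 * j = e0 + 12 * j := by norm_num
  rw [e1] at hc
  have hH : (169 : ℤ) ∣ Hs 13 q0 ψ 2 e0 - Hs 13 q0 ψ1 2 e0 := by
    have := Hs_modN hmod2 q0 2 e0
    rw [eq_comm, ZMod.intCast_eq_intCast_iff_dvd_sub] at this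
    exact_mod_cast this
  have hDm : (13 : ℤ) ∣ DD 13 q0 ψ 2 e0 - DD 13 q0 ψ0 2 e0 := by
    have := DD_mod' hmod q0 2 e0
    rw [eq_comm, ZMod.intCast_eq_intCast_iff_dvd_sub] at this
    exact_mod_cast this
  have hc' : (169 : ℤ) ∣ Hs 13 q0 ψ 2 (e0 + 12 * j) - (Hs 13 q0 ψ 2 e0 + 13 * j * DD 13 q0 ψ 2 e0) := by
    have : ((13 : ℕ) : ℤ) ^ (0 + 2) = 169 := by norm_num
    rw [this] at hc
    have e3 : ((13 : ℕ) : ℤ) ^ (0 + 1) = 13 := by norm_num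
    rw [e3] at hc
    exact hc
  obtain ⟨a, ha⟩ := hz
  obtain ⟨b, hb⟩ := hc'
  obtain ⟨c, hc2⟩ := hH
  obtain ⟨x, hx⟩ := hDm
  obtain ⟨y, hy⟩ : ∃ y, Hs 13 q0 ψ1 2 e0 = 169 * y + 13 * h0 :=
    ⟨Hs 13 q0 ψ1 2 e0 / 169, by omega⟩
  obtain ⟨z, hz2⟩ : ∃ z, DD 13 q0 ψ0 2 e0 = 13 * z + d0 := ⟨DD 13 q0 ψ0 2 e0 / 13, by omega⟩
  have key : (13 : ℤ) ∣ h0 + j * d0 := by
    refine ⟨a - b - c - y - j * x - j * z, ?_⟩
    have : 13 * (h0 + j * d0) = 13 * (13 * (a - b - c - y - j * x - j * z)) := by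
      linear_combination ha - hb - hc2 - hy - 13 * j * hx - 13 * j * hz2
    linarith
  have hj : (h0 + ((j : ℤ) % 13) * d0) % 13 = 0 := by
    obtain ⟨t, ht⟩ := key
    have e4 := Int.emod_add_mul_ediv (j : ℤ) 13
    have : h0 + ((j : ℤ) % 13) * d0 = 13 * (t - ((j : ℤ) / 13) * d0) := by
      linear_combination ht + d0 * e4
    rw [this, Int.mul_emod_right]
  have := hk ((j : ℤ) % 13) (Int.emod_nonneg _ (by norm_num)) (Int.emod_lt_of_pos _ (by norm_num)) hj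
  push_cast
  omega

end Pool.Agent.PSX.F26
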