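import Pool.Agent.PSX.StG

/-!
# PSX, module BFD: the bounded form

MP_321647_nt.
-/

set_option autoImplicit false

namespace Pool.Agent.PSX

open Finset (range)
open Pool.Agent.P4G (Fam QN FN FZ CC CR)
open Pool.Agent.RDF (β γ δ)

namespace M_BFD

variable {Q : ℕ} [NeZero Q]

/-- the weighted double sum along a form -/
def D2 (f : ZMod Q → ℤ) (P R S : ZMod Q) (g : ZMod Q → ZMod Q → ℤ) : ℤ :=
  ∑ x : ZMod Q, ∑ y : ZMod Q, f (ev P R S x y) * g x y

lemma D2_add (f : ZMod Q → ℤ) (P R S : ZMod Q) (g h : ZMod Q → ZMod Q → ℤ) :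
    D2 f P R S (fun x y => g x y + h x y) = D2 f P R S g + D2 f P R S h := by
  unfold D2
  rw [← Finset.sum_add_distrib]
  refine Finset.sum_congr rfl fun x _ => ?_
  rw [← Finset.sum_add_distrib]
  refine Finset.sum_congr rfl fun y _ => ?_
  ring

lemma D2_mul (f : ZMod Q → ℤ) (P R S : ZMod Q) (k : ℤ) (g : ZMod Q → ZMod Q → ℤ) :
    D2 f P R S (fun x y => k * g x y) = k * D2 f P R S g := by
  unfold D2
  rw [Finset.mul_sum]
  refine Finset.sum_congr rfl fun x _ => ?_
  rw [Finset.mul_sum]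
  refine Finset.sum_congr rfl fun y _ => ?_
  ring

lemma D2_congr (f : ZMod Q → ℤ) (P R S : ZMod Q) {g h : ZMod Q → ZMod Q → ℤ}
    (hgh : ∀ x y, g x y = h x y) : D2 f P R S g = D2 f P R S h := by
  unfold D2
  exact Finset.sum_congr rfl fun x _ => Finset.sum_congr rfl fun y _ => by rw [hgh x y]

lemma D2_zero (f : ZMod Q → ℤ) (P R S : ZMod Q) :
    D2 f P R S (fun x _ => if x = 0 then (Q : ℤ) else 0) = (Q : ℤ) * Z0 f S := by
  unfold D2 Z0
  rw [Finset.sum_eq_single (0 : ZMod Q)]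
  · rw [Finset.mul_sum]
    refine Finset.sum_congr rfl fun y _ => ?_
    have h1 : ev P R S 0 y = -(S * y ^ 2) := by
      unfold ev
      ring
    rw [h1]
    change f (-(S * y ^ 2)) * (if (0 : ZMod Q) = 0 then (Q : ℤ) else 0) = (Q : ℤ) * f (-(S * y ^ 2))
    rw [if_pos rfl]
    ring
  · intro x _ hx
    refine Finset.sum_eq_zero fun y _ => ?_
    change f (ev P R S x y) * (if x = 0 then (Q : ℤ) else 0) = 0
    rw [if_neg hx, mul_zero]
  · intro h
    exact absurd (Finset.mem_univ _) h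

/-- the telescoping sum -/
def V (f : ZMod Q → ℤ) (P R S : ZMod Q) : ℤ := D2 f P R S (fun x y => β x * sg y)

lemma U_eq (f : ZMod Q → ℤ) (hf : ∀ z, f (-z) = - f z) (P R S : ZMod Q) (c : ℤ) :
    D2 f P R S (fun x y => sg x * β (y - (c : ZMod Q) * x)) =
      - V f S (2 * (c : ZMod Q) * S - R) (P + R * (c : ZMod Q) - S * (c : ZMod Q) ^ 2) := by
  unfold V D2
  have h1 : ∀ x : ZMod Q, ∑ y : ZMod Q, f (ev P R S x y) * (sg x * β (y - (c : ZMod Q) * x)) =
      ∑ u : ZMod Q, f (ev P R S x (u + (c : ZMod Q) * x)) * (sg x * β u) := by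
    intro x
    rw [← Equiv.sum_comp (Equiv.addRight ((c : ZMod Q) * x))]
    refine Finset.sum_congr rfl fun u _ => ?_
    simp only [Equiv.coe_addRight, add_sub_cancel_right]
  rw [Finset.sum_congr rfl fun x _ => h1 x, Finset.sum_comm, ← Finset.sum_neg_distrib]
  refine Finset.sum_congr rfl fun u _ => ?_
  rw [← Finset.sum_neg_distrib]
  refine Finset.sum_congr rfl fun w _ => ?_
  have h2 : ev P R S w (u + (c : ZMod Q) * w) =
      -ev S (2 * (c : ZMod Q) * S - R) (P + R * (c : ZMod Q) - S * (c : ZMod Q) ^ 2) u w := by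
    unfold ev
    ring
  rw [h2, hf]
  ring

lemma term_eq (hNUS : Stmt_NUS) (hDBL : Stmt_DBL) (hQ : Q % 2 = 1) (f : ZMod Q → ℤ)
    (P R S : ZMod Q) (c : ℤ) :
    3 * XA (sm f) P R S - c * YA (sm f) P R S =
      3 * (Q : ℤ) * (V f P R S + D2 f P R S (fun x y => sg x * β (y - (c : ZMod Q) * x))) +
        3 * (Q : ℤ) ^ 2 * (Es f P R S c - c * Z0 f S) := by
  have hX : XA (sm f) P R S = (Q : ℤ) * (V f P R S + D2 f P R S (fun x y => sg x * β y)) +
      (Q : ℤ) ^ 2 * D2 f P R S (fun x y => sg x * sg y) := by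
    have e : XA (sm f) P R S = D2 f P R S (fun x y => (Q : ℤ) * (β x * sg y + sg x * β y) +
        (Q : ℤ) ^ 2 * (sg x * sg y)) := (hDBL Q hQ f P R S).1
    rw [e, D2_add f P R S (fun x y => (Q : ℤ) * (β x * sg y + sg x * β y))
      (fun x y => (Q : ℤ) ^ 2 * (sg x * sg y)),
      D2_mul f P R S (Q : ℤ) (fun x y => β x * sg y + sg x * β y),
      D2_mul f P R S ((Q : ℤ) ^ 2) (fun x y => sg x * sg y),
      D2_add f P R S (fun x y => β x * sg y) (fun x y => sg x * β y)]
    rfl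
  have hY : YA (sm f) P R S = 3 * (Q : ℤ) * (D2 f P R S (fun x _ => sg x * β x) +
      (Q : ℤ) * Z0 f S) := by
    have e : YA (sm f) P R S = 3 * (Q : ℤ) * D2 f P R S (fun x _ => sg x * β x +
        if x = 0 then (Q : ℤ) else 0) := (hDBL Q hQ f P R S).2
    rw [e, D2_add f P R S (fun x _ => sg x * β x) (fun x _ => if x = 0 then (Q : ℤ) else 0),
      D2_zero]
  have hE : Es f P R S c = D2 f P R S (fun x y => sg x * nu c x y) +
      D2 f P R S (fun x y => sg x * sg y) := by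
    rw [← D2_add f P R S (fun x y => sg x * nu c x y) (fun x y => sg x * sg y)]
    unfold Es D2 W
    refine Finset.sum_congr rfl fun x _ => Finset.sum_congr rfl fun y _ => ?_
    rw [Int.cast_id]
    ring
  have hU : D2 f P R S (fun x y => sg x * β (y - (c : ZMod Q) * x)) =
      D2 f P R S (fun x y => sg x * β y) + (-c) * D2 f P R S (fun x _ => sg x * β x) +
        (-(Q : ℤ)) * D2 f P R S (fun x y => sg x * nu c x y) := by
    rw [← D2_mul f P R S (-c) (fun x _ => sg x * β x),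
      ← D2_mul f P R S (-(Q : ℤ)) (fun x y => sg x * nu c x y),
      ← D2_add f P R S (fun x y => sg x * β y) (fun x _ => (-c) * (sg x * β x)),
      ← D2_add f P R S (fun x y => sg x * β y + (-c) * (sg x * β x))
        (fun x y => (-(Q : ℤ)) * (sg x * nu c x y))]
    refine D2_congr f P R S fun x y => ?_
    have h := (hNUS Q).1 c x y
    linear_combination (sg x) * h
  rw [hX, hY, hE, hU]
  ring

end M_BFD

theorem t_BFD (hNUS : Stmt_NUS) (hDBL : Stmt_DBL) : Stmt_BFD := by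
  intro Q _ hQ f hf K P R S c hrec hP hR hS
  have h1 : ∀ k ∈ range K,
      3 * XA (sm f) (P k) (R k) (S k) - c k * YA (sm f) (P k) (R k) (S k) =
        3 * (Q : ℤ) * (M_BFD.V f (P k) (R k) (S k) - M_BFD.V f (P (k + 1)) (R (k + 1)) (S (k + 1))) +
          3 * (Q : ℤ) ^ 2 * (Es f (P k) (R k) (S k) (c k) - c k * Z0 f (S k)) := by
    intro k hk
    obtain ⟨h2, h3, h4⟩ := hrec k (Finset.mem_range.mp hk)
    rw [M_BFD.term_eq hNUS hDBL hQ f (P k) (R k) (S k) (c k), M_BFD.U_eq f hf, h2, h3, h4]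
    ring
  rw [Finset.sum_congr rfl h1, Finset.sum_add_distrib, ← Finset.mul_sum, ← Finset.mul_sum,
    Finset.sum_range_sub' (fun k => M_BFD.V f (P k) (R k) (S k)), hP, hR, hS, sub_self, mul_zero,
    zero_add]

end Pool.Agent.PSX
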