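import Pool.Agent.PSX.StG

/-!
# PSX_RED: the full sums only depend on the form modulo `q0 l`
-/

set_option autoImplicit false

namespace Pool.Agent.PSX

open Finset (range)
open Pool.Agent.P4G (Fam QN FN FZ CC CR)

namespace M_RED

/-- the value of a form along a line as a polynomial -/
noncomputable def PA (P R S x : ℤ) : Polynomial ℤ :=
  Polynomial.C (P * x ^ 2) + Polynomial.C (R * x) * Polynomial.X - Polynomial.C S * Polynomial.X ^ 2

lemma PA_eval (P R S x j : ℤ) : (PA P R S x).eval j = evZ P R S x j := by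
  simp [PA, evZ]

/-- multiples of `l ^ n` times something divisible by `l` vanish -/
lemma ln_cast_eq {l n : ℕ} {u v : ℤ} (h : (l : ℤ) ∣ u - v) :
    (((l : ℤ) ^ n * u : ℤ) : ZMod (l ^ (n + 1))) = (((l : ℤ) ^ n * v : ℤ) : ZMod (l ^ (n + 1))) := by
  rw [← sub_eq_zero, ← Int.cast_sub, ZMod.intCast_zmod_eq_zero_iff_dvd]
  obtain ⟨t, ht⟩ := h
  refine ⟨t, ?_⟩
  push_cast
  rw [← mul_sub, ht]
  ring

lemma l_mul_cast {l n : ℕ} (u : ℤ) :
    (l : ZMod (l ^ (n + 1))) * (((l : ℤ) ^ n * u : ℤ) : ZMod (l ^ (n + 1))) = 0 := by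
  have h : (l : ZMod (l ^ (n + 1))) * (((l : ℤ) ^ n * u : ℤ) : ZMod (l ^ (n + 1)))
      = (((l : ℤ) * ((l : ℤ) ^ n * u) : ℤ) : ZMod (l ^ (n + 1))) := by push_cast; rfl
  rw [h, ZMod.intCast_zmod_eq_zero_iff_dvd]
  refine ⟨u, ?_⟩
  push_cast
  ring

lemma evZ_dvd {N : ℤ} {P R S T U V : ℤ} (h1 : N ∣ T - P) (h2 : N ∣ U - R) (h3 : N ∣ V - S)
    (x j : ℤ) : N ∣ evZ T U V x j - evZ P R S x j := by
  obtain ⟨a, ha⟩ := h1
  obtain ⟨b, hb⟩ := h2
  obtain ⟨c, hc⟩ := h3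
  refine ⟨a * x ^ 2 + b * x * j - c * j ^ 2, ?_⟩
  unfold evZ
  linear_combination x ^ 2 * ha + x * j * hb - j ^ 2 * hc

end M_RED

open M_RED in
theorem t_RED (hRSM : Stmt_RSM) : Stmt_RED := by
  intro l q0 n e ψ hF P R S T U V x hT hU hV
  have hq0 : ∀ j : ℤ, (q0 : ℤ) ∣ evZ T U V x j - evZ P R S x j := fun j =>
    dvd_trans ⟨(l : ℤ), by push_cast; ring⟩ (evZ_dvd hT hU hV x j)
  have hl : ∀ j : ℤ, (l : ℤ) ∣ evZ T U V x j - evZ P R S x j := fun j =>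
    dvd_trans ⟨(q0 : ℤ), by push_cast; ring⟩ (evZ_dvd hT hU hV x j)
  have hψ : ∀ j : ℤ, ψ (evZ T U V x j) = ψ (evZ P R S x j) := by
    intro j
    obtain ⟨t, ht⟩ := hq0 j
    have h1 : evZ T U V x j = evZ P R S x j + t * q0 := by linear_combination ht
    rw [h1, hF.ψper]
  -- the full sums
  have hI0 : ∀ P R S : ℤ, I0 l q0 n e ψ P R S x =
      (((l : ℤ) ^ n * ((∑ i ∈ range q0, ψ (evZ P R S x i)) *
        ∑ j ∈ range l, (evZ P R S x j) ^ e) : ℤ) : ZMod (l ^ (n + 1))) := by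
    intro P R S
    have h := hRSM l q0 n e ψ hF (PA P R S x) ((PA P R S x) ^ e)
    simp only [Polynomial.eval_pow, PA_eval] at h
    rw [← h]
    unfold I0 FN
    refine Finset.sum_congr rfl fun j _ => ?_
    push_cast
    rfl
  have hI1 : ∀ P R S P' R' S' : ℤ, I1 l q0 n e ψ P R S P' R' S' x =
      (((l : ℤ) ^ n * ((∑ i ∈ range q0, ψ (evZ P R S x i)) *
        ∑ j ∈ range l, (e * (evZ P R S x j) ^ (e - 1) * evZ P' R' S' x j)) : ℤ) :
          ZMod (l ^ (n + 1))) := by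
    intro P R S P' R' S'
    have h := hRSM l q0 n e ψ hF (PA P R S x)
      (Polynomial.C (e : ℤ) * (PA P R S x) ^ (e - 1) * PA P' R' S' x)
    simp only [Polynomial.eval_mul, Polynomial.eval_C, Polynomial.eval_pow, PA_eval] at h
    rw [← h]
    unfold I1 F1
    refine Finset.sum_congr rfl fun j _ => ?_
    push_cast
    ring
  have hs : ∑ i ∈ range q0, ψ (evZ T U V x i) = ∑ i ∈ range q0, ψ (evZ P R S x i) :=
    Finset.sum_congr rfl fun i _ => hψ i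
  refine ⟨?_, ?_, ?_⟩
  · rw [hI0, hI0, hs]
    apply ln_cast_eq
    rw [← mul_sub, ← Finset.sum_sub_distrib]
    refine Dvd.dvd.mul_left (Finset.dvd_sum fun j _ => ?_) _
    exact dvd_trans (hl j) (sub_dvd_pow_sub_pow _ _ e)
  · rw [hI0]
    exact l_mul_cast _
  · intro P' R' S' T' U' V' h1 h2 h3
    refine ⟨?_, ?_⟩
    · rw [hI1, hI1, hs]
      apply ln_cast_eq
      rw [← mul_sub, ← Finset.sum_sub_distrib]
      refine Dvd.dvd.mul_left (Finset.dvd_sum fun j _ => ?_) _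
      obtain ⟨a, ha⟩ := dvd_trans (hl j) (sub_dvd_pow_sub_pow _ _ (e - 1))
      obtain ⟨b, hb⟩ := evZ_dvd h1 h2 h3 x j
      refine ⟨e * a * evZ T' U' V' x j + e * (evZ P R S x j) ^ (e - 1) * b, ?_⟩
      linear_combination (e : ℤ) * evZ T' U' V' x j * ha + (e : ℤ) * (evZ P R S x j) ^ (e - 1) * hb
    · rw [hI1]
      exact l_mul_cast _

end Pool.Agent.PSX
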