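import Pool.Agent.PSX.StG

/-!
# Period six, module RDC: removal of the multiples of `Q` from the letters near `c = 1`
-/

set_option autoImplicit false

namespace Pool.Agent.PSX

open Finset (range)
open Pool.Agent.P4G (Fam QN FN FZ CC CR)

namespace RDCm

variable {l q0 n e : ℕ} {ψ : ℤ → ℤ} [NeZero (QN l q0 n)]

theorem FN_congr (h : Fam l q0 n e ψ) (u v : ℤ)
    (huv : ((u : ℤ) : ZMod (QN l q0 n)) = ((v : ℤ) : ZMod (QN l q0 n))) :
    FN l n e ψ u = FN l n e ψ v := by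
  rw [← h.FZ_cast (q0 := q0) u, ← h.FZ_cast (q0 := q0) v, huv]

theorem Es_shift (hEFZ : Stmt_EFZ) (hLCQ : Stmt_LCQ) (h : Fam l q0 n e ψ) (P R S c t0 : ℤ) :
    Es (FZ l q0 n e ψ) (P : ZMod (QN l q0 n)) (R : ZMod (QN l q0 n)) (S : ZMod (QN l q0 n))
        (c + (QN l q0 n : ℕ) * t0)
      = Es (FZ l q0 n e ψ) (P : ZMod (QN l q0 n)) (R : ZMod (QN l q0 n)) (S : ZMod (QN l q0 n)) c
        + 2 * (t0 : ZMod (l ^ (n + 1))) * SX (QN l q0 n) (I0 l q0 n e ψ P R S) := by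
  rw [hEFZ l q0 n e ψ h P R S, hEFZ l q0 n e ψ h P R S]
  exact hLCQ l q0 n h.Qodd (fun x y => FN l n e ψ (evZ P R S x y)) (by
    intro x y
    refine FN_congr h _ _ ?_
    unfold evZ
    push_cast
    have h0 : ((QN l q0 n : ℕ) : ZMod (QN l q0 n)) = 0 := ZMod.natCast_self _
    rw [h0]
    ring) c t0

theorem dvd_cast {u v : ℤ} (h : ((QN l q0 n : ℕ) : ℤ) ∣ u - v) :
    ((u : ℤ) : ZMod (QN l q0 n)) = ((v : ℤ) : ZMod (QN l q0 n)) := by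
  have h1 := (ZMod.intCast_zmod_eq_zero_iff_dvd (u - v) (QN l q0 n)).mpr h
  push_cast at h1
  exact sub_eq_zero.mp h1

theorem SX_congr {M : Type*} [CommRing M] (Q : ℕ) (f g : ℤ → M) (k1 k2 : M)
    (h : ∀ x, k1 * f x = k2 * g x) : k1 * SX Q f = k2 * SX Q g := by
  unfold SX
  rw [Finset.mul_sum, Finset.mul_sum]
  refine Finset.sum_congr rfl fun x _ => ?_
  have := h (x : ℤ)
  calc k1 * ((((-1) ^ x * (x : ℤ) : ℤ) : M) * f (x : ℤ))
      = (((-1) ^ x * (x : ℤ) : ℤ) : M) * (k1 * f (x : ℤ)) := by ring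
    _ = (((-1) ^ x * (x : ℤ) : ℤ) : M) * (k2 * g (x : ℤ)) := by rw [this]
    _ = k2 * ((((-1) ^ x * (x : ℤ) : ℤ) : M) * g (x : ℤ)) := by ring

end RDCm

open RDCm in
theorem t_RDC (hEFZ : Stmt_EFZ) (hLCQ : Stmt_LCQ) (hRED : Stmt_RED) (hCQP : Stmt_CQP) :
    Stmt_RDC := by
  intro l q0 n e e0 ψ _ hF a b c B m r p δ1 y hm hc ha hac haa hb hB hr hp hs
  have h := hF.fam
  obtain ⟨τ, hτ⟩ : ∃ τ, τ = a - 1 := ⟨_, rfl⟩
  obtain ⟨γ, hγ⟩ : ∃ γ, γ = c - 1 := ⟨_, rfl⟩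
  have ea : a = 1 + τ := by rw [hτ]; ring
  have ec : c = 1 + γ := by rw [hγ]; ring
  rw [← hτ] at ha hac haa hb hr hp hs
  rw [← hγ] at hc hac hr hs
  have eb : b = (-1 + τ) + (QN l q0 n : ℕ) * (-δ1) := by linear_combination -hb
  have eB : B = (-1 + γ) + (QN l q0 n : ℕ) * y := by rw [hB, ec]; ring
  -- residues
  have kB : ((B : ℤ) : ZMod (QN l q0 n)) = ((-1 + γ : ℤ) : ZMod (QN l q0 n)) :=
    dvd_cast ⟨y, by rw [eB]; ring⟩
  have kr : ((r : ℤ) : ZMod (QN l q0 n)) = ((-m + γ - (1 + 2 * m) * τ : ℤ) : ZMod (QN l q0 n)) :=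
    dvd_cast hr
  have kp : ((p : ℤ) : ZMod (QN l q0 n)) = ((-1 + 2 * τ : ℤ) : ZMod (QN l q0 n)) := dvd_cast hp
  have ks : ((2 * a * m - B : ℤ) : ZMod (QN l q0 n))
      = ((2 * m + 1 - γ + 2 * m * τ : ℤ) : ZMod (QN l q0 n)) := dvd_cast hs
  have kc : ((c * p : ℤ) : ZMod (QN l q0 n)) = ((-1 - γ + 2 * τ : ℤ) : ZMod (QN l q0 n)) := by
    have h1 : ((τ * γ : ℤ) : ZMod (QN l q0 n)) = 0 :=
      (ZMod.intCast_zmod_eq_zero_iff_dvd _ _).mpr hac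
    rw [Int.cast_mul, kp, ec]
    push_cast at h1 ⊢
    linear_combination 2 * h1
  have hsh := fun P R S c' t0 => Es_shift (l := l) (q0 := q0) (n := n) (e := e) (ψ := ψ)
    hEFZ hLCQ h P R S c' t0
  -- the difference
  have hdiff : R6 (FZ l q0 n e ψ) a b c B m r p
      - (A3 (FZ l q0 n e ψ) τ γ m + B3 (FZ l q0 n e ψ) τ γ m)
      = 2 * (y : ZMod (l ^ (n + 1))) * SX (QN l q0 n) (I0 l q0 n e ψ m (-1 + γ) 1)
        - 2 * (δ1 : ZMod (l ^ (n + 1)))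
          * (SX (QN l q0 n) (I0 l q0 n e ψ m (2 * m + 1 - γ + 2 * m * τ)
              (-m + γ - (1 + 2 * m) * τ))
            + SX (QN l q0 n) (I0 l q0 n e ψ (-1 + 2 * τ) (-1 - γ + 2 * τ)
              (-m + γ - (1 + 2 * m) * τ))) := by
    have t1 : Es (FZ l q0 n e ψ) (m : ZMod (QN l q0 n)) (B : ZMod (QN l q0 n)) 1 B
        = Es (FZ l q0 n e ψ) (m : ZMod (QN l q0 n)) ((-1 + γ : ℤ) : ZMod (QN l q0 n)) 1 (-1 + γ)
          + 2 * (y : ZMod (l ^ (n + 1))) * SX (QN l q0 n) (I0 l q0 n e ψ m (-1 + γ) 1) := by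
      have := hsh m (-1 + γ) 1 (-1 + γ) y
      rw [← eB] at this
      rw [kB]
      simpa using this
    have t3 : Es (FZ l q0 n e ψ) (m : ZMod (QN l q0 n))
          ((2 * m + 1 - γ + 2 * m * τ : ℤ) : ZMod (QN l q0 n))
          ((-m + γ - (1 + 2 * m) * τ : ℤ) : ZMod (QN l q0 n)) b
        = Es (FZ l q0 n e ψ) (m : ZMod (QN l q0 n))
          ((2 * m + 1 - γ + 2 * m * τ : ℤ) : ZMod (QN l q0 n))
          ((-m + γ - (1 + 2 * m) * τ : ℤ) : ZMod (QN l q0 n)) (-1 + τ)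
          + 2 * ((-δ1 : ℤ) : ZMod (l ^ (n + 1))) * SX (QN l q0 n) (I0 l q0 n e ψ m
            (2 * m + 1 - γ + 2 * m * τ) (-m + γ - (1 + 2 * m) * τ)) := by
      rw [eb]
      exact hsh _ _ _ _ _
    have t5 : Es (FZ l q0 n e ψ) ((-1 + 2 * τ : ℤ) : ZMod (QN l q0 n))
          ((-1 - γ + 2 * τ : ℤ) : ZMod (QN l q0 n))
          ((-m + γ - (1 + 2 * m) * τ : ℤ) : ZMod (QN l q0 n)) b
        = Es (FZ l q0 n e ψ) ((-1 + 2 * τ : ℤ) : ZMod (QN l q0 n))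
          ((-1 - γ + 2 * τ : ℤ) : ZMod (QN l q0 n))
          ((-m + γ - (1 + 2 * m) * τ : ℤ) : ZMod (QN l q0 n)) (-1 + τ)
          + 2 * ((-δ1 : ℤ) : ZMod (l ^ (n + 1))) * SX (QN l q0 n) (I0 l q0 n e ψ (-1 + 2 * τ)
            (-1 - γ + 2 * τ) (-m + γ - (1 + 2 * m) * τ)) := by
      rw [eb]
      exact hsh _ _ _ _ _
    unfold R6 A3 B3
    rw [t1, kB, kr, kp, ks, kc, t3, t5, ← ea, ← ec]
    push_cast
    ring
  -- the full sums
  have hone : FN l n e ψ 1 = 1 := by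
    unfold FN
    rw [hF.one]
    simp
  have hql : ∀ u v : ℤ, ((q0 * l : ℕ) : ℤ) ∣ u → ((q0 * l : ℕ) : ℤ) ∣ v → ∀ s t : ℤ,
      ((q0 * l : ℕ) : ℤ) ∣ s * u + t * v := fun u v hu hv s t =>
    dvd_add (Dvd.dvd.mul_left hu s) (Dvd.dvd.mul_left hv t)
  have r1 : ∀ x, I0 l q0 n e ψ m (-1 + γ) 1 x = I0 l q0 n e ψ m (-1) 1 x := fun x =>
    (hRED l q0 n e ψ h m (-1) 1 m (-1 + γ) 1 x (by simp) (by
      have := hql γ τ hc ha 1 0
      convert this using 1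
      ring) (by simp)).1
  have r2 : ∀ x, I0 l q0 n e ψ m (2 * m + 1 - γ + 2 * m * τ) (-m + γ - (1 + 2 * m) * τ) x
      = I0 l q0 n e ψ m (2 * m + 1) (-m) x := fun x =>
    (hRED l q0 n e ψ h m (2 * m + 1) (-m) m _ _ x (by simp) (by
      have := hql γ τ hc ha (-1) (2 * m)
      convert this using 1
      ring) (by
      have := hql γ τ hc ha 1 (-(1 + 2 * m))
      convert this using 1
      ring)).1
  have r3 : ∀ x, I0 l q0 n e ψ (-1 + 2 * τ) (-1 - γ + 2 * τ) (-m + γ - (1 + 2 * m) * τ) x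
      = I0 l q0 n e ψ (-1) (-1) (-m) x := fun x =>
    (hRED l q0 n e ψ h (-1) (-1) (-m) _ _ _ x (by
      have := hql γ τ hc ha 0 2
      convert this using 1
      ring) (by
      have := hql γ τ hc ha (-1) 2
      convert this using 1
      ring) (by
      have := hql γ τ hc ha 1 (-(1 + 2 * m))
      convert this using 1
      ring)).1
  have hmn : IsCoprime (-m) ((q0 * l : ℕ) : ℤ) := hm.neg_left
  have h1c : IsCoprime (1 : ℤ) ((q0 * l : ℕ) : ℤ) := isCoprime_one_left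
  have c2 : ∀ x, FN l n e ψ (-m) * I0 l q0 n e ψ m (2 * m + 1) (-m) x
      = 1 * I0 l q0 n e ψ m (-1) 1 x := fun x => by
    have := hCQP l q0 n e e0 ψ hF m (2 * m + 1) (-m) m (-1) 1 x hmn h1c
      (by
        have : ((-1 : ℤ) ^ 2 + 4 * m * 1) - ((2 * m + 1) ^ 2 + 4 * m * (-m)) = 0 := by ring
        rw [this]; exact dvd_zero _)
    rw [this, hone]
  have c3 : ∀ x, FN l n e ψ (-m) * I0 l q0 n e ψ (-1) (-1) (-m) x
      = 1 * I0 l q0 n e ψ m (-1) 1 x := fun x => by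
    have := hCQP l q0 n e e0 ψ hF (-1) (-1) (-m) m (-1) 1 x hmn h1c
      (by
        have : ((-1 : ℤ) ^ 2 + 4 * m * 1) - ((-1) ^ 2 + 4 * (-1) * (-m)) = 0 := by ring
        rw [this]; exact dvd_zero _)
    rw [this, hone]
  have s2 := SX_congr (QN l q0 n) (I0 l q0 n e ψ m (2 * m + 1) (-m)) (I0 l q0 n e ψ m (-1) 1) _ _ c2
  have s3 := SX_congr (QN l q0 n) (I0 l q0 n e ψ (-1) (-1) (-m)) (I0 l q0 n e ψ m (-1) 1) _ _ c3
  rw [h.FN_neg] at s2 s3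
  rw [← hτ, ← hγ, hdiff, funext r1, funext r2, funext r3]
  linear_combination (2 * (δ1 : ZMod (l ^ (n + 1)))) * s2 + (2 * (δ1 : ZMod (l ^ (n + 1)))) * s3

end Pool.Agent.PSX
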