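import Pool.Agent.PSX.EvTab

/-!
Evaluation of the relations on classes of parameters.
-/

namespace Pool.Agent.PSX.Ev

open Pool.Agent.LibH4 Pool.Agent.LibH4.Ker
open Pool.Agent.Lib_helper5 Pool.Agent.Lib_helper5.LK Pool.Agent.Lib_helper5.TB

/-! ### the value of a relation -/

/-- element of a list -/
def nthR (L : List (ℕ × ℕ)) : ℕ → ℕ × ℕ :=
  @List.rec (ℕ × ℕ) (fun _ => ℕ → ℕ × ℕ) (fun _ => (0, 0))
    (fun x _ ih i => @Nat.rec (fun _ => ℕ × ℕ) x (fun j _ => ih j) i) L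

lemma nthR_eq (L : List (ℕ × ℕ)) (i : ℕ) : nthR L i = L.getD i (0, 0) := by
  induction L generalizing i with
  | nil => rfl
  | cons x L ih =>
    cases i with
    | zero => rfl
    | succ i =>
      have : nthR (x :: L) (i + 1) = nthR L i := rfl
      rw [this, ih]
      rfl

/-- the contribution of a form: `x, y, z` are the first coefficient and the position for the three
components, `w` is the multiplicity of the second sum -/
def trm (t1 t2 t3 : ℕ) (rows : List (ℕ × ℕ)) (len3 : ℕ) (x y z : ℕ × ℕ) (w : ℕ) : ℕ :=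
  (fun row : ℕ × ℕ => strict (Nat.add (Nat.mul y.2 len3) z.2) fun i =>
    Nat.mul (Nat.mul (Nat.mul (dig t1 x.1) (dig t2 y.1)) (dig t3 z.1))
      (Nat.add (Nat.mul (nat_lit 3) (dig row.1 i)) (Nat.mul w (dig row.2 i)))) (nthR rows x.2)

/-- first element and the rest -/
def uncP {β : Type} (L : List (ℕ × ℕ)) (k : ℕ × ℕ → List (ℕ × ℕ) → β) : β :=
  @List.rec (ℕ × ℕ) (fun _ => β) (k (0, 0) []) (fun x L _ => k x L) L

/-- first element and the rest -/
def uncN {β : Type} (L : List ℕ) (k : ℕ → List ℕ → β) : β :=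
  @List.rec ℕ (fun _ => β) (k 0 []) (fun x L _ => k x L) L

/-- the value of a relation -/
def evL (t1 t2 t3 : ℕ) (rows : List (ℕ × ℕ)) (len3 : ℕ) (X : List (ℕ × ℕ)) :
    List (ℕ × ℕ) → List (ℕ × ℕ) → List ℕ → ℕ :=
  @List.rec (ℕ × ℕ) (fun _ => List (ℕ × ℕ) → List (ℕ × ℕ) → List ℕ → ℕ) (fun _ _ _ => nat_lit 0)
    (fun x _ ih Y Z W => uncP Y fun y Y' => uncP Z fun z Z' => uncN W fun w W' =>
      Nat.add (trm t1 t2 t3 rows len3 x y z w) (ih Y' Z' W')) X

/-- first coefficient and position -/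
def cp (n : ℕ) (ps : ℕ → ℕ → ℕ → ℕ) (j : Fm) : ℕ × ℕ :=
  (rs n j.P, ps (rs n j.P) (rs n j.R) (rs n j.S))

theorem evL_eq (n1 n2 n3 l : ℕ) (ps1 ps2 ps3 : ℕ → ℕ → ℕ → ℕ) (t1 t2 t3 : ℕ)
    (rows : List (ℕ × ℕ)) (len3 : ℕ) (J : List Fm) (hκ : ∀ j ∈ J, j.κ = 3) :
    evL t1 t2 t3 rows len3 (J.map (cp n1 ps1)) (J.map (cp n2 ps2)) (J.map (cp n3 ps3))
      (J.map fun j => rs l j.α) =
      (J.map (fvalG n1 n2 n3 l ps1 ps2 ps3 t1 t2 t3 rows len3)).sum := by
  induction J with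
  | nil => rfl
  | cons j J ih =>
    have e : evL t1 t2 t3 rows len3 ((j :: J).map (cp n1 ps1)) ((j :: J).map (cp n2 ps2))
        ((j :: J).map (cp n3 ps3)) ((j :: J).map fun j => rs l j.α) =
        trm t1 t2 t3 rows len3 (cp n1 ps1 j) (cp n2 ps2 j) (cp n3 ps3 j) (rs l j.α) +
        evL t1 t2 t3 rows len3 (J.map (cp n1 ps1)) (J.map (cp n2 ps2)) (J.map (cp n3 ps3))
          (J.map fun j => rs l j.α) := rfl
    rw [e, ih fun x hx => hκ x (by simp [hx]), List.map_cons, List.sum_cons]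
    congr 1
    have hk := hκ j (by simp)
    unfold trm fvalG tX tY
    rw [nthR_eq, hk]
    simp only [strict_eq]
    rfl

/-- the trivial component -/
def o6 : List (ℕ × ℕ) := [(nat_lit 0, nat_lit 0), (nat_lit 0, nat_lit 0), (nat_lit 0, nat_lit 0),
  (nat_lit 0, nat_lit 0), (nat_lit 0, nat_lit 0), (nat_lit 0, nat_lit 0)]

lemma cp_one (j : Fm) : cp 1 (pos 1 0 PT1) j = (0, 0) := by
  have h : ∀ x : ℤ, rs 1 x = 0 := fun x => by
    have := rs_lt (p := 1) x
    omega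
  unfold cp
  rw [h, h, h]
  rfl

lemma o6_eq {J : List Fm} (h : J.length = 6) : J.map (cp 1 (pos 1 0 PT1)) = o6 := by
  have : J.map (cp 1 (pos 1 0 PT1)) = J.map fun _ => (0, 0) := by
    apply List.map_congr_left
    intro j _
    exact cp_one j
  rw [this, List.map_const', h]
  rfl

/-! ### the first family -/

/-- the forms of the first family -/
def J1 (a v : ℤ) : List Fm :=
  [⟨2 * (1 + 2 * a * v), 2 * (a + (2 * a * a + 1) * v), -1, 3, -(2 * (a + (2 * a * a + 1) * v))⟩,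
   ⟨1, 2 * (a + (2 * a * a + 1) * v), -(2 * (1 + 2 * a * v)), 3, -a⟩,
   ⟨2 * (1 + 2 * a * v), 2 * a * (2 * (1 + 2 * a * v)) - 2 * (a + (2 * a * a + 1) * v),
     -(1 + 2 * a * v), 3, -(2 * a)⟩,
   ⟨1 + 2 * a * v, 2 * (a + (2 * a * a + 1) * v), -2, 3, -(a + (2 * a * a + 1) * v)⟩,
   ⟨2, 2 * (a + (2 * a * a + 1) * v), -(1 + 2 * a * v), 3, -(2 * a)⟩,
   ⟨1 + 2 * a * v, 2 * a * (2 * (1 + 2 * a * v)) - 2 * (a + (2 * a * a + 1) * v),
     -(2 * (1 + 2 * a * v)), 3, -a⟩]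

/-- the data of a class -/
def cl1 (n : ℕ) (ps : ℕ → ℕ → ℕ → ℕ) (a v : ℕ) (k : List (ℕ × ℕ) → Bool) : Bool :=
  strict (Nat.mod (Nat.add a (Nat.mul (Nat.add (Nat.mul (nat_lit 2) (Nat.mul a a)) (nat_lit 1)) v))
    n) fun c =>
  strict (Nat.mod (Nat.mul (nat_lit 2) c) n) fun B =>
  strict (Nat.mod (Nat.add (nat_lit 1) (Nat.mul (nat_lit 2) (Nat.mul a v))) n) fun r =>
  strict (Nat.mod (Nat.mul (nat_lit 2) r) n) fun m =>
  @Bool.rec (fun _ => Bool) true (
    strict (Nat.sub n (nat_lit 1)) fun o =>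
    strict (Nat.mod (Nat.mul (nat_lit 2) o) n) fun w =>
    strict (Nat.mod (Nat.add (Nat.mul (nat_lit 2) (Nat.mul a m)) (Nat.mul o B)) n) fun R =>
    strict (Nat.mod (Nat.mul o m) n) fun nm =>
    strict (Nat.mod (Nat.mul o r) n) fun nr =>
    strict (ps m B o) fun p0 => strict (ps (nat_lit 1) B nm) fun p1 =>
    strict (ps m R nr) fun p2 => strict (ps r B w) fun p3 =>
    strict (ps (nat_lit 2) B nr) fun p4 => strict (ps r R nm) fun p5 =>
    k [(m, p0), (nat_lit 1, p1), (m, p2), (r, p3), (nat_lit 2, p4), (r, p5)])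
  (Nat.beq (Nat.mod (Nat.pow (Nat.mod (Nat.add (Nat.mul B B) (Nat.mul (nat_lit 4) m)) n)
    (Nat.div n (nat_lit 2))) n) (Nat.sub n (nat_lit 1)))

/-- the multiplicities of a class -/
def al1 (l a v : ℕ) (k : List ℕ → Bool) : Bool :=
  strict (Nat.sub l (nat_lit 1)) fun o =>
  strict (Nat.mod (Nat.mul o a) l) fun na =>
  strict (Nat.mod (Nat.mul (nat_lit 2) na) l) fun nb =>
  strict (Nat.mod (Nat.mul o
    (Nat.add a (Nat.mul (Nat.add (Nat.mul (nat_lit 2) (Nat.mul a a)) (nat_lit 1)) v))) l) fun nc =>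
  strict (Nat.mod (Nat.mul (nat_lit 2) nc) l) fun nB =>
  k [nB, na, nb, nc, nb, na]

lemma cl1_spec {Q : ℕ} {D : ℤ} {a v : ℤ} (S : ESys Q D (J1 a v)) {n : ℕ} [NeZero n]
    (hn : n.Prime) (hn2 : 2 < n) (hQ : n ∣ Q) {ps : ℕ → ℕ → ℕ → ℕ} {k : List (ℕ × ℕ) → Bool}
    (h : cl1 n ps (rs n a) (rs n v) k = true) : k ((J1 a v).map (cp n ps)) = true := by
  have c1 : ((n - 1 : ℕ) : ZMod n) = -1 := K5.cast_pred
  have e1 : Nat.mod (Nat.add (rs n a) (Nat.mul (Nat.add (Nat.mul (nat_lit 2)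
      (Nat.mul (rs n a) (rs n a))) (nat_lit 1)) (rs n v))) n =
      rs n (a + (2 * a * a + 1) * v) := by
    change (rs n a + (2 * (rs n a * rs n a) + 1) * rs n v) % n = _
    apply rs_of; push_cast; simp only [rs_cast]; push_cast; ring
  have e2 : ∀ x : ℤ, Nat.mod (Nat.mul (nat_lit 2) (rs n x)) n = rs n (2 * x) := by
    intro x
    change (2 * rs n x) % n = _
    apply rs_of; push_cast; simp only [rs_cast]
  have e3 : Nat.mod (Nat.add (nat_lit 1) (Nat.mul (nat_lit 2) (Nat.mul (rs n a) (rs n v)))) n =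
      rs n (1 + 2 * a * v) := by
    change (1 + 2 * (rs n a * rs n v)) % n = _
    apply rs_of; push_cast; simp only [rs_cast]; push_cast; ring
  have e4 : Nat.sub n (nat_lit 1) = rs n (-1) := K5.rs_neg_one
  have e5 : Nat.mod (Nat.mul (nat_lit 2) (rs n (-1))) n = rs n (-2) := by
    change (2 * rs n (-1)) % n = _
    apply rs_of; push_cast; simp only [rs_cast]; push_cast; ring
  have e6 : ∀ x y : ℤ, Nat.mod (Nat.add (Nat.mul (nat_lit 2) (Nat.mul (rs n a) (rs n x)))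
      (Nat.mul (rs n (-1)) (rs n y))) n = rs n (2 * a * x - y) := by
    intro x y
    change (2 * (rs n a * rs n x) + rs n (-1) * rs n y) % n = _
    apply rs_of; push_cast; simp only [rs_cast]; push_cast; ring
  have e7 : ∀ x : ℤ, Nat.mod (Nat.mul (rs n (-1)) (rs n x)) n = rs n (-x) := by
    intro x
    change (rs n (-1) * rs n x) % n = _
    apply rs_of; push_cast; simp only [rs_cast]; push_cast; ring
  have e8 : (nat_lit 1) = rs n 1 := K5.rs_one hn.one_lt
  have e9 : (nat_lit 2) = rs n 2 := by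
    have : (2 : ℕ) % n = rs n 2 := rs_of (by push_cast; ring)
    rw [Nat.mod_eq_of_lt hn2] at this
    exact this
  have e10 : Nat.mod (Nat.add (Nat.mul (rs n (2 * (a + (2 * a * a + 1) * v)))
      (rs n (2 * (a + (2 * a * a + 1) * v)))) (Nat.mul (nat_lit 4) (rs n (2 * (1 + 2 * a * v))))) n
      = rs n D := by
    have hd := S.disc _ (show (⟨2 * (1 + 2 * a * v), 2 * (a + (2 * a * a + 1) * v), -1, 3,
      -(2 * (a + (2 * a * a + 1) * v))⟩ : Fm) ∈ J1 a v by simp [J1])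
    change (rs n _ * rs n _ + 4 * rs n _) % n = _
    apply rs_of
    rw [← hd]
    push_cast; simp only [rs_cast]; push_cast; ring
  have hin := S.inr n hn hQ
  unfold K5.In at hin
  unfold cl1 at h
  simp only [strict_eq] at h
  rw [e1, e2, e3, e2, e10] at h
  have hin' : Nat.beq (Nat.mod (Nat.pow (rs n D) (Nat.div n (nat_lit 2))) n)
    (Nat.sub n (nat_lit 1)) = true := hin
  rw [hin'] at h
  rw [e4, e5, e6, e7, e7] at h
  unfold J1 cp
  simp only [List.map_cons, List.map_nil]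
  rw [← e8, ← e9]
  exact h

lemma al1_spec {a v : ℤ} {l : ℕ} [NeZero l] {k : List ℕ → Bool}
    (h : al1 l (rs l a) (rs l v) k = true) : k ((J1 a v).map fun j => rs l j.α) = true := by
  have e4 : Nat.sub l (nat_lit 1) = rs l (-1) := K5.rs_neg_one
  have e7 : ∀ x : ℤ, Nat.mod (Nat.mul (rs l (-1)) (rs l x)) l = rs l (-x) := by
    intro x
    change (rs l (-1) * rs l x) % l = _
    apply rs_of; push_cast; simp only [rs_cast]; push_cast; ring
  have e2 : ∀ x : ℤ, Nat.mod (Nat.mul (nat_lit 2) (rs l (-x))) l = rs l (-(2 * x)) := by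
    intro x
    change (2 * rs l (-x)) % l = _
    apply rs_of; push_cast; simp only [rs_cast]; push_cast; ring
  have e1 : Nat.mod (Nat.mul (rs l (-1)) (Nat.add (rs l a) (Nat.mul (Nat.add (Nat.mul (nat_lit 2)
      (Nat.mul (rs l a) (rs l a))) (nat_lit 1)) (rs l v)))) l =
      rs l (-(a + (2 * a * a + 1) * v)) := by
    change (rs l (-1) * (rs l a + (2 * (rs l a * rs l a) + 1) * rs l v)) % l = _
    apply rs_of; push_cast; simp only [rs_cast]; push_cast; ring
  unfold al1 at h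
  simp only [strict_eq] at h
  rw [e4, e7, e2, e1, e2] at h
  exact h

end Pool.Agent.PSX.Ev
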