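import Pool.Agent.RQM.C29
import Pool.Agent.RQM.C44

/-!
The congruence for a general discriminant and its character, modulo an arbitrary odd integer `N`.
-/

namespace Pool.Agent.PSX.Ev

open Finset (range)
open Pool.Agent.LibH4 Pool.Agent.LibH4.FA Pool.Agent.Lib_helper5 Pool.Agent.Lib_helper5.RDF

namespace NNE

variable {q N : ℕ} [NeZero N] (χ : ZMod q → ZMod N)

omit [NeZero N] in
/-- the second factor is a multiple of `q` -/
lemma sum_two {D : ℕ} {ψ : ℕ → ℤ} (hq : 0 < q) (hD0 : 0 < D)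
    (hψ : ∀ n, ψ (n % D) = ψ n) (hmulψ : ∀ a b, ψ (a * b) = ψ a * ψ b)
    (hn : ∃ n : ℕ, n ≡ 1 [MOD q] ∧ Nat.Coprime n (q * D) ∧ ψ n = -1) (hN : N % 2 = 1)
    (hodd : ∀ x, χ (-x) = - χ x) :
    ∃ z : ZMod N, ∑ s ∈ range (q * D), χ (s : ZMod q) * (ψ s : ZMod N) *
      (bZ (q * D) s : ZMod N) = (q : ZMod N) * z := by
  -- the sum with `s` replaced by its residue modulo `q` vanishes
  have hf : ∑ s ∈ range (q * D), (((s : ℤ) % (q : ℤ)) * NN.lift χ (s : ℤ)) * ψ s = 0 := by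
    have key := row_zero' (q := q) (D := D) (ψ := ψ)
      (f := fun x : ℤ => (((x % q) * NN.lift χ x : ℤ) : ℝ)) hq hD0 hψ hmulψ hn
      (fun x => by
        rw [NN.lift_per χ, Int.add_emod_right]) 1
    have h2 : ((∑ s ∈ range (q * D), (((s : ℤ) % (q : ℤ)) * NN.lift χ (s : ℤ)) * ψ s : ℤ) : ℝ)
        = 0 := by
      rw [← key]
      push_cast
      apply Finset.sum_congr rfl
      intro s _
      unfold gs
      push_cast
      rw [one_mul]
    exact_mod_cast h2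
  have hf' : ∑ s ∈ range (q * D), (((s % q : ℕ) : ZMod N) * χ (s : ZMod q)) *
      (ψ s : ZMod N) = 0 := by
    have h3 := congrArg (Int.cast : ℤ → ZMod N) hf
    rw [Int.cast_sum, Int.cast_zero] at h3
    rw [← h3]
    apply Finset.sum_congr rfl
    intro s _
    have h1 := NN.lift_cast χ (s : ℤ)
    rw [Int.cast_mul, Int.cast_mul, h1, ← Int.natCast_mod, Int.cast_natCast, Int.cast_natCast]
  refine ⟨∑ s ∈ range (q * D), χ (s : ZMod q) * (ψ s : ZMod N) *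
      ((D : ZMod N) - 2 * ((s / q : ℕ) : ZMod N)), ?_⟩
  have e : ∀ s ∈ range (q * D), χ (s : ZMod q) * (ψ s : ZMod N) *
      (bZ (q * D) s : ZMod N) = (q : ZMod N) * (χ (s : ZMod q) * (ψ s : ZMod N) *
      ((D : ZMod N) - 2 * ((s / q : ℕ) : ZMod N))) - 2 * ((((s % q : ℕ) : ZMod N) * χ (s : ZMod q)) *
      (ψ s : ZMod N)) := by
    intro s _
    have hs : ((s : ℕ) : ZMod N) = ((s % q : ℕ) : ZMod N) + (q : ZMod N) * ((s / q : ℕ) : ZMod N) := by
      have := Nat.mod_add_div s q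
      have h2 := congrArg (Nat.cast : ℕ → ZMod N) this
      push_cast at h2
      rw [← h2]
    unfold bZ
    split_ifs with h
    · subst h
      simp [NN.chi_zero χ hN hodd]
    · push_cast
      linear_combination (-2 * (χ (s : ZMod q) * (ψ s : ZMod N))) * hs
  rw [Finset.sum_congr rfl e, Finset.sum_sub_distrib, ← Finset.mul_sum, ← Finset.mul_sum, hf']
  ring

end NNE

section general

variable {K : ℕ} {P R S : ℕ → ℤ} {c : ℕ → ℕ}

/-- **general T5 modulo `N`** -/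
theorem cyc_T5N' (h : Cyc K P R S c) (D : ℕ) (ψ : ℕ → ℤ) (hD0 : 0 < D)
    (hψ : ∀ n, ψ (n % D) = ψ n) (hmulψ : ∀ a b, ψ (a * b) = ψ a * ψ b)
    (hcnt : ∀ n : ℕ, n ≠ 0 →
      ((∑ k ∈ range K, (edgeSet (P k) (R k) (S k) (c k) n).ncard : ℕ) : ℤ) = sg ψ n)
    (q N : ℕ) (hq : 0 < q)
    (hn : ∃ n : ℕ, n ≡ 1 [MOD q] ∧ Nat.Coprime n (q * D) ∧ ψ n = -1) (hN2 : N % 2 = 1)
    (hNd : Nat.Coprime D N)
    (hmean : ∀ f : ℤ → ℝ, (∀ x, f (x + q) = f x) → (∀ x, f (-x) = - f x) →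
      ∑ r ∈ range q, ∑ s ∈ range q,
        f (P 0 * (r : ℤ) ^ 2 + R 0 * r * s - S 0 * (s : ℤ) ^ 2) = 0)
    (χ : ZMod q → ZMod N)
    (hodd : ∀ x, χ (-x) = - χ x) (hmul : ∀ x y, χ (x * y) = χ x * χ y)
    (hsum : ∀ z : ZMod N,
      3 * ((∑ u ∈ range q, (u : ZMod N) * χ (u : ZMod q)) * ((q : ZMod N) * z)) = 0) :
    ∑ k ∈ range K, ∑ r ∈ range q, ∑ s ∈ range q,
      χ ((P k * (r : ℤ) ^ 2 + R k * r * s - S k * (s : ℤ) ^ 2 : ℤ) : ZMod q)
        * (3 * ((bZ q r : ZMod N) * bZ q s) - c k * b2Z q r) = 0 := by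
  have hper' : ∀ x, ((NN.lift χ (x + q) : ℤ) : ℝ) = ((NN.lift χ x : ℤ) : ℝ) := fun x => by
    simp only [NN.lift_per χ]
  have hodd' : ∀ x, ((NN.lift χ (-x) : ℤ) : ℝ) = - ((NN.lift χ x : ℤ) : ℝ) := fun x => by
    simp only [NN.lift_odd χ hN2 hodd]; push_cast; ring
  have key := cyc_identity' h D ψ hD0 hψ q hq
    (fun x => ((NN.lift χ x : ℤ) : ℝ))
    (fun k => row_zero' hq hD0 hψ hmulψ hn hper' k) hper' hodd'
    (hmean (fun x => ((NN.lift χ x : ℤ) : ℝ)) hper' hodd') hcnt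
  have i5 := bb_RZ' ψ hq hD0 (NN.lift χ)
  have hreal : (D : ℝ) * (2 * (∑ k ∈ range K, (3 * (XZ q (NN.lift χ) (P k) (R k) (S k) : ℝ)
      - c k * (YX q (NN.lift χ) (P k) (R k) (S k) : ℝ))))
      = 3 * (RZ' ψ q D (NN.lift χ) : ℝ) := by
    rw [← i5, ← key]
    simp only [Finset.mul_sum]
    apply Finset.sum_congr rfl
    intro k _
    rw [← SS_XZ hq, ← MX_YX hq]
    ring
  have hint : (D : ℤ) * (2 * (∑ k ∈ range K, (3 * XZ q (NN.lift χ) (P k) (R k) (S k)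
      - c k * YX q (NN.lift χ) (P k) (R k) (S k))))
      = 3 * RZ' ψ q D (NN.lift χ) := by
    exact_mod_cast hreal
  have hzmod : (D : ZMod N) * (2 * (∑ k ∈ range K, (3 * (XZ q (NN.lift χ) (P k) (R k) (S k) : ZMod N)
      - c k * (YX q (NN.lift χ) (P k) (R k) (S k) : ZMod N))))
      = 3 * (RZ' ψ q D (NN.lift χ) : ZMod N) := by
    have := congrArg (Int.cast : ℤ → ZMod N) hint
    push_cast at this
    exact this
  have hR : 3 * (RZ' ψ q D (NN.lift χ) : ZMod N) = 0 := by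
    have e : (RZ' ψ q D (NN.lift χ) : ZMod N) = (∑ r ∈ range q, χ (r : ZMod q) * (bZ q r : ZMod N)) *
        (∑ s ∈ range (q * D), χ (s : ZMod q) * (ψ s : ZMod N) * (bZ (q * D) s : ZMod N)) := by
      unfold RZ'
      push_cast
      rw [Finset.sum_mul_sum]
      apply Finset.sum_congr rfl
      intro r _
      apply Finset.sum_congr rfl
      intro s _
      rw [NN.lift_cast]
      push_cast
      rw [hmul]
      ring
    obtain ⟨z, hz⟩ := NNE.sum_two χ hq hD0 hψ hmulψ hn hN2 hodd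
    rw [e, NN.sum_chi_bZ χ hq hN2 hodd, hz]
    have := hsum z
    linear_combination (-2) * this
  rw [hR] at hzmod
  have hdu : IsUnit (D : ZMod N) := by
    have := (ZMod.unitOfCoprime D hNd).isUnit
    simpa using this
  have h1 := NN.two_cancel hN2 ((hdu.mul_right_eq_zero).1 hzmod)
  rw [← h1]
  apply Finset.sum_congr rfl
  intro k _
  unfold XZ YX
  push_cast
  simp only [Finset.mul_sum]
  rw [← Finset.sum_sub_distrib]
  apply Finset.sum_congr rfl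
  intro r _
  rw [← Finset.sum_sub_distrib]
  apply Finset.sum_congr rfl
  intro s _
  rw [NN.lift_cast]
  push_cast
  ring

end general

/-- **T5 modulo `N` for cycles of even length, general character.** -/
theorem even_T5N' (m B : ℤ) (hm : 0 < m) {K : ℕ}
    {P R S : ℕ → ℤ} {c : ℕ → ℕ} (h : CG.CycM m B K P R S c) (J : ℕ) (hK : K = 2 * J) (hJ : 0 < J)
    (hcl : CG.rho m B c K = CG.rho m B c (K + 1) * CG.om m B)
    (hP1 : ∀ k < K, k ≠ 1 → P k ≠ 1)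
    [IsDomain (QuadraticAlgebra ℤ m B)] [UniqueFactorizationMonoid (QuadraticAlgebra ℤ m B)]
    {D : ℕ} {ψ : ℕ → ℤ} (hKr : Kr m B D ψ) (hD0 : 0 < D) (hψ : ∀ n, ψ (n % D) = ψ n)
    (q N : ℕ) (hq : 0 < q) (hq2 : q % 2 = 1) (hcop : Nat.Coprime q D)
    (hn : ∃ n : ℕ, n ≡ 1 [MOD q] ∧ Nat.Coprime n (q * D) ∧ ψ n = -1)
    (hN2 : N % 2 = 1) (hNd : Nat.Coprime D N)
    (χ : ZMod q → ZMod N)
    (hodd : ∀ x, χ (-x) = - χ x) (hmul : ∀ x y, χ (x * y) = χ x * χ y)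
    (hsum : ∀ z : ZMod N,
      3 * ((∑ u ∈ range q, (u : ZMod N) * χ (u : ZMod q)) * ((q : ZMod N) * z)) = 0) :
    ∑ k ∈ range K, ∑ r ∈ range q, ∑ s ∈ range q,
      χ ((P k * (r : ℤ) ^ 2 + R k * r * s - S k * (s : ℤ) ^ 2 : ℤ) : ZMod q)
        * (3 * ((bZ q r : ZMod N) * bZ q s) - c k * b2Z q r) = 0 := by
  refine cyc_T5N' h.toCyc D ψ hD0 hψ hKr.mul ?_ q N hq hn hN2 hNd ?_ χ hodd hmul hsum
  · intro n hn
    rw [← CG.count_even hm h J hK hJ hcl hP1 n hn]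
    exact (hKr.ncard_SN n hn).2
  · intro f hper hodd'
    rw [h.Pm, h.RB, h.S1]
    apply mean_even' m B q hq hq2 _ f hper hodd'
    rw [← hKr.hD]
    exact Nat.isCoprime_iff_coprime.2 hcop

end Pool.Agent.PSX.Ev
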