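import Pool.Agent.RQM.C54
import Pool.Agent.PSX.EvT5N

/-!
The system of conditions for cycles of length six and even discriminants.
-/

namespace Pool.Agent.PSX.Ev

open Finset Pool.Agent.LibH4 Pool.Agent.LibH4.Ker Pool.Agent.LibH4.T6 Pool.Agent.LibH4.KF
open Pool.Agent.Lib_helper5 Pool.Agent.Lib_helper5.RDF Pool.Agent.Lib_helper5.LK
open Pool.Agent.Lib_helper5.K5 (In)

/-- the system of conditions -/
structure ESys (Q : ℕ) (D : ℤ) (J : List Fm) : Prop where
  disc : ∀ j ∈ J, j.R ^ 2 - 4 * j.P * j.S = D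
  inr : ∀ p : ℕ, p.Prime → p ∣ Q → In p D
  rel : ∀ (n1 n2 n3 N T1 T2 T3 : ℕ) [NeZero n1] [NeZero n2] [NeZero n3] [NeZero (n1 * n2)]
    [NeZero (n1 * n2 * n3)], relOk n1 n2 n3 N T1 T2 T3 = true → tabCk n1 N T1 = true →
    tabCk n2 N T2 = true → tabCk n3 N T3 = true → (n1 * n2 * n3 * N) ∣ Q ^ 6 →
    LK.Rel N (tri (tabc n1 N T1) (tabc n2 N T2) (tabc n3 N T3)) J

/-- the forms of a cycle -/
def Jc (K : ℕ) (P R S : ℕ → ℤ) (c : ℕ → ℕ) : List Fm :=
  (List.range K).map fun k => ⟨P k, R k, -S k, 3, -(c k : ℤ)⟩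

lemma cyc_disc {K : ℕ} {P R S : ℕ → ℤ} {c : ℕ → ℕ} (h : Cyc K P R S c) (k : ℕ) (hk : k ≤ K) :
    R k ^ 2 + 4 * P k * S k = R 0 ^ 2 + 4 * P 0 * S 0 := by
  induction k with
  | zero => rfl
  | succ k ih =>
    have := ih (by omega)
    rw [h.hP k (by omega), h.hR k (by omega), h.hS k (by omega), ← this]
    ring

theorem esys_of {m B : ℤ} (hm : 0 < m) {P R S : ℕ → ℤ} {c : ℕ → ℕ}
    (h : CG.CycM m B 6 P R S c)
    (hcl : CG.rho m B c 6 = CG.rho m B c (6 + 1) * CG.om m B)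
    (hP1 : ∀ k < 6, k ≠ 1 → P k ≠ 1)
    [IsDomain (QuadraticAlgebra ℤ m B)] [UniqueFactorizationMonoid (QuadraticAlgebra ℤ m B)]
    {d : ℕ} {b : ℤ} (hB : B = 2 * b) (hd : (d : ℤ) = b ^ 2 + m) (hd4 : d % 4 = 2 ∨ d % 4 = 3)
    {Q : ℕ} (hQ2 : Q % 2 = 1)
    (hin : ∀ p : ℕ, p.Prime → p ∣ Q → jacobiSym d p = -1) :
    ESys Q (4 * d) (Jc 6 P R S c) := by
  have hd0 : 0 < d := by omega
  have hodd : ∀ p : ℕ, p ∣ Q → p % 2 = 1 := by
    intro p hp
    obtain ⟨k, hk⟩ := hp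
    rcases Nat.mod_two_eq_zero_or_one p with h0 | h0
    · exfalso
      rw [hk, Nat.mul_mod, h0] at hQ2
      simp at hQ2
    · exact h0
  have cop : ∀ p : ℕ, p.Prime → p ∣ Q → ¬ p ∣ 4 * d := by
    intro p hp hpQ hdvd
    have h2 := hodd p hpQ
    have h1 := hin p hp hpQ
    have h3 : p ∣ d := by
      rcases hp.dvd_mul.1 hdvd with h4 | h4
      · exfalso
        have h5 : p ∣ 2 := hp.dvd_of_dvd_pow (show p ∣ 2 ^ 2 by simpa using h4)
        have h6 := Nat.le_of_dvd (by norm_num) h5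
        have h7 := hp.two_le
        omega
      · exact h4
    have h4 : jacobiSym (d : ℤ) p ≠ 0 := by rw [h1]; norm_num
    apply h4
    have : Fact p.Prime := ⟨hp⟩
    rw [← jacobiSym.legendreSym.to_jacobiSym, legendreSym.eq_zero_iff]
    have : ((d : ℕ) : ZMod p) = 0 := by rw [ZMod.natCast_eq_zero_iff]; exact h3
    exact_mod_cast this
  have hcopP : Nat.Coprime (4 * d) (Q ^ 6) := by
    apply Nat.Coprime.pow_right
    by_contra hc
    obtain ⟨p, hp, h1, h2⟩ := Nat.Prime.not_coprime_iff_dvd.1 hc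
    exact cop p hp h2 h1
  refine ⟨?_, ?_, ?_⟩
  · intro j hj
    unfold Jc at hj
    obtain ⟨k, hk, rfl⟩ := List.mem_map.1 hj
    have hk' := List.mem_range.1 hk
    have h1 := cyc_disc h.toCyc k hk'.le
    rw [h.Pm, h.RB, h.S1] at h1
    simp only
    rw [hB] at h1
    linear_combination h1 - 4 * hd
  · intro p hp hpQ
    have h1 := hin p hp hpQ
    have : Fact p.Prime := ⟨hp⟩
    have hp2 := hodd p hpQ
    have h2 : ((jacobiSym d p : ℤ) : ZMod p) = (d : ZMod p) ^ (p / 2) := by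
      rw [← jacobiSym.legendreSym.to_jacobiSym, legendreSym.eq_pow]
      push_cast
      rfl
    have h2' : (2 : ZMod p) ≠ 0 := by
      intro h0
      have h3 : ((2 : ℕ) : ZMod p) = 0 := by exact_mod_cast h0
      rw [ZMod.natCast_eq_zero_iff] at h3
      have h6 := Nat.le_of_dvd (by norm_num) h3
      have h7 := hp.two_le
      omega
    have h4 : (4 : ZMod p) ^ (p / 2) = 1 := by
      have h5 : (2 : ZMod p) ^ (p - 1) = 1 := ZMod.pow_card_sub_one_eq_one h2'
      have h6 : (4 : ZMod p) = 2 ^ 2 := by norm_num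
      rw [h6, ← pow_mul]
      have h7 : 2 * (p / 2) = p - 1 := by omega
      rw [h7, h5]
    have h3 : ((rs p (4 * d) : ℕ) : ZMod p) = 4 * (d : ZMod p) := by
      rw [rs_cast]
      push_cast
      rfl
    have h5 : (((rs p (4 * d)) ^ (p / 2) : ℕ) : ZMod p) = ((p - 1 : ℕ) : ZMod p) := by
      rw [Nat.cast_pow, h3, mul_pow, h4, one_mul, ← h2, h1, K5.cast_pred]
      push_cast
      rfl
    have h6 := (ZMod.natCast_eq_natCast_iff' _ _ p).1 h5
    have hp1 := hp.two_le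
    rw [Nat.mod_eq_of_lt (show p - 1 < p by omega)] at h6
    have h7 : Nat.mod (Nat.pow (rs p (4 * d)) (p / 2)) p = p - 1 := h6
    unfold K5.In
    rw [h7]
    exact Nat.beq_refl _
  · intro n1 n2 n3 N T1 T2 T3 _ _ _ _ _ h1 h2 h3 h4 h5
    have hNQ : N ∣ Q ^ 6 := (Dvd.intro_left _ rfl).trans h5
    have hqQ : n1 * n2 * n3 ∣ Q ^ 6 := (Dvd.intro _ rfl).trans h5
    have hQ6 : Q ^ 6 % 2 = 1 := Nat.odd_iff.1 ((Nat.odd_iff.2 hQ2).pow)
    have hodd6 : ∀ x : ℕ, x ∣ Q ^ 6 → x % 2 = 1 := by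
      intro x hx
      obtain ⟨k, hk⟩ := hx
      rcases Nat.mod_two_eq_zero_or_one x with h0 | h0
      · exfalso
        rw [hk, Nat.mul_mod, h0] at hQ6
        simp at hQ6
      · exact h0
    have hN2 := hodd6 N hNQ
    have hq2 := hodd6 _ hqQ
    have hN : 0 < N := by omega
    obtain ⟨ho, hs⟩ := K4.relOk_spec hN h1 h2 h3 h4
    have hdq : Nat.Coprime (n1 * n2 * n3) (4 * d) :=
      (Nat.Coprime.coprime_dvd_right hqQ hcopP).symm
    have hdN : Nat.Coprime (4 * d) N := Nat.Coprime.coprime_dvd_right hNQ hcopP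
    have hc := tri_char (n1 := n1) (n2 := n2) (n3 := n3) (tabCk_char h2) (tabCk_char h3)
      (tabCk_char h4)
    have key := even_T5N' m B hm h 3 rfl (by norm_num) hcl hP1 (kr_isKr hB hd) (by positivity)
      (kr_mod _) (n1 * n2 * n3) N (Nat.pos_of_ne_zero (NeZero.ne _)) hq2 hdq
      (exists_kr_neg hd0 hd4 hq2 (Nat.Coprime.coprime_mul_left_right hdq)) hN2 hdN _ ho hc.mul (by
        intro z
        linear_combination (3 * z) * hs)
    simp only [KF.range_term] at key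
    unfold LK.Rel Jc
    rw [List.map_map]
    simp only [Finset.sum_range_succ, Finset.sum_range_zero (M := ZMod N), zero_add] at key
    simp only [List.range_succ, List.range_zero, List.map_append, List.map_nil, List.map_cons,
      List.nil_append, List.sum_append, List.sum_cons, List.sum_nil, add_zero, Function.comp]
    push_cast
    linear_combination key

end Pool.Agent.PSX.Ev
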