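import Pool.Agent.RQM.C41
import Pool.Agent.PSX.EvRel

/-!
The relations in terms of tables, with arbitrary position functions.
-/

namespace Pool.Agent.PSX.Ev

open Finset Pool.Agent.LibH4 Pool.Agent.LibH4.Ker Pool.Agent.LibH4.T6 Pool.Agent.LibH4.KF
open Pool.Agent.Lib_helper5 Pool.Agent.Lib_helper5.LK Pool.Agent.Lib_helper5.TB

/-- a component with an arbitrary position function -/
structure CompG (n : ℕ) (ps : ℕ → ℕ → ℕ → ℕ) (F : List (ℕ × ℕ)) (A : ℕ → ℕ → ℕ → Bool) :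
    Prop where
  ok : ∀ P R S, P < n → R < n → S < n → A P R S = true → ∃ i, P * i % n = 1 % n ∧
    F[ps P R S]? = some (R * i % n, S * i % n)

lemma CompG.of {n ex PT : ℕ} {F : List (ℕ × ℕ)} {A : ℕ → ℕ → ℕ → Bool}
    (h : CompOK n ex PT F A) : CompG n (pos n ex PT) F A where
  ok P R S hP hR hS hA := ⟨iv n ex P, h.ok P R S hP hR hS hA⟩

/-- position of a normalised form, digits of 16 bits -/
def posW (n ex PT P R S : ℕ) : ℕ :=
  strict (iv n ex P) fun i =>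
    chw PT (Nat.add (Nat.mul n (Nat.mod (Nat.mul R i) n)) (Nat.mod (Nat.mul S i) n))

/-- check of a component -/
def compCkW (n ex PT : ℕ) (F : List (ℕ × ℕ)) (A : ℕ → ℕ → ℕ → Bool) : Bool :=
  @Bool.rec (fun _ => Bool) false
    (allR (fun P => strict (iv n ex P) fun i => allR (fun R => allR (fun S =>
      impB (A P R S) (@Bool.rec (fun _ => Bool) false
        (A (Nat.mod (nat_lit 1) n) (Nat.mod (Nat.mul R i) n) (Nat.mod (Nat.mul S i) n))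
        (Nat.beq (Nat.mod (Nat.mul P i) n) (Nat.mod (nat_lit 1) n)))) n) n) n)
    (allR (fun r => allR (fun s => impB (A (Nat.mod (nat_lit 1) n) r s)
      (nthB r s F (chw PT (Nat.add (Nat.mul n r) s)))) n) n)

lemma compCkW_spec {n ex PT : ℕ} {F : List (ℕ × ℕ)} {A : ℕ → ℕ → ℕ → Bool} (hn : 0 < n)
    (h : compCkW n ex PT F A = true) : CompG n (posW n ex PT) F A where
  ok P R S hP hR hS hA := by
    obtain ⟨h1, h2⟩ := boolrec_spec h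
    have a1 := allR_spec h2 P hP
    rw [strict_eq] at a1
    obtain ⟨a2, a3⟩ := boolrec_spec (impB_spec (allR_spec (allR_spec a1 R hR) S hS) hA)
    have a4 := Nat.eq_of_beq_eq_true a2
    refine ⟨iv n ex P, a4, ?_⟩
    have b1 := impB_spec (allR_spec (allR_spec h1 (Nat.mod (Nat.mul R (iv n ex P)) n)
      (Nat.mod_lt _ hn)) (Nat.mod (Nat.mul S (iv n ex P)) n) (Nat.mod_lt _ hn)) a3
    have b2 := nthB_spec b1
    unfold posW
    rw [strict_eq]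
    exact b2

lemma isUnit_ofG {n i : ℕ} {P : ℤ} [NeZero n] (h : rs n P * i % n = 1 % n) :
    (P : ZMod n) * (i : ℕ) = 1 := by
  have h1 := (ZMod.natCast_eq_natCast_iff' _ _ n).2 h
  rw [Nat.cast_mul, rs_cast, Nat.cast_one] at h1
  exact h1

lemma rs_invG {n i : ℕ} [NeZero n] {P P' R : ℤ} (h : (P : ZMod n) * (i : ℕ) = 1)
    (hP : (P : ZMod n) * (P' : ZMod n) = 1) : rs n (R * P') = rs n R * i % n := by
  symm
  apply rs_of
  push_cast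
  rw [rs_cast]
  have : (P' : ZMod n) = (i : ℕ) := by
    calc (P' : ZMod n) = P' * (P * (i : ℕ)) := by rw [h, mul_one]
      _ = (P * P') * (i : ℕ) := by ring
      _ = (i : ℕ) := by rw [hP, one_mul]
  rw [this]

section Rel

variable {n1 n2 n3 N h l T1 T2 T3 : ℕ} {F1 F2 F3 : List (ℕ × ℕ)} {rows : List (ℕ × ℕ)}
  {ps1 ps2 ps3 : ℕ → ℕ → ℕ → ℕ} {t1 t2 t3 : ℕ} {A1 A2 A3 : ℕ → ℕ → ℕ → Bool}
  [NeZero n1] [NeZero n2] [NeZero n3] [NeZero (n1 * n2)] [NeZero (n1 * n2 * n3)]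

/-- the sums of a form in terms of the table -/
theorem formG (H : TabOK n1 n2 n3 N h T1 T2 T3 F1 F2 F3 rows)
    (ht1 : tabCk n1 N T1 = true) (ht2 : tabCk n2 N T2 = true) (ht3 : tabCk n3 N T3 = true)
    (C1 : CompG n1 ps1 F1 A1) (C2 : CompG n2 ps2 F2 A2) (C3 : CompG n3 ps3 F3 A3)
    (P R S : ℤ) (a1 : A1 (rs n1 P) (rs n1 R) (rs n1 S) = true)
    (a2 : A2 (rs n2 P) (rs n2 R) (rs n2 S) = true) (a3 : A3 (rs n3 P) (rs n3 R) (rs n3 S) = true) :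
    KF.XX (tri (tabc n1 N T1) (tabc n2 N T2) (tabc n3 N T3)) P R S =
      ((chw T1 (rs n1 P) * chw T2 (rs n2 P) * chw T3 (rs n3 P) * (h * tX rows F3.length
        (ps1 (rs n1 P) (rs n1 R) (rs n1 S)) (ps2 (rs n2 P) (rs n2 R) (rs n2 S))
        (ps3 (rs n3 P) (rs n3 R) (rs n3 S))) : ℕ) : ZMod N) ∧
    KF.YX (tri (tabc n1 N T1) (tabc n2 N T2) (tabc n3 N T3)) P R S =
      ((chw T1 (rs n1 P) * chw T2 (rs n2 P) * chw T3 (rs n3 P) * (h * tY rows F3.length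
        (ps1 (rs n1 P) (rs n1 R) (rs n1 S)) (ps2 (rs n2 P) (rs n2 R) (rs n2 S))
        (ps3 (rs n3 P) (rs n3 R) (rs n3 S))) : ℕ) : ZMod N) := by
  have hc := tri_char (n1 := n1) (n2 := n2) (n3 := n3) (tabCk_char ht1) (tabCk_char ht2)
    (tabCk_char ht3)
  obtain ⟨j1, b1, c1⟩ := C1.ok _ _ _ (rs_lt P) (rs_lt R) (rs_lt S) a1
  obtain ⟨j2, b2, c2⟩ := C2.ok _ _ _ (rs_lt P) (rs_lt R) (rs_lt S) a2
  obtain ⟨j3, b3, c3⟩ := C3.ok _ _ _ (rs_lt P) (rs_lt R) (rs_lt S) a3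
  have u1 := isUnit_ofG b1
  have u2 := isUnit_ofG b2
  have u3 := isUnit_ofG b3
  -- inverse modulo the product
  obtain ⟨P', hP'⟩ := exists_inv (n1 := n1) (n2 := n2) (n3 := n3) u1 u2 u3
  have d1 : (P : ZMod n1) * (P' : ZMod n1) = 1 := inv_dvd hP' ⟨n2 * n3, by ring⟩
  have d2 : (P : ZMod n2) * (P' : ZMod n2) = 1 :=
    inv_dvd hP' ⟨n1 * n3, by ring⟩
  have d3 : (P : ZMod n3) * (P' : ZMod n3) = 1 := inv_dvd hP' (Dvd.intro_left _ rfl)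
  have hlen := H.len
  set i1 := ps1 (rs n1 P) (rs n1 R) (rs n1 S) with hi1
  have hi1lt : i1 < rows.length := by
    rw [← hlen]
    by_contra hcon
    rw [List.getElem?_eq_none (by omega)] at c1
    exact absurd c1 (by simp)
  have hrow : rows[i1]? = some (rows.getD i1 (0, 0)) := by
    rw [List.getD_eq_getElem?_getD, List.getElem?_eq_getElem hi1lt]
    rfl
  obtain ⟨eX, eY⟩ := H.val _ _ _ _ _ _ _ c1 c2 c3 hrow (R * P') (S * P') (rs_invG u1 d1)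
    (rs_invG u1 d1) (rs_invG u2 d2) (rs_invG u2 d2) (rs_invG u3 d3) (rs_invG u3 d3)
  have eP : tri (tabc n1 N T1) (tabc n2 N T2) (tabc n3 N T3) ((P : ℤ) : ZMod (n1 * n2 * n3)) =
      ((chw T1 (rs n1 P) * chw T2 (rs n2 P) * chw T3 (rs n3 P) : ℕ) : ZMod N) := by
    rw [tri_int]
    push_cast
    rfl
  constructor
  · rw [XX_scale _ hc.mul hP', eP, eX]
    unfold tX
    push_cast
    ring
  · rw [YX_scale _ hc.mul hP', eP, eY]
    unfold tY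
    push_cast
    ring

/-- the value of a form in the reduced relation -/
def fvalG (n1 n2 n3 l : ℕ) (ps1 ps2 ps3 : ℕ → ℕ → ℕ → ℕ) (t1 t2 t3 : ℕ) (rows : List (ℕ × ℕ))
    (len3 : ℕ) (j : Fm) : ℕ :=
  dig t1 (rs n1 j.P) * dig t2 (rs n2 j.P) * dig t3 (rs n3 j.P) *
    (j.κ * tX rows len3 (ps1 (rs n1 j.P) (rs n1 j.R) (rs n1 j.S))
      (ps2 (rs n2 j.P) (rs n2 j.R) (rs n2 j.S)) (ps3 (rs n3 j.P) (rs n3 j.R) (rs n3 j.S)) +
    rs l j.α * tY rows len3 (ps1 (rs n1 j.P) (rs n1 j.R) (rs n1 j.S))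
      (ps2 (rs n2 j.P) (rs n2 j.R) (rs n2 j.S)) (ps3 (rs n3 j.P) (rs n3 j.R) (rs n3 j.S)))

/-- **the reduced relation** -/
theorem relG (H : TabOK n1 n2 n3 N h T1 T2 T3 F1 F2 F3 rows) (hN : N = h * l) (h0 : 0 < h)
    (hl : 0 < l)
    (ht1 : tabCk n1 N T1 = true) (ht2 : tabCk n2 N T2 = true) (ht3 : tabCk n3 N T3 = true)
    (C1 : CompG n1 ps1 F1 A1) (C2 : CompG n2 ps2 F2 A2) (C3 : CompG n3 ps3 F3 A3)
    (r1 : redCk n1 T1 t1 l = true) (r2 : redCk n2 T2 t2 l = true) (r3 : redCk n3 T3 t3 l = true)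
    {J : List Fm} (a1 : ∀ j ∈ J, A1 (rs n1 j.P) (rs n1 j.R) (rs n1 j.S) = true)
    (a2 : ∀ j ∈ J, A2 (rs n2 j.P) (rs n2 j.R) (rs n2 j.S) = true)
    (a3 : ∀ j ∈ J, A3 (rs n3 j.P) (rs n3 j.R) (rs n3 j.S) = true)
    (hrel : LK.Rel N (tri (tabc n1 N T1) (tabc n2 N T2) (tabc n3 N T3)) J) :
    (J.map (fvalG n1 n2 n3 l ps1 ps2 ps3 t1 t2 t3 rows F3.length)).sum % l = 0 := by
  have : NeZero l := ⟨hl.ne'⟩
  -- the unreduced natural value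
  set g : Fm → ℕ := fun j => chw T1 (rs n1 j.P) * chw T2 (rs n2 j.P) * chw T3 (rs n3 j.P) *
    (j.κ * tX rows F3.length (ps1 (rs n1 j.P) (rs n1 j.R) (rs n1 j.S))
      (ps2 (rs n2 j.P) (rs n2 j.R) (rs n2 j.S))
      (ps3 (rs n3 j.P) (rs n3 j.R) (rs n3 j.S)) +
    rs l j.α * tY rows F3.length (ps1 (rs n1 j.P) (rs n1 j.R) (rs n1 j.S))
      (ps2 (rs n2 j.P) (rs n2 j.R) (rs n2 j.S))
      (ps3 (rs n3 j.P) (rs n3 j.R) (rs n3 j.S))) with hg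
  have hhN : ((h : ℕ) : ZMod N) * ((l : ℕ) : ZMod N) = 0 := by
    rw [← Nat.cast_mul, ← hN, ZMod.natCast_self]
  have e1 : ∀ j ∈ J, (j.κ : ZMod N) * KF.XX (tri (tabc n1 N T1) (tabc n2 N T2) (tabc n3 N T3))
      j.P j.R j.S + (j.α : ZMod N) * KF.YX (tri (tabc n1 N T1) (tabc n2 N T2) (tabc n3 N T3))
      j.P j.R j.S = ((h * g j : ℕ) : ZMod N) := by
    intro j hj
    obtain ⟨eX, eY⟩ := formG H ht1 ht2 ht3 C1 C2 C3 j.P j.R j.S (a1 j hj) (a2 j hj) (a3 j hj)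
    rw [eX, eY, hg]
    have e : (j.α : ZMod N) = ((rs l j.α : ℕ) : ZMod N) +
        (l : ZMod N) * ((j.α / l : ℤ) : ZMod N) := by
      have e1 : (rs l j.α : ℤ) = j.α % l := by
        unfold rs
        rw [ZMod.val_intCast]
      have e2 := Int.emod_add_mul_ediv j.α l
      rw [← e1] at e2
      have e3 := congrArg (fun x : ℤ => (x : ZMod N)) e2
      rw [← e3]
      push_cast
      ring
    rw [e]
    push_cast
    linear_combination (((j.α / l : ℤ) : ZMod N) * ((chw T1 (rs n1 j.P) : ℕ) : ZMod N) *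
      ((chw T2 (rs n2 j.P) : ℕ) : ZMod N) * ((chw T3 (rs n3 j.P) : ℕ) : ZMod N) *
      ((tY rows F3.length (ps1 (rs n1 j.P) (rs n1 j.R) (rs n1 j.S))
      (ps2 (rs n2 j.P) (rs n2 j.R) (rs n2 j.S))
      (ps3 (rs n3 j.P) (rs n3 j.R) (rs n3 j.S)) : ℕ) : ZMod N)) * hhN
  unfold LK.Rel at hrel
  rw [lsum_congr e1, ← cast_lsum] at hrel
  have e2 : (J.map fun j => h * g j).sum = h * (J.map g).sum := by
    rw [List.sum_map_mul_left]
  rw [e2, ZMod.natCast_eq_zero_iff, hN] at hrel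
  have e3 : l ∣ (J.map g).sum := Nat.dvd_of_mul_dvd_mul_left h0 hrel
  have e4 : (((J.map (fvalG n1 n2 n3 l ps1 ps2 ps3 t1 t2 t3 rows F3.length)).sum : ℕ) :
      ZMod l) = (((J.map g).sum : ℕ) : ZMod l) := by
    rw [cast_lsum, cast_lsum]
    apply lsum_congr
    intro j _
    rw [hg]
    unfold fvalG
    push_cast
    rw [redCk_spec r1, redCk_spec r2, redCk_spec r3]
  rw [← Nat.dvd_iff_mod_eq_zero, ← ZMod.natCast_eq_zero_iff, e4, ZMod.natCast_eq_zero_iff]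
  exact e3

end Rel

/-! ### use -/

lemma adP_J {Q : ℕ} {D : ℤ} {J : List Fm} (S : ESys Q D J) {p : ℕ} [NeZero p] (hp : p.Prime)
    (hQ : p ∣ Q) : ∀ j ∈ J, adP p (rs p j.P) (rs p j.R) (rs p j.S) = true := by
  intro j hj
  have h1 := S.inr p hp hQ
  have hd := S.disc j hj
  unfold K5.In at h1
  have e : (rs p j.R * rs p j.R + 4 * rs p j.P * (p - rs p j.S)) % p = rs p D := by
    apply rs_of
    rw [← hd]
    rw [Nat.cast_add, Nat.cast_mul, Nat.cast_mul, Nat.cast_mul, Nat.cast_sub (rs_lt j.S).le,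
      rs_cast, rs_cast, rs_cast, ZMod.natCast_self]
    push_cast
    ring
  have e' : adP p (rs p j.P) (rs p j.R) (rs p j.S) =
    Nat.beq (Nat.mod (Nat.pow ((rs p j.R * rs p j.R + 4 * rs p j.P * (p - rs p j.S)) % p)
      (p / 2)) p) (p - 1) := rfl
  rw [e', e]
  exact h1

lemma adT_J (n : ℕ) (J : List Fm) : ∀ j ∈ J, adT (rs n j.P) (rs n j.R) (rs n j.S) = true :=
  fun _ _ => rfl

/-- **use of a table** -/
theorem ESys.use {n1 n2 n3 N h l T1 T2 T3 : ℕ} {F1 F2 F3 : List (ℕ × ℕ)} {rows : List (ℕ × ℕ)}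
    {ps1 ps2 ps3 : ℕ → ℕ → ℕ → ℕ} {t1 t2 t3 : ℕ} {A1 A2 A3 : ℕ → ℕ → ℕ → Bool}
    [NeZero n1] [NeZero n2] [NeZero n3] [NeZero (n1 * n2)] [NeZero (n1 * n2 * n3)]
    {Q : ℕ} {D : ℤ} {J : List Fm} (S : ESys Q D J)
    (H : TabOK n1 n2 n3 N h T1 T2 T3 F1 F2 F3 rows)
    (ht1 : tabCk n1 N T1 = true) (ht2 : tabCk n2 N T2 = true) (ht3 : tabCk n3 N T3 = true)
    (rok : relOk n1 n2 n3 N T1 T2 T3 = true)
    (r1 : redCk n1 T1 t1 l = true) (r2 : redCk n2 T2 t2 l = true) (r3 : redCk n3 T3 t3 l = true)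
    (C1 : CompG n1 ps1 F1 A1) (C2 : CompG n2 ps2 F2 A2) (C3 : CompG n3 ps3 F3 A3)
    (hN : N = h * l) (h0 : 0 < h) (hl : 0 < l)
    (a1 : ∀ j ∈ J, A1 (rs n1 j.P) (rs n1 j.R) (rs n1 j.S) = true)
    (a2 : ∀ j ∈ J, A2 (rs n2 j.P) (rs n2 j.R) (rs n2 j.S) = true)
    (a3 : ∀ j ∈ J, A3 (rs n3 j.P) (rs n3 j.R) (rs n3 j.S) = true)
    (hQ : n1 * n2 * n3 * N ∣ Q ^ 6) :
    (J.map (fvalG n1 n2 n3 l ps1 ps2 ps3 t1 t2 t3 rows F3.length)).sum % l = 0 :=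
  relG H hN h0 hl ht1 ht2 ht3 C1 C2 C3 r1 r2 r3 a1 a2 a3
    (S.rel n1 n2 n3 N T1 T2 T3 rok ht1 ht2 ht3 hQ)

end Pool.Agent.PSX.Ev
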