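import Pool.Agent.PSX.StG

/-!
# Period six, the ghost line: the ghost identity of the halves
-/

set_option autoImplicit false

namespace Pool.Agent.PSX

open Finset (range)
open Pool.Agent.P4G (Fam QN FN FZ CC CR)
open Pool.Agent.RDF (β γ δ)

namespace M_AFA

theorem halves {Q : ℕ} [NeZero Q] {M : Type*} [CommRing M] (F : ZMod Q → M) (g μ : ℤ) :
    A3 F 0 g μ + B3 F 0 g μ = R6 F 1 (-1) (1 + g) (1 + g - 2) μ (1 + g - 1 - μ) (-1) := by
  unfold A3 B3 R6
  have i1 : (1 + g - 2 : ℤ) = -1 + g := by ring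
  have i2 : (1 + g - 1 - μ : ℤ) = -μ + g := by ring
  have i3 : (2 * 1 * μ - (-1 + g) : ℤ) = 2 * μ + 1 - g := by ring
  have i4 : ((1 + g) * (-1) : ℤ) = -1 - g := by ring
  rw [i1, i2, i3, i4]
  simp only [mul_zero, add_zero, sub_zero]
  ring

end M_AFA

theorem t_AFA (hGHF : Stmt_GHF) (hBSY : Stmt_BSY) (hUNI : Stmt_UNI) : Stmt_AFA := by
  intro l q0 n e e0 ψ _ hF
  have h1 : ∀ g μ : ℤ, A3 (FZ l q0 n e ψ) 0 g μ + A3 (FZ l q0 n e ψ) 0 (-g) (μ - g) = 0 := by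
    intro g μ
    have h2 := hGHF l q0 n e e0 ψ hF (1 + g) μ
    rw [← M_AFA.halves] at h2
    have h3 := hBSY l q0 n e ψ hF.fam 0 g μ (by simp) (by simp)
    have h4 := (hUNI l q0 n e e0 ψ hF).2.1
    simp only [mul_zero, sub_zero, neg_zero, add_zero] at h3
    rw [h4, one_mul] at h3
    rw [← h3]
    exact h2
  refine ⟨h1, fun μ => ?_⟩
  have h2 := h1 0 μ
  rw [neg_zero, sub_zero, ← two_mul] at h2
  have hu : IsUnit (2 : ZMod (l ^ (n + 1))) := by
    have h3 : Nat.Coprime 2 (l ^ (n + 1)) := by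
      apply Nat.Coprime.pow_right
      rw [Nat.coprime_two_left]
      exact Nat.odd_iff.2 hF.fam.lo
    have h4 := (ZMod.isUnit_iff_coprime 2 (l ^ (n + 1))).2 h3
    exact_mod_cast h4
  exact (hu.mul_right_eq_zero).1 h2

end Pool.Agent.PSX
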