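import Pool.Agent.PSX.StG

/-!
# The bounded form of the cycle of length six
-/

set_option autoImplicit false
set_option linter.unusedSimpArgs false

namespace Pool.Agent.PSX

open Finset (range)
open Pool.Agent.P4G (Fam QN FN FZ CC CR)
open Pool.Agent.RDF (β γ δ)

namespace M_BFS

/-- a sequence with given first seven values -/
def sq {A : Type} (x0 x1 x2 x3 x4 x5 x6 : A) : ℕ → A
  | 0 => x0
  | 1 => x1
  | 2 => x2
  | 3 => x3
  | 4 => x4
  | 5 => x5
  | _ => x6

section vals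
variable {A : Type} (x0 x1 x2 x3 x4 x5 x6 : A)
theorem sq0 : sq x0 x1 x2 x3 x4 x5 x6 0 = x0 := rfl
theorem sq1 : sq x0 x1 x2 x3 x4 x5 x6 1 = x1 := rfl
theorem sq2 : sq x0 x1 x2 x3 x4 x5 x6 2 = x2 := rfl
theorem sq3 : sq x0 x1 x2 x3 x4 x5 x6 3 = x3 := rfl
theorem sq4 : sq x0 x1 x2 x3 x4 x5 x6 4 = x4 := rfl
theorem sq5 : sq x0 x1 x2 x3 x4 x5 x6 5 = x5 := rfl
theorem sq6 : sq x0 x1 x2 x3 x4 x5 x6 6 = x6 := rfl
end vals

end M_BFS

open M_BFS in
theorem t_BFS (hBFD : Stmt_BFD) : Stmt_BFS := by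
  intro Q _ hQ f hf a b c B m r p h
  have e1 : (r : ZMod Q) = 1 + B * a - m * (a : ZMod Q) ^ 2 := by
    have := congrArg (Int.cast : ℤ → ZMod Q) h.e1
    push_cast at this
    exact this
  have e2 : (p : ZMod Q) = m + (2 * a * m - B) * b - r * (b : ZMod Q) ^ 2 := by
    have := congrArg (Int.cast : ℤ → ZMod Q) h.e2
    push_cast at this
    exact this
  have e3 : (c : ZMod Q) * p = 2 * b * r - 2 * a * m + B := by
    have := congrArg (Int.cast : ℤ → ZMod Q) h.e3
    push_cast at this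
    exact this
  have key := hBFD Q hQ f hf 6
    (sq (m : ZMod Q) 1 m r p r m)
    (sq (B : ZMod Q) B ((2 * a * m - B : ℤ) : ZMod Q) ((c * p : ℤ) : ZMod Q)
      ((c * p : ℤ) : ZMod Q) ((2 * a * m - B : ℤ) : ZMod Q) B)
    (sq (1 : ZMod Q) m r p r m 1)
    (sq B a b c b a 0) (by
      intro k hk
      interval_cases k
      · refine ⟨rfl, ?_, ?_⟩ <;> simp only [zero_add, Nat.reduceAdd, sq0, sq1, sq2, sq3, sq4, sq5, sq6] <;> ring
      · refine ⟨rfl, ?_, ?_⟩ <;> simp only [zero_add, Nat.reduceAdd, sq0, sq1, sq2, sq3, sq4, sq5, sq6]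
        · push_cast; ring
        · linear_combination e1
      · refine ⟨rfl, ?_, ?_⟩ <;> simp only [zero_add, Nat.reduceAdd, sq0, sq1, sq2, sq3, sq4, sq5, sq6] <;> push_cast
        · linear_combination e3
        · linear_combination e2
      · refine ⟨rfl, ?_, ?_⟩ <;> simp only [zero_add, Nat.reduceAdd, sq0, sq1, sq2, sq3, sq4, sq5, sq6] <;> push_cast <;> ring
      · refine ⟨rfl, ?_, ?_⟩ <;> simp only [zero_add, Nat.reduceAdd, sq0, sq1, sq2, sq3, sq4, sq5, sq6] <;> push_cast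
        · linear_combination e3
        · linear_combination -e2 - (b : ZMod Q) * e3
      · refine ⟨rfl, ?_, ?_⟩ <;> simp only [zero_add, Nat.reduceAdd, sq0, sq1, sq2, sq3, sq4, sq5, sq6] <;> push_cast
        · ring
        · linear_combination -e1) rfl rfl rfl
  simp only [Finset.sum_range_succ, Finset.sum_range_zero, sq0, sq1, sq2, sq3, sq4, sq5, zero_add] at key
  simp only [L6, R6]
  linear_combination key

end Pool.Agent.PSX
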