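import Pool.Agent.PSX.StG

/-!
# Period six, the ghost line: the second half by symmetry (BSY)
-/

set_option autoImplicit false

namespace Pool.Agent.PSX

open Finset (range)
open Pool.Agent.P4G (Fam QN FN FZ CC CR)
open Pool.Agent.RDF (β γ δ)

/-- **BSY** -/
theorem t_BSY (hSYM : Stmt_SYM) : Stmt_BSY := by
  intro l q0 n e ψ _ hF τ γ μ h1 h2
  have t2 : (τ : ZMod (QN l q0 n)) ^ 2 = 0 := by
    have := (ZMod.intCast_zmod_eq_zero_iff_dvd (τ ^ 2) (QN l q0 n)).2 h1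
    push_cast at this
    exact this
  have tg : (τ : ZMod (QN l q0 n)) * (γ : ZMod (QN l q0 n)) = 0 := by
    have := (ZMod.intCast_zmod_eq_zero_iff_dvd (τ * γ) (QN l q0 n)).2 h2
    push_cast at this
    exact this
  set μ' : ℤ := μ - γ + (1 + 4 * μ) * τ with hμ'
  have hp : FN l n e ψ (1 - 2 * τ) = - FN l n e ψ (-1 + 2 * τ) := by
    rw [← hF.FN_neg]
    congr 1
    ring
  have s1 := hSYM l q0 n e ψ hF (-1 + 2 * τ) (μ' : ZMod (QN l q0 n))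
    ((-1 + -γ : ℤ) : ZMod (QN l q0 n)) 1 (-1 + -γ)
  have s2 := hSYM l q0 n e ψ hF (-1 + 2 * τ) 1
    ((-1 + -γ : ℤ) : ZMod (QN l q0 n)) (μ' : ZMod (QN l q0 n)) (1 + -τ)
  have s3 := hSYM l q0 n e ψ hF (-1 + 2 * τ) (μ' : ZMod (QN l q0 n))
    ((2 * μ' + 1 - -γ + 2 * μ' * -τ : ℤ) : ZMod (QN l q0 n))
    ((-μ' + -γ - (1 + 2 * μ') * -τ : ℤ) : ZMod (QN l q0 n)) (-1 + -τ)
  have a1 : ((-1 + 2 * τ : ℤ) : ZMod (QN l q0 n)) * (μ' : ZMod (QN l q0 n)) =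
      ((-μ + γ - (1 + 2 * μ) * τ : ℤ) : ZMod (QN l q0 n)) := by
    rw [hμ']
    push_cast
    linear_combination (2 + 8 * (μ : ZMod (QN l q0 n))) * t2 - 2 * tg
  have a2 : -(((-1 + 2 * τ : ℤ) : ZMod (QN l q0 n)) * ((-1 + -γ : ℤ) : ZMod (QN l q0 n))) =
      ((-1 - γ + 2 * τ : ℤ) : ZMod (QN l q0 n)) := by
    push_cast
    linear_combination 2 * tg
  have a3 : -(((-1 + 2 * τ : ℤ) : ZMod (QN l q0 n)) *
      ((2 * μ' + 1 - -γ + 2 * μ' * -τ : ℤ) : ZMod (QN l q0 n))) =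
      ((2 * μ + 1 - γ + 2 * μ * τ : ℤ) : ZMod (QN l q0 n)) := by
    rw [hμ']
    push_cast
    have t3 : (τ : ZMod (QN l q0 n)) ^ 3 = 0 := by
      rw [pow_succ, t2, zero_mul]
    ring_nf
    simp only [t2, t3, tg]
    ring
  have a4 : ((-1 + 2 * τ : ℤ) : ZMod (QN l q0 n)) *
      ((-μ' + -γ - (1 + 2 * μ') * -τ : ℤ) : ZMod (QN l q0 n)) = (μ : ZMod (QN l q0 n)) := by
    rw [hμ']
    push_cast
    have t3 : (τ : ZMod (QN l q0 n)) ^ 3 = 0 := by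
      rw [pow_succ, t2, zero_mul]
    ring_nf
    simp only [t2, t3, tg]
    ring
  rw [a1, a2, mul_one] at s1
  rw [a1, a2, mul_one] at s2
  rw [a1, a3, a4] at s3
  have b1 : -(-1 + -γ) = 1 + γ := by ring
  have b2 : -(1 + -τ) = -1 + τ := by ring
  have b3 : -(-1 + -τ) = 1 + τ := by ring
  rw [b1] at s1
  rw [b2] at s2
  rw [b3] at s3
  rw [hp]
  unfold B3 A3
  rw [s1, s2, s3]
  ring

end Pool.Agent.PSX
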