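import Pool.Agent.PSX.StG

/-!
# Period six, the ghost line: the ghost word in the residue ring (module GHF)
-/

set_option autoImplicit false

namespace Pool.Agent.PSX

open Finset (range)
open Pool.Agent.P4G (Fam QN FN FZ CC CR)
open Pool.Agent.RDF (β γ δ)

namespace M_GHF

variable {Q : ℕ} [NeZero Q] {M : Type*} [CommRing M]

theorem Es_cast (f : ZMod Q → ℤ) (P R S : ZMod Q) (c : ℤ) :
    ((Es f P R S c : ℤ) : M) = Es (fun z => ((f z : ℤ) : M)) P R S c := by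
  unfold Es
  simp only [Int.cast_sum, Int.cast_mul, Int.cast_id]

theorem Z0_cast (f : ZMod Q → ℤ) (S : ZMod Q) :
    ((Z0 f S : ℤ) : M) = Z0 (fun z => ((f z : ℤ) : M)) S := by
  unfold Z0
  simp only [Int.cast_sum]

theorem R6_cast (f : ZMod Q → ℤ) (a b c B m r p : ℤ) :
    ((R6 f a b c B m r p : ℤ) : M) = R6 (fun z => ((f z : ℤ) : M)) a b c B m r p := by
  unfold R6
  simp only [Int.cast_add, Es_cast]

end M_GHF

open M_GHF in
theorem t_GHF (hBFS : Stmt_BFS) (hGHL : Stmt_GHL) (hZSQ : Stmt_ZSQ) (hLFT : Stmt_LFT) :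
    Stmt_GHF := by
  intro l q0 n e e0 ψ hne hF c m
  obtain ⟨f, hodd, hf⟩ := hLFT l q0 n e ψ hF.fam
  have hQ := hF.fam.Qodd
  have hcl : Cl 1 (-1) c (c - 2) m (c - 1 - m) (-1) := ⟨by ring, by ring, by ring⟩
  have h1 := hBFS (QN l q0 n) hQ f hodd 1 (-1) c (c - 2) m (c - 1 - m) (-1) hcl
  have hsm : ∀ z, sm f (-z) = - sm f z := by
    intro z
    unfold sm
    have e1 : (4 : ZMod (QN l q0 n)) * -z = -(4 * z) := by ring
    rw [e1, hodd, hodd]
    ring
  have h2 := hGHL (QN l q0 n) (sm f) hsm c m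
  rw [h2] at h1
  have hQ0 : (3 * (QN l q0 n : ℤ) ^ 2) ≠ 0 := by
    have h3 : (QN l q0 n : ℤ) ≠ 0 := by exact_mod_cast hne.out
    exact mul_ne_zero (by norm_num) (pow_ne_zero 2 h3)
  have h3 := (mul_eq_zero.1 h1.symm).resolve_left hQ0
  have h4 := congrArg (Int.cast : ℤ → ZMod (l ^ (n + 1))) h3
  have hfz : (fun z => ((f z : ℤ) : ZMod (l ^ (n + 1)))) = FZ l q0 n e ψ := funext hf
  have hz := hZSQ l q0 n e e0 ψ hF
  rw [Int.cast_sub, R6_cast, hfz, Int.cast_zero] at h4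
  simp only [Int.cast_add, Int.cast_mul, Z0_cast, hfz, hz, mul_zero, add_zero, sub_zero] at h4
  exact h4

end Pool.Agent.PSX
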