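import Pool.Agent.PSX.StG

/-!
# Period six, module GHL: the cone sum of the ghost word vanishes
-/

set_option autoImplicit false

namespace Pool.Agent.PSX

open Finset (range)
open Pool.Agent.P4G (Fam QN FN FZ CC CR)
open Pool.Agent.RDF (β γ δ)

namespace M_GHL

variable {Q : ℕ} [NeZero Q]

theorem term_pos (f : ZMod Q → ℤ) (P R S P0 R0 S0 : ZMod Q) (c : ℤ)
    (e : ZMod Q × ZMod Q ≃ ZMod Q × ZMod Q)
    (he : ∀ x y, ev P R S (e (x, y)).1 (e (x, y)).2 = ev P0 R0 S0 x y) :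
    3 * XA f P R S - c * YA f P R S = ∑ x : ZMod Q, ∑ y : ZMod Q, f (ev P0 R0 S0 x y) *
      (3 * (β (e (x, y)).1 * β (e (x, y)).2) - c * γ (e (x, y)).1) := by
  have hX : XA f P R S = ∑ x : ZMod Q, ∑ y : ZMod Q, f (ev P0 R0 S0 x y) *
      (β (e (x, y)).1 * β (e (x, y)).2) := by
    unfold XA
    rw [RDF.sum2_equiv e]
    refine Finset.sum_congr rfl fun x _ => Finset.sum_congr rfl fun y _ => ?_
    rw [he]
  have hY : YA f P R S = ∑ x : ZMod Q, ∑ y : ZMod Q, f (ev P0 R0 S0 x y) *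
      γ (e (x, y)).1 := by
    unfold YA
    rw [RDF.sum2_equiv e]
    refine Finset.sum_congr rfl fun x _ => Finset.sum_congr rfl fun y _ => ?_
    rw [he]
  rw [hX, hY, Finset.mul_sum, Finset.mul_sum, ← Finset.sum_sub_distrib]
  refine Finset.sum_congr rfl fun x _ => ?_
  rw [Finset.mul_sum, Finset.mul_sum, ← Finset.sum_sub_distrib]
  refine Finset.sum_congr rfl fun y _ => ?_
  ring

theorem term_neg (f : ZMod Q → ℤ) (hf : ∀ z, f (-z) = - f z) (P R S P0 R0 S0 : ZMod Q) (c : ℤ)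
    (e : ZMod Q × ZMod Q ≃ ZMod Q × ZMod Q)
    (he : ∀ x y, ev P R S (e (x, y)).1 (e (x, y)).2 = -ev P0 R0 S0 x y) :
    3 * XA f P R S - c * YA f P R S = ∑ x : ZMod Q, ∑ y : ZMod Q, f (ev P0 R0 S0 x y) *
      (-(3 * (β (e (x, y)).1 * β (e (x, y)).2) - c * γ (e (x, y)).1)) := by
  have hX : XA f P R S = ∑ x : ZMod Q, ∑ y : ZMod Q, -(f (ev P0 R0 S0 x y)) *
      (β (e (x, y)).1 * β (e (x, y)).2) := by
    unfold XA
    rw [RDF.sum2_equiv e]
    refine Finset.sum_congr rfl fun x _ => Finset.sum_congr rfl fun y _ => ?_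
    rw [he, hf]
  have hY : YA f P R S = ∑ x : ZMod Q, ∑ y : ZMod Q, -(f (ev P0 R0 S0 x y)) *
      γ (e (x, y)).1 := by
    unfold YA
    rw [RDF.sum2_equiv e]
    refine Finset.sum_congr rfl fun x _ => Finset.sum_congr rfl fun y _ => ?_
    rw [he, hf]
  rw [hX, hY, Finset.mul_sum, Finset.mul_sum, ← Finset.sum_sub_distrib]
  refine Finset.sum_congr rfl fun x _ => ?_
  rw [Finset.mul_sum, Finset.mul_sum, ← Finset.sum_sub_distrib]
  refine Finset.sum_congr rfl fun y _ => ?_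
  ring

def e1 (c : ZMod Q) : ZMod Q × ZMod Q ≃ ZMod Q × ZMod Q where
  toFun p := (p.2 - (c - 2) * p.1, p.1)
  invFun p := (p.2, p.1 + (c - 2) * p.2)
  left_inv p := Prod.ext rfl (by show p.2 - (c - 2) * p.1 + (c - 2) * p.1 = p.2; ring)
  right_inv p := Prod.ext (by show p.1 + (c - 2) * p.2 - (c - 2) * p.2 = p.1; ring) rfl

def e2 (c : ZMod Q) : ZMod Q × ZMod Q ≃ ZMod Q × ZMod Q where
  toFun p := ((c - 1) * p.1 - p.2, p.2 - (c - 2) * p.1)
  invFun p := (p.1 + p.2, p.2 + (c - 2) * (p.1 + p.2))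
  left_inv p := Prod.ext
    (by show (c - 1) * p.1 - p.2 + (p.2 - (c - 2) * p.1) = p.1; ring)
    (by
      show p.2 - (c - 2) * p.1 + (c - 2) * ((c - 1) * p.1 - p.2 + (p.2 - (c - 2) * p.1)) = p.2
      ring)
  right_inv p := Prod.ext
    (by show (c - 1) * (p.1 + p.2) - (p.2 + (c - 2) * (p.1 + p.2)) = p.1; ring)
    (by show p.2 + (c - 2) * (p.1 + p.2) - (c - 2) * (p.1 + p.2) = p.2; ring)

def e3 (c : ZMod Q) : ZMod Q × ZMod Q ≃ ZMod Q × ZMod Q where
  toFun p := (p.1, (c - 1) * p.1 - p.2)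
  invFun p := (p.1, (c - 1) * p.1 - p.2)
  left_inv p := Prod.ext rfl (by show (c - 1) * p.1 - ((c - 1) * p.1 - p.2) = p.2; ring)
  right_inv p := Prod.ext rfl (by show (c - 1) * p.1 - ((c - 1) * p.1 - p.2) = p.2; ring)

def e4 : ZMod Q × ZMod Q ≃ ZMod Q × ZMod Q where
  toFun p := (-(p.1 + p.2), p.1)
  invFun p := (p.2, -(p.1 + p.2))
  left_inv p := Prod.ext rfl (by show -(-(p.1 + p.2) + p.1) = p.2; ring)
  right_inv p := Prod.ext (by show -(p.2 + -(p.1 + p.2)) = p.1; ring) rfl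

def e5 : ZMod Q × ZMod Q ≃ ZMod Q × ZMod Q where
  toFun p := (-p.2, -(p.1 + p.2))
  invFun p := (p.1 - p.2, -p.1)
  left_inv p := Prod.ext (by show -p.2 - -(p.1 + p.2) = p.1; ring) (by show - -p.2 = p.2; ring)
  right_inv p := Prod.ext (by show - -p.1 = p.1; ring)
    (by show -(p.1 - p.2 + -p.1) = p.2; ring)

end M_GHL

open M_GHL in
theorem t_GHL : Stmt_GHL := by
  intro Q _ f hf c m
  have f0 : f 0 = 0 := by
    have := hf 0
    rw [neg_zero] at this
    omega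
  unfold L6
  rw [term_pos f _ _ _ (m : ZMod Q) ((c - 2 : ℤ) : ZMod Q) 1 (c - 2) (Equiv.refl _)
      (fun x y => rfl),
    term_neg f hf 1 ((c - 2 : ℤ) : ZMod Q) (m : ZMod Q) (m : ZMod Q) ((c - 2 : ℤ) : ZMod Q) 1
      1 (e1 (c : ZMod Q)) (fun x y => by
        simp only [e1, Equiv.coe_fn_mk, ev]
        push_cast
        ring),
    term_pos f (m : ZMod Q) _ _ (m : ZMod Q) ((c - 2 : ℤ) : ZMod Q) 1 (-1) (e2 (c : ZMod Q))
      (fun x y => by
        simp only [e2, Equiv.coe_fn_mk, ev]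
        push_cast
        ring),
    term_neg f hf ((c - 1 - m : ℤ) : ZMod Q) _ ((-1 : ℤ) : ZMod Q) (m : ZMod Q)
      ((c - 2 : ℤ) : ZMod Q) 1 c (e3 (c : ZMod Q)) (fun x y => by
        simp only [e3, Equiv.coe_fn_mk, ev]
        push_cast
        ring),
    term_pos f ((-1 : ℤ) : ZMod Q) _ ((c - 1 - m : ℤ) : ZMod Q) (m : ZMod Q)
      ((c - 2 : ℤ) : ZMod Q) 1 (-1) e4 (fun x y => by
        simp only [e4, Equiv.coe_fn_mk, ev]
        push_cast
        ring),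
    term_neg f hf ((c - 1 - m : ℤ) : ZMod Q) _ (m : ZMod Q) (m : ZMod Q)
      ((c - 2 : ℤ) : ZMod Q) 1 1 e5 (fun x y => by
        simp only [e5, Equiv.coe_fn_mk, ev]
        push_cast
        ring)]
  rw [← Finset.sum_add_distrib, ← Finset.sum_add_distrib, ← Finset.sum_add_distrib,
    ← Finset.sum_add_distrib, ← Finset.sum_add_distrib]
  refine Finset.sum_eq_zero fun x _ => ?_
  rw [← Finset.sum_add_distrib, ← Finset.sum_add_distrib, ← Finset.sum_add_distrib,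
    ← Finset.sum_add_distrib, ← Finset.sum_add_distrib]
  refine Finset.sum_eq_zero fun y _ => ?_
  simp only [e1, e2, e3, e4, e5, Equiv.coe_fn_mk, Equiv.refl_apply]
  by_cases h : x = 0 ∧ y = 0
  · obtain ⟨rfl, rfl⟩ := h
    have h0 : ev (m : ZMod Q) ((c - 2 : ℤ) : ZMod Q) 1 0 0 = 0 := by
      unfold ev
      ring
    rw [h0, f0]
    ring
  · have t1 := RDF.three_term h
    have h' : ¬ (y - ((c : ZMod Q) - 2) * x = 0 ∧ ((c : ZMod Q) - 1) * x - y = 0) := by
      rintro ⟨ha, hb⟩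
      have hx : x = 0 := by linear_combination ha + hb
      have hy : y = 0 := by
        rw [hx] at ha
        linear_combination ha
      exact h ⟨hx, hy⟩
    have t2 := RDF.three_term h'
    have hs : y - ((c : ZMod Q) - 2) * x + (((c : ZMod Q) - 1) * x - y) = x := by ring
    rw [hs] at t2
    rw [RDF.β_neg, RDF.β_neg, RDF.γ_neg, RDF.γ_neg]
    push_cast
    linear_combination (f (ev (m : ZMod Q) ((c : ZMod Q) - 2) 1 x y)) * (t1 + t2)

end Pool.Agent.PSX
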