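import Pool.Agent.PSX.StG

/-!
# The symmetry of edge sums
-/

set_option autoImplicit false

namespace Pool.Agent.PSX

open Finset (range)
open Pool.Agent.P4G (Fam QN FN FZ CC CR)
open Pool.Agent.RDF (β γ δ)

theorem t_SYM (hNUS : Stmt_NUS) : Stmt_SYM := by
  intro l q0 n e ψ _ h p P R S c
  have hW := (hNUS (QN l q0 n)).2.2 h.Qodd c
  unfold Es
  rw [Finset.mul_sum, ← Finset.sum_neg_distrib]
  refine Finset.sum_congr rfl fun x _ => ?_
  rw [Finset.mul_sum, ← Finset.sum_neg_distrib, ← Equiv.sum_comp (Equiv.neg (ZMod (QN l q0 n)))]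
  refine Finset.sum_congr rfl fun y _ => ?_
  rw [Equiv.neg_apply, hW x y]
  have h1 : ev ((p : ZMod (QN l q0 n)) * P) (-((p : ZMod (QN l q0 n)) * R))
      ((p : ZMod (QN l q0 n)) * S) x (-y) = (p : ZMod (QN l q0 n)) * ev P R S x y := by
    unfold ev
    ring
  rw [h1, h.FZ_mul]
  push_cast
  ring

end Pool.Agent.PSX
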