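import Pool.Agent.PSX.StG

/-!
# Period six, the ghost line: module PPO
-/

set_option autoImplicit false

namespace Pool.Agent.PSX

open Finset (range)
open Pool.Agent.P4G (Fam QN FN FZ CC CR)
open Pool.Agent.RDF (β γ δ)

namespace M_PPO

theorem pow_exp (e : ℕ) (u v : ℤ) : ∃ s : ℤ, (u + v) ^ e = u ^ e + e * u ^ (e - 1) * v + v ^ 2 * s := by
  obtain ⟨k, hk⟩ := Polynomial.powAddExpansion u v e
  exact ⟨k, by rw [hk]; ring⟩

theorem psi_congr {l q0 n e : ℕ} {ψ : ℤ → ℤ} (h : Fam l q0 n e ψ) {a b : ℤ}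
    (hab : (q0 : ℤ) ∣ a - b) : ψ a = ψ b := by
  obtain ⟨t, ht⟩ := hab
  have h1 : a = b + t * q0 := by linear_combination ht
  rw [h1, h.ψper]

end M_PPO

/-- PPO. -/
theorem t_PPO : Stmt_PPO := by
  intro l q0 n e ψ h
  refine ⟨?_, ?_, ?_, ?_, ?_⟩
  · intro P R S x u w
    refine ⟨Polynomial.C (P * x ^ 2) + Polynomial.C (R * x) *
      (Polynomial.C u + Polynomial.C w * Polynomial.X) -
      Polynomial.C S * (Polynomial.C u + Polynomial.C w * Polynomial.X) ^ 2,
      (Polynomial.C (P * x ^ 2) + Polynomial.C (R * x) *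
      (Polynomial.C u + Polynomial.C w * Polynomial.X) -
      Polynomial.C S * (Polynomial.C u + Polynomial.C w * Polynomial.X) ^ 2) ^ e, fun j => ?_⟩
    simp only [Polynomial.eval_pow, Polynomial.eval_sub, Polynomial.eval_add, Polynomial.eval_mul,
      Polynomial.eval_C, Polynomial.eval_X]
    unfold FN evZ
    rw [Int.cast_pow]
  · intro P R S x C
    refine ⟨Polynomial.C (P * x ^ 2) + Polynomial.C (R * x) * Polynomial.X -
      Polynomial.C S * Polynomial.X ^ 2,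
      Polynomial.C (e : ℤ) * (Polynomial.C (P * x ^ 2) + Polynomial.C (R * x) * Polynomial.X -
      Polynomial.C S * Polynomial.X ^ 2) ^ (e - 1) * C, fun j => ?_⟩
    simp only [Polynomial.eval_pow, Polynomial.eval_sub, Polynomial.eval_add, Polynomial.eval_mul,
      Polynomial.eval_C, Polynomial.eval_X]
    unfold F1 evZ
    push_cast
    ring
  · rintro G s ⟨A, B, hG⟩ j w
    have h1 : (j + (q0 * l ^ s : ℕ) * w) - j ∣
        A.eval (j + (q0 * l ^ s : ℕ) * w) - A.eval j := Polynomial.sub_dvd_eval_sub _ _ _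
    have h2 : (j + (q0 * l ^ s : ℕ) * w) - j ∣
        B.eval (j + (q0 * l ^ s : ℕ) * w) - B.eval j := Polynomial.sub_dvd_eval_sub _ _ _
    have h3 : (j + (q0 * l ^ s : ℕ) * w) - j = q0 * (l ^ s * w) := by push_cast; ring
    rw [h3] at h1 h2
    have h4 := M_PPO.psi_congr h ((Dvd.intro _ rfl).trans h1)
    obtain ⟨k, hk⟩ := h2
    refine ⟨((ψ (A.eval j) : ℤ) : ZMod (l ^ (n + 1))) * (q0 * w * k : ℤ), ?_⟩
    rw [hG, hG, h4]
    have h5 : B.eval (j + (q0 * l ^ s : ℕ) * w) = B.eval j + q0 * (l ^ s * w) * k := by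
      linear_combination hk
    rw [h5]
    push_cast
    ring
  · intro N hN u w
    obtain ⟨s, hs⟩ := M_PPO.pow_exp e u (N * w)
    refine ⟨((ψ u : ℤ) : ZMod (l ^ (n + 1))) * (w ^ 2 * s : ℤ), ?_⟩
    have h1 : ψ (u + N * w) = ψ u := by
      apply M_PPO.psi_congr h
      rw [add_sub_cancel_left]
      exact (Int.natCast_dvd_natCast.2 hN).mul_right w
    have h2 := congrArg (Int.cast : ℤ → ZMod (l ^ (n + 1))) hs
    unfold FN F1
    rw [h1]
    push_cast at h2 ⊢
    rw [h2]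
    ring
  · intro N hN u w
    have h1 : ψ (u + N * w) = ψ u := by
      apply M_PPO.psi_congr h
      rw [add_sub_cancel_left]
      exact (Int.natCast_dvd_natCast.2 hN).mul_right w
    have h2 : (u + N * w) - u ∣ (u + N * w) ^ (e - 1) - u ^ (e - 1) := sub_dvd_pow_sub_pow _ _ _
    rw [add_sub_cancel_left] at h2
    obtain ⟨k, hk⟩ := h2
    refine ⟨(e : ZMod (l ^ (n + 1))) * (((ψ u : ℤ) : ZMod (l ^ (n + 1))) * (w * k : ℤ)), ?_⟩
    have h3 := congrArg (Int.cast : ℤ → ZMod (l ^ (n + 1))) hk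
    unfold F1
    rw [h1]
    push_cast at h3 ⊢
    linear_combination ((e : ZMod (l ^ (n + 1))) * ((ψ u : ℤ) : ZMod (l ^ (n + 1)))) * h3

end Pool.Agent.PSX
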