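import Pool.Agent.PSX.GDefs

/-!
# Period six, the ghost line: statements

Each `Stmt_XXX` is proved in its own module as `theorem t_XXX : Stmt_XXX`, with the statements it
uses as hypotheses.  The doc-string of a statement is its proof.  Conventions: `v = n + 1`,
`Q = QN l q0 n = q0 l^v`, `M = ZMod (l^v)`, `F = FN l n e ψ`, `F' = F1 l n e ψ`,
`φ(x,y) = evZ P R S x y`.  In `M` one has `l^v = 0`, hence `Q = 0`.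
-/

set_option autoImplicit false

namespace Pool.Agent.PSX

open Finset (range)
open Pool.Agent.P4G (Fam QN FN FZ CC CR)
open Pool.Agent.RDF (β γ δ)

/-- **NUS**, the weights.
(i) `β(u) = Q - 2|u|` for `u ≠ 0` and `β(0) = 0`, so `β(u) ≡ -2u` modulo `Q` (cast to `ZMod Q`), and
`β(y) - cβ(x) - β(y-cx)` casts to `-2y + 2cx + 2(y-cx) = 0`, so `Q` divides it and
`Int.mul_ediv_cancel'` applies. (ii) `|-u| = Q - |u|` for `u ≠ 0` and `Q` is odd. (iii) from `RDF.β_neg`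
the numerator of `nu (-c) x (-y)` is minus the numerator of `nu c x y`; the division is exact by (i). -/
def Stmt_NUS : Prop := ∀ (Q : ℕ) [NeZero Q],
    (∀ (c : ℤ) (x y : ZMod Q), (Q : ℤ) * nu c x y = β y - c * β x - β (y - (c : ZMod Q) * x)) ∧
    (Q % 2 = 1 → ∀ x : ZMod Q, sg (-x) = - sg x) ∧
    (Q % 2 = 1 → ∀ (c : ℤ) (x y : ZMod Q), W (-c) x (-y) = - W c x y)

/-- **DBL**, doubling. Write `sm f = 4 f(4 .) - f`. Since `4 φ(x,y) = φ(2x,2y)` and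
`(x,y) ↦ (2x,2y)` is a bijection (`RDF.eqD hQ`, `RDF.sum2_equiv`), it is enough to show for all
residues `z`: `2 β(z) = β(2z) + Q sg(2z)` and `4 γ(z) - γ(2z) = 3 Q δ(2z)` (this is `RDF.four_γ`), and
`δ(x) = sg x * β x + (if x = 0 then Q else 0)`. First one: `|2z| = 2|z|` if `2|z| < Q` (then
`sg(2z) = 1` unless `z = 0`), and `2|z| - Q` otherwise (odd, nonzero, `sg = -1`).
Then `4 f(4φ(x,y)) β(x) β(y) = f(φ(2x,2y)) (β(2x)+Q sg(2x)) (β(2y)+Q sg(2y))`; expand, subtract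
`f(φ) β β`. -/
def Stmt_DBL : Prop := ∀ (Q : ℕ) [NeZero Q], Q % 2 = 1 → ∀ (f : ZMod Q → ℤ) (P R S : ZMod Q),
    XA (sm f) P R S = ∑ x : ZMod Q, ∑ y : ZMod Q, f (ev P R S x y) *
      ((Q : ℤ) * (β x * sg y + sg x * β y) + (Q : ℤ) ^ 2 * (sg x * sg y)) ∧
    YA (sm f) P R S = 3 * (Q : ℤ) * ∑ x : ZMod Q, ∑ y : ZMod Q, f (ev P R S x y) *
      (sg x * β x + if x = 0 then (Q : ℤ) else 0)

/-- **BFD**, the bounded form. Uses NUS (i) and DBL. By DBL the `k`-th term of the left hand side is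
`3Q Σ f(φ_k) [β(x)sg(y) + sg(x)(β(y) - c_k β(x)) + Q sg(x)sg(y)] - 3 c_k Q² Σ_y f(φ_k(0,y))`
(the terms with `x = 0`), and `φ_k(0,y) = -(S_k y²)`. By NUS (i)
`sg(x)(β(y) - c_k β(x)) = sg(x) β(y - c_k x) + Q sg(x) nu c_k x y`, so with `W = sg(x)(nu + sg(y))` the
term is `3Q Σ f(φ_k)[β(x)sg(y) + sg(x)β(y - c_k x)] + 3Q² (Es f .. c_k - c_k Z0 f S_k)`. Substitute
`(u, w) = (y - c_k x, x)`: `φ_k(x,y) = -φ_{k+1}(u,w)` (ring, from the recursion), `f` odd, so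
`Σ f(φ_k) sg(x) β(y - c_k x) = - Σ f(φ_{k+1}(u,w)) β(u) sg(w) = -V_{k+1}`, where
`V_k = Σ f(φ_k(x,y)) β(x) sg(y)`. The sum `Σ_{k<K} (V_k - V_{k+1}) = V_0 - V_K = 0`. -/
def Stmt_BFD : Prop := ∀ (Q : ℕ) [NeZero Q], Q % 2 = 1 → ∀ (f : ZMod Q → ℤ), (∀ z, f (-z) = - f z) →
    ∀ (K : ℕ) (P R S : ℕ → ZMod Q) (c : ℕ → ℤ),
    (∀ k < K, P (k + 1) = S k ∧ R (k + 1) = 2 * (c k : ZMod Q) * S k - R k ∧
      S (k + 1) = P k + R k * (c k : ZMod Q) - S k * (c k : ZMod Q) ^ 2) →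
    P K = P 0 → R K = R 0 → S K = S 0 →
    ∑ k ∈ range K, (3 * XA (sm f) (P k) (R k) (S k) - c k * YA (sm f) (P k) (R k) (S k))
      = 3 * (Q : ℤ) ^ 2 * ∑ k ∈ range K, (Es f (P k) (R k) (S k) (c k) - c k * Z0 f (S k))

/-- **BFS**, the bounded form of the cycle `(B; a, b, c, b, a)`. Apply BFD with `K = 6` and
`P = m,1,m,r,p,r,m`, `R = B, B, 2am-B, cp, cp, 2am-B, B`, `S = 1,m,r,p,r,m,1`, letters `B,a,b,c,b,a`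
(functions of `ℕ` defined by `![..]` or by cases, casts of the integers). The recursions: step 0:
`R_1 = 2B - B`, `S_1 = m + B² - B²`; step 1: `R_2 = 2am - B`, `S_2 = 1 + Ba - ma² = r` (e1);
step 2: `R_3 = 2br - (2am-B) = cp` (e3), `S_3 = p` (e2); step 3: `R_4 = 2cp - cp`, `S_4 = r`;
step 4: `R_5 = 2br - cp = 2am - B` (e3), `S_5 = p + cpb - rb² = m` (e2, e3);
step 5: `R_6 = 2am - (2am-B) = B`, `S_6 = r + (2am-B)a - ma² = 1` (e1). -/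
def Stmt_BFS : Prop := ∀ (Q : ℕ) [NeZero Q], Q % 2 = 1 → ∀ (f : ZMod Q → ℤ), (∀ z, f (-z) = - f z) →
    ∀ (a b c B m r p : ℤ), Cl a b c B m r p →
    L6 (sm f) a b c B m r p = 3 * (Q : ℤ) ^ 2 * (R6 f a b c B m r p
      - (B * Z0 f 1 + a * Z0 f (m : ZMod Q) + b * Z0 f (r : ZMod Q) + c * Z0 f (p : ZMod Q)
        + b * Z0 f (r : ZMod Q) + a * Z0 f (m : ZMod Q)))

/-- **GHL**, the ghost line over the integers: the cone sum of the word `(c-2; 1, -1, c, -1, 1)`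
vanishes for every odd `f`. Forms `φ_0 = (m,c-2,1)`, `(1,c-2,m)`, `(m,2m-c+2,c-1-m)`,
`(c-1-m,-c,-1)`, `(-1,-c,c-1-m)`, `(c-1-m,2m-c+2,m)`. Model: `P4G.LLz_ghost` in `RQM/C135.lean`.
Put `x_0 = x`, `y_0 = y`, `x_{k+1} = y_k - c_k x_k`, `y_{k+1} = x_k`:
`x_1 = y-(c-2)x`, `x_2 = (c-1)x - y`, `x_3 = x`, `x_4 = -x-y`, `x_5 = -y`. The map
`(x,y) ↦ (x_k, x_{k-1})` is a bijection and `φ_k(x_k, x_{k-1}) = (-1)^k φ_0(x,y)`, `f` odd. So the sum is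
`Σ_{x,y} f(φ_0(x,y)) J(x,y)`, `J = 3β(x)β(y) - (c-2)γ(x) - [3β(x_1)β(x) - γ(x_1)] + [3β(x_2)β(x_1) + γ(x_2)]
- [3β(x)β(x_2) - cγ(x)] + [3β(-x-y)β(x) + γ(x+y)] - [3β(-y)β(-x-y) - γ(y)]`. As `x_1 + x_2 = x` and `β` is
odd, `J` is the sum of `RDF.three_term` for `(x_1,x_2)` and for `(x,y)`, both valid if `(x,y) ≠ (0,0)`; for
`(x,y) = (0,0)` the factor `f 0 = 0`. -/
def Stmt_GHL : Prop := ∀ (Q : ℕ) [NeZero Q], ∀ (f : ZMod Q → ℤ), (∀ z, f (-z) = - f z) →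
    ∀ (c m : ℤ), L6 f 1 (-1) c (c - 2) m (c - 1 - m) (-1) = 0

/-- **ZSQ**, sums over squares. Let `g` be a primitive root modulo `l` (`IsCyclic (ZMod l)ˣ`), and `u` an
integer with `u ≡ 1` mod `q0` and `u ≡ g` mod `l` (chinese remainder, `q0` and `l` coprime) so `u` is
a unit modulo `Q`. Multiplication by `u` permutes `ZMod Q`, and `F(S (u y)²) = F(u²) F(S y²)`
(`Fam.FZ_mul`), `F(u²) = ψ(u²) u^{2e}`, `ψ(u²) = ψ(1) = 1` by periodicity. So `(u^{2e} - 1) Σ = 0`, and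
`u^{2e} - 1` is a unit of `M` because `l ∤ u^{2e} - 1` (`g` has order `l-1`, `(l-1) ∤ 2e`). -/
def Stmt_ZSQ : Prop := ∀ (l q0 n e e0 : ℕ) (ψ : ℤ → ℤ) [NeZero (QN l q0 n)], Fm l q0 n e e0 ψ →
    ∀ S : ZMod (QN l q0 n), Z0 (FZ l q0 n e ψ) S = 0

/-- **LFT**, integral lift: an odd integer valued function on residues reducing to `FZ`.
`FN` is odd and `Q`-periodic (`Fam.FN_neg`, `Fam.FN_per`), `P4G.exists_lift` gives `f : ℤ → ℤ`; take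
`z ↦ f z.val = RDF.fz Q f z`, odd by `RDF.fz_neg`. -/
def Stmt_LFT : Prop := ∀ (l q0 n e : ℕ) (ψ : ℤ → ℤ) [NeZero (QN l q0 n)], Fam l q0 n e ψ →
    ∃ f : ZMod (QN l q0 n) → ℤ, (∀ z, f (-z) = - f z) ∧
      ∀ z, ((f z : ℤ) : ZMod (l ^ (n + 1))) = FZ l q0 n e ψ z

/-- **GHF**, the ghost line in `M`. Uses BFS, GHL, ZSQ, LFT. The ghost word satisfies the closing
equations: `r = 1 + (c-2) - m`, `p = m - (2m-c+2) - (c-1-m) = -1`, `-c = -2(c-1-m) - 2m + c - 2`.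
With `f` from LFT, BFS and GHL (for the odd function `sm f`) give
`3Q² (R6 f - Σ letters Z0 f) = 0` in `ℤ`, cancel `3Q² ≠ 0`, cast to `M` (`R6`, `Z0` are sums of products,
`push_cast`), and the terms `Z0` vanish by ZSQ. -/
def Stmt_GHF : Prop := ∀ (l q0 n e e0 : ℕ) (ψ : ℤ → ℤ) [NeZero (QN l q0 n)], Fm l q0 n e e0 ψ →
    ∀ c m : ℤ, R6 (FZ l q0 n e ψ) 1 (-1) c (c - 2) m (c - 1 - m) (-1) = 0

/-- **REL**, the relation of a cycle. Uses BFS, ZSQ. Here `hid` is the cone identity of the field.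
`P4G.exists_lift` gives `f : ℤ → ℤ` periodic, odd, with cast `FN`. With `fz = RDF.fz Q f` on residues
(odd), `sm fz = RDF.fz Q (4 f(4 .) - f)` (`RDF.fz_smooth`), and `XA`, `YA` of it are `XZ`, `YX`
(`RDF.XZ_zmod`, `RDF.YX_zmod`), so `LLz6 = L6 (sm fz)`. BFS and `hid` give
`3Q²(R6 fz - Σ letters Z0 fz) = 6 Q² HH`; cancel `3Q²`, cast to `M`: `Z0` vanish by ZSQ and
`HH_zero` (in `Pool/Agent/RQM/C156.lean`, lines 950-990: copy that lemma, its proof only uses `C135`)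
gives `HH = 0` in `M`. -/
def Stmt_REL : Prop := ∀ (l q0 n e e0 : ℕ) (ψ : ℤ → ℤ) [NeZero (QN l q0 n)], Fm l q0 n e e0 ψ →
    ∀ (a b c B m r p : ℤ) (d : ℕ), Cl a b c B m r p →
    (∀ f : ℤ → ℤ, (∀ x, f (x + (QN l q0 n : ℕ)) = f x) → (∀ x, f (-x) = - f x) →
      LLz6 (QN l q0 n) (fun x => 4 * f (4 * x) - f x) a b c B m r p
        = 6 * (QN l q0 n : ℤ) ^ 2 * RDF.HH (QN l q0 n) d (fun x => f (4 * x))) →
    R6 (FZ l q0 n e ψ) a b c B m r p = 0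

/-- **NEG**, change of sign of all letters. By NUS (iii) and `ev P (-R) S x (-y) = ev P R S x y`
(substitute `y ↦ -y`, `Equiv.neg`) each of the six edge sums changes sign. -/
def Stmt_NEG : Prop := ∀ (Q : ℕ) [NeZero Q], Q % 2 = 1 → ∀ (M : Type) [CommRing M] (F : ZMod Q → M)
    (a b c B m r p : ℤ), R6 F (-a) (-b) (-c) (-B) m r p = - R6 F a b c B m r p

/-- **LCH**, letter change. Uses NUS (i). For `x = 0` both sides vanish (`sg 0 = 0`). For `x ≠ 0`, by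
NUS (i), `Q (nu (c+t) x y - nu c x y) = -tβ(x) + β(y-cx) - β(y-cx-t|x|)` (residues, `|x| = x.val`), and
`β(u) - β(u-1) = -2 + Q([u = 0] + [u = 1])`, (`[u=1]` and `[u=0]` indicators; check `u = 0`:
`0 - β(-1) = β(1) = Q - 2`; here `Q > 1` because `x ≠ 0`), so by telescoping over `i < t|x|` (induction
on the number of steps) `β(y-cx) - β(y-cx-t|x|) = -2t|x| + Q Σ_i ([y = cx+i] + [y = cx+i+1])`, and
`-tβ(x) = -tQ + 2t|x|`. Cancel `Q`: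
`nu (c+t) x y - nu c x y = -t + Σ_{i < t|x|} ([y = cx+i] + [y = cx+i+1])`. Multiply by `G`, sum over
`y`; `G` at the residue of an integer `j` is `G j` by periodicity. -/
def Stmt_LCH : Prop := ∀ (Q : ℕ) [NeZero Q], Q % 2 = 1 → ∀ (M : Type) [CommRing M] (G : ℤ → M),
    (∀ y, G (y + (Q : ℕ)) = G y) → ∀ (c : ℤ) (t : ℕ) (x : ZMod Q),
    ∑ y : ZMod Q, G (y.val : ℤ) * ((W (c + t) x y - W c x y : ℤ) : M)
      = ((sg x : ℤ) : M) * (-((t : ℤ) : M) * ∑ j ∈ range Q, G (j : ℤ)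
        + ∑ i ∈ range (t * x.val), (G (c * x.val + i) + G (c * x.val + i + 1)))

/-- **EFZ**, the edge sum of `FZ` with integral coefficients as a sum over integers. `x = (x.val : ZMod Q)`,
the value `ev` is the cast of `evZ`, and `Fam.FZ_cast`. -/
def Stmt_EFZ : Prop := ∀ (l q0 n e : ℕ) (ψ : ℤ → ℤ) [NeZero (QN l q0 n)], Fam l q0 n e ψ →
    ∀ P R S c : ℤ, Es (FZ l q0 n e ψ) (P : ZMod (QN l q0 n)) (R : ZMod (QN l q0 n))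
        (S : ZMod (QN l q0 n)) c
      = EZ (QN l q0 n) (fun x y => FN l n e ψ (evZ P R S x y)) c

/-- **LCQ**, letter change by a multiple of the period. Uses LCH. For `t0 ≥ 0` LCH with `t = Q t0`:
`t = 0` in `M`, and the `t|x|` terms are `t0|x|` full periods, so the inner bracket is
`2 t0 |x| Σ_{j<Q} H x j` (`P4G.sum_blocks` or induction; a sum over a full period does not depend on its
start). Then `sg x * |x| = (-1)^x x`, and the sum over residues is the sum over `range Q`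
(`RDF.sum_range_zmod`). For `t0 < 0` apply this to `c + Q t0` and `-t0`. -/
def Stmt_LCQ : Prop := ∀ (l q0 n : ℕ) [NeZero (QN l q0 n)], QN l q0 n % 2 = 1 →
    ∀ (H : ℤ → ℤ → ZMod (l ^ (n + 1))),
    (∀ x y, H x (y + (QN l q0 n : ℕ)) = H x y) → ∀ c t0 : ℤ,
    EZ (QN l q0 n) H (c + (QN l q0 n : ℕ) * t0)
      = EZ (QN l q0 n) H c + 2 * (t0 : ZMod (l ^ (n + 1)))
        * SX (QN l q0 n) (fun x => ∑ j ∈ range (QN l q0 n), H x j)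

/-- **PPO**, the class `Pol` and Taylor expansions.
(i) `FN ∘ evZ` along a line: `A = P x² + R x (u+w X) - S (u+w X)²`, `B = A^e`.
(ii) `F' ∘ evZ` times an integral polynomial: `B = e A^(e-1) C`.
(iii) periodicity: `A(j + q0 w) ≡ A(j)` mod `q0` (`Polynomial.sub_dvd_eval_sub`), so
`ψ(A(j+q0 w)) = ψ(A(j))` (`Fam.ψper`), and `B(j + N w) ≡ B(j)` mod `N`; with `N = q0 l^s` the two
values of `G` differ by a multiple of `l^s`.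
(iv) Taylor expansion of a value: for `q0 ∣ N`, `ψ(u + N w) = ψ(u)`, and
`(u+Nw)^e = u^e + e u^(e-1) N w + (Nw)² s` (`Polynomial.powAddExpansion` or induction).
(v) the same for `F'` to first order. -/
def Stmt_PPO : Prop := ∀ (l q0 n e : ℕ) (ψ : ℤ → ℤ), Fam l q0 n e ψ →
    (∀ P R S x u w : ℤ, Pol l n ψ (fun y => FN l n e ψ (evZ P R S x (u + w * y)))) ∧
    (∀ (P R S x : ℤ) (C : Polynomial ℤ), Pol l n ψ (fun y => F1 l n e ψ (evZ P R S x y)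
      * ((C.eval y : ℤ) : ZMod (l ^ (n + 1))))) ∧
    (∀ (G : ℤ → ZMod (l ^ (n + 1))) (s : ℕ), Pol l n ψ G → ∀ j w : ℤ, ∃ t : ZMod (l ^ (n + 1)),
      G (j + (q0 * l ^ s : ℕ) * w) = G j + ((l ^ s : ℕ) : ZMod (l ^ (n + 1))) * t) ∧
    (∀ (N : ℕ), q0 ∣ N → ∀ u w : ℤ, ∃ t : ZMod (l ^ (n + 1)), FN l n e ψ (u + N * w)
      = FN l n e ψ u + (N : ZMod (l ^ (n + 1))) * ((w : ZMod (l ^ (n + 1))) * F1 l n e ψ u)
        + (N : ZMod (l ^ (n + 1))) ^ 2 * t) ∧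
    (∀ (N : ℕ), q0 ∣ N → ∀ u w : ℤ, ∃ t : ZMod (l ^ (n + 1)), F1 l n e ψ (u + N * w)
      = F1 l n e ψ u + (N : ZMod (l ^ (n + 1))) * t)

/-- **BLK**, block sums. `G(j) = ψ(A(j)) B(j)`. For `1 ≤ k ≤ n`:
`Σ_{j < q0 l^(k+1)} G(a+j) = Σ_{j < q0 l^k} Σ_{t<l} G(a + j + q0 l^k t)` (`P4G.sum_blocks`), with
`ψ(A(j + q0 l^k t)) = ψ(A(j))` and `B(j+h) = B(j) + h B'(j) + h² s`, `h = q0 l^k t`; as
`Σ_{t<l} t = l (l-1)/2` is divisible by `l` and `h²` by `l^(2k)`, `2k ≥ k+1`, the inner sum is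
`l G(a+j)` modulo `l^(k+1)`. Multiply by `l^(n-k)`:
`l^(n-k) Σ_{q0 l^(k+1)} = l^(n+1-k) Σ_{q0 l^k}` in `M`. Hence the value at `k` equals that at `n+1`, a
full period, whose sum does not depend on the start (`G` is `Q`-periodic). Second part: `k = 1`, so the
full sum is `l^n` times something and `l^(n+1) = 0`. Third: periodicity (`Fam.ψper`, `B(j+Q) ≡ B(j)`). -/
def Stmt_BLK : Prop := ∀ (l q0 n e : ℕ) (ψ : ℤ → ℤ), Fam l q0 n e ψ →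
    ∀ G : ℤ → ZMod (l ^ (n + 1)), Pol l n ψ G →
    (∀ (k : ℕ) (a : ℤ), 1 ≤ k → k ≤ n + 1 →
      (l : ZMod (l ^ (n + 1))) ^ (n + 1 - k) * ∑ j ∈ range (q0 * l ^ k), G (a + j)
        = ∑ j ∈ range (QN l q0 n), G (j : ℤ)) ∧
    (l : ZMod (l ^ (n + 1))) * ∑ j ∈ range (QN l q0 n), G (j : ℤ) = 0 ∧
    (∀ y, G (y + (QN l q0 n : ℕ)) = G y)

/-- **DER**, sums of derivatives over a prime field. `p' = Σ (k+1) p_{k+1} X^k`, and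
`Σ_{x} x^k = 0` unless `(l-1) ∣ k` and `k > 0` (`FiniteField.sum_pow_lt_card_sub_one` for `k < l - 1`;
for `l - 1 < k < 2(l-1)` use `x^k = x^(k-(l-1))` for `k > l-1`). The coefficient of `X^(l-1)` in `p'`
is `l p_l = 0`, and the degree of `p'` is `< 2(l-1)`. -/
def Stmt_DER : Prop := ∀ (l : ℕ) [Fact l.Prime] (p : Polynomial (ZMod l)),
    p.natDegree < 2 * l - 1 → ∑ x : ZMod l, (Polynomial.derivative p).eval x = 0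

/-- **RSM**, reduction of a full sum to the prime. For `G(j) = ψ(A(j)) B(j)`: by BLK with `k = 1`
the full sum is `l^n Σ_{j < q0 l} G(j)`, and only `Σ_{j<q0 l} G(j)` modulo `l` matters:
by the chinese remainder (`RDF.crt_sum`, `A(j)` mod `q0`, `B(j)` mod `l`) it is
`(Σ_{i<q0} ψ(A(i))) (Σ_{j<l} B(j))` modulo `l`. -/
def Stmt_RSM : Prop := ∀ (l q0 n e : ℕ) (ψ : ℤ → ℤ), Fam l q0 n e ψ → ∀ (A B : Polynomial ℤ),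
    ∑ j ∈ range (QN l q0 n), ((ψ (A.eval (j : ℤ)) : ℤ) : ZMod (l ^ (n + 1)))
        * ((B.eval (j : ℤ) : ℤ) : ZMod (l ^ (n + 1)))
      = (((l : ℤ) ^ n * ((∑ i ∈ range q0, ψ (A.eval (i : ℤ))) * ∑ j ∈ range l, B.eval (j : ℤ)) : ℤ) :
          ZMod (l ^ (n + 1)))

/-- **DRZ**, the full sum of the derivative along a line vanishes. Uses RSM, DER. With
`A(j) = φ(x,j)`, `B = e A^(e-1) A'` (`A'(j) = R x - 2 S j`), RSM reduces to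
`Σ_{j<l} B(j) ≡ 0` mod `l`. Over `ZMod l`: `A(j)^(e-1) = A(j)^(e0-1)` for `e ≡ e0` mod `l-1`,
`e, e0 ≥ 2`; if `e0 ≡ 0` is not possible; so the sum is `e Σ A^(e0-1) A' `. Multiply by the unit `e0`
(`2 ≤ e0 < l - 1`): `e Σ (A^e0)'`, zero by DER, as the degree of `A^e0` is at most
`2 e0 ≤ 2(l-2) < 2l - 1`. -/
def Stmt_DRZ : Prop := ∀ (l q0 n e e0 : ℕ) (ψ : ℤ → ℤ), Fm l q0 n e e0 ψ → ∀ P R S x : ℤ,
    ∑ j ∈ range (QN l q0 n), F1 l n e ψ (evZ P R S x j)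
      * ((R * x - 2 * S * (j : ℤ) : ℤ) : ZMod (l ^ (n + 1))) = 0

/-- **LCN**, letter change by a multiple of `N = q0 l^i`, `n+1 ≤ 2i`, `1 ≤ i ≤ n+1`. Uses LCH, PPO,
BLK, DRZ, EFZ. `N² = 0` in `M`. Fix `x`, `G(y) = F(φ(x,y))`, `G'(y) = F'(φ(x,y)) (R x - 2 S y)`.
(a) `G(y + N w) = G(y) + N w G'(y)` (PPO (iv): `φ(x, y+Nw) = φ(x,y) + N (w(Rx - 2Sy) - N S w²)`, and
`N² = 0`). (b) `N Σ_{j<N} G'(u+j) = 0` for every start `u`: BLK with `k = i` gives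
`l^(n+1-i) Σ_{j<N} G'(u+j) = full sum = 0` by DRZ, and `N = q0 l^(2i-n-1) l^(n+1-i)`. (c) so
`N Σ_{j<N} (w G'(u+j)) = 0`, `Σ_{j<N} G(u+Nw+j) = Σ_{j<N} G(u+j)`. Let `t0 ≥ 0`. LCH with `t = N t0`: the
term `-t Σ G` vanishes (`l Σ G = 0` by BLK, `l ∣ N`), and the rest splits in `K = t0|x|` blocks of
length `N`, each `Σ_{j<N} (G(u+j) + G(u+j+1)) = 2 Σ_{j<N} G(u+j) + G(u+N) - G(u)`, `u = cx + N k`, equal
to `2 Σ_{j<N} G(cx+j) + N G'(cx)` by (a), (c) and `N² = 0`: this is `TT .. c x`. For `t0 < 0`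
apply the result to `c + N t0` and `-t0`, and note `TT .. (c + N t0) x = TT .. c x` by (a), (c). Here
`sg x * |x| = (-1)^x x`; sum over `x` (`RDF.sum_range_zmod`). -/
def Stmt_LCN : Prop := ∀ (l q0 n e e0 : ℕ) (ψ : ℤ → ℤ) [NeZero (QN l q0 n)], Fm l q0 n e e0 ψ →
    ∀ i : ℕ, 1 ≤ i → i ≤ n + 1 → n + 1 ≤ 2 * i → ∀ P R S c t0 : ℤ,
    Es (FZ l q0 n e ψ) (P : ZMod (QN l q0 n)) (R : ZMod (QN l q0 n)) (S : ZMod (QN l q0 n))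
        (c + (q0 * l ^ i : ℕ) * t0)
      = Es (FZ l q0 n e ψ) (P : ZMod (QN l q0 n)) (R : ZMod (QN l q0 n)) (S : ZMod (QN l q0 n)) c
        + (t0 : ZMod (l ^ (n + 1))) * SX (QN l q0 n) (TT l n e ψ (q0 * l ^ i) P R S c)

/-- **LCM**, `N` times a letter change by a multiple of `q0 l^s`, `N = q0 l^i`, `i + s = n+1`. Uses
LCH, PPO (iii), BLK. Let `G = H x .`. (a) `N G(y + q0 l^s w) = N G(y)` by PPO (iii), since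
`l^i l^s = 0`. Let `t0 ≥ 0`, `t = q0 l^s t0`. In LCH times `N` the term `-N t Σ G` vanishes, and the rest
splits in `t0|x|` blocks of length `q0 l^s`, each with `N Σ_{j<q0 l^s} (G(u+j)+G(u+j+1))
= 2 N Σ_{j<q0 l^s} G(u+j) + N(G(u+q0 l^s) - G(u)) = 2 q0 l^i Σ_{j<q0 l^s} G(u+j)
= 2 q0 (full sum)` by BLK with `k = s` (`i = n+1-s`). For `t0 < 0` apply this to `c + t`. -/
def Stmt_LCM : Prop := ∀ (l q0 n e : ℕ) (ψ : ℤ → ℤ) [NeZero (QN l q0 n)], Fam l q0 n e ψ →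
    ∀ i s : ℕ, 1 ≤ s → i + s = n + 1 → ∀ H : ℤ → ℤ → ZMod (l ^ (n + 1)),
    (∀ x, Pol l n ψ (H x)) → ∀ c t0 : ℤ,
    ((q0 * l ^ i : ℕ) : ZMod (l ^ (n + 1))) * EZ (QN l q0 n) H (c + (q0 * l ^ s : ℕ) * t0)
      = ((q0 * l ^ i : ℕ) : ZMod (l ^ (n + 1))) * EZ (QN l q0 n) H c
        + 2 * (q0 : ZMod (l ^ (n + 1))) * (t0 : ZMod (l ^ (n + 1)))
          * SX (QN l q0 n) (fun x => ∑ j ∈ range (QN l q0 n), H x j)

/-- **MEA**, the mean formula (pointwise in `x`). Uses RSM, DER. `D = R² + 4PS`,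
`D' = 2RR' + 4(P'S + PS')`. By RSM both sides are `l^n (Σ_{i<q0} ψ(φ(x,i)))` times sums over `j < l`
modulo `l`, so it is enough to show in `ZMod l`:
`2 e0 S D Σ_j e φ^(e-1) φ' = (-2e(e0+1)S'D + (2e0+1) e D' S) Σ_j φ^e`, `φ = P x² + R x j - S j²`,
`φ' = P' x² + R' x j - S' j²`. (For `S = 0` in `ZMod l` exclude by hypothesis.) `φ^(e-1) = φ^(e0-1)`,
`φ^e = φ^e0` (`e ≡ e0` mod `l-1`, `e, e0 ≥ 2`). Put `w = 2Sj - Rx`, a bijection of `ZMod l` in `j`;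
`4Sφ = Dx² - w²` and
`4S²φ' = (SD' - S'D)x² + (2SR' - 2S'R) x w - S' w² = (SD' - 2S'D) x² + 4SS'φ + (odd in w)`.
The odd part times `φ^(e0-1)` sums to zero. With `u = Dx² - w² = 4Sφ`: DER for the polynomial
`w (Dx² - w²)^e0` of degree `2e0+1 < 2l-1` gives `Σ_w (u^e0 - 2 e0 w² u^(e0-1)) = 0`, and `w² = Dx² - u`:
`2 e0 D x² Σ u^(e0-1) = (1 + 2e0) Σ u^e0`, that is (divide by `(4S)^(e0-1)`)
`2 e0 D x² Σ φ^(e0-1) = (1+2e0) 4S Σ φ^e0`. Hence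
`2 e0 D 4S² Σ φ^(e0-1)φ' = (SD' - 2S'D)(1+2e0) 4S Σ φ^e0 + 2 e0 D 4SS' Σ φ^e0`; divide by `4S`, times
`e`. -/
def Stmt_MEA : Prop := ∀ (l q0 n e e0 : ℕ) (ψ : ℤ → ℤ), Fm l q0 n e e0 ψ →
    ∀ P R S P' R' S' x : ℤ, ¬ (l : ℤ) ∣ S →
    ((2 * e0 * S * (R ^ 2 + 4 * P * S) : ℤ) : ZMod (l ^ (n + 1))) * I1 l q0 n e ψ P R S P' R' S' x
      = ((-2 * e * (e0 + 1) * S' * (R ^ 2 + 4 * P * S)
          + (2 * e0 + 1) * e * (2 * R * R' + 4 * (P' * S + P * S')) * S : ℤ) : ZMod (l ^ (n + 1)))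
        * I0 l q0 n e ψ P R S x

/-- **SYM**, the symmetry of edge sums. `ev (pP) (-(pR)) (pS) x (-y) = p ev P R S x y`, substitute
`y ↦ -y`, `Fam.FZ_mul`, and `W (-c) x (-y) = - W c x y` (NUS (iii)). -/
def Stmt_SYM : Prop := ∀ (l q0 n e : ℕ) (ψ : ℤ → ℤ) [NeZero (QN l q0 n)], Fam l q0 n e ψ →
    ∀ (p : ℤ) (P R S : ZMod (QN l q0 n)) (c : ℤ),
    Es (FZ l q0 n e ψ) ((p : ZMod (QN l q0 n)) * P) (-((p : ZMod (QN l q0 n)) * R))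
        ((p : ZMod (QN l q0 n)) * S) (-c)
      = - (FN l n e ψ p * Es (FZ l q0 n e ψ) P R S c)

/-- **TDL**, the block sums of two forms which agree modulo `q0 l^s`; `N = q0 l^i`, `i + s = n+1`,
`1 ≤ i`, `1 ≤ s`. Uses BLK. Let `A(j) = φ(x, cx+j)`, `C(j) = evZ P' R' S' x (cx+j)`, polynomials in `j`;
with `h = q0 l^s`, `(A - h C)^e = A^e - e A^(e-1) h C + h² C² S` in `ℤ[X]`
(`Polynomial.powAddExpansion` for the ring `ℤ[X]`), `ψ(A - hC) = ψ(A)` by periodicity. So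
`F((φ - hφ')(x,cx+j)) = F(A) - h F'(A) C + h² H2(j)` with `H2 = ψ(A) C² S` of type `Pol`, also
`F'(A) C` is of type `Pol` with full sum `I1 .. x` (shift of the start: BLK). Sum over `j < N`:
`l^s Σ_{j<N} F'(A) C = I1` by BLK with `k = i`, and `h² Σ_{j<N} H2 = q0² l^s (full sum of H2) = 0` because
`l (full sum) = 0`, `s ≥ 1`. The second part of `TT`: `N F'(..)(..)` changes by a multiple of
`N h = q0² l^(n+1) = 0`. -/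
def Stmt_TDL : Prop := ∀ (l q0 n e : ℕ) (ψ : ℤ → ℤ), Fam l q0 n e ψ →
    ∀ i s : ℕ, 1 ≤ i → 1 ≤ s → i + s = n + 1 → ∀ P R S P' R' S' c x : ℤ,
    TT l n e ψ (q0 * l ^ i) P R S c x
      - TT l n e ψ (q0 * l ^ i) (P - (q0 * l ^ s : ℕ) * P') (R - (q0 * l ^ s : ℕ) * R')
        (S - (q0 * l ^ s : ℕ) * S') c x
      = 2 * (q0 : ZMod (l ^ (n + 1))) * I1 l q0 n e ψ P R S P' R' S' x

/-- **NTT**, `N` times a block sum, `N = q0 l^i`, `n+1 ≤ 2i`, `1 ≤ i ≤ n+1`. Uses BLK. `N² = 0`, so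
`N TT = 2 q0 l^i Σ_{j<N} F(φ(x,cx+j))`, and `l^i = l^(2i-n-1) l^(n+1-i)`, BLK with `k = i`. -/
def Stmt_NTT : Prop := ∀ (l q0 n e : ℕ) (ψ : ℤ → ℤ), Fam l q0 n e ψ →
    ∀ i : ℕ, 1 ≤ i → i ≤ n + 1 → n + 1 ≤ 2 * i → ∀ P R S c x : ℤ,
    ((q0 * l ^ i : ℕ) : ZMod (l ^ (n + 1))) * TT l n e ψ (q0 * l ^ i) P R S c x
      = 2 * (q0 : ZMod (l ^ (n + 1))) * (l : ZMod (l ^ (n + 1))) ^ (2 * i - (n + 1))
        * I0 l q0 n e ψ P R S x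

/-- **PHI**, Taylor expansion of an edge sum in the form, `N = q0 l^i`, `n + 1 ≤ 2i`. Uses PPO (iv),
EFZ. `φ̃ = φ + N φ'`, `N² = 0` in `M`, so `F(φ̃(x,y)) = F(φ(x,y)) + N F'(φ(x,y)) φ'(x,y)`; multiply by
the weight and sum. -/
def Stmt_PHI : Prop := ∀ (l q0 n e : ℕ) (ψ : ℤ → ℤ) [NeZero (QN l q0 n)], Fam l q0 n e ψ →
    ∀ i : ℕ, n + 1 ≤ 2 * i → ∀ P R S P' R' S' c : ℤ,
    Es (FZ l q0 n e ψ) ((P + (q0 * l ^ i : ℕ) * P' : ℤ) : ZMod (QN l q0 n))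
        ((R + (q0 * l ^ i : ℕ) * R' : ℤ) : ZMod (QN l q0 n))
        ((S + (q0 * l ^ i : ℕ) * S' : ℤ) : ZMod (QN l q0 n)) c
      = Es (FZ l q0 n e ψ) (P : ZMod (QN l q0 n)) (R : ZMod (QN l q0 n)) (S : ZMod (QN l q0 n)) c
        + ((q0 * l ^ i : ℕ) : ZMod (l ^ (n + 1))) * ED l q0 n e ψ P R S P' R' S' c

/-- **PHN**, `N` times an edge sum only depends on the form modulo `q0 l^s`, `N = q0 l^i`,
`n + 1 ≤ i + s`; the same for `ED`, where the direction only matters modulo `l^s`. Uses PPO (iv), (v),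
EFZ: `F(φ̃) - F(φ)` and `F'(φ̃) - F'(φ)` are multiples of `q0 l^s` in `M` when `φ̃ ≡ φ` mod `q0 l^s`,
and `N l^s = 0`. -/
def Stmt_PHN : Prop := ∀ (l q0 n e : ℕ) (ψ : ℤ → ℤ) [NeZero (QN l q0 n)], Fam l q0 n e ψ →
    ∀ i s : ℕ, n + 1 ≤ i + s → ∀ P R S T U V : ℤ, ((q0 * l ^ s : ℕ) : ℤ) ∣ T - P →
    ((q0 * l ^ s : ℕ) : ℤ) ∣ U - R → ((q0 * l ^ s : ℕ) : ℤ) ∣ V - S →
    (∀ c : ℤ, ((q0 * l ^ i : ℕ) : ZMod (l ^ (n + 1))) * Es (FZ l q0 n e ψ)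
          (T : ZMod (QN l q0 n)) (U : ZMod (QN l q0 n)) (V : ZMod (QN l q0 n)) c
        = ((q0 * l ^ i : ℕ) : ZMod (l ^ (n + 1))) * Es (FZ l q0 n e ψ)
          (P : ZMod (QN l q0 n)) (R : ZMod (QN l q0 n)) (S : ZMod (QN l q0 n)) c) ∧
    (∀ P' R' S' T' U' V' c : ℤ, ((l ^ s : ℕ) : ℤ) ∣ T' - P' → ((l ^ s : ℕ) : ℤ) ∣ U' - R' →
      ((l ^ s : ℕ) : ℤ) ∣ V' - S' →
      ((q0 * l ^ i : ℕ) : ZMod (l ^ (n + 1))) * ED l q0 n e ψ T U V T' U' V' c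
        = ((q0 * l ^ i : ℕ) : ZMod (l ^ (n + 1))) * ED l q0 n e ψ P R S P' R' S' c)

/-- **RED**, the full sums only depend on the form modulo `q0 l` (and on the direction modulo `l`), and
`I1` is linear in the direction. Uses RSM (both are full sums of functions of type `Pol`): the two right
hand sides differ by a multiple of `l^(n+1)`, as `ψ(Ã(i)) = ψ(A(i))` and `B̃(j) ≡ B(j)` mod `l`. -/
def Stmt_RED : Prop := ∀ (l q0 n e : ℕ) (ψ : ℤ → ℤ), Fam l q0 n e ψ →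
    ∀ P R S T U V x : ℤ, ((q0 * l : ℕ) : ℤ) ∣ T - P → ((q0 * l : ℕ) : ℤ) ∣ U - R →
    ((q0 * l : ℕ) : ℤ) ∣ V - S →
    I0 l q0 n e ψ T U V x = I0 l q0 n e ψ P R S x ∧
    (l : ZMod (l ^ (n + 1))) * I0 l q0 n e ψ P R S x = 0 ∧
    ∀ P' R' S' T' U' V' : ℤ, (l : ℤ) ∣ T' - P' → (l : ℤ) ∣ U' - R' → (l : ℤ) ∣ V' - S' →
      I1 l q0 n e ψ T U V T' U' V' x = I1 l q0 n e ψ P R S P' R' S' x ∧
      (l : ZMod (l ^ (n + 1))) * I1 l q0 n e ψ P R S P' R' S' x = 0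

/-- **UNI**, `FN` at integers prime to `q0 l` is a unit, `FN 1 = 1`, and `FN (1 - 2 t) = 1 - 2 e t` in `M`
for `q0 ∣ t`, `Q ∣ t²`. If `u v ≡ 1` mod `Q` then `F(u)F(v) = F(uv) = F(1) = ψ(1) = 1` (`Fam.FN_mul`,
periodicity). `ψ(1-2t) = ψ(1) = 1`, `(1-2t)^e = 1 - 2et + t²(..)`, `t² = 0` in `M`. -/
def Stmt_UNI : Prop := ∀ (l q0 n e e0 : ℕ) (ψ : ℤ → ℤ), Fm l q0 n e e0 ψ →
    (∀ u : ℤ, IsCoprime u ((q0 * l : ℕ) : ℤ) → IsUnit (FN l n e ψ u)) ∧ FN l n e ψ 1 = 1 ∧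
    (∀ t : ℤ, (q0 : ℤ) ∣ t → ((QN l q0 n : ℕ) : ℤ) ∣ t ^ 2 →
      FN l n e ψ (1 - 2 * t) = 1 - 2 * (e : ZMod (l ^ (n + 1))) * (t : ZMod (l ^ (n + 1)))) ∧
    (∀ u w : ℤ, ((QN l q0 n : ℕ) : ℤ) ∣ w - u → FN l n e ψ w = FN l n e ψ u)

/-- **CQP**, full sums and the discriminant. Uses RED, UNI. Let `S`, `V` be prime to `q0 l` and
`D = R² + 4PS ≡ U² + 4TV` mod `q0 l`. As `4S φ(x,y) = D x² - (2Sy - Rx)²` and `y ↦ 2Sy - Rx` is a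
bijection modulo `Q` (`2S` is a unit), `F(4S) I0(P,R,S)(x) = Σ_{u<Q} F(D x² - u²)`; the same for
`(T,U,V)` with `D2`; and `Σ_u F(D x² - u²) = Σ_u F(D2 x² - u²)` by RED (form `(D,0,1)`). Cancel the unit
`F(4)`. -/
def Stmt_CQP : Prop := ∀ (l q0 n e e0 : ℕ) (ψ : ℤ → ℤ) [NeZero (QN l q0 n)], Fm l q0 n e e0 ψ →
    ∀ P R S T U V x : ℤ, IsCoprime S ((q0 * l : ℕ) : ℤ) → IsCoprime V ((q0 * l : ℕ) : ℤ) →
    ((q0 * l : ℕ) : ℤ) ∣ (U ^ 2 + 4 * T * V) - (R ^ 2 + 4 * P * S) →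
    FN l n e ψ S * I0 l q0 n e ψ P R S x = FN l n e ψ V * I0 l q0 n e ψ T U V x

/-- **CQC**, the central sum. `F(4S) I0(P,R,S)(x) = Σ_{u<Q} F(D x² - u²)` as in CQP, and
`CC(D) = Σ_x Σ_u FZ(D x² - u²) δ(x)`, `δ(x) = (-1)^x (Q - 2x)`, `Q = 0` in `M`. -/
def Stmt_CQC : Prop := ∀ (l q0 n e : ℕ) (ψ : ℤ → ℤ) [NeZero (QN l q0 n)], Fam l q0 n e ψ →
    ∀ P R S : ℤ, IsCoprime S ((q0 * l : ℕ) : ℤ) →
    2 * FN l n e ψ (4 * S) * SX (QN l q0 n) (I0 l q0 n e ψ P R S)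
      = - CC l q0 n e ψ (R ^ 2 + 4 * P * S)

/-- **CYA**, the cycle near a ghost, first order. Put `g = ab+1`, `Bw = b(cg+a)+g`,
`U = m(cg+2a) - (c-2)(bc+2)`. The closing equations give the polynomial identity
`Bw (B-c+2) = g U - c (b+1)² + 2(c-1)(b+1)` (`linear_combination` of e3 after substituting e1, e2).
Modulo `Q`: `a = 1`, `b = -1`, `g = 0`, `Bw = -1`. So `Q ∣ B - c + 2`, `= Q y`. With
`g = -Qα1 + Qβ1 + Q² α1 β1`, divide by `Q` and reduce mod `l`: `-y ≡ (β1-α1) K + 2(c-1)β1`,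
`K = 2m + (c-2)²`. The other congruences follow from e1, e2. -/
def Stmt_CYA : Prop := ∀ (Q l : ℕ) (a b c B m r p α1 β1 : ℤ), 0 < Q → l ∣ Q → Cl a b c B m r p →
    a - 1 = Q * α1 → b + 1 = Q * β1 →
    ∃ y : ℤ, B = c - 2 + Q * y ∧
      (l : ℤ) ∣ y - (((c - 2) ^ 2 + 2 * m) * α1 - ((c - 2) ^ 2 + 2 * m + 2 * (c - 1)) * β1) ∧
      (Q : ℤ) ∣ r - (c - 1 - m) ∧ (Q : ℤ) ∣ p + 1 ∧ (Q : ℤ) ∣ (2 * a * m - B) - (2 * m - c + 2)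

/-- **CYB**, the cycle near a ghost with `c ≡ 1`, second order. `Q = q0 l^(n+1)`, `α = a-1`,
`γ = c-1`, `α² = Q A1`, `γ α = Q C1` with `A1 = q0 l^(i-s) τ0²`, `C1 = q0 γ0 τ0`, `β = b+1 = α - Q δ1`,
`l ∣ α`, `l ∣ γ`. Same identity as in CYA: `g = ab + 1 = -δ + α² - αδ` (`δ = Q δ1`),
`g/Q ≡ A1 - δ1`, `β²/Q ≡ A1`, `(c-1)β/Q ≡ C1`, `U ≡ 2m+1`, `Bw ≡ -1` modulo `l`, so
`-y ≡ (A1 - δ1)(2m+1) - A1 + 2 C1`. The congruences modulo `Q` for `r`, `p`, `2am-B` follow from e1, e2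
with `α² = γα = 0`, `b = -1+α`, `B = -1+γ` modulo `Q`. -/
def Stmt_CYB : Prop := ∀ (l q0 n i s : ℕ) (a b c B m r p γ0 τ0 δ1 : ℤ), 0 < QN l q0 n →
    1 ≤ s → s ≤ i → i + s = n + 1 → Cl a b c B m r p →
    c - 1 = (q0 * l ^ s : ℕ) * γ0 → a - 1 = (q0 * l ^ i : ℕ) * τ0 →
    (a - 1) - (b + 1) = (QN l q0 n : ℕ) * δ1 →
    ∃ y : ℤ, B = c - 2 + (QN l q0 n : ℕ) * y ∧
      (l : ℤ) ∣ y - ((2 * m + 1) * δ1 - 2 * m * (q0 * l ^ (i - s) * τ0 ^ 2) - 2 * (q0 * γ0 * τ0)) ∧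
      ((QN l q0 n : ℕ) : ℤ) ∣ r - (-m + (c - 1) - (1 + 2 * m) * (a - 1)) ∧
      ((QN l q0 n : ℕ) : ℤ) ∣ p - (-1 + 2 * (a - 1)) ∧
      ((QN l q0 n : ℕ) : ℤ) ∣ (2 * a * m - B) - (2 * m + 1 - (c - 1) + 2 * m * (a - 1))

/-- **FST**, first order formula. Uses GHF, EFZ, LCQ, PPO, BLK (periodicity), CQP. Modulo `Q` the six
forms are those of the ghost (`cp ≡ -c`), so `R6` is the sum of the ghost (zero by GHF) and of the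
letter changes by multiples of `Q` (LCQ, with `H x y = F(φ(x,y))` and full sums `I0`): letters
`B = (c-2) + Q y`, `a = 1 + Q α1` (twice), `b = -1 + Q β1` (twice):
`R6 = 2y T(m,c-2,1) + 2α1 [T(1,c-2,m) + T(r0,2m-c+2,m)] + 2β1 [T(m,2m-c+2,r0) + T(-1,-c,r0)]`,
`T = SX Q (I0 ..)`, `r0 = c-1-m`. All forms have discriminant `(c-2)² + 4m`; by CQP
`F(m) T(.,.,m) = T(m,c-2,1)` and `F(r0) T(.,.,r0) = T(m,c-2,1)` (`F(1) = 1`). -/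
def Stmt_FST : Prop := ∀ (l q0 n e e0 : ℕ) (ψ : ℤ → ℤ) [NeZero (QN l q0 n)], Fm l q0 n e e0 ψ →
    ∀ a b c B m r p α1 β1 y : ℤ, IsCoprime m ((q0 * l : ℕ) : ℤ) →
    IsCoprime (c - 1 - m) ((q0 * l : ℕ) : ℤ) →
    a - 1 = (QN l q0 n : ℕ) * α1 → b + 1 = (QN l q0 n : ℕ) * β1 →
    B = c - 2 + (QN l q0 n : ℕ) * y → ((QN l q0 n : ℕ) : ℤ) ∣ r - (c - 1 - m) →
    ((QN l q0 n : ℕ) : ℤ) ∣ p + 1 → ((QN l q0 n : ℕ) : ℤ) ∣ (2 * a * m - B) - (2 * m - c + 2) →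
    FN l n e ψ m * FN l n e ψ (c - 1 - m) * R6 (FZ l q0 n e ψ) a b c B m r p
      = 2 * SX (QN l q0 n) (I0 l q0 n e ψ m (c - 2) 1)
        * ((y : ZMod (l ^ (n + 1))) * (FN l n e ψ m * FN l n e ψ (c - 1 - m))
          + 2 * (α1 : ZMod (l ^ (n + 1))) * FN l n e ψ (c - 1 - m)
          + 2 * (β1 : ZMod (l ^ (n + 1))) * FN l n e ψ m)

/-- **RDC**, removal of the multiples of `Q` from the letters near `c = 1`. Uses EFZ, LCQ, PPO, BLK,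
CQP. Modulo `Q` the six forms are `(m,-1+γ,1)`, `(1,-1+γ,m)`, `(m,s',r')`, `(r',c',p')`, `(p',c',r')`,
`(r',s',m)` with `γ = c-1`, `τ = a-1`, `r' = -m+γ-(1+2m)τ`, `s' = 2m+1-γ+2mτ`, `p' = -1+2τ`,
`c' = -1-γ+2τ` (`cp ≡ (1+γ)(-1+2τ)`, `γτ ≡ 0`). The letters are `B = (-1+γ) + Q y`, `1+τ`,
`b = (-1+τ) - Q δ1`, `1+γ`, `b`, `1+τ`. LCQ gives
`R6 = A3 + B3 + 2y T(m,-1+γ,1) - 2δ1 [T(m,s',r') + T(p',c',r')]`, `T = SX Q (I0 ..)`. Modulo `q0 l`: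
`γ = τ = 0`, `r' = -m`; by CQP (discriminant `1+4m`): `T(m,-1+γ,1) = Z`, `F(-m) T(.,.,r') = Z`
(use `F(r') T = F(1) Z` and `F(r')`: the form `(m,s',r')` may be replaced by `(m,2m+1,-m)` by RED, which
is CQP with `S = r'`... simplest: CQP with `V = 1` and RED to replace `r'` by `-m`), so each is
`-Z/F(m)`. -/
def Stmt_RDC : Prop := ∀ (l q0 n e e0 : ℕ) (ψ : ℤ → ℤ) [NeZero (QN l q0 n)], Fm l q0 n e e0 ψ →
    ∀ a b c B m r p δ1 y : ℤ, IsCoprime m ((q0 * l : ℕ) : ℤ) →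
    ((q0 * l : ℕ) : ℤ) ∣ c - 1 → ((q0 * l : ℕ) : ℤ) ∣ a - 1 →
    ((QN l q0 n : ℕ) : ℤ) ∣ (a - 1) * (c - 1) → ((QN l q0 n : ℕ) : ℤ) ∣ (a - 1) ^ 2 →
    (a - 1) - (b + 1) = (QN l q0 n : ℕ) * δ1 → B = c - 2 + (QN l q0 n : ℕ) * y →
    ((QN l q0 n : ℕ) : ℤ) ∣ r - (-m + (c - 1) - (1 + 2 * m) * (a - 1)) →
    ((QN l q0 n : ℕ) : ℤ) ∣ p - (-1 + 2 * (a - 1)) →
    ((QN l q0 n : ℕ) : ℤ) ∣ (2 * a * m - B) - (2 * m + 1 - (c - 1) + 2 * m * (a - 1)) →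
    FN l n e ψ m * (R6 (FZ l q0 n e ψ) a b c B m r p
        - (A3 (FZ l q0 n e ψ) (a - 1) (c - 1) m + B3 (FZ l q0 n e ψ) (a - 1) (c - 1) m))
      = 2 * SX (QN l q0 n) (I0 l q0 n e ψ m (-1) 1)
        * ((y : ZMod (l ^ (n + 1))) * FN l n e ψ m + 2 * (δ1 : ZMod (l ^ (n + 1))))

/-- **BSY**, the second half by symmetry. Uses SYM. Let `p = -1 + 2τ`, a unit modulo `Q` with inverse
`-1-2τ` (`τ² = 0` in `ZMod Q`), `μ' = μ - γ + (1+4μ)τ`. In `ZMod Q` (`τ² = τγ = 0`):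
`p μ' = -μ+γ-(1+2μ)τ`, `-(p(-1-γ)) = -1-γ+2τ`, `p 1 = p`; `p(2μ'+1+γ-2μ'τ) = -(2μ+1-γ+2μτ)`,
`p(-μ'-γ+(1+2μ')τ) = μ`. So the three terms of `B3` are, by SYM with `p` and the letters
`-(-1-γ)`, `-(1-τ)`, `-(-1-τ)`, `-F(p)` times the three terms of `A3 F (-τ) (-γ) μ'`, and
`-F(p) = F(1-2τ)`. -/
def Stmt_BSY : Prop := ∀ (l q0 n e : ℕ) (ψ : ℤ → ℤ) [NeZero (QN l q0 n)], Fam l q0 n e ψ →
    ∀ τ γ μ : ℤ, ((QN l q0 n : ℕ) : ℤ) ∣ τ ^ 2 → ((QN l q0 n : ℕ) : ℤ) ∣ τ * γ →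
    B3 (FZ l q0 n e ψ) τ γ μ = FN l n e ψ (1 - 2 * τ)
      * A3 (FZ l q0 n e ψ) (-τ) (-γ) (μ - γ + (1 + 4 * μ) * τ)

/-- **AFA**, the ghost identity of the halves. Uses GHF, BSY, UNI. `A3 0 γ μ + B3 0 γ μ` is `R6` of the
ghost word with `c = 1+γ`, `m = μ` (casts), zero by GHF; BSY with `τ = 0`, `FN 1 = 1`. Second part: `γ = 0`
gives `2 A3 0 0 μ = 0` and `2` is a unit of `M` (`l` odd). -/
def Stmt_AFA : Prop := ∀ (l q0 n e e0 : ℕ) (ψ : ℤ → ℤ) [NeZero (QN l q0 n)], Fm l q0 n e e0 ψ →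
    (∀ γ μ : ℤ, A3 (FZ l q0 n e ψ) 0 γ μ + A3 (FZ l q0 n e ψ) 0 (-γ) (μ - γ) = 0) ∧
    ∀ μ : ℤ, A3 (FZ l q0 n e ψ) 0 0 μ = 0

/-- **AFB**, the half sum near `γ = 0`. Uses PHN, LCM, PPO (i), EFZ, AFA. `N = q0 l^i`,
`γ = q0 l^s γ0`, `i + s = n+1`, `1 ≤ s`. By PHN the forms may be taken with `γ = 0`:
`N A3 0 γ μ = N [Es(μ,-1,1;-1+γ) + Es(1,-1,μ;1) + Es(μ,2μ+1,-μ;-1)]`, by LCM the first is
`N Es(μ,-1,1;-1) + 2 q0 γ0 SX(I0 μ (-1) 1)`, and `N A3 0 0 μ = 0` by AFA. -/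
def Stmt_AFB : Prop := ∀ (l q0 n e e0 : ℕ) (ψ : ℤ → ℤ) [NeZero (QN l q0 n)], Fm l q0 n e e0 ψ →
    ∀ i s : ℕ, 1 ≤ s → i + s = n + 1 → ∀ γ0 μ : ℤ,
    ((q0 * l ^ i : ℕ) : ZMod (l ^ (n + 1))) * A3 (FZ l q0 n e ψ) 0 ((q0 * l ^ s : ℕ) * γ0) μ
      = 2 * (q0 : ZMod (l ^ (n + 1))) * (γ0 : ZMod (l ^ (n + 1)))
        * SX (QN l q0 n) (I0 l q0 n e ψ μ (-1) 1)

/-- **AFC**, the derivative of the half sum in `μ`. Uses PHI, PHN, LCM, PPO (ii), AFA. `N = q0 l^i`,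
`γ = q0 l^s γ0`, `i + s = n+1`, `1 ≤ s ≤ i`. By PHI the left hand side is
`N w [ED(μ,-1+γ,1;1,0,0;-1+γ) + ED(1,-1+γ,μ;0,0,1;1) + ED(μ,2μ+1-γ,-μ+γ;1,2,-1;-1)]` (the factor `w`:
directions `(w,0,0)` etc., `ED` is linear in the direction; or unfold). By PHN one may put `γ = 0` in the
forms, by LCM the first letter may be changed to `-1` at the cost of
`2 q0 γ0 w SX(I1 μ (-1) 1 1 0 0)`, and the rest is `A3 0 0 (μ+Nw) - A3 0 0 μ = 0` by PHI and AFA. -/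
def Stmt_AFC : Prop := ∀ (l q0 n e e0 : ℕ) (ψ : ℤ → ℤ) [NeZero (QN l q0 n)], Fm l q0 n e e0 ψ →
    ∀ i s : ℕ, 1 ≤ s → s ≤ i → i + s = n + 1 → ∀ γ0 μ w : ℤ,
    A3 (FZ l q0 n e ψ) 0 ((q0 * l ^ s : ℕ) * γ0) (μ + (q0 * l ^ i : ℕ) * w)
        - A3 (FZ l q0 n e ψ) 0 ((q0 * l ^ s : ℕ) * γ0) μ
      = 2 * (q0 : ZMod (l ^ (n + 1))) * (γ0 : ZMod (l ^ (n + 1))) * (w : ZMod (l ^ (n + 1)))
        * SX (QN l q0 n) (I1 l q0 n e ψ μ (-1) 1 1 0 0)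

/-- **LFA**, the `τ`-part of a half. Uses LCN (letters `1+τ`, `-1+τ`, `τ = q0 l^i τ0 = N τ0`) and PHI
(third form: `(μ,2μ+1-γ,-μ+γ) + N (0, 2μτ0, -(1+2μ)τ0)`, letter `-1`). Conditions `1 ≤ i ≤ n+1 ≤ 2i`. -/
def Stmt_LFA : Prop := ∀ (l q0 n e e0 : ℕ) (ψ : ℤ → ℤ) [NeZero (QN l q0 n)], Fm l q0 n e e0 ψ →
    ∀ i : ℕ, 1 ≤ i → i ≤ n + 1 → n + 1 ≤ 2 * i → ∀ τ0 γ μ : ℤ,
    A3 (FZ l q0 n e ψ) ((q0 * l ^ i : ℕ) * τ0) γ μ - A3 (FZ l q0 n e ψ) 0 γ μ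
      = (τ0 : ZMod (l ^ (n + 1))) * (SX (QN l q0 n) (TT l n e ψ (q0 * l ^ i) 1 (-1 + γ) μ 1)
          + SX (QN l q0 n) (TT l n e ψ (q0 * l ^ i) μ
              (2 * μ + 1 - γ + 2 * μ * ((q0 * l ^ i : ℕ) * τ0))
              (-μ + γ - (1 + 2 * μ) * ((q0 * l ^ i : ℕ) * τ0)) (-1)))
        + ((q0 * l ^ i : ℕ) : ZMod (l ^ (n + 1))) * ED l q0 n e ψ μ (2 * μ + 1 - γ) (-μ + γ)
            0 (2 * μ * τ0) (-((1 + 2 * μ) * τ0)) (-1)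

/-- **LFB**, the `τ`-parts of the two halves together. Uses LFA, TDL, NTT, PHN, RED, CQP.
`N = q0 l^i`, `τ = N τ0`, `γ = q0 l^s γ0`, `h = q0 l^s`, `μ' = μ - γ + Dτ`, `D = 1+4μ`,
`t' = l^(i-s) τ0` (so `τ = h t'`). Let `L = A3 τ γ μ - A3 0 γ μ`, `L' = A3 (-τ) (-γ) μ' - A3 0 (-γ) μ'`. By
LFA `L = τ0 (S1 + S2) + N E`, `L' = -τ0 (S1' + S2') + N E'`.
(a) `N E + N E' = 0`: the forms `(μ,2μ+1-γ,-μ+γ)` and `(μ',2μ'+1+γ,-μ'-γ)` agree modulo `h` and the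
directions `(0,2μτ0,-(1+2μ)τ0)` and `-(0,-2μ'τ0,(1+2μ')τ0)` modulo `l^s`: PHN (ED is odd in the
direction). Also `2 e τ N (..) = 0` as `N² = 0`.
(b) `2eτ τ0 (S1' + S2') = 0`: by NTT `N (S1' + S2') = 2 q0 l^(2i-n-1) [SX I0(1,-1-γ,μ') +
SX I0(μ',..,..)]`, and by RED, CQP (`F(μ) I0(1,-1,μ) = F(-μ) I0(μ,2μ+1,-μ)`, `F(-μ) = -F(μ)`, `F(μ)`
unit) the bracket is zero.
(c) so the left hand side is `τ0 (S1 - S1') + τ0 (S2 - S2')`. By TDL (pointwise)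
`S1 - S1' = 2 q0 SX I1(1,-1+γ,μ; 0,2γ0,γ0-Dt')`, since `(1,-1-γ,μ') = (1,-1+γ,μ) - h(0,2γ0,γ0-Dt')`; and
`S2 - S2' = 2 q0 SX I1(μ,..,..; γ0-Dt',-(2+4μ)t',γ0-t')`, since modulo `Q` (`τ² = τγ = 0`)
`(μ',2μ'+1+γ-2μ'τ,-μ'-γ+(1+2μ')τ) = (μ,2μ+1-γ+2μτ,-μ+γ-(1+2μ)τ) - h(γ0-Dt',-(2+4μ)t',γ0-t')`
(a change of the form by multiples of `Q` does not change `TT`: values of `F`, `F'` are `Q`-periodic,
PPO (iv), (v) with `N = Q`). By RED one may put `γ = τ = 0` in the forms of `I1`. -/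
def Stmt_LFB : Prop := ∀ (l q0 n e e0 : ℕ) (ψ : ℤ → ℤ) [NeZero (QN l q0 n)], Fm l q0 n e e0 ψ →
    ∀ i s : ℕ, 1 ≤ s → s ≤ i → i + s = n + 1 → ∀ τ0 γ0 μ : ℤ, IsCoprime μ ((q0 * l : ℕ) : ℤ) →
    (A3 (FZ l q0 n e ψ) ((q0 * l ^ i : ℕ) * τ0) ((q0 * l ^ s : ℕ) * γ0) μ
        - A3 (FZ l q0 n e ψ) 0 ((q0 * l ^ s : ℕ) * γ0) μ)
      + (1 - 2 * (e : ZMod (l ^ (n + 1))) * (((q0 * l ^ i : ℕ) * τ0 : ℤ) : ZMod (l ^ (n + 1))))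
        * (A3 (FZ l q0 n e ψ) (-((q0 * l ^ i : ℕ) * τ0)) (-((q0 * l ^ s : ℕ) * γ0))
            (μ - (q0 * l ^ s : ℕ) * γ0 + (1 + 4 * μ) * ((q0 * l ^ i : ℕ) * τ0))
          - A3 (FZ l q0 n e ψ) 0 (-((q0 * l ^ s : ℕ) * γ0))
            (μ - (q0 * l ^ s : ℕ) * γ0 + (1 + 4 * μ) * ((q0 * l ^ i : ℕ) * τ0)))
      = 2 * (q0 : ZMod (l ^ (n + 1))) * (τ0 : ZMod (l ^ (n + 1)))
        * (SX (QN l q0 n) (I1 l q0 n e ψ 1 (-1) μ 0 (2 * γ0)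
              (γ0 - (1 + 4 * μ) * (l ^ (i - s) * τ0)))
          + SX (QN l q0 n) (I1 l q0 n e ψ μ (2 * μ + 1) (-μ) (γ0 - (1 + 4 * μ) * (l ^ (i - s) * τ0))
              (-((2 + 4 * μ) * (l ^ (i - s) * τ0))) (γ0 - l ^ (i - s) * τ0)))

/-- **RZR**, the sum of the two halves. Uses BSY, UNI, AFA, AFB, AFC, LFB, MEA, CQP, RED. With the
symbols of LFB, `Z = SX(I0 μ (-1) 1)`, `Z1 = SX(I0 1 (-1) μ)`:
`A3 τ γ μ + B3 τ γ μ = A3 τ γ μ + (1-2eτ) A3 (-τ) (-γ) μ' = (LFB) + A3 0 γ μ + (1-2eτ) A3 0 (-γ) μ'`.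
By AFA `A3 0 γ μ = - A3 0 (-γ) μ1`, `μ1 = μ - γ`; `A3 0 (-γ) μ' - A3 0 (-γ) μ1
= -2 q0 γ0 D τ0 SX(I1 μ1 (-1) 1 1 0 0)` (AFC with `w = Dτ0`, `γ0 → -γ0`), and
`-2eτ A3 0 (-γ) μ' = -2 e τ0 (N A3 0 (-γ) μ') = 4 e τ0 q0 γ0 Z` (AFB, RED).
MEA pointwise: `2 e0 D SX(I1 μ (-1) 1 1 0 0) = (2e0+1) e 4 Z` (`S' = 0`, `D' = 4`);
`2 e0 μ D SX I1(1,-1,μ;0,2γ0,γ0-Dt') = (-2e(e0+1)(γ0-Dt')D - 4(2e0+1)e D t' μ) Z1`
(`D' = -4Dt'`), `-2 e0 μ D SX I1(μ,2μ+1,-μ;..) = (-2e(e0+1)(γ0-t')D + 4(2e0+1)eDt'μ) SX I0(μ,2μ+1,-μ)`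
(`D' = -4Dt'`), `SX I0(μ,2μ+1,-μ) = -Z1`, `F(μ) Z1 = Z` (CQP). `D` is a unit of `M` (`l ∤ D`): cancel it.
So `2 e0 μ (sum of the two I1) = -2e(e0+1)(2γ0 - (D+1)t') Z1 = -4e(e0+1)(γ0 - (1+2μ)t') Z1`, and
`e0 μ F(μ) (A3+B3) = q0 τ0 F(μ) (-4e(e0+1)(γ0-(1+2μ)t') Z1) + μ F(μ) (4 e e0 - 4(2e0+1)e) τ0 q0 γ0 Z
= -4e(e0+1) q0 τ0 Z (γ0 - (1+2μ)t' + γ0 μ F(μ))`. -/
def Stmt_RZR : Prop := ∀ (l q0 n e e0 : ℕ) (ψ : ℤ → ℤ) [NeZero (QN l q0 n)], Fm l q0 n e e0 ψ →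
    ∀ i s : ℕ, 1 ≤ s → s ≤ i → i + s = n + 1 → ∀ τ0 γ0 μ : ℤ, IsCoprime μ ((q0 * l : ℕ) : ℤ) →
    ¬ (l : ℤ) ∣ 1 + 4 * μ →
    (e0 : ZMod (l ^ (n + 1))) * (μ : ZMod (l ^ (n + 1))) * FN l n e ψ μ
        * (A3 (FZ l q0 n e ψ) ((q0 * l ^ i : ℕ) * τ0) ((q0 * l ^ s : ℕ) * γ0) μ
          + B3 (FZ l q0 n e ψ) ((q0 * l ^ i : ℕ) * τ0) ((q0 * l ^ s : ℕ) * γ0) μ)
      = -4 * (e : ZMod (l ^ (n + 1))) * ((e0 : ZMod (l ^ (n + 1))) + 1)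
        * (q0 : ZMod (l ^ (n + 1))) * (τ0 : ZMod (l ^ (n + 1)))
        * SX (QN l q0 n) (I0 l q0 n e ψ μ (-1) 1)
        * ((γ0 : ZMod (l ^ (n + 1)))
          - (1 + 2 * (μ : ZMod (l ^ (n + 1)))) * ((l : ZMod (l ^ (n + 1))) ^ (i - s)
            * (τ0 : ZMod (l ^ (n + 1))))
          + (γ0 : ZMod (l ^ (n + 1))) * (μ : ZMod (l ^ (n + 1))) * FN l n e ψ μ)

/-- **SEC**, the second order formula. Uses RDC, RZR, RED (`l Z = 0`). With `C1 = q0 γ0 τ0`,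
`A1 = q0 l^(i-s) τ0²`, `y ≡ (2m+1)δ1 - 2m A1 - 2 C1` mod `l`, `Z = SX(I0 m (-1) 1)`:
`e0 m F R6 = e0 m F (A3 + B3) + 2 e0 m Z (y F + 2 δ1)`, `F = FN m`, insert. -/
def Stmt_SEC : Prop := ∀ (l q0 n e e0 : ℕ) (ψ : ℤ → ℤ) [NeZero (QN l q0 n)], Fm l q0 n e e0 ψ →
    ∀ i s : ℕ, 1 ≤ s → s ≤ i → i + s = n + 1 → ∀ a b c B m r p γ0 τ0 δ1 y : ℤ,
    IsCoprime m ((q0 * l : ℕ) : ℤ) → ¬ (l : ℤ) ∣ 1 + 4 * m →
    c - 1 = (q0 * l ^ s : ℕ) * γ0 → a - 1 = (q0 * l ^ i : ℕ) * τ0 →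
    (a - 1) - (b + 1) = (QN l q0 n : ℕ) * δ1 → B = c - 2 + (QN l q0 n : ℕ) * y →
    (l : ℤ) ∣ y - ((2 * m + 1) * δ1 - 2 * m * (q0 * l ^ (i - s) * τ0 ^ 2) - 2 * (q0 * γ0 * τ0)) →
    ((QN l q0 n : ℕ) : ℤ) ∣ r - (-m + (c - 1) - (1 + 2 * m) * (a - 1)) →
    ((QN l q0 n : ℕ) : ℤ) ∣ p - (-1 + 2 * (a - 1)) →
    ((QN l q0 n : ℕ) : ℤ) ∣ (2 * a * m - B) - (2 * m + 1 - (c - 1) + 2 * m * (a - 1)) →
    (e0 : ZMod (l ^ (n + 1))) * (m : ZMod (l ^ (n + 1))) * FN l n e ψ m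
        * R6 (FZ l q0 n e ψ) a b c B m r p
      = 2 * SX (QN l q0 n) (I0 l q0 n e ψ m (-1) 1)
        * ((e0 : ZMod (l ^ (n + 1))) * m * ((1 + 2 * (m : ZMod (l ^ (n + 1)))) * FN l n e ψ m + 2) * δ1
          + (-2 * (e0 : ZMod (l ^ (n + 1))) * m * FN l n e ψ m
              - 2 * (e : ZMod (l ^ (n + 1))) * (e0 + 1) * ((m : ZMod (l ^ (n + 1))) * FN l n e ψ m + 1))
            * ((q0 * γ0 * τ0 : ℤ) : ZMod (l ^ (n + 1)))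
          + (-2 * (m : ZMod (l ^ (n + 1))) ^ 2 * e0 * FN l n e ψ m
              + 2 * (e : ZMod (l ^ (n + 1))) * (e0 + 1) * (1 + 2 * m))
            * ((q0 * l ^ (i - s) * τ0 ^ 2 : ℤ) : ZMod (l ^ (n + 1))))

/-- **VAN**, cancelling the constant. If `2 SX(I0 P R S) X = 0` in `M` with `S` prime to `q0 l`,
`¬ l ∣ CR l q0 e ψ (R²+4PS)` and `X` the cast of an integer `Xz`, then `l ∣ Xz`: by CQC, multiplying by
`F(4S)`, `CC(D) X = 0`, and `CC(D) = l^n CR(D)` (`P4G.CC_eq`), so `l^(n+1) ∣ l^n CR(D) Xz`. -/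
def Stmt_VAN : Prop := ∀ (l q0 n e : ℕ) (ψ : ℤ → ℤ) [NeZero (QN l q0 n)], Fam l q0 n e ψ →
    ∀ P R S Xz : ℤ, IsCoprime S ((q0 * l : ℕ) : ℤ) → ¬ (l : ℤ) ∣ CR l q0 e ψ (R ^ 2 + 4 * P * S) →
    2 * SX (QN l q0 n) (I0 l q0 n e ψ P R S) * ((Xz : ℤ) : ZMod (l ^ (n + 1))) = 0 → (l : ℤ) ∣ Xz

/-- **NRC**, nonresidue discriminants: `m`, `c-1-m` are prime to `105·13 = 1365`. If a prime
`q ∈ {3,5,7,13}` divides `m` then `(c-2)² + 4m ≡ (c-2)²`, and a square never satisfies the condition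
of `Nr` (`decide` in `ZMod q`); `(c-2)² + 4m = c² - 4(c-1-m)`. Third part: if `1365 ∣ B - (c-2)` then
`Nr (B²+4m)` gives `Nr ((c-2)²+4m)` (casts). Fourth: `13 ∤ (c-2)²+4m`. -/
def Stmt_NRC : Prop := ∀ c m : ℤ, Nr ((c - 2) ^ 2 + 4 * m) →
    IsCoprime m 1365 ∧ IsCoprime (c - 1 - m) 1365 ∧ ¬ (13 : ℤ) ∣ (c - 2) ^ 2 + 4 * m

/-- **NRT**, transport of `Nr`. -/
def Stmt_NRT : Prop := ∀ D E : ℤ, (1365 : ℤ) ∣ D - E → Nr D → Nr E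

/-- **VFO**, one step, first order. Uses CYA, FST, VAN, NRC, NRT. Let `q0 ∣ 105`, `n`, and `e, ψ` from
`FamOK` at level `n`; `Q = QN 13 q0 n = q0 13^(n+1)`, `105 = q0 κ`; then `a - 1 = Q (κ α1)`,
`b + 1 = Q (κ β1)`. CYA (with `Q`, `l = 13`), FST with `R6 = 0` (`Rel`), and the bracket is the cast of
the integer `Xz = y f(m) f(r0) + 2κα1 f(r0) + 2κβ1 f(m)`, `f(u) = ψ(u) u^e`; VAN (form `(m,c-2,1)`,
discriminant `(c-2)²+4m`, `Nr` by NRT as `105·13 ∣ B - (c-2)`: apply CYA with `Q = 1365` for this) gives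
`13 ∣ Xz`; reduce modulo `13` (`fb e ψ u = χ u`), replace `y` by its value, and divide by `κ`, a unit
modulo `13`. -/
def Stmt_VFO : Prop := ∀ (q0 e0 k : ℕ) (χ : ℤ → ZMod 13), q0 ∣ 105 → FamOK q0 e0 k χ →
    ∀ (a b c B m r p α1 β1 : ℤ) (n : ℕ), Cl a b c B m r p → Nr (B ^ 2 + 4 * m) → Rel a b c B m r p →
    a - 1 = 105 * 13 ^ (n + 1) * α1 → b + 1 = 105 * 13 ^ (n + 1) * β1 → FO χ c m α1 β1 = 0

/-- **VSO**, one step, second order. Uses CYB, SEC, VAN, NRC, NRT. Let `105 = q0 κ`. With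
`γ0 → κγ0`, `τ0 → κτ0`, `δ1 → κδ1` the hypotheses of CYB and SEC hold for `q0`, `l = 13`;
`q0 (κγ0)(κτ0) = κ · 105 γ0 τ0` and `q0 13^(i-s) (κτ0)² = κ · 105 13^(i-s) τ0²`. `R6 = 0` by `Rel`; VAN
(form `(m,-1,1)`, discriminant `1+4m`, `Nr (1+4m)` by NRT, as `B ≡ -1`), the bracket is the cast of an
integer; `e ≡ k` mod `13` (`n ≥ 1`), `fb e ψ = χ`; divide by `κ`. -/
def Stmt_VSO : Prop := ∀ (q0 e0 k : ℕ) (χ : ℤ → ZMod 13), q0 ∣ 105 → FamOK q0 e0 k χ →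
    ∀ (a b c B m r p γ0 τ0 δ1 : ℤ) (n i s : ℕ), Cl a b c B m r p → Nr (B ^ 2 + 4 * m) →
    Rel a b c B m r p → 1 ≤ s → s ≤ i → i + s = n + 1 →
    c - 1 = 105 * 13 ^ s * γ0 → a - 1 = 105 * 13 ^ i * τ0 →
    (a - 1) - (b + 1) = 105 * 13 ^ (n + 1) * δ1 →
    SO e0 k χ m δ1 (105 * γ0 * τ0) (105 * 13 ^ (i - s) * τ0 ^ 2) = 0

/-- **RKA**, ranks of first order (kernel check over residues; helper26). -/
def Stmt_RKA : Prop := ∀ c m α β : ℤ, Nr ((c - 2) ^ 2 + 4 * m) → ¬ (1365 : ℤ) ∣ c - 1 →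
    FO χ0 c m α β = 0 → FO χ3 c m α β = 0 → FO χ4 c m α β = 0 → FO χ5 c m α β = 0 →
    FO χ6 c m α β = 0 → (13 : ℤ) ∣ α ∧ (13 : ℤ) ∣ β

/-- **RKB**, ranks of second order (kernel check over residues; helper26). -/
def Stmt_RKB : Prop := ∀ m δ C A : ℤ, Nr (1 + 4 * m) →
    SO 11 6 χ0 m δ C A = 0 → SO 8 11 χ3 m δ C A = 0 → SO 11 3 χ4 m δ C A = 0 →
    (13 : ℤ) ∣ δ ∧ (13 : ℤ) ∣ C ∧ (13 : ℤ) ∣ A

/-- **RKC**, first order at `c ≡ 1`: only `α - β` is visible (follows from RKB with `C = A = 0`: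
for `1365 ∣ c - 1`, `χ(c-1-m) = χ(-m) = -χ(m)`, so `e0 m FO = -χ(m) · SO(δ = α - β, 0, 0)`, where
`K = 1 + 2m` modulo `13`; the `χ` are odd and `1365`-periodic, finite checks over residues; here
`e0 m` is a unit of `ZMod 13`). -/
def Stmt_RKC : Prop := ∀ c m α β : ℤ, Nr ((c - 2) ^ 2 + 4 * m) → (1365 : ℤ) ∣ c - 1 →
    FO χ0 c m α β = 0 → FO χ3 c m α β = 0 → FO χ4 c m α β = 0 → (13 : ℤ) ∣ α - β

/-- **FAM**, the five families (helper26). -/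
def Stmt_FAM : Prop := FamOK 15 11 6 χ0 ∧ FamOK 35 8 11 χ3 ∧ FamOK 105 11 3 χ4 ∧
    FamOK 105 9 1 χ5 ∧ FamOK 105 11 5 χ6

/-- **DSA**, descent for `c` not `1` modulo `1365`. Uses VFO, RKA, FAM, CYA, NRT. By induction on `n`,
`105·13^(n+1)` divides `a-1` and `b+1`: at level `n` write `a-1 = 105·13^(n+1) α1`, `b+1 = ..β1`, the
five relations VFO and RKA give `13 ∣ α1, β1` (`Nr ((c-2)²+4m)` from `Nr (B²+4m)` by CYA with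
`Q = 1365` and NRT). An integer divisible by all powers of `13` is zero. -/
def Stmt_DSA : Prop := ∀ a b c B m r p : ℤ, Cl a b c B m r p → Nr (B ^ 2 + 4 * m) →
    Rel a b c B m r p → (1365 : ℤ) ∣ a - 1 → (1365 : ℤ) ∣ b + 1 → ¬ (1365 : ℤ) ∣ c - 1 →
    a = 1 ∧ b = -1

/-- **DSB**, descent for `c ≡ 1` modulo `1365`. Uses VFO, VSO, RKB, RKC, FAM, CYA, NRT. Claim: if
`105·13^i` (`i ≥ 1`) divides `a-1` and `b+1` then so does `105·13^(i+1)`. Let `δ = (a-1)-(b+1)`,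
`α = a-1 = 105·13^i τ0`. Step 0: VFO with `n = i-1` for `χ0,χ3,χ4` and RKC: `105·13^(i+1) ∣ δ`. Let
`1 ≤ s ≤ i` be such that `105·13^s ∣ c-1`, `= 105·13^s γ0`, and `105·13^(i+s) ∣ δ`: VSO for
`χ0,χ3,χ4` with `n = i+s-1` and RKB give `13 ∣ δ1`, so `105·13^(i+s+1) ∣ δ`, `13 ∣ 105γ0τ0`, and
`13 ∣ 105·13^(i-s)τ0²`. Case (A) some `s` with `1 ≤ s ≤ i`, `105·13^s ∣ c-1` but not `105·13^(s+1)`
(so `13 ∤ γ0`): induct from `1` to `s`, at `s` get `13 ∣ γ0τ0`, so `13 ∣ τ0`. Case (B)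
`105·13^(i+1) ∣ c-1`, or `s = i`: induct up to `s = i`, at `s = i` get `13 ∣ 105 τ0²`, so `13 ∣ τ0`. In both
cases `105·13^(i+1)` divides `a-1` and `δ`, hence `b+1`. (Note `105` and `13` are coprime:
`105·13^s ∣ c-1` iff `105 ∣ c-1` and `13^s ∣ c-1`.) Start `i = 1` from the hypothesis; an integer
divisible by all powers of `13` is zero. -/
def Stmt_DSB : Prop := ∀ a b c B m r p : ℤ, Cl a b c B m r p → Nr (B ^ 2 + 4 * m) →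
    Rel a b c B m r p → (1365 : ℤ) ∣ a - 1 → (1365 : ℤ) ∣ b + 1 → (1365 : ℤ) ∣ c - 1 →
    a = 1 ∧ b = -1

/-- **FIN**, the ghost line theorem: DSA and DSB. -/
def Stmt_FIN : Prop := ∀ a b c B m r p : ℤ, Cl a b c B m r p → Nr (B ^ 2 + 4 * m) →
    Rel a b c B m r p → (1365 : ℤ) ∣ a - 1 → (1365 : ℤ) ∣ b + 1 → a = 1 ∧ b = -1

end Pool.Agent.PSX
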