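import Pool.Agent.PSX.StG

/-!
# Period six, module AFB: the half sum near `γ = 0`
-/

set_option autoImplicit false

namespace Pool.Agent.PSX

open Finset (range)
open Pool.Agent.P4G (Fam QN FN FZ CC CR)

theorem t_AFB (hPHN : Stmt_PHN) (hLCM : Stmt_LCM) (hPPO : Stmt_PPO) (hEFZ : Stmt_EFZ)
    (hAFA : Stmt_AFA) : Stmt_AFB := by
  intro l q0 n e e0 ψ _ hF i s hs his γ0 μ
  have h := hF.fam
  have h0 := (hAFA l q0 n e e0 ψ hF).2 μ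
  have hd : ∀ t w : ℤ, ((q0 * l ^ s : ℕ) : ℤ) ∣ (w + ((q0 * l ^ s : ℕ) : ℤ) * t) - w :=
    fun t w => ⟨t, by ring⟩
  have e4 : ∀ γ : ℤ, (2 * μ + 1 - γ + 2 * μ * 0 : ℤ) = 2 * μ + 1 - γ := fun γ => by ring
  have e5 : ∀ γ : ℤ, (-μ + γ - (1 + 2 * μ) * 0 : ℤ) = -μ + γ := fun γ => by ring
  have e6 : (1 + 0 : ℤ) = 1 := by ring
  have e7 : (-1 + 0 : ℤ) = -1 := by ring
  have e8 : ((1 : ℤ) : ZMod (QN l q0 n)) = 1 := by push_cast; rfl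
  have p1 := (hPHN l q0 n e ψ h i s (by omega) μ (-1) 1 μ (-1 + ((q0 * l ^ s : ℕ) : ℤ) * γ0) 1
    (by simp) (hd _ _) (by simp)).1 (-1 + ((q0 * l ^ s : ℕ) : ℤ) * γ0)
  have p2 := (hPHN l q0 n e ψ h i s (by omega) 1 (-1) μ 1 (-1 + ((q0 * l ^ s : ℕ) : ℤ) * γ0) μ
    (by simp) (hd _ _) (by simp)).1 1
  have p3 := (hPHN l q0 n e ψ h i s (by omega) μ (2 * μ + 1) (-μ) μ
    (2 * μ + 1 - ((q0 * l ^ s : ℕ) : ℤ) * γ0) (-μ + ((q0 * l ^ s : ℕ) : ℤ) * γ0)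
    (by simp) ⟨-γ0, by ring⟩ (hd _ _)).1 (-1)
  have hpol : ∀ x, Pol l n ψ (fun y => FN l n e ψ (evZ μ (-1) 1 x y)) := by
    intro x
    have := (hPPO l q0 n e ψ h).1 μ (-1) 1 x 0 1
    simpa using this
  have q1 := hLCM l q0 n e ψ h i s hs his (fun x y => FN l n e ψ (evZ μ (-1) 1 x y)) hpol (-1) γ0
  rw [← hEFZ l q0 n e ψ h μ (-1) 1, ← hEFZ l q0 n e ψ h μ (-1) 1] at q1
  have hI : (fun x => ∑ j ∈ range (QN l q0 n), FN l n e ψ (evZ μ (-1) 1 x j))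
      = I0 l q0 n e ψ μ (-1) 1 := rfl
  have q2 := q1
  simp only [hI] at q2
  unfold A3 at h0 ⊢
  rw [e4, e5, e6, e7] at h0 ⊢
  rw [e8] at p1 p2 q2
  have e9 : (-1 + 0 : ℤ) = -1 := by ring
  have e10 : (2 * μ + 1 - 0 : ℤ) = 2 * μ + 1 := by ring
  have e11 : (-μ + 0 : ℤ) = -μ := by ring
  rw [e10, e11] at h0
  linear_combination p1 + p2 + p3 + q2 + ((q0 * l ^ i : ℕ) : ZMod (l ^ (n + 1))) * h0

end Pool.Agent.PSX
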