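import Pool.Agent.PSX.E6Rep

/-!
Period eight: the palindromic cycle `(B; a, b, c, e, c, b, a)`.
-/

namespace Pool.Agent.PSX.E8

open Finset (range)
open Pool.Agent.LibH4 Pool.Agent.LibH4.FA Pool.Agent.Lib_helper5

/-- parameters of a cycle of length eight; the last coefficients of the forms are
`1, m, r, q, p, q, r, m` -/
structure Par (a b c e B : ℕ) (m r q p : ℤ) : Prop where
  ha : 1 ≤ a
  hb : 1 ≤ b
  hc : 1 ≤ c
  he : 1 ≤ e
  hB : 1 ≤ B
  hm : 1 < m
  hr : 1 < r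
  hq : 1 < q
  hp : 1 < p
  e1 : r = 1 + B * a - m * (a : ℤ) ^ 2
  e2 : q = m + (2 * a * m - B) * b - r * (b : ℤ) ^ 2
  e3 : p = r + (2 * b * r - (2 * a * m - B)) * c - q * (c : ℤ) ^ 2
  e4 : (e : ℤ) * p = 2 * c * q - (2 * b * r - (2 * a * m - B))
  lo : (B : ℤ) < e * p + 2 * p
  hi : (e : ℤ) * p < B + 2

/-- the first coefficients -/
def P (m r q p : ℤ) : ℕ → ℤ
  | 1 => 1
  | 3 => r
  | 4 => q
  | 5 => p
  | 6 => q
  | 7 => r
  | _ => m

/-- the middle coefficients -/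
def R (a b c B : ℕ) (m r q : ℤ) : ℕ → ℤ
  | 2 => 2 * a * m - B
  | 3 => 2 * b * r - (2 * a * m - B)
  | 4 => 2 * c * q - (2 * b * r - (2 * a * m - B))
  | 5 => 2 * c * q - (2 * b * r - (2 * a * m - B))
  | 6 => 2 * b * r - (2 * a * m - B)
  | 7 => 2 * a * m - B
  | _ => B

/-- the last coefficients -/
def S (m r q p : ℤ) : ℕ → ℤ
  | 0 => 1
  | 2 => r
  | 3 => q
  | 4 => p
  | 5 => q
  | 6 => r
  | 8 => 1
  | _ => m

/-- the multipliers -/
def C (a b c e B : ℕ) : ℕ → ℕ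
  | 0 => B
  | 2 => b
  | 3 => c
  | 4 => e
  | 5 => c
  | 6 => b
  | _ => a

variable {a b c e B : ℕ} {m r q p : ℤ}

theorem cyc (h : Par a b c e B m r q p) :
    CG.CycM m B 8 (P m r q p) (R a b c B m r q) (S m r q p) (C a b c e B) where
  hP k hk := by
    interval_cases k <;> simp [P, S]
  hR k hk := by
    have h3 := h.e4
    interval_cases k <;> simp only [R, S, C] <;> linarith
  hS k hk := by
    have h1 := h.e1
    have h2 := h.e2
    have h3 := h.e3
    have h4 := h.e4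
    interval_cases k <;> simp only [P, R, S, C]
    · ring
    · linarith
    · linarith
    · linarith
    · linear_combination (e : ℤ) * h4
    · linarith
    · linarith
    · linarith
  P0 := rfl
  R0 := rfl
  S0 := rfl
  Spos k hk := by
    have h1 := h.hm
    have h2 := h.hr
    have h3 := h.hp
    have h4 := h.hq
    interval_cases k <;> simp only [S] <;> omega
  Ppos0 := by
    have h1 := h.hm
    simp only [P]; omega
  cpos k hk := by
    have h1 := h.ha
    have h2 := h.hb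
    have h3 := h.hc
    have h4 := h.hB
    have h5 := h.he
    interval_cases k <;> simp only [C] <;> omega
  Pm := rfl
  RB := rfl
  S1 := rfl

lemma closing (h : Par a b c e B m r q p) :
    CG.rho m B (C a b c e B) 8 = CG.rho m B (C a b c e B) (8 + 1) * CG.om m B := by
  have e2 : CG.rho m B (C a b c e B) 2 = ⟨-B, 1⟩ := by
    rw [CG.rho_add _ 0, CG.rho_zero, CG.rho_one]
    ext
    · simp [CG.om, C]
    · simp [CG.om, C]
  have e3 : CG.rho m B (C a b c e B) 3 = ⟨1 + a * B, -a⟩ := by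
    rw [CG.rho_add _ 1, CG.rho_one, e2]
    ext
    · simp [C, QuadraticAlgebra.re_one]
    · simp [C, QuadraticAlgebra.im_one]
  obtain ⟨x4, hx4⟩ : ∃ x : ℤ, x = -B - b * (1 + a * B) := ⟨_, rfl⟩
  obtain ⟨y4, hy4⟩ : ∃ x : ℤ, x = 1 + b * a := ⟨_, rfl⟩
  have e4 : CG.rho m B (C a b c e B) 4 = ⟨x4, y4⟩ := by
    rw [CG.rho_add _ 2, e2, e3, hx4, hy4]
    ext
    · simp [C]
    · simp [C]
  obtain ⟨x5, hx5⟩ : ∃ x : ℤ, x = 1 + a * B - c * x4 := ⟨_, rfl⟩
  obtain ⟨y5, hy5⟩ : ∃ x : ℤ, x = -a - c * y4 := ⟨_, rfl⟩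
  have e5 : CG.rho m B (C a b c e B) 5 = ⟨x5, y5⟩ := by
    rw [CG.rho_add _ 3, e3, e4, hx5, hy5]
    ext
    · simp [C]
    · simp [C]
  obtain ⟨x6, hx6⟩ : ∃ x : ℤ, x = x4 - e * x5 := ⟨_, rfl⟩
  obtain ⟨y6, hy6⟩ : ∃ x : ℤ, x = y4 - e * y5 := ⟨_, rfl⟩
  have e6 : CG.rho m B (C a b c e B) 6 = ⟨x6, y6⟩ := by
    rw [CG.rho_add _ 4, e4, e5, hx6, hy6]
    ext
    · simp [C]
    · simp [C]
  obtain ⟨x7, hx7⟩ : ∃ x : ℤ, x = x5 - c * x6 := ⟨_, rfl⟩
  obtain ⟨y7, hy7⟩ : ∃ x : ℤ, x = y5 - c * y6 := ⟨_, rfl⟩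
  have e7 : CG.rho m B (C a b c e B) 7 = ⟨x7, y7⟩ := by
    rw [CG.rho_add _ 5, e5, e6, hx7, hy7]
    ext
    · simp [C]
    · simp [C]
  obtain ⟨x8, hx8⟩ : ∃ x : ℤ, x = x6 - b * x7 := ⟨_, rfl⟩
  obtain ⟨y8, hy8⟩ : ∃ x : ℤ, x = y6 - b * y7 := ⟨_, rfl⟩
  have e8 : CG.rho m B (C a b c e B) 8 = ⟨x8, y8⟩ := by
    rw [CG.rho_add _ 6, e6, e7, hx8, hy8]
    ext
    · simp [C]
    · simp [C]
  have e9 : CG.rho m B (C a b c e B) (8 + 1) = ⟨x7 - a * x8, y7 - a * y8⟩ := by
    rw [CG.rho_add _ 7, e7, e8]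
    ext
    · simp [C]
    · simp [C]
  have h1 := h.e1
  have h2 := h.e2
  have h3 := h.e3
  have h4 := h.e4
  rw [e8, e9, CG.om, QuadraticAlgebra.mk_mul_mk]
  have key := h4
  rw [h3, h2, h1] at key
  ext
  · simp only
    rw [hx8, hx7, hy8, hy7, hx6, hy6, hx5, hy5, hx4, hy4]
    linear_combination (-1 : ℤ) * key
  · simp only
    rw [hx8, hx7, hy8, hy7, hx6, hy6, hx5, hy5, hx4, hy4]
    ring

lemma P_ne (h : Par a b c e B m r q p) : ∀ k < 8, k ≠ 1 → P m r q p k ≠ 1 := by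
  have h1 := h.hm
  have h2 := h.hr
  have h3 := h.hp
  have h4 := h.hq
  intro k hk hk1
  interval_cases k
  · simp only [P]; omega
  · exact absurd rfl hk1
  all_goals simp only [P]; omega

/-- elements of norm below `m`, `r` and `q` have norm `x²` or `p x²` -/
lemma norm_small (h : Par a b c e B m r q p) {n : ℕ} (hn : n ≠ 0) (h1 : (n : ℤ) < m)
    (h2 : (n : ℤ) < r) (h2' : (n : ℤ) < q) (β : QuadraticAlgebra ℤ m (B : ℤ))
    (hβ : β.norm.natAbs = n) :
    ∃ x : ℕ, (n : ℤ) = (x : ℤ) ^ 2 ∨ (n : ℤ) = p * (x : ℤ) ^ 2 := by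
  have hm0 : 0 < m := by have := h.hm; omega
  have hr0 : 0 < r := by have := h.hr; omega
  have hq0 : 0 < q := by have := h.hq; omega
  have hp0 : 0 < p := by have := h.hp; omega
  have hC := cyc h
  obtain ⟨k, hk, x, y, hx, hy, he⟩ := even_repr hm0 hC 4 rfl (by norm_num) (closing h) β n hn hβ
  have hx' : (1 : ℤ) ≤ x := by exact_mod_cast hx
  have hxx : (1 : ℤ) ≤ (x : ℤ) ^ 2 := by nlinarith
  rcases Nat.eq_zero_or_pos y with hy0 | hy0
  · subst hy0
    have he' : P m r q p k * (x : ℤ) ^ 2 = n := by rw [← he]; push_cast; ring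
    refine ⟨x, ?_⟩
    interval_cases k <;> simp only [P] at he'
    · exfalso; nlinarith
    · left; linarith
    · exfalso; nlinarith
    · exfalso; nlinarith
    · exfalso; nlinarith
    · right; linarith
    · exfalso; nlinarith
    · exfalso; nlinarith
  · exfalso
    have hy1 : (1 : ℤ) ≤ y := by exact_mod_cast hy0
    have hyc : (y : ℤ) + 1 ≤ C a b c e B k * x := by exact_mod_cast hy
    interval_cases k
    · simp only [P, R, S, C] at he hyc
      have h1 : m ≤ m * (x : ℤ) ^ 2 := by nlinarith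
      have h2 : 0 ≤ (y : ℤ) * (B * x - y) := mul_nonneg (by linarith) (by linarith)
      nlinarith
    · have h1 := E5.edge_gt (hC.cpos 1 (by omega)) (hC.toCyc.Ppos (k := 1) (by omega))
        (hC.Spos 1 (by omega)) (CG.hAend hC 1 (by omega)) hy1 hyc
      rw [he] at h1
      simp only [S] at h1
      omega
    · have h1 := E5.edge_gt (hC.cpos 2 (by omega)) (hC.toCyc.Ppos (k := 2) (by omega))
        (hC.Spos 2 (by omega)) (CG.hAend hC 2 (by omega)) hy1 hyc
      rw [he] at h1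
      simp only [S] at h1
      omega
    · have h1 := E5.edge_gt (hC.cpos 3 (by omega)) (hC.toCyc.Ppos (k := 3) (by omega))
        (hC.Spos 3 (by omega)) (CG.hAend hC 3 (by omega)) hy1 hyc
      rw [he] at h1
      simp only [S] at h1
      omega
    · simp only [P, R, S, C] at he hyc
      -- `q x² + R x y - p y² ≥ q` since `R x - p y = p (e x - y)`
      have h1 : q ≤ q * (x : ℤ) ^ 2 := by nlinarith
      have h2 : 0 ≤ p * ((y : ℤ) * (e * x - y)) :=
        mul_nonneg hp0.le (mul_nonneg (by linarith) (by linarith))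
      have h3 : (2 * (c : ℤ) * q - (2 * b * r - (2 * a * m - B))) * x * y - p * (y : ℤ) ^ 2 =
          p * ((y : ℤ) * (e * x - y)) := by
        rw [← h.e4]; ring
      nlinarith
    · have h1 := E5.edge_gt (hC.cpos 5 (by omega)) (hC.toCyc.Ppos (k := 5) (by omega))
        (hC.Spos 5 (by omega)) (CG.hAend hC 5 (by omega)) hy1 hyc
      rw [he] at h1
      simp only [S] at h1
      omega
    · have h1 := E5.edge_gt (hC.cpos 6 (by omega)) (hC.toCyc.Ppos (k := 6) (by omega))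
        (hC.Spos 6 (by omega)) (CG.hAend hC 6 (by omega)) hy1 hyc
      rw [he] at h1
      simp only [S] at h1
      omega
    · have h1 := E5.edge_gt (hC.cpos 7 (by omega)) (hC.toCyc.Ppos (k := 7) (by omega))
        (hC.Spos 7 (by omega)) (CG.hAend hC 7 (by omega)) hy1 hyc
      rw [he] at h1
      simp only [S] at h1
      omega

/-- primes below `m`, `r` and `q` with a root are equal to `p` -/
theorem eq_of_root (h : Par a b c e B m r q p)
    [IsDomain (QuadraticAlgebra ℤ m (B : ℤ))]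
    [UniqueFactorizationMonoid (QuadraticAlgebra ℤ m (B : ℤ))]
    {l : ℕ} (hl : l.Prime) (h1 : (l : ℤ) < m) (h2 : (l : ℤ) < r) (h3 : (l : ℤ) < q) (x : ℤ)
    (hx : (l : ℤ) ∣ x ^ 2 + B * x - m) : p = l := by
  obtain ⟨π, hπ⟩ := exists_norm_of_root hl hx
  obtain ⟨z, hz | hz⟩ := norm_small h hl.ne_zero h1 h2 h3 π hπ
  · exfalso
    apply hl.prime.irreducible.not_isSquare
    exact ⟨z, by zify; rw [hz]; ring⟩
  · exact eq_of_prime_mul_sq hl hz.symm

end Pool.Agent.PSX.E8
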