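import Pool.Agent.RQM.C45
import Pool.Agent.PSX.E8

/-!
The cycle of length eight from the continued fraction of `ω_d`.
-/

namespace Pool.Agent.PSX

open Real Function Pool.Agent.Lib_helper5 Pool.Agent.LibH4 Pool.Agent.LibH4.CFO

variable {m B : ℤ} {s : ℝ} {x : ℕ → ℝ} {c : ℕ → ℕ}

/-- cycles of length eight -/
theorem par_eight (h : Data m B s x c) (hL : minimalPeriod gsh (x 1) = 8) :
    E8.Par (c 1) (c 2) (c 3) (c 4) (c 0) m (QS m B c 2) (QS m B c 3) (QS m B c 4) := by
  have hfix : gsh^[8] (x 1) = x 1 := by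
    have := isPeriodicPt_minimalPeriod gsh (x 1)
    rw [hL] at this
    exact this
  have hper := x_per h hfix
  obtain ⟨-, p1, -, -⟩ := palin h hper 4 4 rfl
  have s2 := QS_succ (m := m) (B := B) (c := c) 1
  have s3 := QS_succ (m := m) (B := B) (c := c) 2
  have s4 := QS_succ (m := m) (B := B) (c := c) 3
  have r2 := QR_succ (m := m) (B := B) (c := c) 1
  have r3 := QR_succ (m := m) (B := B) (c := c) 2
  have r4 := QR_succ (m := m) (B := B) (c := c) 3
  have r5 := QR_succ (m := m) (B := B) (c := c) 4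
  have q1 := QP_succ (m := m) (B := B) (c := c) 0
  have q2 := QP_succ (m := m) (B := B) (c := c) 1
  have q3 := QP_succ (m := m) (B := B) (c := c) 2
  rw [QR_one h, QS_one h] at r2
  rw [QS_one h] at q2
  rw [QS_zero] at q1
  have e0 := c_zero h
  have r2' : QR m B c 2 = 2 * (c 1) * m - B := r2
  have r3' : QR m B c 3 = 2 * (c 2) * QS m B c 2 - QR m B c 2 := r3
  have r4' : QR m B c 4 = 2 * (c 3) * QS m B c 3 - QR m B c 3 := r4
  have p2 : QR m B c 4 = QR m B c (4 + 1) := p1
  have h45 : (c 4 : ℤ) * QS m B c 4 = QR m B c 4 := by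
    rw [r5] at p2
    linarith
  exact {
    ha := (inv_of h 1).cpos
    hb := (inv_of h 2).cpos
    hc := (inv_of h 3).cpos
    he := (inv_of h 4).cpos
    hB := (inv_of h 0).cpos
    hm := by
      have h1 := (inv_of h 1).Spos
      have h2 := S_ne_one h hL (j := 1) (by norm_num) (by norm_num)
      rw [QS_one h] at h1 h2
      omega
    hr := by
      have h1 := (inv_of h 2).Spos
      have h2 := S_ne_one h hL (j := 2) (by norm_num) (by norm_num)
      omega
    hq := by
      have h1 := (inv_of h 3).Spos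
      have h2 := S_ne_one h hL (j := 3) (by norm_num) (by norm_num)
      omega
    hp := by
      have h1 := (inv_of h 4).Spos
      have h2 := S_ne_one h hL (j := 4) (by norm_num) (by norm_num)
      omega
    e1 := by
      have s2' := s2
      rw [show QP m B c 1 = 1 from q1, QR_one h, QS_one h] at s2'
      rw [e0]
      exact s2'
    e2 := by
      have s3' := s3
      rw [show QP m B c 2 = m from q2, r2'] at s3'
      rw [e0]
      exact s3'
    e3 := by
      have s4' := s4
      rw [show QP m B c 3 = QS m B c 2 from q3, r3', r2'] at s4'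
      rw [e0]
      exact s4'
    e4 := by
      rw [h45, r4', r3', r2', e0]
    lo := by
      rw [h45, e0]
      have h1 := (inv_of h 4).sR
      have h2 := h.Bs
      have h3 : ((B : ℤ) : ℝ) < ((QR m B c 4 + 2 * QS m B c 4 : ℤ) : ℝ) := by
        push_cast; linarith
      exact_mod_cast h3
    hi := by
      rw [h45, e0]
      have h1 := (inv_of h 4).Rs
      have h2 := h.sB
      have h3 : ((QR m B c 4 : ℤ) : ℝ) < ((B + 2 : ℤ) : ℝ) := by
        push_cast; linarith
      exact_mod_cast h3 }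

/-- a squarefree integer whose `ω_d` has period length eight -/
theorem exists_par_eight (d : ℕ) (h1 : 1 < d) (hsq : Squarefree d)
    (hper : minimalPeriod gsh (gsh (omg d)) = 8) :
    ∃ (a b c e B : ℕ) (m r q p : ℤ), E8.Par a b c e B m r q p ∧
      ((d % 4 = 1 ∧ (d : ℤ) = (B : ℤ) ^ 2 + 4 * m ∧ B % 2 = 1) ∨
       (d % 4 ≠ 1 ∧ 4 * (d : ℤ) = (B : ℤ) ^ 2 + 4 * m ∧ B % 2 = 0)) := by
  obtain ⟨m, B, s, x, c, h, hx1, hm, hB, hd⟩ := exists_data d h1 hsq
  rw [← hx1] at hper
  refine ⟨c 1, c 2, c 3, c 4, c 0, m, _, _, _, par_eight h hper, ?_⟩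
  have e0 := c_zero h
  rw [e0]
  rcases hd with ⟨a1, a2, a3⟩ | ⟨a1, a2, a3⟩
  · exact Or.inl ⟨a1, a2, by omega⟩
  · exact Or.inr ⟨a1, a2, by omega⟩

end Pool.Agent.PSX
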