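import Mathlib

/-!
Period six: the parameters of the cycle `(B; a, b, c, b, a)`.
-/

namespace Pool.Agent.PSX.E6

/-- parameters of a cycle of length six; the last coefficients of the forms are `1, m, r, p, r, m` -/
structure Par (a b c B : ℕ) (m r p : ℤ) : Prop where
  ha : 1 ≤ a
  hb : 1 ≤ b
  hc : 1 ≤ c
  hB : 1 ≤ B
  hm : 1 < m
  hr : 1 < r
  hp : 1 < p
  e1 : r = 1 + B * a - m * (a : ℤ) ^ 2
  e2 : p = m + (2 * a * m - B) * b - r * (b : ℤ) ^ 2
  e3 : (c : ℤ) * p = 2 * b * r - (2 * a * m - B)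

end Pool.Agent.PSX.E6
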