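import Pool.Agent.RQM.C45
import Pool.Agent.PSX.E6Par

/-!
The cycle of length six from the continued fraction of `ω_d`.
-/

namespace Pool.Agent.PSX

open Real Function Pool.Agent.Lib_helper5 Pool.Agent.LibH4 Pool.Agent.LibH4.CFO

variable {m B : ℤ} {s : ℝ} {x : ℕ → ℝ} {c : ℕ → ℕ}

/-- cycles of length six -/
theorem par_six (h : Data m B s x c) (hL : minimalPeriod gsh (x 1) = 6) :
    E6.Par (c 1) (c 2) (c 3) (c 0) m (QS m B c 2) (QS m B c 3) := by
  have hfix : gsh^[6] (x 1) = x 1 := by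
    have := isPeriodicPt_minimalPeriod gsh (x 1)
    rw [hL] at this
    exact this
  have hper := x_per h hfix
  obtain ⟨-, p1, -, -⟩ := palin h hper 3 3 rfl
  have s2 := QS_succ (m := m) (B := B) (c := c) 1
  have s3 := QS_succ (m := m) (B := B) (c := c) 2
  have r2 := QR_succ (m := m) (B := B) (c := c) 1
  have r3 := QR_succ (m := m) (B := B) (c := c) 2
  have r4 := QR_succ (m := m) (B := B) (c := c) 3
  have q1 := QP_succ (m := m) (B := B) (c := c) 0
  have q2 := QP_succ (m := m) (B := B) (c := c) 1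
  rw [QR_one h, QS_one h] at r2
  rw [QS_one h] at q2
  rw [QS_zero] at q1
  have e0 := c_zero h
  have r2' : QR m B c 2 = 2 * (c 1) * m - B := r2
  have r3' : QR m B c 3 = 2 * (c 2) * QS m B c 2 - QR m B c 2 := r3
  exact {
    ha := (inv_of h 1).cpos
    hb := (inv_of h 2).cpos
    hc := (inv_of h 3).cpos
    hB := (inv_of h 0).cpos
    hm := by
      have h1 := (inv_of h 1).Spos
      have h2 := S_ne_one h hL (j := 1) (by norm_num) (by norm_num)
      rw [QS_one h] at h1 h2
      omega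
    hr := by
      have h1 := (inv_of h 2).Spos
      have h2 := S_ne_one h hL (j := 2) (by norm_num) (by norm_num)
      omega
    hp := by
      have h1 := (inv_of h 3).Spos
      have h2 := S_ne_one h hL (j := 3) (by norm_num) (by norm_num)
      omega
    e1 := by
      have s2' := s2
      rw [show QP m B c 1 = 1 from q1, QR_one h, QS_one h] at s2'
      rw [e0]
      exact s2'
    e2 := by
      have s3' := s3
      rw [show QP m B c 2 = m from q2, r2'] at s3'
      rw [e0]
      exact s3'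
    e3 := by
      have p2 : QR m B c 3 = QR m B c (3 + 1) := p1
      rw [r4] at p2
      rw [e0]
      rw [r3', r2'] at p2
      linarith }

/-- a squarefree integer whose `ω_d` has period length six -/
theorem exists_par_six (d : ℕ) (h1 : 1 < d) (hsq : Squarefree d)
    (hper : minimalPeriod gsh (gsh (omg d)) = 6) :
    ∃ (a b c B : ℕ) (m r p : ℤ), E6.Par a b c B m r p ∧
      ((d % 4 = 1 ∧ (d : ℤ) = (B : ℤ) ^ 2 + 4 * m ∧ B % 2 = 1) ∨
       (d % 4 ≠ 1 ∧ 4 * (d : ℤ) = (B : ℤ) ^ 2 + 4 * m ∧ B % 2 = 0)) := by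
  obtain ⟨m, B, s, x, c, h, hx1, hm, hB, hd⟩ := exists_data d h1 hsq
  rw [← hx1] at hper
  refine ⟨c 1, c 2, c 3, c 0, m, _, _, par_six h hper, ?_⟩
  have e0 := c_zero h
  rw [e0]
  rcases hd with ⟨a1, a2, a3⟩ | ⟨a1, a2, a3⟩
  · exact Or.inl ⟨a1, a2, by omega⟩
  · exact Or.inr ⟨a1, a2, by omega⟩

end Pool.Agent.PSX
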