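import Pool.Agent.PSX.StG

/-!
# Period six, module CYA: the cycle near a ghost, first order
-/

set_option autoImplicit false

namespace Pool.Agent.PSX

theorem t_CYA : Stmt_CYA := by
  intro Q l a b c B m r p α1 β1 hQ hl hC hα hβ
  obtain ⟨e1, e2, e3⟩ := hC
  have ha : a = 1 + Q * α1 := by linarith
  have hb : b = -1 + Q * β1 := by linarith
  -- the identity
  have hid : (b * (c * (a * b + 1) + a) + (a * b + 1)) * (B - c + 2) =
      (a * b + 1) * (m * (c * (a * b + 1) + 2 * a) - (c - 2) * (b * c + 2)) - c * (b + 1) ^ 2 +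
        2 * (c - 1) * (b + 1) := by
    subst e1
    subst e2
    linear_combination -e3
  obtain ⟨g1, hg1⟩ : ∃ g1 : ℤ, g1 = β1 - α1 + Q * α1 * β1 := ⟨_, rfl⟩
  have hg : a * b + 1 = Q * g1 := by rw [ha, hb, hg1]; ring
  obtain ⟨w, hw⟩ : ∃ w : ℤ, w = b * c * g1 + α1 * b + β1 + g1 := ⟨_, rfl⟩
  have hBw : b * (c * (a * b + 1) + a) + (a * b + 1) = -1 + Q * w := by
    rw [hw, hg]
    linear_combination b * ha + hb
  obtain ⟨E, hE⟩ : ∃ E : ℤ, E = g1 * (m * (c * (a * b + 1) + 2 * a) - (c - 2) * (b * c + 2))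
      - c * Q * β1 ^ 2 + 2 * (c - 1) * β1 := ⟨_, rfl⟩
  have h1 : (-1 + Q * w) * (B - c + 2) = Q * E := by
    rw [← hBw, hid, hE]
    linear_combination (m * (c * (a * b + 1) + 2 * a) - (c - 2) * (b * c + 2)) * hg
      + (-c * (b + 1 + Q * β1) + 2 * (c - 1)) * hβ
  have hB : B = c - 2 + Q * (w * (B - c + 2) - E) := by linear_combination -h1
  obtain ⟨y, hy⟩ : ∃ y : ℤ, y = w * (B - c + 2) - E := ⟨_, rfl⟩
  rw [← hy] at hB
  have hQQ : ((Q : ℤ) : ZMod Q) = 0 := by simp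
  have hQl : ((Q : ℤ) : ZMod l) = 0 := by
    rw [ZMod.intCast_zmod_eq_zero_iff_dvd]
    exact_mod_cast hl
  refine ⟨y, hB, ?_, ?_, ?_, ?_⟩
  · rw [← ZMod.intCast_zmod_eq_zero_iff_dvd]
    have hal : (a : ZMod l) = 1 := by rw [ha]; push_cast; rw [← Int.cast_natCast, hQl]; ring
    have hbl : (b : ZMod l) = -1 := by rw [hb]; push_cast; rw [← Int.cast_natCast, hQl]; ring
    have hBl : (B : ZMod l) = c - 2 := by rw [hB]; push_cast; rw [← Int.cast_natCast, hQl]; ring
    have hgl : (g1 : ZMod l) = β1 - α1 := by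
      rw [hg1]; push_cast; rw [← Int.cast_natCast, hQl]; ring
    rw [hy, hE]
    push_cast
    rw [← Int.cast_natCast (R := ZMod l) Q, hQl, hal, hbl, hBl, hgl]
    ring
  · rw [← ZMod.intCast_zmod_eq_zero_iff_dvd]
    have hal : (a : ZMod Q) = 1 := by rw [ha]; push_cast; simp
    have hBl : (B : ZMod Q) = c - 2 := by rw [hB]; push_cast; simp
    rw [e1]
    push_cast
    rw [hal, hBl]
    ring
  · rw [← ZMod.intCast_zmod_eq_zero_iff_dvd]
    have hal : (a : ZMod Q) = 1 := by rw [ha]; push_cast; simp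
    have hbl : (b : ZMod Q) = -1 := by rw [hb]; push_cast; simp
    have hBl : (B : ZMod Q) = c - 2 := by rw [hB]; push_cast; simp
    rw [e2, e1]
    push_cast
    rw [hal, hbl, hBl]
    ring
  · rw [← ZMod.intCast_zmod_eq_zero_iff_dvd]
    have hal : (a : ZMod Q) = 1 := by rw [ha]; push_cast; simp
    have hBl : (B : ZMod Q) = c - 2 := by rw [hB]; push_cast; simp
    push_cast
    rw [hal, hBl]
    ring

end Pool.Agent.PSX
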