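import Pool.Agent.PSX.Sys6

/-! generated: the component 23 -/

namespace Pool.Agent.PSX.EL

open Pool.Agent.Lib_helper5 Pool.Agent.Lib_helper5.TB Pool.Agent.Lib_helper5.LK Pool.Agent.LibH4
  Pool.Agent.LibH4.Ker

/-- non residues -/
def ds23 : List ℕ := [nat_lit 5, nat_lit 7, nat_lit 10, nat_lit 11, nat_lit 14, nat_lit 15, nat_lit 17, nat_lit 19, nat_lit 20, nat_lit 21, nat_lit 22]

/-- representatives of the projective line -/
def L23 : List (ℕ × ℕ) := [(nat_lit 1, nat_lit 0), (nat_lit 1, nat_lit 1), (nat_lit 1, nat_lit 2), (nat_lit 1, nat_lit 3), (nat_lit 1, nat_lit 4), (nat_lit 1, nat_lit 5), (nat_lit 1, nat_lit 6), (nat_lit 1, nat_lit 7), (nat_lit 1, nat_lit 8), (nat_lit 1, nat_lit 9), (nat_lit 1, nat_lit 10), (nat_lit 1, nat_lit 11), (nat_lit 1, nat_lit 12), (nat_lit 1, nat_lit 13), (nat_lit 1, nat_lit 14), (nat_lit 1, nat_lit 15), (nat_lit 1, nat_lit 16), (nat_lit 1, nat_lit 17), (nat_lit 1, nat_lit 18), (nat_lit 1, nat_lit 19), (nat_lit 1, nat_lit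 20), (nat_lit 1, nat_lit 21), (nat_lit 1, nat_lit 22), (nat_lit 0, nat_lit 1)]

lemma L23_eq : L23 = PL 23 := by decide

/-- normalised forms modulo 23 -/
def F23 : List (ℕ × ℕ) := [(nat_lit 0, nat_lit 1), (nat_lit 0, nat_lit 2), (nat_lit 0, nat_lit 3), (nat_lit 0, nat_lit 4), (nat_lit 0, nat_lit 6), (nat_lit 0, nat_lit 8), (nat_lit 0, nat_lit 9), (nat_lit 0, nat_lit 12), (nat_lit 0, nat_lit 13), (nat_lit 0, nat_lit 16), (nat_lit 0, nat_lit 18), (nat_lit 1, nat_lit 1), (nat_lit 1, nat_lit 7), (nat_lit 1, nat_lit 8), (nat_lit 1, nat_lit 9), (nat_lit 1, nat_lit 10), (nat_lit 1, nat_lit 12), (nat_lit 1, nat_lit 14), (nat_lit 1, nat_lit 15), (nat_lit 1, nat_lit 18), (nat_lit 1, nat_lit 19), (nat_lit 1, nat_lit 22), (nat_lit 2, nat_lit 2), (nat_lit 2, nat_lit 3), (nat_lit 2, nat_lit 4), (nat_lit 2, nat_lit 5), (nat_lit 2, nat_lit 7), (nat_lit 2, nat_lit 9), (nat_lit 2, nat_lit 10), (nat_lit 2, nat_lit 13), (nat_lit 2, nat_lit 14), (nat_lit 2, nat_lit 17),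 (nat_lit 2, nat_lit 19), (nat_lit 3, nat_lit 1), (nat_lit 3, nat_lit 3), (nat_lit 3, nat_lit 9), (nat_lit 3, nat_lit 10), (nat_lit 3, nat_lit 11), (nat_lit 3, nat_lit 12), (nat_lit 3, nat_lit 14), (nat_lit 3, nat_lit 16), (nat_lit 3, nat_lit 17), (nat_lit 3, nat_lit 20), (nat_lit 3, nat_lit 21), (nat_lit 4, nat_lit 5), (nat_lit 4, nat_lit 6), (nat_lit 4, nat_lit 7), (nat_lit 4, nat_lit 8), (nat_lit 4, nat_lit 10), (nat_lit 4, nat_lit 12), (nat_lit 4, nat_lit 13), (nat_lit 4, nat_lit 16), (nat_lit 4, nat_lit 17), (nat_lit 4, nat_lit 20), (nat_lit 4, nat_lit 22), (nat_lit 5, nat_lit 1), (nat_lit 5, nat_lit 2), (nat_lit 5, nat_lit 5), (nat_lit 5, nat_lit 7), (nat_lit 5, nat_lit 13), (nat_lit 5, nat_lit 14), (nat_lit 5, nat_lit 15), (nat_lit 5, nat_lit 16), (nat_lit 5, nat_lit 18), (nat_lit 5, nat_lit 20), (nat_lit 5, nat_lit 21), (nat_lit 6, nat_lit 2), (nat_lit 6, nat_lit 4), (nat_lit 6, nat_lit 10), (nat_lit 6, nat_lit 11), (nat_lit 6, nat_lit 12), (nat_lit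 6, nat_lit 13), (nat_lit 6, nat_lit 15), (nat_lit 6, nat_lit 17), (nat_lit 6, nat_lit 18), (nat_lit 6, nat_lit 21), (nat_lit 6, nat_lit 22), (nat_lit 7, nat_lit 1), (nat_lit 7, nat_lit 3), (nat_lit 7, nat_lit 4), (nat_lit 7, nat_lit 7), (nat_lit 7, nat_lit 8), (nat_lit 7, nat_lit 11), (nat_lit 7, nat_lit 13), (nat_lit 7, nat_lit 19), (nat_lit 7, nat_lit 20), (nat_lit 7, nat_lit 21), (nat_lit 7, nat_lit 22), (nat_lit 8, nat_lit 1), (nat_lit 8, nat_lit 2), (nat_lit 8, nat_lit 5), (nat_lit 8, nat_lit 6), (nat_lit 8, nat_lit 9), (nat_lit 8, nat_lit 11), (nat_lit 8, nat_lit 17), (nat_lit 8, nat_lit 18), (nat_lit 8, nat_lit 19), (nat_lit 8, nat_lit 20), (nat_lit 8, nat_lit 22), (nat_lit 9, nat_lit 4), (nat_lit 9, nat_lit 5), (nat_lit 9, nat_lit 6), (nat_lit 9, nat_lit 7), (nat_lit 9, nat_lit 9), (nat_lit 9, nat_lit 11), (nat_lit 9, nat_lit 12), (nat_lit 9, nat_lit 15), (nat_lit 9, nat_lit 16), (nat_lit 9, nat_lit 19), (nat_lit 9, nat_lit 21), (nat_lit 10, nat_lit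 3), (nat_lit 10, nat_lit 4), (nat_lit 10, nat_lit 5), (nat_lit 10, nat_lit 6), (nat_lit 10, nat_lit 8), (nat_lit 10, nat_lit 10), (nat_lit 10, nat_lit 11), (nat_lit 10, nat_lit 14), (nat_lit 10, nat_lit 15), (nat_lit 10, nat_lit 18), (nat_lit 10, nat_lit 20), (nat_lit 11, nat_lit 2), (nat_lit 11, nat_lit 3), (nat_lit 11, nat_lit 6), (nat_lit 11, nat_lit 8), (nat_lit 11, nat_lit 14), (nat_lit 11, nat_lit 15), (nat_lit 11, nat_lit 16), (nat_lit 11, nat_lit 17), (nat_lit 11, nat_lit 19), (nat_lit 11, nat_lit 21), (nat_lit 11, nat_lit 22), (nat_lit 12, nat_lit 2), (nat_lit 12, nat_lit 3), (nat_lit 12, nat_lit 6), (nat_lit 12, nat_lit 8), (nat_lit 12, nat_lit 14), (nat_lit 12, nat_lit 15), (nat_lit 12, nat_lit 16), (nat_lit 12, nat_lit 17), (nat_lit 12, nat_lit 19), (nat_lit 12, nat_lit 21), (nat_lit 12, nat_lit 22), (nat_lit 13, nat_lit 3), (nat_lit 13, nat_lit 4), (nat_lit 13, nat_lit 5), (nat_lit 13, nat_lit 6), (nat_lit 13, nat_lit 8), (nat_lit 13, nat_lit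 10), (nat_lit 13, nat_lit 11), (nat_lit 13, nat_lit 14), (nat_lit 13, nat_lit 15), (nat_lit 13, nat_lit 18), (nat_lit 13, nat_lit 20), (nat_lit 14, nat_lit 4), (nat_lit 14, nat_lit 5), (nat_lit 14, nat_lit 6), (nat_lit 14, nat_lit 7), (nat_lit 14, nat_lit 9), (nat_lit 14, nat_lit 11), (nat_lit 14, nat_lit 12), (nat_lit 14, nat_lit 15), (nat_lit 14, nat_lit 16), (nat_lit 14, nat_lit 19), (nat_lit 14, nat_lit 21), (nat_lit 15, nat_lit 1), (nat_lit 15, nat_lit 2), (nat_lit 15, nat_lit 5), (nat_lit 15, nat_lit 6), (nat_lit 15, nat_lit 9), (nat_lit 15, nat_lit 11), (nat_lit 15, nat_lit 17), (nat_lit 15, nat_lit 18), (nat_lit 15, nat_lit 19), (nat_lit 15, nat_lit 20), (nat_lit 15, nat_lit 22), (nat_lit 16, nat_lit 1), (nat_lit 16, nat_lit 3), (nat_lit 16, nat_lit 4), (nat_lit 16, nat_lit 7), (nat_lit 16, nat_lit 8), (nat_lit 16, nat_lit 11), (nat_lit 16, nat_lit 13), (nat_lit 16, nat_lit 19), (nat_lit 16, nat_lit 20), (nat_lit 16, nat_lit 21), (nat_lit 16,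 nat_lit 22), (nat_lit 17, nat_lit 2), (nat_lit 17, nat_lit 4), (nat_lit 17, nat_lit 10), (nat_lit 17, nat_lit 11), (nat_lit 17, nat_lit 12), (nat_lit 17, nat_lit 13), (nat_lit 17, nat_lit 15), (nat_lit 17, nat_lit 17), (nat_lit 17, nat_lit 18), (nat_lit 17, nat_lit 21), (nat_lit 17, nat_lit 22), (nat_lit 18, nat_lit 1), (nat_lit 18, nat_lit 2), (nat_lit 18, nat_lit 5), (nat_lit 18, nat_lit 7), (nat_lit 18, nat_lit 13), (nat_lit 18, nat_lit 14), (nat_lit 18, nat_lit 15), (nat_lit 18, nat_lit 16), (nat_lit 18, nat_lit 18), (nat_lit 18, nat_lit 20), (nat_lit 18, nat_lit 21), (nat_lit 19, nat_lit 5), (nat_lit 19, nat_lit 6), (nat_lit 19, nat_lit 7), (nat_lit 19, nat_lit 8), (nat_lit 19, nat_lit 10), (nat_lit 19, nat_lit 12), (nat_lit 19, nat_lit 13), (nat_lit 19, nat_lit 16), (nat_lit 19, nat_lit 17), (nat_lit 19, nat_lit 20), (nat_lit 19, nat_lit 22), (nat_lit 20, nat_lit 1), (nat_lit 20, nat_lit 3), (nat_lit 20, nat_lit 9), (nat_lit 20, nat_lit 10), (nat_lit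 20, nat_lit 11), (nat_lit 20, nat_lit 12), (nat_lit 20, nat_lit 14), (nat_lit 20, nat_lit 16), (nat_lit 20, nat_lit 17), (nat_lit 20, nat_lit 20), (nat_lit 20, nat_lit 21), (nat_lit 21, nat_lit 2), (nat_lit 21, nat_lit 3), (nat_lit 21, nat_lit 4), (nat_lit 21, nat_lit 5), (nat_lit 21, nat_lit 7), (nat_lit 21, nat_lit 9), (nat_lit 21, nat_lit 10), (nat_lit 21, nat_lit 13), (nat_lit 21, nat_lit 14), (nat_lit 21, nat_lit 17), (nat_lit 21, nat_lit 19), (nat_lit 22, nat_lit 1), (nat_lit 22, nat_lit 7), (nat_lit 22, nat_lit 8), (nat_lit 22, nat_lit 9), (nat_lit 22, nat_lit 10), (nat_lit 22, nat_lit 12), (nat_lit 22, nat_lit 14), (nat_lit 22, nat_lit 15), (nat_lit 22, nat_lit 18), (nat_lit 22, nat_lit 19), (nat_lit 22, nat_lit 22)]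
/-- positions -/
def PT23 : ℕ := nat_lit 89557559716950817148720288452265781427436832007504848556194965072619224563093091127147803419813381944433608874982539476427461615354299510714669003861675566211898596284808565994442669072111832697691375374995949465968782645723853194096895221466879342643007404117443443054852145639121676192413485671105864889480333530106394638966694651160742644328971991696757186489577660917322963453459469680156575733057450211279978280732809050822909951968921404102141608205429670969577683171326419047956941071802755369386378463256391100605735298644523640874949334680519426746337934858645784456833432032822515264316514148701278501060898506389254962407897826119074647770502363671834302519572312283332378898617206998586880853492424229464440894817297353825143333856143158967383141841788449431467530087264433130669229788372647218851985175593412936528670592980178750516633408691428133636288272217682236075161959583702257011184588352924464693280267430243646699222050884445879410320283886042929604668776290964882504731794990376340723585653992651398810862583834117284977877436122008221312275126122659241502316836062773250662342842668915740400061877849374638549525142338220738968549109297517003722515843409747818737489553238545483092664773841969094122266864926668711723829425847222551670304252606087168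

lemma comp23 : CompOK 23 21 PT23 F23 (adP (23)) :=
  compCk_spec (by norm_num) (by decide +kernel : compCk (nat_lit 23) (nat_lit 21) PT23 F23 (adP (nat_lit 23)) = true)

end Pool.Agent.PSX.EL
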