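import Pool.Agent.PSX.StG

/-!
# Module `DER`: sums of derivatives over a prime field
-/

set_option autoImplicit false

namespace Pool.Agent.PSX

open Finset

namespace M_DER

theorem pow_sum (l : ℕ) [Fact l.Prime] (k : ℕ) (hk : k < 2 * (l - 1)) (h : k ≠ l - 1) :
    ∑ x : ZMod l, x ^ k = 0 := by
  have hl : 1 < l := (Fact.out : l.Prime).one_lt
  by_cases h1 : k < l - 1
  · exact FiniteField.sum_pow_lt_card_sub_one (ZMod l) k (by rwa [ZMod.card])
  · have h2 : l - 1 < k := lt_of_le_of_ne (not_lt.1 h1) (Ne.symm h)
    have h3 : ∀ x : ZMod l, x ^ k = x ^ (k - (l - 1)) := by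
      intro x
      by_cases hx : x = 0
      · rw [hx, zero_pow (by omega), zero_pow (by omega)]
      · conv_lhs => rw [show k = (l - 1) + (k - (l - 1)) by omega]
        rw [pow_add, ZMod.pow_card_sub_one_eq_one hx, one_mul]
    rw [sum_congr rfl fun x _ => h3 x]
    exact FiniteField.sum_pow_lt_card_sub_one (ZMod l) _ (by rw [ZMod.card]; omega)

end M_DER

open M_DER in
theorem t_DER : Stmt_DER := by
  intro l _ p hp
  have hl : 1 < l := (Fact.out : l.Prime).one_lt
  set q := Polynomial.derivative p with hq
  have hdeg : q.natDegree < 2 * l - 2 := by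
    by_cases h0 : p.natDegree = 0
    · have : q = 0 := by
        rw [hq, Polynomial.eq_C_of_natDegree_eq_zero h0, Polynomial.derivative_C]
      rw [this, Polynomial.natDegree_zero]
      omega
    · have := Polynomial.natDegree_derivative_lt h0
      rw [← hq] at this
      omega
  have h1 : ∀ x : ZMod l, q.eval x = ∑ k ∈ range (q.natDegree + 1), q.coeff k * x ^ k :=
    fun x => Polynomial.eval_eq_sum_range x
  rw [sum_congr rfl fun x _ => h1 x, sum_comm]
  refine sum_eq_zero fun k hk => ?_
  rw [← mul_sum]
  have hk' : k < 2 * (l - 1) := by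
    have := mem_range.1 hk
    omega
  by_cases h : k = l - 1
  · have h2 : q.coeff k = 0 := by
      rw [hq, Polynomial.coeff_derivative, h]
      have h3 : ((l - 1 : ℕ) : ZMod l) + 1 = 0 := by
        have h4 : (((l - 1) + 1 : ℕ) : ZMod l) = 0 := by
          rw [Nat.sub_add_cancel hl.le, ZMod.natCast_self]
        rw [← h4]
        push_cast
        ring
      rw [h3, mul_zero]
    rw [h2, zero_mul]
  · rw [pow_sum l k hk' h, mul_zero]

end Pool.Agent.PSX
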