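import Pool.Agent.PSX.E6Par
import Pool.Agent.RQM.C44

/-!
Period six: the palindromic cycle `(B; a, b, c, b, a)`.
-/

namespace Pool.Agent.PSX.E6

open Finset (range)
open Pool.Agent.LibH4 Pool.Agent.LibH4.FA Pool.Agent.Lib_helper5

/-- the first coefficients -/
def P (m r p : ℤ) : ℕ → ℤ
  | 1 => 1
  | 3 => r
  | 4 => p
  | 5 => r
  | _ => m

/-- the middle coefficients -/
def R (a b B : ℕ) (m r : ℤ) : ℕ → ℤ
  | 2 => 2 * a * m - B
  | 3 => 2 * b * r - (2 * a * m - B)
  | 4 => 2 * b * r - (2 * a * m - B)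
  | 5 => 2 * a * m - B
  | _ => B

/-- the last coefficients -/
def S (m r p : ℤ) : ℕ → ℤ
  | 0 => 1
  | 2 => r
  | 3 => p
  | 4 => r
  | 6 => 1
  | _ => m

/-- the multipliers -/
def C (a b c B : ℕ) : ℕ → ℕ
  | 0 => B
  | 2 => b
  | 3 => c
  | 4 => b
  | _ => a

variable {a b c B : ℕ} {m r p : ℤ}

theorem cyc (h : Par a b c B m r p) :
    CG.CycM m B 6 (P m r p) (R a b B m r) (S m r p) (C a b c B) where
  hP k hk := by
    interval_cases k <;> simp [P, S]
  hR k hk := by
    have h3 := h.e3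
    interval_cases k <;> simp only [R, S, C] <;> linarith
  hS k hk := by
    have h1 := h.e1
    have h2 := h.e2
    have h3 := h.e3
    interval_cases k <;> simp only [P, R, S, C]
    · ring
    · linarith
    · linarith
    · linear_combination (c : ℤ) * h3
    · linarith
    · linarith
  P0 := rfl
  R0 := rfl
  S0 := rfl
  Spos k hk := by
    have h1 := h.hm
    have h2 := h.hr
    have h3 := h.hp
    interval_cases k <;> simp only [S] <;> omega
  Ppos0 := by
    have h1 := h.hm
    simp only [P]; omega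
  cpos k hk := by
    have h1 := h.ha
    have h2 := h.hb
    have h3 := h.hc
    have h4 := h.hB
    interval_cases k <;> simp only [C] <;> omega
  Pm := rfl
  RB := rfl
  S1 := rfl

lemma closing (h : Par a b c B m r p) :
    CG.rho m B (C a b c B) 6 = CG.rho m B (C a b c B) (6 + 1) * CG.om m B := by
  have e2 : CG.rho m B (C a b c B) 2 = ⟨-B, 1⟩ := by
    rw [CG.rho_add _ 0, CG.rho_zero, CG.rho_one]
    ext
    · simp [CG.om, C]
    · simp [CG.om, C]
  have e3 : CG.rho m B (C a b c B) 3 = ⟨1 + a * B, -a⟩ := by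
    rw [CG.rho_add _ 1, CG.rho_one, e2]
    ext
    · simp [C, QuadraticAlgebra.re_one]
    · simp [C, QuadraticAlgebra.im_one]
  have e4 : CG.rho m B (C a b c B) 4 = ⟨-B - b * (1 + a * B), 1 + b * a⟩ := by
    rw [CG.rho_add _ 2, e2, e3]
    ext
    · simp [C]
    · simp [C]
  have e5 : CG.rho m B (C a b c B) 5 =
      ⟨1 + a * B + c * (B + b * (1 + a * B)), - a - c * (1 + b * a)⟩ := by
    rw [CG.rho_add _ 3, e3, e4]
    ext
    · simp [C]; ring
    · simp [C]
  have e6 : CG.rho m B (C a b c B) 6 =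
      ⟨-B - b * (1 + a * B) - b * (1 + a * B + c * (B + b * (1 + a * B))),
        1 + b * a + b * (a + c * (1 + b * a))⟩ := by
    rw [CG.rho_add _ 4, e4, e5]
    ext
    · simp [C]
    · simp [C]; ring
  have e7 : CG.rho m B (C a b c B) (6 + 1) =
      ⟨1 + a * B + c * (B + b * (1 + a * B)) + a * (B + b * (1 + a * B) +
        b * (1 + a * B + c * (B + b * (1 + a * B)))),
        - a - c * (1 + b * a) - a * (1 + b * a + b * (a + c * (1 + b * a)))⟩ := by
    rw [CG.rho_add _ 5, e5, e6]
    ext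
    · simp [C]; ring
    · simp [C]
  have h1 := h.e1
  have h2 := h.e2
  have h3 := h.e3
  rw [e6, e7, CG.om, QuadraticAlgebra.mk_mul_mk]
  have key : (c : ℤ) * (m + (2 * a * m - B) * b - (1 + B * a - m * (a : ℤ) ^ 2) * (b : ℤ) ^ 2)
      = 2 * b * (1 + B * a - m * (a : ℤ) ^ 2) - (2 * a * m - B) := by
    rw [← h1, ← h2]; exact h3
  ext
  · simp only
    linear_combination key
  · simp only; ring

lemma P_ne (h : Par a b c B m r p) : ∀ k < 6, k ≠ 1 → P m r p k ≠ 1 := by
  have h1 := h.hm
  have h2 := h.hr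
  have h3 := h.hp
  intro k hk hk1
  interval_cases k
  · simp only [P]; omega
  · exact absurd rfl hk1
  · simp only [P]; omega
  · simp only [P]; omega
  · simp only [P]; omega
  · simp only [P]; omega

/-- odd primes below `m` and `r`, different from `p`, are inert -/
theorem inert (h : Par a b c B m r p)
    [IsDomain (QuadraticAlgebra ℤ m (B : ℤ))]
    [UniqueFactorizationMonoid (QuadraticAlgebra ℤ m (B : ℤ))]
    {d : ℕ} (hd : (d : ℤ) = (B : ℤ) ^ 2 + 4 * m) (h8 : d % 8 = 5)
    (l : ℕ) (hl : l.Prime) (hl2 : l ≠ 2) (hlp : (l : ℤ) ≠ p) (hlm : (l : ℤ) < m)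
    (hlr : (l : ℤ) < r) : jacobiSym d l = -1 := by
  by_contra hj
  have hm0 : 0 < m := by have := h.hm; omega
  have hr0 : 0 < r := by have := h.hr; omega
  have hp0 : 0 < p := by have := h.hp; omega
  have hP0 := hl.two_le
  have hC := cyc h
  obtain ⟨k, hk, x, y, hx, hy, he⟩ := even_inert m B hm0 hC 3 rfl (by norm_num) (closing h)
    (P_ne h) hd h8 l hl hl2 hj
  have hx' : (1 : ℤ) ≤ x := by exact_mod_cast hx
  rcases Nat.eq_zero_or_pos y with hy0 | hy0
  · subst hy0
    have he' : P m r p k * (x : ℤ) ^ 2 = l := by rw [← he]; push_cast; ring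
    have hP := eq_of_prime_mul_sq hl he'
    interval_cases k <;> simp only [P] at hP <;> omega
  · have hy1 : (1 : ℤ) ≤ y := by exact_mod_cast hy0
    have hyc : (y : ℤ) + 1 ≤ C a b c B k * x := by exact_mod_cast hy
    have hxx : (1 : ℤ) ≤ (x : ℤ) ^ 2 := by nlinarith
    interval_cases k
    · simp only [P, R, S, C] at he hyc
      have h1 : m ≤ m * (x : ℤ) ^ 2 := by nlinarith
      have h2 : 0 ≤ (y : ℤ) * (B * x - y) := mul_nonneg (by linarith) (by linarith)
      nlinarith
    · have h1 := E5.edge_gt (hC.cpos 1 (by omega)) (hC.toCyc.Ppos (k := 1) (by omega))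
        (hC.Spos 1 (by omega)) (CG.hAend hC 1 (by omega)) hy1 hyc
      rw [he] at h1
      simp only [S] at h1
      omega
    · have h1 := E5.edge_gt (hC.cpos 2 (by omega)) (hC.toCyc.Ppos (k := 2) (by omega))
        (hC.Spos 2 (by omega)) (CG.hAend hC 2 (by omega)) hy1 hyc
      rw [he] at h1
      simp only [S] at h1
      omega
    · simp only [P, R, S, C] at he hyc
      -- `r x² + R x y - p y² ≥ r` since `R x - p y = p (c x - y)`
      have h1 : r ≤ r * (x : ℤ) ^ 2 := by nlinarith
      have h2 : 0 ≤ p * ((y : ℤ) * (c * x - y)) :=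
        mul_nonneg hp0.le (mul_nonneg (by linarith) (by linarith))
      have h3 : (2 * (b : ℤ) * r - (2 * a * m - B)) * x * y - p * (y : ℤ) ^ 2 =
          p * ((y : ℤ) * (c * x - y)) := by
        rw [← h.e3]; ring
      nlinarith
    · have h1 := E5.edge_gt (hC.cpos 4 (by omega)) (hC.toCyc.Ppos (k := 4) (by omega))
        (hC.Spos 4 (by omega)) (CG.hAend hC 4 (by omega)) hy1 hyc
      rw [he] at h1
      simp only [S] at h1
      omega
    · have h1 := E5.edge_gt (hC.cpos 5 (by omega)) (hC.toCyc.Ppos (k := 5) (by omega))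
        (hC.Spos 5 (by omega)) (CG.hAend hC 5 (by omega)) hy1 hyc
      rw [he] at h1
      simp only [S] at h1
      omega

end Pool.Agent.PSX.E6
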