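import Pool.Agent.PSX.E6Rep

/-!
Period six: the parameters with middle value two, inert primes.
-/

namespace Pool.Agent.PSX.E6

open Pool.Agent.LibH4 Pool.Agent.Lib_helper5

variable {a b c B : ℕ} {m r p : ℤ}

/-- the parameters with `p = 2` form two families -/
theorem even_families (h : Par a b c B m r p) (hp2 : p = 2) :
    ∃ v : ℕ, 1 ≤ v ∧
      ((b = 2 * a ∧ c = a + (2 * a ^ 2 + 1) * v ∧ B = 2 * c ∧ r = 1 + 2 * a * v ∧ m = 2 * r) ∨
       (a = 2 ∧ b = 1 ∧ c = 3 * v ∧ B = 2 + 6 * v ∧ r = 1 + 4 * v ∧ m = 1 + 2 * v)) := by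
  obtain ⟨u, n, w, hu, hn, hwb, hm, hr, hp, hB, q⟩ := params h
  have ha := h.ha
  have hb := h.hb
  rw [hp2] at hp
  have hp' : n + b * w = 2 := by exact_mod_cast hp.symm
  rcases Nat.eq_zero_or_pos w with hw | hw
  · subst hw
    rw [mul_zero, add_zero] at hp'
    subst hp'
    have hb2 : b = 2 * a := by omega
    subst hb2
    have q' : 2 * c = 2 * a + u + 2 * (u * a ^ 2) := by
      have h1 : 2 * c = c * (2 + 2 * a * 0) + 0 := by ring
      rw [h1, q]; ring
    obtain ⟨v, hv⟩ : ∃ v, u = 2 * v := ⟨u / 2, by omega⟩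
    subst hv
    refine ⟨v, by omega, Or.inl ⟨rfl, ?_, ?_, ?_, ?_⟩⟩
    · have h1 : 2 * c = 2 * (a + (2 * a ^ 2 + 1) * v) := by rw [q']; ring
      omega
    · have h1 : 2 * c = 2 * (a + (2 * a ^ 2 + 1) * v) := by rw [q']; ring
      rw [hB, h1]; ring
    · rw [hr]; push_cast; ring
    · rw [hm, hr]; push_cast; ring
  · have h1 : b ≤ b * w := Nat.le_mul_of_pos_right b hw
    have h2 : w ≤ b * w := Nat.le_mul_of_pos_left w hb
    have hb1 : b = 1 := by omega
    have hw1 : w = 1 := by omega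
    have hn1 : n = 1 := by omega
    subst hb1 hw1 hn1
    have ha2 : a = 2 := by omega
    subst ha2
    have q' : 2 * c = 3 * u := by omega
    obtain ⟨v, hv⟩ : ∃ v, u = 2 * v := ⟨u / 2, by omega⟩
    subst hv
    refine ⟨v, by omega, Or.inr ⟨rfl, rfl, by omega, by omega, ?_, ?_⟩⟩
    · rw [hr]; push_cast; ring
    · rw [hm]; push_cast; ring

/-- if `p = 2` then `B` is even -/
lemma even_B (h : Par a b c B m r p) (hp2 : p = 2) : B % 2 = 0 := by
  obtain ⟨v, -, ⟨-, -, h1, -⟩ | ⟨-, -, -, h1, -⟩⟩ := even_families h hp2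
  · omega
  · omega

section

variable [IsDomain (QuadraticAlgebra ℤ m (B : ℤ))]
    [UniqueFactorizationMonoid (QuadraticAlgebra ℤ m (B : ℤ))]

/-- if `B` is even or `m` is even, and `m`, `r` are greater than two, then `p = 2` -/
theorem eq_two (h : Par a b c B m r p) (hm2 : 2 < m) (hr2 : 2 < r)
    (hpar : ¬ (B % 2 = 1 ∧ m % 2 = 1)) : p = 2 := by
  have key : ∃ x : ℤ, ((2 : ℕ) : ℤ) ∣ x ^ 2 + B * x - m := by
    rcases Int.emod_two_eq_zero_or_one m with h0 | h0
    · exact ⟨0, by push_cast; omega⟩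
    · exact ⟨1, by push_cast; omega⟩
  obtain ⟨x, hx⟩ := key
  have := eq_of_root h Nat.prime_two (by push_cast; exact hm2) (by push_cast; exact hr2) x hx
  rw [this]
  rfl

/-- `B` and `m` are odd, or `B` is even and `p = 2` -/
theorem parity (h : Par a b c B m r p) (hm2 : 2 < m) (hr2 : 2 < r) :
    (B % 2 = 1 ∧ m % 2 = 1) ∨ (B % 2 = 0 ∧ p = 2) := by
  by_cases hpar : B % 2 = 1 ∧ m % 2 = 1
  · exact Or.inl hpar
  · have hp := eq_two h hm2 hr2 hpar
    exact Or.inr ⟨even_B h hp, hp⟩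

/-- odd primes below `m` and `r`, different from `p`, are inert -/
theorem inert_all (h : Par a b c B m r p) {D : ℕ} (hD : (D : ℤ) = (B : ℤ) ^ 2 + 4 * m)
    (l : ℕ) (hl : l.Prime) (hl2 : l ≠ 2) (hlp : (l : ℤ) ≠ p) (hlm : (l : ℤ) < m)
    (hlr : (l : ℤ) < r) : jacobiSym D l = -1 := by
  by_contra hj
  obtain ⟨x, hx⟩ := exists_root_of_ne hD hl hl2 hj
  exact hlp (eq_of_root h hl hlm hlr x hx).symm

/-- odd primes below `m` and `r` are inert, even discriminants -/
theorem inert' (h : Par a b c B m r p) (hp2 : p = 2) {d : ℕ}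
    (hd : 4 * (d : ℤ) = (B : ℤ) ^ 2 + 4 * m)
    (l : ℕ) (hl : l.Prime) (hl2 : l ≠ 2) (hlm : (l : ℤ) < m)
    (hlr : (l : ℤ) < r) : jacobiSym d l = -1 := by
  have h1 := inert_all h (D := 4 * d) (by push_cast; exact hd) l hl hl2 (by
    rw [hp2]; exact_mod_cast hl2) hlm hlr
  have hodd : Odd l := hl.odd_of_ne_two hl2
  push_cast at h1
  rwa [jacobiSym.mul_left, jacobiSym.at_four hodd, one_mul] at h1

end

end Pool.Agent.PSX.E6
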