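import Pool.Agent.RQM.C39
import Pool.Agent.RQM.C88

/-!
Eighteen real quadratic fields with unique factorisation and period length six.
-/

namespace Pool.Agent.PSX

open scoped NumberField
open Function Pool.Agent.LibH4

/-- the eighteen fields -/
def l6 : List ℕ := [19, 22, 57, 59, 107, 131, 253, 278, 309, 341, 381, 749,
  813, 893, 1893, 2453, 2757, 3317]

lemma l6_sub : ∀ d ∈ l6, d ∈ SU.lU := by decide +kernel

/-- **the eighteen fields** -/
theorem fields {d : ℕ} (h : d ∈ l6) : 1 < d ∧ Squarefree d ∧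
    minimalPeriod gsh (gsh (omg d)) = 6 ∧ UniqueFactorizationMonoid (𝓞 (KQ d)) := by
  obtain ⟨h1, hsq, -, hU⟩ := SU.fieldsU (l6_sub d h)
  refine ⟨h1, hsq, ?_⟩
  simp only [l6, List.mem_cons, List.not_mem_nil, or_false] at h
  rcases h with rfl | rfl | rfl | rfl | rfl | rfl | rfl | rfl | rfl | rfl | rfl | rfl | rfl | rfl | rfl | rfl | rfl | rfl
  · exact ⟨UP.period_of_chk (t := 8) (B := 8) (by decide +kernel) h1 hsq, hU⟩
  · exact ⟨UP.period_of_chk (t := 9) (B := 8) (by decide +kernel) h1 hsq, hU⟩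
  · exact ⟨UP.period_of_chk (t := 7) (B := 7) (by decide +kernel) h1 hsq, hU⟩
  · exact ⟨UP.period_of_chk (t := 15) (B := 14) (by decide +kernel) h1 hsq, hU⟩
  · exact ⟨UP.period_of_chk (t := 20) (B := 20) (by decide +kernel) h1 hsq, hU⟩
  · exact ⟨UP.period_of_chk (t := 22) (B := 22) (by decide +kernel) h1 hsq, hU⟩
  · exact ⟨UP.period_of_chk (t := 15) (B := 15) (by decide +kernel) h1 hsq, hU⟩
  · exact ⟨UP.period_of_chk (t := 33) (B := 32) (by decide +kernel) h1 hsq, hU⟩
  · exact ⟨UP.period_of_chk (t := 17) (B := 17) (by decide +kernel) h1 hsq, hU⟩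
  · exact ⟨UP.period_of_chk (t := 18) (B := 17) (by decide +kernel) h1 hsq, hU⟩
  · exact ⟨UP.period_of_chk (t := 19) (B := 19) (by decide +kernel) h1 hsq, hU⟩
  · exact ⟨UP.period_of_chk (t := 27) (B := 27) (by decide +kernel) h1 hsq, hU⟩
  · exact ⟨UP.period_of_chk (t := 28) (B := 27) (by decide +kernel) h1 hsq, hU⟩
  · exact ⟨UP.period_of_chk (t := 29) (B := 29) (by decide +kernel) h1 hsq, hU⟩
  · exact ⟨UP.period_of_chk (t := 43) (B := 43) (by decide +kernel) h1 hsq, hU⟩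
  · exact ⟨UP.period_of_chk (t := 49) (B := 49) (by decide +kernel) h1 hsq, hU⟩
  · exact ⟨UP.period_of_chk (t := 52) (B := 51) (by decide +kernel) h1 hsq, hU⟩
  · exact ⟨UP.period_of_chk (t := 57) (B := 57) (by decide +kernel) h1 hsq, hU⟩

end Pool.Agent.PSX
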