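import Pool.Agent.RQM.C15
import Pool.Agent.PSX.E6Even

/-!
Genus theory for period six: the middle value is congruent to three modulo four.
-/

namespace Pool.Agent.PSX.E6

open Pool.Agent.LibH4 Pool.Agent.Lib_helper5

variable {a b c B : ℕ} {m r p : ℤ}

/-- the middle value and the middle letter are odd -/
lemma odd_p (h : Par a b c B m r p) (hB2 : B % 2 = 1) : p % 2 = 1 ∧ c % 2 = 1 := by
  have e3 := h.e3
  have h1 : ((c : ℤ) * p) % 2 = 1 := by
    rw [e3]
    have h2 : (2 * (b : ℤ) * r - (2 * a * m - B)) = 2 * (b * r - a * m) + B := by ring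
    rw [h2]
    omega
  constructor
  · by_contra hc
    have h2 : p % 2 = 0 := by omega
    rw [Int.mul_emod, h2, mul_zero] at h1
    norm_num at h1
  · by_contra hc
    have h2 : (c : ℤ) % 2 = 0 := by omega
    rw [Int.mul_emod, h2, zero_mul] at h1
    norm_num at h1

/-- the discriminant -/
lemma disc (h : Par a b c B m r p) : (B : ℤ) ^ 2 + 4 * m = p * ((c : ℤ) ^ 2 * p + 4 * r) := by
  have e1 := h.e1
  have e2 := h.e2
  have e3 := h.e3
  linear_combination (-((c : ℤ) * p + (2 * b * r - (2 * a * m - B)))) * e3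
    + (-4 * r) * e2 + (-4 * m) * e1

/-- **genus theory for period six** -/
theorem p_mod_four (h : Par a b c B m r p) (hB2 : B % 2 = 1)
    [IsDomain (QuadraticAlgebra ℤ m (B : ℤ))]
    [UniqueFactorizationMonoid (QuadraticAlgebra ℤ m (B : ℤ))]
    (hsq : Squarefree ((B : ℤ) ^ 2 + 4 * m)) : p % 4 = 3 := by
  have hr := h.hr
  have hp := h.hp
  have hc := h.hc
  have hdec := disc h
  obtain ⟨hp2, hc2⟩ := odd_p h hB2
  obtain ⟨R, rfl⟩ := Int.eq_ofNat_of_zero_le (by omega : 0 ≤ p)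
  obtain ⟨M, rfl⟩ := Int.eq_ofNat_of_zero_le (by omega : 0 ≤ r)
  obtain ⟨s, hs⟩ : ∃ s : ℕ, s = c ^ 2 * R + 4 * M := ⟨_, rfl⟩
  have hs' : (s : ℤ) = (c : ℤ) ^ 2 * R + 4 * M := by rw [hs]; push_cast; ring
  rw [← hs'] at hdec
  have hR2 : R % 2 = 1 := by omega
  by_contra hR3
  have hR4 : R % 4 = 1 := by omega
  have hcc : c ^ 2 % 4 = 1 := by
    obtain ⟨k, hk⟩ : ∃ k, c = 2 * k + 1 := ⟨c / 2, by omega⟩
    rw [hk]
    have : (2 * k + 1) ^ 2 = 4 * (k ^ 2 + k) + 1 := by ring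
    omega
  have hs4 : s % 4 = 1 := by
    rw [hs, Nat.add_mul_mod_self_left, Nat.mul_mod, hcc, hR4]
  have hsqd : Squarefree (R * s) := by
    rw [hdec] at hsq
    exact Int.squarefree_natCast.1 (by push_cast; exact hsq)
  rw [Nat.squarefree_mul_iff] at hsqd
  obtain ⟨hcop, hsR, hss⟩ := hsqd
  have hR1 : 1 < R := by exact_mod_cast hp
  have hs1 : 1 < s := by
    rw [hs]
    have : 1 < M := by exact_mod_cast hr
    omega
  obtain ⟨l, hlp, hl2, hl4, hlR, hls⟩ := G4.exists_prime hR1 hs1 hR2 (by omega) hsR hss hcop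
  have hj : jacobiSym ((R * s : ℕ) : ℤ) l = 1 := by
    push_cast
    rw [jacobiSym.mul_left, ← jacobiSym.quadratic_reciprocity_one_mod_four hl4
      (Nat.odd_iff.2 hR2), ← jacobiSym.quadratic_reciprocity_one_mod_four hl4
      (Nat.odd_iff.2 (by omega : s % 2 = 1)), hlR, hls]
    norm_num
  obtain ⟨x, hx⟩ := exists_root_of_ne (m := m) (B := (B : ℤ)) (d := R * s)
    (by rw [hdec]; push_cast; ring) hlp (by omega) (by rw [hj]; norm_num)
  obtain ⟨π, hπ⟩ := exists_norm_of_root hlp hx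
  -- four times the norm is a square modulo `R`
  have hN : 4 * π.norm = (2 * π.re + B * π.im) ^ 2 - R * s * π.im ^ 2 := by
    rw [QuadraticAlgebra.norm_def, ← hdec]
    ring
  have hsym : jacobiSym (4 * π.norm) R = jacobiSym ((2 * π.re + B * π.im) ^ 2) R := by
    apply jacobiSym.mod_left'
    rw [hN, Int.sub_emod, mul_assoc, Int.mul_emod_right]
    simp
  rw [jacobiSym.mul_left, jacobiSym.at_four (Nat.odd_iff.2 hR2), one_mul, jacobiSym.pow_left]
    at hsym
  have hneg : jacobiSym (-1) R = 1 := by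
    rw [jacobiSym.at_neg_one (Nat.odd_iff.2 hR2), ZMod.χ₄_nat_one_mod_four hR4]
  have hval : jacobiSym π.norm R = -1 := by
    rcases Int.natAbs_eq π.norm with h7 | h7
    · rw [h7, hπ, hlR]
    · rw [h7, hπ, neg_eq_neg_one_mul, jacobiSym.mul_left, hneg, hlR, one_mul]
  rw [hval] at hsym
  nlinarith [sq_nonneg (jacobiSym (2 * π.re + B * π.im) R)]

end Pool.Agent.PSX.E6
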