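import Pool.Agent.PSX.E6Small
import Pool.Agent.PSX.E6Genus
import Pool.Agent.PSX.E6Fields
import Pool.Agent.PSX.CFSix

/-!
Assembly of the period six theorem from the elimination of large parameters.
-/

namespace Pool.Agent.PSX

open scoped NumberField
open Function Pool.Agent.LibH4 Pool.Agent.Lib_helper5 Pool.Agent.LibH4.CFO

lemma lD_odd : ∀ e ∈ E6.lD, e % 4 = 1 → e ∈ l6 := by decide

lemma lD_even : ∀ e ∈ E6.lD, e % 4 = 0 → e / 4 ∈ l6 := by decide

/-- class number one and period six, given the elimination of large parameters -/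
theorem six_iff
    (hodd : ∀ (a b c B : ℕ) (m r p : ℤ), E6.Par a b c B m r p → m % 2 = 1 → B % 2 = 1 →
      p % 4 = 3 → Squarefree ((B : ℤ) ^ 2 + 4 * m) → 23 < m → 37 < r →
      ∀ [IsDomain (QuadraticAlgebra ℤ m (B : ℤ))]
        [UniqueFactorizationMonoid (QuadraticAlgebra ℤ m (B : ℤ))], False)
    (heven : ∀ (a b c B : ℕ) (m r p : ℤ) (d : ℕ), E6.Par a b c B m r p → p = 2 → B % 2 = 0 →
      4 * (d : ℤ) = (B : ℤ) ^ 2 + 4 * m → (d % 4 = 2 ∨ d % 4 = 3) → Squarefree d →
      23 < m → 37 < r →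
      ∀ [IsDomain (QuadraticAlgebra ℤ m (B : ℤ))]
        [UniqueFactorizationMonoid (QuadraticAlgebra ℤ m (B : ℤ))], False)
    (d : ℕ) (h1 : 1 < d) (hsq : Squarefree d) :
    (minimalPeriod gsh (gsh (omg d)) = 6 ∧ UniqueFactorizationMonoid (𝓞 (KQ d))) ↔ d ∈ l6 := by
  constructor
  · rintro ⟨hper, hU⟩
    obtain ⟨a, b, c, B, m, r, p, hP, ⟨h4, hd, hB⟩ | ⟨h4, hd, hB⟩⟩ := exists_par_six d h1 hsq hper
    · obtain ⟨e⟩ := exists_equiv_QI hd (by exact_mod_cast hB)
      have e' := e.symm.trans (eqvO hsq h1)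
      have i1 : IsDomain (QuadraticAlgebra ℤ m (B : ℤ)) := e'.toMulEquiv.isDomain
      have i2 : UniqueFactorizationMonoid (QuadraticAlgebra ℤ m (B : ℤ)) :=
        e'.symm.toMulEquiv.uniqueFactorizationMonoid hU
      rcases E6.small_cases hP with ⟨d', hd', he⟩ | ⟨g1, g2⟩
      · rw [← hd] at he
        have : d' = d := by exact_mod_cast he
        rw [← this]
        exact lD_odd d' hd' (by omega)
      · exfalso
        rcases E6.parity hP (by omega) (by omega) with ⟨k1, k2⟩ | ⟨k1, k2⟩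
        · have hsq' : Squarefree ((B : ℤ) ^ 2 + 4 * m) := by
            rw [← hd]
            exact Int.squarefree_natCast.2 hsq
          exact hodd a b c B m r p hP k2 k1 (E6.p_mod_four hP k1 hsq') hsq' g1 g2
        · omega
    · obtain ⟨e⟩ := exists_equiv_QI_even hd h4 (by exact_mod_cast hB)
      have e' := e.symm.trans (eqvO hsq h1)
      have i1 : IsDomain (QuadraticAlgebra ℤ m (B : ℤ)) := e'.toMulEquiv.isDomain
      have i2 : UniqueFactorizationMonoid (QuadraticAlgebra ℤ m (B : ℤ)) :=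
        e'.symm.toMulEquiv.uniqueFactorizationMonoid hU
      rcases E6.small_cases hP with ⟨d', hd', he⟩ | ⟨g1, g2⟩
      · rw [← hd] at he
        have hd4 : d' = 4 * d := by exact_mod_cast he
        have h5 := lD_even d' hd' (by omega)
        rwa [hd4, Nat.mul_div_cancel_left _ (by norm_num)] at h5
      · exfalso
        rcases E6.parity hP (by omega) (by omega) with ⟨k1, k2⟩ | ⟨k1, k2⟩
        · omega
        · have h40 : d % 4 ≠ 0 := by
            intro h0
            have h6 : 2 * 2 ∣ d := Nat.dvd_of_mod_eq_zero h0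
            have h7 := hsq 2 h6
            rw [Nat.isUnit_iff] at h7
            omega
          exact heven a b c B m r p d hP k2 k1 hd (by omega) hsq g1 g2
  · intro h
    obtain ⟨-, -, p1, p2⟩ := fields h
    exact ⟨p1, p2⟩

end Pool.Agent.PSX
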