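import Pool.Agent.PSX.Ghost
import Pool.Agent.PSX.E6

/-!
Period six: the ghost line theorem for the cycle `(B; a, b, c, b, a)` of a field.
-/

set_option autoImplicit false

namespace Pool.Agent.PSX

open Finset (range)
open Pool.Agent.P4G (Fam QN FN FZ CC CR)
open Pool.Agent.LibH4 Pool.Agent.LibH4.FA Pool.Agent.Lib_helper5 Pool.Agent.RDF

lemma LL_E6 (g : ℤ → ℤ) (Q : ℕ) {a b c B : ℕ} {m r p : ℤ} (h : E6.Par a b c B m r p) :
    LL 6 (E6.P m r p) (E6.R a b B m r) (E6.S m r p) (E6.C a b c B) Q g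
      = LLz6 Q g a b c B m r p := by
  unfold LL LLz6
  rw [Finset.sum_range_succ, Finset.sum_range_succ, Finset.sum_range_succ, Finset.sum_range_succ,
    Finset.sum_range_succ, Finset.sum_range_succ, Finset.sum_range_zero, zero_add]
  have e3 : 2 * (b : ℤ) * r - (2 * a * m - B) = c * p := h.e3.symm
  simp only [E6.P, E6.R, E6.S, E6.C, e3]

/-- the cone identity of a field of period six -/
theorem cone {a b c B : ℕ} {m r p : ℤ} (h : E6.Par a b c B m r p)
    (hm2 : m % 2 = 1) (hB2 : B % 2 = 1)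
    [IsDomain (QuadraticAlgebra ℤ m (B : ℤ))]
    [UniqueFactorizationMonoid (QuadraticAlgebra ℤ m (B : ℤ))]
    {d : ℕ} (hd : (d : ℤ) = (B : ℤ) ^ 2 + 4 * m) (h8 : d % 8 = 5) {Q : ℕ}
    (hQ : Q % 2 = 1) (hcop : Nat.Coprime Q d)
    (f : ℤ → ℤ) (hper : ∀ x, f (x + Q) = f x) (hodd : ∀ x, f (-x) = - f x) :
    LLz6 Q (fun x => 4 * f (4 * x) - f x) a b c B m r p
      = 6 * (Q : ℤ) ^ 2 * RDF.HH Q d (fun x => f (4 * x)) := by
  have hQ0 : 0 < Q := by omega
  have hd0 : (0 : ℤ) < d := by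
    have : 0 < d := by omega
    exact_mod_cast this
  have hperg : ∀ x, (fun n => 4 * f (4 * n) - f n) (x + Q) = (fun n => 4 * f (4 * n) - f n) x := by
    intro x
    have h : f (4 * (x + Q)) = f (4 * x) := by
      rw [mul_add]
      exact per_mulZ hper (4 * x) 4
    simp only
    rw [h, hper]
  have hoddg : ∀ x, (fun n => 4 * f (4 * n) - f n) (-x) = - (fun n => 4 * f (4 * n) - f n) x := by
    intro x
    simp only
    rw [mul_neg, hodd, hodd]
    ring
  have h1 := even_int m B (by have := h.hm; omega) hm2 (by exact_mod_cast hB2) (E6.cyc h) 3 rfl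
    (by norm_num) (E6.closing h) (E6.P_ne h) hd h8 Q hQ0 hcop
    (fun n => 4 * f (4 * n) - f n) hperg hoddg
  rw [RZ_smooth f hQ h8 hper hodd, LL_E6 _ _ h] at h1
  have h2 : (d : ℤ) * (2 * LLz6 Q (fun x => 4 * f (4 * x) - f x) a b c B m r p)
      = (d : ℤ) * (2 * (6 * (Q : ℤ) ^ 2 * RDF.HH Q d (fun x => f (4 * x)))) := by
    rw [h1]; ring
  have h3 := mul_left_cancel₀ hd0.ne' h2
  linarith

/-- the closing equations over the integers -/
lemma cl_of_par {a b c B : ℕ} {m r p : ℤ} (h : E6.Par a b c B m r p) :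
    Cl a b c B m r p := ⟨h.e1, h.e2, by rw [h.e3]; ring⟩

lemma cl_neg {a b c B m r p : ℤ} (h : Cl a b c B m r p) : Cl (-a) (-b) (-c) (-B) m r p :=
  ⟨by rw [h.e1]; ring, by rw [h.e2]; ring, by have := h.e3; linear_combination -this⟩

/-- an odd prime with negative symbol -/
lemma euler {l : ℕ} [Fact l.Prime] {D : ℤ} (h : jacobiSym D l = -1) :
    (D : ZMod l) ^ (l / 2) = -1 := by
  rw [← jacobiSym.legendreSym.to_jacobiSym] at h
  have := legendreSym.eq_pow l D
  rw [h] at this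
  push_cast at this
  exact this.symm

/-- **the ghost line theorem for a field** -/
theorem ghost_kill {a b c B : ℕ} {m r p : ℤ} (h : E6.Par a b c B m r p)
    (hm2 : m % 2 = 1) (hB2 : B % 2 = 1)
    [IsDomain (QuadraticAlgebra ℤ m (B : ℤ))]
    [UniqueFactorizationMonoid (QuadraticAlgebra ℤ m (B : ℤ))]
    (j3 : jacobiSym ((B : ℤ) ^ 2 + 4 * m) 3 = -1) (j5 : jacobiSym ((B : ℤ) ^ 2 + 4 * m) 5 = -1)
    (j7 : jacobiSym ((B : ℤ) ^ 2 + 4 * m) 7 = -1) (j13 : jacobiSym ((B : ℤ) ^ 2 + 4 * m) 13 = -1)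
    (hg : ((1365 : ℤ) ∣ a - 1 ∧ (1365 : ℤ) ∣ b + 1) ∨ ((1365 : ℤ) ∣ a + 1 ∧ (1365 : ℤ) ∣ b - 1)) :
    False := by
  have G := ghost_line
  have hm := h.hm
  obtain ⟨d, hd⟩ : ∃ d : ℕ, (d : ℤ) = (B : ℤ) ^ 2 + 4 * m :=
    ⟨((B : ℤ) ^ 2 + 4 * m).toNat, Int.toNat_of_nonneg (by positivity)⟩
  have h8 : d % 8 = 5 := by
    have h1 : ((B : ℤ) ^ 2) % 8 = 1 := by
      obtain ⟨k, hk⟩ : ∃ k : ℤ, (B : ℤ) = 2 * k + 1 := ⟨(B : ℤ) / 2, by omega⟩
      rw [hk]
      have e : (2 * k + 1) ^ 2 = 4 * (k * (k + 1)) + 1 := by ring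
      obtain ⟨t, ht⟩ : ∃ t, k * (k + 1) = 2 * t := by
        rcases Int.even_mul_succ_self k with ⟨t, ht⟩
        exact ⟨t, by rw [ht]; ring⟩
      rw [e, ht]
      omega
    omega
  rw [← hd] at j3 j5 j7 j13
  have i3 : Fact (Nat.Prime 3) := ⟨by norm_num⟩
  have i5 : Fact (Nat.Prime 5) := ⟨by norm_num⟩
  have i7 : Fact (Nat.Prime 7) := ⟨by norm_num⟩
  have i13 : Fact (Nat.Prime 13) := ⟨by norm_num⟩
  have hNr : Nr ((B : ℤ) ^ 2 + 4 * m) := by
    rw [← hd]
    have k3 := euler j3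
    have k5 := euler j5
    have k7 := euler j7
    have k13 := euler j13
    norm_num at k3 k5 k7 k13
    exact ⟨by simpa using k3, by simpa using k5, by simpa using k7, by simpa using k13⟩
  have cop : ∀ l : ℕ, l.Prime → jacobiSym (d : ℤ) l = -1 → Nat.Coprime l d := by
    intro l hl hj
    rw [hl.coprime_iff_not_dvd]
    intro hdv
    have : Fact l.Prime := ⟨hl⟩
    rw [← jacobiSym.legendreSym.to_jacobiSym] at hj
    have h0 : ((d : ℤ) : ZMod l) = 0 := by
      rw [Int.cast_natCast, ZMod.natCast_eq_zero_iff]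
      exact hdv
    rw [(legendreSym.eq_zero_iff l (d : ℤ)).2 h0] at hj
    norm_num at hj
  have hrel : Rel a b c B m r p := by
    intro q0 n e e0 ψ _ hq hF
    have hQ := hF.fam.Qodd
    have hcop : Nat.Coprime (QN 13 q0 n) d := by
      have c105 : Nat.Coprime 105 d := by
        have : (105 : ℕ) = 3 * (5 * 7) := by norm_num
        rw [this]
        exact Nat.Coprime.mul_left (cop 3 (by norm_num) j3)
          (Nat.Coprime.mul_left (cop 5 (by norm_num) j5) (cop 7 (by norm_num) j7))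
      unfold QN
      exact Nat.Coprime.mul_left (Nat.Coprime.coprime_dvd_left hq c105)
        (Nat.Coprime.pow_left _ (cop 13 (by norm_num) j13))
    exact rel_of_cone 13 q0 n e e0 ψ hF a b c B m r p d (cl_of_par h)
      (fun f hper hodd => cone h hm2 hB2 hd h8 hQ hcop f hper hodd)
  have ha := h.ha
  have hb := h.hb
  rcases hg with ⟨g1, g2⟩ | ⟨g1, g2⟩
  · obtain ⟨k1, k2⟩ := G a b c B m r p (cl_of_par h) hNr hrel g1 g2
    omega
  · have hrel' : Rel (-a) (-b) (-c) (-B) m r p := by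
      intro q0 n e e0 ψ _ hq hF
      rw [neg_cycle _ hF.fam.Qodd, hrel q0 n e e0 ψ hq hF, neg_zero]
    obtain ⟨k1, k2⟩ := G (-a) (-b) (-c) (-B) m r p (cl_neg (cl_of_par h))
      (by rw [neg_sq]; exact hNr) hrel'
      (by rw [← dvd_neg]; have e : -(-(a : ℤ) - 1) = a + 1 := by ring
          rw [e]; exact g1)
      (by rw [← dvd_neg]; have e : -(-(b : ℤ) + 1) = b - 1 := by ring
          rw [e]; exact g2)
    omega

end Pool.Agent.PSX
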