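import Pool.Agent.PSX.E6Rep

/-!
Period six: the parameters with a prime middle value.
-/

namespace Pool.Agent.PSX.E6

variable {a b c B : ℕ} {m r p : ℤ}

/-- the parameters with `w = 0` and a prime middle value -/
theorem prime_w0 (h : Par a b c B m r p) {l : ℕ} (hl : l.Prime) (hp : p = l)
    {u n : ℕ} (hu : 1 ≤ u) (hn : b = a * n) (hm : m = (u * b + n : ℕ)) (hr : r = (1 + a * u : ℕ))
    (hpn : p = (n : ℤ)) (hB : B = u + a * (u * b + n)) (q : c * n = b + u * (1 + a * b)) :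
    ∃ v : ℕ, 1 ≤ v ∧ b = l * a ∧ c = a + v * (1 + l * a ^ 2) ∧ B = l * c ∧
      r = 1 + l * a * v ∧ m = l * r ∧ u = l * v := by
  have hnl : n = l := by
    rw [hp] at hpn
    exact_mod_cast hpn.symm
  subst hnl
  have hn0 : 0 < n := hl.pos
  have hdvd : n ∣ u := by
    have h1 : n ∣ n * (a + u * a * a) + u := ⟨c, by
      rw [mul_comm n c, q, hn]; ring⟩
    exact (Nat.dvd_add_right (Dvd.intro _ rfl)).1 h1
  obtain ⟨v, rfl⟩ := hdvd
  have hc : c = a + v * (1 + n * a ^ 2) := by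
    have h1 : n * c = n * (a + v * (1 + n * a ^ 2)) := by
      rw [mul_comm n c, q, hn]; ring
    exact Nat.eq_of_mul_eq_mul_left hn0 h1
  refine ⟨v, ?_, by rw [hn]; ring, hc, ?_, ?_, ?_, rfl⟩
  · rcases Nat.eq_zero_or_pos v with h0 | h0
    · rw [h0] at hu; omega
    · exact h0
  · rw [hB, hn, hc]; ring
  · rw [hr]; push_cast; ring
  · rw [hm, hr, hn]; push_cast; ring

/-- **the parameters with a prime middle value `l`**: the family with two parameters, or
`n + b w = l` with `w ≥ 1` and one parameter `u` -/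
theorem prime_mid (h : Par a b c B m r p) {l : ℕ} (hl : l.Prime) (hp : p = l) :
    (∃ v : ℕ, 1 ≤ v ∧ b = l * a ∧ c = a + v * (1 + l * a ^ 2) ∧ B = l * c ∧
      r = 1 + l * a * v ∧ m = l * r) ∨
    (∃ u n w : ℕ, 1 ≤ u ∧ 1 ≤ n ∧ 1 ≤ w ∧ n + b * w = l ∧ w + b = a * n ∧
      c * l + w = b + u * (1 + a * b) ∧ m = (u * b + n : ℕ) ∧ r = (1 + a * u : ℕ) ∧
      B = u + a * (u * b + n)) := by
  obtain ⟨u, n, w, hu, hn, hwb, hm, hr, hpe, hB, q⟩ := params h
  rcases Nat.eq_zero_or_pos w with hw | hw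
  · left
    subst hw
    obtain ⟨v, h1, h2, h3, h4, h5, h6, -⟩ := prime_w0 h hl hp (u := u) (n := n) hu (by omega) hm hr
      (by rw [hpe]; simp) hB (by simpa using q)
    exact ⟨v, h1, h2, h3, h4, h5, h6⟩
  · right
    have hle : n + b * w = l := by
      rw [hp] at hpe
      exact_mod_cast hpe.symm
    exact ⟨u, n, w, hu, hn, hw, hle, hwb, by rw [← hle]; exact q, hm, hr, hB⟩

end Pool.Agent.PSX.E6
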