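import Pool.Agent.PSX.OdTree7

/-! kernel checks, middle value seven -/

namespace Pool.Agent.PSX.Ev

lemma co7_5 : so7_13 (nat_lit 5) = true := by decide +kernel
lemma co7_6 : so7_13 (nat_lit 6) = true := by decide +kernel
lemma co7_7 : so7_13 (nat_lit 7) = true := by decide +kernel
lemma co7_8 : so7_13 (nat_lit 8) = true := by decide +kernel

end Pool.Agent.PSX.Ev
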