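import Pool.Agent.PSX.OdTree7

/-! kernel checks, middle value seven -/

namespace Pool.Agent.PSX.Ev

lemma co7_9 : so7_13 (nat_lit 9) = true := by decide +kernel
lemma co7_10 : so7_13 (nat_lit 10) = true := by decide +kernel
lemma co7_11 : so7_13 (nat_lit 11) = true := by decide +kernel
lemma co7_12 : so7_13 (nat_lit 12) = true := by decide +kernel

end Pool.Agent.PSX.Ev
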