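import Pool.Agent.PSX.OdCk7a
import Pool.Agent.PSX.OdCk7b
import Pool.Agent.PSX.OdCk7c
import Pool.Agent.PSX.E6Prime
import Pool.Agent.PSX.E6Even

/-!
Period six, middle value seven, family with two parameters: excluded for large parameters.
-/

namespace Pool.Agent.PSX.Ev

open Finset Pool.Agent.LibH4 Pool.Agent.Lib_helper5 Pool.Agent.Lib_helper5.LK

lemma co7 (a : ℕ) (h : a < 13) : so7_13 a = true := by
  interval_cases a
  · exact co7_0
  · exact co7_1
  · exact co7_2
  · exact co7_3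
  · exact co7_4
  · exact co7_5
  · exact co7_6
  · exact co7_7
  · exact co7_8
  · exact co7_9
  · exact co7_10
  · exact co7_11
  · exact co7_12

/-- **elimination for the middle value seven** -/
theorem nop7 {Q : ℕ} {D : ℤ} {a v : ℤ} (S : OSys Q D (Jp (7 : ℕ) a v)) (hQ : 704990 ∣ Q) :
    False :=
  so7_13_spec S hQ (co7 (rs 13 a) (rs_lt a))

lemma le29 {l : ℕ} (hl : l.Prime) (h : l ∣ 704990) : l ≤ 29 ∧ l ≠ 7 := by
  have e : (704990 : ℕ) = 2 * (5 * (11 * (13 * (17 * 29)))) := by norm_num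
  constructor
  · rw [e] at h
    rcases hl.dvd_mul.1 h with h | h
    · exact (Nat.le_of_dvd (by norm_num) h).trans (by norm_num)
    rcases hl.dvd_mul.1 h with h | h
    · exact (Nat.le_of_dvd (by norm_num) h).trans (by norm_num)
    rcases hl.dvd_mul.1 h with h | h
    · exact (Nat.le_of_dvd (by norm_num) h).trans (by norm_num)
    rcases hl.dvd_mul.1 h with h | h
    · exact (Nat.le_of_dvd (by norm_num) h).trans (by norm_num)
    rcases hl.dvd_mul.1 h with h | h
    · exact (Nat.le_of_dvd (by norm_num) h).trans (by norm_num)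
    exact Nat.le_of_dvd (by norm_num) h
  · rintro rfl
    omega

/-- the forms of the cycle -/
lemma Jc_p {q a b c B v : ℕ} {m r p : ℤ} (hp : p = q) (hb : b = q * a)
    (hc : c = a + v * (1 + q * a ^ 2)) (hB : B = q * c) (hr : r = 1 + q * a * v)
    (hm : m = q * r) :
    Jc 6 (E6.P m r p) (E6.R a b B m r) (E6.S m r p) (E6.C a b c B) =
      Jp (q : ℤ) (a : ℤ) (v : ℤ) := by
  subst hp hB hc hm hr hb
  unfold Jc Jp
  simp only [List.range_succ, List.range_zero, List.map_nil, List.map_cons,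
    List.nil_append, List.cons_append, E6.P, E6.R, E6.S, E6.C]
  simp only [List.cons.injEq, Fm.mk.injEq]
  push_cast
  and_intros <;> first | trivial | rfl | omega | ring

/-- **no class number one for large parameters, middle value seven, two parameters** -/
theorem no7 (a b c B : ℕ) (m r p : ℤ) (h : E6.Par a b c B m r p) (hp7 : p = 7)
    (hw : ∃ v : ℕ, 1 ≤ v ∧ b = 7 * a ∧ c = a + v * (1 + 7 * a ^ 2) ∧ B = 7 * c ∧
      r = 1 + 7 * a * v ∧ m = 7 * r)
    (hm2 : m % 2 = 1) (hB2 : B % 2 = 1) (hr29 : 29 < r)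
    [IsDomain (QuadraticAlgebra ℤ m (B : ℤ))]
    [UniqueFactorizationMonoid (QuadraticAlgebra ℤ m (B : ℤ))] : False := by
  obtain ⟨v, hv, f1, f2, f3, f4, f5⟩ := hw
  obtain ⟨d, hd⟩ : ∃ d : ℕ, (d : ℤ) = (B : ℤ) ^ 2 + 4 * m := by
    refine ⟨((B : ℤ) ^ 2 + 4 * m).toNat, Int.toNat_of_nonneg ?_⟩
    have : (0 : ℤ) ≤ (B : ℤ) ^ 2 := sq_nonneg _
    have := h.hm
    omega
  have S := osys_of (by omega) hm2 (by exact_mod_cast hB2) (E6.cyc h) (E6.closing h) (E6.P_ne h)
    hd (Q := 704990) (by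
      intro l hl hl2 hlQ
      obtain ⟨h1, h2⟩ := le29 hl hlQ
      refine E6.inert_all h hd l hl hl2 ?_ (by omega) (by omega)
      rw [hp7]
      exact_mod_cast h2)
  rw [Jc_p (q := 7) (by rw [hp7]; rfl) f1 f2 f3 (by exact_mod_cast f4) (by exact_mod_cast f5)] at S
  exact nop7 S (dvd_refl _)

end Pool.Agent.PSX.Ev
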