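import Pool.Agent.PSX.Sys6
import Pool.Agent.PSX.E6Even

/-!
Period six: the passage from the parameters to the system of conditions (odd discriminants).
-/

namespace Pool.Agent.PSX.EL

open Finset Pool.Agent.Lib_helper5 Pool.Agent.Lib_helper5.LK Pool.Agent.LibH4
  Pool.Agent.LibH4.Ker Pool.Agent.LibH4.T6 Pool.Agent.LibH4.KF Pool.Agent.Lib_helper5.TB
open Pool.Agent.LibH4.S7 (y2 r2 y3 r3 disc2 disc3 y2_neg r2_neg y3_neg r3_neg dd_neg odd_mul
  dd_mod8)

variable {a b c B : ℕ} {m r p : ℤ}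

lemma y2_eq (h : E6.Par a b c B m r p) : y2 a B m = r := by
  unfold y2; rw [h.e1]; ring

lemma r2_eq : r2 a B m = 2 * a * m - B := by unfold r2; ring

lemma y3_eq (h : E6.Par a b c B m r p) : y3 a b B m = p := by
  unfold y3; rw [y2_eq h, r2_eq, h.e2]; ring

lemma r3_eq (h : E6.Par a b c B m r p) :
    r3 a b B m = 2 * b * r - (2 * a * m - B) := by
  unfold r3; rw [y2_eq h, r2_eq]; ring

lemma cl_of (h : E6.Par a b c B m r p) : Cl6 a b c B m := by
  unfold Cl6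
  rw [y3_eq h, r3_eq h]
  exact h.e3

section

variable [IsDomain (QuadraticAlgebra ℤ m (B : ℤ))]
  [UniqueFactorizationMonoid (QuadraticAlgebra ℤ m (B : ℤ))]

/-- inert primes -/
lemma in_of (h : E6.Par a b c B m r p) {d : ℕ} (hd : (d : ℤ) = (B : ℤ) ^ 2 + 4 * m)
    {l : ℕ} (hl : l.Prime) (hl2 : l ≠ 2) (g1 : (l : ℤ) < m) (g2 : (l : ℤ) < r)
    (g3 : (l : ℤ) ≠ p) : K5.In l (S7.dd B m) := by
  have h1 := E6.inert_all h hd l hl hl2 g3 g1 g2
  have : Fact l.Prime := ⟨hl⟩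
  have h2 : ((jacobiSym d l : ℤ) : ZMod l) = (d : ZMod l) ^ (l / 2) := by
    rw [← jacobiSym.legendreSym.to_jacobiSym, legendreSym.eq_pow]
    push_cast
    rfl
  have h3 : ((rs l (S7.dd B m) : ℕ) : ZMod l) = (d : ZMod l) := by
    have e : S7.dd B m = (d : ℤ) := by unfold S7.dd; rw [hd]; ring
    rw [rs_cast, e]
    push_cast
    rfl
  have h4 : (((rs l (S7.dd B m)) ^ (l / 2) : ℕ) : ZMod l) = ((l - 1 : ℕ) : ZMod l) := by
    rw [Nat.cast_pow, h3, ← h2, h1, K5.cast_pred]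
    push_cast
    rfl
  have h5 := (ZMod.natCast_eq_natCast_iff' _ _ l).1 h4
  have hl1 := hl.two_le
  rw [Nat.mod_eq_of_lt (show l - 1 < l by omega)] at h5
  have h6 : Nat.mod (Nat.pow (rs l (S7.dd B m)) (l / 2)) l = l - 1 := h5
  unfold K5.In
  rw [h6]
  exact Nat.beq_refl _

/-- the relations hold -/
theorem rel_of (h : E6.Par a b c B m r p) (hm2 : m % 2 = 1) (hB2 : B % 2 = 1) {d : ℕ}
    (hd : (d : ℤ) = (B : ℤ) ^ 2 + 4 * m) (h8 : d % 8 = 5)
    {q N : ℕ} [NeZero q] (hcop : Nat.Coprime q d) (hN2 : N % 2 = 1) (hNd : Nat.Coprime d N)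
    (χ : ZMod q → ZMod N) (hodd : ∀ x, χ (-x) = - χ x) (hmul : ∀ x y, χ (x * y) = χ x * χ y)
    (hsum : (∑ u ∈ range q, (u : ZMod N) * χ (u : ZMod q)) * (q : ZMod N) = 0) :
    LK.Rel N χ (J6 a b c B m) := by
  have hm0 : 0 < m := by have := h.hm; omega
  have key := even_T5N m B hm0 hm2 (by exact_mod_cast hB2) (E6.cyc h) 3 rfl (by norm_num)
    (E6.closing h) (E6.P_ne h) hd h8 q N
    (Nat.pos_of_ne_zero (NeZero.ne q)) hcop hN2 hNd χ hodd hmul (by
      intro z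
      linear_combination (3 * z) * hsum)
  simp only [KF.range_term] at key
  simp only [Finset.sum_range_succ,
    Finset.sum_range_zero (M := ZMod N), zero_add, E6.P, E6.R, E6.S, E6.C] at key
  have s1 : KF.XX χ m B (-1) = KF.XX χ 1 B (-m) := by
    have := KF.XX_swap χ hodd 1 B (-m)
    rw [neg_neg] at this
    exact this
  have s2 : KF.XX χ r (2 * a * m - B) (-m) = KF.XX χ m (2 * a * m - B) (-r) := by
    have := KF.XX_swap χ hodd m (2 * a * m - B) (-r)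
    rw [neg_neg] at this
    exact this
  have s3 : KF.XX χ p (2 * b * r - (2 * a * m - B)) (-r) =
      KF.XX χ r (2 * b * r - (2 * a * m - B)) (-p) := by
    have := KF.XX_swap χ hodd r (2 * b * r - (2 * a * m - B)) (-p)
    rw [neg_neg] at this
    exact this
  have t1 : KF.YX χ r (2 * a * m - B) (-m) = KF.YX χ 1 B (-m) := by
    have h1 := KF.YX_swap χ hodd m (2 * a * m - B) (-r)
    rw [neg_neg] at h1
    have h2 := K5.YY_step χ hodd 1 B m a
    have e : -(1 + (B : ℤ) * a - m * (a : ℤ) ^ 2) = -r := by rw [h.e1]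
    rw [e] at h2
    rw [h1, h2, neg_neg]
  have t2 : KF.YX χ p (2 * b * r - (2 * a * m - B)) (-r) =
      KF.YX χ m (2 * a * m - B) (-r) := by
    have h1 := KF.YX_swap χ hodd r (2 * b * r - (2 * a * m - B)) (-p)
    rw [neg_neg] at h1
    have h2 := K5.YY_step χ hodd m (2 * a * m - B) r b
    have e : -(m + (2 * a * m - B) * b - r * (b : ℤ) ^ 2) = -p := by rw [h.e2]
    rw [e] at h2
    rw [h1, h2, neg_neg]
  unfold LK.Rel J6
  simp only [List.map_cons, List.map_nil, List.sum_cons, List.sum_nil, add_zero]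
  rw [r3_eq h, y3_eq h, y2_eq h, r2_eq]
  rw [s1, s2, s3, t1, t2] at key
  push_cast
  linear_combination key

/-- **the system of conditions** -/
theorem sys6_of (h : E6.Par a b c B m r p) (hm2 : m % 2 = 1) (hB2 : B % 2 = 1)
    (hp4 : p % 4 = 3) {Q : ℕ}
    (hQ : ∀ l : ℕ, l.Prime → l ≠ 2 → l ∣ Q → (l : ℤ) < m ∧ (l : ℤ) < r ∧ (l : ℤ) ≠ p) :
    Sys6 Q a b c B m := by
  obtain ⟨d, hd⟩ : ∃ d : ℕ, (d : ℤ) = (B : ℤ) ^ 2 + 4 * m := by
    refine ⟨((B : ℤ) ^ 2 + 4 * m).toNat, Int.toNat_of_nonneg ?_⟩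
    have : (0 : ℤ) ≤ (B : ℤ) ^ 2 := sq_nonneg _
    have := h.hm
    omega
  have hBz : (B : ℤ) % 2 = 1 := by exact_mod_cast hB2
  have h8 : d % 8 = 5 := by
    have h1 := dd_mod8 hBz hm2
    have e : S7.dd B m = (d : ℤ) := by unfold S7.dd; rw [hd]; ring
    rw [e] at h1
    exact_mod_cast h1
  have cop : ∀ l : ℕ, l.Prime → l ∣ Q → ¬ l ∣ d := by
    intro l hl hlQ hdvd
    rcases eq_or_ne l 2 with rfl | hl2
    · omega
    obtain ⟨g1, g2, g3⟩ := hQ l hl hl2 hlQ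
    have h1 := E6.inert_all h hd l hl hl2 g3 g1 g2
    have h2 : jacobiSym (d : ℤ) l ≠ 0 := by rw [h1]; norm_num
    apply h2
    have : Fact l.Prime := ⟨hl⟩
    rw [← jacobiSym.legendreSym.to_jacobiSym, legendreSym.eq_zero_iff]
    have : ((d : ℕ) : ZMod l) = 0 := by rw [ZMod.natCast_eq_zero_iff]; exact hdvd
    exact_mod_cast this
  have hcopP : Nat.Coprime d (Q ^ 6) := by
    apply Nat.Coprime.pow_right
    by_contra hc
    obtain ⟨l, hl, h1, h2⟩ := Nat.Prime.not_coprime_iff_dvd.1 hc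
    exact cop l hl h2 h1
  refine ⟨hBz, hm2, cl_of h, by rw [y3_eq h]; exact hp4, ?_, ?_⟩
  · intro l hl hl2 hlQ
    obtain ⟨g1, g2, g3⟩ := hQ l hl hl2 hlQ
    exact in_of h hd hl hl2 g1 g2 g3
  intro n1 n2 n3 N T1 T2 T3 _ _ _ _ _ h1 h2 h3 h4 hN2 h5
  have hN : 0 < N := by omega
  obtain ⟨ho, hs⟩ := K4.relOk_spec hN h1 h2 h3 h4
  have hdq : Nat.Coprime (n1 * n2 * n3) d :=
    (Nat.Coprime.coprime_dvd_right ((Dvd.intro _ rfl).trans h5) hcopP).symm
  have hdN : Nat.Coprime d N := Nat.Coprime.coprime_dvd_right ((Dvd.intro_left _ rfl).trans h5) hcopP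
  have hc := tri_char (n1 := n1) (n2 := n2) (n3 := n3) (tabCk_char h2) (tabCk_char h3)
    (tabCk_char h4)
  exact rel_of h hm2 hB2 hd h8 hdq hN2 hdN _ ho hc.mul hs

end

end Pool.Agent.PSX.EL
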