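import Pool.Agent.PSX.Pr11

/-!
Period six, middle value nineteen: the family `b = 19 a`, `B = 19 c`, `m = 19 (1 + 19 a v)`. Classes
modulo 13, 7, 5, 4 and 23; the relations are those of the middle value eleven.
-/

namespace Pool.Agent.PSX.P19

open Pool.Agent.Lib_helper5 Pool.Agent.Lib_helper5.LK Pool.Agent.Lib_helper5.TB
  Pool.Agent.LibH4.Ker Pool.Agent.PSX.EL Pool.Agent.PSX.P11
open Pool.Agent.LibH4.S7 (Rl cd cd_one)

/-- the check at the prime 23 -/
def c23 (k13 k7 k5 k4 : ℕ) : Bool :=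
  lp (nat_lit 23) (nat_lit 19) (adP (nat_lit 23)) fun k23 =>
    chk6 R299N7 (nat_lit 23) (nat_lit 13) (nat_lit 1) k23 k13 (nat_lit 0) k7
    (chk6 R805F5 (nat_lit 23) (nat_lit 7) (nat_lit 5) k23 k7 k5 k5
    (chk6 R805N13 (nat_lit 23) (nat_lit 7) (nat_lit 5) k23 k7 k5 k13
    (chk6 R460F5 (nat_lit 23) (nat_lit 5) (nat_lit 4) k23 k5 k4 k5 false)))

/-- the check -/
def c19 : Bool :=
  lp (nat_lit 13) (nat_lit 19) (adP (nat_lit 13)) fun k13 =>
  lp (nat_lit 7) (nat_lit 19) (adP (nat_lit 7)) fun k7 =>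
    chk6 R91F13 (nat_lit 13) (nat_lit 7) (nat_lit 1) k13 k7 (nat_lit 0) k13
  (lp (nat_lit 5) (nat_lit 19) (adP (nat_lit 5)) fun k5 =>
    chk6 R455F13a (nat_lit 13) (nat_lit 7) (nat_lit 5) k13 k7 k5 k13
    (chk6 R455F13b (nat_lit 13) (nat_lit 7) (nat_lit 5) k13 k7 k5 k13
    (chk6 R455F13c (nat_lit 13) (nat_lit 7) (nat_lit 5) k13 k7 k5 k13
  (lp (nat_lit 4) (nat_lit 19) adO fun k4 =>
    chk6 R140N13 (nat_lit 7) (nat_lit 5) (nat_lit 4) k7 k5 k4 k13
    (chk6 R260F13 (nat_lit 13) (nat_lit 5) (nat_lit 4) k13 k5 k4 k13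
      (c23 k13 k7 k5 k4))))))

lemma c19_true : c19 = true := by decide +kernel

/-- the modulus -/
abbrev QQ : ℕ := 41860

theorem no_sys {v a b c B m : ℤ} (S : Sys6 QQ a b c B m) (hF : InF 19 v a b c B m) : False := by
  have p13 : adP 13 (rs 13 m) (rs 13 B) (rs 13 (-1)) = true :=
    ad6P S (by norm_num) (by norm_num) (by norm_num)
  have p7 : adP 7 (rs 7 m) (rs 7 B) (rs 7 (-1)) = true :=
    ad6P S (by norm_num) (by norm_num) (by norm_num)
  have p5 : adP 5 (rs 5 m) (rs 5 B) (rs 5 (-1)) = true :=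
    ad6P S (by norm_num) (by norm_num) (by norm_num)
  have p4 : adO (rs 4 m) (rs 4 B) (rs 4 (-1)) = true := ad6O S (by norm_num)
  have p23 : adP 23 (rs 23 m) (rs 23 B) (rs 23 (-1)) = true :=
    ad6P S (by norm_num) (by norm_num) (by norm_num)
  have c1 : (nat_lit 0) = cd 1 a b c B m := (cd_one a b c B m).symm
  have h1 := lp_spec hF p13 c19_true
  have h2 := lp_spec hF p7 h1
  beta_reduce at h2
  rw [c1] at h2
  have h3 := RC6.chk (show RC6 R91F13 13 7 1 13 from ⟨rfl, rfl, rfl, rfl⟩) (R91F13_holds S (by norm_num))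
    (dvd_refl _) (dvd_refl _) (dvd_refl _) h2
  have h4 := lp_spec hF p5 h3
  beta_reduce at h4
  have h5 := RC6.chk (show RC6 R455F13a 13 7 5 13 from ⟨rfl, rfl, rfl, rfl⟩) (R455F13a_holds S (by norm_num))
    (dvd_refl _) (dvd_refl _) (dvd_refl _) h4
  have h6 := RC6.chk (show RC6 R455F13b 13 7 5 13 from ⟨rfl, rfl, rfl, rfl⟩) (R455F13b_holds S (by norm_num))
    (dvd_refl _) (dvd_refl _) (dvd_refl _) h5
  have h7 := RC6.chk (show RC6 R455F13c 13 7 5 13 from ⟨rfl, rfl, rfl, rfl⟩) (R455F13c_holds S (by norm_num))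
    (dvd_refl _) (dvd_refl _) (dvd_refl _) h6
  have h8 := lp_spec hF p4 h7
  beta_reduce at h8
  have h9 := RC6.chk (show RC6 R140N13 7 5 4 13 from ⟨rfl, rfl, rfl, rfl⟩) (R140N13_holds S (by norm_num))
    (dvd_refl _) (dvd_refl _) (dvd_refl _) h8
  have h10 := RC6.chk (show RC6 R260F13 13 5 4 13 from ⟨rfl, rfl, rfl, rfl⟩) (R260F13_holds S (by norm_num))
    (dvd_refl _) (dvd_refl _) (dvd_refl _) h9
  unfold c23 at h10
  have h11 := lp_spec hF p23 h10
  beta_reduce at h11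
  rw [c1] at h11
  have h12 := RC6.chk (show RC6 R299N7 23 13 1 7 from ⟨rfl, rfl, rfl, rfl⟩) (R299N7_holds S (by norm_num))
    (dvd_refl _) (dvd_refl _) (dvd_refl _) h11
  have h13 := RC6.chk (show RC6 R805F5 23 7 5 5 from ⟨rfl, rfl, rfl, rfl⟩) (R805F5_holds S (by norm_num))
    (dvd_refl _) (dvd_refl _) (dvd_refl _) h12
  have h14 := RC6.chk (show RC6 R805N13 23 7 5 13 from ⟨rfl, rfl, rfl, rfl⟩) (R805N13_holds S (by norm_num))
    (dvd_refl _) (dvd_refl _) (dvd_refl _) h13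
  have h15 := RC6.chk (show RC6 R460F5 23 5 4 5 from ⟨rfl, rfl, rfl, rfl⟩) (R460F5_holds S (by norm_num))
    (dvd_refl _) (dvd_refl _) (dvd_refl _) h14
  exact absurd h15 (by decide)

lemma le23 {l : ℕ} (hl : l.Prime) (h : l ∣ QQ) : l ≤ 23 ∧ l ≠ 19 := by
  have e : QQ = 2 * (2 * (5 * (7 * (13 * 23)))) := by norm_num
  constructor
  · rw [e] at h
    rcases hl.dvd_mul.1 h with h | h
    · exact (Nat.le_of_dvd (by norm_num) h).trans (by norm_num)
    rcases hl.dvd_mul.1 h with h | h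
    · exact (Nat.le_of_dvd (by norm_num) h).trans (by norm_num)
    rcases hl.dvd_mul.1 h with h | h
    · exact (Nat.le_of_dvd (by norm_num) h).trans (by norm_num)
    rcases hl.dvd_mul.1 h with h | h
    · exact (Nat.le_of_dvd (by norm_num) h).trans (by norm_num)
    rcases hl.dvd_mul.1 h with h | h
    · exact (Nat.le_of_dvd (by norm_num) h).trans (by norm_num)
    exact Nat.le_of_dvd (by norm_num) h
  · rintro rfl
    revert h
    norm_num

/-- **no class number one for large parameters, middle value nineteen, two parameters** -/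
theorem no19 (a b c B : ℕ) (m r p : ℤ) (h : E6.Par a b c B m r p) (hp19 : p = 19)
    (hw : ∃ v : ℕ, 1 ≤ v ∧ b = 19 * a ∧ c = a + v * (1 + 19 * a ^ 2) ∧ B = 19 * c ∧
      r = 1 + 19 * a * v ∧ m = 19 * r)
    (hm2 : m % 2 = 1) (hB2 : B % 2 = 1) (hr23 : 23 < r)
    [IsDomain (QuadraticAlgebra ℤ m (B : ℤ))]
    [UniqueFactorizationMonoid (QuadraticAlgebra ℤ m (B : ℤ))] : False := by
  obtain ⟨v, hv, f1, f2, f3, f4, f5⟩ := hw
  have S : Sys6 QQ a b c B m := sys6_of h hm2 hB2 (by omega) (by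
    intro l hl hl2 hlQ
    obtain ⟨h1, h2⟩ := le23 hl hlQ
    refine ⟨by omega, by omega, ?_⟩
    rw [hp19]
    exact_mod_cast h2)
  refine no_sys (v := v) S ⟨?_, ?_, ?_, ?_⟩
  · rw [f1]; push_cast; ring
  · rw [f2]; push_cast; ring
  · rw [f3]; push_cast; ring
  · rw [f5, f4]; push_cast; ring

end Pool.Agent.PSX.P19
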