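import Pool.Agent.PSX.OnePR
import Pool.Agent.PSX.E6Prime
import Pool.Agent.PSX.SysOf

/-!
Period six, middle value 11: the families with one parameter.
-/

namespace Pool.Agent.PSX.OneP

open Pool.Agent.PSX.EL

lemma pr11_1 : ∀ l ∈ ([13, 5] : List ℕ), l.Prime ∧ l ≠ 2 ∧ l ∣ 910 ∧ l ∣ 1 * 520 := by
  intro l hl
  simp only [List.mem_cons, List.not_mem_nil, or_false] at hl
  rcases hl with rfl | rfl <;> norm_num

lemma pr11_2 : ∀ l ∈ ([7] : List ℕ), l.Prime ∧ l ≠ 2 ∧ l ∣ 910 ∧ l ∣ 520 * 7 := by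
  intro l hl
  simp only [List.mem_cons, List.not_mem_nil, or_false] at hl
  subst hl
  norm_num

lemma rls11_1 : Rls 910 [q_260F13, q_520F5] (1 * 520) :=
  Rls.cons g_260F13 (by norm_num) (by simp only [q_260F13]; norm_num)
    (by simp only [q_260F13]; norm_num) (by simp only [q_260F13]; norm_num) (by simp only [q_260F13]; norm_num) <|
  Rls.cons g_520F5 (by norm_num) (by simp only [q_520F5]; norm_num)
    (by simp only [q_520F5]; norm_num) (by simp only [q_520F5]; norm_num) (by simp only [q_520F5]; norm_num) <|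
  Rls.nil

lemma rls11_2 : Rls 910 [q_140N13, q_280F7, q_364F13a] (520 * 7) :=
  Rls.cons g_140N13 (by norm_num) (by simp only [q_140N13]; norm_num)
    (by simp only [q_140N13]; norm_num) (by simp only [q_140N13]; norm_num) (by simp only [q_140N13]; norm_num) <|
  Rls.cons g_280F7 (by norm_num) (by simp only [q_280F7]; norm_num)
    (by simp only [q_280F7]; norm_num) (by simp only [q_280F7]; norm_num) (by simp only [q_280F7]; norm_num) <|
  Rls.cons g_364F13a (by norm_num) (by simp only [q_364F13a]; norm_num)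
    (by simp only [q_364F13a]; norm_num) (by simp only [q_364F13a]; norm_num) (by simp only [q_364F13a]; norm_num) <|
  Rls.nil

/-- family -/
def d11_1 : FD := ⟨1, 1, 10, 11, 11, 9, 9⟩

lemma ok11_1 : d11_1.OK := by constructor <;> decide

lemma c11_1_1 : lev d11_1 [13, 5] [q_260F13, q_520F5] 1 [0] 520 [] = true := by
  decide +kernel

theorem k11_1 (t : ℕ) (S : Sys6 910 d11_1.a d11_1.b (d11_1.C t) (d11_1.B t)
    (d11_1.M t)) : False := by
  have h1 := lev_spec ok11_1 c11_1_1 (by norm_num) S (by rw [Nat.mod_one]; exact List.mem_singleton_self _) (by norm_num) pr11_1 rls11_1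
  exact absurd h1 List.not_mem_nil

theorem f11_1 {c B u : ℕ} {m : ℤ} (S : Sys6 910 (11 : ℕ) (1 : ℕ) c B m)
    (e3 : c * 11 + 10 = 1 + u * (1 + 11 * 1)) (hm : m = (u * 1 + 1 : ℕ))
    (hB : B = u + 11 * (u * 1 + 1)) : False := by
  obtain ⟨t, S'⟩ := FD.use ok11_1 (by simp only [d11_1]; norm_num) S e3
    (by simp only [d11_1]; norm_num at e3; omega) hm hB
  exact k11_1 t S'

/-- family -/
def d11_2 : FD := ⟨1, 2, 5, 7, 11, 9, 12⟩

lemma ok11_2 : d11_2.OK := by constructor <;> decide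

lemma c11_2_1 : lev d11_2 [13, 5] [q_260F13, q_520F5] 1 [0] 520 [41, 431] = true := by
  decide +kernel

lemma c11_2_2 : lev d11_2 [7] [q_140N13, q_280F7, q_364F13a] 520 [41, 431] 7 [] = true := by
  decide +kernel

theorem k11_2 (t : ℕ) (S : Sys6 910 d11_2.a d11_2.b (d11_2.C t) (d11_2.B t)
    (d11_2.M t)) : False := by
  have h1 := lev_spec ok11_2 c11_2_1 (by norm_num) S (by rw [Nat.mod_one]; exact List.mem_singleton_self _) (by norm_num) pr11_1 rls11_1
  have h2 := lev_spec ok11_2 c11_2_2 (by norm_num) S h1 (by norm_num) pr11_2 rls11_2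
  exact absurd h2 List.not_mem_nil

theorem f11_2 {c B u : ℕ} {m : ℤ} (S : Sys6 910 (7 : ℕ) (2 : ℕ) c B m)
    (e3 : c * 11 + 5 = 2 + u * (1 + 7 * 2)) (hm : m = (u * 2 + 1 : ℕ))
    (hB : B = u + 7 * (u * 2 + 1)) : False := by
  obtain ⟨t, S'⟩ := FD.use ok11_2 (by simp only [d11_2]; norm_num) S e3
    (by simp only [d11_2]; norm_num at e3; omega) hm hB
  exact k11_2 t S'

/-- family -/
def d11_3 : FD := ⟨1, 5, 2, 7, 11, 10, 33⟩

lemma ok11_3 : d11_3.OK := by constructor <;> decide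

lemma c11_3_1 : lev d11_3 [13, 5] [q_260F13, q_520F5] 1 [0] 520 [] = true := by
  decide +kernel

theorem k11_3 (t : ℕ) (S : Sys6 910 d11_3.a d11_3.b (d11_3.C t) (d11_3.B t)
    (d11_3.M t)) : False := by
  have h1 := lev_spec ok11_3 c11_3_1 (by norm_num) S (by rw [Nat.mod_one]; exact List.mem_singleton_self _) (by norm_num) pr11_1 rls11_1
  exact absurd h1 List.not_mem_nil

theorem f11_3 {c B u : ℕ} {m : ℤ} (S : Sys6 910 (7 : ℕ) (5 : ℕ) c B m)
    (e3 : c * 11 + 2 = 5 + u * (1 + 7 * 5)) (hm : m = (u * 5 + 1 : ℕ))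
    (hB : B = u + 7 * (u * 5 + 1)) : False := by
  obtain ⟨t, S'⟩ := FD.use ok11_3 (by simp only [d11_3]; norm_num) S e3
    (by simp only [d11_3]; norm_num at e3; omega) hm hB
  exact k11_3 t S'

/-- family -/
def d11_4 : FD := ⟨1, 10, 1, 11, 11, 2, 21⟩

lemma ok11_4 : d11_4.OK := by constructor <;> decide

lemma c11_4_1 : lev d11_4 [13, 5] [q_260F13, q_520F5] 1 [0] 520 [180, 324, 440, 494] = true := by
  decide +kernel

lemma c11_4_2 : lev d11_4 [7] [q_140N13, q_280F7, q_364F13a] 520 [180, 324, 440, 494] 7 [] = true := by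
  decide +kernel

theorem k11_4 (t : ℕ) (S : Sys6 910 d11_4.a d11_4.b (d11_4.C t) (d11_4.B t)
    (d11_4.M t)) : False := by
  have h1 := lev_spec ok11_4 c11_4_1 (by norm_num) S (by rw [Nat.mod_one]; exact List.mem_singleton_self _) (by norm_num) pr11_1 rls11_1
  have h2 := lev_spec ok11_4 c11_4_2 (by norm_num) S h1 (by norm_num) pr11_2 rls11_2
  exact absurd h2 List.not_mem_nil

theorem f11_4 {c B u : ℕ} {m : ℤ} (S : Sys6 910 (11 : ℕ) (10 : ℕ) c B m)
    (e3 : c * 11 + 1 = 10 + u * (1 + 11 * 10)) (hm : m = (u * 10 + 1 : ℕ))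
    (hB : B = u + 11 * (u * 10 + 1)) : False := by
  obtain ⟨t, S'⟩ := FD.use ok11_4 (by simp only [d11_4]; norm_num) S e3
    (by simp only [d11_4]; norm_num at e3; omega) hm hB
  exact k11_4 t S'

/-- family -/
def d11_5 : FD := ⟨3, 1, 8, 3, 11, 10, 3⟩

lemma ok11_5 : d11_5.OK := by constructor <;> decide

lemma c11_5_1 : lev d11_5 [13, 5] [q_260F13, q_520F5] 1 [0] 520 [] = true := by
  decide +kernel

theorem k11_5 (t : ℕ) (S : Sys6 910 d11_5.a d11_5.b (d11_5.C t) (d11_5.B t)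
    (d11_5.M t)) : False := by
  have h1 := lev_spec ok11_5 c11_5_1 (by norm_num) S (by rw [Nat.mod_one]; exact List.mem_singleton_self _) (by norm_num) pr11_1 rls11_1
  exact absurd h1 List.not_mem_nil

theorem f11_5 {c B u : ℕ} {m : ℤ} (S : Sys6 910 (3 : ℕ) (1 : ℕ) c B m)
    (e3 : c * 11 + 8 = 1 + u * (1 + 3 * 1)) (hm : m = (u * 1 + 3 : ℕ))
    (hB : B = u + 3 * (u * 1 + 3)) : False := by
  obtain ⟨t, S'⟩ := FD.use ok11_5 (by simp only [d11_5]; norm_num) S e3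
    (by simp only [d11_5]; norm_num at e3; omega) hm hB
  exact k11_5 t S'

/-- family -/
def d11_6 : FD := ⟨3, 2, 4, 2, 11, 7, 3⟩

lemma ok11_6 : d11_6.OK := by constructor <;> decide

lemma c11_6_1 : lev d11_6 [13, 5] [q_260F13, q_520F5] 1 [0] 520 [] = true := by
  decide +kernel

theorem k11_6 (t : ℕ) (S : Sys6 910 d11_6.a d11_6.b (d11_6.C t) (d11_6.B t)
    (d11_6.M t)) : False := by
  have h1 := lev_spec ok11_6 c11_6_1 (by norm_num) S (by rw [Nat.mod_one]; exact List.mem_singleton_self _) (by norm_num) pr11_1 rls11_1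
  exact absurd h1 List.not_mem_nil

theorem f11_6 {c B u : ℕ} {m : ℤ} (S : Sys6 910 (2 : ℕ) (2 : ℕ) c B m)
    (e3 : c * 11 + 4 = 2 + u * (1 + 2 * 2)) (hm : m = (u * 2 + 3 : ℕ))
    (hB : B = u + 2 * (u * 2 + 3)) : False := by
  obtain ⟨t, S'⟩ := FD.use ok11_6 (by simp only [d11_6]; norm_num) S e3
    (by simp only [d11_6]; norm_num at e3; omega) hm hB
  exact k11_6 t S'

/-- family -/
def d11_7 : FD := ⟨3, 4, 2, 2, 11, 1, 1⟩

lemma ok11_7 : d11_7.OK := by constructor <;> decide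

lemma c11_7_1 : lev d11_7 [13, 5] [q_260F13, q_520F5] 1 [0] 520 [0, 414] = true := by
  decide +kernel

lemma c11_7_2 : lev d11_7 [7] [q_140N13, q_280F7, q_364F13a] 520 [0, 414] 7 [] = true := by
  decide +kernel

theorem k11_7 (t : ℕ) (S : Sys6 910 d11_7.a d11_7.b (d11_7.C t) (d11_7.B t)
    (d11_7.M t)) : False := by
  have h1 := lev_spec ok11_7 c11_7_1 (by norm_num) S (by rw [Nat.mod_one]; exact List.mem_singleton_self _) (by norm_num) pr11_1 rls11_1
  have h2 := lev_spec ok11_7 c11_7_2 (by norm_num) S h1 (by norm_num) pr11_2 rls11_2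
  exact absurd h2 List.not_mem_nil

theorem f11_7 {c B u : ℕ} {m : ℤ} (S : Sys6 910 (2 : ℕ) (4 : ℕ) c B m)
    (e3 : c * 11 + 2 = 4 + u * (1 + 2 * 4)) (hm : m = (u * 4 + 3 : ℕ))
    (hB : B = u + 2 * (u * 4 + 3)) : False := by
  obtain ⟨t, S'⟩ := FD.use ok11_7 (by simp only [d11_7]; norm_num) S e3
    (by simp only [d11_7]; norm_num at e3; omega) hm hB
  exact k11_7 t S'

/-- family -/
def d11_8 : FD := ⟨3, 8, 1, 3, 11, 5, 12⟩

lemma ok11_8 : d11_8.OK := by constructor <;> decide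

lemma c11_8_1 : lev d11_8 [13, 5] [q_260F13, q_520F5] 1 [0] 520 [177, 225] = true := by
  decide +kernel

lemma c11_8_2 : lev d11_8 [7] [q_140N13, q_280F7, q_364F13a] 520 [177, 225] 7 [] = true := by
  decide +kernel

theorem k11_8 (t : ℕ) (S : Sys6 910 d11_8.a d11_8.b (d11_8.C t) (d11_8.B t)
    (d11_8.M t)) : False := by
  have h1 := lev_spec ok11_8 c11_8_1 (by norm_num) S (by rw [Nat.mod_one]; exact List.mem_singleton_self _) (by norm_num) pr11_1 rls11_1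
  have h2 := lev_spec ok11_8 c11_8_2 (by norm_num) S h1 (by norm_num) pr11_2 rls11_2
  exact absurd h2 List.not_mem_nil

theorem f11_8 {c B u : ℕ} {m : ℤ} (S : Sys6 910 (3 : ℕ) (8 : ℕ) c B m)
    (e3 : c * 11 + 1 = 8 + u * (1 + 3 * 8)) (hm : m = (u * 8 + 3 : ℕ))
    (hB : B = u + 3 * (u * 8 + 3)) : False := by
  obtain ⟨t, S'⟩ := FD.use ok11_8 (by simp only [d11_8]; norm_num) S e3
    (by simp only [d11_8]; norm_num at e3; omega) hm hB
  exact k11_8 t S'

/-- family -/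
def d11_9 : FD := ⟨4, 1, 7, 2, 11, 2, 0⟩

lemma ok11_9 : d11_9.OK := by constructor <;> decide

lemma c11_9_1 : lev d11_9 [13, 5] [q_260F13, q_520F5] 1 [0] 520 [] = true := by
  decide +kernel

theorem k11_9 (t : ℕ) (S : Sys6 910 d11_9.a d11_9.b (d11_9.C t) (d11_9.B t)
    (d11_9.M t)) : False := by
  have h1 := lev_spec ok11_9 c11_9_1 (by norm_num) S (by rw [Nat.mod_one]; exact List.mem_singleton_self _) (by norm_num) pr11_1 rls11_1
  exact absurd h1 List.not_mem_nil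

theorem f11_9 {c B u : ℕ} {m : ℤ} (S : Sys6 910 (2 : ℕ) (1 : ℕ) c B m)
    (e3 : c * 11 + 7 = 1 + u * (1 + 2 * 1)) (hm : m = (u * 1 + 4 : ℕ))
    (hB : B = u + 2 * (u * 1 + 4)) : False := by
  obtain ⟨t, S'⟩ := FD.use ok11_9 (by simp only [d11_9]; norm_num) S e3
    (by simp only [d11_9]; norm_num at e3; omega) hm hB
  exact k11_9 t S'

/-- family -/
def d11_10 : FD := ⟨4, 7, 1, 2, 11, 4, 6⟩

lemma ok11_10 : d11_10.OK := by constructor <;> decide

lemma c11_10_1 : lev d11_10 [13, 5] [q_260F13, q_520F5] 1 [0] 520 [] = true := by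
  decide +kernel

theorem k11_10 (t : ℕ) (S : Sys6 910 d11_10.a d11_10.b (d11_10.C t) (d11_10.B t)
    (d11_10.M t)) : False := by
  have h1 := lev_spec ok11_10 c11_10_1 (by norm_num) S (by rw [Nat.mod_one]; exact List.mem_singleton_self _) (by norm_num) pr11_1 rls11_1
  exact absurd h1 List.not_mem_nil

theorem f11_10 {c B u : ℕ} {m : ℤ} (S : Sys6 910 (2 : ℕ) (7 : ℕ) c B m)
    (e3 : c * 11 + 1 = 7 + u * (1 + 2 * 7)) (hm : m = (u * 7 + 4 : ℕ))
    (hB : B = u + 2 * (u * 7 + 4)) : False := by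
  obtain ⟨t, S'⟩ := FD.use ok11_10 (by simp only [d11_10]; norm_num) S e3
    (by simp only [d11_10]; norm_num at e3; omega) hm hB
  exact k11_10 t S'

/-- family -/
def d11_11 : FD := ⟨5, 2, 3, 1, 11, 4, 1⟩

lemma ok11_11 : d11_11.OK := by constructor <;> decide

lemma c11_11_1 : lev d11_11 [13, 5] [q_260F13, q_520F5] 1 [0] 520 [] = true := by
  decide +kernel

theorem k11_11 (t : ℕ) (S : Sys6 910 d11_11.a d11_11.b (d11_11.C t) (d11_11.B t)
    (d11_11.M t)) : False := by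
  have h1 := lev_spec ok11_11 c11_11_1 (by norm_num) S (by rw [Nat.mod_one]; exact List.mem_singleton_self _) (by norm_num) pr11_1 rls11_1
  exact absurd h1 List.not_mem_nil

theorem f11_11 {c B u : ℕ} {m : ℤ} (S : Sys6 910 (1 : ℕ) (2 : ℕ) c B m)
    (e3 : c * 11 + 3 = 2 + u * (1 + 1 * 2)) (hm : m = (u * 2 + 5 : ℕ))
    (hB : B = u + 1 * (u * 2 + 5)) : False := by
  obtain ⟨t, S'⟩ := FD.use ok11_11 (by simp only [d11_11]; norm_num) S e3
    (by simp only [d11_11]; norm_num at e3; omega) hm hB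
  exact k11_11 t S'

/-- family -/
def d11_12 : FD := ⟨5, 3, 2, 1, 11, 8, 3⟩

lemma ok11_12 : d11_12.OK := by constructor <;> decide

lemma c11_12_1 : lev d11_12 [13, 5] [q_260F13, q_520F5] 1 [0] 520 [] = true := by
  decide +kernel

theorem k11_12 (t : ℕ) (S : Sys6 910 d11_12.a d11_12.b (d11_12.C t) (d11_12.B t)
    (d11_12.M t)) : False := by
  have h1 := lev_spec ok11_12 c11_12_1 (by norm_num) S (by rw [Nat.mod_one]; exact List.mem_singleton_self _) (by norm_num) pr11_1 rls11_1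
  exact absurd h1 List.not_mem_nil

theorem f11_12 {c B u : ℕ} {m : ℤ} (S : Sys6 910 (1 : ℕ) (3 : ℕ) c B m)
    (e3 : c * 11 + 2 = 3 + u * (1 + 1 * 3)) (hm : m = (u * 3 + 5 : ℕ))
    (hB : B = u + 1 * (u * 3 + 5)) : False := by
  obtain ⟨t, S'⟩ := FD.use ok11_12 (by simp only [d11_12]; norm_num) S e3
    (by simp only [d11_12]; norm_num at e3; omega) hm hB
  exact k11_12 t S'

/-- the families -/
def lst11 : List (ℕ × ℕ × ℕ × ℕ) := [(1, 1, 10, 11), (1, 2, 5, 7), (1, 5, 2, 7), (1, 10, 1, 11), (2, 1, 9, 5), (2, 3, 3, 3), (2, 9, 1, 5), (3, 1, 8, 3), (3, 2, 4, 2), (3, 4, 2, 2), (3, 8, 1, 3), (4, 1, 7, 2), (4, 7, 1, 2), (5, 2, 3, 1), (5, 3, 2, 1), (6, 1, 5, 1), (6, 5, 1, 1)]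

lemma lst11_spec : ∀ n ∈ List.range 11, ∀ b ∈ List.range 11, ∀ w ∈ List.range 11, 1 ≤ n → 1 ≤ b →
    1 ≤ w → n + b * w = 11 → (w + b) % n = 0 → (n, b, w, (w + b) / n) ∈ lst11 := by
  decide +kernel

/-- **middle value 11, `w ≥ 1`** -/
theorem no_w11 {a b c B : ℕ} {m r p : ℤ} (h : E6.Par a b c B m r p) (hm2 : m % 2 = 1)
    (hB2 : B % 2 = 1) (hp : p = 11)
    [IsDomain (QuadraticAlgebra ℤ m (B : ℤ))]
    [UniqueFactorizationMonoid (QuadraticAlgebra ℤ m (B : ℤ))]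
    (h1 : 23 < m) (h2 : 23 < r)
    (hw : ∃ u n w : ℕ, 1 ≤ u ∧ 1 ≤ n ∧ 1 ≤ w ∧ n + b * w = 11 ∧ w + b = a * n ∧
      c * 11 + w = b + u * (1 + a * b) ∧ m = (u * b + n : ℕ) ∧ r = (1 + a * u : ℕ) ∧
      B = u + a * (u * b + n)) : False := by
  have S : Sys6 910 a b c B m := by
    refine sys6_of h hm2 hB2 (by rw [hp]; norm_num) ?_
    intro l hl hl2 hlQ
    have hle : l ≤ 23 ∧ l ≠ 11 := by
      have e : (910 : ℕ) = 2 * 5 * 7 * 13 := by norm_num
      rw [e] at hlQ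
      rcases (hl.dvd_mul).1 hlQ with hlQ | hlQ
      · rcases (hl.dvd_mul).1 hlQ with hlQ | hlQ
        · rcases (hl.dvd_mul).1 hlQ with hlQ | hlQ
          · exact ⟨by have := (Nat.prime_dvd_prime_iff_eq hl (by norm_num)).1 hlQ; omega, by have := (Nat.prime_dvd_prime_iff_eq hl (by norm_num)).1 hlQ; omega⟩
          · exact ⟨by have := (Nat.prime_dvd_prime_iff_eq hl (by norm_num)).1 hlQ; omega, by have := (Nat.prime_dvd_prime_iff_eq hl (by norm_num)).1 hlQ; omega⟩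
        · exact ⟨by have := (Nat.prime_dvd_prime_iff_eq hl (by norm_num)).1 hlQ; omega, by have := (Nat.prime_dvd_prime_iff_eq hl (by norm_num)).1 hlQ; omega⟩
      · exact ⟨by have := (Nat.prime_dvd_prime_iff_eq hl (by norm_num)).1 hlQ; omega, by have := (Nat.prime_dvd_prime_iff_eq hl (by norm_num)).1 hlQ; omega⟩
    have hlZ : (l : ℤ) ≤ 23 := by exact_mod_cast hle.1
    refine ⟨by omega, by omega, ?_⟩
    rw [hp]
    exact_mod_cast hle.2
  obtain ⟨u, n, w, hu, hn, hw, e1, e2, e3, hm, hr, hB⟩ := hw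
  have hb := h.hb
  have hbw1 : b ≤ b * w := Nat.le_mul_of_pos_right b hw
  have hbw2 : w ≤ b * w := Nat.le_mul_of_pos_left w hb
  have ha : (w + b) / n = a := by rw [e2]; exact Nat.mul_div_cancel _ (by omega)
  have key := lst11_spec n (List.mem_range.2 (by omega)) b (List.mem_range.2 (by omega)) w
    (List.mem_range.2 (by omega)) hn hb hw e1 (by rw [e2]; exact Nat.mul_mod_left _ _)
  rw [ha] at key
  simp only [lst11, List.mem_cons, List.not_mem_nil, or_false, Prod.mk.injEq] at key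
  rcases key with ⟨rfl, rfl, rfl, rfl⟩ | ⟨rfl, rfl, rfl, rfl⟩ | ⟨rfl, rfl, rfl, rfl⟩ | ⟨rfl, rfl, rfl, rfl⟩ | ⟨rfl, rfl, rfl, rfl⟩ | ⟨rfl, rfl, rfl, rfl⟩ | ⟨rfl, rfl, rfl, rfl⟩ | ⟨rfl, rfl, rfl, rfl⟩ | ⟨rfl, rfl, rfl, rfl⟩ | ⟨rfl, rfl, rfl, rfl⟩ | ⟨rfl, rfl, rfl, rfl⟩ | ⟨rfl, rfl, rfl, rfl⟩ | ⟨rfl, rfl, rfl, rfl⟩ | ⟨rfl, rfl, rfl, rfl⟩ | ⟨rfl, rfl, rfl, rfl⟩ | ⟨rfl, rfl, rfl, rfl⟩ | ⟨rfl, rfl, rfl, rfl⟩
  · exact f11_1 S e3 hm hB
  · exact f11_2 S e3 hm hB
  · exact f11_3 S e3 hm hB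
  · exact f11_4 S e3 hm hB
  · exfalso
    norm_num at e3 hm hB
    subst hm hB
    omega
  · exfalso
    norm_num at e3 hm hB
    subst hm hB
    omega
  · exfalso
    norm_num at e3 hm hB
    subst hm hB
    omega
  · exact f11_5 S e3 hm hB
  · exact f11_6 S e3 hm hB
  · exact f11_7 S e3 hm hB
  · exact f11_8 S e3 hm hB
  · exact f11_9 S e3 hm hB
  · exact f11_10 S e3 hm hB
  · exact f11_11 S e3 hm hB
  · exact f11_12 S e3 hm hB
  · exfalso
    norm_num at e3 hm hB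
    subst hm hB
    omega
  · exfalso
    norm_num at e3 hm hB
    subst hm hB
    omega

end Pool.Agent.PSX.OneP
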