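import Pool.Agent.PSX.OnePS
import Pool.Agent.PSX.E6Prime
import Pool.Agent.PSX.SysOf

/-!
Period six, middle value 19: the families with one parameter.
-/

namespace Pool.Agent.PSX.OneP

open Pool.Agent.PSX.EL

lemma pr19_1 : ∀ l ∈ ([13, 5] : List ℕ), l.Prime ∧ l ≠ 2 ∧ l ∣ 20930 ∧ l ∣ 1 * 520 := by
  intro l hl
  simp only [List.mem_cons, List.not_mem_nil, or_false] at hl
  rcases hl with rfl | rfl <;> norm_num

lemma pr19_2 : ∀ l ∈ ([7] : List ℕ), l.Prime ∧ l ≠ 2 ∧ l ∣ 20930 ∧ l ∣ 520 * 7 := by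
  intro l hl
  simp only [List.mem_cons, List.not_mem_nil, or_false] at hl
  subst hl
  norm_num

lemma pr19_3 : ∀ l ∈ ([23] : List ℕ), l.Prime ∧ l ≠ 2 ∧ l ∣ 20930 ∧ l ∣ 3640 * 23 := by
  intro l hl
  simp only [List.mem_cons, List.not_mem_nil, or_false] at hl
  subst hl
  norm_num

lemma rls19_1 : Rls 20930 [q_260F13, q_520F5] (1 * 520) :=
  Rls.cons g_260F13 (by norm_num) (by simp only [q_260F13]; norm_num)
    (by simp only [q_260F13]; norm_num) (by simp only [q_260F13]; norm_num) (by simp only [q_260F13]; norm_num) <|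
  Rls.cons g_520F5 (by norm_num) (by simp only [q_520F5]; norm_num)
    (by simp only [q_520F5]; norm_num) (by simp only [q_520F5]; norm_num) (by simp only [q_520F5]; norm_num) <|
  Rls.nil

lemma rls19_2 : Rls 20930 [q_140N13, q_280F7, q_364F13a] (520 * 7) :=
  Rls.cons g_140N13 (by norm_num) (by simp only [q_140N13]; norm_num)
    (by simp only [q_140N13]; norm_num) (by simp only [q_140N13]; norm_num) (by simp only [q_140N13]; norm_num) <|
  Rls.cons g_280F7 (by norm_num) (by simp only [q_280F7]; norm_num)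
    (by simp only [q_280F7]; norm_num) (by simp only [q_280F7]; norm_num) (by simp only [q_280F7]; norm_num) <|
  Rls.cons g_364F13a (by norm_num) (by simp only [q_364F13a]; norm_num)
    (by simp only [q_364F13a]; norm_num) (by simp only [q_364F13a]; norm_num) (by simp only [q_364F13a]; norm_num) <|
  Rls.nil

lemma rls19_3 : Rls 20930 [q_299N7, q_460F5, q_805F5] (3640 * 23) :=
  Rls.cons g_299N7 (by norm_num) (by simp only [q_299N7]; norm_num)
    (by simp only [q_299N7]; norm_num) (by simp only [q_299N7]; norm_num) (by simp only [q_299N7]; norm_num) <|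
  Rls.cons g_460F5 (by norm_num) (by simp only [q_460F5]; norm_num)
    (by simp only [q_460F5]; norm_num) (by simp only [q_460F5]; norm_num) (by simp only [q_460F5]; norm_num) <|
  Rls.cons g_805F5 (by norm_num) (by simp only [q_805F5]; norm_num)
    (by simp only [q_805F5]; norm_num) (by simp only [q_805F5]; norm_num) (by simp only [q_805F5]; norm_num) <|
  Rls.nil

/-- family -/
def d19_1 : FD := ⟨1, 1, 18, 19, 19, 17, 17⟩

lemma ok19_1 : d19_1.OK := by constructor <;> decide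

lemma c19_1_1 : lev d19_1 [13, 5] [q_260F13, q_520F5] 1 [0] 520 [129, 259, 389, 519] = true := by
  decide +kernel

lemma c19_1_2 : lev d19_1 [7] [q_140N13, q_280F7, q_364F13a] 520 [129, 259, 389, 519] 7 [1819, 3639] = true := by
  decide +kernel

lemma c19_1_3 : lev d19_1 [23] [q_299N7, q_460F5, q_805F5] 3640 [1819, 3639] 23 [] = true := by
  decide +kernel

theorem k19_1 (t : ℕ) (S : Sys6 20930 d19_1.a d19_1.b (d19_1.C t) (d19_1.B t)
    (d19_1.M t)) : False := by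
  have h1 := lev_spec ok19_1 c19_1_1 (by norm_num) S (by rw [Nat.mod_one]; exact List.mem_singleton_self _) (by norm_num) pr19_1 rls19_1
  have h2 := lev_spec ok19_1 c19_1_2 (by norm_num) S h1 (by norm_num) pr19_2 rls19_2
  have h3 := lev_spec ok19_1 c19_1_3 (by norm_num) S h2 (by norm_num) pr19_3 rls19_3
  exact absurd h3 List.not_mem_nil

theorem f19_1 {c B u : ℕ} {m : ℤ} (S : Sys6 20930 (19 : ℕ) (1 : ℕ) c B m)
    (e3 : c * 19 + 18 = 1 + u * (1 + 19 * 1)) (hm : m = (u * 1 + 1 : ℕ))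
    (hB : B = u + 19 * (u * 1 + 1)) : False := by
  obtain ⟨t, S'⟩ := FD.use ok19_1 (by simp only [d19_1]; norm_num) S e3
    (by simp only [d19_1]; norm_num at e3; omega) hm hB
  exact k19_1 t S'

/-- family -/
def d19_2 : FD := ⟨1, 2, 9, 11, 19, 16, 19⟩

lemma ok19_2 : d19_2.OK := by constructor <;> decide

lemma c19_2_1 : lev d19_2 [13, 5] [q_260F13, q_520F5] 1 [0] 520 [180, 440] = true := by
  decide +kernel

lemma c19_2_2 : lev d19_2 [7] [q_140N13, q_280F7, q_364F13a] 520 [180, 440] 7 [1740] = true := by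
  decide +kernel

lemma c19_2_3 : lev d19_2 [23] [q_299N7, q_460F5, q_805F5] 3640 [1740] 23 [] = true := by
  decide +kernel

theorem k19_2 (t : ℕ) (S : Sys6 20930 d19_2.a d19_2.b (d19_2.C t) (d19_2.B t)
    (d19_2.M t)) : False := by
  have h1 := lev_spec ok19_2 c19_2_1 (by norm_num) S (by rw [Nat.mod_one]; exact List.mem_singleton_self _) (by norm_num) pr19_1 rls19_1
  have h2 := lev_spec ok19_2 c19_2_2 (by norm_num) S h1 (by norm_num) pr19_2 rls19_2
  have h3 := lev_spec ok19_2 c19_2_3 (by norm_num) S h2 (by norm_num) pr19_3 rls19_3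
  exact absurd h3 List.not_mem_nil

theorem f19_2 {c B u : ℕ} {m : ℤ} (S : Sys6 20930 (11 : ℕ) (2 : ℕ) c B m)
    (e3 : c * 19 + 9 = 2 + u * (1 + 11 * 2)) (hm : m = (u * 2 + 1 : ℕ))
    (hB : B = u + 11 * (u * 2 + 1)) : False := by
  obtain ⟨t, S'⟩ := FD.use ok19_2 (by simp only [d19_2]; norm_num) S e3
    (by simp only [d19_2]; norm_num at e3; omega) hm hB
  exact k19_2 t S'

/-- family -/
def d19_3 : FD := ⟨1, 3, 6, 9, 19, 13, 19⟩

lemma ok19_3 : d19_3.OK := by constructor <;> decide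

lemma c19_3_1 : lev d19_3 [13, 5] [q_260F13, q_520F5] 1 [0] 520 [91, 351] = true := by
  decide +kernel

lemma c19_3_2 : lev d19_3 [7] [q_140N13, q_280F7, q_364F13a] 520 [91, 351] 7 [] = true := by
  decide +kernel

theorem k19_3 (t : ℕ) (S : Sys6 20930 d19_3.a d19_3.b (d19_3.C t) (d19_3.B t)
    (d19_3.M t)) : False := by
  have h1 := lev_spec ok19_3 c19_3_1 (by norm_num) S (by rw [Nat.mod_one]; exact List.mem_singleton_self _) (by norm_num) pr19_1 rls19_1
  have h2 := lev_spec ok19_3 c19_3_2 (by norm_num) S h1 (by norm_num) pr19_2 rls19_2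
  exact absurd h2 List.not_mem_nil

theorem f19_3 {c B u : ℕ} {m : ℤ} (S : Sys6 20930 (9 : ℕ) (3 : ℕ) c B m)
    (e3 : c * 19 + 6 = 3 + u * (1 + 9 * 3)) (hm : m = (u * 3 + 1 : ℕ))
    (hB : B = u + 9 * (u * 3 + 1)) : False := by
  obtain ⟨t, S'⟩ := FD.use ok19_3 (by simp only [d19_3]; norm_num) S e3
    (by simp only [d19_3]; norm_num at e3; omega) hm hB
  exact k19_3 t S'

/-- family -/
def d19_4 : FD := ⟨1, 6, 3, 9, 19, 11, 32⟩

lemma ok19_4 : d19_4.OK := by constructor <;> decide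

lemma c19_4_1 : lev d19_4 [13, 5] [q_260F13, q_520F5] 1 [0] 520 [9] = true := by
  decide +kernel

lemma c19_4_2 : lev d19_4 [7] [q_140N13, q_280F7, q_364F13a] 520 [9] 7 [] = true := by
  decide +kernel

theorem k19_4 (t : ℕ) (S : Sys6 20930 d19_4.a d19_4.b (d19_4.C t) (d19_4.B t)
    (d19_4.M t)) : False := by
  have h1 := lev_spec ok19_4 c19_4_1 (by norm_num) S (by rw [Nat.mod_one]; exact List.mem_singleton_self _) (by norm_num) pr19_1 rls19_1
  have h2 := lev_spec ok19_4 c19_4_2 (by norm_num) S h1 (by norm_num) pr19_2 rls19_2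
  exact absurd h2 List.not_mem_nil

theorem f19_4 {c B u : ℕ} {m : ℤ} (S : Sys6 20930 (9 : ℕ) (6 : ℕ) c B m)
    (e3 : c * 19 + 3 = 6 + u * (1 + 9 * 6)) (hm : m = (u * 6 + 1 : ℕ))
    (hB : B = u + 9 * (u * 6 + 1)) : False := by
  obtain ⟨t, S'⟩ := FD.use ok19_4 (by simp only [d19_4]; norm_num) S e3
    (by simp only [d19_4]; norm_num at e3; omega) hm hB
  exact k19_4 t S'

/-- family -/
def d19_5 : FD := ⟨1, 9, 2, 11, 19, 10, 53⟩

lemma ok19_5 : d19_5.OK := by constructor <;> decide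

lemma c19_5_1 : lev d19_5 [13, 5] [q_260F13, q_520F5] 1 [0] 520 [128, 202] = true := by
  decide +kernel

lemma c19_5_2 : lev d19_5 [7] [q_140N13, q_280F7, q_364F13a] 520 [128, 202] 7 [] = true := by
  decide +kernel

theorem k19_5 (t : ℕ) (S : Sys6 20930 d19_5.a d19_5.b (d19_5.C t) (d19_5.B t)
    (d19_5.M t)) : False := by
  have h1 := lev_spec ok19_5 c19_5_1 (by norm_num) S (by rw [Nat.mod_one]; exact List.mem_singleton_self _) (by norm_num) pr19_1 rls19_1
  have h2 := lev_spec ok19_5 c19_5_2 (by norm_num) S h1 (by norm_num) pr19_2 rls19_2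
  exact absurd h2 List.not_mem_nil

theorem f19_5 {c B u : ℕ} {m : ℤ} (S : Sys6 20930 (11 : ℕ) (9 : ℕ) c B m)
    (e3 : c * 19 + 2 = 9 + u * (1 + 11 * 9)) (hm : m = (u * 9 + 1 : ℕ))
    (hB : B = u + 11 * (u * 9 + 1)) : False := by
  obtain ⟨t, S'⟩ := FD.use ok19_5 (by simp only [d19_5]; norm_num) S e3
    (by simp only [d19_5]; norm_num at e3; omega) hm hB
  exact k19_5 t S'

/-- family -/
def d19_6 : FD := ⟨1, 18, 1, 19, 19, 2, 37⟩

lemma ok19_6 : d19_6.OK := by constructor <;> decide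

lemma c19_6_1 : lev d19_6 [13, 5] [q_260F13, q_520F5] 1 [0] 520 [318] = true := by
  decide +kernel

lemma c19_6_2 : lev d19_6 [7] [q_140N13, q_280F7, q_364F13a] 520 [318] 7 [] = true := by
  decide +kernel

theorem k19_6 (t : ℕ) (S : Sys6 20930 d19_6.a d19_6.b (d19_6.C t) (d19_6.B t)
    (d19_6.M t)) : False := by
  have h1 := lev_spec ok19_6 c19_6_1 (by norm_num) S (by rw [Nat.mod_one]; exact List.mem_singleton_self _) (by norm_num) pr19_1 rls19_1
  have h2 := lev_spec ok19_6 c19_6_2 (by norm_num) S h1 (by norm_num) pr19_2 rls19_2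
  exact absurd h2 List.not_mem_nil

theorem f19_6 {c B u : ℕ} {m : ℤ} (S : Sys6 20930 (19 : ℕ) (18 : ℕ) c B m)
    (e3 : c * 19 + 1 = 18 + u * (1 + 19 * 18)) (hm : m = (u * 18 + 1 : ℕ))
    (hB : B = u + 19 * (u * 18 + 1)) : False := by
  obtain ⟨t, S'⟩ := FD.use ok19_6 (by simp only [d19_6]; norm_num) S e3
    (by simp only [d19_6]; norm_num at e3; omega) hm hB
  exact k19_6 t S'

/-- family -/
def d19_7 : FD := ⟨4, 1, 15, 4, 19, 18, 4⟩

lemma ok19_7 : d19_7.OK := by constructor <;> decide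

lemma c19_7_1 : lev d19_7 [13, 5] [q_260F13, q_520F5] 1 [0] 520 [463] = true := by
  decide +kernel

lemma c19_7_2 : lev d19_7 [7] [q_140N13, q_280F7, q_364F13a] 520 [463] 7 [] = true := by
  decide +kernel

theorem k19_7 (t : ℕ) (S : Sys6 20930 d19_7.a d19_7.b (d19_7.C t) (d19_7.B t)
    (d19_7.M t)) : False := by
  have h1 := lev_spec ok19_7 c19_7_1 (by norm_num) S (by rw [Nat.mod_one]; exact List.mem_singleton_self _) (by norm_num) pr19_1 rls19_1
  have h2 := lev_spec ok19_7 c19_7_2 (by norm_num) S h1 (by norm_num) pr19_2 rls19_2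
  exact absurd h2 List.not_mem_nil

theorem f19_7 {c B u : ℕ} {m : ℤ} (S : Sys6 20930 (4 : ℕ) (1 : ℕ) c B m)
    (e3 : c * 19 + 15 = 1 + u * (1 + 4 * 1)) (hm : m = (u * 1 + 4 : ℕ))
    (hB : B = u + 4 * (u * 1 + 4)) : False := by
  obtain ⟨t, S'⟩ := FD.use ok19_7 (by simp only [d19_7]; norm_num) S e3
    (by simp only [d19_7]; norm_num at e3; omega) hm hB
  exact k19_7 t S'

/-- family -/
def d19_8 : FD := ⟨4, 3, 5, 2, 19, 3, 1⟩

lemma ok19_8 : d19_8.OK := by constructor <;> decide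

lemma c19_8_1 : lev d19_8 [13, 5] [q_260F13, q_520F5] 1 [0] 520 [] = true := by
  decide +kernel

theorem k19_8 (t : ℕ) (S : Sys6 20930 d19_8.a d19_8.b (d19_8.C t) (d19_8.B t)
    (d19_8.M t)) : False := by
  have h1 := lev_spec ok19_8 c19_8_1 (by norm_num) S (by rw [Nat.mod_one]; exact List.mem_singleton_self _) (by norm_num) pr19_1 rls19_1
  exact absurd h1 List.not_mem_nil

theorem f19_8 {c B u : ℕ} {m : ℤ} (S : Sys6 20930 (2 : ℕ) (3 : ℕ) c B m)
    (e3 : c * 19 + 5 = 3 + u * (1 + 2 * 3)) (hm : m = (u * 3 + 4 : ℕ))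
    (hB : B = u + 2 * (u * 3 + 4)) : False := by
  obtain ⟨t, S'⟩ := FD.use ok19_8 (by simp only [d19_8]; norm_num) S e3
    (by simp only [d19_8]; norm_num at e3; omega) hm hB
  exact k19_8 t S'

/-- family -/
def d19_9 : FD := ⟨4, 5, 3, 2, 19, 5, 3⟩

lemma ok19_9 : d19_9.OK := by constructor <;> decide

lemma c19_9_1 : lev d19_9 [13, 5] [q_260F13, q_520F5] 1 [0] 520 [] = true := by
  decide +kernel

theorem k19_9 (t : ℕ) (S : Sys6 20930 d19_9.a d19_9.b (d19_9.C t) (d19_9.B t)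
    (d19_9.M t)) : False := by
  have h1 := lev_spec ok19_9 c19_9_1 (by norm_num) S (by rw [Nat.mod_one]; exact List.mem_singleton_self _) (by norm_num) pr19_1 rls19_1
  exact absurd h1 List.not_mem_nil

theorem f19_9 {c B u : ℕ} {m : ℤ} (S : Sys6 20930 (2 : ℕ) (5 : ℕ) c B m)
    (e3 : c * 19 + 3 = 5 + u * (1 + 2 * 5)) (hm : m = (u * 5 + 4 : ℕ))
    (hB : B = u + 2 * (u * 5 + 4)) : False := by
  obtain ⟨t, S'⟩ := FD.use ok19_9 (by simp only [d19_9]; norm_num) S e3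
    (by simp only [d19_9]; norm_num at e3; omega) hm hB
  exact k19_9 t S'

/-- family -/
def d19_10 : FD := ⟨4, 15, 1, 4, 19, 6, 20⟩

lemma ok19_10 : d19_10.OK := by constructor <;> decide

lemma c19_10_1 : lev d19_10 [13, 5] [q_260F13, q_520F5] 1 [0] 520 [243] = true := by
  decide +kernel

lemma c19_10_2 : lev d19_10 [7] [q_140N13, q_280F7, q_364F13a] 520 [243] 7 [] = true := by
  decide +kernel

theorem k19_10 (t : ℕ) (S : Sys6 20930 d19_10.a d19_10.b (d19_10.C t) (d19_10.B t)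
    (d19_10.M t)) : False := by
  have h1 := lev_spec ok19_10 c19_10_1 (by norm_num) S (by rw [Nat.mod_one]; exact List.mem_singleton_self _) (by norm_num) pr19_1 rls19_1
  have h2 := lev_spec ok19_10 c19_10_2 (by norm_num) S h1 (by norm_num) pr19_2 rls19_2
  exact absurd h2 List.not_mem_nil

theorem f19_10 {c B u : ℕ} {m : ℤ} (S : Sys6 20930 (4 : ℕ) (15 : ℕ) c B m)
    (e3 : c * 19 + 1 = 15 + u * (1 + 4 * 15)) (hm : m = (u * 15 + 4 : ℕ))
    (hB : B = u + 4 * (u * 15 + 4)) : False := by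
  obtain ⟨t, S'⟩ := FD.use ok19_10 (by simp only [d19_10]; norm_num) S e3
    (by simp only [d19_10]; norm_num at e3; omega) hm hB
  exact k19_10 t S'

/-- family -/
def d19_11 : FD := ⟨5, 1, 14, 3, 19, 8, 1⟩

lemma ok19_11 : d19_11.OK := by constructor <;> decide

lemma c19_11_1 : lev d19_11 [13, 5] [q_260F13, q_520F5] 1 [0] 520 [] = true := by
  decide +kernel

theorem k19_11 (t : ℕ) (S : Sys6 20930 d19_11.a d19_11.b (d19_11.C t) (d19_11.B t)
    (d19_11.M t)) : False := by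
  have h1 := lev_spec ok19_11 c19_11_1 (by norm_num) S (by rw [Nat.mod_one]; exact List.mem_singleton_self _) (by norm_num) pr19_1 rls19_1
  exact absurd h1 List.not_mem_nil

theorem f19_11 {c B u : ℕ} {m : ℤ} (S : Sys6 20930 (3 : ℕ) (1 : ℕ) c B m)
    (e3 : c * 19 + 14 = 1 + u * (1 + 3 * 1)) (hm : m = (u * 1 + 5 : ℕ))
    (hB : B = u + 3 * (u * 1 + 5)) : False := by
  obtain ⟨t, S'⟩ := FD.use ok19_11 (by simp only [d19_11]; norm_num) S e3
    (by simp only [d19_11]; norm_num at e3; omega) hm hB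
  exact k19_11 t S'

/-- family -/
def d19_12 : FD := ⟨5, 14, 1, 3, 19, 5, 12⟩

lemma ok19_12 : d19_12.OK := by constructor <;> decide

lemma c19_12_1 : lev d19_12 [13, 5] [q_260F13, q_520F5] 1 [0] 520 [461] = true := by
  decide +kernel

lemma c19_12_2 : lev d19_12 [7] [q_140N13, q_280F7, q_364F13a] 520 [461] 7 [] = true := by
  decide +kernel

theorem k19_12 (t : ℕ) (S : Sys6 20930 d19_12.a d19_12.b (d19_12.C t) (d19_12.B t)
    (d19_12.M t)) : False := by
  have h1 := lev_spec ok19_12 c19_12_1 (by norm_num) S (by rw [Nat.mod_one]; exact List.mem_singleton_self _) (by norm_num) pr19_1 rls19_1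
  have h2 := lev_spec ok19_12 c19_12_2 (by norm_num) S h1 (by norm_num) pr19_2 rls19_2
  exact absurd h2 List.not_mem_nil

theorem f19_12 {c B u : ℕ} {m : ℤ} (S : Sys6 20930 (3 : ℕ) (14 : ℕ) c B m)
    (e3 : c * 19 + 1 = 14 + u * (1 + 3 * 14)) (hm : m = (u * 14 + 5 : ℕ))
    (hB : B = u + 3 * (u * 14 + 5)) : False := by
  obtain ⟨t, S'⟩ := FD.use ok19_12 (by simp only [d19_12]; norm_num) S e3
    (by simp only [d19_12]; norm_num at e3; omega) hm hB
  exact k19_12 t S'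

/-- family -/
def d19_13 : FD := ⟨7, 3, 4, 1, 19, 5, 1⟩

lemma ok19_13 : d19_13.OK := by constructor <;> decide

lemma c19_13_1 : lev d19_13 [13, 5] [q_260F13, q_520F5] 1 [0] 520 [] = true := by
  decide +kernel

theorem k19_13 (t : ℕ) (S : Sys6 20930 d19_13.a d19_13.b (d19_13.C t) (d19_13.B t)
    (d19_13.M t)) : False := by
  have h1 := lev_spec ok19_13 c19_13_1 (by norm_num) S (by rw [Nat.mod_one]; exact List.mem_singleton_self _) (by norm_num) pr19_1 rls19_1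
  exact absurd h1 List.not_mem_nil

theorem f19_13 {c B u : ℕ} {m : ℤ} (S : Sys6 20930 (1 : ℕ) (3 : ℕ) c B m)
    (e3 : c * 19 + 4 = 3 + u * (1 + 1 * 3)) (hm : m = (u * 3 + 7 : ℕ))
    (hB : B = u + 1 * (u * 3 + 7)) : False := by
  obtain ⟨t, S'⟩ := FD.use ok19_13 (by simp only [d19_13]; norm_num) S e3
    (by simp only [d19_13]; norm_num at e3; omega) hm hB
  exact k19_13 t S'

/-- family -/
def d19_14 : FD := ⟨7, 4, 3, 1, 19, 15, 4⟩

lemma ok19_14 : d19_14.OK := by constructor <;> decide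

lemma c19_14_1 : lev d19_14 [13, 5] [q_260F13, q_520F5] 1 [0] 520 [55] = true := by
  decide +kernel

lemma c19_14_2 : lev d19_14 [7] [q_140N13, q_280F7, q_364F13a] 520 [55] 7 [] = true := by
  decide +kernel

theorem k19_14 (t : ℕ) (S : Sys6 20930 d19_14.a d19_14.b (d19_14.C t) (d19_14.B t)
    (d19_14.M t)) : False := by
  have h1 := lev_spec ok19_14 c19_14_1 (by norm_num) S (by rw [Nat.mod_one]; exact List.mem_singleton_self _) (by norm_num) pr19_1 rls19_1
  have h2 := lev_spec ok19_14 c19_14_2 (by norm_num) S h1 (by norm_num) pr19_2 rls19_2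
  exact absurd h2 List.not_mem_nil

theorem f19_14 {c B u : ℕ} {m : ℤ} (S : Sys6 20930 (1 : ℕ) (4 : ℕ) c B m)
    (e3 : c * 19 + 3 = 4 + u * (1 + 1 * 4)) (hm : m = (u * 4 + 7 : ℕ))
    (hB : B = u + 1 * (u * 4 + 7)) : False := by
  obtain ⟨t, S'⟩ := FD.use ok19_14 (by simp only [d19_14]; norm_num) S e3
    (by simp only [d19_14]; norm_num at e3; omega) hm hB
  exact k19_14 t S'

/-- the families -/
def lst19 : List (ℕ × ℕ × ℕ × ℕ) := [(1, 1, 18, 19), (1, 2, 9, 11), (1, 3, 6, 9), (1, 6, 3, 9), (1, 9, 2, 11), (1, 18, 1, 19), (2, 1, 17, 9), (2, 17, 1, 9), (4, 1, 15, 4), (4, 3, 5, 2), (4, 5, 3, 2), (4, 15, 1, 4), (5, 1, 14, 3), (5, 14, 1, 3), (7, 3, 4, 1), (7, 4, 3, 1), (10, 1, 9, 1), (10, 9, 1, 1)]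

lemma lst19_spec : ∀ n ∈ List.range 19, ∀ b ∈ List.range 19, ∀ w ∈ List.range 19, 1 ≤ n → 1 ≤ b →
    1 ≤ w → n + b * w = 19 → (w + b) % n = 0 → (n, b, w, (w + b) / n) ∈ lst19 := by
  decide +kernel

/-- **middle value 19, `w ≥ 1`** -/
theorem no_w19 {a b c B : ℕ} {m r p : ℤ} (h : E6.Par a b c B m r p) (hm2 : m % 2 = 1)
    (hB2 : B % 2 = 1) (hp : p = 19)
    [IsDomain (QuadraticAlgebra ℤ m (B : ℤ))]
    [UniqueFactorizationMonoid (QuadraticAlgebra ℤ m (B : ℤ))]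
    (h1 : 23 < m) (h2 : 23 < r)
    (hw : ∃ u n w : ℕ, 1 ≤ u ∧ 1 ≤ n ∧ 1 ≤ w ∧ n + b * w = 19 ∧ w + b = a * n ∧
      c * 19 + w = b + u * (1 + a * b) ∧ m = (u * b + n : ℕ) ∧ r = (1 + a * u : ℕ) ∧
      B = u + a * (u * b + n)) : False := by
  have S : Sys6 20930 a b c B m := by
    refine sys6_of h hm2 hB2 (by rw [hp]; norm_num) ?_
    intro l hl hl2 hlQ
    have hle : l ≤ 23 ∧ l ≠ 19 := by
      have e : (20930 : ℕ) = 2 * 5 * 7 * 13 * 23 := by norm_num
      rw [e] at hlQ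
      rcases (hl.dvd_mul).1 hlQ with hlQ | hlQ
      · rcases (hl.dvd_mul).1 hlQ with hlQ | hlQ
        · rcases (hl.dvd_mul).1 hlQ with hlQ | hlQ
          · rcases (hl.dvd_mul).1 hlQ with hlQ | hlQ
            · exact ⟨by have := (Nat.prime_dvd_prime_iff_eq hl (by norm_num)).1 hlQ; omega, by have := (Nat.prime_dvd_prime_iff_eq hl (by norm_num)).1 hlQ; omega⟩
            · exact ⟨by have := (Nat.prime_dvd_prime_iff_eq hl (by norm_num)).1 hlQ; omega, by have := (Nat.prime_dvd_prime_iff_eq hl (by norm_num)).1 hlQ; omega⟩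
          · exact ⟨by have := (Nat.prime_dvd_prime_iff_eq hl (by norm_num)).1 hlQ; omega, by have := (Nat.prime_dvd_prime_iff_eq hl (by norm_num)).1 hlQ; omega⟩
        · exact ⟨by have := (Nat.prime_dvd_prime_iff_eq hl (by norm_num)).1 hlQ; omega, by have := (Nat.prime_dvd_prime_iff_eq hl (by norm_num)).1 hlQ; omega⟩
      · exact ⟨by have := (Nat.prime_dvd_prime_iff_eq hl (by norm_num)).1 hlQ; omega, by have := (Nat.prime_dvd_prime_iff_eq hl (by norm_num)).1 hlQ; omega⟩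
    have hlZ : (l : ℤ) ≤ 23 := by exact_mod_cast hle.1
    refine ⟨by omega, by omega, ?_⟩
    rw [hp]
    exact_mod_cast hle.2
  obtain ⟨u, n, w, hu, hn, hw, e1, e2, e3, hm, hr, hB⟩ := hw
  have hb := h.hb
  have hbw1 : b ≤ b * w := Nat.le_mul_of_pos_right b hw
  have hbw2 : w ≤ b * w := Nat.le_mul_of_pos_left w hb
  have ha : (w + b) / n = a := by rw [e2]; exact Nat.mul_div_cancel _ (by omega)
  have key := lst19_spec n (List.mem_range.2 (by omega)) b (List.mem_range.2 (by omega)) w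
    (List.mem_range.2 (by omega)) hn hb hw e1 (by rw [e2]; exact Nat.mul_mod_left _ _)
  rw [ha] at key
  simp only [lst19, List.mem_cons, List.not_mem_nil, or_false, Prod.mk.injEq] at key
  rcases key with ⟨rfl, rfl, rfl, rfl⟩ | ⟨rfl, rfl, rfl, rfl⟩ | ⟨rfl, rfl, rfl, rfl⟩ | ⟨rfl, rfl, rfl, rfl⟩ | ⟨rfl, rfl, rfl, rfl⟩ | ⟨rfl, rfl, rfl, rfl⟩ | ⟨rfl, rfl, rfl, rfl⟩ | ⟨rfl, rfl, rfl, rfl⟩ | ⟨rfl, rfl, rfl, rfl⟩ | ⟨rfl, rfl, rfl, rfl⟩ | ⟨rfl, rfl, rfl, rfl⟩ | ⟨rfl, rfl, rfl, rfl⟩ | ⟨rfl, rfl, rfl, rfl⟩ | ⟨rfl, rfl, rfl, rfl⟩ | ⟨rfl, rfl, rfl, rfl⟩ | ⟨rfl, rfl, rfl, rfl⟩ | ⟨rfl, rfl, rfl, rfl⟩ | ⟨rfl, rfl, rfl, rfl⟩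
  · exact f19_1 S e3 hm hB
  · exact f19_2 S e3 hm hB
  · exact f19_3 S e3 hm hB
  · exact f19_4 S e3 hm hB
  · exact f19_5 S e3 hm hB
  · exact f19_6 S e3 hm hB
  · exfalso
    norm_num at e3 hm hB
    subst hm hB
    omega
  · exfalso
    norm_num at e3 hm hB
    subst hm hB
    omega
  · exact f19_7 S e3 hm hB
  · exact f19_8 S e3 hm hB
  · exact f19_9 S e3 hm hB
  · exact f19_10 S e3 hm hB
  · exact f19_11 S e3 hm hB
  · exact f19_12 S e3 hm hB
  · exact f19_13 S e3 hm hB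
  · exact f19_14 S e3 hm hB
  · exfalso
    norm_num at e3 hm hB
    subst hm hB
    omega
  · exfalso
    norm_num at e3 hm hB
    subst hm hB
    omega

end Pool.Agent.PSX.OneP
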