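import Pool.Agent.PSX.OnePR
import Pool.Agent.PSX.E6Prime
import Pool.Agent.PSX.SysOf

/-!
Period six, middle value 7: the families with one parameter.
-/

namespace Pool.Agent.PSX.OneP

open Pool.Agent.PSX.EL

lemma pr7_1 : ∀ l ∈ ([13, 5] : List ℕ), l.Prime ∧ l ≠ 2 ∧ l ∣ 1430 ∧ l ∣ 1 * 520 := by
  intro l hl
  simp only [List.mem_cons, List.not_mem_nil, or_false] at hl
  rcases hl with rfl | rfl <;> norm_num

lemma pr7_2 : ∀ l ∈ ([11] : List ℕ), l.Prime ∧ l ≠ 2 ∧ l ∣ 1430 ∧ l ∣ 520 * 11 := by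
  intro l hl
  simp only [List.mem_cons, List.not_mem_nil, or_false] at hl
  subst hl
  norm_num

lemma rls7_1 : Rls 1430 [q_260F13, q_520F5] (1 * 520) :=
  Rls.cons g_260F13 (by norm_num) (by simp only [q_260F13]; norm_num)
    (by simp only [q_260F13]; norm_num) (by simp only [q_260F13]; norm_num) (by simp only [q_260F13]; norm_num) <|
  Rls.cons g_520F5 (by norm_num) (by simp only [q_520F5]; norm_num)
    (by simp only [q_520F5]; norm_num) (by simp only [q_520F5]; norm_num) (by simp only [q_520F5]; norm_num) <|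
  Rls.nil

lemma rls7_2 : Rls 1430 [q_143N5, q_572N5, q_88F11] (520 * 11) :=
  Rls.cons g_143N5 (by norm_num) (by simp only [q_143N5]; norm_num)
    (by simp only [q_143N5]; norm_num) (by simp only [q_143N5]; norm_num) (by simp only [q_143N5]; norm_num) <|
  Rls.cons g_572N5 (by norm_num) (by simp only [q_572N5]; norm_num)
    (by simp only [q_572N5]; norm_num) (by simp only [q_572N5]; norm_num) (by simp only [q_572N5]; norm_num) <|
  Rls.cons g_88F11 (by norm_num) (by simp only [q_88F11]; norm_num)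
    (by simp only [q_88F11]; norm_num) (by simp only [q_88F11]; norm_num) (by simp only [q_88F11]; norm_num) <|
  Rls.nil

/-- family -/
def d7_1 : FD := ⟨1, 1, 6, 7, 7, 5, 5⟩

lemma ok7_1 : d7_1.OK := by constructor <;> decide

lemma c7_1_1 : lev d7_1 [13, 5] [q_260F13, q_520F5] 1 [0] 520 [119, 379, 399] = true := by
  decide +kernel

lemma c7_1_2 : lev d7_1 [11] [q_143N5, q_572N5, q_88F11] 520 [119, 379, 399] 11 [] = true := by
  decide +kernel

theorem k7_1 (t : ℕ) (S : Sys6 1430 d7_1.a d7_1.b (d7_1.C t) (d7_1.B t)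
    (d7_1.M t)) : False := by
  have h1 := lev_spec ok7_1 c7_1_1 (by norm_num) S (by rw [Nat.mod_one]; exact List.mem_singleton_self _) (by norm_num) pr7_1 rls7_1
  have h2 := lev_spec ok7_1 c7_1_2 (by norm_num) S h1 (by norm_num) pr7_2 rls7_2
  exact absurd h2 List.not_mem_nil

theorem f7_1 {c B u : ℕ} {m : ℤ} (S : Sys6 1430 (7 : ℕ) (1 : ℕ) c B m)
    (e3 : c * 7 + 6 = 1 + u * (1 + 7 * 1)) (hm : m = (u * 1 + 1 : ℕ))
    (hB : B = u + 7 * (u * 1 + 1)) : False := by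
  obtain ⟨t, S'⟩ := FD.use ok7_1 (by simp only [d7_1]; norm_num) S e3
    (by simp only [d7_1]; norm_num at e3; omega) hm hB
  exact k7_1 t S'

/-- family -/
def d7_2 : FD := ⟨1, 2, 3, 5, 7, 2, 3⟩

lemma ok7_2 : d7_2.OK := by constructor <;> decide

lemma c7_2_1 : lev d7_2 [13, 5] [q_260F13, q_520F5] 1 [0] 520 [] = true := by
  decide +kernel

theorem k7_2 (t : ℕ) (S : Sys6 1430 d7_2.a d7_2.b (d7_2.C t) (d7_2.B t)
    (d7_2.M t)) : False := by
  have h1 := lev_spec ok7_2 c7_2_1 (by norm_num) S (by rw [Nat.mod_one]; exact List.mem_singleton_self _) (by norm_num) pr7_1 rls7_1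
  exact absurd h1 List.not_mem_nil

theorem f7_2 {c B u : ℕ} {m : ℤ} (S : Sys6 1430 (5 : ℕ) (2 : ℕ) c B m)
    (e3 : c * 7 + 3 = 2 + u * (1 + 5 * 2)) (hm : m = (u * 2 + 1 : ℕ))
    (hB : B = u + 5 * (u * 2 + 1)) : False := by
  obtain ⟨t, S'⟩ := FD.use ok7_2 (by simp only [d7_2]; norm_num) S e3
    (by simp only [d7_2]; norm_num at e3; omega) hm hB
  exact k7_2 t S'

/-- family -/
def d7_3 : FD := ⟨1, 3, 2, 5, 7, 3, 7⟩

lemma ok7_3 : d7_3.OK := by constructor <;> decide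

lemma c7_3_1 : lev d7_3 [13, 5] [q_260F13, q_520F5] 1 [0] 520 [519] = true := by
  decide +kernel

lemma c7_3_2 : lev d7_3 [11] [q_143N5, q_572N5, q_88F11] 520 [519] 11 [] = true := by
  decide +kernel

theorem k7_3 (t : ℕ) (S : Sys6 1430 d7_3.a d7_3.b (d7_3.C t) (d7_3.B t)
    (d7_3.M t)) : False := by
  have h1 := lev_spec ok7_3 c7_3_1 (by norm_num) S (by rw [Nat.mod_one]; exact List.mem_singleton_self _) (by norm_num) pr7_1 rls7_1
  have h2 := lev_spec ok7_3 c7_3_2 (by norm_num) S h1 (by norm_num) pr7_2 rls7_2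
  exact absurd h2 List.not_mem_nil

theorem f7_3 {c B u : ℕ} {m : ℤ} (S : Sys6 1430 (5 : ℕ) (3 : ℕ) c B m)
    (e3 : c * 7 + 2 = 3 + u * (1 + 5 * 3)) (hm : m = (u * 3 + 1 : ℕ))
    (hB : B = u + 5 * (u * 3 + 1)) : False := by
  obtain ⟨t, S'⟩ := FD.use ok7_3 (by simp only [d7_3]; norm_num) S e3
    (by simp only [d7_3]; norm_num at e3; omega) hm hB
  exact k7_3 t S'

/-- family -/
def d7_4 : FD := ⟨1, 6, 1, 7, 7, 2, 13⟩

lemma ok7_4 : d7_4.OK := by constructor <;> decide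

lemma c7_4_1 : lev d7_4 [13, 5] [q_260F13, q_520F5] 1 [0] 520 [188, 222, 254] = true := by
  decide +kernel

lemma c7_4_2 : lev d7_4 [11] [q_143N5, q_572N5, q_88F11] 520 [188, 222, 254] 11 [] = true := by
  decide +kernel

theorem k7_4 (t : ℕ) (S : Sys6 1430 d7_4.a d7_4.b (d7_4.C t) (d7_4.B t)
    (d7_4.M t)) : False := by
  have h1 := lev_spec ok7_4 c7_4_1 (by norm_num) S (by rw [Nat.mod_one]; exact List.mem_singleton_self _) (by norm_num) pr7_1 rls7_1
  have h2 := lev_spec ok7_4 c7_4_2 (by norm_num) S h1 (by norm_num) pr7_2 rls7_2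
  exact absurd h2 List.not_mem_nil

theorem f7_4 {c B u : ℕ} {m : ℤ} (S : Sys6 1430 (7 : ℕ) (6 : ℕ) c B m)
    (e3 : c * 7 + 1 = 6 + u * (1 + 7 * 6)) (hm : m = (u * 6 + 1 : ℕ))
    (hB : B = u + 7 * (u * 6 + 1)) : False := by
  obtain ⟨t, S'⟩ := FD.use ok7_4 (by simp only [d7_4]; norm_num) S e3
    (by simp only [d7_4]; norm_num at e3; omega) hm hB
  exact k7_4 t S'

/-- the families -/
def lst7 : List (ℕ × ℕ × ℕ × ℕ) := [(1, 1, 6, 7), (1, 2, 3, 5), (1, 3, 2, 5), (1, 6, 1, 7), (2, 1, 5, 3), (2, 5, 1, 3), (4, 1, 3, 1), (4, 3, 1, 1)]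

lemma lst7_spec : ∀ n ∈ List.range 7, ∀ b ∈ List.range 7, ∀ w ∈ List.range 7, 1 ≤ n → 1 ≤ b →
    1 ≤ w → n + b * w = 7 → (w + b) % n = 0 → (n, b, w, (w + b) / n) ∈ lst7 := by
  decide +kernel

/-- **middle value 7, `w ≥ 1`** -/
theorem no_w7 {a b c B : ℕ} {m r p : ℤ} (h : E6.Par a b c B m r p) (hm2 : m % 2 = 1)
    (hB2 : B % 2 = 1) (hp : p = 7)
    [IsDomain (QuadraticAlgebra ℤ m (B : ℤ))]
    [UniqueFactorizationMonoid (QuadraticAlgebra ℤ m (B : ℤ))]
    (h1 : 23 < m) (h2 : 23 < r)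
    (hw : ∃ u n w : ℕ, 1 ≤ u ∧ 1 ≤ n ∧ 1 ≤ w ∧ n + b * w = 7 ∧ w + b = a * n ∧
      c * 7 + w = b + u * (1 + a * b) ∧ m = (u * b + n : ℕ) ∧ r = (1 + a * u : ℕ) ∧
      B = u + a * (u * b + n)) : False := by
  have S : Sys6 1430 a b c B m := by
    refine sys6_of h hm2 hB2 (by rw [hp]; norm_num) ?_
    intro l hl hl2 hlQ
    have hle : l ≤ 23 ∧ l ≠ 7 := by
      have e : (1430 : ℕ) = 2 * 5 * 11 * 13 := by norm_num
      rw [e] at hlQ
      rcases (hl.dvd_mul).1 hlQ with hlQ | hlQ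
      · rcases (hl.dvd_mul).1 hlQ with hlQ | hlQ
        · rcases (hl.dvd_mul).1 hlQ with hlQ | hlQ
          · exact ⟨by have := (Nat.prime_dvd_prime_iff_eq hl (by norm_num)).1 hlQ; omega, by have := (Nat.prime_dvd_prime_iff_eq hl (by norm_num)).1 hlQ; omega⟩
          · exact ⟨by have := (Nat.prime_dvd_prime_iff_eq hl (by norm_num)).1 hlQ; omega, by have := (Nat.prime_dvd_prime_iff_eq hl (by norm_num)).1 hlQ; omega⟩
        · exact ⟨by have := (Nat.prime_dvd_prime_iff_eq hl (by norm_num)).1 hlQ; omega, by have := (Nat.prime_dvd_prime_iff_eq hl (by norm_num)).1 hlQ; omega⟩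
      · exact ⟨by have := (Nat.prime_dvd_prime_iff_eq hl (by norm_num)).1 hlQ; omega, by have := (Nat.prime_dvd_prime_iff_eq hl (by norm_num)).1 hlQ; omega⟩
    have hlZ : (l : ℤ) ≤ 23 := by exact_mod_cast hle.1
    refine ⟨by omega, by omega, ?_⟩
    rw [hp]
    exact_mod_cast hle.2
  obtain ⟨u, n, w, hu, hn, hw, e1, e2, e3, hm, hr, hB⟩ := hw
  have hb := h.hb
  have hbw1 : b ≤ b * w := Nat.le_mul_of_pos_right b hw
  have hbw2 : w ≤ b * w := Nat.le_mul_of_pos_left w hb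
  have ha : (w + b) / n = a := by rw [e2]; exact Nat.mul_div_cancel _ (by omega)
  have key := lst7_spec n (List.mem_range.2 (by omega)) b (List.mem_range.2 (by omega)) w
    (List.mem_range.2 (by omega)) hn hb hw e1 (by rw [e2]; exact Nat.mul_mod_left _ _)
  rw [ha] at key
  simp only [lst7, List.mem_cons, List.not_mem_nil, or_false, Prod.mk.injEq] at key
  rcases key with ⟨rfl, rfl, rfl, rfl⟩ | ⟨rfl, rfl, rfl, rfl⟩ | ⟨rfl, rfl, rfl, rfl⟩ | ⟨rfl, rfl, rfl, rfl⟩ | ⟨rfl, rfl, rfl, rfl⟩ | ⟨rfl, rfl, rfl, rfl⟩ | ⟨rfl, rfl, rfl, rfl⟩ | ⟨rfl, rfl, rfl, rfl⟩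
  · exact f7_1 S e3 hm hB
  · exact f7_2 S e3 hm hB
  · exact f7_3 S e3 hm hB
  · exact f7_4 S e3 hm hB
  · exfalso
    norm_num at e3 hm hB
    subst hm hB
    omega
  · exfalso
    norm_num at e3 hm hB
    subst hm hB
    omega
  · exfalso
    norm_num at e3 hm hB
    subst hm hB
    omega
  · exfalso
    norm_num at e3 hm hB
    subst hm hB
    omega

end Pool.Agent.PSX.OneP
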