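import Pool.Agent.PSX.E6Final
import Pool.Agent.PSX.OdMain7
import Pool.Agent.PSX.Pr11
import Pool.Agent.PSX.Pr19
import Pool.Agent.PSX.GhostUse
import Pool.Agent.PSX.W7
import Pool.Agent.PSX.W11
import Pool.Agent.PSX.W19

/-!
Period six, odd discriminants: the special middle values.
-/

namespace Pool.Agent.PSX

open Pool.Agent.LibH4 Pool.Agent.Lib_helper5

variable {a b c B : ℕ} {m r p : ℤ}

/-- middle value seven -/
theorem no_mid7 (h : E6.Par a b c B m r p) (hm2 : m % 2 = 1) (hB2 : B % 2 = 1) (hp : p = 7)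
    [IsDomain (QuadraticAlgebra ℤ m (B : ℤ))]
    [UniqueFactorizationMonoid (QuadraticAlgebra ℤ m (B : ℤ))] (h1 : 23 < m) (h2 : 37 < r) :
    False := by
  rcases E6.prime_mid h (l := 7) (by norm_num) (by rw [hp]; rfl) with hw | hw
  · refine Ev.no7 a b c B m r p h hp ?_ hm2 hB2 (by omega)
    obtain ⟨v, w1, w2, w3, w4, w5, w6⟩ := hw
    exact ⟨v, w1, w2, w3, w4, by exact_mod_cast w5, by exact_mod_cast w6⟩
  · exact OneP.no_w7 h hm2 hB2 hp h1 (by omega) hw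

/-- middle value eleven -/
theorem no_mid11 (h : E6.Par a b c B m r p) (hm2 : m % 2 = 1) (hB2 : B % 2 = 1) (hp : p = 11)
    [IsDomain (QuadraticAlgebra ℤ m (B : ℤ))]
    [UniqueFactorizationMonoid (QuadraticAlgebra ℤ m (B : ℤ))] (h1 : 23 < m) (h2 : 37 < r) :
    False := by
  rcases E6.prime_mid h (l := 11) (by norm_num) (by rw [hp]; rfl) with hw | hw
  · refine P11.no11 a b c B m r p h hp ?_ hm2 hB2 (by omega)
    obtain ⟨v, w1, w2, w3, w4, w5, w6⟩ := hw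
    exact ⟨v, w1, w2, w3, w4, by exact_mod_cast w5, by exact_mod_cast w6⟩
  · exact OneP.no_w11 h hm2 hB2 hp h1 (by omega) hw

/-- middle value nineteen -/
theorem no_mid19 (h : E6.Par a b c B m r p) (hm2 : m % 2 = 1) (hB2 : B % 2 = 1) (hp : p = 19)
    [IsDomain (QuadraticAlgebra ℤ m (B : ℤ))]
    [UniqueFactorizationMonoid (QuadraticAlgebra ℤ m (B : ℤ))] (h1 : 23 < m) (h2 : 37 < r) :
    False := by
  rcases E6.prime_mid h (l := 19) (by norm_num) (by rw [hp]; rfl) with hw | hw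
  · refine P19.no19 a b c B m r p h hp ?_ hm2 hB2 (by omega)
    obtain ⟨v, w1, w2, w3, w4, w5, w6⟩ := hw
    exact ⟨v, w1, w2, w3, w4, by exact_mod_cast w5, by exact_mod_cast w6⟩
  · exact OneP.no_w19 h hm2 hB2 hp h1 (by omega) hw

/-- an odd prime dividing the modulus -/
lemma primes_of {l : ℕ} (hl : l.Prime) (hl2 : l ≠ 2) (h : l ∣ 38798760) :
    l = 3 ∨ l = 5 ∨ l = 7 ∨ l = 11 ∨ l = 13 ∨ l = 17 ∨ l = 19 := by
  have e : (38798760 : ℕ) = 2 ^ 3 * 3 * 5 * 7 * 11 * 13 * 17 * 19 := by norm_num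
  rw [e] at h
  have f : ∀ q : ℕ, q.Prime → l ∣ q → l = q := fun q hq h => (Nat.prime_dvd_prime_iff_eq hl hq).1 h
  rcases (hl.dvd_mul).1 h with h | h
  · rcases (hl.dvd_mul).1 h with h | h
    · rcases (hl.dvd_mul).1 h with h | h
      · rcases (hl.dvd_mul).1 h with h | h
        · rcases (hl.dvd_mul).1 h with h | h
          · rcases (hl.dvd_mul).1 h with h | h
            · rcases (hl.dvd_mul).1 h with h | h
              · exact absurd (f 2 (by norm_num) (hl.dvd_of_dvd_pow h)) hl2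
              · exact Or.inl (f 3 (by norm_num) h)
            · exact Or.inr (Or.inl (f 5 (by norm_num) h))
          · exact Or.inr (Or.inr (Or.inl (f 7 (by norm_num) h)))
        · exact Or.inr (Or.inr (Or.inr (Or.inl (f 11 (by norm_num) h))))
      · exact Or.inr (Or.inr (Or.inr (Or.inr (Or.inl (f 13 (by norm_num) h)))))
    · exact Or.inr (Or.inr (Or.inr (Or.inr (Or.inr (Or.inl (f 17 (by norm_num) h))))))
  · exact Or.inr (Or.inr (Or.inr (Or.inr (Or.inr (Or.inr (f 19 (by norm_num) h))))))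

/-- the main chain, from the elimination -/
theorem main_chain
    (elim6 : ∀ {Q : ℕ} {a b c B m : ℤ}, EL.Sys6 Q a b c B m → 38798760 ∣ Q →
      ((1365 : ℤ) ∣ a - 1 ∧ (1365 : ℤ) ∣ b + 1) ∨ ((1365 : ℤ) ∣ a + 1 ∧ (1365 : ℤ) ∣ b - 1))
    (elim6_three : ∀ {Q : ℕ} {a b c B m : ℤ}, EL.Sys6 Q a b c B m → 12932920 ∣ Q →
      S7.y3 a b B m = 3 → False)
    (h : E6.Par a b c B m r p) (hm2 : m % 2 = 1) (hB2 : B % 2 = 1) (hp4 : p % 4 = 3)
    (hp7 : p ≠ 7) (hp11 : p ≠ 11) (hp19 : p ≠ 19)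
    [IsDomain (QuadraticAlgebra ℤ m (B : ℤ))]
    [UniqueFactorizationMonoid (QuadraticAlgebra ℤ m (B : ℤ))] (h1 : 23 < m) (h2 : 37 < r) :
    False := by
  by_cases hp3 : p = 3
  · have S : EL.Sys6 12932920 a b c B m := by
      refine EL.sys6_of h hm2 hB2 hp4 ?_
      intro l hl hl2 hlQ
      have h3 := primes_of hl hl2 (hlQ.trans (by norm_num))
      have h4 : l ≠ 3 := by
        rintro rfl
        norm_num at hlQ
      refine ⟨by omega, by omega, ?_⟩
      rw [hp3]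
      exact_mod_cast h4
    exact elim6_three S dvd_rfl (by rw [EL.y3_eq h, hp3])
  · have S : EL.Sys6 38798760 a b c B m := by
      refine EL.sys6_of h hm2 hB2 hp4 ?_
      intro l hl hl2 hlQ
      have h3 := primes_of hl hl2 hlQ
      refine ⟨by omega, by omega, ?_⟩
      intro h4
      omega
    obtain ⟨d, hd⟩ : ∃ d : ℕ, (d : ℤ) = (B : ℤ) ^ 2 + 4 * m := by
      refine ⟨((B : ℤ) ^ 2 + 4 * m).toNat, Int.toNat_of_nonneg ?_⟩
      have : (0 : ℤ) ≤ (B : ℤ) ^ 2 := sq_nonneg _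
      omega
    have hj : ∀ l : ℕ, l.Prime → l ≠ 2 → (l : ℤ) ≠ p → l ≤ 23 →
        jacobiSym ((B : ℤ) ^ 2 + 4 * m) l = -1 := by
      intro l hl hl2 hlp hl23
      rw [← hd]
      exact E6.inert_all h hd l hl hl2 hlp (by omega) (by omega)
    exact ghost_kill h hm2 hB2 (hj 3 (by norm_num) (by norm_num) (by push_cast; omega) (by norm_num))
      (hj 5 (by norm_num) (by norm_num) (by push_cast; omega) (by norm_num))
      (hj 7 (by norm_num) (by norm_num) (by push_cast; omega) (by norm_num))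
      (hj 13 (by norm_num) (by norm_num) (by push_cast; omega) (by norm_num)) (elim6 S dvd_rfl)

/-- odd discriminants, from the elimination -/
theorem hodd_of
    (elim6 : ∀ {Q : ℕ} {a b c B m : ℤ}, EL.Sys6 Q a b c B m → 38798760 ∣ Q →
      ((1365 : ℤ) ∣ a - 1 ∧ (1365 : ℤ) ∣ b + 1) ∨ ((1365 : ℤ) ∣ a + 1 ∧ (1365 : ℤ) ∣ b - 1))
    (elim6_three : ∀ {Q : ℕ} {a b c B m : ℤ}, EL.Sys6 Q a b c B m → 12932920 ∣ Q →
      S7.y3 a b B m = 3 → False)
    (a b c B : ℕ) (m r p : ℤ) (h : E6.Par a b c B m r p) (hm2 : m % 2 = 1) (hB2 : B % 2 = 1)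
    (hp4 : p % 4 = 3) (_hsq : Squarefree ((B : ℤ) ^ 2 + 4 * m)) (h1 : 23 < m) (h2 : 37 < r)
    [IsDomain (QuadraticAlgebra ℤ m (B : ℤ))]
    [UniqueFactorizationMonoid (QuadraticAlgebra ℤ m (B : ℤ))] : False := by
  by_cases hp7 : p = 7
  · exact no_mid7 h hm2 hB2 hp7 h1 h2
  by_cases hp11 : p = 11
  · exact no_mid11 h hm2 hB2 hp11 h1 h2
  by_cases hp19 : p = 19
  · exact no_mid19 h hm2 hB2 hp19 h1 h2
  exact main_chain elim6 elim6_three h hm2 hB2 hp4 hp7 hp11 hp19 h1 h2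

end Pool.Agent.PSX
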