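import Pool.Agent.PSX.E6

/-!
Period six: elements of small norm.
-/

namespace Pool.Agent.PSX

open Finset (range)
open Pool.Agent.LibH4 Pool.Agent.LibH4.FA Pool.Agent.Lib_helper5 Pool.Agent.Lib_helper5.CG

section
variable {m B : ℤ} {K : ℕ} {P R S : ℕ → ℤ} {c : ℕ → ℕ}

/-- every element of nonzero norm is represented, up to a unit, on one of the edges -/
theorem even_repr (hm : 0 < m) (h : CycM m B K P R S c) (J : ℕ) (hK : K = 2 * J) (hJ : 0 < J)
    (hcl : rho m B c K = rho m B c (K + 1) * om m B)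
    (β : QuadraticAlgebra ℤ m B) (n : ℕ) (hn : n ≠ 0) (hβ : β.norm.natAbs = n) :
    ∃ k < K, ∃ x y : ℕ, 1 ≤ x ∧ y < c k * x ∧
      P k * (x : ℤ) ^ 2 + R k * x * y - S k * (y : ℤ) ^ 2 = n := by
  obtain ⟨u, hu⟩ := isUnit_u h J hK
  have hu1 : 0 < s1 hm (u : QuadraticAlgebra ℤ m B) := by
    rw [hu]; exact s1_rho hm h (K + 1) le_rfl
  have hsgK : sg (K + 1) = 1 := by
    rw [hK, add_comm, sg_even, sg_one]
  have hu2 : 0 < s2 hm (u : QuadraticAlgebra ℤ m B) := by
    rw [hu]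
    have := (s2_rho (B := B) hm c K).2
    rwa [hsgK, one_mul] at this
  have hul : sl hm 1 (u : QuadraticAlgebra ℤ m B) < 1 := by
    have a1 := sl_chain hm h 3 (J - 1) (by omega)
    have a2 := sl_step hm h 1 (by omega)
    rw [show 3 + 2 * (J - 1) = K + 1 by omega] at a1
    have h3 : sg 3 = 1 := by unfold sg; norm_num
    rw [h3] at a1
    rw [sg_one, rho_one] at a2
    have h4 : sl hm 1 (1 : QuadraticAlgebra ℤ m B) = 1 := by simp [sl]
    rw [hu]
    linarith
  have hom1 : 0 < s1 hm (om m B) := by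
    have := s1_rho hm h 0 (by omega)
    rwa [rho_zero] at this
  have hom2 : 0 < (-1 : ℝ) * s2 hm (om m B) := by
    have := (s2_rho (B := B) hm c 0).1
    rwa [rho_zero, sg_zero] at this
  have hone1 : 0 < s1 hm (1 : QuadraticAlgebra ℤ m B) := by simp
  have hone2 : 0 < (1 : ℝ) * s2 hm (1 : QuadraticAlgebra ℤ m B) := by simp
  have chP := Gs_chain hm h 1 J (by omega) n
  rw [show 1 + 2 * J = K + 1 by omega, sg_one, rho_one] at chP
  have chN := Gs_chain hm h 0 J (by omega) n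
  rw [zero_add, ← hK, sg_zero, rho_zero] at chN
  obtain ⟨fP, nP⟩ := chP
  obtain ⟨fN, nN⟩ := chN
  have hne : s1 hm β * s2 hm β ≠ 0 := by
    rw [← norm_eq]
    intro h0
    have h1 : β.norm = 0 := by exact_mod_cast h0
    rw [h1] at hβ
    exact hn (by simpa using hβ.symm)
  have hne1 : s1 hm β ≠ 0 := left_ne_zero_of_mul hne
  have hne2 : s2 hm β ≠ 0 := right_ne_zero_of_mul hne
  obtain ⟨β', hβ', hassoc, hne2'⟩ : ∃ β', 0 < s1 hm β' ∧ Associated β' β ∧
      s2 hm β' ≠ 0 := by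
    rcases lt_or_gt_of_ne hne1 with h | h
    · refine ⟨-β, ?_, (Associated.refl β).neg_left, ?_⟩
      · rw [map_neg]; linarith
      · rw [map_neg]; exact neg_ne_zero.mpr hne2
    · exact ⟨β, h, Associated.refl β, hne2⟩
  have hnat : ∀ γ : QuadraticAlgebra ℤ m B, Associated γ β → γ.norm.natAbs = n := by
    intro γ hγ
    have := congrArg absN (Associates.mk_eq_mk_iff_associated.mpr hγ)
    rw [absN_mk, absN_mk, hβ] at this
    exact this
  rcases lt_or_gt_of_ne hne2' with h2 | h2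
  · obtain ⟨γ, hγ, hγ'⟩ := exists_in_cone hm (-1) u hu1 hu2 hul (om m B) hom1 hom2 β' hβ'
      (by linarith)
    rw [hu, ← hcl] at hγ
    have hmem : γ ∈ Gs hm (-1) (om m B) (rho m B c K) n := ⟨hγ, hnat γ (hγ'.trans hassoc)⟩
    have h3 : (Gs hm (-1) (om m B) (rho m B c K) n).ncard ≠ 0 := by
      rw [Ne, Set.ncard_eq_zero fN, ← Ne, ← Set.nonempty_iff_ne_empty]
      exact ⟨γ, hmem⟩
    rw [nN] at h3
    obtain ⟨i, hi, hi'⟩ := Finset.exists_ne_zero_of_sum_ne_zero h3
    have hi2 : i < J := Finset.mem_range.1 hi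
    obtain ⟨⟨x, y⟩, hx, hy, he⟩ :
        (edgeSet (P (0 + 2 * i)) (R (0 + 2 * i)) (S (0 + 2 * i)) (c (0 + 2 * i)) n).Nonempty :=
      Set.nonempty_of_ncard_ne_zero hi'
    exact ⟨0 + 2 * i, by omega, x, y, hx, hy, he⟩
  · obtain ⟨γ, hγ, hγ'⟩ := exists_in_cone hm 1 u hu1 hu2 hul 1 hone1 hone2 β' hβ'
      (by linarith)
    rw [hu, mul_one] at hγ
    have hmem : γ ∈ Gs hm 1 1 (rho m B c (K + 1)) n := ⟨hγ, hnat γ (hγ'.trans hassoc)⟩
    have h3 : (Gs hm 1 1 (rho m B c (K + 1)) n).ncard ≠ 0 := by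
      rw [Ne, Set.ncard_eq_zero fP, ← Ne, ← Set.nonempty_iff_ne_empty]
      exact ⟨γ, hmem⟩
    rw [nP] at h3
    obtain ⟨i, hi, hi'⟩ := Finset.exists_ne_zero_of_sum_ne_zero h3
    have hi2 : i < J := Finset.mem_range.1 hi
    obtain ⟨⟨x, y⟩, hx, hy, he⟩ :
        (edgeSet (P (1 + 2 * i)) (R (1 + 2 * i)) (S (1 + 2 * i)) (c (1 + 2 * i)) n).Nonempty :=
      Set.nonempty_of_ncard_ne_zero hi'
    exact ⟨1 + 2 * i, by omega, x, y, hx, hy, he⟩

end


namespace E6

variable {a b c B : ℕ} {m r p : ℤ}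

/-- elements of norm below `m` and `r` have norm `x²` or `p x²` -/
lemma norm_small (h : Par a b c B m r p) {n : ℕ} (hn : n ≠ 0) (h1 : (n : ℤ) < m)
    (h2 : (n : ℤ) < r) (β : QuadraticAlgebra ℤ m (B : ℤ)) (hβ : β.norm.natAbs = n) :
    ∃ x : ℕ, (n : ℤ) = (x : ℤ) ^ 2 ∨ (n : ℤ) = p * (x : ℤ) ^ 2 := by
  have hm0 : 0 < m := by have := h.hm; omega
  have hr0 : 0 < r := by have := h.hr; omega
  have hp0 : 0 < p := by have := h.hp; omega
  have hC := cyc h
  obtain ⟨k, hk, x, y, hx, hy, he⟩ := even_repr hm0 hC 3 rfl (by norm_num) (closing h) β n hn hβ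
  have hx' : (1 : ℤ) ≤ x := by exact_mod_cast hx
  have hxx : (1 : ℤ) ≤ (x : ℤ) ^ 2 := by nlinarith
  rcases Nat.eq_zero_or_pos y with hy0 | hy0
  · subst hy0
    have he' : P m r p k * (x : ℤ) ^ 2 = n := by rw [← he]; push_cast; ring
    refine ⟨x, ?_⟩
    interval_cases k <;> simp only [P] at he'
    · exfalso; nlinarith
    · left; linarith
    · exfalso; nlinarith
    · exfalso; nlinarith
    · right; linarith
    · exfalso; nlinarith
  · exfalso
    have hy1 : (1 : ℤ) ≤ y := by exact_mod_cast hy0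
    have hyc : (y : ℤ) + 1 ≤ C a b c B k * x := by exact_mod_cast hy
    interval_cases k
    · simp only [P, R, S, C] at he hyc
      have h1 : m ≤ m * (x : ℤ) ^ 2 := by nlinarith
      have h2 : 0 ≤ (y : ℤ) * (B * x - y) := mul_nonneg (by linarith) (by linarith)
      nlinarith
    · have h1 := E5.edge_gt (hC.cpos 1 (by omega)) (hC.toCyc.Ppos (k := 1) (by omega))
        (hC.Spos 1 (by omega)) (CG.hAend hC 1 (by omega)) hy1 hyc
      rw [he] at h1
      simp only [S] at h1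
      omega
    · have h1 := E5.edge_gt (hC.cpos 2 (by omega)) (hC.toCyc.Ppos (k := 2) (by omega))
        (hC.Spos 2 (by omega)) (CG.hAend hC 2 (by omega)) hy1 hyc
      rw [he] at h1
      simp only [S] at h1
      omega
    · simp only [P, R, S, C] at he hyc
      have h1 : r ≤ r * (x : ℤ) ^ 2 := by nlinarith
      have h2 : 0 ≤ p * ((y : ℤ) * (c * x - y)) :=
        mul_nonneg hp0.le (mul_nonneg (by linarith) (by linarith))
      have h3 : (2 * (b : ℤ) * r - (2 * a * m - B)) * x * y - p * (y : ℤ) ^ 2 =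
          p * ((y : ℤ) * (c * x - y)) := by
        rw [← h.e3]; ring
      nlinarith
    · have h1 := E5.edge_gt (hC.cpos 4 (by omega)) (hC.toCyc.Ppos (k := 4) (by omega))
        (hC.Spos 4 (by omega)) (CG.hAend hC 4 (by omega)) hy1 hyc
      rw [he] at h1
      simp only [S] at h1
      omega
    · have h1 := E5.edge_gt (hC.cpos 5 (by omega)) (hC.toCyc.Ppos (k := 5) (by omega))
        (hC.Spos 5 (by omega)) (CG.hAend hC 5 (by omega)) hy1 hyc
      rw [he] at h1
      simp only [S] at h1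
      omega

/-- primes below `m` and `r` with an element of that norm are equal to `p` -/
theorem eq_of_norm (h : Par a b c B m r p) {l : ℕ} (hl : l.Prime) (h1 : (l : ℤ) < m)
    (h2 : (l : ℤ) < r) (π : QuadraticAlgebra ℤ m (B : ℤ)) (hπ : π.norm.natAbs = l) : p = l := by
  obtain ⟨z, hz | hz⟩ := norm_small h hl.ne_zero h1 h2 π hπ
  · exfalso
    apply hl.prime.irreducible.not_isSquare
    exact ⟨z, by zify; rw [hz]; ring⟩
  · exact eq_of_prime_mul_sq hl hz.symm

/-- primes below `m` and `r` with a root are equal to `p` -/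
theorem eq_of_root (h : Par a b c B m r p)
    [IsDomain (QuadraticAlgebra ℤ m (B : ℤ))]
    [UniqueFactorizationMonoid (QuadraticAlgebra ℤ m (B : ℤ))]
    {l : ℕ} (hl : l.Prime) (h1 : (l : ℤ) < m) (h2 : (l : ℤ) < r) (x : ℤ)
    (hx : (l : ℤ) ∣ x ^ 2 + B * x - m) : p = l := by
  obtain ⟨π, hπ⟩ := exists_norm_of_root hl hx
  exact eq_of_norm h hl h1 h2 π hπ

/-- all parameters in terms of positive integers -/
lemma params (h : Par a b c B m r p) : ∃ u n w : ℕ, 1 ≤ u ∧ 1 ≤ n ∧ w + b = a * n ∧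
    m = (u * b + n : ℕ) ∧ r = (1 + a * u : ℕ) ∧ p = (n + b * w : ℕ) ∧
    B = u + a * (u * b + n) ∧ c * (n + b * w) + w = b + u * (1 + a * b) := by
  have ha : (1 : ℤ) ≤ a := by exact_mod_cast h.ha
  have hb : (1 : ℤ) ≤ b := by exact_mod_cast h.hb
  have e1 := h.e1
  have e2 := h.e2
  have e3 := h.e3
  have hm := h.hm
  have hr := h.hr
  have hp := h.hp
  obtain ⟨U, hU⟩ : ∃ U : ℤ, U = B - a * m := ⟨_, rfl⟩
  obtain ⟨N, hN⟩ : ∃ N : ℤ, N = m - b * U := ⟨_, rfl⟩
  obtain ⟨W, hW⟩ : ∃ W : ℤ, W = a * N - b := ⟨_, rfl⟩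
  have hm' : m = b * U + N := by rw [hN]; ring
  have hB : (B : ℤ) = U + a * (b * U + N) := by rw [← hm', hU]; ring
  have f1 : r = 1 + a * U := by rw [hU, e1]; ring
  have f2 : p = N + b * W := by
    rw [e2, f1, hB, hm', hW]; ring
  have f3 : (c : ℤ) * p = b - W + U * (1 + a * b) := by
    rw [e3, f1, hB, hm', hW]; ring
  have hU1 : 1 ≤ U := by
    have h1 : 0 < a * U := by rw [f1] at hr; linarith
    have := (mul_pos_iff_of_pos_left (by linarith : (0 : ℤ) < a)).1 h1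
    linarith
  have hW0 : 0 ≤ W := by
    by_contra hneg
    push Not at hneg
    have h1 : b * W ≤ -b := by nlinarith
    have h2 : b + 1 ≤ N := by rw [f2] at hp; linarith
    nlinarith
  have hN1 : 1 ≤ N := by
    by_contra hneg
    push Not at hneg
    nlinarith
  obtain ⟨u, hu⟩ := Int.eq_ofNat_of_zero_le (by linarith : 0 ≤ U)
  obtain ⟨n, hn⟩ := Int.eq_ofNat_of_zero_le (by linarith : 0 ≤ N)
  obtain ⟨w, hw⟩ := Int.eq_ofNat_of_zero_le hW0
  subst hu hn hw
  refine ⟨u, n, w, by exact_mod_cast hU1, by exact_mod_cast hN1, ?_, ?_, ?_, ?_, ?_, ?_⟩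
  · have : (w : ℤ) + b = a * n := by linarith
    exact_mod_cast this
  · rw [hm']; push_cast; ring
  · rw [f1]; push_cast; ring
  · rw [f2]; push_cast; ring
  · have : (B : ℤ) = u + a * (u * b + n) := by rw [hB]; ring
    exact_mod_cast this
  · have : (c : ℤ) * (n + b * w) + w = b + u * (1 + a * b) := by
      rw [← f2]; linarith
    exact_mod_cast this

end E6

end Pool.Agent.PSX
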