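import Pool.Agent.PSX.E6Rep

/-!
Period six: the parameters with a small norm.
-/

namespace Pool.Agent.PSX.E6

open Finset (range)
open Pool.Agent.LibH4 Pool.Agent.LibH4.FA Pool.Agent.Lib_helper5 Pool.Agent.Lib_helper5.CG

variable {a b c B : ℕ} {m r p : ℤ}

/-! ### The family without a bound -/

/-- `r` is not the square `(1 + a w) ^ 2` -/
lemma no_square (h : Par a b c B m r p)
    [IsDomain (QuadraticAlgebra ℤ m (B : ℤ))]
    [UniqueFactorizationMonoid (QuadraticAlgebra ℤ m (B : ℤ))]
    {u n w : ℕ} (hu : u = w * (2 + a * w)) (hw : 1 ≤ w) (hn : 1 ≤ n) (hwb : w + b = a * n)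
    (hm : m = (u * b + n : ℕ)) (hr : r = (1 + a * u : ℕ)) (hp : p = (n + b * w : ℕ))
    (hB : B = u + a * (u * b + n)) : False := by
  have ha := h.ha
  have hb := h.hb
  obtain ⟨l, hl, k, hk⟩ := Nat.exists_prime_and_dvd (by
    have : 1 ≤ a * w := Nat.mul_pos ha hw
    omega : 1 + a * w ≠ 1)
  have hk1 : 1 ≤ k := by
    rcases Nat.eq_zero_or_pos k with h0 | h0
    · rw [h0] at hk; omega
    · exact h0
  have haw : 1 ≤ a * w := Nat.mul_pos ha hw
  have hls : l ≤ 1 + a * w := by rw [hk]; exact Nat.le_mul_of_pos_right l hk1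
  have hlr : (l : ℤ) < r := by
    rw [hr]
    have : l < 1 + a * u := by
      have h1 : a * u = (a * w) * (2 + a * w) := by rw [hu]; ring
      have h2 : (a * w) * 2 ≤ (a * w) * (2 + a * w) := Nat.mul_le_mul_left _ (by omega)
      omega
    exact_mod_cast this
  have hlm : (l : ℤ) < m := by
    rw [hm]
    have : l < u * b + n := by
      have h1 : u ≤ u * b := Nat.le_mul_of_pos_right u hb
      have h2 : 1 * (2 + a * w) ≤ w * (2 + a * w) := Nat.mul_le_mul_right _ hw
      omega
    exact_mod_cast this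
  have hroot : (l : ℤ) ∣ (-(w : ℤ)) ^ 2 + B * (-(w : ℤ)) - m := by
    have e : (-(w : ℤ)) ^ 2 + B * (-(w : ℤ)) - m = ((1 + a * w : ℕ) : ℤ) * (-(w ^ 2 + m)) := by
      rw [hm, hB, hu]; push_cast; ring
    rw [e, hk]
    push_cast
    exact ⟨k * (-((w : ℤ) ^ 2 + m)), by ring⟩
  have hpl := eq_of_root h hl hlm hlr (-(w : ℤ)) hroot
  -- `p = n (1 + a w) - w ^ 2`
  have hpe : p = n * ((1 + a * w : ℕ) : ℤ) - (w : ℤ) ^ 2 := by
    rw [hp]
    have : (b : ℤ) = a * n - w := by
      have : (w : ℤ) + b = a * n := by exact_mod_cast hwb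
      linarith
    push_cast
    rw [this]
    ring
  have hlw : (l : ℤ) ∣ (w : ℤ) ^ 2 := by
    have h1 : (w : ℤ) ^ 2 = n * ((1 + a * w : ℕ) : ℤ) - l := by rw [← hpl, hpe]; ring
    rw [h1, hk]
    push_cast
    exact ⟨n * k - 1, by ring⟩
  have hlw' : l ∣ w := by
    have h1 : l ∣ w ^ 2 := by exact_mod_cast hlw
    exact hl.dvd_of_dvd_pow h1
  have h1 : l ∣ 1 := by
    have h2 : l ∣ 1 + a * w := ⟨k, hk⟩
    have h3 : l ∣ a * w := Dvd.dvd.mul_left hlw' a
    exact (Nat.dvd_add_iff_left h3).2 h2
  exact hl.one_lt.ne' (Nat.dvd_one.1 h1)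

/-! ### The finite check -/

/-- the eighteen discriminants -/
def lD : List ℕ := [57, 76, 88, 236, 253, 309, 341, 381, 428, 524, 749, 813, 893, 1112, 1893,
  2453, 2757, 3317]

/-- parameters `(a, b, c, u, n)` of further orders -/
def ext : List (ℕ × ℕ × ℕ × ℕ × ℕ) :=
  [(8, 2, 1, 1, 1), (16, 2, 3, 3, 1), (2, 10, 23, 5, 5), (8, 1, 1, 11, 6), (48, 6, 1, 1, 1)]

/-- the test, with the norms `m`, `r`, `p` as further arguments -/
def tst' (a b c u n m r w p : ℕ) : Bool :=
  decide (a * n < b) || (decide (p < 2) ||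
  (decide (c * p + w ≠ b + u * (1 + a * b)) ||
  (lD.contains ((u + a * m) * (u + a * m) + 4 * m) || (ext.contains (a, b, c, u, n) ||
  (([2, 3, 5, 7, 11, 13, 17, 19, 23, 29, 31] : List ℕ).any fun l => decide (l < m) && (decide (l < r) &&
    (decide (l ≠ p) && ((List.range l).any fun x =>
      decide ((x * x + (u + a * m) * x) % l = m % l)))))))))

/-- the test -/
def tst (a b c u n : ℕ) : Bool := (a == 0) || ((b == 0) || ((c == 0) || ((u == 0) || ((n == 0) ||
  tst' a b c u n (u * b + n) (1 + a * u) (a * n - b) (n + b * (a * n - b))))))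

/-- what the test means -/
lemma tst_sound {u n w : ℕ} (ht : tst a b c u n = true)
    (h : Par a b c B m r p)
    [IsDomain (QuadraticAlgebra ℤ m (B : ℤ))]
    [UniqueFactorizationMonoid (QuadraticAlgebra ℤ m (B : ℤ))]
    (hu : 1 ≤ u) (hn : 1 ≤ n) (hwb : w + b = a * n)
    (hm : m = (u * b + n : ℕ)) (hr : r = (1 + a * u : ℕ)) (hp : p = (n + b * w : ℕ))
    (hB : B = u + a * (u * b + n)) (q : c * (n + b * w) + w = b + u * (1 + a * b)) :
    (∃ d ∈ lD, (d : ℤ) = (B : ℤ) ^ 2 + 4 * m) ∨ (a, b, c, u, n) ∈ ext := by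
  have e3 : a * n - b = w := by omega
  have ha := h.ha
  have hb := h.hb
  have hc := h.hc
  have hp1 := h.hp
  unfold tst tst' at ht
  rw [e3, Bool.or_eq_true, Bool.or_eq_true, Bool.or_eq_true, Bool.or_eq_true, Bool.or_eq_true,
    Bool.or_eq_true, Bool.or_eq_true, Bool.or_eq_true, Bool.or_eq_true, Bool.or_eq_true,
    beq_iff_eq, beq_iff_eq, beq_iff_eq, beq_iff_eq, beq_iff_eq,
    List.contains_iff_mem, List.contains_iff_mem, List.any_eq_true, decide_eq_true_eq,
    decide_eq_true_eq, decide_eq_true_eq, ← hB] at ht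
  rcases ht with ht | ht | ht | ht | ht | ht | ht | ht | ht | ht | ⟨l, hl, ht⟩
  · omega
  · omega
  · omega
  · omega
  · omega
  · omega
  · rw [hp] at hp1
    have : 1 < n + b * w := by exact_mod_cast hp1
    omega
  · exact absurd q ht
  · left
    refine ⟨_, ht, ?_⟩
    rw [hm]; push_cast; ring
  · right; exact ht
  · exfalso
    rw [Bool.and_eq_true, Bool.and_eq_true, Bool.and_eq_true, decide_eq_true_eq, decide_eq_true_eq,
      decide_eq_true_eq, List.any_eq_true] at ht
    obtain ⟨h1, h2, h3, x, -, hx⟩ := ht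
    rw [decide_eq_true_eq] at hx
    have hlp : l.Prime := by
      simp only [List.mem_cons, List.not_mem_nil, or_false] at hl
      rcases hl with rfl | rfl | rfl | rfl | rfl | rfl | rfl | rfl | rfl | rfl | rfl <;> norm_num
    have hpl := eq_of_root h hlp (by rw [hm]; exact_mod_cast h1) (by rw [hr]; exact_mod_cast h2)
      (x : ℤ) (by
        rw [hm]
        have h3 := (Nat.modEq_iff_dvd (n := l) (a := u * b + n) (b := x * x + B * x)).1 hx.symm
        have h4 : ((x * x + B * x : ℕ) : ℤ) - ((u * b + n : ℕ) : ℤ) =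
          (x : ℤ) ^ 2 + B * x - ((u * b + n : ℕ) : ℤ) := by push_cast; ring
        rw [← h4]
        exact h3)
    rw [hp] at hpl
    exact h3 (by exact_mod_cast hpl.symm)

/-! #### first case: `m ≤ 23` -/

/-- denominator of `a` -/
def D1 (b c u n : ℕ) : ℤ := c * n * b + n - u * b
/-- numerator of `a` -/
def N1 (b c u n : ℕ) : ℤ := 2 * b + u + c * b * b - c * n

/-- check in the first case -/
def chk1 : Bool :=
  (List.range 24).all fun u => (List.range 24).all fun b => (u == 0) || ((b == 0) ||
    (decide (22 < u * b) || ((List.range (24 - u * b)).all fun n => (n == 0) ||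
      ((List.range (b + 2 * u + u * b * b + 1)).all fun c => (c == 0) ||
        (if D1 b c u n = 0 then decide (N1 b c u n ≠ 0) else
          (decide (N1 b c u n % D1 b c u n ≠ 0) ||
            tst (N1 b c u n / D1 b c u n).toNat b c u n))))))

/-! #### second case: `r ≤ 37` -/

/-- denominator of `b` -/
def D2 (a c u w : ℕ) : ℤ := c * (1 + a * w) - a * (1 + a * u)
/-- numerator of `b` -/
def N2 (a c u w : ℕ) : ℤ := a * u - a * w - c * w

/-- check in the second case -/
def chk2 : Bool :=
  (List.range 37).all fun a => (List.range 37).all fun u => (a == 0) || ((u == 0) ||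
    (decide (36 < a * u) ||
    (((List.range (u + 1)).all fun n => (n == 0) || (decide (u % n ≠ 0) ||
        tst a (a * n) (a + u * a * a + u / n) u n)) &&
    ((List.range (a * u + 1)).all fun w => (w == 0) ||
      ((List.range (a * u + 1)).all fun c => (c == 0) ||
        (if D2 a c u w = 0 then true else (decide (N2 a c u w % D2 a c u w ≠ 0) ||
          tst a (N2 a c u w / D2 a c u w).toNat c u
            ((w + (N2 a c u w / D2 a c u w).toNat) / a))))))))

set_option maxRecDepth 100000 in
lemma chk1_true : chk1 = true := by decide +kernel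

set_option maxRecDepth 100000 in
lemma chk2_true : chk2 = true := by decide +kernel

/-! #### soundness -/

lemma case1 {a b c u n w : ℕ} (ha : 1 ≤ a) (hb : 1 ≤ b) (hc : 1 ≤ c) (hu : 1 ≤ u) (hn : 1 ≤ n)
    (hwb : w + b = a * n) (q : c * (n + b * w) + w = b + u * (1 + a * b))
    (h23 : u * b + n ≤ 23) : tst a b c u n = true := by
  have p0 : (w : ℤ) + b = a * n := by exact_mod_cast hwb
  have p1 : (c : ℤ) * (n + b * w) + w = b + u * (1 + a * b) := by exact_mod_cast q
  have k1 : (a : ℤ) * D1 b c u n = N1 b c u n := by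
    unfold D1 N1
    linear_combination p1 - (c * b + 1 : ℤ) * p0
  have k4 : c ≤ b + 2 * u + u * b * b := by
    rcases Nat.eq_zero_or_pos w with hw | hw
    · subst hw
      have hab : a ≤ b := by
        have : a ≤ a * n := Nat.le_mul_of_pos_right a hn
        omega
      have h1 : c ≤ c * n := Nat.le_mul_of_pos_right c hn
      have h2 : c * n = b + u * (1 + a * b) := by
        rw [← q]; ring
      have h3 : u * (1 + a * b) ≤ u * (1 + b * b) :=
        Nat.mul_le_mul_left _ (by have := Nat.mul_le_mul_right b hab; omega)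
      have h4 : u * (1 + b * b) = u + u * b * b := by ring
      omega
    · have haw : a ≤ w + b := by
        have : a ≤ a * n := Nat.le_mul_of_pos_right a hn
        omega
      have h1 : c * (1 + b * w) ≤ c * (n + b * w) := Nat.mul_le_mul_left _ (by omega)
      have h2 : u * (1 + a * b) ≤ u * (1 + (w + b) * b) :=
        Nat.mul_le_mul_left _ (by have := Nat.mul_le_mul_right b haw; omega)
      have h3 : b + u * (1 + (w + b) * b) ≤ (b + 2 * u + u * b * b) * (1 + b * w) := by
        have : (b + 2 * u + u * b * b) * (1 + b * w) =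
            b + u * (1 + (w + b) * b) + (u + u * (b * w) + b * (b * w) + u * b * b * (b * w)) := by
          ring
        rw [this]
        exact Nat.le_add_right _ _
      have h4 : c * (1 + b * w) ≤ (b + 2 * u + u * b * b) * (1 + b * w) := by omega
      exact Nat.le_of_mul_le_mul_right h4 (by positivity)
  have hub : 1 ≤ u * b := Nat.mul_pos hu hb
  have hu24 : u < 24 := by
    have : u ≤ u * b := Nat.le_mul_of_pos_right u hb
    omega
  have hb24 : b < 24 := by
    have : b ≤ u * b := Nat.le_mul_of_pos_left b hu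
    omega
  have h := chk1_true
  unfold chk1 at h
  rw [List.all_eq_true] at h
  have g1 := h u (List.mem_range.2 hu24)
  rw [List.all_eq_true] at g1
  have g2 := g1 b (List.mem_range.2 hb24)
  rw [Bool.or_eq_true, Bool.or_eq_true, Bool.or_eq_true, beq_iff_eq, beq_iff_eq, decide_eq_true_eq,
    List.all_eq_true] at g2
  rcases g2 with g2 | g2 | g2 | g2
  · omega
  · omega
  · omega
  have g3 := g2 n (List.mem_range.2 (by omega))
  rw [Bool.or_eq_true, beq_iff_eq, List.all_eq_true] at g3
  rcases g3 with g3 | g3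
  · omega
  have g4 := g3 c (List.mem_range.2 (by omega))
  rw [Bool.or_eq_true, beq_iff_eq] at g4
  rcases g4 with g4 | g4
  · omega
  by_cases hD0 : D1 b c u n = 0
  · exfalso
    rw [if_pos hD0, decide_eq_true_eq] at g4
    apply g4
    rw [← k1, hD0, mul_zero]
  · rw [if_neg hD0, ← k1, Int.mul_ediv_cancel _ hD0, Int.toNat_natCast, Bool.or_eq_true,
      decide_eq_true_eq] at g4
    rcases g4 with g4 | g4
    · exact absurd (Int.mul_emod_left _ _) g4
    · exact g4

lemma case2 {a b c u n w : ℕ} (ha : 1 ≤ a) (hb : 1 ≤ b) (hc : 1 ≤ c) (hu : 1 ≤ u) (hn : 1 ≤ n)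
    (hwb : w + b = a * n) (q : c * (n + b * w) + w = b + u * (1 + a * b))
    (h36 : a * u ≤ 36) : tst a b c u n = true ∨ (1 ≤ w ∧ u = w * (2 + a * w)) := by
  have haZ : (1 : ℤ) ≤ a := by exact_mod_cast ha
  have hbZ : (1 : ℤ) ≤ b := by exact_mod_cast hb
  have hcZ : (1 : ℤ) ≤ c := by exact_mod_cast hc
  have huZ : (1 : ℤ) ≤ u := by exact_mod_cast hu
  have hau : 1 ≤ a * u := Nat.mul_pos ha hu
  have ha37 : a < 37 := by
    have : a ≤ a * u := Nat.le_mul_of_pos_right a hu
    omega
  have hu37 : u < 37 := by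
    have : u ≤ a * u := Nat.le_mul_of_pos_left u ha
    omega
  have h := chk2_true
  unfold chk2 at h
  rw [List.all_eq_true] at h
  have g1 := h a (List.mem_range.2 ha37)
  rw [List.all_eq_true] at g1
  have g2 := g1 u (List.mem_range.2 hu37)
  rw [Bool.or_eq_true, Bool.or_eq_true, Bool.or_eq_true, beq_iff_eq, beq_iff_eq, decide_eq_true_eq,
    Bool.and_eq_true, List.all_eq_true, List.all_eq_true] at g2
  rcases g2 with g2 | g2 | g2 | ⟨g2, g3⟩
  · omega
  · omega
  · omega
  rcases Nat.eq_zero_or_pos w with hw | hw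
  · left
    subst hw
    rw [zero_add] at hwb
    subst hwb
    have q' : c * n = n * (a + u * a * a) + u := by
      have h1 : c * n = c * (n + a * n * 0) + 0 := by ring
      rw [h1, q]; ring
    have hdvd : n ∣ u := by
      have h1 : n ∣ n * (a + u * a * a) + u := ⟨c, by rw [← q']; ring⟩
      exact (Nat.dvd_add_right (Dvd.intro _ rfl)).1 h1
    obtain ⟨k, rfl⟩ := hdvd
    have hc' : c = a + (n * k) * a * a + k := by
      have h1 : n * c = n * (a + (n * k) * a * a + k) := by
        rw [mul_comm n c, q']; ring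
      exact Nat.eq_of_mul_eq_mul_left hn h1
    have hnu : n ≤ n * k := by
      rcases Nat.eq_zero_or_pos k with h0 | h0
      · rw [h0] at hu; omega
      · exact Nat.le_mul_of_pos_right n h0
    have g4 := g2 n (List.mem_range.2 (by omega))
    rw [Bool.or_eq_true, Bool.or_eq_true, beq_iff_eq, decide_eq_true_eq] at g4
    rcases g4 with g4 | g4 | g4
    · omega
    · exact absurd (Nat.mul_mod_right _ _) g4
    · rw [Nat.mul_div_cancel_left _ hn, ← hc'] at g4
      exact g4
  · have hwZ : (1 : ℤ) ≤ w := by exact_mod_cast hw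
    have p0 : (w : ℤ) + b = a * n := by exact_mod_cast hwb
    have p1 : (c : ℤ) * (n + b * w) + w = b + u * (1 + a * b) := by exact_mod_cast q
    have k1 : (b : ℤ) * D2 a c u w = N2 a c u w := by
      unfold D2 N2
      linear_combination (a : ℤ) * p1 + (c : ℤ) * p0
    by_cases hD0 : D2 a c u w = 0
    · right
      refine ⟨hw, ?_⟩
      have hN0 : N2 a c u w = 0 := by rw [← k1, hD0, mul_zero]
      unfold D2 at hD0
      unfold N2 at hN0
      -- `c = a (1 + a w)`
      have hc' : (c : ℤ) = a * (1 + a * w) := by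
        linear_combination hD0 + (a : ℤ) * hN0
      have h1 : (a : ℤ) * (u - w * (2 + a * w)) = 0 := by
        rw [hc'] at hN0
        linear_combination hN0
      rcases mul_eq_zero.1 h1 with h2 | h2
      · omega
      · have : (u : ℤ) = w * (2 + a * w) := by linarith
        exact_mod_cast this
    · left
      have bd : c ≤ a * u ∧ w ≤ a * u := by
        rcases lt_or_gt_of_ne hD0 with hlt | hgt
        · -- `c (1 + a w) < a (1 + a u)`
          have h1 : (c : ℤ) * w < 1 + a * u := by
            unfold D2 at hlt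
            have h2 : (a : ℤ) * (c * w) < a * (1 + a * u) := by nlinarith
            exact lt_of_mul_lt_mul_left h2 (by linarith)
          have h2 : c * w ≤ a * u := by
            have : ((c * w : ℕ) : ℤ) < ((1 + a * u : ℕ) : ℤ) := by push_cast; exact h1
            have : c * w < 1 + a * u := by exact_mod_cast this
            omega
          exact ⟨le_trans (Nat.le_mul_of_pos_right c hw) h2,
            le_trans (Nat.le_mul_of_pos_left w hc) h2⟩
        · have h0 : 0 < N2 a c u w := by rw [← k1]; positivity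
          unfold N2 at h0
          have h1 : a * w + c * w < a * u := by
            have : ((a * w + c * w : ℕ) : ℤ) < ((a * u : ℕ) : ℤ) := by push_cast; linarith
            exact_mod_cast this
          have h2 : c ≤ c * w := Nat.le_mul_of_pos_right c hw
          have h3 : w ≤ c * w := Nat.le_mul_of_pos_left w hc
          constructor <;> omega
      have g4 := g3 w (List.mem_range.2 (by omega))
      rw [Bool.or_eq_true, beq_iff_eq, List.all_eq_true] at g4
      rcases g4 with g4 | g4
      · omega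
      have g5 := g4 c (List.mem_range.2 (by omega))
      rw [Bool.or_eq_true, beq_iff_eq] at g5
      rcases g5 with g5 | g5
      · omega
      rw [if_neg hD0, ← k1, Int.mul_ediv_cancel _ hD0, Int.toNat_natCast, Bool.or_eq_true,
        decide_eq_true_eq, hwb, Nat.mul_div_cancel_left _ (by omega)] at g5
      rcases g5 with g5 | g5
      · exact absurd (Int.mul_emod_left _ _) g5
      · exact g5

/-- small cases -/
theorem small (h : Par a b c B m r p)
    [IsDomain (QuadraticAlgebra ℤ m (B : ℤ))]
    [UniqueFactorizationMonoid (QuadraticAlgebra ℤ m (B : ℤ))] (hmin : m ≤ 23 ∨ r ≤ 37) :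
    (∃ d ∈ lD, (d : ℤ) = (B : ℤ) ^ 2 + 4 * m) ∨
      ∃ u n : ℕ, (a, b, c, u, n) ∈ ext ∧ m = (u * b + n : ℕ) ∧ r = (1 + a * u : ℕ) ∧
        p = n + b * (a * n - b) ∧ B = u + a * (u * b + n) := by
  obtain ⟨u, n, w, hu, hn, hwb, hm, hr, hp, hB, q⟩ := params h
  have key : tst a b c u n = true → (∃ d ∈ lD, (d : ℤ) = (B : ℤ) ^ 2 + 4 * m) ∨
      ∃ u n : ℕ, (a, b, c, u, n) ∈ ext ∧ m = (u * b + n : ℕ) ∧ r = (1 + a * u : ℕ) ∧
        p = n + b * (a * n - b) ∧ B = u + a * (u * b + n) := by
    intro ht
    rcases tst_sound ht h hu hn hwb hm hr hp hB q with h1 | h1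
    · exact Or.inl h1
    · refine Or.inr ⟨u, n, h1, hm, hr, ?_, hB⟩
      have e : (w : ℤ) = a * n - b := by
        have : (w : ℤ) + b = a * n := by exact_mod_cast hwb
        linarith
      rw [hp]; push_cast; rw [e]
  by_cases h2 : r ≤ 37
  · rcases case2 h.ha h.hb h.hc hu hn hwb q (by
      rw [hr] at h2
      have : 1 + a * u ≤ 37 := by exact_mod_cast h2
      omega) with h3 | ⟨h3, h4⟩
    · exact key h3
    · exact (no_square h h4 h3 hn hwb hm hr hp hB).elim
  · rcases hmin with h1 | h1
    · apply key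
      apply case1 h.ha h.hb h.hc hu hn hwb q
      rw [hm] at h1
      exact_mod_cast h1
    · exact absurd h1 h2

/-! ### The further orders -/

/-- check that a prime is not represented on an edge -/
def chkK (a b c B : ℕ) (m r p : ℤ) (l : ℕ) : Bool :=
  (List.range 6).all fun k => (List.range (l + 1)).all fun x => (decide (l < x * x)) ||
    ((List.range (l + 1)).all fun y =>
      decide (¬ (y < C a b c B k * x ∧
        P m r p k * (x : ℤ) ^ 2 + R a b B m r k * x * y
          - S m r p k * (y : ℤ) ^ 2 = l)))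

lemma kill (l : ℕ) (hl : l.Prime) (x : ℤ)
    (hx : (l : ℤ) ∣ x ^ 2 + B * x - m) (hchk : chkK a b c B m r p l = true)
    (h : Par a b c B m r p)
    [IsDomain (QuadraticAlgebra ℤ m (B : ℤ))]
    [UniqueFactorizationMonoid (QuadraticAlgebra ℤ m (B : ℤ))] : False := by
  have hm0 : (0 : ℤ) < m := by have := h.hm; omega
  obtain ⟨π, hπ⟩ := exists_norm_of_root hl hx
  obtain ⟨k, hk, X, Y, hX, hY, he⟩ := even_repr hm0 (cyc h) 3 rfl (by norm_num) (closing h) π l
    hl.ne_zero hπ
  have hC := cyc h
  have hX' : (1 : ℤ) ≤ X := by exact_mod_cast hX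
  have hY' : (Y : ℤ) < C a b c B k * X := by exact_mod_cast hY
  have hY0 : (0 : ℤ) ≤ Y := by positivity
  have hf := form_pos (hC.cpos k (by omega)) (hC.toCyc.Ppos (by omega)) (hC.Spos k (by omega))
    (hAend hC k (by omega)) hY0 hY'.le
  rw [he] at hf
  have hS := hC.Spos k (by omega)
  have h0 : 0 ≤ S m r p k * ((Y : ℤ) * (C a b c B k * X - Y)) :=
    mul_nonneg hS.le (mul_nonneg hY0 (by linarith))
  have hXp : X * X ≤ l := by
    have : (X : ℤ) * X ≤ l := by nlinarith
    exact_mod_cast this
  have hYp : Y ≤ l := by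
    have h1 : (Y : ℤ) ≤ (Y : ℤ) * (C a b c B k * X - Y) := by nlinarith
    have h2 : (Y : ℤ) * (C a b c B k * X - Y)
        ≤ S m r p k * ((Y : ℤ) * (C a b c B k * X - Y)) := by
      have h3 : 0 ≤ (Y : ℤ) * (C a b c B k * X - Y) := mul_nonneg hY0 (by linarith)
      nlinarith
    have : (Y : ℤ) ≤ l := by nlinarith
    exact_mod_cast this
  unfold chkK at hchk
  rw [List.all_eq_true] at hchk
  have g1 := hchk k (List.mem_range.2 (by omega))
  rw [List.all_eq_true] at g1
  have g2 := g1 X (List.mem_range.2 (by nlinarith))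
  rw [Bool.or_eq_true, decide_eq_true_eq, List.all_eq_true] at g2
  rcases g2 with g2 | g2
  · omega
  have g3 := g2 Y (List.mem_range.2 (by omega))
  rw [decide_eq_true_eq] at g3
  exact g3 ⟨hY, he⟩

/-- **small cases for period six** -/
theorem small_cases (h : Par a b c B m r p)
    [IsDomain (QuadraticAlgebra ℤ m (B : ℤ))]
    [UniqueFactorizationMonoid (QuadraticAlgebra ℤ m (B : ℤ))] :
    (∃ d ∈ lD, (d : ℤ) = (B : ℤ) ^ 2 + 4 * m) ∨ (23 < m ∧ 37 < r) := by
  by_cases hmin : m ≤ 23 ∨ r ≤ 37
  · left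
    rcases small h hmin with h1 | ⟨u, n, h1, hm, hr, hp, hB⟩
    · exact h1
    · exfalso
      simp only [ext, List.mem_cons, List.not_mem_nil, or_false, Prod.mk.injEq] at h1
      rcases h1 with ⟨rfl, rfl, rfl, rfl, rfl⟩ | ⟨rfl, rfl, rfl, rfl, rfl⟩ |
        ⟨rfl, rfl, rfl, rfl, rfl⟩ | ⟨rfl, rfl, rfl, rfl, rfl⟩ | ⟨rfl, rfl, rfl, rfl, rfl⟩
      all_goals norm_num at hm hr hp hB
      all_goals subst hm hr hp hB
      · exact kill 7 (by norm_num) 5 (by norm_num) (by decide +kernel) h
      · exact kill 11 (by norm_num) 7 (by norm_num) (by decide +kernel) h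
      · exact kill 13 (by norm_num) 3 (by norm_num) (by decide +kernel) h
      · exact kill 19 (by norm_num) 9 (by norm_num) (by decide +kernel) h
      · exact kill 11 (by norm_num) 2 (by norm_num) (by decide +kernel) h
  · right
    push Not at hmin
    exact hmin

end Pool.Agent.PSX.E6
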