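import Pool.Agent.PSX.E8

/-!
Period eight, even discriminants: the middle value is two, two families, inert primes.
-/

namespace Pool.Agent.PSX.E8

open Pool.Agent.LibH4 Pool.Agent.Lib_helper5

variable {a b c e B : ℕ} {m r q p : ℤ}

/-- if `B` is even then `m`, `r` and `q` are greater than two -/
lemma gt_two (h : Par a b c e B m r q p) (hB2 : B % 2 = 0) : 2 < m ∧ 2 < r ∧ 2 < q := by
  have ha : (1 : ℤ) ≤ a := by exact_mod_cast h.ha
  have hb : (1 : ℤ) ≤ b := by exact_mod_cast h.hb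
  have hc : (1 : ℤ) ≤ c := by exact_mod_cast h.hc
  have he : (1 : ℤ) ≤ e := by exact_mod_cast h.he
  have e1 := h.e1
  have e2 := h.e2
  have e3 := h.e3
  have e4 := h.e4
  have hm := h.hm
  have hr := h.hr
  have hq := h.hq
  have hp := h.hp
  obtain ⟨s, hs⟩ : ∃ s : ℤ, (B : ℤ) = 2 * s := ⟨B / 2, by omega⟩
  have hm2 : 2 < m := by
    by_contra hcon
    have hm' : m = 2 := by omega
    subst hm'
    obtain ⟨t, ht⟩ : ∃ t : ℤ, t = s - a := ⟨_, rfl⟩
    have hs' : s = t + a := by omega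
    rw [hs, hs'] at e1 e2
    have f1 : r = 1 + 2 * a * t := by rw [e1]; ring
    have ht1 : 1 ≤ t := by
      by_contra h0
      push Not at h0
      nlinarith
    have f2 : q = 2 + 2 * (a - t) * b - b ^ 2 - 2 * (a * b) * (t * b) := by rw [e2, f1]; ring
    have h3 : 1 ≤ t * b := by nlinarith
    have h4 : (a : ℤ) * b ≤ a * b * (t * b) := by nlinarith [mul_pos (by linarith : (0 : ℤ) < a) (by linarith : (0 : ℤ) < b)]
    nlinarith
  have hr2 : 2 < r := by
    by_contra hcon
    have hr' : r = 2 := by omega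
    subst hr'
    have f1 : (a : ℤ) * (B - a * m) = 1 := by linear_combination (-1 : ℤ) * e1
    have ha1 : (a : ℤ) = 1 := Int.eq_one_of_mul_eq_one_right (by linarith) f1
    rw [ha1] at f1 e1 e2 e3 e4
    obtain ⟨t, ht⟩ : ∃ t : ℤ, t = s - 1 - b := ⟨_, rfl⟩
    have hs' : s = t + 1 + b := by omega
    have f2 : m = 2 * s - 1 := by rw [hs] at f1; linarith
    rw [f2, hs, hs'] at e2 e3
    have f3 : q = 2 * t * (1 + b) + 2 * b + 1 := by rw [e2]; ring
    have f4 : p = 2 + 2 * (b - t) * c - q * c ^ 2 := by rw [e3]; ring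
    have ht0 : 0 ≤ t := by
      by_contra h0
      push Not at h0
      have : t * (1 + b) ≤ (-1) * (1 + b) := mul_le_mul_of_nonneg_right (by omega) (by linarith)
      nlinarith
    have h5 : 2 * (b : ℤ) + 1 ≤ q := by
      have : 0 ≤ t * (1 + (b : ℤ)) := mul_nonneg ht0 (by linarith)
      nlinarith
    have hcc : (c : ℤ) ≤ (c : ℤ) ^ 2 := by nlinarith
    have h6 : (2 * (b : ℤ) + 1) * c ≤ q * c ^ 2 :=
      (mul_le_mul_of_nonneg_left hcc (by linarith)).trans
        (mul_le_mul_of_nonneg_right h5 (by positivity))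
    nlinarith
  refine ⟨hm2, hr2, ?_⟩
  by_contra hcon
  have hq' : q = 2 := by omega
  subst hq'
  obtain ⟨x, hx⟩ : ∃ x : ℤ, x = a * m - s := ⟨_, rfl⟩
  have hR2 : 2 * (a : ℤ) * m - B = 2 * x := by rw [hs, hx]; ring
  rw [hR2] at e2 e3 e4
  -- `R3 = 2 (b r - x)`
  obtain ⟨y, hy⟩ : ∃ y : ℤ, y = b * r - x := ⟨_, rfl⟩
  have hR3 : 2 * (b : ℤ) * r - 2 * x = 2 * y := by rw [hy]; ring
  rw [hR3] at e3 e4
  have g1 : m = 2 + 2 * b * y - b ^ 2 * r := by
    rw [hy]; linarith
  have g2 : (e : ℤ) * p = 4 * c - 2 * y := by linarith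
  have g3 : p = r + 2 * c * (y - c) := by rw [e3]; ring
  rcases lt_trichotomy y c with hlt | heq | hgt
  · -- `y < c`
    have h1 : 2 * (c : ℤ) + 2 ≤ r := by nlinarith
    have h2 : (b : ℤ) * r ≤ 2 * y := by
      by_contra h0
      push Not at h0
      have : (b : ℤ) * (b * r - 2 * y) ≥ 1 := by nlinarith
      nlinarith
    nlinarith
  · -- `y = c`
    subst heq
    have f1 : p = r := by rw [g3]; ring
    have f2 : (e : ℤ) * r = 2 * c := by rw [← f1]; linarith
    have f3 : m = 2 + b * r * (e - b) := by rw [g1]; linear_combination (-(b : ℤ)) * f2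
    have f4 : 2 * x = r * (2 * b - e) := by
      have : x = b * r - c := by omega
      rw [this]; linear_combination f2
    have f5 : r - 1 = a * (a * m - r * (2 * b - e)) := by
      rw [← f4, e1, hx, hs]; ring
    have hbr : 0 < (b : ℤ) * r := mul_pos (by linarith) (by linarith)
    have f6 : (b : ℤ) < e := by
      by_contra h0
      push Not at h0
      nlinarith
    obtain ⟨f, hf⟩ : ∃ f : ℤ, f = e - b := ⟨_, rfl⟩
    have hf1 : 1 ≤ f := by omega
    have f7 : r - 1 = 2 * (a : ℤ) ^ 2 + a * r * (b * (a * f - 1) + f) := by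
      rw [f5, f3, hf]; ring
    have haf : 0 ≤ (a : ℤ) * f - 1 := by nlinarith
    have f8 : 1 ≤ (b : ℤ) * (a * f - 1) + f := by nlinarith
    have har : 0 < (a : ℤ) * r := mul_pos (by linarith) (by linarith)
    nlinarith
  · -- `c < y`
    have h1 : p ≤ e * p := by nlinarith
    nlinarith

/-- the parameters with `p = 2` form two families -/
theorem even_families (h : Par a b c e B m r q p) (hB2 : B % 2 = 0) (hp2 : p = 2) :
    (∃ A v : ℤ, 2 ≤ A ∧ 1 ≤ v ∧ (a : ℤ) = A - 1 ∧ b = 1 ∧ (c : ℤ) = 2 * A - 1 ∧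
      (e : ℤ) = (2 * A * A - 1) * v - A ∧ (B : ℤ) = 2 * ((2 * A * A - 1) * v - A) ∧
      q = 2 * A * v - 1 ∧ m = 2 * (2 * A * v - 1) ∧
      r = (4 * A - 3) * (2 * A * v - 1) - 2 * ((2 * A * A - 1) * v - A)) ∨
    (∃ k : ℤ, 1 ≤ k ∧ a = 2 ∧ b = 2 ∧ c = 1 ∧ (e : ℤ) = 7 * k ∧ (B : ℤ) = 2 + 14 * k ∧
      m = 1 + 6 * k ∧ r = 1 + 4 * k ∧ q = 1 + 10 * k) := by
  have ha : (1 : ℤ) ≤ a := by exact_mod_cast h.ha
  have hb : (1 : ℤ) ≤ b := by exact_mod_cast h.hb
  have hc : (1 : ℤ) ≤ c := by exact_mod_cast h.hc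
  have he : (1 : ℤ) ≤ e := by exact_mod_cast h.he
  have e1 := h.e1
  have e2 := h.e2
  have e3 := h.e3
  have e4 := h.e4
  have hm := h.hm
  have hr := h.hr
  have hq := h.hq
  have lo := h.lo
  have hi := h.hi
  rw [hp2] at e3 e4 lo hi
  -- the discriminant in the middle
  have hd : (B : ℤ) ^ 2 + 4 * m = (2 * e) ^ 2 + 8 * q := by
    have k1 : (B : ℤ) ^ 2 + 4 * m = (2 * a * m - B) ^ 2 + 4 * m * r := by rw [e1]; ring
    have k2 : (2 * (a : ℤ) * m - B) ^ 2 + 4 * m * r =
        (2 * b * r - (2 * a * m - B)) ^ 2 + 4 * r * q := by rw [e2]; ring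
    have k3 : (2 * (b : ℤ) * r - (2 * a * m - B)) ^ 2 + 4 * r * q =
        (2 * c * q - (2 * b * r - (2 * a * m - B))) ^ 2 + 4 * q * 2 := by
      linear_combination (-4 * q) * e3
    have k4 : 2 * (c : ℤ) * q - (2 * b * r - (2 * a * m - B)) = 2 * e := by linarith
    rw [k1, k2, k3, k4]; ring
  have hcase : (B : ℤ) = 2 * e ∨ (B : ℤ) = 2 * e + 2 := by omega
  rcases hcase with hBe | hBe
  · left
    have hmq : m = 2 * q := by rw [hBe] at hd; linarith
    have h1 : (c : ℤ) * q + 2 * a * q = b * r + B := by rw [hmq] at e4; linarith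
    have h2 : q * (1 + 4 * a * b) = q * (b * (c + 2 * a)) := by
      have : q * (1 + 4 * a * b) = b * (b * r + B) := by rw [hmq] at e2; linarith
      rw [this, ← h1]; ring
    have h3 : (1 : ℤ) + 4 * a * b = b * (c + 2 * a) :=
      mul_left_cancel₀ (by linarith : q ≠ 0) h2
    have hb1 : (b : ℤ) = 1 := by
      have : (b : ℤ) * (c + 2 * a - 4 * a) = 1 := by linarith
      exact Int.eq_one_of_mul_eq_one_right (by linarith) this
    rw [hb1] at h1 h3
    have hc1 : (c : ℤ) = 2 * a + 1 := by linarith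
    have h4 : r = 2 + B * c - q * c ^ 2 := by
      have : 2 * (b : ℤ) * r - (2 * a * m - B) = 2 * c * q - 2 * e := by linarith
      rw [this, hBe.symm] at e3
      linarith
    have h5 : (B : ℤ) = (4 * a + 1) * q - r := by rw [hc1] at h1; linarith
    have h6 : r * (a + 1) = 1 + a * (2 * a + 1) * q := by
      have : 2 * (r * (a + 1)) = 2 * (1 + a * (2 * a + 1) * q) := by
        rw [h5, hc1] at h4
        linear_combination h4
      linarith
    -- `q ≡ -1` modulo `a + 1`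
    have h7 : q + 1 = ((a : ℤ) + 1) * (r - (2 * a - 1) * q) := by
      linear_combination (-1 : ℤ) * h6
    obtain ⟨t, ht⟩ : ∃ t : ℤ, t = r - (2 * a - 1) * q := ⟨_, rfl⟩
    rw [← ht] at h7
    have hqt : q = (a + 1) * t - 1 := by linarith
    have ht1 : 1 ≤ t := by
      by_contra h0
      push Not at h0
      nlinarith
    have hrt : r = t + (2 * a - 1) * q := by linarith
    have hBt : (B : ℤ) = (2 * (a + 1) ^ 2 - 1) * t - 2 * (a + 1) := by
      rw [h5, hrt, hqt]; ring
    obtain ⟨v, hv⟩ : ∃ v : ℤ, t = 2 * v := by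
      have h8 : ((2 * ((a : ℤ) + 1) ^ 2 - 1) * t) % 2 = 0 := by
        have : (2 * ((a : ℤ) + 1) ^ 2 - 1) * t = B + 2 * (a + 1) := by linarith
        rw [this]; omega
      have h9 : t % 2 = 0 := by
        have h10 : (2 * ((a : ℤ) + 1) ^ 2 - 1) * t = 2 * (((a : ℤ) + 1) ^ 2 * t - t) + t := by ring
        omega
      exact ⟨t / 2, by omega⟩
    subst hv
    refine ⟨a + 1, v, by linarith, by omega, by ring, by exact_mod_cast hb1, by linarith, ?_, ?_,
      ?_, ?_, ?_⟩
    · have : 2 * (e : ℤ) = 2 * ((2 * (a + 1) * (a + 1) - 1) * v - (a + 1)) := by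
        rw [← hBe, hBt]; ring
      linarith
    · rw [hBt]; ring
    · rw [hqt]; ring
    · rw [hmq, hqt]; ring
    · rw [hrt, hqt]; ring
  · right
    have hm1 : m = 2 * q - B + 1 := by
      have : (2 * (e : ℤ)) = B - 2 := by linarith
      rw [this] at hd
      linarith
    have h1 : (c : ℤ) * q + 1 + a * m = b * r + B := by linarith
    have s1 : q * (1 + b * c) = m * (1 + a * b) - b := by
      linear_combination e2 + (b : ℤ) * h1
    have s2 : r * (1 + a * b) = 1 + a + a * c * q := by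
      linear_combination e1 - (a : ℤ) * h1
    have s4 : m * (1 + a) = q * (2 - c) + b * r := by
      linear_combination hm1 + h1
    have h2 : q * ((1 + b * c) * (1 + a)) = q * (2 + 2 * a * b - c) := by
      linear_combination ((1 : ℤ) + a) * s1 + ((1 : ℤ) + a * b) * s4 + (b : ℤ) * s2
    have h3 : (1 + (b : ℤ) * c) * (1 + a) = 2 + 2 * a * b - c :=
      mul_left_cancel₀ (by linarith : q ≠ 0) h2
    have hab : 1 ≤ (a : ℤ) * b := by nlinarith
    have hbc : 1 ≤ (b : ℤ) * c := by nlinarith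
    have hc1 : (c : ℤ) = 1 := by
      by_contra h0
      have hc2 : 2 ≤ (c : ℤ) := by omega
      nlinarith [mul_nonneg (by linarith : (0 : ℤ) ≤ a * b) (by linarith : (0 : ℤ) ≤ (c : ℤ) - 2)]
    rw [hc1] at h3 s1 s2 s4 h1
    have h4 : ((a : ℤ) - 1) * (b - 1) = 1 := by linarith
    have ha2 : (a : ℤ) = 2 := by
      have : (a : ℤ) - 1 = 1 := Int.eq_one_of_mul_eq_one_right (by linarith) h4
      linarith
    have hb2 : (b : ℤ) = 2 := by
      rw [ha2] at h4; linarith
    rw [ha2, hb2] at s1 s2 s4 h1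
    obtain ⟨j, hj⟩ : ∃ j : ℤ, q = 1 + 5 * j := ⟨(q - 1) / 5, by omega⟩
    have hmj : m = 1 + 3 * j := by omega
    have hrj : r = 1 + 2 * j := by omega
    have hBj : (B : ℤ) = 2 + 7 * j := by rw [hj, hmj, hrj] at h1; linarith
    obtain ⟨k, hk⟩ : ∃ k : ℤ, j = 2 * k := ⟨j / 2, by omega⟩
    subst hk
    refine ⟨k, by omega, by exact_mod_cast ha2, by exact_mod_cast hb2, by exact_mod_cast hc1, ?_,
      ?_, ?_, ?_, ?_⟩
    · linarith
    · linarith
    · linarith
    · linarith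
    · linarith

section

variable [IsDomain (QuadraticAlgebra ℤ m (B : ℤ))]
    [UniqueFactorizationMonoid (QuadraticAlgebra ℤ m (B : ℤ))]

/-- if `B` is even then `p = 2` -/
theorem eq_two (h : Par a b c e B m r q p) (hB2 : B % 2 = 0) : p = 2 := by
  obtain ⟨g1, g2, g3⟩ := gt_two h hB2
  have key : ∃ x : ℤ, ((2 : ℕ) : ℤ) ∣ x ^ 2 + B * x - m := by
    rcases Int.emod_two_eq_zero_or_one m with h0 | h0
    · exact ⟨0, by push_cast; omega⟩
    · exact ⟨1, by push_cast; omega⟩
  obtain ⟨x, hx⟩ := key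
  have := eq_of_root h Nat.prime_two (by push_cast; exact g1) (by push_cast; exact g2)
    (by push_cast; exact g3) x hx
  rw [this]
  rfl

/-- odd primes below `m`, `r` and `q` are inert, even discriminants -/
theorem inert' (h : Par a b c e B m r q p) (hp2 : p = 2) {d : ℕ}
    (hd : 4 * (d : ℤ) = (B : ℤ) ^ 2 + 4 * m)
    (l : ℕ) (hl : l.Prime) (hl2 : l ≠ 2) (hlm : (l : ℤ) < m)
    (hlr : (l : ℤ) < r) (hlq : (l : ℤ) < q) : jacobiSym d l = -1 := by
  have h1 : jacobiSym ((4 * d : ℕ) : ℤ) l = -1 := by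
    by_contra hj
    obtain ⟨x, hx⟩ := exists_root_of_ne (d := 4 * d) (by push_cast; exact hd) hl hl2 hj
    have h2 := eq_of_root h hl hlm hlr hlq x hx
    rw [hp2] at h2
    exact hl2 (by exact_mod_cast h2.symm)
  have hodd : Odd l := hl.odd_of_ne_two hl2
  push_cast at h1
  rwa [jacobiSym.mul_left, jacobiSym.at_four hodd, one_mul] at h1

end

end Pool.Agent.PSX.E8
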