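import Pool.Agent.PSX.EvTab

/-! generated: the component 37 -/

namespace Pool.Agent.PSX.Ev

open Pool.Agent.LibH4 Pool.Agent.LibH4.Ker
open Pool.Agent.Lib_helper5 Pool.Agent.Lib_helper5.LK Pool.Agent.Lib_helper5.TB

/-- representatives of the projective line -/
def L37 : List (ℕ × ℕ) := [(nat_lit 1, nat_lit 0), (nat_lit 1, nat_lit 1), (nat_lit 1, nat_lit 2), (nat_lit 1, nat_lit 3), (nat_lit 1, nat_lit 4), (nat_lit 1, nat_lit 5), (nat_lit 1, nat_lit 6), (nat_lit 1, nat_lit 7), (nat_lit 1, nat_lit 8), (nat_lit 1, nat_lit 9), (nat_lit 1, nat_lit 10), (nat_lit 1, nat_lit 11), (nat_lit 1, nat_lit 12), (nat_lit 1, nat_lit 13), (nat_lit 1, nat_lit 14), (nat_lit 1, nat_lit 15), (nat_lit 1, nat_lit 16), (nat_lit 1, nat_lit 17), (nat_lit 1, nat_lit 18), (nat_lit 1, nat_lit 19), (nat_lit 1, nat_lit 20), (nat_lit 1, nat_lit 21), (nat_lit 1, nat_lit 22), (nat_lit 1, nat_lit 23), (nat_lit 1, nat_lit 24), (nat_lit 1, nat_lit 25), (nat_lit 1, nat_lit 26), (nat_lit 1, nat_lit 27), (nat_lit 1, nat_lit 28), (nat_lit 1, nat_lit 29), (nat_lit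 1, nat_lit 30), (nat_lit 1, nat_lit 31), (nat_lit 1, nat_lit 32), (nat_lit 1, nat_lit 33), (nat_lit 1, nat_lit 34), (nat_lit 1, nat_lit 35), (nat_lit 1, nat_lit 36), (nat_lit 0, nat_lit 1)]

lemma L37_eq : L37 = PL 37 := by decide

/-- normalised forms modulo 37 -/
def F37 : List (ℕ × ℕ) := [(nat_lit 0, nat_lit 2), (nat_lit 0, nat_lit 5), (nat_lit 0, nat_lit 6), (nat_lit 0, nat_lit 8), (nat_lit 0, nat_lit 13), (nat_lit 0, nat_lit 14), (nat_lit 0, nat_lit 15), (nat_lit 0, nat_lit 17), (nat_lit 0, nat_lit 18), (nat_lit 0, nat_lit 19), (nat_lit 0, nat_lit 20), (nat_lit 0, nat_lit 22), (nat_lit 0, nat_lit 23), (nat_lit 0, nat_lit 24), (nat_lit 0, nat_lit 29), (nat_lit 0, nat_lit 31), (nat_lit 0, nat_lit 32), (nat_lit 0, nat_lit 35), (nat_lit 1, nat_lit 4), (nat_lit 1, nat_lit 5), (nat_lit 1, nat_lit 6), (nat_lit 1, nat_lit 8), (nat_lit 1, nat_lit 9), (nat_lit 1, nat_lit 10), (nat_lit 1, nat_lit 11), (nat_lit 1, nat_lit 13), (nat_lit 1, nat_lit 14), (nat_lit 1, nat_lit 15), (nat_lit 1, nat_lit 20), (nat_lit 1, nat_lit 22), (nat_lit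 1, nat_lit 23), (nat_lit 1, nat_lit 26), (nat_lit 1, nat_lit 30), (nat_lit 1, nat_lit 33), (nat_lit 1, nat_lit 34), (nat_lit 1, nat_lit 36), (nat_lit 2, nat_lit 3), (nat_lit 2, nat_lit 6), (nat_lit 2, nat_lit 7), (nat_lit 2, nat_lit 9), (nat_lit 2, nat_lit 14), (nat_lit 2, nat_lit 15), (nat_lit 2, nat_lit 16), (nat_lit 2, nat_lit 18), (nat_lit 2, nat_lit 19), (nat_lit 2, nat_lit 20), (nat_lit 2, nat_lit 21), (nat_lit 2, nat_lit 23), (nat_lit 2, nat_lit 24), (nat_lit 2, nat_lit 25), (nat_lit 2, nat_lit 30), (nat_lit 2, nat_lit 32), (nat_lit 2, nat_lit 33), (nat_lit 2, nat_lit 36), (nat_lit 3, nat_lit 1), (nat_lit 3, nat_lit 6), (nat_lit 3, nat_lit 7), (nat_lit 3, nat_lit 8), (nat_lit 3, nat_lit 10), (nat_lit 3, nat_lit 11), (nat_lit 3, nat_lit 12), (nat_lit 3, nat_lit 13), (nat_lit 3, nat_lit 15), (nat_lit 3, nat_lit 16), (nat_lit 3, nat_lit 17), (nat_lit 3, nat_lit 22), (nat_lit 3, nat_lit 24), (nat_lit 3, nat_lit 25), (nat_lit 3, nat_lit 28), (nat_lit 3, nat_lit 32), (nat_lit 3, nat_lit 35), (nat_lit 3, nat_lit 36), (nat_lit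 4, nat_lit 2), (nat_lit 4, nat_lit 6), (nat_lit 4, nat_lit 9), (nat_lit 4, nat_lit 10), (nat_lit 4, nat_lit 12), (nat_lit 4, nat_lit 17), (nat_lit 4, nat_lit 18), (nat_lit 4, nat_lit 19), (nat_lit 4, nat_lit 21), (nat_lit 4, nat_lit 22), (nat_lit 4, nat_lit 23), (nat_lit 4, nat_lit 24), (nat_lit 4, nat_lit 26), (nat_lit 4, nat_lit 27), (nat_lit 4, nat_lit 28), (nat_lit 4, nat_lit 33), (nat_lit 4, nat_lit 35), (nat_lit 4, nat_lit 36), (nat_lit 5, nat_lit 2), (nat_lit 5, nat_lit 3), (nat_lit 5, nat_lit 5), (nat_lit 5, nat_lit 10), (nat_lit 5, nat_lit 11), (nat_lit 5, nat_lit 12), (nat_lit 5, nat_lit 14), (nat_lit 5, nat_lit 15), (nat_lit 5, nat_lit 16), (nat_lit 5, nat_lit 17), (nat_lit 5, nat_lit 19), (nat_lit 5, nat_lit 20), (nat_lit 5, nat_lit 21), (nat_lit 5, nat_lit 26), (nat_lit 5, nat_lit 28), (nat_lit 5, nat_lit 29), (nat_lit 5, nat_lit 32), (nat_lit 5, nat_lit 36), (nat_lit 6, nat_lit 1), (nat_lit 6, nat_lit 3), (nat_lit 6, nat_lit 4), (nat_lit 6, nat_lit 7), (nat_lit 6, nat_lit 11), (nat_lit 6, nat_lit 14), (nat_lit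 6, nat_lit 15), (nat_lit 6, nat_lit 17), (nat_lit 6, nat_lit 22), (nat_lit 6, nat_lit 23), (nat_lit 6, nat_lit 24), (nat_lit 6, nat_lit 26), (nat_lit 6, nat_lit 27), (nat_lit 6, nat_lit 28), (nat_lit 6, nat_lit 29), (nat_lit 6, nat_lit 31), (nat_lit 6, nat_lit 32), (nat_lit 6, nat_lit 33), (nat_lit 7, nat_lit 1), (nat_lit 7, nat_lit 5), (nat_lit 7, nat_lit 8), (nat_lit 7, nat_lit 9), (nat_lit 7, nat_lit 11), (nat_lit 7, nat_lit 16), (nat_lit 7, nat_lit 17), (nat_lit 7, nat_lit 18), (nat_lit 7, nat_lit 20), (nat_lit 7, nat_lit 21), (nat_lit 7, nat_lit 22), (nat_lit 7, nat_lit 23), (nat_lit 7, nat_lit 25), (nat_lit 7, nat_lit 26), (nat_lit 7, nat_lit 27), (nat_lit 7, nat_lit 32), (nat_lit 7, nat_lit 34), (nat_lit 7, nat_lit 35), (nat_lit 8, nat_lit 1), (nat_lit 8, nat_lit 2), (nat_lit 8, nat_lit 3), (nat_lit 8, nat_lit 8), (nat_lit 8, nat_lit 10), (nat_lit 8, nat_lit 11), (nat_lit 8, nat_lit 14), (nat_lit 8, nat_lit 18), (nat_lit 8, nat_lit 21), (nat_lit 8, nat_lit 22), (nat_lit 8, nat_lit 24), (nat_lit 8, nat_lit 29), (nat_lit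 8, nat_lit 30), (nat_lit 8, nat_lit 31), (nat_lit 8, nat_lit 33), (nat_lit 8, nat_lit 34), (nat_lit 8, nat_lit 35), (nat_lit 8, nat_lit 36), (nat_lit 9, nat_lit 3), (nat_lit 9, nat_lit 5), (nat_lit 9, nat_lit 6), (nat_lit 9, nat_lit 9), (nat_lit 9, nat_lit 13), (nat_lit 9, nat_lit 16), (nat_lit 9, nat_lit 17), (nat_lit 9, nat_lit 19), (nat_lit 9, nat_lit 24), (nat_lit 9, nat_lit 25), (nat_lit 9, nat_lit 26), (nat_lit 9, nat_lit 28), (nat_lit 9, nat_lit 29), (nat_lit 9, nat_lit 30), (nat_lit 9, nat_lit 31), (nat_lit 9, nat_lit 33), (nat_lit 9, nat_lit 34), (nat_lit 9, nat_lit 35), (nat_lit 10, nat_lit 1), (nat_lit 10, nat_lit 2), (nat_lit 10, nat_lit 3), (nat_lit 10, nat_lit 5), (nat_lit 10, nat_lit 6), (nat_lit 10, nat_lit 7), (nat_lit 10, nat_lit 8), (nat_lit 10, nat_lit 10), (nat_lit 10, nat_lit 11), (nat_lit 10, nat_lit 12), (nat_lit 10, nat_lit 17), (nat_lit 10, nat_lit 19), (nat_lit 10, nat_lit 20), (nat_lit 10, nat_lit 23), (nat_lit 10, nat_lit 27), (nat_lit 10, nat_lit 30), (nat_lit 10, nat_lit 31), (nat_lit 10, nat_lit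 33), (nat_lit 11, nat_lit 1), (nat_lit 11, nat_lit 2), (nat_lit 11, nat_lit 3), (nat_lit 11, nat_lit 4), (nat_lit 11, nat_lit 6), (nat_lit 11, nat_lit 7), (nat_lit 11, nat_lit 8), (nat_lit 11, nat_lit 13), (nat_lit 11, nat_lit 15), (nat_lit 11, nat_lit 16), (nat_lit 11, nat_lit 19), (nat_lit 11, nat_lit 23), (nat_lit 11, nat_lit 26), (nat_lit 11, nat_lit 27), (nat_lit 11, nat_lit 29), (nat_lit 11, nat_lit 34), (nat_lit 11, nat_lit 35), (nat_lit 11, nat_lit 36), (nat_lit 12, nat_lit 1), (nat_lit 12, nat_lit 4), (nat_lit 12, nat_lit 5), (nat_lit 12, nat_lit 7), (nat_lit 12, nat_lit 12), (nat_lit 12, nat_lit 13), (nat_lit 12, nat_lit 14), (nat_lit 12, nat_lit 16), (nat_lit 12, nat_lit 17), (nat_lit 12, nat_lit 18), (nat_lit 12, nat_lit 19), (nat_lit 12, nat_lit 21), (nat_lit 12, nat_lit 22), (nat_lit 12, nat_lit 23), (nat_lit 12, nat_lit 28), (nat_lit 12, nat_lit 30), (nat_lit 12, nat_lit 31), (nat_lit 12, nat_lit 34), (nat_lit 13, nat_lit 1), (nat_lit 13, nat_lit 2), (nat_lit 13, nat_lit 4), (nat_lit 13, nat_lit 9), (nat_lit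 13, nat_lit 10), (nat_lit 13, nat_lit 11), (nat_lit 13, nat_lit 13), (nat_lit 13, nat_lit 14), (nat_lit 13, nat_lit 15), (nat_lit 13, nat_lit 16), (nat_lit 13, nat_lit 18), (nat_lit 13, nat_lit 19), (nat_lit 13, nat_lit 20), (nat_lit 13, nat_lit 25), (nat_lit 13, nat_lit 27), (nat_lit 13, nat_lit 28), (nat_lit 13, nat_lit 31), (nat_lit 13, nat_lit 35), (nat_lit 14, nat_lit 4), (nat_lit 14, nat_lit 6), (nat_lit 14, nat_lit 7), (nat_lit 14, nat_lit 10), (nat_lit 14, nat_lit 14), (nat_lit 14, nat_lit 17), (nat_lit 14, nat_lit 18), (nat_lit 14, nat_lit 20), (nat_lit 14, nat_lit 25), (nat_lit 14, nat_lit 26), (nat_lit 14, nat_lit 27), (nat_lit 14, nat_lit 29), (nat_lit 14, nat_lit 30), (nat_lit 14, nat_lit 31), (nat_lit 14, nat_lit 32), (nat_lit 14, nat_lit 34), (nat_lit 14, nat_lit 35), (nat_lit 14, nat_lit 36), (nat_lit 15, nat_lit 2), (nat_lit 15, nat_lit 4), (nat_lit 15, nat_lit 5), (nat_lit 15, nat_lit 8), (nat_lit 15, nat_lit 12), (nat_lit 15, nat_lit 15), (nat_lit 15, nat_lit 16), (nat_lit 15, nat_lit 18), (nat_lit 15,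 nat_lit 23), (nat_lit 15, nat_lit 24), (nat_lit 15, nat_lit 25), (nat_lit 15, nat_lit 27), (nat_lit 15, nat_lit 28), (nat_lit 15, nat_lit 29), (nat_lit 15, nat_lit 30), (nat_lit 15, nat_lit 32), (nat_lit 15, nat_lit 33), (nat_lit 15, nat_lit 34), (nat_lit 16, nat_lit 3), (nat_lit 16, nat_lit 4), (nat_lit 16, nat_lit 5), (nat_lit 16, nat_lit 7), (nat_lit 16, nat_lit 8), (nat_lit 16, nat_lit 9), (nat_lit 16, nat_lit 10), (nat_lit 16, nat_lit 12), (nat_lit 16, nat_lit 13), (nat_lit 16, nat_lit 14), (nat_lit 16, nat_lit 19), (nat_lit 16, nat_lit 21), (nat_lit 16, nat_lit 22), (nat_lit 16, nat_lit 25), (nat_lit 16, nat_lit 29), (nat_lit 16, nat_lit 32), (nat_lit 16, nat_lit 33), (nat_lit 16, nat_lit 35), (nat_lit 17, nat_lit 2), (nat_lit 17, nat_lit 3), (nat_lit 17, nat_lit 4), (nat_lit 17, nat_lit 6), (nat_lit 17, nat_lit 7), (nat_lit 17, nat_lit 8), (nat_lit 17, nat_lit 9), (nat_lit 17, nat_lit 11), (nat_lit 17, nat_lit 12), (nat_lit 17, nat_lit 13), (nat_lit 17, nat_lit 18), (nat_lit 17, nat_lit 20), (nat_lit 17, nat_lit 21),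 (nat_lit 17, nat_lit 24), (nat_lit 17, nat_lit 28), (nat_lit 17, nat_lit 31), (nat_lit 17, nat_lit 32), (nat_lit 17, nat_lit 34), (nat_lit 18, nat_lit 1), (nat_lit 18, nat_lit 2), (nat_lit 18, nat_lit 5), (nat_lit 18, nat_lit 9), (nat_lit 18, nat_lit 12), (nat_lit 18, nat_lit 13), (nat_lit 18, nat_lit 15), (nat_lit 18, nat_lit 20), (nat_lit 18, nat_lit 21), (nat_lit 18, nat_lit 22), (nat_lit 18, nat_lit 24), (nat_lit 18, nat_lit 25), (nat_lit 18, nat_lit 26), (nat_lit 18, nat_lit 27), (nat_lit 18, nat_lit 29), (nat_lit 18, nat_lit 30), (nat_lit 18, nat_lit 31), (nat_lit 18, nat_lit 36), (nat_lit 19, nat_lit 1), (nat_lit 19, nat_lit 2), (nat_lit 19, nat_lit 5), (nat_lit 19, nat_lit 9), (nat_lit 19, nat_lit 12), (nat_lit 19, nat_lit 13), (nat_lit 19, nat_lit 15), (nat_lit 19, nat_lit 20), (nat_lit 19, nat_lit 21), (nat_lit 19, nat_lit 22), (nat_lit 19, nat_lit 24), (nat_lit 19, nat_lit 25), (nat_lit 19, nat_lit 26), (nat_lit 19, nat_lit 27), (nat_lit 19, nat_lit 29), (nat_lit 19, nat_lit 30), (nat_lit 19, nat_lit 31), (nat_lit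 19, nat_lit 36), (nat_lit 20, nat_lit 2), (nat_lit 20, nat_lit 3), (nat_lit 20, nat_lit 4), (nat_lit 20, nat_lit 6), (nat_lit 20, nat_lit 7), (nat_lit 20, nat_lit 8), (nat_lit 20, nat_lit 9), (nat_lit 20, nat_lit 11), (nat_lit 20, nat_lit 12), (nat_lit 20, nat_lit 13), (nat_lit 20, nat_lit 18), (nat_lit 20, nat_lit 20), (nat_lit 20, nat_lit 21), (nat_lit 20, nat_lit 24), (nat_lit 20, nat_lit 28), (nat_lit 20, nat_lit 31), (nat_lit 20, nat_lit 32), (nat_lit 20, nat_lit 34), (nat_lit 21, nat_lit 3), (nat_lit 21, nat_lit 4), (nat_lit 21, nat_lit 5), (nat_lit 21, nat_lit 7), (nat_lit 21, nat_lit 8), (nat_lit 21, nat_lit 9), (nat_lit 21, nat_lit 10), (nat_lit 21, nat_lit 12), (nat_lit 21, nat_lit 13), (nat_lit 21, nat_lit 14), (nat_lit 21, nat_lit 19), (nat_lit 21, nat_lit 21), (nat_lit 21, nat_lit 22), (nat_lit 21, nat_lit 25), (nat_lit 21, nat_lit 29), (nat_lit 21, nat_lit 32), (nat_lit 21, nat_lit 33), (nat_lit 21, nat_lit 35), (nat_lit 22, nat_lit 2), (nat_lit 22, nat_lit 4), (nat_lit 22, nat_lit 5), (nat_lit 22, nat_lit 8),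 (nat_lit 22, nat_lit 12), (nat_lit 22, nat_lit 15), (nat_lit 22, nat_lit 16), (nat_lit 22, nat_lit 18), (nat_lit 22, nat_lit 23), (nat_lit 22, nat_lit 24), (nat_lit 22, nat_lit 25), (nat_lit 22, nat_lit 27), (nat_lit 22, nat_lit 28), (nat_lit 22, nat_lit 29), (nat_lit 22, nat_lit 30), (nat_lit 22, nat_lit 32), (nat_lit 22, nat_lit 33), (nat_lit 22, nat_lit 34), (nat_lit 23, nat_lit 4), (nat_lit 23, nat_lit 6), (nat_lit 23, nat_lit 7), (nat_lit 23, nat_lit 10), (nat_lit 23, nat_lit 14), (nat_lit 23, nat_lit 17), (nat_lit 23, nat_lit 18), (nat_lit 23, nat_lit 20), (nat_lit 23, nat_lit 25), (nat_lit 23, nat_lit 26), (nat_lit 23, nat_lit 27), (nat_lit 23, nat_lit 29), (nat_lit 23, nat_lit 30), (nat_lit 23, nat_lit 31), (nat_lit 23, nat_lit 32), (nat_lit 23, nat_lit 34), (nat_lit 23, nat_lit 35), (nat_lit 23, nat_lit 36), (nat_lit 24, nat_lit 1), (nat_lit 24, nat_lit 2), (nat_lit 24, nat_lit 4), (nat_lit 24, nat_lit 9), (nat_lit 24, nat_lit 10), (nat_lit 24, nat_lit 11), (nat_lit 24, nat_lit 13), (nat_lit 24, nat_lit 14), (nat_lit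 24, nat_lit 15), (nat_lit 24, nat_lit 16), (nat_lit 24, nat_lit 18), (nat_lit 24, nat_lit 19), (nat_lit 24, nat_lit 20), (nat_lit 24, nat_lit 25), (nat_lit 24, nat_lit 27), (nat_lit 24, nat_lit 28), (nat_lit 24, nat_lit 31), (nat_lit 24, nat_lit 35), (nat_lit 25, nat_lit 1), (nat_lit 25, nat_lit 4), (nat_lit 25, nat_lit 5), (nat_lit 25, nat_lit 7), (nat_lit 25, nat_lit 12), (nat_lit 25, nat_lit 13), (nat_lit 25, nat_lit 14), (nat_lit 25, nat_lit 16), (nat_lit 25, nat_lit 17), (nat_lit 25, nat_lit 18), (nat_lit 25, nat_lit 19), (nat_lit 25, nat_lit 21), (nat_lit 25, nat_lit 22), (nat_lit 25, nat_lit 23), (nat_lit 25, nat_lit 28), (nat_lit 25, nat_lit 30), (nat_lit 25, nat_lit 31), (nat_lit 25, nat_lit 34), (nat_lit 26, nat_lit 1), (nat_lit 26, nat_lit 2), (nat_lit 26, nat_lit 3), (nat_lit 26, nat_lit 4), (nat_lit 26, nat_lit 6), (nat_lit 26, nat_lit 7), (nat_lit 26, nat_lit 8), (nat_lit 26, nat_lit 13), (nat_lit 26, nat_lit 15), (nat_lit 26, nat_lit 16), (nat_lit 26, nat_lit 19), (nat_lit 26, nat_lit 23), (nat_lit 26, nat_lit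 26), (nat_lit 26, nat_lit 27), (nat_lit 26, nat_lit 29), (nat_lit 26, nat_lit 34), (nat_lit 26, nat_lit 35), (nat_lit 26, nat_lit 36), (nat_lit 27, nat_lit 1), (nat_lit 27, nat_lit 2), (nat_lit 27, nat_lit 3), (nat_lit 27, nat_lit 5), (nat_lit 27, nat_lit 6), (nat_lit 27, nat_lit 7), (nat_lit 27, nat_lit 8), (nat_lit 27, nat_lit 10), (nat_lit 27, nat_lit 11), (nat_lit 27, nat_lit 12), (nat_lit 27, nat_lit 17), (nat_lit 27, nat_lit 19), (nat_lit 27, nat_lit 20), (nat_lit 27, nat_lit 23), (nat_lit 27, nat_lit 27), (nat_lit 27, nat_lit 30), (nat_lit 27, nat_lit 31), (nat_lit 27, nat_lit 33), (nat_lit 28, nat_lit 3), (nat_lit 28, nat_lit 5), (nat_lit 28, nat_lit 6), (nat_lit 28, nat_lit 9), (nat_lit 28, nat_lit 13), (nat_lit 28, nat_lit 16), (nat_lit 28, nat_lit 17), (nat_lit 28, nat_lit 19), (nat_lit 28, nat_lit 24), (nat_lit 28, nat_lit 25), (nat_lit 28, nat_lit 26), (nat_lit 28, nat_lit 28), (nat_lit 28, nat_lit 29), (nat_lit 28, nat_lit 30), (nat_lit 28, nat_lit 31), (nat_lit 28, nat_lit 33), (nat_lit 28, nat_lit 34), (nat_lit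 28, nat_lit 35), (nat_lit 29, nat_lit 1), (nat_lit 29, nat_lit 2), (nat_lit 29, nat_lit 3), (nat_lit 29, nat_lit 8), (nat_lit 29, nat_lit 10), (nat_lit 29, nat_lit 11), (nat_lit 29, nat_lit 14), (nat_lit 29, nat_lit 18), (nat_lit 29, nat_lit 21), (nat_lit 29, nat_lit 22), (nat_lit 29, nat_lit 24), (nat_lit 29, nat_lit 29), (nat_lit 29, nat_lit 30), (nat_lit 29, nat_lit 31), (nat_lit 29, nat_lit 33), (nat_lit 29, nat_lit 34), (nat_lit 29, nat_lit 35), (nat_lit 29, nat_lit 36), (nat_lit 30, nat_lit 1), (nat_lit 30, nat_lit 5), (nat_lit 30, nat_lit 8), (nat_lit 30, nat_lit 9), (nat_lit 30, nat_lit 11), (nat_lit 30, nat_lit 16), (nat_lit 30, nat_lit 17), (nat_lit 30, nat_lit 18), (nat_lit 30, nat_lit 20), (nat_lit 30, nat_lit 21), (nat_lit 30, nat_lit 22), (nat_lit 30, nat_lit 23), (nat_lit 30, nat_lit 25), (nat_lit 30, nat_lit 26), (nat_lit 30, nat_lit 27), (nat_lit 30, nat_lit 32), (nat_lit 30, nat_lit 34), (nat_lit 30, nat_lit 35), (nat_lit 31, nat_lit 1), (nat_lit 31, nat_lit 3), (nat_lit 31, nat_lit 4), (nat_lit 31, nat_lit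 7), (nat_lit 31, nat_lit 11), (nat_lit 31, nat_lit 14), (nat_lit 31, nat_lit 15), (nat_lit 31, nat_lit 17), (nat_lit 31, nat_lit 22), (nat_lit 31, nat_lit 23), (nat_lit 31, nat_lit 24), (nat_lit 31, nat_lit 26), (nat_lit 31, nat_lit 27), (nat_lit 31, nat_lit 28), (nat_lit 31, nat_lit 29), (nat_lit 31, nat_lit 31), (nat_lit 31, nat_lit 32), (nat_lit 31, nat_lit 33), (nat_lit 32, nat_lit 2), (nat_lit 32, nat_lit 3), (nat_lit 32, nat_lit 5), (nat_lit 32, nat_lit 10), (nat_lit 32, nat_lit 11), (nat_lit 32, nat_lit 12), (nat_lit 32, nat_lit 14), (nat_lit 32, nat_lit 15), (nat_lit 32, nat_lit 16), (nat_lit 32, nat_lit 17), (nat_lit 32, nat_lit 19), (nat_lit 32, nat_lit 20), (nat_lit 32, nat_lit 21), (nat_lit 32, nat_lit 26), (nat_lit 32, nat_lit 28), (nat_lit 32, nat_lit 29), (nat_lit 32, nat_lit 32), (nat_lit 32, nat_lit 36), (nat_lit 33, nat_lit 2), (nat_lit 33, nat_lit 6), (nat_lit 33, nat_lit 9), (nat_lit 33, nat_lit 10), (nat_lit 33, nat_lit 12), (nat_lit 33, nat_lit 17), (nat_lit 33, nat_lit 18), (nat_lit 33, nat_lit 19),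 (nat_lit 33, nat_lit 21), (nat_lit 33, nat_lit 22), (nat_lit 33, nat_lit 23), (nat_lit 33, nat_lit 24), (nat_lit 33, nat_lit 26), (nat_lit 33, nat_lit 27), (nat_lit 33, nat_lit 28), (nat_lit 33, nat_lit 33), (nat_lit 33, nat_lit 35), (nat_lit 33, nat_lit 36), (nat_lit 34, nat_lit 1), (nat_lit 34, nat_lit 6), (nat_lit 34, nat_lit 7), (nat_lit 34, nat_lit 8), (nat_lit 34, nat_lit 10), (nat_lit 34, nat_lit 11), (nat_lit 34, nat_lit 12), (nat_lit 34, nat_lit 13), (nat_lit 34, nat_lit 15), (nat_lit 34, nat_lit 16), (nat_lit 34, nat_lit 17), (nat_lit 34, nat_lit 22), (nat_lit 34, nat_lit 24), (nat_lit 34, nat_lit 25), (nat_lit 34, nat_lit 28), (nat_lit 34, nat_lit 32), (nat_lit 34, nat_lit 35), (nat_lit 34, nat_lit 36), (nat_lit 35, nat_lit 3), (nat_lit 35, nat_lit 6), (nat_lit 35, nat_lit 7), (nat_lit 35, nat_lit 9), (nat_lit 35, nat_lit 14), (nat_lit 35, nat_lit 15), (nat_lit 35, nat_lit 16), (nat_lit 35, nat_lit 18), (nat_lit 35, nat_lit 19), (nat_lit 35, nat_lit 20), (nat_lit 35, nat_lit 21), (nat_lit 35, nat_lit 23), (nat_lit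 35, nat_lit 24), (nat_lit 35, nat_lit 25), (nat_lit 35, nat_lit 30), (nat_lit 35, nat_lit 32), (nat_lit 35, nat_lit 33), (nat_lit 35, nat_lit 36), (nat_lit 36, nat_lit 4), (nat_lit 36, nat_lit 5), (nat_lit 36, nat_lit 6), (nat_lit 36, nat_lit 8), (nat_lit 36, nat_lit 9), (nat_lit 36, nat_lit 10), (nat_lit 36, nat_lit 11), (nat_lit 36, nat_lit 13), (nat_lit 36, nat_lit 14), (nat_lit 36, nat_lit 15), (nat_lit 36, nat_lit 20), (nat_lit 36, nat_lit 22), (nat_lit 36, nat_lit 23), (nat_lit 36, nat_lit 26), (nat_lit 36, nat_lit 30), (nat_lit 36, nat_lit 33), (nat_lit 36, nat_lit 34), (nat_lit 36, nat_lit 36)]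
/-- positions -/
def PT37 : ℕ := nat_lit 58528411687502787544511411014557507861666645337749438255564040108935843085087236087091090231017610531464424491134245672808245082720395482769960211362750325574377841750150477889766610026327453569263145987410467711951547797759518341061692477396315774331361134330821240158566323200086968008782750350085899219575671052467561511849134456714324190121327901801617689747612034129668386368120212507283985559100100898121758506335315378390099098872386714352571073574875436273385723494611539160349474895394768437141993715128414257134938686399861343228336262745869569797135824370300999893340793521294812957308546534911379918145296576403733304517322152578876739729468974629350049066487896752285710549543229980291159189894824921744847869447718176336807069562997883001233491362055670119768649380766487783150438907943630140384042701779679741251418999507265121980101847017604093248643056081173647316396258485948743631787480022827576664288985899953321951737627656970916895609603158911719474312214076158774336938934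06806542264161597883880054034588376198411706317115496299895175491171817728412709011153517449929610161582655497302158123315818030108107723599382049670742619465323905771663795429037464540847414525284593045305087685171406991987404259060121298985919582263216601424346257153379791972593502674877533971198043357013667580820125467411392192828424060505364828709120005104433055190545062106066820704644100463646753083294393442097828775503687223707490649006144466132855785440427925132616702068741864444778770598601634553197071775260340467957923806760979919619047644897158692037085088603975732366707606898983513414556874520554350196058542818033846144857475205193632431198509664706937175076861875198845235915938621444908904184854505588447612567066528491078604369373880387288291417509643588209139420516714462557831065456271769167613914429081209604007945481172467883142372404587768387273834690793127625930128743353135950878085516818114567738574137080470014789525909499936177024406951843579044367502425152939088140326262683228980754361197775851927703739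39488444711044498087558361545521153774817010934687406182275746971851351516868428626159456056577886486396494373479237250908078894170199279369378534659764776680698615576987393806497818112697035093905567688556360716360222923811619042076561603626734676204496357534273822397230094272648336555267203666978895801107838297087636536570804462416588896125302596110579341863308010125539646446678292332150403051529364112137220400148115421063457080229520916309642408874305911555387246871793614853293722353253765190607435301431864390372402617591747627319695920369422904049764050950083603879931859964637765860992242987173007501486413228459246659330690127669350760230777287212156991727432780626047177872758917608924580025321744393971418189599887082035081341382897696344716068457312200211210347880404769235413682680132213696320377724305426628022900482336691717497908231965597314723997443769014987899235015881131265224136363518647532282433457021296656623878036056453561192103623266780952637799329752570000658884440231865230640120539331146855908884319280346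06075747843183152265638156716419971696536519146212706735849012270368072719813548090292021735222866016510606921452740632127321718404299943277612405476531176271500073727384521336045123051741718888422322965444458582028503368482908932895072181951602086994986732205113734979912706896204156057473923979980344830292616255303830330196106863897513313081130854681382920062602676056948571330375376625732489936008668534412574181326945686449964885483532912625241065678038463316651986577778041687839661771383663200272920084951847991476673127389351071163122860937894377563697534589607715499792036828473496108509501894832841479400707807583595668425863238817088378320377825633945037405288900680940509897830933110718236253609783438879194089714879583441837788750400145046911752889513369380033678008592488413260172617041201535499047894059726702692865873007866496216778020312336364241305097512562992183454683008125501416741300954939930120140328348919954516852852420940256586138277098445185183839987153602804694891863602528702074458653685053913458900708021785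59180538853294180555712797398246218672096266879303393393178989699627628375184968661625541021716812815463553660798173063032532278643922826677051306007835383149199927920783302029989820586176970512266525304272607306380840611189789510069028800611085814472415742477629640625583605544661260492888419750250340989217927800027023415742784674389027408455619755937580009051820945134366200220342793196875720437553909832606404461295911667842905669244230747379896313465929431857033261262991599832083826838910630843812530185777988720415229331231802445134712013637287260577327367589491547351005329476536312958683833760607421976759380986280266494663037597788539560362949919425142854864490867692114344062701480610246031448171559194048338971482248545427022505498042412956017374040933021372707680518186328250970635795253445994197336546746674256228658357872926570320722609615955237072124078687929807771516284829654100998847044196050413003478844151667477242756879856930896499064835444142635878981782189574449919330858175343320714344690704976509755495144178848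220298063061455138985472605391241318466029702194793284823492800899224969468600461409723567215691781053258632115943583702850077595684207927560166291367260811184894427715433604942674227299496505057623945026831578008115617784171347373880875402502968241660257683238034209137903162932042056245960930227656574427386692894854711112719219531094712428795118923767515933213852645602699214481803515921508318708243145324056148984258808795108105635960271933289840394051051552047160462771649306838538230590542854581344350308042471832562555938453952650759812120719167246577136562985175904213975583084978779378884494236717014667412990112706783609184939285159440051869132460895191822131998084909450563472107981489474498105519004365395932356063882305577378904217248616953018677551983615005488493775028458350113530648369585572764164421025817713480627103536751049560824042596819417309416449215871604963894812492268819300293946059462022313675076007267354795070103952583456106673227144408023161755653313413492232093379147383413923279434293250713412994379641975391595444247203930946808673704382251924726638287546520156810891615781863932579254184976201620842537877139124777439926007630419981867179420735725904075036358442522875642634968727410720857715023398388720978497657636188676737952698595606524245376764823466166886566804112643613252556995956186804953054616476698413242753243291533918520465063212714563113126993640836960836909186411367219657812953104612327875642654720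

lemma comp37 : CompG 37 (posW 37 35 PT37) F37 (adP 37) :=
  compCkW_spec (by norm_num) (by decide +kernel : compCkW (nat_lit 37) (nat_lit 35) PT37 F37 (adP (nat_lit 37)) = true)

end Pool.Agent.PSX.Ev
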