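import Pool.Agent.PSX.Ev8TrA

/-!
Kernel checks for the first family, length eight.
-/

namespace Pool.Agent.PSX.Ev

open Pool.Agent.Lib_helper5 Pool.Agent.Lib_helper5.LK

lemma ck8_0 : st8_7 (nat_lit 0) = true := by decide +kernel
lemma ck8_1 : st8_7 (nat_lit 1) = true := by decide +kernel
lemma ck8_2 : st8_7 (nat_lit 2) = true := by decide +kernel
lemma ck8_3 : st8_7 (nat_lit 3) = true := by decide +kernel
lemma ck8_4 : st8_7 (nat_lit 4) = true := by decide +kernel
lemma ck8_5 : st8_7 (nat_lit 5) = true := by decide +kernel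
lemma ck8_6 : st8_7 (nat_lit 6) = true := by decide +kernel

lemma ck8 (a : ℕ) (h : a < 7) : st8_7 a = true := by
  interval_cases a
  · exact ck8_0
  · exact ck8_1
  · exact ck8_2
  · exact ck8_3
  · exact ck8_4
  · exact ck8_5
  · exact ck8_6

/-- **elimination for the first family, length eight** -/
theorem no8 {Q : ℕ} {D : ℤ} {A v : ℤ} (S : ESys Q D (J8 A v)) (hQ : 72407335 ∣ Q) : False :=
  st8_7_spec S hQ (ck8 (rs 7 A) (rs_lt A))

end Pool.Agent.PSX.Ev
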