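import Pool.Agent.PSX.Ev8Small

/-!
Period eight, even discriminants: the final theorem.
-/

namespace Pool.Agent.PSX

open scoped NumberField
open Function Pool.Agent.LibH4 Pool.Agent.Lib_helper5 Pool.Agent.LibH4.CFO

/-- the eight fields -/
def l8e : List ℕ := [31, 71, 158, 206, 383, 503, 743, 983]

lemma l8e_sub : ∀ d ∈ l8e, d ≤ 503 → d ∈ SU.lU := by decide +kernel

lemma l8e_mod : ∀ d ∈ l8e, d % 4 = 2 ∨ d % 4 = 3 := by decide

lemma l8e_sqfree : ∀ d ∈ l8e, 1 < d ∧ Squarefree d := by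
  intro d h
  simp only [l8e, List.mem_cons, List.not_mem_nil, or_false] at h
  rcases h with rfl | rfl | rfl | rfl | rfl | rfl | rfl | rfl
  · exact ⟨by norm_num, (Nat.prime_iff.1 (by norm_num)).squarefree⟩
  · exact ⟨by norm_num, (Nat.prime_iff.1 (by norm_num)).squarefree⟩
  · refine ⟨by norm_num, ?_⟩
    rw [show 158 = 2 * 79 by norm_num, Nat.squarefree_mul (by norm_num)]
    exact ⟨(Nat.prime_iff.1 (by norm_num)).squarefree, (Nat.prime_iff.1 (by norm_num)).squarefree⟩
  · refine ⟨by norm_num, ?_⟩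
    rw [show 206 = 2 * 103 by norm_num, Nat.squarefree_mul (by norm_num)]
    exact ⟨(Nat.prime_iff.1 (by norm_num)).squarefree, (Nat.prime_iff.1 (by norm_num)).squarefree⟩
  · exact ⟨by norm_num, (Nat.prime_iff.1 (by norm_num)).squarefree⟩
  · exact ⟨by norm_num, (Nat.prime_iff.1 (by norm_num)).squarefree⟩
  · exact ⟨by norm_num, (Nat.prime_iff.1 (by norm_num)).squarefree⟩
  · exact ⟨by norm_num, (Nat.prime_iff.1 (by norm_num)).squarefree⟩

/-- **the eight fields have class number one and period eight** -/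
theorem fields8e {d : ℕ} (h : d ∈ l8e) : 1 < d ∧ Squarefree d ∧
    minimalPeriod gsh (gsh (omg d)) = 8 ∧ UniqueFactorizationMonoid (𝓞 (KQ d)) := by
  obtain ⟨h1, hsq⟩ := l8e_sqfree d h
  refine ⟨h1, hsq, ?_, ?_⟩
  · simp only [l8e, List.mem_cons, List.not_mem_nil, or_false] at h
    rcases h with rfl | rfl | rfl | rfl | rfl | rfl | rfl | rfl
    · exact UP.period_of_chk (t := 11) (B := 10) (by decide +kernel) h1 hsq
    · exact UP.period_of_chk (t := 16) (B := 16) (by decide +kernel) h1 hsq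
    · exact UP.period_of_chk (t := 25) (B := 24) (by decide +kernel) h1 hsq
    · exact UP.period_of_chk (t := 28) (B := 28) (by decide +kernel) h1 hsq
    · exact UP.period_of_chk (t := 39) (B := 38) (by decide +kernel) h1 hsq
    · exact UP.period_of_chk (t := 44) (B := 44) (by decide +kernel) h1 hsq
    · exact UP.period_of_chk (t := 54) (B := 54) (by decide +kernel) h1 hsq
    · exact UP.period_of_chk (t := 62) (B := 62) (by decide +kernel) h1 hsq
  · simp only [l8e, List.mem_cons, List.not_mem_nil, or_false] at h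
    rcases h with rfl | rfl | rfl | rfl | rfl | rfl | rfl | rfl
    · exact CW.ufd_of_chkE (W := [(2, 39, 7), (3, 11, 2), (5, 6, 1)]) (by decide +kernel) hsq h1
    · exact CW.ufd_of_chkE (W := [(2, 59, 7), (5, 17, 2), (7, 8, 1)]) (by decide +kernel) hsq h1
    · exact CW.ufd_of_chkE (W := [(2, 88, 7), (7, 25, 2), (11, 13, 1)]) (by decide +kernel) hsq h1
    · exact CW.ufd_of_chkE (W := [(2, 244, 17), (5, 43, 3)]) (by decide +kernel) hsq h1
    · exact CW.ufd_of_chkE (W := [(2, 137, 7), (11, 39, 2), (17, 20, 1)]) (by decide +kernel) hsq h1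
    · exact CW.ufd_of_chkE (W := [(2, 157, 7), (13, 45, 2), (19, 22, 1)]) (by decide +kernel) hsq h1
    · exact CW.ufd_of_chkE (W := [(2, 845, 31), (7, 109, 4)]) (by decide +kernel) hsq h1
    · exact CW.ufd_of_chkE (W := [(2, 533, 17), (11, 94, 3)]) (by decide +kernel) hsq h1

/-- class number one and cycles of length eight, even discriminants -/
theorem par8_even {a b c e B : ℕ} {m r q p : ℤ} (h : E8.Par a b c e B m r q p)
    (hB2 : B % 2 = 0) {d : ℕ} (hd : 4 * (d : ℤ) = (B : ℤ) ^ 2 + 4 * m)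
    (hd4 : d % 4 = 2 ∨ d % 4 = 3)
    [IsDomain (QuadraticAlgebra ℤ m (B : ℤ))]
    [UniqueFactorizationMonoid (QuadraticAlgebra ℤ m (B : ℤ))] : d ∈ l8e := by
  have hp2 := E8.eq_two h hB2
  rcases E8.even_families h hB2 hp2 with ⟨A, v, hA, hv, f1, f2, f3, f4, f5, f6, f7, f8⟩ |
    ⟨k, hk, f1, f2, f3, f4, f5, f6, f7, f8⟩
  · have h19 := Ev.small_A h hp2 hd hd4 hA hv f1 f2 f3 f4 f5 f6 f7 f8
    have hd' : (d : ℤ) = ((2 * A * A - 1) * v - A) ^ 2 + 2 * (2 * A * v - 1) := by
      rw [f5, f7] at hd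
      linarith [hd, show (2 * ((2 * A * A - 1) * v - A)) ^ 2 =
        4 * ((2 * A * A - 1) * v - A) ^ 2 by ring]
    have hr' : q < r := by
      rw [f6, f8]
      have h1 : 0 ≤ 4 * A * v * (A - 2) := by
        apply mul_nonneg _ (by linarith)
        nlinarith
      rcases eq_or_lt_of_le hA with h2 | h2
      · rw [← h2]; nlinarith
      · nlinarith [mul_pos (show (0 : ℤ) < A by linarith) (show (0 : ℤ) < v by linarith)]
    have hq1 := h.hq
    rcases Ev.list_A hA hv h19 hd' (fun l hl hl2 hlt =>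
      E8.inert' h hp2 hd l hl hl2 (by omega) (by omega) (by omega)) with h6 | ⟨h6, h7⟩
    · have h8 : d = 31 ∨ d = 158 ∨ d = 206 ∨ d = 383 ∨ d = 743 ∨ d = 983 := by omega
      rcases h8 with rfl | rfl | rfl | rfl | rfl | rfl <;> decide
    · exfalso
      subst h6 h7
      exact Ev.no31 h (by omega) f2 (by omega) (by omega) (by omega) (by omega) (by omega)
        (by omega) hp2
  · have h4 := Ev.small_B h hp2 hd hd4 f1 f2 f3 f4 f5 f6 f7 f8
    have hd' : (d : ℤ) = (1 + 7 * k) ^ 2 + (1 + 6 * k) := by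
      rw [f5, f6] at hd
      linarith [hd, show (2 + 14 * k) ^ 2 = 4 * (1 + 7 * k) ^ 2 by ring]
    have h6 := Ev.list_B hk h4 hd' (fun l hl hl2 hlt =>
      E8.inert' h hp2 hd l hl hl2 (by omega) (by omega) (by omega))
    have h8 : d = 71 ∨ d = 503 := by omega
    rcases h8 with rfl | rfl <;> decide

/-- **class number one and period eight, `d ≡ 2, 3` modulo `4`** -/
theorem eight_even_iff (d : ℕ) (h1 : 1 < d) (hsq : Squarefree d) (hd4 : d % 4 ≠ 1) :
    (minimalPeriod gsh (gsh (omg d)) = 8 ∧ UniqueFactorizationMonoid (𝓞 (KQ d))) ↔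
      d ∈ l8e := by
  constructor
  · rintro ⟨hper, hU⟩
    obtain ⟨a, b, c, e, B, m, r, q, p, hP, ⟨h4, hd, hB⟩ | ⟨h4, hd, hB⟩⟩ :=
      exists_par_eight d h1 hsq hper
    · exact absurd h4 hd4
    · obtain ⟨ε⟩ := exists_equiv_QI_even hd h4 (by exact_mod_cast hB)
      have e' := ε.symm.trans (eqvO hsq h1)
      have i1 : IsDomain (QuadraticAlgebra ℤ m (B : ℤ)) := e'.toMulEquiv.isDomain
      have i2 : UniqueFactorizationMonoid (QuadraticAlgebra ℤ m (B : ℤ)) :=
        e'.symm.toMulEquiv.uniqueFactorizationMonoid hU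
      have h40 : d % 4 ≠ 0 := by
        intro h0
        have h6 : 2 * 2 ∣ d := Nat.dvd_of_mod_eq_zero h0
        have h7 := hsq 2 h6
        rw [Nat.isUnit_iff] at h7
        omega
      exact par8_even hP hB hd (by omega)
  · intro h
    obtain ⟨-, -, p1, p2⟩ := fields8e h
    exact ⟨p1, p2⟩

end Pool.Agent.PSX
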