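import Pool.Agent.PSX.EvKer

/-!
Evaluation of the relations on classes of parameters: cycles of length eight.
-/

namespace Pool.Agent.PSX.Ev

open Pool.Agent.LibH4 Pool.Agent.LibH4.Ker
open Pool.Agent.Lib_helper5 Pool.Agent.Lib_helper5.LK Pool.Agent.Lib_helper5.TB

/-- the trivial component -/
def o8 : List (ℕ × ℕ) := [(nat_lit 0, nat_lit 0), (nat_lit 0, nat_lit 0), (nat_lit 0, nat_lit 0),
  (nat_lit 0, nat_lit 0), (nat_lit 0, nat_lit 0), (nat_lit 0, nat_lit 0), (nat_lit 0, nat_lit 0),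
  (nat_lit 0, nat_lit 0)]

lemma o8_eq {J : List Fm} (h : J.length = 8) : J.map (cp 1 (pos 1 0 PT1)) = o8 := by
  have : J.map (cp 1 (pos 1 0 PT1)) = J.map fun _ => (0, 0) := by
    apply List.map_congr_left
    intro j _
    exact cp_one j
  rw [this, List.map_const', h]
  rfl

/-! ### the first family -/

/-- `s = 2 A v - 1` -/
def sA (A v : ℤ) : ℤ := 2 * A * v - 1
/-- `t = (2 A ^ 2 - 1) v - A` -/
def tA (A v : ℤ) : ℤ := (2 * A * A - 1) * v - A
/-- the third norm -/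
def uA (A v : ℤ) : ℤ := (4 * A - 3) * sA A v - 2 * tA A v
/-- middle coefficient -/
def gA (A v : ℤ) : ℤ := 2 * (A - 1) * (2 * sA A v) - 2 * tA A v
/-- middle coefficient -/
def hA (A v : ℤ) : ℤ := 2 * uA A v - gA A v

/-- the forms of the first family -/
def J8 (A v : ℤ) : List Fm :=
  [⟨2 * sA A v, 2 * tA A v, -1, 3, -(2 * tA A v)⟩,
   ⟨1, 2 * tA A v, -(2 * sA A v), 3, -(A - 1)⟩,
   ⟨2 * sA A v, gA A v, -(uA A v), 3, -1⟩,
   ⟨uA A v, hA A v, -(sA A v), 3, -(2 * A - 1)⟩,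
   ⟨sA A v, 2 * tA A v, -2, 3, -(tA A v)⟩,
   ⟨2, 2 * tA A v, -(sA A v), 3, -(2 * A - 1)⟩,
   ⟨sA A v, hA A v, -(uA A v), 3, -1⟩,
   ⟨uA A v, gA A v, -(2 * sA A v), 3, -(A - 1)⟩]

/-- the data of a class -/
def cl8 (n : ℕ) (ps : ℕ → ℕ → ℕ → ℕ) (A v : ℕ) (k : List (ℕ × ℕ) → Bool) : Bool :=
  strict (Nat.sub n (nat_lit 1)) fun o =>
  strict (Nat.mod (Nat.add (Nat.mul (Nat.add (Nat.mul (nat_lit 2) (Nat.mul A A)) o) v)
    (Nat.mul o A)) n) fun t =>
  strict (Nat.mod (Nat.mul (nat_lit 2) t) n) fun B =>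
  strict (Nat.mod (Nat.add (Nat.mul (nat_lit 2) (Nat.mul A v)) o) n) fun s =>
  strict (Nat.mod (Nat.mul (nat_lit 2) s) n) fun m =>
  @Bool.rec (fun _ => Bool) true (
    strict (Nat.mod (Nat.mul (nat_lit 2) o) n) fun w =>
    strict (Nat.mod (Nat.add (Nat.mul (Nat.add (Nat.mul (nat_lit 4) A) (Nat.mul (nat_lit 3) o)) s)
      (Nat.mul o B)) n) fun u =>
    strict (Nat.mod (Nat.add (Nat.mul (Nat.mul (nat_lit 2) (Nat.add A o)) m) (Nat.mul o B)) n)
      fun g =>
    strict (Nat.mod (Nat.add (Nat.mul (nat_lit 2) u) (Nat.mul o g)) n) fun h =>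
    strict (Nat.mod (Nat.mul o m) n) fun nm =>
    strict (Nat.mod (Nat.mul o s) n) fun ns =>
    strict (Nat.mod (Nat.mul o u) n) fun nu =>
    strict (ps m B o) fun p0 => strict (ps (nat_lit 1) B nm) fun p1 =>
    strict (ps m g nu) fun p2 => strict (ps u h ns) fun p3 =>
    strict (ps s B w) fun p4 => strict (ps (nat_lit 2) B ns) fun p5 =>
    strict (ps s h nu) fun p6 => strict (ps u g nm) fun p7 =>
    k [(m, p0), (nat_lit 1, p1), (m, p2), (u, p3), (s, p4), (nat_lit 2, p5), (s, p6), (u, p7)])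
  (Nat.beq (Nat.mod (Nat.pow (Nat.mod (Nat.add (Nat.mul B B) (Nat.mul (nat_lit 4) m)) n)
    (Nat.div n (nat_lit 2))) n) (Nat.sub n (nat_lit 1)))

/-- the multiplicities of a class -/
def al8 (l A v : ℕ) (k : List ℕ → Bool) : Bool :=
  strict (Nat.sub l (nat_lit 1)) fun o =>
  strict (Nat.mod (Nat.mul o (Nat.add (Nat.mul (Nat.add (Nat.mul (nat_lit 2) (Nat.mul A A)) o) v)
    (Nat.mul o A))) l) fun nt =>
  strict (Nat.mod (Nat.mul (nat_lit 2) nt) l) fun nB =>
  strict (Nat.mod (Nat.add (Nat.mul o A) (nat_lit 1)) l) fun na =>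
  strict (Nat.mod (Nat.add (Nat.mul (nat_lit 2) (Nat.mul o A)) (nat_lit 1)) l) fun nc =>
  k [nB, na, o, nc, nt, nc, o, na]

lemma cl8_spec {Q : ℕ} {D : ℤ} {A v : ℤ} (S : ESys Q D (J8 A v)) {n : ℕ} [NeZero n]
    (hn : n.Prime) (hn2 : 2 < n) (hQ : n ∣ Q) {ps : ℕ → ℕ → ℕ → ℕ} {k : List (ℕ × ℕ) → Bool}
    (h : cl8 n ps (rs n A) (rs n v) k = true) : k ((J8 A v).map (cp n ps)) = true := by
  have e4 : Nat.sub n (nat_lit 1) = rs n (-1) := K5.rs_neg_one
  have e1 : Nat.mod (Nat.add (Nat.mul (Nat.add (Nat.mul (nat_lit 2) (Nat.mul (rs n A) (rs n A)))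
      (rs n (-1))) (rs n v)) (Nat.mul (rs n (-1)) (rs n A))) n = rs n (tA A v) := by
    change ((2 * (rs n A * rs n A) + rs n (-1)) * rs n v + rs n (-1) * rs n A) % n = _
    apply rs_of; unfold tA; push_cast; simp only [rs_cast]; push_cast; ring
  have e2 : ∀ x : ℤ, Nat.mod (Nat.mul (nat_lit 2) (rs n x)) n = rs n (2 * x) := by
    intro x
    change (2 * rs n x) % n = _
    apply rs_of; push_cast; simp only [rs_cast]
  have e3 : Nat.mod (Nat.add (Nat.mul (nat_lit 2) (Nat.mul (rs n A) (rs n v))) (rs n (-1))) n =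
      rs n (sA A v) := by
    change (2 * (rs n A * rs n v) + rs n (-1)) % n = _
    apply rs_of; unfold sA; push_cast; simp only [rs_cast]; push_cast; ring
  have e5 : Nat.mod (Nat.mul (nat_lit 2) (rs n (-1))) n = rs n (-2) := by
    change (2 * rs n (-1)) % n = _
    apply rs_of; push_cast; simp only [rs_cast]; push_cast; ring
  have e6 : Nat.mod (Nat.add (Nat.mul (Nat.add (Nat.mul (nat_lit 4) (rs n A))
      (Nat.mul (nat_lit 3) (rs n (-1)))) (rs n (sA A v))) (Nat.mul (rs n (-1))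
      (rs n (2 * tA A v)))) n = rs n (uA A v) := by
    change ((4 * rs n A + 3 * rs n (-1)) * rs n (sA A v) + rs n (-1) * rs n (2 * tA A v)) % n = _
    apply rs_of; unfold uA; push_cast; simp only [rs_cast]; push_cast; ring
  have e7 : ∀ x : ℤ, Nat.mod (Nat.mul (rs n (-1)) (rs n x)) n = rs n (-x) := by
    intro x
    change (rs n (-1) * rs n x) % n = _
    apply rs_of; push_cast; simp only [rs_cast]; push_cast; ring
  have e8 : (nat_lit 1) = rs n 1 := K5.rs_one hn.one_lt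
  have e9 : (nat_lit 2) = rs n 2 := by
    have : (2 : ℕ) % n = rs n 2 := rs_of (by push_cast; ring)
    rw [Nat.mod_eq_of_lt hn2] at this
    exact this
  have e11 : Nat.mod (Nat.add (Nat.mul (Nat.mul (nat_lit 2) (Nat.add (rs n A) (rs n (-1))))
      (rs n (2 * sA A v))) (Nat.mul (rs n (-1)) (rs n (2 * tA A v)))) n = rs n (gA A v) := by
    change (2 * (rs n A + rs n (-1)) * rs n (2 * sA A v) + rs n (-1) * rs n (2 * tA A v)) % n = _
    apply rs_of; unfold gA; push_cast; simp only [rs_cast]; push_cast; ring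
  have e12 : Nat.mod (Nat.add (Nat.mul (nat_lit 2) (rs n (uA A v)))
      (Nat.mul (rs n (-1)) (rs n (gA A v)))) n = rs n (hA A v) := by
    change (2 * rs n (uA A v) + rs n (-1) * rs n (gA A v)) % n = _
    apply rs_of; unfold hA; push_cast; simp only [rs_cast]; push_cast; ring
  have e10 : Nat.mod (Nat.add (Nat.mul (rs n (2 * tA A v)) (rs n (2 * tA A v)))
      (Nat.mul (nat_lit 4) (rs n (2 * sA A v)))) n = rs n D := by
    have hd := S.disc _ (show (⟨2 * sA A v, 2 * tA A v, -1, 3, -(2 * tA A v)⟩ : Fm) ∈ J8 A v by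
      simp [J8])
    change (rs n _ * rs n _ + 4 * rs n _) % n = _
    apply rs_of
    rw [← hd]
    push_cast; simp only [rs_cast]; push_cast; ring
  have hin := S.inr n hn hQ
  unfold K5.In at hin
  unfold cl8 at h
  simp only [strict_eq] at h
  rw [e4, e1, e2, e3, e2, e10] at h
  have hin' : Nat.beq (Nat.mod (Nat.pow (rs n D) (Nat.div n (nat_lit 2))) n)
    (rs n (-1)) = true := by rw [← e4]; exact hin
  rw [hin'] at h
  rw [e5, e6, e11, e12, e7, e7, e7] at h
  unfold J8 cp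
  simp only [List.map_cons, List.map_nil]
  rw [← e8, ← e9]
  exact h

lemma al8_spec {A v : ℤ} {l : ℕ} [NeZero l] {k : List ℕ → Bool}
    (h : al8 l (rs l A) (rs l v) k = true) : k ((J8 A v).map fun j => rs l j.α) = true := by
  have e4 : Nat.sub l (nat_lit 1) = rs l (-1) := K5.rs_neg_one
  have e1 : Nat.mod (Nat.mul (rs l (-1)) (Nat.add (Nat.mul (Nat.add (Nat.mul (nat_lit 2)
      (Nat.mul (rs l A) (rs l A))) (rs l (-1))) (rs l v)) (Nat.mul (rs l (-1)) (rs l A)))) l =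
      rs l (-(tA A v)) := by
    change (rs l (-1) * ((2 * (rs l A * rs l A) + rs l (-1)) * rs l v + rs l (-1) * rs l A)) % l = _
    apply rs_of; unfold tA; push_cast; simp only [rs_cast]; push_cast; ring
  have e2 : ∀ x : ℤ, Nat.mod (Nat.mul (nat_lit 2) (rs l (-x))) l = rs l (-(2 * x)) := by
    intro x
    change (2 * rs l (-x)) % l = _
    apply rs_of; push_cast; simp only [rs_cast]; push_cast; ring
  have e3 : Nat.mod (Nat.add (Nat.mul (rs l (-1)) (rs l A)) (nat_lit 1)) l =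
      rs l (-(A - 1)) := by
    change (rs l (-1) * rs l A + 1) % l = _
    apply rs_of; push_cast; simp only [rs_cast]; push_cast; ring
  have e5 : Nat.mod (Nat.add (Nat.mul (nat_lit 2) (Nat.mul (rs l (-1)) (rs l A))) (nat_lit 1)) l =
      rs l (-(2 * A - 1)) := by
    change (2 * (rs l (-1) * rs l A) + 1) % l = _
    apply rs_of; push_cast; simp only [rs_cast]; push_cast; ring
  unfold al8 at h
  simp only [strict_eq] at h
  rw [e4, e1, e2, e3, e5] at h
  exact h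

/-! ### the second family -/

/-- the forms of the second family -/
def J9 (v : ℤ) : List Fm :=
  [⟨1 + 6 * v, 2 + 14 * v, -1, 3, -(2 + 14 * v)⟩,
   ⟨1, 2 + 14 * v, -(1 + 6 * v), 3, -2⟩,
   ⟨1 + 6 * v, 2 + 10 * v, -(1 + 4 * v), 3, -2⟩,
   ⟨1 + 4 * v, 2 + 6 * v, -(1 + 10 * v), 3, -1⟩,
   ⟨1 + 10 * v, 14 * v, -2, 3, -(7 * v)⟩,
   ⟨2, 14 * v, -(1 + 10 * v), 3, -1⟩,
   ⟨1 + 10 * v, 2 + 6 * v, -(1 + 4 * v), 3, -2⟩,
   ⟨1 + 4 * v, 2 + 10 * v, -(1 + 6 * v), 3, -2⟩]

/-- the data of a class -/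
def cl9 (n : ℕ) (ps : ℕ → ℕ → ℕ → ℕ) (v : ℕ) (k : List (ℕ × ℕ) → Bool) : Bool :=
  strict (Nat.mod (Nat.add (nat_lit 2) (Nat.mul (nat_lit 14) v)) n) fun B =>
  strict (Nat.mod (Nat.add (nat_lit 1) (Nat.mul (nat_lit 6) v)) n) fun m =>
  @Bool.rec (fun _ => Bool) true (
    strict (Nat.sub n (nat_lit 1)) fun o =>
    strict (Nat.mod (Nat.mul (nat_lit 2) o) n) fun w =>
    strict (Nat.mod (Nat.add (nat_lit 2) (Nat.mul (nat_lit 10) v)) n) fun g =>
    strict (Nat.mod (Nat.add (nat_lit 2) (Nat.mul (nat_lit 6) v)) n) fun h =>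
    strict (Nat.mod (Nat.mul (nat_lit 14) v) n) fun t =>
    strict (Nat.mod (Nat.add (nat_lit 1) (Nat.mul (nat_lit 4) v)) n) fun r =>
    strict (Nat.mod (Nat.add (nat_lit 1) (Nat.mul (nat_lit 10) v)) n) fun q =>
    strict (Nat.mod (Nat.mul o m) n) fun nm =>
    strict (Nat.mod (Nat.mul o r) n) fun nr =>
    strict (Nat.mod (Nat.mul o q) n) fun nq =>
    strict (ps m B o) fun p0 => strict (ps (nat_lit 1) B nm) fun p1 =>
    strict (ps m g nr) fun p2 => strict (ps r h nq) fun p3 =>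
    strict (ps q t w) fun p4 => strict (ps (nat_lit 2) t nq) fun p5 =>
    strict (ps q h nr) fun p6 => strict (ps r g nm) fun p7 =>
    k [(m, p0), (nat_lit 1, p1), (m, p2), (r, p3), (q, p4), (nat_lit 2, p5), (q, p6), (r, p7)])
  (Nat.beq (Nat.mod (Nat.pow (Nat.mod (Nat.add (Nat.mul B B) (Nat.mul (nat_lit 4) m)) n)
    (Nat.div n (nat_lit 2))) n) (Nat.sub n (nat_lit 1)))

/-- the multiplicities of a class -/
def al9 (l v : ℕ) (k : List ℕ → Bool) : Bool :=
  strict (Nat.sub l (nat_lit 1)) fun o =>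
  strict (Nat.mod (Nat.mul o (nat_lit 2)) l) fun nt =>
  strict (Nat.mod (Nat.mul o (Nat.mul (nat_lit 7) v)) l) fun nc =>
  strict (Nat.mod (Nat.mul o (Nat.add (nat_lit 2) (Nat.mul (nat_lit 14) v))) l) fun nB =>
  k [nB, nt, nt, o, nc, o, nt, nt]

lemma cl9_spec {Q : ℕ} {D : ℤ} {v : ℤ} (S : ESys Q D (J9 v)) {n : ℕ} [NeZero n]
    (hn : n.Prime) (hn2 : 2 < n) (hQ : n ∣ Q) {ps : ℕ → ℕ → ℕ → ℕ} {k : List (ℕ × ℕ) → Bool}
    (h : cl9 n ps (rs n v) k = true) : k ((J9 v).map (cp n ps)) = true := by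
  have e1 : Nat.mod (Nat.add (nat_lit 2) (Nat.mul (nat_lit 14) (rs n v))) n =
      rs n (2 + 14 * v) := by
    change (2 + 14 * rs n v) % n = _
    apply rs_of; push_cast; simp only [rs_cast]
  have e2 : Nat.mod (Nat.add (nat_lit 1) (Nat.mul (nat_lit 6) (rs n v))) n =
      rs n (1 + 6 * v) := by
    change (1 + 6 * rs n v) % n = _
    apply rs_of; push_cast; simp only [rs_cast]
  have e4 : Nat.sub n (nat_lit 1) = rs n (-1) := K5.rs_neg_one
  have e5 : Nat.mod (Nat.mul (nat_lit 2) (rs n (-1))) n = rs n (-2) := by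
    change (2 * rs n (-1)) % n = _
    apply rs_of; push_cast; simp only [rs_cast]; push_cast; ring
  have e6 : Nat.mod (Nat.add (nat_lit 2) (Nat.mul (nat_lit 10) (rs n v))) n =
      rs n (2 + 10 * v) := by
    change (2 + 10 * rs n v) % n = _
    apply rs_of; push_cast; simp only [rs_cast]
  have e7 : Nat.mod (Nat.add (nat_lit 2) (Nat.mul (nat_lit 6) (rs n v))) n =
      rs n (2 + 6 * v) := by
    change (2 + 6 * rs n v) % n = _
    apply rs_of; push_cast; simp only [rs_cast]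
  have e8 : Nat.mod (Nat.mul (nat_lit 14) (rs n v)) n = rs n (14 * v) := by
    change (14 * rs n v) % n = _
    apply rs_of; push_cast; simp only [rs_cast]
  have e9 : Nat.mod (Nat.add (nat_lit 1) (Nat.mul (nat_lit 4) (rs n v))) n =
      rs n (1 + 4 * v) := by
    change (1 + 4 * rs n v) % n = _
    apply rs_of; push_cast; simp only [rs_cast]
  have e13 : Nat.mod (Nat.add (nat_lit 1) (Nat.mul (nat_lit 10) (rs n v))) n =
      rs n (1 + 10 * v) := by
    change (1 + 10 * rs n v) % n = _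
    apply rs_of; push_cast; simp only [rs_cast]
  have e14 : ∀ x : ℤ, Nat.mod (Nat.mul (rs n (-1)) (rs n x)) n = rs n (-x) := by
    intro x
    change (rs n (-1) * rs n x) % n = _
    apply rs_of; push_cast; simp only [rs_cast]; push_cast; ring
  have e15 : (nat_lit 1) = rs n 1 := K5.rs_one hn.one_lt
  have e16 : (nat_lit 2) = rs n 2 := by
    have : (2 : ℕ) % n = rs n 2 := rs_of (by push_cast; ring)
    rw [Nat.mod_eq_of_lt hn2] at this
    exact this
  have e10 : Nat.mod (Nat.add (Nat.mul (rs n (2 + 14 * v)) (rs n (2 + 14 * v)))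
      (Nat.mul (nat_lit 4) (rs n (1 + 6 * v)))) n = rs n D := by
    have hd := S.disc _ (show (⟨1 + 6 * v, 2 + 14 * v, -1, 3, -(2 + 14 * v)⟩ : Fm) ∈ J9 v by
      simp [J9])
    change (rs n _ * rs n _ + 4 * rs n _) % n = _
    apply rs_of
    rw [← hd]
    push_cast; simp only [rs_cast]; push_cast; ring
  have hin := S.inr n hn hQ
  unfold K5.In at hin
  unfold cl9 at h
  simp only [strict_eq] at h
  rw [e1, e2, e10] at h
  have hin' : Nat.beq (Nat.mod (Nat.pow (rs n D) (Nat.div n (nat_lit 2))) n)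
    (Nat.sub n (nat_lit 1)) = true := hin
  rw [hin'] at h
  rw [e4, e5, e6, e7, e8, e9, e13, e14, e14, e14] at h
  unfold J9 cp
  simp only [List.map_cons, List.map_nil]
  rw [← e15, ← e16]
  exact h

lemma al9_spec {v : ℤ} {l : ℕ} [NeZero l] {k : List ℕ → Bool}
    (h : al9 l (rs l v) k = true) : k ((J9 v).map fun j => rs l j.α) = true := by
  have e4 : Nat.sub l (nat_lit 1) = rs l (-1) := K5.rs_neg_one
  have e1 : Nat.mod (Nat.mul (rs l (-1)) (nat_lit 2)) l = rs l (-2) := by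
    change (rs l (-1) * 2) % l = _
    apply rs_of; push_cast; simp only [rs_cast]; push_cast; ring
  have e2 : Nat.mod (Nat.mul (rs l (-1)) (Nat.mul (nat_lit 7) (rs l v))) l =
      rs l (-(7 * v)) := by
    change (rs l (-1) * (7 * rs l v)) % l = _
    apply rs_of; push_cast; simp only [rs_cast]; push_cast; ring
  have e3 : Nat.mod (Nat.mul (rs l (-1)) (Nat.add (nat_lit 2) (Nat.mul (nat_lit 14) (rs l v)))) l =
      rs l (-(2 + 14 * v)) := by
    change (rs l (-1) * (2 + 14 * rs l v)) % l = _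
    apply rs_of; push_cast; simp only [rs_cast]; push_cast; ring
  unfold al9 at h
  simp only [strict_eq] at h
  rw [e4, e1, e2, e3] at h
  exact h

lemma J8_κ {A v : ℤ} : ∀ j ∈ J8 A v, j.κ = 3 := by
  intro j hj
  simp only [J8, List.mem_cons, List.not_mem_nil, or_false] at hj
  rcases hj with rfl | rfl | rfl | rfl | rfl | rfl | rfl | rfl <;> rfl

lemma J8_len {A v : ℤ} : (J8 A v).length = 8 := rfl

lemma J9_κ {v : ℤ} : ∀ j ∈ J9 v, j.κ = 3 := by
  intro j hj
  simp only [J9, List.mem_cons, List.not_mem_nil, or_false] at hj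
  rcases hj with rfl | rfl | rfl | rfl | rfl | rfl | rfl | rfl <;> rfl

lemma J9_len {v : ℤ} : (J9 v).length = 8 := rfl

end Pool.Agent.PSX.Ev
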