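import Pool.Agent.PSX.Ev8Z

/-! generated: the elimination, length eight -/

namespace Pool.Agent.PSX.Ev

open Pool.Agent.LibH4 Pool.Agent.LibH4.Ker
open Pool.Agent.Lib_helper5 Pool.Agent.Lib_helper5.LK Pool.Agent.Lib_helper5.TB

variable {Q : ℕ} {D : ℤ}

/-- stage 17 -/
def st9_17 (X7 : List (ℕ × ℕ)) (A5 A13 : List ℕ) : Bool :=
  allR (fun v => cl9 (nat_lit 17) (pos (nat_lit 17) (nat_lit 15) PT17) v fun X17 =>
    cond0 (Nat.mod (evL t1_119N13 t2_119N13 t3_119N13 rows_119N13 (nat_lit 1) X17 X7 o8 A13) (nat_lit 13)) (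
    cond0 (Nat.mod (evL t1_119N5 t2_119N5 t3_119N5 rows_119N5 (nat_lit 1) X17 X7 o8 A5) (nat_lit 5)) (
    false))) (nat_lit 17)

lemma st9_17_spec {v : ℤ} (S : ESys Q D (J9 v)) (hQ : 7735 ∣ Q)
    (h : st9_17 ((J9 v).map (cp 7 (pos 7 5 PT7))) ((J9 v).map fun j => rs 5 j.α) ((J9 v).map fun j => rs 13 j.α) = true) : False := by
  unfold st9_17 at h
  have h := allR_spec h (rs 17 v) (rs_lt v)
  have h := cl9_spec S (by norm_num) (by norm_num) (Dvd.dvd.trans (by norm_num) hQ) h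
  have h := cond0_zero (z8_119N13 S J9_κ J9_len (Dvd.dvd.trans (by norm_num) hQ)) h
  have h := cond0_zero (z8_119N5 S J9_κ J9_len (Dvd.dvd.trans (by norm_num) hQ)) h
  exact Bool.false_ne_true h

/-- stage 5 -/
def st9_5 (X7 X13 : List (ℕ × ℕ)) (A13 : List ℕ) : Bool :=
  allR (fun v => cl9 (nat_lit 5) (pos (nat_lit 5) (nat_lit 3) PT5) v fun X5 =>
    al9 (nat_lit 5) v fun A5 =>
    cond0 (Nat.mod (evL t1_455F13a t2_455F13a t3_455F13a rows_455F13a (nat_lit 10) X13 X7 X5 A13) (nat_lit 13)) (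
    cond0 (Nat.mod (evL t1_455F13b t2_455F13b t3_455F13b rows_455F13b (nat_lit 10) X13 X7 X5 A13) (nat_lit 13)) (
    st9_17 X7 A5 A13))) (nat_lit 5)

lemma st9_5_spec {v : ℤ} (S : ESys Q D (J9 v)) (hQ : 7735 ∣ Q)
    (h : st9_5 ((J9 v).map (cp 7 (pos 7 5 PT7))) ((J9 v).map (cp 13 (pos 13 11 PT13))) ((J9 v).map fun j => rs 13 j.α) = true) : False := by
  unfold st9_5 at h
  have h := allR_spec h (rs 5 v) (rs_lt v)
  have h := cl9_spec S (by norm_num) (by norm_num) (Dvd.dvd.trans (by norm_num) hQ) h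
  have h := al9_spec h
  have h := cond0_zero (z8_455F13a S J9_κ J9_len (Dvd.dvd.trans (by norm_num) hQ)) h
  have h := cond0_zero (z8_455F13b S J9_κ J9_len (Dvd.dvd.trans (by norm_num) hQ)) h
  exact st9_17_spec S (Dvd.dvd.trans (by norm_num) hQ) h

/-- stage 13 -/
def st9_13 (X7 : List (ℕ × ℕ)) : Bool :=
  allR (fun v => cl9 (nat_lit 13) (pos (nat_lit 13) (nat_lit 11) PT13) v fun X13 =>
    al9 (nat_lit 13) v fun A13 =>
    cond0 (Nat.mod (evL t1_91F13 t2_91F13 t3_91F13 rows_91F13 (nat_lit 1) X13 X7 o8 A13) (nat_lit 13)) (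
    st9_5 X7 X13 A13)) (nat_lit 13)

lemma st9_13_spec {v : ℤ} (S : ESys Q D (J9 v)) (hQ : 7735 ∣ Q)
    (h : st9_13 ((J9 v).map (cp 7 (pos 7 5 PT7)))  = true) : False := by
  unfold st9_13 at h
  have h := allR_spec h (rs 13 v) (rs_lt v)
  have h := cl9_spec S (by norm_num) (by norm_num) (Dvd.dvd.trans (by norm_num) hQ) h
  have h := al9_spec h
  have h := cond0_zero (z8_91F13 S J9_κ J9_len (Dvd.dvd.trans (by norm_num) hQ)) h
  exact st9_5_spec S (Dvd.dvd.trans (by norm_num) hQ) h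

/-- stage 7 -/
def st9_7 : Bool :=
  allR (fun v => cl9 (nat_lit 7) (pos (nat_lit 7) (nat_lit 5) PT7) v fun X7 =>
    st9_13 X7) (nat_lit 7)

lemma st9_7_spec {v : ℤ} (S : ESys Q D (J9 v)) (hQ : 7735 ∣ Q)
    (h : st9_7   = true) : False := by
  unfold st9_7 at h
  have h := allR_spec h (rs 7 v) (rs_lt v)
  have h := cl9_spec S (by norm_num) (by norm_num) (Dvd.dvd.trans (by norm_num) hQ) h
  exact st9_13_spec S (Dvd.dvd.trans (by norm_num) hQ) h

lemma ck9 : st9_7 = true := by decide +kernel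

/-- **elimination for the second family** -/
theorem no9 {v : ℤ} (S : ESys Q D (J9 v)) (hQ : 7735 ∣ Q) : False :=
  st9_7_spec S hQ ck9

end Pool.Agent.PSX.Ev
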