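import Pool.Agent.PSX.Ev8Ck
import Pool.Agent.PSX.Ev8TrB
import Pool.Agent.PSX.Ev8Sys
import Pool.Agent.PSX.E8Fam

/-!
Period eight, even discriminants: the large parameters are excluded.
-/

namespace Pool.Agent.PSX.Ev

open Finset Pool.Agent.LibH4 Pool.Agent.Lib_helper5 Pool.Agent.Lib_helper5.LK

lemma le37 {l : ℕ} (hl : l.Prime) (h : l ∣ 72407335) : l ≤ 37 ∧ l ≠ 2 := by
  have e : (72407335 : ℕ) = 5 * (7 * (11 * (13 * (17 * (23 * 37))))) := by norm_num
  constructor
  · rw [e] at h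
    rcases hl.dvd_mul.1 h with h | h
    · exact (Nat.le_of_dvd (by norm_num) h).trans (by norm_num)
    rcases hl.dvd_mul.1 h with h | h
    · exact (Nat.le_of_dvd (by norm_num) h).trans (by norm_num)
    rcases hl.dvd_mul.1 h with h | h
    · exact (Nat.le_of_dvd (by norm_num) h).trans (by norm_num)
    rcases hl.dvd_mul.1 h with h | h
    · exact (Nat.le_of_dvd (by norm_num) h).trans (by norm_num)
    rcases hl.dvd_mul.1 h with h | h
    · exact (Nat.le_of_dvd (by norm_num) h).trans (by norm_num)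
    rcases hl.dvd_mul.1 h with h | h
    · exact (Nat.le_of_dvd (by norm_num) h).trans (by norm_num)
    exact Nat.le_of_dvd (by norm_num) h
  · rintro rfl
    omega

lemma le17 {l : ℕ} (hl : l.Prime) (h : l ∣ 7735) : l ≤ 17 ∧ l ≠ 2 := by
  have e : (7735 : ℕ) = 5 * (7 * (13 * 17)) := by norm_num
  constructor
  · rw [e] at h
    rcases hl.dvd_mul.1 h with h | h
    · exact (Nat.le_of_dvd (by norm_num) h).trans (by norm_num)
    rcases hl.dvd_mul.1 h with h | h
    · exact (Nat.le_of_dvd (by norm_num) h).trans (by norm_num)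
    rcases hl.dvd_mul.1 h with h | h
    · exact (Nat.le_of_dvd (by norm_num) h).trans (by norm_num)
    exact Nat.le_of_dvd (by norm_num) h
  · rintro rfl
    omega

/-- the forms of the cycle, first family -/
lemma Jc_A {a b c e B : ℕ} {m r q p A v : ℤ} (ha : (a : ℤ) = A - 1) (hb : b = 1)
    (hc : (c : ℤ) = 2 * A - 1) (he : (e : ℤ) = tA A v) (hB : (B : ℤ) = 2 * tA A v)
    (hq : q = sA A v) (hm : m = 2 * sA A v) (hr : r = uA A v) (hp : p = 2) :
    Jc 8 (E8.P m r q p) (E8.R a b c B m r q) (E8.S m r q p) (E8.C a b c e B) = J8 A v := by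
  subst hb hq hm hr hp
  unfold Jc J8
  simp only [List.range_succ, List.range_zero, List.map_nil, List.map_cons,
    List.nil_append, List.cons_append, E8.P, E8.R, E8.S, E8.C]
  simp only [List.cons.injEq, Fm.mk.injEq]
  rw [ha, hc, he, hB]
  push_cast
  and_intros <;> first | trivial | rfl | (simp only [hA, gA, uA, sA, tA]; ring)

/-- the forms of the cycle, second family -/
lemma Jc_B {a b c e B : ℕ} {m r q p k : ℤ} (ha : a = 2) (hb : b = 2)
    (hc : c = 1) (he : (e : ℤ) = 7 * k) (hB : (B : ℤ) = 2 + 14 * k)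
    (hm : m = 1 + 6 * k) (hr : r = 1 + 4 * k) (hq : q = 1 + 10 * k) (hp : p = 2) :
    Jc 8 (E8.P m r q p) (E8.R a b c B m r q) (E8.S m r q p) (E8.C a b c e B) = J9 k := by
  subst ha hb hc hq hm hr hp
  unfold Jc J9
  simp only [List.range_succ, List.range_zero, List.map_nil, List.map_cons,
    List.nil_append, List.cons_append, E8.P, E8.R, E8.S, E8.C]
  simp only [List.cons.injEq, Fm.mk.injEq]
  rw [he, hB]
  push_cast
  and_intros <;> first | trivial | rfl | ring

variable {a b c e B : ℕ} {m r q p : ℤ}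

/-- class number one, first family: `A v` is at most `19` -/
theorem small_A (h : E8.Par a b c e B m r q p) (hp2 : p = 2) {d : ℕ}
    (hd : 4 * (d : ℤ) = (B : ℤ) ^ 2 + 4 * m) (hd4 : d % 4 = 2 ∨ d % 4 = 3)
    [IsDomain (QuadraticAlgebra ℤ m (B : ℤ))]
    [UniqueFactorizationMonoid (QuadraticAlgebra ℤ m (B : ℤ))]
    {A v : ℤ} (hA : 2 ≤ A) (hv : 1 ≤ v) (f1 : (a : ℤ) = A - 1) (f2 : b = 1)
    (f3 : (c : ℤ) = 2 * A - 1) (f4 : (e : ℤ) = (2 * A * A - 1) * v - A)
    (f5 : (B : ℤ) = 2 * ((2 * A * A - 1) * v - A)) (f6 : q = 2 * A * v - 1)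
    (f7 : m = 2 * (2 * A * v - 1))
    (f8 : r = (4 * A - 3) * (2 * A * v - 1) - 2 * ((2 * A * A - 1) * v - A)) : A * v ≤ 19 := by
  by_contra hcon
  push Not at hcon
  have hs : 37 < q := by rw [f6]; nlinarith
  have hr' : q < r := by
    rw [f6, f8]
    have h1 : 0 ≤ 4 * A * v * (A - 2) := by
      apply mul_nonneg _ (by linarith)
      nlinarith
    rcases eq_or_lt_of_le hA with h2 | h2
    · rw [← h2]; nlinarith
    · nlinarith [mul_pos (show (0 : ℤ) < A by linarith) (show (0 : ℤ) < v by linarith)]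
  have S := esys_gen (by omega) (E8.cyc h) 4 rfl (by norm_num) (E8.closing h) (E8.P_ne h)
    (b := (2 * A * A - 1) * v - A) f5
    (by rw [f5] at hd
        linarith [hd, show (2 * ((2 * A * A - 1) * v - A)) ^ 2 =
          4 * ((2 * A * A - 1) * v - A) ^ 2 by ring]) hd4
    (Q := 72407335) (by norm_num) (by
      intro l hl hlQ
      obtain ⟨h1, h2⟩ := le37 hl hlQ
      have h3 : (l : ℤ) ≤ 37 := by exact_mod_cast h1
      exact E8.inert' h hp2 hd l hl h2 (by omega) (by omega) (by omega))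
  rw [Jc_A f1 f2 f3 f4 f5 f6 f7 f8 hp2] at S
  exact no8 S (dvd_refl _)

/-- class number one, second family: `k` is at most `4` -/
theorem small_B (h : E8.Par a b c e B m r q p) (hp2 : p = 2) {d : ℕ}
    (hd : 4 * (d : ℤ) = (B : ℤ) ^ 2 + 4 * m) (hd4 : d % 4 = 2 ∨ d % 4 = 3)
    [IsDomain (QuadraticAlgebra ℤ m (B : ℤ))]
    [UniqueFactorizationMonoid (QuadraticAlgebra ℤ m (B : ℤ))]
    {k : ℤ} (f1 : a = 2) (f2 : b = 2) (f3 : c = 1) (f4 : (e : ℤ) = 7 * k)
    (f5 : (B : ℤ) = 2 + 14 * k) (f6 : m = 1 + 6 * k) (f7 : r = 1 + 4 * k)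
    (f8 : q = 1 + 10 * k) : k ≤ 4 := by
  by_contra hcon
  push Not at hcon
  have S := esys_gen (by omega) (E8.cyc h) 4 rfl (by norm_num) (E8.closing h) (E8.P_ne h)
    (b := 1 + 7 * k) (by rw [f5]; ring)
    (by rw [f5] at hd
        linarith [hd, show (2 + 14 * k) ^ 2 = 4 * (1 + 7 * k) ^ 2 by ring]) hd4
    (Q := 7735) (by norm_num) (by
      intro l hl hlQ
      obtain ⟨h1, h2⟩ := le17 hl hlQ
      have h3 : (l : ℤ) ≤ 17 := by exact_mod_cast h1
      exact E8.inert' h hp2 hd l hl h2 (by omega) (by omega) (by omega))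
  rw [Jc_B f1 f2 f3 f4 f5 f6 f7 f8 hp2] at S
  exact no9 S (dvd_refl _)

end Pool.Agent.PSX.Ev
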