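import Pool.Agent.PSX.Ev8Main
import Pool.Agent.PSX.CFEight
import Pool.Agent.PSX.E6Fields
import Pool.Agent.PSX.E6Final

/-!
Period eight, even discriminants: the small parameters and the eight fields.
-/

namespace Pool.Agent.PSX.Ev

open Finset (range)
open Pool.Agent.LibH4 Pool.Agent.LibH4.FA Pool.Agent.Lib_helper5

/-- small parameters, first family -/
lemma list_A {d : ℕ} {A v : ℤ} (hA : 2 ≤ A) (hv : 1 ≤ v) (h19 : A * v ≤ 19)
    (hd : (d : ℤ) = ((2 * A * A - 1) * v - A) ^ 2 + 2 * (2 * A * v - 1))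
    (hin : ∀ l : ℕ, l.Prime → l ≠ 2 → (l : ℤ) < 2 * A * v - 1 → jacobiSym d l = -1) :
    ((d : ℤ) = 31 ∨ (d : ℤ) = 158 ∨ (d : ℤ) = 206 ∨ (d : ℤ) = 383 ∨ (d : ℤ) = 743 ∨
      (d : ℤ) = 983) ∨ (A = 6 ∧ v = 1) := by
  have hA19 : A ≤ 19 := by nlinarith
  have hv9 : v ≤ 9 := by nlinarith
  interval_cases A <;> interval_cases v <;> first
    | omega
    | (exact Or.inr ⟨rfl, rfl⟩)
    | (exfalso
       have h3 := hin 3 (by norm_num) (by norm_num) (by norm_num)
       rw [hd] at h3
       norm_num at h3; done)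
    | (exfalso
       have h3 := hin 5 (by norm_num) (by norm_num) (by norm_num)
       rw [hd] at h3
       norm_num at h3; done)
    | (exfalso
       have h3 := hin 7 (by norm_num) (by norm_num) (by norm_num)
       rw [hd] at h3
       norm_num at h3; done)
    | (exfalso
       have h3 := hin 11 (by norm_num) (by norm_num) (by norm_num)
       rw [hd] at h3
       norm_num at h3; done)
    | (exfalso
       have h3 := hin 13 (by norm_num) (by norm_num) (by norm_num)
       rw [hd] at h3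
       norm_num at h3; done)
    | (exfalso
       have h3 := hin 17 (by norm_num) (by norm_num) (by norm_num)
       rw [hd] at h3
       norm_num at h3; done)
    | (left
       norm_num at hd
       omega)

/-- small parameters, second family -/
lemma list_B {d : ℕ} {k : ℤ} (hk : 1 ≤ k) (h4 : k ≤ 4)
    (hd : (d : ℤ) = (1 + 7 * k) ^ 2 + (1 + 6 * k))
    (hin : ∀ l : ℕ, l.Prime → l ≠ 2 → (l : ℤ) < 1 + 4 * k → jacobiSym d l = -1) :
    (d : ℤ) = 71 ∨ (d : ℤ) = 503 := by
  interval_cases k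
  · norm_num at hd; omega
  · exfalso
    have h3 := hin 3 (by norm_num) (by norm_num) (by norm_num)
    rw [hd] at h3
    norm_num at h3
  · norm_num at hd; omega
  · exfalso
    have h3 := hin 5 (by norm_num) (by norm_num) (by norm_num)
    rw [hd] at h3
    norm_num at h3

/-- the exceptional parameters: `31` is ramified and not a norm -/
lemma no31 {a b c e B : ℕ} {m r q p : ℤ} (h : E8.Par a b c e B m r q p)
    (ha : a = 5) (hb : b = 1) (hc : c = 11) (he : e = 65) (hB : B = 130) (hm : m = 22)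
    (hr : r = 101) (hq : q = 11) (hp : p = 2)
    [IsDomain (QuadraticAlgebra ℤ m (B : ℤ))]
    [UniqueFactorizationMonoid (QuadraticAlgebra ℤ m (B : ℤ))] : False := by
  have hl : Nat.Prime 31 := by norm_num
  have hroot : ((31 : ℕ) : ℤ) ∣ (28 : ℤ) ^ 2 + B * 28 - m := by
    rw [hB, hm]; norm_num
  obtain ⟨π, hπ⟩ := exists_norm_of_root hl hroot
  have hC := E8.cyc h
  obtain ⟨k, hk, x, y, hx, hy, he'⟩ := even_repr (by rw [hm]; norm_num) hC 4 rfl (by norm_num)
    (E8.closing h) π 31 (by norm_num) hπ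
  subst ha hb hc he hB hm hr hq hp
  have hx' : (1 : ℤ) ≤ x := by exact_mod_cast hx
  rcases Nat.eq_zero_or_pos y with hy0 | hy0
  · subst hy0
    have h5 : x ≤ 5 := by
      by_contra hcon
      have h6 : (6 : ℤ) ≤ x := by push Not at hcon; exact_mod_cast hcon
      interval_cases k <;> simp only [E8.P, E8.R, E8.S] at he' <;> push_cast at he' <;> nlinarith
    interval_cases k <;> simp only [E8.P, E8.R, E8.S] at he' <;> push_cast at he' <;>
      interval_cases x <;> norm_num at he'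
  · have hy1 : (1 : ℤ) ≤ y := by exact_mod_cast hy0
    have hyc : (y : ℤ) + 1 ≤ E8.C 5 1 11 65 130 k * x := by exact_mod_cast hy
    interval_cases k <;> simp only [E8.P, E8.R, E8.S, E8.C] at he' hyc <;>
      push_cast at he' hyc <;> norm_num at he'
    · nlinarith [mul_nonneg (sub_nonneg.2 hy1) (sub_nonneg.2 hyc)]
    · nlinarith [mul_nonneg (sub_nonneg.2 hy1) (sub_nonneg.2 hyc), mul_pos (by linarith : (0 : ℤ) < x) (by linarith : (0 : ℤ) < y)]
    · nlinarith [mul_nonneg (sub_nonneg.2 hy1) (sub_nonneg.2 hyc), mul_nonneg (by linarith : (0 : ℤ) ≤ x) (sub_nonneg.2 hyc)]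
    · nlinarith [mul_nonneg (sub_nonneg.2 hy1) (sub_nonneg.2 hyc), mul_nonneg (by linarith : (0 : ℤ) ≤ x) (sub_nonneg.2 hyc)]
    · nlinarith [mul_nonneg (sub_nonneg.2 hy1) (sub_nonneg.2 hyc)]
    · nlinarith [mul_nonneg (sub_nonneg.2 hy1) (sub_nonneg.2 hyc), mul_pos (by linarith : (0 : ℤ) < x) (by linarith : (0 : ℤ) < y)]
    · nlinarith [mul_nonneg (sub_nonneg.2 hy1) (sub_nonneg.2 hyc), mul_pos (by linarith : (0 : ℤ) < x) (by linarith : (0 : ℤ) < y)]
    · nlinarith [mul_nonneg (sub_nonneg.2 hy1) (sub_nonneg.2 hyc), mul_nonneg (by linarith : (0 : ℤ) ≤ x) (sub_nonneg.2 hyc)]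

end Pool.Agent.PSX.Ev
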