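import Pool.Agent.PSX.Ev8Z

/-! generated: the elimination, length eight -/

namespace Pool.Agent.PSX.Ev

open Pool.Agent.LibH4 Pool.Agent.LibH4.Ker
open Pool.Agent.Lib_helper5 Pool.Agent.Lib_helper5.LK Pool.Agent.Lib_helper5.TB

variable {Q : ℕ} {D : ℤ}

/-- stage 37 -/
def st8_37 (X5 X7 : List (ℕ × ℕ)) (A5 A13 : List ℕ) : Bool :=
  allR (fun a => allR (fun v => cl8 (nat_lit 37) (posW (nat_lit 37) (nat_lit 35) PT37) a v fun X37 =>
    cond0 (Nat.mod (evL t1_185N13 t2_185N13 t3_185N13 rows_185N13 (nat_lit 1) X5 X37 o8 A13) (nat_lit 13)) (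
    cond0 (Nat.mod (evL t1_185F5a t2_185F5a t3_185F5a rows_185F5a (nat_lit 1) X5 X37 o8 A5) (nat_lit 5)) (
    cond0 (Nat.mod (evL t1_185F5b t2_185F5b t3_185F5b rows_185F5b (nat_lit 1) X5 X37 o8 A5) (nat_lit 5)) (
    cond0 (Nat.mod (evL t1_259N13a t2_259N13a t3_259N13a rows_259N13a (nat_lit 1) X7 X37 o8 A13) (nat_lit 13)) (
    false))))) (nat_lit 37)) (nat_lit 37)

lemma st8_37_spec {A v : ℤ} (S : ESys Q D (J8 A v)) (hQ : 16835 ∣ Q)
    (h : st8_37 ((J8 A v).map (cp 5 (pos 5 3 PT5))) ((J8 A v).map (cp 7 (pos 7 5 PT7))) ((J8 A v).map fun j => rs 5 j.α) ((J8 A v).map fun j => rs 13 j.α) = true) : False := by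
  unfold st8_37 at h
  have h := allR_spec (allR_spec h (rs 37 A) (rs_lt A)) (rs 37 v) (rs_lt v)
  have h := cl8_spec S (by norm_num) (by norm_num) (Dvd.dvd.trans (by norm_num) hQ) h
  have h := cond0_zero (z8_185N13 S J8_κ J8_len (Dvd.dvd.trans (by norm_num) hQ)) h
  have h := cond0_zero (z8_185F5a S J8_κ J8_len (Dvd.dvd.trans (by norm_num) hQ)) h
  have h := cond0_zero (z8_185F5b S J8_κ J8_len (Dvd.dvd.trans (by norm_num) hQ)) h
  have h := cond0_zero (z8_259N13a S J8_κ J8_len (Dvd.dvd.trans (by norm_num) hQ)) h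
  exact Bool.false_ne_true h

/-- stage 23 -/
def st8_23 (X5 X7 X13 X17 : List (ℕ × ℕ)) (A5 A7 A13 : List ℕ) : Bool :=
  allR (fun a => allR (fun v => cl8 (nat_lit 23) (pos (nat_lit 23) (nat_lit 21) EL.PT23) a v fun X23 =>
    cond0 (Nat.mod (evL EL.t1_299N7 EL.t2_299N7 EL.t3_299N7 EL.rows_299N7 (nat_lit 1) X23 X13 o8 A7) (nat_lit 7)) (
    cond0 (Nat.mod (evL EL.t1_805N13 EL.t2_805N13 EL.t3_805N13 EL.rows_805N13 (nat_lit 10) X23 X7 X5 A13) (nat_lit 13)) (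
    cond0 (Nat.mod (evL EL.t1_805F5 EL.t2_805F5 EL.t3_805F5 EL.rows_805F5 (nat_lit 10) X23 X7 X5 A5) (nat_lit 5)) (
    cond0 (Nat.mod (evL t1_391N5 t2_391N5 t3_391N5 rows_391N5 (nat_lit 1) X17 X23 o8 A5) (nat_lit 5)) (
    cond0 (Nat.mod (evL t1_391N7 t2_391N7 t3_391N7 rows_391N7 (nat_lit 1) X17 X23 o8 A7) (nat_lit 7)) (
    st8_37 X5 X7 A5 A13)))))) (nat_lit 23)) (nat_lit 23)

lemma st8_23_spec {A v : ℤ} (S : ESys Q D (J8 A v)) (hQ : 6582485 ∣ Q)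
    (h : st8_23 ((J8 A v).map (cp 5 (pos 5 3 PT5))) ((J8 A v).map (cp 7 (pos 7 5 PT7))) ((J8 A v).map (cp 13 (pos 13 11 PT13))) ((J8 A v).map (cp 17 (pos 17 15 PT17))) ((J8 A v).map fun j => rs 5 j.α) ((J8 A v).map fun j => rs 7 j.α) ((J8 A v).map fun j => rs 13 j.α) = true) : False := by
  unfold st8_23 at h
  have h := allR_spec (allR_spec h (rs 23 A) (rs_lt A)) (rs 23 v) (rs_lt v)
  have h := cl8_spec S (by norm_num) (by norm_num) (Dvd.dvd.trans (by norm_num) hQ) h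
  have h := cond0_zero (z8_299N7 S J8_κ J8_len (Dvd.dvd.trans (by norm_num) hQ)) h
  have h := cond0_zero (z8_805N13 S J8_κ J8_len (Dvd.dvd.trans (by norm_num) hQ)) h
  have h := cond0_zero (z8_805F5 S J8_κ J8_len (Dvd.dvd.trans (by norm_num) hQ)) h
  have h := cond0_zero (z8_391N5 S J8_κ J8_len (Dvd.dvd.trans (by norm_num) hQ)) h
  have h := cond0_zero (z8_391N7 S J8_κ J8_len (Dvd.dvd.trans (by norm_num) hQ)) h
  exact st8_37_spec S (Dvd.dvd.trans (by norm_num) hQ) h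

/-- stage 17 -/
def st8_17 (X5 X7 X11 X13 : List (ℕ × ℕ)) (A5 A7 A13 : List ℕ) : Bool :=
  allR (fun a => allR (fun v => cl8 (nat_lit 17) (pos (nat_lit 17) (nat_lit 15) PT17) a v fun X17 =>
    al8 (nat_lit 17) a v fun A17 =>
    cond0 (Nat.mod (evL t1_119N13 t2_119N13 t3_119N13 rows_119N13 (nat_lit 1) X17 X7 o8 A13) (nat_lit 13)) (
    cond0 (Nat.mod (evL t1_119N5 t2_119N5 t3_119N5 rows_119N5 (nat_lit 1) X17 X7 o8 A5) (nat_lit 5)) (
    cond0 (Nat.mod (evL t1_187F17a t2_187F17a t3_187F17a rows_187F17a (nat_lit 1) X17 X11 o8 A17) (nat_lit 17)) (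
    cond0 (Nat.mod (evL t1_187F17b t2_187F17b t3_187F17b rows_187F17b (nat_lit 1) X17 X11 o8 A17) (nat_lit 17)) (
    cond0 (Nat.mod (evL t1_221N5 t2_221N5 t3_221N5 rows_221N5 (nat_lit 1) X17 X13 o8 A5) (nat_lit 5)) (
    st8_23 X5 X7 X13 X17 A5 A7 A13)))))) (nat_lit 17)) (nat_lit 17)

lemma st8_17_spec {A v : ℤ} (S : ESys Q D (J8 A v)) (hQ : 72407335 ∣ Q)
    (h : st8_17 ((J8 A v).map (cp 5 (pos 5 3 PT5))) ((J8 A v).map (cp 7 (pos 7 5 PT7))) ((J8 A v).map (cp 11 (pos 11 9 PT11))) ((J8 A v).map (cp 13 (pos 13 11 PT13))) ((J8 A v).map fun j => rs 5 j.α) ((J8 A v).map fun j => rs 7 j.α) ((J8 A v).map fun j => rs 13 j.α) = true) : False := by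
  unfold st8_17 at h
  have h := allR_spec (allR_spec h (rs 17 A) (rs_lt A)) (rs 17 v) (rs_lt v)
  have h := cl8_spec S (by norm_num) (by norm_num) (Dvd.dvd.trans (by norm_num) hQ) h
  have h := al8_spec h
  have h := cond0_zero (z8_119N13 S J8_κ J8_len (Dvd.dvd.trans (by norm_num) hQ)) h
  have h := cond0_zero (z8_119N5 S J8_κ J8_len (Dvd.dvd.trans (by norm_num) hQ)) h
  have h := cond0_zero (z8_187F17a S J8_κ J8_len (Dvd.dvd.trans (by norm_num) hQ)) h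
  have h := cond0_zero (z8_187F17b S J8_κ J8_len (Dvd.dvd.trans (by norm_num) hQ)) h
  have h := cond0_zero (z8_221N5 S J8_κ J8_len (Dvd.dvd.trans (by norm_num) hQ)) h
  exact st8_23_spec S (Dvd.dvd.trans (by norm_num) hQ) h

/-- stage 11 -/
def st8_11 (X5 X7 X13 : List (ℕ × ℕ)) (A5 A7 A13 : List ℕ) : Bool :=
  allR (fun a => allR (fun v => cl8 (nat_lit 11) (pos (nat_lit 11) (nat_lit 9) PT11) a v fun X11 =>
    cond0 (Nat.mod (evL t1_143N5 t2_143N5 t3_143N5 rows_143N5 (nat_lit 1) X11 X13 o8 A5) (nat_lit 5)) (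
    cond0 (Nat.mod (evL t1_143N7 t2_143N7 t3_143N7 rows_143N7 (nat_lit 1) X11 X13 o8 A7) (nat_lit 7)) (
    st8_17 X5 X7 X11 X13 A5 A7 A13))) (nat_lit 11)) (nat_lit 11)

lemma st8_11_spec {A v : ℤ} (S : ESys Q D (J8 A v)) (hQ : 72407335 ∣ Q)
    (h : st8_11 ((J8 A v).map (cp 5 (pos 5 3 PT5))) ((J8 A v).map (cp 7 (pos 7 5 PT7))) ((J8 A v).map (cp 13 (pos 13 11 PT13))) ((J8 A v).map fun j => rs 5 j.α) ((J8 A v).map fun j => rs 7 j.α) ((J8 A v).map fun j => rs 13 j.α) = true) : False := by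
  unfold st8_11 at h
  have h := allR_spec (allR_spec h (rs 11 A) (rs_lt A)) (rs 11 v) (rs_lt v)
  have h := cl8_spec S (by norm_num) (by norm_num) (Dvd.dvd.trans (by norm_num) hQ) h
  have h := cond0_zero (z8_143N5 S J8_κ J8_len (Dvd.dvd.trans (by norm_num) hQ)) h
  have h := cond0_zero (z8_143N7 S J8_κ J8_len (Dvd.dvd.trans (by norm_num) hQ)) h
  exact st8_17_spec S (Dvd.dvd.trans (by norm_num) hQ) h

/-- stage 5 -/
def st8_5 (X7 X13 : List (ℕ × ℕ)) (A7 A13 : List ℕ) : Bool :=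
  allR (fun a => allR (fun v => cl8 (nat_lit 5) (pos (nat_lit 5) (nat_lit 3) PT5) a v fun X5 =>
    al8 (nat_lit 5) a v fun A5 =>
    cond0 (Nat.mod (evL t1_455F13a t2_455F13a t3_455F13a rows_455F13a (nat_lit 10) X13 X7 X5 A13) (nat_lit 13)) (
    cond0 (Nat.mod (evL t1_455F13b t2_455F13b t3_455F13b rows_455F13b (nat_lit 10) X13 X7 X5 A13) (nat_lit 13)) (
    cond0 (Nat.mod (evL t1_455F13c t2_455F13c t3_455F13c rows_455F13c (nat_lit 10) X13 X7 X5 A13) (nat_lit 13)) (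
    st8_11 X5 X7 X13 A5 A7 A13)))) (nat_lit 5)) (nat_lit 5)

lemma st8_5_spec {A v : ℤ} (S : ESys Q D (J8 A v)) (hQ : 72407335 ∣ Q)
    (h : st8_5 ((J8 A v).map (cp 7 (pos 7 5 PT7))) ((J8 A v).map (cp 13 (pos 13 11 PT13))) ((J8 A v).map fun j => rs 7 j.α) ((J8 A v).map fun j => rs 13 j.α) = true) : False := by
  unfold st8_5 at h
  have h := allR_spec (allR_spec h (rs 5 A) (rs_lt A)) (rs 5 v) (rs_lt v)
  have h := cl8_spec S (by norm_num) (by norm_num) (Dvd.dvd.trans (by norm_num) hQ) h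
  have h := al8_spec h
  have h := cond0_zero (z8_455F13a S J8_κ J8_len (Dvd.dvd.trans (by norm_num) hQ)) h
  have h := cond0_zero (z8_455F13b S J8_κ J8_len (Dvd.dvd.trans (by norm_num) hQ)) h
  have h := cond0_zero (z8_455F13c S J8_κ J8_len (Dvd.dvd.trans (by norm_num) hQ)) h
  exact st8_11_spec S (Dvd.dvd.trans (by norm_num) hQ) h

/-- stage 13 -/
def st8_13 (X7 : List (ℕ × ℕ)) (A7 : List ℕ) : Bool :=
  allR (fun a => allR (fun v => cl8 (nat_lit 13) (pos (nat_lit 13) (nat_lit 11) PT13) a v fun X13 =>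
    al8 (nat_lit 13) a v fun A13 =>
    cond0 (Nat.mod (evL t1_91F13 t2_91F13 t3_91F13 rows_91F13 (nat_lit 1) X13 X7 o8 A13) (nat_lit 13)) (
    st8_5 X7 X13 A7 A13)) (nat_lit 13)) (nat_lit 13)

lemma st8_13_spec {A v : ℤ} (S : ESys Q D (J8 A v)) (hQ : 72407335 ∣ Q)
    (h : st8_13 ((J8 A v).map (cp 7 (pos 7 5 PT7))) ((J8 A v).map fun j => rs 7 j.α) = true) : False := by
  unfold st8_13 at h
  have h := allR_spec (allR_spec h (rs 13 A) (rs_lt A)) (rs 13 v) (rs_lt v)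
  have h := cl8_spec S (by norm_num) (by norm_num) (Dvd.dvd.trans (by norm_num) hQ) h
  have h := al8_spec h
  have h := cond0_zero (z8_91F13 S J8_κ J8_len (Dvd.dvd.trans (by norm_num) hQ)) h
  exact st8_5_spec S (Dvd.dvd.trans (by norm_num) hQ) h

/-- stage 7 -/
def st8_7 (a : ℕ) : Bool :=
  allR (fun v => cl8 (nat_lit 7) (pos (nat_lit 7) (nat_lit 5) PT7) a v fun X7 =>
    al8 (nat_lit 7) a v fun A7 =>
    st8_13 X7 A7) (nat_lit 7)

lemma st8_7_spec {A v : ℤ} (S : ESys Q D (J8 A v)) (hQ : 72407335 ∣ Q)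
    (h : st8_7 (rs 7 A)   = true) : False := by
  unfold st8_7 at h
  have h := allR_spec h (rs 7 v) (rs_lt v)
  have h := cl8_spec S (by norm_num) (by norm_num) (Dvd.dvd.trans (by norm_num) hQ) h
  have h := al8_spec h
  exact st8_13_spec S (Dvd.dvd.trans (by norm_num) hQ) h

end Pool.Agent.PSX.Ev
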