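import Pool.Agent.PSX.EvD403F13

/-! generated: a part of the check of a table -/

namespace Pool.Agent.PSX.Ev

open Pool.Agent.LibH4 Pool.Agent.LibH4.Ker
open Pool.Agent.Lib_helper5 Pool.Agent.Lib_helper5.LK Pool.Agent.Lib_helper5.TB

lemma tc3_403F13 : tabCkAll (nat_lit 13) (nat_lit 31) (nat_lit 1) (nat_lit 2197) (nat_lit 169) T1_403F13 T2_403F13 T3_403F13 K4.ds13 L31 PO fs3_403F13 F31 F1 (nat_lit 80) (nat_lit 2560) (nat_lit 2480) (nat_lit 0) W_403F13 Y1_403F13 Y0_403F13 (nat_lit 1) rw3_403F13 = true := by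
  decide +kernel

end Pool.Agent.PSX.Ev
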