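import Pool.Agent.PSX.EvP403F13_0
import Pool.Agent.PSX.EvP403F13_1
import Pool.Agent.PSX.EvP403F13_2
import Pool.Agent.PSX.EvP403F13_3
import Pool.Agent.PSX.EvP403F13_4
import Pool.Agent.PSX.EvP403F13_5

/-! generated: table of a relation -/

namespace Pool.Agent.PSX.Ev

open Pool.Agent.LibH4 Pool.Agent.LibH4.Ker
open Pool.Agent.Lib_helper5 Pool.Agent.Lib_helper5.LK Pool.Agent.Lib_helper5.TB

lemma wchk_403F13 : wchkG (nat_lit 13) (nat_lit 31) (nat_lit 1) (nat_lit 248) (nat_lit 156) (nat_lit 0) (nat_lit 2197) (nat_lit 1) (nat_lit 0) T1_403F13 T2_403F13 T3_403F13 X_403F13 L13 L31 PO (nat_lit 80) (nat_lit 2560) W_403F13 Y1_403F13 Y0_403F13 = true := by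
  decide +kernel

lemma tab1_403F13 : tabCk (nat_lit 13) (nat_lit 2197) T1_403F13 = true := by decide +kernel
lemma tab2_403F13 : tabCk (nat_lit 31) (nat_lit 2197) T2_403F13 = true := by decide +kernel
lemma tab3_403F13 : tabCk (nat_lit 1) (nat_lit 2197) T3_403F13 = true := by decide +kernel
lemma rok_403F13 : relOk (nat_lit 13) (nat_lit 31) (nat_lit 1) (nat_lit 2197) T1_403F13 T2_403F13 T3_403F13 = true := by decide +kernel
lemma red1_403F13 : redCk (nat_lit 13) T1_403F13 t1_403F13 (nat_lit 13) = true := by decide +kernel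
lemma red2_403F13 : redCk (nat_lit 31) T2_403F13 t2_403F13 (nat_lit 13) = true := by decide +kernel
lemma red3_403F13 : redCk (nat_lit 1) T3_403F13 t3_403F13 (nat_lit 13) = true := by decide +kernel

theorem good_403F13 : GoodT 13 31 1 248 156 0 2197 T1_403F13 T2_403F13 T3_403F13 L31 PO 80 2560 W_403F13 Y1_403F13 Y0_403F13 where
  hp := by norm_num
  idem := by constructor <;> decide
  p2 := (L31_eq ▸ isP1_PL (by norm_num))
  p3 := isP1_PO
  ne2 := by decide
  ne3 := by decide
  qn := by constructor <;> norm_num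
  t1 := tab1_403F13
  t2 := tab2_403F13
  t3 := tab3_403F13
  ws := by
    rw [← L13_eq]
    exact wchkG_spec (by constructor <;> norm_num) (by decide +kernel) (by decide +kernel)
      (by decide +kernel) wchk_403F13
  hw3 := by decide
  hw := by decide
  hB := by
    have h2 : (L31).length = 32 := by decide
    have h3 : (PO).length = 1 := by decide
    rw [h2, h3]
    unfold BA
    norm_num

lemma tchk_403F13 : tabCkAll (nat_lit 13) (nat_lit 31) (nat_lit 1) (nat_lit 2197) (nat_lit 169) T1_403F13 T2_403F13 T3_403F13 K4.ds13 L31 PO F13 F31 F1 (nat_lit 80) (nat_lit 2560) (nat_lit 2480) (nat_lit 0) W_403F13 Y1_403F13 Y0_403F13 (nat_lit 1) rows_403F13 = true := by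
  rw [fs_403F13, rw_403F13]
  exact tabCkAll_append tc0_403F13 (tabCkAll_append tc1_403F13 (tabCkAll_append tc2_403F13 (tabCkAll_append tc3_403F13 (tabCkAll_append tc4_403F13 (tc5_403F13)))))

theorem tok_403F13 : TabOK 13 31 1 2197 169 T1_403F13 T2_403F13 T3_403F13 F13 F31 F1 rows_403F13 :=
  tabCkAll_spec good_403F13 (by norm_num) (by decide) (by decide) (by decide) tchk_403F13

end Pool.Agent.PSX.Ev
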