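import Pool.Agent.PSX.EvKer
import Pool.Agent.PSX.EvT217F7
import Pool.Agent.PSX.EvT217N11
import Pool.Agent.PSX.EvT403N7
import Pool.Agent.PSX.EvT403F13
import Pool.Agent.RQM.C55
import Pool.Agent.RQM.C56
import Pool.Agent.RQM.C57
import Pool.Agent.RQM.C58
import Pool.Agent.RQM.C59
import Pool.Agent.RQM.C60
import Pool.Agent.RQM.C61
import Pool.Agent.RQM.C62

/-! generated: vanishing of the values of the relations -/

namespace Pool.Agent.PSX.Ev

open Pool.Agent.LibH4 Pool.Agent.LibH4.Ker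
open Pool.Agent.Lib_helper5 Pool.Agent.Lib_helper5.LK Pool.Agent.Lib_helper5.TB

variable {Q : ℕ} {D : ℤ} {J : List Fm}

lemma dvd6 {x y Q : ℕ} (h : y ∣ Q) (h' : x ∣ y ^ 6) : x ∣ Q ^ 6 := h'.trans (pow_dvd_pow_of_dvd h 6)

lemma z_91F13 (S : ESys Q D J) (hκ : ∀ j ∈ J, j.κ = 3) (h6 : J.length = 6) (hQ : 91 ∣ Q) :
    Nat.mod (evL t1_91F13 t2_91F13 t3_91F13 rows_91F13 (nat_lit 1) (J.map (cp 13 (pos 13 11 PT13)))
      (J.map (cp 7 (pos 7 5 PT7))) o6 (J.map fun j => rs 13 j.α)) (nat_lit 13) = 0 := by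
  have hF : F1.length = 1 := by decide
  have key := S.use tok_91F13 tab1_91F13 tab2_91F13 tab3_91F13 rok_91F13 red1_91F13 red2_91F13 red3_91F13
    (CompG.of comp13) (CompG.of comp7) (CompG.of comp1) (by norm_num) (by norm_num) (by norm_num)
    (adP_J S (by norm_num) (Dvd.dvd.trans (by norm_num) hQ))
    (adP_J S (by norm_num) (Dvd.dvd.trans (by norm_num) hQ))
    (adT_J 1 J) (dvd6 hQ (by norm_num))
  rw [hF] at key
  rw [← o6_eq h6, evL_eq 13 7 1 13 _ _ _ _ _ _ _ _ _ hκ]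
  exact key

lemma z_455F13a (S : ESys Q D J) (hκ : ∀ j ∈ J, j.κ = 3) (h6 : J.length = 6) (hQ : 455 ∣ Q) :
    Nat.mod (evL t1_455F13a t2_455F13a t3_455F13a rows_455F13a (nat_lit 10) (J.map (cp 13 (pos 13 11 PT13)))
      (J.map (cp 7 (pos 7 5 PT7))) (J.map (cp 5 (pos 5 3 PT5))) (J.map fun j => rs 13 j.α)) (nat_lit 13) = 0 := by
  have hF : F5.length = 10 := by decide
  have key := S.use tok_455F13a tab1_455F13a tab2_455F13a tab3_455F13a rok_455F13a red1_455F13a red2_455F13a red3_455F13a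
    (CompG.of comp13) (CompG.of comp7) (CompG.of comp5) (by norm_num) (by norm_num) (by norm_num)
    (adP_J S (by norm_num) (Dvd.dvd.trans (by norm_num) hQ))
    (adP_J S (by norm_num) (Dvd.dvd.trans (by norm_num) hQ))
    (adP_J S (by norm_num) (Dvd.dvd.trans (by norm_num) hQ)) (dvd6 hQ (by norm_num))
  rw [hF] at key
  rw [evL_eq 13 7 5 13 _ _ _ _ _ _ _ _ _ hκ]
  exact key

lemma z_455F13b (S : ESys Q D J) (hκ : ∀ j ∈ J, j.κ = 3) (h6 : J.length = 6) (hQ : 455 ∣ Q) :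
    Nat.mod (evL t1_455F13b t2_455F13b t3_455F13b rows_455F13b (nat_lit 10) (J.map (cp 13 (pos 13 11 PT13)))
      (J.map (cp 7 (pos 7 5 PT7))) (J.map (cp 5 (pos 5 3 PT5))) (J.map fun j => rs 13 j.α)) (nat_lit 13) = 0 := by
  have hF : F5.length = 10 := by decide
  have key := S.use tok_455F13b tab1_455F13b tab2_455F13b tab3_455F13b rok_455F13b red1_455F13b red2_455F13b red3_455F13b
    (CompG.of comp13) (CompG.of comp7) (CompG.of comp5) (by norm_num) (by norm_num) (by norm_num)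
    (adP_J S (by norm_num) (Dvd.dvd.trans (by norm_num) hQ))
    (adP_J S (by norm_num) (Dvd.dvd.trans (by norm_num) hQ))
    (adP_J S (by norm_num) (Dvd.dvd.trans (by norm_num) hQ)) (dvd6 hQ (by norm_num))
  rw [hF] at key
  rw [evL_eq 13 7 5 13 _ _ _ _ _ _ _ _ _ hκ]
  exact key

lemma z_455F13c (S : ESys Q D J) (hκ : ∀ j ∈ J, j.κ = 3) (h6 : J.length = 6) (hQ : 455 ∣ Q) :
    Nat.mod (evL t1_455F13c t2_455F13c t3_455F13c rows_455F13c (nat_lit 10) (J.map (cp 13 (pos 13 11 PT13)))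
      (J.map (cp 7 (pos 7 5 PT7))) (J.map (cp 5 (pos 5 3 PT5))) (J.map fun j => rs 13 j.α)) (nat_lit 13) = 0 := by
  have hF : F5.length = 10 := by decide
  have key := S.use tok_455F13c tab1_455F13c tab2_455F13c tab3_455F13c rok_455F13c red1_455F13c red2_455F13c red3_455F13c
    (CompG.of comp13) (CompG.of comp7) (CompG.of comp5) (by norm_num) (by norm_num) (by norm_num)
    (adP_J S (by norm_num) (Dvd.dvd.trans (by norm_num) hQ))
    (adP_J S (by norm_num) (Dvd.dvd.trans (by norm_num) hQ))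
    (adP_J S (by norm_num) (Dvd.dvd.trans (by norm_num) hQ)) (dvd6 hQ (by norm_num))
  rw [hF] at key
  rw [evL_eq 13 7 5 13 _ _ _ _ _ _ _ _ _ hκ]
  exact key

lemma z_455F13d (S : ESys Q D J) (hκ : ∀ j ∈ J, j.κ = 3) (h6 : J.length = 6) (hQ : 455 ∣ Q) :
    Nat.mod (evL t1_455F13d t2_455F13d t3_455F13d rows_455F13d (nat_lit 10) (J.map (cp 13 (pos 13 11 PT13)))
      (J.map (cp 7 (pos 7 5 PT7))) (J.map (cp 5 (pos 5 3 PT5))) (J.map fun j => rs 13 j.α)) (nat_lit 13) = 0 := by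
  have hF : F5.length = 10 := by decide
  have key := S.use tok_455F13d tab1_455F13d tab2_455F13d tab3_455F13d rok_455F13d red1_455F13d red2_455F13d red3_455F13d
    (CompG.of comp13) (CompG.of comp7) (CompG.of comp5) (by norm_num) (by norm_num) (by norm_num)
    (adP_J S (by norm_num) (Dvd.dvd.trans (by norm_num) hQ))
    (adP_J S (by norm_num) (Dvd.dvd.trans (by norm_num) hQ))
    (adP_J S (by norm_num) (Dvd.dvd.trans (by norm_num) hQ)) (dvd6 hQ (by norm_num))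
  rw [hF] at key
  rw [evL_eq 13 7 5 13 _ _ _ _ _ _ _ _ _ hκ]
  exact key

lemma z_119N13 (S : ESys Q D J) (hκ : ∀ j ∈ J, j.κ = 3) (h6 : J.length = 6) (hQ : 1547 ∣ Q) :
    Nat.mod (evL t1_119N13 t2_119N13 t3_119N13 rows_119N13 (nat_lit 1) (J.map (cp 17 (pos 17 15 PT17)))
      (J.map (cp 7 (pos 7 5 PT7))) o6 (J.map fun j => rs 13 j.α)) (nat_lit 13) = 0 := by
  have hF : F1.length = 1 := by decide
  have key := S.use tok_119N13 tab1_119N13 tab2_119N13 tab3_119N13 rok_119N13 red1_119N13 red2_119N13 red3_119N13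
    (CompG.of comp17) (CompG.of comp7) (CompG.of comp1) (by norm_num) (by norm_num) (by norm_num)
    (adP_J S (by norm_num) (Dvd.dvd.trans (by norm_num) hQ))
    (adP_J S (by norm_num) (Dvd.dvd.trans (by norm_num) hQ))
    (adT_J 1 J) (dvd6 hQ (by norm_num))
  rw [hF] at key
  rw [← o6_eq h6, evL_eq 17 7 1 13 _ _ _ _ _ _ _ _ _ hκ]
  exact key

lemma z_119N5 (S : ESys Q D J) (hκ : ∀ j ∈ J, j.κ = 3) (h6 : J.length = 6) (hQ : 595 ∣ Q) :
    Nat.mod (evL t1_119N5 t2_119N5 t3_119N5 rows_119N5 (nat_lit 1) (J.map (cp 17 (pos 17 15 PT17)))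
      (J.map (cp 7 (pos 7 5 PT7))) o6 (J.map fun j => rs 5 j.α)) (nat_lit 5) = 0 := by
  have hF : F1.length = 1 := by decide
  have key := S.use tok_119N5 tab1_119N5 tab2_119N5 tab3_119N5 rok_119N5 red1_119N5 red2_119N5 red3_119N5
    (CompG.of comp17) (CompG.of comp7) (CompG.of comp1) (by norm_num) (by norm_num) (by norm_num)
    (adP_J S (by norm_num) (Dvd.dvd.trans (by norm_num) hQ))
    (adP_J S (by norm_num) (Dvd.dvd.trans (by norm_num) hQ))
    (adT_J 1 J) (dvd6 hQ (by norm_num))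
  rw [hF] at key
  rw [← o6_eq h6, evL_eq 17 7 1 5 _ _ _ _ _ _ _ _ _ hκ]
  exact key

lemma z_221N5 (S : ESys Q D J) (hκ : ∀ j ∈ J, j.κ = 3) (h6 : J.length = 6) (hQ : 1105 ∣ Q) :
    Nat.mod (evL t1_221N5 t2_221N5 t3_221N5 rows_221N5 (nat_lit 1) (J.map (cp 17 (pos 17 15 PT17)))
      (J.map (cp 13 (pos 13 11 PT13))) o6 (J.map fun j => rs 5 j.α)) (nat_lit 5) = 0 := by
  have hF : F1.length = 1 := by decide
  have key := S.use tok_221N5 tab1_221N5 tab2_221N5 tab3_221N5 rok_221N5 red1_221N5 red2_221N5 red3_221N5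
    (CompG.of comp17) (CompG.of comp13) (CompG.of comp1) (by norm_num) (by norm_num) (by norm_num)
    (adP_J S (by norm_num) (Dvd.dvd.trans (by norm_num) hQ))
    (adP_J S (by norm_num) (Dvd.dvd.trans (by norm_num) hQ))
    (adT_J 1 J) (dvd6 hQ (by norm_num))
  rw [hF] at key
  rw [← o6_eq h6, evL_eq 17 13 1 5 _ _ _ _ _ _ _ _ _ hκ]
  exact key

lemma z_143N5 (S : ESys Q D J) (hκ : ∀ j ∈ J, j.κ = 3) (h6 : J.length = 6) (hQ : 715 ∣ Q) :
    Nat.mod (evL t1_143N5 t2_143N5 t3_143N5 rows_143N5 (nat_lit 1) (J.map (cp 11 (pos 11 9 PT11)))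
      (J.map (cp 13 (pos 13 11 PT13))) o6 (J.map fun j => rs 5 j.α)) (nat_lit 5) = 0 := by
  have hF : F1.length = 1 := by decide
  have key := S.use tok_143N5 tab1_143N5 tab2_143N5 tab3_143N5 rok_143N5 red1_143N5 red2_143N5 red3_143N5
    (CompG.of comp11) (CompG.of comp13) (CompG.of comp1) (by norm_num) (by norm_num) (by norm_num)
    (adP_J S (by norm_num) (Dvd.dvd.trans (by norm_num) hQ))
    (adP_J S (by norm_num) (Dvd.dvd.trans (by norm_num) hQ))
    (adT_J 1 J) (dvd6 hQ (by norm_num))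
  rw [hF] at key
  rw [← o6_eq h6, evL_eq 11 13 1 5 _ _ _ _ _ _ _ _ _ hκ]
  exact key

lemma z_143N7 (S : ESys Q D J) (hκ : ∀ j ∈ J, j.κ = 3) (h6 : J.length = 6) (hQ : 1001 ∣ Q) :
    Nat.mod (evL t1_143N7 t2_143N7 t3_143N7 rows_143N7 (nat_lit 1) (J.map (cp 11 (pos 11 9 PT11)))
      (J.map (cp 13 (pos 13 11 PT13))) o6 (J.map fun j => rs 7 j.α)) (nat_lit 7) = 0 := by
  have hF : F1.length = 1 := by decide
  have key := S.use tok_143N7 tab1_143N7 tab2_143N7 tab3_143N7 rok_143N7 red1_143N7 red2_143N7 red3_143N7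
    (CompG.of comp11) (CompG.of comp13) (CompG.of comp1) (by norm_num) (by norm_num) (by norm_num)
    (adP_J S (by norm_num) (Dvd.dvd.trans (by norm_num) hQ))
    (adP_J S (by norm_num) (Dvd.dvd.trans (by norm_num) hQ))
    (adT_J 1 J) (dvd6 hQ (by norm_num))
  rw [hF] at key
  rw [← o6_eq h6, evL_eq 11 13 1 7 _ _ _ _ _ _ _ _ _ hκ]
  exact key

lemma z_187F17a (S : ESys Q D J) (hκ : ∀ j ∈ J, j.κ = 3) (h6 : J.length = 6) (hQ : 187 ∣ Q) :
    Nat.mod (evL t1_187F17a t2_187F17a t3_187F17a rows_187F17a (nat_lit 1) (J.map (cp 17 (pos 17 15 PT17)))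
      (J.map (cp 11 (pos 11 9 PT11))) o6 (J.map fun j => rs 17 j.α)) (nat_lit 17) = 0 := by
  have hF : F1.length = 1 := by decide
  have key := S.use tok_187F17a tab1_187F17a tab2_187F17a tab3_187F17a rok_187F17a red1_187F17a red2_187F17a red3_187F17a
    (CompG.of comp17) (CompG.of comp11) (CompG.of comp1) (by norm_num) (by norm_num) (by norm_num)
    (adP_J S (by norm_num) (Dvd.dvd.trans (by norm_num) hQ))
    (adP_J S (by norm_num) (Dvd.dvd.trans (by norm_num) hQ))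
    (adT_J 1 J) (dvd6 hQ (by norm_num))
  rw [hF] at key
  rw [← o6_eq h6, evL_eq 17 11 1 17 _ _ _ _ _ _ _ _ _ hκ]
  exact key

lemma z_187F17b (S : ESys Q D J) (hκ : ∀ j ∈ J, j.κ = 3) (h6 : J.length = 6) (hQ : 187 ∣ Q) :
    Nat.mod (evL t1_187F17b t2_187F17b t3_187F17b rows_187F17b (nat_lit 1) (J.map (cp 17 (pos 17 15 PT17)))
      (J.map (cp 11 (pos 11 9 PT11))) o6 (J.map fun j => rs 17 j.α)) (nat_lit 17) = 0 := by
  have hF : F1.length = 1 := by decide
  have key := S.use tok_187F17b tab1_187F17b tab2_187F17b tab3_187F17b rok_187F17b red1_187F17b red2_187F17b red3_187F17b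
    (CompG.of comp17) (CompG.of comp11) (CompG.of comp1) (by norm_num) (by norm_num) (by norm_num)
    (adP_J S (by norm_num) (Dvd.dvd.trans (by norm_num) hQ))
    (adP_J S (by norm_num) (Dvd.dvd.trans (by norm_num) hQ))
    (adT_J 1 J) (dvd6 hQ (by norm_num))
  rw [hF] at key
  rw [← o6_eq h6, evL_eq 17 11 1 17 _ _ _ _ _ _ _ _ _ hκ]
  exact key

lemma z_217F7 (S : ESys Q D J) (hκ : ∀ j ∈ J, j.κ = 3) (h6 : J.length = 6) (hQ : 217 ∣ Q) :
    Nat.mod (evL t1_217F7 t2_217F7 t3_217F7 rows_217F7 (nat_lit 1) (J.map (cp 7 (pos 7 5 PT7)))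
      (J.map (cp 31 (posW 31 29 PT31))) o6 (J.map fun j => rs 7 j.α)) (nat_lit 7) = 0 := by
  have hF : F1.length = 1 := by decide
  have key := S.use tok_217F7 tab1_217F7 tab2_217F7 tab3_217F7 rok_217F7 red1_217F7 red2_217F7 red3_217F7
    (CompG.of comp7) comp31 (CompG.of comp1) (by norm_num) (by norm_num) (by norm_num)
    (adP_J S (by norm_num) (Dvd.dvd.trans (by norm_num) hQ))
    (adP_J S (by norm_num) (Dvd.dvd.trans (by norm_num) hQ))
    (adT_J 1 J) (dvd6 hQ (by norm_num))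
  rw [hF] at key
  rw [← o6_eq h6, evL_eq 7 31 1 7 _ _ _ _ _ _ _ _ _ hκ]
  exact key

lemma z_403N7 (S : ESys Q D J) (hκ : ∀ j ∈ J, j.κ = 3) (h6 : J.length = 6) (hQ : 2821 ∣ Q) :
    Nat.mod (evL t1_403N7 t2_403N7 t3_403N7 rows_403N7 (nat_lit 1) (J.map (cp 13 (pos 13 11 PT13)))
      (J.map (cp 31 (posW 31 29 PT31))) o6 (J.map fun j => rs 7 j.α)) (nat_lit 7) = 0 := by
  have hF : F1.length = 1 := by decide
  have key := S.use tok_403N7 tab1_403N7 tab2_403N7 tab3_403N7 rok_403N7 red1_403N7 red2_403N7 red3_403N7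
    (CompG.of comp13) comp31 (CompG.of comp1) (by norm_num) (by norm_num) (by norm_num)
    (adP_J S (by norm_num) (Dvd.dvd.trans (by norm_num) hQ))
    (adP_J S (by norm_num) (Dvd.dvd.trans (by norm_num) hQ))
    (adT_J 1 J) (dvd6 hQ (by norm_num))
  rw [hF] at key
  rw [← o6_eq h6, evL_eq 13 31 1 7 _ _ _ _ _ _ _ _ _ hκ]
  exact key

lemma z_217N11 (S : ESys Q D J) (hκ : ∀ j ∈ J, j.κ = 3) (h6 : J.length = 6) (hQ : 2387 ∣ Q) :
    Nat.mod (evL t1_217N11 t2_217N11 t3_217N11 rows_217N11 (nat_lit 1) (J.map (cp 7 (pos 7 5 PT7)))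
      (J.map (cp 31 (posW 31 29 PT31))) o6 (J.map fun j => rs 11 j.α)) (nat_lit 11) = 0 := by
  have hF : F1.length = 1 := by decide
  have key := S.use tok_217N11 tab1_217N11 tab2_217N11 tab3_217N11 rok_217N11 red1_217N11 red2_217N11 red3_217N11
    (CompG.of comp7) comp31 (CompG.of comp1) (by norm_num) (by norm_num) (by norm_num)
    (adP_J S (by norm_num) (Dvd.dvd.trans (by norm_num) hQ))
    (adP_J S (by norm_num) (Dvd.dvd.trans (by norm_num) hQ))
    (adT_J 1 J) (dvd6 hQ (by norm_num))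
  rw [hF] at key
  rw [← o6_eq h6, evL_eq 7 31 1 11 _ _ _ _ _ _ _ _ _ hκ]
  exact key

lemma z_403F13 (S : ESys Q D J) (hκ : ∀ j ∈ J, j.κ = 3) (h6 : J.length = 6) (hQ : 403 ∣ Q) :
    Nat.mod (evL t1_403F13 t2_403F13 t3_403F13 rows_403F13 (nat_lit 1) (J.map (cp 13 (pos 13 11 PT13)))
      (J.map (cp 31 (posW 31 29 PT31))) o6 (J.map fun j => rs 13 j.α)) (nat_lit 13) = 0 := by
  have hF : F1.length = 1 := by decide
  have key := S.use tok_403F13 tab1_403F13 tab2_403F13 tab3_403F13 rok_403F13 red1_403F13 red2_403F13 red3_403F13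
    (CompG.of comp13) comp31 (CompG.of comp1) (by norm_num) (by norm_num) (by norm_num)
    (adP_J S (by norm_num) (Dvd.dvd.trans (by norm_num) hQ))
    (adP_J S (by norm_num) (Dvd.dvd.trans (by norm_num) hQ))
    (adT_J 1 J) (dvd6 hQ (by norm_num))
  rw [hF] at key
  rw [← o6_eq h6, evL_eq 13 31 1 13 _ _ _ _ _ _ _ _ _ hκ]
  exact key

end Pool.Agent.PSX.Ev
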