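import Pool.Agent.PSX.Ev8Ker
import Pool.Agent.PSX.EvZ
import Pool.Agent.PSX.Ev8T185N13
import Pool.Agent.PSX.Ev8T185F5a
import Pool.Agent.PSX.Ev8T185F5b
import Pool.Agent.PSX.Ev8T259N13a
import Pool.Agent.PSX.Ev8T391N5
import Pool.Agent.PSX.Ev8T391N7
import Pool.Agent.PSX.T_299N7
import Pool.Agent.PSX.T_805N13
import Pool.Agent.PSX.T_805F5

/-! generated: vanishing of the values of the relations, length eight -/

namespace Pool.Agent.PSX.Ev

open Pool.Agent.LibH4 Pool.Agent.LibH4.Ker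
open Pool.Agent.Lib_helper5 Pool.Agent.Lib_helper5.LK Pool.Agent.Lib_helper5.TB

variable {Q : ℕ} {D : ℤ} {J : List Fm}

lemma z8_91F13 (S : ESys Q D J) (hκ : ∀ j ∈ J, j.κ = 3) (h8 : J.length = 8) (hQ : 91 ∣ Q) :
    Nat.mod (evL t1_91F13 t2_91F13 t3_91F13 rows_91F13 (nat_lit 1) (J.map (cp 13 (pos 13 11 PT13)))
      (J.map (cp 7 (pos 7 5 PT7))) o8 (J.map fun j => rs 13 j.α)) (nat_lit 13) = 0 := by
  have hF : F1.length = 1 := by decide
  have key := S.use tok_91F13 tab1_91F13 tab2_91F13 tab3_91F13 rok_91F13 red1_91F13 red2_91F13 red3_91F13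
    (CompG.of comp13) (CompG.of comp7) (CompG.of comp1) (by norm_num) (by norm_num) (by norm_num)
    (adP_J S (by norm_num) (Dvd.dvd.trans (by norm_num) hQ))
    (adP_J S (by norm_num) (Dvd.dvd.trans (by norm_num) hQ))
    (adT_J 1 J) (dvd6 hQ (by norm_num))
  rw [hF] at key
  rw [← o8_eq h8, evL_eq 13 7 1 13 _ _ _ _ _ _ _ _ _ hκ]
  exact key

lemma z8_455F13a (S : ESys Q D J) (hκ : ∀ j ∈ J, j.κ = 3) (h8 : J.length = 8) (hQ : 455 ∣ Q) :
    Nat.mod (evL t1_455F13a t2_455F13a t3_455F13a rows_455F13a (nat_lit 10) (J.map (cp 13 (pos 13 11 PT13)))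
      (J.map (cp 7 (pos 7 5 PT7))) (J.map (cp 5 (pos 5 3 PT5))) (J.map fun j => rs 13 j.α)) (nat_lit 13) = 0 := by
  have hF : F5.length = 10 := by decide
  have key := S.use tok_455F13a tab1_455F13a tab2_455F13a tab3_455F13a rok_455F13a red1_455F13a red2_455F13a red3_455F13a
    (CompG.of comp13) (CompG.of comp7) (CompG.of comp5) (by norm_num) (by norm_num) (by norm_num)
    (adP_J S (by norm_num) (Dvd.dvd.trans (by norm_num) hQ))
    (adP_J S (by norm_num) (Dvd.dvd.trans (by norm_num) hQ))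
    (adP_J S (by norm_num) (Dvd.dvd.trans (by norm_num) hQ)) (dvd6 hQ (by norm_num))
  rw [hF] at key
  rw [evL_eq 13 7 5 13 _ _ _ _ _ _ _ _ _ hκ]
  exact key

lemma z8_455F13b (S : ESys Q D J) (hκ : ∀ j ∈ J, j.κ = 3) (h8 : J.length = 8) (hQ : 455 ∣ Q) :
    Nat.mod (evL t1_455F13b t2_455F13b t3_455F13b rows_455F13b (nat_lit 10) (J.map (cp 13 (pos 13 11 PT13)))
      (J.map (cp 7 (pos 7 5 PT7))) (J.map (cp 5 (pos 5 3 PT5))) (J.map fun j => rs 13 j.α)) (nat_lit 13) = 0 := by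
  have hF : F5.length = 10 := by decide
  have key := S.use tok_455F13b tab1_455F13b tab2_455F13b tab3_455F13b rok_455F13b red1_455F13b red2_455F13b red3_455F13b
    (CompG.of comp13) (CompG.of comp7) (CompG.of comp5) (by norm_num) (by norm_num) (by norm_num)
    (adP_J S (by norm_num) (Dvd.dvd.trans (by norm_num) hQ))
    (adP_J S (by norm_num) (Dvd.dvd.trans (by norm_num) hQ))
    (adP_J S (by norm_num) (Dvd.dvd.trans (by norm_num) hQ)) (dvd6 hQ (by norm_num))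
  rw [hF] at key
  rw [evL_eq 13 7 5 13 _ _ _ _ _ _ _ _ _ hκ]
  exact key

lemma z8_455F13c (S : ESys Q D J) (hκ : ∀ j ∈ J, j.κ = 3) (h8 : J.length = 8) (hQ : 455 ∣ Q) :
    Nat.mod (evL t1_455F13c t2_455F13c t3_455F13c rows_455F13c (nat_lit 10) (J.map (cp 13 (pos 13 11 PT13)))
      (J.map (cp 7 (pos 7 5 PT7))) (J.map (cp 5 (pos 5 3 PT5))) (J.map fun j => rs 13 j.α)) (nat_lit 13) = 0 := by
  have hF : F5.length = 10 := by decide
  have key := S.use tok_455F13c tab1_455F13c tab2_455F13c tab3_455F13c rok_455F13c red1_455F13c red2_455F13c red3_455F13c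
    (CompG.of comp13) (CompG.of comp7) (CompG.of comp5) (by norm_num) (by norm_num) (by norm_num)
    (adP_J S (by norm_num) (Dvd.dvd.trans (by norm_num) hQ))
    (adP_J S (by norm_num) (Dvd.dvd.trans (by norm_num) hQ))
    (adP_J S (by norm_num) (Dvd.dvd.trans (by norm_num) hQ)) (dvd6 hQ (by norm_num))
  rw [hF] at key
  rw [evL_eq 13 7 5 13 _ _ _ _ _ _ _ _ _ hκ]
  exact key

lemma z8_143N5 (S : ESys Q D J) (hκ : ∀ j ∈ J, j.κ = 3) (h8 : J.length = 8) (hQ : 715 ∣ Q) :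
    Nat.mod (evL t1_143N5 t2_143N5 t3_143N5 rows_143N5 (nat_lit 1) (J.map (cp 11 (pos 11 9 PT11)))
      (J.map (cp 13 (pos 13 11 PT13))) o8 (J.map fun j => rs 5 j.α)) (nat_lit 5) = 0 := by
  have hF : F1.length = 1 := by decide
  have key := S.use tok_143N5 tab1_143N5 tab2_143N5 tab3_143N5 rok_143N5 red1_143N5 red2_143N5 red3_143N5
    (CompG.of comp11) (CompG.of comp13) (CompG.of comp1) (by norm_num) (by norm_num) (by norm_num)
    (adP_J S (by norm_num) (Dvd.dvd.trans (by norm_num) hQ))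
    (adP_J S (by norm_num) (Dvd.dvd.trans (by norm_num) hQ))
    (adT_J 1 J) (dvd6 hQ (by norm_num))
  rw [hF] at key
  rw [← o8_eq h8, evL_eq 11 13 1 5 _ _ _ _ _ _ _ _ _ hκ]
  exact key

lemma z8_143N7 (S : ESys Q D J) (hκ : ∀ j ∈ J, j.κ = 3) (h8 : J.length = 8) (hQ : 1001 ∣ Q) :
    Nat.mod (evL t1_143N7 t2_143N7 t3_143N7 rows_143N7 (nat_lit 1) (J.map (cp 11 (pos 11 9 PT11)))
      (J.map (cp 13 (pos 13 11 PT13))) o8 (J.map fun j => rs 7 j.α)) (nat_lit 7) = 0 := by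
  have hF : F1.length = 1 := by decide
  have key := S.use tok_143N7 tab1_143N7 tab2_143N7 tab3_143N7 rok_143N7 red1_143N7 red2_143N7 red3_143N7
    (CompG.of comp11) (CompG.of comp13) (CompG.of comp1) (by norm_num) (by norm_num) (by norm_num)
    (adP_J S (by norm_num) (Dvd.dvd.trans (by norm_num) hQ))
    (adP_J S (by norm_num) (Dvd.dvd.trans (by norm_num) hQ))
    (adT_J 1 J) (dvd6 hQ (by norm_num))
  rw [hF] at key
  rw [← o8_eq h8, evL_eq 11 13 1 7 _ _ _ _ _ _ _ _ _ hκ]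
  exact key

lemma z8_119N13 (S : ESys Q D J) (hκ : ∀ j ∈ J, j.κ = 3) (h8 : J.length = 8) (hQ : 1547 ∣ Q) :
    Nat.mod (evL t1_119N13 t2_119N13 t3_119N13 rows_119N13 (nat_lit 1) (J.map (cp 17 (pos 17 15 PT17)))
      (J.map (cp 7 (pos 7 5 PT7))) o8 (J.map fun j => rs 13 j.α)) (nat_lit 13) = 0 := by
  have hF : F1.length = 1 := by decide
  have key := S.use tok_119N13 tab1_119N13 tab2_119N13 tab3_119N13 rok_119N13 red1_119N13 red2_119N13 red3_119N13
    (CompG.of comp17) (CompG.of comp7) (CompG.of comp1) (by norm_num) (by norm_num) (by norm_num)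
    (adP_J S (by norm_num) (Dvd.dvd.trans (by norm_num) hQ))
    (adP_J S (by norm_num) (Dvd.dvd.trans (by norm_num) hQ))
    (adT_J 1 J) (dvd6 hQ (by norm_num))
  rw [hF] at key
  rw [← o8_eq h8, evL_eq 17 7 1 13 _ _ _ _ _ _ _ _ _ hκ]
  exact key

lemma z8_119N5 (S : ESys Q D J) (hκ : ∀ j ∈ J, j.κ = 3) (h8 : J.length = 8) (hQ : 595 ∣ Q) :
    Nat.mod (evL t1_119N5 t2_119N5 t3_119N5 rows_119N5 (nat_lit 1) (J.map (cp 17 (pos 17 15 PT17)))
      (J.map (cp 7 (pos 7 5 PT7))) o8 (J.map fun j => rs 5 j.α)) (nat_lit 5) = 0 := by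
  have hF : F1.length = 1 := by decide
  have key := S.use tok_119N5 tab1_119N5 tab2_119N5 tab3_119N5 rok_119N5 red1_119N5 red2_119N5 red3_119N5
    (CompG.of comp17) (CompG.of comp7) (CompG.of comp1) (by norm_num) (by norm_num) (by norm_num)
    (adP_J S (by norm_num) (Dvd.dvd.trans (by norm_num) hQ))
    (adP_J S (by norm_num) (Dvd.dvd.trans (by norm_num) hQ))
    (adT_J 1 J) (dvd6 hQ (by norm_num))
  rw [hF] at key
  rw [← o8_eq h8, evL_eq 17 7 1 5 _ _ _ _ _ _ _ _ _ hκ]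
  exact key

lemma z8_187F17a (S : ESys Q D J) (hκ : ∀ j ∈ J, j.κ = 3) (h8 : J.length = 8) (hQ : 187 ∣ Q) :
    Nat.mod (evL t1_187F17a t2_187F17a t3_187F17a rows_187F17a (nat_lit 1) (J.map (cp 17 (pos 17 15 PT17)))
      (J.map (cp 11 (pos 11 9 PT11))) o8 (J.map fun j => rs 17 j.α)) (nat_lit 17) = 0 := by
  have hF : F1.length = 1 := by decide
  have key := S.use tok_187F17a tab1_187F17a tab2_187F17a tab3_187F17a rok_187F17a red1_187F17a red2_187F17a red3_187F17a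
    (CompG.of comp17) (CompG.of comp11) (CompG.of comp1) (by norm_num) (by norm_num) (by norm_num)
    (adP_J S (by norm_num) (Dvd.dvd.trans (by norm_num) hQ))
    (adP_J S (by norm_num) (Dvd.dvd.trans (by norm_num) hQ))
    (adT_J 1 J) (dvd6 hQ (by norm_num))
  rw [hF] at key
  rw [← o8_eq h8, evL_eq 17 11 1 17 _ _ _ _ _ _ _ _ _ hκ]
  exact key

lemma z8_187F17b (S : ESys Q D J) (hκ : ∀ j ∈ J, j.κ = 3) (h8 : J.length = 8) (hQ : 187 ∣ Q) :
    Nat.mod (evL t1_187F17b t2_187F17b t3_187F17b rows_187F17b (nat_lit 1) (J.map (cp 17 (pos 17 15 PT17)))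
      (J.map (cp 11 (pos 11 9 PT11))) o8 (J.map fun j => rs 17 j.α)) (nat_lit 17) = 0 := by
  have hF : F1.length = 1 := by decide
  have key := S.use tok_187F17b tab1_187F17b tab2_187F17b tab3_187F17b rok_187F17b red1_187F17b red2_187F17b red3_187F17b
    (CompG.of comp17) (CompG.of comp11) (CompG.of comp1) (by norm_num) (by norm_num) (by norm_num)
    (adP_J S (by norm_num) (Dvd.dvd.trans (by norm_num) hQ))
    (adP_J S (by norm_num) (Dvd.dvd.trans (by norm_num) hQ))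
    (adT_J 1 J) (dvd6 hQ (by norm_num))
  rw [hF] at key
  rw [← o8_eq h8, evL_eq 17 11 1 17 _ _ _ _ _ _ _ _ _ hκ]
  exact key

lemma z8_221N5 (S : ESys Q D J) (hκ : ∀ j ∈ J, j.κ = 3) (h8 : J.length = 8) (hQ : 1105 ∣ Q) :
    Nat.mod (evL t1_221N5 t2_221N5 t3_221N5 rows_221N5 (nat_lit 1) (J.map (cp 17 (pos 17 15 PT17)))
      (J.map (cp 13 (pos 13 11 PT13))) o8 (J.map fun j => rs 5 j.α)) (nat_lit 5) = 0 := by
  have hF : F1.length = 1 := by decide
  have key := S.use tok_221N5 tab1_221N5 tab2_221N5 tab3_221N5 rok_221N5 red1_221N5 red2_221N5 red3_221N5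
    (CompG.of comp17) (CompG.of comp13) (CompG.of comp1) (by norm_num) (by norm_num) (by norm_num)
    (adP_J S (by norm_num) (Dvd.dvd.trans (by norm_num) hQ))
    (adP_J S (by norm_num) (Dvd.dvd.trans (by norm_num) hQ))
    (adT_J 1 J) (dvd6 hQ (by norm_num))
  rw [hF] at key
  rw [← o8_eq h8, evL_eq 17 13 1 5 _ _ _ _ _ _ _ _ _ hκ]
  exact key

lemma z8_299N7 (S : ESys Q D J) (hκ : ∀ j ∈ J, j.κ = 3) (h8 : J.length = 8) (hQ : 2093 ∣ Q) :
    Nat.mod (evL EL.t1_299N7 EL.t2_299N7 EL.t3_299N7 EL.rows_299N7 (nat_lit 1) (J.map (cp 23 (pos 23 21 EL.PT23)))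
      (J.map (cp 13 (pos 13 11 PT13))) o8 (J.map fun j => rs 7 j.α)) (nat_lit 7) = 0 := by
  have hF : F1.length = 1 := by decide
  have key := S.use EL.tok_299N7 EL.tab1_299N7 EL.tab2_299N7 EL.tab3_299N7 EL.rok_299N7 EL.red1_299N7 EL.red2_299N7 EL.red3_299N7
    (CompG.of EL.comp23) (CompG.of comp13) (CompG.of comp1) (by norm_num) (by norm_num) (by norm_num)
    (adP_J S (by norm_num) (Dvd.dvd.trans (by norm_num) hQ))
    (adP_J S (by norm_num) (Dvd.dvd.trans (by norm_num) hQ))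
    (adT_J 1 J) (dvd6 hQ (by norm_num))
  rw [hF] at key
  rw [← o8_eq h8, evL_eq 23 13 1 7 _ _ _ _ _ _ _ _ _ hκ]
  exact key

lemma z8_805N13 (S : ESys Q D J) (hκ : ∀ j ∈ J, j.κ = 3) (h8 : J.length = 8) (hQ : 10465 ∣ Q) :
    Nat.mod (evL EL.t1_805N13 EL.t2_805N13 EL.t3_805N13 EL.rows_805N13 (nat_lit 10) (J.map (cp 23 (pos 23 21 EL.PT23)))
      (J.map (cp 7 (pos 7 5 PT7))) (J.map (cp 5 (pos 5 3 PT5))) (J.map fun j => rs 13 j.α)) (nat_lit 13) = 0 := by
  have hF : F5.length = 10 := by decide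
  have key := S.use EL.tok_805N13 EL.tab1_805N13 EL.tab2_805N13 EL.tab3_805N13 EL.rok_805N13 EL.red1_805N13 EL.red2_805N13 EL.red3_805N13
    (CompG.of EL.comp23) (CompG.of comp7) (CompG.of comp5) (by norm_num) (by norm_num) (by norm_num)
    (adP_J S (by norm_num) (Dvd.dvd.trans (by norm_num) hQ))
    (adP_J S (by norm_num) (Dvd.dvd.trans (by norm_num) hQ))
    (adP_J S (by norm_num) (Dvd.dvd.trans (by norm_num) hQ)) (dvd6 hQ (by norm_num))
  rw [hF] at key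
  rw [evL_eq 23 7 5 13 _ _ _ _ _ _ _ _ _ hκ]
  exact key

lemma z8_805F5 (S : ESys Q D J) (hκ : ∀ j ∈ J, j.κ = 3) (h8 : J.length = 8) (hQ : 805 ∣ Q) :
    Nat.mod (evL EL.t1_805F5 EL.t2_805F5 EL.t3_805F5 EL.rows_805F5 (nat_lit 10) (J.map (cp 23 (pos 23 21 EL.PT23)))
      (J.map (cp 7 (pos 7 5 PT7))) (J.map (cp 5 (pos 5 3 PT5))) (J.map fun j => rs 5 j.α)) (nat_lit 5) = 0 := by
  have hF : F5.length = 10 := by decide
  have key := S.use EL.tok_805F5 EL.tab1_805F5 EL.tab2_805F5 EL.tab3_805F5 EL.rok_805F5 EL.red1_805F5 EL.red2_805F5 EL.red3_805F5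
    (CompG.of EL.comp23) (CompG.of comp7) (CompG.of comp5) (by norm_num) (by norm_num) (by norm_num)
    (adP_J S (by norm_num) (Dvd.dvd.trans (by norm_num) hQ))
    (adP_J S (by norm_num) (Dvd.dvd.trans (by norm_num) hQ))
    (adP_J S (by norm_num) (Dvd.dvd.trans (by norm_num) hQ)) (dvd6 hQ (by norm_num))
  rw [hF] at key
  rw [evL_eq 23 7 5 5 _ _ _ _ _ _ _ _ _ hκ]
  exact key

lemma z8_391N5 (S : ESys Q D J) (hκ : ∀ j ∈ J, j.κ = 3) (h8 : J.length = 8) (hQ : 1955 ∣ Q) :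
    Nat.mod (evL t1_391N5 t2_391N5 t3_391N5 rows_391N5 (nat_lit 1) (J.map (cp 17 (pos 17 15 PT17)))
      (J.map (cp 23 (pos 23 21 EL.PT23))) o8 (J.map fun j => rs 5 j.α)) (nat_lit 5) = 0 := by
  have hF : F1.length = 1 := by decide
  have key := S.use tok_391N5 tab1_391N5 tab2_391N5 tab3_391N5 rok_391N5 red1_391N5 red2_391N5 red3_391N5
    (CompG.of comp17) (CompG.of EL.comp23) (CompG.of comp1) (by norm_num) (by norm_num) (by norm_num)
    (adP_J S (by norm_num) (Dvd.dvd.trans (by norm_num) hQ))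
    (adP_J S (by norm_num) (Dvd.dvd.trans (by norm_num) hQ))
    (adT_J 1 J) (dvd6 hQ (by norm_num))
  rw [hF] at key
  rw [← o8_eq h8, evL_eq 17 23 1 5 _ _ _ _ _ _ _ _ _ hκ]
  exact key

lemma z8_391N7 (S : ESys Q D J) (hκ : ∀ j ∈ J, j.κ = 3) (h8 : J.length = 8) (hQ : 2737 ∣ Q) :
    Nat.mod (evL t1_391N7 t2_391N7 t3_391N7 rows_391N7 (nat_lit 1) (J.map (cp 17 (pos 17 15 PT17)))
      (J.map (cp 23 (pos 23 21 EL.PT23))) o8 (J.map fun j => rs 7 j.α)) (nat_lit 7) = 0 := by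
  have hF : F1.length = 1 := by decide
  have key := S.use tok_391N7 tab1_391N7 tab2_391N7 tab3_391N7 rok_391N7 red1_391N7 red2_391N7 red3_391N7
    (CompG.of comp17) (CompG.of EL.comp23) (CompG.of comp1) (by norm_num) (by norm_num) (by norm_num)
    (adP_J S (by norm_num) (Dvd.dvd.trans (by norm_num) hQ))
    (adP_J S (by norm_num) (Dvd.dvd.trans (by norm_num) hQ))
    (adT_J 1 J) (dvd6 hQ (by norm_num))
  rw [hF] at key
  rw [← o8_eq h8, evL_eq 17 23 1 7 _ _ _ _ _ _ _ _ _ hκ]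
  exact key

lemma z8_185N13 (S : ESys Q D J) (hκ : ∀ j ∈ J, j.κ = 3) (h8 : J.length = 8) (hQ : 2405 ∣ Q) :
    Nat.mod (evL t1_185N13 t2_185N13 t3_185N13 rows_185N13 (nat_lit 1) (J.map (cp 5 (pos 5 3 PT5)))
      (J.map (cp 37 (posW 37 35 PT37))) o8 (J.map fun j => rs 13 j.α)) (nat_lit 13) = 0 := by
  have hF : F1.length = 1 := by decide
  have key := S.use tok_185N13 tab1_185N13 tab2_185N13 tab3_185N13 rok_185N13 red1_185N13 red2_185N13 red3_185N13
    (CompG.of comp5) comp37 (CompG.of comp1) (by norm_num) (by norm_num) (by norm_num)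
    (adP_J S (by norm_num) (Dvd.dvd.trans (by norm_num) hQ))
    (adP_J S (by norm_num) (Dvd.dvd.trans (by norm_num) hQ))
    (adT_J 1 J) (dvd6 hQ (by norm_num))
  rw [hF] at key
  rw [← o8_eq h8, evL_eq 5 37 1 13 _ _ _ _ _ _ _ _ _ hκ]
  exact key

lemma z8_185F5a (S : ESys Q D J) (hκ : ∀ j ∈ J, j.κ = 3) (h8 : J.length = 8) (hQ : 185 ∣ Q) :
    Nat.mod (evL t1_185F5a t2_185F5a t3_185F5a rows_185F5a (nat_lit 1) (J.map (cp 5 (pos 5 3 PT5)))
      (J.map (cp 37 (posW 37 35 PT37))) o8 (J.map fun j => rs 5 j.α)) (nat_lit 5) = 0 := by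
  have hF : F1.length = 1 := by decide
  have key := S.use tok_185F5a tab1_185F5a tab2_185F5a tab3_185F5a rok_185F5a red1_185F5a red2_185F5a red3_185F5a
    (CompG.of comp5) comp37 (CompG.of comp1) (by norm_num) (by norm_num) (by norm_num)
    (adP_J S (by norm_num) (Dvd.dvd.trans (by norm_num) hQ))
    (adP_J S (by norm_num) (Dvd.dvd.trans (by norm_num) hQ))
    (adT_J 1 J) (dvd6 hQ (by norm_num))
  rw [hF] at key
  rw [← o8_eq h8, evL_eq 5 37 1 5 _ _ _ _ _ _ _ _ _ hκ]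
  exact key

lemma z8_185F5b (S : ESys Q D J) (hκ : ∀ j ∈ J, j.κ = 3) (h8 : J.length = 8) (hQ : 185 ∣ Q) :
    Nat.mod (evL t1_185F5b t2_185F5b t3_185F5b rows_185F5b (nat_lit 1) (J.map (cp 5 (pos 5 3 PT5)))
      (J.map (cp 37 (posW 37 35 PT37))) o8 (J.map fun j => rs 5 j.α)) (nat_lit 5) = 0 := by
  have hF : F1.length = 1 := by decide
  have key := S.use tok_185F5b tab1_185F5b tab2_185F5b tab3_185F5b rok_185F5b red1_185F5b red2_185F5b red3_185F5b
    (CompG.of comp5) comp37 (CompG.of comp1) (by norm_num) (by norm_num) (by norm_num)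
    (adP_J S (by norm_num) (Dvd.dvd.trans (by norm_num) hQ))
    (adP_J S (by norm_num) (Dvd.dvd.trans (by norm_num) hQ))
    (adT_J 1 J) (dvd6 hQ (by norm_num))
  rw [hF] at key
  rw [← o8_eq h8, evL_eq 5 37 1 5 _ _ _ _ _ _ _ _ _ hκ]
  exact key

lemma z8_259N13a (S : ESys Q D J) (hκ : ∀ j ∈ J, j.κ = 3) (h8 : J.length = 8) (hQ : 3367 ∣ Q) :
    Nat.mod (evL t1_259N13a t2_259N13a t3_259N13a rows_259N13a (nat_lit 1) (J.map (cp 7 (pos 7 5 PT7)))
      (J.map (cp 37 (posW 37 35 PT37))) o8 (J.map fun j => rs 13 j.α)) (nat_lit 13) = 0 := by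
  have hF : F1.length = 1 := by decide
  have key := S.use tok_259N13a tab1_259N13a tab2_259N13a tab3_259N13a rok_259N13a red1_259N13a red2_259N13a red3_259N13a
    (CompG.of comp7) comp37 (CompG.of comp1) (by norm_num) (by norm_num) (by norm_num)
    (adP_J S (by norm_num) (Dvd.dvd.trans (by norm_num) hQ))
    (adP_J S (by norm_num) (Dvd.dvd.trans (by norm_num) hQ))
    (adT_J 1 J) (dvd6 hQ (by norm_num))
  rw [hF] at key
  rw [← o8_eq h8, evL_eq 7 37 1 13 _ _ _ _ _ _ _ _ _ hκ]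
  exact key

end Pool.Agent.PSX.Ev
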