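import Pool.Agent.PSX.EvTab

/-! generated: the component 31 -/

namespace Pool.Agent.PSX.Ev

open Pool.Agent.LibH4 Pool.Agent.LibH4.Ker
open Pool.Agent.Lib_helper5 Pool.Agent.Lib_helper5.LK Pool.Agent.Lib_helper5.TB

/-- representatives of the projective line -/
def L31 : List (ℕ × ℕ) := [(nat_lit 1, nat_lit 0), (nat_lit 1, nat_lit 1), (nat_lit 1, nat_lit 2), (nat_lit 1, nat_lit 3), (nat_lit 1, nat_lit 4), (nat_lit 1, nat_lit 5), (nat_lit 1, nat_lit 6), (nat_lit 1, nat_lit 7), (nat_lit 1, nat_lit 8), (nat_lit 1, nat_lit 9), (nat_lit 1, nat_lit 10), (nat_lit 1, nat_lit 11), (nat_lit 1, nat_lit 12), (nat_lit 1, nat_lit 13), (nat_lit 1, nat_lit 14), (nat_lit 1, nat_lit 15), (nat_lit 1, nat_lit 16), (nat_lit 1, nat_lit 17), (nat_lit 1, nat_lit 18), (nat_lit 1, nat_lit 19), (nat_lit 1, nat_lit 20), (nat_lit 1, nat_lit 21), (nat_lit 1, nat_lit 22), (nat_lit 1, nat_lit 23), (nat_lit 1, nat_lit 24), (nat_lit 1, nat_lit 25), (nat_lit 1, nat_lit 26), (nat_lit 1, nat_lit 27), (nat_lit 1, nat_lit 28), (nat_lit 1, nat_lit 29), (nat_lit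 1, nat_lit 30), (nat_lit 0, nat_lit 1)]

lemma L31_eq : L31 = PL 31 := by decide

/-- normalised forms modulo 31 -/
def F31 : List (ℕ × ℕ) := [(nat_lit 0, nat_lit 1), (nat_lit 0, nat_lit 2), (nat_lit 0, nat_lit 4), (nat_lit 0, nat_lit 5), (nat_lit 0, nat_lit 7), (nat_lit 0, nat_lit 8), (nat_lit 0, nat_lit 9), (nat_lit 0, nat_lit 10), (nat_lit 0, nat_lit 14), (nat_lit 0, nat_lit 16), (nat_lit 0, nat_lit 18), (nat_lit 0, nat_lit 19), (nat_lit 0, nat_lit 20), (nat_lit 0, nat_lit 25), (nat_lit 0, nat_lit 28), (nat_lit 1, nat_lit 2), (nat_lit 1, nat_lit 5), (nat_lit 1, nat_lit 9), (nat_lit 1, nat_lit 10), (nat_lit 1, nat_lit 12), (nat_lit 1, nat_lit 13), (nat_lit 1, nat_lit 15), (nat_lit 1, nat_lit 16), (nat_lit 1, nat_lit 17), (nat_lit 1, nat_lit 18), (nat_lit 1, nat_lit 22), (nat_lit 1, nat_lit 24), (nat_lit 1, nat_lit 26), (nat_lit 1, nat_lit 27), (nat_lit 1, nat_lit 28), (nat_lit 2, nat_lit 2), (nat_lit 2, nat_lit 3), (nat_lit 2, nat_lit 5), (nat_lit 2, nat_lit 6), (nat_lit 2, nat_lit 8), (nat_lit 2, nat_lit 9), (nat_lit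 2, nat_lit 10), (nat_lit 2, nat_lit 11), (nat_lit 2, nat_lit 15), (nat_lit 2, nat_lit 17), (nat_lit 2, nat_lit 19), (nat_lit 2, nat_lit 20), (nat_lit 2, nat_lit 21), (nat_lit 2, nat_lit 26), (nat_lit 2, nat_lit 29), (nat_lit 3, nat_lit 4), (nat_lit 3, nat_lit 7), (nat_lit 3, nat_lit 11), (nat_lit 3, nat_lit 12), (nat_lit 3, nat_lit 14), (nat_lit 3, nat_lit 15), (nat_lit 3, nat_lit 17), (nat_lit 3, nat_lit 18), (nat_lit 3, nat_lit 19), (nat_lit 3, nat_lit 20), (nat_lit 3, nat_lit 24), (nat_lit 3, nat_lit 26), (nat_lit 3, nat_lit 28), (nat_lit 3, nat_lit 29), (nat_lit 3, nat_lit 30), (nat_lit 4, nat_lit 1), (nat_lit 4, nat_lit 5), (nat_lit 4, nat_lit 6), (nat_lit 4, nat_lit 8), (nat_lit 4, nat_lit 9), (nat_lit 4, nat_lit 11), (nat_lit 4, nat_lit 12), (nat_lit 4, nat_lit 13), (nat_lit 4, nat_lit 14), (nat_lit 4, nat_lit 18), (nat_lit 4, nat_lit 20), (nat_lit 4, nat_lit 22), (nat_lit 4, nat_lit 23), (nat_lit 4, nat_lit 24), (nat_lit 4, nat_lit 29), (nat_lit 5, nat_lit 1), (nat_lit 5, nat_lit 2), (nat_lit 5, nat_lit 3), (nat_lit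 5, nat_lit 8), (nat_lit 5, nat_lit 11), (nat_lit 5, nat_lit 15), (nat_lit 5, nat_lit 16), (nat_lit 5, nat_lit 18), (nat_lit 5, nat_lit 19), (nat_lit 5, nat_lit 21), (nat_lit 5, nat_lit 22), (nat_lit 5, nat_lit 23), (nat_lit 5, nat_lit 24), (nat_lit 5, nat_lit 28), (nat_lit 5, nat_lit 30), (nat_lit 6, nat_lit 3), (nat_lit 6, nat_lit 6), (nat_lit 6, nat_lit 10), (nat_lit 6, nat_lit 11), (nat_lit 6, nat_lit 13), (nat_lit 6, nat_lit 14), (nat_lit 6, nat_lit 16), (nat_lit 6, nat_lit 17), (nat_lit 6, nat_lit 18), (nat_lit 6, nat_lit 19), (nat_lit 6, nat_lit 23), (nat_lit 6, nat_lit 25), (nat_lit 6, nat_lit 27), (nat_lit 6, nat_lit 28), (nat_lit 6, nat_lit 29), (nat_lit 7, nat_lit 3), (nat_lit 7, nat_lit 5), (nat_lit 7, nat_lit 7), (nat_lit 7, nat_lit 8), (nat_lit 7, nat_lit 9), (nat_lit 7, nat_lit 14), (nat_lit 7, nat_lit 17), (nat_lit 7, nat_lit 21), (nat_lit 7, nat_lit 22), (nat_lit 7, nat_lit 24), (nat_lit 7, nat_lit 25), (nat_lit 7, nat_lit 27), (nat_lit 7, nat_lit 28), (nat_lit 7, nat_lit 29), (nat_lit 7, nat_lit 30),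 (nat_lit 8, nat_lit 1), (nat_lit 8, nat_lit 3), (nat_lit 8, nat_lit 4), (nat_lit 8, nat_lit 5), (nat_lit 8, nat_lit 10), (nat_lit 8, nat_lit 13), (nat_lit 8, nat_lit 17), (nat_lit 8, nat_lit 18), (nat_lit 8, nat_lit 20), (nat_lit 8, nat_lit 21), (nat_lit 8, nat_lit 23), (nat_lit 8, nat_lit 24), (nat_lit 8, nat_lit 25), (nat_lit 8, nat_lit 26), (nat_lit 8, nat_lit 30), (nat_lit 9, nat_lit 1), (nat_lit 9, nat_lit 2), (nat_lit 9, nat_lit 4), (nat_lit 9, nat_lit 5), (nat_lit 9, nat_lit 6), (nat_lit 9, nat_lit 7), (nat_lit 9, nat_lit 11), (nat_lit 9, nat_lit 13), (nat_lit 9, nat_lit 15), (nat_lit 9, nat_lit 16), (nat_lit 9, nat_lit 17), (nat_lit 9, nat_lit 22), (nat_lit 9, nat_lit 25), (nat_lit 9, nat_lit 29), (nat_lit 9, nat_lit 30), (nat_lit 10, nat_lit 1), (nat_lit 10, nat_lit 2), (nat_lit 10, nat_lit 3), (nat_lit 10, nat_lit 4), (nat_lit 10, nat_lit 8), (nat_lit 10, nat_lit 10), (nat_lit 10, nat_lit 12), (nat_lit 10, nat_lit 13), (nat_lit 10, nat_lit 14), (nat_lit 10, nat_lit 19), (nat_lit 10, nat_lit 22), (nat_lit 10,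 nat_lit 26), (nat_lit 10, nat_lit 27), (nat_lit 10, nat_lit 29), (nat_lit 10, nat_lit 30), (nat_lit 11, nat_lit 1), (nat_lit 11, nat_lit 4), (nat_lit 11, nat_lit 8), (nat_lit 11, nat_lit 9), (nat_lit 11, nat_lit 11), (nat_lit 11, nat_lit 12), (nat_lit 11, nat_lit 14), (nat_lit 11, nat_lit 15), (nat_lit 11, nat_lit 16), (nat_lit 11, nat_lit 17), (nat_lit 11, nat_lit 21), (nat_lit 11, nat_lit 23), (nat_lit 11, nat_lit 25), (nat_lit 11, nat_lit 26), (nat_lit 11, nat_lit 27), (nat_lit 12, nat_lit 2), (nat_lit 12, nat_lit 6), (nat_lit 12, nat_lit 7), (nat_lit 12, nat_lit 9), (nat_lit 12, nat_lit 10), (nat_lit 12, nat_lit 12), (nat_lit 12, nat_lit 13), (nat_lit 12, nat_lit 14), (nat_lit 12, nat_lit 15), (nat_lit 12, nat_lit 19), (nat_lit 12, nat_lit 21), (nat_lit 12, nat_lit 23), (nat_lit 12, nat_lit 24), (nat_lit 12, nat_lit 25), (nat_lit 12, nat_lit 30), (nat_lit 13, nat_lit 2), (nat_lit 13, nat_lit 4), (nat_lit 13, nat_lit 6), (nat_lit 13, nat_lit 7), (nat_lit 13, nat_lit 8), (nat_lit 13, nat_lit 13), (nat_lit 13, nat_lit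 16), (nat_lit 13, nat_lit 20), (nat_lit 13, nat_lit 21), (nat_lit 13, nat_lit 23), (nat_lit 13, nat_lit 24), (nat_lit 13, nat_lit 26), (nat_lit 13, nat_lit 27), (nat_lit 13, nat_lit 28), (nat_lit 13, nat_lit 29), (nat_lit 14, nat_lit 1), (nat_lit 14, nat_lit 3), (nat_lit 14, nat_lit 5), (nat_lit 14, nat_lit 6), (nat_lit 14, nat_lit 7), (nat_lit 14, nat_lit 12), (nat_lit 14, nat_lit 15), (nat_lit 14, nat_lit 19), (nat_lit 14, nat_lit 20), (nat_lit 14, nat_lit 22), (nat_lit 14, nat_lit 23), (nat_lit 14, nat_lit 25), (nat_lit 14, nat_lit 26), (nat_lit 14, nat_lit 27), (nat_lit 14, nat_lit 28), (nat_lit 15, nat_lit 3), (nat_lit 15, nat_lit 4), (nat_lit 15, nat_lit 6), (nat_lit 15, nat_lit 7), (nat_lit 15, nat_lit 9), (nat_lit 15, nat_lit 10), (nat_lit 15, nat_lit 11), (nat_lit 15, nat_lit 12), (nat_lit 15, nat_lit 16), (nat_lit 15, nat_lit 18), (nat_lit 15, nat_lit 20), (nat_lit 15, nat_lit 21), (nat_lit 15, nat_lit 22), (nat_lit 15, nat_lit 27), (nat_lit 15, nat_lit 30), (nat_lit 16, nat_lit 3), (nat_lit 16, nat_lit 4),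 (nat_lit 16, nat_lit 6), (nat_lit 16, nat_lit 7), (nat_lit 16, nat_lit 9), (nat_lit 16, nat_lit 10), (nat_lit 16, nat_lit 11), (nat_lit 16, nat_lit 12), (nat_lit 16, nat_lit 16), (nat_lit 16, nat_lit 18), (nat_lit 16, nat_lit 20), (nat_lit 16, nat_lit 21), (nat_lit 16, nat_lit 22), (nat_lit 16, nat_lit 27), (nat_lit 16, nat_lit 30), (nat_lit 17, nat_lit 1), (nat_lit 17, nat_lit 3), (nat_lit 17, nat_lit 5), (nat_lit 17, nat_lit 6), (nat_lit 17, nat_lit 7), (nat_lit 17, nat_lit 12), (nat_lit 17, nat_lit 15), (nat_lit 17, nat_lit 19), (nat_lit 17, nat_lit 20), (nat_lit 17, nat_lit 22), (nat_lit 17, nat_lit 23), (nat_lit 17, nat_lit 25), (nat_lit 17, nat_lit 26), (nat_lit 17, nat_lit 27), (nat_lit 17, nat_lit 28), (nat_lit 18, nat_lit 2), (nat_lit 18, nat_lit 4), (nat_lit 18, nat_lit 6), (nat_lit 18, nat_lit 7), (nat_lit 18, nat_lit 8), (nat_lit 18, nat_lit 13), (nat_lit 18, nat_lit 16), (nat_lit 18, nat_lit 20), (nat_lit 18, nat_lit 21), (nat_lit 18, nat_lit 23), (nat_lit 18, nat_lit 24), (nat_lit 18, nat_lit 26), (nat_lit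 18, nat_lit 27), (nat_lit 18, nat_lit 28), (nat_lit 18, nat_lit 29), (nat_lit 19, nat_lit 2), (nat_lit 19, nat_lit 6), (nat_lit 19, nat_lit 7), (nat_lit 19, nat_lit 9), (nat_lit 19, nat_lit 10), (nat_lit 19, nat_lit 12), (nat_lit 19, nat_lit 13), (nat_lit 19, nat_lit 14), (nat_lit 19, nat_lit 15), (nat_lit 19, nat_lit 19), (nat_lit 19, nat_lit 21), (nat_lit 19, nat_lit 23), (nat_lit 19, nat_lit 24), (nat_lit 19, nat_lit 25), (nat_lit 19, nat_lit 30), (nat_lit 20, nat_lit 1), (nat_lit 20, nat_lit 4), (nat_lit 20, nat_lit 8), (nat_lit 20, nat_lit 9), (nat_lit 20, nat_lit 11), (nat_lit 20, nat_lit 12), (nat_lit 20, nat_lit 14), (nat_lit 20, nat_lit 15), (nat_lit 20, nat_lit 16), (nat_lit 20, nat_lit 17), (nat_lit 20, nat_lit 21), (nat_lit 20, nat_lit 23), (nat_lit 20, nat_lit 25), (nat_lit 20, nat_lit 26), (nat_lit 20, nat_lit 27), (nat_lit 21, nat_lit 1), (nat_lit 21, nat_lit 2), (nat_lit 21, nat_lit 3), (nat_lit 21, nat_lit 4), (nat_lit 21, nat_lit 8), (nat_lit 21, nat_lit 10), (nat_lit 21, nat_lit 12), (nat_lit 21, nat_lit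 13), (nat_lit 21, nat_lit 14), (nat_lit 21, nat_lit 19), (nat_lit 21, nat_lit 22), (nat_lit 21, nat_lit 26), (nat_lit 21, nat_lit 27), (nat_lit 21, nat_lit 29), (nat_lit 21, nat_lit 30), (nat_lit 22, nat_lit 1), (nat_lit 22, nat_lit 2), (nat_lit 22, nat_lit 4), (nat_lit 22, nat_lit 5), (nat_lit 22, nat_lit 6), (nat_lit 22, nat_lit 7), (nat_lit 22, nat_lit 11), (nat_lit 22, nat_lit 13), (nat_lit 22, nat_lit 15), (nat_lit 22, nat_lit 16), (nat_lit 22, nat_lit 17), (nat_lit 22, nat_lit 22), (nat_lit 22, nat_lit 25), (nat_lit 22, nat_lit 29), (nat_lit 22, nat_lit 30), (nat_lit 23, nat_lit 1), (nat_lit 23, nat_lit 3), (nat_lit 23, nat_lit 4), (nat_lit 23, nat_lit 5), (nat_lit 23, nat_lit 10), (nat_lit 23, nat_lit 13), (nat_lit 23, nat_lit 17), (nat_lit 23, nat_lit 18), (nat_lit 23, nat_lit 20), (nat_lit 23, nat_lit 21), (nat_lit 23, nat_lit 23), (nat_lit 23, nat_lit 24), (nat_lit 23, nat_lit 25), (nat_lit 23, nat_lit 26), (nat_lit 23, nat_lit 30), (nat_lit 24, nat_lit 3), (nat_lit 24, nat_lit 5), (nat_lit 24, nat_lit 7), (nat_lit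 24, nat_lit 8), (nat_lit 24, nat_lit 9), (nat_lit 24, nat_lit 14), (nat_lit 24, nat_lit 17), (nat_lit 24, nat_lit 21), (nat_lit 24, nat_lit 22), (nat_lit 24, nat_lit 24), (nat_lit 24, nat_lit 25), (nat_lit 24, nat_lit 27), (nat_lit 24, nat_lit 28), (nat_lit 24, nat_lit 29), (nat_lit 24, nat_lit 30), (nat_lit 25, nat_lit 3), (nat_lit 25, nat_lit 6), (nat_lit 25, nat_lit 10), (nat_lit 25, nat_lit 11), (nat_lit 25, nat_lit 13), (nat_lit 25, nat_lit 14), (nat_lit 25, nat_lit 16), (nat_lit 25, nat_lit 17), (nat_lit 25, nat_lit 18), (nat_lit 25, nat_lit 19), (nat_lit 25, nat_lit 23), (nat_lit 25, nat_lit 25), (nat_lit 25, nat_lit 27), (nat_lit 25, nat_lit 28), (nat_lit 25, nat_lit 29), (nat_lit 26, nat_lit 1), (nat_lit 26, nat_lit 2), (nat_lit 26, nat_lit 3), (nat_lit 26, nat_lit 8), (nat_lit 26, nat_lit 11), (nat_lit 26, nat_lit 15), (nat_lit 26, nat_lit 16), (nat_lit 26, nat_lit 18), (nat_lit 26, nat_lit 19), (nat_lit 26, nat_lit 21), (nat_lit 26, nat_lit 22), (nat_lit 26, nat_lit 23), (nat_lit 26, nat_lit 24), (nat_lit 26,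 nat_lit 28), (nat_lit 26, nat_lit 30), (nat_lit 27, nat_lit 1), (nat_lit 27, nat_lit 5), (nat_lit 27, nat_lit 6), (nat_lit 27, nat_lit 8), (nat_lit 27, nat_lit 9), (nat_lit 27, nat_lit 11), (nat_lit 27, nat_lit 12), (nat_lit 27, nat_lit 13), (nat_lit 27, nat_lit 14), (nat_lit 27, nat_lit 18), (nat_lit 27, nat_lit 20), (nat_lit 27, nat_lit 22), (nat_lit 27, nat_lit 23), (nat_lit 27, nat_lit 24), (nat_lit 27, nat_lit 29), (nat_lit 28, nat_lit 4), (nat_lit 28, nat_lit 7), (nat_lit 28, nat_lit 11), (nat_lit 28, nat_lit 12), (nat_lit 28, nat_lit 14), (nat_lit 28, nat_lit 15), (nat_lit 28, nat_lit 17), (nat_lit 28, nat_lit 18), (nat_lit 28, nat_lit 19), (nat_lit 28, nat_lit 20), (nat_lit 28, nat_lit 24), (nat_lit 28, nat_lit 26), (nat_lit 28, nat_lit 28), (nat_lit 28, nat_lit 29), (nat_lit 28, nat_lit 30), (nat_lit 29, nat_lit 2), (nat_lit 29, nat_lit 3), (nat_lit 29, nat_lit 5), (nat_lit 29, nat_lit 6), (nat_lit 29, nat_lit 8), (nat_lit 29, nat_lit 9), (nat_lit 29, nat_lit 10), (nat_lit 29, nat_lit 11), (nat_lit 29, nat_lit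 15), (nat_lit 29, nat_lit 17), (nat_lit 29, nat_lit 19), (nat_lit 29, nat_lit 20), (nat_lit 29, nat_lit 21), (nat_lit 29, nat_lit 26), (nat_lit 29, nat_lit 29), (nat_lit 30, nat_lit 2), (nat_lit 30, nat_lit 5), (nat_lit 30, nat_lit 9), (nat_lit 30, nat_lit 10), (nat_lit 30, nat_lit 12), (nat_lit 30, nat_lit 13), (nat_lit 30, nat_lit 15), (nat_lit 30, nat_lit 16), (nat_lit 30, nat_lit 17), (nat_lit 30, nat_lit 18), (nat_lit 30, nat_lit 22), (nat_lit 30, nat_lit 24), (nat_lit 30, nat_lit 26), (nat_lit 30, nat_lit 27), (nat_lit 30, nat_lit 28)]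
/-- positions -/
def PT31 : ℕ := nat_lit 7149869755834011831886521324361009772030703936848295429256559194713377681385351781899798820767910811028049176553494374921083781945044379998666875020222818128886889847130898683077575082043054711376657014421324918031048459620685716218984526731596974692509495648444801207495260882046957685246610853056798606475914244809345223590027579410573514041218980578888180802186025126554280736028053653555201681139721253241471485235648633897897942425983877872547944410499064147604432654232440857618999033570781796081056928174428616420294363817006251469029867602168292286307503398376971071793883495240605271548979243219394846188845057973267774205052153729878298888791462793665541983146980138366549463852266140042779392369693804693210332866837959961334114891994046237736224509086879301765550096986706276653310891002196420477670493650179168411213176303728736047349581245529517266659983468948128646326168299231235807953007482075733986147012524066548109905446763752348473812380556203610191308112705028351752183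7798865865733115260449188202979975280763375469351452541588612946667575509006659210091549451198005356989283891160214170347992821741980858489165196620609615593333205020300534607533977360560476761807818093258448960146382509928316314238764514336307278205360324343447964002672617822153554663009727639517663022097225846361434776049509099533700519477717935724425697600519095061272411314297907166456615163977296870510279507377425844472886055070385487713687589552879228327657025055998004294014249521050781880224190392497807638942798282707558991343283760882090091511718560678177725887202009094593080386384958951461330994376151289099945168472895717564196376900512297211633037974086978700399160717336017009689804003685092701655248314860524441937382451845496453757353439676601548938476671893851640606259253431778579649061428857217931015195169203741802542699240788890644348466772660790719780920884363170446595438510144304354521203324520936811197593113299378639251094771853239867437126451813727861298617754231041364633035264492045255302215501956056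5974165004479960049561539217073624432768862072545651215235426077032355226790906241454273284216346352526747739833583892790864143265760488226890861549929658101045383933275826900106279957779361947635030099546352574565510720001515383663285742566307119229116322204166564239020052484607115403205187268842304927892701965404004026678741861010548053816465257684973719203430272788208066724975507933122646881431991658796283506942388007334832170457864970352932967463169140106803751895961135443065293210441702341756863527101587197457900036343685659665511970535081346582559468539863495752192116319021627783997667398741323924265978298468115600665402704253462933323626585973293801763222641223457098296215615223784211274173846037590876695814281453356154795540230021020342874091282607354439253850860357879267358020750948981205683409980861122520030426395239359719814903082280023047426176499027317624306411340221832050641725788851182137186112921599869911812230504270455865172814595055756746536660168143089661360036656811683304365572372203361198953439338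6732346333099321675399141827147738908785398541870643064139725161884747273272954855257844643004790909354780680127094799030064247128731342228456474582109500064561853046348971708628567477732382239406588219654302486320432950856245810092762907764465136352791617610255802670585047086344719066105457665598137682664015552263943434243983294479069595490914132323123431814571983585638040054255484232896855645314851025010100245368797316486332647521409912870971821537177137727744335018863341368053513190160107140822991880864296691450324225441561642906403159152179491890261779919466665432599777078966788970436741455940662014509405307073311752350641890160832951982995640282202233977373778245363527748049789388932580038268565779379832915996719708624900338666369180398081823531374244297375789251340030660689156006550181567663714407760484718426443317079099099939725216915315019987475439881169103439623956065408871853207628090442923388296256879573791089463248442447808122094647230629617756629376530375909667020579018551349892626641784675818809896511785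85708457146737986735271861211960279563605391122085783528151438960438880825441921191847644668625443829261022396583737289079212422392400652610131314540126049280533965973595593399031520754100888169630892511840373855388239561617905310814445974861826716118180700726410676625002640082656303683523403399686345031535524794629203383204678399630433632233280587257815910323315922732698276936508766949089227994991952876968883128046314668501726981813565515749076948050268878434569141160266564971127349122074907288631581086680860905743319040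

lemma comp31 : CompG 31 (posW 31 29 PT31) F31 (adP 31) :=
  compCkW_spec (by norm_num) (by decide +kernel : compCkW (nat_lit 31) (nat_lit 29) PT31 F31 (adP (nat_lit 31)) = true)

end Pool.Agent.PSX.Ev
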