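import Pool.Agent.PSX.EvTree1

/-!
Kernel checks for the first family.
-/

namespace Pool.Agent.PSX.Ev

open Pool.Agent.Lib_helper5 Pool.Agent.Lib_helper5.LK

lemma ck1_0 : st1_7 (nat_lit 0) = true := by decide +kernel
lemma ck1_1 : st1_7 (nat_lit 1) = true := by decide +kernel
lemma ck1_2 : st1_7 (nat_lit 2) = true := by decide +kernel
lemma ck1_3 : st1_7 (nat_lit 3) = true := by decide +kernel
lemma ck1_4 : st1_7 (nat_lit 4) = true := by decide +kernel
lemma ck1_5 : st1_7 (nat_lit 5) = true := by decide +kernel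
lemma ck1_6 : st1_7 (nat_lit 6) = true := by decide +kernel

lemma ck1 (a : ℕ) (h : a < 7) : st1_7 a = true := by
  interval_cases a
  · exact ck1_0
  · exact ck1_1
  · exact ck1_2
  · exact ck1_3
  · exact ck1_4
  · exact ck1_5
  · exact ck1_6

/-- **elimination for the first family** -/
theorem no1 {Q : ℕ} {D : ℤ} {a v : ℤ} (S : ESys Q D (J1 a v)) (hQ : 2637635 ∣ Q) : False :=
  st1_7_spec S hQ (ck1 (rs 7 a) (rs_lt a))

end Pool.Agent.PSX.Ev
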