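import Pool.Agent.PSX.EvTree2
import Pool.Agent.PSX.EvCk1
import Pool.Agent.PSX.E6Even

/-!
Period six, even discriminants: the large parameters are excluded.
-/

namespace Pool.Agent.PSX.Ev

open Finset Pool.Agent.LibH4 Pool.Agent.Lib_helper5 Pool.Agent.Lib_helper5.LK

lemma le31 {l : ℕ} (hl : l.Prime) (h : l ∣ 2637635) : l ≤ 31 ∧ l ≠ 2 := by
  have e : (2637635 : ℕ) = 5 * (7 * (11 * (13 * (17 * 31)))) := by norm_num
  constructor
  · rw [e] at h
    rcases hl.dvd_mul.1 h with h | h
    · exact (Nat.le_of_dvd (by norm_num) h).trans (by norm_num)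
    rcases hl.dvd_mul.1 h with h | h
    · exact (Nat.le_of_dvd (by norm_num) h).trans (by norm_num)
    rcases hl.dvd_mul.1 h with h | h
    · exact (Nat.le_of_dvd (by norm_num) h).trans (by norm_num)
    rcases hl.dvd_mul.1 h with h | h
    · exact (Nat.le_of_dvd (by norm_num) h).trans (by norm_num)
    rcases hl.dvd_mul.1 h with h | h
    · exact (Nat.le_of_dvd (by norm_num) h).trans (by norm_num)
    exact Nat.le_of_dvd (by norm_num) h
  · rintro rfl
    omega

lemma le13 {l : ℕ} (hl : l.Prime) (h : l ∣ 5005) : l ≤ 13 ∧ l ≠ 2 := by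
  have e : (5005 : ℕ) = 5 * (7 * (11 * 13)) := by norm_num
  constructor
  · rw [e] at h
    rcases hl.dvd_mul.1 h with h | h
    · exact (Nat.le_of_dvd (by norm_num) h).trans (by norm_num)
    rcases hl.dvd_mul.1 h with h | h
    · exact (Nat.le_of_dvd (by norm_num) h).trans (by norm_num)
    rcases hl.dvd_mul.1 h with h | h
    · exact (Nat.le_of_dvd (by norm_num) h).trans (by norm_num)
    exact Nat.le_of_dvd (by norm_num) h
  · rintro rfl
    omega

variable {a b c B : ℕ} {m r p : ℤ}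

/-- the forms of the cycle, first family -/
lemma Jc_one {a c B v : ℕ} {m r p : ℤ} (hp : p = 2) (hc : c = a + (2 * a ^ 2 + 1) * v)
    (hB : B = 2 * c) (hr : r = 1 + 2 * a * v) (hm : m = 2 * r) :
    Jc 6 (E6.P m r p) (E6.R a (2 * a) B m r) (E6.S m r p) (E6.C a (2 * a) c B) =
      J1 (a : ℤ) (v : ℤ) := by
  subst hp hB hc hm hr
  unfold Jc J1
  simp only [List.range_succ, List.range_zero, List.map_append, List.map_nil, List.map_cons,
    List.nil_append, List.cons_append, E6.P, E6.R, E6.S, E6.C]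
  push_cast
  congr 1
  · congr 1
    all_goals ring
  congr 1
  · congr 1
    all_goals ring
  congr 1
  · congr 1
    all_goals ring
  congr 1
  · congr 1
    all_goals ring
  congr 1
  · congr 1
    all_goals ring
  congr 1
  · congr 1
    all_goals ring

/-- the forms of the cycle, second family -/
lemma Jc_two {c B v : ℕ} {m r p : ℤ} (hp : p = 2) (hc : c = 3 * v)
    (hB : B = 2 + 6 * v) (hr : r = 1 + 4 * v) (hm : m = 1 + 2 * v) :
    Jc 6 (E6.P m r p) (E6.R 2 1 B m r) (E6.S m r p) (E6.C 2 1 c B) = J2 (v : ℤ) := by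
  subst hp hB hc hm hr
  unfold Jc J2
  simp only [List.range_succ, List.range_zero, List.map_nil, List.map_cons,
    List.nil_append, List.cons_append, E6.P, E6.R, E6.S, E6.C]
  simp only [List.cons.injEq, Fm.mk.injEq]
  push_cast
  and_intros <;> first | trivial | rfl | omega | ring

/-- **no class number one for large parameters, even discriminants** -/
theorem heven (a b c B : ℕ) (m r p : ℤ) (d : ℕ) (h : E6.Par a b c B m r p) (hp2 : p = 2)
    (_hB2 : B % 2 = 0) (hd : 4 * (d : ℤ) = (B : ℤ) ^ 2 + 4 * m) (hd4 : d % 4 = 2 ∨ d % 4 = 3)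
    (_hsq : Squarefree d) (hm23 : 23 < m) (hr37 : 37 < r)
    [IsDomain (QuadraticAlgebra ℤ m (B : ℤ))]
    [UniqueFactorizationMonoid (QuadraticAlgebra ℤ m (B : ℤ))] : False := by
  obtain ⟨k, hk⟩ : ∃ k : ℕ, B = 2 * k := ⟨B / 2, by omega⟩
  have hBk : (B : ℤ) = 2 * (k : ℤ) := by rw [hk]; push_cast; ring
  have hd' : (d : ℤ) = (k : ℤ) ^ 2 + m := by
    rw [hBk] at hd
    linarith [hd, show (2 * (k : ℤ)) ^ 2 = 4 * (k : ℤ) ^ 2 by ring]
  obtain ⟨v, hv, hfam⟩ := E6.even_families h hp2
  rcases hfam with ⟨f1, f2, f3, f4, f5⟩ | ⟨f1, f2, f3, f4, f5, f6⟩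
  · have S := esys_of (by omega) (E6.cyc h) (E6.closing h) (E6.P_ne h) hBk hd' hd4
      (Q := 2637635) (by norm_num) (by
        intro l hl hlQ
        obtain ⟨h1, h2⟩ := le31 hl hlQ
        exact E6.inert' h hp2 hd l hl h2 (by omega) (by omega))
    subst f1
    rw [Jc_one hp2 f2 f3 f4 f5] at S
    exact no1 S (dvd_refl _)
  · have S := esys_of (by omega) (E6.cyc h) (E6.closing h) (E6.P_ne h) hBk hd' hd4
      (Q := 5005) (by norm_num) (by
        intro l hl hlQ
        obtain ⟨h1, h2⟩ := le13 hl hlQ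
        exact E6.inert' h hp2 hd l hl h2 (by omega) (by omega))
    subst f1 f2
    rw [Jc_two hp2 f3 f4 f5 f6] at S
    exact no2 S (dvd_refl _)

end Pool.Agent.PSX.Ev
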