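import Pool.Agent.PSX.EvZ

/-! generated: the elimination for the first family -/

namespace Pool.Agent.PSX.Ev

open Pool.Agent.LibH4 Pool.Agent.LibH4.Ker
open Pool.Agent.Lib_helper5 Pool.Agent.Lib_helper5.LK Pool.Agent.Lib_helper5.TB

variable {Q : ℕ} {D : ℤ}

lemma J1_κ {a v : ℤ} : ∀ j ∈ J1 a v, j.κ = 3 := by
  intro j hj
  simp only [J1, List.mem_cons, List.not_mem_nil, or_false] at hj
  rcases hj with rfl | rfl | rfl | rfl | rfl | rfl <;> rfl

lemma J1_len {a v : ℤ} : (J1 a v).length = 6 := rfl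

/-- stage 31 -/
def st1_31 (X7 X13 : List (ℕ × ℕ)) (A7 A11 A13 : List ℕ) : Bool :=
  allR (fun a => allR (fun v => cl1 (nat_lit 31) (posW (nat_lit 31) (nat_lit 29) PT31) a v fun X31 =>
    cond0 (Nat.mod (evL t1_217F7 t2_217F7 t3_217F7 rows_217F7 (nat_lit 1) X7 X31 o6 A7) (nat_lit 7)) (
    cond0 (Nat.mod (evL t1_403N7 t2_403N7 t3_403N7 rows_403N7 (nat_lit 1) X13 X31 o6 A7) (nat_lit 7)) (
    cond0 (Nat.mod (evL t1_217N11 t2_217N11 t3_217N11 rows_217N11 (nat_lit 1) X7 X31 o6 A11) (nat_lit 11)) (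
    cond0 (Nat.mod (evL t1_403F13 t2_403F13 t3_403F13 rows_403F13 (nat_lit 1) X13 X31 o6 A13) (nat_lit 13)) (
    false))))) (nat_lit 31)) (nat_lit 31)

lemma st1_31_spec {a v : ℤ} (S : ESys Q D (J1 a v)) (hQ : 31031 ∣ Q)
    (h : st1_31 ((J1 a v).map (cp 7 (pos 7 5 PT7))) ((J1 a v).map (cp 13 (pos 13 11 PT13))) ((J1 a v).map fun j => rs 7 j.α) ((J1 a v).map fun j => rs 11 j.α) ((J1 a v).map fun j => rs 13 j.α) = true) : False := by
  unfold st1_31 at h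
  have h := allR_spec (allR_spec h (rs 31 a) (rs_lt a)) (rs 31 v) (rs_lt v)
  have h := cl1_spec S (by norm_num) (by norm_num) (Dvd.dvd.trans (by norm_num) hQ) h
  have h := cond0_zero (z_217F7 S J1_κ J1_len (Dvd.dvd.trans (by norm_num) hQ)) h
  have h := cond0_zero (z_403N7 S J1_κ J1_len (Dvd.dvd.trans (by norm_num) hQ)) h
  have h := cond0_zero (z_217N11 S J1_κ J1_len (Dvd.dvd.trans (by norm_num) hQ)) h
  have h := cond0_zero (z_403F13 S J1_κ J1_len (Dvd.dvd.trans (by norm_num) hQ)) h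
  exact Bool.false_ne_true h

/-- stage 11 -/
def st1_11 (X7 X13 X17 : List (ℕ × ℕ)) (A5 A7 A13 A17 : List ℕ) : Bool :=
  allR (fun a => allR (fun v => cl1 (nat_lit 11) (pos (nat_lit 11) (nat_lit 9) PT11) a v fun X11 =>
    al1 (nat_lit 11) a v fun A11 =>
    cond0 (Nat.mod (evL t1_143N5 t2_143N5 t3_143N5 rows_143N5 (nat_lit 1) X11 X13 o6 A5) (nat_lit 5)) (
    cond0 (Nat.mod (evL t1_143N7 t2_143N7 t3_143N7 rows_143N7 (nat_lit 1) X11 X13 o6 A7) (nat_lit 7)) (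
    cond0 (Nat.mod (evL t1_187F17a t2_187F17a t3_187F17a rows_187F17a (nat_lit 1) X17 X11 o6 A17) (nat_lit 17)) (
    cond0 (Nat.mod (evL t1_187F17b t2_187F17b t3_187F17b rows_187F17b (nat_lit 1) X17 X11 o6 A17) (nat_lit 17)) (
    st1_31 X7 X13 A7 A11 A13))))) (nat_lit 11)) (nat_lit 11)

lemma st1_11_spec {a v : ℤ} (S : ESys Q D (J1 a v)) (hQ : 2637635 ∣ Q)
    (h : st1_11 ((J1 a v).map (cp 7 (pos 7 5 PT7))) ((J1 a v).map (cp 13 (pos 13 11 PT13))) ((J1 a v).map (cp 17 (pos 17 15 PT17))) ((J1 a v).map fun j => rs 5 j.α) ((J1 a v).map fun j => rs 7 j.α) ((J1 a v).map fun j => rs 13 j.α) ((J1 a v).map fun j => rs 17 j.α) = true) : False := by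
  unfold st1_11 at h
  have h := allR_spec (allR_spec h (rs 11 a) (rs_lt a)) (rs 11 v) (rs_lt v)
  have h := cl1_spec S (by norm_num) (by norm_num) (Dvd.dvd.trans (by norm_num) hQ) h
  have h := al1_spec h
  have h := cond0_zero (z_143N5 S J1_κ J1_len (Dvd.dvd.trans (by norm_num) hQ)) h
  have h := cond0_zero (z_143N7 S J1_κ J1_len (Dvd.dvd.trans (by norm_num) hQ)) h
  have h := cond0_zero (z_187F17a S J1_κ J1_len (Dvd.dvd.trans (by norm_num) hQ)) h
  have h := cond0_zero (z_187F17b S J1_κ J1_len (Dvd.dvd.trans (by norm_num) hQ)) h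
  exact st1_31_spec S (Dvd.dvd.trans (by norm_num) hQ) h

/-- stage 17 -/
def st1_17 (X7 X13 : List (ℕ × ℕ)) (A5 A7 A13 : List ℕ) : Bool :=
  allR (fun a => allR (fun v => cl1 (nat_lit 17) (pos (nat_lit 17) (nat_lit 15) PT17) a v fun X17 =>
    al1 (nat_lit 17) a v fun A17 =>
    cond0 (Nat.mod (evL t1_119N13 t2_119N13 t3_119N13 rows_119N13 (nat_lit 1) X17 X7 o6 A13) (nat_lit 13)) (
    cond0 (Nat.mod (evL t1_119N5 t2_119N5 t3_119N5 rows_119N5 (nat_lit 1) X17 X7 o6 A5) (nat_lit 5)) (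
    cond0 (Nat.mod (evL t1_221N5 t2_221N5 t3_221N5 rows_221N5 (nat_lit 1) X17 X13 o6 A5) (nat_lit 5)) (
    st1_11 X7 X13 X17 A5 A7 A13 A17)))) (nat_lit 17)) (nat_lit 17)

lemma st1_17_spec {a v : ℤ} (S : ESys Q D (J1 a v)) (hQ : 2637635 ∣ Q)
    (h : st1_17 ((J1 a v).map (cp 7 (pos 7 5 PT7))) ((J1 a v).map (cp 13 (pos 13 11 PT13))) ((J1 a v).map fun j => rs 5 j.α) ((J1 a v).map fun j => rs 7 j.α) ((J1 a v).map fun j => rs 13 j.α) = true) : False := by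
  unfold st1_17 at h
  have h := allR_spec (allR_spec h (rs 17 a) (rs_lt a)) (rs 17 v) (rs_lt v)
  have h := cl1_spec S (by norm_num) (by norm_num) (Dvd.dvd.trans (by norm_num) hQ) h
  have h := al1_spec h
  have h := cond0_zero (z_119N13 S J1_κ J1_len (Dvd.dvd.trans (by norm_num) hQ)) h
  have h := cond0_zero (z_119N5 S J1_κ J1_len (Dvd.dvd.trans (by norm_num) hQ)) h
  have h := cond0_zero (z_221N5 S J1_κ J1_len (Dvd.dvd.trans (by norm_num) hQ)) h
  exact st1_11_spec S (Dvd.dvd.trans (by norm_num) hQ) h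

/-- stage 5 -/
def st1_5 (X7 X13 : List (ℕ × ℕ)) (A7 A13 : List ℕ) : Bool :=
  allR (fun a => allR (fun v => cl1 (nat_lit 5) (pos (nat_lit 5) (nat_lit 3) PT5) a v fun X5 =>
    al1 (nat_lit 5) a v fun A5 =>
    cond0 (Nat.mod (evL t1_455F13a t2_455F13a t3_455F13a rows_455F13a (nat_lit 10) X13 X7 X5 A13) (nat_lit 13)) (
    cond0 (Nat.mod (evL t1_455F13b t2_455F13b t3_455F13b rows_455F13b (nat_lit 10) X13 X7 X5 A13) (nat_lit 13)) (
    cond0 (Nat.mod (evL t1_455F13c t2_455F13c t3_455F13c rows_455F13c (nat_lit 10) X13 X7 X5 A13) (nat_lit 13)) (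
    cond0 (Nat.mod (evL t1_455F13d t2_455F13d t3_455F13d rows_455F13d (nat_lit 10) X13 X7 X5 A13) (nat_lit 13)) (
    st1_17 X7 X13 A5 A7 A13))))) (nat_lit 5)) (nat_lit 5)

lemma st1_5_spec {a v : ℤ} (S : ESys Q D (J1 a v)) (hQ : 2637635 ∣ Q)
    (h : st1_5 ((J1 a v).map (cp 7 (pos 7 5 PT7))) ((J1 a v).map (cp 13 (pos 13 11 PT13))) ((J1 a v).map fun j => rs 7 j.α) ((J1 a v).map fun j => rs 13 j.α) = true) : False := by
  unfold st1_5 at h
  have h := allR_spec (allR_spec h (rs 5 a) (rs_lt a)) (rs 5 v) (rs_lt v)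
  have h := cl1_spec S (by norm_num) (by norm_num) (Dvd.dvd.trans (by norm_num) hQ) h
  have h := al1_spec h
  have h := cond0_zero (z_455F13a S J1_κ J1_len (Dvd.dvd.trans (by norm_num) hQ)) h
  have h := cond0_zero (z_455F13b S J1_κ J1_len (Dvd.dvd.trans (by norm_num) hQ)) h
  have h := cond0_zero (z_455F13c S J1_κ J1_len (Dvd.dvd.trans (by norm_num) hQ)) h
  have h := cond0_zero (z_455F13d S J1_κ J1_len (Dvd.dvd.trans (by norm_num) hQ)) h
  exact st1_17_spec S (Dvd.dvd.trans (by norm_num) hQ) h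

/-- stage 13 -/
def st1_13 (X7 : List (ℕ × ℕ)) (A7 : List ℕ) : Bool :=
  allR (fun a => allR (fun v => cl1 (nat_lit 13) (pos (nat_lit 13) (nat_lit 11) PT13) a v fun X13 =>
    al1 (nat_lit 13) a v fun A13 =>
    cond0 (Nat.mod (evL t1_91F13 t2_91F13 t3_91F13 rows_91F13 (nat_lit 1) X13 X7 o6 A13) (nat_lit 13)) (
    st1_5 X7 X13 A7 A13)) (nat_lit 13)) (nat_lit 13)

lemma st1_13_spec {a v : ℤ} (S : ESys Q D (J1 a v)) (hQ : 2637635 ∣ Q)
    (h : st1_13 ((J1 a v).map (cp 7 (pos 7 5 PT7))) ((J1 a v).map fun j => rs 7 j.α) = true) : False := by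
  unfold st1_13 at h
  have h := allR_spec (allR_spec h (rs 13 a) (rs_lt a)) (rs 13 v) (rs_lt v)
  have h := cl1_spec S (by norm_num) (by norm_num) (Dvd.dvd.trans (by norm_num) hQ) h
  have h := al1_spec h
  have h := cond0_zero (z_91F13 S J1_κ J1_len (Dvd.dvd.trans (by norm_num) hQ)) h
  exact st1_5_spec S (Dvd.dvd.trans (by norm_num) hQ) h

/-- stage 7 -/
def st1_7 (a : ℕ) : Bool :=
  allR (fun v => cl1 (nat_lit 7) (pos (nat_lit 7) (nat_lit 5) PT7) a v fun X7 =>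
    al1 (nat_lit 7) a v fun A7 =>
    st1_13 X7 A7) (nat_lit 7)

lemma st1_7_spec {a v : ℤ} (S : ESys Q D (J1 a v)) (hQ : 2637635 ∣ Q)
    (h : st1_7 (rs 7 a)   = true) : False := by
  unfold st1_7 at h
  have h := allR_spec h (rs 7 v) (rs_lt v)
  have h := cl1_spec S (by norm_num) (by norm_num) (Dvd.dvd.trans (by norm_num) hQ) h
  have h := al1_spec h
  exact st1_13_spec S (Dvd.dvd.trans (by norm_num) hQ) h

end Pool.Agent.PSX.Ev
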