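import Pool.Agent.PSX.EvZ

/-!
The elimination for the second family.
-/

namespace Pool.Agent.PSX.Ev

open Pool.Agent.LibH4 Pool.Agent.LibH4.Ker
open Pool.Agent.Lib_helper5 Pool.Agent.Lib_helper5.LK Pool.Agent.Lib_helper5.TB

variable {Q : ℕ} {D : ℤ}

/-- the forms of the second family -/
def J2 (v : ℤ) : List Fm :=
  [⟨1 + 2 * v, 2 + 6 * v, -1, 3, -(2 + 6 * v)⟩,
   ⟨1, 2 + 6 * v, -(1 + 2 * v), 3, -2⟩,
   ⟨1 + 2 * v, 2 + 2 * v, -(1 + 4 * v), 3, -1⟩,
   ⟨1 + 4 * v, 6 * v, -2, 3, -(3 * v)⟩,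
   ⟨2, 6 * v, -(1 + 4 * v), 3, -1⟩,
   ⟨1 + 4 * v, 2 + 2 * v, -(1 + 2 * v), 3, -2⟩]

/-- the data of a class -/
def cl2 (n : ℕ) (ps : ℕ → ℕ → ℕ → ℕ) (v : ℕ) (k : List (ℕ × ℕ) → Bool) : Bool :=
  strict (Nat.mod (Nat.add (nat_lit 2) (Nat.mul (nat_lit 6) v)) n) fun B =>
  strict (Nat.mod (Nat.add (nat_lit 1) (Nat.mul (nat_lit 4) v)) n) fun r =>
  strict (Nat.mod (Nat.add (nat_lit 1) (Nat.mul (nat_lit 2) v)) n) fun m =>
  @Bool.rec (fun _ => Bool) true (
    strict (Nat.sub n (nat_lit 1)) fun o =>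
    strict (Nat.mod (Nat.mul (nat_lit 2) o) n) fun w =>
    strict (Nat.mod (Nat.add (nat_lit 2) (Nat.mul (nat_lit 2) v)) n) fun R =>
    strict (Nat.mod (Nat.mul (nat_lit 6) v) n) fun s =>
    strict (Nat.mod (Nat.mul o m) n) fun nm =>
    strict (Nat.mod (Nat.mul o r) n) fun nr =>
    strict (ps m B o) fun p0 => strict (ps (nat_lit 1) B nm) fun p1 =>
    strict (ps m R nr) fun p2 => strict (ps r s w) fun p3 =>
    strict (ps (nat_lit 2) s nr) fun p4 => strict (ps r R nm) fun p5 =>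
    k [(m, p0), (nat_lit 1, p1), (m, p2), (r, p3), (nat_lit 2, p4), (r, p5)])
  (Nat.beq (Nat.mod (Nat.pow (Nat.mod (Nat.add (Nat.mul B B) (Nat.mul (nat_lit 4) m)) n)
    (Nat.div n (nat_lit 2))) n) (Nat.sub n (nat_lit 1)))

/-- the multiplicities of a class -/
def al2 (l v : ℕ) (k : List ℕ → Bool) : Bool :=
  strict (Nat.sub l (nat_lit 1)) fun o =>
  strict (Nat.mod (Nat.mul o (nat_lit 2)) l) fun nt =>
  strict (Nat.mod (Nat.mul o (Nat.mul (nat_lit 3) v)) l) fun nc =>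
  strict (Nat.mod (Nat.mul o (Nat.add (nat_lit 2) (Nat.mul (nat_lit 6) v))) l) fun nB =>
  k [nB, nt, o, nc, o, nt]

lemma cl2_spec {v : ℤ} (S : ESys Q D (J2 v)) {n : ℕ} [NeZero n]
    (hn : n.Prime) (hn2 : 2 < n) (hQ : n ∣ Q) {ps : ℕ → ℕ → ℕ → ℕ} {k : List (ℕ × ℕ) → Bool}
    (h : cl2 n ps (rs n v) k = true) : k ((J2 v).map (cp n ps)) = true := by
  have e1 : Nat.mod (Nat.add (nat_lit 2) (Nat.mul (nat_lit 6) (rs n v))) n = rs n (2 + 6 * v) := by
    change (2 + 6 * rs n v) % n = _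
    apply rs_of; push_cast; simp only [rs_cast]
  have e2 : Nat.mod (Nat.add (nat_lit 1) (Nat.mul (nat_lit 4) (rs n v))) n = rs n (1 + 4 * v) := by
    change (1 + 4 * rs n v) % n = _
    apply rs_of; push_cast; simp only [rs_cast]
  have e3 : Nat.mod (Nat.add (nat_lit 1) (Nat.mul (nat_lit 2) (rs n v))) n = rs n (1 + 2 * v) := by
    change (1 + 2 * rs n v) % n = _
    apply rs_of; push_cast; simp only [rs_cast]
  have e4 : Nat.sub n (nat_lit 1) = rs n (-1) := K5.rs_neg_one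
  have e5 : Nat.mod (Nat.mul (nat_lit 2) (rs n (-1))) n = rs n (-2) := by
    change (2 * rs n (-1)) % n = _
    apply rs_of; push_cast; simp only [rs_cast]; push_cast; ring
  have e6 : Nat.mod (Nat.add (nat_lit 2) (Nat.mul (nat_lit 2) (rs n v))) n = rs n (2 + 2 * v) := by
    change (2 + 2 * rs n v) % n = _
    apply rs_of; push_cast; simp only [rs_cast]
  have e6' : Nat.mod (Nat.mul (nat_lit 6) (rs n v)) n = rs n (6 * v) := by
    change (6 * rs n v) % n = _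
    apply rs_of; push_cast; simp only [rs_cast]
  have e7 : ∀ x : ℤ, Nat.mod (Nat.mul (rs n (-1)) (rs n x)) n = rs n (-x) := by
    intro x
    change (rs n (-1) * rs n x) % n = _
    apply rs_of; push_cast; simp only [rs_cast]; push_cast; ring
  have e8 : (nat_lit 1) = rs n 1 := K5.rs_one hn.one_lt
  have e9 : (nat_lit 2) = rs n 2 := by
    have : (2 : ℕ) % n = rs n 2 := rs_of (by push_cast; ring)
    rw [Nat.mod_eq_of_lt hn2] at this
    exact this
  have e10 : Nat.mod (Nat.add (Nat.mul (rs n (2 + 6 * v)) (rs n (2 + 6 * v)))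
      (Nat.mul (nat_lit 4) (rs n (1 + 2 * v)))) n = rs n D := by
    have hd := S.disc _ (show (⟨1 + 2 * v, 2 + 6 * v, -1, 3, -(2 + 6 * v)⟩ : Fm) ∈ J2 v by
      simp [J2])
    change (rs n _ * rs n _ + 4 * rs n _) % n = _
    apply rs_of
    rw [← hd]
    push_cast; simp only [rs_cast]; push_cast; ring
  have hin := S.inr n hn hQ
  unfold K5.In at hin
  unfold cl2 at h
  simp only [strict_eq] at h
  rw [e1, e2, e3, e10] at h
  have hin' : Nat.beq (Nat.mod (Nat.pow (rs n D) (Nat.div n (nat_lit 2))) n)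
    (Nat.sub n (nat_lit 1)) = true := hin
  rw [hin'] at h
  rw [e4, e5, e6, e6', e7, e7] at h
  unfold J2 cp
  simp only [List.map_cons, List.map_nil]
  rw [← e8, ← e9]
  exact h

lemma al2_spec {v : ℤ} {l : ℕ} [NeZero l] {k : List ℕ → Bool}
    (h : al2 l (rs l v) k = true) : k ((J2 v).map fun j => rs l j.α) = true := by
  have e4 : Nat.sub l (nat_lit 1) = rs l (-1) := K5.rs_neg_one
  have e5 : Nat.mod (Nat.mul (rs l (-1)) (nat_lit 2)) l = rs l (-2) := by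
    change (rs l (-1) * 2) % l = _
    apply rs_of; push_cast; simp only [rs_cast]; push_cast; ring
  have e6 : Nat.mod (Nat.mul (rs l (-1)) (Nat.mul (nat_lit 3) (rs l v))) l = rs l (-(3 * v)) := by
    change (rs l (-1) * (3 * rs l v)) % l = _
    apply rs_of; push_cast; simp only [rs_cast]; push_cast; ring
  have e7 : Nat.mod (Nat.mul (rs l (-1)) (Nat.add (nat_lit 2) (Nat.mul (nat_lit 6) (rs l v)))) l =
      rs l (-(2 + 6 * v)) := by
    change (rs l (-1) * (2 + 6 * rs l v)) % l = _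
    apply rs_of; push_cast; simp only [rs_cast]; push_cast; ring
  unfold al2 at h
  simp only [strict_eq] at h
  rw [e4, e5, e6, e7] at h
  exact h

lemma J2_κ {v : ℤ} : ∀ j ∈ J2 v, j.κ = 3 := by
  intro j hj
  simp only [J2, List.mem_cons, List.not_mem_nil, or_false] at hj
  rcases hj with rfl | rfl | rfl | rfl | rfl | rfl <;> rfl

lemma J2_len {v : ℤ} : (J2 v).length = 6 := rfl

/-- stage 11 -/
def st2_11 (X13 : List (ℕ × ℕ)) (A5 A7 : List ℕ) : Bool :=
  allR (fun v => cl2 (nat_lit 11) (pos (nat_lit 11) (nat_lit 9) PT11) v fun X11 =>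
    cond0 (Nat.mod (evL t1_143N5 t2_143N5 t3_143N5 rows_143N5 (nat_lit 1) X11 X13 o6 A5) (nat_lit 5)) (
    cond0 (Nat.mod (evL t1_143N7 t2_143N7 t3_143N7 rows_143N7 (nat_lit 1) X11 X13 o6 A7) (nat_lit 7)) (
    false))) (nat_lit 11)

lemma st2_11_spec {v : ℤ} (S : ESys Q D (J2 v)) (hQ : 5005 ∣ Q)
    (h : st2_11 ((J2 v).map (cp 13 (pos 13 11 PT13))) ((J2 v).map fun j => rs 5 j.α) ((J2 v).map fun j => rs 7 j.α) = true) : False := by
  unfold st2_11 at h
  have h := allR_spec h (rs 11 v) (rs_lt v)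
  have h := cl2_spec S (by norm_num) (by norm_num) (Dvd.dvd.trans (by norm_num) hQ) h
  have h := cond0_zero (z_143N5 S J2_κ J2_len (Dvd.dvd.trans (by norm_num) hQ)) h
  have h := cond0_zero (z_143N7 S J2_κ J2_len (Dvd.dvd.trans (by norm_num) hQ)) h
  exact Bool.false_ne_true h

/-- stage 5 -/
def st2_5 (X7 X13 : List (ℕ × ℕ)) (A7 A13 : List ℕ) : Bool :=
  allR (fun v => cl2 (nat_lit 5) (pos (nat_lit 5) (nat_lit 3) PT5) v fun X5 =>
    al2 (nat_lit 5) v fun A5 =>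
    cond0 (Nat.mod (evL t1_455F13a t2_455F13a t3_455F13a rows_455F13a (nat_lit 10) X13 X7 X5 A13) (nat_lit 13)) (
    cond0 (Nat.mod (evL t1_455F13b t2_455F13b t3_455F13b rows_455F13b (nat_lit 10) X13 X7 X5 A13) (nat_lit 13)) (
    st2_11 X13 A5 A7))) (nat_lit 5)

lemma st2_5_spec {v : ℤ} (S : ESys Q D (J2 v)) (hQ : 5005 ∣ Q)
    (h : st2_5 ((J2 v).map (cp 7 (pos 7 5 PT7))) ((J2 v).map (cp 13 (pos 13 11 PT13))) ((J2 v).map fun j => rs 7 j.α) ((J2 v).map fun j => rs 13 j.α) = true) : False := by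
  unfold st2_5 at h
  have h := allR_spec h (rs 5 v) (rs_lt v)
  have h := cl2_spec S (by norm_num) (by norm_num) (Dvd.dvd.trans (by norm_num) hQ) h
  have h := al2_spec h
  have h := cond0_zero (z_455F13a S J2_κ J2_len (Dvd.dvd.trans (by norm_num) hQ)) h
  have h := cond0_zero (z_455F13b S J2_κ J2_len (Dvd.dvd.trans (by norm_num) hQ)) h
  exact st2_11_spec S (Dvd.dvd.trans (by norm_num) hQ) h

/-- stage 13 -/
def st2_13 (X7 : List (ℕ × ℕ)) (A7 : List ℕ) : Bool :=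
  allR (fun v => cl2 (nat_lit 13) (pos (nat_lit 13) (nat_lit 11) PT13) v fun X13 =>
    al2 (nat_lit 13) v fun A13 =>
    cond0 (Nat.mod (evL t1_91F13 t2_91F13 t3_91F13 rows_91F13 (nat_lit 1) X13 X7 o6 A13) (nat_lit 13)) (
    st2_5 X7 X13 A7 A13)) (nat_lit 13)

lemma st2_13_spec {v : ℤ} (S : ESys Q D (J2 v)) (hQ : 5005 ∣ Q)
    (h : st2_13 ((J2 v).map (cp 7 (pos 7 5 PT7))) ((J2 v).map fun j => rs 7 j.α) = true) : False := by
  unfold st2_13 at h
  have h := allR_spec h (rs 13 v) (rs_lt v)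
  have h := cl2_spec S (by norm_num) (by norm_num) (Dvd.dvd.trans (by norm_num) hQ) h
  have h := al2_spec h
  have h := cond0_zero (z_91F13 S J2_κ J2_len (Dvd.dvd.trans (by norm_num) hQ)) h
  exact st2_5_spec S (Dvd.dvd.trans (by norm_num) hQ) h

/-- stage 7 -/
def st2_7 : Bool :=
  allR (fun v => cl2 (nat_lit 7) (pos (nat_lit 7) (nat_lit 5) PT7) v fun X7 =>
    al2 (nat_lit 7) v fun A7 =>
    st2_13 X7 A7) (nat_lit 7)

lemma st2_7_spec {v : ℤ} (S : ESys Q D (J2 v)) (hQ : 5005 ∣ Q)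
    (h : st2_7   = true) : False := by
  unfold st2_7 at h
  have h := allR_spec h (rs 7 v) (rs_lt v)
  have h := cl2_spec S (by norm_num) (by norm_num) (Dvd.dvd.trans (by norm_num) hQ) h
  have h := al2_spec h
  exact st2_13_spec S (Dvd.dvd.trans (by norm_num) hQ) h

lemma ck2 : st2_7 = true := by decide +kernel

/-- **elimination for the second family** -/
theorem no2 {Q : ℕ} {D : ℤ} {v : ℤ} (S : ESys Q D (J2 v)) (hQ : 5005 ∣ Q) : False :=
  st2_7_spec S hQ ck2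

end Pool.Agent.PSX.Ev
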