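import Pool.Agent.PSX.FamD

/-!
Period six: the kernel computations for the fourth family.
-/

namespace Pool.Agent.PSX.F26

open Finset (range)
open Pool.Agent.P4G
open Pool.Agent.RDF (T7 T7_mul T7_neg bt)

lemma der4 : (DD 13 105 (χ4 9) 2 11) % 13 = 8 := by rw [DD_two]; decide +kernel
lemma sec4 : (Hs 13 105 (χ4 22) 2 11) % 169 = 13 := by rw [Hs_two]; decide +kernel

end Pool.Agent.PSX.F26
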