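import Pool.Agent.PSX.FamK
import Pool.Agent.PSX.FamK4
import Pool.Agent.PSX.FamK5
import Pool.Agent.PSX.FamK6

/-!
Period six: the families at the prime thirteen, with their exponents modulo thirteen and their
central sums.
-/

namespace Pool.Agent.PSX.F26

open Finset (range)
open Pool.Agent.P4G
open Pool.Agent.RDF (T7 T7_mul T7_neg bt crt_sum)

/-- not a square modulo three, five, seven and thirteen -/
def NR (D : ℤ) : Prop := (D : ZMod 3) = -1 ∧ (D : ZMod 5) ^ 2 = -1 ∧ (D : ZMod 7) ^ 3 = -1 ∧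
  (D : ZMod 13) ^ 6 = -1

/-- there are families of every level with the character `χ` modulo thirteen, the exponent being
`e0` modulo twelve and `k` modulo thirteen -/
def HasFam (q0 e0 : ℕ) (k : ℤ) (χ : ℤ → ℤ) : Prop := ∀ n : ℕ, ∃ (e : ℕ) (ψ : ℤ → ℤ),
  e % 12 = e0 ∧ n + 2 ≤ e ∧ Fam 13 q0 n e ψ ∧ (1 ≤ n → (e : ℤ) % 13 = k) ∧
  (∀ u, ((ψ u : ℤ) : ZMod 13) = (χ u : ℤ)) ∧ ψ 1 = 1 ∧
  ∀ D : ℤ, NR D → ¬ (13 : ℤ) ∣ CR 13 q0 e ψ D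

/-! ### characters -/

lemma ico {N : ℕ} {i j : ℤ} (h : i % N = j % N) : ((i : ℤ) : ZMod N) = (j : ℤ) := by
  rw [ZMod.intCast_eq_intCast_iff]
  exact h

lemma cc3 (u : ℤ) (t : ℤ) : (((u + 3 * t : ℤ)) : ZMod 3) = (u : ZMod 3) := by
  push_cast
  rw [show ((3 : ZMod 3)) = 0 from by decide, zero_mul, add_zero]
lemma cc5 (u : ℤ) (t : ℤ) : (((u + 5 * t : ℤ)) : ZMod 5) = (u : ZMod 5) := by
  push_cast
  rw [show ((5 : ZMod 5)) = 0 from by decide, zero_mul, add_zero]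
lemma cc7 (u : ℤ) (t : ℤ) : (((u + 7 * t : ℤ)) : ZMod 7) = (u : ZMod 7) := by
  push_cast
  rw [show ((7 : ZMod 7)) = 0 from by decide, zero_mul, add_zero]

lemma χ0_per (i u : ℤ) : χ0 i (u + (15 : ℕ)) = χ0 i u := by
  unfold χ0
  rw [show u + ((15 : ℕ) : ℤ) = u + 3 * 5 by norm_num, cc3,
    show u + 3 * 5 = u + 5 * 3 by norm_num, cc5]
lemma χ4_per (w u : ℤ) : χ4 w (u + (105 : ℕ)) = χ4 w u := by
  unfold χ4
  rw [show u + ((105 : ℕ) : ℤ) = u + 3 * 35 by norm_num, cc3,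
    show u + 3 * 35 = u + 5 * 21 by norm_num, cc5, show u + 5 * 21 = u + 7 * 15 by norm_num, cc7]
lemma χ5_per (i w u : ℤ) : χ5 i w (u + (105 : ℕ)) = χ5 i w u := by
  unfold χ5
  rw [show u + ((105 : ℕ) : ℤ) = u + 3 * 35 by norm_num, cc3,
    show u + 3 * 35 = u + 5 * 21 by norm_num, cc5, show u + 5 * 21 = u + 7 * 15 by norm_num, cc7]

lemma χ0_neg (i u : ℤ) : χ0 i (-u) = χ0 i u := by
  unfold χ0
  push_cast
  rw [T3_neg, C5_neg]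
  ring
lemma χ4_neg (w u : ℤ) : χ4 w (-u) = χ4 w u := by
  unfold χ4
  push_cast
  rw [T3_neg, T5_neg, T7_neg, C7_neg]
  ring
lemma χ5_neg (i w u : ℤ) : χ5 i w (-u) = χ5 i w u := by
  unfold χ5
  push_cast
  rw [T3_neg, C5_neg, C7_neg]
  ring

lemma χ0_mul {M : ℕ} {i : ℤ} (hi : ((i : ℤ) : ZMod M) ^ 2 + 1 = 0) (u v : ℤ) :
    ((χ0 i (u * v) : ℤ) : ZMod M) = (χ0 i u : ℤ) * (χ0 i v : ℤ) := by
  unfold χ0
  rw [Int.cast_mul u v, Int.cast_mul u v, T3_mul, Int.cast_mul, C5_mul hi]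
  push_cast
  ring
lemma χ4_mul {M : ℕ} {w : ℤ} (hw : ((w : ℤ) : ZMod M) ^ 2 + w + 1 = 0) (u v : ℤ) :
    ((χ4 w (u * v) : ℤ) : ZMod M) = (χ4 w u : ℤ) * (χ4 w v : ℤ) := by
  unfold χ4
  rw [Int.cast_mul u v, Int.cast_mul u v, Int.cast_mul u v, T3_mul, T5_mul, T7_mul]
  simp only [Int.cast_mul]
  rw [C7_mul hw]
  ring
lemma χ5_mul {M : ℕ} {i w : ℤ} (hi : ((i : ℤ) : ZMod M) ^ 2 + 1 = 0)
    (hw : ((w : ℤ) : ZMod M) ^ 2 + w + 1 = 0) (u v : ℤ) :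
    ((χ5 i w (u * v) : ℤ) : ZMod M) = (χ5 i w u : ℤ) * (χ5 i w v : ℤ) := by
  unfold χ5
  rw [Int.cast_mul u v, Int.cast_mul u v, Int.cast_mul u v, T3_mul]
  simp only [Int.cast_mul]
  rw [C5_mul hi, C7_mul hw]
  ring

lemma χ0_mod {N : ℕ} {i j : ℤ} (h : ((i : ℤ) : ZMod N) = (j : ℤ)) (u : ℤ) :
    ((χ0 i u : ℤ) : ZMod N) = (χ0 j u : ℤ) := by
  unfold χ0
  rw [Int.cast_mul, Int.cast_mul, C5_mod h]
lemma χ4_mod {N : ℕ} {i j : ℤ} (h : ((i : ℤ) : ZMod N) = (j : ℤ)) (u : ℤ) :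
    ((χ4 i u : ℤ) : ZMod N) = (χ4 j u : ℤ) := by
  unfold χ4
  simp only [Int.cast_mul]
  rw [C7_modN h]
lemma χ5_mod {N : ℕ} {i j w z : ℤ} (h : ((i : ℤ) : ZMod N) = (j : ℤ))
    (h' : ((w : ℤ) : ZMod N) = (z : ℤ)) (u : ℤ) :
    ((χ5 i w u : ℤ) : ZMod N) = (χ5 j z u : ℤ) := by
  unfold χ5
  simp only [Int.cast_mul]
  rw [C5_mod h, C7_modN h']
lemma ψ2_modN {N : ℕ} {i j : ℤ} (h : ((i : ℤ) : ZMod N) = (j : ℤ)) (u : ℤ) :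
    ((ψ2 i u : ℤ) : ZMod N) = (ψ2 j u : ℤ) := by
  unfold ψ2
  simp only [Int.cast_mul]
  rw [C7_modN h]

lemma one3 : T3 1 = 1 := by decide
lemma one5 : T5 1 = 1 := by decide
lemma one7 : T7 1 = 1 := by decide
lemma C5_one (i : ℤ) : C5 i 1 = 1 := by
  unfold C5
  rw [show A5 1 = 1 by decide, show B5 1 = 0 by decide]
  ring
lemma C7_one (w : ℤ) : C7 w 1 = 1 := by
  unfold C7
  rw [if_neg (by decide), show lg7 1 = 0 by decide, pow_zero]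

lemma χ0_one (i : ℤ) : χ0 i 1 = 1 := by
  unfold χ0
  rw [Int.cast_one, Int.cast_one, one3, C5_one, one_mul]
lemma ψ2_one (w : ℤ) : ψ2 w 1 = 1 := by
  unfold ψ2
  rw [Int.cast_one, Int.cast_one, one5, one7, C7_one, one_mul, one_mul]
lemma χ4_one (w : ℤ) : χ4 w 1 = 1 := by
  unfold χ4
  rw [Int.cast_one, Int.cast_one, Int.cast_one, one3, one5, one7, C7_one, one_mul, one_mul, one_mul]
lemma χ5_one (i w : ℤ) : χ5 i w 1 = 1 := by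
  unfold χ5
  rw [Int.cast_one, Int.cast_one, Int.cast_one, one3, C5_one, C7_one, one_mul, one_mul]

/-! ### the reduced central sums -/

theorem CR_ne_gen {q0 e e0 k : ℕ} {ψ : ℤ → ℤ} {D : ℤ} (he : e % 12 = e0) (h0 : 2 ≤ e0)
    (C : ZMod 13) (hC : C ≠ 0)
    (hp : ∀ c : ZMod 13, ∑ j ∈ range 13, (c - (j : ZMod 13) ^ 2) ^ e0 = C * c ^ k)
    (w : ℕ → ℤ) (κ : ZMod 13) (hκ : κ ≠ 0)
    (hw : ∀ x : ℕ, ((∑ i ∈ range q0, ψ (D * (x : ℤ) ^ 2 - (i : ℤ) ^ 2) : ℤ) : ZMod 13)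
      = (w x : ℤ) * κ)
    (hW : (∑ x ∈ range (q0 * 13), bt (q0 * 13) x * (w x * (x : ℤ) ^ (2 * k))) % 13 ≠ 0)
    (h13 : (D : ZMod 13) ^ 6 = -1) : ¬ (13 : ℤ) ∣ CR 13 q0 e ψ D := by
  intro h
  have : Fact (Nat.Prime 13) := ⟨prime13⟩
  have h1 : ((CR 13 q0 e ψ D : ℤ) : ZMod 13) = 0 :=
    (ZMod.intCast_zmod_eq_zero_iff_dvd _ 13).2 (by exact_mod_cast h)
  unfold CR at h1
  rw [Int.cast_sum] at h1
  have e1 : ∀ x ∈ range (q0 * 13), ((bt (q0 * 13) x * AA 13 q0 e ψ D x : ℤ) : ZMod 13)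
      = ((bt (q0 * 13) x * (w x * (x : ℤ) ^ (2 * k)) : ℤ) : ZMod 13) *
        (κ * (C * (D : ZMod 13) ^ k)) := by
    intro x _
    unfold AA
    rw [Int.cast_mul, Int.cast_mul, hw]
    have e2 : ((∑ j ∈ range 13, (D * (x : ℤ) ^ 2 - (j : ℤ) ^ 2) ^ e : ℤ) : ZMod 13)
        = C * ((D : ZMod 13) * (x : ZMod 13) ^ 2) ^ k := by
      rw [← hp, Int.cast_sum]
      apply Finset.sum_congr rfl
      intro j _
      push_cast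
      exact pow_expo prime13 (m := e) (m0 := e0) (by norm_num; omega) (by omega) (by omega) _
    rw [e2]
    push_cast
    ring
  rw [Finset.sum_congr rfl e1, ← Finset.sum_mul, ← Int.cast_sum] at h1
  rcases mul_eq_zero.1 h1 with h3 | h3
  · have := (ZMod.intCast_zmod_eq_zero_iff_dvd _ 13).1 h3
    push_cast at this
    exact hW (Int.emod_eq_zero_of_dvd this)
  · rcases mul_eq_zero.1 h3 with h3 | h3
    · exact hκ h3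
    · rcases mul_eq_zero.1 h3 with h3 | h3
      · exact hC h3
      · exact ne13 h13 (eq_zero_of_pow_eq_zero h3)

/-- the character at five with values modulo thirteen -/
def c5 (i : ℤ) (x : ZMod 5) : ZMod 13 := ((C5 i x : ℤ) : ZMod 13)
/-- the cubic character at seven with values modulo thirteen -/
def d7 (w : ℤ) (x : ZMod 7) : ZMod 13 := ((C7 w x : ℤ) : ZMod 13)
/-- the sextic character at seven with values modulo thirteen -/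
def u7 (w : ℤ) (x : ZMod 7) : ZMod 13 := ((T7 x * C7 w x : ℤ) : ZMod 13)

lemma T3_sum : ∀ D x : ZMod 3, D = -1 →
    ∑ i ∈ range 3, T3 (D * x ^ 2 - (i : ZMod 3) ^ 2) = if x = 0 then -2 else 1 := by decide
lemma c5_sum5 : ∀ D x : ZMod 5, D ^ 2 = -1 →
    ∑ i ∈ range 5, c5 5 (D * x ^ 2 - (i : ZMod 5) ^ 2) =
      c5 5 x ^ 2 * ∑ i ∈ range 5, c5 5 (D - (i : ZMod 5) ^ 2) := by decide +kernel
lemma c5_sum8 : ∀ D x : ZMod 5, D ^ 2 = -1 →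
    ∑ i ∈ range 5, c5 8 (D * x ^ 2 - (i : ZMod 5) ^ 2) =
      c5 8 x ^ 2 * ∑ i ∈ range 5, c5 8 (D - (i : ZMod 5) ^ 2) := by decide +kernel
lemma d7_sum3 : ∀ D x : ZMod 7, D ^ 3 = -1 →
    ∑ i ∈ range 7, d7 3 (D * x ^ 2 - (i : ZMod 7) ^ 2) =
      d7 3 x ^ 2 * ∑ i ∈ range 7, d7 3 (D - (i : ZMod 7) ^ 2) := by decide +kernel
lemma d7_sum9 : ∀ D x : ZMod 7, D ^ 3 = -1 →
    ∑ i ∈ range 7, d7 9 (D * x ^ 2 - (i : ZMod 7) ^ 2) =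
      d7 9 x ^ 2 * ∑ i ∈ range 7, d7 9 (D - (i : ZMod 7) ^ 2) := by decide +kernel
lemma u7_sum9 : ∀ D x : ZMod 7, D ^ 3 = -1 →
    ∑ i ∈ range 7, u7 9 (D * x ^ 2 - (i : ZMod 7) ^ 2) =
      u7 9 x ^ 2 * ∑ i ∈ range 7, u7 9 (D - (i : ZMod 7) ^ 2) := by decide +kernel
lemma c5_ne5 : ∀ D : ZMod 5, D ^ 2 = -1 → ∑ i ∈ range 5, c5 5 (D - (i : ZMod 5) ^ 2) ≠ 0 := by
  decide +kernel
lemma c5_ne8 : ∀ D : ZMod 5, D ^ 2 = -1 → ∑ i ∈ range 5, c5 8 (D - (i : ZMod 5) ^ 2) ≠ 0 := by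
  decide +kernel
lemma d7_ne3 : ∀ D : ZMod 7, D ^ 3 = -1 → ∑ i ∈ range 7, d7 3 (D - (i : ZMod 7) ^ 2) ≠ 0 := by
  decide +kernel
lemma d7_ne9 : ∀ D : ZMod 7, D ^ 3 = -1 → ∑ i ∈ range 7, d7 9 (D - (i : ZMod 7) ^ 2) ≠ 0 := by
  decide +kernel
lemma u7_ne9 : ∀ D : ZMod 7, D ^ 3 = -1 → ∑ i ∈ range 7, u7 9 (D - (i : ZMod 7) ^ 2) ≠ 0 := by
  decide +kernel
lemma p11_sum : ∀ c : ZMod 13, ∑ j ∈ range 13, (c - (j : ZMod 13) ^ 2) ^ 11 = 6 * c ^ 5 := by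
  decide +kernel
lemma seven_ne : (7 : ZMod 13) ≠ 0 := by decide
lemma p9_sum : ∀ c : ZMod 13, ∑ j ∈ range 13, (c - (j : ZMod 13) ^ 2) ^ 9 = 7 * c ^ 3 := by
  decide +kernel

lemma sum15 {R : Type*} [CommSemiring R] (G3 : ZMod 3 → R) (G5 : ZMod 5 → R) :
    ∑ u ∈ range 15, G3 (u : ZMod 3) * G5 (u : ZMod 5)
      = (∑ i ∈ range 3, G3 (i : ZMod 3)) * ∑ i ∈ range 5, G5 (i : ZMod 5) := by
  have h := crt_sum (R := R) (a := 3) (b := 5) (by norm_num) (by norm_num) (by norm_num)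
    (fun i => G3 (i : ZMod 3)) (fun i => G5 (i : ZMod 5))
  rw [← h]
  apply Finset.sum_congr rfl
  intro i _
  rw [ZMod.natCast_mod, ZMod.natCast_mod]

lemma sum105 {R : Type*} [CommSemiring R] (G3 : ZMod 3 → R) (G5 : ZMod 5 → R) (G7 : ZMod 7 → R) :
    ∑ u ∈ range 105, G3 (u : ZMod 3) * (G5 (u : ZMod 5) * G7 (u : ZMod 7))
      = (∑ i ∈ range 3, G3 (i : ZMod 3)) * ((∑ i ∈ range 5, G5 (i : ZMod 5)) *
        ∑ i ∈ range 7, G7 (i : ZMod 7)) := by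
  have h := crt_sum (R := R) (a := 3) (b := 35) (by norm_num) (by norm_num) (by norm_num)
    (fun i => G3 (i : ZMod 3)) (fun i => G5 (i : ZMod 5) * G7 (i : ZMod 7))
  have h' := crt_sum (R := R) (a := 5) (b := 7) (by norm_num) (by norm_num) (by norm_num)
    (fun i => G5 (i : ZMod 5)) (fun i => G7 (i : ZMod 7))
  rw [← h']
  have e : ∑ u ∈ range (5 * 7), G5 ((u % 5 : ℕ) : ZMod 5) * G7 ((u % 7 : ℕ) : ZMod 7)
      = ∑ i ∈ range 35, G5 (i : ZMod 5) * G7 (i : ZMod 7) := by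
    apply Finset.sum_congr rfl
    intro i _
    rw [ZMod.natCast_mod, ZMod.natCast_mod]
  rw [e, ← h]
  apply Finset.sum_congr rfl
  intro i _
  have e5 : ((i % 35 : ℕ) : ZMod 5) = (i : ZMod 5) :=
    (ZMod.natCast_eq_natCast_iff' _ _ _).2 (Nat.mod_mod_of_dvd i (by norm_num))
  have e7 : ((i % 35 : ℕ) : ZMod 7) = (i : ZMod 7) :=
    (ZMod.natCast_eq_natCast_iff' _ _ _).2 (Nat.mod_mod_of_dvd i (by norm_num))
  rw [ZMod.natCast_mod, e5, e7]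

/-! ### the weights -/

/-- weights of conductor fifteen -/
def w0 (x : ℕ) : ℤ := (if (x : ZMod 3) = 0 then -2 else 1) * C5 5 (x : ZMod 5) ^ 2
/-- weights of the fourth family -/
def w4 (x : ℕ) : ℤ := (if (x : ZMod 3) = 0 then -2 else 1) *
  ((if (x : ZMod 5) = 0 then 4 else -1) * (T7 (x : ZMod 7) * C7 9 (x : ZMod 7)) ^ 2)
/-- weights of the fifth family -/
def w5 (x : ℕ) : ℤ := (if (x : ZMod 3) = 0 then -2 else 1) *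
  (C5 5 (x : ZMod 5) ^ 2 * C7 3 (x : ZMod 7) ^ 2)
/-- weights of the sixth family -/
def w6 (x : ℕ) : ℤ := (if (x : ZMod 3) = 0 then -2 else 1) *
  (C5 8 (x : ZMod 5) ^ 2 * C7 9 (x : ZMod 7) ^ 2)

lemma W0_ne : (∑ x ∈ range (15 * 13), bt (15 * 13) x * (w0 x * (x : ℤ) ^ (2 * 5))) % 13 ≠ 0 := by
  decide +kernel
lemma W4_ne : (∑ x ∈ range (105 * 13), bt (105 * 13) x * (w4 x * (x : ℤ) ^ (2 * 5))) % 13 ≠ 0 := by
  decide +kernel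
lemma W5_ne : (∑ x ∈ range (105 * 13), bt (105 * 13) x * (w5 x * (x : ℤ) ^ (2 * 3))) % 13 ≠ 0 := by
  decide +kernel
lemma W6_ne : (∑ x ∈ range (105 * 13), bt (105 * 13) x * (w6 x * (x : ℤ) ^ (2 * 5))) % 13 ≠ 0 := by
  decide +kernel

lemma in0 {ψ : ℤ → ℤ} (hψ : ∀ u, ((ψ u : ℤ) : ZMod 13) = (χ0 5 u : ℤ)) {D : ℤ} (hD : NR D)
    (x : ℕ) : ((∑ i ∈ range 15, ψ (D * (x : ℤ) ^ 2 - (i : ℤ) ^ 2) : ℤ) : ZMod 13)
      = (w0 x : ℤ) * ∑ i ∈ range 5, c5 5 ((D : ZMod 5) - (i : ZMod 5) ^ 2) := by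
  have h := sum15 (fun z => ((T3 ((D : ZMod 3) * (x : ZMod 3) ^ 2 - z ^ 2) : ℤ) : ZMod 13))
    (fun z => c5 5 ((D : ZMod 5) * (x : ZMod 5) ^ 2 - z ^ 2))
  rw [c5_sum5 _ _ hD.2.1, ← Int.cast_sum, T3_sum _ _ hD.1] at h
  have e : ((∑ i ∈ range 15, ψ (D * (x : ℤ) ^ 2 - (i : ℤ) ^ 2) : ℤ) : ZMod 13)
      = ∑ u ∈ range 15, ((T3 ((D : ZMod 3) * (x : ZMod 3) ^ 2 - (u : ZMod 3) ^ 2) : ℤ) : ZMod 13) *
        c5 5 ((D : ZMod 5) * (x : ZMod 5) ^ 2 - (u : ZMod 5) ^ 2) := by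
    rw [Int.cast_sum]
    apply Finset.sum_congr rfl
    intro i _
    rw [hψ]
    unfold χ0 c5
    push_cast
    rfl
  rw [e, h]
  unfold w0 c5
  push_cast
  ring

lemma in4 {ψ : ℤ → ℤ} (hψ : ∀ u, ((ψ u : ℤ) : ZMod 13) = (χ4 9 u : ℤ)) {D : ℤ} (hD : NR D)
    (x : ℕ) : ((∑ i ∈ range 105, ψ (D * (x : ℤ) ^ 2 - (i : ℤ) ^ 2) : ℤ) : ZMod 13)
      = (w4 x : ℤ) * ∑ i ∈ range 7, u7 9 ((D : ZMod 7) - (i : ZMod 7) ^ 2) := by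
  have h := sum105 (fun z => ((T3 ((D : ZMod 3) * (x : ZMod 3) ^ 2 - z ^ 2) : ℤ) : ZMod 13))
    (fun z => ((T5 ((D : ZMod 5) * (x : ZMod 5) ^ 2 - z ^ 2) : ℤ) : ZMod 13))
    (fun z => u7 9 ((D : ZMod 7) * (x : ZMod 7) ^ 2 - z ^ 2))
  rw [u7_sum9 _ _ hD.2.2.1, ← Int.cast_sum, T3_sum _ _ hD.1, ← Int.cast_sum,
    T5_sum _ _ hD.2.1] at h
  have e : ((∑ i ∈ range 105, ψ (D * (x : ℤ) ^ 2 - (i : ℤ) ^ 2) : ℤ) : ZMod 13)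
      = ∑ u ∈ range 105, ((T3 ((D : ZMod 3) * (x : ZMod 3) ^ 2 - (u : ZMod 3) ^ 2) : ℤ) : ZMod 13) *
        (((T5 ((D : ZMod 5) * (x : ZMod 5) ^ 2 - (u : ZMod 5) ^ 2) : ℤ) : ZMod 13) *
        u7 9 ((D : ZMod 7) * (x : ZMod 7) ^ 2 - (u : ZMod 7) ^ 2)) := by
    rw [Int.cast_sum]
    apply Finset.sum_congr rfl
    intro i _
    rw [hψ]
    unfold χ4 u7
    push_cast
    rfl
  rw [e, h]
  unfold w4 u7
  push_cast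
  ring

lemma in5 {ψ : ℤ → ℤ} (hψ : ∀ u, ((ψ u : ℤ) : ZMod 13) = (χ5 5 3 u : ℤ)) {D : ℤ} (hD : NR D)
    (x : ℕ) : ((∑ i ∈ range 105, ψ (D * (x : ℤ) ^ 2 - (i : ℤ) ^ 2) : ℤ) : ZMod 13)
      = (w5 x : ℤ) * ((∑ i ∈ range 5, c5 5 ((D : ZMod 5) - (i : ZMod 5) ^ 2)) *
        ∑ i ∈ range 7, d7 3 ((D : ZMod 7) - (i : ZMod 7) ^ 2)) := by
  have h := sum105 (fun z => ((T3 ((D : ZMod 3) * (x : ZMod 3) ^ 2 - z ^ 2) : ℤ) : ZMod 13))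
    (fun z => c5 5 ((D : ZMod 5) * (x : ZMod 5) ^ 2 - z ^ 2))
    (fun z => d7 3 ((D : ZMod 7) * (x : ZMod 7) ^ 2 - z ^ 2))
  rw [d7_sum3 _ _ hD.2.2.1, ← Int.cast_sum, T3_sum _ _ hD.1, c5_sum5 _ _ hD.2.1] at h
  have e : ((∑ i ∈ range 105, ψ (D * (x : ℤ) ^ 2 - (i : ℤ) ^ 2) : ℤ) : ZMod 13)
      = ∑ u ∈ range 105, ((T3 ((D : ZMod 3) * (x : ZMod 3) ^ 2 - (u : ZMod 3) ^ 2) : ℤ) : ZMod 13) *
        (c5 5 ((D : ZMod 5) * (x : ZMod 5) ^ 2 - (u : ZMod 5) ^ 2) *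
        d7 3 ((D : ZMod 7) * (x : ZMod 7) ^ 2 - (u : ZMod 7) ^ 2)) := by
    rw [Int.cast_sum]
    apply Finset.sum_congr rfl
    intro i _
    rw [hψ]
    unfold χ5 c5 d7
    push_cast
    rfl
  rw [e, h]
  unfold w5 c5 d7
  push_cast
  ring

lemma in6 {ψ : ℤ → ℤ} (hψ : ∀ u, ((ψ u : ℤ) : ZMod 13) = (χ5 8 9 u : ℤ)) {D : ℤ} (hD : NR D)
    (x : ℕ) : ((∑ i ∈ range 105, ψ (D * (x : ℤ) ^ 2 - (i : ℤ) ^ 2) : ℤ) : ZMod 13)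
      = (w6 x : ℤ) * ((∑ i ∈ range 5, c5 8 ((D : ZMod 5) - (i : ZMod 5) ^ 2)) *
        ∑ i ∈ range 7, d7 9 ((D : ZMod 7) - (i : ZMod 7) ^ 2)) := by
  have h := sum105 (fun z => ((T3 ((D : ZMod 3) * (x : ZMod 3) ^ 2 - z ^ 2) : ℤ) : ZMod 13))
    (fun z => c5 8 ((D : ZMod 5) * (x : ZMod 5) ^ 2 - z ^ 2))
    (fun z => d7 9 ((D : ZMod 7) * (x : ZMod 7) ^ 2 - z ^ 2))
  rw [d7_sum9 _ _ hD.2.2.1, ← Int.cast_sum, T3_sum _ _ hD.1, c5_sum8 _ _ hD.2.1] at h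
  have e : ((∑ i ∈ range 105, ψ (D * (x : ℤ) ^ 2 - (i : ℤ) ^ 2) : ℤ) : ZMod 13)
      = ∑ u ∈ range 105, ((T3 ((D : ZMod 3) * (x : ZMod 3) ^ 2 - (u : ZMod 3) ^ 2) : ℤ) : ZMod 13) *
        (c5 8 ((D : ZMod 5) * (x : ZMod 5) ^ 2 - (u : ZMod 5) ^ 2) *
        d7 9 ((D : ZMod 7) * (x : ZMod 7) ^ 2 - (u : ZMod 7) ^ 2)) := by
    rw [Int.cast_sum]
    apply Finset.sum_congr rfl
    intro i _
    rw [hψ]
    unfold χ5 c5 d7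
    push_cast
    rfl
  rw [e, h]
  unfold w6 c5 d7
  push_cast
  ring

lemma root_cast {n : ℕ} {i : ℤ} (h : (13 : ℤ) ^ (n + 1) ∣ i ^ 2 + 1) :
    ((i : ℤ) : ZMod (13 ^ (n + 1))) ^ 2 + 1 = 0 := by
  have h1 : ((i ^ 2 + 1 : ℤ) : ZMod (13 ^ (n + 1))) = 0 := by
    rw [ZMod.intCast_zmod_eq_zero_iff_dvd]
    push_cast
    exact h
  push_cast at h1
  exact h1

lemma root_cast' {n : ℕ} {i : ℤ} (h : (13 : ℤ) ^ (n + 1) ∣ i ^ 2 + i + 1) :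
    ((i : ℤ) : ZMod (13 ^ (n + 1))) ^ 2 + i + 1 = 0 := by
  have h1 : ((i ^ 2 + i + 1 : ℤ) : ZMod (13 ^ (n + 1))) = 0 := by
    rw [ZMod.intCast_zmod_eq_zero_iff_dvd]
    push_cast
    exact h
  push_cast at h1
  exact h1

/-- the lift of a fourth root of unity to the square of thirteen -/
lemma lift_i {i i0 j : ℤ} (h : (169 : ℤ) ∣ i ^ 2 + 1) (hi : i % 13 = i0)
    (hj : (i0 = 5 ∧ j = 70) ∨ (i0 = 8 ∧ j = 99)) : i % 169 = j := by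
  obtain ⟨t, ht⟩ := h
  rcases hj with ⟨rfl, rfl⟩ | ⟨rfl, rfl⟩
  · obtain ⟨s, hs⟩ : ∃ s, i = 13 * s + 5 := ⟨i / 13, by omega⟩
    rw [hs] at ht
    have : 13 * s ^ 2 * 13 + 130 * s + 26 = 169 * t := by linear_combination ht
    obtain ⟨z, hz⟩ : ∃ z, z = s ^ 2 := ⟨_, rfl⟩
    rw [← hz] at this
    omega
  · obtain ⟨s, hs⟩ : ∃ s, i = 13 * s + 8 := ⟨i / 13, by omega⟩
    rw [hs] at ht
    have : 13 * s ^ 2 * 13 + 208 * s + 65 = 169 * t := by linear_combination ht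
    obtain ⟨z, hz⟩ : ∃ z, z = s ^ 2 := ⟨_, rfl⟩
    rw [← hz] at this
    omega

/-- the lift of a cube root of unity to the square of thirteen -/
lemma lift_w {i i0 j : ℤ} (h : (169 : ℤ) ∣ i ^ 2 + i + 1) (hi : i % 13 = i0)
    (hj : (i0 = 3 ∧ j = 146) ∨ (i0 = 9 ∧ j = 22)) : i % 169 = j := by
  obtain ⟨t, ht⟩ := h
  rcases hj with ⟨rfl, rfl⟩ | ⟨rfl, rfl⟩
  · obtain ⟨s, hs⟩ : ∃ s, i = 13 * s + 3 := ⟨i / 13, by omega⟩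
    rw [hs] at ht
    have : 13 * s ^ 2 * 13 + 91 * s + 13 = 169 * t := by linear_combination ht
    obtain ⟨z, hz⟩ : ∃ z, z = s ^ 2 := ⟨_, rfl⟩
    rw [← hz] at this
    omega
  · obtain ⟨s, hs⟩ : ∃ s, i = 13 * s + 9 := ⟨i / 13, by omega⟩
    rw [hs] at ht
    have : 13 * s ^ 2 * 13 + 247 * s + 91 = 169 * t := by linear_combination ht
    obtain ⟨z, hz⟩ : ∃ z, z = s ^ 2 := ⟨_, rfl⟩
    rw [← hz] at this
    omega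

lemma dvd169 {n : ℕ} (hn : 1 ≤ n) {a : ℤ} (h : (13 : ℤ) ^ (n + 1) ∣ a) : (169 : ℤ) ∣ a := by
  refine Dvd.dvd.trans ?_ h
  obtain ⟨k, rfl⟩ : ∃ k, n = k + 1 := ⟨n - 1, by omega⟩
  exact ⟨13 ^ k, by ring⟩

/-- the general form of the existence theorem -/
theorem mk {q0 e0 n : ℕ} {k d0 h0 : ℤ} {ψ χ χ' : ℤ → ℤ} (hq : q0 % 2 = 1)
    (hcop : Nat.Coprime q0 13) (hper : ∀ x, ψ (x + q0) = ψ x) (h2 : 2 ≤ e0) (h12 : e0 < 12)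
    (hodd : ∀ x, ψ (-x) * (-1) ^ e0 = - ψ x)
    (hmul : ∀ x y, ((ψ (x * y) : ℤ) : ZMod (13 ^ (n + 1))) = (ψ x : ℤ) * (ψ y : ℤ))
    (hmod : ∀ u, ((ψ u : ℤ) : ZMod 13) = (χ u : ℤ))
    (hmod2 : 1 ≤ n → ∀ u, ((ψ u : ℤ) : ZMod 169) = (χ' u : ℤ))
    (hbase : Hs 13 q0 χ 1 e0 % 13 = 0) (hder : DD 13 q0 χ 2 e0 % 13 = d0) (hd0 : d0 ≠ 0)
    (hh : Hs 13 q0 χ' 2 e0 % 169 = 13 * h0)
    (hk : ∀ j : ℤ, 0 ≤ j → j < 13 → (h0 + j * d0) % 13 = 0 → (e0 + 12 * j) % 13 = k)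
    (hone : ψ 1 = 1)
    (hCR : ∀ e, e % 12 = e0 → ∀ D : ℤ, NR D → ¬ (13 : ℤ) ∣ CR 13 q0 e ψ D) :
    ∃ (e : ℕ) (ψ : ℤ → ℤ),
      e % 12 = e0 ∧ n + 2 ≤ e ∧ Fam 13 q0 n e ψ ∧ (1 ≤ n → (e : ℤ) % 13 = k) ∧
      (∀ u, ((ψ u : ℤ) : ZMod 13) = (χ u : ℤ)) ∧ ψ 1 = 1 ∧
      ∀ D : ℤ, NR D → ¬ (13 : ℤ) ∣ CR 13 q0 e ψ D := by
  obtain ⟨e, he, hen, hF⟩ := mkFam hq hcop hper h2 h12 hodd hmul hmod hbase (by omega)
  exact ⟨e, ψ, he, hen, hF, fun hn => fam_expo hF hn h2 he hmod (hmod2 hn) hh hder hk, hmod,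
    hone, hCR e he⟩

theorem hasF0 : HasFam 15 11 6 (χ0 5) := by
  intro n
  obtain ⟨i, hi, hin⟩ := exists_i (i0 := 5) (Or.inl rfl) n
  have hm : ∀ u, ((χ0 i u : ℤ) : ZMod 13) = (χ0 5 u : ℤ) := χ0_mod (ico (by exact_mod_cast hi))
  refine mk (ψ := χ0 i) (χ' := χ0 70) (d0 := 3) (h0 := 11) (by norm_num) (by norm_num) (χ0_per i)
    (by norm_num) (by norm_num) ?_ (χ0_mul (root_cast hin)) hm
    (fun hn => χ0_mod (ico (by exact_mod_cast lift_i (dvd169 hn hin) hi (Or.inl ⟨rfl, rfl⟩))))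
    base0 der0 (by norm_num) (by rw [sec0]; norm_num) ?_ (χ0_one i) ?_
  · intro x
    rw [χ0_neg]
    norm_num
  · intro j h1 h2 h3
    omega
  · intro e he D hD
    exact CR_ne_gen he (by norm_num) 6 six_ne p11_sum w0 _ (c5_ne5 _ hD.2.1) (in0 hm hD)
      W0_ne hD.2.2.2

theorem hasF3 : HasFam 35 8 11 (ψ2 3) := by
  intro n
  obtain ⟨w, hw, hwn⟩ := exists_w n
  have hm : ∀ u, ((ψ2 w u : ℤ) : ZMod 13) = (ψ2 3 u : ℤ) := ψ2_mod hw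
  refine mk (ψ := ψ2 w) (χ' := ψ2 146) (d0 := 11) (h0 := 7) (by norm_num) (by norm_num) (ψ2_per w)
    (by norm_num) (by norm_num) ?_ (ψ2_mul (root_cast' hwn)) hm
    (fun hn => ψ2_modN (ico (by exact_mod_cast lift_w (dvd169 hn hwn) hw (Or.inl ⟨rfl, rfl⟩))))
    base2 der3 (by norm_num) (by rw [sec3]; norm_num) ?_ (ψ2_one w) ?_
  · intro x
    rw [ψ2_neg]
    norm_num
  · intro j h1 h2 h3
    omega
  · intro e he D hD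
    exact CR2_ne hw he hD.2.1 hD.2.2.1 hD.2.2.2

theorem hasF4 : HasFam 105 11 3 (χ4 9) := by
  intro n
  obtain ⟨w, hw, hwn⟩ := exists_w9 n
  have hm : ∀ u, ((χ4 w u : ℤ) : ZMod 13) = (χ4 9 u : ℤ) := χ4_mod (ico (by exact_mod_cast hw))
  refine mk (ψ := χ4 w) (χ' := χ4 22) (d0 := 8) (h0 := 1) (by norm_num) (by norm_num) (χ4_per w)
    (by norm_num) (by norm_num) ?_ (χ4_mul (root_cast' hwn)) hm
    (fun hn => χ4_mod (ico (by exact_mod_cast lift_w (dvd169 hn hwn) hw (Or.inr ⟨rfl, rfl⟩))))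
    base4 der4 (by norm_num) (by rw [sec4]; norm_num) ?_ (χ4_one w) ?_
  · intro x
    rw [χ4_neg]
    norm_num
  · intro j h1 h2 h3
    omega
  · intro e he D hD
    exact CR_ne_gen he (by norm_num) 6 six_ne p11_sum w4 _ (u7_ne9 _ hD.2.2.1) (in4 hm hD)
      W4_ne hD.2.2.2

theorem hasF5 : HasFam 105 9 1 (χ5 5 3) := by
  intro n
  have : Fact (Nat.Prime 13) := ⟨prime13⟩
  obtain ⟨i, hi, hin⟩ := exists_i (i0 := 5) (Or.inl rfl) n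
  obtain ⟨w, hw, hwn⟩ := exists_w n
  have hm : ∀ u, ((χ5 i w u : ℤ) : ZMod 13) = (χ5 5 3 u : ℤ) :=
    χ5_mod (ico (by exact_mod_cast hi)) (ico (by exact_mod_cast hw))
  refine mk (ψ := χ5 i w) (χ' := χ5 70 146) (d0 := 1) (h0 := 5) (by norm_num) (by norm_num)
    (χ5_per i w) (by norm_num) (by norm_num) ?_ (χ5_mul (root_cast hin) (root_cast' hwn)) hm
    (fun hn => χ5_mod (ico (by exact_mod_cast lift_i (dvd169 hn hin) hi (Or.inl ⟨rfl, rfl⟩)))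
      (ico (by exact_mod_cast lift_w (dvd169 hn hwn) hw (Or.inl ⟨rfl, rfl⟩))))
    base5 der5 (by norm_num) (by rw [sec5]; norm_num) ?_ (χ5_one i w) ?_
  · intro x
    rw [χ5_neg]
    norm_num
  · intro j h1 h2 h3
    omega
  · intro e he D hD
    exact CR_ne_gen he (by norm_num) 7 seven_ne p9_sum w5 _
      (mul_ne_zero (c5_ne5 _ hD.2.1) (d7_ne3 _ hD.2.2.1)) (in5 hm hD) W5_ne hD.2.2.2

theorem hasF6 : HasFam 105 11 5 (χ5 8 9) := by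
  intro n
  have : Fact (Nat.Prime 13) := ⟨prime13⟩
  obtain ⟨i, hi, hin⟩ := exists_i (i0 := 8) (Or.inr rfl) n
  obtain ⟨w, hw, hwn⟩ := exists_w9 n
  have hm : ∀ u, ((χ5 i w u : ℤ) : ZMod 13) = (χ5 8 9 u : ℤ) :=
    χ5_mod (ico (by exact_mod_cast hi)) (ico (by exact_mod_cast hw))
  refine mk (ψ := χ5 i w) (χ' := χ5 99 22) (d0 := 3) (h0 := 8) (by norm_num) (by norm_num)
    (χ5_per i w) (by norm_num) (by norm_num) ?_ (χ5_mul (root_cast hin) (root_cast' hwn)) hm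
    (fun hn => χ5_mod (ico (by exact_mod_cast lift_i (dvd169 hn hin) hi (Or.inr ⟨rfl, rfl⟩)))
      (ico (by exact_mod_cast lift_w (dvd169 hn hwn) hw (Or.inr ⟨rfl, rfl⟩))))
    base6 der6 (by norm_num) (by rw [sec6]; norm_num) ?_ (χ5_one i w) ?_
  · intro x
    rw [χ5_neg]
    norm_num
  · intro j h1 h2 h3
    omega
  · intro e he D hD
    exact CR_ne_gen he (by norm_num) 6 six_ne p11_sum w6 _
      (mul_ne_zero (c5_ne8 _ hD.2.1) (d7_ne9 _ hD.2.2.1)) (in6 hm hD) W6_ne hD.2.2.2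

end Pool.Agent.PSX.F26
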