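import Pool.Agent.PSX.StG
import Pool.Agent.PSX.Fams

/-!
Period six: the five families.
-/

set_option autoImplicit false

namespace Pool.Agent.PSX

namespace F26

open Pool.Agent.P4G

lemma tb3 : ∀ x : ZMod 3, ((T3 x : ℤ) : ZMod 13) = v3 x := by decide
lemma tb5 : ∀ x : ZMod 5, ((T5 x : ℤ) : ZMod 13) = v5 x ^ 2 := by decide
lemma tb5a : ∀ x : ZMod 5, ((C5 5 x : ℤ) : ZMod 13) = v5 x ^ 3 := by decide
lemma tb5b : ∀ x : ZMod 5, ((C5 8 x : ℤ) : ZMod 13) = v5 x := by decide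
lemma tb7a : ∀ x : ZMod 7, ((RDF.T7 x * C7 3 x : ℤ) : ZMod 13) = v7 x ^ 5 := by decide
lemma tb7b : ∀ x : ZMod 7, ((RDF.T7 x * C7 9 x : ℤ) : ZMod 13) = v7 x := by decide
lemma tb7c : ∀ x : ZMod 7, ((C7 3 x : ℤ) : ZMod 13) = v7 x ^ 2 := by decide
lemma tb7d : ∀ x : ZMod 7, ((C7 9 x : ℤ) : ZMod 13) = v7 x ^ 4 := by decide

lemma ok {q0 e0 k : ℕ} {χ : ℤ → ZMod 13} {φ : ℤ → ℤ} (h : HasFam q0 e0 k φ) (h2 : 2 ≤ e0)
    (hnd : ¬ 12 ∣ 2 * e0) (hv : ∀ u : ℤ, ((φ u : ℤ) : ZMod 13) * (u : ZMod 13) ^ e0 = χ u) :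
    FamOK q0 e0 k χ := by
  intro n
  obtain ⟨e, ψ, he, hen, hF, hk, hm, h1, hC⟩ := h n
  refine ⟨e, ψ, ⟨hF, h1, he, h2, ?_⟩, ?_, ?_, ?_⟩
  · intro hd
    apply hnd
    have e1 : 2 * e = 12 * (2 * (e / 12)) + 2 * e0 := by omega
    have e2 : 13 - 1 = 12 := by norm_num
    rw [e2] at hd
    omega
  · intro hn
    have := hk hn
    omega
  · intro u
    unfold fb
    push_cast
    rw [hm, ← hv]
    congr 1
    exact pow_expo prime13 (m := e) (m0 := e0) (by norm_num; omega) (by omega) (by omega) _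
  · intro D hD
    exact hC D ⟨hD.h3, hD.h5, hD.h7, hD.h13⟩

end F26

open F26 in
theorem t_FAM : Stmt_FAM := by
  refine ⟨ok hasF0 (by norm_num) (by norm_num) ?_, ok hasF3 (by norm_num) (by norm_num) ?_,
    ok hasF4 (by norm_num) (by norm_num) ?_, ok hasF5 (by norm_num) (by norm_num) ?_,
    ok hasF6 (by norm_num) (by norm_num) ?_⟩
  · intro u
    unfold PSX.χ0 F26.χ0
    rw [Int.cast_mul, tb3, tb5a]
  · intro u
    unfold PSX.χ3 P4G.ψ2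
    rw [Int.cast_mul, tb5, tb7a]
  · intro u
    unfold PSX.χ4 F26.χ4
    rw [Int.cast_mul, Int.cast_mul, tb3, tb5, tb7b]
    ring
  · intro u
    unfold PSX.χ5 F26.χ5
    rw [Int.cast_mul, Int.cast_mul, tb3, tb5a, tb7c]
    ring
  · intro u
    unfold PSX.χ6 F26.χ5
    rw [Int.cast_mul, Int.cast_mul, tb3, tb5b, tb7d]
    ring

end Pool.Agent.PSX
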