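import Pool.Agent.PSX.StG

/-!
# Period six, the ghost line: the first order formula
-/

set_option autoImplicit false

namespace Pool.Agent.PSX

open Finset (range)
open Pool.Agent.P4G (Fam QN FN FZ CC CR)

/-- an edge sum with a letter changed by a multiple of the period -/
lemma fst_let (hEFZ : Stmt_EFZ) (hLCQ : Stmt_LCQ) (hPPO : Stmt_PPO) (hBLK : Stmt_BLK)
    (l q0 n e : ℕ) (ψ : ℤ → ℤ) [NeZero (QN l q0 n)] (h : Fam l q0 n e ψ) (P R S c t0 : ℤ) :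
    Es (FZ l q0 n e ψ) (P : ZMod (QN l q0 n)) (R : ZMod (QN l q0 n)) (S : ZMod (QN l q0 n))
        (c + (QN l q0 n : ℕ) * t0)
      = Es (FZ l q0 n e ψ) (P : ZMod (QN l q0 n)) (R : ZMod (QN l q0 n)) (S : ZMod (QN l q0 n)) c
        + 2 * (t0 : ZMod (l ^ (n + 1))) * SX (QN l q0 n) (I0 l q0 n e ψ P R S) := by
  rw [hEFZ l q0 n e ψ h, hEFZ l q0 n e ψ h,
    hLCQ l q0 n h.Qodd (fun x y => FN l n e ψ (evZ P R S x y)) (by
      intro x y
      have h1 := (hPPO l q0 n e ψ h).1 P R S x 0 1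
      have h2 : Pol l n ψ (fun y => FN l n e ψ (evZ P R S x y)) := by
        simpa only [zero_add, one_mul] using h1
      exact (hBLK l q0 n e ψ h _ h2).2.2 y) c t0]
  rfl

theorem t_FST (hGHF : Stmt_GHF) (hEFZ : Stmt_EFZ) (hLCQ : Stmt_LCQ) (hPPO : Stmt_PPO)
    (hBLK : Stmt_BLK) (hCQP : Stmt_CQP) : Stmt_FST := by
  intro l q0 n e e0 ψ _ h a b c B m r p α1 β1 y hm hr0 ha hb hB hr hp hR
  have LC := fst_let hEFZ hLCQ hPPO hBLK l q0 n e ψ h.fam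
  have one : FN l n e ψ 1 = 1 := by
    unfold FN
    rw [h.one]
    simp
  have cq : ∀ P R S T U V : ℤ, IsCoprime S ((q0 * l : ℕ) : ℤ) → IsCoprime V ((q0 * l : ℕ) : ℤ) →
      (U ^ 2 + 4 * T * V) - (R ^ 2 + 4 * P * S) = 0 →
      FN l n e ψ S * SX (QN l q0 n) (I0 l q0 n e ψ P R S)
        = FN l n e ψ V * SX (QN l q0 n) (I0 l q0 n e ψ T U V) := by
    intro P R S T U V hS hV hD
    unfold SX
    rw [Finset.mul_sum, Finset.mul_sum]
    apply Finset.sum_congr rfl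
    intro x _
    have := hCQP l q0 n e e0 ψ h P R S T U V (x : ℤ) hS hV (by rw [hD]; exact dvd_zero _)
    rw [mul_left_comm, this, mul_left_comm]
  have c1 : IsCoprime (1 : ℤ) ((q0 * l : ℕ) : ℤ) := isCoprime_one_left
  have q1 := cq 1 (c - 2) m m (c - 2) 1 hm c1 (by ring)
  have q2 := cq m (2 * m - c + 2) (c - 1 - m) m (c - 2) 1 hr0 c1 (by ring)
  have q4 := cq (-1) (-c) (c - 1 - m) m (c - 2) 1 hr0 c1 (by ring)
  have q5 := cq (c - 1 - m) (2 * m - c + 2) m m (c - 2) 1 hm c1 (by ring)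
  rw [one, one_mul] at q1 q2 q4 q5
  -- the residues
  have hQ0 : (((QN l q0 n : ℕ) : ℤ) : ZMod (QN l q0 n)) = 0 := by
    rw [Int.cast_natCast, ZMod.natCast_self]
  have eB : ((B : ℤ) : ZMod (QN l q0 n)) = ((c - 2 : ℤ) : ZMod (QN l q0 n)) := by
    rw [hB, Int.cast_add, Int.cast_mul, hQ0, zero_mul, add_zero]
  have er : ((r : ℤ) : ZMod (QN l q0 n)) = ((c - 1 - m : ℤ) : ZMod (QN l q0 n)) := by
    rw [← sub_eq_zero, ← Int.cast_sub, ZMod.intCast_zmod_eq_zero_iff_dvd]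
    exact hr
  have ep : ((p : ℤ) : ZMod (QN l q0 n)) = ((-1 : ℤ) : ZMod (QN l q0 n)) := by
    rw [← sub_eq_zero, ← Int.cast_sub, ZMod.intCast_zmod_eq_zero_iff_dvd]
    simpa using hp
  have eR : ((2 * a * m - B : ℤ) : ZMod (QN l q0 n)) = ((2 * m - c + 2 : ℤ) : ZMod (QN l q0 n)) := by
    rw [← sub_eq_zero, ← Int.cast_sub, ZMod.intCast_zmod_eq_zero_iff_dvd]
    exact hR
  have ec : ((c * p : ℤ) : ZMod (QN l q0 n)) = ((-c : ℤ) : ZMod (QN l q0 n)) := by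
    rw [Int.cast_mul, ep]
    push_cast
    ring
  have eR' : ((2 * 1 * m - (c - 2) : ℤ) : ZMod (QN l q0 n)) = ((2 * m - c + 2 : ℤ) : ZMod (QN l q0 n)) := by
    congr 1
    ring
  have ec' : ((c * (-1) : ℤ) : ZMod (QN l q0 n)) = ((-c : ℤ) : ZMod (QN l q0 n)) := by
    congr 1
    ring
  have g := hGHF l q0 n e e0 ψ h c m
  unfold R6 at g ⊢
  rw [eR', ec'] at g
  rw [eB, er, ep, eR, ec]
  have e1 : (1 : ZMod (QN l q0 n)) = ((1 : ℤ) : ZMod (QN l q0 n)) := by push_cast; rfl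
  have la : a = 1 + (QN l q0 n : ℕ) * α1 := by linarith
  have lb : b = -1 + (QN l q0 n : ℕ) * β1 := by linarith
  rw [e1] at g ⊢
  rw [hB, la, lb, LC, LC, LC, LC, LC]
  generalize SX (QN l q0 n) (I0 l q0 n e ψ m (c - 2) 1) = T0 at q1 q2 q4 q5 ⊢
  generalize SX (QN l q0 n) (I0 l q0 n e ψ 1 (c - 2) m) = T1 at q1 ⊢
  generalize SX (QN l q0 n) (I0 l q0 n e ψ m (2 * m - c + 2) (c - 1 - m)) = T2 at q2 ⊢
  generalize SX (QN l q0 n) (I0 l q0 n e ψ (-1) (-c) (c - 1 - m)) = T4 at q4 ⊢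
  generalize SX (QN l q0 n) (I0 l q0 n e ψ (c - 1 - m) (2 * m - c + 2) m) = T5 at q5 ⊢
  linear_combination (FN l n e ψ m * FN l n e ψ (c - 1 - m)) * g
    + 2 * (α1 : ZMod (l ^ (n + 1))) * FN l n e ψ (c - 1 - m) * (q1 + q5)
    + 2 * (β1 : ZMod (l ^ (n + 1))) * FN l n e ψ m * (q2 + q4)

end Pool.Agent.PSX
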