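import Pool.Agent.PSX.FamB

/-!
Period six: the characters of the families at the prime thirteen.
-/

namespace Pool.Agent.PSX.F26

open Finset (range)
open Pool.Agent.P4G
open Pool.Agent.RDF (T7 T7_mul T7_neg bt)

/-- conductor fifteen -/
def χ0 (i u : ℤ) : ℤ := T3 (u : ZMod 3) * C5 i (u : ZMod 5)
/-- conductor one hundred and five, cubic at seven -/
def χ4 (w u : ℤ) : ℤ := T3 (u : ZMod 3) * (T5 (u : ZMod 5) * (T7 (u : ZMod 7) * C7 w (u : ZMod 7)))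
/-- conductor one hundred and five, quartic at five, cubic at seven -/
def χ5 (i w u : ℤ) : ℤ := T3 (u : ZMod 3) * (C5 i (u : ZMod 5) * C7 w (u : ZMod 7))

lemma sum_two (a b : ℕ) (f : ℕ → ℤ) :
    ∑ r ∈ range (a * b), f r = ∑ i ∈ range a, ∑ j ∈ range b, f (b * i + j) := by
  induction a with
  | zero => simp
  | succ a ih =>
    rw [Nat.succ_mul, Finset.sum_range_add, ih, Finset.sum_range_succ]
    congr 1
    apply Finset.sum_congr rfl
    intro j _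
    rw [mul_comm b a]

lemma Hs_two (χ : ℤ → ℤ) (m : ℕ) : Hs 13 105 χ 2 m = ∑ i ∈ range 19, ∑ j ∈ range 467,
    χ ((467 * i + j : ℕ) : ℤ) * ((467 * i + j : ℕ) : ℤ) ^ m := by
  unfold Hs
  exact sum_two 19 467 (fun r => χ (r : ℤ) * (r : ℤ) ^ m)

lemma DD_two (χ : ℤ → ℤ) (m : ℕ) : DD 13 105 χ 2 m = ∑ i ∈ range 19, ∑ j ∈ range 467,
    χ ((467 * i + j : ℕ) : ℤ) * (((467 * i + j : ℕ) : ℤ) ^ m * fq 13 ((467 * i + j : ℕ) : ℤ)) := by
  unfold DD
  exact sum_two 19 467 (fun r => χ (r : ℤ) * ((r : ℤ) ^ m * fq 13 (r : ℤ)))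

end Pool.Agent.PSX.F26
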