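import Pool.Agent.PSX.FamD

/-!
Period six: the light kernel computations for the families at the prime thirteen.
-/

namespace Pool.Agent.PSX.F26

open Finset (range)
open Pool.Agent.P4G
open Pool.Agent.RDF (T7 T7_mul T7_neg bt)

lemma base0 : (Hs 13 15 (χ0 5) 1 11) % 13 = 0 := by decide +kernel
lemma der0 : (DD 13 15 (χ0 5) 2 11) % 13 = 3 := by decide +kernel
lemma sec0 : (Hs 13 15 (χ0 70) 2 11) % 169 = 143 := by decide +kernel
lemma der3 : (DD 13 35 (ψ2 3) 2 8) % 13 = 11 := by decide +kernel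
lemma sec3 : (Hs 13 35 (ψ2 146) 2 8) % 169 = 91 := by decide +kernel
lemma base4 : (Hs 13 105 (χ4 9) 1 11) % 13 = 0 := by decide +kernel
lemma base5 : (Hs 13 105 (χ5 5 3) 1 9) % 13 = 0 := by decide +kernel
lemma base6 : (Hs 13 105 (χ5 8 9) 1 11) % 13 = 0 := by decide +kernel

end Pool.Agent.PSX.F26
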