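import Pool.Agent.PSX.Sys6
import Pool.Agent.RQM.C120

/-!
Period six, elimination: scalar evaluation of the reduced relations on codes of classes, and the
loops over the classes of the two-parameter families with a given middle coefficient `p`:
`b = p a`, `c = a + v (1 + p a ^ 2)`, `B = p c`, `m = p (1 + p a v)`.
-/

namespace Pool.Agent.PSX.EL

open Pool.Agent.Lib_helper5 Pool.Agent.Lib_helper5.LK Pool.Agent.Lib_helper5.TB
  Pool.Agent.LibH4.Ker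
open Pool.Agent.LibH4.S7 (Rl cd ck ca cb cc cB cm ca_cd cb_cd cc_cd cB_cd cm_cd cx cq s3 xt yt
  fP fR fS fA fK ng ng_eq cx_cd cq_cd fA_cd fK_cd jf xt_mod yt_mod y2 r2 y3 r3)

/-- the relation holds -/
def Hol6 (r : Rl) (a b c B m : ℤ) : Prop := ((J6 a b c B m).map r.val).sum % r.l = 0

/-- the last term in terms of codes -/
def tm6 (r : Rl) (N1 N2 N3 k1 k2 k3 kl : ℕ) : ℕ :=
  cx r.n1 r.t1 N1 k1 3 * cx r.n2 r.t2 N2 k2 3 * cx r.n3 r.t3 N3 k3 3 *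
    (6 * tX r.rows r.len3 (cq r.n1 r.ex1 r.PT1 N1 k1 3) (cq r.n2 r.ex2 r.PT2 N2 k2 3)
      (cq r.n3 r.ex3 r.PT3 N3 k3 3) +
    ng r.l (cc r.l kl) * tY r.rows r.len3 (cq r.n1 r.ex1 r.PT1 N1 k1 3)
      (cq r.n2 r.ex2 r.PT2 N2 k2 3) (cq r.n3 r.ex3 r.PT3 N3 k3 3))

/-- **the relation in terms of codes** -/
theorem Hol6.tm {r : Rl} {a b c B m : ℤ} (h : Hol6 r a b c B m) {N1 N2 N3 : ℕ}
    [NeZero r.n1] [NeZero r.n2] [NeZero r.n3] [NeZero r.l] [NeZero N1] [NeZero N2] [NeZero N3]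
    (h1 : r.n1 ∣ N1) (h2 : r.n2 ∣ N2) (h3 : r.n3 ∣ N3) :
    (LibH4.S7.tm r N1 N2 N3 r.l (cd N1 a b c B m) (cd N2 a b c B m) (cd N3 a b c B m)
        (cd r.l a b c B m) 0 +
      (LibH4.S7.tm r N1 N2 N3 r.l (cd N1 a b c B m) (cd N2 a b c B m) (cd N3 a b c B m)
        (cd r.l a b c B m) 1 +
      (LibH4.S7.tm r N1 N2 N3 r.l (cd N1 a b c B m) (cd N2 a b c B m) (cd N3 a b c B m)
        (cd r.l a b c B m) 2 +
      tm6 r N1 N2 N3 (cd N1 a b c B m) (cd N2 a b c B m) (cd N3 a b c B m)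
        (cd r.l a b c B m)))) % r.l = 0 := by
  have key : ∀ j < 5, LibH4.S7.tm r N1 N2 N3 r.l (cd N1 a b c B m) (cd N2 a b c B m)
      (cd N3 a b c B m) (cd r.l a b c B m) j = r.val (jf a b c B m j) := by
    intro j hj
    unfold LibH4.S7.tm Rl.val fval
    rw [cx_cd h1 _ hj, cx_cd h2 _ hj, cx_cd h3 _ hj, cq_cd h1 _ _ hj, cq_cd h2 _ _ hj,
      cq_cd h3 _ _ hj, fA_cd hj, fK_cd (a := a) (b := b) (c := c) (B := B) (m := m) hj]
  have key3 : tm6 r N1 N2 N3 (cd N1 a b c B m) (cd N2 a b c B m)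
      (cd N3 a b c B m) (cd r.l a b c B m) =
      r.val ⟨y2 a B m, r3 a b B m, -y3 a b B m, 6, -c⟩ := by
    unfold tm6 Rl.val fval
    have hj : 3 < 5 := by norm_num
    rw [cx_cd h1 _ hj, cx_cd h2 _ hj, cx_cd h3 _ hj, cq_cd h1 _ _ hj, cq_cd h2 _ _ hj,
      cq_cd h3 _ _ hj, cc_cd, ng_eq]
    rfl
  rw [key 0 (by norm_num), key 1 (by norm_num), key 2 (by norm_num), key3]
  have h' := h
  unfold Hol6 J6 at h'
  simp only [List.map_cons, List.map_nil, List.sum_cons, List.sum_nil, add_zero] at h'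
  exact h'

/-- the value of a relation -/
def sv6 (r : Rl) (N1 N2 N3 k1 k2 k3 kl : ℕ) : ℕ :=
  Nat.mod (Nat.add
    (Nat.add (xt r N1 N2 N3 k1 k2 k3 (nat_lit 1)) (Nat.add (xt r N1 N2 N3 k1 k2 k3 (nat_lit 2))
      (xt r N1 N2 N3 k1 k2 k3 (nat_lit 3))))
    (Nat.add (Nat.mul (yt r N1 N2 N3 k1 k2 k3 (nat_lit 0)) (fA r.l kl (nat_lit 0)))
      (Nat.add (Nat.mul (yt r N1 N2 N3 k1 k2 k3 (nat_lit 1)) (fA r.l kl (nat_lit 1)))
        (Nat.add (Nat.mul (yt r N1 N2 N3 k1 k2 k3 (nat_lit 2)) (fA r.l kl (nat_lit 2)))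
          (Nat.mul (yt r N1 N2 N3 k1 k2 k3 (nat_lit 3)) (ng r.l (cc r.l kl))))))) r.l

/-- check of a relation -/
def chk6 (r : Rl) (N1 N2 N3 k1 k2 k3 kl : ℕ) (k : Bool) : Bool :=
  @Nat.rec (fun _ => Bool) k (fun _ _ => true) (sv6 r N1 N2 N3 k1 k2 k3 kl)

lemma sv6_eq {r : Rl} {N1 N2 N3 k1 k2 k3 kl : ℕ} (hl : 0 < r.l) :
    sv6 r N1 N2 N3 k1 k2 k3 kl =
    (LibH4.S7.tm r N1 N2 N3 r.l k1 k2 k3 kl 0 + (LibH4.S7.tm r N1 N2 N3 r.l k1 k2 k3 kl 1 +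
      (LibH4.S7.tm r N1 N2 N3 r.l k1 k2 k3 kl 2 + tm6 r N1 N2 N3 k1 k2 k3 kl))) % r.l := by
  unfold sv6
  change (xt r N1 N2 N3 k1 k2 k3 1 + (xt r N1 N2 N3 k1 k2 k3 2 + xt r N1 N2 N3 k1 k2 k3 3) +
    (yt r N1 N2 N3 k1 k2 k3 0 * fA r.l kl 0 + (yt r N1 N2 N3 k1 k2 k3 1 * fA r.l kl 1 +
      (yt r N1 N2 N3 k1 k2 k3 2 * fA r.l kl 2 +
        yt r N1 N2 N3 k1 k2 k3 3 * ng r.l (cc r.l kl))))) % r.l = _
  have h : NeZero r.l := ⟨hl.ne'⟩
  rw [← ZMod.val_natCast, ← ZMod.val_natCast]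
  congr 1
  push_cast
  rw [xt_mod, xt_mod, xt_mod, yt_mod, yt_mod, yt_mod, yt_mod]
  unfold LibH4.S7.tm tm6
  have f0 : fK 0 = 0 := rfl
  have f3 : fK 3 = 6 := rfl
  rw [f0, f3]
  push_cast
  ring

/-- a relation which holds passes the check -/
theorem chk6_spec {r : Rl} {a b c B m : ℤ} (h : Hol6 r a b c B m) {N1 N2 N3 : ℕ}
    [NeZero r.n1] [NeZero r.n2] [NeZero r.n3] [NeZero r.l] [NeZero N1] [NeZero N2] [NeZero N3]
    (h1 : r.n1 ∣ N1) (h2 : r.n2 ∣ N2) (h3 : r.n3 ∣ N3) {k : Bool}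
    (hc : chk6 r N1 N2 N3 (cd N1 a b c B m) (cd N2 a b c B m) (cd N3 a b c B m)
      (cd r.l a b c B m) k = true) : k = true := by
  have h4 : sv6 r N1 N2 N3 (cd N1 a b c B m) (cd N2 a b c B m) (cd N3 a b c B m)
      (cd r.l a b c B m) = 0 := by
    rw [sv6_eq (Nat.pos_of_ne_zero (NeZero.ne _))]
    exact h.tm h1 h2 h3
  unfold chk6 at hc
  rw [h4] at hc
  exact hc

/-- the components of a relation -/
def RC6 (r : Rl) (n1 n2 n3 l : ℕ) : Prop := r.n1 = n1 ∧ r.n2 = n2 ∧ r.n3 = n3 ∧ r.l = l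

/-- the check with explicit moduli -/
theorem RC6.chk {r : Rl} {n1 n2 n3 l : ℕ} {a b c B m : ℤ} (rc : RC6 r n1 n2 n3 l)
    (h : Hol6 r a b c B m) {N1 N2 N3 : ℕ}
    [NeZero n1] [NeZero n2] [NeZero n3] [NeZero l] [NeZero N1] [NeZero N2] [NeZero N3]
    (h1 : n1 ∣ N1) (h2 : n2 ∣ N2) (h3 : n3 ∣ N3) {k : Bool}
    (hc : chk6 r N1 N2 N3 (cd N1 a b c B m) (cd N2 a b c B m) (cd N3 a b c B m)
      (cd l a b c B m) k = true) : k = true := by
  obtain ⟨rfl, rfl, rfl, rfl⟩ := rc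
  exact chk6_spec h h1 h2 h3 hc

/-! ### the two-parameter families -/

/-- the code of the class `(a, v)` of the family -/
def cf (n p a v : ℕ) : ℕ :=
  strict (Nat.mod (Nat.mul p a) n) fun b =>
  strict (Nat.mod (Nat.add a (Nat.mul v (Nat.add (nat_lit 1) (Nat.mul a b)))) n) fun c =>
  strict (Nat.mod (Nat.mul p c) n) fun B =>
  strict (Nat.mod (Nat.mul p (Nat.add (nat_lit 1) (Nat.mul b v))) n) fun m =>
  ck n a b c B m

/-- loop over the classes modulo `n` -/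
def lp (n p : ℕ) (ad : ℕ → ℕ → ℕ → Bool) (k : ℕ → Bool) : Bool :=
  allR (fun a => allR (fun v => strict (cf n p a v) fun x =>
    @Bool.rec (fun _ => Bool) true (k x) (ad (cm n x) (cB n x) (Nat.sub n (nat_lit 1)))) n) n

/-- membership in the family -/
structure InF (p : ℕ) (v a b c B m : ℤ) : Prop where
  hb : b = p * a
  hc : c = a + v * (1 + p * a ^ 2)
  hB : B = p * c
  hm : m = p * (1 + p * a * v)

lemma InF.cf {p : ℕ} {v a b c B m : ℤ} (h : InF p v a b c B m) (n : ℕ) [NeZero n] :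
    cf n p (rs n a) (rs n v) = cd n a b c B m := by
  obtain ⟨hb, hc, hB, hm⟩ := h
  unfold EL.cf
  simp only [strict_eq]
  have eb : Nat.mod (Nat.mul p (rs n a)) n = rs n b := by
    change p * rs n a % n = _
    apply rs_of
    rw [hb]
    push_cast
    simp only [rs_cast]
  rw [eb]
  have ec : Nat.mod (Nat.add (rs n a) (Nat.mul (rs n v) (Nat.add (nat_lit 1)
      (Nat.mul (rs n a) (rs n b))))) n = rs n c := by
    change (rs n a + rs n v * (1 + rs n a * rs n b)) % n = _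
    apply rs_of
    rw [hc, hb]
    push_cast
    simp only [rs_cast]
    push_cast
    ring
  rw [ec]
  have eB : Nat.mod (Nat.mul p (rs n c)) n = rs n B := by
    change p * rs n c % n = _
    apply rs_of
    rw [hB]
    push_cast
    simp only [rs_cast]
  rw [eB]
  have em : Nat.mod (Nat.mul p (Nat.add (nat_lit 1) (Nat.mul (rs n b) (rs n v)))) n =
      rs n m := by
    change p * (1 + rs n b * rs n v) % n = _
    apply rs_of
    rw [hm, hb]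
    push_cast
    simp only [rs_cast]
    push_cast
    ring
  rw [em]
  rfl

/-- **specification of the loop** -/
theorem lp_spec {p : ℕ} {v a b c B m : ℤ} (hF : InF p v a b c B m) {n : ℕ} [NeZero n]
    {ad : ℕ → ℕ → ℕ → Bool} (had : ad (rs n m) (rs n B) (rs n (-1)) = true) {k : ℕ → Bool}
    (h : lp n p ad k = true) : k (cd n a b c B m) = true := by
  have h1 := allR_spec (allR_spec h (rs n a) (rs_lt a)) (rs n v) (rs_lt v)
  simp only [strict_eq] at h1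
  rw [hF.cf n, cm_cd, cB_cd] at h1
  have e : Nat.sub n (nat_lit 1) = rs n (-1) := by
    have h2 : Nat.mod (Nat.sub n (nat_lit 1)) n = rs n (-1) := LibH4.S7.rsn_neg_one
    rw [← h2]
    have hn : 0 < n := Nat.pos_of_ne_zero (NeZero.ne n)
    change n - 1 = (n - 1) % n
    rw [Nat.mod_eq_of_lt (by omega)]
  rw [e, had] at h1
  exact h1

/-- the first form is admissible at odd primes -/
lemma ad6P {Q : ℕ} {a b c B m : ℤ} (S : Sys6 Q a b c B m) {p : ℕ} [NeZero p] (hp : p.Prime)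
    (hp2 : p ≠ 2) (hQ : p ∣ Q) : adP p (rs p m) (rs p B) (rs p (-1)) = true :=
  adP6 S hp hp2 hQ _ _ _ (Dv_J6 a b c B m p _ (List.mem_cons_self : (⟨m, B, -1, 0, -B⟩ : Fm) ∈
    J6 a b c B m))

/-- the first form is admissible at two -/
lemma ad6O {Q : ℕ} {a b c B m : ℤ} (S : Sys6 Q a b c B m) {n : ℕ} [NeZero n] (hn : 2 ∣ n) :
    adO (rs n m) (rs n B) (rs n (-1)) = true :=
  adO6 S hn _ _ _ (Dv_J6 a b c B m n _ (List.mem_cons_self : (⟨m, B, -1, 0, -B⟩ : Fm) ∈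
    J6 a b c B m))

end Pool.Agent.PSX.EL
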