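import Pool.Agent.RQM.C135

/-!
# Period six, the ghost line: definitions

Cycle of forms `(P, R, S)`, value `P x² + R x y - S y²`:
`(m,B,1), (1,B,m), (m,2am-B,r), (r,cp,p), (p,cp,r), (r,2am-B,m)`, letters `B, a, b, c, b, a`.
The ghost words are `(c-2; 1, -1, c, -1, 1)`.
-/

set_option autoImplicit false

namespace Pool.Agent.PSX

open Finset (range)
open Pool.Agent.P4G (Fam QN FN FZ CC CR)
open Pool.Agent.Lib_helper5 (XZ YX)

section weights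

variable {Q : ℕ} [NeZero Q]

/-- the sign of a residue: `0` at `0`, `(-1)^x` for `0 < x < Q` -/
def sg (x : ZMod Q) : ℤ := if x = 0 then 0 else (-1) ^ x.val

/-- the integer `ν_c(x,y) = (β(y) - c β(x) - β(y - c x)) / Q` -/
def nu (c : ℤ) (x y : ZMod Q) : ℤ :=
  (RDF.β y - c * RDF.β x - RDF.β (y - (c : ZMod Q) * x)) / Q

/-- the integral weight of a letter `c` -/
def W (c : ℤ) (x y : ZMod Q) : ℤ := sg x * (nu c x y + sg y)

/-- the value of a form -/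
def ev {A : Type*} [CommRing A] (P R S x y : A) : A := P * x ^ 2 + R * x * y - S * y ^ 2

/-- the edge sum of the form `(P,R,S)` and the letter `c` -/
def Es {M : Type*} [CommRing M] (F : ZMod Q → M) (P R S : ZMod Q) (c : ℤ) : M :=
  ∑ x : ZMod Q, ∑ y : ZMod Q, F (ev P R S x y) * ((W c x y : ℤ) : M)

/-- unsmoothed sums -/
def XA (f : ZMod Q → ℤ) (P R S : ZMod Q) : ℤ :=
  ∑ x : ZMod Q, ∑ y : ZMod Q, f (ev P R S x y) * (RDF.β x * RDF.β y)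

/-- unsmoothed sums -/
def YA (f : ZMod Q → ℤ) (P R S : ZMod Q) : ℤ :=
  ∑ x : ZMod Q, ∑ y : ZMod Q, f (ev P R S x y) * RDF.γ x

/-- smoothing by the inert prime two -/
def sm (f : ZMod Q → ℤ) (z : ZMod Q) : ℤ := 4 * f (4 * z) - f z

/-- the boundary sum -/
def Z0 {M : Type*} [CommRing M] (f : ZMod Q → M) (S : ZMod Q) : M := ∑ y : ZMod Q, f (-(S * y ^ 2))

/-- the cone sum of the cycle `(B; a, b, c, b, a)` of a function on residues -/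
def L6 (f : ZMod Q → ℤ) (a b c B m r p : ℤ) : ℤ :=
  (3 * XA f m B 1 - B * YA f m B 1)
  + (3 * XA f 1 B m - a * YA f 1 B m)
  + (3 * XA f m ((2 * a * m - B : ℤ) : ZMod Q) r - b * YA f m ((2 * a * m - B : ℤ) : ZMod Q) r)
  + (3 * XA f r ((c * p : ℤ) : ZMod Q) p - c * YA f r ((c * p : ℤ) : ZMod Q) p)
  + (3 * XA f p ((c * p : ℤ) : ZMod Q) r - b * YA f p ((c * p : ℤ) : ZMod Q) r)
  + (3 * XA f r ((2 * a * m - B : ℤ) : ZMod Q) m - a * YA f r ((2 * a * m - B : ℤ) : ZMod Q) m)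

/-- the six term sum of a closed word -/
def R6 {M : Type*} [CommRing M] (F : ZMod Q → M) (a b c B m r p : ℤ) : M :=
  Es F m B 1 B + Es F 1 B m a + Es F m ((2 * a * m - B : ℤ) : ZMod Q) r b
    + Es F r ((c * p : ℤ) : ZMod Q) p c + Es F p ((c * p : ℤ) : ZMod Q) r b
    + Es F r ((2 * a * m - B : ℤ) : ZMod Q) m a

/-- the edge sum of a function of two integers -/
def EZ {M : Type*} [CommRing M] (Q : ℕ) [NeZero Q] (H : ℤ → ℤ → M) (c : ℤ) : M :=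
  ∑ x : ZMod Q, ∑ y : ZMod Q, H (x.val : ℤ) (y.val : ℤ) * ((W c x y : ℤ) : M)

/-- first half of the cycle near the ghost `c = 1` -/
def A3 {M : Type*} [CommRing M] (F : ZMod Q → M) (τ γ μ : ℤ) : M :=
  Es F μ ((-1 + γ : ℤ) : ZMod Q) 1 (-1 + γ)
  + Es F 1 ((-1 + γ : ℤ) : ZMod Q) μ (1 + τ)
  + Es F μ ((2 * μ + 1 - γ + 2 * μ * τ : ℤ) : ZMod Q) ((-μ + γ - (1 + 2 * μ) * τ : ℤ) : ZMod Q) (-1 + τ)

/-- second half of the cycle near the ghost `c = 1` -/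
def B3 {M : Type*} [CommRing M] (F : ZMod Q → M) (τ γ μ : ℤ) : M :=
  Es F ((-μ + γ - (1 + 2 * μ) * τ : ℤ) : ZMod Q) ((-1 - γ + 2 * τ : ℤ) : ZMod Q)
      ((-1 + 2 * τ : ℤ) : ZMod Q) (1 + γ)
  + Es F ((-1 + 2 * τ : ℤ) : ZMod Q) ((-1 - γ + 2 * τ : ℤ) : ZMod Q)
      ((-μ + γ - (1 + 2 * μ) * τ : ℤ) : ZMod Q) (-1 + τ)
  + Es F ((-μ + γ - (1 + 2 * μ) * τ : ℤ) : ZMod Q) ((2 * μ + 1 - γ + 2 * μ * τ : ℤ) : ZMod Q)
      μ (1 + τ)

end weights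

/-- the cone sum of the cycle `(B; a, b, c, b, a)` of a function of integers -/
def LLz6 (Q : ℕ) (g : ℤ → ℤ) (a b c B m r p : ℤ) : ℤ :=
  (3 * XZ Q g m B 1 - B * YX Q g m B 1)
  + (3 * XZ Q g 1 B m - a * YX Q g 1 B m)
  + (3 * XZ Q g m (2 * a * m - B) r - b * YX Q g m (2 * a * m - B) r)
  + (3 * XZ Q g r (c * p) p - c * YX Q g r (c * p) p)
  + (3 * XZ Q g p (c * p) r - b * YX Q g p (c * p) r)
  + (3 * XZ Q g r (2 * a * m - B) m - a * YX Q g r (2 * a * m - B) m)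

/-- the closing equations of the cycle `(B; a, b, c, b, a)` -/
structure Cl (a b c B m r p : ℤ) : Prop where
  e1 : r = 1 + B * a - m * a ^ 2
  e2 : p = m + (2 * a * m - B) * b - r * b ^ 2
  e3 : c * p = 2 * b * r - 2 * a * m + B

/-- a family with `ψ 1 = 1` and the reduced exponent `e0` -/
structure Fm (l q0 n e e0 : ℕ) (ψ : ℤ → ℤ) : Prop where
  fam : Fam l q0 n e ψ
  one : ψ 1 = 1
  red : e % (l - 1) = e0
  two : 2 ≤ e0
  nd : ¬ (l - 1) ∣ 2 * e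

/-- the derivative of `FN` -/
def F1 (l n e : ℕ) (ψ : ℤ → ℤ) (u : ℤ) : ZMod (l ^ (n + 1)) :=
  (e : ZMod (l ^ (n + 1))) * ((ψ u : ZMod (l ^ (n + 1))) * (u : ZMod (l ^ (n + 1))) ^ (e - 1))

/-- the functions `j ↦ ψ(A(j)) B(j)` with integral polynomials `A`, `B` -/
def Pol (l n : ℕ) (ψ : ℤ → ℤ) (G : ℤ → ZMod (l ^ (n + 1))) : Prop :=
  ∃ A B : Polynomial ℤ, ∀ j : ℤ, G j =
    ((ψ (A.eval j) : ℤ) : ZMod (l ^ (n + 1))) * ((B.eval j : ℤ) : ZMod (l ^ (n + 1)))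

/-- the value of an integral form as an integer -/
def evZ (P R S x y : ℤ) : ℤ := P * x ^ 2 + R * x * y - S * y ^ 2

/-- the alternating weighted sum over the residues (as integers) -/
def SX {M : Type*} [CommRing M] (Q : ℕ) (h : ℤ → M) : M :=
  ∑ x ∈ range Q, (((-1) ^ x * (x : ℤ) : ℤ) : M) * h (x : ℤ)

/-- the trapezoidal block sum of length `N` of a letter change -/
def TT (l n e : ℕ) (ψ : ℤ → ℤ) (N : ℕ) (P R S c : ℤ) (x : ℤ) : ZMod (l ^ (n + 1)) :=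
  2 * ∑ j ∈ range N, FN l n e ψ (evZ P R S x (c * x + j))
    + (N : ZMod (l ^ (n + 1))) * (F1 l n e ψ (evZ P R S x (c * x))
      * ((R * x - 2 * S * (c * x) : ℤ) : ZMod (l ^ (n + 1))))

/-- the full sum over a period of `FN` along a form -/
def I0 (l q0 n e : ℕ) (ψ : ℤ → ℤ) (P R S x : ℤ) : ZMod (l ^ (n + 1)) :=
  ∑ j ∈ range (QN l q0 n), FN l n e ψ (evZ P R S x j)

/-- the full sum over a period of the derivative in the direction `(P', R', S')` -/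
def I1 (l q0 n e : ℕ) (ψ : ℤ → ℤ) (P R S P' R' S' x : ℤ) : ZMod (l ^ (n + 1)) :=
  ∑ j ∈ range (QN l q0 n), F1 l n e ψ (evZ P R S x j) * ((evZ P' R' S' x j : ℤ) : ZMod (l ^ (n + 1)))

/-- the edge sum of the derivative in the direction `(P', R', S')` -/
def ED (l q0 n e : ℕ) (ψ : ℤ → ℤ) [NeZero (QN l q0 n)] (P R S P' R' S' c : ℤ) : ZMod (l ^ (n + 1)) :=
  EZ (QN l q0 n) (fun x y => F1 l n e ψ (evZ P R S x y)
    * ((evZ P' R' S' x y : ℤ) : ZMod (l ^ (n + 1)))) c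

/-- value modulo thirteen -/
def fb (e : ℕ) (ψ : ℤ → ℤ) (u : ℤ) : ZMod 13 := ((ψ u * u ^ e : ℤ) : ZMod 13)

/-- nonresidue modulo `3, 5, 7, 13` -/
structure Nr (D : ℤ) : Prop where
  h3 : (D : ZMod 3) = -1
  h5 : (D : ZMod 5) ^ 2 = -1
  h7 : (D : ZMod 7) ^ 3 = -1
  h13 : (D : ZMod 13) ^ 6 = -1

/-- the relations of a cycle for all families of conductor dividing `105 * 13^k` -/
def Rel (a b c B m r p : ℤ) : Prop :=
  ∀ (q0 n e e0 : ℕ) (ψ : ℤ → ℤ) [NeZero (QN 13 q0 n)], q0 ∣ 105 → Fm 13 q0 n e e0 ψ →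
    R6 (FZ 13 q0 n e ψ) a b c B m r p = 0

/-- a family at all levels: reduced exponent `e0`, exponent `k` modulo `13`, values `χ` -/
def FamOK (q0 e0 k : ℕ) (χ : ℤ → ZMod 13) : Prop :=
  ∀ n : ℕ, ∃ (e : ℕ) (ψ : ℤ → ℤ), Fm 13 q0 n e e0 ψ ∧ (1 ≤ n → e % 13 = k) ∧
    (∀ u, fb e ψ u = χ u) ∧ ∀ D, Nr D → ¬ (13 : ℤ) ∣ CR 13 q0 e ψ D

/-- values of the quadratic character modulo three -/
def v3 (x : ZMod 3) : ZMod 13 := (![0, 1, -1] : Fin 3 → ZMod 13) x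
/-- values of a character of order four modulo five -/
def v5 (x : ZMod 5) : ZMod 13 := (![0, 1, 8, 5, 12] : Fin 5 → ZMod 13) x
/-- values of a character of order six modulo seven -/
def v7 (x : ZMod 7) : ZMod 13 := (![0, 1, 3, 4, 9, 10, 12] : Fin 7 → ZMod 13) x

/-- family `F0`, conductor `15` -/
def χ0 (u : ℤ) : ZMod 13 := v3 u * v5 u ^ 3 * (u : ZMod 13) ^ 11
/-- family `F3`, conductor `35` -/
def χ3 (u : ℤ) : ZMod 13 := v5 u ^ 2 * v7 u ^ 5 * (u : ZMod 13) ^ 8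
/-- family `F4`, conductor `105` -/
def χ4 (u : ℤ) : ZMod 13 := v3 u * v5 u ^ 2 * v7 u * (u : ZMod 13) ^ 11
/-- family `F5`, conductor `105` -/
def χ5 (u : ℤ) : ZMod 13 := v3 u * v5 u ^ 3 * v7 u ^ 2 * (u : ZMod 13) ^ 9
/-- family `F6`, conductor `105` -/
def χ6 (u : ℤ) : ZMod 13 := v3 u * v5 u * v7 u ^ 4 * (u : ZMod 13) ^ 11

/-- first order expression of a family -/
def FO (χ : ℤ → ZMod 13) (c m α β : ℤ) : ZMod 13 :=
  χ m * χ (c - 1 - m) * ((((c - 2) ^ 2 + 2 * m) * α - ((c - 2) ^ 2 + 2 * m + 2 * (c - 1)) * β : ℤ) : ZMod 13)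
    + 2 * (α : ZMod 13) * χ (c - 1 - m) + 2 * (β : ZMod 13) * χ m

/-- second order expression of a family -/
def SO (e0 k : ℕ) (χ : ℤ → ZMod 13) (m δ C A : ℤ) : ZMod 13 :=
  (e0 : ZMod 13) * m * ((1 + 2 * (m : ZMod 13)) * χ m + 2) * δ
    + (-2 * (e0 : ZMod 13) * m * χ m - 2 * (k : ZMod 13) * (e0 + 1) * ((m : ZMod 13) * χ m + 1)) * C
    + (-2 * (m : ZMod 13) ^ 2 * e0 * χ m + 2 * (k : ZMod 13) * (e0 + 1) * (1 + 2 * m)) * A

end Pool.Agent.PSX
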