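import Pool.Agent.PSX.StG

/-!
# Period six, the ghost line: the letter change times a power of the prime
-/

set_option autoImplicit false

namespace Pool.Agent.PSX

open Finset (range)
open Pool.Agent.P4G (Fam QN FN FZ CC CR)
open Pool.Agent.RDF (sum_range_zmod)

/-- a sum over several periods -/
lemma lcm_per {M : Type*} [CommRing M] (P K : ℕ) (f : ℕ → M) (hf : ∀ i, f (i + P) = f i) :
    ∑ i ∈ range (P * K), f i = (K : M) * ∑ i ∈ range P, f i := by
  have h1 : ∀ t i, f (P * t + i) = f i := by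
    intro t i
    induction t with
    | zero => simp
    | succ t ih =>
      rw [← ih, ← hf (P * t + i)]
      congr 1
      ring
  rw [P4G.sum_blocks, Finset.mul_sum]
  apply Finset.sum_congr rfl
  intro i _
  simp only [h1]
  rw [Finset.sum_const, Finset.card_range, nsmul_eq_mul]

/-- the alternating sum over residues -/
lemma lcm_SX {M : Type*} [CommRing M] (Q : ℕ) [NeZero Q] (h : ℤ → M) :
    ∑ x : ZMod Q, ((sg x : ℤ) : M) * ((x.val : ℤ) : M) * h (x.val : ℤ) = SX Q h := by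
  unfold SX
  rw [← sum_range_zmod (fun x : ZMod Q => ((sg x : ℤ) : M) * ((x.val : ℤ) : M) * h (x.val : ℤ))]
  apply Finset.sum_congr rfl
  intro r hr
  have hv : ((r : ZMod Q)).val = r := ZMod.val_cast_of_lt (Finset.mem_range.1 hr)
  simp only [hv]
  rw [Int.cast_mul]
  by_cases h0 : (r : ZMod Q) = 0
  · have : r = 0 := by
      rw [← hv, h0]
      exact ZMod.val_zero
    subst this
    simp
  · have e : sg (r : ZMod Q) = (-1) ^ r := by
      unfold sg
      rw [if_neg h0, hv]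
    rw [e]

/-- the case of a natural number -/
lemma lcm_nat (hLCH : Stmt_LCH) (hPPO : Stmt_PPO) (hBLK : Stmt_BLK) (l q0 n e : ℕ) (ψ : ℤ → ℤ)
    [NeZero (QN l q0 n)] (h : Fam l q0 n e ψ) (i s : ℕ) (hs : 1 ≤ s) (hn : i + s = n + 1)
    (H : ℤ → ℤ → ZMod (l ^ (n + 1))) (hH : ∀ x, Pol l n ψ (H x)) (c : ℤ) (t0 : ℕ) :
    ((q0 * l ^ i : ℕ) : ZMod (l ^ (n + 1))) * EZ (QN l q0 n) H (c + (q0 * l ^ s : ℕ) * (t0 : ℤ))
      = ((q0 * l ^ i : ℕ) : ZMod (l ^ (n + 1))) * EZ (QN l q0 n) H c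
        + 2 * (q0 : ZMod (l ^ (n + 1))) * ((t0 : ℤ) : ZMod (l ^ (n + 1)))
          * SX (QN l q0 n) (fun x => ∑ j ∈ range (QN l q0 n), H x j) := by
  have hzero : ((l : ZMod (l ^ (n + 1))) ^ (n + 1)) = 0 := by
    have := ZMod.natCast_self (l ^ (n + 1))
    push_cast at this
    exact this
  have hpow : (l : ZMod (l ^ (n + 1))) ^ i * (l : ZMod (l ^ (n + 1))) ^ s = 0 := by
    rw [← pow_add, hn, hzero]
  rw [← sub_eq_iff_eq_add', ← lcm_SX, Finset.mul_sum]
  unfold EZ
  rw [← mul_sub, ← Finset.sum_sub_distrib, Finset.mul_sum]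
  apply Finset.sum_congr rfl
  intro x _
  rw [← Finset.sum_sub_distrib]
  have e1 : ∀ y : ZMod (QN l q0 n), H (x.val : ℤ) (y.val : ℤ)
        * ((W (c + (q0 * l ^ s : ℕ) * (t0 : ℤ)) x y : ℤ) : ZMod (l ^ (n + 1)))
      - H (x.val : ℤ) (y.val : ℤ) * ((W c x y : ℤ) : ZMod (l ^ (n + 1)))
      = H (x.val : ℤ) (y.val : ℤ)
        * ((W (c + ((q0 * l ^ s * t0 : ℕ) : ℤ)) x y - W c x y : ℤ) : ZMod (l ^ (n + 1))) := by
    intro y
    rw [Int.cast_sub]
    have : (c + (q0 * l ^ s : ℕ) * (t0 : ℤ)) = c + ((q0 * l ^ s * t0 : ℕ) : ℤ) := by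
      push_cast; ring
    rw [this]
    ring
  rw [Finset.sum_congr rfl (fun y _ => e1 y)]
  obtain ⟨b1, b2, b3⟩ := hBLK l q0 n e ψ h (H (x.val : ℤ)) (hH _)
  rw [hLCH (QN l q0 n) h.Qodd (ZMod (l ^ (n + 1))) (H (x.val : ℤ)) b3 c (q0 * l ^ s * t0) x]
  set G := H (x.val : ℤ) with hG
  set u : ℤ := c * x.val with hu
  set N : ZMod (l ^ (n + 1)) := ((q0 * l ^ i : ℕ) : ZMod (l ^ (n + 1))) with hN
  -- periodicity
  have hper : ∀ j w : ℤ, N * G (j + (q0 * l ^ s : ℕ) * w) = N * G j := by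
    intro j w
    obtain ⟨t, ht⟩ := (hPPO l q0 n e ψ h).2.2.1 G s (hH _) j w
    rw [ht, hN]
    push_cast
    linear_combination (q0 : ZMod (l ^ (n + 1))) * t * hpow
  have hNt : N * ((q0 * l ^ s * t0 : ℕ) : ℤ) = (0 : ZMod (l ^ (n + 1))) := by
    rw [hN]
    push_cast
    linear_combination (q0 : ZMod (l ^ (n + 1))) * q0 * t0 * hpow
  have hsum : N * ∑ i' ∈ range (q0 * l ^ s * t0 * x.val), (G (u + i') + G (u + i' + 1))
      = (t0 : ZMod (l ^ (n + 1))) * (x.val : ZMod (l ^ (n + 1)))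
        * (2 * (q0 : ZMod (l ^ (n + 1))) * ∑ j ∈ range (QN l q0 n), G (j : ℤ)) := by
    rw [Finset.mul_sum, mul_assoc (q0 * l ^ s) t0 x.val,
      lcm_per (q0 * l ^ s) (t0 * x.val) (fun i' => N * (G (u + i') + G (u + i' + 1))) (by
        intro i'
        have a1 := hper (u + i') 1
        have a2 := hper (u + i' + 1) 1
        rw [mul_add, mul_add, ← a1, ← a2]
        congr 3
        · push_cast; ring
        · push_cast; ring)]
    have e2 : ∑ i' ∈ range (q0 * l ^ s), N * (G (u + i') + G (u + i' + 1))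
        = 2 * (N * ∑ i' ∈ range (q0 * l ^ s), G (u + i')) := by
      have e3 : ∑ i' ∈ range (q0 * l ^ s), G (u + i' + 1)
          = ∑ i' ∈ range (q0 * l ^ s), G (u + i') + (G (u + (q0 * l ^ s : ℕ)) - G u) := by
        have := Finset.sum_range_succ (fun i' : ℕ => G (u + i')) (q0 * l ^ s)
        have h2 := Finset.sum_range_succ' (fun i' : ℕ => G (u + i')) (q0 * l ^ s)
        rw [this] at h2
        simp only [Nat.cast_add, Nat.cast_one, Nat.cast_zero, add_zero] at h2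
        have e4 : ∑ i' ∈ range (q0 * l ^ s), G (u + i' + 1)
            = ∑ i' ∈ range (q0 * l ^ s), G (u + ((i' : ℤ) + 1)) := by
          apply Finset.sum_congr rfl
          intro i' _
          congr 1
          ring
        rw [e4]
        linear_combination -h2
      have a1 := hper u 1
      rw [mul_one] at a1
      rw [← Finset.mul_sum, Finset.sum_add_distrib, e3]
      linear_combination a1
    rw [e2]
    have e5 : N * ∑ i' ∈ range (q0 * l ^ s), G (u + i')
        = (q0 : ZMod (l ^ (n + 1))) * ∑ j ∈ range (QN l q0 n), G (j : ℤ) := by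
      have := b1 s u hs (by omega)
      have hi : n + 1 - s = i := by omega
      rw [hi] at this
      rw [← this, hN]
      push_cast
      ring
    rw [e5]
    push_cast
    ring
  rw [mul_left_comm, mul_add, hsum]
  have e6 : N * (-((( (q0 * l ^ s * t0 : ℕ)) : ℤ) : ZMod (l ^ (n + 1)))
      * ∑ j ∈ range (QN l q0 n), G (j : ℤ)) = 0 := by
    rw [← mul_assoc, mul_neg, hNt]
    ring
  rw [e6]
  push_cast
  ring

theorem t_LCM (hLCH : Stmt_LCH) (hPPO : Stmt_PPO) (hBLK : Stmt_BLK) : Stmt_LCM := by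
  intro l q0 n e ψ _ h i s hs hn H hH c t0
  rcases Int.eq_nat_or_neg t0 with ⟨t, rfl | rfl⟩
  · exact lcm_nat hLCH hPPO hBLK l q0 n e ψ h i s hs hn H hH c t
  · have := lcm_nat hLCH hPPO hBLK l q0 n e ψ h i s hs hn H hH (c + (q0 * l ^ s : ℕ) * (-(t : ℤ))) t
    have e1 : (c + (q0 * l ^ s : ℕ) * (-(t : ℤ))) + (q0 * l ^ s : ℕ) * (t : ℤ) = c := by ring
    rw [e1] at this
    rw [this]
    push_cast
    ring

end Pool.Agent.PSX
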