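import Pool.Agent.PSX.StG

/-!
# Period six, module LFA: the `τ`-part of a half
-/

set_option autoImplicit false

namespace Pool.Agent.PSX

open Finset (range)
open Pool.Agent.P4G (Fam QN FN FZ CC CR)

theorem t_LFA (hLCN : Stmt_LCN) (hPHI : Stmt_PHI) : Stmt_LFA := by
  intro l q0 n e e0 ψ _ hF i h1 h2 h3 τ0 γ μ
  have h := hF.fam
  have k2 := hLCN l q0 n e e0 ψ hF i h1 h2 h3 1 (-1 + γ) μ 1 τ0
  have k3 := hLCN l q0 n e e0 ψ hF i h1 h2 h3 μ (2 * μ + 1 - γ + 2 * μ * ((q0 * l ^ i : ℕ) * τ0))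
    (-μ + γ - (1 + 2 * μ) * ((q0 * l ^ i : ℕ) * τ0)) (-1) τ0
  have k4 := hPHI l q0 n e ψ h i h3 μ (2 * μ + 1 - γ) (-μ + γ) 0 (2 * μ * τ0)
    (-((1 + 2 * μ) * τ0)) (-1)
  have e1 : (μ + ((q0 * l ^ i : ℕ) : ℤ) * 0 : ℤ) = μ := by ring
  have e2 : (2 * μ + 1 - γ + ((q0 * l ^ i : ℕ) : ℤ) * (2 * μ * τ0) : ℤ)
      = 2 * μ + 1 - γ + 2 * μ * (((q0 * l ^ i : ℕ) : ℤ) * τ0) := by ring
  have e3 : (-μ + γ + ((q0 * l ^ i : ℕ) : ℤ) * (-((1 + 2 * μ) * τ0)) : ℤ)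
      = -μ + γ - (1 + 2 * μ) * (((q0 * l ^ i : ℕ) : ℤ) * τ0) := by ring
  rw [e1, e2, e3] at k4
  have e4 : (2 * μ + 1 - γ + 2 * μ * 0 : ℤ) = 2 * μ + 1 - γ := by ring
  have e5 : (-μ + γ - (1 + 2 * μ) * 0 : ℤ) = -μ + γ := by ring
  have e6 : (1 + 0 : ℤ) = 1 := by ring
  have e7 : (-1 + 0 : ℤ) = -1 := by ring
  have e8 : ((1 : ℤ) : ZMod (QN l q0 n)) = 1 := by push_cast; rfl
  rw [e8] at k2
  unfold A3
  rw [e4, e5, e6, e7, k2, k3, k4]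
  ring

end Pool.Agent.PSX
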