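import Pool.Agent.PSX.StG

/-!
# Period six, module MEA: the mean formula
-/

set_option autoImplicit false

namespace Pool.Agent.PSX

namespace MEAaux

open Finset (range)
open Polynomial
open Pool.Agent.P4G (Fam QN FN FZ CC CR)

variable {l : ℕ} [Fact l.Prime]

theorem natDegree_phi (a b c : ZMod l) : (C a + C b * X - C c * X ^ 2 : (ZMod l)[X]).natDegree ≤ 2 := by
  compute_degree

theorem natDegree_w (a b : ZMod l) : (C a * X - C b : (ZMod l)[X]).natDegree ≤ 1 := by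
  compute_degree

/-- the identity over the prime field -/
theorem key (hDER : Stmt_DER) (k : ℕ) (h3 : k + 1 < l - 1) (P R S P' R' S' x : ZMod l) (hS : S ≠ 0) :
    2 * ((k + 1 : ℕ) : ZMod l) * S * (R ^ 2 + 4 * P * S) *
        ∑ j : ZMod l, (P * x ^ 2 + R * x * j - S * j ^ 2) ^ k * (P' * x ^ 2 + R' * x * j - S' * j ^ 2)
      = (-2 * (((k + 1 : ℕ) : ZMod l) + 1) * S' * (R ^ 2 + 4 * P * S)
          + (2 * ((k + 1 : ℕ) : ZMod l) + 1) * (2 * R * R' + 4 * (P' * S + P * S')) * S)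
        * ∑ j : ZMod l, (P * x ^ 2 + R * x * j - S * j ^ 2) ^ (k + 1) := by
  have hlp : l.Prime := Fact.out
  set E : ZMod l := ((k + 1 : ℕ) : ZMod l) with hE
  have hE0 : E ≠ 0 := by
    intro h0
    rw [hE, ZMod.natCast_eq_zero_iff] at h0
    have := Nat.le_of_dvd (by omega) h0
    omega
  have h20 : (2 : ZMod l) ≠ 0 := by
    intro h0
    have h1 : ((2 : ℕ) : ZMod l) = 0 := by exact_mod_cast h0
    rw [ZMod.natCast_eq_zero_iff] at h1
    have := Nat.le_of_dvd (by omega) h1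
    omega
  set φ : (ZMod l)[X] := C (P * x ^ 2) + C (R * x) * X - C S * X ^ 2 with hφ
  set w : (ZMod l)[X] := C (2 * S) * X - C (R * x) with hw
  have dφ : derivative φ = C (R * x) - C (2 * S) * X := by
    rw [hφ]
    simp only [derivative_sub, derivative_add, derivative_mul, derivative_C, derivative_X,
      derivative_X_pow, map_mul]
    simp
    ring
  have dw : derivative w = C (2 * S) := by
    rw [hw]
    simp
  have eφ : ∀ j, φ.eval j = P * x ^ 2 + R * x * j - S * j ^ 2 := by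
    intro j
    rw [hφ]
    simp
  have ew : ∀ j, w.eval j = 2 * S * j - R * x := by
    intro j
    rw [hw]
    simp
  have hd1 : (φ ^ (k + 1)).natDegree < 2 * l - 1 := by
    have := natDegree_pow_le_of_le (k + 1) (natDegree_phi (P * x ^ 2) (R * x) S)
    rw [← hφ] at this
    omega
  have hd2 : (w * φ ^ (k + 1)).natDegree < 2 * l - 1 := by
    have h1 := natDegree_pow_le_of_le (k + 1) (natDegree_phi (P * x ^ 2) (R * x) S)
    have h2 := natDegree_w (2 * S) (R * x)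
    rw [← hφ] at h1
    rw [← hw] at h2
    have := natDegree_mul_le_of_le h2 h1
    omega
  have h1 := hDER l (φ ^ (k + 1)) hd1
  have h2 := hDER l (w * φ ^ (k + 1)) hd2
  have h1' : ∑ j : ZMod l, (P * x ^ 2 + R * x * j - S * j ^ 2) ^ k * (2 * S * j - R * x) = 0 := by
    have h3 : -E * ∑ j : ZMod l, (P * x ^ 2 + R * x * j - S * j ^ 2) ^ k * (2 * S * j - R * x) = 0 := by
      rw [Finset.mul_sum, ← h1]
      refine Finset.sum_congr rfl fun j _ => ?_
      rw [derivative_pow, dφ]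
      simp only [eval_mul, eval_pow, eval_C, eval_sub, eval_X, Nat.add_sub_cancel, eφ]
      rw [hE]
      ring
    rcases mul_eq_zero.1 h3 with h4 | h4
    · exact absurd (neg_eq_zero.1 h4) hE0
    · exact h4
  have h2' : (2 * S + 4 * S * E) * ∑ j : ZMod l, (P * x ^ 2 + R * x * j - S * j ^ 2) ^ (k + 1)
      - E * (R ^ 2 + 4 * P * S) * x ^ 2 * ∑ j : ZMod l, (P * x ^ 2 + R * x * j - S * j ^ 2) ^ k = 0 := by
    rw [Finset.mul_sum, Finset.mul_sum, ← Finset.sum_sub_distrib, ← h2]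
    refine Finset.sum_congr rfl fun j _ => ?_
    rw [derivative_mul, derivative_pow, dφ, dw]
    simp only [eval_mul, eval_pow, eval_C, eval_sub, eval_X, eval_add, Nat.add_sub_cancel, eφ, ew]
    rw [← hE]
    ring
  have h3' : 4 * S ^ 2 * ∑ j : ZMod l, (P * x ^ 2 + R * x * j - S * j ^ 2) ^ k *
        (P' * x ^ 2 + R' * x * j - S' * j ^ 2)
      = (S * (2 * R * R' + 4 * (P' * S + P * S')) - 2 * S' * (R ^ 2 + 4 * P * S)) * x ^ 2 *
          ∑ j : ZMod l, (P * x ^ 2 + R * x * j - S * j ^ 2) ^ k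
        + 4 * S * S' * ∑ j : ZMod l, (P * x ^ 2 + R * x * j - S * j ^ 2) ^ (k + 1)
        + 2 * (S * R' - S' * R) * x *
          ∑ j : ZMod l, (P * x ^ 2 + R * x * j - S * j ^ 2) ^ k * (2 * S * j - R * x) := by
    rw [Finset.mul_sum, Finset.mul_sum, Finset.mul_sum, Finset.mul_sum, ← Finset.sum_add_distrib,
      ← Finset.sum_add_distrib]
    refine Finset.sum_congr rfl fun j _ => ?_
    rw [pow_succ]
    ring
  rw [h1', mul_zero, add_zero] at h3'
  have h4 : (4 * S ^ 2 : ZMod l) ≠ 0 := by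
    have : (4 : ZMod l) = 2 * 2 := by norm_num
    rw [this]
    exact mul_ne_zero (mul_ne_zero h20 h20) (pow_ne_zero 2 hS)
  apply mul_left_cancel₀ h4
  linear_combination (2 * E * S * (R ^ 2 + 4 * P * S)) * h3' -
    (2 * S * (S * (2 * R * R' + 4 * (P' * S + P * S')) - 2 * S' * (R ^ 2 + 4 * P * S))) * h2'

theorem pow_red {e k : ℕ} (he : e % (l - 1) = k + 1) (a : ZMod l) : a ^ e = a ^ (k + 1) := by
  have h1 := Nat.div_add_mod e (l - 1)
  rw [he] at h1
  by_cases ha : a = 0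
  · rw [ha, zero_pow (by omega), zero_pow (by omega)]
  · rw [← h1, pow_add, pow_mul, ZMod.pow_card_sub_one_eq_one ha, one_pow, one_mul]

theorem pow_red' {e k : ℕ} (hk : 1 ≤ k) (he : e % (l - 1) = k + 1) (a : ZMod l) :
    a ^ (e - 1) = a ^ k := by
  have h1 := Nat.div_add_mod e (l - 1)
  rw [he] at h1
  by_cases ha : a = 0
  · rw [ha, zero_pow (by omega), zero_pow (by omega)]
  · have h2 : e - 1 = (l - 1) * (e / (l - 1)) + k := by omega
    rw [h2, pow_add, pow_mul, ZMod.pow_card_sub_one_eq_one ha, one_pow, one_mul]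

end MEAaux

open MEAaux Polynomial in
open Pool.Agent.P4G (QN FN) in
theorem t_MEA (hRSM : Stmt_RSM) (hDER : Stmt_DER) : Stmt_MEA := by
  intro l q0 n e e0 ψ hF P R S P' R' S' x hS
  have hlp : l.Prime := hF.fam.hl
  have : Fact l.Prime := ⟨hlp⟩
  have : NeZero l := ⟨hlp.ne_zero⟩
  have hl2 : l ≠ 2 := hF.fam.l2
  have hl3 : 3 ≤ l := by
    have := hlp.two_le
    omega
  have hlt : e0 < l - 1 := by
    rw [← hF.red]
    exact Nat.mod_lt _ (by omega)
  have h2 := hF.two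
  have hred := hF.red
  obtain ⟨k, rfl⟩ : ∃ k, e0 = k + 1 := ⟨e0 - 1, by omega⟩
  let A : ℤ[X] := C (P * x ^ 2) + C (R * x) * X - C S * X ^ 2
  let A' : ℤ[X] := C (P' * x ^ 2) + C (R' * x) * X - C S' * X ^ 2
  have eA : ∀ j : ℤ, A.eval j = evZ P R S x j := by
    intro j
    simp [A, evZ]
  have eA' : ∀ j : ℤ, A'.eval j = evZ P' R' S' x j := by
    intro j
    simp [A', evZ]
  have r0 := hRSM l q0 n e ψ hF.fam A (A ^ e)
  have r1 := hRSM l q0 n e ψ hF.fam A (C (e : ℤ) * A ^ (e - 1) * A')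
  have i0 : I0 l q0 n e ψ P R S x = (((l : ℤ) ^ n * ((∑ i ∈ Finset.range q0, ψ (A.eval (i : ℤ))) *
      ∑ j ∈ Finset.range l, (A ^ e).eval (j : ℤ)) : ℤ) : ZMod (l ^ (n + 1))) := by
    rw [← r0]
    unfold I0
    refine Finset.sum_congr rfl fun j _ => ?_
    unfold FN
    rw [eval_pow, eA]
    push_cast
    rfl
  have i1 : I1 l q0 n e ψ P R S P' R' S' x = (((l : ℤ) ^ n *
      ((∑ i ∈ Finset.range q0, ψ (A.eval (i : ℤ))) *
      ∑ j ∈ Finset.range l, (C (e : ℤ) * A ^ (e - 1) * A').eval (j : ℤ)) : ℤ) : ZMod (l ^ (n + 1))) := by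
    rw [← r1]
    unfold I1
    refine Finset.sum_congr rfl fun j _ => ?_
    unfold F1
    rw [eval_mul, eval_mul, eval_pow, eval_C, eA, eA']
    push_cast
    ring
  rw [i0, i1, ← Int.cast_mul, ← Int.cast_mul]
  have hpos : NeZero (l ^ (n + 1)) := ⟨pow_ne_zero _ hlp.ne_zero⟩
  rw [← sub_eq_zero, ← Int.cast_sub, ZMod.intCast_zmod_eq_zero_iff_dvd]
  set sg0 : ℤ := ∑ j ∈ Finset.range l, (A ^ e).eval (j : ℤ) with hsg0
  set sg1 : ℤ := ∑ j ∈ Finset.range l, (C (e : ℤ) * A ^ (e - 1) * A').eval (j : ℤ) with hsg1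
  set Ψ : ℤ := ∑ i ∈ Finset.range q0, ψ (A.eval (i : ℤ)) with hΨ
  have main : (l : ℤ) ∣ (2 * ((k + 1 : ℕ) : ℤ) * S * (R ^ 2 + 4 * P * S)) * sg1 -
      (-2 * e * (((k + 1 : ℕ) : ℤ) + 1) * S' * (R ^ 2 + 4 * P * S)
          + (2 * ((k + 1 : ℕ) : ℤ) + 1) * e * (2 * R * R' + 4 * (P' * S + P * S')) * S) * sg0 := by
    rw [← ZMod.intCast_zmod_eq_zero_iff_dvd, Int.cast_sub, sub_eq_zero]
    have s0 : ((sg0 : ℤ) : ZMod l) = ∑ j : ZMod l,
        ((P : ZMod l) * (x : ZMod l) ^ 2 + (R : ZMod l) * (x : ZMod l) * j - (S : ZMod l) * j ^ 2) ^ (k + 1) := by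
      rw [← RDF.sum_range_zmod, hsg0, Int.cast_sum]
      refine Finset.sum_congr rfl fun j _ => ?_
      rw [eval_pow, eA, ← pow_red hred]
      unfold evZ
      push_cast
      ring
    have s1 : ((sg1 : ℤ) : ZMod l) = (e : ZMod l) * ∑ j : ZMod l,
        ((P : ZMod l) * (x : ZMod l) ^ 2 + (R : ZMod l) * (x : ZMod l) * j - (S : ZMod l) * j ^ 2) ^ k
        * ((P' : ZMod l) * (x : ZMod l) ^ 2 + (R' : ZMod l) * (x : ZMod l) * j - (S' : ZMod l) * j ^ 2) := by
      rw [← RDF.sum_range_zmod, hsg1, Int.cast_sum, Finset.mul_sum]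
      refine Finset.sum_congr rfl fun j _ => ?_
      rw [eval_mul, eval_mul, eval_pow, eval_C, eA, eA', ← pow_red' (by omega) hred]
      unfold evZ
      push_cast
      ring
    have hS' : (S : ZMod l) ≠ 0 := by
      rw [Ne, ZMod.intCast_zmod_eq_zero_iff_dvd]
      exact hS
    have hk := key hDER k hlt (P : ZMod l) (R : ZMod l) (S : ZMod l) (P' : ZMod l) (R' : ZMod l)
      (S' : ZMod l) (x : ZMod l) hS'
    push_cast at hk ⊢
    rw [s0, s1]
    linear_combination (e : ZMod l) * hk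
  obtain ⟨t, ht⟩ := main
  refine ⟨Ψ * t, ?_⟩
  push_cast at ht ⊢
  linear_combination ((l : ℤ) ^ n * Ψ) * ht

end Pool.Agent.PSX
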