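import Pool.Agent.PSX.StG

/-!
# Period six, ghost line: module AFC, the derivative of the half sum in `μ`
-/

set_option autoImplicit false

namespace Pool.Agent.PSX

open Finset (range)
open Pool.Agent.P4G (Fam QN FN FZ CC CR)
open Pool.Agent.RDF (β γ δ)

namespace M_AFC

/-- The difference of two half sums, by the Taylor expansion. -/
theorem diff (hPHI : Stmt_PHI) (l q0 n e : ℕ) (ψ : ℤ → ℤ) [NeZero (QN l q0 n)]
    (hf : Fam l q0 n e ψ) (i : ℕ) (hi : n + 1 ≤ 2 * i) (g μ w : ℤ) :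
    A3 (FZ l q0 n e ψ) 0 g (μ + (q0 * l ^ i : ℕ) * w) - A3 (FZ l q0 n e ψ) 0 g μ
      = ((q0 * l ^ i : ℕ) : ZMod (l ^ (n + 1))) * ED l q0 n e ψ μ (-1 + g) 1 w 0 0 (-1 + g)
        + ((q0 * l ^ i : ℕ) : ZMod (l ^ (n + 1))) * ED l q0 n e ψ 1 (-1 + g) μ 0 0 w 1
        + ((q0 * l ^ i : ℕ) : ZMod (l ^ (n + 1)))
          * ED l q0 n e ψ μ (2 * μ + 1 - g) (-μ + g) w (2 * w) (-w) (-1) := by
  have h1 := hPHI l q0 n e ψ hf i hi μ (-1 + g) 1 w 0 0 (-1 + g)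
  have h2 := hPHI l q0 n e ψ hf i hi 1 (-1 + g) μ 0 0 w 1
  have h3 := hPHI l q0 n e ψ hf i hi μ (2 * μ + 1 - g) (-μ + g) w (2 * w) (-w) (-1)
  have e1 : 2 * μ + 1 - g + ((q0 * l ^ i : ℕ) : ℤ) * (2 * w)
      = 2 * (μ + ((q0 * l ^ i : ℕ) : ℤ) * w) + 1 - g := by ring
  have e2 : -μ + g + ((q0 * l ^ i : ℕ) : ℤ) * (-w)
      = -(μ + ((q0 * l ^ i : ℕ) : ℤ) * w) + g := by ring
  rw [e1, e2] at h3
  simp only [mul_zero, add_zero, Int.cast_one] at h1 h2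
  simp only [A3, add_zero, mul_zero, sub_zero]
  rw [h1, h2, h3]
  ring

end M_AFC

theorem t_AFC (hPHI : Stmt_PHI) (hPHN : Stmt_PHN) (hLCM : Stmt_LCM) (hPPO : Stmt_PPO)
    (hAFA : Stmt_AFA) : Stmt_AFC := by
  intro l q0 n e e0 ψ _ hF i s hs hsi his γ0 μ w
  have hf := hF.fam
  have hi : n + 1 ≤ 2 * i := by omega
  have hi' : n + 1 ≤ i + s := by omega
  have hd := M_AFC.diff hPHI l q0 n e ψ hf i hi ((q0 * l ^ s : ℕ) * γ0) μ w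
  have h0 := M_AFC.diff hPHI l q0 n e ψ hf i hi 0 μ w
  have hz := (hAFA l q0 n e e0 ψ hF).2
  rw [hz, hz, sub_zero] at h0
  simp only [add_zero, sub_zero] at h0
  -- the forms may be taken with `γ = 0`
  have hN : ∀ P R S T U V P' R' S' c : ℤ, ((q0 * l ^ s : ℕ) : ℤ) ∣ T - P →
      ((q0 * l ^ s : ℕ) : ℤ) ∣ U - R → ((q0 * l ^ s : ℕ) : ℤ) ∣ V - S →
      ((q0 * l ^ i : ℕ) : ZMod (l ^ (n + 1))) * ED l q0 n e ψ T U V P' R' S' c
        = ((q0 * l ^ i : ℕ) : ZMod (l ^ (n + 1))) * ED l q0 n e ψ P R S P' R' S' c := by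
    intro P R S T U V P' R' S' c hT hU hV
    exact (hPHN l q0 n e ψ hf i s hi' P R S T U V hT hU hV).2 P' R' S' P' R' S' c
      (by simp) (by simp) (by simp)
  have k1 := hN μ (-1) 1 μ (-1 + (q0 * l ^ s : ℕ) * γ0) 1 w 0 0 (-1 + (q0 * l ^ s : ℕ) * γ0)
    (by simp) ⟨γ0, by ring⟩ (by simp)
  have k2 := hN 1 (-1) μ 1 (-1 + (q0 * l ^ s : ℕ) * γ0) μ 0 0 w 1 (by simp) ⟨γ0, by ring⟩ (by simp)
  have k3 := hN μ (2 * μ + 1) (-μ) μ (2 * μ + 1 - (q0 * l ^ s : ℕ) * γ0)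
    (-μ + (q0 * l ^ s : ℕ) * γ0) w (2 * w) (-w) (-1) (by simp) ⟨-γ0, by ring⟩ ⟨γ0, by ring⟩
  -- the letter may be changed to `-1`
  have hpol : ∀ x, Pol l n ψ ((fun x y => F1 l n e ψ (evZ μ (-1) 1 x y)
      * ((evZ w 0 0 x y : ℤ) : ZMod (l ^ (n + 1)))) x) := by
    intro x
    have h := (hPPO l q0 n e ψ hf).2.1 μ (-1) 1 x (Polynomial.C (w * x ^ 2))
    have h' : (fun y => F1 l n e ψ (evZ μ (-1) 1 x y)
        * ((evZ w 0 0 x y : ℤ) : ZMod (l ^ (n + 1)))) = (fun y => F1 l n e ψ (evZ μ (-1) 1 x y)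
        * (((Polynomial.C (w * x ^ 2)).eval y : ℤ) : ZMod (l ^ (n + 1)))) := by
      funext y
      rw [Polynomial.eval_C]
      simp [evZ]
    change Pol l n ψ (fun y => F1 l n e ψ (evZ μ (-1) 1 x y)
        * ((evZ w 0 0 x y : ℤ) : ZMod (l ^ (n + 1))))
    rw [h']
    exact h
  have hL := hLCM l q0 n e ψ hf i s hs his (fun x y => F1 l n e ψ (evZ μ (-1) 1 x y)
      * ((evZ w 0 0 x y : ℤ) : ZMod (l ^ (n + 1)))) hpol (-1) γ0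
  have k4 : ((q0 * l ^ i : ℕ) : ZMod (l ^ (n + 1)))
        * ED l q0 n e ψ μ (-1) 1 w 0 0 (-1 + (q0 * l ^ s : ℕ) * γ0)
      = ((q0 * l ^ i : ℕ) : ZMod (l ^ (n + 1))) * ED l q0 n e ψ μ (-1) 1 w 0 0 (-1)
        + 2 * (q0 : ZMod (l ^ (n + 1))) * (γ0 : ZMod (l ^ (n + 1)))
          * SX (QN l q0 n) (fun x => ∑ j ∈ range (QN l q0 n), F1 l n e ψ (evZ μ (-1) 1 x j)
            * ((evZ w 0 0 x j : ℤ) : ZMod (l ^ (n + 1)))) := hL
  have k5 : SX (QN l q0 n) (fun x => ∑ j ∈ range (QN l q0 n), F1 l n e ψ (evZ μ (-1) 1 x j)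
            * ((evZ w 0 0 x j : ℤ) : ZMod (l ^ (n + 1))))
      = (w : ZMod (l ^ (n + 1))) * SX (QN l q0 n) (I1 l q0 n e ψ μ (-1) 1 1 0 0) := by
    unfold SX I1
    rw [Finset.mul_sum]
    refine Finset.sum_congr rfl fun x _ => ?_
    rw [Finset.mul_sum, Finset.mul_sum, Finset.mul_sum]
    refine Finset.sum_congr rfl fun j _ => ?_
    simp only [evZ]
    push_cast
    ring
  rw [hd, k1, k2, k3, k4, k5]
  linear_combination (-1 : ZMod (l ^ (n + 1))) * h0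

end Pool.Agent.PSX
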