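import Pool.Agent.PSX.StG

/-!
# CYB: the cycle near a ghost with `c ≡ 1`, second order
-/

set_option autoImplicit false

namespace Pool.Agent.PSX

open Finset (range)
open Pool.Agent.P4G (Fam QN FN FZ CC CR)
open Pool.Agent.RDF (β γ δ)

namespace M_CYB

theorem key (a b c B m r p : ℤ) (h : Cl a b c B m r p) :
    (b * (c * (a * b + 1) + a) + (a * b + 1)) * (B - c + 2)
      = (a * b + 1) * (m * (c * (a * b + 1) + 2 * a) - (c - 2) * (b * c + 2))
        - c * (b + 1) ^ 2 + 2 * (c - 1) * (b + 1) := by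
  obtain ⟨e1, e2, e3⟩ := h
  subst e1
  subst e2
  linear_combination (-1) * e3

theorem core (l : ℕ) (Q A Γ A1 C1 δ1 a b c B m r p : ℤ) (h : Cl a b c B m r p)
    (ha : a = 1 + A) (hc : c = 1 + Γ) (hb : b = -1 + A - Q * δ1) (hAA : A ^ 2 = Q * A1)
    (hGA : Γ * A = Q * C1) (lQ : (l : ℤ) ∣ Q) (lA : (l : ℤ) ∣ A) (lG : (l : ℤ) ∣ Γ) :
    ∃ y : ℤ, B = c - 2 + Q * y ∧
      (l : ℤ) ∣ y - ((2 * m + 1) * δ1 - 2 * m * A1 - 2 * C1) ∧
      Q ∣ r - (-m + Γ - (1 + 2 * m) * A) ∧ Q ∣ p - (-1 + 2 * A) ∧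
      Q ∣ (2 * a * m - B) - (2 * m + 1 - Γ + 2 * m * A) := by
  have hk := key a b c B m r p h
  obtain ⟨e1, e2, e3⟩ := h
  obtain ⟨G, hG⟩ : ∃ G : ℤ, G = A1 - δ1 - A * δ1 := ⟨_, rfl⟩
  have hg : a * b + 1 = Q * G := by
    rw [hG, ha, hb]
    linear_combination hAA
  have hβ2 : (b + 1) ^ 2 = Q * (A1 - 2 * A * δ1 + Q * δ1 ^ 2) := by
    rw [hb]
    linear_combination hAA
  have hcβ : (c - 1) * (b + 1) = Q * (C1 - Γ * δ1) := by
    rw [hb, hc]
    linear_combination hGA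
  obtain ⟨K, hK⟩ : ∃ K : ℤ, K = G * (m * (c * (Q * G) + 2 * a) - (c - 2) * (b * c + 2))
      - c * (A1 - 2 * A * δ1 + Q * δ1 ^ 2) + 2 * (C1 - Γ * δ1) := ⟨_, rfl⟩
  have h1 : (-1 + Q * (G * (b * c + 2))) * (B - c + 2) = Q * K := by
    rw [hg] at hk
    have h2 : b * (c * (Q * G) + a) + Q * G = -1 + Q * (G * (b * c + 2)) := by
      linear_combination hg
    rw [h2] at hk
    rw [hk, hK]
    linear_combination (-c) * hβ2 + 2 * hcβ
  obtain ⟨y, hy⟩ : ∃ y : ℤ, y = G * (b * c + 2) * (B - c + 2) - K := ⟨_, rfl⟩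
  have hB : B = c - 2 + Q * y := by
    rw [hy]
    linear_combination (-1) * h1
  have hyK : y + K = Q * (G * (b * c + 2) * y) := by
    have h2 : B - c + 2 = Q * y := by rw [hB]; ring
    rw [h2] at hy
    linear_combination hy
  refine ⟨y, hB, ?_, ?_, ?_, ?_⟩
  · have hQ0 : (Q : ZMod l) = 0 := (ZMod.intCast_zmod_eq_zero_iff_dvd _ _).2 lQ
    have hA0 : (A : ZMod l) = 0 := (ZMod.intCast_zmod_eq_zero_iff_dvd _ _).2 lA
    have hG0 : (Γ : ZMod l) = 0 := (ZMod.intCast_zmod_eq_zero_iff_dvd _ _).2 lG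
    rw [← ZMod.intCast_zmod_eq_zero_iff_dvd]
    have h2 : ((y + K : ℤ) : ZMod l) = 0 := by
      rw [hyK, Int.cast_mul, hQ0, zero_mul]
    have h3 : (K : ZMod l) = ((A1 - δ1) * (2 * m + 1) - A1 + 2 * C1 : ℤ) := by
      rw [hK, hG, ha, hc, hb]
      push_cast
      rw [hQ0, hA0, hG0]
      ring
    rw [Int.cast_add, h3, ← Int.cast_add] at h2
    have h4 : y - ((2 * m + 1) * δ1 - 2 * m * A1 - 2 * C1) =
        y + ((A1 - δ1) * (2 * m + 1) - A1 + 2 * C1) := by ring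
    rw [h4]
    exact h2
  · refine ⟨C1 + y * (1 + A) - m * A1, ?_⟩
    rw [e1, hB, ha, hc]
    linear_combination hGA - m * hAA
  · have hp : p = m * (a * b + 1) ^ 2 - b * (a * b + 1) * B - b ^ 2 := by
      rw [e2, e1]
      ring
    refine ⟨m * Q * G ^ 2 - b * G * B - (2 * δ1 + A1 - 2 * A * δ1 + Q * δ1 ^ 2), ?_⟩
    rw [hp, hg]
    have h2 : b ^ 2 = 1 - 2 * A + 2 * Q * δ1 + Q * A1 - 2 * A * Q * δ1 + Q ^ 2 * δ1 ^ 2 := by
      rw [hb]
      linear_combination hAA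
    rw [h2]
    ring
  · refine ⟨-y, ?_⟩
    rw [hB, ha, hc]
    ring

end M_CYB

open M_CYB in
theorem t_CYB : Stmt_CYB := by
  intro l q0 n i s a b c B m r p γ0 τ0 δ1 _ hs hsi his hCl hc ha hd
  have hQN : ((QN l q0 n : ℕ) : ℤ) = q0 * (l : ℤ) ^ (n + 1) := by
    unfold QN
    push_cast
    ring
  have hi : 1 ≤ i := hs.trans hsi
  have hpow : (l : ℤ) ^ (n + 1) = (l : ℤ) ^ i * (l : ℤ) ^ s := by rw [← pow_add, his]
  have hii : (l : ℤ) ^ i = (l : ℤ) ^ s * (l : ℤ) ^ (i - s) := by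
    rw [← pow_add]
    congr 1
    omega
  have hdvd : ∀ k : ℕ, 1 ≤ k → (l : ℤ) ∣ (l : ℤ) ^ k := fun k hk =>
    dvd_pow_self _ (by omega)
  have h := core l (QN l q0 n : ℕ) (a - 1) (c - 1) (q0 * (l : ℤ) ^ (i - s) * τ0 ^ 2)
    (q0 * γ0 * τ0) δ1 a b c B m r p hCl (by ring) (by ring)
    (by linear_combination (-1) * hd)
    (by
      rw [ha, hQN, hpow]
      push_cast
      rw [hii]
      ring)
    (by
      rw [ha, hc, hQN, hpow]
      push_cast
      ring)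
    (by
      rw [hQN]
      exact (hdvd _ (by omega)).mul_left _)
    (by
      rw [ha]
      push_cast
      exact ((hdvd i hi).mul_left _).mul_right _)
    (by
      rw [hc]
      push_cast
      exact ((hdvd s hs).mul_left _).mul_right _)
  exact h

end Pool.Agent.PSX
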