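import Pool.Agent.PSX.StG

set_option autoImplicit false

/-!
# DRZ: the full sum of the derivative along a line vanishes
-/

namespace Pool.Agent.PSX

open Finset (range)
open Pool.Agent.P4G (Fam QN FN FZ CC CR)
open Pool.Agent.RDF (β γ δ)

namespace M_DRZ

open Polynomial

/-- The value along a line, over a prime field: powers only depend on the exponent modulo `l - 1`. -/
theorem pow_red {l : ℕ} [Fact l.Prime] (a : ZMod l) {e e0 : ℕ} (h : e % (l - 1) = e0) (h2 : 2 ≤ e0) :
    a ^ (e - 1) = a ^ (e0 - 1) := by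
  obtain ⟨k, hk⟩ : ∃ k, e = (l - 1) * k + e0 := ⟨e / (l - 1), by
    rw [← h]
    exact (Nat.div_add_mod e (l - 1)).symm⟩
  have h3 : e - 1 = (l - 1) * k + (e0 - 1) := by omega
  rw [h3, pow_add, pow_mul]
  rcases eq_or_ne a 0 with ha | ha
  · subst ha
    rw [zero_pow (by omega : e0 - 1 ≠ 0), mul_zero]
  · rw [ZMod.pow_card_sub_one_eq_one ha, one_pow, one_mul]

/-- The sum over a prime field. -/
theorem sum_zero (hDER : Stmt_DER) {l : ℕ} [Fact l.Prime] {e e0 : ℕ} (h : e % (l - 1) = e0)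
    (h2 : 2 ≤ e0) (hlt : e0 < l - 1) (A : Polynomial (ZMod l)) (hA : A.natDegree ≤ 2) :
    ∑ y : ZMod l, (e : ZMod l) * (A.eval y) ^ (e - 1) * (derivative A).eval y = 0 := by
  have h0 : (e0 : ZMod l) ≠ 0 := by
    intro h3
    rw [ZMod.natCast_eq_zero_iff] at h3
    have := Nat.le_of_dvd (by omega) h3
    omega
  have h1 := hDER l (A ^ e0) (by
    have h3 : (A ^ e0).natDegree ≤ e0 * 2 := natDegree_pow_le_of_le e0 hA
    omega)
  have h4 : (e0 : ZMod l) * ∑ y : ZMod l, (e : ZMod l) * (A.eval y) ^ (e - 1) * (derivative A).eval y =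
      (e : ZMod l) * ∑ y : ZMod l, (derivative (A ^ e0)).eval y := by
    rw [Finset.mul_sum, Finset.mul_sum]
    refine Finset.sum_congr rfl fun y _ => ?_
    rw [derivative_pow, eval_mul, eval_mul, eval_C, eval_pow, pow_red _ h h2]
    ring
  rw [h1, mul_zero] at h4
  exact (mul_eq_zero.1 h4).resolve_left h0

end M_DRZ

open M_DRZ in
theorem t_DRZ (hRSM : Stmt_RSM) (hDER : Stmt_DER) : Stmt_DRZ := by
  intro l q0 n e e0 ψ h P R S x
  have hl : Fact l.Prime := ⟨h.fam.hl⟩
  have hne : NeZero l := ⟨h.fam.hl.ne_zero⟩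
  obtain ⟨A, hAd⟩ : ∃ A : Polynomial ℤ, A = Polynomial.C (P * x ^ 2) + Polynomial.C (R * x) * Polynomial.X -
    Polynomial.C S * Polynomial.X ^ 2 := ⟨_, rfl⟩
  obtain ⟨B, hBd⟩ : ∃ B : Polynomial ℤ, B = Polynomial.C (e : ℤ) * A ^ (e - 1) *
    Polynomial.derivative A := ⟨_, rfl⟩
  have hA : ∀ j : ℤ, A.eval j = evZ P R S x j := by
    intro j
    rw [hAd, evZ]
    simp only [Polynomial.eval_add, Polynomial.eval_sub, Polynomial.eval_mul, Polynomial.eval_C,
      Polynomial.eval_X, Polynomial.eval_pow]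
  have hA' : ∀ j : ℤ, (Polynomial.derivative A).eval j = R * x - 2 * S * j := by
    intro j
    rw [hAd]
    simp only [Polynomial.derivative_add, Polynomial.derivative_sub, Polynomial.derivative_mul,
      Polynomial.derivative_C, Polynomial.derivative_X, Polynomial.derivative_X_pow,
      Polynomial.eval_add, Polynomial.eval_sub, Polynomial.eval_mul, Polynomial.eval_C,
      Polynomial.eval_X, Polynomial.eval_pow]
    push_cast
    simp
    ring
  have h1 := hRSM l q0 n e ψ h.fam A B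
  have h2 : ∑ j ∈ range (QN l q0 n), F1 l n e ψ (evZ P R S x j)
      * ((R * x - 2 * S * (j : ℤ) : ℤ) : ZMod (l ^ (n + 1))) =
      ∑ j ∈ range (QN l q0 n), ((ψ (A.eval (j : ℤ)) : ℤ) : ZMod (l ^ (n + 1)))
        * ((B.eval (j : ℤ) : ℤ) : ZMod (l ^ (n + 1))) := by
    refine Finset.sum_congr rfl fun j _ => ?_
    rw [hBd, Polynomial.eval_mul, Polynomial.eval_mul, Polynomial.eval_C, Polynomial.eval_pow, hA,
      hA', F1]
    push_cast
    ring
  rw [h2, h1]
  -- divisibility by the prime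
  have h3 : (l : ℤ) ∣ ∑ j ∈ range l, B.eval (j : ℤ) := by
    rw [← ZMod.intCast_zmod_eq_zero_iff_dvd]
    have hdeg : (A.map (Int.castRingHom (ZMod l))).natDegree ≤ 2 := by
      refine Polynomial.natDegree_map_le.trans ?_
      rw [hAd]
      compute_degree
    have hlt : e0 < l - 1 := by
      rw [← h.red]
      apply Nat.mod_lt
      have := h.fam.hl.two_le
      omega
    have h4 := sum_zero hDER h.red h.two hlt _ hdeg
    push_cast
    rw [← h4, ← RDF.sum_range_zmod]
    refine Finset.sum_congr rfl fun j _ => ?_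
    have h5 : ∀ p : Polynomial ℤ, ((p.eval (j : ℤ) : ℤ) : ZMod l) =
        (p.map (Int.castRingHom (ZMod l))).eval (j : ZMod l) := by
      intro p
      have := Polynomial.eval_intCast_map (Int.castRingHom (ZMod l)) p (j : ℤ)
      push_cast at this
      rw [this]
      rfl
    rw [h5, hBd, Polynomial.map_mul, Polynomial.map_mul, Polynomial.map_pow, Polynomial.eval_mul,
      Polynomial.eval_mul, Polynomial.eval_pow, Polynomial.derivative_map]
    congr 2
    simp
  obtain ⟨k, hk⟩ := h3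
  rw [hk, ZMod.intCast_zmod_eq_zero_iff_dvd]
  push_cast
  exact ⟨(∑ i ∈ range q0, ψ (A.eval (i : ℤ))) * k, by ring⟩

end Pool.Agent.PSX
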