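import Pool.Agent.PSX.StG

/-!
# Period six: the descent for `c` not `1` modulo `1365`
-/

set_option autoImplicit false

namespace Pool.Agent.PSX

open Finset (range)
open Pool.Agent.P4G (Fam QN FN FZ CC CR)
open Pool.Agent.RDF (β γ δ)

namespace M_DSA

/-- an integer divisible by `105·13^(n+1)` for all `n` is zero -/
lemma eq_zero_of_all (x : ℤ) (h : ∀ n : ℕ, (105 * 13 ^ (n + 1) : ℤ) ∣ x) : x = 0 := by
  by_contra hx
  have h1 := Int.le_of_dvd (abs_pos.mpr hx) ((dvd_abs _ _).mpr (h x.natAbs))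
  have h2 : x.natAbs < 13 ^ x.natAbs := Nat.lt_pow_self (by norm_num)
  have h3 : |x| = (x.natAbs : ℤ) := Int.abs_eq_natAbs x
  have h4 : (x.natAbs : ℤ) < 13 ^ x.natAbs := by exact_mod_cast h2
  have h5 : (13 : ℤ) ^ (x.natAbs + 1) = 13 ^ x.natAbs * 13 := pow_succ _ _
  rw [h3, h5] at h1
  have h6 : (0 : ℤ) < 13 ^ x.natAbs := by positivity
  linarith

end M_DSA

theorem t_DSA (hVFO : Stmt_VFO) (hRKA : Stmt_RKA) (hFAM : Stmt_FAM) (hCYA : Stmt_CYA)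
    (hNRT : Stmt_NRT) : Stmt_DSA := by
  intro a b c B m r p hCl hNr hRel ha hb hc
  -- the discriminant of the ghost
  have hD : Nr ((c - 2) ^ 2 + 4 * m) := by
    obtain ⟨α1, hα⟩ := ha
    obtain ⟨β1, hβ⟩ := hb
    obtain ⟨y, hy, -⟩ := hCYA 1365 13 a b c B m r p α1 β1 (by norm_num) (by norm_num) hCl
      (by push_cast; exact hα) (by push_cast; exact hβ)
    refine hNRT (B ^ 2 + 4 * m) _ ?_ hNr
    rw [hy]
    refine ⟨y * (2 * (c - 2) + 1365 * y), ?_⟩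
    push_cast
    ring
  -- one step
  have step : ∀ n : ℕ, (105 * 13 ^ (n + 1) : ℤ) ∣ a - 1 ∧ (105 * 13 ^ (n + 1) : ℤ) ∣ b + 1 := by
    intro n
    induction n with
    | zero => exact ⟨by simpa using ha, by simpa using hb⟩
    | succ n ih =>
      obtain ⟨⟨α1, hα⟩, ⟨β1, hβ⟩⟩ := ih
      obtain ⟨hF0, hF3, hF4, hF5, hF6⟩ := hFAM
      have v0 := hVFO 15 11 6 χ0 (by norm_num) hF0 a b c B m r p α1 β1 n hCl hNr hRel hα hβ
      have v3 := hVFO 35 8 11 χ3 (by norm_num) hF3 a b c B m r p α1 β1 n hCl hNr hRel hα hβ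
      have v4 := hVFO 105 11 3 χ4 (by norm_num) hF4 a b c B m r p α1 β1 n hCl hNr hRel hα hβ
      have v5 := hVFO 105 9 1 χ5 (by norm_num) hF5 a b c B m r p α1 β1 n hCl hNr hRel hα hβ
      have v6 := hVFO 105 11 5 χ6 (by norm_num) hF6 a b c B m r p α1 β1 n hCl hNr hRel hα hβ
      obtain ⟨⟨x, hx⟩, ⟨y, hy⟩⟩ := hRKA c m α1 β1 hD hc v0 v3 v4 v5 v6
      refine ⟨⟨x, ?_⟩, ⟨y, ?_⟩⟩
      · rw [hα, hx]; ring
      · rw [hβ, hy]; ring
  have h1 := M_DSA.eq_zero_of_all (a - 1) (fun n => (step n).1)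
  have h2 := M_DSA.eq_zero_of_all (b + 1) (fun n => (step n).2)
  exact ⟨by linarith, by linarith⟩

end Pool.Agent.PSX
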