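import Pool.Agent.PSX.StG

/-!
# Period six, the ghost line: the descent for `c ≡ 1` modulo `1365`
-/

set_option autoImplicit false

namespace Pool.Agent.PSX

open Finset (range)
open Pool.Agent.P4G (Fam QN FN FZ CC CR)
open Pool.Agent.RDF (β γ δ)

namespace M_DSB

theorem zero_of_dvd (x : ℤ) (h : ∀ i : ℕ, 1 ≤ i → (105 * 13 ^ i : ℤ) ∣ x) : x = 0 := by
  by_contra hx
  have h1 := h (x.natAbs + 1) (by omega)
  have h2 := Int.natAbs_dvd_natAbs.2 h1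
  have h3 := Nat.le_of_dvd (Int.natAbs_pos.2 hx) h2
  have h4 : (105 * 13 ^ (x.natAbs + 1) : ℤ).natAbs = 105 * 13 ^ (x.natAbs + 1) := by
    rw [Int.natAbs_mul, Int.natAbs_pow]
    rfl
  rw [h4] at h3
  have h5 : x.natAbs + 1 < 13 ^ (x.natAbs + 1) := Nat.lt_pow_self (by norm_num)
  omega

theorem p13 : Prime (13 : ℤ) := by
  rw [Int.prime_iff_natAbs_prime]
  norm_num

theorem n105 : ¬ (13 : ℤ) ∣ 105 := by norm_num

theorem step (hVFO : Stmt_VFO) (hVSO : Stmt_VSO) (hRKB : Stmt_RKB) (hRKC : Stmt_RKC)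
    (hFAM : Stmt_FAM) (a b c B m r p : ℤ) (hC : Cl a b c B m r p) (hD : Nr (B ^ 2 + 4 * m))
    (hR : Rel a b c B m r p) (hc : (1365 : ℤ) ∣ c - 1) (hD1 : Nr ((c - 2) ^ 2 + 4 * m))
    (hD2 : Nr (1 + 4 * m)) (i : ℕ) (hi : 1 ≤ i) (ha : (105 * 13 ^ i : ℤ) ∣ a - 1)
    (hb : (105 * 13 ^ i : ℤ) ∣ b + 1) :
    (105 * 13 ^ (i + 1) : ℤ) ∣ a - 1 ∧ (105 * 13 ^ (i + 1) : ℤ) ∣ b + 1 := by
  obtain ⟨F0, F3, F4, _, _⟩ := hFAM
  obtain ⟨τ, hτ⟩ := ha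
  obtain ⟨β0, hβ⟩ := hb
  obtain ⟨n, rfl⟩ : ∃ n, i = n + 1 := ⟨i - 1, by omega⟩
  -- step zero
  have h0 : (105 * 13 ^ (n + 1 + 1) : ℤ) ∣ (a - 1) - (b + 1) := by
    have v0 := hVFO 15 11 6 χ0 (by norm_num) F0 a b c B m r p τ β0 n hC hD hR hτ hβ
    have v3 := hVFO 35 8 11 χ3 (by norm_num) F3 a b c B m r p τ β0 n hC hD hR hτ hβ
    have v4 := hVFO 105 11 3 χ4 (by norm_num) F4 a b c B m r p τ β0 n hC hD hR hτ hβ
    obtain ⟨k, hk⟩ := hRKC c m τ β0 hD1 hc v0 v3 v4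
    refine ⟨k, ?_⟩
    rw [hτ, hβ, ← mul_sub, hk]
    ring
  -- the second order step
  have h1 : ∀ s : ℕ, 1 ≤ s → s ≤ n + 1 → ∀ γ0 : ℤ, c - 1 = 105 * 13 ^ s * γ0 →
      (105 * 13 ^ (n + 1 + s) : ℤ) ∣ (a - 1) - (b + 1) →
      (105 * 13 ^ (n + 1 + (s + 1)) : ℤ) ∣ (a - 1) - (b + 1) ∧ (13 : ℤ) ∣ 105 * γ0 * τ ∧
        (13 : ℤ) ∣ 105 * 13 ^ (n + 1 - s) * τ ^ 2 := by
    intro s hs1 hs2 γ0 hγ hδ
    obtain ⟨δ1, hδ1⟩ := hδ
    have hn : n + 1 + s = (n + s) + 1 := by omega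
    rw [hn] at hδ1
    have v0 := hVSO 15 11 6 χ0 (by norm_num) F0 a b c B m r p γ0 τ δ1 (n + s) (n + 1) s hC hD hR
      hs1 hs2 hn hγ hτ hδ1
    have v3 := hVSO 35 8 11 χ3 (by norm_num) F3 a b c B m r p γ0 τ δ1 (n + s) (n + 1) s hC hD hR
      hs1 hs2 hn hγ hτ hδ1
    have v4 := hVSO 105 11 3 χ4 (by norm_num) F4 a b c B m r p γ0 τ δ1 (n + s) (n + 1) s hC hD hR
      hs1 hs2 hn hγ hτ hδ1
    obtain ⟨⟨k, hk⟩, d2, d3⟩ := hRKB m δ1 _ _ hD2 v0 v3 v4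
    refine ⟨⟨k, ?_⟩, d2, d3⟩
    rw [hδ1, hk]
    have : n + 1 + (s + 1) = n + s + 1 + 1 := by omega
    rw [this]
    ring
  have h2 : ∀ s : ℕ, 1 ≤ s → s ≤ n + 1 → (105 * 13 ^ s : ℤ) ∣ c - 1 →
      (105 * 13 ^ (n + 1 + s) : ℤ) ∣ (a - 1) - (b + 1) := by
    intro s hs
    induction s, hs using Nat.le_induction with
    | base => intro _ _; exact h0
    | succ s hs ih =>
      intro h3 h4
      have h5 : (105 * 13 ^ s : ℤ) ∣ c - 1 :=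
        Dvd.dvd.trans (mul_dvd_mul_left _ (pow_dvd_pow _ (by omega))) h4
      obtain ⟨γ0, hγ⟩ := h5
      exact (h1 s hs (by omega) γ0 hγ (ih (by omega) ⟨γ0, hγ⟩)).1
  have h3 : (13 : ℤ) ∣ τ := by
    classical
    obtain ⟨s, hs⟩ : ∃ s, s = Nat.findGreatest (fun s => (105 * 13 ^ s : ℤ) ∣ c - 1) (n + 1) :=
      ⟨_, rfl⟩
    have hP1 : (105 * 13 ^ 1 : ℤ) ∣ c - 1 := by
      have : (105 * 13 ^ 1 : ℤ) = 1365 := by norm_num
      rw [this]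
      exact hc
    have hs1 : 1 ≤ s := by
      rw [hs]
      exact Nat.le_findGreatest (by omega) hP1
    have hs2 : s ≤ n + 1 := by
      rw [hs]
      exact Nat.findGreatest_le _
    have hs3 : (105 * 13 ^ s : ℤ) ∣ c - 1 := by
      have := Nat.findGreatest_spec (P := fun s => (105 * 13 ^ s : ℤ) ∣ c - 1)
        (show 1 ≤ n + 1 by omega) hP1
      rw [← hs] at this
      exact this
    obtain ⟨γ0, hγ⟩ := hs3
    obtain ⟨_, d2, d3⟩ := h1 s hs1 hs2 γ0 hγ (h2 s hs1 hs2 ⟨γ0, hγ⟩)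
    by_cases hsi : s = n + 1
    · rw [hsi, Nat.sub_self, pow_zero, mul_one] at d3
      rcases p13.dvd_or_dvd d3 with h | h
      · exact absurd h n105
      · exact p13.dvd_of_dvd_pow h
    · have hγ0 : ¬ (13 : ℤ) ∣ γ0 := by
        rintro ⟨k, hk⟩
        have h4 : (105 * 13 ^ (s + 1) : ℤ) ∣ c - 1 := ⟨k, by rw [hγ, hk]; ring⟩
        have h5 := Nat.findGreatest_is_greatest (P := fun s => (105 * 13 ^ s : ℤ) ∣ c - 1)
          (n := n + 1) (k := s + 1) (by rw [← hs]; omega) (by omega)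
        exact h5 h4
      rcases p13.dvd_or_dvd d2 with h | h
      · rcases p13.dvd_or_dvd h with h' | h'
        · exact absurd h' n105
        · exact absurd h' hγ0
      · exact h
  obtain ⟨k, hk⟩ := h3
  have h4 : (105 * 13 ^ (n + 1 + 1) : ℤ) ∣ a - 1 := ⟨k, by rw [hτ, hk]; ring⟩
  refine ⟨h4, ?_⟩
  have h5 := dvd_sub h4 h0
  have h6 : a - 1 - (a - 1 - (b + 1)) = b + 1 := by ring
  rwa [h6] at h5

end M_DSB

theorem t_DSB (hVFO : Stmt_VFO) (hVSO : Stmt_VSO) (hRKB : Stmt_RKB) (hRKC : Stmt_RKC)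
    (hFAM : Stmt_FAM) (hCYA : Stmt_CYA) (hNRT : Stmt_NRT) : Stmt_DSB := by
  intro a b c B m r p hC hD hR ha hb hc
  obtain ⟨α1, hα⟩ := ha
  obtain ⟨β1, hβ⟩ := hb
  obtain ⟨y, hy, _⟩ := hCYA 1365 1365 a b c B m r p α1 β1 (by norm_num) dvd_rfl hC
    (by exact_mod_cast hα) (by exact_mod_cast hβ)
  have hD1 : Nr ((c - 2) ^ 2 + 4 * m) := by
    refine hNRT _ _ ?_ hD
    refine ⟨y * (2 * (c - 2) + 1365 * y), ?_⟩
    rw [hy]
    push_cast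
    ring
  have hD2 : Nr (1 + 4 * m) := by
    refine hNRT _ _ ?_ hD1
    obtain ⟨k, hk⟩ := hc
    refine ⟨k * (c - 3), ?_⟩
    linear_combination (c - 3) * hk
  have key : ∀ i : ℕ, 1 ≤ i → (105 * 13 ^ i : ℤ) ∣ a - 1 ∧ (105 * 13 ^ i : ℤ) ∣ b + 1 := by
    intro i hi
    induction i, hi using Nat.le_induction with
    | base =>
      have : (105 * 13 ^ 1 : ℤ) = 1365 := by norm_num
      rw [this]
      exact ⟨⟨α1, hα⟩, ⟨β1, hβ⟩⟩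
    | succ i hi ih =>
      exact M_DSB.step hVFO hVSO hRKB hRKC hFAM a b c B m r p hC hD hR hc hD1 hD2 i hi ih.1 ih.2
  have h1 := M_DSB.zero_of_dvd (a - 1) fun i hi => (key i hi).1
  have h2 := M_DSB.zero_of_dvd (b + 1) fun i hi => (key i hi).2
  exact ⟨by omega, by omega⟩

end Pool.Agent.PSX
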