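import Pool.Agent.PSX.StG

/-!
# Period six: the ghost line theorem

`FIN` from the two descents `DSA` and `DSB`, according to whether `1365` divides `c - 1`.
-/

set_option autoImplicit false

namespace Pool.Agent.PSX

theorem t_FIN (hDSA : Stmt_DSA) (hDSB : Stmt_DSB) : Stmt_FIN := by
  intro a b c B m r p hCl hNr hRel ha hb
  by_cases hc : (1365 : ℤ) ∣ c - 1
  · exact hDSB a b c B m r p hCl hNr hRel ha hb hc
  · exact hDSA a b c B m r p hCl hNr hRel ha hb hc

end Pool.Agent.PSX
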