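import Pool.Agent.PSX.StG

set_option autoImplicit false

namespace Pool.Agent.PSX

open Finset (range)
open Pool.Agent.P4G (Fam QN FN FZ CC CR)
open Pool.Agent.RDF (β γ δ)

namespace M_LCN

/-- the function along a line -/
def G (l n e : ℕ) (ψ : ℤ → ℤ) (P R S x y : ℤ) : ZMod (l ^ (n + 1)) :=
  FN l n e ψ (evZ P R S x y)

/-- the derivative along a line -/
def G1 (l n e : ℕ) (ψ : ℤ → ℤ) (P R S x y : ℤ) : ZMod (l ^ (n + 1)) :=
  F1 l n e ψ (evZ P R S x y) * ((R * x - 2 * S * y : ℤ) : ZMod (l ^ (n + 1)))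

lemma l_pow (l n : ℕ) : (l : ZMod (l ^ (n + 1))) ^ (n + 1) = 0 := by
  have h := ZMod.natCast_self (l ^ (n + 1))
  push_cast at h
  exact h

lemma N_sq (l q0 n i : ℕ) (hi : n + 1 ≤ 2 * i) :
    ((q0 * l ^ i : ℕ) : ZMod (l ^ (n + 1))) ^ 2 = 0 := by
  obtain ⟨k, hk⟩ := Nat.exists_eq_add_of_le hi
  have h : ((l : ZMod (l ^ (n + 1))) ^ i) ^ 2 = 0 := by
    rw [← pow_mul, mul_comm i 2, hk]
    calc (l : ZMod (l ^ (n + 1))) ^ (n + 1 + k)
        = (l : ZMod (l ^ (n + 1))) ^ (n + 1) * (l : ZMod (l ^ (n + 1))) ^ k := by ring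
      _ = 0 := by rw [l_pow, zero_mul]
  push_cast
  rw [mul_pow, h, mul_zero]

section one

variable {l q0 n e : ℕ} {ψ : ℤ → ℤ}

lemma ev_shift (P R S x y N w : ℤ) : evZ P R S x (y + N * w)
    = evZ P R S x y + N * (w * (R * x - 2 * S * y) - N * S * w ^ 2) := by
  simp only [evZ]; ring

lemma G_shift (hF : Fam l q0 n e ψ) (hP : Stmt_PPO) (N : ℕ) (hN : q0 ∣ N)
    (hN2 : (N : ZMod (l ^ (n + 1))) ^ 2 = 0) (P R S x y w : ℤ) :
    G l n e ψ P R S x (y + N * w)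
      = G l n e ψ P R S x y + (N : ZMod (l ^ (n + 1))) * ((w : ZMod (l ^ (n + 1)))
        * G1 l n e ψ P R S x y) := by
  obtain ⟨t, ht⟩ := (hP l q0 n e ψ hF).2.2.2.1 N hN (evZ P R S x y)
    (w * (R * x - 2 * S * y) - N * S * w ^ 2)
  simp only [G, G1]
  rw [ev_shift, ht]
  push_cast
  linear_combination (t - (S : ZMod (l ^ (n + 1))) * (w : ZMod (l ^ (n + 1))) ^ 2
    * F1 l n e ψ (evZ P R S x y)) * hN2

lemma G1_shift (hF : Fam l q0 n e ψ) (hP : Stmt_PPO) (N : ℕ) (hN : q0 ∣ N)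
    (hN2 : (N : ZMod (l ^ (n + 1))) ^ 2 = 0) (P R S x y w : ℤ) :
    (N : ZMod (l ^ (n + 1))) * G1 l n e ψ P R S x (y + N * w)
      = (N : ZMod (l ^ (n + 1))) * G1 l n e ψ P R S x y := by
  obtain ⟨t, ht⟩ := (hP l q0 n e ψ hF).2.2.2.2 N hN (evZ P R S x y)
    (w * (R * x - 2 * S * y) - N * S * w ^ 2)
  simp only [G1]
  rw [ev_shift, ht]
  push_cast
  linear_combination (t * ((R : ZMod (l ^ (n + 1))) * x - 2 * S * (y + N * w))
    - 2 * (S : ZMod (l ^ (n + 1))) * w * F1 l n e ψ (evZ P R S x y)) * hN2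

lemma sum_G1 {e0 : ℕ} (hF : Fm l q0 n e e0 ψ) (hP : Stmt_PPO) (hB : Stmt_BLK) (hD : Stmt_DRZ)
    (i : ℕ) (hi1 : 1 ≤ i) (hi2 : i ≤ n + 1) (hi : n + 1 ≤ 2 * i) (P R S x u : ℤ) :
    ((q0 * l ^ i : ℕ) : ZMod (l ^ (n + 1))) * ∑ j ∈ range (q0 * l ^ i),
      G1 l n e ψ P R S x (u + j) = 0 := by
  have hpol : Pol l n ψ (fun y => G1 l n e ψ P R S x y) := by
    have h := (hP l q0 n e ψ hF.fam).2.1 P R S x
      (Polynomial.C (R * x) - Polynomial.C (2 * S) * Polynomial.X)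
    simpa only [G1, Polynomial.eval_sub, Polynomial.eval_mul, Polynomial.eval_C,
      Polynomial.eval_X] using h
  have h1 := (hB l q0 n e ψ hF.fam _ hpol).1 i u hi1 hi2
  have h2 : ∑ j ∈ range (QN l q0 n), G1 l n e ψ P R S x (j : ℤ) = 0 :=
    hD l q0 n e e0 ψ hF P R S x
  rw [h2] at h1
  obtain ⟨k, hk⟩ := Nat.exists_eq_add_of_le hi
  have hk' : i = k + (n + 1 - i) := by omega
  have h3 : ((q0 * l ^ i : ℕ) : ZMod (l ^ (n + 1)))
      = (q0 : ZMod (l ^ (n + 1))) * (l : ZMod (l ^ (n + 1))) ^ k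
        * (l : ZMod (l ^ (n + 1))) ^ (n + 1 - i) := by
    push_cast
    rw [mul_assoc, ← pow_add, ← hk']
  rw [h3, mul_assoc, h1, mul_zero]

lemma sum_G_shift {e0 : ℕ} (hF : Fm l q0 n e e0 ψ) (hP : Stmt_PPO) (hB : Stmt_BLK)
    (hD : Stmt_DRZ) (i : ℕ) (hi1 : 1 ≤ i) (hi2 : i ≤ n + 1) (hi : n + 1 ≤ 2 * i)
    (P R S x u w : ℤ) :
    ∑ j ∈ range (q0 * l ^ i), G l n e ψ P R S x (u + (q0 * l ^ i : ℕ) * w + j)
      = ∑ j ∈ range (q0 * l ^ i), G l n e ψ P R S x (u + j) := by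
  have h1 : ∀ j : ℕ, G l n e ψ P R S x (u + (q0 * l ^ i : ℕ) * w + j)
      = G l n e ψ P R S x (u + j) + ((q0 * l ^ i : ℕ) : ZMod (l ^ (n + 1)))
        * ((w : ZMod (l ^ (n + 1))) * G1 l n e ψ P R S x (u + j)) := by
    intro j
    rw [← G_shift hF.fam hP (q0 * l ^ i) (dvd_mul_right _ _) (N_sq l q0 n i hi)]
    congr 1
    ring
  simp only [h1, Finset.sum_add_distrib]
  have h2 := sum_G1 hF hP hB hD i hi1 hi2 hi P R S x u
  have h3 : ∑ j ∈ range (q0 * l ^ i), ((q0 * l ^ i : ℕ) : ZMod (l ^ (n + 1)))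
        * ((w : ZMod (l ^ (n + 1))) * G1 l n e ψ P R S x (u + j)) = 0 := by
    have : ∀ j : ℕ, ((q0 * l ^ i : ℕ) : ZMod (l ^ (n + 1)))
        * ((w : ZMod (l ^ (n + 1))) * G1 l n e ψ P R S x (u + j))
        = (w : ZMod (l ^ (n + 1))) * (((q0 * l ^ i : ℕ) : ZMod (l ^ (n + 1)))
          * G1 l n e ψ P R S x (u + j)) := fun j => by ring
    simp only [this]
    rw [← Finset.mul_sum, ← Finset.mul_sum, h2, mul_zero]
  rw [h3, add_zero]

/-- one block -/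
lemma block {e0 : ℕ} (hF : Fm l q0 n e e0 ψ) (hP : Stmt_PPO) (hB : Stmt_BLK)
    (hD : Stmt_DRZ) (i : ℕ) (hi1 : 1 ≤ i) (hi2 : i ≤ n + 1) (hi : n + 1 ≤ 2 * i)
    (P R S c x w : ℤ) :
    ∑ j ∈ range (q0 * l ^ i), (G l n e ψ P R S x (c * x + (q0 * l ^ i : ℕ) * w + j)
        + G l n e ψ P R S x (c * x + (q0 * l ^ i : ℕ) * w + j + 1))
      = TT l n e ψ (q0 * l ^ i) P R S c x := by
  have htel : ∀ (g : ℤ → ZMod (l ^ (n + 1))) (u : ℤ) (N : ℕ),
      ∑ j ∈ range N, (g (u + j) + g (u + j + 1))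
        = 2 * ∑ j ∈ range N, g (u + j) + g (u + N) - g u := by
    intro g u N
    induction N with
    | zero => simp
    | succ N ih =>
      rw [Finset.sum_range_succ, ih, Finset.sum_range_succ]
      push_cast
      rw [← add_assoc u (N : ℤ) 1]
      ring
  rw [htel, sum_G_shift hF hP hB hD i hi1 hi2 hi]
  have h1 : G l n e ψ P R S x (c * x + (q0 * l ^ i : ℕ) * w + (q0 * l ^ i : ℕ))
      = G l n e ψ P R S x (c * x + (q0 * l ^ i : ℕ) * w)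
        + ((q0 * l ^ i : ℕ) : ZMod (l ^ (n + 1)))
          * G1 l n e ψ P R S x (c * x + (q0 * l ^ i : ℕ) * w) := by
    have h := G_shift hF.fam hP (q0 * l ^ i) (dvd_mul_right _ _) (N_sq l q0 n i hi) P R S x
      (c * x + (q0 * l ^ i : ℕ) * w) 1
    rw [mul_one] at h
    rw [h]
    push_cast
    ring
  have h2 := G1_shift hF.fam hP (q0 * l ^ i) (dvd_mul_right _ _) (N_sq l q0 n i hi) P R S x
    (c * x) w
  rw [h1, h2]
  simp only [TT, G, G1]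
  ring

/-- the blocks do not change with the letter -/
lemma TT_shift {e0 : ℕ} (hF : Fm l q0 n e e0 ψ) (hP : Stmt_PPO) (hB : Stmt_BLK)
    (hD : Stmt_DRZ) (i : ℕ) (hi1 : 1 ≤ i) (hi2 : i ≤ n + 1) (hi : n + 1 ≤ 2 * i)
    (P R S c t0 x : ℤ) :
    TT l n e ψ (q0 * l ^ i) P R S (c + (q0 * l ^ i : ℕ) * t0) x
      = TT l n e ψ (q0 * l ^ i) P R S c x := by
  rw [← block hF hP hB hD i hi1 hi2 hi P R S (c + (q0 * l ^ i : ℕ) * t0) x 0,
    ← block hF hP hB hD i hi1 hi2 hi P R S c x (t0 * x)]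
  apply Finset.sum_congr rfl
  intro j _
  congr 2 <;> ring

lemma sg_mul {Q : ℕ} [NeZero Q] (x : ZMod Q) : sg x * (x.val : ℤ) = (-1) ^ x.val * (x.val : ℤ) := by
  unfold sg
  split
  · next h => rw [h]; simp
  · rfl

/-- the letter change for natural multiples -/
lemma main_nat {e0 : ℕ} [NeZero (QN l q0 n)] (hF : Fm l q0 n e e0 ψ) (hL : Stmt_LCH)
    (hP : Stmt_PPO) (hB : Stmt_BLK)
    (hD : Stmt_DRZ) (i : ℕ) (hi1 : 1 ≤ i) (hi2 : i ≤ n + 1) (hi : n + 1 ≤ 2 * i)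
    (P R S c : ℤ) (t0 : ℕ) :
    EZ (QN l q0 n) (fun x y => FN l n e ψ (evZ P R S x y)) (c + (q0 * l ^ i : ℕ) * t0)
      = EZ (QN l q0 n) (fun x y => FN l n e ψ (evZ P R S x y)) c
        + (t0 : ZMod (l ^ (n + 1))) * SX (QN l q0 n) (TT l n e ψ (q0 * l ^ i) P R S c) := by
  have hQ : QN l q0 n % 2 = 1 := by
    have h1 : l % 2 = 1 := Nat.odd_iff.1 (hF.fam.hl.odd_of_ne_two hF.fam.l2)
    have h2 : Odd (q0 * l ^ (n + 1)) :=
      (Nat.odd_iff.2 hF.fam.hq).mul ((Nat.odd_iff.2 h1).pow)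
    exact Nat.odd_iff.1 h2
  have hkey : ∀ x : ZMod (QN l q0 n),
      ∑ y : ZMod (QN l q0 n), FN l n e ψ (evZ P R S (x.val : ℤ) (y.val : ℤ))
        * ((W (c + (q0 * l ^ i : ℕ) * t0) x y - W c x y : ℤ) : ZMod (l ^ (n + 1)))
      = (t0 : ZMod (l ^ (n + 1))) * ((((-1) ^ x.val * (x.val : ℤ) : ℤ) : ZMod (l ^ (n + 1)))
          * TT l n e ψ (q0 * l ^ i) P R S c (x.val : ℤ)) := by
    intro x
    have hpol : Pol l n ψ (fun y => G l n e ψ P R S (x.val : ℤ) y) := by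
      have h := (hP l q0 n e ψ hF.fam).1 P R S (x.val : ℤ) 0 1
      simpa only [G, zero_add, one_mul] using h
    obtain ⟨-, hl0, hper⟩ := hB l q0 n e ψ hF.fam _ hpol
    have h := hL (QN l q0 n) hQ (ZMod (l ^ (n + 1))) (fun y => G l n e ψ P R S (x.val : ℤ) y)
      hper c (q0 * l ^ i * t0) x
    have hc : ((q0 * l ^ i * t0 : ℕ) : ℤ) = ((q0 * l ^ i : ℕ) : ℤ) * (t0 : ℤ) := by push_cast; ring
    rw [hc] at h
    have hz : (((((q0 * l ^ i : ℕ) : ℤ) * (t0 : ℤ) : ℤ)) : ZMod (l ^ (n + 1)))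
        * ∑ j ∈ range (QN l q0 n), G l n e ψ P R S (x.val : ℤ) (j : ℤ) = 0 := by
      obtain ⟨k, hk⟩ := Nat.exists_eq_add_of_le hi1
      have h3 : (((((q0 * l ^ i : ℕ) : ℤ) * (t0 : ℤ) : ℤ)) : ZMod (l ^ (n + 1)))
          = (q0 : ZMod (l ^ (n + 1))) * (l : ZMod (l ^ (n + 1))) ^ k * t0
            * (l : ZMod (l ^ (n + 1))) := by
        rw [hk]
        push_cast
        ring
      rw [h3, mul_assoc, hl0, mul_zero]
    have hs : ∑ i' ∈ range (q0 * l ^ i * t0 * x.val),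
        (G l n e ψ P R S (x.val : ℤ) (c * x.val + i') + G l n e ψ P R S (x.val : ℤ)
          (c * x.val + i' + 1))
        = ((t0 * x.val : ℕ) : ZMod (l ^ (n + 1))) * TT l n e ψ (q0 * l ^ i) P R S c (x.val : ℤ) := by
      rw [mul_assoc (q0 * l ^ i), P4G.sum_blocks (q0 * l ^ i) (t0 * x.val)
        (fun i' => G l n e ψ P R S (x.val : ℤ) (c * x.val + (i' : ℕ))
          + G l n e ψ P R S (x.val : ℤ) (c * x.val + (i' : ℕ) + 1)), Finset.sum_comm]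
      have hb : ∀ t : ℕ, ∑ j ∈ range (q0 * l ^ i),
          (G l n e ψ P R S (x.val : ℤ) (c * x.val + ((q0 * l ^ i * t + j : ℕ) : ℤ))
            + G l n e ψ P R S (x.val : ℤ) (c * x.val + ((q0 * l ^ i * t + j : ℕ) : ℤ) + 1))
          = TT l n e ψ (q0 * l ^ i) P R S c (x.val : ℤ) := by
        intro t
        rw [← block hF hP hB hD i hi1 hi2 hi P R S c (x.val : ℤ) (t : ℤ)]
        apply Finset.sum_congr rfl
        intro j _
        have h5 : c * (x.val : ℤ) + ((q0 * l ^ i * t + j : ℕ) : ℤ)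
            = c * (x.val : ℤ) + (q0 * l ^ i : ℕ) * (t : ℤ) + j := by push_cast; ring
        rw [h5]
      rw [Finset.sum_congr rfl (fun t _ => hb t), Finset.sum_const, Finset.card_range,
        nsmul_eq_mul]
    simp only [G] at h hz hs
    rw [h, hs, neg_mul, hz, neg_zero, zero_add]
    have h6 := congrArg (fun z : ℤ => (z : ZMod (l ^ (n + 1)))) (sg_mul x)
    simp only [Int.cast_mul, Int.cast_natCast] at h6
    simp only [Int.cast_mul, Int.cast_natCast]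
    rw [← h6]
    push_cast
    ring
  have hSX : SX (QN l q0 n) (TT l n e ψ (q0 * l ^ i) P R S c)
      = ∑ x : ZMod (QN l q0 n), (((-1) ^ x.val * (x.val : ℤ) : ℤ) : ZMod (l ^ (n + 1)))
          * TT l n e ψ (q0 * l ^ i) P R S c (x.val : ℤ) := by
    rw [← RDF.sum_range_zmod]
    unfold SX
    apply Finset.sum_congr rfl
    intro x hx
    rw [ZMod.val_cast_of_lt (Finset.mem_range.1 hx)]
  rw [hSX, Finset.mul_sum, ← Finset.sum_congr rfl (fun x _ => hkey x)]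
  unfold EZ
  rw [← Finset.sum_add_distrib]
  apply Finset.sum_congr rfl
  intro x _
  rw [← Finset.sum_add_distrib]
  apply Finset.sum_congr rfl
  intro y _
  push_cast
  ring

end one

end M_LCN

open M_LCN in
theorem t_LCN (hLCH : Stmt_LCH) (hPPO : Stmt_PPO) (hBLK : Stmt_BLK) (hDRZ : Stmt_DRZ)
    (hEFZ : Stmt_EFZ) : Stmt_LCN := by
  intro l q0 n e e0 ψ _ hF i hi1 hi2 hi P R S c t0
  rw [hEFZ l q0 n e ψ hF.fam, hEFZ l q0 n e ψ hF.fam]
  rcases Int.eq_nat_or_neg t0 with ⟨k, rfl | rfl⟩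
  · rw [main_nat hF hLCH hPPO hBLK hDRZ i hi1 hi2 hi P R S c k]
    simp only [Int.cast_natCast]
  · have h := main_nat hF hLCH hPPO hBLK hDRZ i hi1 hi2 hi P R S
      (c + (q0 * l ^ i : ℕ) * (-(k : ℤ))) k
    have h1 : c + (q0 * l ^ i : ℕ) * (-(k : ℤ)) + (q0 * l ^ i : ℕ) * (k : ℤ) = c := by ring
    rw [h1] at h
    have h2 : TT l n e ψ (q0 * l ^ i) P R S (c + (q0 * l ^ i : ℕ) * (-(k : ℤ)))
        = TT l n e ψ (q0 * l ^ i) P R S c := by
      funext x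
      exact TT_shift hF hPPO hBLK hDRZ i hi1 hi2 hi P R S c (-(k : ℤ)) x
    rw [h2] at h
    rw [h]
    push_cast
    ring

end Pool.Agent.PSX
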