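import Pool.Agent.PSX.StG

/-!
# PSX, module NEG: change of sign of all letters
-/

set_option autoImplicit false

namespace Pool.Agent.PSX

open Finset (range)
open Pool.Agent.P4G (Fam QN FN FZ CC CR)
open Pool.Agent.RDF (β γ δ)

namespace M_NEG

theorem es_neg {Q : ℕ} [NeZero Q] (hW : ∀ (c : ℤ) (x y : ZMod Q), W (-c) x (-y) = - W c x y)
    {M : Type} [CommRing M] (F : ZMod Q → M) (P R R' S : ZMod Q) (hR : R' = -R) (c : ℤ) :
    Es F P R' S (-c) = - Es F P R S c := by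
  subst hR
  unfold Es
  rw [← Finset.sum_neg_distrib]
  refine Finset.sum_congr rfl fun x _ => ?_
  rw [← Finset.sum_neg_distrib,
    ← Equiv.sum_comp (Equiv.neg (ZMod Q)) (fun y => F (ev P (-R) S x y) * ((W (-c) x y : ℤ) : M))]
  refine Finset.sum_congr rfl fun y _ => ?_
  have h1 : ev P (-R) S x (-y) = ev P R S x y := by
    unfold ev
    ring
  show F (ev P (-R) S x (-y)) * ((W (-c) x (-y) : ℤ) : M) = -(F (ev P R S x y) * ((W c x y : ℤ) : M))
  rw [h1, hW]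
  push_cast
  ring

end M_NEG

open M_NEG in
theorem t_NEG (hNUS : Stmt_NUS) : Stmt_NEG := by
  intro Q _ hQ M _ F a b c B m r p
  have hW : ∀ (c : ℤ) (x y : ZMod Q), W (-c) x (-y) = - W c x y := fun c x y => (hNUS Q).2.2 hQ c x y
  unfold R6
  rw [es_neg hW F (m : ZMod Q) (B : ZMod Q) ((-B : ℤ) : ZMod Q) 1 (by push_cast; ring) B,
    es_neg hW F 1 (B : ZMod Q) ((-B : ℤ) : ZMod Q) (m : ZMod Q) (by push_cast; ring) a,
    es_neg hW F (m : ZMod Q) ((2 * a * m - B : ℤ) : ZMod Q) ((2 * (-a) * m - (-B) : ℤ) : ZMod Q)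
      (r : ZMod Q) (by push_cast; ring) b,
    es_neg hW F (r : ZMod Q) ((c * p : ℤ) : ZMod Q) (((-c) * p : ℤ) : ZMod Q)
      (p : ZMod Q) (by push_cast; ring) c,
    es_neg hW F (p : ZMod Q) ((c * p : ℤ) : ZMod Q) (((-c) * p : ℤ) : ZMod Q)
      (r : ZMod Q) (by push_cast; ring) b,
    es_neg hW F (r : ZMod Q) ((2 * a * m - B : ℤ) : ZMod Q) ((2 * (-a) * m - (-B) : ℤ) : ZMod Q)
      (m : ZMod Q) (by push_cast; ring) a]
  ring

end Pool.Agent.PSX
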