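import Pool.Agent.PSX.StG

/-!
# Module `NTT`: `N` times a block sum
-/

set_option autoImplicit false

namespace Pool.Agent.PSX

open Finset (range)
open Pool.Agent.P4G (Fam QN FN FZ CC CR)
open Pool.Agent.RDF (β γ δ)

theorem t_NTT (hBLK : Stmt_BLK) (hPPO : Stmt_PPO) : Stmt_NTT := by
  intro l q0 n e ψ hF i hi1 hi2 hi3 P R S c x
  have hl0 : ((l : ZMod (l ^ (n + 1)))) ^ (n + 1) = 0 := by
    have h := ZMod.natCast_self (l ^ (n + 1))
    rwa [Nat.cast_pow] at h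
  have hN2 : ((q0 * l ^ i : ℕ) : ZMod (l ^ (n + 1))) * ((q0 * l ^ i : ℕ) : ZMod (l ^ (n + 1))) = 0 := by
    have h2 : ((l : ZMod (l ^ (n + 1)))) ^ (2 * i) = 0 := pow_eq_zero_of_le hi3 hl0
    push_cast
    calc (q0 : ZMod (l ^ (n + 1))) * (l : ZMod (l ^ (n + 1))) ^ i
          * ((q0 : ZMod (l ^ (n + 1))) * (l : ZMod (l ^ (n + 1))) ^ i)
        = (q0 : ZMod (l ^ (n + 1))) ^ 2 * (l : ZMod (l ^ (n + 1))) ^ (2 * i) := by ring
      _ = 0 := by rw [h2, mul_zero]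
  have hG : Pol l n ψ (fun y => FN l n e ψ (evZ P R S x y)) := by
    have h := (hPPO l q0 n e ψ hF).1 P R S x 0 1
    simpa using h
  have hB := (hBLK l q0 n e ψ hF _ hG).1 i (c * x) hi1 hi2
  have hli : ((l : ZMod (l ^ (n + 1)))) ^ i
      = (l : ZMod (l ^ (n + 1))) ^ (2 * i - (n + 1)) * (l : ZMod (l ^ (n + 1))) ^ (n + 1 - i) := by
    rw [← pow_add]
    congr 1
    omega
  unfold TT I0
  rw [← hB, mul_add, ← mul_assoc (((q0 * l ^ i : ℕ) : ZMod (l ^ (n + 1)))) (((q0 * l ^ i : ℕ) : ZMod (l ^ (n + 1)))),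
    hN2, zero_mul, add_zero]
  rw [Nat.cast_mul, Nat.cast_pow, hli]
  ring

end Pool.Agent.PSX
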