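import Pool.Agent.PSX.StG

/-!
# Period six, module PHI: Taylor expansion of an edge sum in the form
-/

set_option autoImplicit false

namespace Pool.Agent.PSX

open Finset (range)
open Pool.Agent.P4G (Fam QN FN FZ CC CR)
open Pool.Agent.RDF (β γ δ)

namespace M_PHI

theorem sq_zero (l q0 n i : ℕ) (hi : n + 1 ≤ 2 * i) :
    ((q0 * l ^ i : ℕ) : ZMod (l ^ (n + 1))) ^ 2 = 0 := by
  have h : l ^ (n + 1) ∣ (q0 * l ^ i) ^ 2 := by
    rw [mul_pow, ← pow_mul, mul_comm i 2]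
    exact (pow_dvd_pow l hi).mul_left _
  rw [← Nat.cast_pow]
  exact (ZMod.natCast_eq_zero_iff _ _).2 h

end M_PHI

theorem t_PHI (hPPO : Stmt_PPO) (hEFZ : Stmt_EFZ) : Stmt_PHI := by
  intro l q0 n e ψ _ hF i hi P R S P' R' S' c
  rw [hEFZ l q0 n e ψ hF, hEFZ l q0 n e ψ hF]
  unfold ED EZ
  rw [Finset.mul_sum, ← Finset.sum_add_distrib]
  refine Finset.sum_congr rfl fun x _ => ?_
  rw [Finset.mul_sum, ← Finset.sum_add_distrib]
  refine Finset.sum_congr rfl fun y _ => ?_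
  have h1 : evZ (P + (q0 * l ^ i : ℕ) * P') (R + (q0 * l ^ i : ℕ) * R')
      (S + (q0 * l ^ i : ℕ) * S') (x.val : ℤ) (y.val : ℤ) =
      evZ P R S (x.val : ℤ) (y.val : ℤ) + ((q0 * l ^ i : ℕ) : ℤ) *
        evZ P' R' S' (x.val : ℤ) (y.val : ℤ) := by
    unfold evZ
    ring
  obtain ⟨t, ht⟩ := (hPPO l q0 n e ψ hF).2.2.2.1 (q0 * l ^ i) (Dvd.intro _ rfl)
    (evZ P R S (x.val : ℤ) (y.val : ℤ)) (evZ P' R' S' (x.val : ℤ) (y.val : ℤ))
  beta_reduce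
  rw [h1, ht, M_PHI.sq_zero l q0 n i hi]
  ring

end Pool.Agent.PSX
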