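import Pool.Agent.PSX.M_LFB

set_option autoImplicit false

namespace Pool.Agent.PSX

open Finset (range)
open Pool.Agent.P4G (Fam QN FN FZ CC CR)

open M_LFB in
theorem t_RZR (hBSY : Stmt_BSY) (hUNI : Stmt_UNI) (hAFA : Stmt_AFA) (hAFB : Stmt_AFB)
    (hAFC : Stmt_AFC) (hLFB : Stmt_LFB) (hMEA : Stmt_MEA) (hCQP : Stmt_CQP) (hRED : Stmt_RED) :
    Stmt_RZR := by
  intro l q0 n e e0 ψ _ h i s hs1 hsi his τ0 γ0 μ hμ hD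
  have hf := h.fam
  have hl : (l : ℤ) ≠ 0 := by exact_mod_cast hf.hl.ne_zero
  have hLF := hLFB l q0 n e e0 ψ h i s hs1 hsi his τ0 γ0 μ hμ
  have hAC := hAFC l q0 n e e0 ψ h i s hs1 hsi his (-γ0) (μ - (q0 * l ^ s : ℕ) * γ0)
    ((1 + 4 * μ) * τ0)
  have hA := (hAFA l q0 n e e0 ψ h).1 ((q0 * l ^ s : ℕ) * γ0) μ
  have hAB := hAFB l q0 n e e0 ψ h i s hs1 his (-γ0)
    (μ - (q0 * l ^ s : ℕ) * γ0 + (1 + 4 * μ) * ((q0 * l ^ i : ℕ) * τ0))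
  obtain ⟨N, hN⟩ : ∃ N : ℤ, N = ((q0 * l ^ i : ℕ) : ℤ) := ⟨_, rfl⟩
  obtain ⟨H, hH⟩ : ∃ H : ℤ, H = ((q0 * l ^ s : ℕ) : ℤ) := ⟨_, rfl⟩
  have hNM : ((q0 * l ^ i : ℕ) : ZMod (l ^ (n + 1))) = (N : ZMod (l ^ (n + 1))) := by
    rw [hN, Int.cast_natCast]
  rw [← hN, ← hH] at hLF
  rw [← hN, ← hH] at hAC
  rw [← hH] at hA
  rw [← hN, ← hH, hNM] at hAB
  rw [← hN, ← hH]
  obtain ⟨t', ht'⟩ : ∃ t' : ℤ, t' = (l : ℤ) ^ (i - s) * τ0 := ⟨_, rfl⟩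
  rw [← ht'] at hLF
  have hτ : N * τ0 = H * t' := by
    rw [hN, hH, ht']
    push_cast
    have : (l : ℤ) ^ i = (l : ℤ) ^ s * (l : ℤ) ^ (i - s) := by rw [← pow_add]; congr 1; omega
    rw [this]; ring
  obtain ⟨τ, hτd⟩ : ∃ τ : ℤ, τ = N * τ0 := ⟨_, rfl⟩
  obtain ⟨g, hg⟩ : ∃ g : ℤ, g = H * γ0 := ⟨_, rfl⟩
  have eg : H * -γ0 = -g := by rw [hg]; ring
  have ew : μ - g + N * ((1 + 4 * μ) * τ0) = μ - g + (1 + 4 * μ) * τ := by rw [hτd]; ring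
  rw [← hτd, ← hg] at hLF
  rw [eg, ← hg, ew] at hAC
  rw [← hg] at hA
  rw [eg, ← hτd, ← hg] at hAB
  rw [← hτd, ← hg]
  -- divisibilities
  have hqlH : ((q0 * l : ℕ) : ℤ) ∣ H := by
    rw [hH]
    refine ⟨(l : ℤ) ^ (s - 1), ?_⟩
    push_cast
    have : (l : ℤ) ^ s = (l : ℤ) * (l : ℤ) ^ (s - 1) := by
      rw [← pow_succ']; congr 1; omega
    rw [this]; ring
  have dg : ((q0 * l : ℕ) : ℤ) ∣ g := hqlH.trans ⟨γ0, hg⟩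
  have dτ : ((q0 * l : ℕ) : ℤ) ∣ τ := by
    rw [hτd, hτ]; exact hqlH.trans ⟨t', rfl⟩
  have hQτ : ((QN l q0 n : ℕ) : ℤ) ∣ τ ^ 2 := by
    rw [hτd, hN]
    refine ⟨(q0 : ℤ) * (l : ℤ) ^ (2 * i - (n + 1)) * τ0 ^ 2, ?_⟩
    unfold QN
    push_cast
    have : (l : ℤ) ^ (n + 1) * (l : ℤ) ^ (2 * i - (n + 1)) = (l : ℤ) ^ i * (l : ℤ) ^ i := by
      rw [← pow_add, ← pow_add]; congr 1; omega
    linear_combination (-(q0 : ℤ) ^ 2 * τ0 ^ 2) * this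
  have hQg : ((QN l q0 n : ℕ) : ℤ) ∣ τ * g := by
    rw [hτd, hg, hN, hH]
    refine ⟨(q0 : ℤ) * τ0 * γ0, ?_⟩
    unfold QN
    push_cast
    have : (l : ℤ) ^ (n + 1) = (l : ℤ) ^ i * (l : ℤ) ^ s := by
      rw [← pow_add, his]
    rw [this]; ring
  have hq0τ : (q0 : ℤ) ∣ τ := by
    refine dvd_trans ?_ dτ
    push_cast
    exact Dvd.intro _ rfl
  -- symmetry
  have hB := hBSY l q0 n e ψ hf τ g μ hQτ hQg
  have hF := (hUNI l q0 n e e0 ψ h).2.2.1 τ hq0τ hQτ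
  have hone := (hUNI l q0 n e e0 ψ h).2.1
  rw [hF] at hB
  -- reductions
  have r0 : SX (QN l q0 n) (I0 l q0 n e ψ (μ - g + (1 + 4 * μ) * τ) (-1) 1)
      = SX (QN l q0 n) (I0 l q0 n e ψ μ (-1) 1) := by
    apply SX_congr
    intro x
    refine (hRED l q0 n e ψ hf μ (-1) 1 _ (-1) 1 x ?_ (by simp) (by simp)).1
    have e1 : μ - g + (1 + 4 * μ) * τ - μ = -1 * g + (1 + 4 * μ) * τ := by ring
    rw [e1]
    exact dvd_add (Dvd.dvd.mul_left dg _) (Dvd.dvd.mul_left dτ _)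
  have r1 : SX (QN l q0 n) (I1 l q0 n e ψ (μ - g) (-1) 1 1 0 0)
      = SX (QN l q0 n) (I1 l q0 n e ψ μ (-1) 1 1 0 0) := by
    apply SX_congr
    intro x
    refine ((hRED l q0 n e ψ hf μ (-1) 1 (μ - g) (-1) 1 x ?_ (by simp) (by simp)).2.2
      _ _ _ _ _ _ (by simp) (by simp) (by simp)).1
    have e1 : μ - g - μ = -1 * g := by ring
    rw [e1]
    exact Dvd.dvd.mul_left dg _
  -- means
  have hμl : ¬ (l : ℤ) ∣ μ := by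
    intro hd
    have h1 : IsCoprime μ (l : ℤ) := by
      have := hμ
      push_cast at this
      exact this.of_mul_right_right
    have h2 : IsUnit (l : ℤ) := h1.isUnit_of_dvd' hd dvd_rfl
    rw [Int.isUnit_iff] at h2
    have := hf.hl.two_le
    omega
  have m0 := fun x => hMEA l q0 n e e0 ψ h μ (-1) 1 1 0 0 x (by
    intro hd
    have := Int.le_of_dvd one_pos hd
    have := hf.hl.two_le
    omega)
  have m1 := fun x => hMEA l q0 n e e0 ψ h 1 (-1) μ 0 (2 * γ0) (γ0 - (1 + 4 * μ) * t') x hμl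
  have m2 := fun x => hMEA l q0 n e e0 ψ h μ (2 * μ + 1) (-μ) (γ0 - (1 + 4 * μ) * t')
    (-((2 + 4 * μ) * t')) (γ0 - t') x (by rwa [dvd_neg])
  have M0 := SX_congr (QN l q0 n) m0
  have M1 := SX_congr (QN l q0 n) m1
  have M2 := SX_congr (QN l q0 n) m2
  rw [SX_mul, SX_mul] at M0 M1 M2
  -- relations between the constants
  have z1 : FN l n e ψ μ * SX (QN l q0 n) (I0 l q0 n e ψ 1 (-1) μ)
      = SX (QN l q0 n) (I0 l q0 n e ψ μ (-1) 1) := by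
    rw [← SX_mul]
    apply SX_congr
    intro x
    have := hCQP l q0 n e e0 ψ h 1 (-1) μ μ (-1) 1 x hμ isCoprime_one_left ⟨0, by ring⟩
    rw [hone, one_mul] at this
    exact this
  have z2 : SX (QN l q0 n) (I0 l q0 n e ψ μ (2 * μ + 1) (-μ))
      = - SX (QN l q0 n) (I0 l q0 n e ψ 1 (-1) μ) := by
    have e0' : SX (QN l q0 n) (fun x => (-1 : ZMod (l ^ (n + 1))) * I0 l q0 n e ψ 1 (-1) μ x)
        = - SX (QN l q0 n) (I0 l q0 n e ψ 1 (-1) μ) := by rw [SX_mul]; ring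
    rw [← e0']
    apply SX_congr
    intro x
    have hμn : IsCoprime (-μ) ((q0 * l : ℕ) : ℤ) := IsCoprime.neg_left hμ
    have e1 := hCQP l q0 n e e0 ψ h 1 (-1) μ μ (2 * μ + 1) (-μ) x hμ hμn ⟨0, by ring⟩
    rw [hf.FN_neg] at e1
    obtain ⟨u, hu⟩ := (hUNI l q0 n e e0 ψ h).1 μ hμ
    rw [← hu] at e1
    have e2 : (u : ZMod (l ^ (n + 1))) * (I0 l q0 n e ψ 1 (-1) μ x
        + I0 l q0 n e ψ μ (2 * μ + 1) (-μ) x) = 0 := by linear_combination e1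
    have e3 : I0 l q0 n e ψ 1 (-1) μ x + I0 l q0 n e ψ μ (2 * μ + 1) (-μ) x = 0 := by
      rw [← Units.inv_mul_cancel_left u (I0 l q0 n e ψ 1 (-1) μ x
        + I0 l q0 n e ψ μ (2 * μ + 1) (-μ) x), e2, mul_zero]
    linear_combination e3
  -- names
  obtain ⟨Z, hZ⟩ : ∃ Z, Z = SX (QN l q0 n) (I0 l q0 n e ψ μ (-1) 1) := ⟨_, rfl⟩
  obtain ⟨Z1, hZ1⟩ : ∃ Z1, Z1 = SX (QN l q0 n) (I0 l q0 n e ψ 1 (-1) μ) := ⟨_, rfl⟩
  obtain ⟨X0, hX0⟩ : ∃ X0, X0 = SX (QN l q0 n) (I1 l q0 n e ψ μ (-1) 1 1 0 0) := ⟨_, rfl⟩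
  obtain ⟨J1, hJ1⟩ : ∃ J1, J1 = SX (QN l q0 n) (I1 l q0 n e ψ 1 (-1) μ 0 (2 * γ0)
    (γ0 - (1 + 4 * μ) * t')) := ⟨_, rfl⟩
  obtain ⟨J2, hJ2⟩ : ∃ J2, J2 = SX (QN l q0 n) (I1 l q0 n e ψ μ (2 * μ + 1) (-μ)
    (γ0 - (1 + 4 * μ) * t') (-((2 + 4 * μ) * t')) (γ0 - t')) := ⟨_, rfl⟩
  obtain ⟨F, hFd⟩ : ∃ F, F = FN l n e ψ μ := ⟨_, rfl⟩
  rw [r0, ← hZ] at hAB
  rw [r1, ← hX0] at hAC
  rw [← hJ1, ← hJ2] at hLF
  rw [← hZ, ← hX0] at M0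
  rw [← hZ1, ← hJ1] at M1
  rw [z2, ← hZ1, ← hJ2] at M2
  rw [← hZ, ← hZ1, ← hFd] at z1
  rw [← hZ, ← hFd, hB]
  -- the unit
  have hu : IsUnit ((1 + 4 * μ : ℤ) : ZMod (l ^ (n + 1))) := by
    rw [ZMod.coe_int_isUnit_iff_isCoprime]
    push_cast
    apply IsCoprime.pow_left
    rw [Prime.coprime_iff_not_dvd (Nat.prime_iff_prime_int.1 hf.hl)]
    exact hD
  obtain ⟨u, hu⟩ := hu
  have hu' : (u : ZMod (l ^ (n + 1))) = 1 + 4 * (μ : ZMod (l ^ (n + 1))) := by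
    rw [hu]; push_cast; ring
  have hτM : (τ : ZMod (l ^ (n + 1))) = (N : ZMod (l ^ (n + 1))) * (τ0 : ZMod (l ^ (n + 1))) := by
    rw [hτd, Int.cast_mul]
  have ht'M : (t' : ZMod (l ^ (n + 1))) = (l : ZMod (l ^ (n + 1))) ^ (i - s)
      * (τ0 : ZMod (l ^ (n + 1))) := by
    rw [ht']; push_cast; rfl
  rw [hτM] at hLF
  rw [hτM, ← ht'M]
  push_cast at M0 M1 M2 hAC hAB hLF hA
  have key : (u : ZMod (l ^ (n + 1))) * ((e0 : ZMod (l ^ (n + 1))) * (μ : ZMod (l ^ (n + 1))) * F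
        * (A3 (FZ l q0 n e ψ) τ g μ
          + (1 - 2 * (e : ZMod (l ^ (n + 1))) * ((N : ZMod (l ^ (n + 1)))
            * (τ0 : ZMod (l ^ (n + 1))))) * A3 (FZ l q0 n e ψ) (-τ) (-g)
              (μ - g + (1 + 4 * μ) * τ)))
      = (u : ZMod (l ^ (n + 1))) * (-4 * (e : ZMod (l ^ (n + 1))) * ((e0 : ZMod (l ^ (n + 1))) + 1)
        * (q0 : ZMod (l ^ (n + 1))) * (τ0 : ZMod (l ^ (n + 1))) * Z
        * ((γ0 : ZMod (l ^ (n + 1)))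
          - (1 + 2 * (μ : ZMod (l ^ (n + 1)))) * (t' : ZMod (l ^ (n + 1)))
          + (γ0 : ZMod (l ^ (n + 1))) * (μ : ZMod (l ^ (n + 1))) * F)) := by
    rw [hu']
    have c1 : A3 (FZ l q0 n e ψ) τ g μ
          + (1 - 2 * (e : ZMod (l ^ (n + 1))) * ((N : ZMod (l ^ (n + 1)))
            * (τ0 : ZMod (l ^ (n + 1))))) * A3 (FZ l q0 n e ψ) (-τ) (-g)
              (μ - g + (1 + 4 * μ) * τ)
        = 2 * (q0 : ZMod (l ^ (n + 1))) * (τ0 : ZMod (l ^ (n + 1))) * (J1 + J2)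
          - 2 * (q0 : ZMod (l ^ (n + 1))) * (γ0 : ZMod (l ^ (n + 1)))
            * ((1 + 4 * (μ : ZMod (l ^ (n + 1)))) * (τ0 : ZMod (l ^ (n + 1)))) * X0
          + 4 * (e : ZMod (l ^ (n + 1))) * (q0 : ZMod (l ^ (n + 1)))
            * (τ0 : ZMod (l ^ (n + 1))) * (γ0 : ZMod (l ^ (n + 1))) * Z := by
      linear_combination hLF + hAC + hA
        - 2 * (e : ZMod (l ^ (n + 1))) * (τ0 : ZMod (l ^ (n + 1))) * hAB
    rw [c1]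
    linear_combination ((q0 : ZMod (l ^ (n + 1))) * (τ0 : ZMod (l ^ (n + 1))) * F) * M1
      - ((q0 : ZMod (l ^ (n + 1))) * (τ0 : ZMod (l ^ (n + 1))) * F) * M2
      - ((μ : ZMod (l ^ (n + 1))) * F * (q0 : ZMod (l ^ (n + 1))) * (γ0 : ZMod (l ^ (n + 1)))
        * (τ0 : ZMod (l ^ (n + 1))) * (1 + 4 * (μ : ZMod (l ^ (n + 1))))) * M0
      + ((q0 : ZMod (l ^ (n + 1))) * (τ0 : ZMod (l ^ (n + 1))) * (-2 * (e : ZMod (l ^ (n + 1)))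
        * ((e0 : ZMod (l ^ (n + 1))) + 1) * (1 + 4 * (μ : ZMod (l ^ (n + 1))))
        * (2 * (γ0 : ZMod (l ^ (n + 1))) - (2 + 4 * (μ : ZMod (l ^ (n + 1))))
          * (t' : ZMod (l ^ (n + 1)))))) * z1
  exact (Units.mul_right_inj u).1 key

end Pool.Agent.PSX
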