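import Pool.Agent.PSX.StG

set_option autoImplicit false

/-!
# Period six, ghost line: module TDL, block sums of two forms that agree modulo `q0 l^s`
-/

namespace Pool.Agent.PSX

open Finset (range)
open Pool.Agent.P4G (Fam QN FN FZ CC CR)
open Pool.Agent.RDF (β γ δ)

namespace M_TDL

open Polynomial in
/-- the polynomial of a form -/
noncomputable def pol (P R S x : ℤ) : Polynomial ℤ :=
  C (P * x ^ 2) + C (R * x) * X - C S * X ^ 2

theorem pol_eval (P R S x y : ℤ) : (pol P R S x).eval y = evZ P R S x y := by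
  simp only [pol, evZ, Polynomial.eval_sub, Polynomial.eval_add, Polynomial.eval_mul,
    Polynomial.eval_C, Polynomial.eval_X, Polynomial.eval_pow]

theorem ev_sub (P R S P' R' S' x y h : ℤ) :
    evZ (P - h * P') (R - h * R') (S - h * S') x y = evZ P R S x y - h * evZ P' R' S' x y := by
  simp only [evZ]
  ring

/-- Taylor expansion with a polynomial rest -/
theorem taylor {l q0 n e : ℕ} {ψ : ℤ → ℤ} (hF : Fam l q0 n e ψ) (s : ℕ)
    (P R S P' R' S' x : ℤ) :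
    ∃ H : ℤ → ZMod (l ^ (n + 1)), Pol l n ψ H ∧ ∀ y : ℤ,
      FN l n e ψ (evZ P R S x y - (q0 * l ^ s : ℕ) * evZ P' R' S' x y) =
        FN l n e ψ (evZ P R S x y)
          - ((q0 * l ^ s : ℕ) : ZMod (l ^ (n + 1))) * (F1 l n e ψ (evZ P R S x y)
            * ((evZ P' R' S' x y : ℤ) : ZMod (l ^ (n + 1))))
          + ((q0 * l ^ s : ℕ) : ZMod (l ^ (n + 1))) ^ 2 * H y := by
  obtain ⟨k, hk⟩ := Polynomial.powAddExpansion (pol P R S x)
    (-(Polynomial.C (((q0 * l ^ s : ℕ) : ℤ)) * pol P' R' S' x)) e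
  refine ⟨fun y => ((ψ ((pol P R S x).eval y) : ℤ) : ZMod (l ^ (n + 1))) *
    ((((k * pol P' R' S' x ^ 2).eval y : ℤ)) : ZMod (l ^ (n + 1))),
    ⟨pol P R S x, k * pol P' R' S' x ^ 2, fun y => rfl⟩, fun y => ?_⟩
  have h1 := congrArg (Polynomial.eval y) hk
  simp only [Polynomial.eval_pow, Polynomial.eval_add, Polynomial.eval_neg, Polynomial.eval_mul,
    Polynomial.eval_C, Polynomial.eval_natCast, pol_eval] at h1
  have h2 : evZ P R S x y + -(((q0 * l ^ s : ℕ) : ℤ) * evZ P' R' S' x y) =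
      evZ P R S x y - (q0 * l ^ s : ℕ) * evZ P' R' S' x y := by ring
  rw [h2] at h1
  have h3 := congrArg (Int.cast : ℤ → ZMod (l ^ (n + 1))) h1
  have h4 : ψ (evZ P R S x y - (q0 * l ^ s : ℕ) * evZ P' R' S' x y) = ψ (evZ P R S x y) := by
    rw [← hF.ψper (evZ P R S x y) (-(((l ^ s : ℕ) : ℤ) * evZ P' R' S' x y))]
    congr 1
    push_cast
    ring
  simp only [FN, F1, pol_eval, Polynomial.eval_mul, Polynomial.eval_pow]
  rw [h4]
  rw [Int.cast_pow] at h3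
  rw [h3]
  push_cast
  ring

end M_TDL

open M_TDL in
theorem t_TDL (hBLK : Stmt_BLK) (hPPO : Stmt_PPO) : Stmt_TDL := by
  intro l q0 n e ψ hF i s hi hs his P R S P' R' S' c x
  obtain ⟨-, hP2, -, -, hP5⟩ := hPPO l q0 n e ψ hF
  obtain ⟨H, hH, hT⟩ := taylor hF s P R S P' R' S' x
  have hl0 : ((l : ZMod (l ^ (n + 1))) ^ (n + 1)) = 0 := by
    have := ZMod.natCast_self (l ^ (n + 1))
    push_cast at this
    exact this
  -- the first order part
  have hG : Pol l n ψ (fun y => F1 l n e ψ (evZ P R S x y)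
      * ((evZ P' R' S' x y : ℤ) : ZMod (l ^ (n + 1)))) := by
    have := hP2 P R S x (pol P' R' S' x)
    simpa only [pol_eval] using this
  obtain ⟨hG1, -, -⟩ := hBLK l q0 n e ψ hF _ hG
  have hG2 := hG1 i (c * x) hi (by omega)
  obtain ⟨hH1, hH2, -⟩ := hBLK l q0 n e ψ hF _ hH
  have hH3 := hH1 i (c * x) hi (by omega)
  have hns : n + 1 - i = s := by omega
  rw [hns] at hG2 hH3
  -- the end part
  obtain ⟨t, ht⟩ := hP5 (q0 * l ^ s) (Dvd.intro _ rfl) (evZ P R S x (c * x))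
    (-(evZ P' R' S' x (c * x)))
  have ht' : evZ P R S x (c * x) + ((q0 * l ^ s : ℕ) : ℤ) * -(evZ P' R' S' x (c * x)) =
      evZ P R S x (c * x) - (q0 * l ^ s : ℕ) * evZ P' R' S' x (c * x) := by ring
  rw [ht'] at ht
  have hNh : ((q0 * l ^ i : ℕ) : ZMod (l ^ (n + 1))) * ((q0 * l ^ s : ℕ) : ZMod (l ^ (n + 1))) = 0 := by
    push_cast
    have h1 : (q0 : ZMod (l ^ (n + 1))) * (l : ZMod (l ^ (n + 1))) ^ i *
        ((q0 : ZMod (l ^ (n + 1))) * (l : ZMod (l ^ (n + 1))) ^ s) =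
        (q0 : ZMod (l ^ (n + 1))) ^ 2 * (l : ZMod (l ^ (n + 1))) ^ (i + s) := by
      rw [pow_add]
      ring
    rw [h1, his, hl0, mul_zero]
  have hsum : ∑ j ∈ range (q0 * l ^ i), FN l n e ψ (evZ P R S x (c * x + j))
      - ∑ j ∈ range (q0 * l ^ i), FN l n e ψ (evZ P R S x (c * x + j)
          - (q0 * l ^ s : ℕ) * evZ P' R' S' x (c * x + j)) =
      (q0 : ZMod (l ^ (n + 1))) * I1 l q0 n e ψ P R S P' R' S' x := by
    rw [← Finset.sum_sub_distrib]
    have h1 : ∀ j ∈ range (q0 * l ^ i), FN l n e ψ (evZ P R S x (c * x + j))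
        - FN l n e ψ (evZ P R S x (c * x + j)
          - (q0 * l ^ s : ℕ) * evZ P' R' S' x (c * x + j)) =
        ((q0 * l ^ s : ℕ) : ZMod (l ^ (n + 1))) * (F1 l n e ψ (evZ P R S x (c * x + j))
            * ((evZ P' R' S' x (c * x + j) : ℤ) : ZMod (l ^ (n + 1))))
          - ((q0 * l ^ s : ℕ) : ZMod (l ^ (n + 1))) ^ 2 * H (c * x + j) := by
      intro j _
      rw [hT (c * x + j)]
      ring
    rw [Finset.sum_congr rfl h1, Finset.sum_sub_distrib, ← Finset.mul_sum, ← Finset.mul_sum]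
    have h2 : ((q0 * l ^ s : ℕ) : ZMod (l ^ (n + 1))) =
        (q0 : ZMod (l ^ (n + 1))) * (l : ZMod (l ^ (n + 1))) ^ s := by
      push_cast
      rfl
    rw [h2]
    have h3 : I1 l q0 n e ψ P R S P' R' S' x = (l : ZMod (l ^ (n + 1))) ^ s *
        ∑ j ∈ range (q0 * l ^ i), F1 l n e ψ (evZ P R S x (c * x + j))
            * ((evZ P' R' S' x (c * x + j) : ℤ) : ZMod (l ^ (n + 1))) := by
      rw [hG2]
      rfl
    obtain ⟨s', hs'⟩ : ∃ s', s = s' + 1 := ⟨s - 1, by omega⟩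
    have h4 : ((l : ZMod (l ^ (n + 1))) ^ s) * ((l : ZMod (l ^ (n + 1))) ^ s *
        ∑ j ∈ range (q0 * l ^ i), H (c * x + j)) = 0 := by
      have h5 : (l : ZMod (l ^ (n + 1))) ^ s =
          (l : ZMod (l ^ (n + 1))) ^ s' * (l : ZMod (l ^ (n + 1))) := by
        rw [hs', pow_succ (l : ZMod (l ^ (n + 1))) s']
      rw [hH3, h5, mul_assoc, hH2, mul_zero]
    rw [h3]
    linear_combination (-(q0 : ZMod (l ^ (n + 1))) ^ 2) * h4
  have e1 : (P - (q0 * l ^ s : ℕ) * P') = P - ((q0 * l ^ s : ℕ) : ℤ) * P' := rfl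
  simp only [TT, ev_sub]
  rw [ht]
  have hcast : ((q0 * l ^ i : ℕ) : ZMod (l ^ (n + 1))) *
      (F1 l n e ψ (evZ P R S x (c * x)) *
        ((R * x - 2 * S * (c * x) : ℤ) : ZMod (l ^ (n + 1)))) -
      ((q0 * l ^ i : ℕ) : ZMod (l ^ (n + 1))) *
      ((F1 l n e ψ (evZ P R S x (c * x)) + ((q0 * l ^ s : ℕ) : ZMod (l ^ (n + 1))) * t) *
        (((R - (q0 * l ^ s : ℕ) * R') * x - 2 * (S - (q0 * l ^ s : ℕ) * S') * (c * x) : ℤ) :
          ZMod (l ^ (n + 1)))) = 0 := by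
    have h5 : (((R - (q0 * l ^ s : ℕ) * R') * x - 2 * (S - (q0 * l ^ s : ℕ) * S') * (c * x) : ℤ) :
          ZMod (l ^ (n + 1))) = ((R * x - 2 * S * (c * x) : ℤ) : ZMod (l ^ (n + 1))) -
        ((q0 * l ^ s : ℕ) : ZMod (l ^ (n + 1))) * ((R' * x - 2 * S' * (c * x) : ℤ) :
          ZMod (l ^ (n + 1))) := by
      push_cast
      ring
    rw [h5]
    linear_combination (F1 l n e ψ (evZ P R S x (c * x)) * ((R' * x - 2 * S' * (c * x) : ℤ) :
          ZMod (l ^ (n + 1))) - t * (((R * x - 2 * S * (c * x) : ℤ) : ZMod (l ^ (n + 1))) -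
        ((q0 * l ^ s : ℕ) : ZMod (l ^ (n + 1))) * ((R' * x - 2 * S' * (c * x) : ℤ) :
          ZMod (l ^ (n + 1))))) * hNh
  linear_combination 2 * hsum + hcast

end Pool.Agent.PSX
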