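import Pool.Agent.PSX.StG

set_option autoImplicit false

namespace Pool.Agent.PSX

open Finset (range)
open Pool.Agent.P4G (Fam QN FN FZ CC CR)
open Pool.Agent.RDF (β γ δ)

namespace M_VFO

/-- the value of the family as the cast of an integer -/
lemma FN_cast (l n e : ℕ) (ψ : ℤ → ℤ) (u : ℤ) :
    FN l n e ψ u = ((ψ u * u ^ e : ℤ) : ZMod (l ^ (n + 1))) := by
  unfold FN
  push_cast
  ring

/-- the discriminant of the ghost -/
lemma nr_ghost (hCYA : Stmt_CYA) (hNRT : Stmt_NRT) (a b c B m r p α β' : ℤ)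
    (hcl : Cl a b c B m r p) (hnr : Nr (B ^ 2 + 4 * m))
    (ha : a - 1 = 1365 * α) (hb : b + 1 = 1365 * β') : Nr ((c - 2) ^ 2 + 4 * m) := by
  obtain ⟨y, hy, -⟩ := hCYA 1365 13 a b c B m r p α β' (by norm_num) (by norm_num) hcl
    (by push_cast; exact ha) (by push_cast; exact hb)
  refine hNRT _ _ ?_ hnr
  refine ⟨y * (B + (c - 2)), ?_⟩
  push_cast at hy
  rw [hy]
  ring

/-- the last step, in the field with thirteen elements -/
lemma last_step (x z y K L α β' κ : ZMod 13) (hκ : κ ≠ 0)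
    (h1 : y * (x * z) + 2 * (κ * α) * z + 2 * (κ * β') * x = 0)
    (h2 : y = K * (κ * α) - L * (κ * β')) :
    x * z * (K * α - L * β') + 2 * α * z + 2 * β' * x = 0 := by
  have hp : Fact (Nat.Prime 13) := ⟨by norm_num⟩
  have h3 : κ * (x * z * (K * α - L * β') + 2 * α * z + 2 * β' * x) = 0 := by
    rw [h2] at h1
    linear_combination h1
  rcases mul_eq_zero.1 h3 with h | h
  · exact absurd h hκ
  · exact h

end M_VFO

open M_VFO in
theorem t_VFO (hCYA : Stmt_CYA) (hFST : Stmt_FST) (hVAN : Stmt_VAN) (hNRC : Stmt_NRC)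
    (hNRT : Stmt_NRT) : Stmt_VFO := by
  intro q0 e0 k χ hq hfam a b c B m r p α1 β1 n hcl hnr hrel ha hb
  obtain ⟨e, ψ, hFm, -, hχ, hCR⟩ := hfam n
  obtain ⟨κ, hκ⟩ := hq
  let _ : NeZero (QN 13 q0 n) := hFm.fam.ne
  have hQ : 0 < QN 13 q0 n := Nat.pos_of_ne_zero (NeZero.ne _)
  have hκ' : (105 : ℤ) = q0 * κ := by exact_mod_cast hκ
  -- the nonresidue condition at the ghost
  have hN : Nr ((c - 2) ^ 2 + 4 * m) :=
    nr_ghost hCYA hNRT a b c B m r p (13 ^ n * α1) (13 ^ n * β1) hcl hnr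
      (by rw [ha]; ring) (by rw [hb]; ring)
  obtain ⟨hm1, hr1, -⟩ := hNRC c m hN
  have hdvd : ((q0 * 13 : ℕ) : ℤ) ∣ 1365 := by
    refine ⟨κ, ?_⟩
    push_cast
    linear_combination 13 * hκ'
  have hm : IsCoprime m ((q0 * 13 : ℕ) : ℤ) := IsCoprime.of_isCoprime_of_dvd_right hm1 hdvd
  have hr : IsCoprime (c - 1 - m) ((q0 * 13 : ℕ) : ℤ) :=
    IsCoprime.of_isCoprime_of_dvd_right hr1 hdvd
  have ha' : a - 1 = (QN 13 q0 n : ℕ) * ((κ : ℤ) * α1) := by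
    unfold QN
    push_cast
    rw [ha]
    linear_combination (13 ^ (n + 1) * α1) * hκ'
  have hb' : b + 1 = (QN 13 q0 n : ℕ) * ((κ : ℤ) * β1) := by
    unfold QN
    push_cast
    rw [hb]
    linear_combination (13 ^ (n + 1) * β1) * hκ'
  obtain ⟨y, hy, hy13, hrr, hpp, hss⟩ := hCYA (QN 13 q0 n) 13 a b c B m r p ((κ : ℤ) * α1)
    ((κ : ℤ) * β1) hQ (by unfold QN; exact Dvd.dvd.mul_left (dvd_pow_self 13 (Nat.succ_ne_zero n)) q0)
    hcl ha' hb'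
  have key := hFST 13 q0 n e e0 ψ hFm a b c B m r p ((κ : ℤ) * α1) ((κ : ℤ) * β1) y hm hr ha' hb' hy
    hrr hpp hss
  have hR : R6 (FZ 13 q0 n e ψ) a b c B m r p = 0 := hrel q0 n e e0 ψ ⟨κ, hκ⟩ hFm
  rw [hR, mul_zero, FN_cast, FN_cast] at key
  have hX : (13 : ℤ) ∣ y * ((ψ m * m ^ e) * (ψ (c - 1 - m) * (c - 1 - m) ^ e))
      + 2 * (κ * α1) * (ψ (c - 1 - m) * (c - 1 - m) ^ e) + 2 * (κ * β1) * (ψ m * m ^ e) := by
    refine hVAN 13 q0 n e ψ hFm.fam m (c - 2) 1 _ isCoprime_one_left ?_ ?_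
    · rw [mul_one]
      exact hCR _ hN
    · rw [key]
      congr 1
      push_cast
      ring
  -- reduce modulo thirteen
  have hX' := (ZMod.intCast_zmod_eq_zero_iff_dvd _ 13).2 hX
  have hy' := (ZMod.intCast_zmod_eq_zero_iff_dvd _ 13).2 hy13
  have f1 : ((ψ m * m ^ e : ℤ) : ZMod 13) = χ m := hχ m
  have f2 : ((ψ (c - 1 - m) * (c - 1 - m) ^ e : ℤ) : ZMod 13) = χ (c - 1 - m) := hχ (c - 1 - m)
  have hX2 : (y : ZMod 13) * (χ m * χ (c - 1 - m)) + 2 * ((κ : ZMod 13) * α1) * χ (c - 1 - m)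
      + 2 * ((κ : ZMod 13) * β1) * χ m = 0 := by
    rw [← f1, ← f2, ← hX']
    push_cast
    ring
  have hκ13 : (κ : ZMod 13) ≠ 0 := by
    intro h0
    have h1 : (13 : ℕ) ∣ κ := (ZMod.natCast_eq_zero_iff κ 13).1 h0
    have h2 : (13 : ℕ) ∣ 105 := by rw [hκ]; exact Dvd.dvd.mul_left h1 q0
    norm_num at h2
  have hy2 : (y : ZMod 13) = (((c - 2) ^ 2 + 2 * m : ℤ) : ZMod 13) * ((κ : ZMod 13) * α1)
      - (((c - 2) ^ 2 + 2 * m + 2 * (c - 1) : ℤ) : ZMod 13) * ((κ : ZMod 13) * β1) := by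
    push_cast at hy' ⊢
    linear_combination hy'
  have fin := last_step (χ m) (χ (c - 1 - m)) y _ _ α1 β1 κ hκ13 hX2 hy2
  unfold FO
  push_cast at fin ⊢
  linear_combination fin

end Pool.Agent.PSX
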