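import Pool.Agent.PSX.StG

/-!
# Period six, module VSO: one step of second order
-/

set_option autoImplicit false

namespace Pool.Agent.PSX

open Finset (range)
open Pool.Agent.P4G (Fam QN FN FZ CC CR)
open Pool.Agent.RDF (β γ δ)

namespace M_VSO

/-- the bracket as an integer -/
def Xz (e0 e : ℕ) (f m δ1 C A : ℤ) : ℤ :=
  (e0 : ℤ) * m * ((1 + 2 * m) * f + 2) * δ1
    + (-2 * (e0 : ℤ) * m * f - 2 * (e : ℤ) * (e0 + 1) * (m * f + 1)) * C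
    + (-2 * m ^ 2 * e0 * f + 2 * (e : ℤ) * (e0 + 1) * (1 + 2 * m)) * A

end M_VSO

open M_VSO

theorem t_VSO (hCYB : Stmt_CYB) (hSEC : Stmt_SEC) (hVAN : Stmt_VAN) (hNRC : Stmt_NRC)
    (hNRT : Stmt_NRT) : Stmt_VSO := by
  intro q0 e0 k χ hq0 hfam a b c B m r p γ0 τ0 δ1 n i s hcl hnr hrel hs1 hsi his hc ha hδ
  obtain ⟨κ, hκ⟩ := hq0
  obtain ⟨e, ψ, hFm, hek, hfb, hCR⟩ := hfam n
  have hn1 : 1 ≤ n := by omega
  have hek := hek hn1
  haveI : NeZero (QN 13 q0 n) := hFm.fam.ne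
  have hQpos : 0 < QN 13 q0 n := Nat.pos_of_ne_zero (NeZero.ne _)
  have hκz : (105 : ℤ) = (q0 : ℤ) * (κ : ℤ) := by exact_mod_cast hκ
  -- the discriminant
  have hQ105 : 0 < QN 13 105 n := by unfold QN; positivity
  obtain ⟨y', hy', -⟩ := hCYB 13 105 n i s a b c B m r p γ0 τ0 δ1 hQ105 hs1 hsi his hcl
    (by rw [hc]; push_cast; ring) (by rw [ha]; push_cast; ring)
    (by rw [hδ]; unfold QN; push_cast; ring)
  have h13s : (1365 : ℤ) ∣ c - 1 := by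
    rw [hc]
    obtain ⟨s', rfl⟩ : ∃ s', s = s' + 1 := ⟨s - 1, by omega⟩
    exact ⟨13 ^ s' * γ0, by ring⟩
  have h13Q : (1365 : ℤ) ∣ ((QN 13 105 n : ℕ) : ℤ) * y' :=
    ⟨13 ^ n * y', by unfold QN; push_cast; ring⟩
  have hB1 : (1365 : ℤ) ∣ B + 1 := by
    have : B + 1 = (c - 1) + ((QN 13 105 n : ℕ) : ℤ) * y' := by rw [hy']; ring
    rw [this]; exact dvd_add h13s h13Q
  have hnr1 : Nr (1 + 4 * m) := by
    refine hNRT (B ^ 2 + 4 * m) (1 + 4 * m) ?_ hnr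
    have : B ^ 2 + 4 * m - (1 + 4 * m) = (B + 1) * (B - 1) := by ring
    rw [this]; exact Dvd.dvd.mul_right hB1 _
  have hnr2 : Nr ((1 - 2 : ℤ) ^ 2 + 4 * m) := by
    have : ((1 - 2 : ℤ) ^ 2 + 4 * m) = 1 + 4 * m := by ring
    rw [this]; exact hnr1
  obtain ⟨hm1, -, hm3⟩ := hNRC 1 m hnr2
  have hcop : IsCoprime m ((q0 * 13 : ℕ) : ℤ) := by
    have h1 : ((q0 * 13 : ℕ) : ℤ) ∣ 1365 := ⟨κ, by push_cast; linear_combination 13 * hκz⟩
    exact IsCoprime.of_isCoprime_of_dvd_right hm1 h1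
  have h13m : ¬ ((13 : ℕ) : ℤ) ∣ 1 + 4 * m := by
    intro h
    apply hm3
    have : ((1 - 2 : ℤ) ^ 2 + 4 * m) = 1 + 4 * m := by ring
    rw [this]; exact_mod_cast h
  -- the cycle
  have hc' : c - 1 = (q0 * 13 ^ s : ℕ) * (κ * γ0) := by
    rw [hc]; push_cast; linear_combination (13 ^ s * γ0) * hκz
  have ha' : a - 1 = (q0 * 13 ^ i : ℕ) * (κ * τ0) := by
    rw [ha]; push_cast; linear_combination (13 ^ i * τ0) * hκz
  have hδ' : (a - 1) - (b + 1) = (QN 13 q0 n : ℕ) * (κ * δ1) := by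
    rw [hδ]; unfold QN; push_cast; linear_combination (13 ^ (n + 1) * δ1) * hκz
  obtain ⟨y, hy, hy2, hr, hp, hs⟩ := hCYB 13 q0 n i s a b c B m r p (κ * γ0) (κ * τ0) (κ * δ1)
    hQpos hs1 hsi his hcl hc' ha' hδ'
  have hsec := hSEC 13 q0 n e e0 ψ hFm i s hs1 hsi his a b c B m r p (κ * γ0) (κ * τ0) (κ * δ1) y
    hcop h13m hc' ha' hδ' hy hy2 hr hp hs
  have hR6 : R6 (FZ 13 q0 n e ψ) a b c B m r p = 0 := hrel q0 n e e0 ψ ⟨κ, hκ⟩ hFm
  rw [hR6, mul_zero] at hsec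
  have hdiv := hVAN 13 q0 n e ψ hFm.fam m (-1) 1
    (Xz e0 e (ψ m * m ^ e) m (κ * δ1) (q0 * (κ * γ0) * (κ * τ0))
      (q0 * 13 ^ (i - s) * (κ * τ0) ^ 2)) isCoprime_one_left (by
      have : ((-1 : ℤ) ^ 2 + 4 * m * 1) = 1 + 4 * m := by ring
      rw [this]; exact_mod_cast hCR _ hnr1) (by
      rw [hsec]
      congr 1
      unfold Xz FN
      push_cast
      ring)
  have hz : ((Xz e0 e (ψ m * m ^ e) m (κ * δ1) (q0 * (κ * γ0) * (κ * τ0))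
      (q0 * 13 ^ (i - s) * (κ * τ0) ^ 2) : ℤ) : ZMod 13) = 0 := by
    exact (ZMod.intCast_zmod_eq_zero_iff_dvd _ 13).2 hdiv
  have hf : (((ψ m * m ^ e : ℤ)) : ZMod 13) = χ m := hfb m
  have hek' : (e : ZMod 13) = (k : ZMod 13) := by
    rw [← hek]; exact (ZMod.natCast_mod e 13).symm
  have hκ13 : ((q0 : ZMod 13) * (κ : ZMod 13)) = 105 := by
    have h := congrArg (fun t : ℕ => (t : ZMod 13)) hκ
    push_cast at h
    exact h.symm
  have key : (κ : ZMod 13) * SO e0 k χ m δ1 (105 * γ0 * τ0) (105 * 13 ^ (i - s) * τ0 ^ 2) = 0 := by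
    rw [← hz]
    unfold Xz SO
    rw [← hf, ← hek']
    push_cast
    rw [← hκ13]
    ring
  have hunit : IsUnit (κ : ZMod 13) := by
    rw [ZMod.isUnit_iff_coprime]
    refine Nat.Coprime.coprime_dvd_left (⟨q0, by rw [hκ]; ring⟩ : κ ∣ 105) (by norm_num)
  exact (hunit.mul_right_eq_zero).1 key

end Pool.Agent.PSX
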