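import Pool.Agent.PSX.StG

/-!
# Period six: nonresidue discriminants
-/

set_option autoImplicit false

namespace Pool.Agent.PSX

theorem cop_of {q : ℕ} (hq : q.Prime) {m : ℤ} (h : ((m : ℤ) : ZMod q) ≠ 0) :
    IsCoprime m (q : ℤ) := by
  rw [isCoprime_comm]
  refine (Irreducible.coprime_iff_not_dvd (Nat.prime_iff_prime_int.1 hq).irreducible).2 ?_
  intro hd
  exact h ((ZMod.intCast_zmod_eq_zero_iff_dvd m q).2 hd)

theorem cop1365 {m : ℤ} (h3 : ((m : ℤ) : ZMod 3) ≠ 0) (h5 : ((m : ℤ) : ZMod 5) ≠ 0)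
    (h7 : ((m : ℤ) : ZMod 7) ≠ 0) (h13 : ((m : ℤ) : ZMod 13) ≠ 0) : IsCoprime m 1365 := by
  have e : (1365 : ℤ) = ((3 : ℕ) : ℤ) * ((5 : ℕ) : ℤ) * ((7 : ℕ) : ℤ) * ((13 : ℕ) : ℤ) := by
    norm_num
  rw [e]
  exact ((((cop_of (by norm_num) h3).mul_right (cop_of (by norm_num) h5)).mul_right
    (cop_of (by norm_num) h7)).mul_right (cop_of (by norm_num) h13))

theorem t_NRC : Stmt_NRC := by
  intro c m hN
  obtain ⟨h3, h5, h7, h13⟩ := hN
  push_cast at h3 h5 h7 h13
  refine ⟨cop1365 ?_ ?_ ?_ ?_, cop1365 ?_ ?_ ?_ ?_, ?_⟩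
  · intro h
    rw [h] at h3
    revert h3
    generalize (c : ZMod 3) = x
    revert x
    decide
  · intro h
    rw [h] at h5
    revert h5
    generalize (c : ZMod 5) = x
    revert x
    decide
  · intro h
    rw [h] at h7
    revert h7
    generalize (c : ZMod 7) = x
    revert x
    decide
  · intro h
    rw [h] at h13
    revert h13
    generalize (c : ZMod 13) = x
    revert x
    decide
  · intro h
    push_cast at h
    have e : (m : ZMod 3) = (c : ZMod 3) - 1 := (sub_eq_zero.1 h).symm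
    rw [e] at h3
    revert h3
    generalize (c : ZMod 3) = x
    revert x
    decide
  · intro h
    push_cast at h
    have e : (m : ZMod 5) = (c : ZMod 5) - 1 := (sub_eq_zero.1 h).symm
    rw [e] at h5
    revert h5
    generalize (c : ZMod 5) = x
    revert x
    decide
  · intro h
    push_cast at h
    have e : (m : ZMod 7) = (c : ZMod 7) - 1 := (sub_eq_zero.1 h).symm
    rw [e] at h7
    revert h7
    generalize (c : ZMod 7) = x
    revert x
    decide
  · intro h
    push_cast at h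
    have e : (m : ZMod 13) = (c : ZMod 13) - 1 := (sub_eq_zero.1 h).symm
    rw [e] at h13
    revert h13
    generalize (c : ZMod 13) = x
    revert x
    decide
  · intro hd
    have h : (((c - 2) ^ 2 + 4 * m : ℤ) : ZMod 13) = 0 :=
      (ZMod.intCast_zmod_eq_zero_iff_dvd _ 13).2 hd
    push_cast at h
    rw [h] at h13
    revert h13
    decide

end Pool.Agent.PSX
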