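import Pool.Agent.PSX.StG

/-!
# Period six: transport of the nonresidue condition
-/

set_option autoImplicit false

namespace Pool.Agent.PSX

theorem t_NRT : Stmt_NRT := by
  intro D E h hD
  have key : ∀ q : ℕ, (q : ℤ) ∣ 1365 → ((D : ℤ) : ZMod q) = ((E : ℤ) : ZMod q) := by
    intro q hq
    rw [ZMod.intCast_eq_intCast_iff_dvd_sub]
    have h2 := hq.trans h
    have h3 : E - D = -(D - E) := by ring
    rw [h3]
    exact (dvd_neg).2 h2
  have k3 := key 3 (by norm_num)
  have k5 := key 5 (by norm_num)
  have k7 := key 7 (by norm_num)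
  have k13 := key 13 (by norm_num)
  obtain ⟨h1, h2, h3, h4⟩ := hD
  constructor <;> simp_all
end Pool.Agent.PSX
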