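import Pool.Agent.PSX.StG

/-!
Period six, first order: the five families give two independent equations for every class which
is not one modulo `1365`.
-/

set_option autoImplicit false

namespace Pool.Agent.PSX

namespace RKA26

/-- classes modulo three: `c`, the inverse characters at `m` and at `c - 1 - m` -/
def l3 : List (ℕ × ℕ × ℕ) := [
  (0, 1, 1), (1, 1, 12), (2, 12, 12)]

/-- classes modulo five -/
def l5 : List (ℕ × (ℕ × ℕ × ℕ) × (ℕ × ℕ × ℕ)) := [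
  (0, (1, 1, 1), (12, 5, 8)), (0, (12, 8, 5), (12, 8, 5)), (1, (12, 5, 8), (12, 8, 5)),
  (1, (1, 12, 12), (1, 1, 1)), (2, (12, 8, 5), (1, 12, 12)), (2, (12, 5, 8), (12, 5, 8)),
  (3, (12, 5, 8), (1, 12, 12)), (3, (1, 12, 12), (12, 5, 8)), (4, (1, 1, 1), (12, 8, 5)),
  (4, (12, 8, 5), (1, 1, 1))]

/-- classes modulo seven -/
def l7 : List (ℕ × (ℕ × ℕ × ℕ × ℕ) × (ℕ × ℕ × ℕ × ℕ)) := [
  (0, (3, 9, 3, 9), (9, 3, 9, 3)), (0, (9, 3, 9, 3), (3, 9, 3, 9)),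
  (0, (10, 4, 3, 9), (1, 1, 1, 1)), (1, (1, 1, 1, 1), (12, 12, 1, 1)),
  (1, (4, 10, 9, 3), (9, 3, 9, 3)), (1, (9, 3, 9, 3), (4, 10, 9, 3)),
  (2, (4, 10, 9, 3), (10, 4, 3, 9)), (2, (10, 4, 3, 9), (4, 10, 9, 3)),
  (2, (12, 12, 1, 1), (3, 9, 3, 9)), (3, (1, 1, 1, 1), (1, 1, 1, 1)),
  (3, (4, 10, 9, 3), (12, 12, 1, 1)), (3, (9, 3, 9, 3), (10, 4, 3, 9)),
  (4, (3, 9, 3, 9), (1, 1, 1, 1)), (4, (9, 3, 9, 3), (12, 12, 1, 1)),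
  (4, (10, 4, 3, 9), (10, 4, 3, 9)), (5, (1, 1, 1, 1), (4, 10, 9, 3)),
  (5, (3, 9, 3, 9), (3, 9, 3, 9)), (5, (12, 12, 1, 1), (10, 4, 3, 9)),
  (6, (1, 1, 1, 1), (9, 3, 9, 3)), (6, (3, 9, 3, 9), (4, 10, 9, 3)),
  (6, (12, 12, 1, 1), (12, 12, 1, 1))]

/-- classes modulo thirteen -/
def l13 : List (ℕ × ℕ × (ℕ × ℕ × ℕ) × (ℕ × ℕ × ℕ)) := [
  (0, 6, (1, 1, 1), (11, 3, 5)), (0, 12, (4, 9, 12), (8, 1, 5)), (0, 1, (5, 1, 8), (7, 9, 5)),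
  (0, 3, (6, 9, 8), (6, 9, 8)), (0, 5, (7, 9, 5), (5, 1, 8)), (0, 11, (10, 3, 12), (2, 3, 8)),
  (1, 3, (1, 1, 1), (12, 1, 12)), (1, 11, (5, 1, 8), (8, 1, 5)), (1, 4, (8, 1, 5), (5, 1, 8)),
  (1, 6, (9, 9, 1), (4, 9, 12)), (1, 8, (10, 3, 12), (3, 3, 1)), (1, 10, (11, 3, 5), (2, 3, 8)),
  (2, 4, (2, 3, 8), (12, 1, 12)), (2, 10, (5, 1, 8), (9, 9, 1)), (2, 12, (6, 9, 8), (8, 1, 5)),
  (2, 1, (7, 9, 5), (7, 9, 5)), (2, 3, (8, 1, 5), (6, 9, 8)), (2, 9, (11, 3, 5), (3, 3, 1)),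
  (3, 3, (1, 1, 1), (1, 1, 1)), (3, 11, (5, 1, 8), (10, 3, 12)), (3, 4, (8, 1, 5), (7, 9, 5)),
  (3, 6, (9, 9, 1), (6, 9, 8)), (3, 8, (10, 3, 12), (5, 1, 8)), (3, 10, (11, 3, 5), (4, 9, 12)),
  (4, 6, (1, 1, 1), (2, 3, 8)), (4, 12, (4, 9, 12), (12, 1, 12)), (4, 1, (5, 1, 8), (11, 3, 5)),
  (4, 3, (6, 9, 8), (10, 3, 12)), (4, 5, (7, 9, 5), (9, 9, 1)), (4, 11, (10, 3, 12), (6, 9, 8)),
  (5, 2, (3, 3, 1), (1, 1, 1)), (5, 8, (6, 9, 8), (11, 3, 5)), (5, 10, (7, 9, 5), (10, 3, 12)),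
  (5, 12, (8, 1, 5), (9, 9, 1)), (5, 1, (9, 9, 1), (8, 1, 5)), (5, 7, (12, 1, 12), (5, 1, 8)),
  (6, 5, (1, 1, 1), (4, 9, 12)), (6, 7, (2, 3, 8), (3, 3, 1)), (6, 9, (3, 3, 1), (2, 3, 8)),
  (6, 11, (4, 9, 12), (1, 1, 1)), (6, 4, (7, 9, 5), (11, 3, 5)), (6, 12, (11, 3, 5), (7, 9, 5)),
  (7, 3, (2, 3, 8), (4, 9, 12)), (7, 5, (3, 3, 1), (3, 3, 1)), (7, 7, (4, 9, 12), (2, 3, 8)),
  (7, 9, (5, 1, 8), (1, 1, 1)), (7, 2, (8, 1, 5), (11, 3, 5)), (7, 10, (12, 1, 12), (7, 9, 5)),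
  (8, 1, (2, 3, 8), (5, 1, 8)), (8, 9, (6, 9, 8), (1, 1, 1)), (8, 2, (9, 9, 1), (11, 3, 5)),
  (8, 4, (10, 3, 12), (10, 3, 12)), (8, 6, (11, 3, 5), (9, 9, 1)),
  (8, 8, (12, 1, 12), (8, 1, 5)), (9, 1, (2, 3, 8), (6, 9, 8)), (9, 9, (6, 9, 8), (2, 3, 8)),
  (9, 2, (9, 9, 1), (12, 1, 12)), (9, 4, (10, 3, 12), (11, 3, 5)),
  (9, 6, (11, 3, 5), (10, 3, 12)), (9, 8, (12, 1, 12), (9, 9, 1)), (10, 3, (2, 3, 8), (7, 9, 5)),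
  (10, 5, (3, 3, 1), (6, 9, 8)), (10, 7, (4, 9, 12), (5, 1, 8)), (10, 9, (5, 1, 8), (4, 9, 12)),
  (10, 2, (8, 1, 5), (1, 1, 1)), (10, 10, (12, 1, 12), (10, 3, 12)),
  (11, 5, (1, 1, 1), (9, 9, 1)), (11, 7, (2, 3, 8), (8, 1, 5)), (11, 9, (3, 3, 1), (7, 9, 5)),
  (11, 11, (4, 9, 12), (6, 9, 8)), (11, 4, (7, 9, 5), (3, 3, 1)),
  (11, 12, (11, 3, 5), (12, 1, 12)), (12, 2, (3, 3, 1), (8, 1, 5)),
  (12, 8, (6, 9, 8), (5, 1, 8)), (12, 10, (7, 9, 5), (4, 9, 12)), (12, 12, (8, 1, 5), (3, 3, 1)),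
  (12, 1, (9, 9, 1), (2, 3, 8)), (12, 7, (12, 1, 12), (12, 1, 12))]

/-- nonzero modulo thirteen -/
def nz (n : ℕ) : Bool := Nat.ble 1 (n % 13)

/-- the determinant of two rows -/
def dt (K c s t s' t' : ℕ) : ℕ :=
  (K + 2 * s) * (K + 2 * c + 24 + 11 * t') + 12 * ((K + 2 * s') * (K + 2 * c + 24 + 11 * t))

/-- the check for one class -/
def innr (A : ℕ × ℕ × ℕ) (B : ℕ × (ℕ × ℕ × ℕ) × (ℕ × ℕ × ℕ))
    (C : ℕ × (ℕ × ℕ × ℕ × ℕ) × (ℕ × ℕ × ℕ × ℕ)) (E : ℕ × ℕ × (ℕ × ℕ × ℕ) × (ℕ × ℕ × ℕ)) : Bool :=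
  match A, B, C, E with
  | (c3, x3, y3), (c5, (x5, xa, xb), (y5, ya, yb)),
    (c7, (xs, xS, xc, xC), (ys, yS, yc, yC)), (c, K, (m1, m4, m3), (n1, n4, n3)) =>
    (Nat.beq c3 1 && Nat.beq c5 1 && Nat.beq c7 1 && Nat.beq c 1) ||
    nz (dt K c (x3 * xa * m1) (y3 * ya * n1) (x5 * xs * m4) (y5 * ys * n4)) ||
    nz (dt K c (x3 * xa * m1) (y3 * ya * n1) (x3 * x5 * xS * m1) (y3 * y5 * yS * n1)) ||
    nz (dt K c (x5 * xs * m4) (y5 * ys * n4) (x3 * x5 * xS * m1) (y3 * y5 * yS * n1)) ||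
    nz (dt K c (x3 * xa * m1) (y3 * ya * n1) (x3 * xa * xc * m3) (y3 * ya * yc * n3)) ||
    nz (dt K c (x5 * xs * m4) (y5 * ys * n4) (x3 * xa * xc * m3) (y3 * ya * yc * n3)) ||
    nz (dt K c (x3 * xa * m1) (y3 * ya * n1) (x3 * xb * xC * m1) (y3 * yb * yC * n1)) ||
    nz (dt K c (x5 * xs * m4) (y5 * ys * n4) (x3 * xb * xC * m1) (y3 * yb * yC * n1))

/-- the check for all classes -/
def chk1 : Bool := l3.all fun A => l5.all fun B => l7.all fun C => l13.all fun E => innr A B C E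

lemma chk1_true : chk1 = true := by decide +kernel

lemma chk1_sound {A : ℕ × ℕ × ℕ} {B : ℕ × (ℕ × ℕ × ℕ) × (ℕ × ℕ × ℕ)}
    {C : ℕ × (ℕ × ℕ × ℕ × ℕ) × (ℕ × ℕ × ℕ × ℕ)} {E : ℕ × ℕ × (ℕ × ℕ × ℕ) × (ℕ × ℕ × ℕ)}
    (hA : A ∈ l3) (hB : B ∈ l5) (hC : C ∈ l7) (hE : E ∈ l13) : innr A B C E = true := by
  have h := chk1_true
  unfold chk1 at h
  rw [List.all_eq_true] at h
  have h2 := h A hA
  rw [List.all_eq_true] at h2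
  have h3 := h2 B hB
  rw [List.all_eq_true] at h3
  have h4 := h3 C hC
  rw [List.all_eq_true] at h4
  exact h4 E hE

lemma ex3 : ∀ c m : ZMod 3, (c - 2) ^ 2 + 4 * m = -1 → ∃ A ∈ l3, ((A.1 : ℕ) : ZMod 3) = c ∧
    ((A.2.1 : ℕ) : ZMod 13) * v3 m = 1 ∧
    ((A.2.2 : ℕ) : ZMod 13) * v3 (c - 1 - m) = 1 := by decide +kernel

lemma ex5 : ∀ c m : ZMod 5, ((c - 2) ^ 2 + 4 * m) ^ 2 = -1 → ∃ A ∈ l5,
    ((A.1 : ℕ) : ZMod 5) = c ∧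
    (((A.2.1.1 : ℕ) : ZMod 13) * v5 m ^ 2 = 1 ∧
    ((A.2.1.2.1 : ℕ) : ZMod 13) * v5 m ^ 3 = 1 ∧
    ((A.2.1.2.2 : ℕ) : ZMod 13) * v5 m = 1) ∧
    (((A.2.2.1 : ℕ) : ZMod 13) * v5 (c - 1 - m) ^ 2 = 1 ∧
    ((A.2.2.2.1 : ℕ) : ZMod 13) * v5 (c - 1 - m) ^ 3 = 1 ∧
    ((A.2.2.2.2 : ℕ) : ZMod 13) * v5 (c - 1 - m) = 1) := by decide +kernel

lemma ex7 : ∀ c m : ZMod 7, ((c - 2) ^ 2 + 4 * m) ^ 3 = -1 → ∃ A ∈ l7,
    ((A.1 : ℕ) : ZMod 7) = c ∧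
    (((A.2.1.1 : ℕ) : ZMod 13) * v7 m ^ 5 = 1 ∧
    ((A.2.1.2.1 : ℕ) : ZMod 13) * v7 m = 1 ∧
    ((A.2.1.2.2.1 : ℕ) : ZMod 13) * v7 m ^ 2 = 1 ∧
    ((A.2.1.2.2.2 : ℕ) : ZMod 13) * v7 m ^ 4 = 1) ∧
    (((A.2.2.1 : ℕ) : ZMod 13) * v7 (c - 1 - m) ^ 5 = 1 ∧
    ((A.2.2.2.1 : ℕ) : ZMod 13) * v7 (c - 1 - m) = 1 ∧
    ((A.2.2.2.2.1 : ℕ) : ZMod 13) * v7 (c - 1 - m) ^ 2 = 1 ∧
    ((A.2.2.2.2.2 : ℕ) : ZMod 13) * v7 (c - 1 - m) ^ 4 = 1) := by decide +kernel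

lemma ex13 : ∀ c m : ZMod 13, ((c - 2) ^ 2 + 4 * m) ^ 6 = -1 → ∃ A ∈ l13,
    ((A.1 : ℕ) : ZMod 13) = c ∧
    ((A.2.1 : ℕ) : ZMod 13) = (c - 2) ^ 2 + 2 * m ∧
    (((A.2.2.1.1 : ℕ) : ZMod 13) * m ^ 11 = 1 ∧
    ((A.2.2.1.2.1 : ℕ) : ZMod 13) * m ^ 8 = 1 ∧
    ((A.2.2.1.2.2 : ℕ) : ZMod 13) * m ^ 9 = 1) ∧
    (((A.2.2.2.1 : ℕ) : ZMod 13) * (c - 1 - m) ^ 11 = 1 ∧
    ((A.2.2.2.2.1 : ℕ) : ZMod 13) * (c - 1 - m) ^ 8 = 1 ∧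
    ((A.2.2.2.2.2 : ℕ) : ZMod 13) * (c - 1 - m) ^ 9 = 1) := by decide +kernel

lemma e13 : (13 : ZMod 13) = 0 := by decide

/-- the first order equation of one family, divided by the values -/
def Row (K c x y s t : ZMod 13) : Prop := (K + 2 * s) * x - (K + 2 * (c - 1) - 2 * t) * y = 0

lemma two_rows {K c s t s' t' : ℕ} (h : nz (dt K c s t s' t') = true) {x y : ZMod 13}
    (h1 : Row K c x y s t) (h2 : Row K c x y s' t') : x = 0 ∧ y = 0 := by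
  have : Fact (Nat.Prime 13) := ⟨by norm_num⟩
  unfold Row at h1 h2
  have h3 : ((dt K c s t s' t' : ℕ) : ZMod 13) ≠ 0 := by
    intro h0
    rw [ZMod.natCast_eq_zero_iff] at h0
    unfold nz at h
    rw [Nat.mod_eq_zero_of_dvd h0] at h
    exact absurd h (by decide)
  have h4 : ((dt K c s t s' t' : ℕ) : ZMod 13) = (K + 2 * s) * (K + 2 * (c - 1) - 2 * t') -
      (K + 2 * s') * (K + 2 * (c - 1) - 2 * t) := by
    have e0 := e13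
    unfold dt
    push_cast
    linear_combination ((K + 2 * s : ZMod 13) * (2 + t') + (K + 2 * s' : ZMod 13) *
      (K + 2 * c + 22 + 10 * t)) * e0
  rw [h4] at h3
  constructor
  · have : ((K + 2 * s) * (K + 2 * (c - 1) - 2 * t') -
      (K + 2 * s') * (K + 2 * (c - 1) - 2 * t) : ZMod 13) * x = 0 := by
      linear_combination (K + 2 * (c - 1) - 2 * t' : ZMod 13) * h1 -
        (K + 2 * (c - 1) - 2 * t : ZMod 13) * h2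
    rcases mul_eq_zero.1 this with h5 | h5
    · exact absurd h5 h3
    · exact h5
  · have : ((K + 2 * s) * (K + 2 * (c - 1) - 2 * t') -
      (K + 2 * s') * (K + 2 * (c - 1) - 2 * t) : ZMod 13) * y = 0 := by
      linear_combination (K + 2 * s' : ZMod 13) * h1 - (K + 2 * s : ZMod 13) * h2
    rcases mul_eq_zero.1 this with h5 | h5
    · exact absurd h5 h3
    · exact h5

lemma row_of {χ : ℤ → ZMod 13} {c m α β : ℤ} (h : FO χ c m α β = 0) {K s t : ZMod 13}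
    (hK : K = ((c : ZMod 13) - 2) ^ 2 + 2 * m) (hs : s * χ m = 1) (ht : t * χ (c - 1 - m) = 1) :
    Row K c α β s t := by
  unfold FO at h
  unfold Row
  push_cast at h
  rw [hK]
  linear_combination (s * t) * h -
    ((((c : ZMod 13) - 2) ^ 2 + 2 * m) * α - (((c : ZMod 13) - 2) ^ 2 + 2 * m + 2 * (c - 1)) * β) *
      (t * χ (c - 1 - m) * hs + ht) - 2 * α * s * ht - 2 * β * t * hs

end RKA26

open RKA26 in
theorem t_RKA : Stmt_RKA := by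
  intro c m α β hD hc h0 h3 h4 h5 h6
  obtain ⟨g3, g5, g7, g13⟩ := hD
  push_cast at g3 g5 g7 g13
  obtain ⟨⟨c3, x3, y3⟩, hA, hA1, hA2, hA3⟩ := ex3 _ _ g3
  obtain ⟨⟨c5, ⟨x5, xa, xb⟩, ⟨y5, ya, yb⟩⟩, hB, hB1, ⟨hB2, hB3, hB4⟩, ⟨hB5, hB6, hB7⟩⟩ :=
    ex5 _ _ g5
  obtain ⟨⟨c7, ⟨xs, xS, xc, xC⟩, ⟨ys, yS, yc, yC⟩⟩, hC, hC1, ⟨hC2, hC3, hC4, hC5⟩,
    ⟨hC6, hC7, hC8, hC9⟩⟩ := ex7 _ _ g7
  obtain ⟨⟨cc, K, ⟨m1, m4, m3⟩, ⟨n1, n4, n3⟩⟩, hE, hE1, hEK, ⟨hE2, hE3, hE4⟩,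
    ⟨hE5, hE6, hE7⟩⟩ := ex13 _ _ g13
  have key := chk1_sound hA hB hC hE
  dsimp only at hA1 hA2 hA3 hB1 hB2 hB3 hB4 hB5 hB6 hB7 hC1 hC2 hC3 hC4 hC5 hC6 hC7 hC8 hC9 hE1 hEK hE2 hE3 hE4 hE5 hE6 hE7
  have r0 : Row K cc α β ((x3 * xa * m1 : ℕ) : ZMod 13) ((y3 * ya * n1 : ℕ) : ZMod 13) := by
    rw [hE1]
    refine row_of h0 hEK ?_ ?_
    · unfold χ0
      push_cast
      linear_combination ((xa : ZMod 13) * m1 * v5 m ^ 3 * (m : ZMod 13) ^ 11) * hA2 +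
        ((m1 : ZMod 13) * (m : ZMod 13) ^ 11) * hB3 + hE2
    · unfold χ0
      push_cast
      linear_combination ((ya : ZMod 13) * n1 * v5 (c - 1 - m) ^ 3 * ((c : ZMod 13) - 1 - m) ^ 11) * hA3 +
        ((n1 : ZMod 13) * ((c : ZMod 13) - 1 - m) ^ 11) * hB6 + hE5
  have r3 : Row K cc α β ((x5 * xs * m4 : ℕ) : ZMod 13) ((y5 * ys * n4 : ℕ) : ZMod 13) := by
    rw [hE1]
    refine row_of h3 hEK ?_ ?_
    · unfold χ3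
      push_cast
      linear_combination ((xs : ZMod 13) * m4 * v7 m ^ 5 * (m : ZMod 13) ^ 8) * hB2 +
        ((m4 : ZMod 13) * (m : ZMod 13) ^ 8) * hC2 + hE3
    · unfold χ3
      push_cast
      linear_combination ((ys : ZMod 13) * n4 * v7 (c - 1 - m) ^ 5 * ((c : ZMod 13) - 1 - m) ^ 8) * hB5 +
        ((n4 : ZMod 13) * ((c : ZMod 13) - 1 - m) ^ 8) * hC6 + hE6
  have r4 : Row K cc α β ((x3 * x5 * xS * m1 : ℕ) : ZMod 13)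
      ((y3 * y5 * yS * n1 : ℕ) : ZMod 13) := by
    rw [hE1]
    refine row_of h4 hEK ?_ ?_
    · unfold χ4
      push_cast
      linear_combination ((x5 : ZMod 13) * xS * m1 * v5 m ^ 2 * v7 m * (m : ZMod 13) ^ 11) * hA2 +
        ((xS : ZMod 13) * m1 * v7 m * (m : ZMod 13) ^ 11) * hB2 +
        ((m1 : ZMod 13) * (m : ZMod 13) ^ 11) * hC3 + hE2
    · unfold χ4
      push_cast
      linear_combination ((y5 : ZMod 13) * yS * n1 * v5 (c - 1 - m) ^ 2 * v7 (c - 1 - m) * ((c : ZMod 13) - 1 - m) ^ 11) * hA3 +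
        ((yS : ZMod 13) * n1 * v7 (c - 1 - m) * ((c : ZMod 13) - 1 - m) ^ 11) * hB5 +
        ((n1 : ZMod 13) * ((c : ZMod 13) - 1 - m) ^ 11) * hC7 + hE5
  have r5 : Row K cc α β ((x3 * xa * xc * m3 : ℕ) : ZMod 13)
      ((y3 * ya * yc * n3 : ℕ) : ZMod 13) := by
    rw [hE1]
    refine row_of h5 hEK ?_ ?_
    · unfold χ5
      push_cast
      linear_combination ((xa : ZMod 13) * xc * m3 * v5 m ^ 3 * v7 m ^ 2 * (m : ZMod 13) ^ 9) * hA2 +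
        ((xc : ZMod 13) * m3 * v7 m ^ 2 * (m : ZMod 13) ^ 9) * hB3 +
        ((m3 : ZMod 13) * (m : ZMod 13) ^ 9) * hC4 + hE4
    · unfold χ5
      push_cast
      linear_combination ((ya : ZMod 13) * yc * n3 * v5 (c - 1 - m) ^ 3 * v7 (c - 1 - m) ^ 2 * ((c : ZMod 13) - 1 - m) ^ 9) * hA3 +
        ((yc : ZMod 13) * n3 * v7 (c - 1 - m) ^ 2 * ((c : ZMod 13) - 1 - m) ^ 9) * hB6 +
        ((n3 : ZMod 13) * ((c : ZMod 13) - 1 - m) ^ 9) * hC8 + hE7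
  have r6 : Row K cc α β ((x3 * xb * xC * m1 : ℕ) : ZMod 13)
      ((y3 * yb * yC * n1 : ℕ) : ZMod 13) := by
    rw [hE1]
    refine row_of h6 hEK ?_ ?_
    · unfold χ6
      push_cast
      linear_combination ((xb : ZMod 13) * xC * m1 * v5 m * v7 m ^ 4 * (m : ZMod 13) ^ 11) * hA2 +
        ((xC : ZMod 13) * m1 * v7 m ^ 4 * (m : ZMod 13) ^ 11) * hB4 +
        ((m1 : ZMod 13) * (m : ZMod 13) ^ 11) * hC5 + hE2
    · unfold χ6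
      push_cast
      linear_combination ((yb : ZMod 13) * yC * n1 * v5 (c - 1 - m) * v7 (c - 1 - m) ^ 4 * ((c : ZMod 13) - 1 - m) ^ 11) * hA3 +
        ((yC : ZMod 13) * n1 * v7 (c - 1 - m) ^ 4 * ((c : ZMod 13) - 1 - m) ^ 11) * hB7 +
        ((n1 : ZMod 13) * ((c : ZMod 13) - 1 - m) ^ 11) * hC9 + hE5
  have fin : (α : ZMod 13) = 0 ∧ (β : ZMod 13) = 0 := by
    unfold innr at key
    simp only [Bool.or_eq_true, Bool.and_eq_true] at key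
    rcases key with ((((((key | key) | key) | key) | key) | key) | key) | key
    · exfalso
      apply hc
      obtain ⟨⟨⟨k3, k5⟩, k7⟩, k13⟩ := key
      have k3 := Nat.eq_of_beq_eq_true k3
      have k5 := Nat.eq_of_beq_eq_true k5
      have k7 := Nat.eq_of_beq_eq_true k7
      have k13 := Nat.eq_of_beq_eq_true k13
      rw [k3] at hA1
      rw [k5] at hB1
      rw [k7] at hC1
      rw [k13] at hE1
      have d3 : (3 : ℤ) ∣ c - 1 := by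
        have : ((c - 1 : ℤ) : ZMod 3) = 0 := by push_cast at *; rw [← hA1]; ring
        exact_mod_cast (ZMod.intCast_zmod_eq_zero_iff_dvd _ 3).1 this
      have d5 : (5 : ℤ) ∣ c - 1 := by
        have : ((c - 1 : ℤ) : ZMod 5) = 0 := by push_cast at *; rw [← hB1]; ring
        exact_mod_cast (ZMod.intCast_zmod_eq_zero_iff_dvd _ 5).1 this
      have d7 : (7 : ℤ) ∣ c - 1 := by
        have : ((c - 1 : ℤ) : ZMod 7) = 0 := by push_cast at *; rw [← hC1]; ring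
        exact_mod_cast (ZMod.intCast_zmod_eq_zero_iff_dvd _ 7).1 this
      have d13 : (13 : ℤ) ∣ c - 1 := by
        have : ((c - 1 : ℤ) : ZMod 13) = 0 := by push_cast at *; rw [← hE1]; ring
        exact_mod_cast (ZMod.intCast_zmod_eq_zero_iff_dvd _ 13).1 this
      omega
    · exact two_rows key r0 r3
    · exact two_rows key r0 r4
    · exact two_rows key r3 r4
    · exact two_rows key r0 r5
    · exact two_rows key r3 r5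
    · exact two_rows key r0 r6
    · exact two_rows key r3 r6
  exact ⟨by exact_mod_cast (ZMod.intCast_zmod_eq_zero_iff_dvd _ 13).1 fin.1,
    by exact_mod_cast (ZMod.intCast_zmod_eq_zero_iff_dvd _ 13).1 fin.2⟩

end Pool.Agent.PSX
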