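import Pool.Agent.PSX.StG

/-!
Period six, second order: three families give three independent equations.
-/

set_option autoImplicit false

namespace Pool.Agent.PSX

namespace RKB26

/-- coefficient of `δ` -/
def f1 (e0 m x : ZMod 13) : ZMod 13 := e0 * m * ((1 + 2 * m) * x + 2)
/-- coefficient of `C` -/
def f2 (e0 k m x : ZMod 13) : ZMod 13 := -2 * e0 * m * x - 2 * k * (e0 + 1) * (m * x + 1)
/-- coefficient of `A` -/
def f3 (e0 k m x : ZMod 13) : ZMod 13 := -2 * m ^ 2 * e0 * x + 2 * k * (e0 + 1) * (1 + 2 * m)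

/-- the determinant -/
def det (a b c a' b' c' a'' b'' c'' : ZMod 13) : ZMod 13 :=
  a * (b' * c'' - b'' * c') - b * (a' * c'' - a'' * c') + c * (a' * b'' - a'' * b')

/-- the determinant of the three families -/
def dd (m3 : ZMod 3) (m5 : ZMod 5) (m7 : ZMod 7) (m : ZMod 13) : ZMod 13 :=
  det (f1 11 m (v3 m3 * v5 m5 ^ 3 * m ^ 11)) (f2 11 6 m (v3 m3 * v5 m5 ^ 3 * m ^ 11))
      (f3 11 6 m (v3 m3 * v5 m5 ^ 3 * m ^ 11))
    (f1 8 m (v5 m5 ^ 2 * v7 m7 ^ 5 * m ^ 8)) (f2 8 11 m (v5 m5 ^ 2 * v7 m7 ^ 5 * m ^ 8))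
      (f3 8 11 m (v5 m5 ^ 2 * v7 m7 ^ 5 * m ^ 8))
    (f1 11 m (v3 m3 * v5 m5 ^ 2 * v7 m7 * m ^ 11)) (f2 11 3 m (v3 m3 * v5 m5 ^ 2 * v7 m7 * m ^ 11))
      (f3 11 3 m (v3 m3 * v5 m5 ^ 2 * v7 m7 * m ^ 11))

lemma dd_ne : ∀ (m : ZMod 13), (1 + 4 * m) ^ 6 = -1 → ∀ (m7 : ZMod 7), (1 + 4 * m7) ^ 3 = -1 →
    ∀ m5 : ZMod 5, (1 + 4 * m5) ^ 2 = -1 → ∀ m3 : ZMod 3, 1 + 4 * m3 = -1 →
    dd m3 m5 m7 m ≠ 0 := by decide +kernel

lemma p13 : Nat.Prime 13 := by norm_num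

lemma three {a b c a' b' c' a'' b'' c'' x y z : ZMod 13} (hd : det a b c a' b' c' a'' b'' c'' ≠ 0)
    (h1 : a * x + b * y + c * z = 0) (h2 : a' * x + b' * y + c' * z = 0)
    (h3 : a'' * x + b'' * y + c'' * z = 0) : x = 0 ∧ y = 0 ∧ z = 0 := by
  have : Fact (Nat.Prime 13) := ⟨p13⟩
  have key : ∀ t : ZMod 13, det a b c a' b' c' a'' b'' c'' * t = 0 → t = 0 := by
    intro t ht
    rcases mul_eq_zero.1 ht with h | h
    · exact absurd h hd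
    · exact h
  refine ⟨key x ?_, key y ?_, key z ?_⟩
  · unfold det
    linear_combination (b' * c'' - b'' * c') * h1 - (b * c'' - b'' * c) * h2 + (b * c' - b' * c) * h3
  · unfold det
    linear_combination -(a' * c'' - a'' * c') * h1 + (a * c'' - a'' * c) * h2 - (a * c' - a' * c) * h3
  · unfold det
    linear_combination (a' * b'' - a'' * b') * h1 - (a * b'' - a'' * b) * h2 + (a * b' - a' * b) * h3

lemma row {e0 k : ℕ} {χ : ℤ → ZMod 13} {m δ C A : ℤ} (h : SO e0 k χ m δ C A = 0) :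
    f1 e0 m (χ m) * δ + f2 e0 k m (χ m) * C + f3 e0 k m (χ m) * A = 0 := by
  unfold SO at h
  unfold f1 f2 f3
  linear_combination h

lemma to_dvd {x : ℤ} (h : (x : ZMod 13) = 0) : (13 : ℤ) ∣ x := by
  exact_mod_cast (ZMod.intCast_zmod_eq_zero_iff_dvd x 13).1 h

end RKB26

open RKB26 in
theorem t_RKB : Stmt_RKB := by
  intro m δ C A hD h0 h3 h4
  obtain ⟨g3, g5, g7, g13⟩ := hD
  push_cast at g3 g5 g7 g13
  have hd := dd_ne m g13 m g7 m g5 m g3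
  unfold dd at hd
  have r0 := row h0
  have r3 := row h3
  have r4 := row h4
  have c0 : χ0 m = v3 m * v5 m ^ 3 * (m : ZMod 13) ^ 11 := rfl
  have c3 : χ3 m = v5 m ^ 2 * v7 m ^ 5 * (m : ZMod 13) ^ 8 := rfl
  have c4 : χ4 m = v3 m * v5 m ^ 2 * v7 m * (m : ZMod 13) ^ 11 := rfl
  rw [c0] at r0
  rw [c3] at r3
  rw [c4] at r4
  push_cast at r0 r3 r4
  obtain ⟨x1, x2, x3⟩ := three hd r0 r3 r4
  exact ⟨to_dvd x1, to_dvd x2, to_dvd x3⟩

end Pool.Agent.PSX
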