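import Pool.Agent.PSX.StG

/-!
Period six, first order at `c ≡ 1`.
-/

set_option autoImplicit false

namespace Pool.Agent.PSX

namespace RKC26

lemma p13 : Nat.Prime 13 := by norm_num

lemma n3 : ∀ x : ZMod 3, v3 (-x) = - v3 x := by decide
lemma n5 : ∀ x : ZMod 5, v5 (-x) = - v5 x := by decide
lemma n7 : ∀ x : ZMod 7, v7 (-x) = - v7 x := by decide
lemma u3 : ∀ x : ZMod 3, 1 + 4 * x = -1 → v3 x ≠ 0 := by decide
lemma u5 : ∀ x : ZMod 5, (1 + 4 * x) ^ 2 = -1 → v5 x ≠ 0 := by decide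
lemma u7 : ∀ x : ZMod 7, (1 + 4 * x) ^ 3 = -1 → v7 x ≠ 0 := by decide
lemma u13 : ∀ x : ZMod 13, (1 + 4 * x) ^ 6 = -1 → x ≠ 0 := by decide

lemma to_zero {p : ℕ} {c : ℤ} (h : (p : ℤ) ∣ c - 1) : (c : ZMod p) = 1 := by
  have := (ZMod.intCast_zmod_eq_zero_iff_dvd (c - 1) p).2 h
  push_cast at this
  linear_combination this

lemma main {χ : ℤ → ZMod 13} {e0 k : ℕ} {c m α β : ℤ} (h : FO χ c m α β = 0)
    (hc : (c : ZMod 13) = 1) (hneg : χ (c - 1 - m) = - χ m) (hu : χ m ≠ 0) :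
    SO e0 k χ m (α - β) 0 0 = 0 := by
  have : Fact (Nat.Prime 13) := ⟨p13⟩
  unfold FO at h
  rw [hneg] at h
  push_cast at h
  rw [hc] at h
  have h2 : χ m * (((1 + 2 * (m : ZMod 13)) * χ m + 2) * ((α : ZMod 13) - β)) = 0 := by
    linear_combination -h
  rcases mul_eq_zero.1 h2 with h3 | h3
  · exact absurd h3 hu
  · unfold SO
    push_cast
    linear_combination (e0 : ZMod 13) * m * h3

end RKC26

open RKC26 in
theorem t_RKC (hRKB : Stmt_RKB) : Stmt_RKC := by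
  intro c m α β hD hc h0 h3 h4
  have : Fact (Nat.Prime 13) := ⟨p13⟩
  obtain ⟨t, ht⟩ := hc
  have c3 : (c : ZMod 3) = 1 := to_zero ⟨455 * t, by rw [ht]; push_cast; ring⟩
  have c5 : (c : ZMod 5) = 1 := to_zero ⟨273 * t, by rw [ht]; push_cast; ring⟩
  have c7 : (c : ZMod 7) = 1 := to_zero ⟨195 * t, by rw [ht]; push_cast; ring⟩
  have c13 : (c : ZMod 13) = 1 := to_zero ⟨105 * t, by rw [ht]; push_cast; ring⟩
  obtain ⟨g3, g5, g7, g13⟩ := hD
  push_cast at g3 g5 g7 g13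
  rw [c3] at g3
  rw [c5] at g5
  rw [c7] at g7
  rw [c13] at g13
  have k3 : 1 + 4 * (m : ZMod 3) = -1 := by linear_combination g3
  have k5 : (1 + 4 * (m : ZMod 5)) ^ 2 = -1 := by linear_combination g5
  have k7 : (1 + 4 * (m : ZMod 7)) ^ 3 = -1 := by linear_combination g7
  have k13 : (1 + 4 * (m : ZMod 13)) ^ 6 = -1 := by linear_combination g13
  have d3 : ((c - 1 - m : ℤ) : ZMod 3) = -(m : ZMod 3) := by push_cast; rw [c3]; ring
  have d5 : ((c - 1 - m : ℤ) : ZMod 5) = -(m : ZMod 5) := by push_cast; rw [c5]; ring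
  have d7 : ((c - 1 - m : ℤ) : ZMod 7) = -(m : ZMod 7) := by push_cast; rw [c7]; ring
  have d13 : ((c - 1 - m : ℤ) : ZMod 13) = -(m : ZMod 13) := by push_cast; rw [c13]; ring
  have a3 := u3 _ k3
  have a5 := u5 _ k5
  have a7 := u7 _ k7
  have a13 := u13 _ k13
  have hNr : Nr (1 + 4 * m) := by
    refine ⟨?_, ?_, ?_, ?_⟩
    · push_cast; exact k3
    · push_cast; exact k5
    · push_cast; exact k7
    · push_cast; exact k13
  have e0 : χ0 (c - 1 - m) = - χ0 m := by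
    unfold χ0
    rw [d3, d5, d13, n3, n5]
    ring
  have e3 : χ3 (c - 1 - m) = - χ3 m := by
    unfold χ3
    rw [d5, d7, d13, n5, n7]
    ring
  have e4 : χ4 (c - 1 - m) = - χ4 m := by
    unfold χ4
    rw [d3, d5, d7, d13, n3, n5, n7]
    ring
  have w0 : χ0 m ≠ 0 := mul_ne_zero (mul_ne_zero a3 (pow_ne_zero _ a5)) (pow_ne_zero _ a13)
  have w3 : χ3 m ≠ 0 := mul_ne_zero (mul_ne_zero (pow_ne_zero _ a5) (pow_ne_zero _ a7))
    (pow_ne_zero _ a13)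
  have w4 : χ4 m ≠ 0 := mul_ne_zero (mul_ne_zero (mul_ne_zero a3 (pow_ne_zero _ a5)) a7)
    (pow_ne_zero _ a13)
  exact (hRKB m (α - β) 0 0 hNr (main h0 c13 e0 w0) (main h3 c13 e3 w3) (main h4 c13 e4 w4)).1

end Pool.Agent.PSX
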