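import Pool.Agent.PSX.StG

/-!
# Period six, the ghost line: the second order formula
-/

set_option autoImplicit false

namespace Pool.Agent.PSX

open Finset (range)
open Pool.Agent.P4G (Fam QN FN FZ CC CR)

theorem t_SEC (hRDC : Stmt_RDC) (hRZR : Stmt_RZR) (hRED : Stmt_RED) : Stmt_SEC := by
  intro l q0 n e e0 ψ _ h i s hs hsi hn a b c B m r p γ0 τ0 δ1 y hm hl hc ha hd hB hy hr hp hR
  have hQ : ((QN l q0 n : ℕ) : ℤ) = q0 * l ^ (i + s) := by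
    unfold QN
    rw [hn]
    push_cast
    rfl
  have hl1 : ∀ k : ℕ, 1 ≤ k → ∀ t : ℤ, ((q0 * l : ℕ) : ℤ) ∣ ((q0 * l ^ k : ℕ) : ℤ) * t := by
    intro k hk t
    obtain ⟨j, rfl⟩ : ∃ j, k = j + 1 := ⟨k - 1, by omega⟩
    refine ⟨l ^ j * t, ?_⟩
    push_cast
    ring
  have h1 : ((q0 * l : ℕ) : ℤ) ∣ c - 1 := by rw [hc]; exact hl1 s hs γ0
  have h2 : ((q0 * l : ℕ) : ℤ) ∣ a - 1 := by rw [ha]; exact hl1 i (hs.trans hsi) τ0
  have h3 : ((QN l q0 n : ℕ) : ℤ) ∣ (a - 1) * (c - 1) := by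
    rw [hc, ha, hQ]
    refine ⟨q0 * (τ0 * γ0), ?_⟩
    push_cast
    ring
  have h4 : ((QN l q0 n : ℕ) : ℤ) ∣ (a - 1) ^ 2 := by
    obtain ⟨j, rfl⟩ : ∃ j, i = s + j := ⟨i - s, by omega⟩
    rw [ha, hQ]
    refine ⟨q0 * (l ^ j * τ0 ^ 2), ?_⟩
    push_cast
    ring
  have k1 := hRDC l q0 n e e0 ψ h a b c B m r p δ1 y hm h1 h2 h3 h4 hd hB hr hp hR
  have k2 := hRZR l q0 n e e0 ψ h i s hs hsi hn τ0 γ0 m hm hl
  rw [← ha, ← hc] at k2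
  have hZ : (l : ZMod (l ^ (n + 1))) * SX (QN l q0 n) (I0 l q0 n e ψ m (-1) 1) = 0 := by
    unfold SX
    rw [Finset.mul_sum]
    apply Finset.sum_eq_zero
    intro x _
    have := (hRED l q0 n e ψ h.fam m (-1) 1 m (-1) 1 (x : ℤ) (by simp) (by simp) (by simp)).2.1
    rw [mul_left_comm, this, mul_zero]
  obtain ⟨t, ht⟩ := hy
  have hy' : (y : ZMod (l ^ (n + 1))) = (2 * (m : ZMod (l ^ (n + 1))) + 1) * δ1
      - 2 * m * ((q0 * l ^ (i - s) * τ0 ^ 2 : ℤ) : ZMod (l ^ (n + 1)))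
      - 2 * ((q0 * γ0 * τ0 : ℤ) : ZMod (l ^ (n + 1))) + l * t := by
    have h5 := congrArg (Int.cast : ℤ → ZMod (l ^ (n + 1))) ht
    push_cast at h5 ⊢
    linear_combination h5
  generalize SX (QN l q0 n) (I0 l q0 n e ψ m (-1) 1) = Z at k1 k2 hZ ⊢
  rw [hy'] at k1
  push_cast at k1 k2 ⊢
  linear_combination (e0 : ZMod (l ^ (n + 1))) * m * k1 + k2
    + 2 * (e0 : ZMod (l ^ (n + 1))) * m * FN l n e ψ m * t * hZ

end Pool.Agent.PSX
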