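import Pool.Agent.PSX.M_LFB
import Pool.Agent.PSX.M_RZR
import Pool.Agent.PSX.AFB
import Pool.Agent.PSX.CYA
import Pool.Agent.PSX.DER
import Pool.Agent.PSX.FST
import Pool.Agent.PSX.LCM
import Pool.Agent.PSX.LFA
import Pool.Agent.PSX.MEA
import Pool.Agent.PSX.M_AFA
import Pool.Agent.PSX.M_AFC
import Pool.Agent.PSX.M_BFD
import Pool.Agent.PSX.M_BFS
import Pool.Agent.PSX.M_BLK
import Pool.Agent.PSX.M_BSY
import Pool.Agent.PSX.M_CQC
import Pool.Agent.PSX.M_CQP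
import Pool.Agent.PSX.M_CYB
import Pool.Agent.PSX.M_DBL
import Pool.Agent.PSX.M_DSA
import Pool.Agent.PSX.M_DSB
import Pool.Agent.PSX.M_EFZ
import Pool.Agent.PSX.M_FIN
import Pool.Agent.PSX.M_GHF
import Pool.Agent.PSX.M_GHL
import Pool.Agent.PSX.M_LCH
import Pool.Agent.PSX.M_LCN
import Pool.Agent.PSX.M_LCQ
import Pool.Agent.PSX.M_LFT
import Pool.Agent.PSX.M_NEG
import Pool.Agent.PSX.M_NTT
import Pool.Agent.PSX.M_NUS
import Pool.Agent.PSX.M_PPO
import Pool.Agent.PSX.M_RSM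
import Pool.Agent.PSX.M_DRZ
import Pool.Agent.PSX.M_PHI
import Pool.Agent.PSX.M_RED
import Pool.Agent.PSX.M_REL
import Pool.Agent.PSX.M_SYM
import Pool.Agent.PSX.M_TDL
import Pool.Agent.PSX.M_UNI
import Pool.Agent.PSX.M_VFO
import Pool.Agent.PSX.M_VSO
import Pool.Agent.PSX.M_ZSQ
import Pool.Agent.PSX.FAM
import Pool.Agent.PSX.RKA
import Pool.Agent.PSX.RKB
import Pool.Agent.PSX.RKC
import Pool.Agent.PSX.NRC
import Pool.Agent.PSX.NRT
import Pool.Agent.PSX.PHN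
import Pool.Agent.PSX.RDC
import Pool.Agent.PSX.SEC
import Pool.Agent.PSX.VAN

/-!
# Period six, the ghost line theorem
-/

set_option autoImplicit false

namespace Pool.Agent.PSX

/-- the second order formula from the analytic statements -/
theorem ghost_aux : Stmt_FST ∧ Stmt_SEC ∧ Stmt_VAN := by
  have hPPO := t_PPO
  have hRSM := t_RSM t_BLK
  have hDRZ := t_DRZ hRSM t_DER
  have hNUS := t_NUS
  have hDBL := t_DBL
  have hBFD := t_BFD hNUS hDBL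
  have hBFS := t_BFS hBFD
  have hGHF := t_GHF hBFS t_GHL t_ZSQ t_LFT
  have hLCH := t_LCH hNUS
  have hLCQ := t_LCQ hLCH
  have hLCN := t_LCN hLCH hPPO t_BLK hDRZ t_EFZ
  have hLCM := t_LCM hLCH hPPO t_BLK
  have hMEA := t_MEA hRSM t_DER
  have hSYM := t_SYM hNUS
  have hTDL := t_TDL t_BLK hPPO
  have hNTT := t_NTT t_BLK hPPO
  have hPHI := t_PHI hPPO t_EFZ
  have hPHN := t_PHN hPPO t_EFZ
  have hRED := t_RED hRSM
  have hCQP := t_CQP hRED t_UNI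
  have hCQC := t_CQC t_UNI
  have hBSY := t_BSY hSYM
  have hAFA := t_AFA hGHF hBSY t_UNI
  have hAFB := t_AFB hPHN hLCM hPPO t_EFZ hAFA
  have hAFC := t_AFC hPHI hPHN hLCM hPPO hAFA
  have hLFA := t_LFA hLCN hPHI
  have hLFB := t_LFB hLFA hTDL hNTT hPHN hRED hCQP t_UNI hPPO
  have hRZR := t_RZR hBSY t_UNI hAFA hAFB hAFC hLFB hMEA hCQP hRED
  have hRDC := t_RDC t_EFZ hLCQ hRED hCQP
  have hSEC := t_SEC hRDC hRZR hRED
  have hFST := t_FST hGHF t_EFZ hLCQ hPPO t_BLK hCQP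
  have hVAN := t_VAN hCQC
  exact ⟨hFST, hSEC, hVAN⟩

/-- **the ghost line theorem** -/
theorem ghost_line : Stmt_FIN := by
  have hRKA := t_RKA
  have hRKB := t_RKB
  have hRKC := t_RKC t_RKB
  have hFAM := t_FAM
  obtain ⟨hFST, hSEC, hVAN⟩ := ghost_aux
  have hVFO := t_VFO t_CYA hFST hVAN t_NRC t_NRT
  have hVSO := t_VSO t_CYB hSEC hVAN t_NRC t_NRT
  have hDSA := t_DSA hVFO hRKA hFAM t_CYA t_NRT
  have hDSB := t_DSB hVFO hVSO hRKB hRKC hFAM t_CYA t_NRT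
  exact t_FIN hDSA hDSB

/-- the relation of a cycle -/
theorem rel_of_cone : Stmt_REL := t_REL (t_BFS (t_BFD t_NUS t_DBL)) t_ZSQ

/-- change of sign of all letters -/
theorem neg_cycle : Stmt_NEG := t_NEG t_NUS

end Pool.Agent.PSX
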