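import Pool.Agent.PSX.KBox
import Pool.Agent.PSX.Dat8

/-!
Period six, elimination: the data of the eighth stage in the form of boxes.
-/

namespace Pool.Agent.PSX.K

open Pool.Agent.LibH4.Ker Pool.Agent.Lib_helper5
open Pool.Agent.LibH4.S7 (Bx InB cd pk lo hi lo_pk hi_pk cd_lt inBss inBss_spec)
open Pool.Agent.PSX.D8 (Bx8 BX8 G8 In8)

/-- the lists of a box -/
def bl (b : Bx) : List (List ℕ) := [b.F13, b.F7, b.F5, b.F8]
/-- the lists of a box -/
def bl8 (b : Bx8) : List (List ℕ) := [b.F13, b.F7, b.F5, b.F8]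

lemma box_ck : (BX8.all fun x => BB.any fun BS => BS.any fun b => bl8 x == bl b) = true := by
  decide +kernel

lemma sing_ck : allL (fun t => inBss (lo t) (lo (hi t)) (lo (hi (hi t))) (hi (hi (hi t))) BB) G8 =
    true := by
  decide +kernel

/-- **the classes of the eighth stage** -/
theorem R8_of_In8 {a b c B m : ℤ} (h : In8 a b c B m) : R8 a b c B m := by
  rcases h with ⟨x, hx, h13, h7, h5, h8⟩ | h
  · have h1 := List.all_eq_true.1 box_ck x hx
    obtain ⟨BS, hBS, h2⟩ := List.any_eq_true.1 h1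
    obtain ⟨y, hy, h3⟩ := List.any_eq_true.1 h2
    have h4 : bl8 x = bl y := eq_of_beq h3
    unfold bl8 bl at h4
    simp only [List.cons.injEq, and_true] at h4
    obtain ⟨e1, e2, e3, e4⟩ := h4
    rw [e1] at h13
    rw [e2] at h7
    rw [e3] at h5
    rw [e4] at h8
    exact ⟨BS, hBS, y, hy, ⟨h13, h7, h5, h8⟩⟩
  · have h1 := allL_spec sing_ck _ h
    have g13 := cd_lt (n := 13) (by norm_num) a b c B m
    have g7 := cd_lt (n := 7) (by norm_num) a b c B m
    have g5 := cd_lt (n := 5) (by norm_num) a b c B m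
    unfold D8.tup4 at h1
    rw [lo_pk g13, hi_pk g13, lo_pk g7, hi_pk g7, lo_pk g5, hi_pk g5] at h1
    exact R8_of h1

end Pool.Agent.PSX.K
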