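import Pool.Agent.PSX.N6d
import Pool.Agent.PSX.KRel

/-!
Period six, nested search modulo `13`, `7`, `5`: the test of a class, the groups, main statement.
-/

namespace Pool.Agent.PSX.N6

open Pool.Agent.Lib_helper5 Pool.Agent.Lib_helper5.LK Pool.Agent.Lib_helper5.TB
  Pool.Agent.Lib_helper5.Lane Pool.Agent.LibH4 Pool.Agent.LibH4.Ker Pool.Agent.LibH4.T6
  Pool.Agent.LibH4.KF Pool.Agent.PSX.EL
open Pool.Agent.LibH4.S7 (y2 r2 y3 r3)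
open Pool.Agent.Lib_helper5.P7 (CD gat gat10 msk_7 msk_5 msk7_eq msk5_eq tb_l tb_ok dig3_91
  rowB_91F13 RB_a RB_b RB_c RB_d RB_e okR)
open Pool.Agent.Lib_helper84.P7 (GR G13)

/-- test of a class modulo `13` -/
noncomputable def cls136 (leaf : CD → CD → Bool)
    (m m2 al0 al1 al2 al3 q0 q1 q2 q3 : ℕ) : Bool :=
  clsG6 tb_l (nat_lit 80) (nat_lit 1568) (nat_lit 49) (nat_lit 800) (nat_lit 25)
    mk_5 cc_5 ff_5 msk_5 mk_7 cc_7 ff_7 msk_7 LL5 LL7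
    t1_91F13 rows_91F13 (gat I7_0) (gat I7_1) (gat I7_2) (gat I7_3)
    t1_455F13a t2_455F13a rows_455F13a G5a_0 G5a_1 G5a_2 G5a_3
    t1_455F13b t2_455F13b rows_455F13b G5b_0 G5b_1 G5b_2 G5b_3
    t1_455F13c t2_455F13c rows_455F13c G5c_0 G5c_1 G5c_2 G5c_3
    t1_455F13d t2_455F13d rows_455F13d G5c_0 G5c_1 G5c_2 G5c_3
    t1_455F13e t2_455F13e rows_455F13e G5c_0 G5c_1 G5c_2 G5c_3
    leaf m m2 al0 al1 al2 al3 q0 q1 q2 q3

theorem cls136_spec {Q : ℕ} {a b c B m : ℤ} (S : Sys6 Q a b c B m) (hQ : 455 ∣ Q)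
    {leaf : CD → CD → Bool}
    (h : cls136 leaf (cdx6 13 11 PT13 a b c B m).m (cdx6 13 11 PT13 a b c B m).m2 (rs 13 (-B))
      (rs 13 (-(2 * a))) (rs 13 (-(2 * b))) (rs 13 (-c)) (cdx6 13 11 PT13 a b c B m).q0
      (cdx6 13 11 PT13 a b c B m).q1 (cdx6 13 11 PT13 a b c B m).q2
      (cdx6 13 11 PT13 a b c B m).q3 = true) :
    leaf (cdx6 7 5 PT7 a b c B m) (cdx6 5 3 PT5 a b c B m) = true := by
  have hQ6 : 455 ^ 6 ∣ Q ^ 6 := pow_dvd_pow_of_dvd hQ 6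
  have hd : 13 * 7 * 5 * 2197 ∣ Q ^ 6 := (by norm_num : 13 * 7 * 5 * 2197 ∣ 455 ^ 6).trans hQ6
  have hd7 : 13 * 7 * 1 * 2197 ∣ Q ^ 6 := (by norm_num : 13 * 7 * 1 * 2197 ∣ 455 ^ 6).trans hQ6
  have h35 : 35 ∣ Q := (by norm_num : 35 ∣ 455).trans hQ
  have r7 := K.u91F13 S hd7
  have ra := K.u455F13a S hd
  have rb := K.u455F13b S hd
  have rc := K.u455F13c S hd
  have rd := K.u455F13d S hd
  have re := K.u455F13e S hd
  rw [K.F1_len] at r7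
  rw [K.F5_len] at ra rb rc rd re
  unfold cls136 at h
  exact clsG6_main (w7 := 1568) (w5 := 800) (bl7 := 49) (bl5 := 25) (n7 := 21) (n5 := 10)
    (t3 := t3_91F13) S h35 h tb_ok (show 800 ≤ 1568 by norm_num) msk7_eq msk5_eq len7' rfl len5' rfl
    nb7 nb5 compl7 compl5 bd7 dig3_91 rowB_91F13 LC7 LG7 LC5 r7
    LG5a RB_a ra LG5b RB_b rb LG5c RB_c rc LG5d RB_d rd LG5e RB_e re

/-- the check of a group -/
noncomputable def G6 (R S : ℕ) (leaf : CD → CD → CD → Bool) : Bool :=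
  grp6 R S (okR R) (fun a b c B m m2 m3 al0 al1 al2 al3 q0 q1 q2 q3 =>
    cls136 (leaf ⟨a, b, c, B, m, m2, m3, q0, q1, q2, q3, nat_lit 0⟩)
      m m2 al0 al1 al2 al3 q0 q1 q2 q3)

theorem G6_spec {Q : ℕ} {a b c B m : ℤ} (S : Sys6 Q a b c B m) (hQ : 455 ∣ Q) {R s : ℕ}
    {leaf : CD → CD → CD → Bool} (hs : s < 13) (h : G6 R s leaf = true) (hG : G13 R s a b B m) :
    leaf (cdx6 13 11 PT13 a b c B m) (cdx6 7 5 PT7 a b c B m) (cdx6 5 3 PT5 a b c B m) = true := by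
  obtain ⟨h0, h1, h2, h3⟩ := hG
  have hok : okR R (rs 13 b) = true := by
    cases R with
    | zero => exact Nat.ble_eq_true_of_le (h3 rfl)
    | succ R => rfl
  exact cls136_spec S hQ (leaf := leaf (cdx6 13 11 PT13 a b c B m))
    (grp6_spec h S.cl h0 h1 h2 hs hok)

lemma GR_lt : ∀ g ∈ GR, g.2 < 13 := by decide +kernel

/-- **the nested search modulo `13`, `7`, `5`**, a leaf for each group -/
theorem n6_gen {Q : ℕ} {a b c B m : ℤ} (S : Sys6 Q a b c B m) (hQ : 455 ∣ Q)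
    (leaf : ℕ × ℕ → CD → CD → CD → Bool) (h : ∀ g ∈ GR, G6 g.1 g.2 (leaf g) = true) :
    (∃ g ∈ GR, leaf g (cdx6 13 11 PT13 a b c B m) (cdx6 7 5 PT7 a b c B m)
      (cdx6 5 3 PT5 a b c B m) = true) ∨
    (∃ g ∈ GR, leaf g (cdx6 13 11 PT13 (-a) (-b) (-c) (-B) m)
      (cdx6 7 5 PT7 (-a) (-b) (-c) (-B) m) (cdx6 5 3 PT5 (-a) (-b) (-c) (-B) m) = true) := by
  rcases norm136 S ((by norm_num : 13 ∣ 455).trans hQ) with ⟨g, hg, hG⟩ | ⟨g, hg, hG⟩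
  · exact Or.inl ⟨g, hg, G6_spec S hQ (GR_lt g hg) (h g hg) hG⟩
  · exact Or.inr ⟨g, hg, G6_spec S.neg hQ (GR_lt g hg) (h g hg) hG⟩

/-- **the nested search modulo `13`, `7`, `5`** -/
theorem n6_main {Q : ℕ} {a b c B m : ℤ} (S : Sys6 Q a b c B m) (hQ : 455 ∣ Q)
    (leaf : CD → CD → CD → Bool) (h : ∀ g ∈ GR, G6 g.1 g.2 leaf = true) :
    leaf (cdx6 13 11 PT13 a b c B m) (cdx6 7 5 PT7 a b c B m) (cdx6 5 3 PT5 a b c B m) = true ∨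
    leaf (cdx6 13 11 PT13 (-a) (-b) (-c) (-B) m) (cdx6 7 5 PT7 (-a) (-b) (-c) (-B) m)
      (cdx6 5 3 PT5 (-a) (-b) (-c) (-B) m) = true := by
  rcases n6_gen S hQ (fun _ => leaf) h with ⟨g, _, h1⟩ | ⟨g, _, h1⟩
  · exact Or.inl h1
  · exact Or.inr h1

end Pool.Agent.PSX.N6
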