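import Pool.Agent.PSX.N8L
import Pool.Agent.PSX.N6e

/-! generated: groups of classes modulo `13`, with classes modulo `8` -/

namespace Pool.Agent.PSX.N8

open Pool.Agent.PSX.N6

/-- group (0, 2) -/
theorem g8_0 : G6 (nat_lit 0) (nat_lit 2) lf8 = true := by decide +kernel

/-- group (0, 5) -/
theorem g8_1 : G6 (nat_lit 0) (nat_lit 5) lf8 = true := by decide +kernel

/-- group (0, 6) -/
theorem g8_2 : G6 (nat_lit 0) (nat_lit 6) lf8 = true := by decide +kernel

/-- group (0, 7) -/
theorem g8_3 : G6 (nat_lit 0) (nat_lit 7) lf8 = true := by decide +kernel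

/-- group (0, 8) -/
theorem g8_4 : G6 (nat_lit 0) (nat_lit 8) lf8 = true := by decide +kernel

/-- group (0, 11) -/
theorem g8_5 : G6 (nat_lit 0) (nat_lit 11) lf8 = true := by decide +kernel

end Pool.Agent.PSX.N8
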