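import Pool.Agent.PSX.N8L
import Pool.Agent.PSX.N6e

/-! generated: groups of classes modulo `13`, with classes modulo `8` -/

namespace Pool.Agent.PSX.N8

open Pool.Agent.PSX.N6

/-- group (1, 2) -/
theorem g8_6 : G6 (nat_lit 1) (nat_lit 2) lf8 = true := by decide +kernel

/-- group (1, 3) -/
theorem g8_7 : G6 (nat_lit 1) (nat_lit 3) lf8 = true := by decide +kernel

/-- group (1, 4) -/
theorem g8_8 : G6 (nat_lit 1) (nat_lit 4) lf8 = true := by decide +kernel

end Pool.Agent.PSX.N8
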