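import Pool.Agent.PSX.N8L
import Pool.Agent.PSX.N6e

/-! generated: groups of classes modulo `13`, with classes modulo `8` -/

namespace Pool.Agent.PSX.N8

open Pool.Agent.PSX.N6

/-- group (4, 10) -/
theorem g8_27 : G6 (nat_lit 4) (nat_lit 10) lf8 = true := by decide +kernel

/-- group (4, 11) -/
theorem g8_28 : G6 (nat_lit 4) (nat_lit 11) lf8 = true := by decide +kernel

/-- group (4, 12) -/
theorem g8_29 : G6 (nat_lit 4) (nat_lit 12) lf8 = true := by decide +kernel

end Pool.Agent.PSX.N8
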