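import Pool.Agent.PSX.N8L
import Pool.Agent.PSX.N6e

/-! generated: groups of classes modulo `13`, with classes modulo `8` -/

namespace Pool.Agent.PSX.N8

open Pool.Agent.PSX.N6

/-- group (5, 1) -/
theorem g8_30 : G6 (nat_lit 5) (nat_lit 1) lf8 = true := by decide +kernel

/-- group (5, 5) -/
theorem g8_31 : G6 (nat_lit 5) (nat_lit 5) lf8 = true := by decide +kernel

/-- group (5, 8) -/
theorem g8_32 : G6 (nat_lit 5) (nat_lit 8) lf8 = true := by decide +kernel

end Pool.Agent.PSX.N8
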