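import Pool.Agent.PSX.N8M
import Pool.Agent.PSX.N8G0
import Pool.Agent.PSX.N8G1
import Pool.Agent.PSX.N8G2
import Pool.Agent.PSX.N8G3
import Pool.Agent.PSX.N8G4
import Pool.Agent.PSX.N8G5
import Pool.Agent.PSX.N8G6
import Pool.Agent.PSX.N8G7
import Pool.Agent.PSX.N8G8
import Pool.Agent.PSX.N8G9
import Pool.Agent.PSX.N8G10
import Pool.Agent.PSX.N8G11
import Pool.Agent.PSX.N8G12

/-!
Period six, elimination: the first stages (primes `13, 7, 5` and `8`).
-/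

namespace Pool.Agent.PSX.N8

open Pool.Agent.Lib_helper5 Pool.Agent.Lib_helper5.LK Pool.Agent.Lib_helper5.TB
  Pool.Agent.Lib_helper5.P7 Pool.Agent.LibH4 Pool.Agent.LibH4.Ker
  Pool.Agent.LibH4.T6 Pool.Agent.PSX.EL Pool.Agent.PSX.D8
open Pool.Agent.PSX.N6 (cdx6 G6 n6_main)
open Pool.Agent.Lib_helper84.P7 (GR)

/-- all groups -/
theorem all8 : ∀ g ∈ GR, G6 g.1 g.2 lf8 = true := by
  intro g hg
  simp only [GR, List.mem_cons, List.not_mem_nil, or_false] at hg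
  rcases hg with rfl | rfl | rfl | rfl | rfl | rfl | rfl | rfl | rfl | rfl | rfl | rfl | rfl | rfl | rfl | rfl | rfl | rfl | rfl | rfl | rfl | rfl | rfl | rfl | rfl | rfl | rfl | rfl | rfl | rfl | rfl | rfl | rfl | rfl | rfl | rfl | rfl | rfl | rfl | rfl | rfl | rfl
  · exact g8_0
  · exact g8_1
  · exact g8_2
  · exact g8_3
  · exact g8_4
  · exact g8_5
  · exact g8_6
  · exact g8_7
  · exact g8_8
  · exact g8_9
  · exact g8_10
  · exact g8_11
  · exact g8_12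
  · exact g8_13
  · exact g8_14
  · exact g8_15
  · exact g8_16
  · exact g8_17
  · exact g8_18
  · exact g8_19
  · exact g8_20
  · exact g8_21
  · exact g8_22
  · exact g8_23
  · exact g8_24
  · exact g8_25
  · exact g8_26
  · exact g8_27
  · exact g8_28
  · exact g8_29
  · exact g8_30
  · exact g8_31
  · exact g8_32
  · exact g8_33
  · exact g8_34
  · exact g8_35
  · exact g8_36
  · exact g8_37
  · exact g8_38
  · exact g8_39
  · exact g8_40
  · exact g8_41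

lemma dv_one {n : ℕ} [NeZero n] {x : ℤ} (h : rs n x = 1) : (n : ℤ) ∣ x - 1 := by
  rw [← ZMod.intCast_zmod_eq_zero_iff_dvd]
  have h1 := rs_cast (p := n) x
  rw [h] at h1
  push_cast at h1 ⊢
  rw [← h1, sub_self]

lemma dv_neg {n : ℕ} [NeZero n] {x : ℤ} (h : rs n x = n - 1) : (n : ℤ) ∣ x + 1 := by
  rw [← ZMod.intCast_zmod_eq_zero_iff_dvd]
  have h1 := rs_cast (p := n) x
  rw [h, K5.cast_pred] at h1
  push_cast at h1 ⊢
  rw [← h1]
  ring

end Pool.Agent.PSX.N8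

namespace Pool.Agent.PSX.EL

open Pool.Agent.PSX.N8 Pool.Agent.PSX.D8
open Pool.Agent.PSX.N6 (cdx6 G6 n6_main)

/-- the result of the first stages, in terms of divisibility -/
lemma res8 {a b c B m : ℤ} (h : Res8 a b c B m) :
    (455 ∣ a - 1 ∧ 455 ∣ b + 1 ∧ 8 ∣ a - 1 ∧ 8 ∣ b + 1) ∨
    (455 ∣ a + 1 ∧ 455 ∣ b - 1 ∧ 8 ∣ a + 1 ∧ 8 ∣ b - 1) ∨
    In8 a b c B m ∨ In8 (-a) (-b) (-c) (-B) m := by
  rcases h with h | h | h | h
  · left
    have h13 := h 13 (by simp)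
    have h7 := h 7 (by simp)
    have h5 := h 5 (by simp)
    have h8 := h 8 (by simp)
    have a1 := dv_one (n := 13) h13.1
    have a2 := dv_one (n := 7) h7.1
    have a3 := dv_one (n := 5) h5.1
    have a4 := dv_one (n := 8) h8.1
    have b1 := dv_neg (n := 13) h13.2
    have b2 := dv_neg (n := 7) h7.2
    have b3 := dv_neg (n := 5) h5.2
    have b4 := dv_neg (n := 8) h8.2
    push_cast at a1 a2 a3 a4 b1 b2 b3 b4
    refine ⟨?_, ?_, ?_, ?_⟩ <;> omega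
  · right; left
    have h13 := h 13 (by simp)
    have h7 := h 7 (by simp)
    have h5 := h 5 (by simp)
    have h8 := h 8 (by simp)
    have a1 := dv_neg (n := 13) h13.1
    have a2 := dv_neg (n := 7) h7.1
    have a3 := dv_neg (n := 5) h5.1
    have a4 := dv_neg (n := 8) h8.1
    have b1 := dv_one (n := 13) h13.2
    have b2 := dv_one (n := 7) h7.2
    have b3 := dv_one (n := 5) h5.2
    have b4 := dv_one (n := 8) h8.2
    push_cast at a1 a2 a3 a4 b1 b2 b3 b4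
    refine ⟨?_, ?_, ?_, ?_⟩ <;> omega
  · exact Or.inr (Or.inr (Or.inl h))
  · exact Or.inr (Or.inr (Or.inr h))

/-- **the first stages of the elimination** -/
theorem stage8 {Q : ℕ} {a b c B m : ℤ} (S : Sys6 Q a b c B m) (hQ : 3640 ∣ Q) :
    (455 ∣ a - 1 ∧ 455 ∣ b + 1 ∧ 8 ∣ a - 1 ∧ 8 ∣ b + 1) ∨
    (455 ∣ a + 1 ∧ 455 ∣ b - 1 ∧ 8 ∣ a + 1 ∧ 8 ∣ b - 1) ∨
    In8 a b c B m ∨ In8 (-a) (-b) (-c) (-B) m := by
  rcases n6_main S ((by norm_num : 455 ∣ 3640).trans hQ) lf8 all8 with h | h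
  · exact res8 (fin8_spec (lf8_spec S hQ h))
  · have h1 := res8 (fin8_spec (lf8_spec S.neg hQ h))
    rw [neg_neg, neg_neg, neg_neg, neg_neg] at h1
    rcases h1 with ⟨h1, h2, h3, h4⟩ | ⟨h1, h2, h3, h4⟩ | h1 | h1
    · right; left
      refine ⟨?_, ?_, ?_, ?_⟩ <;> omega
    · left
      refine ⟨?_, ?_, ?_, ?_⟩ <;> omega
    · exact Or.inr (Or.inr (Or.inr h1))
    · exact Or.inr (Or.inr (Or.inl h1))

end Pool.Agent.PSX.EL
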