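import Pool.Agent.PSX.KEnd
import Pool.Agent.PSX.KIn8
import Pool.Agent.PSX.Stage8

/-!
Period six, elimination: the theorem.
-/

namespace Pool.Agent.PSX.K

open Pool.Agent.PSX.EL
open Pool.Agent.LibH4.S7 (y3 y3_neg)

variable {Q : ℕ} {a b c B m : ℤ}

/-- the ghosts of the eighth stage -/
lemma gh_of (h : (455 : ℤ) ∣ a - 1 ∧ (455 : ℤ) ∣ b + 1 ∧ (8 : ℤ) ∣ a - 1 ∧ (8 : ℤ) ∣ b + 1) :
    Gh 13 a b ∧ Gh 7 a b ∧ Gh 5 a b ∧ Gh 8 a b := by
  obtain ⟨h1, h2, h3, h4⟩ := h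
  exact ⟨⟨Dvd.dvd.trans (by norm_num) h1, Dvd.dvd.trans (by norm_num) h2⟩,
    ⟨Dvd.dvd.trans (by norm_num) h1, Dvd.dvd.trans (by norm_num) h2⟩,
    ⟨Dvd.dvd.trans (by norm_num) h1, Dvd.dvd.trans (by norm_num) h2⟩, ⟨h3, h4⟩⟩

/-- `1365` divides -/
lemma gh_all (S : Sys6 Q a b c B m) (hQ : 38798760 ∣ Q)
    (h : (455 : ℤ) ∣ a - 1 ∧ (455 : ℤ) ∣ b + 1 ∧ (8 : ℤ) ∣ a - 1 ∧ (8 : ℤ) ∣ b + 1) :
    (1365 : ℤ) ∣ a - 1 ∧ (1365 : ℤ) ∣ b + 1 := by
  obtain ⟨g13, g7, g5, g8⟩ := gh_of h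
  have g3 := gh3 S hQ g13 g7 g5 g8
  have h1 := g3.1
  have h2 := g3.2
  obtain ⟨k1, k2, -, -⟩ := h
  push_cast at h1 h2
  constructor <;> omega

/-- **the elimination** -/
theorem elim6 (S : Sys6 Q a b c B m) (hQ : 38798760 ∣ Q) :
    ((1365 : ℤ) ∣ a - 1 ∧ (1365 : ℤ) ∣ b + 1) ∨ ((1365 : ℤ) ∣ a + 1 ∧ (1365 : ℤ) ∣ b - 1) := by
  rcases stage8 S (Dvd.dvd.trans (by norm_num) hQ) with h | h | h | h
  · exact Or.inl (gh_all S hQ h)
  · right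
    obtain ⟨h1, h2, h3, h4⟩ := h
    have := gh_all S.neg hQ ⟨by omega, by omega, by omega, by omega⟩
    omega
  · exact (no_R8 S hQ (R8_of_In8 h)).elim
  · exact (no_R8 S.neg hQ (R8_of_In8 h)).elim

/-- **the elimination, middle value `3`** -/
theorem elim6_three (S : Sys6 Q a b c B m) (hQ : 12932920 ∣ Q) (h3 : y3 a b B m = 3) : False := by
  have key : ∀ {a b c B m : ℤ}, Sys6 Q a b c B m → y3 a b B m = 3 →
      ((455 : ℤ) ∣ a - 1 ∧ (455 : ℤ) ∣ b + 1 ∧ (8 : ℤ) ∣ a - 1 ∧ (8 : ℤ) ∣ b + 1) → False := by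
    intro a b c B m S h3 h
    have g := (gh_of h).1
    have ha : ((a : ℤ) : ZMod 13) = 1 := by
      have := (ZMod.intCast_zmod_eq_zero_iff_dvd (a - 1) 13).2 g.1
      push_cast at this
      linear_combination this
    have hb : ((b : ℤ) : ZMod 13) = -1 := by
      have := (ZMod.intCast_zmod_eq_zero_iff_dvd (b + 1) 13).2 g.2
      push_cast at this
      linear_combination this
    have h1 := congrArg (Int.cast : ℤ → ZMod 13) h3
    unfold y3 LibH4.S7.y2 LibH4.S7.r2 at h1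
    push_cast at h1
    rw [ha, hb] at h1
    have h2 : (4 : ZMod 13) = 0 := by linear_combination -h1
    exact absurd h2 (by decide)
  have h3' : y3 (-a) (-b) (-B) m = 3 := by rw [y3_neg]; exact h3
  rcases stage8 S (Dvd.dvd.trans (by norm_num) hQ) with h | h | h | h
  · exact key S h3 h
  · obtain ⟨h1, h2, h4, h5⟩ := h
    exact key S.neg h3' ⟨by omega, by omega, by omega, by omega⟩
  · exact no_three S (Dvd.dvd.trans (by norm_num) hQ) h3 (R8_of_In8 h)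
  · exact no_three S.neg (Dvd.dvd.trans (by norm_num) hQ) h3' (R8_of_In8 h)

end Pool.Agent.PSX.K
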