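import Pool.Agent.PSX.E6Odd
import Pool.Agent.PSX.KMain

/-!
Period six, odd discriminants: the elimination of all large parameters.
-/

namespace Pool.Agent.PSX

open Pool.Agent.LibH4 Pool.Agent.Lib_helper5

/-- odd discriminants -/
theorem hodd (a b c B : ℕ) (m r p : ℤ) (h : E6.Par a b c B m r p) (hm2 : m % 2 = 1)
    (hB2 : B % 2 = 1) (hp4 : p % 4 = 3) (hsq : Squarefree ((B : ℤ) ^ 2 + 4 * m)) (h1 : 23 < m)
    (h2 : 37 < r)
    [IsDomain (QuadraticAlgebra ℤ m (B : ℤ))]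
    [UniqueFactorizationMonoid (QuadraticAlgebra ℤ m (B : ℤ))] : False :=
  hodd_of (fun S hQ => K.elim6 S hQ) (fun S hQ h3 => K.elim6_three S hQ h3)
    a b c B m r p h hm2 hB2 hp4 hsq h1 h2

end Pool.Agent.PSX
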