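import Pool.Agent.PSX.K17_0
import Pool.Agent.PSX.K17_1
import Pool.Agent.PSX.K17_2
import Pool.Agent.PSX.K17_3

/-! generated: step 17 -/

namespace Pool.Agent.PSX.K

theorem s17 : ∀ x < 17, ∃ Bs, x ∈ Bs ∧ chk17 e17 S11 K11 Bs = true := by
  intro x hx
  interval_cases x
  · exact ⟨_, by simp, s17_0⟩
  · exact ⟨_, by simp, s17_0⟩
  · exact ⟨_, by simp, s17_0⟩
  · exact ⟨_, by simp, s17_0⟩
  · exact ⟨_, by simp, s17_1⟩
  · exact ⟨_, by simp, s17_1⟩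
  · exact ⟨_, by simp, s17_1⟩
  · exact ⟨_, by simp, s17_1⟩
  · exact ⟨_, by simp, s17_2⟩
  · exact ⟨_, by simp, s17_2⟩
  · exact ⟨_, by simp, s17_2⟩
  · exact ⟨_, by simp, s17_2⟩
  · exact ⟨_, by simp, s17_3⟩
  · exact ⟨_, by simp, s17_3⟩
  · exact ⟨_, by simp, s17_3⟩
  · exact ⟨_, by simp, s17_3⟩
  · exact ⟨_, by simp, s17_3⟩

end Pool.Agent.PSX.K
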