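import Pool.Agent.PSX.KDat19

/-! generated: step 19, group 2 -/

namespace Pool.Agent.PSX.K

theorem s19_2_1_0 : chk19 e19 G19 BG2 [(nat_lit 5), (nat_lit 6), (nat_lit 7)] = true := by
  decide +kernel

theorem s19_2_1_1 : chk19 e19 G19 BG2 [(nat_lit 8), (nat_lit 9)] = true := by
  decide +kernel

end Pool.Agent.PSX.K
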