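import Pool.Agent.PSX.K19_0_0
import Pool.Agent.PSX.K19_0_1
import Pool.Agent.PSX.K19_0_2
import Pool.Agent.PSX.K19_0_3
import Pool.Agent.PSX.K19_1_0
import Pool.Agent.PSX.K19_1_1
import Pool.Agent.PSX.K19_1_2
import Pool.Agent.PSX.K19_1_3
import Pool.Agent.PSX.K19_2_0
import Pool.Agent.PSX.K19_2_1
import Pool.Agent.PSX.K19_2_2
import Pool.Agent.PSX.K19_2_3
import Pool.Agent.PSX.K19_3_0
import Pool.Agent.PSX.K19_3_1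
import Pool.Agent.PSX.K19_3_2
import Pool.Agent.PSX.K19_3_3

/-! generated: step 19 -/

namespace Pool.Agent.PSX.K

theorem s19_0 : ∀ x < 19, ∃ Bs, x ∈ Bs ∧ chk19 e19 G19 BG0 Bs = true := by
  intro x hx
  interval_cases x
  · exact ⟨_, by simp, s19_0_0_0⟩
  · exact ⟨_, by simp, s19_0_0_0⟩
  · exact ⟨_, by simp, s19_0_0_0⟩
  · exact ⟨_, by simp, s19_0_0_1⟩
  · exact ⟨_, by simp, s19_0_0_1⟩
  · exact ⟨_, by simp, s19_0_1_0⟩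
  · exact ⟨_, by simp, s19_0_1_0⟩
  · exact ⟨_, by simp, s19_0_1_0⟩
  · exact ⟨_, by simp, s19_0_1_1⟩
  · exact ⟨_, by simp, s19_0_1_1⟩
  · exact ⟨_, by simp, s19_0_2_0⟩
  · exact ⟨_, by simp, s19_0_2_0⟩
  · exact ⟨_, by simp, s19_0_2_0⟩
  · exact ⟨_, by simp, s19_0_2_1⟩
  · exact ⟨_, by simp, s19_0_2_1⟩
  · exact ⟨_, by simp, s19_0_3_0⟩
  · exact ⟨_, by simp, s19_0_3_0⟩
  · exact ⟨_, by simp, s19_0_3_1⟩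
  · exact ⟨_, by simp, s19_0_3_1⟩

theorem s19_1 : ∀ x < 19, ∃ Bs, x ∈ Bs ∧ chk19 e19 G19 BG1 Bs = true := by
  intro x hx
  interval_cases x
  · exact ⟨_, by simp, s19_1_0_0⟩
  · exact ⟨_, by simp, s19_1_0_0⟩
  · exact ⟨_, by simp, s19_1_0_0⟩
  · exact ⟨_, by simp, s19_1_0_1⟩
  · exact ⟨_, by simp, s19_1_0_1⟩
  · exact ⟨_, by simp, s19_1_1_0⟩
  · exact ⟨_, by simp, s19_1_1_0⟩
  · exact ⟨_, by simp, s19_1_1_0⟩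
  · exact ⟨_, by simp, s19_1_1_1⟩
  · exact ⟨_, by simp, s19_1_1_1⟩
  · exact ⟨_, by simp, s19_1_2_0⟩
  · exact ⟨_, by simp, s19_1_2_0⟩
  · exact ⟨_, by simp, s19_1_2_0⟩
  · exact ⟨_, by simp, s19_1_2_1⟩
  · exact ⟨_, by simp, s19_1_2_1⟩
  · exact ⟨_, by simp, s19_1_3_0⟩
  · exact ⟨_, by simp, s19_1_3_0⟩
  · exact ⟨_, by simp, s19_1_3_1⟩
  · exact ⟨_, by simp, s19_1_3_1⟩

theorem s19_2 : ∀ x < 19, ∃ Bs, x ∈ Bs ∧ chk19 e19 G19 BG2 Bs = true := by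
  intro x hx
  interval_cases x
  · exact ⟨_, by simp, s19_2_0_0⟩
  · exact ⟨_, by simp, s19_2_0_0⟩
  · exact ⟨_, by simp, s19_2_0_0⟩
  · exact ⟨_, by simp, s19_2_0_1⟩
  · exact ⟨_, by simp, s19_2_0_1⟩
  · exact ⟨_, by simp, s19_2_1_0⟩
  · exact ⟨_, by simp, s19_2_1_0⟩
  · exact ⟨_, by simp, s19_2_1_0⟩
  · exact ⟨_, by simp, s19_2_1_1⟩
  · exact ⟨_, by simp, s19_2_1_1⟩
  · exact ⟨_, by simp, s19_2_2_0⟩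
  · exact ⟨_, by simp, s19_2_2_0⟩
  · exact ⟨_, by simp, s19_2_2_0⟩
  · exact ⟨_, by simp, s19_2_2_1⟩
  · exact ⟨_, by simp, s19_2_2_1⟩
  · exact ⟨_, by simp, s19_2_3_0⟩
  · exact ⟨_, by simp, s19_2_3_0⟩
  · exact ⟨_, by simp, s19_2_3_1⟩
  · exact ⟨_, by simp, s19_2_3_1⟩

theorem s19_3 : ∀ x < 19, ∃ Bs, x ∈ Bs ∧ chk19 e19 G19 BG3 Bs = true := by
  intro x hx
  interval_cases x
  · exact ⟨_, by simp, s19_3_0_0⟩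
  · exact ⟨_, by simp, s19_3_0_0⟩
  · exact ⟨_, by simp, s19_3_0_0⟩
  · exact ⟨_, by simp, s19_3_0_1⟩
  · exact ⟨_, by simp, s19_3_0_1⟩
  · exact ⟨_, by simp, s19_3_1_0⟩
  · exact ⟨_, by simp, s19_3_1_0⟩
  · exact ⟨_, by simp, s19_3_1_0⟩
  · exact ⟨_, by simp, s19_3_1_1⟩
  · exact ⟨_, by simp, s19_3_1_1⟩
  · exact ⟨_, by simp, s19_3_2_0⟩
  · exact ⟨_, by simp, s19_3_2_0⟩
  · exact ⟨_, by simp, s19_3_2_0⟩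
  · exact ⟨_, by simp, s19_3_2_1⟩
  · exact ⟨_, by simp, s19_3_2_1⟩
  · exact ⟨_, by simp, s19_3_3_0⟩
  · exact ⟨_, by simp, s19_3_3_0⟩
  · exact ⟨_, by simp, s19_3_3_1⟩
  · exact ⟨_, by simp, s19_3_3_1⟩

end Pool.Agent.PSX.K
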