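import Pool.Agent.RQM.C120

/-!
Period six, elimination: the classes modulo `13`, `7`, `5`, `8` left by the first four primes: boxes
(words of period two of the fields of discriminant `437`, `453`, `1133`) and single classes.
-/

namespace Pool.Agent.PSX.K

open Pool.Agent.LibH4.S7 (Bx InB cd inBss inBss_spec)

/-- group of boxes -/
def BG0 : List Bx := [
  ⟨[(nat_lit 184717), (nat_lit 186577), (nat_lit 186240), (nat_lit 185903), (nat_lit 185566), (nat_lit 185229), (nat_lit 184892), (nat_lit 184555), (nat_lit 186415), (nat_lit 186078), (nat_lit 185741), (nat_lit 185404), (nat_lit 185067)], [(nat_lit 13769), (nat_lit 14015), (nat_lit 13918), (nat_lit 13821), (nat_lit 13724), (nat_lit 13970), (nat_lit 13873)], [(nat_lit 3025), (nat_lit 3101), (nat_lit 3052), (nat_lit 3003), (nat_lit 3079)], [(nat_lit 13888), (nat_lit 14273), (nat_lit 14146), (nat_lit 14019), (nat_lit 13892),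 (nat_lit 14277), (nat_lit 14150), (nat_lit 14023)], []⟩,
  ⟨[(nat_lit 184717), (nat_lit 323141), (nat_lit 33150), (nat_lit 57330), (nat_lit 52949), (nat_lit 334178), (nat_lit 186992), (nat_lit 353977), (nat_lit 92547), (nat_lit 145288), (nat_lit 169468), (nat_lit 107965), (nat_lit 360633)], [(nat_lit 13769), (nat_lit 5887), (nat_lit 10010), (nat_lit 11732), (nat_lit 6251), (nat_lit 12775), (nat_lit 14497)], [(nat_lit 3025), (nat_lit 1530), (nat_lit 1910), (nat_lit 1665), (nat_lit 2670)], [(nat_lit 13888), (nat_lit 21064), (nat_lit 24144), (nat_lit 14936), (nat_lit 30304), (nat_lit 4712), (nat_lit 7792), (nat_lit 31352)], []⟩,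
  ⟨[(nat_lit 317382), (nat_lit 317045), (nat_lit 316708), (nat_lit 316371), (nat_lit 318231), (nat_lit 317894), (nat_lit 317557), (nat_lit 317220), (nat_lit 316883), (nat_lit 316546), (nat_lit 318406), (nat_lit 318069), (nat_lit 317732)], [(nat_lit 7791), (nat_lit 7694), (nat_lit 7597), (nat_lit 7843), (nat_lit 7746), (nat_lit 7649), (nat_lit 7552)], [(nat_lit 2725), (nat_lit 2676), (nat_lit 2627), (nat_lit 2703), (nat_lit 2654)], [(nat_lit 12992), (nat_lit 12865), (nat_lit 13250), (nat_lit 13123), (nat_lit 12996), (nat_lit 12869), (nat_lit 13254), (nat_lit 13127)], []⟩,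
  ⟨[(nat_lit 317382), (nat_lit 341562), (nat_lit 280059), (nat_lit 161434), (nat_lit 356980), (nat_lit 124111), (nat_lit 205413), (nat_lit 229593), (nat_lit 225212), (nat_lit 135148), (nat_lit 359255), (nat_lit 154947), (nat_lit 264810)], [(nat_lit 7791), (nat_lit 9513), (nat_lit 4032), (nat_lit 10556), (nat_lit 12278), (nat_lit 11599), (nat_lit 3717)], [(nat_lit 2725), (nat_lit 3105), (nat_lit 1610), (nat_lit 1990), (nat_lit 1745)], [(nat_lit 12992), (nat_lit 16072), (nat_lit 6864), (nat_lit 22232), (nat_lit 29408), (nat_lit 32488), (nat_lit 23280), (nat_lit 5880)], []⟩,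
  ⟨[(nat_lit 361153), (nat_lit 360816), (nat_lit 360479), (nat_lit 362339), (nat_lit 362002), (nat_lit 361665), (nat_lit 361328), (nat_lit 360991), (nat_lit 360654), (nat_lit 360317), (nat_lit 362177), (nat_lit 361840), (nat_lit 361503)], [(nat_lit 14406), (nat_lit 14652), (nat_lit 14555), (nat_lit 14458), (nat_lit 14704), (nat_lit 14607), (nat_lit 14510)], [(nat_lit 2725), (nat_lit 2676), (nat_lit 2627), (nat_lit 2703), (nat_lit 2654)], [(nat_lit 31424), (nat_lit 31297), (nat_lit 31682), (nat_lit 31555), (nat_lit 31428), (nat_lit 31301), (nat_lit 31686), (nat_lit 31559)], []⟩]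

/-- group of boxes -/
def BG1 : List Bx := [
  ⟨[(nat_lit 361153), (nat_lit 185406), (nat_lit 323830), (nat_lit 33839), (nat_lit 58019), (nat_lit 53638), (nat_lit 334867), (nat_lit 187681), (nat_lit 354666), (nat_lit 93236), (nat_lit 145977), (nat_lit 170157), (nat_lit 108654)], [(nat_lit 14406), (nat_lit 13727), (nat_lit 5845), (nat_lit 9968), (nat_lit 11690), (nat_lit 6209), (nat_lit 12733)], [(nat_lit 2725), (nat_lit 3105), (nat_lit 1610), (nat_lit 1990), (nat_lit 1745)], [(nat_lit 31424), (nat_lit 14024), (nat_lit 21200), (nat_lit 24280), (nat_lit 15072), (nat_lit 30440), (nat_lit 4848), (nat_lit 7928)], []⟩,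
  ⟨[(nat_lit 104442), (nat_lit 104105), (nat_lit 103768), (nat_lit 103431), (nat_lit 105291), (nat_lit 104954), (nat_lit 104617), (nat_lit 104280), (nat_lit 103943), (nat_lit 103606), (nat_lit 103269), (nat_lit 105129), (nat_lit 104792)], [(nat_lit 7203), (nat_lit 7449), (nat_lit 7352), (nat_lit 7255), (nat_lit 7501), (nat_lit 7404), (nat_lit 7307)], [(nat_lit 2050), (nat_lit 2001), (nat_lit 2077), (nat_lit 2028), (nat_lit 2104)], [(nat_lit 15296), (nat_lit 15169), (nat_lit 15042), (nat_lit 14915), (nat_lit 15300), (nat_lit 15173), (nat_lit 15046), (nat_lit 14919)], []⟩,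
  ⟨[(nat_lit 104442), (nat_lit 299988), (nat_lit 67119), (nat_lit 148421), (nat_lit 172601), (nat_lit 168220), (nat_lit 78156), (nat_lit 302263), (nat_lit 97955), (nat_lit 207818), (nat_lit 260559), (nat_lit 284739), (nat_lit 223236)], [(nat_lit 7203), (nat_lit 6524), (nat_lit 15449), (nat_lit 2765), (nat_lit 4487), (nat_lit 15813), (nat_lit 5530)], [(nat_lit 2050), (nat_lit 2430), (nat_lit 935), (nat_lit 1315), (nat_lit 1070)], [(nat_lit 15296), (nat_lit 30664), (nat_lit 5072), (nat_lit 8152), (nat_lit 31712), (nat_lit 14312), (nat_lit 21488), (nat_lit 24568)], []⟩,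
  ⟨[(nat_lit 273780), (nat_lit 273443), (nat_lit 273106), (nat_lit 272769), (nat_lit 272432), (nat_lit 274292), (nat_lit 273955), (nat_lit 273618), (nat_lit 273281), (nat_lit 272944), (nat_lit 272607), (nat_lit 274467), (nat_lit 274130)], [(nat_lit 12005), (nat_lit 12251), (nat_lit 12154), (nat_lit 12057), (nat_lit 12303), (nat_lit 12206), (nat_lit 12109)], [(nat_lit 1525), (nat_lit 1601), (nat_lit 1552), (nat_lit 1503), (nat_lit 1579)], [(nat_lit 16192), (nat_lit 16065), (nat_lit 15938), (nat_lit 16323), (nat_lit 16196), (nat_lit 16069), (nat_lit 15942), (nat_lit 16327)], []⟩,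
  ⟨[(nat_lit 273780), (nat_lit 69472), (nat_lit 179335), (nat_lit 232076), (nat_lit 256256), (nat_lit 194753), (nat_lit 76128), (nat_lit 271674), (nat_lit 38805), (nat_lit 120107), (nat_lit 144287), (nat_lit 139906), (nat_lit 49842)], [(nat_lit 12005), (nat_lit 11326), (nat_lit 3444), (nat_lit 7567), (nat_lit 9289), (nat_lit 3808), (nat_lit 10332)], [(nat_lit 1525), (nat_lit 1905), (nat_lit 1660), (nat_lit 2665), (nat_lit 3045)], [(nat_lit 16192), (nat_lit 6984), (nat_lit 22352), (nat_lit 29528), (nat_lit 32608), (nat_lit 23400), (nat_lit 6000), (nat_lit 13176)], []⟩]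

/-- group of boxes -/
def BG2 : List Bx := [
  ⟨[(nat_lit 354666), (nat_lit 285559), (nat_lit 240450), (nat_lit 247562), (nat_lit 259575), (nat_lit 361665), (nat_lit 342582), (nat_lit 176131), (nat_lit 54634), (nat_lit 199988), (nat_lit 33368), (nat_lit 197481), (nat_lit 316640)], [(nat_lit 14406), (nat_lit 9563), (nat_lit 10404), (nat_lit 6786), (nat_lit 5618), (nat_lit 11604), (nat_lit 7643)], [(nat_lit 3105), (nat_lit 2486), (nat_lit 1267), (nat_lit 2048), (nat_lit 2654)], [(nat_lit 30440), (nat_lit 8177), (nat_lit 4730), (nat_lit 31555), (nat_lit 16332), (nat_lit 22229), (nat_lit 23390), (nat_lit 12903)], []⟩,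
  ⟨[(nat_lit 144730)], [(nat_lit 10151)], [(nat_lit 906)], [(nat_lit 5873)], []⟩,
  ⟨[(nat_lit 172082)], [(nat_lit 4530)], [(nat_lit 1716)], [(nat_lit 23257)], []⟩,
  ⟨[(nat_lit 173343)], [(nat_lit 6685)], [(nat_lit 1034)], [(nat_lit 16230)], []⟩,
  ⟨[(nat_lit 230452)], [(nat_lit 5532)], [(nat_lit 898)], [(nat_lit 5716)], []⟩,
  ⟨[(nat_lit 316083)], [(nat_lit 11985)], [(nat_lit 1021)], [(nat_lit 14945)], []⟩,
  ⟨[(nat_lit 314472)], [(nat_lit 11741)], [(nat_lit 1037)], [(nat_lit 14954)], []⟩,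
  ⟨[(nat_lit 32953)], [(nat_lit 3078)], [(nat_lit 2113)], [(nat_lit 13254)], []⟩,
  ⟨[(nat_lit 32953)], [(nat_lit 3078)], [(nat_lit 2113)], [(nat_lit 29670)], []⟩,
  ⟨[(nat_lit 30964)], [(nat_lit 2819)], [(nat_lit 2048)], [(nat_lit 12878)], []⟩,
  ⟨[(nat_lit 30964)], [(nat_lit 2819)], [(nat_lit 2048)], [(nat_lit 29294)], []⟩,
  ⟨[(nat_lit 146836)], [(nat_lit 5965)], [(nat_lit 1966)], [(nat_lit 8177)], []⟩,
  ⟨[(nat_lit 145936)], [(nat_lit 2994)], [(nat_lit 2643)], [(nat_lit 13166)], []⟩,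
  ⟨[(nat_lit 145936)], [(nat_lit 2994)], [(nat_lit 2643)], [(nat_lit 29518)], []⟩,
  ⟨[(nat_lit 146740)], [(nat_lit 10167)], [(nat_lit 2066)], [(nat_lit 13148)], []⟩,
  ⟨[(nat_lit 146469)], [(nat_lit 2854)], [(nat_lit 2643)], [(nat_lit 13030)], []⟩,
  ⟨[(nat_lit 146469)], [(nat_lit 2854)], [(nat_lit 2643)], [(nat_lit 29382)], []⟩,
  ⟨[(nat_lit 146740)], [(nat_lit 10167)], [(nat_lit 2691)], [(nat_lit 13148)], []⟩,
  ⟨[(nat_lit 232441)], [(nat_lit 10151)], [(nat_lit 2056)], [(nat_lit 21361)], []⟩,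
  ⟨[(nat_lit 232702)], [(nat_lit 10089)], [(nat_lit 2072)], [(nat_lit 21370)], []⟩,
  ⟨[(nat_lit 230721)], [(nat_lit 10259)], [(nat_lit 2087)], [(nat_lit 4949)], []⟩,
  ⟨[(nat_lit 231177)], [(nat_lit 10036)], [(nat_lit 2018)], [(nat_lit 5110)], []⟩,
  ⟨[(nat_lit 231177)], [(nat_lit 10036)], [(nat_lit 2018)], [(nat_lit 21462)], []⟩,
  ⟨[(nat_lit 231399)], [(nat_lit 9967)], [(nat_lit 2014)], [(nat_lit 21335)], []⟩,
  ⟨[(nat_lit 232217)], [(nat_lit 2854)], [(nat_lit 2113)], [(nat_lit 4702)], []⟩,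
  ⟨[(nat_lit 232217)], [(nat_lit 2854)], [(nat_lit 2113)], [(nat_lit 21118)], []⟩,
  ⟨[(nat_lit 261301)], [(nat_lit 7856)], [(nat_lit 2113)], [(nat_lit 5072)], []⟩,
  ⟨[(nat_lit 261301)], [(nat_lit 7856)], [(nat_lit 2113)], [(nat_lit 5076)], []⟩,
  ⟨[(nat_lit 231385)], [(nat_lit 2994)], [(nat_lit 2048)], [(nat_lit 5110)], []⟩,
  ⟨[(nat_lit 231385)], [(nat_lit 2994)], [(nat_lit 2048)], [(nat_lit 21462)], []⟩,
  ⟨[(nat_lit 232594)], [(nat_lit 10267)], [(nat_lit 2018)], [(nat_lit 4702)], []⟩,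
  ⟨[(nat_lit 232594)], [(nat_lit 10267)], [(nat_lit 2018)], [(nat_lit 21118)], []⟩,
  ⟨[(nat_lit 260742)], [(nat_lit 15569)], [(nat_lit 1266)], [(nat_lit 24305)], []⟩,
  ⟨[(nat_lit 259560)], [(nat_lit 7633)], [(nat_lit 2044)], [(nat_lit 4721)], []⟩,
  ⟨[(nat_lit 259560)], [(nat_lit 7633)], [(nat_lit 2044)], [(nat_lit 4725)], []⟩,
  ⟨[(nat_lit 260951)], [(nat_lit 7753)], [(nat_lit 2056)], [(nat_lit 4936)], []⟩,
  ⟨[(nat_lit 260132)], [(nat_lit 10019)], [(nat_lit 2692)], [(nat_lit 21082)], []⟩,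
  ⟨[(nat_lit 259575)], [(nat_lit 7643)], [(nat_lit 2048)], [(nat_lit 21082)], []⟩,
  ⟨[(nat_lit 261222)], [(nat_lit 10067)], [(nat_lit 2682)], [(nat_lit 29539)], []⟩,
  ⟨[(nat_lit 261395)], [(nat_lit 7853)], [(nat_lit 2113)], [(nat_lit 5106)], []⟩,
  ⟨[(nat_lit 261395)], [(nat_lit 7853)], [(nat_lit 2113)], [(nat_lit 5110)], []⟩,
  ⟨[(nat_lit 261395)], [(nat_lit 7853)], [(nat_lit 2113)], [(nat_lit 21458)], []⟩,
  ⟨[(nat_lit 260137)], [(nat_lit 6784)], [(nat_lit 3019)], [(nat_lit 7002)], []⟩,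
  ⟨[(nat_lit 259543)], [(nat_lit 10267)], [(nat_lit 2683)], [(nat_lit 13030)], []⟩,
  ⟨[(nat_lit 259543)], [(nat_lit 10267)], [(nat_lit 2683)], [(nat_lit 29382)], []⟩,
  ⟨[(nat_lit 261350)], [(nat_lit 10036)], [(nat_lit 2703)], [(nat_lit 13166)], []⟩,
  ⟨[(nat_lit 261350)], [(nat_lit 10036)], [(nat_lit 2703)], [(nat_lit 29518)], []⟩,
  ⟨[(nat_lit 259479)], [(nat_lit 7643)], [(nat_lit 2044)], [(nat_lit 4691)], []⟩,
  ⟨[(nat_lit 259726)], [(nat_lit 6745)], [(nat_lit 3088)], [(nat_lit 6760)], []⟩,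
  ⟨[(nat_lit 289513)], [(nat_lit 11967)], [(nat_lit 1530)], [(nat_lit 22222)], []⟩,
  ⟨[(nat_lit 288137)], [(nat_lit 11857)], [(nat_lit 1522)], [(nat_lit 22520)], []⟩,
  ⟨[(nat_lit 288917)], [(nat_lit 7552)], [(nat_lit 2087)], [(nat_lit 29304)], []⟩,
  ⟨[(nat_lit 288917)], [(nat_lit 7552)], [(nat_lit 2712)], [(nat_lit 29304)], []⟩,
  ⟨[(nat_lit 289869)], [(nat_lit 11972)], [(nat_lit 1610)], [(nat_lit 22483)], []⟩,
  ⟨[(nat_lit 289869)], [(nat_lit 11972)], [(nat_lit 1610)], [(nat_lit 22487)], []⟩,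
  ⟨[(nat_lit 288128)], [(nat_lit 11749)], [(nat_lit 1541)], [(nat_lit 22128)], []⟩,
  ⟨[(nat_lit 288128)], [(nat_lit 11749)], [(nat_lit 1541)], [(nat_lit 22132)], []⟩,
  ⟨[(nat_lit 289404)], [(nat_lit 7789)], [(nat_lit 2713)], [(nat_lit 13254)], []⟩,
  ⟨[(nat_lit 289404)], [(nat_lit 7789)], [(nat_lit 2713)], [(nat_lit 29670)], []⟩,
  ⟨[(nat_lit 289105)], [(nat_lit 3008)], [(nat_lit 2703)], [(nat_lit 4702)], []⟩,
  ⟨[(nat_lit 289105)], [(nat_lit 3008)], [(nat_lit 2703)], [(nat_lit 21118)], []⟩,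
  ⟨[(nat_lit 288910)], [(nat_lit 2889)], [(nat_lit 2683)], [(nat_lit 5110)], []⟩,
  ⟨[(nat_lit 288910)], [(nat_lit 2889)], [(nat_lit 2683)], [(nat_lit 21462)], []⟩,
  ⟨[(nat_lit 288611)], [(nat_lit 7712)], [(nat_lit 2698)], [(nat_lit 12878)], []⟩,
  ⟨[(nat_lit 288611)], [(nat_lit 7712)], [(nat_lit 2698)], [(nat_lit 29294)], []⟩,
  ⟨[(nat_lit 317707)], [(nat_lit 7686)], [(nat_lit 2670)], [(nat_lit 16069)], []⟩,
  ⟨[(nat_lit 317707)], [(nat_lit 7686)], [(nat_lit 3101)], [(nat_lit 13176)], []⟩,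
  ⟨[(nat_lit 317707)], [(nat_lit 7686)], [(nat_lit 3101)], [(nat_lit 16069)], []⟩,
  ⟨[(nat_lit 288053)], [(nat_lit 6173)], [(nat_lit 1939)], [(nat_lit 32455)], []⟩,
  ⟨[(nat_lit 317707)], [(nat_lit 9508)], [(nat_lit 2670)], [(nat_lit 13176)], []⟩,
  ⟨[(nat_lit 317707)], [(nat_lit 9508)], [(nat_lit 2670)], [(nat_lit 16069)], []⟩,
  ⟨[(nat_lit 317707)], [(nat_lit 9508)], [(nat_lit 3101)], [(nat_lit 13176)], []⟩,
  ⟨[(nat_lit 317707)], [(nat_lit 9508)], [(nat_lit 3101)], [(nat_lit 16069)], []⟩,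
  ⟨[(nat_lit 317557)], [(nat_lit 7649)], [(nat_lit 2654)], [(nat_lit 16072)], []⟩,
  ⟨[(nat_lit 317557)], [(nat_lit 7649)], [(nat_lit 3105)], [(nat_lit 13123)], []⟩,
  ⟨[(nat_lit 317557)], [(nat_lit 7649)], [(nat_lit 3105)], [(nat_lit 16072)], []⟩,
  ⟨[(nat_lit 317557)], [(nat_lit 9513)], [(nat_lit 2654)], [(nat_lit 13123)], []⟩,
  ⟨[(nat_lit 317557)], [(nat_lit 9513)], [(nat_lit 2654)], [(nat_lit 16072)], []⟩,
  ⟨[(nat_lit 317557)], [(nat_lit 9513)], [(nat_lit 3105)], [(nat_lit 13123)], []⟩,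
  ⟨[(nat_lit 317557)], [(nat_lit 9513)], [(nat_lit 3105)], [(nat_lit 16072)], []⟩,
  ⟨[(nat_lit 317401)], [(nat_lit 7803)], [(nat_lit 2734)], [(nat_lit 13003)], []⟩,
  ⟨[(nat_lit 317401)], [(nat_lit 7803)], [(nat_lit 2734)], [(nat_lit 29387)], []⟩,
  ⟨[(nat_lit 318076)], [(nat_lit 7753)], [(nat_lit 2683)], [(nat_lit 13130)], []⟩,
  ⟨[(nat_lit 317792)], [(nat_lit 7552)], [(nat_lit 2670)], [(nat_lit 13148)], []⟩,
  ⟨[(nat_lit 317792)], [(nat_lit 7552)], [(nat_lit 2670)], [(nat_lit 29564)], []⟩,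
  ⟨[(nat_lit 318481)], [(nat_lit 7853)], [(nat_lit 2725)], [(nat_lit 13280)], []⟩,
  ⟨[(nat_lit 318481)], [(nat_lit 7853)], [(nat_lit 2725)], [(nat_lit 13284)], []⟩,
  ⟨[(nat_lit 318481)], [(nat_lit 7853)], [(nat_lit 2725)], [(nat_lit 29636)], []⟩,
  ⟨[(nat_lit 317220)], [(nat_lit 7552)], [(nat_lit 2725)], [(nat_lit 29412)], []⟩,
  ⟨[(nat_lit 316700)], [(nat_lit 7643)], [(nat_lit 2670)], [(nat_lit 29276)], []⟩,
  ⟨[(nat_lit 318222)], [(nat_lit 7686)], [(nat_lit 2721)], [(nat_lit 13309)], []⟩,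
  ⟨[(nat_lit 318222)], [(nat_lit 7686)], [(nat_lit 2721)], [(nat_lit 29693)], []⟩,
  ⟨[(nat_lit 318069)], [(nat_lit 7649)], [(nat_lit 2703)], [(nat_lit 29670)], []⟩,
  ⟨[(nat_lit 316899)], [(nat_lit 7803)], [(nat_lit 2683)], [(nat_lit 12878)], []⟩,
  ⟨[(nat_lit 316899)], [(nat_lit 7803)], [(nat_lit 2683)], [(nat_lit 29294)], []⟩,
  ⟨[(nat_lit 316769)], [(nat_lit 7719)], [(nat_lit 2113)], [(nat_lit 13166)], []⟩,
  ⟨[(nat_lit 316769)], [(nat_lit 7719)], [(nat_lit 2113)], [(nat_lit 29518)], []⟩,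
  ⟨[(nat_lit 316640)], [(nat_lit 7643)], [(nat_lit 2654)], [(nat_lit 12899)], []⟩,
  ⟨[(nat_lit 317329)], [(nat_lit 7552)], [(nat_lit 2734)], [(nat_lit 13039)], []⟩,
  ⟨[(nat_lit 317329)], [(nat_lit 7552)], [(nat_lit 2734)], [(nat_lit 29423)], []⟩,
  ⟨[(nat_lit 33398)], [(nat_lit 11726)], [(nat_lit 2001)], [(nat_lit 21465)], []⟩,
  ⟨[(nat_lit 318368)], [(nat_lit 7782)], [(nat_lit 2048)], [(nat_lit 13030)], []⟩,
  ⟨[(nat_lit 318368)], [(nat_lit 7782)], [(nat_lit 2048)], [(nat_lit 29382)], []⟩,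
  ⟨[(nat_lit 33606)], [(nat_lit 10130)], [(nat_lit 1966)], [(nat_lit 24305)], []⟩,
  ⟨[(nat_lit 33290)], [(nat_lit 6451)], [(nat_lit 1742)], [(nat_lit 29509)], []⟩,
  ⟨[(nat_lit 120264)], [(nat_lit 7764)], [(nat_lit 1336)], [(nat_lit 8177)], []⟩,
  ⟨[(nat_lit 119965)], [(nat_lit 3564)], [(nat_lit 3041)], [(nat_lit 7025)], []⟩,
  ⟨[(nat_lit 120695)], [(nat_lit 6141)], [(nat_lit 2486)], [(nat_lit 23504)], []⟩,
  ⟨[(nat_lit 120695)], [(nat_lit 6141)], [(nat_lit 2486)], [(nat_lit 23508)], []⟩,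
  ⟨[(nat_lit 120670)], [(nat_lit 14060)], [(nat_lit 1119)], [(nat_lit 30700)], []⟩,
  ⟨[(nat_lit 118954)], [(nat_lit 5918)], [(nat_lit 2417)], [(nat_lit 23153)], []⟩,
  ⟨[(nat_lit 118954)], [(nat_lit 5918)], [(nat_lit 2417)], [(nat_lit 23157)], []⟩,
  ⟨[(nat_lit 119385)], [(nat_lit 10137)], [(nat_lit 1610)], [(nat_lit 30532)], []⟩,
  ⟨[(nat_lit 120178)], [(nat_lit 5940)], [(nat_lit 2482)], [(nat_lit 23112)], []⟩,
  ⟨[(nat_lit 118802)], [(nat_lit 6173)], [(nat_lit 2474)], [(nat_lit 23418)], []⟩,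
  ⟨[(nat_lit 147916)], [(nat_lit 5712)], [(nat_lit 2703)], [(nat_lit 7156)], []⟩,
  ⟨[(nat_lit 148379)], [(nat_lit 2937)], [(nat_lit 1897)], [(nat_lit 32637)], []⟩,
  ⟨[(nat_lit 147359)], [(nat_lit 15880)], [(nat_lit 2434)], [(nat_lit 5716)], []⟩,
  ⟨[(nat_lit 147558)], [(nat_lit 3047)], [(nat_lit 1905)], [(nat_lit 32331)], []⟩,
  ⟨[(nat_lit 177932)], [(nat_lit 11649)], [(nat_lit 1116)], [(nat_lit 22513)], []⟩,
  ⟨[(nat_lit 176587)], [(nat_lit 10524)], [(nat_lit 2417)], [(nat_lit 22390)], []⟩,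
  ⟨[(nat_lit 205986)], [(nat_lit 15534)], [(nat_lit 2486)], [(nat_lit 14945)], []⟩,
  ⟨[(nat_lit 204482)], [(nat_lit 7484)], [(nat_lit 1336)], [(nat_lit 16230)], []⟩,
  ⟨[(nat_lit 205708)], [(nat_lit 6191)], [(nat_lit 911)], [(nat_lit 22356)], []⟩,
  ⟨[(nat_lit 206164)], [(nat_lit 6311)], [(nat_lit 967)], [(nat_lit 22517)], []⟩,
  ⟨[(nat_lit 291545)], [(nat_lit 10151)], [(nat_lit 1334)], [(nat_lit 24522)], []⟩,
  ⟨[(nat_lit 291666)], [(nat_lit 9980)], [(nat_lit 1263)], [(nat_lit 24298)], []⟩,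
  ⟨[(nat_lit 290327)], [(nat_lit 10036)], [(nat_lit 1293)], [(nat_lit 24178)], []⟩,
  ⟨[(nat_lit 290327)], [(nat_lit 10036)], [(nat_lit 1293)], [(nat_lit 24182)], []⟩,
  ⟨[(nat_lit 290169)], [(nat_lit 10041)], [(nat_lit 1321)], [(nat_lit 24316)], []⟩,
  ⟨[(nat_lit 290804)], [(nat_lit 4091)], [(nat_lit 1633)], [(nat_lit 14176)], []⟩,
  ⟨[(nat_lit 292068)], [(nat_lit 10259)], [(nat_lit 1362)], [(nat_lit 24529)], []⟩,
  ⟨[(nat_lit 292068)], [(nat_lit 10259)], [(nat_lit 1362)], [(nat_lit 24533)], []⟩,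
  ⟨[(nat_lit 290729)], [(nat_lit 9972)], [(nat_lit 1267)], [(nat_lit 24409)], []⟩,
  ⟨[(nat_lit 93639)], [(nat_lit 13727)], [(nat_lit 1530)], [(nat_lit 23148)], []⟩,
  ⟨[(nat_lit 94328)], [(nat_lit 14028)], [(nat_lit 1610)], [(nat_lit 5076)], []⟩,
  ⟨[(nat_lit 93679)], [(nat_lit 13763)], [(nat_lit 1541)], [(nat_lit 4945)], []⟩,
  ⟨[(nat_lit 93679)], [(nat_lit 13763)], [(nat_lit 1541)], [(nat_lit 4949)], []⟩,
  ⟨[(nat_lit 93679)], [(nat_lit 13763)], [(nat_lit 1541)], [(nat_lit 23157)], []⟩,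
  ⟨[(nat_lit 94368)], [(nat_lit 14015)], [(nat_lit 1621)], [(nat_lit 5081)], []⟩,
  ⟨[(nat_lit 94368)], [(nat_lit 14015)], [(nat_lit 1621)], [(nat_lit 21465)], []⟩,
  ⟨[(nat_lit 93236)], [(nat_lit 13727)], [(nat_lit 1610)], [(nat_lit 4852)], []⟩,
  ⟨[(nat_lit 94460)], [(nat_lit 13960)], [(nat_lit 1522)], [(nat_lit 4730)], []⟩,
  ⟨[(nat_lit 92587)], [(nat_lit 13805)], [(nat_lit 1541)], [(nat_lit 4721)], []⟩,
  ⟨[(nat_lit 92587)], [(nat_lit 13805)], [(nat_lit 1541)], [(nat_lit 4725)], []⟩,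
  ⟨[(nat_lit 179791)], [(nat_lit 3564)], [(nat_lit 1716)], [(nat_lit 22513)], []⟩,
  ⟨[(nat_lit 179101)], [(nat_lit 5957)], [(nat_lit 952)], [(nat_lit 14312)], []⟩,
  ⟨[(nat_lit 179101)], [(nat_lit 5957)], [(nat_lit 952)], [(nat_lit 14919)], []⟩,
  ⟨[(nat_lit 179101)], [(nat_lit 5957)], [(nat_lit 1060)], [(nat_lit 14919)], []⟩,
  ⟨[(nat_lit 179101)], [(nat_lit 6421)], [(nat_lit 952)], [(nat_lit 14312)], []⟩,
  ⟨[(nat_lit 179101)], [(nat_lit 6421)], [(nat_lit 952)], [(nat_lit 14919)], []⟩,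
  ⟨[(nat_lit 179101)], [(nat_lit 6421)], [(nat_lit 1060)], [(nat_lit 14312)], []⟩,
  ⟨[(nat_lit 179101)], [(nat_lit 6421)], [(nat_lit 1060)], [(nat_lit 14919)], []⟩,
  ⟨[(nat_lit 178938)], [(nat_lit 12144)], [(nat_lit 2096)], [(nat_lit 29382)], []⟩,
  ⟨[(nat_lit 179328)], [(nat_lit 5940)], [(nat_lit 1007)], [(nat_lit 14024)], []⟩,
  ⟨[(nat_lit 178978)], [(nat_lit 6440)], [(nat_lit 965)], [(nat_lit 14273)], []⟩,
  ⟨[(nat_lit 178978)], [(nat_lit 6440)], [(nat_lit 965)], [(nat_lit 14936)], []⟩,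
  ⟨[(nat_lit 178978)], [(nat_lit 6440)], [(nat_lit 1053)], [(nat_lit 14273)], []⟩,
  ⟨[(nat_lit 178978)], [(nat_lit 6440)], [(nat_lit 1053)], [(nat_lit 14936)], []⟩,
  ⟨[(nat_lit 178978)], [(nat_lit 5934)], [(nat_lit 965)], [(nat_lit 14273)], []⟩,
  ⟨[(nat_lit 178978)], [(nat_lit 5934)], [(nat_lit 965)], [(nat_lit 14936)], []⟩,
  ⟨[(nat_lit 178978)], [(nat_lit 5934)], [(nat_lit 1053)], [(nat_lit 14936)], []⟩,
  ⟨[(nat_lit 179186)], [(nat_lit 6102)], [(nat_lit 1093)], [(nat_lit 13913)], []⟩,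
  ⟨[(nat_lit 179186)], [(nat_lit 6102)], [(nat_lit 1093)], [(nat_lit 30297)], []⟩,
  ⟨[(nat_lit 180149)], [(nat_lit 6173)], [(nat_lit 1124)], [(nat_lit 14330)], []⟩,
  ⟨[(nat_lit 207949)], [(nat_lit 6560)], [(nat_lit 906)], [(nat_lit 21361)], []⟩,
  ⟨[(nat_lit 208366)], [(nat_lit 6757)], [(nat_lit 947)], [(nat_lit 21370)], []⟩,
  ⟨[(nat_lit 207426)], [(nat_lit 5913)], [(nat_lit 1698)], [(nat_lit 13926)], []⟩,
  ⟨[(nat_lit 208701)], [(nat_lit 3751)], [(nat_lit 1124)], [(nat_lit 30663)], []⟩]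

/-- group of boxes -/
def BG3 : List Bx := [
  ⟨[(nat_lit 236068)], [(nat_lit 7827)], [(nat_lit 2391)], [(nat_lit 7025)], []⟩,
  ⟨[(nat_lit 236445)], [(nat_lit 15534)], [(nat_lit 1646)], [(nat_lit 5873)], []⟩,
  ⟨[(nat_lit 237249)], [(nat_lit 10023)], [(nat_lit 3079)], [(nat_lit 6999)], []⟩,
  ⟨[(nat_lit 264519)], [(nat_lit 7321)], [(nat_lit 1939)], [(nat_lit 5970)], []⟩,
  ⟨[(nat_lit 264975)], [(nat_lit 7434)], [(nat_lit 1990)], [(nat_lit 6131)], []⟩,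
  ⟨[(nat_lit 264523)], [(nat_lit 3450)], [(nat_lit 1739)], [(nat_lit 5847)], []⟩,
  ⟨[(nat_lit 264002)], [(nat_lit 3491)], [(nat_lit 1633)], [(nat_lit 6094)], []⟩,
  ⟨[(nat_lit 265095)], [(nat_lit 3450)], [(nat_lit 1659)], [(nat_lit 5999)], []⟩,
  ⟨[(nat_lit 265095)], [(nat_lit 3450)], [(nat_lit 1659)], [(nat_lit 22383)], []⟩,
  ⟨[(nat_lit 265784)], [(nat_lit 3751)], [(nat_lit 1739)], [(nat_lit 6135)], []⟩,
  ⟨[(nat_lit 351223)], [(nat_lit 6687)], [(nat_lit 1592)], [(nat_lit 4954)], []⟩,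
  ⟨[(nat_lit 351413)], [(nat_lit 15761)], [(nat_lit 1122)], [(nat_lit 30693)], []⟩,
  ⟨[(nat_lit 351413)], [(nat_lit 15761)], [(nat_lit 1747)], [(nat_lit 30693)], []⟩,
  ⟨[(nat_lit 38624)], [(nat_lit 11362)], [(nat_lit 2676)], [(nat_lit 16353)], []⟩,
  ⟨[(nat_lit 38548)], [(nat_lit 3537)], [(nat_lit 906)], [(nat_lit 4936)], []⟩,
  ⟨[(nat_lit 38444)], [(nat_lit 7725)], [(nat_lit 1610)], [(nat_lit 29382)], []⟩,
  ⟨[(nat_lit 39369)], [(nat_lit 3770)], [(nat_lit 898)], [(nat_lit 4730)], []⟩,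
  ⟨[(nat_lit 37770)], [(nat_lit 5893)], [(nat_lit 3052)], [(nat_lit 15072)], []⟩,
  ⟨[(nat_lit 39028)], [(nat_lit 11559)], [(nat_lit 2722)], [(nat_lit 16378)], []⟩,
  ⟨[(nat_lit 39411)], [(nat_lit 3739)], [(nat_lit 988)], [(nat_lit 5072)], []⟩,
  ⟨[(nat_lit 39411)], [(nat_lit 3739)], [(nat_lit 988)], [(nat_lit 5076)], []⟩,
  ⟨[(nat_lit 37670)], [(nat_lit 3516)], [(nat_lit 919)], [(nat_lit 4721)], []⟩,
  ⟨[(nat_lit 37670)], [(nat_lit 3516)], [(nat_lit 919)], [(nat_lit 4725)], []⟩,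
  ⟨[(nat_lit 39311)], [(nat_lit 13943)], [(nat_lit 2044)], [(nat_lit 32455)], []⟩,
  ⟨[(nat_lit 67107)], [(nat_lit 12265)], [(nat_lit 1966)], [(nat_lit 14945)], []⟩,
  ⟨[(nat_lit 67575)], [(nat_lit 15569)], [(nat_lit 991)], [(nat_lit 4721)], []⟩,
  ⟨[(nat_lit 66277)], [(nat_lit 15880)], [(nat_lit 1665)], [(nat_lit 16230)], []⟩,
  ⟨[(nat_lit 66663)], [(nat_lit 15525)], [(nat_lit 1579)], [(nat_lit 29423)], []⟩,
  ⟨[(nat_lit 95642)], [(nat_lit 10137)], [(nat_lit 2096)], [(nat_lit 29657)], []⟩,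
  ⟨[(nat_lit 95642)], [(nat_lit 10137)], [(nat_lit 2096)], [(nat_lit 31449)], []⟩,
  ⟨[(nat_lit 95681)], [(nat_lit 12265)], [(nat_lit 1336)], [(nat_lit 6737)], []⟩,
  ⟨[(nat_lit 94798)], [(nat_lit 12098)], [(nat_lit 1297)], [(nat_lit 6778)], []⟩,
  ⟨[(nat_lit 96359)], [(nat_lit 12316)], [(nat_lit 1263)], [(nat_lit 6771)], []⟩,
  ⟨[(nat_lit 96137)], [(nat_lit 12042)], [(nat_lit 1267)], [(nat_lit 6898)], []⟩,
  ⟨[(nat_lit 94942)], [(nat_lit 12085)], [(nat_lit 1263)], [(nat_lit 7115)], []⟩,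
  ⟨[(nat_lit 94924)], [(nat_lit 3897)], [(nat_lit 2113)], [(nat_lit 6902)], []⟩,
  ⟨[(nat_lit 124228)], [(nat_lit 6529)], [(nat_lit 2056)], [(nat_lit 24522)], []⟩,
  ⟨[(nat_lit 125086)], [(nat_lit 6831)], [(nat_lit 2113)], [(nat_lit 24529)], []⟩,
  ⟨[(nat_lit 125086)], [(nat_lit 6831)], [(nat_lit 2113)], [(nat_lit 24533)], []⟩,
  ⟨[(nat_lit 124150)], [(nat_lit 11328)], [(nat_lit 1319)], [(nat_lit 29382)], []⟩,
  ⟨[(nat_lit 123345)], [(nat_lit 6601)], [(nat_lit 2044)], [(nat_lit 24178)], []⟩,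
  ⟨[(nat_lit 123345)], [(nat_lit 6601)], [(nat_lit 2044)], [(nat_lit 24182)], []⟩,
  ⟨[(nat_lit 125049)], [(nat_lit 6755)], [(nat_lit 2048)], [(nat_lit 24316)], []⟩,
  ⟨[(nat_lit 209788)], [(nat_lit 6511)], [(nat_lit 1319)], [(nat_lit 5970)], []⟩,
  ⟨[(nat_lit 209153)], [(nat_lit 9481)], [(nat_lit 1966)], [(nat_lit 31428)], []⟩,
  ⟨[(nat_lit 324286)], [(nat_lit 5965)], [(nat_lit 1541)], [(nat_lit 21361)], []⟩,
  ⟨[(nat_lit 210664)], [(nat_lit 6173)], [(nat_lit 884)], [(nat_lit 21111)], []⟩,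
  ⟨[(nat_lit 323962)], [(nat_lit 6120)], [(nat_lit 1522)], [(nat_lit 21370)], []⟩,
  ⟨[(nat_lit 323796)], [(nat_lit 10141)], [(nat_lit 1070)], [(nat_lit 13949)], []⟩,
  ⟨[(nat_lit 322975)], [(nat_lit 10251)], [(nat_lit 1083)], [(nat_lit 14155)], []⟩,
  ⟨[(nat_lit 69174)], [(nat_lit 11362)], [(nat_lit 1966)], [(nat_lit 6737)], []⟩,
  ⟨[(nat_lit 70293)], [(nat_lit 11559)], [(nat_lit 1897)], [(nat_lit 6778)], []⟩,
  ⟨[(nat_lit 68702)], [(nat_lit 10337)], [(nat_lit 1034)], [(nat_lit 22128)], []⟩,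
  ⟨[(nat_lit 69900)], [(nat_lit 13943)], [(nat_lit 1319)], [(nat_lit 31559)], []⟩,
  ⟨[(nat_lit 68638)], [(nat_lit 13781)], [(nat_lit 1358)], [(nat_lit 31566)], []⟩,
  ⟨[(nat_lit 97955)], [(nat_lit 7203)], [(nat_lit 2077)], [(nat_lit 14312)], []⟩,
  ⟨[(nat_lit 97955)], [(nat_lit 7203)], [(nat_lit 2077)], [(nat_lit 14919)], []⟩,
  ⟨[(nat_lit 97813)], [(nat_lit 3550)], [(nat_lit 2676)], [(nat_lit 24529)], []⟩,
  ⟨[(nat_lit 97955)], [(nat_lit 7203)], [(nat_lit 2430)], [(nat_lit 14919)], []⟩,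
  ⟨[(nat_lit 97857)], [(nat_lit 7203)], [(nat_lit 2095)], [(nat_lit 14273)], []⟩,
  ⟨[(nat_lit 97857)], [(nat_lit 7203)], [(nat_lit 2095)], [(nat_lit 14936)], []⟩,
  ⟨[(nat_lit 97857)], [(nat_lit 7203)], [(nat_lit 2428)], [(nat_lit 14936)], []⟩,
  ⟨[(nat_lit 97700)], [(nat_lit 7461)], [(nat_lit 2482)], [(nat_lit 14024)], []⟩,
  ⟨[(nat_lit 97753)], [(nat_lit 7203)], [(nat_lit 2473)], [(nat_lit 13913)], []⟩,
  ⟨[(nat_lit 97753)], [(nat_lit 7203)], [(nat_lit 2473)], [(nat_lit 30297)], []⟩,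
  ⟨[(nat_lit 97895)], [(nat_lit 6094)], [(nat_lit 1633)], [(nat_lit 31682)], []⟩,
  ⟨[(nat_lit 98521)], [(nat_lit 7344)], [(nat_lit 2474)], [(nat_lit 14330)], []⟩,
  ⟨[(nat_lit 126361)], [(nat_lit 3550)], [(nat_lit 2056)], [(nat_lit 16353)], []⟩,
  ⟨[(nat_lit 126570)], [(nat_lit 3474)], [(nat_lit 2072)], [(nat_lit 16378)], []⟩,
  ⟨[(nat_lit 126569)], [(nat_lit 12930)], [(nat_lit 1321)], [(nat_lit 5721)], []⟩,
  ⟨[(nat_lit 126569)], [(nat_lit 12930)], [(nat_lit 1321)], [(nat_lit 8025)], []⟩,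
  ⟨[(nat_lit 125427)], [(nat_lit 7612)], [(nat_lit 1538)], [(nat_lit 4691)], []⟩,
  ⟨[(nat_lit 125883)], [(nat_lit 7732)], [(nat_lit 1594)], [(nat_lit 4852)], []⟩,
  ⟨[(nat_lit 127288)], [(nat_lit 6831)], [(nat_lit 1987)], [(nat_lit 23504)], []⟩,
  ⟨[(nat_lit 127288)], [(nat_lit 6831)], [(nat_lit 1987)], [(nat_lit 23508)], []⟩,
  ⟨[(nat_lit 125547)], [(nat_lit 6601)], [(nat_lit 1918)], [(nat_lit 23153)], []⟩,
  ⟨[(nat_lit 125547)], [(nat_lit 6601)], [(nat_lit 1918)], [(nat_lit 23157)], []⟩,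
  ⟨[(nat_lit 126266)], [(nat_lit 6529)], [(nat_lit 1959)], [(nat_lit 23112)], []⟩,
  ⟨[(nat_lit 127087)], [(nat_lit 6755)], [(nat_lit 1946)], [(nat_lit 23418)], []⟩,
  ⟨[(nat_lit 154403)], [(nat_lit 5532)], [(nat_lit 1522)], [(nat_lit 23250)], []⟩,
  ⟨[(nat_lit 154504)], [(nat_lit 11486)], [(nat_lit 1939)], [(nat_lit 23127)], []⟩,
  ⟨[(nat_lit 241395)], [(nat_lit 7383)], [(nat_lit 3098)], [(nat_lit 30566)], []⟩,
  ⟨[(nat_lit 353977)], [(nat_lit 14497)], [(nat_lit 3025)], [(nat_lit 30308)], []⟩,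
  ⟨[(nat_lit 240810)], [(nat_lit 10524)], [(nat_lit 1319)], [(nat_lit 4848)], []⟩,
  ⟨[(nat_lit 354382)], [(nat_lit 14597)], [(nat_lit 3097)], [(nat_lit 30458)], []⟩,
  ⟨[(nat_lit 354732)], [(nat_lit 14652)], [(nat_lit 3101)], [(nat_lit 16357)], []⟩,
  ⟨[(nat_lit 353980)], [(nat_lit 13975)], [(nat_lit 1998)], [(nat_lit 6995)], []⟩,
  ⟨[(nat_lit 354907)], [(nat_lit 14510)], [(nat_lit 3025)], [(nat_lit 14180)], []⟩,
  ⟨[(nat_lit 354751)], [(nat_lit 14664)], [(nat_lit 3105)], [(nat_lit 14060)], []⟩,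
  ⟨[(nat_lit 354751)], [(nat_lit 14664)], [(nat_lit 3105)], [(nat_lit 30412)], []⟩,
  ⟨[(nat_lit 354751)], [(nat_lit 14664)], [(nat_lit 3105)], [(nat_lit 16360)], []⟩,
  ⟨[(nat_lit 355426)], [(nat_lit 14614)], [(nat_lit 3059)], [(nat_lit 14155)], []⟩,
  ⟨[(nat_lit 355426)], [(nat_lit 14614)], [(nat_lit 3059)], [(nat_lit 30539)], []⟩,
  ⟨[(nat_lit 355142)], [(nat_lit 14406)], [(nat_lit 1321)], [(nat_lit 30557)], []⟩,
  ⟨[(nat_lit 354233)], [(nat_lit 14652)], [(nat_lit 3052)], [(nat_lit 13926)], []⟩,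
  ⟨[(nat_lit 355142)], [(nat_lit 14406)], [(nat_lit 1946)], [(nat_lit 30557)], []⟩,
  ⟨[(nat_lit 355142)], [(nat_lit 14406)], [(nat_lit 2096)], [(nat_lit 30557)], []⟩,
  ⟨[(nat_lit 355142)], [(nat_lit 14406)], [(nat_lit 996)], [(nat_lit 30557)], []⟩,
  ⟨[(nat_lit 355142)], [(nat_lit 14406)], [(nat_lit 1021)], [(nat_lit 30557)], []⟩,
  ⟨[(nat_lit 355142)], [(nat_lit 14406)], [(nat_lit 1646)], [(nat_lit 30557)], []⟩,
  ⟨[(nat_lit 355142)], [(nat_lit 14406)], [(nat_lit 3046)], [(nat_lit 4829)], []⟩,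
  ⟨[(nat_lit 355142)], [(nat_lit 14406)], [(nat_lit 3046)], [(nat_lit 13021)], []⟩,
  ⟨[(nat_lit 355142)], [(nat_lit 14406)], [(nat_lit 3046)], [(nat_lit 14173)], []⟩,
  ⟨[(nat_lit 355142)], [(nat_lit 14406)], [(nat_lit 3046)], [(nat_lit 30557)], []⟩,
  ⟨[(nat_lit 355142)], [(nat_lit 14406)], [(nat_lit 3046)], [(nat_lit 15325)], []⟩,
  ⟨[(nat_lit 355142)], [(nat_lit 14406)], [(nat_lit 3046)], [(nat_lit 23517)], []⟩,
  ⟨[(nat_lit 355142)], [(nat_lit 14406)], [(nat_lit 3046)], [(nat_lit 7773)], []⟩,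
  ⟨[(nat_lit 355142)], [(nat_lit 14406)], [(nat_lit 3046)], [(nat_lit 15965)], []⟩,
  ⟨[(nat_lit 355142)], [(nat_lit 14406)], [(nat_lit 3046)], [(nat_lit 24157)], []⟩,
  ⟨[(nat_lit 355142)], [(nat_lit 14406)], [(nat_lit 3046)], [(nat_lit 32349)], []⟩,
  ⟨[(nat_lit 355831)], [(nat_lit 14707)], [(nat_lit 3101)], [(nat_lit 30689)], []⟩,
  ⟨[(nat_lit 355831)], [(nat_lit 14707)], [(nat_lit 3101)], [(nat_lit 30693)], []⟩,
  ⟨[(nat_lit 354050)], [(nat_lit 14497)], [(nat_lit 3046)], [(nat_lit 13949)], []⟩,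
  ⟨[(nat_lit 354050)], [(nat_lit 14497)], [(nat_lit 3046)], [(nat_lit 30333)], []⟩,
  ⟨[(nat_lit 355572)], [(nat_lit 14547)], [(nat_lit 3097)], [(nat_lit 14302)], []⟩,
  ⟨[(nat_lit 355572)], [(nat_lit 14547)], [(nat_lit 3097)], [(nat_lit 30718)], []⟩,
  ⟨[(nat_lit 355572)], [(nat_lit 14547)], [(nat_lit 3097)], [(nat_lit 16090)], []⟩,
  ⟨[(nat_lit 355419)], [(nat_lit 14510)], [(nat_lit 3079)], [(nat_lit 16099)], []⟩,
  ⟨[(nat_lit 71684)], [(nat_lit 3705)], [(nat_lit 1007)], [(nat_lit 31682)], []⟩,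
  ⟨[(nat_lit 71075)], [(nat_lit 11871)], [(nat_lit 898)], [(nat_lit 23250)], []⟩,
  ⟨[(nat_lit 185978)], [(nat_lit 13727)], [(nat_lit 3025)], [(nat_lit 14180)], []⟩,
  ⟨[(nat_lit 184796)], [(nat_lit 13805)], [(nat_lit 3046)], [(nat_lit 13913)], []⟩,
  ⟨[(nat_lit 184796)], [(nat_lit 13805)], [(nat_lit 3046)], [(nat_lit 30297)], []⟩,
  ⟨[(nat_lit 186667)], [(nat_lit 12746)], [(nat_lit 2654)], [(nat_lit 14312)], []⟩,
  ⟨[(nat_lit 186667)], [(nat_lit 12746)], [(nat_lit 2654)], [(nat_lit 14919)], []⟩,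
  ⟨[(nat_lit 186667)], [(nat_lit 12746)], [(nat_lit 3105)], [(nat_lit 14312)], []⟩,
  ⟨[(nat_lit 186667)], [(nat_lit 12746)], [(nat_lit 3105)], [(nat_lit 14919)], []⟩,
  ⟨[(nat_lit 186667)], [(nat_lit 14028)], [(nat_lit 2654)], [(nat_lit 14312)], []⟩,
  ⟨[(nat_lit 186667)], [(nat_lit 14028)], [(nat_lit 2654)], [(nat_lit 14919)], []⟩,
  ⟨[(nat_lit 186667)], [(nat_lit 14028)], [(nat_lit 3105)], [(nat_lit 14919)], []⟩,
  ⟨[(nat_lit 185485)], [(nat_lit 13763)], [(nat_lit 3101)], [(nat_lit 14049)], []⟩,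
  ⟨[(nat_lit 185485)], [(nat_lit 13763)], [(nat_lit 3101)], [(nat_lit 14053)], []⟩,
  ⟨[(nat_lit 185485)], [(nat_lit 13763)], [(nat_lit 3101)], [(nat_lit 32709)], []⟩,
  ⟨[(nat_lit 186577)], [(nat_lit 12775)], [(nat_lit 2670)], [(nat_lit 14273)], []⟩,
  ⟨[(nat_lit 186577)], [(nat_lit 12775)], [(nat_lit 2670)], [(nat_lit 14936)], []⟩,
  ⟨[(nat_lit 186577)], [(nat_lit 12775)], [(nat_lit 3101)], [(nat_lit 14273)], []⟩,
  ⟨[(nat_lit 186577)], [(nat_lit 12775)], [(nat_lit 3101)], [(nat_lit 14936)], []⟩,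
  ⟨[(nat_lit 186577)], [(nat_lit 14015)], [(nat_lit 2670)], [(nat_lit 14273)], []⟩,
  ⟨[(nat_lit 186577)], [(nat_lit 14015)], [(nat_lit 2670)], [(nat_lit 14936)], []⟩,
  ⟨[(nat_lit 186577)], [(nat_lit 14015)], [(nat_lit 3101)], [(nat_lit 14936)], []⟩,
  ⟨[(nat_lit 186227)], [(nat_lit 13960)], [(nat_lit 3097)], [(nat_lit 14330)], []⟩,
  ⟨[(nat_lit 185406)], [(nat_lit 13727)], [(nat_lit 3105)], [(nat_lit 32748)], []⟩,
  ⟨[(nat_lit 185028)], [(nat_lit 5914)], [(nat_lit 1264)], [(nat_lit 31727)], []⟩,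
  ⟨[(nat_lit 271674)], [(nat_lit 12005)], [(nat_lit 1601)], [(nat_lit 13176)], []⟩,
  ⟨[(nat_lit 271674)], [(nat_lit 12005)], [(nat_lit 1601)], [(nat_lit 16069)], []⟩,
  ⟨[(nat_lit 271674)], [(nat_lit 12005)], [(nat_lit 1660)], [(nat_lit 16069)], []⟩,
  ⟨[(nat_lit 271093)], [(nat_lit 12263)], [(nat_lit 1633)], [(nat_lit 13130)], []⟩,
  ⟨[(nat_lit 271588)], [(nat_lit 12005)], [(nat_lit 1615)], [(nat_lit 13123)], []⟩,
  ⟨[(nat_lit 271588)], [(nat_lit 12005)], [(nat_lit 1615)], [(nat_lit 16072)], []⟩,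
  ⟨[(nat_lit 271914)], [(nat_lit 12146)], [(nat_lit 1745)], [(nat_lit 12924)], []⟩,
  ⟨[(nat_lit 271588)], [(nat_lit 12005)], [(nat_lit 1654)], [(nat_lit 16072)], []⟩,
  ⟨[(nat_lit 271727)], [(nat_lit 14638)], [(nat_lit 1116)], [(nat_lit 4721)], []⟩,
  ⟨[(nat_lit 271159)], [(nat_lit 12005)], [(nat_lit 1744)], [(nat_lit 13003)], []⟩,
  ⟨[(nat_lit 271159)], [(nat_lit 12005)], [(nat_lit 1744)], [(nat_lit 29387)], []⟩,
  ⟨[(nat_lit 270952)], [(nat_lit 3511)], [(nat_lit 3052)], [(nat_lit 22128)], []⟩,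
  ⟨[(nat_lit 299703)], [(nat_lit 6560)], [(nat_lit 2486)], [(nat_lit 30401)], []⟩,
  ⟨[(nat_lit 271894)], [(nat_lit 11556)], [(nat_lit 2474)], [(nat_lit 30663)], []⟩,
  ⟨[(nat_lit 300809)], [(nat_lit 6757)], [(nat_lit 2422)], [(nat_lit 30458)], []⟩,
  ⟨[(nat_lit 300851)], [(nat_lit 10603)], [(nat_lit 1610)], [(nat_lit 24529)], []⟩,
  ⟨[(nat_lit 300851)], [(nat_lit 10603)], [(nat_lit 1610)], [(nat_lit 24533)], []⟩,
  ⟨[(nat_lit 299110)], [(nat_lit 10380)], [(nat_lit 1541)], [(nat_lit 24178)], []⟩,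
  ⟨[(nat_lit 299110)], [(nat_lit 10380)], [(nat_lit 1541)], [(nat_lit 24182)], []⟩,
  ⟨[(nat_lit 299660)], [(nat_lit 10447)], [(nat_lit 1530)], [(nat_lit 24522)], []⟩,
  ⟨[(nat_lit 300258)], [(nat_lit 12913)], [(nat_lit 1939)], [(nat_lit 4848)], []⟩,
  ⟨[(nat_lit 300481)], [(nat_lit 10337)], [(nat_lit 1522)], [(nat_lit 24316)], []⟩,
  ⟨[(nat_lit 328862)], [(nat_lit 6119)], [(nat_lit 1021)], [(nat_lit 22141)], []⟩,
  ⟨[(nat_lit 328862)], [(nat_lit 6119)], [(nat_lit 1021)], [(nat_lit 8061)], []⟩,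
  ⟨[(nat_lit 327951)], [(nat_lit 10472)], [(nat_lit 965)], [(nat_lit 13123)], []⟩,
  ⟨[(nat_lit 327951)], [(nat_lit 10472)], [(nat_lit 1053)], [(nat_lit 13123)], []⟩,
  ⟨[(nat_lit 327951)], [(nat_lit 10472)], [(nat_lit 1053)], [(nat_lit 16072)], []⟩,
  ⟨[(nat_lit 327951)], [(nat_lit 11518)], [(nat_lit 965)], [(nat_lit 13123)], []⟩,
  ⟨[(nat_lit 327951)], [(nat_lit 11518)], [(nat_lit 965)], [(nat_lit 16072)], []⟩,
  ⟨[(nat_lit 327951)], [(nat_lit 11518)], [(nat_lit 1053)], [(nat_lit 13123)], []⟩,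
  ⟨[(nat_lit 327951)], [(nat_lit 11518)], [(nat_lit 1053)], [(nat_lit 16072)], []⟩,
  ⟨[(nat_lit 328329)], [(nat_lit 7484)], [(nat_lit 1646)], [(nat_lit 29505)], []⟩,
  ⟨[(nat_lit 327870)], [(nat_lit 10441)], [(nat_lit 952)], [(nat_lit 13176)], []⟩,
  ⟨[(nat_lit 327870)], [(nat_lit 11529)], [(nat_lit 952)], [(nat_lit 13176)], []⟩,
  ⟨[(nat_lit 327870)], [(nat_lit 11529)], [(nat_lit 952)], [(nat_lit 16069)], []⟩,
  ⟨[(nat_lit 327870)], [(nat_lit 10441)], [(nat_lit 1060)], [(nat_lit 13176)], []⟩,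
  ⟨[(nat_lit 327870)], [(nat_lit 10441)], [(nat_lit 1060)], [(nat_lit 16069)], []⟩,
  ⟨[(nat_lit 327870)], [(nat_lit 11529)], [(nat_lit 1060)], [(nat_lit 13176)], []⟩,
  ⟨[(nat_lit 327870)], [(nat_lit 11529)], [(nat_lit 1060)], [(nat_lit 16069)], []⟩,
  ⟨[(nat_lit 329131)], [(nat_lit 10504)], [(nat_lit 937)], [(nat_lit 16253)], []⟩,
  ⟨[(nat_lit 329131)], [(nat_lit 10504)], [(nat_lit 937)], [(nat_lit 32637)], []⟩,
  ⟨[(nat_lit 328220)], [(nat_lit 10447)], [(nat_lit 906)], [(nat_lit 16332)], []⟩,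
  ⟨[(nat_lit 329041)], [(nat_lit 10337)], [(nat_lit 898)], [(nat_lit 16126)], []⟩,
  ⟨[(nat_lit 328054)], [(nat_lit 5893)], [(nat_lit 1034)], [(nat_lit 22347)], []⟩,
  ⟨[(nat_lit 328054)], [(nat_lit 5893)], [(nat_lit 1034)], [(nat_lit 7755)], []⟩,
  ⟨[(nat_lit 356155)], [(nat_lit 14497)], [(nat_lit 1662)], [(nat_lit 29255)], []⟩,
  ⟨[(nat_lit 357658)], [(nat_lit 15437)], [(nat_lit 2627)], [(nat_lit 29546)], []⟩,
  ⟨[(nat_lit 356155)], [(nat_lit 14497)], [(nat_lit 1037)], [(nat_lit 29255)], []⟩,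
  ⟨[(nat_lit 357447)], [(nat_lit 7321)], [(nat_lit 1124)], [(nat_lit 21111)], []⟩,
  ⟨[(nat_lit 356598)], [(nat_lit 12265)], [(nat_lit 898)], [(nat_lit 22128)], []⟩]

/-- group of boxes -/
def BG4 : List Bx := [
  ⟨[(nat_lit 330057), (nat_lit 329720), (nat_lit 331580), (nat_lit 331243), (nat_lit 330906), (nat_lit 330569), (nat_lit 330232), (nat_lit 329895), (nat_lit 329558), (nat_lit 331418), (nat_lit 331081), (nat_lit 330744), (nat_lit 330407)], [(nat_lit 11466), (nat_lit 11369), (nat_lit 11615), (nat_lit 11518), (nat_lit 11421), (nat_lit 11324), (nat_lit 11570)], [(nat_lit 1075), (nat_lit 1026), (nat_lit 1102), (nat_lit 1053), (nat_lit 1004)], [(nat_lit 12992), (nat_lit 12865), (nat_lit 13250), (nat_lit 13123), (nat_lit 12996), (nat_lit 12869), (nat_lit 13254), (nat_lit 13127)], []⟩,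
  ⟨[(nat_lit 330057), (nat_lit 125749), (nat_lit 235612), (nat_lit 288353), (nat_lit 312533), (nat_lit 251030), (nat_lit 132405), (nat_lit 327951), (nat_lit 95082), (nat_lit 176384), (nat_lit 200564), (nat_lit 196183), (nat_lit 106119)], [(nat_lit 11466), (nat_lit 3584), (nat_lit 7707), (nat_lit 9429), (nat_lit 3948), (nat_lit 10472), (nat_lit 12194)], [(nat_lit 1075), (nat_lit 2080), (nat_lit 2460), (nat_lit 965), (nat_lit 1345)], [(nat_lit 12992), (nat_lit 16072), (nat_lit 6864), (nat_lit 22232), (nat_lit 29408), (nat_lit 32488), (nat_lit 23280), (nat_lit 5880)], []⟩]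

/-- group of boxes -/
def BG5 : List Bx := [
  ⟨[(nat_lit 179140), (nat_lit 178803), (nat_lit 178466), (nat_lit 178129), (nat_lit 179989), (nat_lit 179652), (nat_lit 179315), (nat_lit 178978), (nat_lit 178641), (nat_lit 178304), (nat_lit 177967), (nat_lit 179827), (nat_lit 179490)], [(nat_lit 6076), (nat_lit 5979), (nat_lit 5882), (nat_lit 6128), (nat_lit 6031), (nat_lit 5934), (nat_lit 5837)], [(nat_lit 1075), (nat_lit 1026), (nat_lit 1102), (nat_lit 1053), (nat_lit 1004)], [(nat_lit 13888), (nat_lit 14273), (nat_lit 14146), (nat_lit 14019), (nat_lit 13892), (nat_lit 14277), (nat_lit 14150), (nat_lit 14023)], []⟩,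
  ⟨[(nat_lit 179140), (nat_lit 231881), (nat_lit 256061), (nat_lit 194558), (nat_lit 75933), (nat_lit 271479), (nat_lit 38610), (nat_lit 119912), (nat_lit 144092), (nat_lit 139711), (nat_lit 49647), (nat_lit 273754), (nat_lit 69446)], [(nat_lit 6076), (nat_lit 10199), (nat_lit 11921), (nat_lit 6440), (nat_lit 12964), (nat_lit 14686), (nat_lit 14007)], [(nat_lit 1075), (nat_lit 2080), (nat_lit 2460), (nat_lit 965), (nat_lit 1345)], [(nat_lit 13888), (nat_lit 21064), (nat_lit 24144), (nat_lit 14936), (nat_lit 30304), (nat_lit 4712), (nat_lit 7792), (nat_lit 31352)], []⟩]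

/-- the boxes -/
def BB : List (List Bx) := [BG0, BG1, BG2, BG3, BG4, BG5]

/-- the classes modulo `13`, `7`, `5`, `8` lie in one of the boxes -/
def R8 (a b c B m : ℤ) : Prop := ∃ BS ∈ BB, ∃ bx ∈ BS, InB bx a b c B m

theorem R8_of {a b c B m : ℤ}
    (h : inBss (cd 13 a b c B m) (cd 7 a b c B m) (cd 5 a b c B m) (cd 8 a b c B m) BB = true) :
    R8 a b c B m := by
  obtain ⟨BS, h1, bx, h2, h3, h4, h5, h6⟩ := inBss_spec h
  exact ⟨BS, h1, bx, h2, h3, h4, h5, h6⟩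

end Pool.Agent.PSX.K
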