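import Pool.Agent.PSX.KSt2
import Pool.Agent.PSX.KRel
import Pool.Agent.PSX.KBox

/-! generated: data of the steps to the primes `11` and `17` -/

namespace Pool.Agent.PSX.K

open Pool.Agent.Lib_helper5 Pool.Agent.Lib_helper5.LK Pool.Agent.Lib_helper5.TB
  Pool.Agent.LibH4.Ker Pool.Agent.PSX.EL
open Pool.Agent.LibH4.S7 (Bx E11 E11OK E17 E17OK locA)

/-- the relations of the step to 11 -/
def e11 : E11 := ⟨R88F11, R616F11, R308F7, R616N13, R143N7, R143N5, R572N5, R715N7⟩

lemma e11_ok : E11OK e11 :=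
  ⟨⟨rfl, rfl, rfl, rfl, by decide⟩,
    ⟨rfl, rfl, rfl, rfl, by decide⟩,
    ⟨rfl, rfl, rfl, rfl, by decide⟩,
    ⟨rfl, rfl, rfl, rfl, by decide⟩,
    ⟨rfl, rfl, rfl, rfl, by decide⟩,
    ⟨rfl, rfl, rfl, rfl, by decide⟩,
    ⟨rfl, rfl, rfl, rfl, by decide⟩,
    ⟨rfl, rfl, rfl, rfl, by decide⟩,
    rfl, rfl, rfl, rfl, rfl, rfl⟩

lemma e11_holds {Q : ℕ} {a b c B m : ℤ} (S : Sys6 Q a b c B m) (hQ : 40040 ∣ Q) :
    E11H e11 a b c B m :=
  have h6 : 40040 ^ 6 ∣ Q ^ 6 := pow_dvd_pow_of_dvd hQ 6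
  ⟨h88F11 S ((by decide : 11 * 8 * 1 * 1331 ∣ 40040 ^ 6).trans h6),
    h616F11 S ((by decide : 11 * 7 * 8 * 1331 ∣ 40040 ^ 6).trans h6),
    h308F7 S ((by decide : 11 * 7 * 4 * 343 ∣ 40040 ^ 6).trans h6),
    h616N13 S ((by decide : 11 * 7 * 8 * 13 ∣ 40040 ^ 6).trans h6),
    h143N7 S ((by decide : 11 * 13 * 1 * 7 ∣ 40040 ^ 6).trans h6),
    h143N5 S ((by decide : 11 * 13 * 1 * 5 ∣ 40040 ^ 6).trans h6),
    h572N5 S ((by decide : 11 * 13 * 4 * 5 ∣ 40040 ^ 6).trans h6),
    h715N7 S ((by decide : 11 * 13 * 5 * 7 ∣ 40040 ^ 6).trans h6)⟩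

/-- the relations of the step to 17 -/
def e17 : E17 := ⟨R187F17a, R187F17b, R680F17a, R680F17b, R520N17, R680N13, R221N5, R119N13,
  R119N5, R595N13a, R595N13b, R935N7⟩

lemma e17_ok : E17OK e17 :=
  ⟨⟨rfl, rfl, rfl, rfl, by decide⟩,
    ⟨rfl, rfl, rfl, rfl, by decide⟩,
    ⟨rfl, rfl, rfl, rfl, by decide⟩,
    ⟨rfl, rfl, rfl, rfl, by decide⟩,
    ⟨rfl, rfl, rfl, rfl, by decide⟩,
    ⟨rfl, rfl, rfl, rfl, by decide⟩,
    ⟨rfl, rfl, rfl, rfl, by decide⟩,
    ⟨rfl, rfl, rfl, rfl, by decide⟩,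
    ⟨rfl, rfl, rfl, rfl, by decide⟩,
    ⟨rfl, rfl, rfl, rfl, by decide⟩,
    ⟨rfl, rfl, rfl, rfl, by decide⟩,
    ⟨rfl, rfl, rfl, rfl, by decide⟩,
    rfl, rfl, rfl, rfl, rfl, rfl, rfl, rfl⟩

lemma e17_holds {Q : ℕ} {a b c B m : ℤ} (S : Sys6 Q a b c B m) (hQ : 680680 ∣ Q) :
    E17H e17 a b c B m :=
  have h6 : 680680 ^ 6 ∣ Q ^ 6 := pow_dvd_pow_of_dvd hQ 6
  ⟨h187F17a S ((by decide : 17 * 11 * 1 * 4913 ∣ 680680 ^ 6).trans h6),
    h187F17b S ((by decide : 17 * 11 * 1 * 4913 ∣ 680680 ^ 6).trans h6),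
    h680F17a S ((by decide : 17 * 5 * 8 * 4913 ∣ 680680 ^ 6).trans h6),
    h680F17b S ((by decide : 17 * 5 * 8 * 4913 ∣ 680680 ^ 6).trans h6),
    h520N17 S ((by decide : 13 * 5 * 8 * 17 ∣ 680680 ^ 6).trans h6),
    h680N13 S ((by decide : 17 * 5 * 8 * 13 ∣ 680680 ^ 6).trans h6),
    h221N5 S ((by decide : 17 * 13 * 1 * 5 ∣ 680680 ^ 6).trans h6),
    h119N13 S ((by decide : 17 * 7 * 1 * 13 ∣ 680680 ^ 6).trans h6),
    h119N5 S ((by decide : 17 * 7 * 1 * 5 ∣ 680680 ^ 6).trans h6),
    h595N13a S ((by decide : 17 * 7 * 5 * 13 ∣ 680680 ^ 6).trans h6),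
    h595N13b S ((by decide : 17 * 7 * 5 * 13 ∣ 680680 ^ 6).trans h6),
    h935N7 S ((by decide : 17 * 11 * 5 * 7 ∣ 680680 ^ 6).trans h6)⟩

/-- the classes modulo `13`, `7`, `5`, `8` left after the steps to 19 and 3 -/
def G3 : List ℕ := [
  (nat_lit 22294292424303157639680806),
  (nat_lit 22313181890234636220535590),
  (nat_lit 23309601214460957015709332),
  (nat_lit 22336793716738014197094857),
  (nat_lit 23951843079212180244044275),
  (nat_lit 23970732545143658824899059),
  (nat_lit 149066220780506470395481118),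
  (nat_lit 149033164204148861505179916),
  (nat_lit 32008200385963703023006286),
  (nat_lit 31814583371143574462756289),
  (nat_lit 32574884355463810207807369),
  (nat_lit 149614015369924838869270119),
  (nat_lit 38614791106475788056253896),
  (nat_lit 77224859673079919855922585),
  (nat_lit 77342918839655259338567274),
  (nat_lit 109795021155124258583763747),
  (nat_lit 106314636942970592142997260),
  (nat_lit 67402337081621898217044770),
  (nat_lit 70533266059764472993725218),
  (nat_lit 70533266084534270944262946),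
  (nat_lit 67402337081621906706316066),
  (nat_lit 70533266059764481482996514),
  (nat_lit 67402337106391704656853794),
  (nat_lit 70533266084534279433534242),
  (nat_lit 67586509370794640069016477),
  (nat_lit 70452985825896514713729949),
  (nat_lit 70452985856295812198480797),
  (nat_lit 67586509370794647853644701),
  (nat_lit 70452985825896522498358173),
  (nat_lit 67586509401193945338395549),
  (nat_lit 70452985856295819983109021),
  (nat_lit 65702285183817625777650674),
  (nat_lit 143073537639153892958845938),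
  (nat_lit 66226467839209305681345664),
  (nat_lit 67671512015899993300975541),
  (nat_lit 148414534377007173054181633),
  (nat_lit 100751689478914650948208615),
  (nat_lit 100874471019291213832621049),
  (nat_lit 100916972322140639226727678),
  (nat_lit 33174625215166058256898596),
  (nat_lit 28192528448511884593989959),
  (nat_lit 28952829466609123181464335),
  (nat_lit 22294292479753914648110447),
  (nat_lit 144801924160601217447503382),
  (nat_lit 60814636325814907613505379),
  (nat_lit 138337004508603003441538915),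
  (nat_lit 62590246127596020156361340),
  (nat_lit 140112614310384115984394876),
  (nat_lit 66944267720808796153737204),
  (nat_lit 22894033254732236482450658),
  (nat_lit 62221901046254798335443134),
  (nat_lit 62221901076654095820193982),
  (nat_lit 75883707311595979423416510),
  (nat_lit 62221901046254816589054142),
  (nat_lit 75883707281196700192276670),
  (nat_lit 62221901076654114073804990),
  (nat_lit 75883707311595997677027518),
  (nat_lit 61971615626321882356449551),
  (nat_lit 61971615651091680306987279),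
  (nat_lit 75897874409074264042176783),
  (nat_lit 61971615626321899905417487),
  (nat_lit 75897874384304483640606991),
  (nat_lit 61971615651091697855955215),
  (nat_lit 75897874409074281591144719),
  (nat_lit 77125689653243549801841180),
  (nat_lit 76152882155520601228641617),
  (nat_lit 76752622709822573064291755),
  (nat_lit 154123875165158840245487019),
  (nat_lit 139527040842301560292996378)]

/-- the same as boxes -/
def BQ : List Bx := [
  ⟨[(nat_lit 37670)], [(nat_lit 3516)], [(nat_lit 919)], [(nat_lit 4721)], []⟩,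
  ⟨[(nat_lit 37670)], [(nat_lit 3516)], [(nat_lit 919)], [(nat_lit 4725)], []⟩,
  ⟨[(nat_lit 38548)], [(nat_lit 3537)], [(nat_lit 906)], [(nat_lit 4936)], []⟩,
  ⟨[(nat_lit 39369)], [(nat_lit 3770)], [(nat_lit 898)], [(nat_lit 4730)], []⟩,
  ⟨[(nat_lit 39411)], [(nat_lit 3739)], [(nat_lit 988)], [(nat_lit 5072)], []⟩,
  ⟨[(nat_lit 39411)], [(nat_lit 3739)], [(nat_lit 988)], [(nat_lit 5076)], []⟩,
  ⟨[(nat_lit 68638)], [(nat_lit 13781)], [(nat_lit 1358)], [(nat_lit 31566)], []⟩,
  ⟨[(nat_lit 69900)], [(nat_lit 13943)], [(nat_lit 1319)], [(nat_lit 31559)], []⟩,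
  ⟨[(nat_lit 94798)], [(nat_lit 12098)], [(nat_lit 1297)], [(nat_lit 6778)], []⟩,
  ⟨[(nat_lit 95681)], [(nat_lit 12265)], [(nat_lit 1336)], [(nat_lit 6737)], []⟩,
  ⟨[(nat_lit 96137)], [(nat_lit 12042)], [(nat_lit 1267)], [(nat_lit 6898)], []⟩,
  ⟨[(nat_lit 97895)], [(nat_lit 6094)], [(nat_lit 1633)], [(nat_lit 31682)], []⟩,
  ⟨[(nat_lit 120264)], [(nat_lit 7764)], [(nat_lit 1336)], [(nat_lit 8177)], []⟩,
  ⟨[(nat_lit 126361)], [(nat_lit 3550)], [(nat_lit 2056)], [(nat_lit 16353)], []⟩,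
  ⟨[(nat_lit 126570)], [(nat_lit 3474)], [(nat_lit 2072)], [(nat_lit 16378)], []⟩,
  ⟨[(nat_lit 154403)], [(nat_lit 5532)], [(nat_lit 1522)], [(nat_lit 23250)], []⟩,
  ⟨[(nat_lit 177932)], [(nat_lit 11649)], [(nat_lit 1116)], [(nat_lit 22513)], []⟩,
  ⟨[(nat_lit 178978)], [(nat_lit 5934)], [(nat_lit 965)], [(nat_lit 14273)], []⟩,
  ⟨[(nat_lit 178978)], [(nat_lit 5934)], [(nat_lit 965)], [(nat_lit 14936)], []⟩,
  ⟨[(nat_lit 178978)], [(nat_lit 5934)], [(nat_lit 1053)], [(nat_lit 14936)], []⟩,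
  ⟨[(nat_lit 178978)], [(nat_lit 6440)], [(nat_lit 965)], [(nat_lit 14273)], []⟩,
  ⟨[(nat_lit 178978)], [(nat_lit 6440)], [(nat_lit 965)], [(nat_lit 14936)], []⟩,
  ⟨[(nat_lit 178978)], [(nat_lit 6440)], [(nat_lit 1053)], [(nat_lit 14273)], []⟩,
  ⟨[(nat_lit 178978)], [(nat_lit 6440)], [(nat_lit 1053)], [(nat_lit 14936)], []⟩,
  ⟨[(nat_lit 179101)], [(nat_lit 5957)], [(nat_lit 952)], [(nat_lit 14312)], []⟩,
  ⟨[(nat_lit 179101)], [(nat_lit 5957)], [(nat_lit 952)], [(nat_lit 14919)], []⟩,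
  ⟨[(nat_lit 179101)], [(nat_lit 5957)], [(nat_lit 1060)], [(nat_lit 14919)], []⟩,
  ⟨[(nat_lit 179101)], [(nat_lit 6421)], [(nat_lit 952)], [(nat_lit 14312)], []⟩,
  ⟨[(nat_lit 179101)], [(nat_lit 6421)], [(nat_lit 952)], [(nat_lit 14919)], []⟩,
  ⟨[(nat_lit 179101)], [(nat_lit 6421)], [(nat_lit 1060)], [(nat_lit 14312)], []⟩,
  ⟨[(nat_lit 179101)], [(nat_lit 6421)], [(nat_lit 1060)], [(nat_lit 14919)], []⟩,
  ⟨[(nat_lit 179186)], [(nat_lit 6102)], [(nat_lit 1093)], [(nat_lit 13913)], []⟩,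
  ⟨[(nat_lit 179186)], [(nat_lit 6102)], [(nat_lit 1093)], [(nat_lit 30297)], []⟩,
  ⟨[(nat_lit 179328)], [(nat_lit 5940)], [(nat_lit 1007)], [(nat_lit 14024)], []⟩,
  ⟨[(nat_lit 180149)], [(nat_lit 6173)], [(nat_lit 1124)], [(nat_lit 14330)], []⟩,
  ⟨[(nat_lit 209153)], [(nat_lit 9481)], [(nat_lit 1966)], [(nat_lit 31428)], []⟩,
  ⟨[(nat_lit 231399)], [(nat_lit 9967)], [(nat_lit 2014)], [(nat_lit 21335)], []⟩,
  ⟨[(nat_lit 232441)], [(nat_lit 10151)], [(nat_lit 2056)], [(nat_lit 21361)], []⟩,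
  ⟨[(nat_lit 232702)], [(nat_lit 10089)], [(nat_lit 2072)], [(nat_lit 21370)], []⟩,
  ⟨[(nat_lit 236068)], [(nat_lit 7827)], [(nat_lit 2391)], [(nat_lit 7025)], []⟩,
  ⟨[(nat_lit 264519)], [(nat_lit 7321)], [(nat_lit 1939)], [(nat_lit 5970)], []⟩,
  ⟨[(nat_lit 264975)], [(nat_lit 7434)], [(nat_lit 1990)], [(nat_lit 6131)], []⟩,
  ⟨[(nat_lit 271727)], [(nat_lit 14638)], [(nat_lit 1116)], [(nat_lit 4721)], []⟩,
  ⟨[(nat_lit 271894)], [(nat_lit 11556)], [(nat_lit 2474)], [(nat_lit 30663)], []⟩,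
  ⟨[(nat_lit 288611)], [(nat_lit 7712)], [(nat_lit 2698)], [(nat_lit 12878)], []⟩,
  ⟨[(nat_lit 288611)], [(nat_lit 7712)], [(nat_lit 2698)], [(nat_lit 29294)], []⟩,
  ⟨[(nat_lit 289404)], [(nat_lit 7789)], [(nat_lit 2713)], [(nat_lit 13254)], []⟩,
  ⟨[(nat_lit 289404)], [(nat_lit 7789)], [(nat_lit 2713)], [(nat_lit 29670)], []⟩,
  ⟨[(nat_lit 290804)], [(nat_lit 4091)], [(nat_lit 1633)], [(nat_lit 14176)], []⟩,
  ⟨[(nat_lit 300258)], [(nat_lit 12913)], [(nat_lit 1939)], [(nat_lit 4848)], []⟩,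
  ⟨[(nat_lit 327870)], [(nat_lit 10441)], [(nat_lit 952)], [(nat_lit 13176)], []⟩,
  ⟨[(nat_lit 327870)], [(nat_lit 10441)], [(nat_lit 1060)], [(nat_lit 13176)], []⟩,
  ⟨[(nat_lit 327870)], [(nat_lit 10441)], [(nat_lit 1060)], [(nat_lit 16069)], []⟩,
  ⟨[(nat_lit 327870)], [(nat_lit 11529)], [(nat_lit 952)], [(nat_lit 13176)], []⟩,
  ⟨[(nat_lit 327870)], [(nat_lit 11529)], [(nat_lit 952)], [(nat_lit 16069)], []⟩,
  ⟨[(nat_lit 327870)], [(nat_lit 11529)], [(nat_lit 1060)], [(nat_lit 13176)], []⟩,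
  ⟨[(nat_lit 327870)], [(nat_lit 11529)], [(nat_lit 1060)], [(nat_lit 16069)], []⟩,
  ⟨[(nat_lit 327951)], [(nat_lit 10472)], [(nat_lit 965)], [(nat_lit 13123)], []⟩,
  ⟨[(nat_lit 327951)], [(nat_lit 10472)], [(nat_lit 1053)], [(nat_lit 13123)], []⟩,
  ⟨[(nat_lit 327951)], [(nat_lit 10472)], [(nat_lit 1053)], [(nat_lit 16072)], []⟩,
  ⟨[(nat_lit 327951)], [(nat_lit 11518)], [(nat_lit 965)], [(nat_lit 13123)], []⟩,
  ⟨[(nat_lit 327951)], [(nat_lit 11518)], [(nat_lit 965)], [(nat_lit 16072)], []⟩,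
  ⟨[(nat_lit 327951)], [(nat_lit 11518)], [(nat_lit 1053)], [(nat_lit 13123)], []⟩,
  ⟨[(nat_lit 327951)], [(nat_lit 11518)], [(nat_lit 1053)], [(nat_lit 16072)], []⟩,
  ⟨[(nat_lit 328220)], [(nat_lit 10447)], [(nat_lit 906)], [(nat_lit 16332)], []⟩,
  ⟨[(nat_lit 329041)], [(nat_lit 10337)], [(nat_lit 898)], [(nat_lit 16126)], []⟩,
  ⟨[(nat_lit 329131)], [(nat_lit 10504)], [(nat_lit 937)], [(nat_lit 16253)], []⟩,
  ⟨[(nat_lit 329131)], [(nat_lit 10504)], [(nat_lit 937)], [(nat_lit 32637)], []⟩,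
  ⟨[(nat_lit 357658)], [(nat_lit 15437)], [(nat_lit 2627)], [(nat_lit 29546)], []⟩]

/-- the classes modulo `13`, `7`, `5`, `8`, `11` left after the step to 11 -/
def G11 : List ℕ := [
  (nat_lit 1810838904720318124341198168560422),
  (nat_lit 1810838904739207590272676749415206),
  (nat_lit 1822723130112766565138029137139348),
  (nat_lit 12157482332960949553852682650818196),
  (nat_lit 12272521624931661372038508466706068),
  (nat_lit 1869071604210803704907309529471433),
  (nat_lit 12202959297271329785908434059696585),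
  (nat_lit 12317998589242041604094259875584457),
  (nat_lit 1890938578679790024557293706713587),
  (nat_lit 1890938578698679490488772287568371),
  (nat_lit 5266137605470049964917964746598557),
  (nat_lit 4552846508496215529737841975328359),
  (nat_lit 5712826035867559696444918952197735),
  (nat_lit 11154137009184720138031923917323879),
  (nat_lit 3853024038008494372325017448994248),
  (nat_lit 5128042857350550357217920241751496),
  (nat_lit 7433186245703071259502081476777416),
  (nat_lit 3811350051495426227162086918765346),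
  (nat_lit 2090989731879060960836066417490722),
  (nat_lit 3811350051495426240954360777587490),
  (nat_lit 6207605797951805334780097161509828),
  (nat_lit 4382743638765998787600881692190230),
  (nat_lit 5427683874166631136122132853171734),
  (nat_lit 6697473634782745674733861745206806),
  (nat_lit 11771324306371460283775700034676579),
  (nat_lit 11771324383893828466563795862710115),
  (nat_lit 11756508641756902654426819858819708),
  (nat_lit 11756508719279270837214915686853244),
  (nat_lit 2688211577003022229281182717351138),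
  (nat_lit 4552846381776233414545239588508898),
  (nat_lit 5712825909147577581252316565378274),
  (nat_lit 2188440337383333343049626461470991),
  (nat_lit 5937200103846926578613185323270415),
  (nat_lit 5937200103846926861495536917479695),
  (nat_lit 9105930464842188765386583851731273),
  (nat_lit 6907824322209438415162559890263194)]

/-- the classes modulo 11 -/
def K11 : List ℕ := [(nat_lit 22856), (nat_lit 23006), (nat_lit 23591), (nat_lit 23867), (nat_lit 26392), (nat_lit 27622), (nat_lit 33930), (nat_lit 48106), (nat_lit 48632), (nat_lit 55318), (nat_lit 57465), (nat_lit 64725), (nat_lit 66468), (nat_lit 68507), (nat_lit 72106), (nat_lit 74938), (nat_lit 78351), (nat_lit 84534), (nat_lit 87189), (nat_lit 93820), (nat_lit 114933), (nat_lit 140785), (nat_lit 148388), (nat_lit 148575), (nat_lit 153449), (nat_lit 154023), (nat_lit 154901), (nat_lit 155475)]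

/-- the classes modulo `13`, `7`, `5`, `8` for the classes modulo 11 -/
def S11 : List (List ℕ) := [
  [(nat_lit 22294292424303157639680806), (nat_lit 22313181890234636220535590)],
  [(nat_lit 23309601214460957015709332)],
  [(nat_lit 22336793716738014197094857)],
  [(nat_lit 23951843079212180244044275), (nat_lit 23970732545143658824899059)],
  [(nat_lit 66802596563067254480223010)],
  [(nat_lit 32414323810040755465289999)],
  [(nat_lit 22894033254732236482450658)],
  [(nat_lit 65584226002887061643901730), (nat_lit 65584226016679335502723874)],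
  [(nat_lit 38614791106475788056253896)],
  [(nat_lit 144801924160601217447503382)],
  [(nat_lit 149614015369924838869270119), (nat_lit 22894033254732236482450658)],
  [(nat_lit 38614791106475788056253896)],
  [(nat_lit 99471927973750285455665309)],
  [(nat_lit 144801924160601217447503382)],
  [(nat_lit 149614015369924838869270119), (nat_lit 22894033254732236482450658)],
  [(nat_lit 61352985648028188772991247), (nat_lit 61352985930910540367200527)],
  [(nat_lit 36796680219988335108733892)],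
  [(nat_lit 144801924160601217447503382)],
  [(nat_lit 60753245084719056404417690)],
  [(nat_lit 38614791106475788056253896)],
  [(nat_lit 62590245652747797007763785)],
  [(nat_lit 149614015369924838869270119)],
  [(nat_lit 62590246127596020156361340), (nat_lit 140112614310384115984394876)],
  [(nat_lit 60814636325814907613505379), (nat_lit 138337004508603003441538915)],
  [(nat_lit 23309601214460957015709332)],
  [(nat_lit 22336793716738014197094857)],
  [(nat_lit 23309601214460957015709332)],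
  [(nat_lit 22336793716738014197094857)]]

lemma loc11 : locA K11 S11 G11 = true := by decide +kernel

end Pool.Agent.PSX.K
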