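import Pool.Agent.PSX.KDat19
import Pool.Agent.PSX.KDat11
import Pool.Agent.PSX.KRel3

/-!
Period six, elimination: the step to the prime `3`.
-/

namespace Pool.Agent.PSX.K

open Pool.Agent.Lib_helper5 Pool.Agent.Lib_helper5.LK Pool.Agent.Lib_helper5.TB
  Pool.Agent.LibH4.Ker Pool.Agent.PSX.EL

/-- the relations of the step -/
def e3 : E3 := ⟨R105N13, R195F13, R399F7⟩

lemma e3_ok : E3OK e3 :=
  ⟨⟨rfl, rfl, rfl, rfl, by decide⟩,
    ⟨rfl, rfl, rfl, rfl, by decide⟩,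
    ⟨rfl, rfl, rfl, rfl, by decide⟩⟩

lemma e3_holds {Q : ℕ} {a b c B m : ℤ} (S : Sys6 Q a b c B m) (hQ : 25935 ∣ Q) :
    E3H e3 a b c B m :=
  have h6 : 25935 ^ 6 ∣ Q ^ 6 := pow_dvd_pow_of_dvd hQ 6
  ⟨h105N13 S ((by decide : 7 * 5 * 3 * 13 ∣ 25935 ^ 6).trans h6),
    h195F13 S ((by decide : 13 * 5 * 3 * 2197 ∣ 25935 ^ 6).trans h6),
    h399F7 S ((by decide : 19 * 7 * 3 * 343 ∣ 25935 ^ 6).trans h6)⟩

theorem s3_0 : chk3 e3 G3 G19 (nat_lit 0) = true := by decide +kernel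
theorem s3_1 : chk3 e3 G3 G19 (nat_lit 1) = true := by decide +kernel
theorem s3_2 : chk3 e3 G3 G19 (nat_lit 2) = true := by decide +kernel

theorem s3 : ∀ x < 3, chk3 e3 G3 G19 x = true := by
  intro x hx
  interval_cases x
  · exact s3_0
  · exact s3_1
  · exact s3_2

end Pool.Agent.PSX.K
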