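import Pool.Agent.PSX.KGh
import Pool.Agent.PSX.KRel
import Pool.Agent.PSX.KRel3

/-! generated: data for the ghosts -/

namespace Pool.Agent.PSX.K

open Pool.Agent.Lib_helper5 Pool.Agent.Lib_helper5.LK Pool.Agent.Lib_helper5.TB
  Pool.Agent.LibH4.Ker Pool.Agent.PSX.EL
open Pool.Agent.LibH4.S7 (cd memN memN_spec)

/-- ghost classes -/
def gh13 : List ℕ := [
  (nat_lit 57617),
  (nat_lit 143300),
  (nat_lit 171861),
  (nat_lit 200422),
  (nat_lit 228983),
  (nat_lit 314666),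
  (nat_lit 31422),
  (nat_lit 145666),
  (nat_lit 231349),
  (nat_lit 259910),
  (nat_lit 288471),
  (nat_lit 317032),
  (nat_lit 33788),
  (nat_lit 119471),
  (nat_lit 148032),
  (nat_lit 176593),
  (nat_lit 205154),
  (nat_lit 290837),
  (nat_lit 93276),
  (nat_lit 178959),
  (nat_lit 207520),
  (nat_lit 236081),
  (nat_lit 264642),
  (nat_lit 350325),
  (nat_lit 38520),
  (nat_lit 67081),
  (nat_lit 95642),
  (nat_lit 124203),
  (nat_lit 209886),
  (nat_lit 324130),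
  (nat_lit 69447),
  (nat_lit 98008),
  (nat_lit 126569),
  (nat_lit 155130),
  (nat_lit 240813),
  (nat_lit 355057),
  (nat_lit 71813),
  (nat_lit 186057),
  (nat_lit 271740),
  (nat_lit 300301),
  (nat_lit 328862),
  (nat_lit 357423),
  (nat_lit 74179),
  (nat_lit 188423),
  (nat_lit 274106),
  (nat_lit 302667),
  (nat_lit 331228),
  (nat_lit 359789),
  (nat_lit 76545),
  (nat_lit 105106),
  (nat_lit 133667),
  (nat_lit 162228),
  (nat_lit 247911),
  (nat_lit 362155),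
  (nat_lit 50350),
  (nat_lit 78911),
  (nat_lit 107472),
  (nat_lit 136033),
  (nat_lit 221716),
  (nat_lit 335960),
  (nat_lit 109838),
  (nat_lit 195521),
  (nat_lit 224082),
  (nat_lit 252643),
  (nat_lit 281204),
  (nat_lit 366887),
  (nat_lit 52885),
  (nat_lit 138568),
  (nat_lit 167129),
  (nat_lit 195690),
  (nat_lit 224251),
  (nat_lit 309934),
  (nat_lit 55251),
  (nat_lit 169495),
  (nat_lit 255178),
  (nat_lit 283739),
  (nat_lit 312300),
  (nat_lit 340861)]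

/-- ghost classes -/
def gh7 : List ℕ := [
  (nat_lit 7344),
  (nat_lit 12146),
  (nat_lit 14547),
  (nat_lit 2934),
  (nat_lit 7736),
  (nat_lit 10137),
  (nat_lit 5727),
  (nat_lit 10529),
  (nat_lit 12930),
  (nat_lit 3718),
  (nat_lit 6119),
  (nat_lit 15723),
  (nat_lit 4110),
  (nat_lit 6511),
  (nat_lit 16115),
  (nat_lit 6560),
  (nat_lit 11362),
  (nat_lit 13763),
  (nat_lit 4551),
  (nat_lit 9353),
  (nat_lit 11754)]

/-- ghost classes -/
def gh5 : List ℕ := [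
  (nat_lit 1321),
  (nat_lit 1946),
  (nat_lit 2096),
  (nat_lit 2721),
  (nat_lit 996),
  (nat_lit 1621),
  (nat_lit 1021),
  (nat_lit 1646),
  (nat_lit 2421),
  (nat_lit 3046)]

/-- ghost classes -/
def gh8 : List ℕ := [
  (nat_lit 4857),
  (nat_lit 13049),
  (nat_lit 21241),
  (nat_lit 29433),
  (nat_lit 6009),
  (nat_lit 14201),
  (nat_lit 22393),
  (nat_lit 30585),
  (nat_lit 7161),
  (nat_lit 15353),
  (nat_lit 23545),
  (nat_lit 31737),
  (nat_lit 7801),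
  (nat_lit 15993),
  (nat_lit 24185),
  (nat_lit 32377)]

/-- the exceptional classes modulo `13`, `7`, `5`, `8`, `3` -/
def GX : List ℕ := [
  (nat_lit 9269762076495722558796909961223),
  (nat_lit 9586757537971641654476798176954),
  (nat_lit 10062013478492875569056417174191),
  (nat_lit 10458154291064112814470289474734),
  (nat_lit 10775179975685606718379957431994),
  (nat_lit 11567461600828116393768870132495),
  (nat_lit 11646562826131630817760298216193),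
  (nat_lit 12122053298261609605938660307490),
  (nat_lit 12755757101330845999566560466552),
  (nat_lit 13151911816549184735204631237295),
  (nat_lit 13468824466606157643024959587502),
  (nat_lit 14023407701559075401063263671928)]

lemma gh13_ck : gB (adP (nat_lit 13)) (nat_lit 13) (fun k => memN k gh13) = true := by
  decide +kernel
lemma gh7_ck : gB (adP (nat_lit 7)) (nat_lit 7) (fun k => memN k gh7) = true := by decide +kernel
lemma gh5_ck : gB (adP (nat_lit 5)) (nat_lit 5) (fun k => memN k gh5) = true := by decide +kernel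
lemma gh8_ck : gB adO (nat_lit 8) (fun k => memN k gh8) = true := by decide +kernel

lemma mem13 {Q : ℕ} {a b c B m : ℤ} (S : Sys6 Q a b c B m) (hQ : 13 ∣ Q) (h : Gh 13 a b) :
    cd 13 a b c B m ∈ gh13 :=
  memN_spec (gB_spec (by norm_num) S h
    (adP6 S (by norm_num) (by norm_num) hQ m B (-1) (dv_one 13 B m)) gh13_ck)
lemma mem7 {Q : ℕ} {a b c B m : ℤ} (S : Sys6 Q a b c B m) (hQ : 7 ∣ Q) (h : Gh 7 a b) :
    cd 7 a b c B m ∈ gh7 :=
  memN_spec (gB_spec (by norm_num) S h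
    (adP6 S (by norm_num) (by norm_num) hQ m B (-1) (dv_one 7 B m)) gh7_ck)
lemma mem5 {Q : ℕ} {a b c B m : ℤ} (S : Sys6 Q a b c B m) (hQ : 5 ∣ Q) (h : Gh 5 a b) :
    cd 5 a b c B m ∈ gh5 :=
  memN_spec (gB_spec (by norm_num) S h
    (adP6 S (by norm_num) (by norm_num) hQ m B (-1) (dv_one 5 B m)) gh5_ck)
lemma mem8 {Q : ℕ} {a b c B m : ℤ} (S : Sys6 Q a b c B m) (h : Gh 8 a b) :
    cd 8 a b c B m ∈ gh8 :=
  memN_spec (gB_spec (by norm_num) S h
    (adO6 S (by norm_num) m B (-1) (dv_one 8 B m)) gh8_ck)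

/-- the relations of the step to 3 -/
def eG : EG := ⟨R105N13, R195F13, R273F13, R312F13, R168F7⟩

lemma eG_ok : EGOK eG :=
  ⟨⟨rfl, rfl, rfl, rfl, by decide⟩,
    ⟨rfl, rfl, rfl, rfl, by decide⟩,
    ⟨rfl, rfl, rfl, rfl, by decide⟩,
    ⟨rfl, rfl, rfl, rfl, by decide⟩,
    ⟨rfl, rfl, rfl, rfl, by decide⟩⟩

lemma eG_holds {Q : ℕ} {a b c B m : ℤ} (S : Sys6 Q a b c B m) (hQ : 10920 ∣ Q) :
    EGH eG a b c B m :=
  have h6 : 10920 ^ 6 ∣ Q ^ 6 := pow_dvd_pow_of_dvd hQ 6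
  ⟨h105N13 S ((by decide : 7 * 5 * 3 * 13 ∣ 10920 ^ 6).trans h6),
    h195F13 S ((by decide : 13 * 5 * 3 * 2197 ∣ 10920 ^ 6).trans h6),
    h273F13 S ((by decide : 13 * 7 * 3 * 2197 ∣ 10920 ^ 6).trans h6),
    h312F13 S ((by decide : 13 * 8 * 3 * 2197 ∣ 10920 ^ 6).trans h6),
    h168F7 S ((by decide : 7 * 8 * 3 * 343 ∣ 10920 ^ 6).trans h6)⟩

/-- the relations of the step to 17 -/
def eX : EX := ⟨R119N13, R51N5, R119N5, R221N5, R520N17, R663N7, R663F13, R357N13, R595N13a,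
  R595N13b, R680F17a, R680F17b⟩

lemma eX_ok : EXOK eX :=
  ⟨⟨rfl, rfl, rfl, rfl, by decide⟩,
    ⟨rfl, rfl, rfl, rfl, by decide⟩,
    ⟨rfl, rfl, rfl, rfl, by decide⟩,
    ⟨rfl, rfl, rfl, rfl, by decide⟩,
    ⟨rfl, rfl, rfl, rfl, by decide⟩,
    ⟨rfl, rfl, rfl, rfl, by decide⟩,
    ⟨rfl, rfl, rfl, rfl, by decide⟩,
    ⟨rfl, rfl, rfl, rfl, by decide⟩,
    ⟨rfl, rfl, rfl, rfl, by decide⟩,
    ⟨rfl, rfl, rfl, rfl, by decide⟩,
    ⟨rfl, rfl, rfl, rfl, by decide⟩,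
    ⟨rfl, rfl, rfl, rfl, by decide⟩,
    rfl, rfl, rfl, rfl, rfl, rfl⟩

lemma eX_holds {Q : ℕ} {a b c B m : ℤ} (S : Sys6 Q a b c B m) (hQ : 185640 ∣ Q) :
    EXH eX a b c B m :=
  have h6 : 185640 ^ 6 ∣ Q ^ 6 := pow_dvd_pow_of_dvd hQ 6
  ⟨h119N13 S ((by decide : 17 * 7 * 1 * 13 ∣ 185640 ^ 6).trans h6),
    h51N5 S ((by decide : 17 * 3 * 1 * 5 ∣ 185640 ^ 6).trans h6),
    h119N5 S ((by decide : 17 * 7 * 1 * 5 ∣ 185640 ^ 6).trans h6),
    h221N5 S ((by decide : 17 * 13 * 1 * 5 ∣ 185640 ^ 6).trans h6),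
    h520N17 S ((by decide : 13 * 5 * 8 * 17 ∣ 185640 ^ 6).trans h6),
    h663N7 S ((by decide : 17 * 13 * 3 * 7 ∣ 185640 ^ 6).trans h6),
    h663F13 S ((by decide : 17 * 13 * 3 * 2197 ∣ 185640 ^ 6).trans h6),
    h357N13 S ((by decide : 17 * 7 * 3 * 13 ∣ 185640 ^ 6).trans h6),
    h595N13a S ((by decide : 17 * 7 * 5 * 13 ∣ 185640 ^ 6).trans h6),
    h595N13b S ((by decide : 17 * 7 * 5 * 13 ∣ 185640 ^ 6).trans h6),
    h680F17a S ((by decide : 17 * 5 * 8 * 4913 ∣ 185640 ^ 6).trans h6),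
    h680F17b S ((by decide : 17 * 5 * 8 * 4913 ∣ 185640 ^ 6).trans h6)⟩

end Pool.Agent.PSX.K
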