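import Pool.Agent.PSX.KDatG

/-! generated: ghosts, step 3 -/

namespace Pool.Agent.PSX.K

theorem sG_0 : chkG eG GX gh13 gh7 gh5 gh8 (nat_lit 0) = true := by
  decide +kernel

end Pool.Agent.PSX.K
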