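import Pool.Agent.PSX.KDatG

/-! generated: exceptional classes, step 17 -/

namespace Pool.Agent.PSX.K

theorem sX_0 : chkX eX GX [(nat_lit 0), (nat_lit 1), (nat_lit 2), (nat_lit 3)] = true := by
  decide +kernel

end Pool.Agent.PSX.K
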