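import Pool.Agent.PSX.KThree
import Pool.Agent.PSX.K3
import Pool.Agent.PSX.KG3_0
import Pool.Agent.PSX.KG3_1
import Pool.Agent.PSX.KG3_2
import Pool.Agent.PSX.KX17_0
import Pool.Agent.PSX.KX17_1
import Pool.Agent.PSX.KX17_2
import Pool.Agent.PSX.KX17_3

/-!
Period six, elimination: the end of the steps.
-/

namespace Pool.Agent.PSX.K

open Pool.Agent.Lib_helper5 Pool.Agent.Lib_helper5.LK Pool.Agent.Lib_helper5.TB
  Pool.Agent.LibH4.Ker Pool.Agent.PSX.EL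
open Pool.Agent.LibH4.S7 (Bx InB cd pk lo hi lo_pk hi_pk cd_lt tup5 tup4 inBs inBs_spec y3)

lemma G3_BQ : allL (fun t => inBs (lo t) (lo (hi t)) (lo (hi (hi t))) (hi (hi (hi t))) BQ) G3 =
    true := by
  decide +kernel

theorem sG : ∀ x < 3, chkG eG GX gh13 gh7 gh5 gh8 x = true := by
  intro x hx
  interval_cases x
  · exact sG_0
  · exact sG_1
  · exact sG_2

theorem sX : ∀ x < 17, ∃ Bs, x ∈ Bs ∧ chkX eX GX Bs = true := by
  intro x hx
  interval_cases x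
  · exact ⟨_, by simp, sX_0⟩
  · exact ⟨_, by simp, sX_0⟩
  · exact ⟨_, by simp, sX_0⟩
  · exact ⟨_, by simp, sX_0⟩
  · exact ⟨_, by simp, sX_1⟩
  · exact ⟨_, by simp, sX_1⟩
  · exact ⟨_, by simp, sX_1⟩
  · exact ⟨_, by simp, sX_1⟩
  · exact ⟨_, by simp, sX_2⟩
  · exact ⟨_, by simp, sX_2⟩
  · exact ⟨_, by simp, sX_2⟩
  · exact ⟨_, by simp, sX_2⟩
  · exact ⟨_, by simp, sX_3⟩
  · exact ⟨_, by simp, sX_3⟩
  · exact ⟨_, by simp, sX_3⟩
  · exact ⟨_, by simp, sX_3⟩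
  · exact ⟨_, by simp, sX_3⟩

section

variable {Q : ℕ} {a b c B m : ℤ}

/-- **the classes of the eighth stage are impossible** -/
theorem no_R8 (S : Sys6 Q a b c B m) (hQ : 38798760 ∣ Q) (h : R8 a b c B m) : False := by
  obtain ⟨BS, hBS, bx, hbx, hin⟩ := h
  have h17 : tup5 (cd 13 a b c B m) (cd 7 a b c B m) (cd 5 a b c B m)
      (cd 8 a b c B m) (cd 11 a b c B m) ∈ G11 → False := fun hG =>
    chk17_spec e17_ok (e17_holds S (Dvd.dvd.trans (by norm_num) hQ)) S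
      (Dvd.dvd.trans (by norm_num) hQ) loc11 s17 hG
  have key : ∀ {BS : List Bx}, bx ∈ BS → (∀ x < 19, ∃ Bs, x ∈ Bs ∧ chk19 e19 G19 BS Bs = true) →
      False := by
    intro BS hb hc
    have h1 := chk19_spec e19_ok (e19_holds S (Dvd.dvd.trans (by norm_num) hQ)) S
      (Dvd.dvd.trans (by norm_num) hQ) hb hin hc
    have h2 := chk3_spec e3_ok (e3_holds S (Dvd.dvd.trans (by norm_num) hQ)) S
      (Dvd.dvd.trans (by norm_num) hQ) h1 s3
    have h3 := allL_spec G3_BQ _ h2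
    have h13 := cd_lt (n := 13) (by norm_num) a b c B m
    have h7 := cd_lt (n := 7) (by norm_num) a b c B m
    have h5 := cd_lt (n := 5) (by norm_num) a b c B m
    unfold tup4 at h3
    rw [lo_pk h13, hi_pk h13, lo_pk h7, hi_pk h7, lo_pk h5, hi_pk h5] at h3
    obtain ⟨bx', hb', g1, g2, g3, g4⟩ := inBs_spec h3
    exact h17 (chk11_spec e11_ok (e11_holds S (Dvd.dvd.trans (by norm_num) hQ)) S
      (Dvd.dvd.trans (by norm_num) hQ) hb' ⟨g1, g2, g3, g4⟩ s11_BQ)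
  have key2 : ∀ {BS : List Bx}, bx ∈ BS → (∀ x < 11, ∃ Bs, x ∈ Bs ∧ chk11 e11 G11 BS Bs = true) →
      False := fun hb hc =>
    h17 (chk11_spec e11_ok (e11_holds S (Dvd.dvd.trans (by norm_num) hQ)) S
      (Dvd.dvd.trans (by norm_num) hQ) hb hin hc)
  simp only [BB, List.mem_cons, List.not_mem_nil, or_false] at hBS
  rcases hBS with rfl | rfl | rfl | rfl | rfl | rfl
  · exact key hbx s19_0
  · exact key hbx s19_1
  · exact key hbx s19_2
  · exact key hbx s19_3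
  · exact key2 hbx s11_BG4
  · exact key2 hbx s11_BG5

/-- **the ghosts modulo `3`** -/
theorem gh3 (S : Sys6 Q a b c B m) (hQ : 38798760 ∣ Q) (g13 : Gh 13 a b) (g7 : Gh 7 a b)
    (g5 : Gh 5 a b) (g8 : Gh 8 a b) : Gh 3 a b := by
  rcases chkG_spec eG_ok (eG_holds S (Dvd.dvd.trans (by norm_num) hQ)) S
      (Dvd.dvd.trans (by norm_num) hQ) (mem13 S (Dvd.dvd.trans (by norm_num) hQ) g13)
      (mem7 S (Dvd.dvd.trans (by norm_num) hQ) g7) (mem5 S (Dvd.dvd.trans (by norm_num) hQ) g5)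
      (mem8 S g8) sG with h | h
  · exact h
  · exact (chkX_spec eX_ok (eX_holds S (Dvd.dvd.trans (by norm_num) hQ)) S
      (Dvd.dvd.trans (by norm_num) hQ) sX h).elim

end

end Pool.Agent.PSX.K
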