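import Pool.Agent.PSX.Sys6
import Pool.Agent.RQM.C120

/-!
Period six, elimination: evaluation of the reduced relations on codes of classes (four forms),
scalar and in lanes, and the loop over the classes modulo a prime. Port of the engine of period
seven.
-/

namespace Pool.Agent.PSX.K

open Pool.Agent.Lib_helper5 Pool.Agent.Lib_helper5.LK Pool.Agent.Lib_helper5.TB
  Pool.Agent.Lib_helper5.Lane Pool.Agent.LibH4.Ker
  Pool.Agent.PSX.EL
open Pool.Agent.LibH4.S7 (y2 r2 y3 r3 cd ck ca cb cc cB cm ng u2 v2 u3 v3 sel5 Rl fP fR fS fK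
  cq cx cq_cd cx_cd jf gx gy ps tX_eq tY_eq s3 xt yt yt_lt xt_mod yt_mod ip4 ld ent rowP LOK mu
  ones msk bit_of pos_lt ps_lt ent_lt entK entK_lt ent_ld rowK rowP_map rowK_map qz mul_bd
  rs_one_of cd_one ca_cd cb_cd cc_cd cB_cd cm_cd ng_eq ng2_eq rsn_zero fK_cd u2_eq v2_eq u3_eq
  v3_eq rs_neg_one_of rs_mod)

/-! ### forms and values -/

/-- the four forms -/
def jg (a b c B m : ℤ) (j : ℕ) : Fm := ((J6 a b c B m)[j]?).getD ⟨0, 0, 0, 0, 0⟩

/-- a reduced relation holds -/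
def Hd (r : Rl) (a b c B m : ℤ) : Prop := ((J6 a b c B m).map r.val).sum % r.l = 0

/-- `α` of the form `j` of a code -/
def gA (n k j : ℕ) : ℕ :=
  sel5 (ng n (cB n k)) (ng n (Nat.mul (nat_lit 2) (ca n k))) (ng n (Nat.mul (nat_lit 2) (cb n k)))
    (ng n (cc n k)) (nat_lit 0) j

section Forms

variable {n : ℕ} {a b c B m : ℤ}

lemma jg_P {j : ℕ} (hj : j < 4) : (jg a b c B m j).P = (jf a b c B m j).P := by
  interval_cases j <;> rfl
lemma jg_R {j : ℕ} (hj : j < 4) : (jg a b c B m j).R = (jf a b c B m j).R := by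
  interval_cases j <;> rfl
lemma jg_S {j : ℕ} (hj : j < 4) : (jg a b c B m j).S = (jf a b c B m j).S := by
  interval_cases j <;> rfl
lemma jg_K {j : ℕ} (hj : j < 4) : fK j = (jg a b c B m j).κ := by
  interval_cases j <;> rfl

lemma gA_cd [NeZero n] {j : ℕ} (hj : j < 4) :
    gA n (cd n a b c B m) j = rs n (jg a b c B m j).α := by
  unfold gA
  rw [ca_cd, cb_cd, cc_cd, cB_cd, ng_eq, ng2_eq, ng2_eq, ng_eq]
  interval_cases j <;> rfl

lemma gA_lt {n k j : ℕ} (hn : 0 < n) : gA n k j < n := by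
  have h : ∀ x, ng n x < n := fun x => Nat.mod_lt _ hn
  unfold gA
  match j with
  | 0 => exact h _
  | 1 => exact h _
  | 2 => exact h _
  | 3 => exact h _
  | _ + 4 => exact hn

end Forms

/-- the term of the form `j` of a relation in terms of codes -/
def tm (r : Rl) (N1 N2 N3 Nl k1 k2 k3 kl j : ℕ) : ℕ :=
  cx r.n1 r.t1 N1 k1 j * cx r.n2 r.t2 N2 k2 j * cx r.n3 r.t3 N3 k3 j *
    (fK j * tX r.rows r.len3 (cq r.n1 r.ex1 r.PT1 N1 k1 j) (cq r.n2 r.ex2 r.PT2 N2 k2 j)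
      (cq r.n3 r.ex3 r.PT3 N3 k3 j) +
    gA Nl kl j * tY r.rows r.len3 (cq r.n1 r.ex1 r.PT1 N1 k1 j) (cq r.n2 r.ex2 r.PT2 N2 k2 j)
      (cq r.n3 r.ex3 r.PT3 N3 k3 j))

/-- **the relation in terms of codes** -/
theorem Hd.tm {r : Rl} {a b c B m : ℤ} (h : Hd r a b c B m) {N1 N2 N3 : ℕ}
    [NeZero r.n1] [NeZero r.n2] [NeZero r.n3] [NeZero r.l] [NeZero N1] [NeZero N2] [NeZero N3]
    (h1 : r.n1 ∣ N1) (h2 : r.n2 ∣ N2) (h3 : r.n3 ∣ N3) :
    (tm r N1 N2 N3 r.l (cd N1 a b c B m) (cd N2 a b c B m) (cd N3 a b c B m)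
        (cd r.l a b c B m) 0 +
      (tm r N1 N2 N3 r.l (cd N1 a b c B m) (cd N2 a b c B m) (cd N3 a b c B m)
        (cd r.l a b c B m) 1 +
      (tm r N1 N2 N3 r.l (cd N1 a b c B m) (cd N2 a b c B m) (cd N3 a b c B m)
        (cd r.l a b c B m) 2 +
      tm r N1 N2 N3 r.l (cd N1 a b c B m) (cd N2 a b c B m) (cd N3 a b c B m)
        (cd r.l a b c B m) 3))) % r.l = 0 := by
  have key : ∀ j < 4, K.tm r N1 N2 N3 r.l (cd N1 a b c B m) (cd N2 a b c B m)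
      (cd N3 a b c B m) (cd r.l a b c B m) j = r.val (jg a b c B m j) := by
    intro j hj
    have hj5 : j < 5 := by omega
    unfold K.tm Rl.val fval
    rw [cx_cd h1 _ hj5, cx_cd h2 _ hj5, cx_cd h3 _ hj5, cq_cd h1 _ _ hj5, cq_cd h2 _ _ hj5,
      cq_cd h3 _ _ hj5, gA_cd hj, jg_K (a := a) (b := b) (c := c) (B := B) (m := m) hj,
      jg_P hj, jg_R hj, jg_S hj]
  rw [key 0 (by norm_num), key 1 (by norm_num), key 2 (by norm_num), key 3 (by norm_num)]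
  have h' := h
  unfold Hd J6 at h'
  simp only [List.map_cons, List.map_nil, List.sum_cons, List.sum_nil, add_zero] at h'
  exact h'

/-! ### scalar evaluation -/

/-- sum of the first parts -/
def kvx (r : Rl) (N1 N2 N3 k1 k2 k3 : ℕ) : ℕ :=
  Nat.mod (Nat.add (xt r N1 N2 N3 k1 k2 k3 (nat_lit 1))
    (Nat.add (xt r N1 N2 N3 k1 k2 k3 (nat_lit 2)) (xt r N1 N2 N3 k1 k2 k3 (nat_lit 3)))) r.l

/-- packed coefficients -/
def al (N k : ℕ) : ℕ :=
  Nat.add (gA N k (nat_lit 3)) (Nat.mul (nat_lit 65536)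
    (Nat.add (gA N k (nat_lit 2)) (Nat.mul (nat_lit 65536)
      (Nat.add (gA N k (nat_lit 1)) (Nat.mul (nat_lit 65536) (gA N k (nat_lit 0)))))))

/-- the value of a relation -/
def sv (r : Rl) (N1 N2 N3 k1 k2 k3 kl : ℕ) : ℕ :=
  Nat.mod (Nat.add (kvx r N1 N2 N3 k1 k2 k3)
    (Nat.mod (Nat.shiftRight (Nat.mul (LibH4.S7.kvy r N1 N2 N3 k1 k2 k3) (al r.l kl))
      (nat_lit 48)) (nat_lit 65536))) r.l

/-- check of a relation -/
def chkS (r : Rl) (N1 N2 N3 k1 k2 k3 kl : ℕ) (k : Bool) : Bool :=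
  @Nat.rec (fun _ => Bool) k (fun _ _ => true) (sv r N1 N2 N3 k1 k2 k3 kl)

section Sc

variable {r : Rl} {N1 N2 N3 k1 k2 k3 kl : ℕ}

lemma ip_val (hl : 0 < r.l) (hl2 : r.l < 100) :
    Nat.mod (Nat.shiftRight (Nat.mul (LibH4.S7.kvy r N1 N2 N3 k1 k2 k3) (al r.l kl))
      (nat_lit 48)) (nat_lit 65536) =
    yt r N1 N2 N3 k1 k2 k3 0 * gA r.l kl 0 + yt r N1 N2 N3 k1 k2 k3 1 * gA r.l kl 1 +
      yt r N1 N2 N3 k1 k2 k3 2 * gA r.l kl 2 + yt r N1 N2 N3 k1 k2 k3 3 * gA r.l kl 3 := by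
  have hy := fun j => (yt_lt (r := r) (N1 := N1) (N2 := N2) (N3 := N3) (k1 := k1) (k2 := k2)
    (k3 := k3) hl j).trans hl2
  have ha := fun j => (gA_lt (n := r.l) (k := kl) (j := j) hl).trans hl2
  exact ip4 (hy 0) (hy 1) (hy 2) (hy 3) (ha 0) (ha 1) (ha 2) (ha 3)

lemma sv_eq (hl : 0 < r.l) (hl2 : r.l < 100) :
    sv r N1 N2 N3 k1 k2 k3 kl =
    (tm r N1 N2 N3 r.l k1 k2 k3 kl 0 + (tm r N1 N2 N3 r.l k1 k2 k3 kl 1 +
      (tm r N1 N2 N3 r.l k1 k2 k3 kl 2 + tm r N1 N2 N3 r.l k1 k2 k3 kl 3))) % r.l := by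
  unfold sv
  rw [ip_val hl hl2]
  change (_ + _) % r.l = _
  have h : NeZero r.l := ⟨hl.ne'⟩
  rw [← ZMod.val_natCast, ← ZMod.val_natCast]
  congr 1
  unfold kvx
  change ((_ % r.l + _ : ℕ) : ZMod r.l) = _
  push_cast
  rw [ZMod.natCast_mod]
  change ((_ + (_ + _) : ℕ) : ZMod r.l) + _ = _
  push_cast
  rw [xt_mod, xt_mod, xt_mod, yt_mod, yt_mod, yt_mod, yt_mod]
  unfold tm
  have f0 : fK 0 = 0 := rfl
  rw [f0]
  push_cast
  ring

end Sc

/-- a relation which holds passes the check -/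
theorem chkS_spec {r : Rl} {a b c B m : ℤ} (h : Hd r a b c B m) {N1 N2 N3 : ℕ}
    [NeZero r.n1] [NeZero r.n2] [NeZero r.n3] [NeZero r.l] [NeZero N1] [NeZero N2] [NeZero N3]
    (h1 : r.n1 ∣ N1) (h2 : r.n2 ∣ N2) (h3 : r.n3 ∣ N3) (hl2 : r.l < 100) {k : Bool}
    (hc : chkS r N1 N2 N3 (cd N1 a b c B m) (cd N2 a b c B m) (cd N3 a b c B m)
      (cd r.l a b c B m) k = true) : k = true := by
  have h4 : sv r N1 N2 N3 (cd N1 a b c B m) (cd N2 a b c B m) (cd N3 a b c B m)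
      (cd r.l a b c B m) = 0 := by
    rw [sv_eq (Nat.pos_of_ne_zero (NeZero.ne _)) hl2]
    exact h.tm h1 h2 h3
  unfold chkS at hc
  rw [h4] at hc
  exact hc

/-! ### lanes -/

/-- data of a lane for the form `j`, when the coefficients depend on the lane -/
def ldK (r : Rl) (N2 N3 k2 k3 kl j : ℕ) : ℕ :=
  Nat.add (ps r N2 N3 k2 k3 j) (Nat.mul (nat_lit 65536)
    (Nat.add (Nat.mod (Nat.mul (fK j) (Nat.mul (cx r.n2 r.t2 N2 k2 j) (cx r.n3 r.t3 N3 k3 j))) r.l)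
      (Nat.mul (nat_lit 256) (Nat.mod (Nat.mul (gA r.l kl j)
        (Nat.mul (cx r.n2 r.t2 N2 k2 j) (cx r.n3 r.t3 N3 k3 j))) r.l))))

/-- the data of the lanes -/
structure L4 where
  /-- form `0` -/
  L0 : List ℕ
  /-- form `1` -/
  L1 : List ℕ
  /-- form `2` -/
  L2 : List ℕ
  /-- form `3` -/
  L3 : List ℕ

/-- forced evaluation of the data of the lanes -/
def mkL4 {α β : Type} (f : ℕ → α → ℕ) (K : List α) (k : L4 → β) : β :=
  mapS (f (nat_lit 0)) K fun L0 => mapS (f (nat_lit 1)) K fun L1 =>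
  mapS (f (nat_lit 2)) K fun L2 => mapS (f (nat_lit 3)) K fun L3 => k ⟨L0, L1, L2, L3⟩

/-- the value -/
def L4of {α : Type} (f : ℕ → α → ℕ) (K : List α) : L4 :=
  ⟨K.map (f 0), K.map (f 1), K.map (f 2), K.map (f 3)⟩

lemma mkL4_eq {α β : Type} (f : ℕ → α → ℕ) (K : List α) (k : L4 → β) :
    mkL4 f K k = k (L4of f K) := by
  unfold mkL4
  rw [mapS_eq, mapS_eq, mapS_eq, mapS_eq]
  rfl

/-- term -/
def xT (r : Rl) (L : List ℕ) (j q P : ℕ) : ℕ :=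
  Nat.mul (Nat.mod (Nat.mul (dig r.t1 P) (fK j)) r.l) (rowP r.l (gx r q) L)
/-- term -/
def yT (r : Rl) (L : List ℕ) (q P α : ℕ) : ℕ :=
  Nat.mul (Nat.mod (Nat.mul (dig r.t1 P) α) r.l) (rowP r.l (gy r q) L)
/-- term -/
def kT (r : Rl) (L : List ℕ) (q P : ℕ) : ℕ :=
  Nat.mul (Nat.mod (dig r.t1 P) r.l) (rowK r.l (gx r q) (gy r q) L)

/-- values of a relation in the lanes; the modulus is the outer prime -/
def FL (r : Rl) (S : L4) (m m2 q0 q1 q2 q3 A0 A1 A2 A3 : ℕ) : ℕ :=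
  Nat.add (yT r S.L0 q0 m A0) (Nat.add (xT r S.L1 (nat_lit 1) q1 (nat_lit 1))
  (Nat.add (yT r S.L1 q1 (nat_lit 1) A1) (Nat.add (xT r S.L2 (nat_lit 2) q2 m)
  (Nat.add (yT r S.L2 q2 m A2) (Nat.add (xT r S.L3 (nat_lit 3) q3 m2)
  (yT r S.L3 q3 m2 A3))))))

/-- values of a relation in the lanes; the coefficients depend on the lane -/
def FK (r : Rl) (S : L4) (m m2 q0 q1 q2 q3 : ℕ) : ℕ :=
  Nat.add (kT r S.L0 q0 m) (Nat.add (kT r S.L1 q1 (nat_lit 1))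
  (Nat.add (kT r S.L2 q2 m) (kT r S.L3 q3 m2)))

lemma entK_ld {r : Rl} (hr : r.len3 < 256) (hl : 0 < r.l) (hl2 : r.l < 256)
    (N2 N3 k2 k3 kl j R R' : ℕ) :
    ((entK r.l R R' (ldK r N2 N3 k2 k3 kl j) : ℕ) : ZMod r.l) =
      ((cx r.n2 r.t2 N2 k2 j * cx r.n3 r.t3 N3 k3 j *
        (fK j * dig R (ps r N2 N3 k2 k3 j) + gA r.l kl j * dig R' (ps r N2 N3 k2 k3 j)) : ℕ) :
        ZMod r.l) := by
  have h := ps_lt hr N2 N3 k2 k3 j
  set P := ps r N2 N3 k2 k3 j with hP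
  set u := fK j * (cx r.n2 r.t2 N2 k2 j * cx r.n3 r.t3 N3 k3 j) % r.l with hu
  set v := gA r.l kl j * (cx r.n2 r.t2 N2 k2 j * cx r.n3 r.t3 N3 k3 j) % r.l with hv
  have hu2 : u < 256 := (Nat.mod_lt _ hl).trans hl2
  have e1 : ldK r N2 N3 k2 k3 kl j = P + 65536 * (u + 256 * v) := rfl
  have e2 : entK r.l R R' (ldK r N2 N3 k2 k3 kl j) =
    ((ldK r N2 N3 k2 k3 kl j / 65536) % 256 * dig R (ldK r N2 N3 k2 k3 kl j % 65536) +
      ldK r N2 N3 k2 k3 kl j / 16777216 * dig R' (ldK r N2 N3 k2 k3 kl j % 65536)) % r.l := rfl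
  have e3 : (P + 65536 * (u + 256 * v)) / 16777216 = v := by omega
  have e4 : (P + 65536 * (u + 256 * v)) / 65536 % 256 = u := by omega
  have e5 : (P + 65536 * (u + 256 * v)) % 65536 = P := by omega
  rw [e2, e1, e3, e4, e5, ZMod.natCast_mod]
  push_cast
  rw [hu, hv, ZMod.natCast_mod, ZMod.natCast_mod]
  push_cast
  ring

section L

variable {r : Rl} {a b c B m : ℤ} {N2 N3 : ℕ}

/-- the seven terms of a lane -/
def vL (r : Rl) (N2 N3 k2 k3 m m2 q0 q1 q2 q3 A0 A1 A2 A3 : ℕ) : ℕ :=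
  (dig r.t1 m * A0 % r.l) * ent r.l (gy r q0) (ld r N2 N3 k2 k3 0) +
  ((dig r.t1 1 * fK 1 % r.l) * ent r.l (gx r q1) (ld r N2 N3 k2 k3 1) +
  ((dig r.t1 1 * A1 % r.l) * ent r.l (gy r q1) (ld r N2 N3 k2 k3 1) +
  ((dig r.t1 m * fK 2 % r.l) * ent r.l (gx r q2) (ld r N2 N3 k2 k3 2) +
  ((dig r.t1 m * A2 % r.l) * ent r.l (gy r q2) (ld r N2 N3 k2 k3 2) +
  ((dig r.t1 m2 * fK 3 % r.l) * ent r.l (gx r q3) (ld r N2 N3 k2 k3 3) +
  (dig r.t1 m2 * A3 % r.l) * ent r.l (gy r q3) (ld r N2 N3 k2 k3 3))))))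

lemma FL_eq {α : Type} (k2 k3 : α → ℕ) (K : List α) (m m2 q0 q1 q2 q3 A0 A1 A2 A3 : ℕ) :
    FL r (L4of (fun j x => ld r N2 N3 (k2 x) (k3 x) j) K) m m2 q0 q1 q2 q3 A0 A1 A2 A3 =
      packL (2 ^ 24) (fun x => vL r N2 N3 (k2 x) (k3 x) m m2 q0 q1 q2 q3 A0 A1 A2 A3) K := by
  have ex : ∀ (g : α → ℕ) (j q P : ℕ), xT r (K.map g) j q P =
      packL (2 ^ 24) (fun x => (dig r.t1 P * fK j % r.l) * ent r.l (gx r q) (g x)) K := by
    intro g j q P
    change (dig r.t1 P * fK j % r.l) * rowP r.l (gx r q) (K.map g) = _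
    rw [rowP_map, ← packL_mul]
  have ey : ∀ (g : α → ℕ) (q P A : ℕ), yT r (K.map g) q P A =
      packL (2 ^ 24) (fun x => (dig r.t1 P * A % r.l) * ent r.l (gy r q) (g x)) K := by
    intro g q P A
    change (dig r.t1 P * A % r.l) * rowP r.l (gy r q) (K.map g) = _
    rw [rowP_map, ← packL_mul]
  unfold FL L4of
  simp only
  rw [ey, ex, ey, ex, ey, ex, ey]
  unfold vL
  simp only [packL_add]
  rfl

lemma vL_lt (hl : 0 < r.l) (k2 k3 m m2 q0 q1 q2 q3 A0 A1 A2 A3 : ℕ) :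
    vL r N2 N3 k2 k3 m m2 q0 q1 q2 q3 A0 A1 A2 A3 < 8 * ((r.l - 1) * (r.l - 1)) + 1 := by
  have h : ∀ x R e, (x % r.l) * ent r.l R e ≤ (r.l - 1) * (r.l - 1) := fun x R e =>
    mul_bd (Nat.mod_lt _ hl) (ent_lt hl _ _)
  unfold vL
  have h1 := h (dig r.t1 m * A0) (gy r q0) (ld r N2 N3 k2 k3 0)
  have h2 := h (dig r.t1 1 * fK 1) (gx r q1) (ld r N2 N3 k2 k3 1)
  have h3 := h (dig r.t1 1 * A1) (gy r q1) (ld r N2 N3 k2 k3 1)
  have h4 := h (dig r.t1 m * fK 2) (gx r q2) (ld r N2 N3 k2 k3 2)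
  have h5 := h (dig r.t1 m * A2) (gy r q2) (ld r N2 N3 k2 k3 2)
  have h6 := h (dig r.t1 m2 * fK 3) (gx r q3) (ld r N2 N3 k2 k3 3)
  have h7 := h (dig r.t1 m2 * A3) (gy r q3) (ld r N2 N3 k2 k3 3)
  omega

/-- the sum of the values of the forms -/
lemma Hd.sum (h : Hd r a b c B m) :
    ((r.val (jg a b c B m 0) + (r.val (jg a b c B m 1) + (r.val (jg a b c B m 2) +
      r.val (jg a b c B m 3))) : ℕ) : ZMod r.l) = 0 := by
  rw [ZMod.natCast_eq_zero_iff]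
  apply Nat.dvd_of_mod_eq_zero
  have h' := h
  unfold Hd J6 at h'
  simp only [List.map_cons, List.map_nil, List.sum_cons, List.sum_nil, add_zero] at h'
  exact h'

/-- value of a form, outer component separated -/
lemma val_eq [NeZero r.n1] [NeZero r.n2] [NeZero r.n3] [NeZero r.l] [NeZero N2] [NeZero N3]
    (h2 : r.n2 ∣ N2) (h3 : r.n3 ∣ N3) {j : ℕ} (hj : j < 4) :
    r.val (jg a b c B m j) = dig r.t1 (rs r.n1 (jg a b c B m j).P) *
      (cx r.n2 r.t2 N2 (cd N2 a b c B m) j * cx r.n3 r.t3 N3 (cd N3 a b c B m) j) *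
      (fK j * dig (gx r (qz r.n1 r.ex1 r.PT1 a b c B m j))
          (ps r N2 N3 (cd N2 a b c B m) (cd N3 a b c B m) j) +
        rs r.l (jg a b c B m j).α * dig (gy r (qz r.n1 r.ex1 r.PT1 a b c B m j))
          (ps r N2 N3 (cd N2 a b c B m) (cd N3 a b c B m) j)) := by
  have hj5 : j < 5 := by omega
  unfold Rl.val fval
  rw [← tX_eq, ← tY_eq, cx_cd h2 _ hj5, cx_cd h3 _ hj5, cq_cd h2 _ _ hj5,
    cq_cd h3 _ _ hj5, jg_K (a := a) (b := b) (c := c) (B := B) (m := m) hj, jg_P hj, jg_R hj,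
    jg_S hj]
  unfold qz
  ring

/-- **lanes, the modulus is the outer prime** -/
theorem FL_bit (h : Hd r a b c B m) (hn : 1 < r.n1) [NeZero r.n1] [NeZero r.n2] [NeZero r.n3]
    [NeZero r.l]
    [NeZero N2] [NeZero N3] (h2 : r.n2 ∣ N2) (h3 : r.n3 ∣ N3) (hr : r.len3 < 256)
    (hl : LOK r.l) {α : Type} {k2 k3 : α → ℕ} {K : List α} {i : ℕ} (hi : i < K.length)
    (e2 : k2 K[i] = cd N2 a b c B m) (e3 : k3 K[i] = cd N3 a b c B m) :
    (msk r.l K.length (FL r (L4of (fun j x => ld r N2 N3 (k2 x) (k3 x) j) K)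
      (rs r.n1 m) (rs r.n1 (y2 a B m))
      (qz r.n1 r.ex1 r.PT1 a b c B m 0) (qz r.n1 r.ex1 r.PT1 a b c B m 1)
      (qz r.n1 r.ex1 r.PT1 a b c B m 2) (qz r.n1 r.ex1 r.PT1 a b c B m 3)
      (rs r.l (-B)) (rs r.l (-(2 * a))) (rs r.l (-(2 * b))) (rs r.l (-c)))).testBit
        (24 * i + 15) = true := by
  rw [FL_eq]
  apply bit_of hl (fun x _ => vL_lt hl.l1 _ _ _ _ _ _ _ _ _ _ _ _) hi
  rw [e2, e3, ← ZMod.natCast_eq_zero_iff, ← h.sum]
  rw [val_eq h2 h3 (j := 0) (by norm_num), val_eq h2 h3 (j := 1) (by norm_num),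
    val_eq h2 h3 (j := 2) (by norm_num), val_eq h2 h3 (j := 3) (by norm_num)]
  unfold vL
  push_cast
  simp only [ent_ld hr, ZMod.natCast_mod]
  have f0 : fK 0 = 0 := rfl
  have e : ∀ x : ℤ, ((rs r.l x : ℕ) : ZMod r.l) = (x : ZMod r.l) := fun x => rs_cast x
  have p0 : (jg a b c B m 0).P = m := rfl
  have p1 : (jg a b c B m 1).P = 1 := rfl
  have p2 : (jg a b c B m 2).P = m := rfl
  have p3 : (jg a b c B m 3).P = y2 a B m := rfl
  have a0 : (jg a b c B m 0).α = -B := rfl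
  have a1 : (jg a b c B m 1).α = -(2 * a) := rfl
  have a2 : (jg a b c B m 2).α = -(2 * b) := rfl
  have a3 : (jg a b c B m 3).α = -c := rfl
  have ho : dig r.t1 1 = dig r.t1 (rs r.n1 1) := by rw [rs_one_of hn]
  rw [p0, p1, p2, p3, a0, a1, a2, a3, f0, ho]
  push_cast
  ring

/-- the four terms of a lane -/
def vK (r : Rl) (N2 N3 k2 k3 kl m m2 q0 q1 q2 q3 : ℕ) : ℕ :=
  (dig r.t1 m % r.l) * entK r.l (gx r q0) (gy r q0) (ldK r N2 N3 k2 k3 kl 0) +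
  ((dig r.t1 1 % r.l) * entK r.l (gx r q1) (gy r q1) (ldK r N2 N3 k2 k3 kl 1) +
  ((dig r.t1 m % r.l) * entK r.l (gx r q2) (gy r q2) (ldK r N2 N3 k2 k3 kl 2) +
  (dig r.t1 m2 % r.l) * entK r.l (gx r q3) (gy r q3) (ldK r N2 N3 k2 k3 kl 3)))

lemma FK_eq {α : Type} (k2 k3 kl : α → ℕ) (K : List α) (m m2 q0 q1 q2 q3 : ℕ) :
    FK r (L4of (fun j x => ldK r N2 N3 (k2 x) (k3 x) (kl x) j) K) m m2 q0 q1 q2 q3 =
      packL (2 ^ 24) (fun x => vK r N2 N3 (k2 x) (k3 x) (kl x) m m2 q0 q1 q2 q3) K := by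
  have ex : ∀ (g : α → ℕ) (q P : ℕ), kT r (K.map g) q P =
      packL (2 ^ 24) (fun x => (dig r.t1 P % r.l) * entK r.l (gx r q) (gy r q) (g x)) K := by
    intro g q P
    change (dig r.t1 P % r.l) * rowK r.l (gx r q) (gy r q) (K.map g) = _
    rw [rowK_map, ← packL_mul]
  unfold FK L4of
  simp only
  rw [ex, ex, ex, ex]
  unfold vK
  simp only [packL_add]
  rfl

lemma vK_lt (hl : 0 < r.l) (k2 k3 kl m m2 q0 q1 q2 q3 : ℕ) :
    vK r N2 N3 k2 k3 kl m m2 q0 q1 q2 q3 < 8 * ((r.l - 1) * (r.l - 1)) + 1 := by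
  have h : ∀ x R R' e, (x % r.l) * entK r.l R R' e ≤ (r.l - 1) * (r.l - 1) := fun x R R' e =>
    mul_bd (Nat.mod_lt _ hl) (entK_lt hl _ _ _)
  unfold vK
  have h1 := h (dig r.t1 m) (gx r q0) (gy r q0) (ldK r N2 N3 k2 k3 kl 0)
  have h2 := h (dig r.t1 1) (gx r q1) (gy r q1) (ldK r N2 N3 k2 k3 kl 1)
  have h3 := h (dig r.t1 m) (gx r q2) (gy r q2) (ldK r N2 N3 k2 k3 kl 2)
  have h4 := h (dig r.t1 m2) (gx r q3) (gy r q3) (ldK r N2 N3 k2 k3 kl 3)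
  omega

/-- **lanes, the coefficients depend on the lane** -/
theorem FK_bit (h : Hd r a b c B m) (hn : 1 < r.n1) [NeZero r.n1] [NeZero r.n2] [NeZero r.n3]
    [NeZero r.l] [NeZero N2] [NeZero N3] (h2 : r.n2 ∣ N2) (h3 : r.n3 ∣ N3) (hr : r.len3 < 256)
    (hl : LOK r.l) {α : Type} {k2 k3 kl : α → ℕ} {K : List α} {i : ℕ} (hi : i < K.length)
    (e2 : k2 K[i] = cd N2 a b c B m) (e3 : k3 K[i] = cd N3 a b c B m)
    (el : kl K[i] = cd r.l a b c B m) :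
    (msk r.l K.length (FK r (L4of (fun j x => ldK r N2 N3 (k2 x) (k3 x) (kl x) j) K)
      (rs r.n1 m) (rs r.n1 (y2 a B m))
      (qz r.n1 r.ex1 r.PT1 a b c B m 0) (qz r.n1 r.ex1 r.PT1 a b c B m 1)
      (qz r.n1 r.ex1 r.PT1 a b c B m 2) (qz r.n1 r.ex1 r.PT1 a b c B m 3))).testBit
        (24 * i + 15) = true := by
  rw [FK_eq]
  apply bit_of hl (fun x _ => vK_lt hl.l1 _ _ _ _ _ _ _ _ _) hi
  rw [e2, e3, el, ← ZMod.natCast_eq_zero_iff, ← h.sum]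
  rw [val_eq h2 h3 (j := 0) (by norm_num), val_eq h2 h3 (j := 1) (by norm_num),
    val_eq h2 h3 (j := 2) (by norm_num), val_eq h2 h3 (j := 3) (by norm_num)]
  rw [← gA_cd (j := 0) (by norm_num), ← gA_cd (j := 1) (by norm_num),
    ← gA_cd (j := 2) (by norm_num), ← gA_cd (j := 3) (by norm_num)]
  unfold vK
  push_cast
  simp only [entK_ld hr hl.l1 (hl.l2.trans (by norm_num)), ZMod.natCast_mod]
  have p0 : (jg a b c B m 0).P = m := rfl
  have p1 : (jg a b c B m 1).P = 1 := rfl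
  have p2 : (jg a b c B m 2).P = m := rfl
  have p3 : (jg a b c B m 3).P = y2 a B m := rfl
  have ho : dig r.t1 1 = dig r.t1 (rs r.n1 1) := by rw [rs_one_of hn]
  rw [p0, p1, p2, p3, ho]
  push_cast
  ring

end L

/-! ### the loop over the classes modulo a prime -/

/-- the type of the checks: `B m a b c m2 q0 q1 q2 q3 A0 A1 A2 A3` -/
abbrev CB := ℕ → ℕ → ℕ → ℕ → ℕ → ℕ → ℕ → ℕ → ℕ → ℕ → ℕ → ℕ → ℕ → ℕ → Bool

/-- level of `b` -/
def wBb (p ex PT : ℕ) (k : CB) (B m a m2 R2 q0 q1 q2 A0 A1 b : ℕ) : Bool :=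
  strict (u3 p b m m2 R2) fun m3 => strict (v3 p b m2 R2) fun R3 =>
  strict (pos p ex PT m2 R3 (ng p m3)) fun q3 => strict (ng p (Nat.mul (nat_lit 2) b)) fun A2 =>
  strict (Nat.mod (Nat.mul R3 (Nat.pow m3 (Nat.sub p (nat_lit 2)))) p) fun c =>
  strict (ng p c) fun A3 => k B m a b c m2 q0 q1 q2 q3 A0 A1 A2 A3

/-- level of `a` -/
def wA (p ex PT : ℕ) (k : CB) (B m q0 q1 A0 a : ℕ) : Bool :=
  strict (u2 p a B m) fun m2 => strict (v2 p a B m) fun R2 =>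
  strict (pos p ex PT m R2 (ng p m2)) fun q2 => strict (ng p (Nat.mul (nat_lit 2) a)) fun A1 =>
    allR (wBb p ex PT k B m a m2 R2 q0 q1 q2 A0 A1) p

/-- level of `m` -/
def wM (p ex PT : ℕ) (k : CB) (B m : ℕ) : Bool :=
  @Bool.rec (fun _ => Bool) true
    (strict (pos p ex PT m B (Nat.sub p (nat_lit 1))) fun q0 =>
    strict (pos p ex PT (nat_lit 1) B (ng p m)) fun q1 => strict (ng p B) fun A0 =>
      allR (wA p ex PT k B m q0 q1 A0) p)
    (adP p m B (Nat.sub p (nat_lit 1)))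

/-- level of `B` -/
def wB (p ex PT : ℕ) (k : CB) (B : ℕ) : Bool := allR (wM p ex PT k B) p

/-- the middle coefficient is a unit -/
lemma y3_unit {Q : ℕ} {a b c B m : ℤ} (S : Sys6 Q a b c B m) {p : ℕ} [NeZero p] (hp : p.Prime)
    (hp2 : p ≠ 2) (hQ : p ∣ Q) : ((y3 a b B m : ℤ) : ZMod p) ≠ 0 := by
  have : Fact p.Prime := ⟨hp⟩
  intro h0
  have h1 := adP6 S hp hp2 hQ (y2 a B m) (r3 a b B m) (-(y3 a b B m)) (by
    have h := LibH4.S7.disc3 a b B m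
    unfold Dv
    rw [show r3 a b B m ^ 2 - 4 * y2 a B m * -(y3 a b B m) - LibH4.S7.dd B m = 0 by
      linear_combination h]
    exact ⟨dvd_zero _, dvd_zero _⟩)
  have e' : adP p (rs p (y2 a B m)) (rs p (r3 a b B m)) (rs p (-(y3 a b B m))) =
    Nat.beq (Nat.mod (Nat.pow ((rs p (r3 a b B m) * rs p (r3 a b B m) +
      4 * rs p (y2 a B m) * (p - rs p (-(y3 a b B m)))) % p) (p / 2)) p) (p - 1) := rfl
  rw [e'] at h1
  have h2 : ((rs p (r3 a b B m) * rs p (r3 a b B m) +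
      4 * rs p (y2 a B m) * (p - rs p (-(y3 a b B m)))) % p) ^ (p / 2) % p = p - 1 :=
    Nat.eq_of_beq_eq_true h1
  have h3 := congrArg (Nat.cast : ℕ → ZMod p) h2
  rw [ZMod.natCast_mod, Nat.cast_pow, ZMod.natCast_mod, Nat.cast_add, Nat.cast_mul, Nat.cast_mul,
    Nat.cast_sub (rs_lt _).le, rs_cast, rs_cast, ZMod.natCast_self, K5.cast_pred] at h3
  push_cast at h3
  rw [h0] at h3
  simp only [neg_zero, sub_zero, mul_zero, add_zero] at h3
  have hp3 : 3 ≤ p := by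
    have := hp.two_le
    omega
  have hodd : p % 2 = 1 := by
    rcases hp.eq_two_or_odd with h | h
    · exact absurd h hp2
    · exact h
  have h5 : 2 * (p / 2) = p - 1 := by omega
  rw [← sq, ← pow_mul, h5] at h3
  have h2n : (2 : ZMod p) ≠ 0 := by
    intro h
    have h' : ((2 : ℕ) : ZMod p) = 0 := by exact_mod_cast h
    rw [ZMod.natCast_eq_zero_iff] at h'
    have := Nat.le_of_dvd (by norm_num) h'
    omega
  by_cases hr : ((r3 a b B m : ℤ) : ZMod p) = 0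
  · rw [hr, zero_pow (by omega)] at h3
    exact one_ne_zero (α := ZMod p) (by linear_combination h3)
  · rw [ZMod.pow_card_sub_one_eq_one hr] at h3
    exact h2n (by linear_combination h3)

/-- **the loop over the classes** -/
theorem wB_spec {Q p : ℕ} (hp : p.Prime) (hp2 : p ≠ 2) (hQ : p ∣ Q) {ex PT : ℕ} {k : CB}
    {a b c B m : ℤ} (S : Sys6 Q a b c B m) (h : wB p ex PT k (rs p B) = true) :
    k (rs p B) (rs p m) (rs p a) (rs p b) (rs p c) (rs p (y2 a B m))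
      (qz p ex PT a b c B m 0) (qz p ex PT a b c B m 1) (qz p ex PT a b c B m 2)
      (qz p ex PT a b c B m 3) (rs p (-B)) (rs p (-(2 * a)))
      (rs p (-(2 * b))) (rs p (-c)) = true := by
  have : NeZero p := ⟨hp.ne_zero⟩
  have : Fact p.Prime := ⟨hp⟩
  have had := adP6 S hp hp2 hQ m B (-1) (by
    unfold Dv
    rw [show B ^ 2 - 4 * m * -1 - LibH4.S7.dd B m = 0 by unfold LibH4.S7.dd; ring]
    exact ⟨dvd_zero _, dvd_zero _⟩)
  have h1 := allR_spec h (rs p m) (rs_lt m)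
  unfold wM at h1
  rw [rs_neg_one_of hp.one_lt] at had
  have had' : adP p (rs p m) (rs p B) (Nat.sub p (nat_lit 1)) = true := had
  rw [had'] at h1
  simp only [strict_eq] at h1
  have h2 := allR_spec h1 (rs p a) (rs_lt a)
  unfold wA at h2
  simp only [strict_eq] at h2
  rw [u2_eq, v2_eq] at h2
  have h3 := allR_spec h2 (rs p b) (rs_lt b)
  unfold wBb at h3
  simp only [strict_eq] at h3
  rw [u3_eq, v3_eq] at h3
  have hc : Nat.mod (Nat.mul (rs p (r3 a b B m)) (Nat.pow (rs p (y3 a b B m))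
      (Nat.sub p (nat_lit 2)))) p = rs p c := by
    change rs p (r3 a b B m) * (rs p (y3 a b B m)) ^ (p - 2) % p = _
    apply rs_of
    push_cast
    rw [rs_cast, rs_cast]
    have h4 := y3_unit S hp hp2 hQ
    have h5 := S.cl
    unfold Cl6 at h5
    have h6 : ((r3 a b B m : ℤ) : ZMod p) = (c : ZMod p) * ((y3 a b B m : ℤ) : ZMod p) := by
      rw [← h5]; push_cast; ring
    have h7 := ZMod.pow_card_sub_one_eq_one h4
    have h8 : p - 1 = (p - 2) + 1 := by have := hp.two_le; omega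
    rw [h8, pow_succ] at h7
    rw [h6]
    linear_combination (c : ZMod p) * h7
  rw [hc, ng_eq, ng_eq, ng_eq, ng_eq, ng_eq, ng2_eq, ng2_eq] at h3
  have e0 : pos p ex PT (rs p m) (rs p B) (Nat.sub p (nat_lit 1)) = qz p ex PT a b c B m 0 := by
    change pos p ex PT (rs p m) (rs p B) (p - 1) = _
    rw [← rs_neg_one_of hp.one_lt]
    rfl
  have e1 : pos p ex PT (nat_lit 1) (rs p B) (rs p (-m)) = qz p ex PT a b c B m 1 := by
    have : qz p ex PT a b c B m 1 = pos p ex PT (rs p 1) (rs p B) (rs p (-m)) := rfl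
    rw [this, rs_one_of hp.one_lt]
  rw [e0, e1] at h3
  exact h3

end Pool.Agent.PSX.K
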