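import Pool.Agent.PSX.KSt2

/-!
Period six, elimination: the ghosts `a = 1`, `b = -1` modulo `13`, `7`, `5`, `8` are ghosts modulo `3`.
-/

namespace Pool.Agent.PSX.K

open Pool.Agent.Lib_helper5 Pool.Agent.Lib_helper5.LK Pool.Agent.Lib_helper5.TB
  Pool.Agent.Lib_helper5.Lane Pool.Agent.LibH4.Ker
  Pool.Agent.PSX.EL
open Pool.Agent.LibH4.S7 (y2 r2 y3 r3 cd ck Rl ld LOK msk qz cd_one RC pk lo hi lo_pk hi_pk
  cd_lt nthA nthA_eq nthN nthN_eq memN memN_spec enumT enumT_spec land_bit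
  ne_zero_of_bit lok13 lok5 tup5 h4 rs_neg_one_of)

/-! ### the ghost classes -/

/-- ghost modulo `n` -/
def Gh (n : ℕ) (a b : ℤ) : Prop := (n : ℤ) ∣ a - 1 ∧ (n : ℤ) ∣ b + 1

/-- enumeration of the ghost classes modulo `n` -/
def gB (A : ℕ → ℕ → ℕ → Bool) (n : ℕ) (k : ℕ → Bool) : Bool :=
  allR (fun B => allR (fun m => @Bool.rec (fun _ => Bool) true
    (strict (ck n (nat_lit 1) (Nat.sub n (nat_lit 1))
      (Nat.mod (Nat.add B (nat_lit 2)) n) B m) k)
    (A m B (Nat.sub n (nat_lit 1)))) n) n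

section

variable {a b c B m : ℤ} {Q n : ℕ}

/-- on a ghost `y3 = -1`, `c = B + 2` -/
lemma gh_c [NeZero n] (S : Sys6 Q a b c B m) (h : Gh n a b) :
    ((c : ℤ) : ZMod n) = (B : ZMod n) + 2 := by
  have ha : ((a : ℤ) : ZMod n) = 1 := by
    have := (ZMod.intCast_zmod_eq_zero_iff_dvd (a - 1) n).2 h.1
    push_cast at this
    linear_combination this
  have hb : ((b : ℤ) : ZMod n) = -1 := by
    have := (ZMod.intCast_zmod_eq_zero_iff_dvd (b + 1) n).2 h.2
    push_cast at this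
    linear_combination this
  have h1 := congrArg (Int.cast : ℤ → ZMod n) S.cl
  unfold y3 r3 y2 r2 at h1
  push_cast at h1
  rw [ha, hb] at h1
  linear_combination -h1

lemma gh_cd [NeZero n] (hn : 1 < n) (S : Sys6 Q a b c B m) (h : Gh n a b) :
    cd n a b c B m = ck n 1 (n - 1) ((rs n B + 2) % n) (rs n B) (rs n m) := by
  have ha : rs n a = 1 := by
    have h1 : rs n a = rs n 1 := by
      unfold rs
      congr 1
      have := (ZMod.intCast_zmod_eq_zero_iff_dvd (a - 1) n).2 h.1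
      push_cast at this ⊢
      linear_combination this
    rw [h1]
    have : Fact (1 < n) := ⟨hn⟩
    unfold rs
    rw [Int.cast_one, ZMod.val_one]
  have hb : rs n b = n - 1 := by
    rw [← rs_neg_one_of hn]
    unfold rs
    congr 1
    have := (ZMod.intCast_zmod_eq_zero_iff_dvd (b + 1) n).2 h.2
    push_cast at this ⊢
    linear_combination this
  have hc : (rs n B + 2) % n = rs n c := by
    apply rs_of
    push_cast
    rw [rs_cast, gh_c S h]
  rw [hc]
  have e : cd n a b c B m = ck n (rs n a) (rs n b) (rs n c) (rs n B) (rs n m) := rfl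
  rw [e, ha, hb]

theorem gB_spec [NeZero n] (hn : 1 < n) (S : Sys6 Q a b c B m) (h : Gh n a b)
    {A : ℕ → ℕ → ℕ → Bool} (hA : A (rs n m) (rs n B) (rs n (-1)) = true) {k : ℕ → Bool}
    (hk : gB A n k = true) : k (cd n a b c B m) = true := by
  have h1 := allR_spec (allR_spec hk (rs n B) (rs_lt B)) (rs n m) (rs_lt m)
  simp only at h1
  rw [rs_neg_one_of hn] at hA
  have hA' : A (rs n m) (rs n B) (Nat.sub n (nat_lit 1)) = true := hA
  rw [hA'] at h1
  simp only [strict_eq] at h1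
  rw [gh_cd hn S h]
  exact h1

/-- the form `(m, B, -1)` -/
lemma dv_one (n : ℕ) (B m : ℤ) : Dv n (LibH4.S7.dd B m) m B (-1) := by
  unfold Dv
  rw [show B ^ 2 - 4 * m * -1 - LibH4.S7.dd B m = 0 by unfold LibH4.S7.dd; ring]
  exact ⟨dvd_zero _, dvd_zero _⟩

end

/-! ### the step to 3 -/

/-- relations of the step -/
structure EG where
  /-- relation -/
  r105 : Rl
  /-- relation -/
  r195 : Rl
  /-- relation -/
  r273 : Rl
  /-- relation -/
  r312 : Rl
  /-- relation -/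
  r168 : Rl

/-- the components -/
structure EGOK (E : EG) : Prop where
  r105 : RC E.r105 7 5 3 13
  r195 : RC E.r195 13 5 3 13
  r273 : RC E.r273 13 7 3 13
  r312 : RC E.r312 13 8 3 13
  r168 : RC E.r168 7 8 3 7

/-- the relations hold -/
structure EGH (E : EG) (a b c B m : ℤ) : Prop where
  r105 : Hd E.r105 a b c B m
  r195 : Hd E.r195 a b c B m
  r273 : Hd E.r273 a b c B m
  r312 : Hd E.r312 a b c B m
  r168 : Hd E.r168 a b c B m

/-- level of the classes modulo 8 -/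
def q8 (E : EG) (G : List ℕ) (k3 k5 k13 k7 k8 : ℕ) : Bool :=
  chkS E.r312 (nat_lit 13) (nat_lit 8) (nat_lit 3) k13 k8 k3 k13
  (chkS E.r168 (nat_lit 7) (nat_lit 8) (nat_lit 3) k7 k8 k3 k7
    (memN (tup5 k13 k7 k5 k8 k3) G))

/-- level of the classes modulo 7 -/
def q7 (E : EG) (G F8 : List ℕ) (k3 k5 k13 k7 : ℕ) : Bool :=
  chkS E.r105 (nat_lit 7) (nat_lit 5) (nat_lit 3) k7 k5 k3 k13
  (chkS E.r273 (nat_lit 13) (nat_lit 7) (nat_lit 3) k13 k7 k3 k13
    (allL (q8 E G k3 k5 k13 k7) F8))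

/-- level of the classes modulo 13 -/
def q13 (E : EG) (G F7 F8 : List ℕ) (k3 k5 k13 : ℕ) : Bool :=
  chkS E.r195 (nat_lit 13) (nat_lit 5) (nat_lit 3) k13 k5 k3 k13
    (allL (q7 E G F8 k3 k5 k13) F7)

/-- level of the classes modulo 5 -/
def q5 (E : EG) (G F13 F7 F8 : List ℕ) (k3 k5 : ℕ) : Bool :=
  allL (q13 E G F7 F8 k3 k5) F13

/-- a class modulo 3 -/
def q3 (E : EG) (G F13 F7 F5 F8 : List ℕ) : CB :=
  fun B m a b c _ _ _ _ _ _ _ _ _ => @Bool.rec (fun _ => Bool)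
    (strict (ck (nat_lit 3) a b c B m) fun k3 => allL (q5 E G F13 F7 F8 k3) F5)
    true (Nat.beq (Nat.add a (Nat.mul (nat_lit 3) b)) (nat_lit 7))

/-- **check at 3 for the ghosts** -/
def chkG (E : EG) (G F13 F7 F5 F8 : List ℕ) (B : ℕ) : Bool :=
  wB (nat_lit 3) (nat_lit 1) PT3 (q3 E G F13 F7 F5 F8) B

section SpecG

variable {E : EG} {a b c B m : ℤ} {G F13 F7 F5 F8 : List ℕ} {Q : ℕ}

/-- **the step to 3 for the ghosts** -/
theorem chkG_spec (hE : EGOK E) (hH : EGH E a b c B m) (S : Sys6 Q a b c B m) (hQ : 3 ∣ Q)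
    (g13 : cd 13 a b c B m ∈ F13) (g7 : cd 7 a b c B m ∈ F7) (g5 : cd 5 a b c B m ∈ F5)
    (g8 : cd 8 a b c B m ∈ F8) (h : ∀ x < 3, chkG E G F13 F7 F5 F8 x = true) :
    Gh 3 a b ∨ tup5 (cd 13 a b c B m) (cd 7 a b c B m) (cd 5 a b c B m)
      (cd 8 a b c B m) (cd 3 a b c B m) ∈ G := by
  have h1 := wB_spec (by norm_num) (by norm_num) hQ S (h _ (rs_lt B))
  unfold q3 at h1
  cases hb : Nat.beq (Nat.add (rs 3 a) (Nat.mul (nat_lit 3) (rs 3 b))) (nat_lit 7) with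
  | true =>
    left
    have h2 : rs 3 a + 3 * rs 3 b = 7 := Nat.eq_of_beq_eq_true hb
    have h3 : rs 3 a < 3 := rs_lt a
    have e1 : rs 3 a = 1 := by omega
    have e2 : rs 3 b = 2 := by omega
    have f1 : ((rs 3 a : ℕ) : ZMod 3) = (a : ZMod 3) := rs_cast a
    have f2 : ((rs 3 b : ℕ) : ZMod 3) = (b : ZMod 3) := rs_cast b
    rw [e1] at f1
    rw [e2] at f2
    constructor
    · rw [← ZMod.intCast_zmod_eq_zero_iff_dvd]
      push_cast at f1 ⊢
      rw [← f1]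
      ring
    · rw [← ZMod.intCast_zmod_eq_zero_iff_dvd]
      push_cast at f2 ⊢
      rw [← f2]
      decide
  | false =>
    right
    rw [hb] at h1
    simp only [strict_eq] at h1
    have e3 : ck (nat_lit 3) (rs 3 a) (rs 3 b) (rs 3 c) (rs 3 B) (rs 3 m) = cd 3 a b c B m := rfl
    rw [e3] at h1
    have h2 := allL_spec (allL_spec h1 _ g5) _ g13
    unfold q13 at h2
    have h3 := rchk hE.r195 hH.r195 (dvd_refl _) (dvd_refl _) (dvd_refl _) (by norm_num) h2
    have h4 := allL_spec h3 _ g7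
    unfold q7 at h4
    have h5 := rchk hE.r105 hH.r105 (dvd_refl _) (dvd_refl _) (dvd_refl _) (by norm_num) h4
    have h6 := rchk hE.r273 hH.r273 (dvd_refl _) (dvd_refl _) (dvd_refl _) (by norm_num) h5
    have h7 := allL_spec h6 _ g8
    unfold q8 at h7
    have h8 := rchk hE.r312 hH.r312 (dvd_refl _) (dvd_refl _) (dvd_refl _) (by norm_num) h7
    have h9 := rchk hE.r168 hH.r168 (dvd_refl _) (dvd_refl _) (dvd_refl _) (by norm_num) h8
    exact memN_spec h9

end SpecG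

/-! ### the exceptional classes at 17 -/

/-- relations of the step -/
structure EX where
  /-- relation -/
  r119n : Rl
  /-- relation -/
  r51 : Rl
  /-- relation -/
  r119m : Rl
  /-- relation -/
  r221 : Rl
  /-- relation -/
  r520 : Rl
  /-- relation -/
  r663n : Rl
  /-- relation -/
  r663f : Rl
  /-- relation -/
  r357 : Rl
  /-- relation -/
  r595a : Rl
  /-- relation -/
  r595b : Rl
  /-- relation -/
  r680a : Rl
  /-- relation -/
  r680b : Rl

/-- the components -/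
structure EXOK (E : EX) : Prop where
  r119n : RC E.r119n 17 7 1 13
  r51 : RC E.r51 17 3 1 5
  r119m : RC E.r119m 17 7 1 5
  r221 : RC E.r221 17 13 1 5
  r520 : RC E.r520 13 5 8 17
  r663n : RC E.r663n 17 13 3 7
  r663f : RC E.r663f 17 13 3 13
  r357 : RC E.r357 17 7 3 13
  r595a : RC E.r595a 17 7 5 13
  r595b : RC E.r595b 17 7 5 13
  r680a : RC E.r680a 17 5 8 17
  r680b : RC E.r680b 17 5 8 17
  x119n : E.r119n.ex1 = 15
  x51 : E.r51.ex1 = 15
  x119m : E.r119m.ex1 = 15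
  p119n : E.r119n.PT1 = PT17
  p51 : E.r51.PT1 = PT17
  p119m : E.r119m.PT1 = PT17

/-- the relations hold -/
structure EXH (E : EX) (a b c B m : ℤ) : Prop where
  r119n : Hd E.r119n a b c B m
  r51 : Hd E.r51 a b c B m
  r119m : Hd E.r119m a b c B m
  r221 : Hd E.r221 a b c B m
  r520 : Hd E.r520 a b c B m
  r663n : Hd E.r663n a b c B m
  r663f : Hd E.r663f a b c B m
  r357 : Hd E.r357 a b c B m
  r595a : Hd E.r595a a b c B m
  r595b : Hd E.r595b a b c B m
  r680a : Hd E.r680a a b c B m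
  r680b : Hd E.r680b a b c B m

/-- a class -/
def x17t (E : EX) (k17 t : ℕ) : Bool :=
  strict (lo t) fun k13 => strict (lo (hi t)) fun k7 => strict (lo (hi (hi t))) fun k5 =>
  strict (h4 t) fun k8 => strict (hi (hi (hi (hi t)))) fun k3 =>
  chkS E.r221 (nat_lit 17) (nat_lit 13) (nat_lit 1) k17 k13 (nat_lit 0) k5
  (chkS E.r520 (nat_lit 13) (nat_lit 5) (nat_lit 8) k13 k5 k8 k17
  (chkS E.r663n (nat_lit 17) (nat_lit 13) (nat_lit 3) k17 k13 k3 k7
  (chkS E.r663f (nat_lit 17) (nat_lit 13) (nat_lit 3) k17 k13 k3 k13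
  (chkS E.r357 (nat_lit 17) (nat_lit 7) (nat_lit 3) k17 k7 k3 k13
  (chkS E.r595a (nat_lit 17) (nat_lit 7) (nat_lit 5) k17 k7 k5 k13
  (chkS E.r595b (nat_lit 17) (nat_lit 7) (nat_lit 5) k17 k7 k5 k13
  (chkS E.r680a (nat_lit 17) (nat_lit 5) (nat_lit 8) k17 k5 k8 k17
  (chkS E.r680b (nat_lit 17) (nat_lit 5) (nat_lit 8) k17 k5 k8 k17 false))))))))

/-- check of a class modulo 17 -/
def x17w (E : EX) (K : List ℕ) (Sa Sb Sc : L4) : CB :=
  fun B m a b c m2 q0 q1 q2 q3 _ _ _ _ =>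
  strict (msk (nat_lit 13) K.length (FK E.r119n Sa m m2 q0 q1 q2 q3)) fun M1 =>
  @Bool.rec (fun _ => Bool)
  (strict (Nat.land M1
    (msk (nat_lit 5) K.length (FK E.r51 Sb m m2 q0 q1 q2 q3))) fun M2 =>
  @Bool.rec (fun _ => Bool)
  (strict (Nat.land M2
    (msk (nat_lit 5) K.length (FK E.r119m Sc m m2 q0 q1 q2 q3))) fun M =>
  @Bool.rec (fun _ => Bool)
    (strict (ck (nat_lit 17) a b c B m) fun k17 =>
      enumT (fun i => strict (nthN K i) (x17t E k17)) K.length M)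
    true (Nat.beq M (nat_lit 0)))
    true (Nat.beq M2 (nat_lit 0)))
    true (Nat.beq M1 (nat_lit 0))

/-- **check at 17 for the exceptional classes** -/
def chkX (E : EX) (K Bs : List ℕ) : Bool :=
  mkL4 (fun j x => ldK E.r119n (nat_lit 7) (nat_lit 1) (lo (hi x)) (nat_lit 0) (lo x) j) K fun Sa =>
  mkL4 (fun j x => ldK E.r51 (nat_lit 3) (nat_lit 1) (hi (hi (hi (hi x)))) (nat_lit 0)
    (lo (hi (hi x))) j) K fun Sb =>
  mkL4 (fun j x => ldK E.r119m (nat_lit 7) (nat_lit 1) (lo (hi x)) (nat_lit 0)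
    (lo (hi (hi x))) j) K fun Sc =>
    allL (wB (nat_lit 17) (nat_lit 15) PT17 (x17w E K Sa Sb Sc)) Bs

section SpecX

variable {E : EX} {a b c B m : ℤ} {Q : ℕ}

/-- **the exceptional classes at 17** -/
theorem chkX_spec (hE : EXOK E) (hH : EXH E a b c B m) (S : Sys6 Q a b c B m) (hQ : 17 ∣ Q)
    {K : List ℕ} (hc : ∀ x < 17, ∃ Bs, x ∈ Bs ∧ chkX E K Bs = true)
    (hG : tup5 (cd 13 a b c B m) (cd 7 a b c B m) (cd 5 a b c B m)
      (cd 8 a b c B m) (cd 3 a b c B m) ∈ K) : False := by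
  obtain ⟨Bs, hB, h⟩ := hc _ (rs_lt B)
  unfold chkX at h
  rw [mkL4_eq, mkL4_eq, mkL4_eq] at h
  have h1 := wB_spec (by norm_num) (by norm_num) hQ S (allL_spec h _ hB)
  unfold x17w at h1
  rw [strict_eq] at h1
  have h13 := cd_lt (n := 13) (by norm_num) a b c B m
  have h7 := cd_lt (n := 7) (by norm_num) a b c B m
  have h5 := cd_lt (n := 5) (by norm_num) a b c B m
  have h8 := cd_lt (n := 8) (by norm_num) a b c B m
  obtain ⟨i, hi, hx⟩ := List.mem_iff_getElem.1 hG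
  unfold tup5 at hx
  have e13 : lo K[i] = cd 13 a b c B m := by rw [hx, lo_pk h13]
  have e7 : (fun x => lo (LibH4.S7.hi x)) K[i] = cd 7 a b c B m := by
    change lo (LibH4.S7.hi K[i]) = _
    rw [hx, hi_pk h13, lo_pk h7]
  have e5 : (fun x => lo (LibH4.S7.hi (LibH4.S7.hi x))) K[i] = cd 5 a b c B m := by
    change lo (LibH4.S7.hi (LibH4.S7.hi K[i])) = _
    rw [hx, hi_pk h13, hi_pk h7, lo_pk h5]
  have e8 : h4 K[i] = cd 8 a b c B m := by
    unfold h4
    rw [hx, hi_pk h13, hi_pk h7, hi_pk h5, lo_pk h8]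
  have e3 : (fun x => LibH4.S7.hi (LibH4.S7.hi (LibH4.S7.hi (LibH4.S7.hi x)))) K[i] =
      cd 3 a b c B m := by
    change LibH4.S7.hi (LibH4.S7.hi (LibH4.S7.hi (LibH4.S7.hi K[i]))) = _
    rw [hx, hi_pk h13, hi_pk h7, hi_pk h5, hi_pk h8]
  have e0 : (fun _ : ℕ => (0 : ℕ)) K[i] = cd 1 a b c B m := (cd_one a b c B m).symm
  have b1 := rFK hE.r119n hE.x119n hE.p119n hH.r119n (by norm_num) (dvd_refl 7) (dvd_refl 1)
    lok13 (k2 := fun x => lo (LibH4.S7.hi x)) (k3 := fun _ => 0) (kl := lo) hi e7 e0 e13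
  have b2 := rFK hE.r51 hE.x51 hE.p51 hH.r51 (by norm_num) (dvd_refl 3) (dvd_refl 1)
    lok5 (k2 := fun x => LibH4.S7.hi (LibH4.S7.hi (LibH4.S7.hi (LibH4.S7.hi x))))
    (k3 := fun _ => 0) (kl := fun x => lo (LibH4.S7.hi (LibH4.S7.hi x))) hi e3 e0 e5
  have b3 := rFK hE.r119m hE.x119m hE.p119m hH.r119m (by norm_num) (dvd_refl 7) (dvd_refl 1)
    lok5 (k2 := fun x => lo (LibH4.S7.hi x))
    (k3 := fun _ => 0) (kl := fun x => lo (LibH4.S7.hi (LibH4.S7.hi x))) hi e7 e0 e5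
  have n1 := ne_zero_of_bit b1
  have b12 := land_bit b1 b2
  have n2 := ne_zero_of_bit b12
  have b123 := land_bit b12 b3
  have n3 := ne_zero_of_bit b123
  erw [n1] at h1
  simp only [strict_eq] at h1
  erw [n2] at h1
  simp only at h1
  erw [n3] at h1
  have h2 := enumT_spec h1 i hi b123
  rw [nthN_eq hi] at h2
  unfold x17t at h2
  simp only [strict_eq] at h2
  have f7 : lo (LibH4.S7.hi K[i]) = cd 7 a b c B m := e7
  have f5 : lo (LibH4.S7.hi (LibH4.S7.hi K[i])) = cd 5 a b c B m := e5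
  have f3 : LibH4.S7.hi (LibH4.S7.hi (LibH4.S7.hi (LibH4.S7.hi K[i]))) = cd 3 a b c B m := e3
  rw [e13, f7, f5, e8, f3] at h2
  have c1 : (nat_lit 0) = cd 1 a b c B m := (cd_one a b c B m).symm
  rw [c1] at h2
  have g1 := rchk hE.r221 hH.r221 (dvd_refl _) (dvd_refl _) (dvd_refl _) (by norm_num) h2
  have g2 := rchk hE.r520 hH.r520 (dvd_refl _) (dvd_refl _) (dvd_refl _) (by norm_num) g1
  have g3 := rchk hE.r663n hH.r663n (dvd_refl _) (dvd_refl _) (dvd_refl _) (by norm_num) g2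
  have g4 := rchk hE.r663f hH.r663f (dvd_refl _) (dvd_refl _) (dvd_refl _) (by norm_num) g3
  have g5 := rchk hE.r357 hH.r357 (dvd_refl _) (dvd_refl _) (dvd_refl _) (by norm_num) g4
  have g6 := rchk hE.r595a hH.r595a (dvd_refl _) (dvd_refl _) (dvd_refl _) (by norm_num) g5
  have g7 := rchk hE.r595b hH.r595b (dvd_refl _) (dvd_refl _) (dvd_refl _) (by norm_num) g6
  have g8 := rchk hE.r680a hH.r680a (dvd_refl _) (dvd_refl _) (dvd_refl _) (by norm_num) g7
  have g9 := rchk hE.r680b hH.r680b (dvd_refl _) (dvd_refl _) (dvd_refl _) (by norm_num) g8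
  exact absurd g9 (by simp)

end SpecX

end Pool.Agent.PSX.K
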