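import Pool.Agent.PSX.KEng

/-!
Period six, elimination: the steps to the primes `19`, `3`, `11` and `17`.
-/

namespace Pool.Agent.PSX.K

open Pool.Agent.Lib_helper5 Pool.Agent.Lib_helper5.LK Pool.Agent.Lib_helper5.TB
  Pool.Agent.Lib_helper5.Lane Pool.Agent.LibH4.Ker
  Pool.Agent.PSX.EL
open Pool.Agent.LibH4.S7 (y2 r2 y3 r3 cd ck Rl ld LOK msk qz cd_one RC Bx InB pk lo hi lo_pk hi_pk
  prodN mem_prodN cd_lt nthA nthA_eq nthN nthN_eq memN memN_spec enumT enumT_spec land_bit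
  ne_zero_of_bit ck_eq lok19 lok17 lok13 lok11 lok7 lok5 tup5 tup4 lanesF mem_lanesF h4)

/-! ### relations with known components -/

section RC

variable {r : Rl} {n1 n2 n3 l : ℕ} {a b c B m : ℤ}

theorem rchk (rc : RC r n1 n2 n3 l) (h : Hd r a b c B m) {N1 N2 N3 : ℕ}
    [NeZero n1] [NeZero n2] [NeZero n3] [NeZero l] [NeZero N1] [NeZero N2] [NeZero N3]
    (h1 : n1 ∣ N1) (h2 : n2 ∣ N2) (h3 : n3 ∣ N3) (hl2 : l < 100) {k : Bool}
    (hc : chkS r N1 N2 N3 (cd N1 a b c B m) (cd N2 a b c B m) (cd N3 a b c B m)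
      (cd l a b c B m) k = true) : k = true := by
  obtain ⟨rfl, rfl, rfl, rfl, _⟩ := rc
  exact chkS_spec h h1 h2 h3 hl2 hc

theorem rFL (rc : RC r n1 n2 n3 n1) {ex PT : ℕ} (hex : r.ex1 = ex) (hPT : r.PT1 = PT)
    (h : Hd r a b c B m) (hn : 1 < n1) [NeZero n1] [NeZero n2] [NeZero n3] {N2 N3 : ℕ}
    [NeZero N2] [NeZero N3] (h2 : n2 ∣ N2) (h3 : n3 ∣ N3)
    (hl : LOK n1) {α : Type} {k2 k3 : α → ℕ} {K : List α} {i : ℕ} (hi : i < K.length)
    (e2 : k2 K[i] = cd N2 a b c B m) (e3 : k3 K[i] = cd N3 a b c B m) :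
    (msk n1 K.length (FL r (L4of (fun j x => ld r N2 N3 (k2 x) (k3 x) j) K)
      (rs n1 m) (rs n1 (y2 a B m))
      (qz n1 ex PT a b c B m 0) (qz n1 ex PT a b c B m 1)
      (qz n1 ex PT a b c B m 2) (qz n1 ex PT a b c B m 3)
      (rs n1 (-B)) (rs n1 (-(2 * a))) (rs n1 (-(2 * b))) (rs n1 (-c)))).testBit
        (24 * i + 15) = true := by
  obtain ⟨rfl, rfl, rfl, el, hr⟩ := rc
  subst hex hPT
  have : NeZero r.l := by rw [el]; infer_instance
  have hl' : LOK r.l := by rw [el]; exact hl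
  have := FL_bit h hn h2 h3 hr hl' hi e2 e3
  rw [el] at this
  exact this

theorem rFK (rc : RC r n1 n2 n3 l) {ex PT : ℕ} (hex : r.ex1 = ex) (hPT : r.PT1 = PT)
    (h : Hd r a b c B m) (hn : 1 < n1) [NeZero n1] [NeZero n2] [NeZero n3] [NeZero l]
    {N2 N3 : ℕ} [NeZero N2] [NeZero N3] (h2 : n2 ∣ N2) (h3 : n3 ∣ N3)
    (hl : LOK l) {α : Type} {k2 k3 kl : α → ℕ} {K : List α} {i : ℕ} (hi : i < K.length)
    (e2 : k2 K[i] = cd N2 a b c B m) (e3 : k3 K[i] = cd N3 a b c B m)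
    (e4 : kl K[i] = cd l a b c B m) :
    (msk l K.length (FK r (L4of (fun j x => ldK r N2 N3 (k2 x) (k3 x) (kl x) j) K)
      (rs n1 m) (rs n1 (y2 a B m))
      (qz n1 ex PT a b c B m 0) (qz n1 ex PT a b c B m 1)
      (qz n1 ex PT a b c B m 2) (qz n1 ex PT a b c B m 3))).testBit (24 * i + 15) = true := by
  obtain ⟨rfl, rfl, rfl, rfl, hr⟩ := rc
  subst hex hPT
  exact FK_bit h hn h2 h3 hr hl hi e2 e3 e4

end RC

/-! ### step 19 -/

/-- relations of the step -/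
structure E19 where
  /-- relation -/
  r152a : Rl
  /-- relation -/
  r152b : Rl
  /-- relation -/
  r95f : Rl
  /-- relation -/
  r95n : Rl
  /-- relation -/
  r247 : Rl
  /-- relation -/
  r133 : Rl
  /-- relation -/
  r728 : Rl

/-- the components -/
structure E19OK (E : E19) : Prop where
  r152a : RC E.r152a 19 8 1 19
  r152b : RC E.r152b 19 8 1 19
  r95f : RC E.r95f 19 5 1 19
  r95n : RC E.r95n 19 5 1 13
  r247 : RC E.r247 19 13 1 19
  r133 : RC E.r133 19 7 1 13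
  r728 : RC E.r728 13 7 8 19
  x152a : E.r152a.ex1 = 17
  x152b : E.r152b.ex1 = 17
  x95f : E.r95f.ex1 = 17
  p152a : E.r152a.PT1 = PT19
  p152b : E.r152b.PT1 = PT19
  p95f : E.r95f.PT1 = PT19

/-- the relations hold -/
structure E19H (E : E19) (a b c B m : ℤ) : Prop where
  r152a : Hd E.r152a a b c B m
  r152b : Hd E.r152b a b c B m
  r95f : Hd E.r95f a b c B m
  r95n : Hd E.r95n a b c B m
  r247 : Hd E.r247 a b c B m
  r133 : Hd E.r133 a b c B m
  r728 : Hd E.r728 a b c B m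

/-- level of the classes modulo 7 -/
def l19d (E : E19) (G : List ℕ) (k19 k5 k8 k13 k7 : ℕ) : Bool :=
  chkS E.r133 (nat_lit 19) (nat_lit 7) (nat_lit 1) k19 k7 (nat_lit 0) k13
  (chkS E.r728 (nat_lit 13) (nat_lit 7) (nat_lit 8) k13 k7 k8 k19
    (memN (tup5 k13 k7 k5 k8 k19) G))

/-- level of the classes modulo 13 -/
def l19c (E : E19) (G F7 : List ℕ) (k19 k5 k8 k13 : ℕ) : Bool :=
  chkS E.r247 (nat_lit 19) (nat_lit 13) (nat_lit 1) k19 k13 (nat_lit 0) k19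
  (chkS E.r95n (nat_lit 19) (nat_lit 5) (nat_lit 1) k19 k5 (nat_lit 0) k13
    (allL (l19d E G k19 k5 k8 k13) F7))

/-- a box -/
def l19b (E : E19) (G : List ℕ) (bx : Bx) (k19 k5 k8 : ℕ) : Bool :=
  allL (l19c E G bx.F7 k19 k5 k8) bx.F13

/-- a lane -/
def l19l (E : E19) (G : List ℕ) (BS : List Bx) (K : List ℕ) (k19 i : ℕ) : Bool :=
  strict (nthN K i) fun x => strict (lo x) fun k5 => strict (lo (hi x)) fun k8 =>
  strict (hi (hi x)) fun ib => l19b E G (nthA ⟨[], [], [], [], []⟩ BS ib) k19 k5 k8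

/-- check of a class modulo 19 -/
def l19w (E : E19) (G : List ℕ) (BS : List Bx) (K : List ℕ) (Sa Sb Sc : L4) : CB :=
  fun B m a b c m2 q0 q1 q2 q3 A0 A1 A2 A3 =>
  strict (msk (nat_lit 19) K.length (FL E.r152a Sa m m2 q0 q1 q2 q3 A0 A1 A2 A3)) fun M1 =>
  @Bool.rec (fun _ => Bool)
  (strict (Nat.land M1
    (msk (nat_lit 19) K.length (FL E.r152b Sb m m2 q0 q1 q2 q3 A0 A1 A2 A3))) fun M2 =>
  @Bool.rec (fun _ => Bool)
  (strict (Nat.land M2
    (msk (nat_lit 19) K.length (FL E.r95f Sc m m2 q0 q1 q2 q3 A0 A1 A2 A3))) fun M =>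
  @Bool.rec (fun _ => Bool)
    (strict (ck (nat_lit 19) a b c B m) fun k19 =>
      enumT (l19l E G BS K k19) K.length M)
    true (Nat.beq M (nat_lit 0)))
    true (Nat.beq M2 (nat_lit 0)))
    true (Nat.beq M1 (nat_lit 0))

/-- the lanes -/
def lanes19 (BS : List Bx) : List ℕ :=
  lanesF (fun b i => prodN b.F5 (prodN b.F8 [i])) BS (nat_lit 0)

/-- **check at 19** -/
def chk19 (E : E19) (G : List ℕ) (BS : List Bx) (Bs : List ℕ) : Bool :=
  mapS (fun x => x) (lanes19 BS) fun K =>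
  mkL4 (fun j x => ld E.r152a (nat_lit 8) (nat_lit 1) (lo (hi x)) (nat_lit 0) j) K fun Sa =>
  mkL4 (fun j x => ld E.r152b (nat_lit 8) (nat_lit 1) (lo (hi x)) (nat_lit 0) j) K fun Sb =>
  mkL4 (fun j x => ld E.r95f (nat_lit 5) (nat_lit 1) (lo x) (nat_lit 0) j) K fun Sc =>
    allL (wB (nat_lit 19) (nat_lit 17) PT19 (l19w E G BS K Sa Sb Sc)) Bs

section Spec19

variable {E : E19} {a b c B m : ℤ} {G : List ℕ} {Q : ℕ}

lemma l19b_spec (hE : E19OK E) (hH : E19H E a b c B m) {bx : Bx}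
    (g13 : cd 13 a b c B m ∈ bx.F13) (g7 : cd 7 a b c B m ∈ bx.F7)
    (h : l19b E G bx (cd 19 a b c B m) (cd 5 a b c B m) (cd 8 a b c B m) = true) :
    tup5 (cd 13 a b c B m) (cd 7 a b c B m) (cd 5 a b c B m)
      (cd 8 a b c B m) (cd 19 a b c B m) ∈ G := by
  unfold l19b at h
  have h1 := allL_spec h _ g13
  unfold l19c at h1
  have c1 : (nat_lit 0) = cd 1 a b c B m := (cd_one a b c B m).symm
  rw [c1] at h1
  have h2 := rchk hE.r247 hH.r247 (dvd_refl _) (dvd_refl _) (dvd_refl _) (by norm_num) h1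
  have h3 := rchk hE.r95n hH.r95n (dvd_refl _) (dvd_refl _) (dvd_refl _) (by norm_num) h2
  have h4 := allL_spec h3 _ g7
  unfold l19d at h4
  rw [c1] at h4
  have h5 := rchk hE.r133 hH.r133 (dvd_refl _) (dvd_refl _) (dvd_refl _) (by norm_num) h4
  have h6 := rchk hE.r728 hH.r728 (dvd_refl _) (dvd_refl _) (dvd_refl _) (by norm_num) h5
  exact memN_spec h6

/-- **the step to 19** -/
theorem chk19_spec (hE : E19OK E) (hH : E19H E a b c B m) (S : Sys6 Q a b c B m) (hQ : 19 ∣ Q)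
    {BS : List Bx} {bx : Bx} (hbx : bx ∈ BS) (hin : InB bx a b c B m)
    (hc : ∀ x < 19, ∃ Bs, x ∈ Bs ∧ chk19 E G BS Bs = true) :
    tup5 (cd 13 a b c B m) (cd 7 a b c B m) (cd 5 a b c B m)
      (cd 8 a b c B m) (cd 19 a b c B m) ∈ G := by
  obtain ⟨ib, hib, rfl⟩ := List.mem_iff_getElem.1 hbx
  obtain ⟨Bs, hB, h⟩ := hc _ (rs_lt B)
  have hK : pk (cd 5 a b c B m) (pk (cd 8 a b c B m) ib) ∈ lanes19 BS := by
    unfold lanes19
    apply mem_lanesF hib
    rw [Nat.zero_add]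
    exact mem_prodN hin.h5 (mem_prodN hin.h8 (List.mem_singleton.2 rfl))
  unfold chk19 at h
  rw [mapS_eq, List.map_id', mkL4_eq, mkL4_eq, mkL4_eq] at h
  have h1 := wB_spec (by norm_num) (by norm_num) hQ S (allL_spec h _ hB)
  unfold l19w at h1
  rw [strict_eq] at h1
  have h5 := cd_lt (n := 5) (by norm_num) a b c B m
  have h8 := cd_lt (n := 8) (by norm_num) a b c B m
  obtain ⟨i, hi, hx⟩ := List.mem_iff_getElem.1 hK
  have e2 : (fun x => lo (LibH4.S7.hi x)) (lanes19 BS)[i] = cd 8 a b c B m := by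
    change lo (LibH4.S7.hi (lanes19 BS)[i]) = _
    rw [hx, hi_pk h5, lo_pk h8]
  have e3 : lo (lanes19 BS)[i] = cd 5 a b c B m := by rw [hx, lo_pk h5]
  have e0 : (fun _ : ℕ => (0 : ℕ)) (lanes19 BS)[i] = cd 1 a b c B m := (cd_one a b c B m).symm
  have b1 := rFL hE.r152a hE.x152a hE.p152a hH.r152a (by norm_num) (dvd_refl 8) (dvd_refl 1)
    lok19 (k2 := fun x => lo (LibH4.S7.hi x)) (k3 := fun _ => 0) hi e2 e0
  have b2 := rFL hE.r152b hE.x152b hE.p152b hH.r152b (by norm_num) (dvd_refl 8) (dvd_refl 1)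
    lok19 (k2 := fun x => lo (LibH4.S7.hi x)) (k3 := fun _ => 0) hi e2 e0
  have b3 := rFL hE.r95f hE.x95f hE.p95f hH.r95f (by norm_num) (dvd_refl 5) (dvd_refl 1)
    lok19 (k2 := lo) (k3 := fun _ => 0) hi e3 e0
  have n1 := ne_zero_of_bit b1
  have b12 := land_bit b1 b2
  have n2 := ne_zero_of_bit b12
  have b123 := land_bit b12 b3
  have n3 := ne_zero_of_bit b123
  erw [n1] at h1
  simp only [strict_eq] at h1
  erw [n2] at h1
  simp only at h1
  erw [n3] at h1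
  have h2 := enumT_spec h1 i hi b123
  unfold l19l at h2
  simp only [strict_eq] at h2
  have e1 : nthN (lanes19 BS) i = pk (cd 5 a b c B m) (pk (cd 8 a b c B m) ib) := by
    rw [nthN_eq hi, hx]
  rw [e1, lo_pk h5, hi_pk h5, lo_pk h8, hi_pk h8, nthA_eq _ hib] at h2
  exact l19b_spec hE hH hin.h13 hin.h7 h2

end Spec19

end Pool.Agent.PSX.K
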