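import Pool.Agent.PSX.KSt

/-!
Period six, elimination: the steps to the primes `3`, `11` and `17`.
-/

namespace Pool.Agent.PSX.K

open Pool.Agent.Lib_helper5 Pool.Agent.Lib_helper5.LK Pool.Agent.Lib_helper5.TB
  Pool.Agent.Lib_helper5.Lane Pool.Agent.LibH4.Ker
  Pool.Agent.PSX.EL
open Pool.Agent.LibH4.S7 (y2 r2 y3 r3 cd ck Rl ld LOK msk qz cd_one RC Bx InB pk lo hi lo_pk hi_pk
  prodN mem_prodN cd_lt nthA nthA_eq nthN nthN_eq memN memN_spec enumT enumT_spec land_bit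
  ne_zero_of_bit ck_eq lok19 lok17 lok13 lok11 lok7 lok5 tup5 tup4 tup lanesF mem_lanesF h4
  E11 E11OK E17 E17OK locG locG_spec locA locA_spec)

/-! ### step 3 -/

/-- relations of the step -/
structure E3 where
  /-- relation -/
  r105 : Rl
  /-- relation -/
  r195 : Rl
  /-- relation -/
  r399 : Rl

/-- the components -/
structure E3OK (E : E3) : Prop where
  r105 : RC E.r105 7 5 3 13
  r195 : RC E.r195 13 5 3 13
  r399 : RC E.r399 19 7 3 7

/-- the relations hold -/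
structure E3H (E : E3) (a b c B m : ℤ) : Prop where
  r105 : Hd E.r105 a b c B m
  r195 : Hd E.r195 a b c B m
  r399 : Hd E.r399 a b c B m

/-- a tuple -/
def t3 (E : E3) (G : List ℕ) (k3 t : ℕ) : Bool :=
  strict (lo t) fun k13 => strict (lo (hi t)) fun k7 => strict (lo (hi (hi t))) fun k5 =>
  strict (h4 t) fun k8 => strict (hi (hi (hi (hi t)))) fun k19 =>
  chkS E.r105 (nat_lit 7) (nat_lit 5) (nat_lit 3) k7 k5 k3 k13
  (chkS E.r195 (nat_lit 13) (nat_lit 5) (nat_lit 3) k13 k5 k3 k13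
  (chkS E.r399 (nat_lit 19) (nat_lit 7) (nat_lit 3) k19 k7 k3 k7
    (memN (tup4 k13 k7 k5 k8) G)))

/-- a class modulo 3 -/
def w3 (E : E3) (G G5 : List ℕ) : CB :=
  fun B m a b c _ _ _ _ _ _ _ _ _ => strict (ck (nat_lit 3) a b c B m) fun k3 =>
    allL (t3 E G k3) G5

/-- **check at 3** -/
def chk3 (E : E3) (G G5 : List ℕ) (B : ℕ) : Bool :=
  wB (nat_lit 3) (nat_lit 1) PT3 (w3 E G G5) B

section Spec3

variable {E : E3} {a b c B m : ℤ} {G : List ℕ} {Q : ℕ}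

/-- **the step to 3** -/
theorem chk3_spec (hE : E3OK E) (hH : E3H E a b c B m) (S : Sys6 Q a b c B m) (hQ : 3 ∣ Q)
    {G5 : List ℕ} (hG : tup5 (cd 13 a b c B m) (cd 7 a b c B m) (cd 5 a b c B m)
      (cd 8 a b c B m) (cd 19 a b c B m) ∈ G5)
    (h : ∀ x < 3, chk3 E G G5 x = true) :
    tup4 (cd 13 a b c B m) (cd 7 a b c B m) (cd 5 a b c B m) (cd 8 a b c B m) ∈ G := by
  have h1 := wB_spec (by norm_num) (by norm_num) hQ S (h _ (rs_lt B))
  unfold w3 at h1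
  rw [strict_eq] at h1
  have h13 := cd_lt (n := 13) (by norm_num) a b c B m
  have h7 := cd_lt (n := 7) (by norm_num) a b c B m
  have h5 := cd_lt (n := 5) (by norm_num) a b c B m
  have h8 := cd_lt (n := 8) (by norm_num) a b c B m
  have h2 := allL_spec h1 _ hG
  unfold t3 at h2
  simp only [strict_eq] at h2
  have e : h4 (tup5 (cd 13 a b c B m) (cd 7 a b c B m) (cd 5 a b c B m)
      (cd 8 a b c B m) (cd 19 a b c B m)) = cd 8 a b c B m := by
    unfold h4 tup5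
    rw [hi_pk h13, hi_pk h7, hi_pk h5, lo_pk h8]
  rw [e] at h2
  unfold tup5 at h2
  rw [lo_pk h13, hi_pk h13, lo_pk h7, hi_pk h7, lo_pk h5, hi_pk h5, hi_pk h8] at h2
  have e3 : ck (nat_lit 3) (rs 3 a) (rs 3 b) (rs 3 c) (rs 3 B) (rs 3 m) = cd 3 a b c B m := rfl
  rw [e3] at h2
  have g1 := rchk hE.r105 hH.r105 (dvd_refl _) (dvd_refl _) (dvd_refl _) (by norm_num) h2
  have g2 := rchk hE.r195 hH.r195 (dvd_refl _) (dvd_refl _) (dvd_refl _) (by norm_num) g1
  have g3 := rchk hE.r399 hH.r399 (dvd_refl _) (dvd_refl _) (dvd_refl _) (by norm_num) g2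
  exact memN_spec g3

end Spec3

/-! ### step 11 -/

/-- the relations hold -/
structure E11H (E : E11) (a b c B m : ℤ) : Prop where
  r88 : Hd E.r88 a b c B m
  r616 : Hd E.r616 a b c B m
  r308 : Hd E.r308 a b c B m
  r616n : Hd E.r616n a b c B m
  r143m : Hd E.r143m a b c B m
  r143n : Hd E.r143n a b c B m
  r572 : Hd E.r572 a b c B m
  r715 : Hd E.r715 a b c B m

/-- last level -/
def l11d (E : E11) (G : List ℕ) (k11 k7 k8 k13 k5 : ℕ) : Bool :=
  chkS E.r143n (nat_lit 11) (nat_lit 13) (nat_lit 1) k11 k13 (nat_lit 0) k5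
  (chkS E.r572 (nat_lit 11) (nat_lit 13) (nat_lit 8) k11 k13 k8 k5
  (chkS E.r715 (nat_lit 11) (nat_lit 13) (nat_lit 5) k11 k13 k5 k7
    (memN (tup5 k13 k7 k5 k8 k11) G)))

/-- level of the classes modulo 13 -/
def l11c (E : E11) (G F5 : List ℕ) (k11 k7 k8 k13 : ℕ) : Bool :=
  chkS E.r616n (nat_lit 11) (nat_lit 7) (nat_lit 8) k11 k7 k8 k13
  (chkS E.r143m (nat_lit 11) (nat_lit 13) (nat_lit 1) k11 k13 (nat_lit 0) k7
    (allL (l11d E G k11 k7 k8 k13) F5))

/-- a box -/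
def l11b (E : E11) (G : List ℕ) (bx : Bx) (k11 k7 k8 : ℕ) : Bool :=
  allL (l11c E G bx.F5 k11 k7 k8) bx.F13

/-- a lane -/
def l11l (E : E11) (G : List ℕ) (BS : List Bx) (K : List ℕ) (k11 i : ℕ) : Bool :=
  strict (nthN K i) fun x => strict (lo x) fun k7 => strict (lo (hi x)) fun k8 =>
  strict (hi (hi x)) fun ib => l11b E G (nthA ⟨[], [], [], [], []⟩ BS ib) k11 k7 k8

/-- check of a class modulo 11 -/
def l11w (E : E11) (G : List ℕ) (BS : List Bx) (K : List ℕ) (Sa Sb Sc : L4) : CB :=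
  fun B m a b c m2 q0 q1 q2 q3 A0 A1 A2 A3 =>
  strict (Nat.land
    (msk (nat_lit 11) K.length (FL E.r88 Sa m m2 q0 q1 q2 q3 A0 A1 A2 A3))
    (Nat.land
    (msk (nat_lit 11) K.length (FL E.r616 Sb m m2 q0 q1 q2 q3 A0 A1 A2 A3))
    (msk (nat_lit 7) K.length (FK E.r308 Sc m m2 q0 q1 q2 q3)))) fun M =>
  @Bool.rec (fun _ => Bool)
    (strict (ck (nat_lit 11) a b c B m) fun k11 =>
      enumT (l11l E G BS K k11) K.length M)
    true (Nat.beq M (nat_lit 0))

/-- the lanes -/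
def lanes11 (BS : List Bx) : List ℕ :=
  lanesF (fun b i => prodN b.F7 (prodN b.F8 [i])) BS (nat_lit 0)

/-- **check at 11** -/
def chk11 (E : E11) (G : List ℕ) (BS : List Bx) (Bs : List ℕ) : Bool :=
  mapS (fun x => x) (lanes11 BS) fun K =>
  mkL4 (fun j x => ld E.r88 (nat_lit 8) (nat_lit 1) (lo (hi x)) (nat_lit 0) j) K fun Sa =>
  mkL4 (fun j x => ld E.r616 (nat_lit 7) (nat_lit 8) (lo x) (lo (hi x)) j) K fun Sb =>
  mkL4 (fun j x => ldK E.r308 (nat_lit 7) (nat_lit 8) (lo x) (lo (hi x)) (lo x) j) K fun Sc =>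
    allL (wB (nat_lit 11) (nat_lit 9) PT11 (l11w E G BS K Sa Sb Sc)) Bs

section Spec11

variable {E : E11} {a b c B m : ℤ} {G : List ℕ} {Q : ℕ}

lemma l11b_spec (hE : E11OK E) (hH : E11H E a b c B m) {bx : Bx}
    (g13 : cd 13 a b c B m ∈ bx.F13) (g5 : cd 5 a b c B m ∈ bx.F5)
    (h : l11b E G bx (cd 11 a b c B m) (cd 7 a b c B m) (cd 8 a b c B m) = true) :
    tup5 (cd 13 a b c B m) (cd 7 a b c B m) (cd 5 a b c B m)
      (cd 8 a b c B m) (cd 11 a b c B m) ∈ G := by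
  unfold l11b at h
  have h1 := allL_spec h _ g13
  unfold l11c at h1
  have c1 : (nat_lit 0) = cd 1 a b c B m := (cd_one a b c B m).symm
  rw [c1] at h1
  have h2 := rchk hE.r616n hH.r616n (dvd_refl _) (dvd_refl _) (dvd_refl _) (by norm_num) h1
  have h3 := rchk hE.r143m hH.r143m (dvd_refl _) (dvd_refl _) (dvd_refl _) (by norm_num) h2
  have h4 := allL_spec h3 _ g5
  unfold l11d at h4
  rw [c1] at h4
  have h5 := rchk hE.r143n hH.r143n (dvd_refl _) (dvd_refl _) (dvd_refl _) (by norm_num) h4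
  have h6 := rchk hE.r572 hH.r572 (dvd_refl _) (dvd_refl _) (by norm_num) (by norm_num) h5
  have h7 := rchk hE.r715 hH.r715 (dvd_refl _) (dvd_refl _) (dvd_refl _) (by norm_num) h6
  exact memN_spec h7

/-- **the step to 11** -/
theorem chk11_spec (hE : E11OK E) (hH : E11H E a b c B m) (S : Sys6 Q a b c B m) (hQ : 11 ∣ Q)
    {BS : List Bx} {bx : Bx} (hbx : bx ∈ BS) (hin : InB bx a b c B m)
    (hc : ∀ x < 11, ∃ Bs, x ∈ Bs ∧ chk11 E G BS Bs = true) :
    tup5 (cd 13 a b c B m) (cd 7 a b c B m) (cd 5 a b c B m)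
      (cd 8 a b c B m) (cd 11 a b c B m) ∈ G := by
  obtain ⟨ib, hib, rfl⟩ := List.mem_iff_getElem.1 hbx
  obtain ⟨Bs, hB, h⟩ := hc _ (rs_lt B)
  have hK : pk (cd 7 a b c B m) (pk (cd 8 a b c B m) ib) ∈ lanes11 BS := by
    unfold lanes11
    apply mem_lanesF hib
    rw [Nat.zero_add]
    exact mem_prodN hin.h7 (mem_prodN hin.h8 (List.mem_singleton.2 rfl))
  unfold chk11 at h
  rw [mapS_eq, List.map_id', mkL4_eq, mkL4_eq, mkL4_eq] at h
  have h1 := wB_spec (by norm_num) (by norm_num) hQ S (allL_spec h _ hB)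
  unfold l11w at h1
  rw [strict_eq] at h1
  have h7 := cd_lt (n := 7) (by norm_num) a b c B m
  have h8 := cd_lt (n := 8) (by norm_num) a b c B m
  obtain ⟨i, hi, hx⟩ := List.mem_iff_getElem.1 hK
  have e2 : lo (lanes11 BS)[i] = cd 7 a b c B m := by rw [hx, lo_pk h7]
  have e3 : (fun x => lo (LibH4.S7.hi x)) (lanes11 BS)[i] = cd 8 a b c B m := by
    change lo (LibH4.S7.hi (lanes11 BS)[i]) = _
    rw [hx, hi_pk h7, lo_pk h8]
  have e0 : (fun _ : ℕ => (0 : ℕ)) (lanes11 BS)[i] = cd 1 a b c B m := (cd_one a b c B m).symm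
  have b1 := rFL hE.r88 hE.x88 hE.p88 hH.r88 (by norm_num) (dvd_refl 8) (dvd_refl 1)
    lok11 (k2 := fun x => lo (LibH4.S7.hi x)) (k3 := fun _ => 0) hi e3 e0
  have b2 := rFL hE.r616 hE.x616 hE.p616 hH.r616 (by norm_num) (dvd_refl 7) (dvd_refl 8)
    lok11 (k2 := lo) (k3 := fun x => lo (LibH4.S7.hi x)) hi e2 e3
  have b3 := rFK hE.r308 hE.x308 hE.p308 hH.r308 (by norm_num) (dvd_refl 7)
    (show 4 ∣ 8 by norm_num) lok7 (k2 := lo) (k3 := fun x => lo (LibH4.S7.hi x)) (kl := lo)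
    hi e2 e3 e2
  have b5 := land_bit b1 (land_bit b2 b3)
  have b4 := ne_zero_of_bit b5
  erw [b4] at h1
  simp only [strict_eq] at h1
  have h2 := enumT_spec h1 i hi b5
  unfold l11l at h2
  simp only [strict_eq] at h2
  have e1 : nthN (lanes11 BS) i = pk (cd 7 a b c B m) (pk (cd 8 a b c B m) ib) := by
    rw [nthN_eq hi, hx]
  rw [e1, lo_pk h7, hi_pk h7, lo_pk h8, hi_pk h8, nthA_eq _ hib] at h2
  exact l11b_spec hE hH hin.h13 hin.h5 h2

end Spec11

/-! ### step 17 -/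

/-- the relations hold -/
structure E17H (E : E17) (a b c B m : ℤ) : Prop where
  r187a : Hd E.r187a a b c B m
  r187b : Hd E.r187b a b c B m
  r680a : Hd E.r680a a b c B m
  r680b : Hd E.r680b a b c B m
  r520 : Hd E.r520 a b c B m
  r680n : Hd E.r680n a b c B m
  r221 : Hd E.r221 a b c B m
  r119n : Hd E.r119n a b c B m
  r119m : Hd E.r119m a b c B m
  r595a : Hd E.r595a a b c B m
  r595b : Hd E.r595b a b c B m
  r935 : Hd E.r935 a b c B m

/-- last level -/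
def l17d (E : E17) (k17 k11 k5 k8 k13 k7 : ℕ) : Bool :=
  chkS E.r119n (nat_lit 17) (nat_lit 7) (nat_lit 1) k17 k7 (nat_lit 0) k13
  (chkS E.r119m (nat_lit 17) (nat_lit 7) (nat_lit 1) k17 k7 (nat_lit 0) k5
  (chkS E.r595a (nat_lit 17) (nat_lit 7) (nat_lit 5) k17 k7 k5 k13
  (chkS E.r595b (nat_lit 17) (nat_lit 7) (nat_lit 5) k17 k7 k5 k13
  (chkS E.r935 (nat_lit 17) (nat_lit 11) (nat_lit 5) k17 k11 k5 k7 false))))

/-- a single class -/
def g17t (E : E17) (k17 k11 x : ℕ) : Bool :=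
  strict (lo x) fun k13 => strict (lo (hi x)) fun k7 => strict (lo (hi (hi x))) fun k5 =>
  strict (hi (hi (hi x))) fun k8 =>
  chkS E.r520 (nat_lit 13) (nat_lit 5) (nat_lit 8) k13 k5 k8 k17
  (chkS E.r680a (nat_lit 17) (nat_lit 5) (nat_lit 8) k17 k5 k8 k17
  (chkS E.r680b (nat_lit 17) (nat_lit 5) (nat_lit 8) k17 k5 k8 k17
  (chkS E.r680n (nat_lit 17) (nat_lit 5) (nat_lit 8) k17 k5 k8 k13
  (chkS E.r221 (nat_lit 17) (nat_lit 13) (nat_lit 1) k17 k13 (nat_lit 0) k5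
    (l17d E k17 k11 k5 k8 k13 k7)))))

/-- a lane -/
def g17l (E : E17) (GS : List (List ℕ)) (K : List ℕ) (k17 i : ℕ) : Bool :=
  strict (nthN K i) fun k11 => allL (g17t E k17 k11) (nthA [] GS i)

/-- check of a class modulo 17 -/
def g17w (E : E17) (GS : List (List ℕ)) (K : List ℕ) (Sa Sb : L4) : CB :=
  fun B m a b c m2 q0 q1 q2 q3 A0 A1 A2 A3 =>
  strict (Nat.land
    (msk (nat_lit 17) K.length (FL E.r187a Sa m m2 q0 q1 q2 q3 A0 A1 A2 A3))
    (msk (nat_lit 17) K.length (FL E.r187b Sb m m2 q0 q1 q2 q3 A0 A1 A2 A3))) fun M =>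
  @Bool.rec (fun _ => Bool)
    (strict (ck (nat_lit 17) a b c B m) fun k17 =>
      enumT (g17l E GS K k17) K.length M)
    true (Nat.beq M (nat_lit 0))

/-- **check of the single classes at 17** -/
def chk17 (E : E17) (GS : List (List ℕ)) (K Bs : List ℕ) : Bool :=
  mkL4 (fun j x => ld E.r187a (nat_lit 11) (nat_lit 1) x (nat_lit 0) j) K fun Sa =>
  mkL4 (fun j x => ld E.r187b (nat_lit 11) (nat_lit 1) x (nat_lit 0) j) K fun Sb =>
    allL (wB (nat_lit 17) (nat_lit 15) PT17 (g17w E GS K Sa Sb)) Bs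

section Spec17

variable {E : E17} {a b c B m : ℤ} {Q : ℕ}

lemma l17d_spec (hE : E17OK E) (hH : E17H E a b c B m)
    (h : l17d E (cd 17 a b c B m) (cd 11 a b c B m) (cd 5 a b c B m) (cd 8 a b c B m)
      (cd 13 a b c B m) (cd 7 a b c B m) = true) : False := by
  unfold l17d at h
  have c1 : (nat_lit 0) = cd 1 a b c B m := (cd_one a b c B m).symm
  rw [c1] at h
  have h1 := rchk hE.r119n hH.r119n (dvd_refl _) (dvd_refl _) (dvd_refl _) (by norm_num) h
  have h2 := rchk hE.r119m hH.r119m (dvd_refl _) (dvd_refl _) (dvd_refl _) (by norm_num) h1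
  have h3 := rchk hE.r595a hH.r595a (dvd_refl _) (dvd_refl _) (dvd_refl _) (by norm_num) h2
  have h4 := rchk hE.r595b hH.r595b (dvd_refl _) (dvd_refl _) (dvd_refl _) (by norm_num) h3
  have h5 := rchk hE.r935 hH.r935 (dvd_refl _) (dvd_refl _) (dvd_refl _) (by norm_num) h4
  exact absurd h5 (by simp)

lemma g17t_spec (hE : E17OK E) (hH : E17H E a b c B m)
    (h : g17t E (cd 17 a b c B m) (cd 11 a b c B m) (tup4 (cd 13 a b c B m)
      (cd 7 a b c B m) (cd 5 a b c B m) (cd 8 a b c B m)) = true) : False := by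
  unfold g17t tup4 at h
  simp only [strict_eq] at h
  have h13 := cd_lt (n := 13) (by norm_num) a b c B m
  have h7 := cd_lt (n := 7) (by norm_num) a b c B m
  have h5 := cd_lt (n := 5) (by norm_num) a b c B m
  rw [lo_pk h13, hi_pk h13, lo_pk h7, hi_pk h7, lo_pk h5, hi_pk h5] at h
  have c1 : (nat_lit 0) = cd 1 a b c B m := (cd_one a b c B m).symm
  rw [c1] at h
  have h1 := rchk hE.r520 hH.r520 (dvd_refl _) (dvd_refl _) (dvd_refl _) (by norm_num) h
  have h2 := rchk hE.r680a hH.r680a (dvd_refl _) (dvd_refl _) (dvd_refl _) (by norm_num) h1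
  have h3 := rchk hE.r680b hH.r680b (dvd_refl _) (dvd_refl _) (dvd_refl _) (by norm_num) h2
  have h4 := rchk hE.r680n hH.r680n (dvd_refl _) (dvd_refl _) (dvd_refl _) (by norm_num) h3
  have h6 := rchk hE.r221 hH.r221 (dvd_refl _) (dvd_refl _) (dvd_refl _) (by norm_num) h4
  exact l17d_spec hE hH h6

/-- **single classes at 17** -/
theorem chk17_spec (hE : E17OK E) (hH : E17H E a b c B m) (S : Sys6 Q a b c B m) (hQ : 17 ∣ Q)
    {GS : List (List ℕ)} {K G5 : List ℕ} (hl : locA K GS G5 = true)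
    (hc : ∀ x < 17, ∃ Bs, x ∈ Bs ∧ chk17 E GS K Bs = true)
    (hG : tup5 (cd 13 a b c B m) (cd 7 a b c B m) (cd 5 a b c B m)
      (cd 8 a b c B m) (cd 11 a b c B m) ∈ G5) : False := by
  obtain ⟨i, hi, hi2, hx, hg⟩ := locA_spec hl hG
  obtain ⟨Bs, hB, h⟩ := hc _ (rs_lt B)
  unfold chk17 at h
  rw [mkL4_eq, mkL4_eq] at h
  have h1 := wB_spec (by norm_num) (by norm_num) hQ S (allL_spec h _ hB)
  unfold g17w at h1
  rw [strict_eq] at h1
  have e3 : (fun _ : ℕ => (0 : ℕ)) K[i] = cd 1 a b c B m := (cd_one a b c B m).symm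
  have b1 := rFL hE.r187a hE.x187a hE.p187a hH.r187a (by norm_num) (dvd_refl 11) (dvd_refl 1)
    lok17 (k2 := fun x => x) (k3 := fun _ => 0) hi hx e3
  have b2 := rFL hE.r187b hE.x187b hE.p187b hH.r187b (by norm_num) (dvd_refl 11) (dvd_refl 1)
    lok17 (k2 := fun x => x) (k3 := fun _ => 0) hi hx e3
  have b3 := land_bit b1 b2
  have b4 := ne_zero_of_bit b3
  erw [b4] at h1
  simp only [strict_eq] at h1
  have h2 := enumT_spec h1 i hi b3
  unfold g17l at h2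
  simp only [strict_eq] at h2
  have e1 : nthN K i = cd 11 a b c B m := by rw [nthN_eq hi, hx]
  rw [e1, nthA_eq _ hi2] at h2
  exact g17t_spec hE hH (allL_spec h2 _ hg)

end Spec17

end Pool.Agent.PSX.K
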