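import Pool.Agent.PSX.K19
import Pool.Agent.PSX.K11_4
import Pool.Agent.PSX.K11_5
import Pool.Agent.PSX.K11_6
import Pool.Agent.PSX.K17

/-!
Period six, elimination: the classes left after the first four primes, when the middle value is `3`.
-/

namespace Pool.Agent.PSX.K

open Pool.Agent.Lib_helper5 Pool.Agent.Lib_helper5.LK Pool.Agent.Lib_helper5.TB
  Pool.Agent.LibH4.Ker Pool.Agent.PSX.EL
open Pool.Agent.LibH4.S7 (Bx InB cd pk lo hi lo_pk hi_pk cd_lt tup5 tup4 h4 inBs inBs_spec d3 d3_cd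
  y3)

/-- the classes with middle value 3 -/
def B33 : List Bx := [
  ⟨[(nat_lit 33398)], [(nat_lit 11726)], [(nat_lit 2001)], [(nat_lit 21465)], []⟩,
  ⟨[(nat_lit 185028)], [(nat_lit 5914)], [(nat_lit 1264)], [(nat_lit 31727)], []⟩,
  ⟨[(nat_lit 322975)], [(nat_lit 10251)], [(nat_lit 1083)], [(nat_lit 14155)], []⟩,
  ⟨[(nat_lit 323796)], [(nat_lit 10141)], [(nat_lit 1070)], [(nat_lit 13949)], []⟩]

/-- check of a class -/
def f3 (t : ℕ) : Bool :=
  !(Nat.beq (d3 13 (lo t)) 3 && (Nat.beq (d3 7 (lo (hi t))) 3 && (Nat.beq (d3 5 (lo (hi (hi t)))) 3 &&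
    (Nat.beq (d3 8 (h4 t)) 3 && Nat.beq (d3 19 (hi (hi (hi (hi t))))) 3)))) ||
  inBs (lo t) (lo (hi t)) (lo (hi (hi t))) (h4 t) B33

lemma f3_ck : allL f3 G19 = true := by decide +kernel

lemma s33_0 : chk11 e11 [] B33 [(nat_lit 0), (nat_lit 1), (nat_lit 2), (nat_lit 3), (nat_lit 4),
    (nat_lit 5), (nat_lit 6), (nat_lit 7), (nat_lit 8), (nat_lit 9), (nat_lit 10)] = true := by
  decide +kernel

lemma s33 : ∀ x < 11, ∃ Bs, x ∈ Bs ∧ chk11 e11 [] B33 Bs = true := by
  intro x hx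
  interval_cases x
  all_goals exact ⟨_, by simp, s33_0⟩

lemma z4 : allL (fun bx : Bx => allL (fun k => !(Nat.beq (d3 13 k) 3)) bx.F13) BG4 = true := by
  decide +kernel
lemma z5 : allL (fun bx : Bx => allL (fun k => !(Nat.beq (d3 13 k) 3)) bx.F13) BG5 = true := by
  decide +kernel

section

variable {Q : ℕ} {a b c B m : ℤ}

lemma d3_three (h : y3 a b B m = 3) (n : ℕ) [NeZero n] (hn : 3 < n) :
    d3 n (cd n a b c B m) = 3 := by
  rw [d3_cd, h]
  unfold rs
  have : ((3 : ℤ) : ZMod n) = ((3 : ℕ) : ZMod n) := by push_cast; rfl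
  rw [this, ZMod.val_natCast, Nat.mod_eq_of_lt hn]

/-- **middle value 3** -/
theorem no_three (S : Sys6 Q a b c B m) (hQ : 760760 ∣ Q) (h3 : y3 a b B m = 3)
    (h : R8 a b c B m) : False := by
  obtain ⟨BS, hBS, bx, hbx, hin⟩ := h
  have key : ∀ {BS : List Bx}, bx ∈ BS → (∀ x < 19, ∃ Bs, x ∈ Bs ∧ chk19 e19 G19 BS Bs = true) →
      False := by
    intro BS hb hc
    have h1 := chk19_spec e19_ok (e19_holds S (Dvd.dvd.trans (by norm_num) hQ)) S
      (Dvd.dvd.trans (by norm_num) hQ) hb hin hc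
    have h2 := allL_spec f3_ck _ h1
    have h13 := cd_lt (n := 13) (by norm_num) a b c B m
    have h7 := cd_lt (n := 7) (by norm_num) a b c B m
    have h5 := cd_lt (n := 5) (by norm_num) a b c B m
    have h8 := cd_lt (n := 8) (by norm_num) a b c B m
    have e8 : h4 (tup5 (cd 13 a b c B m) (cd 7 a b c B m) (cd 5 a b c B m)
        (cd 8 a b c B m) (cd 19 a b c B m)) = cd 8 a b c B m := by
      unfold h4 tup5
      rw [hi_pk h13, hi_pk h7, hi_pk h5, lo_pk h8]
    unfold f3 at h2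
    rw [e8] at h2
    unfold tup5 at h2
    rw [lo_pk h13, hi_pk h13, lo_pk h7, hi_pk h7, lo_pk h5, hi_pk h5, hi_pk h8,
      d3_three h3 13 (by norm_num), d3_three h3 7 (by norm_num), d3_three h3 5 (by norm_num),
      d3_three h3 8 (by norm_num), d3_three h3 19 (by norm_num)] at h2
    have h9 : inBs (cd 13 a b c B m) (cd 7 a b c B m) (cd 5 a b c B m) (cd 8 a b c B m) B33 = true :=
      h2
    obtain ⟨bx', hb', g1, g2, g3, g4⟩ := inBs_spec h9
    have h10 := chk11_spec e11_ok (e11_holds S (Dvd.dvd.trans (by norm_num) hQ)) S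
      (Dvd.dvd.trans (by norm_num) hQ) hb' ⟨g1, g2, g3, g4⟩ s33
    exact absurd h10 (by simp)
  have key2 : ∀ {BS : List Bx}, bx ∈ BS →
      allL (fun bx : Bx => allL (fun k => !(Nat.beq (d3 13 k) 3)) bx.F13) BS = true → False := by
    intro BS hb hz
    have h1 := allL_spec (allL_spec hz _ hb) _ hin.h13
    rw [d3_three h3 13 (by norm_num)] at h1
    exact absurd h1 (by decide)
  simp only [BB, List.mem_cons, List.not_mem_nil, or_false] at hBS
  rcases hBS with rfl | rfl | rfl | rfl | rfl | rfl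
  · exact key hbx s19_0
  · exact key hbx s19_1
  · exact key hbx s19_2
  · exact key hbx s19_3
  · exact key2 hbx z4
  · exact key2 hbx z5

end

end Pool.Agent.PSX.K
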