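import Pool.Agent.PSX.StG

/-!
# Period six, module CQP: full sums and the discriminant
-/

set_option autoImplicit false

namespace Pool.Agent.PSX

open Finset (range)
open Pool.Agent.P4G (Fam QN FN FZ CC CR)
open Pool.Agent.RDF (β γ δ)

namespace M_CQP

variable {l q0 n e : ℕ} {ψ : ℤ → ℤ}

lemma I0_eq (h : Fam l q0 n e ψ) [NeZero (QN l q0 n)] (P R S x : ℤ) :
    I0 l q0 n e ψ P R S x = ∑ y : ZMod (QN l q0 n),
      FZ l q0 n e ψ ((P : ZMod (QN l q0 n)) * (x : ZMod (QN l q0 n)) ^ 2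
        + (R : ZMod (QN l q0 n)) * (x : ZMod (QN l q0 n)) * y
        - (S : ZMod (QN l q0 n)) * y ^ 2) := by
  rw [← RDF.sum_range_zmod (fun y : ZMod (QN l q0 n) =>
      FZ l q0 n e ψ ((P : ZMod (QN l q0 n)) * (x : ZMod (QN l q0 n)) ^ 2
        + (R : ZMod (QN l q0 n)) * (x : ZMod (QN l q0 n)) * y
        - (S : ZMod (QN l q0 n)) * y ^ 2))]
  unfold I0
  refine Finset.sum_congr rfl fun j _ => ?_
  rw [← h.FZ_cast]
  unfold evZ
  push_cast
  rfl

lemma unit_of {S : ℤ} (hS : IsCoprime S ((q0 * l : ℕ) : ℤ)) :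
    IsUnit ((S : ℤ) : ZMod (QN l q0 n)) := by
  rw [ZMod.coe_int_isUnit_iff_isCoprime]
  push_cast at hS
  unfold QN
  push_cast
  exact (IsCoprime.mul_right hS.of_mul_right_left hS.of_mul_right_right.pow_right).symm

lemma main (h : Fam l q0 n e ψ) [NeZero (QN l q0 n)] (P R S x : ℤ)
    (hS : IsCoprime S ((q0 * l : ℕ) : ℤ)) :
    FN l n e ψ (4 * S) * I0 l q0 n e ψ P R S x = I0 l q0 n e ψ (R ^ 2 + 4 * P * S) 0 1 x := by
  have hSu : IsUnit ((S : ℤ) : ZMod (QN l q0 n)) := unit_of hS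
  have h2u : IsUnit ((2 : ℤ) : ZMod (QN l q0 n)) := by
    rw [ZMod.coe_int_isUnit_iff_isCoprime]
    have h2 : Nat.Coprime (QN l q0 n) 2 := by
      rw [Nat.coprime_two_right]
      exact Nat.odd_iff.2 h.Qodd
    have := Nat.isCoprime_iff_coprime.2 h2
    exact_mod_cast this
  rw [I0_eq h, I0_eq h, Finset.mul_sum]
  have hu : IsUnit (2 * ((S : ℤ) : ZMod (QN l q0 n))) := by
    have := h2u.mul hSu
    push_cast at this
    exact this
  obtain ⟨u, hu⟩ := hu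
  set g : ZMod (QN l q0 n) ≃ ZMod (QN l q0 n) :=
    (Units.mulLeft u).trans (Equiv.subRight ((R : ZMod (QN l q0 n)) * (x : ZMod (QN l q0 n)))) with hg
  rw [← Equiv.sum_comp g (fun y : ZMod (QN l q0 n) =>
      FZ l q0 n e ψ (((R ^ 2 + 4 * P * S : ℤ) : ZMod (QN l q0 n)) * (x : ZMod (QN l q0 n)) ^ 2
        + ((0 : ℤ) : ZMod (QN l q0 n)) * (x : ZMod (QN l q0 n)) * y
        - ((1 : ℤ) : ZMod (QN l q0 n)) * y ^ 2))]
  refine Finset.sum_congr rfl fun y _ => ?_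
  rw [← h.FZ_mul]
  congr 1
  have h1 : g y = 2 * ((S : ℤ) : ZMod (QN l q0 n)) * y
      - (R : ZMod (QN l q0 n)) * (x : ZMod (QN l q0 n)) := by
    rw [hg]; simp [hu]
  rw [h1]
  push_cast
  ring

end M_CQP

theorem t_CQP (hRED : Stmt_RED) (hUNI : Stmt_UNI) : Stmt_CQP := by
  intro l q0 n e e0 ψ _ hF P R S T U V x hS hV hD
  have h := hF.fam
  have h4 : IsUnit (FN l n e ψ 4) := by
    refine (hUNI l q0 n e e0 ψ hF).1 4 ?_
    have h2 : Nat.Coprime 2 (q0 * l) := by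
      rw [Nat.coprime_two_left]
      exact Odd.mul (Nat.odd_iff.2 h.hq) (Nat.odd_iff.2 h.lo)
    have h3 : Nat.Coprime (2 ^ 2) (q0 * l) := Nat.Coprime.pow_left 2 h2
    have := Nat.isCoprime_iff_coprime.2 h3
    exact_mod_cast this
  have e1 := M_CQP.main h P R S x hS
  have e2 := M_CQP.main h T U V x hV
  have e3 := (hRED l q0 n e ψ h (R ^ 2 + 4 * P * S) 0 1 (U ^ 2 + 4 * T * V) 0 1 x hD
    (by simp) (by simp)).1
  rw [h.FN_mul] at e1 e2
  refine h4.mul_left_cancel ?_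
  rw [← mul_assoc, ← mul_assoc, e1, e2, e3]

end Pool.Agent.PSX
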