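import Pool.Agent.PSX.StG

set_option autoImplicit false

namespace Pool.Agent.PSX

open Finset (range)
open Pool.Agent.P4G (Fam QN FN FZ CC CR)

namespace M_LFB

lemma SX_mul {M : Type*} [CommRing M] (Q : ℕ) (a : M) (h : ℤ → M) :
    SX Q (fun x => a * h x) = a * SX Q h := by
  unfold SX
  rw [Finset.mul_sum]
  apply Finset.sum_congr rfl
  intro x _
  ring

lemma SX_add {M : Type*} [CommRing M] (Q : ℕ) (f h : ℤ → M) :
    SX Q (fun x => f x + h x) = SX Q f + SX Q h := by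
  unfold SX
  rw [← Finset.sum_add_distrib]
  apply Finset.sum_congr rfl
  intro x _
  ring

lemma SX_sub {M : Type*} [CommRing M] (Q : ℕ) (f h : ℤ → M) :
    SX Q (fun x => f x - h x) = SX Q f - SX Q h := by
  unfold SX
  rw [← Finset.sum_sub_distrib]
  apply Finset.sum_congr rfl
  intro x _
  ring

lemma SX_zero {M : Type*} [CommRing M] (Q : ℕ) : SX Q (fun _ => (0 : M)) = 0 := by
  unfold SX
  apply Finset.sum_eq_zero
  intro x _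
  ring

lemma SX_congr {M : Type*} [CommRing M] (Q : ℕ) {f h : ℤ → M} (e : ∀ x, f x = h x) :
    SX Q f = SX Q h := by
  have : f = h := funext e
  rw [this]

lemma Nsq (l q0 n i : ℕ) (hi : n + 1 ≤ 2 * i) :
    ((q0 * l ^ i : ℕ) : ZMod (l ^ (n + 1))) * ((q0 * l ^ i : ℕ) : ZMod (l ^ (n + 1))) = 0 := by
  rw [← Nat.cast_mul, ZMod.natCast_eq_zero_iff]
  have e : q0 * l ^ i * (q0 * l ^ i) = q0 * q0 * l ^ (2 * i) := by
    rw [two_mul, pow_add]; ring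
  rw [e]
  exact Dvd.dvd.mul_left (pow_dvd_pow l hi) _

lemma ED_neg (l q0 n e : ℕ) (ψ : ℤ → ℤ) [NeZero (QN l q0 n)] (P R S P' R' S' c : ℤ) :
    ED l q0 n e ψ P R S (-P') (-R') (-S') c = - ED l q0 n e ψ P R S P' R' S' c := by
  unfold ED EZ
  rw [← Finset.sum_neg_distrib]
  apply Finset.sum_congr rfl
  intro x _
  rw [← Finset.sum_neg_distrib]
  apply Finset.sum_congr rfl
  intro y _
  have e1 : evZ (-P') (-R') (-S') (x.val : ℤ) (y.val : ℤ) = - evZ P' R' S' (x.val : ℤ) (y.val : ℤ) := by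
    unfold evZ; ring
  simp only [e1]
  push_cast
  ring

lemma Q0 (l q0 n : ℕ) : ((QN l q0 n : ℕ) : ZMod (l ^ (n + 1))) = 0 := by
  rw [ZMod.natCast_eq_zero_iff]
  exact Dvd.intro_left _ rfl

lemma castQ {l q0 n : ℕ} {u w : ℤ} (h : ((QN l q0 n : ℕ) : ℤ) ∣ w - u) :
    (w : ZMod (l ^ (n + 1))) = (u : ZMod (l ^ (n + 1))) := by
  obtain ⟨t, ht⟩ := h
  have : w = u + (QN l q0 n : ℕ) * t := by linarith
  rw [this, Int.cast_add, Int.cast_mul, Int.cast_natCast, Q0]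
  ring

/-- invariance of the block sums under changes of the form by multiples of the period -/
lemma TT_congr (hPPO : Stmt_PPO) {l q0 n e : ℕ} {ψ : ℤ → ℤ} (h : Fam l q0 n e ψ) (N : ℕ)
    {P R S P' R' S' : ℤ} (c x : ℤ) (h1 : ((QN l q0 n : ℕ) : ℤ) ∣ P' - P)
    (h2 : ((QN l q0 n : ℕ) : ℤ) ∣ R' - R) (h3 : ((QN l q0 n : ℕ) : ℤ) ∣ S' - S) :
    TT l n e ψ N P' R' S' c x = TT l n e ψ N P R S c x := by
  obtain ⟨_, _, _, t1, t2⟩ := hPPO l q0 n e ψ h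
  have hq : q0 ∣ QN l q0 n := Dvd.intro _ rfl
  have f1 : ∀ u w : ℤ, ((QN l q0 n : ℕ) : ℤ) ∣ w - u → FN l n e ψ w = FN l n e ψ u := by
    rintro u w ⟨t, ht⟩
    obtain ⟨s, hs⟩ := t1 (QN l q0 n) hq u t
    have : w = u + (QN l q0 n : ℕ) * t := by linarith
    rw [this, hs, Q0]
    ring
  have f2 : ∀ u w : ℤ, ((QN l q0 n : ℕ) : ℤ) ∣ w - u → F1 l n e ψ w = F1 l n e ψ u := by
    rintro u w ⟨t, ht⟩
    obtain ⟨s, hs⟩ := t2 (QN l q0 n) hq u t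
    have : w = u + (QN l q0 n : ℕ) * t := by linarith
    rw [this, hs, Q0]
    ring
  have ev1 : ∀ y : ℤ, ((QN l q0 n : ℕ) : ℤ) ∣ evZ P' R' S' x y - evZ P R S x y := by
    intro y
    have e1 : evZ P' R' S' x y - evZ P R S x y
        = (P' - P) * x ^ 2 + (R' - R) * (x * y) - (S' - S) * y ^ 2 := by unfold evZ; ring
    rw [e1]
    exact dvd_sub (dvd_add (Dvd.dvd.mul_right h1 _) (Dvd.dvd.mul_right h2 _)) (Dvd.dvd.mul_right h3 _)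
  unfold TT
  have e2 : ∀ j ∈ range N, FN l n e ψ (evZ P' R' S' x (c * x + j))
      = FN l n e ψ (evZ P R S x (c * x + j)) := fun j _ => f1 _ _ (ev1 _)
  rw [Finset.sum_congr rfl e2, f2 _ _ (ev1 (c * x))]
  have e3 : ((R' * x - 2 * S' * (c * x) : ℤ) : ZMod (l ^ (n + 1)))
      = ((R * x - 2 * S * (c * x) : ℤ) : ZMod (l ^ (n + 1))) := by
    apply castQ (q0 := q0)
    have e4 : R' * x - 2 * S' * (c * x) - (R * x - 2 * S * (c * x))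
        = (R' - R) * x - (S' - S) * (2 * (c * x)) := by ring
    rw [e4]
    exact dvd_sub (Dvd.dvd.mul_right h2 _) (Dvd.dvd.mul_right h3 _)
  rw [e3]

end M_LFB

open M_LFB

theorem t_LFB (hLFA : Stmt_LFA) (hTDL : Stmt_TDL) (hNTT : Stmt_NTT) (hPHN : Stmt_PHN)
    (hRED : Stmt_RED) (hCQP : Stmt_CQP) (hUNI : Stmt_UNI) (hPPO : Stmt_PPO) : Stmt_LFB := by
  intro l q0 n e e0 ψ _ h i s hs1 hsi his τ0 γ0 μ hμ
  have hi1 : 1 ≤ i := by omega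
  have hin : i ≤ n + 1 := by omega
  have h2i : n + 1 ≤ 2 * i := by omega
  have hf := h.fam
  -- abbreviations
  obtain ⟨N, hN⟩ : ∃ N : ℤ, N = ((q0 * l ^ i : ℕ) : ℤ) := ⟨_, rfl⟩
  obtain ⟨H, hH⟩ : ∃ H : ℤ, H = ((q0 * l ^ s : ℕ) : ℤ) := ⟨_, rfl⟩
  obtain ⟨t', ht'⟩ : ∃ t' : ℤ, t' = (l : ℤ) ^ (i - s) * τ0 := ⟨_, rfl⟩
  have hτ : N * τ0 = H * t' := by
    rw [hN, hH, ht']
    push_cast
    have : (l : ℤ) ^ i = (l : ℤ) ^ s * (l : ℤ) ^ (i - s) := by rw [← pow_add]; congr 1; omega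
    rw [this]; ring
  obtain ⟨τ, hτd⟩ : ∃ τ : ℤ, τ = N * τ0 := ⟨_, rfl⟩
  obtain ⟨g, hg⟩ : ∃ g : ℤ, g = H * γ0 := ⟨_, rfl⟩
  obtain ⟨μ', hμ'⟩ : ∃ μ' : ℤ, μ' = μ - g + (1 + 4 * μ) * τ := ⟨_, rfl⟩
  have hNM : (N : ZMod (l ^ (n + 1))) = ((q0 * l ^ i : ℕ) : ZMod (l ^ (n + 1))) := by
    rw [hN, Int.cast_natCast]
  have N2 : (N : ZMod (l ^ (n + 1))) * (N : ZMod (l ^ (n + 1))) = 0 := by
    rw [hNM]; exact Nsq l q0 n i h2i
  -- the two applications of LFA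
  have L1 := hLFA l q0 n e e0 ψ h i hi1 hin h2i τ0 g μ
  have L2 := hLFA l q0 n e e0 ψ h i hi1 hin h2i (-τ0) (-g) μ'
  rw [← hN] at L1 L2
  rw [← hNM] at L1 L2
  rw [mul_neg] at L2
  rw [← hτd] at L1 L2
  rw [← hN, ← hH, ← hg, ← hτd, ← hμ', ← ht']
  rw [L1, L2]
  -- (a)
  have a1 : (N : ZMod (l ^ (n + 1))) * ED l q0 n e ψ μ' (2 * μ' + 1 - -g) (-μ' + -g)
        0 (2 * μ' * -τ0) (-((1 + 2 * μ') * -τ0)) (-1)
      = - ((N : ZMod (l ^ (n + 1))) * ED l q0 n e ψ μ (2 * μ + 1 - g) (-μ + g)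
        0 (2 * μ * τ0) (-((1 + 2 * μ) * τ0)) (-1)) := by
    have dμ : H ∣ μ' - μ := by
      refine ⟨-γ0 + (1 + 4 * μ) * t', ?_⟩
      rw [hμ', hg, hτd, hτ]; ring
    have dg : H ∣ g := ⟨γ0, hg⟩
    have hls : ((l ^ s : ℕ) : ℤ) ∣ H := by rw [hH]; push_cast; exact Dvd.intro_left _ rfl
    have := (hPHN l q0 n e ψ hf i s (by omega) μ (2 * μ + 1 - g) (-μ + g) μ'
      (2 * μ' + 1 - -g) (-μ' + -g) (by rw [← hH]; exact dμ)
      (by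
        rw [← hH]
        have e1 : 2 * μ' + 1 - -g - (2 * μ + 1 - g) = 2 * (μ' - μ) + 2 * g := by ring
        rw [e1]
        exact dvd_add (Dvd.dvd.mul_left dμ _) (Dvd.dvd.mul_left dg _))
      (by
        rw [← hH]
        have e1 : -μ' + -g - (-μ + g) = -1 * (μ' - μ) + -2 * g := by ring
        rw [e1]
        exact dvd_add (Dvd.dvd.mul_left dμ _) (Dvd.dvd.mul_left dg _))).2
      (-0) (-(2 * μ * τ0)) (-(-((1 + 2 * μ) * τ0))) 0 (2 * μ' * -τ0) (-((1 + 2 * μ') * -τ0)) (-1)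
      (by simp)
      (by
        have e1 : 2 * μ' * -τ0 - -(2 * μ * τ0) = -2 * τ0 * (μ' - μ) := by ring
        rw [e1]
        exact Dvd.dvd.mul_left (hls.trans dμ) _)
      (by
        have e1 : -((1 + 2 * μ') * -τ0) - -(-((1 + 2 * μ) * τ0)) = 2 * τ0 * (μ' - μ) := by ring
        rw [e1]
        exact Dvd.dvd.mul_left (hls.trans dμ) _)
    rw [← hNM] at this
    rw [this, ED_neg]
    ring
  -- divisibility by `q0 l`
  have hqlH : ((q0 * l : ℕ) : ℤ) ∣ H := by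
    rw [hH]
    refine ⟨(l : ℤ) ^ (s - 1), ?_⟩
    push_cast
    have : (l : ℤ) ^ s = (l : ℤ) * (l : ℤ) ^ (s - 1) := by
      rw [← pow_succ']; congr 1; omega
    rw [this]; ring
  have dg : ((q0 * l : ℕ) : ℤ) ∣ g := hqlH.trans ⟨γ0, hg⟩
  have dτ : ((q0 * l : ℕ) : ℤ) ∣ τ := by
    rw [hτd, hτ]; exact hqlH.trans ⟨t', rfl⟩
  have dμ : ((q0 * l : ℕ) : ℤ) ∣ μ' - μ := by
    have e1 : μ' - μ = -1 * g + (1 + 4 * μ) * τ := by rw [hμ']; ring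
    rw [e1]
    exact dvd_add (Dvd.dvd.mul_left dg _) (Dvd.dvd.mul_left dτ _)
  have dz : ((q0 * l : ℕ) : ℤ) ∣ 1 - 1 := by simp
  have self : ∀ u : ℤ, (l : ℤ) ∣ u - u := fun u => by simp
  -- (b)
  have red0 : ∀ x : ℤ, I0 l q0 n e ψ 1 (-1 + -g) μ' x = I0 l q0 n e ψ 1 (-1) μ x := by
    intro x
    refine (hRED l q0 n e ψ hf 1 (-1) μ 1 (-1 + -g) μ' x dz ?_ dμ).1
    have e1 : -1 + -g - -1 = -1 * g := by ring
    rw [e1]; exact Dvd.dvd.mul_left dg _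
  have red1 : ∀ x : ℤ, I0 l q0 n e ψ μ' (2 * μ' + 1 - -g + 2 * μ' * -τ)
      (-μ' + -g - (1 + 2 * μ') * -τ) x = I0 l q0 n e ψ μ (2 * μ + 1) (-μ) x := by
    intro x
    refine (hRED l q0 n e ψ hf μ (2 * μ + 1) (-μ) μ' _ _ x dμ ?_ ?_).1
    · have e1 : 2 * μ' + 1 - -g + 2 * μ' * -τ - (2 * μ + 1) = 2 * (μ' - μ) + g + (-2 * μ') * τ := by
        ring
      rw [e1]
      exact dvd_add (dvd_add (Dvd.dvd.mul_left dμ _) dg) (Dvd.dvd.mul_left dτ _)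
    · have e1 : -μ' + -g - (1 + 2 * μ') * -τ - -μ = -1 * (μ' - μ) + -1 * g + (1 + 2 * μ') * τ := by
        ring
      rw [e1]
      exact dvd_add (dvd_add (Dvd.dvd.mul_left dμ _) (Dvd.dvd.mul_left dg _))
        (Dvd.dvd.mul_left dτ _)
  have sum0 : ∀ x : ℤ, I0 l q0 n e ψ 1 (-1) μ x + I0 l q0 n e ψ μ (2 * μ + 1) (-μ) x = 0 := by
    intro x
    have hμn : IsCoprime (-μ) ((q0 * l : ℕ) : ℤ) := IsCoprime.neg_left hμ
    have e1 := hCQP l q0 n e e0 ψ h 1 (-1) μ μ (2 * μ + 1) (-μ) x hμ hμn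
      ⟨0, by ring⟩
    rw [hf.FN_neg] at e1
    obtain ⟨u, hu⟩ := (hUNI l q0 n e e0 ψ h).1 μ hμ
    rw [← hu] at e1
    have e2 : (u : ZMod (l ^ (n + 1))) * (I0 l q0 n e ψ 1 (-1) μ x
        + I0 l q0 n e ψ μ (2 * μ + 1) (-μ) x) = 0 := by linear_combination e1
    rw [← Units.inv_mul_cancel_left u (I0 l q0 n e ψ 1 (-1) μ x
        + I0 l q0 n e ψ μ (2 * μ + 1) (-μ) x), e2, mul_zero]
  have b1 : (N : ZMod (l ^ (n + 1))) * (SX (QN l q0 n) (TT l n e ψ (q0 * l ^ i) 1 (-1 + -g) μ' 1)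
      + SX (QN l q0 n) (TT l n e ψ (q0 * l ^ i) μ' (2 * μ' + 1 - -g + 2 * μ' * -τ)
          (-μ' + -g - (1 + 2 * μ') * -τ) (-1))) = 0 := by
    rw [← SX_add, ← SX_mul, ← SX_zero (M := ZMod (l ^ (n + 1))) (QN l q0 n)]
    apply SX_congr
    intro x
    rw [mul_add, hNM, hNTT l q0 n e ψ hf i hi1 hin h2i, hNTT l q0 n e ψ hf i hi1 hin h2i,
      red0, red1]
    linear_combination (2 * (q0 : ZMod (l ^ (n + 1))) * (l : ZMod (l ^ (n + 1))) ^ (2 * i - (n + 1)))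
      * sum0 x
  -- (c)
  have c1 : SX (QN l q0 n) (TT l n e ψ (q0 * l ^ i) 1 (-1 + g) μ 1)
      - SX (QN l q0 n) (TT l n e ψ (q0 * l ^ i) 1 (-1 + -g) μ' 1)
      = 2 * (q0 : ZMod (l ^ (n + 1))) * SX (QN l q0 n) (I1 l q0 n e ψ 1 (-1) μ 0 (2 * γ0)
          (γ0 - (1 + 4 * μ) * t')) := by
    rw [← SX_sub, ← SX_mul]
    apply SX_congr
    intro x
    have e1 := hTDL l q0 n e ψ hf i s hi1 hs1 his 1 (-1 + g) μ 0 (2 * γ0)
      (γ0 - (1 + 4 * μ) * t') 1 x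
    rw [← hH] at e1
    have e2 : (1 : ℤ) - H * 0 = 1 := by ring
    have e3 : -1 + g - H * (2 * γ0) = -1 + -g := by rw [hg]; ring
    have e4 : μ - H * (γ0 - (1 + 4 * μ) * t') = μ' := by rw [hμ', hg, hτd, hτ]; ring
    rw [e2, e3, e4] at e1
    rw [e1]
    congr 1
    refine ((hRED l q0 n e ψ hf 1 (-1) μ 1 (-1 + g) μ x dz ?_ (by simp)).2.2 _ _ _ _ _ _
      (self _) (self _) (self _)).1
    have e5 : -1 + g - -1 = g := by ring
    rw [e5]; exact dg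
  have hQτ : ((QN l q0 n : ℕ) : ℤ) ∣ τ * τ := by
    rw [hτd, hN]
    refine ⟨(q0 : ℤ) * (l : ℤ) ^ (2 * i - (n + 1)) * τ0 ^ 2, ?_⟩
    unfold QN
    push_cast
    have : (l : ℤ) ^ (n + 1) * (l : ℤ) ^ (2 * i - (n + 1)) = (l : ℤ) ^ i * (l : ℤ) ^ i := by
      rw [← pow_add, ← pow_add]; congr 1; omega
    linear_combination (-(q0 : ℤ) ^ 2 * τ0 ^ 2) * this
  have hQg : ((QN l q0 n : ℕ) : ℤ) ∣ τ * g := by
    rw [hτd, hg, hN, hH]
    refine ⟨(q0 : ℤ) * τ0 * γ0, ?_⟩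
    unfold QN
    push_cast
    have : (l : ℤ) ^ (n + 1) = (l : ℤ) ^ i * (l : ℤ) ^ s := by
      rw [← pow_add, his]
    rw [this]; ring
  have c2 : SX (QN l q0 n) (TT l n e ψ (q0 * l ^ i) μ (2 * μ + 1 - g + 2 * μ * τ)
        (-μ + g - (1 + 2 * μ) * τ) (-1))
      - SX (QN l q0 n) (TT l n e ψ (q0 * l ^ i) μ' (2 * μ' + 1 - -g + 2 * μ' * -τ)
          (-μ' + -g - (1 + 2 * μ') * -τ) (-1))
      = 2 * (q0 : ZMod (l ^ (n + 1))) * SX (QN l q0 n) (I1 l q0 n e ψ μ (2 * μ + 1) (-μ)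
          (γ0 - (1 + 4 * μ) * t') (-((2 + 4 * μ) * t')) (γ0 - t')) := by
    rw [← SX_sub, ← SX_mul]
    apply SX_congr
    intro x
    have e1 := hTDL l q0 n e ψ hf i s hi1 hs1 his μ (2 * μ + 1 - g + 2 * μ * τ)
      (-μ + g - (1 + 2 * μ) * τ) (γ0 - (1 + 4 * μ) * t') (-((2 + 4 * μ) * t')) (γ0 - t') (-1) x
    rw [← hH] at e1
    have e2 : μ - H * (γ0 - (1 + 4 * μ) * t') = μ' := by rw [hμ', hg, hτd, hτ]; ring
    rw [e2] at e1
    have e3 : TT l n e ψ (q0 * l ^ i) μ' (2 * μ' + 1 - -g + 2 * μ' * -τ)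
          (-μ' + -g - (1 + 2 * μ') * -τ) (-1) x
        = TT l n e ψ (q0 * l ^ i) μ' (2 * μ + 1 - g + 2 * μ * τ - H * -((2 + 4 * μ) * t'))
          (-μ + g - (1 + 2 * μ) * τ - H * (γ0 - t')) (-1) x := by
      apply TT_congr hPPO hf
      · simp
      · have e4 : 2 * μ' + 1 - -g + 2 * μ' * -τ
            - (2 * μ + 1 - g + 2 * μ * τ - H * -((2 + 4 * μ) * t'))
            = 2 * (τ * g) - 2 * (1 + 4 * μ) * (τ * τ) := by
          have e5 : H * t' = τ := by rw [hτd, hτ]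
          rw [hμ']
          linear_combination (-(2 + 4 * μ)) * e5
        rw [e4]
        exact dvd_sub (Dvd.dvd.mul_left hQg _) (Dvd.dvd.mul_left hQτ _)
      · have e4 : -μ' + -g - (1 + 2 * μ') * -τ - (-μ + g - (1 + 2 * μ) * τ - H * (γ0 - t'))
            = 2 * (1 + 4 * μ) * (τ * τ) - 2 * (τ * g) := by
          have e5 : H * t' = τ := by rw [hτd, hτ]
          rw [hμ', hg]
          linear_combination (-1 : ℤ) * e5
        rw [e4]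
        exact dvd_sub (Dvd.dvd.mul_left hQτ _) (Dvd.dvd.mul_left hQg _)
    rw [e3, e1]
    congr 1
    refine ((hRED l q0 n e ψ hf μ (2 * μ + 1) (-μ) μ _ _ x (by simp) ?_ ?_).2.2 _ _ _ _ _ _
      (self _) (self _) (self _)).1
    · have e5 : 2 * μ + 1 - g + 2 * μ * τ - (2 * μ + 1) = -1 * g + 2 * μ * τ := by ring
      rw [e5]
      exact dvd_add (Dvd.dvd.mul_left dg _) (Dvd.dvd.mul_left dτ _)
    · have e5 : -μ + g - (1 + 2 * μ) * τ - -μ = g - (1 + 2 * μ) * τ := by ring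
      rw [e5]
      exact dvd_sub dg (Dvd.dvd.mul_left dτ _)
  -- conclusion
  have hτM : (τ : ZMod (l ^ (n + 1))) = (N : ZMod (l ^ (n + 1))) * (τ0 : ZMod (l ^ (n + 1))) := by
    rw [hτd, Int.cast_mul]
  rw [a1, hτM]
  push_cast
  linear_combination (τ0 : ZMod (l ^ (n + 1))) * c1 + (τ0 : ZMod (l ^ (n + 1))) * c2
    + (2 * (e : ZMod (l ^ (n + 1))) * (τ0 : ZMod (l ^ (n + 1))) ^ 2) * b1
    + (2 * (e : ZMod (l ^ (n + 1))) * (τ0 : ZMod (l ^ (n + 1)))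
      * ED l q0 n e ψ μ (2 * μ + 1 - g) (-μ + g) 0 (2 * μ * τ0) (-((1 + 2 * μ) * τ0)) (-1)) * N2

end Pool.Agent.PSX
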