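import Pool.Agent.RQM.C44
import Pool.Agent.RQM.C54

/-!
Period six, elimination: forms, relations and the system of conditions on the parameters
(odd discriminants). Letters `B; a, b, c, b, a`; with `r = y2`, `p = y3` the forms are
`(m,B,-1), (1,B,-m), (m,r2,-r), (r,r3,-p)` and `c p = r3`.
-/

namespace Pool.Agent.PSX.EL

open Finset Pool.Agent.Lib_helper5 Pool.Agent.Lib_helper5.LK Pool.Agent.LibH4
  Pool.Agent.LibH4.Ker Pool.Agent.LibH4.T6 Pool.Agent.LibH4.KF Pool.Agent.Lib_helper5.TB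
open Pool.Agent.LibH4.S7 (y2 r2 y3 r3 disc2 disc3 y2_neg r2_neg y3_neg r3_neg dd_neg odd_mul
  dd_mod8)

/-- the closing condition -/
def Cl6 (a b c B m : ℤ) : Prop := c * y3 a b B m = r3 a b B m

/-- the forms -/
def J6 (a b c B m : ℤ) : List Fm :=
  [⟨m, B, -1, 0, -B⟩,
   ⟨1, B, -m, 6, -(2 * a)⟩,
   ⟨m, r2 a B m, -y2 a B m, 6, -(2 * b)⟩,
   ⟨y2 a B m, r3 a b B m, -y3 a b B m, 6, -c⟩]

lemma J6_ok (a b c B m : ℤ) : JOk (S7.dd B m) (J6 a b c B m) where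
  ne := by simp [J6]
  hκ := by
    intro j hj
    simp only [J6, List.mem_cons, List.not_mem_nil, or_false] at hj
    rcases hj with rfl | rfl | rfl | rfl <;> simp
  hD := by
    have h2 := disc2 a B m
    have h3 := disc3 a b B m
    intro j hj
    simp only [J6, List.mem_cons, List.not_mem_nil, or_false] at hj
    rcases hj with rfl | rfl | rfl | rfl
    · simp only [S7.dd]; ring
    · simp only [S7.dd]; ring
    · simp only; linear_combination h2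
    · simp only; linear_combination h3

lemma Cl6.neg {a b c B m : ℤ} (h : Cl6 a b c B m) : Cl6 (-a) (-b) (-c) (-B) m := by
  unfold Cl6 at h ⊢
  rw [y3_neg, r3_neg]
  linear_combination (-1 : ℤ) * h

lemma Rel6_neg {N q : ℕ} [NeZero q] (χ : ZMod q → ZMod N) {a b c B m : ℤ}
    (h : LK.Rel N χ (J6 a b c B m)) : LK.Rel N χ (J6 (-a) (-b) (-c) (-B) m) := by
  unfold LK.Rel J6 at h ⊢
  simp only [List.map_cons, List.map_nil, List.sum_cons, List.sum_nil, add_zero] at h ⊢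
  rw [y2_neg, r2_neg, y3_neg, r3_neg]
  simp only [K5.XX_neg, K5.YX_neg]
  push_cast at h ⊢
  linear_combination (-1 : ZMod N) * h

/-- all relations -/
def AllRel6 (Q : ℕ) (a b c B m : ℤ) : Prop :=
  ∀ (n1 n2 n3 N T1 T2 T3 : ℕ) [NeZero n1] [NeZero n2] [NeZero n3] [NeZero (n1 * n2)]
    [NeZero (n1 * n2 * n3)], relOk n1 n2 n3 N T1 T2 T3 = true → tabCk n1 N T1 = true →
    tabCk n2 N T2 = true → tabCk n3 N T3 = true → N % 2 = 1 →
    (n1 * n2 * n3 * N) ∣ Q ^ 6 →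
    LK.Rel N (tri (tabc n1 N T1) (tabc n2 N T2) (tabc n3 N T3)) (J6 a b c B m)

/-- the system of conditions -/
structure Sys6 (Q : ℕ) (a b c B m : ℤ) : Prop where
  oB : B % 2 = 1
  om : m % 2 = 1
  cl : Cl6 a b c B m
  gen : y3 a b B m % 4 = 3
  inr : ∀ p : ℕ, p.Prime → p ≠ 2 → p ∣ Q → K5.In p (S7.dd B m)
  rel : AllRel6 Q a b c B m

lemma Sys6.neg {Q : ℕ} {a b c B m : ℤ} (h : Sys6 Q a b c B m) :
    Sys6 Q (-a) (-b) (-c) (-B) m where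
  oB := by have := h.oB; omega
  om := h.om
  cl := h.cl.neg
  gen := by rw [y3_neg]; exact h.gen
  inr := by rw [dd_neg]; exact h.inr
  rel := fun n1 n2 n3 N T1 T2 T3 _ _ _ _ _ h1 h2 h3 h4 h5 h6 =>
    Rel6_neg _ (h.rel n1 n2 n3 N T1 T2 T3 h1 h2 h3 h4 h5 h6)

lemma Sys6.mono {Q Q' : ℕ} {a b c B m : ℤ} (h : Sys6 Q a b c B m) (hQ : Q' ∣ Q) :
    Sys6 Q' a b c B m where
  oB := h.oB
  om := h.om
  cl := h.cl
  gen := h.gen
  inr := fun p hp hp2 hd => h.inr p hp hp2 (hd.trans hQ)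
  rel := fun n1 n2 n3 N T1 T2 T3 _ _ _ _ _ h1 h2 h3 h4 h5 h6 =>
    h.rel n1 n2 n3 N T1 T2 T3 h1 h2 h3 h4 h5 (h6.trans (pow_dvd_pow_of_dvd hQ 6))

section Use

variable {Q : ℕ} {a b c B m : ℤ}

lemma Dv_J6 (a b c B m : ℤ) (n : ℕ) : ∀ j ∈ J6 a b c B m, Dv n (S7.dd B m) j.P j.R j.S := by
  intro j hj
  have h2 := (J6_ok a b c B m).hD j hj
  unfold Dv
  rw [h2, sub_self]
  exact ⟨dvd_zero _, dvd_zero _⟩

lemma adP6 (S : Sys6 Q a b c B m) {p : ℕ} [NeZero p] (hp : p.Prime) (hp2 : p ≠ 2) (hQ : p ∣ Q) :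
    ∀ x y z : ℤ, Dv p (S7.dd B m) x y z → adP p (rs p x) (rs p y) (rs p z) = true := by
  intro x y z hd
  have h1 := S.inr p hp hp2 hQ
  unfold K5.In at h1
  have e : (rs p y * rs p y + 4 * rs p x * (p - rs p z)) % p = rs p (S7.dd B m) := by
    apply rs_of
    have h3 : ((y ^ 2 - 4 * x * z - S7.dd B m : ℤ) : ZMod p) = 0 := by
      rw [ZMod.intCast_zmod_eq_zero_iff_dvd]
      exact hd.1
    rw [Nat.cast_add, Nat.cast_mul, Nat.cast_mul, Nat.cast_mul, Nat.cast_sub (rs_lt z).le,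
      rs_cast, rs_cast, rs_cast, ZMod.natCast_self]
    push_cast at h3 ⊢
    linear_combination h3
  have e' : adP p (rs p x) (rs p y) (rs p z) =
    Nat.beq (Nat.mod (Nat.pow ((rs p y * rs p y + 4 * rs p x * (p - rs p z)) % p) (p / 2)) p)
      (p - 1) := rfl
  rw [e', e]
  exact h1

lemma adO6 (S : Sys6 Q a b c B m) {n : ℕ} [NeZero n] (hn : 2 ∣ n) :
    ∀ x y z : ℤ, Dv n (S7.dd B m) x y z → adO (rs n x) (rs n y) (rs n z) = true := by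
  intro P R S' hd
  have key : ∀ x : ℤ, x % 2 = 1 → (rs n x) % 2 = 1 := by
    intro x hx
    have h1 : ((rs n x : ℤ)) = x % n := by
      unfold rs
      rw [ZMod.val_intCast]
    obtain ⟨k, hk⟩ := hn
    have h2 : x % (n : ℤ) % 2 = x % 2 :=
      Int.emod_emod_of_dvd x (by rw [hk]; push_cast; exact Dvd.intro _ rfl)
    omega
  have h8 := dd_mod8 S.oB S.om
  obtain ⟨hR, hP, hS⟩ := odd_mul (R := R) (x := P) (y := -S') (D := R ^ 2 + 4 * P * (-S')) rfl (by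
    obtain ⟨k, hk⟩ := hd.2
    have e : R ^ 2 + 4 * P * (-S') = S7.dd B m + 8 * k := by rw [← hk]; ring
    rw [e]
    omega)
  have h1 := key P hP
  have h2 := key R hR
  have h3 := key S' (by omega)
  have h4 : rs n P * (rs n R * rs n S') % 2 = 1 := by
    rw [Nat.mul_mod, Nat.mul_mod (rs n R), h1, h2, h3]
  unfold adO
  have h5 : Nat.mod (Nat.mul (rs n P) (Nat.mul (rs n R) (rs n S'))) 2 = 1 := h4
  rw [h5]
  rfl

/-- no condition for the trivial component -/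
lemma adT6 {n : ℕ} [NeZero n] (D : ℤ) :
    ∀ x y z : ℤ, Dv n D x y z → adT (rs n x) (rs n y) (rs n z) = true := fun _ _ _ _ => rfl

variable {n1 n2 n3 N h l T1 T2 T3 : ℕ} {F1 F2 F3 : List (ℕ × ℕ)} {rows : List (ℕ × ℕ)}
  {ex1 ex2 ex3 PT1 PT2 PT3 t1 t2 t3 : ℕ} {A1 A2 A3 : ℕ → ℕ → ℕ → Bool}
  [NeZero n1] [NeZero n2] [NeZero n3] [NeZero (n1 * n2)] [NeZero (n1 * n2 * n3)]

/-- **the reduced relation for the family of period six** -/
theorem use6 (H : TabOK n1 n2 n3 N h T1 T2 T3 F1 F2 F3 rows) (hN : N = h * l) (h0 : 0 < h)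
    (hl : 0 < l) (hN2 : N % 2 = 1)
    (ht1 : tabCk n1 N T1 = true) (ht2 : tabCk n2 N T2 = true) (ht3 : tabCk n3 N T3 = true)
    (C1 : CompOK n1 ex1 PT1 F1 A1) (C2 : CompOK n2 ex2 PT2 F2 A2) (C3 : CompOK n3 ex3 PT3 F3 A3)
    (r1 : redCk n1 T1 t1 l = true) (r2 : redCk n2 T2 t2 l = true) (r3 : redCk n3 T3 t3 l = true)
    (rok : relOk n1 n2 n3 N T1 T2 T3 = true)
    (S : Sys6 Q a b c B m) (hQ : n1 * n2 * n3 * N ∣ Q ^ 6)
    (a1 : ∀ x y z : ℤ, Dv n1 (S7.dd B m) x y z → A1 (rs n1 x) (rs n1 y) (rs n1 z) = true)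
    (a2 : ∀ x y z : ℤ, Dv n2 (S7.dd B m) x y z → A2 (rs n2 x) (rs n2 y) (rs n2 z) = true)
    (a3 : ∀ x y z : ℤ, Dv n3 (S7.dd B m) x y z → A3 (rs n3 x) (rs n3 y) (rs n3 z) = true) :
    ((J6 a b c B m).map (fval n1 n2 n3 l ex1 ex2 ex3 PT1 PT2 PT3 t1 t2 t3 rows
      F3.length)).sum % l = 0 :=
  H.rel hN h0 hl ht1 ht2 ht3 C1 C2 C3 r1 r2 r3
    (fun j hj => a1 _ _ _ (Dv_J6 a b c B m n1 j hj)) (fun j hj => a2 _ _ _ (Dv_J6 a b c B m n2 j hj))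
    (fun j hj => a3 _ _ _ (Dv_J6 a b c B m n3 j hj))
    (S.rel n1 n2 n3 N T1 T2 T3 rok ht1 ht2 ht3 hN2 hQ)

end Use

/-- all coefficients are odd -/
lemma Sys6.odd {Q : ℕ} {a b c B m : ℤ} (h : Sys6 Q a b c B m) :
    y2 a B m % 2 = 1 ∧ y3 a b B m % 2 = 1 ∧ r2 a B m % 2 = 1 ∧ r3 a b B m % 2 = 1 := by
  have h8 := dd_mod8 h.oB h.om
  obtain ⟨e1, _, e2⟩ := odd_mul (disc2 a B m) h8
  obtain ⟨e3, _, e4⟩ := odd_mul (disc3 a b B m) h8
  exact ⟨e2, e4, e1, e3⟩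

end Pool.Agent.PSX.EL
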