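import Pool.Agent.RQM.C127
import Pool.Agent.PSX.Sys6

/-!
Period six, nested search modulo `13`, `7`, `5`: engine (kernel functions) and the meaning of the
relations, for the four forms of the cycle.
-/

namespace Pool.Agent.PSX.N6

open Pool.Agent.Lib_helper5 Pool.Agent.Lib_helper5.LK Pool.Agent.Lib_helper5.TB
  Pool.Agent.Lib_helper5.Lane Pool.Agent.LibH4 Pool.Agent.LibH4.Ker Pool.Agent.LibH4.T6
  Pool.Agent.LibH4.KF Pool.Agent.PSX.EL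
open Pool.Agent.LibH4.S7 (y2 r2 y3 r3)
open Pool.Agent.Lib_helper5.P7 (CD Wx Wf HA st Gath LaneC RowB RelB om om_le om_le' mod13_le
  nthX nthY nthX_eq nthY_eq Wx_eq Wf_eq bit_of test13 rs1 dig_eq enB enB_spec ent ent_eq
  fndCD fndCD_spec bndCk bndCk_spec)

/-- the data of a point -/
def cdx6 (n ex PT : ℕ) (a b c B m : ℤ) : CD where
  a := rs n a
  b := rs n b
  c := rs n c
  B := rs n B
  m := rs n m
  m2 := rs n (y2 a B m)
  m3 := rs n (y3 a b B m)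
  q0 := pos n ex PT (rs n m) (rs n B) (rs n (-1))
  q1 := pos n ex PT (rs n 1) (rs n B) (rs n (-m))
  q2 := pos n ex PT (rs n m) (rs n (r2 a B m)) (rs n (-y2 a B m))
  q3 := pos n ex PT (rs n (y2 a B m)) (rs n (r3 a b B m)) (rs n (-y3 a b B m))
  q4 := nat_lit 0

/-- second half of a relation -/
noncomputable def HB6 (w3 : ℕ → ℕ) (t m2 q3 : ℕ) : ℕ := Nat.mul (dig t m2) (w3 q3)

/-- context of a relation with `l = 13` at a class modulo `13` -/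
noncomputable def ctx6 {β : Type} (mk sh t1 t2 : ℕ) (rows : List (ℕ × ℕ)) (G0 G1 G2 G3 : ℕ → ℕ)
    (m m2 al0 al1 al2 al3 q0 q1 q2 q3 : ℕ)
    (k : (ℕ → ℕ → ℕ → ℕ → ℕ) → (ℕ → ℕ → ℕ) → β) : β :=
  k (HA (Wx mk G0 sh (nthY rows q0) (Nat.mod (Nat.mul (dig t1 m) al0) (nat_lit 13)))
    (Wf mk G1 sh (nthX rows q1) (nthY rows q1)
      (Nat.mod (Nat.mul (nat_lit 6) (dig t1 (nat_lit 1))) (nat_lit 13))
      (Nat.mod (Nat.mul (dig t1 (nat_lit 1)) al1) (nat_lit 13)))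
    (Wf mk G2 sh (nthX rows q2) (nthY rows q2)
      (Nat.mod (Nat.mul (nat_lit 6) (dig t1 m)) (nat_lit 13))
      (Nat.mod (Nat.mul (dig t1 m) al2) (nat_lit 13))) t2)
    (HB6 (Wf mk G3 sh (nthX rows q3) (nthY rows q3)
      (Nat.mod (Nat.mul (nat_lit 6) (dig t1 m2)) (nat_lit 13))
      (Nat.mod (Nat.mul (dig t1 m2) al3) (nat_lit 13))) t2)

/-- all lanes of a relation without second component -/
noncomputable def Z6 (mk C F t1 : ℕ) (rows : List (ℕ × ℕ)) (G0 G1 G2 G3 : ℕ → ℕ)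
    (m m2 al0 al1 al2 al3 q0 q1 q2 q3 : ℕ) : ℕ :=
  Nat.land F (Nat.sub C (Nat.land
    (Nat.add (Wx mk G0 (nat_lit 0) (nthY rows q0)
      (Nat.mod (Nat.mul (dig t1 m) al0) (nat_lit 13)) (nat_lit 0))
    (Nat.add (Wf mk G1 (nat_lit 0) (nthX rows q1) (nthY rows q1)
      (Nat.mod (Nat.mul (nat_lit 6) (dig t1 (nat_lit 1))) (nat_lit 13))
      (Nat.mod (Nat.mul (dig t1 (nat_lit 1)) al1) (nat_lit 13)) (nat_lit 0))
    (Nat.add (Wf mk G2 (nat_lit 0) (nthX rows q2) (nthY rows q2)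
      (Nat.mod (Nat.mul (nat_lit 6) (dig t1 m)) (nat_lit 13))
      (Nat.mod (Nat.mul (dig t1 m) al2) (nat_lit 13)) (nat_lit 0))
    (Wf mk G3 (nat_lit 0) (nthX rows q3) (nthY rows q3)
      (Nat.mod (Nat.mul (nat_lit 6) (dig t1 m2)) (nat_lit 13))
      (Nat.mod (Nat.mul (dig t1 m2) al3) (nat_lit 13)) (nat_lit 0))))) mk))

/-- a relation -/
noncomputable def stg6 (mk C : ℕ) (hA : ℕ → ℕ → ℕ → ℕ → ℕ) (hB : ℕ → ℕ → ℕ)
    (next : CD → ℕ → ℕ → ℕ → ℕ → ℕ → ℕ → ℕ → ℕ → ℕ → Bool) (D : CD)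
    (m m2 m3 q0 q1 q2 q3 q4 Z : ℕ) : Bool :=
  st (Nat.land Z (Nat.sub C (Nat.land (Nat.add (hA m q0 q1 q2) (hB m2 q3)) mk)))
    (next D m m2 m3 q0 q1 q2 q3 q4)

theorem stg6_spec {mk C : ℕ} {hA : ℕ → ℕ → ℕ → ℕ → ℕ} {hB : ℕ → ℕ → ℕ}
    {next : CD → ℕ → ℕ → ℕ → ℕ → ℕ → ℕ → ℕ → ℕ → ℕ → Bool} {D : CD}
    {m m2 m3 q0 q1 q2 q3 q4 Z p : ℕ}
    (h : stg6 mk C hA hB next D m m2 m3 q0 q1 q2 q3 q4 Z = true) (hp : Z.testBit p = true)
    (hk : (Nat.sub C (Nat.land (Nat.add (hA m q0 q1 q2) (hB m2 q3)) mk)).testBit p = true) :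
    ∃ Z', next D m m2 m3 q0 q1 q2 q3 q4 Z' = true ∧ Z'.testBit p = true := by
  refine ⟨Nat.land Z (Nat.sub C (Nat.land (Nat.add (hA m q0 q1 q2) (hB m2 q3)) mk)), ?_, ?_⟩
  · have hb : (Nat.land Z (Nat.sub C (Nat.land (Nat.add (hA m q0 q1 q2) (hB m2 q3))
        mk))).testBit p = true :=
      Eq.trans (Nat.testBit_land _ _ _) (Bool.and_eq_true_iff.2 ⟨hp, hk⟩)
    unfold stg6 st at h
    set Z' := Nat.land Z (Nat.sub C (Nat.land (Nat.add (hA m q0 q1 q2) (hB m2 q3)) mk))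
    cases hz : Nat.beq Z' (nat_lit 0) with
    | true =>
      have h0 : Z' = 0 := Nat.eq_of_beq_eq_true hz
      rw [h0] at hb
      simp at hb
    | false =>
      rw [hz] at h
      exact h
  · exact Eq.trans (Nat.testBit_land _ _ _) (Bool.and_eq_true_iff.2 ⟨hp, hk⟩)

/-- the vectors of a character on the lanes -/
structure LaneG6 (Z : List CD) (t len : ℕ) (G0 G1 G2 G3 : ℕ → ℕ) : Prop where
  g0 : Gath Z (fun D => dig t D.m) CD.q0 G0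
  g1 : Gath Z (fun _ => dig t 1) CD.q1 G1
  g2 : Gath Z (fun D => dig t D.m) CD.q2 G2
  g3 : Gath Z (fun D => dig t D.m2) CD.q3 G3
  b0 : ∀ D ∈ Z, dig t D.m ≤ 12
  b1 : dig t 1 ≤ 12
  b3 : ∀ D ∈ Z, dig t D.m2 ≤ 12
  q0 : ∀ D ∈ Z, D.q0 < len
  q1 : ∀ D ∈ Z, D.q1 < len
  q2 : ∀ D ∈ Z, D.q2 < len
  q3 : ∀ D ∈ Z, D.q3 < len

lemma laneG6_of {t len : ℕ} {LL : List (List CD)} {G0 G1 G2 G3 : ℕ → ℕ}
    (hb : bndCk t len LL = true) (h1 : dig t 1 ≤ 12)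
    (g0 : Gath LL.flatten (fun D => dig t D.m) CD.q0 G0)
    (g1 : Gath LL.flatten (fun _ => dig t 1) CD.q1 G1)
    (g2 : Gath LL.flatten (fun D => dig t D.m) CD.q2 G2)
    (g3 : Gath LL.flatten (fun D => dig t D.m2) CD.q3 G3) :
    LaneG6 LL.flatten t len G0 G1 G2 G3 where
  g0 := g0
  g1 := g1
  g2 := g2
  g3 := g3
  b0 D hD := (bndCk_spec hb D hD).1
  b1 := h1
  b3 D hD := (bndCk_spec hb D hD).2.1
  q0 D hD := (bndCk_spec hb D hD).2.2.2.1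
  q1 D hD := (bndCk_spec hb D hD).2.2.2.2.1
  q2 D hD := (bndCk_spec hb D hD).2.2.2.2.2.1
  q3 D hD := (bndCk_spec hb D hD).2.2.2.2.2.2.1

/-- the sum of a reduced relation with components `n1, n2, n3` -/
lemma fsum6_eq (n1 n2 n3 ex1 ex2 ex3 PT1 PT2 PT3 t1 t2 t3 : ℕ) (rows : List (ℕ × ℕ)) (len3 : ℕ)
    (a b c B m : ℤ) :
    ((J6 a b c B m).map (fval n1 n2 n3 13 ex1 ex2 ex3 PT1 PT2 PT3 t1 t2 t3 rows len3)).sum =
    dig t1 (cdx6 n1 ex1 PT1 a b c B m).m * dig t2 (cdx6 n2 ex2 PT2 a b c B m).m *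
      dig t3 (cdx6 n3 ex3 PT3 a b c B m).m *
      (0 * tX rows len3 (cdx6 n1 ex1 PT1 a b c B m).q0 (cdx6 n2 ex2 PT2 a b c B m).q0
        (cdx6 n3 ex3 PT3 a b c B m).q0 +
      rs 13 (-B) * tY rows len3 (cdx6 n1 ex1 PT1 a b c B m).q0 (cdx6 n2 ex2 PT2 a b c B m).q0
        (cdx6 n3 ex3 PT3 a b c B m).q0) +
    (dig t1 (rs n1 1) * dig t2 (rs n2 1) * dig t3 (rs n3 1) *
      (6 * tX rows len3 (cdx6 n1 ex1 PT1 a b c B m).q1 (cdx6 n2 ex2 PT2 a b c B m).q1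
        (cdx6 n3 ex3 PT3 a b c B m).q1 +
      rs 13 (-(2 * a)) * tY rows len3 (cdx6 n1 ex1 PT1 a b c B m).q1 (cdx6 n2 ex2 PT2 a b c B m).q1
        (cdx6 n3 ex3 PT3 a b c B m).q1) +
    (dig t1 (cdx6 n1 ex1 PT1 a b c B m).m * dig t2 (cdx6 n2 ex2 PT2 a b c B m).m *
      dig t3 (cdx6 n3 ex3 PT3 a b c B m).m *
      (6 * tX rows len3 (cdx6 n1 ex1 PT1 a b c B m).q2 (cdx6 n2 ex2 PT2 a b c B m).q2
        (cdx6 n3 ex3 PT3 a b c B m).q2 +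
      rs 13 (-(2 * b)) * tY rows len3 (cdx6 n1 ex1 PT1 a b c B m).q2 (cdx6 n2 ex2 PT2 a b c B m).q2
        (cdx6 n3 ex3 PT3 a b c B m).q2) +
    (dig t1 (cdx6 n1 ex1 PT1 a b c B m).m2 * dig t2 (cdx6 n2 ex2 PT2 a b c B m).m2 *
      dig t3 (cdx6 n3 ex3 PT3 a b c B m).m2 *
      (6 * tX rows len3 (cdx6 n1 ex1 PT1 a b c B m).q3 (cdx6 n2 ex2 PT2 a b c B m).q3
        (cdx6 n3 ex3 PT3 a b c B m).q3 +
      rs 13 (-c) * tY rows len3 (cdx6 n1 ex1 PT1 a b c B m).q3 (cdx6 n2 ex2 PT2 a b c B m).q3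
        (cdx6 n3 ex3 PT3 a b c B m).q3) + 0))) := by
  have e : ∀ j : Fm, fval n1 n2 n3 13 ex1 ex2 ex3 PT1 PT2 PT3 t1 t2 t3 rows len3 j =
    dig t1 (rs n1 j.P) * dig t2 (rs n2 j.P) * dig t3 (rs n3 j.P) *
    (j.κ * tX rows len3 (pos n1 ex1 PT1 (rs n1 j.P) (rs n1 j.R) (rs n1 j.S))
      (pos n2 ex2 PT2 (rs n2 j.P) (rs n2 j.R) (rs n2 j.S))
      (pos n3 ex3 PT3 (rs n3 j.P) (rs n3 j.R) (rs n3 j.S)) +
    rs 13 j.α * tY rows len3 (pos n1 ex1 PT1 (rs n1 j.P) (rs n1 j.R) (rs n1 j.S))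
      (pos n2 ex2 PT2 (rs n2 j.P) (rs n2 j.R) (rs n2 j.S))
      (pos n3 ex3 PT3 (rs n3 j.P) (rs n3 j.R) (rs n3 j.S))) := fun _ => rfl
  unfold J6
  simp only [List.map_cons, List.map_nil, List.sum_cons, List.sum_nil, e]
  rfl

lemma core6 (u0 u3 s0 s1 s3 p0 p1 p3 a0 a1 a2 a3 X0 Y0 X1 Y1 X2 Y2 X3 Y3 : ℕ)
    (h : (s0 * u0 * p0 * (0 * X0 + a0 * Y0) + (s1 * 1 * p1 * (6 * X1 + a1 * Y1) +
      (s0 * u0 * p0 * (6 * X2 + a2 * Y2) + (s3 * u3 * p3 * (6 * X3 + a3 * Y3) + 0)))) % 13 = 0) :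
    13 ∣ u0 * ((s0 * a0 % 13 * Y0 + 0 * 0) * p0 + (6 * s0 % 13 * X2 + s0 * a2 % 13 * Y2) * p0) +
      (6 * s1 % 13 * X1 + s1 * a1 % 13 * Y1) * p1 +
      u3 * ((6 * s3 % 13 * X3 + s3 * a3 % 13 * Y3) * p3) := by
  rw [← Nat.dvd_iff_mod_eq_zero, ← ZMod.natCast_eq_zero_iff] at h
  rw [← ZMod.natCast_eq_zero_iff]
  push_cast at h ⊢
  simp only [ZMod.natCast_mod]
  push_cast
  linear_combination h

lemma coreT6 (u0 u3 w0 w1 w2 w3 : ℕ) :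
    (u0 * (20165 * w0 % 2 ^ 18 + 20165 * w2 % 2 ^ 18) + 20165 * w1 % 2 ^ 18 +
      u3 * (20165 * w3 % 2 ^ 18)) % 2 ^ 18 =
    20165 * (u0 * (w0 + w2) + w1 + u3 * w3) % 2 ^ 18 := by
  rw [← ZMod.natCast_eq_natCast_iff']
  have key : ∀ x : ℕ, (((20165 * x % 2 ^ 18 : ℕ)) : ZMod (2 ^ 18)) = (20165 : ZMod (2 ^ 18)) * x := by
    intro x
    rw [ZMod.natCast_mod]
    push_cast
    rfl
  simp only [Nat.cast_add, Nat.cast_mul, key]
  push_cast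
  ring

section Rel5

variable {a b c B m : ℤ} {t1 t2 t3 : ℕ} {rows : List (ℕ × ℕ)} {Z : List CD} {mk C F i : ℕ}
  {G0 G1 G2 G3 : ℕ → ℕ}

/-- a lane which satisfies the relation survives -/
theorem rel65_bit
    (hrel : ((J6 a b c B m).map (fval 13 7 5 13 11 5 3 PT13 PT7 PT5 t1 t2 t3 rows 10)).sum % 13 = 0)
    (RB : RelB 7 t2 rows 210) (LC : LaneC Z mk C F) (LG : LaneG6 Z t3 10 G0 G1 G2 G3)
    (hi : Z[i]? = some (cdx6 5 3 PT5 a b c B m))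
    (h0 : (cdx6 7 5 PT7 a b c B m).q0 < 21) (h1 : (cdx6 7 5 PT7 a b c B m).q1 < 21)
    (h2 : (cdx6 7 5 PT7 a b c B m).q2 < 21) (h3 : (cdx6 7 5 PT7 a b c B m).q3 < 21) :
    ctx6 mk (nat_lit 80) t1 t2 rows G0 G1 G2 G3 (cdx6 13 11 PT13 a b c B m).m
      (cdx6 13 11 PT13 a b c B m).m2 (rs 13 (-B)) (rs 13 (-(2 * a)))
      (rs 13 (-(2 * b))) (rs 13 (-c)) (cdx6 13 11 PT13 a b c B m).q0
      (cdx6 13 11 PT13 a b c B m).q1 (cdx6 13 11 PT13 a b c B m).q2 (cdx6 13 11 PT13 a b c B m).q3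
      (fun hA hB =>
        (Nat.sub C (Nat.land (Nat.add
          (hA (cdx6 7 5 PT7 a b c B m).m (cdx6 7 5 PT7 a b c B m).q0 (cdx6 7 5 PT7 a b c B m).q1
            (cdx6 7 5 PT7 a b c B m).q2)
          (hB (cdx6 7 5 PT7 a b c B m).m2 (cdx6 7 5 PT7 a b c B m).q3)) mk)).testBit
            (32 * i + 18) = true) := by
  rw [fsum6_eq] at hrel
  set D1 := cdx6 13 11 PT13 a b c B m with hD1
  set D2 := cdx6 7 5 PT7 a b c B m with hD2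
  set D3 := cdx6 5 3 PT5 a b c B m with hD3
  have hD3Z : D3 ∈ Z := List.mem_of_getElem? hi
  have e1 : rs 13 1 = 1 := by decide
  have e2 : rs 7 1 = 1 := by decide
  have e3 : rs 5 1 = 1 := by decide
  rw [e1, e2, e3, RB.h21] at hrel
  -- residues
  have s1 : D2.m < 7 := by rw [hD2]; exact rs_lt (p := 7) m
  have s2 : D2.m2 < 7 := by rw [hD2]; exact rs_lt (p := 7) (y2 a B m)
  -- the vectors
  unfold ctx6 HA HB6
  have b0 : ∀ D ∈ Z, om (fun D => dig t3 D.m) CD.q0 10 (nthY rows D1.q0) 0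
      (Nat.mod (Nat.mul (dig t1 D1.m) (rs 13 (-B))) 13) 0 D2.q0 D ≤ 1728 := fun D hD =>
    om_le' (mod13_le _) (LG.b0 D hD) (by
      rw [nthY_eq]; exact (RB.hrw _ _ (by have := LG.q0 D hD; omega)).2)
  have b1 : ∀ D ∈ Z, om (fun _ => dig t3 1) CD.q1 10 (nthX rows D1.q1) (nthY rows D1.q1)
      (Nat.mod (Nat.mul 6 (dig t1 1)) 13) (Nat.mod (Nat.mul (dig t1 1) (rs 13 (-(2 * a)))) 13)
      D2.q1 D ≤ 3456 := fun D hD =>
    om_le (mod13_le _) (mod13_le _) LG.b1 (by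
      rw [nthX_eq]; exact (RB.hrw _ _ (by have := LG.q1 D hD; omega)).1) (by
      rw [nthY_eq]; exact (RB.hrw _ _ (by have := LG.q1 D hD; omega)).2)
  have b2 : ∀ D ∈ Z, om (fun D => dig t3 D.m) CD.q2 10 (nthX rows D1.q2) (nthY rows D1.q2)
      (Nat.mod (Nat.mul 6 (dig t1 D1.m)) 13)
      (Nat.mod (Nat.mul (dig t1 D1.m) (rs 13 (-(2 * b)))) 13) D2.q2 D ≤ 3456 := fun D hD =>
    om_le (mod13_le _) (mod13_le _) (LG.b0 D hD) (by
      rw [nthX_eq]; exact (RB.hrw _ _ (by have := LG.q2 D hD; omega)).1) (by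
      rw [nthY_eq]; exact (RB.hrw _ _ (by have := LG.q2 D hD; omega)).2)
  have b3 : ∀ D ∈ Z, om (fun D => dig t3 D.m2) CD.q3 10 (nthX rows D1.q3) (nthY rows D1.q3)
      (Nat.mod (Nat.mul 6 (dig t1 D1.m2)) 13)
      (Nat.mod (Nat.mul (dig t1 D1.m2) (rs 13 (-c))) 13) D2.q3 D ≤ 3456 := fun D hD =>
    om_le (mod13_le _) (mod13_le _) (LG.b3 D hD) (by
      rw [nthX_eq]; exact (RB.hrw _ _ (by have := LG.q3 D hD; omega)).1) (by
      rw [nthY_eq]; exact (RB.hrw _ _ (by have := LG.q3 D hD; omega)).2)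
  have w0 := Wx_eq LG.g0 LC.hm 10 (nthY rows D1.q0)
    (Nat.mod (Nat.mul (dig t1 D1.m) (rs 13 (-B))) 13) D2.q0 (fun D hD => by
      have := b0 D hD; omega)
  have w1 := Wf_eq LG.g1 LC.hm 10 (nthX rows D1.q1) (nthY rows D1.q1)
    (Nat.mod (Nat.mul 6 (dig t1 1)) 13) (Nat.mod (Nat.mul (dig t1 1) (rs 13 (-(2 * a)))) 13)
    D2.q1 (fun D hD => by have := b1 D hD; omega)
  have w2 := Wf_eq LG.g2 LC.hm 10 (nthX rows D1.q2) (nthY rows D1.q2)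
    (Nat.mod (Nat.mul 6 (dig t1 D1.m)) 13)
    (Nat.mod (Nat.mul (dig t1 D1.m) (rs 13 (-(2 * b)))) 13) D2.q2 (fun D hD => by
      have := b2 D hD; omega)
  have w3 := Wf_eq LG.g3 LC.hm 10 (nthX rows D1.q3) (nthY rows D1.q3)
    (Nat.mod (Nat.mul 6 (dig t1 D1.m2)) 13)
    (Nat.mod (Nat.mul (dig t1 D1.m2) (rs 13 (-c))) 13) D2.q3 (fun D hD => by
      have := b3 D hD; omega)
  refine bit_of (f := fun D => dig t2 D2.m * (20165 * om (fun D => dig t3 D.m) CD.q0 10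
        (nthY rows D1.q0) 0 (Nat.mod (Nat.mul (dig t1 D1.m) (rs 13 (-B))) 13) 0 D2.q0 D % 2 ^ 18 +
      20165 * om (fun D => dig t3 D.m) CD.q2 10 (nthX rows D1.q2) (nthY rows D1.q2)
      (Nat.mod (Nat.mul 6 (dig t1 D1.m)) 13)
      (Nat.mod (Nat.mul (dig t1 D1.m) (rs 13 (-(2 * b)))) 13) D2.q2 D % 2 ^ 18) +
      20165 * om (fun _ => dig t3 1) CD.q1 10 (nthX rows D1.q1) (nthY rows D1.q1)
      (Nat.mod (Nat.mul 6 (dig t1 1)) 13) (Nat.mod (Nat.mul (dig t1 1) (rs 13 (-(2 * a)))) 13)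
      D2.q1 D % 2 ^ 18 +
      dig t2 D2.m2 * (20165 * om (fun D => dig t3 D.m2) CD.q3 10 (nthX rows D1.q3)
        (nthY rows D1.q3) (Nat.mod (Nat.mul 6 (dig t1 D1.m2)) 13)
        (Nat.mod (Nat.mul (dig t1 D1.m2) (rs 13 (-c))) 13) D2.q3 D % 2 ^ 18)) ?_ LC.hm LC.hC ?_ hi ?_
  · change (dig t2 D2.m * (Wx mk G0 (8 * 10) _ _ _ + Wf mk G2 (8 * 10) _ _ _ _ _) +
      Wf mk G1 (8 * 10) _ _ _ _ _) +
      dig t2 D2.m2 * Wf mk G3 (8 * 10) _ _ _ _ _ = _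
    rw [packL_add, packL_add, packL_mul, packL_add, packL_mul]
    exact congrArg₂ _ (congrArg₂ _ (congrArg₂ _ rfl (congrArg₂ _ w0 w2)) w1)
      (congrArg₂ _ rfl w3)
  · intro D _
    have u0 := RB.ht2 _ s1
    have u3 := RB.ht2 _ s2
    have hx : ∀ x : ℕ, 20165 * x % 2 ^ 18 ≤ 262143 := by intro x; omega
    calc _ ≤ 12 * (262143 + 262143) + 262143 + 12 * 262143 :=
          Nat.add_le_add (Nat.add_le_add (Nat.mul_le_mul u0 (Nat.add_le_add (hx _) (hx _))) (hx _))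
            (Nat.mul_le_mul u3 (hx _))
      _ < _ := by norm_num
  · rw [coreT6]
    apply test13
    · have u0 := RB.ht2 _ s1
      have u3 := RB.ht2 _ s2
      calc _ ≤ 12 * (1728 + 3456) + 3456 + 12 * 3456 :=
          Nat.add_le_add (Nat.add_le_add (Nat.mul_le_mul u0 (Nat.add_le_add (b0 _ hD3Z)
            (b2 _ hD3Z))) (b1 _ hD3Z)) (Nat.mul_le_mul u3 (b3 _ hD3Z))
        _ < _ := by norm_num
    · have key := core6 (dig t2 D2.m) (dig t2 D2.m2) (dig t1 D1.m) (dig t1 1)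
        (dig t1 D1.m2) (dig t3 D3.m) (dig t3 1) (dig t3 D3.m2)
        (rs 13 (-B)) (rs 13 (-(2 * a))) (rs 13 (-(2 * b))) (rs 13 (-c))
        _ _ _ _ _ _ _ _ hrel
      unfold tX tY at key
      simp only [om, nthX_eq, nthY_eq, mul_comm (10 : ℕ)]
      have z0 : ∀ k, dig 0 k = 0 := by
        intro k
        rw [dig_eq, Nat.zero_div, Nat.zero_mod]
      simp only [z0]
      exact key

end Rel5

/-! ### relations without third component -/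

lemma core67 (s0 s1 s3 p0 p1 p3 a0 a1 a2 a3 X0 Y0 X1 Y1 X2 Y2 X3 Y3 : ℕ)
    (h : (s0 * p0 * 1 * (0 * X0 + a0 * Y0) + (s1 * p1 * 1 * (6 * X1 + a1 * Y1) +
      (s0 * p0 * 1 * (6 * X2 + a2 * Y2) + (s3 * p3 * 1 * (6 * X3 + a3 * Y3) + 0)))) % 13 = 0) :
    13 ∣ (s0 * a0 % 13 * Y0 + 0 * 0) * p0 + ((6 * s1 % 13 * X1 + s1 * a1 % 13 * Y1) * p1 +
      ((6 * s0 % 13 * X2 + s0 * a2 % 13 * Y2) * p0 +
        (6 * s3 % 13 * X3 + s3 * a3 % 13 * Y3) * p3)) := by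
  rw [← Nat.dvd_iff_mod_eq_zero, ← ZMod.natCast_eq_zero_iff] at h
  rw [← ZMod.natCast_eq_zero_iff]
  push_cast at h ⊢
  simp only [ZMod.natCast_mod]
  push_cast
  linear_combination h

lemma coreT67 (w0 w1 w2 w3 : ℕ) :
    (20165 * w0 % 2 ^ 18 + (20165 * w1 % 2 ^ 18 + (20165 * w2 % 2 ^ 18 + 20165 * w3 % 2 ^ 18))) %
      2 ^ 18 = 20165 * (w0 + (w1 + (w2 + w3))) % 2 ^ 18 := by
  rw [← ZMod.natCast_eq_natCast_iff']
  have key : ∀ x : ℕ, (((20165 * x % 2 ^ 18 : ℕ)) : ZMod (2 ^ 18)) = (20165 : ZMod (2 ^ 18)) * x := by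
    intro x
    rw [ZMod.natCast_mod]
    push_cast
    rfl
  simp only [Nat.cast_add, Nat.cast_mul, key]
  push_cast
  ring

section Rel7

variable {a b c B m : ℤ} {t1 t2 t3 : ℕ} {rows : List (ℕ × ℕ)} {Z : List CD} {mk C F i : ℕ}
  {G0 G1 G2 G3 : ℕ → ℕ}

/-- a lane which satisfies the relation survives -/
theorem rel67_bit
    (hrel : ((J6 a b c B m).map (fval 13 7 1 13 11 5 0 PT13 PT7 PT1 t1 t2 t3 rows 1)).sum % 13 = 0)
    (h3 : dig t3 0 = 1) (RB : RowB rows 21) (LC : LaneC Z mk C F)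
    (LG : LaneG6 Z t2 21 G0 G1 G2 G3) (hi : Z[i]? = some (cdx6 7 5 PT7 a b c B m)) :
    (Z6 mk C F t1 rows G0 G1 G2 G3 (cdx6 13 11 PT13 a b c B m).m
      (cdx6 13 11 PT13 a b c B m).m2 (rs 13 (-B)) (rs 13 (-(2 * a)))
      (rs 13 (-(2 * b))) (rs 13 (-c)) (cdx6 13 11 PT13 a b c B m).q0
      (cdx6 13 11 PT13 a b c B m).q1 (cdx6 13 11 PT13 a b c B m).q2
      (cdx6 13 11 PT13 a b c B m).q3).testBit (32 * i + 18) = true := by
  rw [fsum6_eq] at hrel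
  have c0 : (cdx6 1 0 PT1 a b c B m).m = 0 := rs1 _
  have c2 : (cdx6 1 0 PT1 a b c B m).m2 = 0 := rs1 _
  have cp : pos 1 0 PT1 0 0 0 = 0 := by decide +kernel
  have d0 : (cdx6 1 0 PT1 a b c B m).q0 = 0 := by
    unfold cdx6; simp only [rs1]; exact cp
  have d1 : (cdx6 1 0 PT1 a b c B m).q1 = 0 := by
    unfold cdx6; simp only [rs1]; exact cp
  have d2 : (cdx6 1 0 PT1 a b c B m).q2 = 0 := by
    unfold cdx6; simp only [rs1]; exact cp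
  have d3 : (cdx6 1 0 PT1 a b c B m).q3 = 0 := by
    unfold cdx6; simp only [rs1]; exact cp
  rw [c0, c2, d0, d1, d2, d3, rs1 1, h3] at hrel
  set D1 := cdx6 13 11 PT13 a b c B m with hD1
  set D2 := cdx6 7 5 PT7 a b c B m with hD2
  have hD2Z : D2 ∈ Z := List.mem_of_getElem? hi
  have e1 : rs 13 1 = 1 := by decide
  have e2 : rs 7 1 = 1 := by decide
  rw [e1, e2] at hrel
  have b0 : ∀ D ∈ Z, om (fun D => dig t2 D.m) CD.q0 0 (nthY rows D1.q0) 0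
      (Nat.mod (Nat.mul (dig t1 D1.m) (rs 13 (-B))) 13) 0 0 D ≤ 1728 := fun D hD =>
    om_le' (mod13_le _) (LG.b0 D hD) (by
      rw [nthY_eq]; exact (RB _ _ (by have := LG.q0 D hD; omega)).2)
  have b1 : ∀ D ∈ Z, om (fun _ => dig t2 1) CD.q1 0 (nthX rows D1.q1) (nthY rows D1.q1)
      (Nat.mod (Nat.mul 6 (dig t1 1)) 13) (Nat.mod (Nat.mul (dig t1 1) (rs 13 (-(2 * a)))) 13)
      0 D ≤ 3456 := fun D hD =>
    om_le (mod13_le _) (mod13_le _) LG.b1 (by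
      rw [nthX_eq]; exact (RB _ _ (by have := LG.q1 D hD; omega)).1) (by
      rw [nthY_eq]; exact (RB _ _ (by have := LG.q1 D hD; omega)).2)
  have b2 : ∀ D ∈ Z, om (fun D => dig t2 D.m) CD.q2 0 (nthX rows D1.q2) (nthY rows D1.q2)
      (Nat.mod (Nat.mul 6 (dig t1 D1.m)) 13)
      (Nat.mod (Nat.mul (dig t1 D1.m) (rs 13 (-(2 * b)))) 13) 0 D ≤ 3456 := fun D hD =>
    om_le (mod13_le _) (mod13_le _) (LG.b0 D hD) (by
      rw [nthX_eq]; exact (RB _ _ (by have := LG.q2 D hD; omega)).1) (by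
      rw [nthY_eq]; exact (RB _ _ (by have := LG.q2 D hD; omega)).2)
  have b3 : ∀ D ∈ Z, om (fun D => dig t2 D.m2) CD.q3 0 (nthX rows D1.q3) (nthY rows D1.q3)
      (Nat.mod (Nat.mul 6 (dig t1 D1.m2)) 13)
      (Nat.mod (Nat.mul (dig t1 D1.m2) (rs 13 (-c))) 13) 0 D ≤ 3456 := fun D hD =>
    om_le (mod13_le _) (mod13_le _) (LG.b3 D hD) (by
      rw [nthX_eq]; exact (RB _ _ (by have := LG.q3 D hD; omega)).1) (by
      rw [nthY_eq]; exact (RB _ _ (by have := LG.q3 D hD; omega)).2)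
  have w0 := Wx_eq LG.g0 LC.hm 0 (nthY rows D1.q0)
    (Nat.mod (Nat.mul (dig t1 D1.m) (rs 13 (-B))) 13) 0 (fun D hD => by
      have := b0 D hD; omega)
  have w1 := Wf_eq LG.g1 LC.hm 0 (nthX rows D1.q1) (nthY rows D1.q1)
    (Nat.mod (Nat.mul 6 (dig t1 1)) 13) (Nat.mod (Nat.mul (dig t1 1) (rs 13 (-(2 * a)))) 13)
    0 (fun D hD => by have := b1 D hD; omega)
  have w2 := Wf_eq LG.g2 LC.hm 0 (nthX rows D1.q2) (nthY rows D1.q2)
    (Nat.mod (Nat.mul 6 (dig t1 D1.m)) 13)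
    (Nat.mod (Nat.mul (dig t1 D1.m) (rs 13 (-(2 * b)))) 13) 0 (fun D hD => by
      have := b2 D hD; omega)
  have w3 := Wf_eq LG.g3 LC.hm 0 (nthX rows D1.q3) (nthY rows D1.q3)
    (Nat.mod (Nat.mul 6 (dig t1 D1.m2)) 13)
    (Nat.mod (Nat.mul (dig t1 D1.m2) (rs 13 (-c))) 13) 0 (fun D hD => by
      have := b3 D hD; omega)
  unfold Z6
  have hlt : i < Z.length := by
    by_contra hcon
    rw [List.getElem?_eq_none (by omega)] at hi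
    exact absurd hi (by simp)
  have hF : F.testBit (32 * i + 18) = true := by
    rw [LC.hF]
    exact testBit_packL (w := 32) (s := 18) (g := fun _ => 2 ^ 18) (fun _ _ => by norm_num) hlt rfl
  refine Eq.trans (Nat.testBit_land _ _ _) (Bool.and_eq_true_iff.2 ⟨hF, ?_⟩)
  refine bit_of (f := fun D => 20165 * om (fun D => dig t2 D.m) CD.q0 0
        (nthY rows D1.q0) 0 (Nat.mod (Nat.mul (dig t1 D1.m) (rs 13 (-B))) 13) 0 0 D % 2 ^ 18 +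
      (20165 * om (fun _ => dig t2 1) CD.q1 0 (nthX rows D1.q1) (nthY rows D1.q1)
      (Nat.mod (Nat.mul 6 (dig t1 1)) 13) (Nat.mod (Nat.mul (dig t1 1) (rs 13 (-(2 * a)))) 13)
      0 D % 2 ^ 18 +
      (20165 * om (fun D => dig t2 D.m) CD.q2 0 (nthX rows D1.q2) (nthY rows D1.q2)
      (Nat.mod (Nat.mul 6 (dig t1 D1.m)) 13)
      (Nat.mod (Nat.mul (dig t1 D1.m) (rs 13 (-(2 * b)))) 13) 0 D % 2 ^ 18 +
      20165 * om (fun D => dig t2 D.m2) CD.q3 0 (nthX rows D1.q3)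
        (nthY rows D1.q3) (Nat.mod (Nat.mul 6 (dig t1 D1.m2)) 13)
        (Nat.mod (Nat.mul (dig t1 D1.m2) (rs 13 (-c))) 13) 0 D % 2 ^ 18))) ?_ LC.hm LC.hC ?_ hi ?_
  · change Wx mk G0 (8 * 0) _ _ 0 + (Wf mk G1 (8 * 0) _ _ _ _ 0 + (Wf mk G2 (8 * 0) _ _ _ _ 0 +
      Wf mk G3 (8 * 0) _ _ _ _ 0)) = _
    rw [packL_add, packL_add, packL_add]
    exact congrArg₂ _ w0 (congrArg₂ _ w1 (congrArg₂ _ w2 w3))
  · intro D _
    have hx : ∀ x : ℕ, 20165 * x % 2 ^ 18 ≤ 262143 := by intro x; omega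
    calc _ ≤ 262143 + (262143 + (262143 + 262143)) :=
          Nat.add_le_add (hx _) (Nat.add_le_add (hx _) (Nat.add_le_add (hx _) (hx _)))
      _ < _ := by norm_num
  · rw [coreT67]
    apply test13
    · calc _ ≤ 1728 + (3456 + (3456 + 3456)) :=
          Nat.add_le_add (b0 _ hD2Z) (Nat.add_le_add (b1 _ hD2Z) (Nat.add_le_add (b2 _ hD2Z)
            (b3 _ hD2Z)))
        _ < _ := by norm_num
    · have key := core67 (dig t1 D1.m) (dig t1 1) (dig t1 D1.m2) (dig t2 D2.m)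
        (dig t2 1) (dig t2 D2.m2)
        (rs 13 (-B)) (rs 13 (-(2 * a))) (rs 13 (-(2 * b))) (rs 13 (-c))
        _ _ _ _ _ _ _ _ hrel
      unfold tX tY at key
      simp only [om, nthX_eq, nthY_eq, mul_zero, zero_add]
      have z0 : ∀ k, dig 0 k = 0 := by
        intro k
        rw [dig_eq, Nat.zero_div, Nat.zero_mod]
      simp only [z0]
      simp only [mul_one, add_zero, mul_zero] at key ⊢
      exact key

end Rel7

end Pool.Agent.PSX.N6
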