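import Pool.Agent.RQM.C128
import Pool.Agent.PSX.N6a

/-!
Period six, nested search modulo `13`, `7`, `5`: classes, the test of a class modulo `13`, loops
over the classes modulo `13`.
-/

namespace Pool.Agent.PSX.N6

open Pool.Agent.Lib_helper5 Pool.Agent.Lib_helper5.LK Pool.Agent.Lib_helper5.TB
  Pool.Agent.Lib_helper5.Lane Pool.Agent.LibH4 Pool.Agent.LibH4.Ker Pool.Agent.LibH4.T6
  Pool.Agent.LibH4.KF Pool.Agent.PSX.EL
open Pool.Agent.LibH4.S7 (y2 r2 y3 r3 u3 v3 ng ng_eq ng2_eq u3_eq v3_eq)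
open Pool.Agent.Lib_helper5.P7 (CD Wx Wf HA st Gath LaneC RowB RelB om om_le om_le' mod13_le
  nthX nthY nthX_eq nthY_eq Wx_eq Wf_eq bit_of test13 rs1 dig_eq enB enB_spec ent ent_eq finE
  fndCD fndCD_spec bndCk bndCk_spec flat_get rsn_neg_one bt beqt lpA lpA_spec)
open Pool.Agent.Lib_helper84.P7 (GR G13 GR_split rs_neg13)

/-! ### classes -/

/-- the data of a class, kernel friendly; the value is `true` unless `A m B (n-1)` holds -/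
noncomputable def withD6 (n ex PT : ℕ) (A : ℕ → ℕ → ℕ → Bool) (a b B m : ℕ) (k : CD → Bool) :
    Bool :=
  strict (Nat.sub n (nat_lit 1)) fun n1 =>
  @Bool.rec (fun _ => Bool) true
  (strict (Nat.mod (Nat.add (Nat.add (nat_lit 1) (Nat.mul B a))
    (Nat.mul n1 (Nat.mul m (Nat.mul a a)))) n) fun m2 =>
  strict (Nat.mod (Nat.add (Nat.mul (nat_lit 2) (Nat.mul a m)) (Nat.mul n1 B)) n) fun R2 =>
  strict (Nat.mod (Nat.add (Nat.add m (Nat.mul R2 b))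
    (Nat.mul n1 (Nat.mul m2 (Nat.mul b b)))) n) fun m3 =>
  strict (Nat.mod (Nat.add (Nat.mul (nat_lit 2) (Nat.mul b m2)) (Nat.mul n1 R2)) n) fun R3 =>
  strict (iv n ex m3) fun i =>
  @Bool.rec (fun _ => Bool) false
  (strict (Nat.mod (Nat.mul R3 i) n) fun c =>
  strict (Nat.mod (Nat.mul n1 m3) n) fun s3 =>
  strict (pos n ex PT m B (Nat.mod n1 n)) fun q0 =>
  strict (pos n ex PT (Nat.mod (nat_lit 1) n) B (Nat.mod (Nat.mul n1 m) n)) fun q1 =>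
  strict (pos n ex PT m R2 (Nat.mod (Nat.mul n1 m2) n)) fun q2 =>
  strict (pos n ex PT m2 R3 s3) fun q3 =>
    k ⟨a, b, c, B, m, m2, m3, q0, q1, q2, q3, nat_lit 0⟩)
    (Nat.beq (Nat.mod (Nat.mul m3 i) n) (nat_lit 1))) (A m B (Nat.mod n1 n))

lemma bf {x y : Bool} (h : @Bool.rec (fun _ => Bool) false x y = true) : y = true ∧ x = true := by
  cases y with
  | true => exact ⟨rfl, h⟩
  | false => exact absurd h (by simp)

lemma c_eq {n : ℕ} [NeZero n] {a b c B m : ℤ} (hcl : Cl6 a b c B m) {i : ℕ}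
    (hi : rs n (y3 a b B m) * i % n = 1) : rs n (r3 a b B m) * i % n = rs n c := by
  apply rs_of
  have h1 : ((rs n (y3 a b B m) * i : ℕ) : ZMod n) = 1 := by
    have h2 := congrArg (fun x : ℕ => (x : ZMod n)) hi
    simp only [ZMod.natCast_mod, Nat.cast_one] at h2
    exact h2
  have h3 : ((r3 a b B m : ℤ) : ZMod n) = (c : ZMod n) * ((y3 a b B m : ℤ) : ZMod n) := by
    rw [← hcl]; push_cast; rfl
  push_cast at h1 ⊢
  rw [rs_cast] at h1 ⊢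
  rw [h3]
  linear_combination (c : ZMod n) * h1

theorem withD6_spec {n : ℕ} [NeZero n] {ex PT : ℕ} {A : ℕ → ℕ → ℕ → Bool} {a b c B m : ℤ}
    {k : CD → Bool} (hcl : Cl6 a b c B m) (hA : A (rs n m) (rs n B) (rs n (-1)) = true)
    (h : withD6 n ex PT A (rs n a) (rs n b) (rs n B) (rs n m) k = true) :
    k (cdx6 n ex PT a b c B m) = true := by
  have g1 : Nat.mod (Nat.sub n (nat_lit 1)) n = rs n (-1) := rsn_neg_one
  have g2 : Nat.mod (Nat.add (Nat.add (nat_lit 1) (Nat.mul (rs n B) (rs n a)))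
      (Nat.mul (Nat.sub n (nat_lit 1)) (Nat.mul (rs n m) (Nat.mul (rs n a) (rs n a))))) n =
      rs n (y2 a B m) := by
    change (1 + rs n B * rs n a + (n - 1) * (rs n m * (rs n a * rs n a))) % n = _
    apply rs_of; push_cast; simp only [rs_cast, K5.cast_pred]; unfold y2; push_cast; ring
  have g3 : Nat.mod (Nat.add (Nat.mul (nat_lit 2) (Nat.mul (rs n a) (rs n m)))
      (Nat.mul (Nat.sub n (nat_lit 1)) (rs n B))) n = rs n (r2 a B m) := by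
    change (2 * (rs n a * rs n m) + (n - 1) * rs n B) % n = _
    apply rs_of; push_cast; simp only [rs_cast, K5.cast_pred]; unfold r2; push_cast; ring
  have g4 : Nat.mod (Nat.add (Nat.add (rs n m) (Nat.mul (rs n (r2 a B m)) (rs n b)))
      (Nat.mul (Nat.sub n (nat_lit 1)) (Nat.mul (rs n (y2 a B m)) (Nat.mul (rs n b) (rs n b))))) n =
      rs n (y3 a b B m) := by
    change (rs n m + rs n (r2 a B m) * rs n b + (n - 1) * (rs n (y2 a B m) *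
      (rs n b * rs n b))) % n = _
    apply rs_of; push_cast; simp only [rs_cast, K5.cast_pred]; unfold y3; push_cast; ring
  have g5 : Nat.mod (Nat.add (Nat.mul (nat_lit 2) (Nat.mul (rs n b) (rs n (y2 a B m))))
      (Nat.mul (Nat.sub n (nat_lit 1)) (rs n (r2 a B m)))) n = rs n (r3 a b B m) := by
    change (2 * (rs n b * rs n (y2 a B m)) + (n - 1) * rs n (r2 a B m)) % n = _
    apply rs_of; push_cast; simp only [rs_cast, K5.cast_pred]; unfold r3; push_cast; ring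
  have g7 : ∀ x : ℤ, Nat.mod (Nat.mul (Nat.sub n (nat_lit 1)) (rs n x)) n = rs n (-x) := by
    intro x
    change (n - 1) * rs n x % n = _
    apply rs_of; push_cast; simp only [rs_cast, K5.cast_pred]; ring
  have g8 : Nat.mod (nat_lit 1) n = rs n 1 := rs_one'
  unfold withD6 at h
  simp only [strict_eq] at h
  rw [g1, g2, g3, g4, g5, g7, g7, g7, g8, hA] at h
  obtain ⟨h1, h2⟩ := bf h
  have h3 := Nat.eq_of_beq_eq_true h1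
  have h4 : Nat.mod (Nat.mul (rs n (r3 a b B m)) (iv n ex (rs n (y3 a b B m)))) n = rs n c :=
    c_eq hcl h3
  rw [h4] at h2
  exact h2

/-- check that all classes are found -/
noncomputable def complCk6 (n ex PT : ℕ) (A : ℕ → ℕ → ℕ → Bool) (bl nb IX : ℕ)
    (LL : List (List CD)) : Bool :=
  allR (fun a => allR (fun b => allR (fun B => allR (fun m =>
    withD6 n ex PT A a b B m (fndCD n bl nb IX LL)) n) n) n) n

theorem complCk6_spec {n : ℕ} [NeZero n] {ex PT : ℕ} {A : ℕ → ℕ → ℕ → Bool} {bl nb IX : ℕ}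
    {LL : List (List CD)} (h : complCk6 n ex PT A bl nb IX LL = true) (hn : LL.length = nb)
    (hl : ∀ blk ∈ LL, blk.length = bl) {a b c B m : ℤ} (hcl : Cl6 a b c B m)
    (hA : A (rs n m) (rs n B) (rs n (-1)) = true) :
    ∃ (bi : ℕ) (blk : List CD) (j : ℕ), LL[bi]? = some blk ∧
      blk[j]? = some (cdx6 n ex PT a b c B m) := by
  have h1 := allR_spec (allR_spec (allR_spec (allR_spec h (rs n a) (rs_lt a)) (rs n b)
    (rs_lt b)) (rs n B) (rs_lt B)) (rs n m) (rs_lt m)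
  exact fndCD_spec (withD6_spec hcl hA h1) hn hl

/-! ### the test of a class modulo `13` -/

/-- test of a class modulo `13` -/
noncomputable def clsG6 (tb sh w7 f7 w5 f5 mk5 cc5 ff5 msk5 mk7 cc7 ff7 msk7 : ℕ)
    (L5 L7 : List (List CD))
    (t1 : ℕ) (ro : List (ℕ × ℕ)) (G0 G1 G2 G3 : ℕ → ℕ)
    (t1a t2a : ℕ) (roa : List (ℕ × ℕ)) (Ga0 Ga1 Ga2 Ga3 : ℕ → ℕ)
    (t1b t2b : ℕ) (rob : List (ℕ × ℕ)) (Gb0 Gb1 Gb2 Gb3 : ℕ → ℕ)
    (t1c t2c : ℕ) (roc : List (ℕ × ℕ)) (Gc0 Gc1 Gc2 Gc3 : ℕ → ℕ)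
    (t1d t2d : ℕ) (rod : List (ℕ × ℕ)) (Gd0 Gd1 Gd2 Gd3 : ℕ → ℕ)
    (t1e t2e : ℕ) (roe : List (ℕ × ℕ)) (Ge0 Ge1 Ge2 Ge3 : ℕ → ℕ)
    (leaf : CD → CD → Bool) (m m2 al0 al1 al2 al3 q0 q1 q2 q3 : ℕ) : Bool :=
  ctx6 mk5 sh t1a t2a roa Ga0 Ga1 Ga2 Ga3 m m2 al0 al1 al2 al3 q0 q1 q2 q3 fun Aa Ba =>
  ctx6 mk5 sh t1b t2b rob Gb0 Gb1 Gb2 Gb3 m m2 al0 al1 al2 al3 q0 q1 q2 q3 fun Ab Bb =>
  ctx6 mk5 sh t1c t2c roc Gc0 Gc1 Gc2 Gc3 m m2 al0 al1 al2 al3 q0 q1 q2 q3 fun Ac Bc =>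
  ctx6 mk5 sh t1d t2d rod Gd0 Gd1 Gd2 Gd3 m m2 al0 al1 al2 al3 q0 q1 q2 q3 fun Ad Bd =>
  ctx6 mk5 sh t1e t2e roe Ge0 Ge1 Ge2 Ge3 m m2 al0 al1 al2 al3 q0 q1 q2 q3 fun Ae Be =>
  enB tb w7 msk7 f7
    (ent (stg6 mk5 cc5 Aa Ba (stg6 mk5 cc5 Ab Bb (stg6 mk5 cc5 Ac Bc (stg6 mk5 cc5 Ad Bd
      (stg6 mk5 cc5 Ae Be (finE tb w5 msk5 f5 L5 leaf)))))) ff5) L7
    (Z6 mk7 cc7 ff7 t1 ro G0 G1 G2 G3 m m2 al0 al1 al2 al3 q0 q1 q2 q3)

section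

variable {tb sh w7 f7 w5 f5 mk5 cc5 ff5 msk5 mk7 cc7 ff7 msk7 : ℕ} {L5 L7 : List (List CD)}
    {t1 : ℕ} {ro : List (ℕ × ℕ)} {G0 G1 G2 G3 : ℕ → ℕ}
    {t1a t2a : ℕ} {roa : List (ℕ × ℕ)} {Ga0 Ga1 Ga2 Ga3 : ℕ → ℕ}
    {t1b t2b : ℕ} {rob : List (ℕ × ℕ)} {Gb0 Gb1 Gb2 Gb3 : ℕ → ℕ}
    {t1c t2c : ℕ} {roc : List (ℕ × ℕ)} {Gc0 Gc1 Gc2 Gc3 : ℕ → ℕ}
    {t1d t2d : ℕ} {rod : List (ℕ × ℕ)} {Gd0 Gd1 Gd2 Gd3 : ℕ → ℕ}
    {t1e t2e : ℕ} {roe : List (ℕ × ℕ)} {Ge0 Ge1 Ge2 Ge3 : ℕ → ℕ}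
    {leaf : CD → CD → Bool} {m m2 al0 al1 al2 al3 q0 q1 q2 q3 : ℕ}

theorem clsG6_spec
    (h : clsG6 tb sh w7 f7 w5 f5 mk5 cc5 ff5 msk5 mk7 cc7 ff7 msk7 L5 L7 t1 ro G0 G1 G2 G3
      t1a t2a roa Ga0 Ga1 Ga2 Ga3
      t1b t2b rob Gb0 Gb1 Gb2 Gb3
      t1c t2c roc Gc0 Gc1 Gc2 Gc3
      t1d t2d rod Gd0 Gd1 Gd2 Gd3
      t1e t2e roe Ge0 Ge1 Ge2 Ge3
      leaf m m2 al0 al1 al2 al3 q0 q1 q2 q3 = true)
    (htb : ∀ j, 32 * j < w7 → tb / 2 ^ (32 * j + 18) % 256 = j) (hw : w5 ≤ w7)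
    (hm7 : msk7 = 2 ^ w7 - 1) (hl7 : ∀ blk ∈ L7, 32 * blk.length = w7)
    (hm5 : msk5 = 2 ^ w5 - 1) (hl5 : ∀ blk ∈ L5, 32 * blk.length = w5)
    {b7 j7 b5 j5 p7 p5 : ℕ} {k7 k5 : List CD} {D7 D5 : CD}
    (hb7 : L7[b7]? = some k7) (hj7 : k7[j7]? = some D7)
    (hb5 : L5[b5]? = some k5) (hj5 : k5[j5]? = some D5)
    (hp7 : w7 * b7 + (32 * j7 + 18) = p7) (hp5 : w5 * b5 + (32 * j5 + 18) = p5)
    (z7 : (Z6 mk7 cc7 ff7 t1 ro G0 G1 G2 G3 m m2 al0 al1 al2 al3 q0 q1 q2 q3).testBit p7 = true)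
    (hff : ff5.testBit p5 = true)
    (ka : ctx6 mk5 sh t1a t2a roa Ga0 Ga1 Ga2 Ga3 m m2 al0 al1 al2 al3 q0 q1 q2 q3 (fun hA hB =>
      (Nat.sub cc5 (Nat.land (Nat.add (hA D7.m D7.q0 D7.q1 D7.q2) (hB D7.m2 D7.q3))
        mk5)).testBit p5 = true))
    (kb : ctx6 mk5 sh t1b t2b rob Gb0 Gb1 Gb2 Gb3 m m2 al0 al1 al2 al3 q0 q1 q2 q3 (fun hA hB =>
      (Nat.sub cc5 (Nat.land (Nat.add (hA D7.m D7.q0 D7.q1 D7.q2) (hB D7.m2 D7.q3))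
        mk5)).testBit p5 = true))
    (kc : ctx6 mk5 sh t1c t2c roc Gc0 Gc1 Gc2 Gc3 m m2 al0 al1 al2 al3 q0 q1 q2 q3 (fun hA hB =>
      (Nat.sub cc5 (Nat.land (Nat.add (hA D7.m D7.q0 D7.q1 D7.q2) (hB D7.m2 D7.q3))
        mk5)).testBit p5 = true))
    (kd : ctx6 mk5 sh t1d t2d rod Gd0 Gd1 Gd2 Gd3 m m2 al0 al1 al2 al3 q0 q1 q2 q3 (fun hA hB =>
      (Nat.sub cc5 (Nat.land (Nat.add (hA D7.m D7.q0 D7.q1 D7.q2) (hB D7.m2 D7.q3))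
        mk5)).testBit p5 = true))
    (ke : ctx6 mk5 sh t1e t2e roe Ge0 Ge1 Ge2 Ge3 m m2 al0 al1 al2 al3 q0 q1 q2 q3 (fun hA hB =>
      (Nat.sub cc5 (Nat.land (Nat.add (hA D7.m D7.q0 D7.q1 D7.q2) (hB D7.m2 D7.q3))
        mk5)).testBit p5 = true)) : leaf D7 D5 = true := by
  subst hp7
  subst hp5
  have h1 := enB_spec (k := _) h hm7 hl7 htb b7 k7 j7 D7 hb7 hj7 z7
  rw [ent_eq] at h1
  obtain ⟨Z1, h2, g1⟩ := stg6_spec h1 hff ka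
  obtain ⟨Z2, h3, g2⟩ := stg6_spec h2 g1 kb
  obtain ⟨Z3, h4, g3⟩ := stg6_spec h3 g2 kc
  obtain ⟨Z4, h5, g4⟩ := stg6_spec h4 g3 kd
  obtain ⟨Z5, h6, g5⟩ := stg6_spec h5 g4 ke
  exact enB_spec h6 hm5 hl5 (fun j hj => htb j (lt_of_lt_of_le hj hw)) b5 k5 j5 D5 hb5 hj5 g5

end

section

variable {tb w7 f7 w5 f5 mk5 cc5 ff5 msk5 mk7 cc7 ff7 msk7 : ℕ} {L5 L7 : List (List CD)}
    {t1 t2 t3 : ℕ} {ro : List (ℕ × ℕ)} {G0 G1 G2 G3 : ℕ → ℕ}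
    {t1a t2a t3a : ℕ} {roa : List (ℕ × ℕ)} {Ga0 Ga1 Ga2 Ga3 : ℕ → ℕ}
    {t1b t2b t3b : ℕ} {rob : List (ℕ × ℕ)} {Gb0 Gb1 Gb2 Gb3 : ℕ → ℕ}
    {t1c t2c t3c : ℕ} {roc : List (ℕ × ℕ)} {Gc0 Gc1 Gc2 Gc3 : ℕ → ℕ}
    {t1d t2d t3d : ℕ} {rod : List (ℕ × ℕ)} {Gd0 Gd1 Gd2 Gd3 : ℕ → ℕ}
    {t1e t2e t3e : ℕ} {roe : List (ℕ × ℕ)} {Ge0 Ge1 Ge2 Ge3 : ℕ → ℕ}
    {leaf : CD → CD → Bool}

/-- admissibility of a form of the cycle -/
lemma adP_of6 {Q : ℕ} {a b c B m : ℤ} (S : Sys6 Q a b c B m) {p : ℕ} [NeZero p] (hp : p.Prime)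
    (hp2 : p ≠ 2) (hQ : p ∣ Q) (j : Fm) (hj : j ∈ J6 a b c B m) :
    adP p (rs p j.P) (rs p j.R) (rs p j.S) = true :=
  adP6 S hp hp2 hQ _ _ _ (Dv_J6 a b c B m p j hj)

theorem clsG6_main {Q : ℕ} {a b c B m : ℤ} (S : Sys6 Q a b c B m) (hQ : 35 ∣ Q)
    (h : clsG6 tb 80 w7 f7 w5 f5 mk5 cc5 ff5 msk5 mk7 cc7 ff7 msk7 L5 L7 t1 ro G0 G1 G2 G3
      t1a t2a roa Ga0 Ga1 Ga2 Ga3
      t1b t2b rob Gb0 Gb1 Gb2 Gb3
      t1c t2c roc Gc0 Gc1 Gc2 Gc3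
      t1d t2d rod Gd0 Gd1 Gd2 Gd3
      t1e t2e roe Ge0 Ge1 Ge2 Ge3
      leaf (cdx6 13 11 PT13 a b c B m).m (cdx6 13 11 PT13 a b c B m).m2 (rs 13 (-B))
      (rs 13 (-(2 * a))) (rs 13 (-(2 * b))) (rs 13 (-c)) (cdx6 13 11 PT13 a b c B m).q0
      (cdx6 13 11 PT13 a b c B m).q1 (cdx6 13 11 PT13 a b c B m).q2
      (cdx6 13 11 PT13 a b c B m).q3 = true)
    (htb : ∀ j, 32 * j < w7 → tb / 2 ^ (32 * j + 18) % 256 = j) (hw : w5 ≤ w7)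
    (hm7 : msk7 = 2 ^ w7 - 1) (hm5 : msk5 = 2 ^ w5 - 1) {bl7 bl5 n7 n5 ix7 ix5 : ℕ}
    (hl7 : ∀ blk ∈ L7, blk.length = bl7) (hw7 : 32 * bl7 = w7)
    (hl5 : ∀ blk ∈ L5, blk.length = bl5) (hw5 : 32 * bl5 = w5)
    (hn7 : L7.length = n7) (hn5 : L5.length = n5)
    (ck7 : complCk6 7 5 PT7 (adP 7) bl7 n7 ix7 L7 = true)
    (ck5 : complCk6 5 3 PT5 (adP 5) bl5 n5 ix5 L5 = true)
    (bd7 : bndCk t2 21 L7 = true) (h3 : dig t3 0 = 1) (RB7 : RowB ro 21)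
    (LC7 : LaneC L7.flatten mk7 cc7 ff7) (LG7 : LaneG6 L7.flatten t2 21 G0 G1 G2 G3)
    (LC5 : LaneC L5.flatten mk5 cc5 ff5)
    (rel7 : ((J6 a b c B m).map (fval 13 7 1 13 11 5 0 PT13 PT7 PT1 t1 t2 t3 ro 1)).sum % 13 = 0)
    (LGa : LaneG6 L5.flatten t3a 10 Ga0 Ga1 Ga2 Ga3) (RBa : RelB 7 t2a roa 210)
    (rela : ((J6 a b c B m).map (fval 13 7 5 13 11 5 3 PT13 PT7 PT5 t1a t2a t3a roa 10)).sum % 13 = 0)
    (LGb : LaneG6 L5.flatten t3b 10 Gb0 Gb1 Gb2 Gb3) (RBb : RelB 7 t2b rob 210)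
    (relb : ((J6 a b c B m).map (fval 13 7 5 13 11 5 3 PT13 PT7 PT5 t1b t2b t3b rob 10)).sum % 13 = 0)
    (LGc : LaneG6 L5.flatten t3c 10 Gc0 Gc1 Gc2 Gc3) (RBc : RelB 7 t2c roc 210)
    (relc : ((J6 a b c B m).map (fval 13 7 5 13 11 5 3 PT13 PT7 PT5 t1c t2c t3c roc 10)).sum % 13 = 0)
    (LGd : LaneG6 L5.flatten t3d 10 Gd0 Gd1 Gd2 Gd3) (RBd : RelB 7 t2d rod 210)
    (reld : ((J6 a b c B m).map (fval 13 7 5 13 11 5 3 PT13 PT7 PT5 t1d t2d t3d rod 10)).sum % 13 = 0)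
    (LGe : LaneG6 L5.flatten t3e 10 Ge0 Ge1 Ge2 Ge3) (RBe : RelB 7 t2e roe 210)
    (rele : ((J6 a b c B m).map (fval 13 7 5 13 11 5 3 PT13 PT7 PT5 t1e t2e t3e roe 10)).sum % 13 = 0) :
    leaf (cdx6 7 5 PT7 a b c B m) (cdx6 5 3 PT5 a b c B m) = true := by
  have p7 : 7 ∣ Q := (by norm_num : 7 ∣ 35).trans hQ
  have p5 : 5 ∣ Q := (by norm_num : 5 ∣ 35).trans hQ
  have A7 : adP 7 (rs 7 m) (rs 7 B) (rs 7 (-1)) = true :=
    adP_of6 S (by norm_num) (by norm_num) p7 ⟨m, B, -1, 0, -B⟩ (by simp [J6])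
  have A5 : adP 5 (rs 5 m) (rs 5 B) (rs 5 (-1)) = true :=
    adP_of6 S (by norm_num) (by norm_num) p5 ⟨m, B, -1, 0, -B⟩ (by simp [J6])
  obtain ⟨b7, k7, j7, hb7, hj7⟩ := complCk6_spec ck7 hn7 hl7 S.cl A7
  obtain ⟨b5, k5, j5, hb5, hj5⟩ := complCk6_spec ck5 hn5 hl5 S.cl A5
  have g7 := flat_get hl7 b7 k7 j7 _ hb7 hj7
  have g5 := flat_get hl5 b5 k5 j5 _ hb5 hj5
  have hD7m : cdx6 7 5 PT7 a b c B m ∈ L7.flatten := List.mem_of_getElem? g7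
  obtain ⟨_, _, _, u0, u1, u2, u3, _⟩ := bndCk_spec bd7 _ hD7m
  have i7 : w7 * b7 + (32 * j7 + 18) = 32 * (bl7 * b7 + j7) + 18 := by rw [← hw7]; ring
  have i5 : w5 * b5 + (32 * j5 + 18) = 32 * (bl5 * b5 + j5) + 18 := by rw [← hw5]; ring
  have z7 := rel67_bit rel7 h3 RB7 LC7 LG7 g7
  have hff : ff5.testBit (32 * (bl5 * b5 + j5) + 18) = true := by
    rw [LC5.hF]
    have hlt : bl5 * b5 + j5 < L5.flatten.length := by
      by_contra hcon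
      rw [List.getElem?_eq_none (by omega)] at g5
      exact absurd g5 (by simp)
    exact testBit_packL (w := 32) (s := 18) (g := fun _ => 2 ^ 18) (fun _ _ => by norm_num) hlt rfl
  exact clsG6_spec h htb hw hm7 (fun blk hb => by rw [hl7 blk hb, hw7]) hm5
    (fun blk hb => by rw [hl5 blk hb, hw5]) hb7 hj7 hb5 hj5 i7 i5 z7 hff
    (rel65_bit rela RBa LC5 LGa g5 u0 u1 u2 u3)
    (rel65_bit relb RBb LC5 LGb g5 u0 u1 u2 u3)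
    (rel65_bit relc RBc LC5 LGc g5 u0 u1 u2 u3)
    (rel65_bit reld RBd LC5 LGd g5 u0 u1 u2 u3)
    (rel65_bit rele RBe LC5 LGe g5 u0 u1 u2 u3)

end

/-! ### the loop over the classes modulo `13` with given normalised form -/

/-- loop over `b` -/
noncomputable def lpB6 (okb : ℕ → Bool) (m m2 R2 : ℕ)
    (body : ℕ → ℕ → ℕ → ℕ → ℕ → ℕ → Bool) : Bool :=
  allR (fun b => @Bool.rec (fun _ => Bool) true (
      strict (u3 (nat_lit 13) b m m2 R2) fun m3 =>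
      strict (v3 (nat_lit 13) b m2 R2) fun R3 =>
      strict (iv (nat_lit 13) (nat_lit 11) m3) fun i =>
      @Bool.rec (fun _ => Bool) false (
        strict (Nat.mod (Nat.mul R3 i) (nat_lit 13)) fun c =>
        strict (ng (nat_lit 13) (Nat.mul (nat_lit 2) b)) fun al2 =>
        strict (ng (nat_lit 13) c) fun al3 =>
        strict (pos (nat_lit 13) (nat_lit 11) PT13 m2 R3 (ng (nat_lit 13) m3)) fun q3 =>
          body b c m3 al2 al3 q3)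
        (Nat.beq (Nat.mod (Nat.mul m3 i) (nat_lit 13)) (nat_lit 1))) (okb b)) (nat_lit 13)

/-- loop over the classes modulo `13` with given `R, S` -/
noncomputable def grp6 (R S : ℕ) (okb : ℕ → Bool)
    (body : ℕ → ℕ → ℕ → ℕ → ℕ → ℕ → ℕ → ℕ → ℕ → ℕ → ℕ → ℕ → ℕ → ℕ → ℕ → Bool) : Bool :=
  allR (fun m' => strict (Nat.succ m') fun m =>
    strict (Nat.mod (Nat.mul R m) (nat_lit 13)) fun R2 =>
    strict (Nat.mod (Nat.mul (Nat.sub (nat_lit 13) S) m) (nat_lit 13)) fun m2 =>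
    strict (pos (nat_lit 13) (nat_lit 11) PT13 m R2 (ng (nat_lit 13) m2)) fun q2 =>
    lpA m m2 R2 fun a B al0 al1 q0 q1 => lpB6 okb m m2 R2 fun b c m3 al2 al3 q3 =>
      body a b c B m m2 m3 al0 al1 al2 al3 q0 q1 q2 q3) (nat_lit 12)

section

variable {a b c B m : ℤ}

lemma lpB6_spec {okb : ℕ → Bool} {body : ℕ → ℕ → ℕ → ℕ → ℕ → ℕ → Bool} (hcl : Cl6 a b c B m)
    (hb : okb (rs 13 b) = true)
    (h : lpB6 okb (rs 13 m) (rs 13 (y2 a B m)) (rs 13 (r2 a B m)) body = true) :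
    body (rs 13 b) (rs 13 c) (rs 13 (y3 a b B m)) (rs 13 (-(2 * b))) (rs 13 (-c))
      (cdx6 13 11 PT13 a b c B m).q3 = true := by
  have h1 := bt (allR_spec h (rs 13 b) (rs_lt (p := 13) b)) hb
  simp only [strict_eq] at h1
  rw [v3_eq (n := 13), u3_eq (n := 13)] at h1
  obtain ⟨h2, h3⟩ := bf h1
  have h4 := Nat.eq_of_beq_eq_true h2
  have h5 : Nat.mod (Nat.mul (rs 13 (r3 a b B m)) (iv (nat_lit 13) (nat_lit 11)
      (rs 13 (y3 a b B m)))) (nat_lit 13) = rs 13 c := c_eq (n := 13) hcl h4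
  rw [ng2_eq (n := 13) b, h5, ng_eq (n := 13), ng_eq (n := 13)] at h3
  exact h3

theorem grp6_spec {R S : ℕ} {okb : ℕ → Bool}
    {body : ℕ → ℕ → ℕ → ℕ → ℕ → ℕ → ℕ → ℕ → ℕ → ℕ → ℕ → ℕ → ℕ → ℕ → ℕ → Bool}
    (h : grp6 R S okb body = true) (hcl : Cl6 a b c B m) (hm : rs 13 m ≠ 0)
    (hr : rs 13 (r2 a B m) = R * rs 13 m % 13) (hs : rs 13 (-y2 a B m) = S * rs 13 m % 13)
    (hS : S < 13) (hb : okb (rs 13 b) = true) :
    body (rs 13 a) (rs 13 b) (rs 13 c) (rs 13 B) (rs 13 m) (rs 13 (y2 a B m))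
      (rs 13 (y3 a b B m)) (rs 13 (-B)) (rs 13 (-(2 * a))) (rs 13 (-(2 * b)))
      (rs 13 (-c)) (cdx6 13 11 PT13 a b c B m).q0 (cdx6 13 11 PT13 a b c B m).q1
      (cdx6 13 11 PT13 a b c B m).q2 (cdx6 13 11 PT13 a b c B m).q3 = true := by
  have hlt := rs_lt (p := 13) m
  have h1 := allR_spec h (rs 13 m - 1) (show rs 13 m - 1 < 12 by omega)
  simp only [strict_eq] at h1
  have e0 : Nat.succ (rs 13 m - 1) = rs 13 m := by omega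
  have e1 : Nat.mod (Nat.mul R (rs 13 m)) (nat_lit 13) = rs 13 (r2 a B m) := hr.symm
  have e2 : Nat.mod (Nat.mul (Nat.sub (nat_lit 13) S) (rs 13 m)) (nat_lit 13) =
      rs 13 (y2 a B m) := by
    change (13 - S) * rs 13 m % 13 = _
    apply rs_of
    have h3 : ((S * rs 13 m : ℕ) : ZMod 13) = ((-y2 a B m : ℤ) : ZMod 13) := by
      rw [← rs_cast (p := 13) (-y2 a B m), hs, ZMod.natCast_mod]
    have h4 : ((13 - S : ℕ) : ZMod 13) = -(S : ZMod 13) := by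
      rw [Nat.cast_sub hS.le]
      have : ((13 : ℕ) : ZMod 13) = 0 := by decide
      rw [this, zero_sub]
    rw [Nat.cast_mul, h4]
    push_cast at h3 ⊢
    linear_combination -h3
  rw [e0, e1, e2, ng_eq (n := 13)] at h1
  exact lpB6_spec hcl hb (lpA_spec (b := b) (c := c) h1)

end

/-- normalisation of the third form modulo 13 -/
theorem norm136 {Q : ℕ} {a b c B m : ℤ} (H : Sys6 Q a b c B m) (hQ : 13 ∣ Q) :
    (∃ g ∈ GR, G13 g.1 g.2 a b B m) ∨ (∃ g ∈ GR, G13 g.1 g.2 (-a) (-b) (-B) m) := by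
  have hA : adP 13 (rs 13 m) (rs 13 (r2 a B m)) (rs 13 (-y2 a B m)) = true :=
    adP_of6 H (by norm_num) (by norm_num) hQ ⟨m, r2 a B m, -y2 a B m, 6, -(2 * b)⟩
      (by simp [J6])
  obtain ⟨h1, h2⟩ := comp13.ok _ _ _ (rs_lt m) (rs_lt (r2 a B m)) (rs_lt (-y2 a B m)) hA
  have h3 := List.mem_of_getElem? h2
  set P := rs 13 m with hP
  set i := iv 13 11 P with hi
  have hP0 : P ≠ 0 := by
    intro h0
    rw [h0] at h1
    simp at h1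
  have h1' : ((P : ℕ) : ZMod 13) * ((i : ℕ) : ZMod 13) = 1 := by
    have := congrArg (fun n : ℕ => (n : ZMod 13)) h1
    simp only [ZMod.natCast_mod, Nat.cast_mul, Nat.cast_one] at this
    exact this
  have key : ∀ x : ℤ, (rs 13 x * i % 13) * P % 13 = rs 13 x := by
    intro x
    apply rs_of
    rw [Nat.cast_mul, ZMod.natCast_mod, Nat.cast_mul, rs_cast]
    linear_combination ((x : ℤ) : ZMod 13) * h1'
  have kR := key (r2 a B m)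
  have kS := key (-y2 a B m)
  rcases GR_split _ h3 with ⟨e, g⟩ | ⟨e1, e2, g⟩ | ⟨e1, e2, g⟩
  · by_cases hb : rs 13 b ≤ 6
    · exact Or.inl ⟨_, g, hP0, kR.symm, kS.symm, fun _ => hb⟩
    · refine Or.inr ⟨_, g, hP0, ?_, ?_, fun _ => ?_⟩
      · rw [S7.r2_neg]
        simp only at e ⊢
        rw [e] at kR ⊢
        have : ((rs 13 (r2 a B m) : ℕ) : ZMod 13) = 0 := by rw [← kR]; simp
        rw [rs_cast] at this
        symm
        apply rs_of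
        push_cast
        rw [this]; simp
      · rw [S7.y2_neg]; exact kS.symm
      · exact rs_neg13 b (by omega)
  · exact Or.inl ⟨_, g, hP0, kR.symm, kS.symm, fun h => absurd h (by simp only at e1 ⊢; omega)⟩
  · refine Or.inr ⟨_, g, hP0, ?_, ?_, fun h => ?_⟩
    · rw [S7.r2_neg]
      simp only at e1 e2 ⊢
      symm
      apply rs_of
      have e3 : ((rs 13 (r2 a B m) * i % 13 : ℕ) : ZMod 13) * (P : ZMod 13) =
          ((r2 a B m : ℤ) : ZMod 13) := by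
        rw [ZMod.natCast_mod, Nat.cast_mul, rs_cast]
        linear_combination ((r2 a B m : ℤ) : ZMod 13) * h1'
      rw [Nat.cast_mul, Nat.cast_sub e2.le, ZMod.natCast_self]
      push_cast
      linear_combination (-1 : ZMod 13) * e3
    · rw [S7.y2_neg]; exact kS.symm
    · simp only at e2 h
      omega

end Pool.Agent.PSX.N6
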