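import Pool.Agent.PSX.N8c
import Pool.Agent.PSX.N8Dat

/-! checks of the classes and vectors modulo `8` -/

namespace Pool.Agent.PSX.N8

open Pool.Agent.Lib_helper5 Pool.Agent.Lib_helper5.LK Pool.Agent.Lib_helper5.TB
  Pool.Agent.Lib_helper5.Lane Pool.Agent.Lib_helper5.P7 Pool.Agent.LibH4 Pool.Agent.LibH4.Ker
  Pool.Agent.LibH4.T6 Pool.Agent.PSX.EL

lemma len8 : allL (fun b : List CD => Nat.beq b.length (nat_lit 128)) LL8 = true := by
  decide +kernel
lemma len8' : ∀ b ∈ LL8, b.length = 128 := fun b hb => Nat.eq_of_beq_eq_true (allL_spec len8 b hb)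
lemma len8'' : ∀ b ∈ LL8, 32 * b.length = 4096 := fun b hb => by rw [len8' b hb]
lemma nb8 : LL8.length = 4 := by decide +kernel
lemma msk8_eq : msk_8 = 2 ^ 4096 - 1 := by decide +kernel

lemma tb8_ok : ∀ j, 32 * j < 4096 → tb_8 / 2 ^ (32 * j + 18) % 256 = j := by
  have h : allR (fun j => Nat.beq (Nat.mod (Nat.div tb_8 (Nat.pow (nat_lit 2)
    (Nat.add (Nat.mul (nat_lit 32) j) (nat_lit 18)))) (nat_lit 256)) j) (nat_lit 128) = true := by
    decide +kernel
  intro j hj
  exact Nat.eq_of_beq_eq_true (allR_spec h j (show j < 128 by omega))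

/-- all classes modulo `8` are in the list -/
lemma cpl8 : compl8 (nat_lit 128) (nat_lit 4) ix_8 LL8 = true := by decide +kernel

lemma k8m : vecCk (nat_lit 4096) msk_8 (fun _ => nat_lit 262143) LL8 mk_8 = true := by
  decide +kernel
lemma k8c13 : vecCk (nat_lit 4096) msk_8 (fun _ => nat_lit 282308) LL8 cc13_8 = true := by
  decide +kernel
lemma k8c7 : vecCk (nat_lit 4096) msk_8 (fun _ => nat_lit 299593) LL8 cc7_8 = true := by
  decide +kernel
lemma k8c5 : vecCk (nat_lit 4096) msk_8 (fun _ => nat_lit 314572) LL8 cc5_8 = true := by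
  decide +kernel
lemma k8f : vecCk (nat_lit 4096) msk_8 (fun _ => nat_lit 262144) LL8 ff_8 = true := by
  decide +kernel

lemma laneK_of {bw msk mk C M cst : ℕ} {LL : List (List CD)}
    (hm : msk = 2 ^ bw - 1) (hl : ∀ blk ∈ LL, 32 * blk.length = bw)
    (h1 : vecCk bw msk (fun _ => nat_lit 262143) LL mk = true)
    (h2 : vecCk bw msk (fun _ => cst) LL C = true) (e : cst = 2 ^ 18 + M - 1) :
    LaneK LL.flatten M mk C where
  hm := (vecCk_spec h1 hm hl).trans (packL_congr _ fun _ _ => by norm_num)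
  hC := (vecCk_spec h2 hm hl).trans (packL_congr _ fun _ _ => e)

/-- constant vectors -/
theorem LK13 : LaneK LL8.flatten 20165 mk_8 cc13_8 :=
  laneK_of msk8_eq len8'' k8m k8c13 (by norm_num)
/-- constant vectors -/
theorem LK7 : LaneK LL8.flatten 37450 mk_8 cc7_8 :=
  laneK_of msk8_eq len8'' k8m k8c7 (by norm_num)
/-- constant vectors -/
theorem LK5 : LaneK LL8.flatten 52429 mk_8 cc5_8 :=
  laneK_of msk8_eq len8'' k8m k8c5 (by norm_num)

lemma ffb_of {bw msk ff : ℕ} {LL : List (List CD)}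
    (hm : msk = 2 ^ bw - 1) (hl : ∀ blk ∈ LL, 32 * blk.length = bw)
    (h1 : vecCk bw msk (fun _ => nat_lit 262144) LL ff = true) {i : ℕ}
    (hi : i < LL.flatten.length) : ff.testBit (32 * i + 18) = true := by
  have h : ff = packL (2 ^ 32) (fun _ => 2 ^ 18) LL.flatten :=
    (vecCk_spec h1 hm hl).trans (packL_congr _ fun _ _ => by norm_num)
  rw [h]
  exact testBit_packL (w := 32) (s := 18) (g := fun _ => 2 ^ 18) (fun _ _ => by norm_num) hi rfl

lemma ff8_bit {i : ℕ} (hi : i < LL8.flatten.length) : ff_8.testBit (32 * i + 18) = true :=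
  ffb_of msk8_eq len8'' k8f hi

end Pool.Agent.PSX.N8
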