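import Pool.Agent.PSX.N8c
import Pool.Agent.PSX.N8Dat
import Pool.Agent.PSX.KRel
import Pool.Agent.PSX.Dat8
import Pool.Agent.RQM.C128

/-!
Period six, elimination: the leaf of the nested search: classes modulo `8` and the final test
(kernel functions).
-/

namespace Pool.Agent.PSX.N8

open Pool.Agent.Lib_helper5 Pool.Agent.Lib_helper5.LK Pool.Agent.Lib_helper5.TB
  Pool.Agent.Lib_helper5.Lane Pool.Agent.Lib_helper5.P7 Pool.Agent.LibH4 Pool.Agent.LibH4.Ker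
  Pool.Agent.LibH4.T6 Pool.Agent.PSX.EL Pool.Agent.PSX.D8
open Pool.Agent.LibH4.S7 (y2 r2 y3 r3 u2 v2 u3 v3 ng ng_eq ng2_eq ck memN memN_spec)
open Pool.Agent.Lib_helper29.P7A (ckD ckN ck_neg)

/-! ### stages -/

/-- a relation -/
noncomputable def sg (M l mk C sh t1 t2 : ℕ) (rows : List (ℕ × ℕ)) (G0 G1 G2 G3 : ℕ → ℕ)
    (m m2 q0 q1 q2 q3 al0 al1 al2 al3 z z2 j0 j1 j2 j3 Z : ℕ) (k : ℕ → Bool) : Bool :=
  ctg M l mk sh t1 t2 rows G0 G1 G2 G3 m m2 q0 q1 q2 q3 al0 al1 al2 al3 fun hA hB =>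
    st (Nat.land Z (kp8 mk C hA hB z z2 j0 j1 j2 j3)) k

lemma st_spec {Z p : ℕ} {k : ℕ → Bool} (h : st Z k = true) (hp : Z.testBit p = true) :
    k Z = true := by
  unfold st at h
  cases hz : Nat.beq Z (nat_lit 0) with
  | true =>
    have h0 : Z = 0 := Nat.eq_of_beq_eq_true hz
    rw [h0] at hp
    simp at hp
  | false =>
    rw [hz] at h
    exact h

theorem sg_spec {M l mk C sh t1 t2 : ℕ} {rows : List (ℕ × ℕ)} {G0 G1 G2 G3 : ℕ → ℕ}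
    {m m2 q0 q1 q2 q3 al0 al1 al2 al3 z z2 j0 j1 j2 j3 Z p : ℕ} {k : ℕ → Bool}
    (h : sg M l mk C sh t1 t2 rows G0 G1 G2 G3 m m2 q0 q1 q2 q3 al0 al1 al2 al3 z z2 j0 j1 j2 j3
      Z k = true) (hp : Z.testBit p = true)
    (hk : ctg M l mk sh t1 t2 rows G0 G1 G2 G3 m m2 q0 q1 q2 q3 al0 al1 al2 al3 (fun hA hB =>
      (kp8 mk C hA hB z z2 j0 j1 j2 j3).testBit p = true)) :
    ∃ Z', k Z' = true ∧ Z'.testBit p = true := by
  unfold sg ctg at h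
  unfold ctg at hk
  have hb := (Nat.testBit_land Z _ p).trans (Bool.and_eq_true_iff.2 ⟨hp, hk⟩)
  exact ⟨_, st_spec h hb, hb⟩

/-- the relations with classes modulo `8` and the enumeration -/
noncomputable def lv8 (fin : CD → Bool) (m m2 q0 q1 q2 q3 : ℕ) (a0 a1 a2 a3 : ℕ)
    (n n2 r0 r1 r2 r3 : ℕ) (b0 b1 b2 b3 : ℕ) (p p2 s0 s1 s2 s3 : ℕ) (c0 c1 c2 c3 : ℕ) : Bool :=
  sg (nat_lit 20165) (nat_lit 13) mk_8 cc13_8 (nat_lit 32) t1_364F13a t2_364F13a rows_364F13a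
    (gat I4_0) (gat I4_1) (gat I4_2) (gat I4_3) m m2 q0 q1 q2 q3 a0 a1 a2 a3 n n2 r0 r1 r2 r3
    ff_8 fun Z =>
  sg (nat_lit 20165) (nat_lit 13) mk_8 cc13_8 (nat_lit 32) t1_260F13 t2_260F13 rows_260F13
    (gat I4_0) (gat I4_1) (gat I4_2) (gat I4_3) m m2 q0 q1 q2 q3 a0 a1 a2 a3 p p2 s0 s1 s2 s3
    Z fun Z =>
  sg (nat_lit 20165) (nat_lit 13) mk_8 cc13_8 (nat_lit 32) t1_364F13b t2_364F13b rows_364F13b
    (gat I4_0) (gat I4_1) (gat I4_2) (gat I4_3) m m2 q0 q1 q2 q3 a0 a1 a2 a3 n n2 r0 r1 r2 r3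
    Z fun Z =>
  sg (nat_lit 20165) (nat_lit 13) mk_8 cc13_8 (nat_lit 32) t1_140N13 t2_140N13 rows_140N13
    (gat I4_0) (gat I4_1) (gat I4_2) (gat I4_3) n n2 r0 r1 r2 r3 a0 a1 a2 a3 p p2 s0 s1 s2 s3
    Z fun Z =>
  sg (nat_lit 20165) (nat_lit 13) mk_8 cc13_8 (nat_lit 128) t1_728F13 t2_728F13 rows_728F13
    (gat I8a_0) (gat I8_1) (gat I8a_2) (gat I8a_3) m m2 q0 q1 q2 q3 a0 a1 a2 a3 n n2 r0 r1 r2 r3
    Z fun Z =>
  sg (nat_lit 37450) (nat_lit 7) mk_8 cc7_8 (nat_lit 128) t1_280F7 t2_280F7 rows_280F7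
    (gat I8b_0) (gat I8_1) (gat I8b_2) (gat I8b_3) n n2 r0 r1 r2 r3 b0 b1 b2 b3 p p2 s0 s1 s2 s3
    Z fun Z =>
  sg (nat_lit 37450) (nat_lit 7) mk_8 cc7_8 (nat_lit 128) t1_728F7 t2_728F7 rows_728F7
    (gat I8c_0) (gat I8_1) (gat I8c_2) (gat I8c_3) m m2 q0 q1 q2 q3 b0 b1 b2 b3 n n2 r0 r1 r2 r3
    Z fun Z =>
  sg (nat_lit 37450) (nat_lit 7) mk_8 cc7_8 (nat_lit 128) t1_520N7 t2_520N7 rows_520N7
    (gat I8c_0) (gat I8_1) (gat I8c_2) (gat I8c_3) m m2 q0 q1 q2 q3 b0 b1 b2 b3 p p2 s0 s1 s2 s3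
    Z fun Z =>
  sg (nat_lit 52429) (nat_lit 5) mk_8 cc5_8 (nat_lit 128) t1_520F5 t2_520F5 rows_520F5
    (gat I8d_0) (gat I8_1) (gat I8d_2) (gat I8d_3) m m2 q0 q1 q2 q3 c0 c1 c2 c3 p p2 s0 s1 s2 s3
    Z fun Z =>
  sg (nat_lit 52429) (nat_lit 5) mk_8 cc5_8 (nat_lit 128) t1_728N5 t2_728N5 rows_728N5
    (gat I8d_0) (gat I8_1) (gat I8d_2) (gat I8d_3) m m2 q0 q1 q2 q3 c0 c1 c2 c3 n n2 r0 r1 r2 r3
    Z fun Z =>
  enB tb_8 (nat_lit 4096) msk_8 (nat_lit 128) fin LL8 Z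

/-! ### the final test -/

/-- the ghosts -/
noncomputable def gb (n a b : ℕ) : ℕ :=
  @Bool.rec (fun _ => ℕ)
    (@Bool.rec (fun _ => ℕ) (nat_lit 0) (@Bool.rec (fun _ => ℕ) (nat_lit 0) (nat_lit 2)
      (Nat.beq b (nat_lit 1))) (Nat.beq a (Nat.sub n (nat_lit 1))))
    (@Bool.rec (fun _ => ℕ) (nat_lit 0) (nat_lit 1) (Nat.beq b (Nat.sub n (nat_lit 1))))
    (Nat.beq a (nat_lit 1))

/-- the mask of a code -/
noncomputable def mskL (k kn : ℕ) (L : List (List ℕ)) : ℕ :=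
  @List.rec _ (fun _ => ℕ) (nat_lit 0) (fun F _ ih =>
    Nat.add (Nat.add (@Bool.rec (fun _ => ℕ) (nat_lit 0) (nat_lit 1) (memN k F))
      (@Bool.rec (fun _ => ℕ) (nat_lit 0) (nat_lit 2) (memN kn F)))
      (Nat.mul (nat_lit 4) ih)) L

/-- the mask of a class -/
noncomputable def mskD (n : ℕ) (L : List (List ℕ)) (D : CD) : ℕ :=
  @CD.rec (fun _ => ℕ) (fun a b c B m _ _ _ _ _ _ _ =>
    Nat.add (gb n a b) (Nat.mul (nat_lit 4)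
      (strict (ck n a b c B m) fun k =>
        strict (ck n (ng n a) (ng n b) (ng n c) (ng n B) m) fun kn => mskL k kn L))) D

/-- the lists of the boxes -/
def L13 : List (List ℕ) := [bx0.F13, bx1.F13, bx2.F13, bx3.F13, bx4.F13, bx5.F13, bx6.F13,
  bx7.F13, bx8.F13, bx9.F13, bx10.F13, bx11.F13, bx12.F13, bx13.F13, bx14.F13]
/-- the lists of the boxes -/
def L7 : List (List ℕ) := [bx0.F7, bx1.F7, bx2.F7, bx3.F7, bx4.F7, bx5.F7, bx6.F7,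
  bx7.F7, bx8.F7, bx9.F7, bx10.F7, bx11.F7, bx12.F7, bx13.F7, bx14.F7]
/-- the lists of the boxes -/
def L5 : List (List ℕ) := [bx0.F5, bx1.F5, bx2.F5, bx3.F5, bx4.F5, bx5.F5, bx6.F5,
  bx7.F5, bx8.F5, bx9.F5, bx10.F5, bx11.F5, bx12.F5, bx13.F5, bx14.F5]
/-- the lists of the boxes -/
def L8 : List (List ℕ) := [bx0.F8, bx1.F8, bx2.F8, bx3.F8, bx4.F8, bx5.F8, bx6.F8,
  bx7.F8, bx8.F8, bx9.F8, bx10.F8, bx11.F8, bx12.F8, bx13.F8, bx14.F8]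

/-- membership in the list of single classes, up to sign -/
noncomputable def sgl (D13 D7 D5 D8 : CD) : Bool :=
  @Bool.rec (fun _ => Bool)
    (strict (tup4 (ckN (nat_lit 13) D13) (ckN (nat_lit 7) D7) (ckN (nat_lit 5) D5)
      (ckN (nat_lit 8) D8)) fun k => memN k G8)
    true
    (strict (tup4 (ckD (nat_lit 13) D13) (ckD (nat_lit 7) D7) (ckD (nat_lit 5) D5)
      (ckD (nat_lit 8) D8)) fun k => memN k G8)

/-- the final test -/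
noncomputable def fin8 (D13 D7 D5 D8 : CD) : Bool :=
  @Nat.rec (fun _ => Bool) (sgl D13 D7 D5 D8) (fun _ _ => true)
    (Nat.land (Nat.land (Nat.land (mskD (nat_lit 13) L13 D13) (mskD (nat_lit 7) L7 D7))
      (mskD (nat_lit 5) L5 D5)) (mskD (nat_lit 8) L8 D8))

/-- **the leaf** -/
noncomputable def lf8 (D13 D7 D5 : CD) : Bool :=
  @CD.rec (fun _ => Bool) (fun a b c B m m2 _ q0 q1 q2 q3 _ =>
    strict (ng (nat_lit 13) B) fun a0 =>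
    strict (ng (nat_lit 13) (Nat.mul (nat_lit 2) a)) fun a1 =>
    strict (ng (nat_lit 13) (Nat.mul (nat_lit 2) b)) fun a2 =>
    strict (ng (nat_lit 13) c) fun a3 =>
  @CD.rec (fun _ => Bool) (fun a b c B n n2 _ r0 r1 r2 r3 _ =>
    strict (ng (nat_lit 7) B) fun b0 =>
    strict (ng (nat_lit 7) (Nat.mul (nat_lit 2) a)) fun b1 =>
    strict (ng (nat_lit 7) (Nat.mul (nat_lit 2) b)) fun b2 =>
    strict (ng (nat_lit 7) c) fun b3 =>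
  @CD.rec (fun _ => Bool) (fun a b c B p p2 _ s0 s1 s2 s3 _ =>
    strict (ng (nat_lit 5) B) fun c0 =>
    strict (ng (nat_lit 5) (Nat.mul (nat_lit 2) a)) fun c1 =>
    strict (ng (nat_lit 5) (Nat.mul (nat_lit 2) b)) fun c2 =>
    strict (ng (nat_lit 5) c) fun c3 =>
      lv8 (fin8 D13 D7 D5) m m2 q0 q1 q2 q3 a0 a1 a2 a3 n n2 r0 r1 r2 r3 b0 b1 b2 b3
        p p2 s0 s1 s2 s3 c0 c1 c2 c3) D5) D7) D13

end Pool.Agent.PSX.N8
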