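import Pool.Agent.PSX.N8S
import Pool.Agent.PSX.N6e

/-!
Period six, elimination: the meaning of the leaf.
-/

namespace Pool.Agent.PSX.N8

open Pool.Agent.Lib_helper5 Pool.Agent.Lib_helper5.LK Pool.Agent.Lib_helper5.TB
  Pool.Agent.Lib_helper5.Lane Pool.Agent.Lib_helper5.P7 Pool.Agent.LibH4 Pool.Agent.LibH4.Ker
  Pool.Agent.LibH4.T6 Pool.Agent.PSX.EL Pool.Agent.PSX.D8
open Pool.Agent.LibH4.S7 (y2 r2 y3 r3 u2 v2 u3 v3 ng ng_eq ng2_eq ck cd memN memN_spec rs_one_of)
open Pool.Agent.Lib_helper29.P7A (ckD ckN ck_neg)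
open Pool.Agent.PSX.N6 (cdx6)

section

variable {Q : ℕ} {a b c B m : ℤ}

theorem lv8_spec (S : Sys6 Q a b c B m) (hQ : 3640 ∣ Q) {fin : CD → Bool}
    (h : lv8 fin (cdx6 13 11 PT13 a b c B m).m (cdx6 13 11 PT13 a b c B m).m2
      (cdx6 13 11 PT13 a b c B m).q0 (cdx6 13 11 PT13 a b c B m).q1
      (cdx6 13 11 PT13 a b c B m).q2 (cdx6 13 11 PT13 a b c B m).q3
      (ng 13 (rs 13 B)) (ng 13 (Nat.mul 2 (rs 13 a))) (ng 13 (Nat.mul 2 (rs 13 b)))
      (ng 13 (rs 13 c))
      (cdx6 7 5 PT7 a b c B m).m (cdx6 7 5 PT7 a b c B m).m2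
      (cdx6 7 5 PT7 a b c B m).q0 (cdx6 7 5 PT7 a b c B m).q1
      (cdx6 7 5 PT7 a b c B m).q2 (cdx6 7 5 PT7 a b c B m).q3
      (ng 7 (rs 7 B)) (ng 7 (Nat.mul 2 (rs 7 a))) (ng 7 (Nat.mul 2 (rs 7 b)))
      (ng 7 (rs 7 c))
      (cdx6 5 3 PT5 a b c B m).m (cdx6 5 3 PT5 a b c B m).m2
      (cdx6 5 3 PT5 a b c B m).q0 (cdx6 5 3 PT5 a b c B m).q1
      (cdx6 5 3 PT5 a b c B m).q2 (cdx6 5 3 PT5 a b c B m).q3
      (ng 5 (rs 5 B)) (ng 5 (Nat.mul 2 (rs 5 a))) (ng 5 (Nat.mul 2 (rs 5 b)))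
      (ng 5 (rs 5 c)) = true) :
    fin (cx6 8 1 PT8 a b c B m) = true := by
  obtain ⟨bi, blk, j, hb, hj⟩ := compl8_spec S cpl8 nb8 len8'
  have g := flat_get len8' bi blk j _ hb hj
  have hlt : 128 * bi + j < LL8.flatten.length := by
    by_contra hcon
    rw [List.getElem?_eq_none (by omega)] at g
    exact absurd g (by simp)
  have hff := ff8_bit hlt
  unfold lv8 at h
  obtain ⟨Z1, h, z1⟩ := sg_spec h hff (kb_364F13a S hQ g)
  obtain ⟨Z2, h, z2⟩ := sg_spec h z1 (kb_260F13 S hQ g)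
  obtain ⟨Z3, h, z3⟩ := sg_spec h z2 (kb_364F13b S hQ g)
  obtain ⟨Z4, h, z4⟩ := sg_spec h z3 (kb_140N13 S hQ g)
  obtain ⟨Z5, h, z5⟩ := sg_spec h z4 (kb_728F13 S hQ g)
  obtain ⟨Z6, h, z6⟩ := sg_spec h z5 (kb_280F7 S hQ g)
  obtain ⟨Z7, h, z7⟩ := sg_spec h z6 (kb_728F7 S hQ g)
  obtain ⟨Z8, h, z8⟩ := sg_spec h z7 (kb_520N7 S hQ g)
  obtain ⟨Z9, h, z9⟩ := sg_spec h z8 (kb_520F5 S hQ g)
  obtain ⟨Z10, h, z10⟩ := sg_spec h z9 (kb_728N5 S hQ g)
  have e : 4096 * bi + (32 * j + 18) = 32 * (128 * bi + j) + 18 := by ring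
  have h' : enB tb_8 4096 msk_8 128 fin LL8 Z10 = true := h
  exact enB_spec h' msk8_eq len8'' tb8_ok bi blk j _ hb hj (by rw [e]; exact z10)

theorem lf8_spec (S : Sys6 Q a b c B m) (hQ : 3640 ∣ Q)
    (h : lf8 (cdx6 13 11 PT13 a b c B m) (cdx6 7 5 PT7 a b c B m) (cdx6 5 3 PT5 a b c B m) =
      true) :
    fin8 (cdx6 13 11 PT13 a b c B m) (cdx6 7 5 PT7 a b c B m) (cdx6 5 3 PT5 a b c B m)
      (cx6 8 1 PT8 a b c B m) = true := by
  unfold lf8 at h
  simp only [strict_eq] at h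
  exact lv8_spec S hQ h

end

/-! ### masks -/

lemma tb4 {x : ℕ} (hx : x < 4) (y j : ℕ) :
    (x + 4 * y).testBit j = if j < 2 then x.testBit j else y.testBit (j - 2) := by
  have h := Nat.testBit_two_pow_mul_add (i := 2) y (b := x) hx j
  rw [← h]
  congr 1
  ring

lemma mskL_spec {k kn : ℕ} {L : List (List ℕ)} : ∀ {t : ℕ}, (mskL k kn L).testBit t = true →
    ∃ F, L[t / 2]? = some F ∧ (t % 2 = 0 → k ∈ F) ∧ (t % 2 = 1 → kn ∈ F) := by
  induction L with
  | nil =>
    intro t h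
    have : (0 : ℕ).testBit t = true := h
    simp at this
  | cons F L ih =>
    intro t h
    have h' : ((@Bool.rec (fun _ => ℕ) (nat_lit 0) (nat_lit 1) (memN k F) +
      @Bool.rec (fun _ => ℕ) (nat_lit 0) (nat_lit 2) (memN kn F)) +
        4 * mskL k kn L).testBit t = true := h
    rw [tb4 (by cases memN k F <;> cases memN kn F <;> decide)] at h'
    by_cases ht : t < 2
    · rw [if_pos ht] at h'
      have h01 : t = 0 ∨ t = 1 := by omega
      rcases h01 with rfl | rfl
      · refine ⟨F, rfl, fun _ => ?_, fun h => absurd h (by decide)⟩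
        cases hk : memN k F with
        | true => exact memN_spec hk
        | false =>
          rw [hk] at h'
          cases hq : memN kn F with
          | true =>
            rw [hq] at h'
            exact absurd (show (2 : ℕ).testBit 0 = true from h') (by decide)
          | false =>
            rw [hq] at h'
            exact absurd (show (0 : ℕ).testBit 0 = true from h') (by decide)
      · refine ⟨F, rfl, fun h => absurd h (by decide), fun _ => ?_⟩
        cases hk : memN kn F with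
        | true => exact memN_spec hk
        | false =>
          rw [hk] at h'
          cases hq : memN k F with
          | true =>
            rw [hq] at h'
            exact absurd (show (1 : ℕ).testBit 1 = true from h') (by decide)
          | false =>
            rw [hq] at h'
            exact absurd (show (0 : ℕ).testBit 1 = true from h') (by decide)
    · rw [if_neg ht] at h'
      obtain ⟨F', h1, h2, h3⟩ := ih h'
      refine ⟨F', ?_, fun h => h2 (by omega), fun h => h3 (by omega)⟩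
      have e : t / 2 = (t - 2) / 2 + 1 := by omega
      rw [e, List.getElem?_cons_succ]
      exact h1

lemma gb_lt (n a b : ℕ) : gb n a b < 4 := by
  unfold gb
  cases Nat.beq a (nat_lit 1) <;> cases Nat.beq b (Nat.sub n (nat_lit 1)) <;>
    cases Nat.beq a (Nat.sub n (nat_lit 1)) <;> cases Nat.beq b (nat_lit 1) <;> decide

lemma gb0 {n a b : ℕ} (h : (gb n a b).testBit 0 = true) : a = 1 ∧ b = n - 1 := by
  unfold gb at h
  cases h1 : Nat.beq a (nat_lit 1) with
  | true =>
    rw [h1] at h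
    cases h2 : Nat.beq b (Nat.sub n (nat_lit 1)) with
    | true => exact ⟨Nat.eq_of_beq_eq_true h1, Nat.eq_of_beq_eq_true h2⟩
    | false =>
      rw [h2] at h
      exact absurd (show (0 : ℕ).testBit 0 = true from h) (by decide)
  | false =>
    rw [h1] at h
    cases h2 : Nat.beq a (Nat.sub n (nat_lit 1)) with
    | true =>
      rw [h2] at h
      cases h3 : Nat.beq b (nat_lit 1) with
      | true =>
        rw [h3] at h
        exact absurd (show (2 : ℕ).testBit 0 = true from h) (by decide)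
      | false =>
        rw [h3] at h
        exact absurd (show (0 : ℕ).testBit 0 = true from h) (by decide)
    | false =>
      rw [h2] at h
      exact absurd (show (0 : ℕ).testBit 0 = true from h) (by decide)

lemma gb1 {n a b : ℕ} (h : (gb n a b).testBit 1 = true) : a = n - 1 ∧ b = 1 := by
  unfold gb at h
  cases h1 : Nat.beq a (nat_lit 1) with
  | true =>
    rw [h1] at h
    cases h2 : Nat.beq b (Nat.sub n (nat_lit 1)) with
    | true =>
      rw [h2] at h
      exact absurd (show (1 : ℕ).testBit 1 = true from h) (by decide)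
    | false =>
      rw [h2] at h
      exact absurd (show (0 : ℕ).testBit 1 = true from h) (by decide)
  | false =>
    rw [h1] at h
    cases h2 : Nat.beq a (Nat.sub n (nat_lit 1)) with
    | true =>
      rw [h2] at h
      cases h3 : Nat.beq b (nat_lit 1) with
      | true => exact ⟨Nat.eq_of_beq_eq_true h2, Nat.eq_of_beq_eq_true h3⟩
      | false =>
        rw [h3] at h
        exact absurd (show (0 : ℕ).testBit 1 = true from h) (by decide)
    | false =>
      rw [h2] at h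
      exact absurd (show (0 : ℕ).testBit 1 = true from h) (by decide)

/-- the meaning of a mask -/
lemma mskD_spec {n : ℕ} [NeZero n] {ex PT : ℕ} {a b c B m : ℤ} {L : List (List ℕ)} {D : CD}
    (hD : D = cdx6 n ex PT a b c B m) {t : ℕ} (h : (mskD n L D).testBit t = true) :
    (t = 0 → rs n a = 1 ∧ rs n b = n - 1) ∧ (t = 1 → rs n a = n - 1 ∧ rs n b = 1) ∧
    (2 ≤ t → ∃ F, L[(t - 2) / 2]? = some F ∧ (t % 2 = 0 → cd n a b c B m ∈ F) ∧
      (t % 2 = 1 → cd n (-a) (-b) (-c) (-B) m ∈ F)) := by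
  subst hD
  have e : mskD n L (cdx6 n ex PT a b c B m) = gb n (rs n a) (rs n b) +
      4 * (strict (ck n (rs n a) (rs n b) (rs n c) (rs n B) (rs n m)) fun k =>
        strict (ck n (ng n (rs n a)) (ng n (rs n b)) (ng n (rs n c)) (ng n (rs n B)) (rs n m))
          fun kn => mskL k kn L) := rfl
  rw [e] at h
  simp only [strict_eq] at h
  rw [tb4 (gb_lt _ _ _), ck_neg] at h
  refine ⟨?_, ?_, ?_⟩
  · rintro rfl
    exact gb0 h
  · rintro rfl
    exact gb1 h
  · intro ht
    rw [if_neg (by omega)] at h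
    obtain ⟨F, h1, h2, h3⟩ := mskL_spec h
    exact ⟨F, h1, fun h => h2 (by omega), fun h => h3 (by omega)⟩

lemma L13_eq : L13 = BX8.map Bx8.F13 := rfl
lemma L7_eq : L7 = BX8.map Bx8.F7 := rfl
lemma L5_eq : L5 = BX8.map Bx8.F5 := rfl
lemma L8_eq : L8 = BX8.map Bx8.F8 := rfl

lemma getE {f : Bx8 → List ℕ} {L : List (List ℕ)} (hL : L = BX8.map f) {i : ℕ} {F : List ℕ}
    (h : L[i]? = some F) : ∃ x, BX8[i]? = some x ∧ F = f x := by
  rw [hL, List.getElem?_map] at h
  cases hx : BX8[i]? with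
  | none => rw [hx] at h; exact absurd h (by simp)
  | some x =>
    rw [hx] at h
    exact ⟨x, rfl, (Option.some.inj h).symm⟩

/-- the result of the first stages -/
def Res8 (a b c B m : ℤ) : Prop :=
  (∀ n ∈ [13, 7, 5, 8], rs n a = 1 ∧ rs n b = n - 1) ∨
  (∀ n ∈ [13, 7, 5, 8], rs n a = n - 1 ∧ rs n b = 1) ∨
  In8 a b c B m ∨ In8 (-a) (-b) (-c) (-B) m

theorem fin8_spec {a b c B m : ℤ}
    (h : fin8 (cdx6 13 11 PT13 a b c B m) (cdx6 7 5 PT7 a b c B m) (cdx6 5 3 PT5 a b c B m)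
      (cx6 8 1 PT8 a b c B m) = true) : Res8 a b c B m := by
  have c13 := ck_neg (n := 13) a b c B m
  have c7 := ck_neg (n := 7) a b c B m
  have c5 := ck_neg (n := 5) a b c B m
  have c8 := ck_neg (n := 8) a b c B m
  unfold fin8 at h
  set W := Nat.land (Nat.land (Nat.land (mskD (nat_lit 13) L13 (cdx6 13 11 PT13 a b c B m))
    (mskD (nat_lit 7) L7 (cdx6 7 5 PT7 a b c B m)))
      (mskD (nat_lit 5) L5 (cdx6 5 3 PT5 a b c B m)))
        (mskD (nat_lit 8) L8 (cx6 8 1 PT8 a b c B m)) with hW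
  by_cases h0 : W = 0
  · rw [h0] at h
    have h1 : sgl (cdx6 13 11 PT13 a b c B m) (cdx6 7 5 PT7 a b c B m)
      (cdx6 5 3 PT5 a b c B m) (cx6 8 1 PT8 a b c B m) = true := h
    unfold sgl at h1
    simp only [strict_eq] at h1
    cases h2 : memN (tup4 (ckD (nat_lit 13) (cdx6 13 11 PT13 a b c B m))
      (ckD (nat_lit 7) (cdx6 7 5 PT7 a b c B m)) (ckD (nat_lit 5) (cdx6 5 3 PT5 a b c B m))
      (ckD (nat_lit 8) (cx6 8 1 PT8 a b c B m))) G8 with
    | true => exact Or.inr (Or.inr (Or.inl (Or.inr (memN_spec h2))))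
    | false =>
      rw [h2] at h1
      have h3 := memN_spec h1
      have e13 : ckN (nat_lit 13) (cdx6 13 11 PT13 a b c B m) = cd 13 (-a) (-b) (-c) (-B) m := c13
      have e7 : ckN (nat_lit 7) (cdx6 7 5 PT7 a b c B m) = cd 7 (-a) (-b) (-c) (-B) m := c7
      have e5 : ckN (nat_lit 5) (cdx6 5 3 PT5 a b c B m) = cd 5 (-a) (-b) (-c) (-B) m := c5
      have e8 : ckN (nat_lit 8) (cx6 8 1 PT8 a b c B m) = cd 8 (-a) (-b) (-c) (-B) m := c8
      rw [e13, e7, e5, e8] at h3
      exact Or.inr (Or.inr (Or.inr (Or.inr h3)))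
  · have hbit : ∃ t, W.testBit t = true := by
      by_contra hcon
      push Not at hcon
      apply h0
      apply Nat.eq_of_testBit_eq
      intro i
      have := hcon i
      simp only [Bool.not_eq_true] at this
      rw [this, Nat.zero_testBit]
    obtain ⟨t, ht⟩ := hbit
    obtain ⟨t1, t8⟩ := Bool.and_eq_true_iff.1 ((Nat.testBit_land _ _ t).symm.trans ht)
    obtain ⟨t2, t5⟩ := Bool.and_eq_true_iff.1 ((Nat.testBit_land _ _ t).symm.trans t1)
    obtain ⟨t13, t7⟩ := Bool.and_eq_true_iff.1 ((Nat.testBit_land _ _ t).symm.trans t2)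
    obtain ⟨a0, a1, a2⟩ := mskD_spec (n := 13) (ex := 11) (PT := PT13) rfl t13
    obtain ⟨b0, b1, b2⟩ := mskD_spec (n := 7) (ex := 5) (PT := PT7) rfl t7
    obtain ⟨c0, c1, c2⟩ := mskD_spec (n := 5) (ex := 3) (PT := PT5) rfl t5
    obtain ⟨d0, d1, d2⟩ := mskD_spec (n := 8) (ex := 1) (PT := PT8) (D := cx6 8 1 PT8 a b c B m)
      rfl t8
    have hcase : t = 0 ∨ t = 1 ∨ 2 ≤ t := by omega
    rcases hcase with h1 | h1 | h1
    · left
      intro n hn
      simp only [List.mem_cons, List.not_mem_nil, or_false] at hn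
      rcases hn with rfl | rfl | rfl | rfl
      · exact a0 h1
      · exact b0 h1
      · exact c0 h1
      · exact d0 h1
    · right; left
      intro n hn
      simp only [List.mem_cons, List.not_mem_nil, or_false] at hn
      rcases hn with rfl | rfl | rfl | rfl
      · exact a1 h1
      · exact b1 h1
      · exact c1 h1
      · exact d1 h1
    · obtain ⟨F13, x1, x2, x3⟩ := a2 h1
      obtain ⟨F7, y1, y2, y3⟩ := b2 h1
      obtain ⟨F5, z1, z2, z3⟩ := c2 h1
      obtain ⟨F8, w1, w2, w3⟩ := d2 h1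
      obtain ⟨x, k1, k2⟩ := getE L13_eq x1
      obtain ⟨x', k3, k4⟩ := getE L7_eq y1
      obtain ⟨x'', k5, k6⟩ := getE L5_eq z1
      obtain ⟨x''', k7, k8⟩ := getE L8_eq w1
      have q1 : x = x' := Option.some.inj (k1.symm.trans k3)
      have q2 : x = x'' := Option.some.inj (k1.symm.trans k5)
      have q3 : x = x''' := Option.some.inj (k1.symm.trans k7)
      subst q1
      subst q2
      subst q3
      subst k2
      subst k4
      subst k6
      subst k8
      have hx : x ∈ BX8 := List.mem_of_getElem? k1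
      by_cases hp : t % 2 = 0
      · exact Or.inr (Or.inr (Or.inl (Or.inl ⟨x, hx, x2 hp, y2 hp, z2 hp, w2 hp⟩)))
      · have hp' : t % 2 = 1 := by omega
        exact Or.inr (Or.inr (Or.inr (Or.inl ⟨x, hx, x3 hp', y3 hp', z3 hp', w3 hp'⟩)))

end Pool.Agent.PSX.N8
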