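import Pool.Agent.PSX.N8V
import Pool.Agent.PSX.N8L
import Pool.Agent.PSX.N6a

/-! generated in part: the meaning of the relations with classes modulo `8` -/

namespace Pool.Agent.PSX.N8

open Pool.Agent.Lib_helper5 Pool.Agent.Lib_helper5.LK Pool.Agent.Lib_helper5.TB
  Pool.Agent.Lib_helper5.Lane Pool.Agent.Lib_helper5.P7 Pool.Agent.LibH4 Pool.Agent.LibH4.Ker
  Pool.Agent.LibH4.T6 Pool.Agent.PSX.EL Pool.Agent.PSX.D8
open Pool.Agent.LibH4.S7 (y2 r2 y3 r3 u2 v2 u3 v3 ng ng_eq ng2_eq ck memN memN_spec rs_one_of)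
open Pool.Agent.PSX.N6 (cdx6)

section

variable {Q : ℕ} {a b c B m : ℤ}

lemma cd_of (n ex PT : ℕ) : Cd n ex PT a b B m (cdx6 n ex PT a b c B m).m
    (cdx6 n ex PT a b c B m).m2 (cdx6 n ex PT a b c B m).q0 (cdx6 n ex PT a b c B m).q1
    (cdx6 n ex PT a b c B m).q2 (cdx6 n ex PT a b c B m).q3 where
  hx := rfl
  hx2 := rfl
  e0 := rfl
  e1 := rfl
  e2 := rfl
  e3 := rfl

/-- bounds of the positions -/
lemma q_lt (S : Sys6 Q a b c B m) {n ex PT : ℕ} [NeZero n] {F : List (ℕ × ℕ)}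
    (C : CompOK n ex PT F (adP n)) (hp : n.Prime) (hp2 : n ≠ 2) (hQ : n ∣ Q) {f : ℕ}
    (hf : F.length = f) :
    (cdx6 n ex PT a b c B m).q0 < f ∧ (cdx6 n ex PT a b c B m).q1 < f ∧
    (cdx6 n ex PT a b c B m).q2 < f ∧ (cdx6 n ex PT a b c B m).q3 < f := by
  have key : ∀ j ∈ J6 a b c B m, pos n ex PT (rs n j.P) (rs n j.R) (rs n j.S) < f := by
    intro j hj
    obtain ⟨_, h2⟩ := C.ok _ _ _ (rs_lt j.P) (rs_lt j.R) (rs_lt j.S)
      (adP6 S hp hp2 hQ _ _ _ (Dv_J6 a b c B m n j hj))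
    by_contra hcon
    rw [List.getElem?_eq_none (by omega)] at h2
    exact absurd h2 (by simp)
  refine ⟨key ⟨m, B, -1, 0, -B⟩ (by simp [J6]), key ⟨1, B, -m, 6, -(2 * a)⟩ (by simp [J6]),
    key ⟨m, r2 a B m, -y2 a B m, 6, -(2 * b)⟩ (by simp [J6]),
    key ⟨y2 a B m, r3 a b B m, -y3 a b B m, 6, -c⟩ (by simp [J6])⟩

/-- bounds -/
theorem RU_364F13a : RelU 7 21 t2_364F13a 12 rows_364F13a 4 where
  ht2 x hx := Nat.le_of_ble_eq_true (allR_spec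
    (by decide +kernel : allR (fun x => Nat.ble (dig t2_364F13a x) (nat_lit 12)) (nat_lit 7) = true)
      x hx)
  h21 := by decide +kernel
  hrw := rowU_of (by decide +kernel : rowUck rows_364F13a (nat_lit 84) (nat_lit 12) = true)

/-- bounds -/
theorem RU_260F13 : RelU 5 10 t2_260F13 12 rows_260F13 4 where
  ht2 x hx := Nat.le_of_ble_eq_true (allR_spec
    (by decide +kernel : allR (fun x => Nat.ble (dig t2_260F13 x) (nat_lit 12)) (nat_lit 5) = true)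
      x hx)
  h21 := by decide +kernel
  hrw := rowU_of (by decide +kernel : rowUck rows_260F13 (nat_lit 40) (nat_lit 12) = true)

/-- bounds -/
theorem RU_364F13b : RelU 7 21 t2_364F13b 12 rows_364F13b 4 where
  ht2 x hx := Nat.le_of_ble_eq_true (allR_spec
    (by decide +kernel : allR (fun x => Nat.ble (dig t2_364F13b x) (nat_lit 12)) (nat_lit 7) = true)
      x hx)
  h21 := by decide +kernel
  hrw := rowU_of (by decide +kernel : rowUck rows_364F13b (nat_lit 84) (nat_lit 12) = true)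

/-- bounds -/
theorem RU_140N13 : RelU 5 10 t2_140N13 12 rows_140N13 4 where
  ht2 x hx := Nat.le_of_ble_eq_true (allR_spec
    (by decide +kernel : allR (fun x => Nat.ble (dig t2_140N13 x) (nat_lit 12)) (nat_lit 5) = true)
      x hx)
  h21 := by decide +kernel
  hrw := rowU_of (by decide +kernel : rowUck rows_140N13 (nat_lit 40) (nat_lit 12) = true)

/-- bounds -/
theorem RU_728F13 : RelU 7 21 t2_728F13 12 rows_728F13 16 where
  ht2 x hx := Nat.le_of_ble_eq_true (allR_spec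
    (by decide +kernel : allR (fun x => Nat.ble (dig t2_728F13 x) (nat_lit 12)) (nat_lit 7) = true)
      x hx)
  h21 := by decide +kernel
  hrw := rowU_of (by decide +kernel : rowUck rows_728F13 (nat_lit 336) (nat_lit 12) = true)

/-- bounds -/
theorem RU_280F7 : RelU 5 10 t2_280F7 6 rows_280F7 16 where
  ht2 x hx := Nat.le_of_ble_eq_true (allR_spec
    (by decide +kernel : allR (fun x => Nat.ble (dig t2_280F7 x) (nat_lit 6)) (nat_lit 5) = true)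
      x hx)
  h21 := by decide +kernel
  hrw := rowU_of (by decide +kernel : rowUck rows_280F7 (nat_lit 160) (nat_lit 6) = true)

/-- bounds -/
theorem RU_728F7 : RelU 7 21 t2_728F7 6 rows_728F7 16 where
  ht2 x hx := Nat.le_of_ble_eq_true (allR_spec
    (by decide +kernel : allR (fun x => Nat.ble (dig t2_728F7 x) (nat_lit 6)) (nat_lit 7) = true)
      x hx)
  h21 := by decide +kernel
  hrw := rowU_of (by decide +kernel : rowUck rows_728F7 (nat_lit 336) (nat_lit 6) = true)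

/-- bounds -/
theorem RU_520N7 : RelU 5 10 t2_520N7 6 rows_520N7 16 where
  ht2 x hx := Nat.le_of_ble_eq_true (allR_spec
    (by decide +kernel : allR (fun x => Nat.ble (dig t2_520N7 x) (nat_lit 6)) (nat_lit 5) = true)
      x hx)
  h21 := by decide +kernel
  hrw := rowU_of (by decide +kernel : rowUck rows_520N7 (nat_lit 160) (nat_lit 6) = true)

/-- bounds -/
theorem RU_520F5 : RelU 5 10 t2_520F5 4 rows_520F5 16 where
  ht2 x hx := Nat.le_of_ble_eq_true (allR_spec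
    (by decide +kernel : allR (fun x => Nat.ble (dig t2_520F5 x) (nat_lit 4)) (nat_lit 5) = true)
      x hx)
  h21 := by decide +kernel
  hrw := rowU_of (by decide +kernel : rowUck rows_520F5 (nat_lit 160) (nat_lit 4) = true)

/-- bounds -/
theorem RU_728N5 : RelU 7 21 t2_728N5 4 rows_728N5 16 where
  ht2 x hx := Nat.le_of_ble_eq_true (allR_spec
    (by decide +kernel : allR (fun x => Nat.ble (dig t2_728N5 x) (nat_lit 4)) (nat_lit 7) = true)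
      x hx)
  h21 := by decide +kernel
  hrw := rowU_of (by decide +kernel : rowUck rows_728N5 (nat_lit 336) (nat_lit 4) = true)

/-- the relation at the lane of a point -/
theorem kb_364F13a (S : Sys6 Q a b c B m) (hQ : 3640 ∣ Q) {i : ℕ}
    (hi : LL8.flatten[i]? = some (cx6 8 1 PT8 a b c B m)) :
    ctg 20165 13 mk_8 (8 * 4) t1_364F13a t2_364F13a rows_364F13a (gat I4_0) (gat I4_1) (gat I4_2) (gat I4_3)
      (cdx6 13 11 PT13 a b c B m).m (cdx6 13 11 PT13 a b c B m).m2 (cdx6 13 11 PT13 a b c B m).q0 (cdx6 13 11 PT13 a b c B m).q1 (cdx6 13 11 PT13 a b c B m).q2 (cdx6 13 11 PT13 a b c B m).q3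
      (ng 13 (rs 13 B)) (ng 13 (Nat.mul 2 (rs 13 a))) (ng 13 (Nat.mul 2 (rs 13 b))) (ng 13 (rs 13 c)) (fun hA hB =>
      (kp8 mk_8 cc13_8 hA hB (cdx6 7 5 PT7 a b c B m).m (cdx6 7 5 PT7 a b c B m).m2 (cdx6 7 5 PT7 a b c B m).q0 (cdx6 7 5 PT7 a b c B m).q1 (cdx6 7 5 PT7 a b c B m).q2 (cdx6 7 5 PT7 a b c B m).q3).testBit
        (32 * i + 18) = true) := by
  have hd : 13 * 7 * 4 * 2197 ∣ Q ^ 6 :=
    (by norm_num : 13 * 7 * 4 * 2197 ∣ 3640 ^ 6).trans (pow_dvd_pow_of_dvd hQ 6)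
  have hr := K.u364F13a S hd
  rw [K.F4_len] at hr
  obtain ⟨j0, j1, j2, j3⟩ := q_lt S comp7 (by norm_num) (by norm_num)
    ((by norm_num : 7 ∣ 3640).trans hQ) (by decide : F7.length = 21)
  exact rel_bit (u := 12) (e := 1) (len := 4) (f2 := 21) (n1 := 13) (n2 := 7) (n3 := 4)
    (t3 := t3_364F13a) hr (by norm_num) (by norm_num)
    (by norm_num) (by norm_num) (by norm_num) (rs_one_of (by norm_num))
    (rs_one_of (by norm_num)) RU_364F13a LK13 LH4 (cd_of (c := c) 13 11 PT13) (cd_of (c := c) 7 5 PT7)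
    (rs_lt (p := 7) m) (rs_lt (p := 7) (y2 a B m)) j0 j1 j2 j3 hi (ln4 t3_364F13a)
    (ng_eq (n := 13) B) (ng2_eq (n := 13) a) (ng2_eq (n := 13) b) (ng_eq (n := 13) c)

/-- the relation at the lane of a point -/
theorem kb_260F13 (S : Sys6 Q a b c B m) (hQ : 3640 ∣ Q) {i : ℕ}
    (hi : LL8.flatten[i]? = some (cx6 8 1 PT8 a b c B m)) :
    ctg 20165 13 mk_8 (8 * 4) t1_260F13 t2_260F13 rows_260F13 (gat I4_0) (gat I4_1) (gat I4_2) (gat I4_3)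
      (cdx6 13 11 PT13 a b c B m).m (cdx6 13 11 PT13 a b c B m).m2 (cdx6 13 11 PT13 a b c B m).q0 (cdx6 13 11 PT13 a b c B m).q1 (cdx6 13 11 PT13 a b c B m).q2 (cdx6 13 11 PT13 a b c B m).q3
      (ng 13 (rs 13 B)) (ng 13 (Nat.mul 2 (rs 13 a))) (ng 13 (Nat.mul 2 (rs 13 b))) (ng 13 (rs 13 c)) (fun hA hB =>
      (kp8 mk_8 cc13_8 hA hB (cdx6 5 3 PT5 a b c B m).m (cdx6 5 3 PT5 a b c B m).m2 (cdx6 5 3 PT5 a b c B m).q0 (cdx6 5 3 PT5 a b c B m).q1 (cdx6 5 3 PT5 a b c B m).q2 (cdx6 5 3 PT5 a b c B m).q3).testBit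
        (32 * i + 18) = true) := by
  have hd : 13 * 5 * 4 * 2197 ∣ Q ^ 6 :=
    (by norm_num : 13 * 5 * 4 * 2197 ∣ 3640 ^ 6).trans (pow_dvd_pow_of_dvd hQ 6)
  have hr := K.u260F13 S hd
  rw [K.F4_len] at hr
  obtain ⟨j0, j1, j2, j3⟩ := q_lt S comp5 (by norm_num) (by norm_num)
    ((by norm_num : 5 ∣ 3640).trans hQ) (by decide : F5.length = 10)
  exact rel_bit (u := 12) (e := 1) (len := 4) (f2 := 10) (n1 := 13) (n2 := 5) (n3 := 4)
    (t3 := t3_260F13) hr (by norm_num) (by norm_num)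
    (by norm_num) (by norm_num) (by norm_num) (rs_one_of (by norm_num))
    (rs_one_of (by norm_num)) RU_260F13 LK13 LH4 (cd_of (c := c) 13 11 PT13) (cd_of (c := c) 5 3 PT5)
    (rs_lt (p := 5) m) (rs_lt (p := 5) (y2 a B m)) j0 j1 j2 j3 hi (ln4 t3_260F13)
    (ng_eq (n := 13) B) (ng2_eq (n := 13) a) (ng2_eq (n := 13) b) (ng_eq (n := 13) c)

/-- the relation at the lane of a point -/
theorem kb_364F13b (S : Sys6 Q a b c B m) (hQ : 3640 ∣ Q) {i : ℕ}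
    (hi : LL8.flatten[i]? = some (cx6 8 1 PT8 a b c B m)) :
    ctg 20165 13 mk_8 (8 * 4) t1_364F13b t2_364F13b rows_364F13b (gat I4_0) (gat I4_1) (gat I4_2) (gat I4_3)
      (cdx6 13 11 PT13 a b c B m).m (cdx6 13 11 PT13 a b c B m).m2 (cdx6 13 11 PT13 a b c B m).q0 (cdx6 13 11 PT13 a b c B m).q1 (cdx6 13 11 PT13 a b c B m).q2 (cdx6 13 11 PT13 a b c B m).q3
      (ng 13 (rs 13 B)) (ng 13 (Nat.mul 2 (rs 13 a))) (ng 13 (Nat.mul 2 (rs 13 b))) (ng 13 (rs 13 c)) (fun hA hB =>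
      (kp8 mk_8 cc13_8 hA hB (cdx6 7 5 PT7 a b c B m).m (cdx6 7 5 PT7 a b c B m).m2 (cdx6 7 5 PT7 a b c B m).q0 (cdx6 7 5 PT7 a b c B m).q1 (cdx6 7 5 PT7 a b c B m).q2 (cdx6 7 5 PT7 a b c B m).q3).testBit
        (32 * i + 18) = true) := by
  have hd : 13 * 7 * 4 * 2197 ∣ Q ^ 6 :=
    (by norm_num : 13 * 7 * 4 * 2197 ∣ 3640 ^ 6).trans (pow_dvd_pow_of_dvd hQ 6)
  have hr := K.u364F13b S hd
  rw [K.F4_len] at hr
  obtain ⟨j0, j1, j2, j3⟩ := q_lt S comp7 (by norm_num) (by norm_num)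
    ((by norm_num : 7 ∣ 3640).trans hQ) (by decide : F7.length = 21)
  exact rel_bit (u := 12) (e := 1) (len := 4) (f2 := 21) (n1 := 13) (n2 := 7) (n3 := 4)
    (t3 := t3_364F13b) hr (by norm_num) (by norm_num)
    (by norm_num) (by norm_num) (by norm_num) (rs_one_of (by norm_num))
    (rs_one_of (by norm_num)) RU_364F13b LK13 LH4 (cd_of (c := c) 13 11 PT13) (cd_of (c := c) 7 5 PT7)
    (rs_lt (p := 7) m) (rs_lt (p := 7) (y2 a B m)) j0 j1 j2 j3 hi (ln4 t3_364F13b)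
    (ng_eq (n := 13) B) (ng2_eq (n := 13) a) (ng2_eq (n := 13) b) (ng_eq (n := 13) c)

/-- the relation at the lane of a point -/
theorem kb_140N13 (S : Sys6 Q a b c B m) (hQ : 3640 ∣ Q) {i : ℕ}
    (hi : LL8.flatten[i]? = some (cx6 8 1 PT8 a b c B m)) :
    ctg 20165 13 mk_8 (8 * 4) t1_140N13 t2_140N13 rows_140N13 (gat I4_0) (gat I4_1) (gat I4_2) (gat I4_3)
      (cdx6 7 5 PT7 a b c B m).m (cdx6 7 5 PT7 a b c B m).m2 (cdx6 7 5 PT7 a b c B m).q0 (cdx6 7 5 PT7 a b c B m).q1 (cdx6 7 5 PT7 a b c B m).q2 (cdx6 7 5 PT7 a b c B m).q3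
      (ng 13 (rs 13 B)) (ng 13 (Nat.mul 2 (rs 13 a))) (ng 13 (Nat.mul 2 (rs 13 b))) (ng 13 (rs 13 c)) (fun hA hB =>
      (kp8 mk_8 cc13_8 hA hB (cdx6 5 3 PT5 a b c B m).m (cdx6 5 3 PT5 a b c B m).m2 (cdx6 5 3 PT5 a b c B m).q0 (cdx6 5 3 PT5 a b c B m).q1 (cdx6 5 3 PT5 a b c B m).q2 (cdx6 5 3 PT5 a b c B m).q3).testBit
        (32 * i + 18) = true) := by
  have hd : 7 * 5 * 4 * 13 ∣ Q ^ 6 :=
    (by norm_num : 7 * 5 * 4 * 13 ∣ 3640 ^ 6).trans (pow_dvd_pow_of_dvd hQ 6)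
  have hr := K.u140N13 S hd
  rw [K.F4_len] at hr
  obtain ⟨j0, j1, j2, j3⟩ := q_lt S comp5 (by norm_num) (by norm_num)
    ((by norm_num : 5 ∣ 3640).trans hQ) (by decide : F5.length = 10)
  exact rel_bit (u := 12) (e := 1) (len := 4) (f2 := 10) (n1 := 7) (n2 := 5) (n3 := 4)
    (t3 := t3_140N13) hr (by norm_num) (by norm_num)
    (by norm_num) (by norm_num) (by norm_num) (rs_one_of (by norm_num))
    (rs_one_of (by norm_num)) RU_140N13 LK13 LH4 (cd_of (c := c) 7 5 PT7) (cd_of (c := c) 5 3 PT5)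
    (rs_lt (p := 5) m) (rs_lt (p := 5) (y2 a B m)) j0 j1 j2 j3 hi (ln4 t3_140N13)
    (ng_eq (n := 13) B) (ng2_eq (n := 13) a) (ng2_eq (n := 13) b) (ng_eq (n := 13) c)

/-- the relation at the lane of a point -/
theorem kb_728F13 (S : Sys6 Q a b c B m) (hQ : 3640 ∣ Q) {i : ℕ}
    (hi : LL8.flatten[i]? = some (cx6 8 1 PT8 a b c B m)) :
    ctg 20165 13 mk_8 (8 * 16) t1_728F13 t2_728F13 rows_728F13 (gat I8a_0) (gat I8_1) (gat I8a_2) (gat I8a_3)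
      (cdx6 13 11 PT13 a b c B m).m (cdx6 13 11 PT13 a b c B m).m2 (cdx6 13 11 PT13 a b c B m).q0 (cdx6 13 11 PT13 a b c B m).q1 (cdx6 13 11 PT13 a b c B m).q2 (cdx6 13 11 PT13 a b c B m).q3
      (ng 13 (rs 13 B)) (ng 13 (Nat.mul 2 (rs 13 a))) (ng 13 (Nat.mul 2 (rs 13 b))) (ng 13 (rs 13 c)) (fun hA hB =>
      (kp8 mk_8 cc13_8 hA hB (cdx6 7 5 PT7 a b c B m).m (cdx6 7 5 PT7 a b c B m).m2 (cdx6 7 5 PT7 a b c B m).q0 (cdx6 7 5 PT7 a b c B m).q1 (cdx6 7 5 PT7 a b c B m).q2 (cdx6 7 5 PT7 a b c B m).q3).testBit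
        (32 * i + 18) = true) := by
  have hd : 13 * 7 * 8 * 2197 ∣ Q ^ 6 :=
    (by norm_num : 13 * 7 * 8 * 2197 ∣ 3640 ^ 6).trans (pow_dvd_pow_of_dvd hQ 6)
  have hr := K.u728F13 S hd
  rw [K.F8_len] at hr
  obtain ⟨j0, j1, j2, j3⟩ := q_lt S comp7 (by norm_num) (by norm_num)
    ((by norm_num : 7 ∣ 3640).trans hQ) (by decide : F7.length = 21)
  exact rel_bit (u := 12) (e := 1) (len := 16) (f2 := 21) (n1 := 13) (n2 := 7) (n3 := 8)
    (t3 := t3_728F13) hr (by norm_num) (by norm_num)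
    (by norm_num) (by norm_num) (by norm_num) (rs_one_of (by norm_num))
    (rs_one_of (by norm_num)) RU_728F13 LK13 LH8a (cd_of (c := c) 13 11 PT13) (cd_of (c := c) 7 5 PT7)
    (rs_lt (p := 7) m) (rs_lt (p := 7) (y2 a B m)) j0 j1 j2 j3 hi (ln8 t3_728F13)
    (ng_eq (n := 13) B) (ng2_eq (n := 13) a) (ng2_eq (n := 13) b) (ng_eq (n := 13) c)

/-- the relation at the lane of a point -/
theorem kb_280F7 (S : Sys6 Q a b c B m) (hQ : 3640 ∣ Q) {i : ℕ}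
    (hi : LL8.flatten[i]? = some (cx6 8 1 PT8 a b c B m)) :
    ctg 37450 7 mk_8 (8 * 16) t1_280F7 t2_280F7 rows_280F7 (gat I8b_0) (gat I8_1) (gat I8b_2) (gat I8b_3)
      (cdx6 7 5 PT7 a b c B m).m (cdx6 7 5 PT7 a b c B m).m2 (cdx6 7 5 PT7 a b c B m).q0 (cdx6 7 5 PT7 a b c B m).q1 (cdx6 7 5 PT7 a b c B m).q2 (cdx6 7 5 PT7 a b c B m).q3
      (ng 7 (rs 7 B)) (ng 7 (Nat.mul 2 (rs 7 a))) (ng 7 (Nat.mul 2 (rs 7 b))) (ng 7 (rs 7 c)) (fun hA hB =>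
      (kp8 mk_8 cc7_8 hA hB (cdx6 5 3 PT5 a b c B m).m (cdx6 5 3 PT5 a b c B m).m2 (cdx6 5 3 PT5 a b c B m).q0 (cdx6 5 3 PT5 a b c B m).q1 (cdx6 5 3 PT5 a b c B m).q2 (cdx6 5 3 PT5 a b c B m).q3).testBit
        (32 * i + 18) = true) := by
  have hd : 7 * 5 * 8 * 343 ∣ Q ^ 6 :=
    (by norm_num : 7 * 5 * 8 * 343 ∣ 3640 ^ 6).trans (pow_dvd_pow_of_dvd hQ 6)
  have hr := K.u280F7 S hd
  rw [K.F8_len] at hr
  obtain ⟨j0, j1, j2, j3⟩ := q_lt S comp5 (by norm_num) (by norm_num)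
    ((by norm_num : 5 ∣ 3640).trans hQ) (by decide : F5.length = 10)
  exact rel_bit (u := 6) (e := 6) (len := 16) (f2 := 10) (n1 := 7) (n2 := 5) (n3 := 8)
    (t3 := t3_280F7) hr (by norm_num) (by norm_num)
    (by norm_num) (by norm_num) (by norm_num) (rs_one_of (by norm_num))
    (rs_one_of (by norm_num)) RU_280F7 LK7 LH8b (cd_of (c := c) 7 5 PT7) (cd_of (c := c) 5 3 PT5)
    (rs_lt (p := 5) m) (rs_lt (p := 5) (y2 a B m)) j0 j1 j2 j3 hi (ln8 t3_280F7)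
    (ng_eq (n := 7) B) (ng2_eq (n := 7) a) (ng2_eq (n := 7) b) (ng_eq (n := 7) c)

/-- the relation at the lane of a point -/
theorem kb_728F7 (S : Sys6 Q a b c B m) (hQ : 3640 ∣ Q) {i : ℕ}
    (hi : LL8.flatten[i]? = some (cx6 8 1 PT8 a b c B m)) :
    ctg 37450 7 mk_8 (8 * 16) t1_728F7 t2_728F7 rows_728F7 (gat I8c_0) (gat I8_1) (gat I8c_2) (gat I8c_3)
      (cdx6 13 11 PT13 a b c B m).m (cdx6 13 11 PT13 a b c B m).m2 (cdx6 13 11 PT13 a b c B m).q0 (cdx6 13 11 PT13 a b c B m).q1 (cdx6 13 11 PT13 a b c B m).q2 (cdx6 13 11 PT13 a b c B m).q3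
      (ng 7 (rs 7 B)) (ng 7 (Nat.mul 2 (rs 7 a))) (ng 7 (Nat.mul 2 (rs 7 b))) (ng 7 (rs 7 c)) (fun hA hB =>
      (kp8 mk_8 cc7_8 hA hB (cdx6 7 5 PT7 a b c B m).m (cdx6 7 5 PT7 a b c B m).m2 (cdx6 7 5 PT7 a b c B m).q0 (cdx6 7 5 PT7 a b c B m).q1 (cdx6 7 5 PT7 a b c B m).q2 (cdx6 7 5 PT7 a b c B m).q3).testBit
        (32 * i + 18) = true) := by
  have hd : 13 * 7 * 8 * 343 ∣ Q ^ 6 :=
    (by norm_num : 13 * 7 * 8 * 343 ∣ 3640 ^ 6).trans (pow_dvd_pow_of_dvd hQ 6)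
  have hr := K.u728F7 S hd
  rw [K.F8_len] at hr
  obtain ⟨j0, j1, j2, j3⟩ := q_lt S comp7 (by norm_num) (by norm_num)
    ((by norm_num : 7 ∣ 3640).trans hQ) (by decide : F7.length = 21)
  exact rel_bit (u := 6) (e := 6) (len := 16) (f2 := 21) (n1 := 13) (n2 := 7) (n3 := 8)
    (t3 := t3_728F7) hr (by norm_num) (by norm_num)
    (by norm_num) (by norm_num) (by norm_num) (rs_one_of (by norm_num))
    (rs_one_of (by norm_num)) RU_728F7 LK7 LH8c (cd_of (c := c) 13 11 PT13) (cd_of (c := c) 7 5 PT7)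
    (rs_lt (p := 7) m) (rs_lt (p := 7) (y2 a B m)) j0 j1 j2 j3 hi (ln8 t3_728F7)
    (ng_eq (n := 7) B) (ng2_eq (n := 7) a) (ng2_eq (n := 7) b) (ng_eq (n := 7) c)

/-- the relation at the lane of a point -/
theorem kb_520N7 (S : Sys6 Q a b c B m) (hQ : 3640 ∣ Q) {i : ℕ}
    (hi : LL8.flatten[i]? = some (cx6 8 1 PT8 a b c B m)) :
    ctg 37450 7 mk_8 (8 * 16) t1_520N7 t2_520N7 rows_520N7 (gat I8c_0) (gat I8_1) (gat I8c_2) (gat I8c_3)
      (cdx6 13 11 PT13 a b c B m).m (cdx6 13 11 PT13 a b c B m).m2 (cdx6 13 11 PT13 a b c B m).q0 (cdx6 13 11 PT13 a b c B m).q1 (cdx6 13 11 PT13 a b c B m).q2 (cdx6 13 11 PT13 a b c B m).q3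
      (ng 7 (rs 7 B)) (ng 7 (Nat.mul 2 (rs 7 a))) (ng 7 (Nat.mul 2 (rs 7 b))) (ng 7 (rs 7 c)) (fun hA hB =>
      (kp8 mk_8 cc7_8 hA hB (cdx6 5 3 PT5 a b c B m).m (cdx6 5 3 PT5 a b c B m).m2 (cdx6 5 3 PT5 a b c B m).q0 (cdx6 5 3 PT5 a b c B m).q1 (cdx6 5 3 PT5 a b c B m).q2 (cdx6 5 3 PT5 a b c B m).q3).testBit
        (32 * i + 18) = true) := by
  have hd : 13 * 5 * 8 * 7 ∣ Q ^ 6 :=
    (by norm_num : 13 * 5 * 8 * 7 ∣ 3640 ^ 6).trans (pow_dvd_pow_of_dvd hQ 6)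
  have hr := K.u520N7 S hd
  rw [K.F8_len] at hr
  obtain ⟨j0, j1, j2, j3⟩ := q_lt S comp5 (by norm_num) (by norm_num)
    ((by norm_num : 5 ∣ 3640).trans hQ) (by decide : F5.length = 10)
  exact rel_bit (u := 6) (e := 6) (len := 16) (f2 := 10) (n1 := 13) (n2 := 5) (n3 := 8)
    (t3 := t3_520N7) hr (by norm_num) (by norm_num)
    (by norm_num) (by norm_num) (by norm_num) (rs_one_of (by norm_num))
    (rs_one_of (by norm_num)) RU_520N7 LK7 LH8c (cd_of (c := c) 13 11 PT13) (cd_of (c := c) 5 3 PT5)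
    (rs_lt (p := 5) m) (rs_lt (p := 5) (y2 a B m)) j0 j1 j2 j3 hi (ln8 t3_520N7)
    (ng_eq (n := 7) B) (ng2_eq (n := 7) a) (ng2_eq (n := 7) b) (ng_eq (n := 7) c)

/-- the relation at the lane of a point -/
theorem kb_520F5 (S : Sys6 Q a b c B m) (hQ : 3640 ∣ Q) {i : ℕ}
    (hi : LL8.flatten[i]? = some (cx6 8 1 PT8 a b c B m)) :
    ctg 52429 5 mk_8 (8 * 16) t1_520F5 t2_520F5 rows_520F5 (gat I8d_0) (gat I8_1) (gat I8d_2) (gat I8d_3)
      (cdx6 13 11 PT13 a b c B m).m (cdx6 13 11 PT13 a b c B m).m2 (cdx6 13 11 PT13 a b c B m).q0 (cdx6 13 11 PT13 a b c B m).q1 (cdx6 13 11 PT13 a b c B m).q2 (cdx6 13 11 PT13 a b c B m).q3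
      (ng 5 (rs 5 B)) (ng 5 (Nat.mul 2 (rs 5 a))) (ng 5 (Nat.mul 2 (rs 5 b))) (ng 5 (rs 5 c)) (fun hA hB =>
      (kp8 mk_8 cc5_8 hA hB (cdx6 5 3 PT5 a b c B m).m (cdx6 5 3 PT5 a b c B m).m2 (cdx6 5 3 PT5 a b c B m).q0 (cdx6 5 3 PT5 a b c B m).q1 (cdx6 5 3 PT5 a b c B m).q2 (cdx6 5 3 PT5 a b c B m).q3).testBit
        (32 * i + 18) = true) := by
  have hd : 13 * 5 * 8 * 125 ∣ Q ^ 6 :=
    (by norm_num : 13 * 5 * 8 * 125 ∣ 3640 ^ 6).trans (pow_dvd_pow_of_dvd hQ 6)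
  have hr := K.u520F5 S hd
  rw [K.F8_len] at hr
  obtain ⟨j0, j1, j2, j3⟩ := q_lt S comp5 (by norm_num) (by norm_num)
    ((by norm_num : 5 ∣ 3640).trans hQ) (by decide : F5.length = 10)
  exact rel_bit (u := 4) (e := 1) (len := 16) (f2 := 10) (n1 := 13) (n2 := 5) (n3 := 8)
    (t3 := t3_520F5) hr (by norm_num) (by norm_num)
    (by norm_num) (by norm_num) (by norm_num) (rs_one_of (by norm_num))
    (rs_one_of (by norm_num)) RU_520F5 LK5 LH8d (cd_of (c := c) 13 11 PT13) (cd_of (c := c) 5 3 PT5)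
    (rs_lt (p := 5) m) (rs_lt (p := 5) (y2 a B m)) j0 j1 j2 j3 hi (ln8 t3_520F5)
    (ng_eq (n := 5) B) (ng2_eq (n := 5) a) (ng2_eq (n := 5) b) (ng_eq (n := 5) c)

/-- the relation at the lane of a point -/
theorem kb_728N5 (S : Sys6 Q a b c B m) (hQ : 3640 ∣ Q) {i : ℕ}
    (hi : LL8.flatten[i]? = some (cx6 8 1 PT8 a b c B m)) :
    ctg 52429 5 mk_8 (8 * 16) t1_728N5 t2_728N5 rows_728N5 (gat I8d_0) (gat I8_1) (gat I8d_2) (gat I8d_3)
      (cdx6 13 11 PT13 a b c B m).m (cdx6 13 11 PT13 a b c B m).m2 (cdx6 13 11 PT13 a b c B m).q0 (cdx6 13 11 PT13 a b c B m).q1 (cdx6 13 11 PT13 a b c B m).q2 (cdx6 13 11 PT13 a b c B m).q3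
      (ng 5 (rs 5 B)) (ng 5 (Nat.mul 2 (rs 5 a))) (ng 5 (Nat.mul 2 (rs 5 b))) (ng 5 (rs 5 c)) (fun hA hB =>
      (kp8 mk_8 cc5_8 hA hB (cdx6 7 5 PT7 a b c B m).m (cdx6 7 5 PT7 a b c B m).m2 (cdx6 7 5 PT7 a b c B m).q0 (cdx6 7 5 PT7 a b c B m).q1 (cdx6 7 5 PT7 a b c B m).q2 (cdx6 7 5 PT7 a b c B m).q3).testBit
        (32 * i + 18) = true) := by
  have hd : 13 * 7 * 8 * 5 ∣ Q ^ 6 :=
    (by norm_num : 13 * 7 * 8 * 5 ∣ 3640 ^ 6).trans (pow_dvd_pow_of_dvd hQ 6)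
  have hr := K.u728N5 S hd
  rw [K.F8_len] at hr
  obtain ⟨j0, j1, j2, j3⟩ := q_lt S comp7 (by norm_num) (by norm_num)
    ((by norm_num : 7 ∣ 3640).trans hQ) (by decide : F7.length = 21)
  exact rel_bit (u := 4) (e := 1) (len := 16) (f2 := 21) (n1 := 13) (n2 := 7) (n3 := 8)
    (t3 := t3_728N5) hr (by norm_num) (by norm_num)
    (by norm_num) (by norm_num) (by norm_num) (rs_one_of (by norm_num))
    (rs_one_of (by norm_num)) RU_728N5 LK5 LH8d (cd_of (c := c) 13 11 PT13) (cd_of (c := c) 7 5 PT7)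
    (rs_lt (p := 7) m) (rs_lt (p := 7) (y2 a B m)) j0 j1 j2 j3 hi (ln8 t3_728N5)
    (ng_eq (n := 5) B) (ng2_eq (n := 5) a) (ng2_eq (n := 5) b) (ng_eq (n := 5) c)

end

end Pool.Agent.PSX.N8
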