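import Pool.Agent.PSX.N8Ck
import Pool.Agent.PSX.KRel

/-! generated: checks of the vectors modulo `8` -/

namespace Pool.Agent.PSX.N8

open Pool.Agent.Lib_helper5 Pool.Agent.Lib_helper5.LK Pool.Agent.Lib_helper5.TB
  Pool.Agent.Lib_helper5.Lane Pool.Agent.Lib_helper5.P7 Pool.Agent.LibH4 Pool.Agent.LibH4.Ker
  Pool.Agent.LibH4.T6 Pool.Agent.PSX.EL

/-- residue of `m` modulo `4` -/
noncomputable def mm4 (D : CD) : ℕ := m4 D.m
/-- residue of `m2` modulo `4` -/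
noncomputable def mn4 (D : CD) : ℕ := m4 D.m2

lemma bd4 : bdCk t3_140N13 (nat_lit 12) (nat_lit 4) mm4 mn4 f40 f41 f42 f43 LL8 = true := by decide +kernel
lemma vc4_0 : vecsCk (nat_lit 4096) msk_8 t3_140N13 mm4 f40 LL8 I4_0 = true := by decide +kernel
lemma vl4_0 : I4_0.length = 4 := by decide +kernel
lemma vc4_1 : vecsCk (nat_lit 4096) msk_8 t3_140N13 (fun _ => nat_lit 1) f41 LL8 I4_1 = true := by decide +kernel
lemma vl4_1 : I4_1.length = 4 := by decide +kernel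
lemma vc4_2 : vecsCk (nat_lit 4096) msk_8 t3_140N13 mm4 f42 LL8 I4_2 = true := by decide +kernel
lemma vl4_2 : I4_2.length = 4 := by decide +kernel
lemma vc4_3 : vecsCk (nat_lit 4096) msk_8 t3_140N13 mn4 f43 LL8 I4_3 = true := by decide +kernel
lemma vl4_3 : I4_3.length = 4 := by decide +kernel
/-- vectors -/
theorem LH4 : LaneH LL8.flatten 12 4 (fun D => dig t3_140N13 (mm4 D)) (fun D => dig t3_140N13 (mn4 D))
    (dig t3_140N13 1) f40 f41 f42 f43 (gat I4_0) (gat I4_1) (gat I4_2) (gat I4_3) :=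
  laneH_of msk8_eq len8'' bd4 (by decide +kernel) vl4_0 vl4_1 vl4_2 vl4_3 vc4_0 vc4_1
    vc4_2 vc4_3

lemma bd8a : bdCk t3_728F13 (nat_lit 12) (nat_lit 16) CD.m CD.m2 CD.q0 CD.q1 CD.q2 CD.q3 LL8 = true := by decide +kernel
lemma vc8a_0 : vecsCk (nat_lit 4096) msk_8 t3_728F13 CD.m CD.q0 LL8 I8a_0 = true := by decide +kernel
lemma vl8a_0 : I8a_0.length = 16 := by decide +kernel
lemma vc8a_1 : vecsCk (nat_lit 4096) msk_8 t3_728F13 (fun _ => nat_lit 1) CD.q1 LL8 I8_1 = true := by decide +kernel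
lemma vl8a_1 : I8_1.length = 16 := by decide +kernel
lemma vc8a_2 : vecsCk (nat_lit 4096) msk_8 t3_728F13 CD.m CD.q2 LL8 I8a_2 = true := by decide +kernel
lemma vl8a_2 : I8a_2.length = 16 := by decide +kernel
lemma vc8a_3 : vecsCk (nat_lit 4096) msk_8 t3_728F13 CD.m2 CD.q3 LL8 I8a_3 = true := by decide +kernel
lemma vl8a_3 : I8a_3.length = 16 := by decide +kernel
/-- vectors -/
theorem LH8a : LaneH LL8.flatten 12 16 (fun D => dig t3_728F13 (CD.m D)) (fun D => dig t3_728F13 (CD.m2 D))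
    (dig t3_728F13 1) CD.q0 CD.q1 CD.q2 CD.q3 (gat I8a_0) (gat I8_1) (gat I8a_2) (gat I8a_3) :=
  laneH_of msk8_eq len8'' bd8a (by decide +kernel) vl8a_0 vl8a_1 vl8a_2 vl8a_3 vc8a_0 vc8a_1
    vc8a_2 vc8a_3

lemma bd8b : bdCk t3_280F7 (nat_lit 6) (nat_lit 16) CD.m CD.m2 CD.q0 CD.q1 CD.q2 CD.q3 LL8 = true := by decide +kernel
lemma vc8b_0 : vecsCk (nat_lit 4096) msk_8 t3_280F7 CD.m CD.q0 LL8 I8b_0 = true := by decide +kernel
lemma vl8b_0 : I8b_0.length = 16 := by decide +kernel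
lemma vc8b_1 : vecsCk (nat_lit 4096) msk_8 t3_280F7 (fun _ => nat_lit 1) CD.q1 LL8 I8_1 = true := by decide +kernel
lemma vl8b_1 : I8_1.length = 16 := by decide +kernel
lemma vc8b_2 : vecsCk (nat_lit 4096) msk_8 t3_280F7 CD.m CD.q2 LL8 I8b_2 = true := by decide +kernel
lemma vl8b_2 : I8b_2.length = 16 := by decide +kernel
lemma vc8b_3 : vecsCk (nat_lit 4096) msk_8 t3_280F7 CD.m2 CD.q3 LL8 I8b_3 = true := by decide +kernel
lemma vl8b_3 : I8b_3.length = 16 := by decide +kernel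
/-- vectors -/
theorem LH8b : LaneH LL8.flatten 6 16 (fun D => dig t3_280F7 (CD.m D)) (fun D => dig t3_280F7 (CD.m2 D))
    (dig t3_280F7 1) CD.q0 CD.q1 CD.q2 CD.q3 (gat I8b_0) (gat I8_1) (gat I8b_2) (gat I8b_3) :=
  laneH_of msk8_eq len8'' bd8b (by decide +kernel) vl8b_0 vl8b_1 vl8b_2 vl8b_3 vc8b_0 vc8b_1
    vc8b_2 vc8b_3

lemma bd8c : bdCk t3_728F7 (nat_lit 6) (nat_lit 16) CD.m CD.m2 CD.q0 CD.q1 CD.q2 CD.q3 LL8 = true := by decide +kernel
lemma vc8c_0 : vecsCk (nat_lit 4096) msk_8 t3_728F7 CD.m CD.q0 LL8 I8c_0 = true := by decide +kernel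
lemma vl8c_0 : I8c_0.length = 16 := by decide +kernel
lemma vc8c_1 : vecsCk (nat_lit 4096) msk_8 t3_728F7 (fun _ => nat_lit 1) CD.q1 LL8 I8_1 = true := by decide +kernel
lemma vl8c_1 : I8_1.length = 16 := by decide +kernel
lemma vc8c_2 : vecsCk (nat_lit 4096) msk_8 t3_728F7 CD.m CD.q2 LL8 I8c_2 = true := by decide +kernel
lemma vl8c_2 : I8c_2.length = 16 := by decide +kernel
lemma vc8c_3 : vecsCk (nat_lit 4096) msk_8 t3_728F7 CD.m2 CD.q3 LL8 I8c_3 = true := by decide +kernel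
lemma vl8c_3 : I8c_3.length = 16 := by decide +kernel
/-- vectors -/
theorem LH8c : LaneH LL8.flatten 6 16 (fun D => dig t3_728F7 (CD.m D)) (fun D => dig t3_728F7 (CD.m2 D))
    (dig t3_728F7 1) CD.q0 CD.q1 CD.q2 CD.q3 (gat I8c_0) (gat I8_1) (gat I8c_2) (gat I8c_3) :=
  laneH_of msk8_eq len8'' bd8c (by decide +kernel) vl8c_0 vl8c_1 vl8c_2 vl8c_3 vc8c_0 vc8c_1
    vc8c_2 vc8c_3

lemma bd8d : bdCk t3_520F5 (nat_lit 4) (nat_lit 16) CD.m CD.m2 CD.q0 CD.q1 CD.q2 CD.q3 LL8 = true := by decide +kernel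
lemma vc8d_0 : vecsCk (nat_lit 4096) msk_8 t3_520F5 CD.m CD.q0 LL8 I8d_0 = true := by decide +kernel
lemma vl8d_0 : I8d_0.length = 16 := by decide +kernel
lemma vc8d_1 : vecsCk (nat_lit 4096) msk_8 t3_520F5 (fun _ => nat_lit 1) CD.q1 LL8 I8_1 = true := by decide +kernel
lemma vl8d_1 : I8_1.length = 16 := by decide +kernel
lemma vc8d_2 : vecsCk (nat_lit 4096) msk_8 t3_520F5 CD.m CD.q2 LL8 I8d_2 = true := by decide +kernel
lemma vl8d_2 : I8d_2.length = 16 := by decide +kernel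
lemma vc8d_3 : vecsCk (nat_lit 4096) msk_8 t3_520F5 CD.m2 CD.q3 LL8 I8d_3 = true := by decide +kernel
lemma vl8d_3 : I8d_3.length = 16 := by decide +kernel
/-- vectors -/
theorem LH8d : LaneH LL8.flatten 4 16 (fun D => dig t3_520F5 (CD.m D)) (fun D => dig t3_520F5 (CD.m2 D))
    (dig t3_520F5 1) CD.q0 CD.q1 CD.q2 CD.q3 (gat I8d_0) (gat I8_1) (gat I8d_2) (gat I8d_3) :=
  laneH_of msk8_eq len8'' bd8d (by decide +kernel) vl8d_0 vl8d_1 vl8d_2 vl8d_3 vc8d_0 vc8d_1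
    vc8d_2 vc8d_3

end Pool.Agent.PSX.N8
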