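import Pool.Agent.PSX.Sys6
import Pool.Agent.RQM.C127

/-!
Period six, elimination: lanes for a reduced relation with values modulo `l` (four forms).
-/

namespace Pool.Agent.PSX.N8

open Pool.Agent.Lib_helper5 Pool.Agent.Lib_helper5.LK Pool.Agent.Lib_helper5.TB
  Pool.Agent.Lib_helper5.Lane Pool.Agent.Lib_helper5.P7 Pool.Agent.LibH4 Pool.Agent.LibH4.Ker
  Pool.Agent.LibH4.T6 Pool.Agent.PSX.EL
open Pool.Agent.LibH4.S7 (y2 r2 y3 r3)

/-! ### kernel functions -/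

/-- vector attached to a form, both tables -/
noncomputable def Wg (M mk : ℕ) (G : ℕ → ℕ) (sh RX RY sX sY i : ℕ) : ℕ :=
  Nat.land (Nat.mul M (Nat.add (Nat.mul sX (G (Nat.shiftRight RX (Nat.mul sh i))))
    (Nat.mul sY (G (Nat.shiftRight RY (Nat.mul sh i)))))) mk

/-- vector attached to a form, one table -/
noncomputable def Wy (M mk : ℕ) (G : ℕ → ℕ) (sh RY sY i : ℕ) : ℕ :=
  Nat.land (Nat.mul M (Nat.mul sY (G (Nat.shiftRight RY (Nat.mul sh i))))) mk

/-- second half of a relation -/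
noncomputable def HC (w3 : ℕ → ℕ) (t m2 q3 : ℕ) : ℕ := Nat.mul (dig t m2) (w3 q3)

/-- context of a relation with values modulo `l` at a class of the first component -/
noncomputable def ctg {β : Type} (M l mk sh t1 t2 : ℕ) (rows : List (ℕ × ℕ))
    (G0 G1 G2 G3 : ℕ → ℕ) (m m2 q0 q1 q2 q3 al0 al1 al2 al3 : ℕ)
    (k : (ℕ → ℕ → ℕ → ℕ → ℕ) → (ℕ → ℕ → ℕ) → β) : β :=
  k (HA (Wy M mk G0 sh (nthY rows q0) (Nat.mod (Nat.mul (dig t1 m) al0) l))
    (Wg M mk G1 sh (nthX rows q1) (nthY rows q1)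
      (Nat.mod (Nat.mul (nat_lit 6) (dig t1 (nat_lit 1))) l)
      (Nat.mod (Nat.mul (dig t1 (nat_lit 1)) al1) l))
    (Wg M mk G2 sh (nthX rows q2) (nthY rows q2)
      (Nat.mod (Nat.mul (nat_lit 6) (dig t1 m)) l)
      (Nat.mod (Nat.mul (dig t1 m) al2) l)) t2)
    (HC (Wg M mk G3 sh (nthX rows q3) (nthY rows q3)
      (Nat.mod (Nat.mul (nat_lit 6) (dig t1 m2)) l)
      (Nat.mod (Nat.mul (dig t1 m2) al3) l)) t2)

/-- filter of the lanes -/
noncomputable def kp8 (mk C : ℕ) (hA : ℕ → ℕ → ℕ → ℕ → ℕ) (hB : ℕ → ℕ → ℕ)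
    (m m2 q0 q1 q2 q3 : ℕ) : ℕ :=
  Nat.sub C (Nat.land (Nat.add (hA m q0 q1 q2) (hB m2 q3)) mk)

/-! ### meaning -/

/-- the weight of a form at a lane -/
def omy (ψ q : CD → ℕ) (len RY sY i : ℕ) (D : CD) : ℕ := sY * dig RY (len * i + q D) * ψ D

theorem Wg_eq {Z : List CD} {ψ q : CD → ℕ} {G : ℕ → ℕ} (hG : Gath Z ψ q G) {M mk : ℕ}
    (hmk : mk = packL (2 ^ 32) (fun _ => 2 ^ 18 - 1) Z) (len RX RY sX sY i : ℕ)
    (hb : ∀ D ∈ Z, M * om ψ q len RX RY sX sY i D < 2 ^ 32) :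
    Wg M mk G (8 * len) RX RY sX sY i =
      packL (2 ^ 32) (fun D => M * om ψ q len RX RY sX sY i D % 2 ^ 18) Z := by
  unfold Wg
  rw [gath_dig hG, gath_dig hG]
  change Nat.land (M * (sX * _ + sY * _)) mk = _
  rw [← packL_mul, ← packL_mul, ← packL_add, ← packL_mul, hmk, land_m18]
  · apply packL_congr
    intro D _
    unfold om
    congr 2
    ring
  · intro D hD
    have := hb D hD
    unfold om at this
    have e : sX * (dig RX (len * i + q D) * ψ D) + sY * (dig RY (len * i + q D) * ψ D) =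
      (sX * dig RX (len * i + q D) + sY * dig RY (len * i + q D)) * ψ D := by ring
    rw [e]
    exact this

theorem Wy_eq {Z : List CD} {ψ q : CD → ℕ} {G : ℕ → ℕ} (hG : Gath Z ψ q G) {M mk : ℕ}
    (hmk : mk = packL (2 ^ 32) (fun _ => 2 ^ 18 - 1) Z) (len RY sY i : ℕ)
    (hb : ∀ D ∈ Z, M * omy ψ q len RY sY i D < 2 ^ 32) :
    Wy M mk G (8 * len) RY sY i =
      packL (2 ^ 32) (fun D => M * omy ψ q len RY sY i D % 2 ^ 18) Z := by
  unfold Wy
  rw [gath_dig hG]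
  change Nat.land (M * (sY * _)) mk = _
  rw [← packL_mul, ← packL_mul, hmk, land_m18]
  · apply packL_congr
    intro D _
    unfold omy
    congr 2
    ring
  · intro D hD
    have := hb D hD
    unfold omy at this
    have e : sY * (dig RY (len * i + q D) * ψ D) = sY * dig RY (len * i + q D) * ψ D := by ring
    rw [e]
    exact this

lemma testM {l M e v : ℕ} (hM : l * M = 2 ^ 18 + e) (hd : l ∣ v)
    (hb : e * v < l * M) (hM2 : M ≤ 2 ^ 18) : M * v % 2 ^ 18 < M := by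
  obtain ⟨k, rfl⟩ := hd
  have e1 : M * (l * k) = e * k + 2 ^ 18 * k := by
    calc M * (l * k) = l * M * k := by ring
      _ = _ := by rw [hM]; ring
  have e2 : e * k < M := by
    have : l * (e * k) < l * M := by
      calc l * (e * k) = e * (l * k) := by ring
        _ < _ := hb
    exact Nat.lt_of_mul_lt_mul_left this
  rw [e1, Nat.add_mul_mod_self_left, Nat.mod_eq_of_lt (by omega)]
  exact e2

/-- the bit of a lane in the complement -/
theorem bit_ofM {Z : List CD} {T mk C M : ℕ} {f : CD → ℕ}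
    (hT : T = packL (2 ^ 32) f Z) (hmk : mk = packL (2 ^ 32) (fun _ => 2 ^ 18 - 1) Z)
    (hC : C = packL (2 ^ 32) (fun _ => 2 ^ 18 + M - 1) Z) (hf : ∀ D ∈ Z, f D < 2 ^ 32)
    (hM2 : M ≤ 2 ^ 18)
    {i : ℕ} {D : CD} (hi : Z[i]? = some D) (hD : f D % 2 ^ 18 < M) :
    (Nat.sub C (Nat.land T mk)).testBit (32 * i + 18) = true := by
  rw [hT, hmk, hC, land_m18 hf]
  have hlt : i < Z.length := by
    by_contra hcon
    rw [List.getElem?_eq_none (by omega)] at hi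
    exact absurd hi (by simp)
  have hi' : Z[i] = D := by
    rw [List.getElem?_eq_getElem hlt] at hi
    exact Option.some.inj hi
  have h18 : (2 : ℕ) ^ 18 = 262144 := by norm_num
  have h32 : (2 : ℕ) ^ 32 = 4294967296 := by norm_num
  change (packL (2 ^ 32) (fun _ => 2 ^ 18 + M - 1) Z -
    packL (2 ^ 32) (fun D => f D % 2 ^ 18) Z).testBit (32 * i + 18) = true
  have hM0 : 0 < M := by omega
  rw [← packL_sub]
  · have h1 := packL_digit (V := 2 ^ 32) (f := fun x : CD => 2 ^ 18 + M - 1 - f x % 2 ^ 18)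
      (L := Z) (fun x _ => by simp only [h18, h32] at *; omega) i hlt
    rw [hi', ← pow_mul] at h1
    have h3 : (2 ^ 18 + M - 1 - f D % 2 ^ 18).testBit 18 = true := by
      rw [Nat.testBit_eq_decide_div_mod_eq, decide_eq_true_eq]
      rw [h18] at *
      have e1 : 262144 ≤ 262144 + M - 1 - f D % 262144 := by omega
      have e2 : 262144 + M - 1 - f D % 262144 < 524288 := by omega
      omega
    rw [← h1, Nat.testBit_mod_two_pow, Nat.testBit_div_two_pow] at h3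
    simp only [Bool.and_eq_true, decide_eq_true_eq] at h3
    rw [add_comm (32 * i) 18]
    exact h3.2
  · intro x _
    have : f x % 2 ^ 18 < 2 ^ 18 := Nat.mod_lt _ (by norm_num)
    omega

lemma coreM (M u0 u3 w0 w1 w2 w3 : ℕ) :
    (u0 * (M * w0 % 2 ^ 18 + M * w2 % 2 ^ 18) + M * w1 % 2 ^ 18 +
      u3 * (M * w3 % 2 ^ 18)) % 2 ^ 18 =
    M * (u0 * (w0 + w2) + w1 + u3 * w3) % 2 ^ 18 := by
  rw [← ZMod.natCast_eq_natCast_iff']
  have key : ∀ x : ℕ, (((M * x % 2 ^ 18 : ℕ)) : ZMod (2 ^ 18)) = (M : ZMod (2 ^ 18)) * x := by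
    intro x
    rw [ZMod.natCast_mod]
    push_cast
    rfl
  simp only [Nat.cast_add, Nat.cast_mul, key]
  ring

lemma core4 (l u0 u3 s0 s1 s3 p0 p1 p3 a0 a1 a2 a3 X0 Y0 X1 Y1 X2 Y2 X3 Y3 : ℕ)
    (h : (s0 * u0 * p0 * (0 * X0 + a0 * Y0) + (s1 * 1 * p1 * (6 * X1 + a1 * Y1) +
      (s0 * u0 * p0 * (6 * X2 + a2 * Y2) + (s3 * u3 * p3 * (6 * X3 + a3 * Y3) + 0)))) % l = 0) :
    l ∣ u0 * ((s0 * a0 % l) * Y0 * p0 + ((6 * s0 % l) * X2 + (s0 * a2 % l) * Y2) * p0) +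
      ((6 * s1 % l) * X1 + (s1 * a1 % l) * Y1) * p1 +
      u3 * (((6 * s3 % l) * X3 + (s3 * a3 % l) * Y3) * p3) := by
  rw [← Nat.dvd_iff_mod_eq_zero, ← ZMod.natCast_eq_zero_iff] at h
  rw [← ZMod.natCast_eq_zero_iff]
  push_cast at h ⊢
  simp only [ZMod.natCast_mod]
  push_cast
  linear_combination h

/-! ### conditions on the tables -/

/-- the constant vectors of the lanes -/
structure LaneK (Z : List CD) (M mk C : ℕ) : Prop where
  hm : mk = packL (2 ^ 32) (fun _ => 2 ^ 18 - 1) Z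
  hC : C = packL (2 ^ 32) (fun _ => 2 ^ 18 + M - 1) Z

/-- the vectors of a character on the lanes -/
structure LaneH (Z : List CD) (u len : ℕ) (ψ0 ψ3 : CD → ℕ) (ψ1 : ℕ) (p0 p1 p2 p3 : CD → ℕ)
    (G0 G1 G2 G3 : ℕ → ℕ) : Prop where
  g0 : Gath Z ψ0 p0 G0
  g1 : Gath Z (fun _ => ψ1) p1 G1
  g2 : Gath Z ψ0 p2 G2
  g3 : Gath Z ψ3 p3 G3
  b0 : ∀ D ∈ Z, ψ0 D ≤ u
  b1 : ψ1 ≤ u
  b3 : ∀ D ∈ Z, ψ3 D ≤ u
  q0 : ∀ D ∈ Z, p0 D < len
  q1 : ∀ D ∈ Z, p1 D < len
  q2 : ∀ D ∈ Z, p2 D < len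
  q3 : ∀ D ∈ Z, p3 D < len

/-- the digits of the rows are small -/
def RowU (rows : List (ℕ × ℕ)) (n u : ℕ) : Prop :=
  ∀ i j, j < n → dig (rows.getD i (0, 0)).1 j ≤ u ∧ dig (rows.getD i (0, 0)).2 j ≤ u

/-- check of the rows -/
noncomputable def rowUck (rows : List (ℕ × ℕ)) (n u : ℕ) : Bool :=
  allL (fun x => allR (fun j => @Bool.rec (fun _ => Bool) false (Nat.ble (dig x.2 j) u)
    (Nat.ble (dig x.1 j) u)) n) rows

lemma rowU_of {rows : List (ℕ × ℕ)} {n u : ℕ} (h : rowUck rows n u = true) : RowU rows n u := by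
  intro i j hj
  by_cases hi : i < rows.length
  · have h1 := allL_spec h rows[i] (List.getElem_mem hi)
    obtain ⟨h2, h3⟩ := boolrec_spec (allR_spec h1 j hj)
    rw [List.getD_eq_getElem?_getD, List.getElem?_eq_getElem hi]
    exact ⟨Nat.le_of_ble_eq_true h2, Nat.le_of_ble_eq_true h3⟩
  · rw [List.getD_eq_getElem?_getD, List.getElem?_eq_none (by omega)]
    have e : dig 0 j = 0 := by
      rw [dig_eq, Nat.zero_div, Nat.zero_mod]
    simp only [Option.getD_none, e]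
    exact ⟨Nat.zero_le _, Nat.zero_le _⟩

/-- bounds for the tables of a relation -/
structure RelU (n2 f2 t2 u : ℕ) (rows : List (ℕ × ℕ)) (len : ℕ) : Prop where
  ht2 : ∀ x < n2, dig t2 x ≤ u
  h21 : dig t2 1 = 1
  hrw : RowU rows (f2 * len) u

lemma idx_lt {f len q p : ℕ} (hq : q < f) (hp : p < len) : len * q + p < f * len := by
  calc len * q + p < len * q + len := by omega
    _ = (q + 1) * len := by ring
    _ ≤ f * len := Nat.mul_le_mul_right _ hq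

lemma om_leU {ψ q : CD → ℕ} {len RX RY sX sY i u : ℕ} {D : CD} (h1 : sX ≤ u) (h2 : sY ≤ u)
    (h3 : ψ D ≤ u) (h4 : dig RX (len * i + q D) ≤ u) (h5 : dig RY (len * i + q D) ≤ u) :
    om ψ q len RX RY sX sY i D ≤ 2 * u ^ 3 := by
  unfold om
  calc _ ≤ (u * u + u * u) * u := Nat.mul_le_mul (Nat.add_le_add (Nat.mul_le_mul h1 h4)
        (Nat.mul_le_mul h2 h5)) h3
    _ = 2 * u ^ 3 := by ring

lemma omy_leU {ψ q : CD → ℕ} {len RY sY i u : ℕ} {D : CD} (h1 : sY ≤ u)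
    (h3 : ψ D ≤ u) (h4 : dig RY (len * i + q D) ≤ u) :
    omy ψ q len RY sY i D ≤ u ^ 3 := by
  unfold omy
  calc _ ≤ (u * u) * u := Nat.mul_le_mul (Nat.mul_le_mul h1 h4) h3
    _ = u ^ 3 := by ring

end Pool.Agent.PSX.N8
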