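import Pool.Agent.PSX.N8a

/-!
Period six, elimination: lanes for a reduced relation with values modulo `l`: survival of the
lane of a point.
-/

namespace Pool.Agent.PSX.N8

open Pool.Agent.Lib_helper5 Pool.Agent.Lib_helper5.LK Pool.Agent.Lib_helper5.TB
  Pool.Agent.Lib_helper5.Lane Pool.Agent.Lib_helper5.P7 Pool.Agent.LibH4 Pool.Agent.LibH4.Ker
  Pool.Agent.LibH4.T6 Pool.Agent.PSX.EL
open Pool.Agent.LibH4.S7 (y2 r2 y3 r3)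

section

variable {a b c B m : ℤ}

lemma fsum4 (n1 n2 n3 l ex1 ex2 ex3 PT1 PT2 PT3 t1 t2 t3 : ℕ) (rows : List (ℕ × ℕ)) (len : ℕ)
    (a b c B m : ℤ) :
    ((J6 a b c B m).map (fval n1 n2 n3 l ex1 ex2 ex3 PT1 PT2 PT3 t1 t2 t3 rows len)).sum =
    dig t1 (rs n1 m) * dig t2 (rs n2 m) * dig t3 (rs n3 m) *
      (0 * tX rows len (pos n1 ex1 PT1 (rs n1 m) (rs n1 B) (rs n1 (-1)))
        (pos n2 ex2 PT2 (rs n2 m) (rs n2 B) (rs n2 (-1)))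
        (pos n3 ex3 PT3 (rs n3 m) (rs n3 B) (rs n3 (-1))) +
      rs l (-B) * tY rows len (pos n1 ex1 PT1 (rs n1 m) (rs n1 B) (rs n1 (-1)))
        (pos n2 ex2 PT2 (rs n2 m) (rs n2 B) (rs n2 (-1)))
        (pos n3 ex3 PT3 (rs n3 m) (rs n3 B) (rs n3 (-1)))) +
    (dig t1 (rs n1 1) * dig t2 (rs n2 1) * dig t3 (rs n3 1) *
      (6 * tX rows len (pos n1 ex1 PT1 (rs n1 1) (rs n1 B) (rs n1 (-m)))
        (pos n2 ex2 PT2 (rs n2 1) (rs n2 B) (rs n2 (-m)))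
        (pos n3 ex3 PT3 (rs n3 1) (rs n3 B) (rs n3 (-m))) +
      rs l (-(2 * a)) * tY rows len (pos n1 ex1 PT1 (rs n1 1) (rs n1 B) (rs n1 (-m)))
        (pos n2 ex2 PT2 (rs n2 1) (rs n2 B) (rs n2 (-m)))
        (pos n3 ex3 PT3 (rs n3 1) (rs n3 B) (rs n3 (-m)))) +
    (dig t1 (rs n1 m) * dig t2 (rs n2 m) * dig t3 (rs n3 m) *
      (6 * tX rows len (pos n1 ex1 PT1 (rs n1 m) (rs n1 (r2 a B m)) (rs n1 (-y2 a B m)))
        (pos n2 ex2 PT2 (rs n2 m) (rs n2 (r2 a B m)) (rs n2 (-y2 a B m)))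
        (pos n3 ex3 PT3 (rs n3 m) (rs n3 (r2 a B m)) (rs n3 (-y2 a B m))) +
      rs l (-(2 * b)) * tY rows len
        (pos n1 ex1 PT1 (rs n1 m) (rs n1 (r2 a B m)) (rs n1 (-y2 a B m)))
        (pos n2 ex2 PT2 (rs n2 m) (rs n2 (r2 a B m)) (rs n2 (-y2 a B m)))
        (pos n3 ex3 PT3 (rs n3 m) (rs n3 (r2 a B m)) (rs n3 (-y2 a B m)))) +
    (dig t1 (rs n1 (y2 a B m)) * dig t2 (rs n2 (y2 a B m)) * dig t3 (rs n3 (y2 a B m)) *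
      (6 * tX rows len
        (pos n1 ex1 PT1 (rs n1 (y2 a B m)) (rs n1 (r3 a b B m)) (rs n1 (-y3 a b B m)))
        (pos n2 ex2 PT2 (rs n2 (y2 a B m)) (rs n2 (r3 a b B m)) (rs n2 (-y3 a b B m)))
        (pos n3 ex3 PT3 (rs n3 (y2 a B m)) (rs n3 (r3 a b B m)) (rs n3 (-y3 a b B m))) +
      rs l (-c) * tY rows len
        (pos n1 ex1 PT1 (rs n1 (y2 a B m)) (rs n1 (r3 a b B m)) (rs n1 (-y3 a b B m)))
        (pos n2 ex2 PT2 (rs n2 (y2 a B m)) (rs n2 (r3 a b B m)) (rs n2 (-y3 a b B m)))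
        (pos n3 ex3 PT3 (rs n3 (y2 a B m)) (rs n3 (r3 a b B m)) (rs n3 (-y3 a b B m)))) +
      0))) := rfl

variable {n1 n2 n3 l M e u ex1 ex2 ex3 PT1 PT2 PT3 t1 t2 t3 f2 len : ℕ}
  {rows : List (ℕ × ℕ)} {Z : List CD} {mk C i : ℕ} {ψ0 ψ3 : CD → ℕ} {ψ1 : ℕ}
  {p0 p1 p2 p3 : CD → ℕ} {G0 G1 G2 G3 : ℕ → ℕ}

/-- the data of a class of a component, as far as it enters a relation -/
structure Cd (n ex PT : ℕ) (a b B m : ℤ) (x x2 q0 q1 q2 q3 : ℕ) : Prop where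
  hx : x = rs n m
  hx2 : x2 = rs n (y2 a B m)
  e0 : q0 = pos n ex PT (rs n m) (rs n B) (rs n (-1))
  e1 : q1 = pos n ex PT (rs n 1) (rs n B) (rs n (-m))
  e2 : q2 = pos n ex PT (rs n m) (rs n (r2 a B m)) (rs n (-y2 a B m))
  e3 : q3 = pos n ex PT (rs n (y2 a B m)) (rs n (r3 a b B m)) (rs n (-y3 a b B m))

/-- the lane of a point -/
structure Ln (n ex PT t : ℕ) (a b B m : ℤ) (ψ0 ψ3 : CD → ℕ) (ψ1 : ℕ) (p0 p1 p2 p3 : CD → ℕ)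
    (D : CD) : Prop where
  h0 : ψ0 D = dig t (rs n m)
  h1 : ψ1 = dig t (rs n 1)
  h3 : ψ3 D = dig t (rs n (y2 a B m))
  q0 : p0 D = pos n ex PT (rs n m) (rs n B) (rs n (-1))
  q1 : p1 D = pos n ex PT (rs n 1) (rs n B) (rs n (-m))
  q2 : p2 D = pos n ex PT (rs n m) (rs n (r2 a B m)) (rs n (-y2 a B m))
  q3 : p3 D = pos n ex PT (rs n (y2 a B m)) (rs n (r3 a b B m)) (rs n (-y3 a b B m))

/-- **a lane which satisfies the relation survives** -/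
theorem rel_bit
    (hrel : ((J6 a b c B m).map (fval n1 n2 n3 l ex1 ex2 ex3 PT1 PT2 PT3 t1 t2 t3 rows len)).sum %
      l = 0)
    (hl : l = u + 1) (hu : u ≤ 12) (hM : l * M = 2 ^ 18 + e) (hM2 : M ≤ 65536)
    (hbd : e * (5 * u ^ 4 + 2 * u ^ 3) < l * M)
    (h11 : rs n1 1 = 1) (h12 : rs n2 1 = 1)
    (RB : RelU n2 f2 t2 u rows len) (KC : LaneK Z M mk C)
    (LH : LaneH Z u len ψ0 ψ3 ψ1 p0 p1 p2 p3 G0 G1 G2 G3)
    {x x2 q0 q1 q2 q3 : ℕ} (D1 : Cd n1 ex1 PT1 a b B m x x2 q0 q1 q2 q3)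
    {z z2 j0 j1 j2 j3 : ℕ} (D2 : Cd n2 ex2 PT2 a b B m z z2 j0 j1 j2 j3)
    (hz : z < n2) (hz2 : z2 < n2) (h0 : j0 < f2) (h1 : j1 < f2) (h2 : j2 < f2) (h3 : j3 < f2)
    {D : CD} (hi : Z[i]? = some D) (L : Ln n3 ex3 PT3 t3 a b B m ψ0 ψ3 ψ1 p0 p1 p2 p3 D)
    {al0 al1 al2 al3 : ℕ} (e0 : al0 = rs l (-B)) (e1 : al1 = rs l (-(2 * a)))
    (e2 : al2 = rs l (-(2 * b))) (e3 : al3 = rs l (-c)) :
    ctg M l mk (8 * len) t1 t2 rows G0 G1 G2 G3 x x2 q0 q1 q2 q3 al0 al1 al2 al3 (fun hA hB =>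
      (kp8 mk C hA hB z z2 j0 j1 j2 j3).testBit (32 * i + 18) = true) := by
  rw [fsum4, ← D1.e0, ← D1.e1, ← D1.e2, ← D1.e3, ← D2.e0, ← D2.e1, ← D2.e2, ← D2.e3, ← L.q0,
    ← L.q1, ← L.q2, ← L.q3, ← D1.hx, ← D1.hx2, ← D2.hx, ← D2.hx2, ← L.h0, ← L.h1, ← L.h3, ← e0,
    ← e1, ← e2, ← e3, h11, h12, RB.h21] at hrel
  have hDZ : D ∈ Z := List.mem_of_getElem? hi
  have hmod : ∀ y, Nat.mod y l ≤ u := by
    intro y
    have : y % l < l := Nat.mod_lt _ (by omega)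
    change y % l ≤ u
    omega
  have u3 : u ^ 3 ≤ 1728 := by
    calc u ^ 3 ≤ 12 ^ 3 := Nat.pow_le_pow_left hu 3
      _ = 1728 := by norm_num
  have big : ∀ y, y ≤ 2 * u ^ 3 → M * y < 2 ^ 32 := by
    intro y hy
    calc M * y ≤ 65536 * (2 * 1728) := Nat.mul_le_mul hM2 (by omega)
      _ < _ := by norm_num
  unfold ctg HA HC kp8
  have b0 : ∀ E ∈ Z, omy ψ0 p0 len (nthY rows q0) (Nat.mod (Nat.mul (dig t1 x) al0) l) j0 E ≤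
      u ^ 3 := fun E hE => omy_leU (hmod _) (LH.b0 E hE) (by
      rw [nthY_eq]; exact (RB.hrw _ _ (idx_lt h0 (LH.q0 E hE))).2)
  have b1 : ∀ E ∈ Z, om (fun _ => ψ1) p1 len (nthX rows q1) (nthY rows q1)
      (Nat.mod (Nat.mul 6 (dig t1 1)) l) (Nat.mod (Nat.mul (dig t1 1) al1) l) j1 E ≤
      2 * u ^ 3 := fun E hE => om_leU (hmod _) (hmod _) LH.b1 (by
      rw [nthX_eq]; exact (RB.hrw _ _ (idx_lt h1 (LH.q1 E hE))).1) (by
      rw [nthY_eq]; exact (RB.hrw _ _ (idx_lt h1 (LH.q1 E hE))).2)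
  have b2 : ∀ E ∈ Z, om ψ0 p2 len (nthX rows q2) (nthY rows q2)
      (Nat.mod (Nat.mul 6 (dig t1 x)) l) (Nat.mod (Nat.mul (dig t1 x) al2) l) j2 E ≤
      2 * u ^ 3 := fun E hE => om_leU (hmod _) (hmod _) (LH.b0 E hE) (by
      rw [nthX_eq]; exact (RB.hrw _ _ (idx_lt h2 (LH.q2 E hE))).1) (by
      rw [nthY_eq]; exact (RB.hrw _ _ (idx_lt h2 (LH.q2 E hE))).2)
  have b3 : ∀ E ∈ Z, om ψ3 p3 len (nthX rows q3) (nthY rows q3)
      (Nat.mod (Nat.mul 6 (dig t1 x2)) l) (Nat.mod (Nat.mul (dig t1 x2) al3) l) j3 E ≤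
      2 * u ^ 3 := fun E hE => om_leU (hmod _) (hmod _) (LH.b3 E hE) (by
      rw [nthX_eq]; exact (RB.hrw _ _ (idx_lt h3 (LH.q3 E hE))).1) (by
      rw [nthY_eq]; exact (RB.hrw _ _ (idx_lt h3 (LH.q3 E hE))).2)
  have w0 := Wy_eq LH.g0 (M := M) KC.hm len (nthY rows q0)
    (Nat.mod (Nat.mul (dig t1 x) al0) l) j0 (fun E hE => big _ (by have := b0 E hE; omega))
  have w1 := Wg_eq LH.g1 (M := M) KC.hm len (nthX rows q1) (nthY rows q1)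
    (Nat.mod (Nat.mul 6 (dig t1 1)) l) (Nat.mod (Nat.mul (dig t1 1) al1) l) j1
    (fun E hE => big _ (b1 E hE))
  have w2 := Wg_eq LH.g2 (M := M) KC.hm len (nthX rows q2) (nthY rows q2)
    (Nat.mod (Nat.mul 6 (dig t1 x)) l) (Nat.mod (Nat.mul (dig t1 x) al2) l) j2
    (fun E hE => big _ (b2 E hE))
  have w3 := Wg_eq LH.g3 (M := M) KC.hm len (nthX rows q3) (nthY rows q3)
    (Nat.mod (Nat.mul 6 (dig t1 x2)) l) (Nat.mod (Nat.mul (dig t1 x2) al3) l) j3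
    (fun E hE => big _ (b3 E hE))
  have g0 := RB.ht2 _ hz
  have g3 := RB.ht2 _ hz2
  refine bit_ofM (f := fun E => dig t2 z * (M * omy ψ0 p0 len (nthY rows q0)
        (Nat.mod (Nat.mul (dig t1 x) al0) l) j0 E % 2 ^ 18 +
      M * om ψ0 p2 len (nthX rows q2) (nthY rows q2)
      (Nat.mod (Nat.mul 6 (dig t1 x)) l) (Nat.mod (Nat.mul (dig t1 x) al2) l) j2 E % 2 ^ 18) +
      M * om (fun _ => ψ1) p1 len (nthX rows q1) (nthY rows q1)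
      (Nat.mod (Nat.mul 6 (dig t1 1)) l) (Nat.mod (Nat.mul (dig t1 1) al1) l) j1 E % 2 ^ 18 +
      dig t2 z2 * (M * om ψ3 p3 len (nthX rows q3) (nthY rows q3)
        (Nat.mod (Nat.mul 6 (dig t1 x2)) l) (Nat.mod (Nat.mul (dig t1 x2) al3) l) j3 E % 2 ^ 18))
      ?_ KC.hm KC.hC ?_ (by omega) hi ?_
  · change (dig t2 z * (Wy M mk G0 (8 * len) _ _ _ + Wg M mk G2 (8 * len) _ _ _ _ _) +
      Wg M mk G1 (8 * len) _ _ _ _ _) + dig t2 z2 * Wg M mk G3 (8 * len) _ _ _ _ _ = _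
    rw [packL_add, packL_add, packL_mul, packL_add, packL_mul]
    exact congrArg₂ _ (congrArg₂ _ (congrArg₂ _ rfl (congrArg₂ _ w0 w2)) w1)
      (congrArg₂ _ rfl w3)
  · intro E _
    have hx : ∀ y : ℕ, y % 2 ^ 18 ≤ 262143 := by intro y; omega
    calc _ ≤ 12 * (262143 + 262143) + 262143 + 12 * 262143 :=
          Nat.add_le_add (Nat.add_le_add (Nat.mul_le_mul (g0.trans hu) (Nat.add_le_add (hx _)
            (hx _))) (hx _)) (Nat.mul_le_mul (g3.trans hu) (hx _))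
      _ < _ := by norm_num
  · rw [coreM]
    refine testM hM ?_ ?_ (by omega)
    · have key := core4 l (dig t2 z) (dig t2 z2) (dig t1 x) (dig t1 1) (dig t1 x2) (ψ0 D) ψ1
        (ψ3 D) al0 al1 al2 al3 _ _ _ _ _ _ _ _ hrel
      unfold tX tY at key
      simp only [om, omy, nthX_eq, nthY_eq, mul_comm len]
      exact key
    · refine lt_of_le_of_lt (Nat.mul_le_mul_left e ?_) hbd
      calc _ ≤ u * (u ^ 3 + 2 * u ^ 3) + 2 * u ^ 3 + u * (2 * u ^ 3) :=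
          Nat.add_le_add (Nat.add_le_add (Nat.mul_le_mul g0 (Nat.add_le_add (b0 _ hDZ)
            (b2 _ hDZ))) (b1 _ hDZ)) (Nat.mul_le_mul g3 (b3 _ hDZ))
        _ = _ := by ring

end

end Pool.Agent.PSX.N8
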