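import Pool.Agent.PSX.N8b
import Pool.Agent.RQM.C120

/-!
Period six, elimination: classes modulo `8` (and their reductions modulo `4`) as lanes.
-/

namespace Pool.Agent.PSX.N8

open Pool.Agent.Lib_helper5 Pool.Agent.Lib_helper5.LK Pool.Agent.Lib_helper5.TB
  Pool.Agent.Lib_helper5.Lane Pool.Agent.Lib_helper5.P7 Pool.Agent.LibH4 Pool.Agent.LibH4.Ker
  Pool.Agent.LibH4.T6 Pool.Agent.PSX.EL
open Pool.Agent.LibH4.S7 (y2 r2 y3 r3 u2 v2 u3 v3 ng ng_eq u2_eq v2_eq u3_eq v3_eq rsn_one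
  rs_mod rs_one_of)

/-- the data of a point modulo `n` -/
def cx6 (n ex PT : ℕ) (a b c B m : ℤ) : CD where
  a := rs n a
  b := rs n b
  c := rs n c
  B := rs n B
  m := rs n m
  m2 := rs n (y2 a B m)
  m3 := rs n (y3 a b B m)
  q0 := pos n ex PT (rs n m) (rs n B) (rs n (-1))
  q1 := pos n ex PT (rs n 1) (rs n B) (rs n (-m))
  q2 := pos n ex PT (rs n m) (rs n (r2 a B m)) (rs n (-y2 a B m))
  q3 := pos n ex PT (rs n (y2 a B m)) (rs n (r3 a b B m)) (rs n (-y3 a b B m))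
  q4 := 0

/-- the data of a class from residues -/
noncomputable def mkD (n ex PT a b B m : ℕ) (k : CD → Bool) : Bool :=
  strict (u2 n a B m) fun m2 =>
  strict (v2 n a B m) fun R2 =>
  strict (u3 n b m m2 R2) fun m3 =>
  strict (v3 n b m2 R2) fun R3 =>
  strict (Nat.mod (Nat.mul R3 (iv n ex m3)) n) fun c =>
  strict (ng n m3) fun s3 =>
  strict (pos n ex PT m B (Nat.mod (Nat.sub n (nat_lit 1)) n)) fun q0 =>
  strict (pos n ex PT (Nat.mod (nat_lit 1) n) B (ng n m)) fun q1 =>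
  strict (pos n ex PT m R2 (ng n m2)) fun q2 =>
  strict (pos n ex PT m2 R3 s3) fun q3 =>
    k ⟨a, b, c, B, m, m2, m3, q0, q1, q2, q3, nat_lit 0⟩

section

variable {n : ℕ} [NeZero n] {a b c B m : ℤ}

lemma c_of {ex : ℕ} (hcl : Cl6 a b c B m)
    (hu : rs n (y3 a b B m) * iv n ex (rs n (y3 a b B m)) % n = 1 % n) :
    rs n (r3 a b B m) * iv n ex (rs n (y3 a b B m)) % n = rs n c := by
  apply rs_of
  have h1 := congrArg (fun x : ℕ => (x : ZMod n)) hu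
  simp only [ZMod.natCast_mod, Nat.cast_mul, rs_cast, Nat.cast_one] at h1
  have h2 : ((r3 a b B m : ℤ) : ZMod n) = (c : ZMod n) * ((y3 a b B m : ℤ) : ZMod n) := by
    rw [← hcl]; push_cast; ring
  rw [Nat.cast_mul, rs_cast, h2]
  linear_combination (c : ZMod n) * h1

lemma mkD_eq {ex PT : ℕ} {k : CD → Bool} (hcl : Cl6 a b c B m)
    (hu : rs n (y3 a b B m) * iv n ex (rs n (y3 a b B m)) % n = 1 % n) :
    mkD n ex PT (rs n a) (rs n b) (rs n B) (rs n m) k = k (cx6 n ex PT a b c B m) := by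
  unfold mkD
  simp only [strict_eq]
  have h1 : Nat.mod (Nat.sub n (nat_lit 1)) n = rs n (-1) := P7.rsn_neg_one
  have h2 : Nat.mod (Nat.mul (rs n (r3 a b B m)) (iv n ex (rs n (y3 a b B m)))) n = rs n c :=
    c_of hcl hu
  rw [u2_eq, v2_eq, u3_eq, v3_eq, h1, h2, ng_eq, ng_eq, ng_eq, rsn_one]
  rfl

end

/-! ### classes modulo `8` -/

/-- condition for a class modulo `8` -/
noncomputable def ok8 (a b B m : ℕ) : Bool :=
  @Bool.rec (fun _ => Bool) false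
    (strict (u2 (nat_lit 8) a B m) fun m2 => strict (v2 (nat_lit 8) a B m) fun R2 =>
      Nat.beq (Nat.mod (u3 (nat_lit 8) b m m2 R2) (nat_lit 4)) (nat_lit 3))
    (Nat.beq (Nat.mod (Nat.mul B m) (nat_lit 2)) (nat_lit 1))

/-- search of a class -/
noncomputable def fnd8 (n bl nb IX : ℕ) (LL : List (List CD)) (D : CD) : Bool :=
  strict (Nat.mod (Nat.shiftRight IX (Nat.mul (nat_lit 16) (Nat.add D.a (Nat.mul n (Nat.add D.b
    (Nat.mul n (Nat.add D.B (Nat.mul n D.m)))))))) (nat_lit 65536)) (fndI bl nb LL D)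

lemma fnd8_spec {n bl nb IX : ℕ} {LL : List (List CD)} {D : CD}
    (h : fnd8 n bl nb IX LL D = true) (hn : LL.length = nb) (hl : ∀ blk ∈ LL, blk.length = bl) :
    ∃ (bi : ℕ) (blk : List CD) (j : ℕ), LL[bi]? = some blk ∧ blk[j]? = some D := by
  unfold fnd8 at h
  rw [strict_eq] at h
  exact fndI_spec h hn hl

/-- check that all classes modulo `8` are found -/
noncomputable def compl8 (bl nb IX : ℕ) (LL : List (List CD)) : Bool :=
  allR (fun a => allR (fun b => allR (fun B => allR (fun m =>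
    @Bool.rec (fun _ => Bool) true
      (mkD (nat_lit 8) (nat_lit 1) PT8 a b B m (fnd8 (nat_lit 8) bl nb IX LL))
      (ok8 a b B m)) (nat_lit 8)) (nat_lit 8)) (nat_lit 8)) (nat_lit 8)

lemma rs8_int (x : ℤ) : ((rs 8 x : ℕ) : ℤ) = x % 8 := by
  unfold rs
  rw [ZMod.val_intCast]
  rfl

lemma beqT {x y : ℕ} (h : x = y) : Nat.beq x y = true := by subst h; exact Nat.beq_refl x

lemma btrue {x y : Bool} (h : @Bool.rec (fun _ => Bool) true x y = true) (hy : y = true) :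
    x = true := by subst hy; exact h

theorem compl8_spec {Q : ℕ} {a b c B m : ℤ} (S : Sys6 Q a b c B m) {bl nb IX : ℕ}
    {LL : List (List CD)} (h : compl8 bl nb IX LL = true) (hn : LL.length = nb)
    (hl : ∀ blk ∈ LL, blk.length = bl) :
    ∃ (bi : ℕ) (blk : List CD) (j : ℕ), LL[bi]? = some blk ∧
      blk[j]? = some (cx6 8 1 PT8 a b c B m) := by
  have h1 := allR_spec (allR_spec (allR_spec (allR_spec h (rs 8 a) (rs_lt (p := 8) a)) (rs 8 b)
    (rs_lt (p := 8) b)) (rs 8 B) (rs_lt (p := 8) B)) (rs 8 m) (rs_lt (p := 8) m)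
  have oB := S.oB
  have om := S.om
  have gen := S.gen
  have e1 := rs8_int B
  have e2 := rs8_int m
  have e3 := rs8_int (y3 a b B m)
  have hok : ok8 (rs 8 a) (rs 8 b) (rs 8 B) (rs 8 m) = true := by
    unfold ok8
    simp only [strict_eq]
    have g1 : Nat.beq (Nat.mod (Nat.mul (rs 8 B) (rs 8 m)) (nat_lit 2)) (nat_lit 1) = true := by
      have o1 : rs 8 B % 2 = 1 := by omega
      have o2 : rs 8 m % 2 = 1 := by omega
      have : rs 8 B * rs 8 m % 2 = 1 := by rw [Nat.mul_mod, o1, o2]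
      exact beqT this
    rw [g1]
    have g2 : u3 (nat_lit 8) (rs 8 b) (rs 8 m) (u2 (nat_lit 8) (rs 8 a) (rs 8 B) (rs 8 m))
        (v2 (nat_lit 8) (rs 8 a) (rs 8 B) (rs 8 m)) = rs 8 (y3 a b B m) := by
      have := u3_eq (n := 8) (a := a) (b := b) (B := B) (m := m)
      rw [← u2_eq (n := 8), ← v2_eq (n := 8)] at this
      exact this
    rw [g2]
    have : rs 8 (y3 a b B m) % 4 = 3 := by omega
    exact beqT this
  have h2 := btrue h1 hok
  have hu : rs 8 (y3 a b B m) * iv 8 1 (rs 8 (y3 a b B m)) % 8 = 1 % 8 := by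
    have h3 : rs 8 (y3 a b B m) < 8 := rs_lt _
    have h4 : rs 8 (y3 a b B m) = 3 ∨ rs 8 (y3 a b B m) = 7 := by omega
    rcases h4 with h4 | h4 <;> rw [h4] <;> rfl
  have h5 := mkD_eq (n := 8) (ex := 1) (PT := PT8) (k := fnd8 8 bl nb IX LL) S.cl hu
  exact fnd8_spec (h5 ▸ h2) hn hl

/-! ### reduction modulo `4` -/

/-- residue modulo `4` -/
noncomputable def m4 (x : ℕ) : ℕ := Nat.mod x (nat_lit 4)
/-- position modulo `4` -/
noncomputable def f40 (D : CD) : ℕ := pos (nat_lit 4) (nat_lit 1) PT4 (m4 D.m) (m4 D.B) (nat_lit 3)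
/-- position modulo `4` -/
noncomputable def f41 (D : CD) : ℕ :=
  pos (nat_lit 4) (nat_lit 1) PT4 (nat_lit 1) (m4 D.B) (ng (nat_lit 4) (m4 D.m))
/-- position modulo `4` -/
noncomputable def f42 (D : CD) : ℕ :=
  pos (nat_lit 4) (nat_lit 1) PT4 (m4 D.m) (v2 (nat_lit 4) (m4 D.a) (m4 D.B) (m4 D.m))
    (ng (nat_lit 4) (m4 D.m2))
/-- position modulo `4` -/
noncomputable def f43 (D : CD) : ℕ :=
  pos (nat_lit 4) (nat_lit 1) PT4 (m4 D.m2)
    (v3 (nat_lit 4) (m4 D.b) (m4 D.m2) (v2 (nat_lit 4) (m4 D.a) (m4 D.B) (m4 D.m)))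
    (ng (nat_lit 4) (m4 D.m3))

section

variable {a b c B m : ℤ}

lemma m4_rs (x : ℤ) : m4 (rs 8 x) = rs 4 x := rs_mod (n := 4) (N := 8) (by norm_num) x

/-- the lane of a point, character modulo `4` -/
lemma ln4 (t : ℕ) : Ln 4 1 PT4 t a b B m (fun D => dig t (m4 D.m)) (fun D => dig t (m4 D.m2))
    (dig t 1) f40 f41 f42 f43 (cx6 8 1 PT8 a b c B m) where
  h0 := by
    change dig t (m4 (rs 8 m)) = _
    rw [m4_rs]
  h1 := by rw [rs_one_of (by norm_num)]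
  h3 := by
    change dig t (m4 (rs 8 (y2 a B m))) = _
    rw [m4_rs]
  q0 := by
    change pos 4 1 PT4 (m4 (rs 8 m)) (m4 (rs 8 B)) 3 = _
    rw [m4_rs, m4_rs]
    rfl
  q1 := by
    change pos 4 1 PT4 1 (m4 (rs 8 B)) (ng 4 (m4 (rs 8 m))) = _
    rw [m4_rs, m4_rs, ng_eq, rs_one_of (n := 4) (by norm_num)]
  q2 := by
    change pos 4 1 PT4 (m4 (rs 8 m)) (v2 4 (m4 (rs 8 a)) (m4 (rs 8 B)) (m4 (rs 8 m)))
      (ng 4 (m4 (rs 8 (y2 a B m)))) = _
    rw [m4_rs, m4_rs, m4_rs, m4_rs, ng_eq, v2_eq]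
  q3 := by
    change pos 4 1 PT4 (m4 (rs 8 (y2 a B m))) (v3 4 (m4 (rs 8 b)) (m4 (rs 8 (y2 a B m)))
      (v2 4 (m4 (rs 8 a)) (m4 (rs 8 B)) (m4 (rs 8 m)))) (ng 4 (m4 (rs 8 (y3 a b B m)))) = _
    rw [m4_rs, m4_rs, m4_rs, m4_rs, m4_rs, m4_rs, ng_eq, v2_eq, v3_eq]

/-- the lane of a point, character modulo `8` -/
lemma ln8 (t : ℕ) : Ln 8 1 PT8 t a b B m (fun D => dig t D.m) (fun D => dig t D.m2)
    (dig t 1) CD.q0 CD.q1 CD.q2 CD.q3 (cx6 8 1 PT8 a b c B m) where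
  h0 := rfl
  h1 := by rw [rs_one_of (by norm_num)]
  h3 := rfl
  q0 := rfl
  q1 := rfl
  q2 := rfl
  q3 := rfl

end

/-! ### checking the data of the lanes -/

/-- bounds of a class -/
noncomputable def bdD (t u len : ℕ) (P0 P3 p0 p1 p2 p3 : CD → ℕ) (D : CD) : Bool :=
  @Bool.rec (fun _ => Bool) false (@Bool.rec (fun _ => Bool) false
  (@Bool.rec (fun _ => Bool) false (@Bool.rec (fun _ => Bool) false
  (@Bool.rec (fun _ => Bool) false (Nat.ble (Nat.succ (p3 D)) len)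
    (Nat.ble (Nat.succ (p2 D)) len)) (Nat.ble (Nat.succ (p1 D)) len))
    (Nat.ble (Nat.succ (p0 D)) len)) (Nat.ble (dig t (P3 D)) u)) (Nat.ble (dig t (P0 D)) u)

/-- bounds of all classes -/
noncomputable def bdCk (t u len : ℕ) (P0 P3 p0 p1 p2 p3 : CD → ℕ) (LL : List (List CD)) : Bool :=
  allL (fun blk => allL (bdD t u len P0 P3 p0 p1 p2 p3) blk) LL

lemma bdCk_spec {t u len : ℕ} {P0 P3 p0 p1 p2 p3 : CD → ℕ} {LL : List (List CD)}
    (h : bdCk t u len P0 P3 p0 p1 p2 p3 LL = true) :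
    ∀ D ∈ LL.flatten, dig t (P0 D) ≤ u ∧ dig t (P3 D) ≤ u ∧ p0 D < len ∧ p1 D < len ∧
      p2 D < len ∧ p3 D < len := by
  intro D hD
  obtain ⟨blk, h1, h2⟩ := List.mem_flatten.1 hD
  have h := allL_spec (allL_spec h blk h1) D h2
  unfold bdD at h
  obtain ⟨h1, h⟩ := boolrec_spec h
  obtain ⟨h2, h⟩ := boolrec_spec h
  obtain ⟨h3, h⟩ := boolrec_spec h
  obtain ⟨h4, h⟩ := boolrec_spec h
  obtain ⟨h5, h6⟩ := boolrec_spec h
  exact ⟨Nat.le_of_ble_eq_true h1, Nat.le_of_ble_eq_true h2, Nat.le_of_ble_eq_true h3,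
    Nat.le_of_ble_eq_true h4, Nat.le_of_ble_eq_true h5, Nat.le_of_ble_eq_true h6⟩

/-- the vectors of a character -/
lemma laneH_of {bw msk t u len : ℕ} {P0 P3 p0 p1 p2 p3 : CD → ℕ} {LL : List (List CD)}
    {I0 I1 I2 I3 : List ℕ} (hm : msk = 2 ^ bw - 1) (hl : ∀ blk ∈ LL, 32 * blk.length = bw)
    (hb : bdCk t u len P0 P3 p0 p1 p2 p3 LL = true) (h1 : dig t 1 ≤ u)
    (l0 : I0.length = len) (l1 : I1.length = len) (l2 : I2.length = len) (l3 : I3.length = len)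
    (g0 : vecsCk bw msk t P0 p0 LL I0 = true)
    (g1 : vecsCk bw msk t (fun _ => nat_lit 1) p1 LL I1 = true)
    (g2 : vecsCk bw msk t P0 p2 LL I2 = true)
    (g3 : vecsCk bw msk t P3 p3 LL I3 = true) :
    LaneH LL.flatten u len (fun D => dig t (P0 D)) (fun D => dig t (P3 D)) (dig t 1) p0 p1 p2 p3
      (gat I0) (gat I1) (gat I2) (gat I3) where
  g0 := gathL_of hm hl g0 (fun D hD => by rw [l0]; exact (bdCk_spec hb D hD).2.2.1)
  g1 := gathL_of hm hl g1 (fun D hD => by rw [l1]; exact (bdCk_spec hb D hD).2.2.2.1)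
  g2 := gathL_of hm hl g2 (fun D hD => by rw [l2]; exact (bdCk_spec hb D hD).2.2.2.2.1)
  g3 := gathL_of hm hl g3 (fun D hD => by rw [l3]; exact (bdCk_spec hb D hD).2.2.2.2.2)
  b0 D hD := (bdCk_spec hb D hD).1
  b1 := h1
  b3 D hD := (bdCk_spec hb D hD).2.1
  q0 D hD := (bdCk_spec hb D hD).2.2.1
  q1 D hD := (bdCk_spec hb D hD).2.2.2.1
  q2 D hD := (bdCk_spec hb D hD).2.2.2.2.1
  q3 D hD := (bdCk_spec hb D hD).2.2.2.2.2

end Pool.Agent.PSX.N8
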