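import Pool.Agent.PSX.EvTab
import Pool.Agent.PSX.EvC31

/-! generated: the component 31 -/

namespace Pool.Agent.PSX.Ev

open Pool.Agent.LibH4 Pool.Agent.LibH4.Ker
open Pool.Agent.Lib_helper5 Pool.Agent.Lib_helper5.LK Pool.Agent.Lib_helper5.TB

/-- representatives of the projective line -/
def L29 : List (ℕ × ℕ) := [(nat_lit 1, nat_lit 0), (nat_lit 1, nat_lit 1), (nat_lit 1, nat_lit 2), (nat_lit 1, nat_lit 3), (nat_lit 1, nat_lit 4), (nat_lit 1, nat_lit 5), (nat_lit 1, nat_lit 6), (nat_lit 1, nat_lit 7), (nat_lit 1, nat_lit 8), (nat_lit 1, nat_lit 9), (nat_lit 1, nat_lit 10), (nat_lit 1, nat_lit 11), (nat_lit 1, nat_lit 12), (nat_lit 1, nat_lit 13), (nat_lit 1, nat_lit 14), (nat_lit 1, nat_lit 15), (nat_lit 1, nat_lit 16), (nat_lit 1, nat_lit 17), (nat_lit 1, nat_lit 18), (nat_lit 1, nat_lit 19), (nat_lit 1, nat_lit 20), (nat_lit 1, nat_lit 21), (nat_lit 1, nat_lit 22), (nat_lit 1, nat_lit 23), (nat_lit 1, nat_lit 24), (nat_lit 1, nat_lit 25), (nat_lit 1, nat_lit 26), (nat_lit 1, nat_lit 27), (nat_lit 1, nat_lit 28),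 (nat_lit 0, nat_lit 1)]

lemma L29_eq : L29 = PL 29 := by decide

/-- normalised forms modulo 29 -/
def F29 : List (ℕ × ℕ) := [(nat_lit 0, nat_lit 2), (nat_lit 0, nat_lit 3), (nat_lit 0, nat_lit 8), (nat_lit 0, nat_lit 10), (nat_lit 0, nat_lit 11), (nat_lit 0, nat_lit 12), (nat_lit 0, nat_lit 14), (nat_lit 0, nat_lit 15), (nat_lit 0, nat_lit 17), (nat_lit 0, nat_lit 18), (nat_lit 0, nat_lit 19), (nat_lit 0, nat_lit 21), (nat_lit 0, nat_lit 26), (nat_lit 0, nat_lit 27), (nat_lit 1, nat_lit 1), (nat_lit 1, nat_lit 3), (nat_lit 1, nat_lit 4), (nat_lit 1, nat_lit 5), (nat_lit 1, nat_lit 7), (nat_lit 1, nat_lit 8), (nat_lit 1, nat_lit 10), (nat_lit 1, nat_lit 11), (nat_lit 1, nat_lit 12), (nat_lit 1, nat_lit 14), (nat_lit 1, nat_lit 19), (nat_lit 1, nat_lit 20), (nat_lit 1, nat_lit 24), (nat_lit 1, nat_lit 25), (nat_lit 2, nat_lit 3), (nat_lit 2, nat_lit 4), (nat_lit 2, nat_lit 9), (nat_lit 2, nat_lit 11), (nat_lit 2, nat_lit 12), (nat_lit 2, nat_lit 13), (nat_lit 2, nat_lit 15), (nat_lit 2, nat_lit 16), (nat_lit 2, nat_lit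 18), (nat_lit 2, nat_lit 19), (nat_lit 2, nat_lit 20), (nat_lit 2, nat_lit 22), (nat_lit 2, nat_lit 27), (nat_lit 2, nat_lit 28), (nat_lit 3, nat_lit 3), (nat_lit 3, nat_lit 5), (nat_lit 3, nat_lit 6), (nat_lit 3, nat_lit 7), (nat_lit 3, nat_lit 9), (nat_lit 3, nat_lit 10), (nat_lit 3, nat_lit 12), (nat_lit 3, nat_lit 13), (nat_lit 3, nat_lit 14), (nat_lit 3, nat_lit 16), (nat_lit 3, nat_lit 21), (nat_lit 3, nat_lit 22), (nat_lit 3, nat_lit 26), (nat_lit 3, nat_lit 27), (nat_lit 4, nat_lit 1), (nat_lit 4, nat_lit 2), (nat_lit 4, nat_lit 6), (nat_lit 4, nat_lit 7), (nat_lit 4, nat_lit 12), (nat_lit 4, nat_lit 14), (nat_lit 4, nat_lit 15), (nat_lit 4, nat_lit 16), (nat_lit 4, nat_lit 18), (nat_lit 4, nat_lit 19), (nat_lit 4, nat_lit 21), (nat_lit 4, nat_lit 22), (nat_lit 4, nat_lit 23), (nat_lit 4, nat_lit 25), (nat_lit 5, nat_lit 1), (nat_lit 5, nat_lit 2), (nat_lit 5, nat_lit 7), (nat_lit 5, nat_lit 9), (nat_lit 5, nat_lit 10), (nat_lit 5, nat_lit 11), (nat_lit 5, nat_lit 13), (nat_lit 5, nat_lit 14), (nat_lit 5, nat_lit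 16), (nat_lit 5, nat_lit 17), (nat_lit 5, nat_lit 18), (nat_lit 5, nat_lit 20), (nat_lit 5, nat_lit 25), (nat_lit 5, nat_lit 26), (nat_lit 6, nat_lit 1), (nat_lit 6, nat_lit 6), (nat_lit 6, nat_lit 7), (nat_lit 6, nat_lit 11), (nat_lit 6, nat_lit 12), (nat_lit 6, nat_lit 17), (nat_lit 6, nat_lit 19), (nat_lit 6, nat_lit 20), (nat_lit 6, nat_lit 21), (nat_lit 6, nat_lit 23), (nat_lit 6, nat_lit 24), (nat_lit 6, nat_lit 26), (nat_lit 6, nat_lit 27), (nat_lit 6, nat_lit 28), (nat_lit 7, nat_lit 2), (nat_lit 7, nat_lit 3), (nat_lit 7, nat_lit 7), (nat_lit 7, nat_lit 8), (nat_lit 7, nat_lit 13), (nat_lit 7, nat_lit 15), (nat_lit 7, nat_lit 16), (nat_lit 7, nat_lit 17), (nat_lit 7, nat_lit 19), (nat_lit 7, nat_lit 20), (nat_lit 7, nat_lit 22), (nat_lit 7, nat_lit 23), (nat_lit 7, nat_lit 24), (nat_lit 7, nat_lit 26), (nat_lit 8, nat_lit 1), (nat_lit 8, nat_lit 2), (nat_lit 8, nat_lit 4), (nat_lit 8, nat_lit 5), (nat_lit 8, nat_lit 6), (nat_lit 8, nat_lit 8), (nat_lit 8, nat_lit 13), (nat_lit 8, nat_lit 14), (nat_lit 8, nat_lit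 18), (nat_lit 8, nat_lit 19), (nat_lit 8, nat_lit 24), (nat_lit 8, nat_lit 26), (nat_lit 8, nat_lit 27), (nat_lit 8, nat_lit 28), (nat_lit 9, nat_lit 1), (nat_lit 9, nat_lit 2), (nat_lit 9, nat_lit 3), (nat_lit 9, nat_lit 5), (nat_lit 9, nat_lit 10), (nat_lit 9, nat_lit 11), (nat_lit 9, nat_lit 15), (nat_lit 9, nat_lit 16), (nat_lit 9, nat_lit 21), (nat_lit 9, nat_lit 23), (nat_lit 9, nat_lit 24), (nat_lit 9, nat_lit 25), (nat_lit 9, nat_lit 27), (nat_lit 9, nat_lit 28), (nat_lit 10, nat_lit 4), (nat_lit 10, nat_lit 6), (nat_lit 10, nat_lit 7), (nat_lit 10, nat_lit 8), (nat_lit 10, nat_lit 10), (nat_lit 10, nat_lit 11), (nat_lit 10, nat_lit 13), (nat_lit 10, nat_lit 14), (nat_lit 10, nat_lit 15), (nat_lit 10, nat_lit 17), (nat_lit 10, nat_lit 22), (nat_lit 10, nat_lit 23), (nat_lit 10, nat_lit 27), (nat_lit 10, nat_lit 28), (nat_lit 11, nat_lit 2), (nat_lit 11, nat_lit 4), (nat_lit 11, nat_lit 5), (nat_lit 11, nat_lit 6), (nat_lit 11, nat_lit 8), (nat_lit 11, nat_lit 9), (nat_lit 11, nat_lit 11), (nat_lit 11, nat_lit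 12), (nat_lit 11, nat_lit 13), (nat_lit 11, nat_lit 15), (nat_lit 11, nat_lit 20), (nat_lit 11, nat_lit 21), (nat_lit 11, nat_lit 25), (nat_lit 11, nat_lit 26), (nat_lit 12, nat_lit 4), (nat_lit 12, nat_lit 5), (nat_lit 12, nat_lit 9), (nat_lit 12, nat_lit 10), (nat_lit 12, nat_lit 15), (nat_lit 12, nat_lit 17), (nat_lit 12, nat_lit 18), (nat_lit 12, nat_lit 19), (nat_lit 12, nat_lit 21), (nat_lit 12, nat_lit 22), (nat_lit 12, nat_lit 24), (nat_lit 12, nat_lit 25), (nat_lit 12, nat_lit 26), (nat_lit 12, nat_lit 28), (nat_lit 13, nat_lit 3), (nat_lit 13, nat_lit 4), (nat_lit 13, nat_lit 8), (nat_lit 13, nat_lit 9), (nat_lit 13, nat_lit 14), (nat_lit 13, nat_lit 16), (nat_lit 13, nat_lit 17), (nat_lit 13, nat_lit 18), (nat_lit 13, nat_lit 20), (nat_lit 13, nat_lit 21), (nat_lit 13, nat_lit 23), (nat_lit 13, nat_lit 24), (nat_lit 13, nat_lit 25), (nat_lit 13, nat_lit 27), (nat_lit 14, nat_lit 1), (nat_lit 14, nat_lit 2), (nat_lit 14, nat_lit 3), (nat_lit 14, nat_lit 5), (nat_lit 14, nat_lit 6), (nat_lit 14, nat_lit 8),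 (nat_lit 14, nat_lit 9), (nat_lit 14, nat_lit 10), (nat_lit 14, nat_lit 12), (nat_lit 14, nat_lit 17), (nat_lit 14, nat_lit 18), (nat_lit 14, nat_lit 22), (nat_lit 14, nat_lit 23), (nat_lit 14, nat_lit 28), (nat_lit 15, nat_lit 1), (nat_lit 15, nat_lit 2), (nat_lit 15, nat_lit 3), (nat_lit 15, nat_lit 5), (nat_lit 15, nat_lit 6), (nat_lit 15, nat_lit 8), (nat_lit 15, nat_lit 9), (nat_lit 15, nat_lit 10), (nat_lit 15, nat_lit 12), (nat_lit 15, nat_lit 17), (nat_lit 15, nat_lit 18), (nat_lit 15, nat_lit 22), (nat_lit 15, nat_lit 23), (nat_lit 15, nat_lit 28), (nat_lit 16, nat_lit 3), (nat_lit 16, nat_lit 4), (nat_lit 16, nat_lit 8), (nat_lit 16, nat_lit 9), (nat_lit 16, nat_lit 14), (nat_lit 16, nat_lit 16), (nat_lit 16, nat_lit 17), (nat_lit 16, nat_lit 18), (nat_lit 16, nat_lit 20), (nat_lit 16, nat_lit 21), (nat_lit 16, nat_lit 23), (nat_lit 16, nat_lit 24), (nat_lit 16, nat_lit 25), (nat_lit 16, nat_lit 27), (nat_lit 17, nat_lit 4), (nat_lit 17, nat_lit 5), (nat_lit 17, nat_lit 9), (nat_lit 17, nat_lit 10), (nat_lit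 17, nat_lit 15), (nat_lit 17, nat_lit 17), (nat_lit 17, nat_lit 18), (nat_lit 17, nat_lit 19), (nat_lit 17, nat_lit 21), (nat_lit 17, nat_lit 22), (nat_lit 17, nat_lit 24), (nat_lit 17, nat_lit 25), (nat_lit 17, nat_lit 26), (nat_lit 17, nat_lit 28), (nat_lit 18, nat_lit 2), (nat_lit 18, nat_lit 4), (nat_lit 18, nat_lit 5), (nat_lit 18, nat_lit 6), (nat_lit 18, nat_lit 8), (nat_lit 18, nat_lit 9), (nat_lit 18, nat_lit 11), (nat_lit 18, nat_lit 12), (nat_lit 18, nat_lit 13), (nat_lit 18, nat_lit 15), (nat_lit 18, nat_lit 20), (nat_lit 18, nat_lit 21), (nat_lit 18, nat_lit 25), (nat_lit 18, nat_lit 26), (nat_lit 19, nat_lit 4), (nat_lit 19, nat_lit 6), (nat_lit 19, nat_lit 7), (nat_lit 19, nat_lit 8), (nat_lit 19, nat_lit 10), (nat_lit 19, nat_lit 11), (nat_lit 19, nat_lit 13), (nat_lit 19, nat_lit 14), (nat_lit 19, nat_lit 15), (nat_lit 19, nat_lit 17), (nat_lit 19, nat_lit 22), (nat_lit 19, nat_lit 23), (nat_lit 19, nat_lit 27), (nat_lit 19, nat_lit 28), (nat_lit 20, nat_lit 1), (nat_lit 20, nat_lit 2), (nat_lit 20,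 nat_lit 3), (nat_lit 20, nat_lit 5), (nat_lit 20, nat_lit 10), (nat_lit 20, nat_lit 11), (nat_lit 20, nat_lit 15), (nat_lit 20, nat_lit 16), (nat_lit 20, nat_lit 21), (nat_lit 20, nat_lit 23), (nat_lit 20, nat_lit 24), (nat_lit 20, nat_lit 25), (nat_lit 20, nat_lit 27), (nat_lit 20, nat_lit 28), (nat_lit 21, nat_lit 1), (nat_lit 21, nat_lit 2), (nat_lit 21, nat_lit 4), (nat_lit 21, nat_lit 5), (nat_lit 21, nat_lit 6), (nat_lit 21, nat_lit 8), (nat_lit 21, nat_lit 13), (nat_lit 21, nat_lit 14), (nat_lit 21, nat_lit 18), (nat_lit 21, nat_lit 19), (nat_lit 21, nat_lit 24), (nat_lit 21, nat_lit 26), (nat_lit 21, nat_lit 27), (nat_lit 21, nat_lit 28), (nat_lit 22, nat_lit 2), (nat_lit 22, nat_lit 3), (nat_lit 22, nat_lit 7), (nat_lit 22, nat_lit 8), (nat_lit 22, nat_lit 13), (nat_lit 22, nat_lit 15), (nat_lit 22, nat_lit 16), (nat_lit 22, nat_lit 17), (nat_lit 22, nat_lit 19), (nat_lit 22, nat_lit 20), (nat_lit 22, nat_lit 22), (nat_lit 22, nat_lit 23), (nat_lit 22, nat_lit 24), (nat_lit 22, nat_lit 26), (nat_lit 23, nat_lit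 1), (nat_lit 23, nat_lit 6), (nat_lit 23, nat_lit 7), (nat_lit 23, nat_lit 11), (nat_lit 23, nat_lit 12), (nat_lit 23, nat_lit 17), (nat_lit 23, nat_lit 19), (nat_lit 23, nat_lit 20), (nat_lit 23, nat_lit 21), (nat_lit 23, nat_lit 23), (nat_lit 23, nat_lit 24), (nat_lit 23, nat_lit 26), (nat_lit 23, nat_lit 27), (nat_lit 23, nat_lit 28), (nat_lit 24, nat_lit 1), (nat_lit 24, nat_lit 2), (nat_lit 24, nat_lit 7), (nat_lit 24, nat_lit 9), (nat_lit 24, nat_lit 10), (nat_lit 24, nat_lit 11), (nat_lit 24, nat_lit 13), (nat_lit 24, nat_lit 14), (nat_lit 24, nat_lit 16), (nat_lit 24, nat_lit 17), (nat_lit 24, nat_lit 18), (nat_lit 24, nat_lit 20), (nat_lit 24, nat_lit 25), (nat_lit 24, nat_lit 26), (nat_lit 25, nat_lit 1), (nat_lit 25, nat_lit 2), (nat_lit 25, nat_lit 6), (nat_lit 25, nat_lit 7), (nat_lit 25, nat_lit 12), (nat_lit 25, nat_lit 14), (nat_lit 25, nat_lit 15), (nat_lit 25, nat_lit 16), (nat_lit 25, nat_lit 18), (nat_lit 25, nat_lit 19), (nat_lit 25, nat_lit 21), (nat_lit 25, nat_lit 22), (nat_lit 25, nat_lit 23),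 (nat_lit 25, nat_lit 25), (nat_lit 26, nat_lit 3), (nat_lit 26, nat_lit 5), (nat_lit 26, nat_lit 6), (nat_lit 26, nat_lit 7), (nat_lit 26, nat_lit 9), (nat_lit 26, nat_lit 10), (nat_lit 26, nat_lit 12), (nat_lit 26, nat_lit 13), (nat_lit 26, nat_lit 14), (nat_lit 26, nat_lit 16), (nat_lit 26, nat_lit 21), (nat_lit 26, nat_lit 22), (nat_lit 26, nat_lit 26), (nat_lit 26, nat_lit 27), (nat_lit 27, nat_lit 3), (nat_lit 27, nat_lit 4), (nat_lit 27, nat_lit 9), (nat_lit 27, nat_lit 11), (nat_lit 27, nat_lit 12), (nat_lit 27, nat_lit 13), (nat_lit 27, nat_lit 15), (nat_lit 27, nat_lit 16), (nat_lit 27, nat_lit 18), (nat_lit 27, nat_lit 19), (nat_lit 27, nat_lit 20), (nat_lit 27, nat_lit 22), (nat_lit 27, nat_lit 27), (nat_lit 27, nat_lit 28), (nat_lit 28, nat_lit 1), (nat_lit 28, nat_lit 3), (nat_lit 28, nat_lit 4), (nat_lit 28, nat_lit 5), (nat_lit 28, nat_lit 7), (nat_lit 28, nat_lit 8), (nat_lit 28, nat_lit 10), (nat_lit 28, nat_lit 11), (nat_lit 28, nat_lit 12), (nat_lit 28, nat_lit 14), (nat_lit 28, nat_lit 19), (nat_lit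 28, nat_lit 20), (nat_lit 28, nat_lit 24), (nat_lit 28, nat_lit 25)]
/-- positions -/
def PT29 : ℕ := nat_lit 10026828011986747796873955193785651422906839769178631708785425831697148948115171881114739575947403775595541147879706514504270548610951296229374242455965695116119141578817920134518902761792624521157431406878636161586342079744659106672096143385096533202652183994770785277571228960047572243769960283045246187278619153534589833855421091295806886251966838674739083402620749375178492902057119154272136573845154330988830761832248938407421866842283834936936679093203628898167234814151003356827487822165750073875250298893709982861421604431503676680254190872297006710419812787017210837849642716042007091212881356838183908845604591138480093210052611718317239806111983268721068506476918497866191202823999135147506587589115362433968614124211469737134070539829773131676452446274055613272861320631922642085772007452113446881253245431559288064962605507535132956119380763402248213220357908849882015466538881846727371451244574597631942890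55514142528612323342365969708259604062791845739223240890694863297777310801045329671889444216044771141071182307085069647540218873781816080255149902798207092332853460022479498915776056543172942731960913664474682580430168325754838188394554203168875593909820158645571984602882166572789627585301199646158563432818821774795223999725661937910771872796087602259072561969315416570314505640871175828795659032656206720536263295971540249694973074056127599552846552508004736544231614903906790950551926387018758069108694620133563052986652782326636775052729660503878475594532678838895282337025172754839051149978707809643058971705617391576816246095191063836409034752769114103738352616300841936813589336347244738900348282815676217919619865064785644048374742919762233983922122030783745988840269771840523993552986607213948175859429743396820801664862785632923323313526946893741792540039315863022116667495396106236960524323075861306083582157398063446994142383195277419883153982607944517179332270286756758225619197942321483470255356427299594245847510770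19814656200053669706143451970740776338065540704146325080510659302843655044156699638398335937526370298756282388206548211119911655839590120050109174853013668108052636059970458531129417021773559027922581244682209651320972478534683924255175991279024032526946701003162067372938450078303897409808849304828408230053175474884362805439317579387833745678962510270884583710545757315832178705484319649680314620078401491858154543625281584973033902996875332257025740968490306102792480773202282501600602359914342341475612261667641499825913875927159626519130143022513287862004273502949066087452964339964161510438111982628556791670498692959480634142892013050738872340284450766967739710160941145606297905335237566151958300405598127675747364773422322603539608363526739845620817133171742851384457827109989433134315801260314452146212121358241816940510092591495648115274265958521574044431149986494363960035116684004806207903900554874262595691254200930379970242446135310199308255404870323207328071421466596683434552423797920755803197704721409778424972979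961966949309510528761969962206412275299555659953493271817941916016178128260130083338988799611298800584082509040486431392454050703115804549537758820796863302501987255988151556217239165556030886652864595176359609606973039238674311607126122071345614441403115691695769813793830624136709712287433246521059100602601560998328560337949019016885376506659265930735675091126661431739972696652581366934849661493154643908877127365742488917627792307667760089336267797972379269708459456760588795317005685467092888905623117821307664850179365325185857854287317127566585282013978408842041505362904194447625710709745726573224771446698274830674245625670945912008626095489448961429728751676157724509281113317326357329908615369720797056604213548494253630784649018453858408408046230001135518735311341230136060177046074763178686582200572890125175857747773114128263072112389335441354779252984005765310782113947268718166685512949468478621907417417996114637059369937641658467229144315062765644045151575861864232805656217353040535574184259545201018968911099835359457584313616302080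

lemma comp29 : CompG 29 (posW 29 27 PT29) F29 (adP 29) :=
  compCkW_spec (by norm_num) (by decide +kernel : compCkW (nat_lit 29) (nat_lit 27) PT29 F29 (adP (nat_lit 29)) = true)

end Pool.Agent.PSX.Ev
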