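import Pool.Agent.PSX.OdTree7

/-! kernel checks, middle value seven -/

namespace Pool.Agent.PSX.Ev

lemma co7_0 : so7_13 (nat_lit 0) = true := by decide +kernel
lemma co7_1 : so7_13 (nat_lit 1) = true := by decide +kernel
lemma co7_2 : so7_13 (nat_lit 2) = true := by decide +kernel
lemma co7_3 : so7_13 (nat_lit 3) = true := by decide +kernel
lemma co7_4 : so7_13 (nat_lit 4) = true := by decide +kernel

end Pool.Agent.PSX.Ev
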