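import Pool.Agent.PSX.OdZ

/-! generated: the elimination for the family with middle value seven -/

namespace Pool.Agent.PSX.Ev

open Pool.Agent.LibH4 Pool.Agent.LibH4.Ker
open Pool.Agent.Lib_helper5 Pool.Agent.Lib_helper5.LK Pool.Agent.Lib_helper5.TB

variable {Q : ℕ} {D : ℤ}

lemma rs8_4 (x : ℤ) : Nat.mod (rs 8 x) (nat_lit 4) = rs 4 x := by
  have h8 : ((rs 8 x : ℕ) : ℤ) = x % 8 := by
    unfold rs
    rw [ZMod.val_intCast]
    rfl
  have h4 : ((rs 4 x : ℕ) : ℤ) = x % 4 := by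
    unfold rs
    rw [ZMod.val_intCast]
    rfl
  change rs 8 x % 4 = rs 4 x
  omega

/-- stage 29 -/
def so7_29 (X11 X13 X17 : List (ℕ × ℕ)) (A5 A13 : List ℕ) : Bool :=
  allR (fun a => allR (fun v => clp (nat_lit 7) (nat_lit 29) (adc (nat_lit 29)) (posW (nat_lit 29) (nat_lit 27) PT29) a v fun X29 =>
    cond0 (Nat.mod (evL t1_377N5 t2_377N5 t3_377N5 rows_377N5 (nat_lit 1) X13 X29 o6 A5) (nat_lit 5)) (
    cond0 (Nat.mod (evL t1_493N5 t2_493N5 t3_493N5 rows_493N5 (nat_lit 1) X17 X29 o6 A5) (nat_lit 5)) (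
    cond0 (Nat.mod (evL t1_493N13 t2_493N13 t3_493N13 rows_493N13 (nat_lit 1) X17 X29 o6 A13) (nat_lit 13)) (
    cond0 (Nat.mod (evL t1_319N5 t2_319N5 t3_319N5 rows_319N5 (nat_lit 1) X11 X29 o6 A5) (nat_lit 5)) (
    false))))) (nat_lit 29)) (nat_lit 29)

lemma so7_29_spec {a v : ℤ} (S : OSys Q D (Jp (7 : ℕ) a v)) (hQ : 352495 ∣ Q)
    (h : so7_29 ((Jp (7 : ℕ) a v).map (cp 11 (pos 11 9 PT11))) ((Jp (7 : ℕ) a v).map (cp 13 (pos 13 11 PT13))) ((Jp (7 : ℕ) a v).map (cp 17 (pos 17 15 PT17))) ((Jp (7 : ℕ) a v).map fun j => rs 5 j.α) ((Jp (7 : ℕ) a v).map fun j => rs 13 j.α) = true) : False := by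
  unfold so7_29 at h
  have h := allR_spec (allR_spec h (rs 29 a) (rs_lt a)) (rs 29 v) (rs_lt v)
  have h := clp_odd S (by norm_num) (by norm_num) (Dvd.dvd.trans (by norm_num) hQ) h
  have h := cond0_zero (w_377N5 S Jp_κ Jp_len (Dvd.dvd.trans (by norm_num) hQ)) h
  have h := cond0_zero (w_493N5 S Jp_κ Jp_len (Dvd.dvd.trans (by norm_num) hQ)) h
  have h := cond0_zero (w_493N13 S Jp_κ Jp_len (Dvd.dvd.trans (by norm_num) hQ)) h
  have h := cond0_zero (w_319N5 S Jp_κ Jp_len (Dvd.dvd.trans (by norm_num) hQ)) h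
  exact Bool.false_ne_true h

/-- stage 17 -/
def so7_17 (X5 X8 X11 X13 : List (ℕ × ℕ)) (A5 A13 : List ℕ) : Bool :=
  allR (fun a => allR (fun v => clp (nat_lit 7) (nat_lit 17) (adc (nat_lit 17)) (pos (nat_lit 17) (nat_lit 15) PT17) a v fun X17 =>
    alp (nat_lit 7) (nat_lit 17) a v fun A17 =>
    cond0 (Nat.mod (evL t1_187F17a t2_187F17a t3_187F17a rows_187F17a (nat_lit 1) X17 X11 o6 A17) (nat_lit 17)) (
    cond0 (Nat.mod (evL t1_187F17b t2_187F17b t3_187F17b rows_187F17b (nat_lit 1) X17 X11 o6 A17) (nat_lit 17)) (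
    cond0 (Nat.mod (evL t1_221N5 t2_221N5 t3_221N5 rows_221N5 (nat_lit 1) X17 X13 o6 A5) (nat_lit 5)) (
    cond0 (Nat.mod (evL t1_520N17 t2_520N17 t3_520N17 rows_520N17 (nat_lit 16) X13 X5 X8 A17) (nat_lit 17)) (
    so7_29 X11 X13 X17 A5 A13))))) (nat_lit 17)) (nat_lit 17)

lemma so7_17_spec {a v : ℤ} (S : OSys Q D (Jp (7 : ℕ) a v)) (hQ : 704990 ∣ Q)
    (h : so7_17 ((Jp (7 : ℕ) a v).map (cp 5 (pos 5 3 PT5))) ((Jp (7 : ℕ) a v).map (cp 8 (pos 8 1 PT8))) ((Jp (7 : ℕ) a v).map (cp 11 (pos 11 9 PT11))) ((Jp (7 : ℕ) a v).map (cp 13 (pos 13 11 PT13))) ((Jp (7 : ℕ) a v).map fun j => rs 5 j.α) ((Jp (7 : ℕ) a v).map fun j => rs 13 j.α) = true) : False := by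
  unfold so7_17 at h
  have h := allR_spec (allR_spec h (rs 17 a) (rs_lt a)) (rs 17 v) (rs_lt v)
  have h := clp_odd S (by norm_num) (by norm_num) (Dvd.dvd.trans (by norm_num) hQ) h
  have h := alp_spec h
  have h := cond0_zero (w_187F17a S Jp_κ Jp_len (Dvd.dvd.trans (by norm_num) hQ)) h
  have h := cond0_zero (w_187F17b S Jp_κ Jp_len (Dvd.dvd.trans (by norm_num) hQ)) h
  have h := cond0_zero (w_221N5 S Jp_κ Jp_len (Dvd.dvd.trans (by norm_num) hQ)) h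
  have h := cond0_zero (w_520N17 S Jp_κ Jp_len (Dvd.dvd.trans (by norm_num) hQ)) h
  exact so7_29_spec S (Dvd.dvd.trans (by norm_num) hQ) h

/-- stage 11 -/
def so7_11 (X4 X5 X8 X13 : List (ℕ × ℕ)) (A5 A13 : List ℕ) : Bool :=
  allR (fun a => allR (fun v => clp (nat_lit 7) (nat_lit 11) (adc (nat_lit 11)) (pos (nat_lit 11) (nat_lit 9) PT11) a v fun X11 =>
    alp (nat_lit 7) (nat_lit 11) a v fun A11 =>
    cond0 (Nat.mod (evL t1_143N5 t2_143N5 t3_143N5 rows_143N5 (nat_lit 1) X11 X13 o6 A5) (nat_lit 5)) (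
    cond0 (Nat.mod (evL t1_572N5 t2_572N5 t3_572N5 rows_572N5 (nat_lit 4) X11 X13 X4 A5) (nat_lit 5)) (
    cond0 (Nat.mod (evL t1_88F11 t2_88F11 t3_88F11 rows_88F11 (nat_lit 1) X11 X8 o6 A11) (nat_lit 11)) (
    so7_17 X5 X8 X11 X13 A5 A13)))) (nat_lit 11)) (nat_lit 11)

lemma so7_11_spec {a v : ℤ} (S : OSys Q D (Jp (7 : ℕ) a v)) (hQ : 704990 ∣ Q)
    (h : so7_11 ((Jp (7 : ℕ) a v).map (cp 4 (pos 4 1 PT4))) ((Jp (7 : ℕ) a v).map (cp 5 (pos 5 3 PT5))) ((Jp (7 : ℕ) a v).map (cp 8 (pos 8 1 PT8))) ((Jp (7 : ℕ) a v).map (cp 13 (pos 13 11 PT13))) ((Jp (7 : ℕ) a v).map fun j => rs 5 j.α) ((Jp (7 : ℕ) a v).map fun j => rs 13 j.α) = true) : False := by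
  unfold so7_11 at h
  have h := allR_spec (allR_spec h (rs 11 a) (rs_lt a)) (rs 11 v) (rs_lt v)
  have h := clp_odd S (by norm_num) (by norm_num) (Dvd.dvd.trans (by norm_num) hQ) h
  have h := alp_spec h
  have h := cond0_zero (w_143N5 S Jp_κ Jp_len (Dvd.dvd.trans (by norm_num) hQ)) h
  have h := cond0_zero (w_572N5 S Jp_κ Jp_len (Dvd.dvd.trans (by norm_num) hQ)) h
  have h := cond0_zero (w_88F11 S Jp_κ Jp_len (Dvd.dvd.trans (by norm_num) hQ)) h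
  exact so7_17_spec S (Dvd.dvd.trans (by norm_num) hQ) h

/-- stage 8 -/
def so7_8 (X5 X13 : List (ℕ × ℕ)) (A5 A13 : List ℕ) : Bool :=
  allR (fun a => allR (fun v => clp (nat_lit 7) (nat_lit 8) ade (pos (nat_lit 8) (nat_lit 1) PT8) a v fun X8 =>
    clp (nat_lit 7) (nat_lit 4) ade (pos (nat_lit 4) (nat_lit 1) PT4) (Nat.mod a (nat_lit 4)) (Nat.mod v (nat_lit 4)) fun X4 =>
    cond0 (Nat.mod (evL t1_260F13 t2_260F13 t3_260F13 rows_260F13 (nat_lit 4) X13 X5 X4 A13) (nat_lit 13)) (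
    cond0 (Nat.mod (evL t1_520F5 t2_520F5 t3_520F5 rows_520F5 (nat_lit 16) X13 X5 X8 A5) (nat_lit 5)) (
    so7_11 X4 X5 X8 X13 A5 A13))) (nat_lit 8)) (nat_lit 8)

lemma so7_8_spec {a v : ℤ} (S : OSys Q D (Jp (7 : ℕ) a v)) (hQ : 704990 ∣ Q)
    (h : so7_8 ((Jp (7 : ℕ) a v).map (cp 5 (pos 5 3 PT5))) ((Jp (7 : ℕ) a v).map (cp 13 (pos 13 11 PT13))) ((Jp (7 : ℕ) a v).map fun j => rs 5 j.α) ((Jp (7 : ℕ) a v).map fun j => rs 13 j.α) = true) : False := by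
  unfold so7_8 at h
  have h := allR_spec (allR_spec h (rs 8 a) (rs_lt a)) (rs 8 v) (rs_lt v)
  have h := clp_even S (by norm_num) (by norm_num) h
  rw [rs8_4, rs8_4] at h
  have h := clp_even S (by norm_num) (by norm_num) h
  have h := cond0_zero (w_260F13 S Jp_κ Jp_len (Dvd.dvd.trans (by norm_num) hQ)) h
  have h := cond0_zero (w_520F5 S Jp_κ Jp_len (Dvd.dvd.trans (by norm_num) hQ)) h
  exact so7_11_spec S (Dvd.dvd.trans (by norm_num) hQ) h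

/-- stage 5 -/
def so7_5 (X13 : List (ℕ × ℕ)) (A13 : List ℕ) : Bool :=
  allR (fun a => allR (fun v => clp (nat_lit 7) (nat_lit 5) (adc (nat_lit 5)) (pos (nat_lit 5) (nat_lit 3) PT5) a v fun X5 =>
    alp (nat_lit 7) (nat_lit 5) a v fun A5 =>
    so7_8 X5 X13 A5 A13) (nat_lit 5)) (nat_lit 5)

lemma so7_5_spec {a v : ℤ} (S : OSys Q D (Jp (7 : ℕ) a v)) (hQ : 704990 ∣ Q)
    (h : so7_5 ((Jp (7 : ℕ) a v).map (cp 13 (pos 13 11 PT13))) ((Jp (7 : ℕ) a v).map fun j => rs 13 j.α) = true) : False := by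
  unfold so7_5 at h
  have h := allR_spec (allR_spec h (rs 5 a) (rs_lt a)) (rs 5 v) (rs_lt v)
  have h := clp_odd S (by norm_num) (by norm_num) (Dvd.dvd.trans (by norm_num) hQ) h
  have h := alp_spec h
  exact so7_8_spec S (Dvd.dvd.trans (by norm_num) hQ) h

/-- stage 13 -/
def so7_13 (a : ℕ) : Bool :=
  allR (fun v => clp (nat_lit 7) (nat_lit 13) (adc (nat_lit 13)) (pos (nat_lit 13) (nat_lit 11) PT13) a v fun X13 =>
    alp (nat_lit 7) (nat_lit 13) a v fun A13 =>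
    so7_5 X13 A13) (nat_lit 13)

lemma so7_13_spec {a v : ℤ} (S : OSys Q D (Jp (7 : ℕ) a v)) (hQ : 704990 ∣ Q)
    (h : so7_13 (rs 13 a)   = true) : False := by
  unfold so7_13 at h
  have h := allR_spec h (rs 13 v) (rs_lt v)
  have h := clp_odd S (by norm_num) (by norm_num) (Dvd.dvd.trans (by norm_num) hQ) h
  have h := alp_spec h
  exact so7_5_spec S (Dvd.dvd.trans (by norm_num) hQ) h

end Pool.Agent.PSX.Ev
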