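import Pool.Agent.PSX.OdSys
import Pool.Agent.PSX.OdT377N5
import Pool.Agent.PSX.OdT493N5
import Pool.Agent.PSX.OdT493N13
import Pool.Agent.PSX.OdT319N5
import Pool.Agent.RQM.C55
import Pool.Agent.RQM.C56
import Pool.Agent.RQM.C57
import Pool.Agent.RQM.C58
import Pool.Agent.RQM.C59
import Pool.Agent.RQM.C60
import Pool.Agent.RQM.C61
import Pool.Agent.RQM.C62

/-! generated: vanishing of the values of the relations, odd discriminants -/

namespace Pool.Agent.PSX.Ev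

open Pool.Agent.LibH4 Pool.Agent.LibH4.Ker
open Pool.Agent.Lib_helper5 Pool.Agent.Lib_helper5.LK Pool.Agent.Lib_helper5.TB

variable {Q : ℕ} {D : ℤ} {J : List Fm}

lemma dvd6o {x y Q : ℕ} (h : y ∣ Q) (h' : x ∣ y ^ 6) : x ∣ Q ^ 6 :=
  h'.trans (pow_dvd_pow_of_dvd h 6)

lemma w_260F13 (S : OSys Q D J) (hκ : ∀ j ∈ J, j.κ = 3) (h6 : J.length = 6) (hQ : 130 ∣ Q) :
    Nat.mod (evL t1_260F13 t2_260F13 t3_260F13 rows_260F13 (nat_lit 4) (J.map (cp 13 (pos 13 11 PT13)))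
      (J.map (cp 5 (pos 5 3 PT5))) (J.map (cp 4 (pos 4 1 PT4))) (J.map fun j => rs 13 j.α)) (nat_lit 13) = 0 := by
  have hF : F4.length = 4 := by decide
  have key := S.use tok_260F13 tab1_260F13 tab2_260F13 tab3_260F13 rok_260F13 red1_260F13 red2_260F13 red3_260F13
    (CompG.of comp13) (CompG.of comp5) (CompG.of comp4) (by norm_num) (by norm_num) (by norm_num) (by norm_num)
    (adP_JO S (by norm_num) (by norm_num) (Dvd.dvd.trans (by norm_num) hQ))
    (adP_JO S (by norm_num) (by norm_num) (Dvd.dvd.trans (by norm_num) hQ))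
    (adO_JO S (by norm_num)) (dvd6o hQ (by norm_num))
  rw [hF] at key
  rw [evL_eq 13 5 4 13 _ _ _ _ _ _ _ _ _ hκ]
  exact key

lemma w_520F5 (S : OSys Q D J) (hκ : ∀ j ∈ J, j.κ = 3) (h6 : J.length = 6) (hQ : 130 ∣ Q) :
    Nat.mod (evL t1_520F5 t2_520F5 t3_520F5 rows_520F5 (nat_lit 16) (J.map (cp 13 (pos 13 11 PT13)))
      (J.map (cp 5 (pos 5 3 PT5))) (J.map (cp 8 (pos 8 1 PT8))) (J.map fun j => rs 5 j.α)) (nat_lit 5) = 0 := by
  have hF : F8.length = 16 := by decide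
  have key := S.use tok_520F5 tab1_520F5 tab2_520F5 tab3_520F5 rok_520F5 red1_520F5 red2_520F5 red3_520F5
    (CompG.of comp13) (CompG.of comp5) (CompG.of comp8) (by norm_num) (by norm_num) (by norm_num) (by norm_num)
    (adP_JO S (by norm_num) (by norm_num) (Dvd.dvd.trans (by norm_num) hQ))
    (adP_JO S (by norm_num) (by norm_num) (Dvd.dvd.trans (by norm_num) hQ))
    (adO_JO S (by norm_num)) (dvd6o hQ (by norm_num))
  rw [hF] at key
  rw [evL_eq 13 5 8 5 _ _ _ _ _ _ _ _ _ hκ]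
  exact key

lemma w_143N5 (S : OSys Q D J) (hκ : ∀ j ∈ J, j.κ = 3) (h6 : J.length = 6) (hQ : 715 ∣ Q) :
    Nat.mod (evL t1_143N5 t2_143N5 t3_143N5 rows_143N5 (nat_lit 1) (J.map (cp 11 (pos 11 9 PT11)))
      (J.map (cp 13 (pos 13 11 PT13))) o6 (J.map fun j => rs 5 j.α)) (nat_lit 5) = 0 := by
  have hF : F1.length = 1 := by decide
  have key := S.use tok_143N5 tab1_143N5 tab2_143N5 tab3_143N5 rok_143N5 red1_143N5 red2_143N5 red3_143N5
    (CompG.of comp11) (CompG.of comp13) (CompG.of comp1) (by norm_num) (by norm_num) (by norm_num) (by norm_num)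
    (adP_JO S (by norm_num) (by norm_num) (Dvd.dvd.trans (by norm_num) hQ))
    (adP_JO S (by norm_num) (by norm_num) (Dvd.dvd.trans (by norm_num) hQ))
    (adT_J 1 J) (dvd6o hQ (by norm_num))
  rw [hF] at key
  rw [← o6_eq h6, evL_eq 11 13 1 5 _ _ _ _ _ _ _ _ _ hκ]
  exact key

lemma w_572N5 (S : OSys Q D J) (hκ : ∀ j ∈ J, j.κ = 3) (h6 : J.length = 6) (hQ : 1430 ∣ Q) :
    Nat.mod (evL t1_572N5 t2_572N5 t3_572N5 rows_572N5 (nat_lit 4) (J.map (cp 11 (pos 11 9 PT11)))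
      (J.map (cp 13 (pos 13 11 PT13))) (J.map (cp 4 (pos 4 1 PT4))) (J.map fun j => rs 5 j.α)) (nat_lit 5) = 0 := by
  have hF : F4.length = 4 := by decide
  have key := S.use tok_572N5 tab1_572N5 tab2_572N5 tab3_572N5 rok_572N5 red1_572N5 red2_572N5 red3_572N5
    (CompG.of comp11) (CompG.of comp13) (CompG.of comp4) (by norm_num) (by norm_num) (by norm_num) (by norm_num)
    (adP_JO S (by norm_num) (by norm_num) (Dvd.dvd.trans (by norm_num) hQ))
    (adP_JO S (by norm_num) (by norm_num) (Dvd.dvd.trans (by norm_num) hQ))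
    (adO_JO S (by norm_num)) (dvd6o hQ (by norm_num))
  rw [hF] at key
  rw [evL_eq 11 13 4 5 _ _ _ _ _ _ _ _ _ hκ]
  exact key

lemma w_88F11 (S : OSys Q D J) (hκ : ∀ j ∈ J, j.κ = 3) (h6 : J.length = 6) (hQ : 22 ∣ Q) :
    Nat.mod (evL t1_88F11 t2_88F11 t3_88F11 rows_88F11 (nat_lit 1) (J.map (cp 11 (pos 11 9 PT11)))
      (J.map (cp 8 (pos 8 1 PT8))) o6 (J.map fun j => rs 11 j.α)) (nat_lit 11) = 0 := by
  have hF : F1.length = 1 := by decide
  have key := S.use tok_88F11 tab1_88F11 tab2_88F11 tab3_88F11 rok_88F11 red1_88F11 red2_88F11 red3_88F11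
    (CompG.of comp11) (CompG.of comp8) (CompG.of comp1) (by norm_num) (by norm_num) (by norm_num) (by norm_num)
    (adP_JO S (by norm_num) (by norm_num) (Dvd.dvd.trans (by norm_num) hQ))
    (adO_JO S (by norm_num))
    (adT_J 1 J) (dvd6o hQ (by norm_num))
  rw [hF] at key
  rw [← o6_eq h6, evL_eq 11 8 1 11 _ _ _ _ _ _ _ _ _ hκ]
  exact key

lemma w_187F17a (S : OSys Q D J) (hκ : ∀ j ∈ J, j.κ = 3) (h6 : J.length = 6) (hQ : 187 ∣ Q) :
    Nat.mod (evL t1_187F17a t2_187F17a t3_187F17a rows_187F17a (nat_lit 1) (J.map (cp 17 (pos 17 15 PT17)))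
      (J.map (cp 11 (pos 11 9 PT11))) o6 (J.map fun j => rs 17 j.α)) (nat_lit 17) = 0 := by
  have hF : F1.length = 1 := by decide
  have key := S.use tok_187F17a tab1_187F17a tab2_187F17a tab3_187F17a rok_187F17a red1_187F17a red2_187F17a red3_187F17a
    (CompG.of comp17) (CompG.of comp11) (CompG.of comp1) (by norm_num) (by norm_num) (by norm_num) (by norm_num)
    (adP_JO S (by norm_num) (by norm_num) (Dvd.dvd.trans (by norm_num) hQ))
    (adP_JO S (by norm_num) (by norm_num) (Dvd.dvd.trans (by norm_num) hQ))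
    (adT_J 1 J) (dvd6o hQ (by norm_num))
  rw [hF] at key
  rw [← o6_eq h6, evL_eq 17 11 1 17 _ _ _ _ _ _ _ _ _ hκ]
  exact key

lemma w_187F17b (S : OSys Q D J) (hκ : ∀ j ∈ J, j.κ = 3) (h6 : J.length = 6) (hQ : 187 ∣ Q) :
    Nat.mod (evL t1_187F17b t2_187F17b t3_187F17b rows_187F17b (nat_lit 1) (J.map (cp 17 (pos 17 15 PT17)))
      (J.map (cp 11 (pos 11 9 PT11))) o6 (J.map fun j => rs 17 j.α)) (nat_lit 17) = 0 := by
  have hF : F1.length = 1 := by decide
  have key := S.use tok_187F17b tab1_187F17b tab2_187F17b tab3_187F17b rok_187F17b red1_187F17b red2_187F17b red3_187F17b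
    (CompG.of comp17) (CompG.of comp11) (CompG.of comp1) (by norm_num) (by norm_num) (by norm_num) (by norm_num)
    (adP_JO S (by norm_num) (by norm_num) (Dvd.dvd.trans (by norm_num) hQ))
    (adP_JO S (by norm_num) (by norm_num) (Dvd.dvd.trans (by norm_num) hQ))
    (adT_J 1 J) (dvd6o hQ (by norm_num))
  rw [hF] at key
  rw [← o6_eq h6, evL_eq 17 11 1 17 _ _ _ _ _ _ _ _ _ hκ]
  exact key

lemma w_221N5 (S : OSys Q D J) (hκ : ∀ j ∈ J, j.κ = 3) (h6 : J.length = 6) (hQ : 1105 ∣ Q) :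
    Nat.mod (evL t1_221N5 t2_221N5 t3_221N5 rows_221N5 (nat_lit 1) (J.map (cp 17 (pos 17 15 PT17)))
      (J.map (cp 13 (pos 13 11 PT13))) o6 (J.map fun j => rs 5 j.α)) (nat_lit 5) = 0 := by
  have hF : F1.length = 1 := by decide
  have key := S.use tok_221N5 tab1_221N5 tab2_221N5 tab3_221N5 rok_221N5 red1_221N5 red2_221N5 red3_221N5
    (CompG.of comp17) (CompG.of comp13) (CompG.of comp1) (by norm_num) (by norm_num) (by norm_num) (by norm_num)
    (adP_JO S (by norm_num) (by norm_num) (Dvd.dvd.trans (by norm_num) hQ))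
    (adP_JO S (by norm_num) (by norm_num) (Dvd.dvd.trans (by norm_num) hQ))
    (adT_J 1 J) (dvd6o hQ (by norm_num))
  rw [hF] at key
  rw [← o6_eq h6, evL_eq 17 13 1 5 _ _ _ _ _ _ _ _ _ hκ]
  exact key

lemma w_520N17 (S : OSys Q D J) (hκ : ∀ j ∈ J, j.κ = 3) (h6 : J.length = 6) (hQ : 2210 ∣ Q) :
    Nat.mod (evL t1_520N17 t2_520N17 t3_520N17 rows_520N17 (nat_lit 16) (J.map (cp 13 (pos 13 11 PT13)))
      (J.map (cp 5 (pos 5 3 PT5))) (J.map (cp 8 (pos 8 1 PT8))) (J.map fun j => rs 17 j.α)) (nat_lit 17) = 0 := by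
  have hF : F8.length = 16 := by decide
  have key := S.use tok_520N17 tab1_520N17 tab2_520N17 tab3_520N17 rok_520N17 red1_520N17 red2_520N17 red3_520N17
    (CompG.of comp13) (CompG.of comp5) (CompG.of comp8) (by norm_num) (by norm_num) (by norm_num) (by norm_num)
    (adP_JO S (by norm_num) (by norm_num) (Dvd.dvd.trans (by norm_num) hQ))
    (adP_JO S (by norm_num) (by norm_num) (Dvd.dvd.trans (by norm_num) hQ))
    (adO_JO S (by norm_num)) (dvd6o hQ (by norm_num))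
  rw [hF] at key
  rw [evL_eq 13 5 8 17 _ _ _ _ _ _ _ _ _ hκ]
  exact key

lemma w_377N5 (S : OSys Q D J) (hκ : ∀ j ∈ J, j.κ = 3) (h6 : J.length = 6) (hQ : 1885 ∣ Q) :
    Nat.mod (evL t1_377N5 t2_377N5 t3_377N5 rows_377N5 (nat_lit 1) (J.map (cp 13 (pos 13 11 PT13)))
      (J.map (cp 29 (posW 29 27 PT29))) o6 (J.map fun j => rs 5 j.α)) (nat_lit 5) = 0 := by
  have hF : F1.length = 1 := by decide
  have key := S.use tok_377N5 tab1_377N5 tab2_377N5 tab3_377N5 rok_377N5 red1_377N5 red2_377N5 red3_377N5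
    (CompG.of comp13) comp29 (CompG.of comp1) (by norm_num) (by norm_num) (by norm_num) (by norm_num)
    (adP_JO S (by norm_num) (by norm_num) (Dvd.dvd.trans (by norm_num) hQ))
    (adP_JO S (by norm_num) (by norm_num) (Dvd.dvd.trans (by norm_num) hQ))
    (adT_J 1 J) (dvd6o hQ (by norm_num))
  rw [hF] at key
  rw [← o6_eq h6, evL_eq 13 29 1 5 _ _ _ _ _ _ _ _ _ hκ]
  exact key

lemma w_493N5 (S : OSys Q D J) (hκ : ∀ j ∈ J, j.κ = 3) (h6 : J.length = 6) (hQ : 2465 ∣ Q) :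
    Nat.mod (evL t1_493N5 t2_493N5 t3_493N5 rows_493N5 (nat_lit 1) (J.map (cp 17 (pos 17 15 PT17)))
      (J.map (cp 29 (posW 29 27 PT29))) o6 (J.map fun j => rs 5 j.α)) (nat_lit 5) = 0 := by
  have hF : F1.length = 1 := by decide
  have key := S.use tok_493N5 tab1_493N5 tab2_493N5 tab3_493N5 rok_493N5 red1_493N5 red2_493N5 red3_493N5
    (CompG.of comp17) comp29 (CompG.of comp1) (by norm_num) (by norm_num) (by norm_num) (by norm_num)
    (adP_JO S (by norm_num) (by norm_num) (Dvd.dvd.trans (by norm_num) hQ))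
    (adP_JO S (by norm_num) (by norm_num) (Dvd.dvd.trans (by norm_num) hQ))
    (adT_J 1 J) (dvd6o hQ (by norm_num))
  rw [hF] at key
  rw [← o6_eq h6, evL_eq 17 29 1 5 _ _ _ _ _ _ _ _ _ hκ]
  exact key

lemma w_493N13 (S : OSys Q D J) (hκ : ∀ j ∈ J, j.κ = 3) (h6 : J.length = 6) (hQ : 6409 ∣ Q) :
    Nat.mod (evL t1_493N13 t2_493N13 t3_493N13 rows_493N13 (nat_lit 1) (J.map (cp 17 (pos 17 15 PT17)))
      (J.map (cp 29 (posW 29 27 PT29))) o6 (J.map fun j => rs 13 j.α)) (nat_lit 13) = 0 := by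
  have hF : F1.length = 1 := by decide
  have key := S.use tok_493N13 tab1_493N13 tab2_493N13 tab3_493N13 rok_493N13 red1_493N13 red2_493N13 red3_493N13
    (CompG.of comp17) comp29 (CompG.of comp1) (by norm_num) (by norm_num) (by norm_num) (by norm_num)
    (adP_JO S (by norm_num) (by norm_num) (Dvd.dvd.trans (by norm_num) hQ))
    (adP_JO S (by norm_num) (by norm_num) (Dvd.dvd.trans (by norm_num) hQ))
    (adT_J 1 J) (dvd6o hQ (by norm_num))
  rw [hF] at key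
  rw [← o6_eq h6, evL_eq 17 29 1 13 _ _ _ _ _ _ _ _ _ hκ]
  exact key

lemma w_319N5 (S : OSys Q D J) (hκ : ∀ j ∈ J, j.κ = 3) (h6 : J.length = 6) (hQ : 1595 ∣ Q) :
    Nat.mod (evL t1_319N5 t2_319N5 t3_319N5 rows_319N5 (nat_lit 1) (J.map (cp 11 (pos 11 9 PT11)))
      (J.map (cp 29 (posW 29 27 PT29))) o6 (J.map fun j => rs 5 j.α)) (nat_lit 5) = 0 := by
  have hF : F1.length = 1 := by decide
  have key := S.use tok_319N5 tab1_319N5 tab2_319N5 tab3_319N5 rok_319N5 red1_319N5 red2_319N5 red3_319N5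
    (CompG.of comp11) comp29 (CompG.of comp1) (by norm_num) (by norm_num) (by norm_num) (by norm_num)
    (adP_JO S (by norm_num) (by norm_num) (Dvd.dvd.trans (by norm_num) hQ))
    (adP_JO S (by norm_num) (by norm_num) (Dvd.dvd.trans (by norm_num) hQ))
    (adT_J 1 J) (dvd6o hQ (by norm_num))
  rw [hF] at key
  rw [← o6_eq h6, evL_eq 11 29 1 5 _ _ _ _ _ _ _ _ _ hκ]
  exact key

end Pool.Agent.PSX.Ev
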