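import Pool.Agent.RQM.C42
import Pool.Agent.OEX.V
import Pool.Agent.OEX.Defs

/-!
If all primes below `√D / 2`, with the exception of a prime `p` with `D ≤ 4 p⁴`, are inert, then the
continued fraction of `ω_d` has period length at most six.
-/

namespace Pool.Agent.PSX.OneEx

open Real Function Pool.Agent.Lib_helper5 Pool.Agent.LibH4 Pool.Agent.LibH4.CFO

variable {m B : ℤ} {s : ℝ} {x : ℕ → ℝ} {c : ℕ → ℕ}

/-- of two consecutive denominators one is small -/
lemma small_or (h : Data m B s x c) (k : ℕ) :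
    4 * (QS m B c k) ^ 2 < B ^ 2 + 4 * m ∨ 4 * (QS m B c (k + 1)) ^ 2 < B ^ 2 + 4 * m := by
  by_contra hc
  push Not at hc
  obtain ⟨h1, h2⟩ := hc
  have ik := inv_of h k
  have ik1 := inv_of h (k + 1)
  have hd := ik1.disc
  rw [QP_succ] at hd
  have p1 := ik.Spos
  have p2 := ik1.Spos
  set S := QS m B c k
  set T := QS m B c (k + 1)
  set R := QR m B c (k + 1)
  set D := B ^ 2 + 4 * m
  have hD0 : 0 < D := by
    rw [← hd]
    have : 0 < S * T := mul_pos p1 p2
    nlinarith [sq_nonneg R]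
  have h3 : D ≤ 4 * S * T := by
    by_contra hlt
    push Not at hlt
    have e1 : D * D ≤ (4 * S ^ 2) * (4 * T ^ 2) := mul_le_mul h1 h2 hD0.le (by positivity)
    have e2 : (4 * S * T) * (4 * S * T) < D * D := mul_self_lt_mul_self (by positivity) hlt
    nlinarith
  have hR : R = 0 := by
    have : R ^ 2 ≤ 0 := by linarith
    have := sq_nonneg R
    exact pow_eq_zero_iff (two_ne_zero) |>.1 (by linarith)
  have f1 := ik.frac
  have f2 := ik1.sR
  have hR' : (QR m B c (k + 1) : ℝ) = 0 := by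
    have : QR m B c (k + 1) = 0 := hR
    rw [this]; simp
  rw [hR'] at f1 f2
  have hS' : (0 : ℝ) < QS m B c k := by exact_mod_cast p1
  have hT' : (0 : ℝ) < QS m B c (k + 1) := by exact_mod_cast p2
  have hs0 : 0 < s := by
    have := h.Bs
    have := h.x0
    have h5 := h.x0pos
    rw [h.x0] at h5
    linarith
  have hsq := h.sq
  have h6 : s * s < 2 * (QS m B c k : ℝ) * (2 * (QS m B c (k + 1) : ℝ)) :=
    mul_lt_mul'' (by linarith) (by linarith) hs0.le hs0.le
  have h7 : ((B ^ 2 + 4 * m : ℤ) : ℝ) < ((4 * QS m B c k * QS m B c (k + 1) : ℤ) : ℝ) := by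
    rw [← hsq]; push_cast; linarith
  have h8 : B ^ 2 + 4 * m < 4 * QS m B c k * QS m B c (k + 1) := by exact_mod_cast h7
  have h9 : R ^ 2 + 4 * S * T = D := hd
  rw [hR] at h9
  have h10 : D < 4 * S * T := h8
  linarith

/-- a small denominator is one or the exceptional prime -/
lemma small_val (h : Data m B s x c) {D : ℤ} (hD : D = B ^ 2 + 4 * m) {p : ℕ}
    (hH : OEX.Hyp D p) (hp : D ≤ 4 * (p : ℤ) ^ 4) {k : ℕ} (hk : 4 * (QS m B c k) ^ 2 < D) :
    QS m B c k = 1 ∨ (p.Prime ∧ QS m B c k = p) := by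
  have ik := inv_of h k
  obtain ⟨S, hS⟩ := Int.eq_ofNat_of_zero_le ik.Spos.le
  have h0 := ik.Spos
  rw [hS] at hk h0 ⊢
  rcases OEX.t_V D p S (QR m B c k) hH (by omega) hk
    ⟨- QP m B c k, by rw [hD, ← ik.disc, hS]; ring⟩ with h1 | ⟨hpp, -, -, j, hj, h1⟩
  · left; rw [h1]; rfl
  · right
    refine ⟨hpp, ?_⟩
    have hp1 : (1 : ℤ) < p := by exact_mod_cast hpp.one_lt
    have hj1 : j = 1 := by
      by_contra hne
      have hj2 : 2 ≤ j := by omega
      rw [h1] at hk
      push_cast at hk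
      have h2 : (p : ℤ) ^ 2 ≤ (p : ℤ) ^ j := pow_le_pow_right₀ hp1.le hj2
      have h3 : ((p : ℤ) ^ 2) ^ 2 ≤ ((p : ℤ) ^ j) ^ 2 := by
        apply pow_le_pow_left₀ (by positivity) h2
      have h4 : ((p : ℤ) ^ 2) ^ 2 = (p : ℤ) ^ 4 := by ring
      linarith
    rw [h1, hj1, pow_one]

/-- denominator one -/
lemma x_of_one (h : Data m B s x c) {j : ℕ} (h1 : QS m B c j = 1) : x j = x 0 := by
  have ij := inv_of h j
  have hpar := ij.par
  have S0 : QS m B c 0 = 1 := rfl
  have R0 : QR m B c 0 = B := rfl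
  obtain ⟨t, ht⟩ : ∃ t, QR m B c j - B = 2 * t * 1 := ⟨(QR m B c j - B) / 2, by omega⟩
  have sj := ij.sR
  rw [h1] at sj
  have ht0 := int_eq_of t ht ij.Rs sj h.Bs (by push_cast; linarith [h.sB])
  have hR : QR m B c j = QR m B c 0 := by rw [R0]; rw [ht0] at ht; linarith
  exact x_eq_of_state h hR (by rw [h1, S0])

/-- equal denominators and congruent numerators -/
lemma x_of_cong (h : Data m B s x c) {i j : ℕ} {p : ℤ} (hi : QS m B c i = p)
    (hj : QS m B c j = p) (hc : (2 * p) ∣ QR m B c i - QR m B c j) : x i = x j := by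
  obtain ⟨t, ht⟩ := hc
  have ii := inv_of h i
  have ij := inv_of h j
  have si := ii.sR
  have sj := ij.sR
  rw [hi] at si
  rw [hj] at sj
  have ht0 := int_eq_of (S := p) t (by rw [ht]; ring) ii.Rs si ij.Rs sj
  apply x_eq_of_state h _ (by rw [hi, hj])
  rw [ht0] at ht
  linarith

/-- two classes -/
lemma cong_or (h : Data m B s x c) {i j p : ℕ} (hp : p.Prime) (hi : QS m B c i = p)
    (hj : QS m B c j = p) : (2 * (p : ℤ)) ∣ QR m B c i - QR m B c j ∨
      (2 * (p : ℤ)) ∣ QR m B c i + QR m B c j := by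
  have ii := inv_of h i
  have ij := inv_of h j
  have d1 := ii.disc
  have d2 := ij.disc
  rw [hi] at d1
  rw [hj] at d2
  have p1 := ii.par
  have p2 := ij.par
  obtain ⟨a, ha⟩ : ∃ a, QR m B c i - QR m B c j = 2 * a := ⟨(QR m B c i - QR m B c j) / 2, by omega⟩
  obtain ⟨b, hb⟩ : ∃ b, QR m B c i + QR m B c j = 2 * b := ⟨(QR m B c i + QR m B c j) / 2, by omega⟩
  have hab : (p : ℤ) ∣ a * b := by
    refine ⟨QP m B c j - QP m B c i, ?_⟩
    have e1 : (QR m B c i - QR m B c j) * (QR m B c i + QR m B c j)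
        = 4 * ((p : ℤ) * (QP m B c j - QP m B c i)) := by linear_combination d1 - d2
    rw [ha, hb] at e1
    linarith
  rcases (Nat.prime_iff_prime_int.1 hp).dvd_or_dvd hab with ⟨t, ht⟩ | ⟨t, ht⟩
  · left; exact ⟨t, by rw [ha, ht]; ring⟩
  · right; exact ⟨t, by rw [hb, ht]; ring⟩

lemma backs (h : Data m B s x c) (i k : ℕ) (he : x i = x (i + k)) : x 0 = x k := by
  induction i with
  | zero => rwa [zero_add] at he
  | succ i ih =>
    apply ih
    apply back h
    rw [he]
    congr 1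
    omega

lemma per_of (h : Data m B s x c) {k : ℕ} (hk : 0 < k) (h6 : k ≤ 6) (he : x 0 = x k) :
    minimalPeriod gsh (x 1) ≤ 6 := by
  have hx1 : gsh^[k] (x 1) = x 1 := by
    rw [iter h, add_comm, h.step, ← he, ← h.step]
  exact (IsPeriodicPt.minimalPeriod_le hk hx1).trans h6

/-- **the period is at most six** -/
theorem period_le_six (d : ℕ) (h1 : 1 < d) (hsq : Squarefree d) (p : ℕ)
    (hH : OEX.Hyp (OEX.disc d) p) (hp : (OEX.disc d : ℤ) ≤ 4 * (p : ℤ) ^ 4) :
    minimalPeriod gsh (gsh (omg d)) ≤ 6 := by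
  obtain ⟨m, B, s, x, c, h, hx1, hm, hB, hd⟩ := exists_data d h1 hsq
  have hD : (OEX.disc d : ℤ) = B ^ 2 + 4 * m := by
    unfold OEX.disc
    rcases hd with ⟨a1, a2, -⟩ | ⟨a1, a2, -⟩
    · rw [if_pos a1]; exact a2
    · rw [if_neg a1]; push_cast; exact a2
  rw [← hx1]
  have key : ∀ k, ∃ j, (j = k ∨ j = k + 1) ∧ (QS m B c j = 1 ∨ (p.Prime ∧ QS m B c j = p)) := by
    intro k
    rcases small_or h k with h2 | h2
    · exact ⟨k, Or.inl rfl, small_val h hD hH hp (by rw [hD]; exact h2)⟩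
    · exact ⟨k + 1, Or.inr rfl, small_val h hD hH hp (by rw [hD]; exact h2)⟩
  obtain ⟨i, hi, hi'⟩ := key 1
  obtain ⟨j, hj, hj'⟩ := key 3
  obtain ⟨k, hk, hk'⟩ := key 5
  rcases hi' with g | ⟨hpp, g1⟩
  · exact per_of h (k := i) (by omega) (by omega) (x_of_one h g).symm
  rcases hj' with g | ⟨-, g2⟩
  · exact per_of h (k := j) (by omega) (by omega) (x_of_one h g).symm
  rcases hk' with g | ⟨-, g3⟩
  · exact per_of h (k := k) (by omega) (by omega) (x_of_one h g).symm
  have fin : ∀ a b : ℕ, a < b → b ≤ 6 → 1 ≤ a → x a = x b → minimalPeriod gsh (x 1) ≤ 6 := by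
    intro a b hab hb ha he
    have := backs h a (b - a) (by rw [he]; congr 1; omega)
    exact per_of h (k := b - a) (by omega) (by omega) this
  rcases cong_or h hpp g1 g2 with e | e12
  · exact fin i j (by omega) (by omega) (by omega) (x_of_cong h g1 g2 e)
  rcases cong_or h hpp g1 g3 with e | e13
  · exact fin i k (by omega) (by omega) (by omega) (x_of_cong h g1 g3 e)
  have e23 : (2 * (p : ℤ)) ∣ QR m B c j - QR m B c k := by
    have := dvd_sub e12 e13
    have e : QR m B c i + QR m B c j - (QR m B c i + QR m B c k) = QR m B c j - QR m B c k := by ring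
    rwa [e] at this
  exact fin j k (by omega) (by omega) (by omega) (x_of_cong h g2 g3 e23)

end Pool.Agent.PSX.OneEx
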