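import Pool.Agent.PSX.OneEx
import Pool.Agent.OEX.INERT
import Pool.Agent.OEX.FIN

/-!
The real quadratic fields with at most one non-inert prime below `√D / 2`: reduction of the case of
a large exception `e`, `D ≤ 4 e⁴`, to the classification of the period lengths up to six.
-/

namespace Pool.Agent.PSX.OneEx

open scoped NumberField
open Function Pool.Agent.LibH4

/-- if the exception is large, the field is one of the fields of period length at most six -/
theorem cond_of
    (H : ∀ d : ℕ, 1 < d → Squarefree d → minimalPeriod gsh (gsh (omg d)) ≤ 6 →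
      UniqueFactorizationMonoid (𝓞 (IntermediateField.adjoin ℚ {Real.sqrt (d : ℝ)})) →
      d < 100000)
    (d : ℕ) (h1 : 1 < d) (hsq : Squarefree d)
    (hq : (∃ q : ℕ, q.Prime ∧ q < 100000 ∧
        ¬ Prime ((q : ℕ) : 𝓞 (IntermediateField.adjoin ℚ {Real.sqrt (d : ℝ)}))) ∨
      (UniqueFactorizationMonoid (𝓞 (IntermediateField.adjoin ℚ {Real.sqrt (d : ℝ)})) ∧
        ∀ q : ℕ, q.Prime → 4 * q ^ 4 < OEX.disc d →
          Prime ((q : ℕ) : 𝓞 (IntermediateField.adjoin ℚ {Real.sqrt (d : ℝ)})))) :
    (∃ e : ℕ, ∀ p : ℕ, p.Prime → (p : ℝ) < Real.sqrt (OEX.disc d) / 2 → p ≠ e →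
      Prime ((p : ℕ) : 𝓞 (IntermediateField.adjoin ℚ {Real.sqrt (d : ℝ)}))) ↔ OEX.Cond d := by
  constructor
  · rintro ⟨e, he⟩
    by_cases hlt : e < 100000
    · exact ⟨e, hlt, he⟩
    · push Not at hlt
      rcases hq with ⟨q, hqp, hq1, hq2⟩ | ⟨hU, hq⟩
      · refine ⟨0, by norm_num, ?_⟩
        intro p hp hpD _
        by_cases hpe : p = e
        · exfalso
          apply hq2
          refine he q hqp (lt_trans ?_ hpD) (by omega)
          have : q < p := by omega
          exact_mod_cast this
        · exact he p hp hpD hpe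
      · refine ⟨0, by norm_num, ?_⟩
        intro p hp hpD _
        by_cases hpe : p = e
        · by_contra hni
          subst hpe
          have hH : OEX.Hyp (OEX.disc d) p := by
            intro r hr h4 hre
            exact (OEX.t_INERT d h1 hsq r hr).1 (he r hr ((OEX.real_iff r _).2 h4) hre)
          have h4 : ¬ 4 * p ^ 4 < OEX.disc d := fun h => hni (hq p hp h)
          have h5 : OEX.disc d ≤ 4 * p ^ 4 := not_lt.1 h4
          have h6 := H d h1 hsq (period_le_six d h1 hsq p hH (by exact_mod_cast h5)) hU
          have h7 := (OEX.real_iff p _).1 hpD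
          have h8 : 4 * p ^ 2 < OEX.disc d := by exact_mod_cast h7
          have h9 : OEX.disc d ≤ 4 * d := by
            unfold OEX.disc
            split_ifs <;> omega
          nlinarith
        · exact he p hp hpD hpe
  · rintro ⟨e, _, he⟩
    exact ⟨e, he⟩

end Pool.Agent.PSX.OneEx
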