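import Pool.Agent.PSX.Sys6

/-!
Period six: families with one parameter, generic part.
-/

namespace Pool.Agent.PSX.OneP

open Pool.Agent.Lib_helper5 Pool.Agent.Lib_helper5.LK Pool.Agent.LibH4
  Pool.Agent.LibH4.Ker Pool.Agent.LibH4.T6 Pool.Agent.LibH4.KF Pool.Agent.Lib_helper5.TB
open Pool.Agent.LibH4.S7 (y2 r2 y3 r3)
open Pool.Agent.PSX.EL

/-- data of a relation -/
structure RL where
  n1 : ℕ
  n2 : ℕ
  n3 : ℕ
  l : ℕ
  ex1 : ℕ
  ex2 : ℕ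
  ex3 : ℕ
  PT1 : ℕ
  PT2 : ℕ
  PT3 : ℕ
  t1 : ℕ
  t2 : ℕ
  t3 : ℕ
  rows : List (ℕ × ℕ)
  len3 : ℕ

/-- value of a form -/
def RL.fv (r : RL) : Fm → ℕ :=
  fval r.n1 r.n2 r.n3 r.l r.ex1 r.ex2 r.ex3 r.PT1 r.PT2 r.PT3 r.t1 r.t2 r.t3 r.rows r.len3

/-- a relation which holds for the system, with modulus `M` -/
structure GR (r : RL) (M : ℕ) : Prop where
  p1 : 0 < r.n1
  p2 : 0 < r.n2
  p3 : 0 < r.n3
  pl : 0 < r.l
  rel : ∀ {Q : ℕ} {a b c B m : ℤ}, Sys6 Q a b c B m → M ∣ Q ^ 6 →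
    ((J6 a b c B m).map r.fv).sum % r.l = 0

/-- value of the form `(P, R, -S)` with weights `κ`, `-α`, from natural numbers -/
def RL.vN (r : RL) (P R S κ α : ℕ) : ℕ :=
  dig r.t1 (P % r.n1) * dig r.t2 (P % r.n2) * dig r.t3 (P % r.n3) *
    (κ * tX r.rows r.len3
        (pos r.n1 r.ex1 r.PT1 (P % r.n1) (R % r.n1) ((r.n1 - S % r.n1) % r.n1))
        (pos r.n2 r.ex2 r.PT2 (P % r.n2) (R % r.n2) ((r.n2 - S % r.n2) % r.n2))
        (pos r.n3 r.ex3 r.PT3 (P % r.n3) (R % r.n3) ((r.n3 - S % r.n3) % r.n3)) +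
      (r.l - α % r.l) % r.l * tY r.rows r.len3
        (pos r.n1 r.ex1 r.PT1 (P % r.n1) (R % r.n1) ((r.n1 - S % r.n1) % r.n1))
        (pos r.n2 r.ex2 r.PT2 (P % r.n2) (R % r.n2) ((r.n2 - S % r.n2) % r.n2))
        (pos r.n3 r.ex3 r.PT3 (P % r.n3) (R % r.n3) ((r.n3 - S % r.n3) % r.n3)))

lemma rs_nat (n : ℕ) (X : ℕ) : rs n (X : ℤ) = X % n :=
  (rs_of (by push_cast; rfl)).symm

lemma rs_neg {n : ℕ} (hn : 0 < n) (X : ℕ) : rs n (-(X : ℤ)) = (n - X % n) % n := by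
  symm
  apply rs_of
  rw [Nat.cast_sub (Nat.mod_lt X hn).le, ZMod.natCast_self, ZMod.natCast_mod]
  push_cast
  ring

lemma vN_eq {r : RL} {M : ℕ} (g : GR r M) (P R S κ α : ℕ) :
    r.fv ⟨P, R, -S, κ, -α⟩ = r.vN P R S κ α := by
  unfold RL.fv RL.vN fval
  simp only [rs_nat, rs_neg g.p1, rs_neg g.p2, rs_neg g.p3, rs_neg g.pl]

/-- the sum over the forms, from natural numbers -/
def RL.sm (r : RL) (a b c B m y R2 R3 p : ℕ) : ℕ :=
  r.vN m B 1 0 B + (r.vN 1 B m 6 (2 * a) + (r.vN m R2 y 6 (2 * b) + (r.vN y R3 p 6 c + 0)))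

lemma sm_eq {r : RL} {M : ℕ} (g : GR r M) {a b c B m y R2 R3 p : ℕ}
    (h1 : y2 (a : ℤ) B m = y) (h2 : r2 (a : ℤ) B m = R2) (h3 : r3 (a : ℤ) b B m = R3)
    (h4 : y3 (a : ℤ) b B m = p) :
    ((J6 (a : ℤ) b c B m).map r.fv).sum = r.sm a b c B m y R2 R3 p := by
  unfold J6 RL.sm
  rw [h1, h2, h3, h4]
  simp only [List.map_cons, List.map_nil, List.sum_cons, List.sum_nil]
  have e1 := vN_eq g m B 1 0 B
  have e2 := vN_eq g 1 B m 6 (2 * a)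
  have e3 := vN_eq g m R2 y 6 (2 * b)
  have e4 := vN_eq g y R3 p 6 c
  push_cast at e1 e2 e3 e4
  rw [e1, e2, e3, e4]

lemma vN_congr {r : RL} {M : ℕ} (d1 : r.n1 ∣ M) (d2 : r.n2 ∣ M) (d3 : r.n3 ∣ M) (dl : r.l ∣ M)
    {P R S α P' R' S' α' : ℕ} (κ : ℕ) (hP : P ≡ P' [MOD M]) (hR : R ≡ R' [MOD M])
    (hS : S ≡ S' [MOD M]) (hα : α ≡ α' [MOD M]) : r.vN P R S κ α = r.vN P' R' S' κ α' := by
  have e : ∀ {n x x' : ℕ}, n ∣ M → x ≡ x' [MOD M] → x % n = x' % n := fun h1 h2 =>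
    h2.of_dvd h1
  unfold RL.vN
  rw [e d1 hP, e d1 hR, e d1 hS, e d2 hP, e d2 hR, e d2 hS, e d3 hP, e d3 hR, e d3 hS, e dl hα]

/-! ### the families -/

/-- data of a family: `u = u0 + p t`, `c = c0 + (1 + a b) t` -/
structure FD where
  n : ℕ
  b : ℕ
  w : ℕ
  a : ℕ
  p : ℕ
  u0 : ℕ
  c0 : ℕ

/-- `u` -/
def FD.U (F : FD) (t : ℕ) : ℕ := F.u0 + F.p * t
/-- `m` -/
def FD.M (F : FD) (t : ℕ) : ℕ := F.U t * F.b + F.n
/-- `r` -/
def FD.Y (F : FD) (t : ℕ) : ℕ := 1 + F.a * F.U t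
/-- `B` -/
def FD.B (F : FD) (t : ℕ) : ℕ := F.U t + F.a * F.M t
/-- `c` -/
def FD.C (F : FD) (t : ℕ) : ℕ := F.c0 + (1 + F.a * F.b) * t
/-- the middle coefficient -/
def FD.R2 (F : FD) (t : ℕ) : ℕ := F.U t * (F.a * F.b - 1) + F.a * F.n
/-- the middle coefficient -/
def FD.R3 (F : FD) (t : ℕ) : ℕ := F.C t * F.p

/-- the conditions on the data -/
structure FD.OK (F : FD) : Prop where
  ha : 1 ≤ F.a
  hb : 1 ≤ F.b
  hp : F.n + F.b * F.w = F.p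
  hw : F.w + F.b = F.a * F.n
  hc : F.c0 * F.p + F.w = F.b + F.u0 * (1 + F.a * F.b)

section

variable {F : FD}

lemma hy2 (t : ℕ) : y2 (F.a : ℤ) (F.B t) (F.M t) = (F.Y t : ℕ) := by
  unfold y2 FD.Y FD.B
  push_cast
  ring

lemma hr2 (h : F.OK) (t : ℕ) : r2 (F.a : ℤ) (F.B t) (F.M t) = (F.R2 t : ℕ) := by
  have h1 : 1 ≤ F.a * F.b := Nat.mul_pos h.ha h.hb
  unfold r2 FD.R2 FD.B FD.M
  push_cast [Nat.cast_sub h1]
  ring

lemma hy3 (h : F.OK) (t : ℕ) : y3 (F.a : ℤ) F.b (F.B t) (F.M t) = (F.p : ℕ) := by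
  have h1 : (F.p : ℤ) = F.n + F.b * F.w := by exact_mod_cast h.hp.symm
  have h2 : (F.w : ℤ) = F.a * F.n - F.b := by
    have : (F.w : ℤ) + F.b = F.a * F.n := by exact_mod_cast h.hw
    linarith
  unfold y3
  rw [hy2, h1, h2]
  unfold r2 FD.Y FD.B FD.M
  push_cast
  ring

lemma hr3 (h : F.OK) (t : ℕ) : r3 (F.a : ℤ) F.b (F.B t) (F.M t) = (F.R3 t : ℕ) := by
  have h1 : (F.p : ℤ) = F.n + F.b * F.w := by exact_mod_cast h.hp.symm
  have h2 : (F.w : ℤ) = F.a * F.n - F.b := by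
    have : (F.w : ℤ) + F.b = F.a * F.n := by exact_mod_cast h.hw
    linarith
  have h3 : (F.c0 : ℤ) * F.p + F.w = F.b + F.u0 * (1 + F.a * F.b) := by exact_mod_cast h.hc
  unfold r3
  rw [hy2]
  unfold r2 FD.Y FD.B FD.M FD.R3 FD.C FD.U
  push_cast
  linear_combination (-1 : ℤ) * h3 + h2

/-- the sum of a family -/
def RL.sF (r : RL) (F : FD) (t : ℕ) : ℕ :=
  r.sm F.a F.b (F.C t) (F.B t) (F.M t) (F.Y t) (F.R2 t) (F.R3 t) F.p

lemma U_mod (M t : ℕ) : F.U t ≡ F.U (t % M) [MOD M] := by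
  unfold FD.U
  exact Nat.ModEq.add_left _ (Nat.ModEq.mul_left _ (Nat.mod_modEq t M).symm)

lemma M_mod (M t : ℕ) : F.M t ≡ F.M (t % M) [MOD M] := by
  unfold FD.M
  exact Nat.ModEq.add_right _ (Nat.ModEq.mul_right _ (U_mod M t))

lemma Y_mod (M t : ℕ) : F.Y t ≡ F.Y (t % M) [MOD M] := by
  unfold FD.Y
  exact Nat.ModEq.add_left _ (Nat.ModEq.mul_left _ (U_mod M t))

lemma B_mod (M t : ℕ) : F.B t ≡ F.B (t % M) [MOD M] := by
  unfold FD.B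
  exact Nat.ModEq.add (U_mod M t) (Nat.ModEq.mul_left _ (M_mod M t))

lemma C_mod (M t : ℕ) : F.C t ≡ F.C (t % M) [MOD M] := by
  unfold FD.C
  exact Nat.ModEq.add_left _ (Nat.ModEq.mul_left _ (Nat.mod_modEq t M).symm)

lemma R2_mod (M t : ℕ) : F.R2 t ≡ F.R2 (t % M) [MOD M] := by
  unfold FD.R2
  exact Nat.ModEq.add_right _ (Nat.ModEq.mul_right _ (U_mod M t))

lemma R3_mod (M t : ℕ) : F.R3 t ≡ F.R3 (t % M) [MOD M] := by
  unfold FD.R3
  exact Nat.ModEq.mul_right _ (C_mod M t)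

/-- the sum depends on the residue of `t` -/
lemma sF_mod {r : RL} {M : ℕ} (d1 : r.n1 ∣ M) (d2 : r.n2 ∣ M) (d3 : r.n3 ∣ M) (dl : r.l ∣ M)
    (t : ℕ) : r.sF F t = r.sF F (t % M) := by
  unfold RL.sF RL.sm
  rw [vN_congr d1 d2 d3 dl 0 (M_mod M t) (B_mod M t) (Nat.ModEq.refl 1) (B_mod M t),
    vN_congr d1 d2 d3 dl 6 (Nat.ModEq.refl 1) (B_mod M t) (M_mod M t) (Nat.ModEq.refl (2 * F.a)),
    vN_congr d1 d2 d3 dl 6 (M_mod M t) (R2_mod M t) (Y_mod M t) (Nat.ModEq.refl (2 * F.b)),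
    vN_congr d1 d2 d3 dl 6 (Y_mod M t) (R3_mod M t) (Nat.ModEq.refl F.p) (C_mod M t)]

/-- the discriminant is not a non residue -/
def badp (F : FD) (t l : ℕ) : Bool :=
  !(Nat.beq (Nat.mod (Nat.pow (Nat.mod (F.B t * F.B t + 4 * F.M t) l) (l / 2)) l) (l - 1))

/-- the class is excluded by parity or by a prime of the list -/
def bad (F : FD) (P : List ℕ) (t : ℕ) : Bool :=
  (Nat.beq (F.B t % 2) 0) || ((Nat.beq (F.M t % 2) 0) || P.any fun l => badp F t l)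

/-- one level of the elimination -/
def lev (F : FD) (P : List ℕ) (L : List RL) (M : ℕ) (T : List ℕ) (k : ℕ) (T' : List ℕ) : Bool :=
  T.all fun s => (List.range k).all fun i =>
    bad F P (s + M * i) || (T'.contains (s + M * i) ||
      L.any fun r => !(Nat.beq (r.sF F (s + M * i) % r.l) 0))

/-- the relations of a list hold -/
def Rls (Q : ℕ) (L : List RL) (M : ℕ) : Prop :=
  ∀ r ∈ L, ∃ N, GR r N ∧ N ∣ Q ^ 6 ∧ r.n1 ∣ M ∧ r.n2 ∣ M ∧ r.n3 ∣ M ∧ r.l ∣ M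

lemma Rls.nil {Q M : ℕ} : Rls Q [] M := by
  intro r hr
  simp at hr

lemma Rls.cons {Q M N : ℕ} {r : RL} {L : List RL} (g : GR r N) (h1 : N ∣ Q ^ 6) (d1 : r.n1 ∣ M)
    (d2 : r.n2 ∣ M) (d3 : r.n3 ∣ M) (dl : r.l ∣ M) (h : Rls Q L M) : Rls Q (r :: L) M := by
  intro r' hr
  rcases List.mem_cons.1 hr with rfl | hr
  · exact ⟨N, g, h1, d1, d2, d3, dl⟩
  · exact h r' hr

theorem lev_spec (h : F.OK) {P : List ℕ} {L : List RL} {M k : ℕ} {T T' : List ℕ} {Q t : ℕ}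
    (hc : lev F P L M T k T' = true) (hk : 0 < k)
    (S : Sys6 Q F.a F.b (F.C t) (F.B t) (F.M t)) (hT : t % M ∈ T)
    (h2 : 2 ∣ M * k) (hP : ∀ l ∈ P, l.Prime ∧ l ≠ 2 ∧ l ∣ Q ∧ l ∣ M * k)
    (hL : Rls Q L (M * k)) : t % (M * k) ∈ T' := by
  unfold lev at hc
  rw [List.all_eq_true] at hc
  have g1 := hc _ hT
  rw [List.all_eq_true] at g1
  have g2 := g1 (t / M % k) (List.mem_range.2 (Nat.mod_lt _ hk))
  rw [← Nat.mod_mul, Bool.or_eq_true, Bool.or_eq_true, List.contains_iff_mem,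
    List.any_eq_true] at g2
  rcases g2 with g2 | g2 | ⟨r, hr, g2⟩
  · exfalso
    unfold bad at g2
    rw [Bool.or_eq_true, Bool.or_eq_true, List.any_eq_true] at g2
    rcases g2 with g3 | g3 | ⟨l, hl, g3⟩
    · have h4 := Nat.eq_of_beq_eq_true g3
      have h5 : F.B t % 2 = F.B (t % (M * k)) % 2 := (B_mod (M * k) t).of_dvd h2
      have h6 := S.oB
      omega
    · have h4 := Nat.eq_of_beq_eq_true g3
      have h5 : F.M t % 2 = F.M (t % (M * k)) % 2 := (M_mod (M * k) t).of_dvd h2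
      have h6 := S.om
      omega
    · obtain ⟨k1, k2, k3, k4⟩ := hP l hl
      have h4 := S.inr l k1 k2 k3
      unfold K5.In at h4
      have e1 : rs l (S7.dd (F.B t : ℤ) (F.M t : ℤ)) =
          (F.B (t % (M * k)) * F.B (t % (M * k)) + 4 * F.M (t % (M * k))) % l := by
        have e2 : S7.dd (F.B t : ℤ) (F.M t : ℤ) = ((F.B t * F.B t + 4 * F.M t : ℕ) : ℤ) := by
          unfold S7.dd; push_cast; ring
        rw [e2, rs_nat]
        exact (Nat.ModEq.add (Nat.ModEq.mul (B_mod (M * k) t) (B_mod (M * k) t))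
          (Nat.ModEq.mul_left _ (M_mod (M * k) t))).of_dvd k4
      rw [e1] at h4
      unfold badp at g3
      have h5 : Nat.beq (Nat.mod (Nat.pow (Nat.mod (F.B (t % (M * k)) * F.B (t % (M * k)) +
        4 * F.M (t % (M * k))) l) (l / 2)) l) (l - 1) = true := h4
      rw [h5] at g3
      exact absurd g3 (by decide)
  · exact g2
  · exfalso
    obtain ⟨N, gr, k1, d1, d2, d3, dl⟩ := hL r hr
    have h4 := gr.rel S k1
    rw [sm_eq gr (hy2 t) (hr2 h t) (hr3 h t) (hy3 h t)] at h4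
    have h5 : r.sF F t % r.l = 0 := h4
    rw [sF_mod d1 d2 d3 dl t] at h5
    rw [h5] at g2
    exact absurd g2 (by decide)

/-- the parameter of a member of the family -/
theorem FD.use (h : F.OK) (hp : 0 < F.p) {Q c B u : ℕ} {m : ℤ} (S : Sys6 Q F.a F.b c B m)
    (e3 : c * F.p + F.w = F.b + u * (1 + F.a * F.b)) (hu : u % F.p = F.u0)
    (hm : m = (u * F.b + F.n : ℕ)) (hB : B = u + F.a * (u * F.b + F.n)) :
    ∃ t : ℕ, Sys6 Q F.a F.b (F.C t) (F.B t) (F.M t) := by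
  refine ⟨u / F.p, ?_⟩
  have hu' : u = F.U (u / F.p) := by
    unfold FD.U
    rw [← hu]
    exact (Nat.mod_add_div u F.p).symm
  have hc : c = F.C (u / F.p) := by
    have h1 : c * F.p = F.C (u / F.p) * F.p := by
      have h2 := h.hc
      have h3 : u * (1 + F.a * F.b) = F.u0 * (1 + F.a * F.b)
          + F.p * (u / F.p) * (1 + F.a * F.b) := by
        rw [← Nat.add_mul]
        congr 1
      have h4 : F.C (u / F.p) * F.p = F.c0 * F.p + F.p * (u / F.p) * (1 + F.a * F.b) := by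
        unfold FD.C
        ring
      omega
    exact Nat.eq_of_mul_eq_mul_right hp h1
  have hm' : m = (F.M (u / F.p) : ℕ) := by
    rw [hm]
    unfold FD.M
    rw [← hu']
  have hB' : B = F.B (u / F.p) := by
    rw [hB]
    unfold FD.B FD.M
    rw [← hu']
  rw [← hc, ← hB', ← hm']
  exact S

end

end Pool.Agent.PSX.OneP
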