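import Pool.Agent.PSX.OneP
import Pool.Agent.RQM.C55
import Pool.Agent.RQM.C57
import Pool.Agent.RQM.C59
import Pool.Agent.RQM.C60
import Pool.Agent.RQM.C61

/-!
Period six, families with one parameter: the relations.
-/

namespace Pool.Agent.PSX.OneP

open Pool.Agent.Lib_helper5 Pool.Agent.Lib_helper5.LK Pool.Agent.LibH4
  Pool.Agent.LibH4.Ker Pool.Agent.LibH4.T6 Pool.Agent.LibH4.KF Pool.Agent.Lib_helper5.TB
open Pool.Agent.PSX.EL

/-- relation -/
def q_260F13 : RL :=
  ⟨13, 5, 4, 13, 11, 3, 1, PT13, PT5, PT4, t1_260F13, t2_260F13, t3_260F13,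
    rows_260F13, 4⟩

theorem rel6_260F13 {Q : ℕ} {a b c B m : ℤ} (S : Sys6 Q a b c B m)
    (hQ : 13 * 5 * 4 * 2197 ∣ Q ^ 6) :
    ((J6 a b c B m).map (fval 13 5 4 13 11 3 1 PT13 PT5 PT4 t1_260F13 t2_260F13 t3_260F13 rows_260F13 4)).sum % 13 = 0 := by
  have h := use6 tok_260F13 (h := 169) (l := 13) (by norm_num) (by norm_num) (by norm_num)
    (by norm_num) tab1_260F13 tab2_260F13 tab3_260F13 comp13 comp5 comp4 red1_260F13 red2_260F13
    red3_260F13 rok_260F13 S hQ
    (adP6 S (by norm_num) (by norm_num) (pdvd (p := 13) (by norm_num) (by norm_num) hQ))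
    (adP6 S (by norm_num) (by norm_num) (pdvd (p := 5) (by norm_num) (by norm_num) hQ))
    (adO6 S (by norm_num))
  exact h

theorem g_260F13 : GR q_260F13 (13 * 5 * 4 * 2197) where
  p1 := by simp only [q_260F13]; norm_num
  p2 := by simp only [q_260F13]; norm_num
  p3 := by simp only [q_260F13]; norm_num
  pl := by simp only [q_260F13]; norm_num
  rel := by
    intro Q a b c B m S hQ
    have h := rel6_260F13 S hQ
    simp only [RL.fv, q_260F13]
    exact h

/-- relation -/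
def q_520F5 : RL :=
  ⟨13, 5, 8, 5, 11, 3, 1, PT13, PT5, PT8, t1_520F5, t2_520F5, t3_520F5,
    rows_520F5, 16⟩

theorem rel6_520F5 {Q : ℕ} {a b c B m : ℤ} (S : Sys6 Q a b c B m)
    (hQ : 13 * 5 * 8 * 125 ∣ Q ^ 6) :
    ((J6 a b c B m).map (fval 13 5 8 5 11 3 1 PT13 PT5 PT8 t1_520F5 t2_520F5 t3_520F5 rows_520F5 16)).sum % 5 = 0 := by
  have h := use6 tok_520F5 (h := 25) (l := 5) (by norm_num) (by norm_num) (by norm_num)
    (by norm_num) tab1_520F5 tab2_520F5 tab3_520F5 comp13 comp5 comp8 red1_520F5 red2_520F5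
    red3_520F5 rok_520F5 S hQ
    (adP6 S (by norm_num) (by norm_num) (pdvd (p := 13) (by norm_num) (by norm_num) hQ))
    (adP6 S (by norm_num) (by norm_num) (pdvd (p := 5) (by norm_num) (by norm_num) hQ))
    (adO6 S (by norm_num))
  exact h

theorem g_520F5 : GR q_520F5 (13 * 5 * 8 * 125) where
  p1 := by simp only [q_520F5]; norm_num
  p2 := by simp only [q_520F5]; norm_num
  p3 := by simp only [q_520F5]; norm_num
  pl := by simp only [q_520F5]; norm_num
  rel := by
    intro Q a b c B m S hQ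
    have h := rel6_520F5 S hQ
    simp only [RL.fv, q_520F5]
    exact h

/-- relation -/
def q_140N13 : RL :=
  ⟨7, 5, 4, 13, 5, 3, 1, PT7, PT5, PT4, t1_140N13, t2_140N13, t3_140N13,
    rows_140N13, 4⟩

theorem rel6_140N13 {Q : ℕ} {a b c B m : ℤ} (S : Sys6 Q a b c B m)
    (hQ : 7 * 5 * 4 * 13 ∣ Q ^ 6) :
    ((J6 a b c B m).map (fval 7 5 4 13 5 3 1 PT7 PT5 PT4 t1_140N13 t2_140N13 t3_140N13 rows_140N13 4)).sum % 13 = 0 := by
  have h := use6 tok_140N13 (h := 1) (l := 13) (by norm_num) (by norm_num) (by norm_num)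
    (by norm_num) tab1_140N13 tab2_140N13 tab3_140N13 comp7 comp5 comp4 red1_140N13 red2_140N13
    red3_140N13 rok_140N13 S hQ
    (adP6 S (by norm_num) (by norm_num) (pdvd (p := 7) (by norm_num) (by norm_num) hQ))
    (adP6 S (by norm_num) (by norm_num) (pdvd (p := 5) (by norm_num) (by norm_num) hQ))
    (adO6 S (by norm_num))
  exact h

theorem g_140N13 : GR q_140N13 (7 * 5 * 4 * 13) where
  p1 := by simp only [q_140N13]; norm_num
  p2 := by simp only [q_140N13]; norm_num
  p3 := by simp only [q_140N13]; norm_num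
  pl := by simp only [q_140N13]; norm_num
  rel := by
    intro Q a b c B m S hQ
    have h := rel6_140N13 S hQ
    simp only [RL.fv, q_140N13]
    exact h

/-- relation -/
def q_280F7 : RL :=
  ⟨7, 5, 8, 7, 5, 3, 1, PT7, PT5, PT8, t1_280F7, t2_280F7, t3_280F7,
    rows_280F7, 16⟩

theorem rel6_280F7 {Q : ℕ} {a b c B m : ℤ} (S : Sys6 Q a b c B m)
    (hQ : 7 * 5 * 8 * 343 ∣ Q ^ 6) :
    ((J6 a b c B m).map (fval 7 5 8 7 5 3 1 PT7 PT5 PT8 t1_280F7 t2_280F7 t3_280F7 rows_280F7 16)).sum % 7 = 0 := by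
  have h := use6 tok_280F7 (h := 49) (l := 7) (by norm_num) (by norm_num) (by norm_num)
    (by norm_num) tab1_280F7 tab2_280F7 tab3_280F7 comp7 comp5 comp8 red1_280F7 red2_280F7
    red3_280F7 rok_280F7 S hQ
    (adP6 S (by norm_num) (by norm_num) (pdvd (p := 7) (by norm_num) (by norm_num) hQ))
    (adP6 S (by norm_num) (by norm_num) (pdvd (p := 5) (by norm_num) (by norm_num) hQ))
    (adO6 S (by norm_num))
  exact h

theorem g_280F7 : GR q_280F7 (7 * 5 * 8 * 343) where
  p1 := by simp only [q_280F7]; norm_num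
  p2 := by simp only [q_280F7]; norm_num
  p3 := by simp only [q_280F7]; norm_num
  pl := by simp only [q_280F7]; norm_num
  rel := by
    intro Q a b c B m S hQ
    have h := rel6_280F7 S hQ
    simp only [RL.fv, q_280F7]
    exact h

/-- relation -/
def q_364F13a : RL :=
  ⟨13, 7, 4, 13, 11, 5, 1, PT13, PT7, PT4, t1_364F13a, t2_364F13a, t3_364F13a,
    rows_364F13a, 4⟩

theorem rel6_364F13a {Q : ℕ} {a b c B m : ℤ} (S : Sys6 Q a b c B m)
    (hQ : 13 * 7 * 4 * 2197 ∣ Q ^ 6) :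
    ((J6 a b c B m).map (fval 13 7 4 13 11 5 1 PT13 PT7 PT4 t1_364F13a t2_364F13a t3_364F13a rows_364F13a 4)).sum % 13 = 0 := by
  have h := use6 tok_364F13a (h := 169) (l := 13) (by norm_num) (by norm_num) (by norm_num)
    (by norm_num) tab1_364F13a tab2_364F13a tab3_364F13a comp13 comp7 comp4 red1_364F13a red2_364F13a
    red3_364F13a rok_364F13a S hQ
    (adP6 S (by norm_num) (by norm_num) (pdvd (p := 13) (by norm_num) (by norm_num) hQ))
    (adP6 S (by norm_num) (by norm_num) (pdvd (p := 7) (by norm_num) (by norm_num) hQ))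
    (adO6 S (by norm_num))
  exact h

theorem g_364F13a : GR q_364F13a (13 * 7 * 4 * 2197) where
  p1 := by simp only [q_364F13a]; norm_num
  p2 := by simp only [q_364F13a]; norm_num
  p3 := by simp only [q_364F13a]; norm_num
  pl := by simp only [q_364F13a]; norm_num
  rel := by
    intro Q a b c B m S hQ
    have h := rel6_364F13a S hQ
    simp only [RL.fv, q_364F13a]
    exact h

/-- relation -/
def q_143N5 : RL :=
  ⟨11, 13, 1, 5, 9, 11, 0, PT11, PT13, PT1, t1_143N5, t2_143N5, t3_143N5,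
    rows_143N5, 1⟩

theorem rel6_143N5 {Q : ℕ} {a b c B m : ℤ} (S : Sys6 Q a b c B m)
    (hQ : 11 * 13 * 1 * 5 ∣ Q ^ 6) :
    ((J6 a b c B m).map (fval 11 13 1 5 9 11 0 PT11 PT13 PT1 t1_143N5 t2_143N5 t3_143N5 rows_143N5 1)).sum % 5 = 0 := by
  have h := use6 tok_143N5 (h := 1) (l := 5) (by norm_num) (by norm_num) (by norm_num)
    (by norm_num) tab1_143N5 tab2_143N5 tab3_143N5 comp11 comp13 comp1 red1_143N5 red2_143N5
    red3_143N5 rok_143N5 S hQ
    (adP6 S (by norm_num) (by norm_num) (pdvd (p := 11) (by norm_num) (by norm_num) hQ))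
    (adP6 S (by norm_num) (by norm_num) (pdvd (p := 13) (by norm_num) (by norm_num) hQ))
    (adT6 _)
  exact h

theorem g_143N5 : GR q_143N5 (11 * 13 * 1 * 5) where
  p1 := by simp only [q_143N5]; norm_num
  p2 := by simp only [q_143N5]; norm_num
  p3 := by simp only [q_143N5]; norm_num
  pl := by simp only [q_143N5]; norm_num
  rel := by
    intro Q a b c B m S hQ
    have h := rel6_143N5 S hQ
    simp only [RL.fv, q_143N5]
    exact h

/-- relation -/
def q_572N5 : RL :=
  ⟨11, 13, 4, 5, 9, 11, 1, PT11, PT13, PT4, t1_572N5, t2_572N5, t3_572N5,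
    rows_572N5, 4⟩

theorem rel6_572N5 {Q : ℕ} {a b c B m : ℤ} (S : Sys6 Q a b c B m)
    (hQ : 11 * 13 * 4 * 5 ∣ Q ^ 6) :
    ((J6 a b c B m).map (fval 11 13 4 5 9 11 1 PT11 PT13 PT4 t1_572N5 t2_572N5 t3_572N5 rows_572N5 4)).sum % 5 = 0 := by
  have h := use6 tok_572N5 (h := 1) (l := 5) (by norm_num) (by norm_num) (by norm_num)
    (by norm_num) tab1_572N5 tab2_572N5 tab3_572N5 comp11 comp13 comp4 red1_572N5 red2_572N5
    red3_572N5 rok_572N5 S hQ
    (adP6 S (by norm_num) (by norm_num) (pdvd (p := 11) (by norm_num) (by norm_num) hQ))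
    (adP6 S (by norm_num) (by norm_num) (pdvd (p := 13) (by norm_num) (by norm_num) hQ))
    (adO6 S (by norm_num))
  exact h

theorem g_572N5 : GR q_572N5 (11 * 13 * 4 * 5) where
  p1 := by simp only [q_572N5]; norm_num
  p2 := by simp only [q_572N5]; norm_num
  p3 := by simp only [q_572N5]; norm_num
  pl := by simp only [q_572N5]; norm_num
  rel := by
    intro Q a b c B m S hQ
    have h := rel6_572N5 S hQ
    simp only [RL.fv, q_572N5]
    exact h

/-- relation -/
def q_88F11 : RL :=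
  ⟨11, 8, 1, 11, 9, 1, 0, PT11, PT8, PT1, t1_88F11, t2_88F11, t3_88F11,
    rows_88F11, 1⟩

theorem rel6_88F11 {Q : ℕ} {a b c B m : ℤ} (S : Sys6 Q a b c B m)
    (hQ : 11 * 8 * 1 * 1331 ∣ Q ^ 6) :
    ((J6 a b c B m).map (fval 11 8 1 11 9 1 0 PT11 PT8 PT1 t1_88F11 t2_88F11 t3_88F11 rows_88F11 1)).sum % 11 = 0 := by
  have h := use6 tok_88F11 (h := 121) (l := 11) (by norm_num) (by norm_num) (by norm_num)
    (by norm_num) tab1_88F11 tab2_88F11 tab3_88F11 comp11 comp8 comp1 red1_88F11 red2_88F11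
    red3_88F11 rok_88F11 S hQ
    (adP6 S (by norm_num) (by norm_num) (pdvd (p := 11) (by norm_num) (by norm_num) hQ))
    (adO6 S (by norm_num))
    (adT6 _)
  exact h

theorem g_88F11 : GR q_88F11 (11 * 8 * 1 * 1331) where
  p1 := by simp only [q_88F11]; norm_num
  p2 := by simp only [q_88F11]; norm_num
  p3 := by simp only [q_88F11]; norm_num
  pl := by simp only [q_88F11]; norm_num
  rel := by
    intro Q a b c B m S hQ
    have h := rel6_88F11 S hQ
    simp only [RL.fv, q_88F11]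
    exact h

end Pool.Agent.PSX.OneP
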