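import Pool.Agent.PSX.OnePR
import Pool.Agent.PSX.T_299N7
import Pool.Agent.PSX.T_460F5
import Pool.Agent.PSX.T_805F5

/-!
Period six, families with one parameter: the relations with the prime 23.
-/

namespace Pool.Agent.PSX.OneP

open Pool.Agent.Lib_helper5 Pool.Agent.Lib_helper5.LK Pool.Agent.LibH4
  Pool.Agent.LibH4.Ker Pool.Agent.LibH4.T6 Pool.Agent.LibH4.KF Pool.Agent.Lib_helper5.TB
open Pool.Agent.PSX.EL

/-- relation -/
def q_299N7 : RL :=
  ⟨23, 13, 1, 7, 21, 11, 0, PT23, PT13, PT1, t1_299N7, t2_299N7, t3_299N7,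
    rows_299N7, 1⟩

theorem g_299N7 : GR q_299N7 (23 * 13 * 1 * 7) where
  p1 := by simp only [q_299N7]; norm_num
  p2 := by simp only [q_299N7]; norm_num
  p3 := by simp only [q_299N7]; norm_num
  pl := by simp only [q_299N7]; norm_num
  rel := by
    intro Q a b c B m S hQ
    have h := rel6_299N7 S hQ
    simp only [RL.fv, q_299N7]
    exact h

/-- relation -/
def q_460F5 : RL :=
  ⟨23, 5, 4, 5, 21, 3, 1, PT23, PT5, PT4, t1_460F5, t2_460F5, t3_460F5,
    rows_460F5, 4⟩

theorem g_460F5 : GR q_460F5 (23 * 5 * 4 * 125) where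
  p1 := by simp only [q_460F5]; norm_num
  p2 := by simp only [q_460F5]; norm_num
  p3 := by simp only [q_460F5]; norm_num
  pl := by simp only [q_460F5]; norm_num
  rel := by
    intro Q a b c B m S hQ
    have h := rel6_460F5 S hQ
    simp only [RL.fv, q_460F5]
    exact h

/-- relation -/
def q_805F5 : RL :=
  ⟨23, 7, 5, 5, 21, 5, 3, PT23, PT7, PT5, t1_805F5, t2_805F5, t3_805F5,
    rows_805F5, 10⟩

theorem g_805F5 : GR q_805F5 (23 * 7 * 5 * 125) where
  p1 := by simp only [q_805F5]; norm_num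
  p2 := by simp only [q_805F5]; norm_num
  p3 := by simp only [q_805F5]; norm_num
  pl := by simp only [q_805F5]; norm_num
  rel := by
    intro Q a b c B m S hQ
    have h := rel6_805F5 S hQ
    simp only [RL.fv, q_805F5]
    exact h

end Pool.Agent.PSX.OneP
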