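import Pool.Agent.PSX.StG

/-!
# Period six, module PHN: `N` times an edge sum and the form modulo `q0 l^s`
-/

set_option autoImplicit false

namespace Pool.Agent.PSX

open Finset (range)
open Pool.Agent.P4G (Fam QN FN FZ CC CR)

/-- Multiplying an edge sum by a constant. -/
theorem PHN_EZ {M : Type*} [CommRing M] (Q : ℕ) [NeZero Q] (k : M) (H H' : ℤ → ℤ → M)
    (h : ∀ x y, k * H x y = k * H' x y) (c : ℤ) : k * EZ Q H c = k * EZ Q H' c := by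
  unfold EZ
  rw [Finset.mul_sum, Finset.mul_sum]
  refine Finset.sum_congr rfl fun x _ => ?_
  rw [Finset.mul_sum, Finset.mul_sum]
  refine Finset.sum_congr rfl fun y _ => ?_
  rw [← mul_assoc, ← mul_assoc, h]

/-- `q0 l^i` kills `l^s` in `ZMod (l^(n+1))` if `n + 1 ≤ i + s`. -/
theorem PHN_zero (l q0 n i s : ℕ) (h : n + 1 ≤ i + s) :
    ((q0 * l ^ i : ℕ) : ZMod (l ^ (n + 1))) * ((l ^ s : ℕ) : ZMod (l ^ (n + 1))) = 0 := by
  rw [← Nat.cast_mul, ZMod.natCast_eq_zero_iff]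
  have h1 : q0 * l ^ i * l ^ s = q0 * l ^ (i + s) := by rw [pow_add, mul_assoc]
  rw [h1]
  exact (pow_dvd_pow l h).mul_left q0

theorem t_PHN (hP : Stmt_PPO) (hE : Stmt_EFZ) : Stmt_PHN := by
  intro l q0 n e ψ _ hF i s his P R S T U V hT hU hV
  obtain ⟨-, -, -, h4, h5⟩ := hP l q0 n e ψ hF
  obtain ⟨T1, hT1⟩ := hT
  obtain ⟨U1, hU1⟩ := hU
  obtain ⟨V1, hV1⟩ := hV
  have hz := PHN_zero l q0 n i s his
  have hN : ((q0 * l ^ i : ℕ) : ZMod (l ^ (n + 1))) *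
      ((q0 * l ^ s : ℕ) : ZMod (l ^ (n + 1))) = 0 := by
    rw [Nat.cast_mul q0 (l ^ s), mul_left_comm, hz, mul_zero]
  have hev : ∀ x y : ℤ, evZ T U V x y = evZ P R S x y + (q0 * l ^ s : ℕ) * evZ T1 U1 V1 x y := by
    intro x y
    unfold evZ
    linear_combination x ^ 2 * hT1 + x * y * hU1 - y ^ 2 * hV1
  constructor
  · intro c
    rw [hE l q0 n e ψ hF, hE l q0 n e ψ hF]
    refine PHN_EZ _ _ _ _ (fun x y => ?_) c
    obtain ⟨t, ht⟩ := h4 (q0 * l ^ s) (Dvd.intro _ rfl) (evZ P R S x y) (evZ T1 U1 V1 x y)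
    rw [hev, ht]
    linear_combination (((evZ T1 U1 V1 x y : ℤ) : ZMod (l ^ (n + 1))) *
      F1 l n e ψ (evZ P R S x y) + ((q0 * l ^ s : ℕ) : ZMod (l ^ (n + 1))) * t) * hN
  · intro P' R' S' T' U' V' c hT' hU' hV'
    obtain ⟨T2, hT2⟩ := hT'
    obtain ⟨U2, hU2⟩ := hU'
    obtain ⟨V2, hV2⟩ := hV'
    unfold ED
    refine PHN_EZ _ _ _ _ (fun x y => ?_) c
    have hev' : evZ T' U' V' x y = evZ P' R' S' x y + (l ^ s : ℕ) * evZ T2 U2 V2 x y := by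
      unfold evZ
      linear_combination x ^ 2 * hT2 + x * y * hU2 - y ^ 2 * hV2
    obtain ⟨t, ht⟩ := h5 (q0 * l ^ s) (Dvd.intro _ rfl) (evZ P R S x y) (evZ T1 U1 V1 x y)
    rw [hev, ht, hev', Int.cast_add, Int.cast_mul, Int.cast_natCast]
    linear_combination (F1 l n e ψ (evZ P R S x y) *
      ((evZ T2 U2 V2 x y : ℤ) : ZMod (l ^ (n + 1)))) * hz + (t *
      (((evZ P' R' S' x y : ℤ) : ZMod (l ^ (n + 1))) +
        ((l ^ s : ℕ) : ZMod (l ^ (n + 1))) * ((evZ T2 U2 V2 x y : ℤ) : ZMod (l ^ (n + 1))))) * hN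

end Pool.Agent.PSX
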