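import Pool.Agent.RQM.C162
import Pool.Agent.PSX.Hodd
import Pool.Agent.PSX.EvMain
import Pool.Agent.PSX.E6Final

/-!
Class number one and period length at most seven.
-/

namespace Pool.Agent.PSX

open scoped NumberField
open Function Pool.Agent.LibH4 Pool.Agent.Lib_helper5 Pool.Agent.LibH4.CFO

/-- the ninety-nine numbers -/
def l99 : List ℕ := [2, 3, 5, 6, 7, 11, 13, 14, 17, 19, 21, 22, 23, 29, 33, 37, 38, 41, 47, 53, 57,
  59, 61, 62, 69, 77, 83, 89, 93, 101, 107, 109, 113, 131, 133, 137, 141, 149, 157, 167, 173, 181,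
  197, 213, 227, 237, 253, 269, 278, 293, 309, 317, 341, 373, 381, 389, 397, 398, 413, 437, 453,
  461, 509, 557, 573, 653, 677, 717, 749, 773, 797, 813, 853, 893, 941, 997, 1013, 1077, 1133,
  1253, 1293, 1397, 1493, 1757, 1877, 1893, 1997, 2309, 2453, 2477, 2621, 2693, 2757, 3053, 3317,
  3533, 3797, 4253, 4973]

lemma l99_eq (d : ℕ) : d ∈ l99 ↔ d ∈ UP.l81 ∨ d ∈ l6 := by
  have h1 : ∀ d ∈ l99, d ∈ UP.l81 ∨ d ∈ l6 := by decide +kernel
  have h2 : ∀ d ∈ UP.l81, d ∈ l99 := by decide +kernel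
  have h3 : ∀ d ∈ l6, d ∈ l99 := by decide +kernel
  exact ⟨h1 d, fun h => h.elim (h2 d) (h3 d)⟩

/-- **period lengths up to seven** -/
theorem sev_le (d : ℕ) (h1 : 1 < d) (hsq : Squarefree d) :
    (minimalPeriod gsh (gsh (omg d)) ≤ 7 ∧ UniqueFactorizationMonoid (𝓞 (KQ d))) ↔ d ∈ l99 := by
  rw [l99_eq, ← UP.short_iff d h1 hsq, ← six_iff hodd Ev.heven d h1 hsq]
  constructor
  · rintro ⟨h2, h3⟩
    by_cases h4 : minimalPeriod gsh (gsh (omg d)) = 6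
    · exact Or.inr ⟨h4, h3⟩
    · exact Or.inl ⟨by omega, h3⟩
  · rintro (⟨h2, h3⟩ | ⟨h2, h3⟩)
    · exact ⟨by omega, h3⟩
    · exact ⟨by omega, h3⟩

lemma l99_sq (d : ℕ) (h : d ∈ l99) : 1 < d ∧ Squarefree d := by
  rcases (l99_eq d).1 h with h | h
  · exact UP.l81_sq d h
  · obtain ⟨p1, p2, -⟩ := fields h
    exact ⟨p1, p2⟩

end Pool.Agent.PSX
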