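import Pool.Agent.RQM.C41

/-!
The check of a table in several parts.
-/

namespace Pool.Agent.Lib_helper5.TB

open Finset LK Pool.Agent.LibH4 Pool.Agent.LibH4.Ker Pool.Agent.LibH4.T6 Pool.Agent.LibH4.KF

lemma allZ_append {α β : Type} {f : α → β → Bool} {L L' : List α} {M M' : List β}
    (h : allZ f L M = true) (h' : allZ f L' M' = true) : allZ f (L ++ L') (M ++ M') = true := by
  induction L generalizing M with
  | nil =>
    cases M with
    | nil => exact h'
    | cons y M => exact absurd h (by simp [allZ])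
  | cons a L ih =>
    cases M with
    | nil => exact absurd h (by simp [allZ])
    | cons b M =>
      have h1 : @Bool.rec (fun _ => Bool) false (allZ f L M) (f a b) = true := h
      obtain ⟨h2, h3⟩ := boolrec_spec h1
      change @Bool.rec (fun _ => Bool) false (allZ f (L ++ L') (M ++ M')) (f a b) = true
      rw [h2]
      exact ih h3

theorem tabCkAll_append {n1 n2 n3 N h T1 T2 T3 : ℕ} {ds : List ℕ}
    {L2 L3 A B F2 F3 : List (ℕ × ℕ)} {w3 w sh2 sh W Y1 Y0 len3 : ℕ} {R R' : List (ℕ × ℕ)}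
    (h1 : tabCkAll n1 n2 n3 N h T1 T2 T3 ds L2 L3 A F2 F3 w3 w sh2 sh W Y1 Y0 len3 R = true)
    (h2 : tabCkAll n1 n2 n3 N h T1 T2 T3 ds L2 L3 B F2 F3 w3 w sh2 sh W Y1 Y0 len3 R' = true) :
    tabCkAll n1 n2 n3 N h T1 T2 T3 ds L2 L3 (A ++ B) F2 F3 w3 w sh2 sh W Y1 Y0 len3 (R ++ R')
      = true := by
  unfold tabCkAll at *
  rw [ggl_eq, strict_eq, mapS_eq, mapS_eq] at *
  exact allZ_append h1 h2

end Pool.Agent.Lib_helper5.TB
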